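import Mathlib

/-!
A barrier (maximum principle) argument for the maximum of finitely many twice differentiable
functions, in terms of a clock `τ`.
-/

set_option autoImplicit false
open Set Filter Topology

namespace Pool.Agent.NBody

theorem barrier {α : Type*} [Finite α] (f g h : α → ℝ → ℝ) (τ ψ : ℝ → ℝ) (K κ₀ lam : ℝ)
    (hK : 0 < K) (hκ₀ : 0 < κ₀) (hlam : 0 < lam)
    (hτ0 : τ 0 = 0) (hτ : ∀ s, HasDerivAt τ (ψ s) s) (hψ : ∀ s, 0 < ψ s)
    (hf : ∀ a s, HasDerivAt (f a) (ψ s * g a s) s)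
    (hg : ∀ a s, HasDerivAt (g a) (ψ s * h a s) s)
    (hmax : ∀ s, 0 ≤ s → ∀ a, (∀ b, f b s ≤ f a s) → -K / (κ₀ + lam * τ s) ^ 2 ≤ h a s)
    (a₀ : α) (ha₀ : ∀ b, f b 0 ≤ f a₀ 0) (ε : ℝ) (hε : 0 < ε) :
    ∀ s, 0 ≤ s → ∃ b, f a₀ 0 + (g a₀ 0 - ε - 2 * K / (lam * κ₀)) * τ s ≤ f b s := by
  classical
  have : Nonempty α := ⟨a₀⟩
  have := Fintype.ofFinite α
  have hτmono : StrictMono τ := strictMono_of_deriv_pos (fun s => by rw [(hτ s).deriv]; exact hψ s)
  have hτnn : ∀ s, 0 ≤ s → 0 ≤ τ s := fun s hs => by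
    rw [← hτ0]; exact hτmono.monotone hs
  have hκpos : ∀ s, 0 ≤ s → 0 < κ₀ + lam * τ s := fun s hs => by
    have := mul_nonneg hlam.le (hτnn s hs)
    linarith
  obtain ⟨β, hβ⟩ : ∃ β : ℝ, β = g a₀ 0 - ε - 2 * K / (lam * κ₀) := ⟨_, rfl⟩
  rw [← hβ]
  -- barrier and its derivative with respect to the clock
  obtain ⟨B, hB⟩ : ∃ B : ℝ → ℝ, ∀ s, B s = f a₀ 0 + β * τ s +
    2 * K / lam ^ 2 * (Real.log (κ₀ + lam * τ s) - Real.log κ₀) := ⟨_, fun _ => rfl⟩
  obtain ⟨b, hb⟩ : ∃ b : ℝ → ℝ, ∀ s, b s = β + 2 * K / (lam * (κ₀ + lam * τ s)) :=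
    ⟨_, fun _ => rfl⟩
  have hBfun : B = fun s => f a₀ 0 + β * τ s +
    2 * K / lam ^ 2 * (Real.log (κ₀ + lam * τ s) - Real.log κ₀) := funext hB
  have hbfun : b = fun s => β + 2 * K / (lam * (κ₀ + lam * τ s)) := funext hb
  have hBderiv : ∀ s, 0 ≤ s → HasDerivAt B (ψ s * b s) s := by
    intro s hs
    have h1 : HasDerivAt (fun s => κ₀ + lam * τ s) (lam * ψ s) s :=
      ((hτ s).const_mul lam).const_add κ₀
    have h2 := h1.log (hκpos s hs).ne'
    have h3 : HasDerivAt B (β * ψ s + 2 * K / lam ^ 2 * (lam * ψ s / (κ₀ + lam * τ s))) s := by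
      rw [hBfun]
      exact (((hτ s).const_mul β).const_add (f a₀ 0)).add
        ((h2.sub_const (Real.log κ₀)).const_mul _)
    have h4 : ψ s * b s = β * ψ s + 2 * K / lam ^ 2 * (lam * ψ s / (κ₀ + lam * τ s)) := by
      rw [hb]
      have := (hκpos s hs).ne'
      field_simp
    rw [h4]
    exact h3
  have hbderiv : ∀ s, 0 ≤ s →
      HasDerivAt b (ψ s * (-(2 * K) / (κ₀ + lam * τ s) ^ 2)) s := by
    intro s hs
    have h1 : HasDerivAt (fun s => κ₀ + lam * τ s) (lam * ψ s) s :=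
      ((hτ s).const_mul lam).const_add κ₀
    have h2 : HasDerivAt (fun s => (κ₀ + lam * τ s)⁻¹) (-(lam * ψ s) / (κ₀ + lam * τ s) ^ 2) s :=
      h1.inv (hκpos s hs).ne'
    have h3 := (h2.const_mul (2 * K / lam)).const_add β
    have h4 : (fun s => β + 2 * K / lam * (κ₀ + lam * τ s)⁻¹) = b := by
      funext t
      rw [hb, div_mul_eq_div_div, div_eq_mul_inv (2 * K / lam)]
    rw [h4] at h3
    have h5 : ψ s * (-(2 * K) / (κ₀ + lam * τ s) ^ 2) =
        2 * K / lam * (-(lam * ψ s) / (κ₀ + lam * τ s) ^ 2) := by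
      have := (hκpos s hs).ne'
      field_simp
    rw [h5]
    exact h3
  -- the maximum function
  obtain ⟨F, hF⟩ : ∃ F : ℝ → ℝ, F = fun s =>
    Finset.univ.sup' Finset.univ_nonempty (fun a => f a s) := ⟨_, rfl⟩
  have hFcont : Continuous F := by
    rw [hF]
    apply Continuous.finset_sup'_apply
    intro a _
    exact continuous_iff_continuousAt.mpr (fun s => (hf a s).continuousAt)
  have hFle : ∀ a s, f a s ≤ F s := fun a s => by
    rw [hF]
    exact Finset.le_sup' (fun a => f a s) (Finset.mem_univ a)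
  have hFex : ∀ s, ∃ a, F s = f a s := fun s => by
    obtain ⟨a, -, ha⟩ := Finset.exists_mem_eq_sup' Finset.univ_nonempty (fun a => f a s)
    exact ⟨a, by rw [hF]; exact ha⟩
  have hB0 : B 0 = f a₀ 0 := by
    rw [hB]; simp [hτ0]
  have hF0 : F 0 = f a₀ 0 := by
    obtain ⟨a, ha⟩ := hFex 0
    exact le_antisymm (by rw [ha]; exact ha₀ a) (hFle a₀ 0)
  have hmain : ∀ s, 0 ≤ s → B s ≤ F s := by
    intro s₂ hs₂
    by_contra hcon
    push Not at hcon
    have hs2pos : 0 < s₂ := by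
      rcases hs₂.lt_or_eq with h | h
      · exact h
      · exfalso
        rw [← h, hB0, hF0] at hcon
        exact lt_irrefl _ hcon
    have hBcont : ContinuousOn B (Icc 0 s₂) := fun s hs =>
      (hBderiv s hs.1).continuousAt.continuousWithinAt
    have hDcont : ContinuousOn (fun s => F s - B s) (Icc 0 s₂) :=
      hFcont.continuousOn.sub hBcont
    -- D is positive somewhere
    have hpos : ∃ s ∈ Icc 0 s₂, 0 < F s - B s := by
      have he : HasDerivAt (fun s => f a₀ s - B s) (ψ 0 * g a₀ 0 - ψ 0 * b 0) 0 :=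
        (hf a₀ 0).sub (hBderiv 0 le_rfl)
      have hval : ψ 0 * g a₀ 0 - ψ 0 * b 0 = ψ 0 * ε := by
        rw [hb, hβ, hτ0, mul_zero, add_zero]
        ring
      rw [hval] at he
      have hpos' : 0 < ψ 0 * ε := mul_pos (hψ 0) hε
      have hslope := (hasDerivAt_iff_tendsto_slope.mp he).eventually (lt_mem_nhds hpos')
      have h1 : ∀ᶠ s in 𝓝[>] (0:ℝ), 0 < slope (fun s => f a₀ s - B s) 0 s :=
        hslope.filter_mono (nhdsWithin_mono _ (fun s hs => ne_of_gt hs))
      have h2 : ∀ᶠ s in 𝓝[>] (0:ℝ), s ∈ Ioo 0 s₂ := Ioo_mem_nhdsGT hs2pos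
      obtain ⟨s, hs1, hs2⟩ := (h1.and h2).exists
      refine ⟨s, ⟨hs2.1.le, hs2.2.le⟩, ?_⟩
      rw [slope_def_field, hB0] at hs1
      simp only [sub_self, sub_zero] at hs1
      have h3 : 0 < f a₀ s - B s := by
        rcases (div_pos_iff.mp hs1) with h | h
        · exact h.1
        · exact absurd h.2 (not_lt.mpr hs2.1.le)
      linarith [hFle a₀ s]
    obtain ⟨s, hs, hspos⟩ := hpos
    obtain ⟨t, ht, htmax⟩ := isCompact_Icc.exists_isMaxOn ⟨s, hs⟩ hDcont
    have hDt : 0 < F t - B t := lt_of_lt_of_le hspos (htmax hs)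
    have ht2 : t ≠ s₂ := by
      rintro rfl
      linarith
    have hlt : t < s₂ := lt_of_le_of_ne ht.2 ht2
    have ht0 : 0 < t := by
      rcases ht.1.lt_or_eq with h | h
      · exact h
      · exfalso
        rw [← h, hB0, hF0] at hDt
        linarith
    obtain ⟨a, ha⟩ := hFex t
    have hamax : ∀ b', f b' t ≤ f a t := fun b' => by rw [← ha]; exact hFle b' t
    have hh := hmax t ht.1 a hamax
    have hemax : ∀ r ∈ Icc 0 s₂, f a r - B r ≤ f a t - B t := by
      intro r hr
      have h1 : F r - B r ≤ F t - B t := htmax hr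
      have h2 := hFle a r
      linarith
    have heder : ∀ r, 0 ≤ r → HasDerivAt (fun r => f a r - B r) (ψ r * (g a r - b r)) r := by
      intro r hr
      have h := (hf a r).sub (hBderiv r hr)
      rw [mul_sub]
      exact h
    have hzero : g a t - b t = 0 := by
      have hloc : IsLocalMax (fun r => f a r - B r) t := by
        filter_upwards [Ioo_mem_nhds ht0 hlt] with r hr
        exact hemax r ⟨hr.1.le, hr.2.le⟩
      have := hloc.hasDerivAt_eq_zero (heder t ht.1)
      rcases mul_eq_zero.mp this with h | h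
      · exact absurd h (hψ t).ne'
      · exact h
    -- the derivative of g - b at t is positive
    have hder2 : HasDerivAt (fun r => g a r - b r)
        (ψ t * h a t - ψ t * (-(2 * K) / (κ₀ + lam * τ t) ^ 2)) t :=
      (hg a t).sub (hbderiv t ht.1)
    have hposd : 0 < ψ t * h a t - ψ t * (-(2 * K) / (κ₀ + lam * τ t) ^ 2) := by
      rw [← mul_sub]
      apply mul_pos (hψ t)
      have h6 : 0 < K / (κ₀ + lam * τ t) ^ 2 := by
        have := hκpos t ht.1
        positivity
      have h7 : -(2 * K) / (κ₀ + lam * τ t) ^ 2 = -K / (κ₀ + lam * τ t) ^ 2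
          - K / (κ₀ + lam * τ t) ^ 2 := by ring
      rw [h7]
      linarith
    have hslope := (hasDerivAt_iff_tendsto_slope.mp hder2).eventually (lt_mem_nhds hposd)
    have h1 : ∀ᶠ r in 𝓝[>] t, 0 < slope (fun r => g a r - b r) t r :=
      hslope.filter_mono (nhdsWithin_mono _ (fun s hs => ne_of_gt hs))
    rw [eventually_nhdsWithin_iff, Metric.eventually_nhds_iff] at h1
    obtain ⟨δ, hδ, hδs⟩ := h1
    obtain ⟨r, hr1, hr2⟩ : ∃ r, t < r ∧ r < min s₂ (t + δ) :=
      exists_between (lt_min hlt (by linarith))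
    have hr3 : r < s₂ := hr2.trans_le (min_le_left _ _)
    have hr4 : r < t + δ := hr2.trans_le (min_le_right _ _)
    have hmono : StrictMonoOn (fun r => f a r - B r) (Icc t r) := by
      apply strictMonoOn_of_deriv_pos (convex_Icc t r)
      · intro u hu
        exact (heder u (ht.1.trans hu.1)).continuousAt.continuousWithinAt
      · intro u hu
        rw [interior_Icc] at hu
        rw [(heder u (ht.1.trans hu.1.le)).deriv]
        apply mul_pos (hψ u)
        have h8 := hδs (y := u) (by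
          rw [Real.dist_eq, abs_of_pos (by linarith [hu.1])]
          linarith [hu.2]) hu.1
        rw [slope_def_field, hzero, sub_zero] at h8
        rcases (div_pos_iff.mp h8) with h | h
        · exact h.1
        · exact absurd h.2 (not_lt.mpr (by linarith [hu.1]))
    have h9 := hmono (left_mem_Icc.mpr hr1.le) (right_mem_Icc.mpr hr1.le) hr1
    have h10 := hemax r ⟨ht.1.trans hr1.le, hr3.le⟩
    simp only at h9
    linarith
  intro s hs
  obtain ⟨a, ha⟩ := hFex s
  refine ⟨a, ?_⟩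
  rw [← ha]
  refine le_trans ?_ (hmain s hs)
  rw [hB]
  have h1 : Real.log κ₀ ≤ Real.log (κ₀ + lam * τ s) := by
    apply Real.log_le_log hκ₀
    have := mul_nonneg hlam.le (hτnn s hs)
    linarith
  have h2 : 0 ≤ 2 * K / lam ^ 2 * (Real.log (κ₀ + lam * τ s) - Real.log κ₀) := by
    apply mul_nonneg (by positivity)
    linarith
  linarith

end Pool.Agent.NBody
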