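import Mathlib

/-!
Elementary lemmas used for the N-body problem: a direction lemma, a gap lemma and the penalty
sequence.
-/

set_option autoImplicit false
open scoped RealInnerProductSpace
open Set Finset Filter Topology

namespace Pool.Agent.NBody

section Direction

variable {W : Type*} [NormedAddCommGroup W] [InnerProductSpace ℝ W]

/-- For finitely many vectors there is a direction which is uniformly far from orthogonal to all
of them. -/
theorem exists_direction (ι : Type*) [Fintype ι] [DecidableEq ι] :
    ∃ η : ℝ, 0 < η ∧ ∀ u : ι → W, ∃ e : W, ‖e‖ ≤ 1 ∧ ∀ k, η * ‖u k‖ ≤ |⟪u k, e⟫| := by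
  have key : ∀ s : Finset ι, ∃ η : ℝ, 0 < η ∧ ∀ u : ι → W, ∃ e : W, ‖e‖ ≤ 1 ∧
      ∀ k ∈ s, η * ‖u k‖ ≤ |⟪u k, e⟫| := by
    intro s
    induction s using Finset.induction_on with
    | empty => exact ⟨1, one_pos, fun u => ⟨0, by simp, by simp⟩⟩
    | insert a s ha ih =>
      obtain ⟨η, hη, H⟩ := ih
      refine ⟨η / (8 * (1 + η)), by positivity, fun u => ?_⟩
      obtain ⟨e, he, hk⟩ := H u
      have hle : η / (8 * (1 + η)) ≤ η / 8 := by
        apply div_le_div_of_nonneg_left hη.le (by norm_num) (by linarith)
      by_cases hcase : η / 8 * ‖u a‖ ≤ |⟪u a, e⟫|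
      · refine ⟨e, he, ?_⟩
        intro k hk'
        rcases Finset.mem_insert.mp hk' with rfl | hks
        · exact le_trans (mul_le_mul_of_nonneg_right hle (norm_nonneg _)) hcase
        · have h1 := hk k hks
          have h2 : η / (8 * (1 + η)) * ‖u k‖ ≤ η * ‖u k‖ := by
            apply mul_le_mul_of_nonneg_right _ (norm_nonneg _)
            linarith
          exact h2.trans h1
      · push Not at hcase
        have hua : u a ≠ 0 := by
          intro h0
          rw [h0] at hcase
          simp at hcase
        have hn : 0 < ‖u a‖ := norm_pos_iff.mpr hua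
        set v : W := (‖u a‖)⁻¹ • u a with hv
        have hvn : ‖v‖ = 1 := by
          rw [hv, norm_smul, norm_inv, norm_norm, inv_mul_cancel₀ hn.ne']
        have hδ : (0:ℝ) < 1 + η / 2 := by positivity
        refine ⟨(1 + η / 2)⁻¹ • (e + (η / 2) • v), ?_, ?_⟩
        · rw [norm_smul, norm_inv, Real.norm_of_nonneg hδ.le]
          rw [inv_mul_le_iff₀ hδ, mul_one]
          calc ‖e + (η / 2) • v‖ ≤ ‖e‖ + ‖(η / 2) • v‖ := norm_add_le _ _
            _ ≤ 1 + η / 2 := by
              rw [norm_smul, hvn, Real.norm_of_nonneg (by positivity : (0:ℝ) ≤ η / 2)]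
              linarith
        · intro k hk'
          rw [inner_smul_right, abs_mul, abs_of_pos (inv_pos.mpr hδ), inner_add_right,
            inner_smul_right]
          have hfin : ∀ y : ℝ, η / 4 * ‖u k‖ ≤ y →
              η / (8 * (1 + η)) * ‖u k‖ ≤ (1 + η / 2)⁻¹ * y := by
            intro y hy
            have h3 : η / (8 * (1 + η)) * ‖u k‖ ≤ (1 + η / 2)⁻¹ * (η / 4 * ‖u k‖) := by
              rw [← mul_assoc]
              apply mul_le_mul_of_nonneg_right _ (norm_nonneg _)
              rw [div_le_iff₀ (by positivity)]
              have : (1 + η / 2)⁻¹ * (η / 4) * (8 * (1 + η)) = η * ((2 * (1 + η)) / (1 + η / 2)) := by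
                field_simp
                ring
              rw [this]
              have h4 : 1 ≤ (2 * (1 + η)) / (1 + η / 2) := by
                rw [le_div_iff₀ hδ]
                linarith
              nlinarith
            refine h3.trans ?_
            exact mul_le_mul_of_nonneg_left hy (inv_nonneg.mpr hδ.le)
          apply hfin
          rcases Finset.mem_insert.mp hk' with rfl | hks
          · have h5 : ⟪u k, v⟫ = ‖u k‖ := by
              rw [hv, inner_smul_right, real_inner_self_eq_norm_sq]
              field_simp
            rw [h5]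
            have h6 : -(η / 8 * ‖u k‖) ≤ ⟪u k, e⟫ := by
              have := neg_abs_le ⟪u k, e⟫
              linarith
            have h7 : η / 4 * ‖u k‖ ≤ ⟪u k, e⟫ + η / 2 * ‖u k‖ := by nlinarith
            exact h7.trans (le_abs_self _)
          · have h5 : |⟪u k, v⟫| ≤ ‖u k‖ := by
              have := abs_real_inner_le_norm (u k) v
              rwa [hvn, mul_one] at this
            have h6 := hk k hks
            have h7 : |⟪u k, e⟫| - |η / 2 * ⟪u k, v⟫| ≤ |⟪u k, e⟫ + η / 2 * ⟪u k, v⟫| := by
              have := abs_sub_abs_le_abs_sub ⟪u k, e⟫ (-(η / 2 * ⟪u k, v⟫))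
              rw [abs_neg, sub_neg_eq_add] at this
              exact this
            rw [abs_mul, abs_of_pos (by positivity : (0:ℝ) < η / 2)] at h7
            have h8 : η / 2 * |⟪u k, v⟫| ≤ η / 2 * ‖u k‖ :=
              mul_le_mul_of_nonneg_left h5 (by positivity)
            have h9 : 0 ≤ η * ‖u k‖ := by positivity
            linarith
  obtain ⟨η, hη, H⟩ := key Finset.univ
  exact ⟨η, hη, fun u => by
    obtain ⟨e, he, hk⟩ := H u
    exact ⟨e, he, fun k => hk k (Finset.mem_univ k)⟩⟩

end Direction

section Gap

variable {ι : Type*} [Fintype ι] [DecidableEq ι]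

/-- If the values of `x` on `C` and off `C` are `γ`-separated, then the sum of `p` over `C` is
controlled by its sums over upper sets bounded by a gap of length `γ`. -/
theorem gap_lemma (x p : ι → ℝ) (C : Finset ι) (γ : ℝ) (hγ : 0 < γ)
    (hC : ∀ i ∈ C, ∀ j ∉ C, γ ≤ |x i - x j|) (δ : ℝ)
    (hδ : ∀ A : Finset ι, (∀ i ∈ A, ∀ j ∉ A, γ ≤ x i - x j) → |∑ i ∈ A, p i| ≤ δ) :
    |∑ i ∈ C, p i| ≤ 2 * (Fintype.card ι : ℝ) * δ := by
  have hδ0 : 0 ≤ δ := (abs_nonneg _).trans (hδ ∅ (by simp))
  have key : ∀ n : ℕ, ∀ U : Finset ι, U.card = n → (∀ i ∈ U, ∀ j ∉ U, γ ≤ x i - x j) →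
      |∑ i ∈ C ∩ U, p i| ≤ 2 * (n : ℝ) * δ := by
    intro n
    induction n using Nat.strong_induction_on with
    | _ n ih =>
      intro U hUn hU
      rcases U.eq_empty_or_nonempty with hUe | hUne
      · subst hUe
        simp only [Finset.inter_empty, Finset.sum_empty, abs_zero]
        positivity
      obtain ⟨j0, hj0U, hj0⟩ := U.exists_min_image x hUne
      by_cases hj0C : j0 ∈ C
      · -- bottom run inside C
        rcases (U \ C).eq_empty_or_nonempty with hE | hNE
        · have hUC : U ⊆ C := Finset.sdiff_eq_empty_iff_subset.mp hE
          rw [Finset.inter_eq_right.mpr hUC]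
          have h1 := hδ U hU
          have h2 : (1:ℝ) ≤ n := by
            rw [← hUn]
            exact_mod_cast Finset.card_pos.mpr hUne
          nlinarith
        · obtain ⟨k, hkU, hk⟩ := (U \ C).exists_min_image x hNE
          rw [Finset.mem_sdiff] at hkU
          set U' : Finset ι := U.filter (fun i => x k ≤ x i) with hU'
          have hU'g : ∀ i ∈ U', ∀ j ∉ U', γ ≤ x i - x j := by
            intro i hi j hj
            rw [hU', Finset.mem_filter] at hi hj
            by_cases hjU : j ∈ U
            · have hjk : x j < x k := by
                by_contra hcon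
                exact hj ⟨hjU, not_lt.mp hcon⟩
              have hjC : j ∈ C := by
                by_contra hjC
                have := hk j (Finset.mem_sdiff.mpr ⟨hjU, hjC⟩)
                linarith
              have h3 := hC j hjC k hkU.2
              rw [abs_sub_comm, abs_of_pos (by linarith)] at h3
              linarith [hi.2]
            · exact hU i hi.1 j hjU
          have hlt : U'.card < n := by
            rw [← hUn]
            apply Finset.card_lt_card
            refine ⟨Finset.filter_subset _ _, fun hsub => ?_⟩
            have h4 := hsub hj0U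
            rw [hU', Finset.mem_filter] at h4
            have h5 := hC j0 hj0C k hkU.2
            have h6 := hj0 k hkU.1
            have h7 : x j0 = x k := le_antisymm h6 h4.2
            rw [h7, sub_self, abs_zero] at h5
            linarith
          have h8 := ih U'.card hlt U' rfl hU'g
          have h9 := hδ U hU
          have h10 := hδ U' hU'g
          have hdecomp : C ∩ U = (C ∩ U') ∪ (U \ U') := by
            ext i
            simp only [Finset.mem_inter, Finset.mem_union, Finset.mem_sdiff]
            constructor
            · rintro ⟨h1, h2⟩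
              by_cases h3 : i ∈ U'
              · exact Or.inl ⟨h1, h3⟩
              · exact Or.inr ⟨h2, h3⟩
            · rintro (⟨h1, h2⟩ | ⟨h1, h2⟩)
              · exact ⟨h1, (Finset.mem_filter.mp h2).1⟩
              · refine ⟨?_, h1⟩
                by_contra hiC
                apply h2
                rw [hU', Finset.mem_filter]
                exact ⟨h1, hk i (Finset.mem_sdiff.mpr ⟨h1, hiC⟩)⟩
          have hdisj : Disjoint (C ∩ U') (U \ U') := by
            rw [Finset.disjoint_left]
            intro i h1 h2
            exact (Finset.mem_sdiff.mp h2).2 (Finset.mem_inter.mp h1).2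
          rw [hdecomp, Finset.sum_union hdisj]
          have hsd : ∑ i ∈ U \ U', p i = ∑ i ∈ U, p i - ∑ i ∈ U', p i := by
            rw [eq_sub_iff_add_eq]
            exact Finset.sum_sdiff (Finset.filter_subset _ _)
          rw [hsd]
          have h11 : ((U'.card : ℕ) : ℝ) + 1 ≤ n := by exact_mod_cast hlt
          have h12 : |∑ i ∈ C ∩ U', p i + (∑ i ∈ U, p i - ∑ i ∈ U', p i)| ≤
              |∑ i ∈ C ∩ U', p i| + (|∑ i ∈ U, p i| + |∑ i ∈ U', p i|) := by
            refine (abs_add_le _ _).trans ?_
            have := abs_sub (∑ i ∈ U, p i) (∑ i ∈ U', p i)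
            linarith
          nlinarith
      · -- bottom run outside C
        rcases (U ∩ C).eq_empty_or_nonempty with hE | hNE
        · rw [Finset.inter_comm, hE]
          simp only [Finset.sum_empty, abs_zero]
          positivity
        · obtain ⟨k, hkU, hk⟩ := (U ∩ C).exists_min_image x hNE
          rw [Finset.mem_inter] at hkU
          set U' : Finset ι := U.filter (fun i => x k ≤ x i) with hU'
          have hU'g : ∀ i ∈ U', ∀ j ∉ U', γ ≤ x i - x j := by
            intro i hi j hj
            rw [hU', Finset.mem_filter] at hi hj
            by_cases hjU : j ∈ U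
            · have hjk : x j < x k := by
                by_contra hcon
                exact hj ⟨hjU, not_lt.mp hcon⟩
              have hjC : j ∉ C := by
                intro hjC
                have := hk j (Finset.mem_inter.mpr ⟨hjU, hjC⟩)
                linarith
              have h3 := hC k hkU.2 j hjC
              rw [abs_of_pos (by linarith)] at h3
              linarith [hi.2]
            · exact hU i hi.1 j hjU
          have hlt : U'.card < n := by
            rw [← hUn]
            apply Finset.card_lt_card
            refine ⟨Finset.filter_subset _ _, fun hsub => ?_⟩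
            have h4 := hsub hj0U
            rw [hU', Finset.mem_filter] at h4
            have h5 := hC k hkU.2 j0 hj0C
            have h6 := hj0 k hkU.1
            have h7 : x j0 = x k := le_antisymm h6 h4.2
            rw [h7, sub_self, abs_zero] at h5
            linarith
          have h8 := ih U'.card hlt U' rfl hU'g
          have hdecomp : C ∩ U = C ∩ U' := by
            ext i
            simp only [Finset.mem_inter]
            constructor
            · rintro ⟨h1, h2⟩
              refine ⟨h1, ?_⟩
              rw [hU', Finset.mem_filter]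
              exact ⟨h2, hk i (Finset.mem_inter.mpr ⟨h2, h1⟩)⟩
            · rintro ⟨h1, h2⟩
              exact ⟨h1, (Finset.mem_filter.mp h2).1⟩
          rw [hdecomp]
          have h11 : ((U'.card : ℕ) : ℝ) ≤ n := by exact_mod_cast hlt.le
          nlinarith
  have h := key (Fintype.card ι) Finset.univ (Finset.card_univ) (by simp)
  rwa [Finset.inter_univ] at h

end Gap

end Pool.Agent.NBody
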