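import Mathlib

/-!
The half-space functional of the N-body problem: maximisers have a gap, hence the force between
the two sides is bounded.
-/

set_option autoImplicit false
open scoped RealInnerProductSpace
open Set Finset Filter Topology

namespace Pool.Agent.NBody

/-- three-dimensional space -/
abbrev V3 := EuclideanSpace ℝ (Fin 3)

/-- the gravitational force on the body `i` -/
noncomputable def force {N : ℕ} (m : Fin N → ℝ) (q : Fin N → V3) (i : Fin N) : V3 :=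
  ∑ j, (m i * m j / ‖q j - q i‖ ^ 3) • (q j - q i)

/-- penalty of a set with `k` elements -/
noncomputable def nu (L : ℝ) (N k : ℕ) : ℝ := ∑ l ∈ Finset.range k, L ^ (N - 1 - l)

theorem nu_succ (L : ℝ) (N k : ℕ) : nu L N (k + 1) = nu L N k + L ^ (N - 1 - k) := by
  simp [nu, Finset.sum_range_succ]

theorem nu_zero (L : ℝ) (N : ℕ) : nu L N 0 = 0 := by simp [nu]

theorem nu_nonneg {L : ℝ} (hL : 1 ≤ L) (N k : ℕ) : 0 ≤ nu L N k := by
  apply Finset.sum_nonneg
  intro l _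
  positivity

theorem nu_mono {L : ℝ} (hL : 1 ≤ L) (N : ℕ) : Monotone (nu L N) := by
  apply monotone_nat_of_le_succ
  intro k
  rw [nu_succ]
  have : 0 ≤ L ^ (N - 1 - k) := by positivity
  linarith

/-- the functional attached to the set `A` of bodies, the direction `e`, the plane `⟪·,e⟫ = s`
and the penalty parameter `κ` -/
noncomputable def fA {N : ℕ} (m : Fin N → ℝ) (L : ℝ) (e : V3) (s : ℝ) (q : Fin N → V3) (κ : ℝ)
    (A : Finset (Fin N)) : ℝ :=
  ∑ i ∈ A, m i * (⟪q i, e⟫ - s) - nu L N A.card * κ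

/-- At a maximiser the two groups are separated by a gap of length `κ`. -/
theorem gap_of_max {N : ℕ} {m : Fin N → ℝ} (hm : ∀ i, 0 < m i) {L : ℝ} (hL1 : 1 ≤ L)
    (hL : ∀ i j, m i * (1 + 1 / m j) ≤ L) {e : V3} {s : ℝ} {q : Fin N → V3} {κ : ℝ} (hκ : 0 < κ)
    {A : Finset (Fin N)} (hA : ∀ B, fA m L e s q κ B ≤ fA m L e s q κ A) :
    ∀ i ∈ A, ∀ j ∉ A, κ ≤ ⟪q i, e⟫ - ⟪q j, e⟫ := by
  intro i hi j hj
  have hcardpos : 1 ≤ A.card := Finset.card_pos.mpr ⟨i, hi⟩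
  have hcardlt : A.card < N := by
    have : A.card < (Finset.univ : Finset (Fin N)).card := by
      apply Finset.card_lt_card
      refine ⟨Finset.subset_univ _, fun h => hj (h (Finset.mem_univ j))⟩
    simpa using this
  -- remove i
  have h1 := hA (A.erase i)
  have h2 := hA (insert j A)
  unfold fA at h1 h2
  rw [Finset.card_erase_of_mem hi, ← Finset.add_sum_erase A _ hi] at h1
  rw [Finset.card_insert_of_notMem hj, Finset.sum_insert hj, nu_succ] at h2
  obtain ⟨k, hk⟩ : ∃ k, A.card = k + 1 := ⟨A.card - 1, by omega⟩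
  rw [hk] at h1 h2 hcardlt
  simp only [Nat.add_sub_cancel] at h1
  rw [nu_succ] at h1
  have hexp : N - 1 - k = (N - 1 - (k + 1)) + 1 := by omega
  rw [hexp, pow_succ] at h1
  set w : ℝ := L ^ (N - 1 - (k + 1)) with hw
  have hw1 : 1 ≤ w := one_le_pow₀ hL1
  -- h1 : m i (x i - s) ≥ w L κ ; h2 : m j (x j - s) ≤ w κ
  have h3 : w * L * κ ≤ m i * (⟪q i, e⟫ - s) := by nlinarith
  have h4 : m j * (⟪q j, e⟫ - s) ≤ w * κ := by nlinarith
  have h5 : w * (1 + 1 / m j) * κ ≤ ⟪q i, e⟫ - s := by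
    have h6 : m i * (w * (1 + 1 / m j) * κ) ≤ m i * (⟪q i, e⟫ - s) := by
      refine le_trans ?_ h3
      have h7 := hL i j
      have h8 : w * κ * (m i * (1 + 1 / m j)) ≤ w * κ * L :=
        mul_le_mul_of_nonneg_left h7 (by positivity)
      calc m i * (w * (1 + 1 / m j) * κ) = w * κ * (m i * (1 + 1 / m j)) := by ring
        _ ≤ w * κ * L := h8
        _ = w * L * κ := by ring
    exact le_of_mul_le_mul_left h6 (hm i)
  have h9 : ⟪q j, e⟫ - s ≤ w * κ / m j := by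
    rw [le_div_iff₀ (hm j)]
    linarith [mul_comm (m j) (⟪q j, e⟫ - s)]
  have h10 : w * (1 + 1 / m j) * κ = w * κ + w * κ / m j := by ring
  have h11 : κ ≤ w * κ := by nlinarith
  linarith

/-- Internal forces cancel. -/
theorem sum_force {N : ℕ} (m : Fin N → ℝ) (q : Fin N → V3) (e : V3) (A : Finset (Fin N)) :
    ∑ i ∈ A, ⟪force m q i, e⟫ =
      ∑ i ∈ A, ∑ j ∈ Aᶜ, (m i * m j / ‖q j - q i‖ ^ 3) * ⟪q j - q i, e⟫ := by
  have h1 : ∀ i, ⟪force m q i, e⟫ = ∑ j, (m i * m j / ‖q j - q i‖ ^ 3) * ⟪q j - q i, e⟫ := by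
    intro i
    unfold force
    rw [sum_inner]
    apply Finset.sum_congr rfl
    intro j _
    rw [real_inner_smul_left]
  have h2 : ∀ i, ⟪force m q i, e⟫ =
      ∑ j ∈ A, (m i * m j / ‖q j - q i‖ ^ 3) * ⟪q j - q i, e⟫ +
      ∑ j ∈ Aᶜ, (m i * m j / ‖q j - q i‖ ^ 3) * ⟪q j - q i, e⟫ := by
    intro i
    rw [h1, Finset.sum_add_sum_compl]
  rw [Finset.sum_congr rfl (fun i _ => h2 i), Finset.sum_add_distrib]
  have h3 : ∑ i ∈ A, ∑ j ∈ A, (m i * m j / ‖q j - q i‖ ^ 3) * ⟪q j - q i, e⟫ = 0 := by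
    have h4 : ∑ i ∈ A, ∑ j ∈ A, (m i * m j / ‖q j - q i‖ ^ 3) * ⟪q j - q i, e⟫ =
        - ∑ i ∈ A, ∑ j ∈ A, (m i * m j / ‖q j - q i‖ ^ 3) * ⟪q j - q i, e⟫ := by
      conv_lhs => rw [Finset.sum_comm]
      rw [← Finset.sum_neg_distrib]
      apply Finset.sum_congr rfl
      intro i _
      rw [← Finset.sum_neg_distrib]
      apply Finset.sum_congr rfl
      intro j _
      rw [norm_sub_rev (q i) (q j), ← neg_sub (q j) (q i), inner_neg_left]
      ring
    linarith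
  rw [h3, zero_add]

/-- The force on a group separated by a gap is bounded below. -/
theorem force_bound {N : ℕ} {m : Fin N → ℝ} (hm : ∀ i, 0 < m i) {e : V3} (he : ‖e‖ ≤ 1)
    {q : Fin N → V3} {κ : ℝ} (hκ : 0 < κ) {A : Finset (Fin N)}
    (hA : ∀ i ∈ A, ∀ j ∉ A, κ ≤ ⟪q i, e⟫ - ⟪q j, e⟫) :
    -((∑ i, m i) ^ 2) / κ ^ 2 ≤ ∑ i ∈ A, ⟪force m q i, e⟫ := by
  rw [sum_force]
  have h1 : ∀ i ∈ A, ∀ j ∈ Aᶜ, -(m i * m j) / κ ^ 2 ≤
      (m i * m j / ‖q j - q i‖ ^ 3) * ⟪q j - q i, e⟫ := by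
    intro i hi j hj
    have h2 := hA i hi j (Finset.mem_compl.mp hj)
    have hmm : 0 < m i * m j := mul_pos (hm i) (hm j)
    have h3 : |⟪q j - q i, e⟫| ≤ ‖q j - q i‖ := by
      refine (abs_real_inner_le_norm _ _).trans ?_
      have := norm_nonneg (q j - q i)
      nlinarith
    have h4 : κ ≤ ‖q j - q i‖ := by
      refine le_trans ?_ h3
      rw [inner_sub_left]
      refine h2.trans ?_
      rw [abs_sub_comm]
      exact le_abs_self _
    have hpos : 0 < ‖q j - q i‖ := hκ.trans_le h4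
    have h5 : -‖q j - q i‖ ≤ ⟪q j - q i, e⟫ := by
      have := neg_abs_le ⟪q j - q i, e⟫
      linarith
    have h6 : (m i * m j / ‖q j - q i‖ ^ 3) * (-‖q j - q i‖) ≤
        (m i * m j / ‖q j - q i‖ ^ 3) * ⟪q j - q i, e⟫ :=
      mul_le_mul_of_nonneg_left h5 (by positivity)
    refine le_trans ?_ h6
    have h7 : (m i * m j / ‖q j - q i‖ ^ 3) * (-‖q j - q i‖) = -(m i * m j) / ‖q j - q i‖ ^ 2 := by
      field_simp
    rw [h7, neg_div, neg_div, neg_le_neg_iff]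
    apply div_le_div_of_nonneg_left hmm.le (by positivity)
    exact pow_le_pow_left₀ hκ.le h4 2
  calc -((∑ i, m i) ^ 2) / κ ^ 2 ≤ ∑ i ∈ A, ∑ j ∈ Aᶜ, -(m i * m j) / κ ^ 2 := by
        have h8 : ∑ i ∈ A, ∑ j ∈ Aᶜ, -(m i * m j) / κ ^ 2 =
            -((∑ i ∈ A, m i) * (∑ j ∈ Aᶜ, m j)) / κ ^ 2 := by
          rw [Finset.sum_mul_sum]
          simp only [neg_div, Finset.sum_neg_distrib, Finset.sum_div]
        rw [h8, neg_div, neg_div, neg_le_neg_iff]
        apply div_le_div_of_nonneg_right _ (by positivity)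
        have h9 : ∑ i ∈ A, m i ≤ ∑ i, m i :=
          Finset.sum_le_sum_of_subset_of_nonneg (Finset.subset_univ _) (fun i _ _ => (hm i).le)
        have h10 : ∑ i ∈ Aᶜ, m i ≤ ∑ i, m i :=
          Finset.sum_le_sum_of_subset_of_nonneg (Finset.subset_univ _) (fun i _ _ => (hm i).le)
        have h11 : 0 ≤ ∑ i ∈ A, m i := Finset.sum_nonneg (fun i _ => (hm i).le)
        have h12 : 0 ≤ ∑ i ∈ Aᶜ, m i := Finset.sum_nonneg (fun i _ => (hm i).le)
        nlinarith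
    _ ≤ _ := Finset.sum_le_sum (fun i hi => Finset.sum_le_sum (fun j hj => h1 i hi j hj))

end Pool.Agent.NBody
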