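import Mathlib
import Pool.Agent.NBody.Basic
import Pool.Agent.NBody.Functional
import Pool.Agent.NBody.Barrier

/-!
Trajectories of the N-body problem with a time change, the growth of the half-space functional
and the no-return lemma.
-/

set_option autoImplicit false
open scoped RealInnerProductSpace
open Set Finset Filter Topology

namespace Pool.Agent.NBody

/-- phase space -/
abbrev Ph (N : ℕ) := (Fin N → V3) × (Fin N → V3)

/-- A solution of the N-body equations, run with the speed `σ`. -/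
structure IsTraj {N : ℕ} (m : Fin N → ℝ) (σ : ℝ → ℝ) (x : ℝ → Ph N) : Prop where
  cont : Continuous σ
  pos : ∀ s, 0 < σ s
  ncol : ∀ s i j, i ≠ j → (x s).1 i ≠ (x s).1 j
  der : ∀ s, HasDerivAt x (σ s • ((fun i => (m i)⁻¹ • (x s).2 i),
    (fun i => force m (x s).1 i))) s

namespace IsTraj

variable {N : ℕ} {m : Fin N → ℝ} {σ : ℝ → ℝ} {x : ℝ → Ph N}

theorem der_q (h : IsTraj m σ x) (i : Fin N) (s : ℝ) :
    HasDerivAt (fun s => (x s).1 i) (σ s • (m i)⁻¹ • (x s).2 i) s := by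
  have h1 := ((ContinuousLinearMap.proj (R := ℝ) (φ := fun _ : Fin N => V3) i).comp
    (ContinuousLinearMap.fst ℝ (Fin N → V3) (Fin N → V3))).hasFDerivAt.comp_hasDerivAt s (h.der s)
  exact h1

theorem der_p (h : IsTraj m σ x) (i : Fin N) (s : ℝ) :
    HasDerivAt (fun s => (x s).2 i) (σ s • force m (x s).1 i) s := by
  have h1 := ((ContinuousLinearMap.proj (R := ℝ) (φ := fun _ : Fin N => V3) i).comp
    (ContinuousLinearMap.snd ℝ (Fin N → V3) (Fin N → V3))).hasFDerivAt.comp_hasDerivAt s (h.der s)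
  exact h1

theorem der_inner_q (h : IsTraj m σ x) (e : V3) (i : Fin N) (s : ℝ) :
    HasDerivAt (fun s => ⟪(x s).1 i, e⟫) (σ s * ((m i)⁻¹ * ⟪(x s).2 i, e⟫)) s := by
  have h1 := (h.der_q i s).inner ℝ (hasDerivAt_const s e)
  simp only [inner_zero_right, zero_add, real_inner_smul_left] at h1
  exact h1

theorem der_inner_p (h : IsTraj m σ x) (e : V3) (i : Fin N) (s : ℝ) :
    HasDerivAt (fun s => ⟪(x s).2 i, e⟫) (σ s * ⟪force m (x s).1 i, e⟫) s := by
  have h1 := (h.der_p i s).inner ℝ (hasDerivAt_const s e)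
  simp only [inner_zero_right, zero_add, real_inner_smul_left] at h1
  exact h1

/-- time reversal -/
theorem reverse (h : IsTraj m σ x) (t : ℝ) :
    IsTraj m (fun s => σ (t - s)) (fun s => ((x (t - s)).1, -(x (t - s)).2)) where
  cont := h.cont.comp (continuous_const.sub continuous_id)
  pos := fun s => h.pos _
  ncol := fun s => h.ncol _
  der := by
    intro s
    have h1 : HasDerivAt (fun s => t - s) (-1 : ℝ) s := by
      simpa using (hasDerivAt_id s).const_sub t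
    have h2 := (h.der (t - s)).scomp s h1
    have h3 : HasDerivAt (fun s => (x (t - s)).1)
        ((-1 : ℝ) • σ (t - s) • fun i => (m i)⁻¹ • (x (t - s)).2 i) s :=
      (ContinuousLinearMap.fst ℝ (Fin N → V3) (Fin N → V3)).hasFDerivAt.comp_hasDerivAt s h2
    have h4 : HasDerivAt (fun s => (x (t - s)).2)
        ((-1 : ℝ) • σ (t - s) • fun i => force m (x (t - s)).1 i) s :=
      (ContinuousLinearMap.snd ℝ (Fin N → V3) (Fin N → V3)).hasFDerivAt.comp_hasDerivAt s h2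
    have h4' : HasDerivAt (fun s => -(x (t - s)).2)
        (-((-1 : ℝ) • σ (t - s) • fun i => force m (x (t - s)).1 i)) s := h4.neg
    have h5 := h3.prodMk h4'
    have h6 : σ (t - s) • ((fun i => (m i)⁻¹ • (-(x (t - s)).2) i),
        (fun i => force m (x (t - s)).1 i)) =
        (((-1 : ℝ) • σ (t - s) • fun i => (m i)⁻¹ • (x (t - s)).2 i),
          (-((-1 : ℝ) • σ (t - s) • fun i => force m (x (t - s)).1 i))) := by
      refine Prod.ext ?_ ?_
      · funext i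
        simp
      · funext i
        simp
    rw [← h6] at h5
    exact h5

end IsTraj

/-- Growth of the half-space functional along a trajectory. -/
theorem forward_growth {N : ℕ} {m : Fin N → ℝ} (hm : ∀ i, 0 < m i) {L : ℝ} (hL1 : 1 ≤ L)
    (hL : ∀ i j, m i * (1 + 1 / m j) ≤ L) {e : V3} (he : ‖e‖ ≤ 1) {s₀ κ₀ lam : ℝ}
    (hκ₀ : 0 < κ₀) (hlam : 0 < lam) {A₀ : Finset (Fin N)} {σ τ : ℝ → ℝ} {x : ℝ → Ph N}
    (hx : IsTraj m σ x) (hτ0 : τ 0 = 0) (hτ : ∀ s, HasDerivAt τ (σ s) s)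
    (hA₀ : ∀ B, fA m L e s₀ (x 0).1 κ₀ B ≤ fA m L e s₀ (x 0).1 κ₀ A₀) {c : ℝ} (hc : 0 < c)
    (hcle : c + 2 * (∑ i, m i) ^ 2 / (lam * κ₀) + nu L N N * lam < ∑ i ∈ A₀, ⟪(x 0).2 i, e⟫) :
    ∀ s, 0 ≤ s → ∃ B, fA m L e s₀ (x 0).1 κ₀ A₀ + c * τ s ≤ fA m L e s₀ (x s).1 κ₀ B := by
  classical
  have hνN : 0 ≤ nu L N N := nu_nonneg hL1 N N
  have hA₀ne : A₀.Nonempty := by
    by_contra h
    rw [Finset.not_nonempty_iff_eq_empty] at h
    rw [h, Finset.sum_empty] at hcle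
    have h1 : 0 ≤ 2 * (∑ i, m i) ^ 2 / (lam * κ₀) := by positivity
    have h2 : 0 ≤ nu L N N * lam := by positivity
    linarith
  obtain ⟨i₀, -⟩ := hA₀ne
  have hM : 0 < ∑ i, m i := Finset.sum_pos (fun i _ => hm i) ⟨i₀, Finset.mem_univ _⟩
  have hτmono : StrictMono τ := strictMono_of_deriv_pos (fun s => by
    rw [(hτ s).deriv]; exact hx.pos s)
  have hτnn : ∀ s, 0 ≤ s → 0 ≤ τ s := fun s hs => by
    rw [← hτ0]; exact hτmono.monotone hs
  obtain ⟨ε, hε, hεle⟩ : ∃ ε > 0,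
      c + ε + 2 * (∑ i, m i) ^ 2 / (lam * κ₀) + nu L N N * lam ≤ ∑ i ∈ A₀, ⟪(x 0).2 i, e⟫ := by
    refine ⟨∑ i ∈ A₀, ⟪(x 0).2 i, e⟫ - (c + 2 * (∑ i, m i) ^ 2 / (lam * κ₀) + nu L N N * lam),
      by linarith, by linarith⟩
  have hb := barrier (α := Finset (Fin N))
    (fun A s => fA m L e s₀ (x s).1 (κ₀ + lam * τ s) A)
    (fun A s => ∑ i ∈ A, ⟪(x s).2 i, e⟫ - nu L N A.card * lam)
    (fun A s => ∑ i ∈ A, ⟪force m (x s).1 i, e⟫) τ σ ((∑ i, m i) ^ 2) κ₀ lam (by positivity)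
    hκ₀ hlam hτ0 hτ hx.pos ?_ ?_ ?_ A₀ ?_ ε hε
  · intro s hs
    obtain ⟨B, hB⟩ := hb s hs
    refine ⟨B, ?_⟩
    have h1 : fA m L e s₀ (x s).1 (κ₀ + lam * τ s) B ≤ fA m L e s₀ (x s).1 κ₀ B := by
      unfold fA
      have h2 : 0 ≤ nu L N B.card := nu_nonneg hL1 N _
      have h3 : 0 ≤ lam * τ s := mul_nonneg hlam.le (hτnn s hs)
      nlinarith
    refine le_trans ?_ h1
    refine le_trans ?_ hB
    rw [hτ0, mul_zero, add_zero]
    have h4 : nu L N A₀.card ≤ nu L N N := by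
      apply nu_mono hL1
      simpa using Finset.card_le_univ A₀
    have h5 : nu L N A₀.card * lam ≤ nu L N N * lam := mul_le_mul_of_nonneg_right h4 hlam.le
    have h6 : c ≤ ∑ i ∈ A₀, ⟪(x 0).2 i, e⟫ - nu L N A₀.card * lam - ε
        - 2 * (∑ i, m i) ^ 2 / (lam * κ₀) := by linarith
    have h7 := mul_le_mul_of_nonneg_right h6 (hτnn s hs)
    linarith
  · -- derivative of f
    intro A s
    unfold fA
    have h1 : HasDerivAt (fun s => ∑ i ∈ A, m i * (⟪(x s).1 i, e⟫ - s₀))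
        (∑ i ∈ A, m i * (σ s * ((m i)⁻¹ * ⟪(x s).2 i, e⟫))) s := by
      apply HasDerivAt.fun_sum
      intro i _
      exact ((hx.der_inner_q e i s).sub_const s₀).const_mul (m i)
    have h2 : HasDerivAt (fun s => nu L N A.card * (κ₀ + lam * τ s))
        (nu L N A.card * (lam * σ s)) s :=
      (((hτ s).const_mul lam).const_add κ₀).const_mul _
    have h3 := h1.sub h2
    have h4 : σ s * (∑ i ∈ A, ⟪(x s).2 i, e⟫ - nu L N A.card * lam) =
        (∑ i ∈ A, m i * (σ s * ((m i)⁻¹ * ⟪(x s).2 i, e⟫))) - nu L N A.card * (lam * σ s) := by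
      rw [mul_sub, Finset.mul_sum]
      congr 1
      · apply Finset.sum_congr rfl
        intro i _
        have := (hm i).ne'
        field_simp
      · ring
    rw [h4]
    exact h3
  · -- derivative of g
    intro A s
    have h1 : HasDerivAt (fun s => ∑ i ∈ A, ⟪(x s).2 i, e⟫)
        (∑ i ∈ A, σ s * ⟪force m (x s).1 i, e⟫) s := by
      apply HasDerivAt.fun_sum
      intro i _
      exact hx.der_inner_p e i s
    have h2 := h1.sub_const (nu L N A.card * lam)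
    rw [Finset.mul_sum]
    exact h2
  · -- at a maximiser
    intro s hs A hA
    have hκ : 0 < κ₀ + lam * τ s := by
      have := mul_nonneg hlam.le (hτnn s hs)
      linarith
    exact force_bound hm he hκ (gap_of_max hm hL1 hL hκ hA)
  · intro B
    rw [hτ0, mul_zero, add_zero]
    exact hA₀ B

theorem continuous_fA {N : ℕ} (m : Fin N → ℝ) (L : ℝ) (e : V3) (s κ : ℝ) (B : Finset (Fin N)) :
    Continuous (fun y : Ph N => fA m L e s y.1 κ B) := by
  unfold fA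
  apply Continuous.sub _ continuous_const
  apply continuous_finsetSum
  intro i _
  apply Continuous.mul continuous_const
  apply Continuous.sub _ continuous_const
  exact ((continuous_apply i).comp continuous_fst).inner continuous_const

/-- No return near a state whose right side moves to the right fast enough. -/
theorem noreturn {N : ℕ} {m : Fin N → ℝ} (hm : ∀ i, 0 < m i) {L : ℝ} (hL1 : 1 ≤ L)
    (hL : ∀ i j, m i * (1 + 1 / m j) ≤ L) {e : V3} (he : ‖e‖ ≤ 1) {s₀ κ₀ lam : ℝ}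
    (hκ₀ : 0 < κ₀) (hlam : 0 < lam) {A₀ : Finset (Fin N)} (x₀ : Ph N)
    (hA₀ : ∀ B, B ≠ A₀ → fA m L e s₀ x₀.1 κ₀ B < fA m L e s₀ x₀.1 κ₀ A₀) {c : ℝ} (hc : 0 < c)
    (hcle : c + 2 * (∑ i, m i) ^ 2 / (lam * κ₀) + nu L N N * lam < ∑ i ∈ A₀, ⟪x₀.2 i, e⟫)
    {τ₀ : ℝ} (hτ₀ : 0 < τ₀) :
    ∃ V ∈ 𝓝 x₀, ∀ (σ τ : ℝ → ℝ) (x : ℝ → Ph N), IsTraj m σ x → τ 0 = 0 →
      (∀ s, HasDerivAt τ (σ s) s) → x 0 ∈ V → ∀ s, 0 ≤ s → τ₀ ≤ τ s → x s ∉ V := by
  classical
  set ε₁ : ℝ := c * τ₀ / 2 with hε₁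
  have hε₁pos : 0 < ε₁ := by positivity
  have hV1 : ∀ B : Finset (Fin N), ∀ᶠ y in 𝓝 x₀,
      |fA m L e s₀ y.1 κ₀ B - fA m L e s₀ x₀.1 κ₀ B| < ε₁ := by
    intro B
    have h1 := (continuous_fA m L e s₀ κ₀ B).continuousAt (x := x₀)
    have h2 := Metric.tendsto_nhds.mp h1 ε₁ hε₁pos
    simpa [Real.dist_eq] using h2
  have hV2 : ∀ B : Finset (Fin N), ∀ᶠ y in 𝓝 x₀,
      B ≠ A₀ → fA m L e s₀ y.1 κ₀ B < fA m L e s₀ y.1 κ₀ A₀ := by
    intro B
    by_cases hB : B = A₀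
    · exact Eventually.of_forall (fun y h => absurd hB h)
    · have h1 := (continuous_fA m L e s₀ κ₀ B).continuousAt (x := x₀)
      have h2 := (continuous_fA m L e s₀ κ₀ A₀).continuousAt (x := x₀)
      have h3 := h1.eventually_lt h2 (hA₀ B hB)
      filter_upwards [h3] with y hy _ using hy
  have hV3 : ∀ᶠ y : Ph N in 𝓝 x₀,
      c + 2 * (∑ i, m i) ^ 2 / (lam * κ₀) + nu L N N * lam < ∑ i ∈ A₀, ⟪y.2 i, e⟫ := by
    have h1 : Continuous (fun y : Ph N => ∑ i ∈ A₀, ⟪y.2 i, e⟫) := by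
      apply continuous_finsetSum
      intro i _
      exact ((continuous_apply i).comp continuous_snd).inner continuous_const
    exact h1.continuousAt.eventually (lt_mem_nhds hcle)
  have hV : ∀ᶠ y in 𝓝 x₀, (∀ B : Finset (Fin N),
      |fA m L e s₀ y.1 κ₀ B - fA m L e s₀ x₀.1 κ₀ B| < ε₁) ∧
      (∀ B : Finset (Fin N), B ≠ A₀ → fA m L e s₀ y.1 κ₀ B < fA m L e s₀ y.1 κ₀ A₀) ∧
      c + 2 * (∑ i, m i) ^ 2 / (lam * κ₀) + nu L N N * lam < ∑ i ∈ A₀, ⟪y.2 i, e⟫ :=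
    (eventually_all.mpr hV1).and ((eventually_all.mpr hV2).and hV3)
  refine ⟨_, hV, ?_⟩
  intro σ τ x hx hτ0 hτ hx0 s hs hτs hxs
  obtain ⟨h1, h2, h3⟩ := hx0
  obtain ⟨h4, -, -⟩ := hxs
  obtain ⟨B, hB⟩ := forward_growth hm hL1 hL he hκ₀ hlam hx hτ0 hτ (A₀ := A₀) (fun B => by
    by_cases hBA : B = A₀
    · rw [hBA]
    · exact (h2 B hBA).le) hc h3 s hs
  have h5 := h4 B
  have h6 := h1 A₀
  rw [abs_lt] at h5 h6
  have h7 : fA m L e s₀ x₀.1 κ₀ B ≤ fA m L e s₀ x₀.1 κ₀ A₀ := by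
    by_cases hBA : B = A₀
    · rw [hBA]
    · exact (hA₀ B hBA).le
  have h8 : c * τ₀ ≤ c * τ s := mul_le_mul_of_nonneg_left hτs hc.le
  have h9 : 2 * ε₁ = c * τ₀ := by rw [hε₁]; ring
  linarith [h5.2, h6.1]

end Pool.Agent.NBody
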