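import Mathlib
import Pool.Agent.NBody.Traj

/-!
Near a collision-free state every trajectory needs a definite amount of Newtonian time.
-/

set_option autoImplicit false
open scoped RealInnerProductSpace
open Set Finset Filter Topology

namespace Pool.Agent.NBody

theorem continuousAt_force {N : ℕ} (m : Fin N → ℝ) {x₀ : Ph N}
    (hnc : ∀ i j, i ≠ j → x₀.1 i ≠ x₀.1 j) (i : Fin N) :
    ContinuousAt (fun y : Ph N => force m y.1 i) x₀ := by
  unfold force
  apply tendsto_finsetSum
  intro j _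
  by_cases hij : j = i
  · subst hij
    simp only [sub_self, smul_zero]
    exact tendsto_const_nhds
  · have h1 : Continuous (fun y : Ph N => y.1 j - y.1 i) :=
      ((continuous_apply j).comp continuous_fst).sub ((continuous_apply i).comp continuous_fst)
    have h2 : ContinuousAt (fun y : Ph N => m i * m j / ‖y.1 j - y.1 i‖ ^ 3) x₀ := by
      apply ContinuousAt.div continuousAt_const (h1.norm.pow 3).continuousAt
      have : x₀.1 j - x₀.1 i ≠ 0 := sub_ne_zero.mpr (hnc j i hij)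
      exact pow_ne_zero 3 (norm_ne_zero_iff.mpr this)
    exact h2.smul h1.continuousAt

theorem clock_lower {N : ℕ} {m : Fin N → ℝ} {x₀ : Ph N}
    (hnc : ∀ i j, i ≠ j → x₀.1 i ≠ x₀.1 j) {ψ : Ph N → ℝ} (hψc : ContinuousAt ψ x₀)
    (hψpos : 0 < ψ x₀) :
    ∃ V ∈ 𝓝 x₀, ∃ τ₀ > 0, ∀ (σ τ : ℝ → ℝ) (x : ℝ → Ph N), IsTraj m σ x →
      (∀ s, σ s = ψ (x s)) → τ 0 = 0 → (∀ s, HasDerivAt τ (σ s) s) → x 0 ∈ V →
      ∀ s, 1 ≤ s → τ₀ ≤ τ s := by
  set X : Ph N → Ph N := fun y => ((fun i => (m i)⁻¹ • y.2 i), (fun i => force m y.1 i)) with hX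
  have hXc : ContinuousAt X x₀ := by
    apply ContinuousAt.prodMk
    · apply continuousAt_pi.mpr
      intro i
      have h : Continuous (fun y : Ph N => y.2 i) := (continuous_apply i).comp continuous_snd
      exact (h.const_smul ((m i)⁻¹)).continuousAt
    · apply continuousAt_pi.mpr
      intro i
      exact continuousAt_force m hnc i
  set K : ℝ := ‖X x₀‖ + 1 with hK
  have hKpos : 0 < K := by positivity
  have h1 : ∀ᶠ y in 𝓝 x₀, ‖X y‖ < K := hXc.norm.eventually_lt continuousAt_const (by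
    rw [hK]; linarith)
  have h2 : ∀ᶠ y in 𝓝 x₀, ψ x₀ / 2 < ψ y := continuousAt_const.eventually_lt hψc (by linarith)
  obtain ⟨R, hR, hRb⟩ := Metric.eventually_nhds_iff_ball.mp (h1.and h2)
  refine ⟨Metric.ball x₀ (R / 2), Metric.ball_mem_nhds _ (by linarith),
    min (ψ x₀ / 2) (R / 2 / (K + 1)), by positivity, ?_⟩
  intro σ τ x hx hσ hτ0 hτ hx0 s hs
  have hτmono : StrictMono τ := strictMono_of_deriv_pos (fun s => by
    rw [(hτ s).deriv]; exact hx.pos s)
  refine le_trans ?_ (hτmono.monotone hs)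
  by_contra hcon
  push Not at hcon
  have hc1 : τ 1 < ψ x₀ / 2 := hcon.trans_le (min_le_left _ _)
  have hc2 : τ 1 < R / 2 / (K + 1) := hcon.trans_le (min_le_right _ _)
  have hc3 : (K + 1) * τ 1 < R / 2 := by
    rw [lt_div_iff₀ (by positivity)] at hc2
    linarith
  have hinball : ∀ s ∈ Icc (0:ℝ) 1, ‖x s - x 0‖ ≤ (K + 1) * τ s → x s ∈ Metric.ball x₀ R := by
    intro s hs h
    have h3 : (K + 1) * τ s ≤ (K + 1) * τ 1 :=
      mul_le_mul_of_nonneg_left (hτmono.monotone hs.2) (by positivity)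
    rw [Metric.mem_ball, dist_eq_norm] at hx0 ⊢
    calc ‖x s - x₀‖ = ‖(x s - x 0) + (x 0 - x₀)‖ := by congr 1; abel
      _ ≤ ‖x s - x 0‖ + ‖x 0 - x₀‖ := norm_add_le _ _
      _ < R := by linarith
  have hmain := image_norm_le_of_norm_deriv_right_lt_deriv_boundary
    (f := fun s => x s - x 0) (f' := fun s => σ s • X (x s)) (a := 0) (b := 1)
    (B := fun s => (K + 1) * τ s) (B' := fun s => (K + 1) * σ s)
    (by
      intro s _
      exact ((hx.der s).sub_const (x 0)).continuousAt.continuousWithinAt)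
    (by
      intro s _
      exact ((hx.der s).sub_const (x 0)).hasDerivWithinAt)
    (by simp [hτ0])
    (fun s => (hτ s).const_mul _)
    (by
      intro s hs heq
      have hb := hinball s ⟨hs.1, hs.2.le⟩ heq.le
      have h4 := (hRb _ hb).1
      rw [norm_smul, Real.norm_of_nonneg (hx.pos s).le]
      have h5 := hx.pos s
      nlinarith)
  have hσlow : ∀ s ∈ Icc (0:ℝ) 1, ψ x₀ / 2 < σ s := by
    intro s hs
    rw [hσ]
    exact (hRb _ (hinball s hs (hmain hs))).2
  -- mean value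
  obtain ⟨ξ, hξ, hξe⟩ := exists_hasDerivAt_eq_slope τ σ zero_lt_one
    (fun s _ => (hτ s).continuousAt.continuousWithinAt) (fun s _ => hτ s)
  rw [hτ0] at hξe
  have h6 := hσlow ξ ⟨hξ.1.le, hξ.2.le⟩
  simp only [sub_zero, div_one] at hξe
  linarith

end Pool.Agent.NBody
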