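import Mathlib
import Pool.Agent.NBody.Functional

/-!
Local momentum bounds for all subsystems imply a bound for the moment tensor.
-/

set_option autoImplicit false
open scoped RealInnerProductSpace
open Set Finset Filter Topology

namespace Pool.Agent.NBody

/-- A finite set of at most `N` points with diameter `D > 0` splits into two nonempty parts at
distance at least `D / N`. -/
theorem exists_split {ι : Type*} [DecidableEq ι] {W : Type*} [PseudoMetricSpace W] (q : ι → W)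
    (S : Finset ι) (N : ℕ) (hSN : S.card ≤ N) (D : ℝ) (hD : 0 < D) (u v : ι) (hu : u ∈ S)
    (hv : v ∈ S) (huv : D ≤ dist (q u) (q v)) :
    ∃ A B : Finset ι, A ∪ B = S ∧ Disjoint A B ∧ u ∈ A ∧ v ∈ B ∧
      ∀ i ∈ A, ∀ j ∈ B, D / N ≤ dist (q i) (q j) := by
  have hNpos : 0 < N := lt_of_lt_of_le (Finset.card_pos.mpr ⟨u, hu⟩) hSN
  have hNr : (0:ℝ) < N := by exact_mod_cast hNpos
  set δ : ℝ := D / N with hδ
  have hδpos : 0 < δ := by positivity
  have hNδ : (N:ℝ) * δ = D := by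
    rw [hδ]; field_simp
  -- a gap in the distances from u
  obtain ⟨k, hk, hgap⟩ : ∃ k : ℕ, k < N ∧ ∀ i ∈ S, ¬ (k * δ < dist (q u) (q i) ∧
      dist (q u) (q i) ≤ (k + 1) * δ) := by
    by_contra hcon
    push Not at hcon
    choose g hg using hcon
    have hmaps : ∀ k ∈ (Finset.range N).attach, g k.1 (Finset.mem_range.mp k.2) ∈ S.erase u := by
      intro k _
      obtain ⟨h1, h2, h3⟩ := hg k.1 (Finset.mem_range.mp k.2)
      rw [Finset.mem_erase]
      refine ⟨?_, h1⟩
      intro h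
      rw [h, dist_self] at h2
      have : (0:ℝ) ≤ (k.1:ℝ) * δ := by positivity
      linarith
    have hinj : ∀ k₁ ∈ (Finset.range N).attach, ∀ k₂ ∈ (Finset.range N).attach,
        g k₁.1 (Finset.mem_range.mp k₁.2) = g k₂.1 (Finset.mem_range.mp k₂.2) → k₁ = k₂ := by
      intro k₁ _ k₂ _ h
      obtain ⟨-, h2, h3⟩ := hg k₁.1 (Finset.mem_range.mp k₁.2)
      obtain ⟨-, h2', h3'⟩ := hg k₂.1 (Finset.mem_range.mp k₂.2)
      rw [h] at h2 h3
      have e1 : (k₁.1:ℝ) < k₂.1 + 1 := by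
        have : (k₁.1:ℝ) * δ < (k₂.1 + 1) * δ := lt_of_lt_of_le h2 h3'
        exact lt_of_mul_lt_mul_right this hδpos.le
      have e2 : (k₂.1:ℝ) < k₁.1 + 1 := by
        have : (k₂.1:ℝ) * δ < (k₁.1 + 1) * δ := lt_of_lt_of_le h2' h3
        exact lt_of_mul_lt_mul_right this hδpos.le
      have e1' : k₁.1 < k₂.1 + 1 := by exact_mod_cast e1
      have e2' : k₂.1 < k₁.1 + 1 := by exact_mod_cast e2
      exact Subtype.ext (by omega)
    have hcard := Finset.card_le_card_of_injOn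
      (f := fun k : {x // x ∈ Finset.range N} => g k.1 (Finset.mem_range.mp k.2)) hmaps
      (fun k₁ h₁ k₂ h₂ h => hinj k₁ h₁ k₂ h₂ h)
    rw [Finset.card_attach, Finset.card_range, Finset.card_erase_of_mem hu] at hcard
    omega
  refine ⟨S.filter (fun i => dist (q u) (q i) ≤ k * δ),
    S.filter (fun i => ¬ dist (q u) (q i) ≤ k * δ), Finset.filter_union_filter_not_eq _ S,
    Finset.disjoint_filter_filter_not _ _ _, ?_, ?_, ?_⟩
  · rw [Finset.mem_filter, dist_self]
    exact ⟨hu, by positivity⟩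
  · rw [Finset.mem_filter]
    refine ⟨hv, ?_⟩
    push Not
    have h1 : (k:ℝ) < N := by exact_mod_cast hk
    have h2 : (k:ℝ) * δ < N * δ := mul_lt_mul_of_pos_right h1 hδpos
    linarith
  · intro i hi j hj
    rw [Finset.mem_filter] at hi hj
    have h1 := hgap j hj.1
    push Not at h1
    have h2 := h1 (not_le.mp hj.2)
    have h3 : dist (q u) (q j) ≤ dist (q u) (q i) + dist (q i) (q j) := dist_triangle _ _ _
    have h4 : ((k:ℝ) + 1) * δ = k * δ + δ := by ring
    linarith [hi.2]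

theorem tensor_bound {N : ℕ} (q p : Fin N → V3) (C D : ℝ) (hC : 0 ≤ C)
    (hD : ∀ i j, ‖q i - q j‖ ≤ D)
    (hP : ∀ (A : Finset (Fin N)) (d : ℝ), 0 < d → (∀ i ∈ A, ∀ j ∉ A, d ≤ ‖q i - q j‖) →
      ‖∑ i ∈ A, p i‖ ^ 2 * d ≤ C) (a b : Fin 3) :
    ∀ (n : ℕ) (S : Finset (Fin N)), S.card = n → ∀ c ∈ S,
      (∀ D' : ℝ, 0 < D' → (∃ i ∈ S, ∃ j ∈ S, D' ≤ ‖q i - q j‖) →
        ∀ i ∈ S, ∀ j ∉ S, D' / N ≤ ‖q i - q j‖) →
      |∑ i ∈ S, (q i - q c) a * p i b| ≤ (n - 1 : ℝ) * Real.sqrt (C * N * D) := by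
  intro n
  induction n using Nat.strong_induction_on with
  | _ n ih =>
    intro S hSn c hc hsep
    have hcard1 : 1 ≤ n := by rw [← hSn]; exact Finset.card_pos.mpr ⟨c, hc⟩
    have hn1 : (1:ℝ) ≤ n := by exact_mod_cast hcard1
    have hκ : 0 ≤ Real.sqrt (C * N * D) := Real.sqrt_nonneg _
    -- the two points at maximal distance
    obtain ⟨uv, huv, hmax⟩ := (S ×ˢ S).exists_max_image (fun z => ‖q z.1 - q z.2‖)
      ⟨(c, c), Finset.mem_product.mpr ⟨hc, hc⟩⟩
    rw [Finset.mem_product] at huv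
    set D₁ : ℝ := ‖q uv.1 - q uv.2‖ with hD₁
    have hmax' : ∀ i ∈ S, ∀ j ∈ S, ‖q i - q j‖ ≤ D₁ := fun i hi j hj =>
      hmax (i, j) (Finset.mem_product.mpr ⟨hi, hj⟩)
    rcases (norm_nonneg (q uv.1 - q uv.2)).lt_or_eq with hpos | hzero
    swap
    · -- all positions coincide
      have hall : ∀ i ∈ S, (q i - q c) a * p i b = 0 := by
        intro i hi
        have h1 := hmax' i hi c hc
        rw [hD₁, ← hzero] at h1
        have h2 : q i - q c = 0 := norm_le_zero_iff.mp h1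
        rw [h2]
        simp
      rw [Finset.sum_eq_zero hall, abs_zero]
      apply mul_nonneg (by linarith) hκ
    have hSN : S.card ≤ N := by simpa using Finset.card_le_univ S
    obtain ⟨A, B, hAB, hdisj, huA, hvB, hdist⟩ := exists_split q S N hSN D₁ hpos uv.1 uv.2 huv.1
      huv.2 (by rw [dist_eq_norm])
    have hNpos : 0 < N := lt_of_lt_of_le (Finset.card_pos.mpr ⟨c, hc⟩) hSN
    have hNr : (0:ℝ) < N := by exact_mod_cast hNpos
    have hD₁le : D₁ ≤ D := hD _ _
    -- key estimate for a part X of the splitting, seen from the other part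
    have key : ∀ X Y : Finset (Fin N), X ∪ Y = S → Disjoint X Y → X.Nonempty → Y.Nonempty →
        (∀ i ∈ X, ∀ j ∈ Y, D₁ / N ≤ ‖q i - q j‖) → c ∈ X →
        |∑ i ∈ S, (q i - q c) a * p i b| ≤ (n - 1 : ℝ) * Real.sqrt (C * N * D) := by
      intro X Y hXY hdXY hXne hYne hXYd hcX
      obtain ⟨c', hc'⟩ := hYne
      have hXS : X ⊆ S := hXY ▸ Finset.subset_union_left
      have hYS : Y ⊆ S := hXY ▸ Finset.subset_union_right
      have hcards : X.card + Y.card = n := by
        rw [← hSn, ← hXY, Finset.card_union_of_disjoint hdXY]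
      have hXpos : 0 < X.card := Finset.card_pos.mpr hXne
      have hYpos : 0 < Y.card := Finset.card_pos.mpr ⟨c', hc'⟩
      -- separation from the outside, for both parts
      have hout : ∀ i ∈ S, ∀ j ∉ S, D₁ / N ≤ ‖q i - q j‖ := fun i hi j hj =>
        hsep D₁ hpos ⟨uv.1, huv.1, uv.2, huv.2, le_rfl⟩ i hi j hj
      have hXsep : ∀ i ∈ X, ∀ j ∉ X, D₁ / N ≤ ‖q i - q j‖ := by
        intro i hi j hj
        by_cases hjS : j ∈ S
        · have hjY : j ∈ Y := by
            rw [← hXY, Finset.mem_union] at hjS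
            exact hjS.resolve_left hj
          exact hXYd i hi j hjY
        · exact hout i (hXS hi) j hjS
      have hYsep : ∀ i ∈ Y, ∀ j ∉ Y, D₁ / N ≤ ‖q i - q j‖ := by
        intro i hi j hj
        by_cases hjS : j ∈ S
        · have hjX : j ∈ X := by
            rw [← hXY, Finset.mem_union] at hjS
            exact hjS.resolve_right hj
          rw [norm_sub_rev]
          exact hXYd j hjX i hi
        · exact hout i (hYS hi) j hjS
      have hsub : ∀ Z : Finset (Fin N), Z ⊆ S → (∀ i ∈ Z, ∀ j ∉ Z, D₁ / N ≤ ‖q i - q j‖) →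
          ∀ D' : ℝ, 0 < D' → (∃ i ∈ Z, ∃ j ∈ Z, D' ≤ ‖q i - q j‖) →
          ∀ i ∈ Z, ∀ j ∉ Z, D' / N ≤ ‖q i - q j‖ := by
        intro Z hZS hZ D' hD' hex i hi j hj
        obtain ⟨i', hi', j', hj', hle⟩ := hex
        have h1 : D' ≤ D₁ := hle.trans (hmax' i' (hZS hi') j' (hZS hj'))
        refine le_trans ?_ (hZ i hi j hj)
        exact div_le_div_of_nonneg_right h1 hNr.le
      have ihX := ih X.card (by omega) X rfl c hcX (hsub X hXS hXsep)
      have ihY := ih Y.card (by omega) Y rfl c' hc' (hsub Y hYS hYsep)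
      have hPY : ‖∑ i ∈ Y, p i‖ ^ 2 * (D₁ / N) ≤ C := hP Y (D₁ / N) (by positivity) hYsep
      have hsum : ∑ i ∈ S, (q i - q c) a * p i b =
          ∑ i ∈ X, (q i - q c) a * p i b + ∑ i ∈ Y, (q i - q c') a * p i b +
            (q c' - q c) a * (∑ i ∈ Y, p i) b := by
        rw [← hXY, Finset.sum_union hdXY, add_assoc]
        congr 1
        have h1 : (∑ i ∈ Y, p i) b = ∑ i ∈ Y, p i b := by
          simp
        rw [h1, Finset.mul_sum, ← Finset.sum_add_distrib]
        apply Finset.sum_congr rfl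
        intro i _
        simp only [PiLp.sub_apply]
        ring
      have hcoord : ∀ (w : V3) (a : Fin 3), |w a| ≤ ‖w‖ := fun w a => by
        have := PiLp.norm_apply_le w a
        simpa using this
      have hlast : |(q c' - q c) a * (∑ i ∈ Y, p i) b| ≤ Real.sqrt (C * N * D) := by
        rw [abs_mul]
        have h1 : |(q c' - q c) a| * |(∑ i ∈ Y, p i) b| ≤ D₁ * ‖∑ i ∈ Y, p i‖ := by
          apply mul_le_mul
          · exact (hcoord _ _).trans (hmax' c' (hYS hc') c hc)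
          · exact hcoord _ _
          · exact abs_nonneg _
          · exact hpos.le
        refine h1.trans ?_
        apply Real.le_sqrt_of_sq_le
        have h2 : (D₁ * ‖∑ i ∈ Y, p i‖) ^ 2 = (‖∑ i ∈ Y, p i‖ ^ 2 * (D₁ / N)) * (N * D₁) := by
          field_simp
        rw [h2]
        calc (‖∑ i ∈ Y, p i‖ ^ 2 * (D₁ / N)) * (N * D₁) ≤ C * (N * D₁) :=
              mul_le_mul_of_nonneg_right hPY (by positivity)
          _ ≤ C * (N * D) := by
              apply mul_le_mul_of_nonneg_left _ hC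
              exact mul_le_mul_of_nonneg_left hD₁le hNr.le
          _ = C * N * D := by ring
      rw [hsum]
      have hcast : (X.card : ℝ) + (Y.card : ℝ) = n := by exact_mod_cast hcards
      have h3 := abs_add_le (∑ i ∈ X, (q i - q c) a * p i b + ∑ i ∈ Y, (q i - q c') a * p i b)
        ((q c' - q c) a * (∑ i ∈ Y, p i) b)
      have h4 := abs_add_le (∑ i ∈ X, (q i - q c) a * p i b) (∑ i ∈ Y, (q i - q c') a * p i b)
      have h5 : ((X.card:ℝ) - 1) * Real.sqrt (C * N * D) + ((Y.card:ℝ) - 1) *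
          Real.sqrt (C * N * D) + Real.sqrt (C * N * D) = (n - 1 : ℝ) * Real.sqrt (C * N * D) := by
        rw [← hcast]; ring
      linarith
    have hdist' : ∀ i ∈ A, ∀ j ∈ B, D₁ / N ≤ ‖q i - q j‖ := fun i hi j hj => by
      rw [← dist_eq_norm]; exact hdist i hi j hj
    have hcAB : c ∈ A ∪ B := by rw [hAB]; exact hc
    rcases Finset.mem_union.mp hcAB with hcA | hcB
    · exact key A B hAB hdisj ⟨_, huA⟩ ⟨_, hvB⟩ hdist' hcA
    · refine key B A (by rw [Finset.union_comm]; exact hAB) hdisj.symm ⟨_, hvB⟩ ⟨_, huA⟩ ?_ hcB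
      intro i hi j hj
      rw [norm_sub_rev]
      exact hdist' j hj i hi

/-- The moment tensor is controlled by the square root of the size. -/
theorem tensor_bound_size {N : ℕ} {m : Fin N → ℝ} {μ : ℝ} (hμ : 0 < μ) (hμm : ∀ i, μ ≤ m i)
    (q p : Fin N → V3) (C : ℝ) (hC : 0 ≤ C) (hp : ∑ i, p i = 0)
    (hP : ∀ (A : Finset (Fin N)) (d : ℝ), 0 < d → (∀ i ∈ A, ∀ j ∉ A, d ≤ ‖q i - q j‖) →
      ‖∑ i ∈ A, p i‖ ^ 2 * d ≤ C) (a b : Fin 3) :
    (∑ i, q i a * p i b) ^ 2 ≤ (2 * N ^ 3 * C / Real.sqrt μ) *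
      Real.sqrt (∑ i, m i * ‖q i‖ ^ 2) := by
  set I : ℝ := ∑ i, m i * ‖q i‖ ^ 2 with hI
  have hI0 : 0 ≤ I := Finset.sum_nonneg (fun i _ => by
    have := hμ.le.trans (hμm i)
    positivity)
  rcases Nat.eq_zero_or_pos N with hN | hN
  · subst hN
    simp [hI]
  have hqi : ∀ i, ‖q i‖ ≤ Real.sqrt I / Real.sqrt μ := by
    intro i
    rw [le_div_iff₀ (Real.sqrt_pos.mpr hμ)]
    apply Real.le_sqrt_of_sq_le
    rw [mul_pow, Real.sq_sqrt hμ.le]
    calc ‖q i‖ ^ 2 * μ ≤ m i * ‖q i‖ ^ 2 := by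
          have := hμm i
          nlinarith [sq_nonneg ‖q i‖]
      _ ≤ I := Finset.single_le_sum (f := fun i => m i * ‖q i‖ ^ 2) (fun i _ => by
          have := hμ.le.trans (hμm i)
          positivity) (Finset.mem_univ i)
  have hD : ∀ i j, ‖q i - q j‖ ≤ 2 * (Real.sqrt I / Real.sqrt μ) := by
    intro i j
    have := norm_sub_le (q i) (q j)
    linarith [hqi i, hqi j]
  have c : Fin N := ⟨0, hN⟩
  have h1 := tensor_bound q p C (2 * (Real.sqrt I / Real.sqrt μ)) hC hD hP a b N Finset.univ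
    (by simp) c (Finset.mem_univ c) (fun D' _ _ i _ j hj => absurd (Finset.mem_univ j) hj)
  have h2 : ∑ i, (q i - q c) a * p i b = ∑ i, q i a * p i b := by
    have h3 : ∑ i, (q i - q c) a * p i b = ∑ i, q i a * p i b - q c a * (∑ i, p i) b := by
      have h4 : (∑ i, p i) b = ∑ i, p i b := by simp
      rw [h4, Finset.mul_sum, ← Finset.sum_sub_distrib]
      apply Finset.sum_congr rfl
      intro i _
      simp only [PiLp.sub_apply]
      ring
    rw [h3, hp]
    simp
  rw [h2] at h1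
  have hN1 : (1:ℝ) ≤ N := by exact_mod_cast hN
  set K : ℝ := C * N * (2 * (Real.sqrt I / Real.sqrt μ)) with hK
  have hK0 : 0 ≤ K := by positivity
  calc (∑ i, q i a * p i b) ^ 2 = |∑ i, q i a * p i b| ^ 2 := (sq_abs _).symm
    _ ≤ ((N - 1 : ℝ) * Real.sqrt K) ^ 2 := pow_le_pow_left₀ (abs_nonneg _) h1 2
    _ = (N - 1 : ℝ) ^ 2 * K := by rw [mul_pow, Real.sq_sqrt hK0]
    _ ≤ (N:ℝ) ^ 2 * K := by
        apply mul_le_mul_of_nonneg_right _ hK0
        apply pow_le_pow_left₀ (by linarith)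
        linarith
    _ = (2 * N ^ 3 * C / Real.sqrt μ) * Real.sqrt I := by
        rw [hK]
        ring

end Pool.Agent.NBody
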