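import Mathlib
import Pool.Agent.NBody.Tensor

/-!
If every subsystem of a state moves at most at its parabolic speed, then the momenta, paired with
any bounded Lipschitz field, are small at every scale.
-/

set_option autoImplicit false
open scoped RealInnerProductSpace
open Set Finset Filter Topology

namespace Pool.Agent.NBody

/-- every subsystem is at most parabolic -/
def Star {N : ℕ} (C : ℝ) (q p : Fin N → V3) : Prop :=
  ∀ (A : Finset (Fin N)) (d : ℝ), 0 < d → (∀ i ∈ A, ∀ j ∉ A, d ≤ ‖q i - q j‖) →
    ‖∑ i ∈ A, p i‖ ^ 2 * d ≤ C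

theorem Star.norm_sum_le {N : ℕ} {C : ℝ} {q p : Fin N → V3} (h : Star C q p) (hN : 0 < N)
    {B : Finset (Fin N)} {D : ℝ} (hD : 0 < D)
    (hB : ∀ i ∈ B, ∀ j ∉ B, D / N ≤ ‖q i - q j‖) :
    ‖∑ i ∈ B, p i‖ ≤ √(N * C) / √D := by
  have hNr : (0:ℝ) < N := by exact_mod_cast hN
  have h1 := h B (D / N) (by positivity) hB
  rw [le_div_iff₀ (Real.sqrt_pos.mpr hD)]
  apply Real.le_sqrt_of_sq_le
  rw [mul_pow, Real.sq_sqrt hD.le]
  have h2 : ‖∑ i ∈ B, p i‖ ^ 2 * D = N * (‖∑ i ∈ B, p i‖ ^ 2 * (D / N)) := by
    field_simp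
  rw [h2]
  exact mul_le_mul_of_nonneg_left h1 hNr.le

/-- The momenta against a bounded Lipschitz family of functionals. -/
theorem field_bound {N : ℕ} (hN : 0 < N) {C : ℝ} {q p : Fin N → V3} (h : Star C q p) :
    ∀ (n : ℕ) (B : Finset (Fin N)), B.card ≤ n → ∀ (D al la : ℝ) (a : Fin N → V3 →L[ℝ] ℝ),
      0 < D → 0 ≤ al → 0 ≤ la → (∀ i ∈ B, ∀ j ∉ B, D / N ≤ ‖q i - q j‖) →
      (∀ i ∈ B, ‖a i‖ ≤ al) → (∀ i ∈ B, ∀ j ∈ B, ‖a i - a j‖ ≤ la * ‖q i - q j‖) →
      |∑ i ∈ B, a i (p i)| ≤ 4 ^ n * √(N * C) * (al / √D + la * √D) := by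
  intro n
  have hNr : (0:ℝ) < N := by exact_mod_cast hN
  induction n with
  | zero =>
    intro B hB D al la a hD hal hla _ _ _
    have : B = ∅ := Finset.card_eq_zero.mp (Nat.le_zero.mp hB)
    subst this
    simp only [Finset.sum_empty, abs_zero]
    positivity
  | succ n ih =>
    intro B hBn D al la a hD hal hla hsep hsup hlip
    rcases B.eq_empty_or_nonempty with hBe | hBne
    · subst hBe
      simp only [Finset.sum_empty, abs_zero]
      positivity
    have hs : 0 ≤ √(N * C) := Real.sqrt_nonneg _
    have hsD : 0 < √D := Real.sqrt_pos.mpr hD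
    have hcardN : B.card ≤ N := by
      simpa using Finset.card_le_univ B
    obtain ⟨uv, huv, hmax⟩ := (B ×ˢ B).exists_max_image (fun w => dist (q w.1) (q w.2))
      (hBne.product hBne)
    obtain ⟨u, v⟩ := uv
    rw [Finset.mem_product] at huv
    obtain ⟨hu, hv⟩ := huv
    simp only at hu hv
    have hmax' : ∀ i ∈ B, ∀ j ∈ B, ‖q i - q j‖ ≤ dist (q u) (q v) := by
      intro i hi j hj
      have := hmax (i, j) (Finset.mem_product.mpr ⟨hi, hj⟩)
      rwa [dist_eq_norm] at this
    have hP := h.norm_sum_le hN hD hsep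
    -- the mean part
    have hmean : |a u (∑ i ∈ B, p i)| ≤ √(N * C) * (al / √D) := by
      rw [← Real.norm_eq_abs]
      refine ((a u).le_opNorm _).trans ?_
      calc ‖a u‖ * ‖∑ i ∈ B, p i‖ ≤ al * (√(N * C) / √D) :=
            mul_le_mul (hsup u hu) hP (norm_nonneg _) hal
        _ = √(N * C) * (al / √D) := by ring
    have hdecomp : ∑ i ∈ B, a i (p i) = a u (∑ i ∈ B, p i) + ∑ i ∈ B, (a i - a u) (p i) := by
      rw [map_sum, ← Finset.sum_add_distrib]
      apply Finset.sum_congr rfl
      intro i _
      simp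
    have h4 : (1:ℝ) ≤ 4 ^ n := one_le_pow₀ (by norm_num)
    have hal' : 0 ≤ al / √D := by positivity
    have hla' : 0 ≤ la * √D := by positivity
    rcases (dist_nonneg (x := q u) (y := q v)).lt_or_eq with hd | hd
    · -- positive diameter
      obtain ⟨b, b', hunion, hdisj, hub, hvb, hgap⟩ :=
        exists_split q B N hcardN (dist (q u) (q v)) hd u v hu hv le_rfl
      set D' : ℝ := dist (q u) (q v) with hD'
      have hcards : b.card + b'.card = B.card := by
        rw [← hunion, Finset.card_union_of_disjoint hdisj]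
      have hb1 : 0 < b.card := Finset.card_pos.mpr ⟨u, hub⟩
      have hb2 : 0 < b'.card := Finset.card_pos.mpr ⟨v, hvb⟩
      have hbn : b.card ≤ n := by omega
      have hbn' : b'.card ≤ n := by omega
      have hbB : ∀ i ∈ b, i ∈ B := fun i hi => by rw [← hunion]; exact Finset.mem_union_left _ hi
      have hbB' : ∀ i ∈ b', i ∈ B := fun i hi => by
        rw [← hunion]; exact Finset.mem_union_right _ hi
      -- separation of the parts
      have sepb : ∀ D₁ : ℝ, D₁ ≤ D → D₁ ≤ D' → ∀ i ∈ b, ∀ j ∉ b, D₁ / N ≤ ‖q i - q j‖ := by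
        intro D₁ h1 h2 i hi j hj
        by_cases hjB : j ∈ B
        · have hjb : j ∈ b' := by
            rw [← hunion, Finset.mem_union] at hjB
            exact hjB.resolve_left hj
          have := hgap i hi j hjb
          rw [dist_eq_norm] at this
          exact (div_le_div_of_nonneg_right h2 hNr.le).trans this
        · exact (div_le_div_of_nonneg_right h1 hNr.le).trans (hsep i (hbB i hi) j hjB)
      have sepb' : ∀ D₁ : ℝ, D₁ ≤ D → D₁ ≤ D' → ∀ i ∈ b', ∀ j ∉ b', D₁ / N ≤ ‖q i - q j‖ := by
        intro D₁ h1 h2 i hi j hj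
        by_cases hjB : j ∈ B
        · have hjb : j ∈ b := by
            rw [← hunion, Finset.mem_union] at hjB
            exact hjB.resolve_right hj
          have := hgap j hjb i hi
          rw [dist_eq_norm, norm_sub_rev] at this
          exact (div_le_div_of_nonneg_right h2 hNr.le).trans this
        · exact (div_le_div_of_nonneg_right h1 hNr.le).trans (hsep i (hbB' i hi) j hjB)
      rcases le_or_gt D' D with hDD | hDD
      · -- small diameter
        have hlip' : ∀ i ∈ B, ‖a i - a u‖ ≤ la * D' := fun i hi =>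
          (hlip i hi u hu).trans (mul_le_mul_of_nonneg_left (hmax' i hi u hu) hla)
        have hlip2 : ∀ i ∈ B, ∀ j ∈ B, ‖(a i - a u) - (a j - a u)‖ ≤ la * ‖q i - q j‖ := by
          intro i hi j hj
          rw [sub_sub_sub_cancel_right]
          exact hlip i hi j hj
        have h1 := ih b hbn D' (la * D') la (fun i => a i - a u) hd (by positivity) hla
          (sepb D' hDD le_rfl) (fun i hi => hlip' i (hbB i hi))
          (fun i hi j hj => hlip2 i (hbB i hi) j (hbB j hj))
        have h2 := ih b' hbn' D' (la * D') la (fun i => a i - a u) hd (by positivity) hla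
          (sepb' D' hDD le_rfl) (fun i hi => hlip' i (hbB' i hi))
          (fun i hi j hj => hlip2 i (hbB' i hi) j (hbB' j hj))
        have h3 : la * D' / √D' + la * √D' ≤ 2 * (la * √D) := by
          have h31 : la * D' / √D' = la * √D' := by
            rw [mul_div_assoc, Real.div_sqrt]
          have h32 : √D' ≤ √D := Real.sqrt_le_sqrt hDD
          have h33 : la * √D' ≤ la * √D := mul_le_mul_of_nonneg_left h32 hla
          rw [h31]; linarith
        have h5 : (4:ℝ) ^ n * √(N * C) * (la * D' / √D' + la * √D') ≤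
            4 ^ n * √(N * C) * (2 * (la * √D)) :=
          mul_le_mul_of_nonneg_left h3 (by positivity)
        have h6 : ∑ i ∈ B, (a i - a u) (p i) =
            ∑ i ∈ b, (a i - a u) (p i) + ∑ i ∈ b', (a i - a u) (p i) := by
          rw [← hunion, Finset.sum_union hdisj]
        rw [hdecomp, h6]
        have h7 := abs_add_three (a u (∑ i ∈ B, p i)) (∑ i ∈ b, (a i - a u) (p i))
          (∑ i ∈ b', (a i - a u) (p i))
        rw [← add_assoc]
        refine h7.trans ?_
        have h8 : √(N * C) * (al / √D) ≤ 4 ^ (n + 1) * √(N * C) * (al / √D) := by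
          have : (1:ℝ) ≤ 4 ^ (n + 1) := one_le_pow₀ (by norm_num)
          have h9 : 0 ≤ √(N * C) * (al / √D) := by positivity
          nlinarith
        have h10 : (4:ℝ) ^ (n + 1) * √(N * C) * (al / √D + la * √D) =
            4 ^ (n + 1) * √(N * C) * (al / √D) +
              2 * (4 ^ n * √(N * C) * (2 * (la * √D))) := by
          rw [pow_succ]; ring
        rw [h10]
        linarith
      · -- large diameter
        have h1 := ih b hbn D al la a hD hal hla (sepb D le_rfl hDD.le)
          (fun i hi => hsup i (hbB i hi)) (fun i hi j hj => hlip i (hbB i hi) j (hbB j hj))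
        have h2 := ih b' hbn' D al la a hD hal hla (sepb' D le_rfl hDD.le)
          (fun i hi => hsup i (hbB' i hi)) (fun i hi j hj => hlip i (hbB' i hi) j (hbB' j hj))
        rw [← hunion, Finset.sum_union hdisj]
        have h3 : 0 ≤ 4 ^ n * √(N * C) * (al / √D + la * √D) := by positivity
        have h4' : (4:ℝ) ^ (n + 1) * √(N * C) * (al / √D + la * √D) =
            4 * (4 ^ n * √(N * C) * (al / √D + la * √D)) := by
          rw [pow_succ]; ring
        rw [h4']
        refine (abs_add_le _ _).trans ?_
        linarith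
    · -- all positions coincide
      have hz : ∑ i ∈ B, (a i - a u) (p i) = 0 := by
        apply Finset.sum_eq_zero
        intro i hi
        have h1 := hlip i hi u hu
        have h2 := hmax' i hi u hu
        rw [← hd] at h2
        have h3 : ‖q i - q u‖ = 0 := le_antisymm h2 (norm_nonneg _)
        rw [h3, mul_zero] at h1
        have h4 : a i - a u = 0 := norm_eq_zero.mp (le_antisymm h1 (norm_nonneg _))
        rw [h4]
        simp
      rw [hdecomp, hz, add_zero]
      refine hmean.trans ?_
      have h5 : (1:ℝ) ≤ 4 ^ (n + 1) := one_le_pow₀ (by norm_num)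
      have h6 : 0 ≤ √(N * C) * (al / √D) := by positivity
      have h7 : 0 ≤ √(N * C) * (la * √D) := by positivity
      calc √(N * C) * (al / √D) ≤ √(N * C) * (al / √D + la * √D) := by nlinarith
        _ ≤ 4 ^ (n + 1) * (√(N * C) * (al / √D + la * √D)) := by
            have : 0 ≤ √(N * C) * (al / √D + la * √D) := by nlinarith
            nlinarith
        _ = _ := by ring

/-- The field bound, in scale free form. -/
theorem field_bound_univ {N : ℕ} {C : ℝ} (hC : 0 ≤ C) {q p : Fin N → V3} (h : Star C q p)
    (al la : ℝ) (hal : 0 ≤ al) (hla : 0 ≤ la) (a : Fin N → V3) (hsup : ∀ i, ‖a i‖ ≤ al)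
    (hlip : ∀ i j, ‖a i - a j‖ ≤ la * ‖q i - q j‖) :
    (∑ i, ⟪a i, p i⟫) ^ 2 ≤ 4 * (4 ^ N) ^ 2 * (N * C) * (al * la) := by
  rcases Nat.eq_zero_or_pos N with hN | hN
  · subst hN
    simp
  have hNr : (0:ℝ) < N := by exact_mod_cast hN
  have key : ∀ D : ℝ, 0 < D → |∑ i, ⟪a i, p i⟫| ≤ 4 ^ N * √(N * C) * (al / √D + la * √D) := by
    intro D hD
    have h1 := field_bound hN h N Finset.univ (by simp) D al la (fun i => innerSL ℝ (a i)) hD
      hal hla (fun i _ j hj => absurd (Finset.mem_univ j) hj)
      (fun i _ => by rw [innerSL_apply_norm]; exact hsup i)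
      (fun i _ j _ => by
        rw [← map_sub, innerSL_apply_norm]
        exact hlip i j)
    simpa only [innerSL_apply_apply] using h1
  have hs : 0 ≤ √(N * C) := Real.sqrt_nonneg _
  rcases hal.lt_or_eq with hal0 | hal0
  · rcases hla.lt_or_eq with hla0 | hla0
    · have h1 := key (al / la) (by positivity)
      have h2 : al / √(al / la) + la * √(al / la) = 2 * √(al * la) := by
        have hx : 0 < √al := Real.sqrt_pos.mpr hal0
        have hy : 0 < √la := Real.sqrt_pos.mpr hla0
        rw [Real.sqrt_div hal0.le, Real.sqrt_mul hal0.le]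
        have e1 : al = √al * √al := (Real.mul_self_sqrt hal0.le).symm
        have e2 : la = √la * √la := (Real.mul_self_sqrt hla0.le).symm
        have h3 : al / (√al / √la) = √al * √la := by
          rw [div_div_eq_mul_div, div_eq_iff hx.ne']
          nth_rewrite 1 [e1]
          ring
        have h4 : la * (√al / √la) = √al * √la := by
          rw [mul_div_assoc', div_eq_iff hy.ne']
          nth_rewrite 1 [e2]
          ring
        rw [h3, h4]; ring
      rw [h2] at h1
      have h3 : (∑ i, ⟪a i, p i⟫) ^ 2 ≤ (4 ^ N * √(N * C) * (2 * √(al * la))) ^ 2 := by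
        rw [← sq_abs]
        exact pow_le_pow_left₀ (abs_nonneg _) h1 2
      refine h3.trans (le_of_eq ?_)
      rw [mul_pow, mul_pow, mul_pow, Real.sq_sqrt (by positivity), Real.sq_sqrt (by positivity)]
      ring
    · -- constant field
      subst hla0
      have hz : ∑ i, ⟪a i, p i⟫ = 0 := by
        by_contra hne
        have hpos : 0 < |∑ i, ⟪a i, p i⟫| := abs_pos.mpr hne
        set w : ℝ := |∑ i, ⟪a i, p i⟫| with hw
        have h1 := key ((4 ^ N * √(N * C) * al / w + 1) ^ 2) (by positivity)
        rw [Real.sqrt_sq (by positivity), zero_mul, add_zero, mul_div_assoc'] at h1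
        rw [le_div_iff₀ (by positivity)] at h1
        have h2 : w * (4 ^ N * √(N * C) * al / w + 1) = 4 ^ N * √(N * C) * al + w := by
          field_simp
        rw [h2] at h1
        linarith
      rw [hz]
      simp
  · have hz : ∑ i, ⟪a i, p i⟫ = 0 := by
      apply Finset.sum_eq_zero
      intro i _
      have h1 := hsup i
      rw [← hal0] at h1
      have h2 : a i = 0 := norm_eq_zero.mp (le_antisymm h1 (norm_nonneg _))
      rw [h2, inner_zero_left]
    rw [hz, ← hal0]
    simp

end Pool.Agent.NBody
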