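import Mathlib
import Pool.Agent.NBody.Traj

/-!
Convexity of the half-space functional along trajectories.
-/

set_option autoImplicit false
open scoped RealInnerProductSpace
open Set Finset Filter Topology

namespace Pool.Agent.NBody

section Abstract

variable {α : Type*} [Fintype α] [Nonempty α]

/-- Maximum principle with three points. -/
theorem max_convex (Φ γ η : α → ℝ → ℝ) (τ σ : ℝ → ℝ) (hτ : ∀ s, HasDerivAt τ (σ s) s)
    (hσ : ∀ s, 0 < σ s) {s₁ s₂ s₃ : ℝ} (h12 : s₁ ≤ s₂) (h23 : s₂ ≤ s₃)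
    (hΦ : ∀ a, ∀ s ∈ Icc s₁ s₃, HasDerivAt (Φ a) (σ s * γ a s) s)
    (hγ : ∀ a, ∀ s ∈ Icc s₁ s₃, HasDerivAt (γ a) (σ s * η a s) s)
    (hmax : ∀ s ∈ Icc s₁ s₃, ∀ a, (∀ b, Φ b s ≤ Φ a s) → 0 < η a s) :
    ((Finset.univ.sup' Finset.univ_nonempty (fun a => Φ a s₂)) -
      Finset.univ.sup' Finset.univ_nonempty (fun a => Φ a s₁)) * (τ s₃ - τ s₂) ≤
    ((Finset.univ.sup' Finset.univ_nonempty (fun a => Φ a s₃)) -
      Finset.univ.sup' Finset.univ_nonempty (fun a => Φ a s₂)) * (τ s₂ - τ s₁) := by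
  classical
  obtain ⟨F, hF⟩ : ∃ F : ℝ → ℝ, ∀ s, F s =
    Finset.univ.sup' Finset.univ_nonempty (fun a => Φ a s) := ⟨_, fun _ => rfl⟩
  rw [← hF, ← hF, ← hF]
  have hτmono : StrictMono τ := strictMono_of_deriv_pos (fun s => by rw [(hτ s).deriv]; exact hσ s)
  rcases h12.eq_or_lt with h12e | h12l
  · rw [← h12e]; simp
  rcases h23.eq_or_lt with h23e | h23l
  · rw [← h23e]; simp
  have h13 : s₁ < s₃ := h12l.trans h23l
  have hd : 0 < τ s₃ - τ s₁ := sub_pos.mpr (hτmono h13)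
  obtain ⟨β, hβ⟩ : ∃ β : ℝ, β = (F s₃ - F s₁) / (τ s₃ - τ s₁) := ⟨_, rfl⟩
  have hβ' : β * (τ s₃ - τ s₁) = F s₃ - F s₁ := by
    rw [hβ]; exact div_mul_cancel₀ _ hd.ne'
  have hFle : ∀ a s, Φ a s ≤ F s := fun a s => by
    rw [hF]
    exact Finset.le_sup' (fun a => Φ a s) (Finset.mem_univ a)
  have hFex : ∀ s, ∃ a, F s = Φ a s := fun s => by
    obtain ⟨a, -, ha⟩ := Finset.exists_mem_eq_sup' Finset.univ_nonempty (fun a => Φ a s)
    exact ⟨a, by rw [hF]; exact ha⟩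
  have hFcont : ContinuousOn F (Icc s₁ s₃) := by
    have h1 : F = fun s => Finset.univ.sup' Finset.univ_nonempty (fun a => Φ a s) := funext hF
    rw [h1]
    apply ContinuousOn.finset_sup'_apply
    intro a _ s hs
    exact (hΦ a s hs).continuousAt.continuousWithinAt
  have hτc : Continuous τ := continuous_iff_continuousAt.mpr (fun s => (hτ s).continuousAt)
  have key : F s₂ ≤ F s₁ + β * (τ s₂ - τ s₁) := by
    by_contra hcon
    push Not at hcon
    have hDcont : ContinuousOn (fun s => F s - (F s₁ + β * (τ s - τ s₁))) (Icc s₁ s₃) :=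
      hFcont.sub ((continuous_const.add (continuous_const.mul
        (hτc.sub continuous_const))).continuousOn)
    obtain ⟨t, ht, htmax⟩ := isCompact_Icc.exists_isMaxOn ⟨s₂, h12, h23⟩ hDcont
    have hDt : 0 < F t - (F s₁ + β * (τ t - τ s₁)) := by
      have h1 : F s₂ - (F s₁ + β * (τ s₂ - τ s₁)) ≤ F t - (F s₁ + β * (τ t - τ s₁)) :=
        htmax (⟨h12, h23⟩ : s₂ ∈ Icc s₁ s₃)
      linarith
    have ht1 : s₁ < t := by
      rcases ht.1.lt_or_eq with h | h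
      · exact h
      · exfalso
        rw [← h, sub_self, mul_zero] at hDt
        linarith
    have ht3 : t < s₃ := by
      rcases ht.2.lt_or_eq with h | h
      · exact h
      · exfalso
        rw [h, hβ'] at hDt
        linarith
    obtain ⟨a, ha⟩ := hFex t
    have hamax : ∀ b, Φ b t ≤ Φ a t := fun b => by rw [← ha]; exact hFle b t
    have hh := hmax t ht a hamax
    have hemax : ∀ r ∈ Icc s₁ s₃, Φ a r - β * τ r ≤ Φ a t - β * τ t := by
      intro r hr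
      have h1 : F r - (F s₁ + β * (τ r - τ s₁)) ≤ F t - (F s₁ + β * (τ t - τ s₁)) := htmax hr
      have h2 := hFle a r
      rw [← ha]
      linarith
    have heder : ∀ r ∈ Icc s₁ s₃, HasDerivAt (fun r => Φ a r - β * τ r)
        (σ r * (γ a r - β)) r := by
      intro r hr
      have h := (hΦ a r hr).sub ((hτ r).const_mul β)
      have h2 : σ r * (γ a r - β) = σ r * γ a r - β * σ r := by ring
      rw [h2]
      exact h
    have hzero : γ a t - β = 0 := by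
      have hloc : IsLocalMax (fun r => Φ a r - β * τ r) t := by
        filter_upwards [Ioo_mem_nhds ht1 ht3] with r hr
        exact hemax r ⟨hr.1.le, hr.2.le⟩
      have := hloc.hasDerivAt_eq_zero (heder t ht)
      rcases mul_eq_zero.mp this with h | h
      · exact absurd h (hσ t).ne'
      · exact h
    have hder2 : HasDerivAt (fun r => γ a r - β) (σ t * η a t) t := (hγ a t ht).sub_const β
    have hposd : 0 < σ t * η a t := mul_pos (hσ t) hh
    have hslope := (hasDerivAt_iff_tendsto_slope.mp hder2).eventually (lt_mem_nhds hposd)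
    have h1 : ∀ᶠ r in 𝓝[>] t, 0 < slope (fun r => γ a r - β) t r :=
      hslope.filter_mono (nhdsWithin_mono _ (fun s hs => ne_of_gt hs))
    rw [eventually_nhdsWithin_iff, Metric.eventually_nhds_iff] at h1
    obtain ⟨δ, hδ, hδs⟩ := h1
    obtain ⟨r, hr1, hr2⟩ : ∃ r, t < r ∧ r < min s₃ (t + δ) :=
      exists_between (lt_min ht3 (by linarith))
    have hr3 : r < s₃ := hr2.trans_le (min_le_left _ _)
    have hr4 : r < t + δ := hr2.trans_le (min_le_right _ _)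
    have hmono : StrictMonoOn (fun r => Φ a r - β * τ r) (Icc t r) := by
      apply strictMonoOn_of_deriv_pos (convex_Icc t r)
      · intro u hu
        exact (heder u ⟨ht.1.trans hu.1, hu.2.trans hr3.le⟩).continuousAt.continuousWithinAt
      · intro u hu
        rw [interior_Icc] at hu
        rw [(heder u ⟨ht.1.trans hu.1.le, hu.2.le.trans hr3.le⟩).deriv]
        apply mul_pos (hσ u)
        have h8 := hδs (y := u) (by
          rw [Real.dist_eq, abs_of_pos (by linarith [hu.1])]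
          linarith [hu.2]) hu.1
        rw [slope_def_field, hzero, sub_zero] at h8
        rcases (div_pos_iff.mp h8) with h | h
        · exact h.1
        · exact absurd h.2 (not_lt.mpr (by linarith [hu.1]))
    have h9 := hmono (left_mem_Icc.mpr hr1.le) (right_mem_Icc.mpr hr1.le) hr1
    have h10 := hemax r ⟨ht.1.trans hr1.le, hr3.le⟩
    simp only at h9
    linarith
  have hu : 0 < τ s₂ - τ s₁ := sub_pos.mpr (hτmono h12l)
  have hv : 0 < τ s₃ - τ s₂ := sub_pos.mpr (hτmono h23l)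
  have h1 : (F s₂ - F s₁) * (τ s₃ - τ s₂) ≤ β * (τ s₂ - τ s₁) * (τ s₃ - τ s₂) :=
    mul_le_mul_of_nonneg_right (by linarith) hv.le
  have h2 : β * (τ s₃ - τ s₂) ≤ F s₃ - F s₂ := by nlinarith
  have h3 : β * (τ s₃ - τ s₂) * (τ s₂ - τ s₁) ≤ (F s₃ - F s₂) * (τ s₂ - τ s₁) :=
    mul_le_mul_of_nonneg_right h2 hu.le
  nlinarith

/-- The initial slope is kept. -/
theorem max_slope (Φ γ η : α → ℝ → ℝ) (τ σ : ℝ → ℝ) (hτ : ∀ s, HasDerivAt τ (σ s) s)
    (hσ : ∀ s, 0 < σ s) {s₁ s₃ : ℝ} (h13 : s₁ ≤ s₃)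
    (hΦ : ∀ a, ∀ s ∈ Icc s₁ s₃, HasDerivAt (Φ a) (σ s * γ a s) s)
    (hγ : ∀ a, ∀ s ∈ Icc s₁ s₃, HasDerivAt (γ a) (σ s * η a s) s)
    (hmax : ∀ s ∈ Icc s₁ s₃, ∀ a, (∀ b, Φ b s ≤ Φ a s) → 0 < η a s)
    (a₀ : α) (ha₀ : ∀ b, Φ b s₁ ≤ Φ a₀ s₁) {c : ℝ} (hc : c < γ a₀ s₁) :
    (Finset.univ.sup' Finset.univ_nonempty (fun a => Φ a s₁)) + c * (τ s₃ - τ s₁) ≤
      Finset.univ.sup' Finset.univ_nonempty (fun a => Φ a s₃) := by
  classical
  rcases h13.eq_or_lt with h | hlt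
  · rw [← h]; simp
  have hτmono : StrictMono τ := strictMono_of_deriv_pos (fun s => by rw [(hτ s).deriv]; exact hσ s)
  have hF1 : (Finset.univ.sup' Finset.univ_nonempty (fun a => Φ a s₁)) = Φ a₀ s₁ :=
    le_antisymm (Finset.sup'_le _ _ (fun b _ => ha₀ b))
      (Finset.le_sup' (fun a => Φ a s₁) (Finset.mem_univ a₀))
  have he : HasDerivAt (fun s => Φ a₀ s - c * τ s) (σ s₁ * (γ a₀ s₁ - c)) s₁ := by
    have h := (hΦ a₀ s₁ ⟨le_rfl, h13⟩).sub ((hτ s₁).const_mul c)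
    have h2 : σ s₁ * (γ a₀ s₁ - c) = σ s₁ * γ a₀ s₁ - c * σ s₁ := by ring
    rw [h2]
    exact h
  have hpos' : 0 < σ s₁ * (γ a₀ s₁ - c) := mul_pos (hσ s₁) (by linarith)
  have hslope := (hasDerivAt_iff_tendsto_slope.mp he).eventually (lt_mem_nhds hpos')
  have h1 : ∀ᶠ s in 𝓝[>] s₁, 0 < slope (fun s => Φ a₀ s - c * τ s) s₁ s :=
    hslope.filter_mono (nhdsWithin_mono _ (fun s hs => ne_of_gt hs))
  have h2 : ∀ᶠ s in 𝓝[>] s₁, s ∈ Ioo s₁ s₃ := Ioo_mem_nhdsGT hlt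
  obtain ⟨s, hs1, hs2⟩ := (h1.and h2).exists
  rw [slope_def_field] at hs1
  have h3 : 0 < Φ a₀ s - c * τ s - (Φ a₀ s₁ - c * τ s₁) := by
    rcases (div_pos_iff.mp hs1) with h | h
    · exact h.1
    · exact absurd h.2 (not_lt.mpr (by linarith [hs2.1]))
  have h4 := max_convex Φ γ η τ σ hτ hσ hs2.1.le hs2.2.le hΦ hγ hmax
  have h5 : Φ a₀ s ≤ Finset.univ.sup' Finset.univ_nonempty (fun a => Φ a s) :=
    Finset.le_sup' (fun a => Φ a s) (Finset.mem_univ a₀)
  have hu : 0 < τ s - τ s₁ := sub_pos.mpr (hτmono hs2.1)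
  have hv : 0 < τ s₃ - τ s := sub_pos.mpr (hτmono hs2.2)
  rw [hF1] at h4 ⊢
  set F2 := Finset.univ.sup' Finset.univ_nonempty (fun a => Φ a s) with hF2
  set F3 := Finset.univ.sup' Finset.univ_nonempty (fun a => Φ a s₃) with hF3
  have h6 : c * (τ s - τ s₁) ≤ F2 - Φ a₀ s₁ := by linarith
  have h7 : c * (τ s - τ s₁) * (τ s₃ - τ s) ≤ (F2 - Φ a₀ s₁) * (τ s₃ - τ s) :=
    mul_le_mul_of_nonneg_right h6 hv.le
  have h8 : c * (τ s₃ - τ s) * (τ s - τ s₁) ≤ (F3 - F2) * (τ s - τ s₁) := by linarith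
  have h9 : c * (τ s₃ - τ s) ≤ F3 - F2 := le_of_mul_le_mul_right h8 hu
  linarith

end Abstract

/-- the functional -/
noncomputable def gfun {N : ℕ} (m : Fin N → ℝ) (L : ℝ) (e : V3) (s₀ lam : ℝ) (q : Fin N → V3)
    (κ : ℝ) : ℝ :=
  Finset.univ.sup' Finset.univ_nonempty (fun A : Finset (Fin N) => fA m L e s₀ q κ A) -
    2 * (∑ i, m i) ^ 2 / lam ^ 2 * Real.log κ

theorem gfun_anti {N : ℕ} {m : Fin N → ℝ} {L : ℝ} (hL1 : 1 ≤ L) {e : V3} {s₀ lam : ℝ}
    {q : Fin N → V3} (hlam : 0 < lam) {κ κ' : ℝ} (hκ : 0 < κ) (h : κ ≤ κ') :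
    gfun m L e s₀ lam q κ' ≤ gfun m L e s₀ lam q κ := by
  unfold gfun
  have h1 : Finset.univ.sup' Finset.univ_nonempty
      (fun A : Finset (Fin N) => fA m L e s₀ q κ' A) ≤
      Finset.univ.sup' Finset.univ_nonempty
      (fun A : Finset (Fin N) => fA m L e s₀ q κ A) := by
    apply Finset.sup'_le
    intro A _
    refine le_trans ?_ (Finset.le_sup' (fun A : Finset (Fin N) => fA m L e s₀ q κ A)
      (Finset.mem_univ A))
    unfold fA
    have := mul_le_mul_of_nonneg_left h (nu_nonneg hL1 N A.card)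
    linarith
  have h2 : Real.log κ ≤ Real.log κ' := Real.log_le_log hκ h
  have h3 : 2 * (∑ i, m i) ^ 2 / lam ^ 2 * Real.log κ ≤
      2 * (∑ i, m i) ^ 2 / lam ^ 2 * Real.log κ' := mul_le_mul_of_nonneg_left h2 (by positivity)
  linarith

theorem gfun_lip {N : ℕ} {m : Fin N → ℝ} (hm : ∀ i, 0 < m i) {L : ℝ} {e : V3} {s₀ lam κ : ℝ}
    (he : ‖e‖ ≤ 1) (q q' : Fin N → V3) :
    gfun m L e s₀ lam q κ ≤ gfun m L e s₀ lam q' κ + ∑ i, m i * ‖q i - q' i‖ := by
  unfold gfun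
  have h1 : Finset.univ.sup' Finset.univ_nonempty
      (fun A : Finset (Fin N) => fA m L e s₀ q κ A) ≤
      Finset.univ.sup' Finset.univ_nonempty
      (fun A : Finset (Fin N) => fA m L e s₀ q' κ A) + ∑ i, m i * ‖q i - q' i‖ := by
    apply Finset.sup'_le
    intro A _
    have h2 := Finset.le_sup' (fun A : Finset (Fin N) => fA m L e s₀ q' κ A)
      (Finset.mem_univ A)
    refine le_trans ?_ (add_le_add_left h2 _)
    unfold fA
    have h3 : ∑ i ∈ A, m i * (⟪q i, e⟫ - s₀) ≤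
        ∑ i ∈ A, (m i * (⟪q' i, e⟫ - s₀) + m i * ‖q i - q' i‖) := by
      apply Finset.sum_le_sum
      intro i _
      rw [← mul_add]
      apply mul_le_mul_of_nonneg_left _ (hm i).le
      have h4 : ⟪q i, e⟫ = ⟪q' i, e⟫ + ⟪q i - q' i, e⟫ := by
        rw [inner_sub_left]; ring
      have h5 : ⟪q i - q' i, e⟫ ≤ ‖q i - q' i‖ * ‖e‖ := real_inner_le_norm _ _
      have h6 : ‖q i - q' i‖ * ‖e‖ ≤ ‖q i - q' i‖ * 1 :=
        mul_le_mul_of_nonneg_left he (norm_nonneg _)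
      rw [h4]
      linarith
    rw [Finset.sum_add_distrib] at h3
    have h7 : ∑ i ∈ A, m i * ‖q i - q' i‖ ≤ ∑ i, m i * ‖q i - q' i‖ :=
      Finset.sum_le_sum_of_subset_of_nonneg (Finset.subset_univ _) (fun i _ _ => by
        have := hm i
        positivity)
    linarith
  linarith

/-- the maximum, with the logarithm inside -/
theorem gfun_eq {N : ℕ} (m : Fin N → ℝ) (L : ℝ) (e : V3) (s₀ lam : ℝ) (q : Fin N → V3)
    (κ : ℝ) : gfun m L e s₀ lam q κ = Finset.univ.sup' Finset.univ_nonempty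
      (fun A : Finset (Fin N) => fA m L e s₀ q κ A -
        2 * (∑ i, m i) ^ 2 / lam ^ 2 * Real.log κ) := by
  unfold gfun
  apply le_antisymm
  · obtain ⟨A, -, hA⟩ := Finset.exists_mem_eq_sup' Finset.univ_nonempty
      (fun A : Finset (Fin N) => fA m L e s₀ q κ A)
    rw [hA]
    exact Finset.le_sup' (fun A : Finset (Fin N) => fA m L e s₀ q κ A -
        2 * (∑ i, m i) ^ 2 / lam ^ 2 * Real.log κ) (Finset.mem_univ A)
  · apply Finset.sup'_le
    intro A _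
    have := Finset.le_sup' (fun A : Finset (Fin N) => fA m L e s₀ q κ A) (Finset.mem_univ A)
    linarith

section Traj

variable {N : ℕ} {m : Fin N → ℝ} {L : ℝ} {e : V3} {s₀ lam k : ℝ} {σ τ : ℝ → ℝ} {x : ℝ → Ph N}

theorem gfun_data (hm : ∀ i, 0 < m i) (hL1 : 1 ≤ L)
    (hL : ∀ i j, m i * (1 + 1 / m j) ≤ L) (he : ‖e‖ ≤ 1) (hlam : 0 < lam)
    (hx : IsTraj m σ x) (hτ : ∀ s, HasDerivAt τ (σ s) s) {s₁ : ℝ} (hk : 0 < k + lam * τ s₁)
    (hN : 0 < N) (s₃ : ℝ) :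
    (∀ A : Finset (Fin N), ∀ s ∈ Icc s₁ s₃, HasDerivAt
      (fun s => fA m L e s₀ (x s).1 (k + lam * τ s) A -
        2 * (∑ i, m i) ^ 2 / lam ^ 2 * Real.log (k + lam * τ s))
      (σ s * (∑ i ∈ A, ⟪(x s).2 i, e⟫ - nu L N A.card * lam -
        2 * (∑ i, m i) ^ 2 / (lam * (k + lam * τ s)))) s) ∧
    (∀ A : Finset (Fin N), ∀ s ∈ Icc s₁ s₃, HasDerivAt
      (fun s => ∑ i ∈ A, ⟪(x s).2 i, e⟫ - nu L N A.card * lam -
        2 * (∑ i, m i) ^ 2 / (lam * (k + lam * τ s)))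
      (σ s * (∑ i ∈ A, ⟪force m (x s).1 i, e⟫ +
        2 * (∑ i, m i) ^ 2 / (k + lam * τ s) ^ 2)) s) ∧
    (∀ s ∈ Icc s₁ s₃, ∀ A : Finset (Fin N), (∀ B : Finset (Fin N),
      fA m L e s₀ (x s).1 (k + lam * τ s) B -
        2 * (∑ i, m i) ^ 2 / lam ^ 2 * Real.log (k + lam * τ s) ≤
      fA m L e s₀ (x s).1 (k + lam * τ s) A -
        2 * (∑ i, m i) ^ 2 / lam ^ 2 * Real.log (k + lam * τ s)) →
      0 < ∑ i ∈ A, ⟪force m (x s).1 i, e⟫ + 2 * (∑ i, m i) ^ 2 / (k + lam * τ s) ^ 2) := by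
  have hτmono : StrictMono τ := strictMono_of_deriv_pos (fun s => by
    rw [(hτ s).deriv]; exact hx.pos s)
  have hκ : ∀ s ∈ Icc s₁ s₃, 0 < k + lam * τ s := by
    intro s hs
    have h1 := mul_le_mul_of_nonneg_left (hτmono.monotone hs.1) hlam.le
    linarith
  have hM : 0 < ∑ i, m i := Finset.sum_pos (fun i _ => hm i) ⟨⟨0, hN⟩, Finset.mem_univ _⟩
  refine ⟨fun A s hs => ?_, fun A s hs => ?_, fun s hs A hA => ?_⟩
  · have hκs := hκ s hs
    have h0 : HasDerivAt (fun s => k + lam * τ s) (lam * σ s) s :=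
      ((hτ s).const_mul lam).const_add k
    have h1 : HasDerivAt (fun s => ∑ i ∈ A, m i * (⟪(x s).1 i, e⟫ - s₀))
        (∑ i ∈ A, m i * (σ s * ((m i)⁻¹ * ⟪(x s).2 i, e⟫))) s := by
      apply HasDerivAt.fun_sum
      intro i _
      exact ((hx.der_inner_q e i s).sub_const s₀).const_mul (m i)
    have h2 : HasDerivAt (fun s => nu L N A.card * (k + lam * τ s))
        (nu L N A.card * (lam * σ s)) s := h0.const_mul _
    have h3 := (h1.sub h2).sub ((h0.log hκs.ne').const_mul (2 * (∑ i, m i) ^ 2 / lam ^ 2))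
    have h4 : ∑ i ∈ A, m i * (σ s * ((m i)⁻¹ * ⟪(x s).2 i, e⟫)) =
        σ s * ∑ i ∈ A, ⟪(x s).2 i, e⟫ := by
      rw [Finset.mul_sum]
      apply Finset.sum_congr rfl
      intro i _
      have := (hm i).ne'
      field_simp
    refine h3.congr_deriv ?_
    rw [h4]
    field_simp
  · have hκs := hκ s hs
    have h0 : HasDerivAt (fun s => k + lam * τ s) (lam * σ s) s :=
      ((hτ s).const_mul lam).const_add k
    have h1 : HasDerivAt (fun s => ∑ i ∈ A, ⟪(x s).2 i, e⟫)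
        (∑ i ∈ A, σ s * ⟪force m (x s).1 i, e⟫) s := by
      apply HasDerivAt.fun_sum
      intro i _
      exact hx.der_inner_p e i s
    have h2 : HasDerivAt (fun s => 2 * (∑ i, m i) ^ 2 / (lam * (k + lam * τ s)))
        (-(σ s * (2 * (∑ i, m i) ^ 2 / (k + lam * τ s) ^ 2))) s := by
      have h3 := (h0.inv hκs.ne').const_mul (2 * (∑ i, m i) ^ 2 / lam)
      have h4 : (fun s => 2 * (∑ i, m i) ^ 2 / lam * (k + lam * τ s)⁻¹) =
          fun s => 2 * (∑ i, m i) ^ 2 / (lam * (k + lam * τ s)) := by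
        funext t
        rw [div_mul_eq_div_div, div_eq_mul_inv (2 * (∑ i, m i) ^ 2 / lam)]
      rw [← h4]
      refine h3.congr_deriv ?_
      field_simp
    have h3 := (h1.sub_const (nu L N A.card * lam)).sub h2
    refine h3.congr_deriv ?_
    rw [← Finset.mul_sum]
    ring
  · have hκs := hκ s hs
    have hA' : ∀ B, fA m L e s₀ (x s).1 (k + lam * τ s) B ≤
        fA m L e s₀ (x s).1 (k + lam * τ s) A := fun B => by
      have := hA B
      linarith
    have h1 := force_bound hm he hκs (gap_of_max hm hL1 hL hκs hA')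
    have h2 : 2 * (∑ i, m i) ^ 2 / (k + lam * τ s) ^ 2 =
        (∑ i, m i) ^ 2 / (k + lam * τ s) ^ 2 + (∑ i, m i) ^ 2 / (k + lam * τ s) ^ 2 := by ring
    have h3 : 0 < (∑ i, m i) ^ 2 / (k + lam * τ s) ^ 2 := by positivity
    have h4 : -(∑ i, m i) ^ 2 / (k + lam * τ s) ^ 2 =
        -((∑ i, m i) ^ 2 / (k + lam * τ s) ^ 2) := by ring
    rw [h2]
    linarith

/-- Three point convexity in the clock. -/
theorem gfun_convex (hm : ∀ i, 0 < m i) (hL1 : 1 ≤ L)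
    (hL : ∀ i j, m i * (1 + 1 / m j) ≤ L) (he : ‖e‖ ≤ 1) (hlam : 0 < lam)
    (hx : IsTraj m σ x) (hτ : ∀ s, HasDerivAt τ (σ s) s) {s₁ s₂ s₃ : ℝ} (h12 : s₁ ≤ s₂)
    (h23 : s₂ ≤ s₃) (hk : 0 < k + lam * τ s₁) :
    (gfun m L e s₀ lam (x s₂).1 (k + lam * τ s₂) -
      gfun m L e s₀ lam (x s₁).1 (k + lam * τ s₁)) * (τ s₃ - τ s₂) ≤
    (gfun m L e s₀ lam (x s₃).1 (k + lam * τ s₃) -
      gfun m L e s₀ lam (x s₂).1 (k + lam * τ s₂)) * (τ s₂ - τ s₁) := by
  rcases Nat.eq_zero_or_pos N with hN | hN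
  · subst hN
    have h0 : ∀ (q : Fin 0 → V3) (κ : ℝ), gfun m L e s₀ lam q κ = 0 := by
      intro q κ
      rw [gfun_eq]
      apply le_antisymm
      · apply Finset.sup'_le
        intro A _
        have hA : A = ∅ := Subsingleton.elim _ _
        subst hA
        simp [fA, nu_zero]
      · refine le_trans (le_of_eq ?_) (Finset.le_sup' _ (Finset.mem_univ ∅))
        simp [fA, nu_zero]
    rw [h0, h0, h0]
    simp
  · rw [gfun_eq, gfun_eq, gfun_eq]
    obtain ⟨h1, h2, h3⟩ := gfun_data hm hL1 hL he hlam hx hτ hk hN (s₀ := s₀) s₃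
    exact max_convex (fun (A : Finset (Fin N)) s => fA m L e s₀ (x s).1 (k + lam * τ s) A -
        2 * (∑ i, m i) ^ 2 / lam ^ 2 * Real.log (k + lam * τ s))
      (fun (A : Finset (Fin N)) s => ∑ i ∈ A, ⟪(x s).2 i, e⟫ - nu L N A.card * lam -
        2 * (∑ i, m i) ^ 2 / (lam * (k + lam * τ s)))
      (fun (A : Finset (Fin N)) s => ∑ i ∈ A, ⟪force m (x s).1 i, e⟫ +
        2 * (∑ i, m i) ^ 2 / (k + lam * τ s) ^ 2)
      τ σ hτ hx.pos h12 h23 h1 h2 h3

/-- The initial slope. -/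
theorem gfun_slope (hm : ∀ i, 0 < m i) (hL1 : 1 ≤ L)
    (hL : ∀ i j, m i * (1 + 1 / m j) ≤ L) (he : ‖e‖ ≤ 1) (hlam : 0 < lam)
    (hx : IsTraj m σ x) (hτ : ∀ s, HasDerivAt τ (σ s) s) {s₁ : ℝ} (hk : 0 < k + lam * τ s₁)
    (A₀ : Finset (Fin N)) (hA₀ : ∀ B, fA m L e s₀ (x s₁).1 (k + lam * τ s₁) B ≤
      fA m L e s₀ (x s₁).1 (k + lam * τ s₁) A₀) {c : ℝ}
    (hc : c + 2 * (∑ i, m i) ^ 2 / (lam * (k + lam * τ s₁)) + nu L N N * lam <
      ∑ i ∈ A₀, ⟪(x s₁).2 i, e⟫) :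
    ∀ s, s₁ ≤ s → gfun m L e s₀ lam (x s₁).1 (k + lam * τ s₁) + c * (τ s - τ s₁) ≤
      gfun m L e s₀ lam (x s).1 (k + lam * τ s) := by
  intro s hs
  rcases Nat.eq_zero_or_pos N with hN | hN
  · subst hN
    have h0 : ∀ (q : Fin 0 → V3) (κ : ℝ), gfun m L e s₀ lam q κ = 0 := by
      intro q κ
      rw [gfun_eq]
      apply le_antisymm
      · apply Finset.sup'_le
        intro A _
        have hA : A = ∅ := Subsingleton.elim _ _
        subst hA
        simp [fA, nu_zero]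
      · refine le_trans (le_of_eq ?_) (Finset.le_sup' _ (Finset.mem_univ ∅))
        simp [fA, nu_zero]
    rw [h0, h0]
    have hA : A₀ = ∅ := Subsingleton.elim _ _
    subst hA
    have h1 : c < 0 := by simpa [nu_zero] using hc
    have hτmono : StrictMono τ := strictMono_of_deriv_pos (fun s => by
      rw [(hτ s).deriv]; exact hx.pos s)
    have h2 := hτmono.monotone hs
    nlinarith
  · rw [gfun_eq, gfun_eq]
    obtain ⟨h1, h2, h3⟩ := gfun_data hm hL1 hL he hlam hx hτ hk hN (s₀ := s₀) s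
    refine max_slope (fun (A : Finset (Fin N)) s => fA m L e s₀ (x s).1 (k + lam * τ s) A -
        2 * (∑ i, m i) ^ 2 / lam ^ 2 * Real.log (k + lam * τ s))
      (fun (A : Finset (Fin N)) s => ∑ i ∈ A, ⟪(x s).2 i, e⟫ - nu L N A.card * lam -
        2 * (∑ i, m i) ^ 2 / (lam * (k + lam * τ s)))
      (fun (A : Finset (Fin N)) s => ∑ i ∈ A, ⟪force m (x s).1 i, e⟫ +
        2 * (∑ i, m i) ^ 2 / (k + lam * τ s) ^ 2)
      τ σ hτ hx.pos hs h1 h2 h3 A₀ (fun B => ?_) ?_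
    · have := hA₀ B
      linarith
    · have h4 : nu L N A₀.card ≤ nu L N N := by
        apply nu_mono hL1
        simpa using Finset.card_le_univ A₀
      have h5 : nu L N A₀.card * lam ≤ nu L N N * lam := mul_le_mul_of_nonneg_right h4 hlam.le
      linarith

end Traj

end Pool.Agent.NBody
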