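import Mathlib
import Pool.Agent.NBody.Functional

/-!
A smooth cutoff of a spherical shell.
-/

set_option autoImplicit false
open scoped RealInnerProductSpace
open Set Finset Filter Topology

namespace Pool.Agent.NBody

theorem exists_shell : ∃ (f : V3 → ℝ) (f' : V3 → V3 →L[ℝ] ℝ) (K : ℝ), 0 < K ∧
    (∀ x, HasFDerivAt f (f' x) x) ∧ (∀ x, ‖f' x‖ ≤ K) ∧ (∀ x y, ‖f' x - f' y‖ ≤ K * ‖x - y‖) ∧
    (∀ x, 0 ≤ f x) ∧ (∀ x, ‖x‖ ≤ 1 → f x = 0) ∧ (∀ x, 10 ≤ ‖x‖ → f x = 0) ∧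
    (∀ x, 2 ≤ ‖x‖ → ‖x‖ ≤ 9 → f x = 1) := by
  let b₁ : ContDiffBump (0 : V3) := ⟨9, 10, by norm_num, by norm_num⟩
  let b₂ : ContDiffBump (0 : V3) := ⟨1, 2, by norm_num, by norm_num⟩
  set f : V3 → ℝ := fun x => b₁ x - b₂ x with hf
  have hsm : ContDiff ℝ 3 f := b₁.contDiff.sub b₂.contDiff
  have hcs : HasCompactSupport f := b₁.hasCompactSupport.sub b₂.hasCompactSupport
  have hd : ContDiff ℝ 2 (fderiv ℝ f) := hsm.fderiv_right (by norm_num)
  have hcs' : HasCompactSupport (fderiv ℝ f) := hcs.fderiv ℝ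
  obtain ⟨C₁, hC₁⟩ := hd.lipschitzWith_of_hasCompactSupport hcs' (by norm_num)
  obtain ⟨C₂, hC₂⟩ := hsm.lipschitzWith_of_hasCompactSupport hcs (by norm_num)
  have one₁ : ∀ x : V3, ‖x‖ ≤ 9 → b₁ x = 1 := fun x hx =>
    b₁.one_of_mem_closedBall (by rw [mem_closedBall_zero_iff]; exact hx)
  have one₂ : ∀ x : V3, ‖x‖ ≤ 1 → b₂ x = 1 := fun x hx =>
    b₂.one_of_mem_closedBall (by rw [mem_closedBall_zero_iff]; exact hx)
  have zero₁ : ∀ x : V3, 10 ≤ ‖x‖ → b₁ x = 0 := fun x hx =>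
    b₁.zero_of_le_dist (by rw [dist_zero_right]; exact hx)
  have zero₂ : ∀ x : V3, 2 ≤ ‖x‖ → b₂ x = 0 := fun x hx =>
    b₂.zero_of_le_dist (by rw [dist_zero_right]; exact hx)
  refine ⟨f, fderiv ℝ f, C₁ + C₂ + 1, by positivity, ?_, ?_, ?_, ?_, ?_, ?_, ?_⟩
  · intro x
    exact (hsm.differentiable (by norm_num) x).hasFDerivAt
  · intro x
    have h1 := norm_fderiv_le_of_lipschitz ℝ hC₂ (x₀ := x)
    have h2 : (0:ℝ) ≤ C₁ := C₁.2
    linarith
  · intro x y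
    have h1 := hC₁.dist_le_mul x y
    rw [dist_eq_norm, dist_eq_norm] at h1
    refine h1.trans (mul_le_mul_of_nonneg_right ?_ (norm_nonneg _))
    have h2 : (0:ℝ) ≤ C₂ := C₂.2
    linarith
  · intro x
    rcases le_total ‖x‖ 9 with h | h
    · rw [hf]
      simp only
      rw [one₁ x h]
      have := b₂.le_one (x := x)
      linarith
    · rw [hf]
      simp only
      rw [zero₂ x (by linarith)]
      have := b₁.nonneg (x := x)
      linarith
  · intro x hx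
    rw [hf]
    simp only
    rw [one₁ x (by linarith), one₂ x hx, sub_self]
  · intro x hx
    rw [hf]
    simp only
    rw [zero₁ x hx, zero₂ x (by linarith), sub_self]
  · intro x h1 h2
    rw [hf]
    simp only
    rw [one₁ x h2, zero₂ x h1, sub_zero]

end Pool.Agent.NBody
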