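import Mathlib
import Pool.Agent.NBody.Traj
import Pool.Agent.NBody.En1
import Pool.Agent.NBody.En2

/-!
Slow motion: along an orbit all of whose subsystems are at most parabolic, a cluster of size `D`
which is isolated at scale `10 D` stays so for a time of the order `D ^ (3 / 2)`.
-/

set_option autoImplicit false
open scoped RealInnerProductSpace
open Set Finset Filter Topology

namespace Pool.Agent.NBody

/-- growth of a function whose derivative is bounded in terms of the clock -/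
theorem clock_growth {σ τ g g' : ℝ → ℝ} {s₁ s₂ L : ℝ} (hτ : ∀ s, HasDerivAt τ (σ s) s)
    (hg : ∀ s, HasDerivAt g (σ s * g' s) s) (hσ : ∀ s, 0 < σ s)
    (hL : ∀ s ∈ Icc s₁ s₂, L ≤ g' s) :
    ∀ s ∈ Icc s₁ s₂, g s₁ + L * (τ s - τ s₁) ≤ g s := by
  intro s hs
  have hd : ∀ r, HasDerivAt (fun r => g r - L * τ r) (σ r * g' r - L * σ r) r := fun r =>
    (hg r).sub ((hτ r).const_mul L)
  have hmono : MonotoneOn (fun r => g r - L * τ r) (Icc s₁ s₂) := by
    apply monotoneOn_of_deriv_nonneg (convex_Icc s₁ s₂)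
    · exact fun r _ => (hd r).continuousAt.continuousWithinAt
    · exact fun r _ => (hd r).differentiableAt.differentiableWithinAt
    · intro r hr
      rw [interior_Icc] at hr
      rw [(hd r).deriv]
      have h1 := hL r ⟨hr.1.le, hr.2.le⟩
      have h2 := hσ r
      nlinarith
  have h1 := hmono (left_mem_Icc.mpr (hs.1.trans hs.2)) hs hs.1
  simp only at h1
  linarith

/-- The clock. -/
theorem clock_strictMono {σ τ : ℝ → ℝ} (hτ : ∀ s, HasDerivAt τ (σ s) s) (hσ : ∀ s, 0 < σ s) :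
    StrictMono τ :=
  strictMono_of_deriv_pos (fun s => by rw [(hτ s).deriv]; exact hσ s)

theorem slow_motion {N : ℕ} {m : Fin N → ℝ} (hm : ∀ i, 0 < m i) (C : ℝ) :
    ∃ κ : ℝ, 0 < κ ∧ ∀ (σ τ : ℝ → ℝ) (x : ℝ → Ph N), IsTraj m σ x →
      (∀ s, HasDerivAt τ (σ s) s) → ∀ s₁ s₂ : ℝ,
      (∀ s ∈ Icc s₁ s₂, Star C (x s).1 (x s).2) → ∀ (c : V3) (D : ℝ), 0 < D →
      ∀ A : Finset (Fin N), (∀ i ∈ A, ‖(x s₁).1 i - c‖ ≤ D) →
      (∀ i ∉ A, 10 * D ≤ ‖(x s₁).1 i - c‖) → τ s₂ - τ s₁ ≤ κ * (D * √D) →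
      ∀ s ∈ Icc s₁ s₂, (∀ i ∈ A, ‖(x s).1 i - c‖ ≤ 2 * D) ∧
        ∀ i ∉ A, 9 * D ≤ ‖(x s).1 i - c‖ := by
  rcases Nat.eq_zero_or_pos N with hN | hN
  · subst hN
    exact ⟨1, one_pos, fun σ τ x _ _ s₁ s₂ _ c D _ A _ _ _ s _ =>
      ⟨fun i => i.elim0, fun i => i.elim0⟩⟩
  have : Nonempty (Fin N) := ⟨⟨0, hN⟩⟩
  obtain ⟨i₀, hi₀⟩ := Finite.exists_min m
  set μ : ℝ := m i₀ with hμ
  have hμpos : 0 < μ := hm i₀
  obtain ⟨f, f', K, hK, hff', hsup, hlip, hf0, hfin, hfout, hf1⟩ := exists_shell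
  set K' : ℝ := 4 ^ N * √(N * C) * (2 * K) with hK'
  have hK'0 : 0 ≤ K' := by positivity
  refine ⟨μ / (2 * (K' + 1)), by positivity, ?_⟩
  intro σ τ x hx hτ s₁ s₂ hstar c D hD A hA hA' hT
  have hτmono := clock_strictMono hτ hx.pos
  have hsD : 0 < √D := Real.sqrt_pos.mpr hD
  -- the shell mass
  set Φ : ℝ → ℝ := fun s => ∑ i, m i * f (D⁻¹ • ((x s).1 i - c)) with hΦ
  have hder : ∀ s, HasDerivAt Φ (σ s * (D⁻¹ * ∑ i, f' (D⁻¹ • ((x s).1 i - c)) ((x s).2 i))) s := by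
    intro s
    have h1 : ∀ i ∈ (Finset.univ : Finset (Fin N)), HasDerivAt
        (fun s => m i * f (D⁻¹ • ((x s).1 i - c)))
        (m i * f' (D⁻¹ • ((x s).1 i - c)) (D⁻¹ • (σ s • (m i)⁻¹ • (x s).2 i))) s := by
      intro i _
      have h2 : HasDerivAt (fun s => D⁻¹ • ((x s).1 i - c)) (D⁻¹ • (σ s • (m i)⁻¹ • (x s).2 i)) s :=
        ((hx.der_q i s).sub_const c).const_smul D⁻¹
      have h3 := (hff' (D⁻¹ • ((x s).1 i - c))).comp_hasDerivAt s h2
      exact h3.const_mul (m i)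
    have h4 := HasDerivAt.fun_sum h1
    have h5 : ∑ i, m i * f' (D⁻¹ • ((x s).1 i - c)) (D⁻¹ • (σ s • (m i)⁻¹ • (x s).2 i)) =
        σ s * (D⁻¹ * ∑ i, f' (D⁻¹ • ((x s).1 i - c)) ((x s).2 i)) := by
      rw [Finset.mul_sum, Finset.mul_sum]
      apply Finset.sum_congr rfl
      intro i _
      rw [map_smul, map_smul, map_smul]
      simp only [smul_eq_mul]
      have := (hm i).ne'
      field_simp
    rw [h5] at h4
    exact h4
  have hb : ∀ s ∈ Icc s₁ s₂, |D⁻¹ * ∑ i, f' (D⁻¹ • ((x s).1 i - c)) ((x s).2 i)| ≤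
      K' / (D * √D) := by
    intro s hs
    have h1 := field_bound hN (hstar s hs) N Finset.univ (by simp) D K (K * D⁻¹)
      (fun i => f' (D⁻¹ • ((x s).1 i - c))) hD hK.le (by positivity)
      (fun i _ j hj => absurd (Finset.mem_univ j) hj) (fun i _ => hsup _)
      (fun i _ j _ => by
        refine (hlip _ _).trans (le_of_eq ?_)
        rw [← smul_sub, sub_sub_sub_cancel_right, norm_smul, norm_inv, Real.norm_of_nonneg hD.le]
        ring)
    have h2 : K / √D + K * D⁻¹ * √D = 2 * K / √D := by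
      have h3 : D = √D * √D := (Real.mul_self_sqrt hD.le).symm
      have h4 : D⁻¹ * √D = 1 / √D := by
        rw [inv_mul_eq_div, div_eq_div_iff hD.ne' hsD.ne', one_mul]
        exact h3.symm
      rw [mul_assoc, h4]; ring
    rw [h2] at h1
    rw [abs_mul, abs_of_pos (inv_pos.mpr hD)]
    calc D⁻¹ * |∑ i, f' (D⁻¹ • ((x s).1 i - c)) ((x s).2 i)| ≤
          D⁻¹ * (4 ^ N * √(N * C) * (2 * K / √D)) := mul_le_mul_of_nonneg_left h1 (by positivity)
      _ = K' / (D * √D) := by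
          rw [hK']
          field_simp
  have hΦ0 : Φ s₁ = 0 := by
    rw [hΦ]
    apply Finset.sum_eq_zero
    intro i _
    have hn : ‖D⁻¹ • ((x s₁).1 i - c)‖ = ‖(x s₁).1 i - c‖ / D := by
      rw [norm_smul, norm_inv, Real.norm_of_nonneg hD.le]
      ring
    by_cases hi : i ∈ A
    · rw [hfin _ (by rw [hn, div_le_one hD]; exact hA i hi), mul_zero]
    · rw [hfout _ (by rw [hn, le_div_iff₀ hD]; exact hA' i hi), mul_zero]
  have hsmall : ∀ s ∈ Icc s₁ s₂, Φ s < μ := by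
    intro s hs
    have h1 := clock_growth (g := fun s => -Φ s)
      (g' := fun s => -(D⁻¹ * ∑ i, f' (D⁻¹ • ((x s).1 i - c)) ((x s).2 i)))
      (L := -(K' / (D * √D))) (s₁ := s₁) (s₂ := s₂) hτ (fun s => by
        rw [mul_neg]
        exact (hder s).neg) hx.pos (fun s hs => by
          have := (abs_le.mp (hb s hs)).2
          linarith) s hs
    rw [hΦ0] at h1
    have h2 : τ s - τ s₁ ≤ μ / (2 * (K' + 1)) * (D * √D) :=
      le_trans (sub_le_sub_right (hτmono.monotone hs.2) _) hT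
    have h3 : Φ s ≤ K' / (D * √D) * (τ s - τ s₁) := by linarith
    have h4 : K' / (D * √D) * (τ s - τ s₁) ≤ K' / (D * √D) * (μ / (2 * (K' + 1)) * (D * √D)) :=
      mul_le_mul_of_nonneg_left h2 (by positivity)
    have h5 : K' / (D * √D) * (μ / (2 * (K' + 1)) * (D * √D)) = μ * (K' / (2 * (K' + 1))) := by
      field_simp
    have h6 : K' / (2 * (K' + 1)) < 1 := by
      rw [div_lt_one (by positivity)]
      linarith
    have h7 : μ * (K' / (2 * (K' + 1))) < μ * 1 := mul_lt_mul_of_pos_left h6 hμpos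
    linarith
  have hout : ∀ s ∈ Icc s₁ s₂, ∀ i, ¬ (2 * D ≤ ‖(x s).1 i - c‖ ∧ ‖(x s).1 i - c‖ ≤ 9 * D) := by
    intro s hs i ⟨h1, h2⟩
    have hn : ‖D⁻¹ • ((x s).1 i - c)‖ = ‖(x s).1 i - c‖ / D := by
      rw [norm_smul, norm_inv, Real.norm_of_nonneg hD.le]
      ring
    have h3 : f (D⁻¹ • ((x s).1 i - c)) = 1 :=
      hf1 _ (by rw [hn, le_div_iff₀ hD]; exact h1) (by rw [hn, div_le_iff₀ hD]; exact h2)
    have h4 : m i * f (D⁻¹ • ((x s).1 i - c)) ≤ Φ s :=
      Finset.single_le_sum (f := fun i => m i * f (D⁻¹ • ((x s).1 i - c)))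
        (fun j _ => mul_nonneg (hm j).le (hf0 _)) (Finset.mem_univ i)
    rw [h3, mul_one] at h4
    have h5 := hsmall s hs
    have h6 : μ ≤ m i := hi₀ i
    linarith
  have hcont : ∀ i, Continuous (fun s => ‖(x s).1 i - c‖) := by
    intro i
    have h1 : Continuous (fun s => (x s).1 i) :=
      continuous_iff_continuousAt.mpr (fun s => (hx.der_q i s).continuousAt)
    exact (h1.sub continuous_const).norm
  intro s hs
  constructor
  · intro i hi
    by_contra hcon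
    push Not at hcon
    have h1 : (2 * D) ∈ (fun s => ‖(x s).1 i - c‖) '' Icc s₁ s := by
      apply intermediate_value_Icc hs.1 (hcont i).continuousOn
      exact ⟨by linarith [hA i hi], hcon.le⟩
    obtain ⟨r, hr, hr2⟩ := h1
    simp only at hr2
    exact hout r ⟨hr.1, hr.2.trans hs.2⟩ i ⟨hr2.ge, by rw [hr2]; linarith⟩
  · intro i hi
    by_contra hcon
    push Not at hcon
    have h1 : (9 * D) ∈ (fun s => ‖(x s).1 i - c‖) '' Icc s₁ s := by
      apply intermediate_value_Icc' hs.1 (hcont i).continuousOn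
      exact ⟨hcon.le, by linarith [hA' i hi]⟩
    obtain ⟨r, hr, hr2⟩ := h1
    simp only at hr2
    exact hout r ⟨hr.1, hr.2.trans hs.2⟩ i ⟨by rw [hr2]; linarith, hr2.le⟩

end Pool.Agent.NBody
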