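import Mathlib
import Pool.Agent.NBody.Clock
import Pool.Agent.NBody.En3

/-!
Near a collision-free state every trajectory moves, for a short Newtonian time, with almost the
velocities of that state.
-/

set_option autoImplicit false
open scoped RealInnerProductSpace
open Set Finset Filter Topology

namespace Pool.Agent.NBody

theorem stay {N : ℕ} {m : Fin N → ℝ} (hm : ∀ i, 0 < m i) {x₀ : Ph N}
    (hnc : ∀ i j, i ≠ j → x₀.1 i ≠ x₀.1 j) {η : ℝ} (hη : 0 < η) :
    ∃ V ∈ 𝓝 x₀, ∃ δ > 0, ∀ (σ τ : ℝ → ℝ) (x : ℝ → Ph N), IsTraj m σ x →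
      (∀ s, HasDerivAt τ (σ s) s) → ∀ s₁ s₂ : ℝ, s₁ ≤ s₂ → x s₁ ∈ V → τ s₂ - τ s₁ ≤ δ →
      x s₂ ∈ Metric.ball x₀ η ∧ ∀ i, ‖(x s₂).1 i - (x s₁).1 i -
        (τ s₂ - τ s₁) • ((m i)⁻¹ • x₀.2 i)‖ ≤ (τ s₂ - τ s₁) * (η / m i) := by
  set X : Ph N → Ph N := fun y => ((fun i => (m i)⁻¹ • y.2 i), (fun i => force m y.1 i)) with hX
  have hXc : ContinuousAt X x₀ := by
    apply ContinuousAt.prodMk
    · apply continuousAt_pi.mpr
      intro i
      have h : Continuous (fun y : Ph N => y.2 i) := (continuous_apply i).comp continuous_snd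
      exact (h.const_smul ((m i)⁻¹)).continuousAt
    · apply continuousAt_pi.mpr
      intro i
      exact continuousAt_force m hnc i
  set K : ℝ := ‖X x₀‖ + 1 with hK
  have hKpos : 0 < K := by positivity
  have h1 : ∀ᶠ y in 𝓝 x₀, ‖X y‖ < K := hXc.norm.eventually_lt continuousAt_const (by
    rw [hK]; linarith)
  obtain ⟨R₀, hR₀, hR₀b⟩ := Metric.eventually_nhds_iff_ball.mp h1
  set R : ℝ := min R₀ η with hR'
  have hR : 0 < R := lt_min hR₀ hη
  have hRb : ∀ y ∈ Metric.ball x₀ R, ‖X y‖ < K := fun y hy =>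
    hR₀b y (Metric.ball_subset_ball (min_le_left _ _) hy)
  refine ⟨Metric.ball x₀ (R / 2), Metric.ball_mem_nhds _ (by linarith), R / 4 / (K + 1),
    by positivity, ?_⟩
  intro σ τ x hx hτ s₁ s₂ hs₁₂ hx0 hτs
  have hτmono := clock_strictMono hτ hx.pos
  have hc3 : (K + 1) * (τ s₂ - τ s₁) ≤ R / 4 := by
    rw [le_div_iff₀ (by positivity)] at hτs
    linarith
  have hinball : ∀ s ∈ Icc s₁ s₂, ‖x s - x s₁‖ ≤ (K + 1) * (τ s - τ s₁) →
      x s ∈ Metric.ball x₀ R := by
    intro s hs h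
    have h3 : (K + 1) * (τ s - τ s₁) ≤ (K + 1) * (τ s₂ - τ s₁) :=
      mul_le_mul_of_nonneg_left (sub_le_sub_right (hτmono.monotone hs.2) _) (by positivity)
    rw [Metric.mem_ball, dist_eq_norm] at hx0 ⊢
    calc ‖x s - x₀‖ = ‖(x s - x s₁) + (x s₁ - x₀)‖ := by congr 1; abel
      _ ≤ ‖x s - x s₁‖ + ‖x s₁ - x₀‖ := norm_add_le _ _
      _ < R := by linarith
  have hmain := image_norm_le_of_norm_deriv_right_lt_deriv_boundary
    (f := fun s => x s - x s₁) (f' := fun s => σ s • X (x s)) (a := s₁) (b := s₂)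
    (B := fun s => (K + 1) * (τ s - τ s₁)) (B' := fun s => (K + 1) * σ s)
    (by
      intro s _
      exact ((hx.der s).sub_const (x s₁)).continuousAt.continuousWithinAt)
    (by
      intro s _
      exact ((hx.der s).sub_const (x s₁)).hasDerivWithinAt)
    (by simp)
    (fun s => ((hτ s).sub_const _).const_mul _)
    (by
      intro s hs heq
      have hb := hinball s ⟨hs.1, hs.2.le⟩ heq.le
      have h4 := hRb _ hb
      rw [norm_smul, Real.norm_of_nonneg (hx.pos s).le]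
      have h5 := hx.pos s
      nlinarith)
  have hball : ∀ s ∈ Icc s₁ s₂, x s ∈ Metric.ball x₀ η := fun s hs =>
    Metric.ball_subset_ball (min_le_right _ _) (hinball s hs (hmain hs))
  refine ⟨hball s₂ (right_mem_Icc.mpr hs₁₂), ?_⟩
  intro i
  have hd : ∀ s, HasDerivAt (fun s => (x s).1 i - (x s₁).1 i - (τ s - τ s₁) • ((m i)⁻¹ • x₀.2 i))
      (σ s • (m i)⁻¹ • (x s).2 i - σ s • ((m i)⁻¹ • x₀.2 i)) s := by
    intro s
    exact ((hx.der_q i s).sub_const _).sub (((hτ s).sub_const _).smul_const _)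
  have h2 := image_norm_le_of_norm_deriv_right_le_deriv_boundary
    (f := fun s => (x s).1 i - (x s₁).1 i - (τ s - τ s₁) • ((m i)⁻¹ • x₀.2 i))
    (f' := fun s => σ s • (m i)⁻¹ • (x s).2 i - σ s • ((m i)⁻¹ • x₀.2 i)) (a := s₁) (b := s₂)
    (B := fun s => (τ s - τ s₁) * (η / m i)) (B' := fun s => σ s * (η / m i))
    (by
      intro s _
      exact (hd s).continuousAt.continuousWithinAt)
    (by
      intro s _
      exact (hd s).hasDerivWithinAt)
    (by simp)
    (fun s => ((hτ s).sub_const _).mul_const _)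
    (by
      intro s hs
      have hb := hball s ⟨hs.1, hs.2.le⟩
      rw [Metric.mem_ball] at hb
      have h3 : dist ((x s).2 i) (x₀.2 i) ≤ dist (x s) x₀ :=
        (dist_le_pi_dist (x s).2 x₀.2 i).trans (le_max_right _ _)
      rw [dist_eq_norm ((x s).2 i)] at h3
      rw [← smul_sub, ← smul_sub, norm_smul, norm_smul, Real.norm_of_nonneg (hx.pos s).le,
        norm_inv, Real.norm_of_nonneg (hm i).le]
      apply mul_le_mul_of_nonneg_left _ (hx.pos s).le
      rw [div_eq_inv_mul]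
      exact mul_le_mul_of_nonneg_left (by linarith) (inv_nonneg.mpr (hm i).le))
  exact h2 (right_mem_Icc.mpr hs₁₂)

end Pool.Agent.NBody
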