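import Mathlib
import Pool.Agent.NBody.En7
import Pool.Agent.NBody.En9

/-!
The loop argument: on an orbit segment which begins and ends near the same state, a state with a
fast subsystem (a forward ratchet) can only occur near that state.
-/

set_option autoImplicit false
open scoped RealInnerProductSpace
open Set Finset Filter Topology

namespace Pool.Agent.NBody

theorem IsTraj.shift {N : ℕ} {m : Fin N → ℝ} {σ : ℝ → ℝ} {x : ℝ → Ph N} (h : IsTraj m σ x)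
    (b : ℝ) : IsTraj m (fun s => σ (s + b)) (fun s => x (s + b)) where
  cont := h.cont.comp (continuous_id.add continuous_const)
  pos := fun _ => h.pos _
  ncol := fun _ => h.ncol _
  der := fun s => HasDerivAt.comp_add_const s b (h.der (s + b))

theorem gfun_slope2 {N : ℕ} {m : Fin N → ℝ} (hm : ∀ i, 0 < m i) {L : ℝ} (hL1 : 1 ≤ L)
    (hL : ∀ i j, m i * (1 + 1 / m j) ≤ L) {e : V3} (he : ‖e‖ ≤ 1) {s₀ lam k : ℝ} (hlam : 0 < lam)
    {σ τ : ℝ → ℝ} {x : ℝ → Ph N} (hx : IsTraj m σ x) (hτ : ∀ s, HasDerivAt τ (σ s) s)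
    {s₁ : ℝ} (hk : 0 < k + lam * τ s₁) {A₀ : Finset (Fin N)}
    (hA₀ : ∀ B, fA m L e s₀ (x s₁).1 (k + lam * τ s₁) B ≤ fA m L e s₀ (x s₁).1 (k + lam * τ s₁) A₀)
    {c : ℝ} (hc : c + 2 * (∑ i, m i) ^ 2 / (lam * (k + lam * τ s₁)) + nu L N N * lam <
      ∑ i ∈ A₀, ⟪(x s₁).2 i, e⟫) {s s' : ℝ} (h1 : s₁ ≤ s) (h2 : s ≤ s') :
    gfun m L e s₀ lam (x s).1 (k + lam * τ s) + c * (τ s' - τ s) ≤
      gfun m L e s₀ lam (x s').1 (k + lam * τ s') := by
  have hτm := clock_strictMono hτ hx.pos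
  rcases h1.lt_or_eq with h1' | h1'
  · have hpos : 0 < τ s - τ s₁ := sub_pos.mpr (hτm h1')
    have hnn : 0 ≤ τ s' - τ s := sub_nonneg.mpr (hτm.monotone h2)
    have e1 := gfun_convex hm hL1 hL he (s₀ := s₀) (k := k) hlam hx hτ h1 h2 hk
    have e2 := gfun_slope hm hL1 hL he (s₀ := s₀) hlam hx hτ hk A₀ hA₀ hc s h1
    have e3 : c * (τ s - τ s₁) * (τ s' - τ s) ≤
        (gfun m L e s₀ lam (x s).1 (k + lam * τ s) -
          gfun m L e s₀ lam (x s₁).1 (k + lam * τ s₁)) * (τ s' - τ s) :=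
      mul_le_mul_of_nonneg_right (by linarith) hnn
    have e4 : c * (τ s' - τ s) * (τ s - τ s₁) ≤
        (gfun m L e s₀ lam (x s').1 (k + lam * τ s') -
          gfun m L e s₀ lam (x s).1 (k + lam * τ s)) * (τ s - τ s₁) := by
      calc c * (τ s' - τ s) * (τ s - τ s₁) = c * (τ s - τ s₁) * (τ s' - τ s) := by ring
        _ ≤ _ := e3.trans e1
    have e5 := le_of_mul_le_mul_right e4 hpos
    linarith
  · subst h1'
    exact gfun_slope hm hL1 hL he (s₀ := s₀) hlam hx hτ hk A₀ hA₀ hc s' h2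

theorem loop_core {N : ℕ} {m : Fin N → ℝ} (hm : ∀ i, 0 < m i) {L : ℝ} (hL1 : 1 ≤ L)
    (hL : ∀ i j, m i * (1 + 1 / m j) ≤ L) {x₀ : Ph N} (hnc : ∀ i j, i ≠ j → x₀.1 i ≠ x₀.1 j)
    {ψ : Ph N → ℝ} (hψc : ContinuousAt ψ x₀) (hψpos : 0 < ψ x₀) {cm η : ℝ} (hcm : 0 < cm)
    (hη : 0 < η) :
    ∃ V ∈ 𝓝 x₀, ∀ (σ τ : ℝ → ℝ) (x : ℝ → Ph N), IsTraj m σ x → (∀ s, σ s = ψ (x s)) →
      (∀ s, HasDerivAt τ (σ s) s) → ∀ a r b : ℝ, a ≤ r → r ≤ b → x a ∈ V → x b ∈ V →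
      ∀ (e : V3) (s₀ κ₀ lam c : ℝ) (A₀ : Finset (Fin N)), ‖e‖ ≤ 1 → 0 < κ₀ → 0 < lam → cm ≤ c →
      (∀ B, fA m L e s₀ (x r).1 κ₀ B ≤ fA m L e s₀ (x r).1 κ₀ A₀) →
      (c + 2 * (∑ i, m i) ^ 2 / (lam * κ₀) + nu L N N * lam < ∑ i ∈ A₀, ⟪(x r).2 i, e⟫) →
      x r ∈ Metric.ball x₀ η := by
  set M : ℝ := ∑ i, m i with hM
  have hM0 : 0 ≤ M := Finset.sum_nonneg (fun i _ => (hm i).le)
  set η' : ℝ := min η (cm / (8 * (N + 1))) with hη'
  have hη'pos : 0 < η' := lt_min hη (by positivity)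
  obtain ⟨V₁, hV₁, δ₁, hδ₁, hstay⟩ := stay hm hnc hη'pos
  obtain ⟨V₂, hV₂, τ₀, hτ₀, hclock⟩ := clock_lower (m := m) hnc hψc hψpos
  set δ : ℝ := min δ₁ τ₀ with hδ
  have hδpos : 0 < δ := lt_min hδ₁ hτ₀
  set ε : ℝ := cm * δ / (32 * (M + 1)) with hε
  have hεpos : 0 < ε := by positivity
  refine ⟨V₁ ∩ V₂ ∩ Metric.ball x₀ ε, Filter.inter_mem (Filter.inter_mem hV₁ hV₂)
    (Metric.ball_mem_nhds _ hεpos), ?_⟩
  intro σ τ x hx hσ hτ a r b har hrb ha hb e s₀ κ₀ lam c A₀ he hκ₀ hlam hc hA₀ hslope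
  have hτm := clock_strictMono hτ hx.pos
  have hτc : Continuous τ := continuous_iff_continuousAt.mpr (fun s => (hτ s).continuousAt)
  by_contra hfar
  -- the clock time from a to r is more than δ
  have hT2 : δ < τ r - τ a := by
    by_contra hcon
    push Not at hcon
    have h1 := (hstay σ τ x hx hτ a r har ha.1.1 (hcon.trans (min_le_left _ _))).1
    exact hfar (Metric.ball_subset_ball (min_le_left _ _) h1)
  obtain ⟨a', ha', hτa'⟩ : ∃ a' ∈ Icc a r, τ a' = τ a + δ := by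
    have h1 := intermediate_value_Icc har hτc.continuousOn
    obtain ⟨s, h3, h4⟩ := h1 (show τ a + δ ∈ Icc (τ a) (τ r) from ⟨by linarith, by linarith⟩)
    exact ⟨s, h3, h4⟩
  obtain ⟨b', hb', hτb'⟩ : ∃ b' ∈ Icc b (b + 1), τ b' = τ b + δ := by
    have h0 : τ₀ ≤ τ (b + 1) - τ b := by
      have h1 := hclock (fun s => σ (s + b)) (fun s => τ (s + b) - τ b) (fun s => x (s + b))
        (hx.shift b) (fun s => hσ _) (by simp) (fun s =>
          (HasDerivAt.comp_add_const s b (hτ (s + b))).sub_const _) (by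
          simpa using hb.1.2) 1 le_rfl
      rwa [add_comm] at h1
    have h1 := intermediate_value_Icc (by linarith : b ≤ b + 1) hτc.continuousOn
    have h2 : δ ≤ τ₀ := min_le_right _ _
    obtain ⟨s, h3, h4⟩ := h1 (show τ b + δ ∈ Icc (τ b) (τ (b + 1)) from
      ⟨by linarith, by linarith⟩)
    exact ⟨s, h3, h4⟩
  -- displacements
  have hdb := (hstay σ τ x hx hτ b b' hb'.1 hb.1.1 (by
    rw [hτb']
    have : δ ≤ δ₁ := min_le_left _ _
    linarith)).2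
  have hda := (hstay σ τ x hx hτ a a' ha'.1 ha.1.1 (by
    rw [hτa']
    have : δ ≤ δ₁ := min_le_left _ _
    linarith)).2
  have hab : ∀ i, ‖(x a).1 i - (x b).1 i‖ ≤ 2 * ε := by
    intro i
    have h1 : dist (x a) (x b) ≤ 2 * ε := by
      have h2 := dist_triangle_right (x a) (x b) x₀
      have h3 := Metric.mem_ball.mp ha.2
      have h4 := Metric.mem_ball.mp hb.2
      linarith
    have h2 : dist ((x a).1 i) ((x b).1 i) ≤ dist (x a) (x b) :=
      (dist_le_pi_dist (x a).1 (x b).1 i).trans (le_max_left _ _)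
    rw [dist_eq_norm ((x a).1 i)] at h2
    linarith
  have hd' : ∀ i, m i * ‖(x b').1 i - (x a').1 i‖ ≤ 2 * (δ * η') + m i * (2 * ε) := by
    intro i
    have h1 := hdb i
    have h2 := hda i
    have e1 : τ b' - τ b = δ := by rw [hτb']; ring
    have e2 : τ a' - τ a = δ := by rw [hτa']; ring
    rw [e1] at h1
    rw [e2] at h2
    have h3 : (x b').1 i - (x a').1 i = ((x b').1 i - (x b).1 i - δ • ((m i)⁻¹ • x₀.2 i)) -
        ((x a').1 i - (x a).1 i - δ • ((m i)⁻¹ • x₀.2 i)) - ((x a).1 i - (x b).1 i) := by abel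
    have h4 : ‖(x b').1 i - (x a').1 i‖ ≤ δ * (η' / m i) + δ * (η' / m i) + 2 * ε := by
      rw [h3]
      refine (norm_sub_le _ _).trans ?_
      refine add_le_add ((norm_sub_le _ _).trans (add_le_add h1 h2)) (hab i)
    have h5 := mul_le_mul_of_nonneg_left h4 (hm i).le
    refine h5.trans (le_of_eq ?_)
    have := (hm i).ne'
    field_simp
    ring
  have hsum1 : ∑ i, m i * ‖(x b').1 i - (x a').1 i‖ ≤ N * (2 * (δ * η')) + M * (2 * ε) := by
    refine (Finset.sum_le_sum (fun i _ => hd' i)).trans (le_of_eq ?_)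
    rw [Finset.sum_add_distrib, hM, Finset.sum_mul, Finset.sum_const, Finset.card_univ,
      Fintype.card_fin, nsmul_eq_mul]
  have hsum2 : ∑ i, m i * ‖(x a).1 i - (x b).1 i‖ ≤ M * (2 * ε) := by
    rw [hM, Finset.sum_mul]
    exact Finset.sum_le_sum (fun i _ => mul_le_mul_of_nonneg_left (hab i) (hm i).le)
  -- numbers
  have hMε : M * (2 * ε) ≤ c * δ / 16 := by
    have h1 : M * (2 * ε) = cm * δ / 16 * (M / (M + 1)) := by
      rw [hε]
      have : M + 1 ≠ 0 := by positivity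
      field_simp
      ring
    rw [h1]
    have h2 : M / (M + 1) ≤ 1 := by
      rw [div_le_one (by positivity)]
      linarith
    have h3 : cm * δ / 16 * (M / (M + 1)) ≤ cm * δ / 16 * 1 :=
      mul_le_mul_of_nonneg_left h2 (by positivity)
    have h4 : cm * δ ≤ c * δ := mul_le_mul_of_nonneg_right hc hδpos.le
    linarith
  have hNη : N * (2 * (δ * η')) ≤ c * δ / 4 := by
    have h1 : η' ≤ cm / (8 * (N + 1)) := min_le_right _ _
    have h2 : (N:ℝ) * (2 * (δ * η')) ≤ N * (2 * (δ * (cm / (8 * (N + 1))))) := by gcongr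
    refine h2.trans ?_
    have h3 : (N:ℝ) * (2 * (δ * (cm / (8 * (N + 1))))) = cm * δ / 4 * (N / (N + 1)) := by
      have : (N:ℝ) + 1 ≠ 0 := by positivity
      field_simp
      ring
    rw [h3]
    have h4 : (N:ℝ) / (N + 1) ≤ 1 := by
      rw [div_le_one (by positivity)]
      linarith
    have h5 : cm * δ / 4 * ((N:ℝ) / (N + 1)) ≤ cm * δ / 4 * 1 :=
      mul_le_mul_of_nonneg_left h4 (by positivity)
    have h6 : cm * δ ≤ c * δ := mul_le_mul_of_nonneg_right hc hδpos.le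
    linarith
  have hcδ : 0 < c * δ := mul_pos (hcm.trans_le hc) hδpos
  -- first piece
  obtain ⟨k₁, hk₁⟩ : ∃ k₁ : ℝ, k₁ = κ₀ - lam * τ r := ⟨_, rfl⟩
  have hk₁r : k₁ + lam * τ r = κ₀ := by rw [hk₁]; ring
  have g1 := gfun_slope2 hm hL1 hL he (s₀ := s₀) (k := k₁) (c := c) hlam hx hτ (s₁ := r)
    (by rw [hk₁r]; exact hκ₀) (A₀ := A₀) (by rw [hk₁r]; exact hA₀)
    (by rw [hk₁r]; exact hslope) (s := r) (s' := b) le_rfl hrb
  have g2 := gfun_slope2 hm hL1 hL he (s₀ := s₀) (k := k₁) (c := c) hlam hx hτ (s₁ := r)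
    (by rw [hk₁r]; exact hκ₀) (A₀ := A₀) (by rw [hk₁r]; exact hA₀)
    (by rw [hk₁r]; exact hslope) (s := b) (s' := b') hrb hb'.1
  rw [hk₁r] at g1
  -- second piece
  obtain ⟨k₂, hk₂⟩ : ∃ k₂ : ℝ, k₂ = k₁ + lam * τ b - lam * τ a := ⟨_, rfl⟩
  have hk₂a : k₂ + lam * τ a = k₁ + lam * τ b := by rw [hk₂]; ring
  have hk₂a' : k₂ + lam * τ a' = k₁ + lam * τ b' := by rw [hk₂, hτa', hτb']; ring
  have hτrb : 0 ≤ τ b - τ r := sub_nonneg.mpr (hτm.monotone hrb)
  have hkb : κ₀ ≤ k₁ + lam * τ b := by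
    have := mul_nonneg hlam.le hτrb
    rw [← hk₁r]
    linarith
  have g3 := gfun_convex hm hL1 hL he (s₀ := s₀) (k := k₂) hlam hx hτ ha'.1 ha'.2
    (by rw [hk₂a]; exact hκ₀.trans_le hkb)
  rw [hk₂a, hk₂a'] at g3
  have g4 := gfun_lip hm (L := L) (s₀ := s₀) (lam := lam) (κ := k₁ + lam * τ b') he (x b').1
    (x a').1
  have g5 := gfun_lip hm (L := L) (s₀ := s₀) (lam := lam) (κ := k₁ + lam * τ b) he (x a).1 (x b).1
  have g6 : gfun m L e s₀ lam (x r).1 (k₂ + lam * τ r) ≤ gfun m L e s₀ lam (x r).1 κ₀ := by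
    apply gfun_anti hL1 hlam hκ₀
    have h1 : 0 ≤ lam * (τ r - τ a) := mul_nonneg hlam.le (by linarith)
    rw [hk₂]
    linarith
  have e1 : τ b' - τ b = δ := by rw [hτb']; ring
  rw [e1] at g2
  -- growth on the first part of the second piece
  have h7 : gfun m L e s₀ lam (x a).1 (k₁ + lam * τ b) + c * δ / 2 ≤
      gfun m L e s₀ lam (x a').1 (k₁ + lam * τ b') := by linarith
  have h8 : gfun m L e s₀ lam (x a').1 (k₁ + lam * τ b') ≤
      gfun m L e s₀ lam (x r).1 (k₂ + lam * τ r) := by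
    by_contra hcon
    push Not at hcon
    have e2 : τ a' - τ a = δ := by rw [hτa']; ring
    rw [e2] at g3
    have h9 : 0 ≤ (gfun m L e s₀ lam (x a').1 (k₁ + lam * τ b') -
        gfun m L e s₀ lam (x a).1 (k₁ + lam * τ b)) * (τ r - τ a') := by
      apply mul_nonneg (by linarith)
      rw [hτa']
      linarith
    have h10 : (gfun m L e s₀ lam (x r).1 (k₂ + lam * τ r) -
        gfun m L e s₀ lam (x a').1 (k₁ + lam * τ b')) * δ < 0 :=
      mul_neg_of_neg_of_pos (by linarith) hδpos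
    linarith
  have h9 := gfun_lip hm (L := L) (s₀ := s₀) (lam := lam) (κ := k₁ + lam * τ b) he (x b).1 (x a).1
  have h10 : ∑ i, m i * ‖(x b).1 i - (x a).1 i‖ ≤ M * (2 * ε) := by
    refine le_trans (le_of_eq ?_) hsum2
    exact Finset.sum_congr rfl (fun i _ => by rw [norm_sub_rev])
  have h11 : 0 ≤ c * (τ b - τ r) := mul_nonneg (hcm.le.trans hc) hτrb
  linarith

end Pool.Agent.NBody
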