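import Mathlib
import Pool.Agent.NBody.En1
import Pool.Agent.NBody.Traj

/-!
`Star` is a closed condition, and is stable near a state (with a slightly larger constant).
-/

set_option autoImplicit false
open scoped RealInnerProductSpace
open Set Finset Filter Topology

namespace Pool.Agent.NBody

theorem star_iff_strict {N : ℕ} (C : ℝ) (q p : Fin N → V3) :
    Star C q p ↔ ∀ (A : Finset (Fin N)) (d : ℝ), 0 < d →
      (∀ i ∈ A, ∀ j ∉ A, d < ‖q i - q j‖) → ‖∑ i ∈ A, p i‖ ^ 2 * d ≤ C := by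
  constructor
  · intro h A d hd hA
    exact h A d hd (fun i hi j hj => (hA i hi j hj).le)
  · intro h A d hd hA
    have h1 : Tendsto (fun d' : ℝ => ‖∑ i ∈ A, p i‖ ^ 2 * d') (𝓝[<] d)
        (𝓝 (‖∑ i ∈ A, p i‖ ^ 2 * d)) :=
      ((continuous_const.mul continuous_id).tendsto d).mono_left nhdsWithin_le_nhds
    refine le_of_tendsto h1 ?_
    have h2 : ∀ᶠ d' in 𝓝[<] d, 0 < d' := by
      have : ∀ᶠ d' in 𝓝 d, 0 < d' := lt_mem_nhds hd
      exact this.filter_mono nhdsWithin_le_nhds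
    filter_upwards [h2, self_mem_nhdsWithin] with d' hd' hdd
    exact h A d' hd' (fun i hi j hj => lt_of_lt_of_le hdd (hA i hi j hj))

theorem isClosed_star {N : ℕ} (C : ℝ) : IsClosed {y : Ph N | Star C y.1 y.2} := by
  have h : {y : Ph N | Star C y.1 y.2} = ⋂ (A : Finset (Fin N)) (d : ℝ) (_ : 0 < d),
      ({y : Ph N | ∀ i ∈ A, ∀ j ∉ A, d < ‖y.1 i - y.1 j‖}ᶜ ∪
        {y : Ph N | ‖∑ i ∈ A, y.2 i‖ ^ 2 * d ≤ C}) := by
    ext y
    simp only [mem_setOf_eq, star_iff_strict, mem_iInter, mem_union, mem_compl_iff]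
    refine forall_congr' fun A => forall_congr' fun d => forall_congr' fun _ => ?_
    exact imp_iff_not_or
  rw [h]
  refine isClosed_iInter fun A => isClosed_iInter fun d => isClosed_iInter fun _ => ?_
  apply IsClosed.union
  · rw [isClosed_compl_iff]
    have h1 : {y : Ph N | ∀ i ∈ A, ∀ j ∉ A, d < ‖y.1 i - y.1 j‖} =
        ⋂ i ∈ A, ⋂ j ∈ Aᶜ, {y : Ph N | d < ‖y.1 i - y.1 j‖} := by
      ext y
      simp only [mem_setOf_eq, mem_iInter, Finset.mem_compl]
    rw [h1]
    refine isOpen_biInter_finset fun i _ => isOpen_biInter_finset fun j _ => ?_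
    exact isOpen_lt continuous_const
      (((continuous_apply i).comp continuous_fst).sub
        ((continuous_apply j).comp continuous_fst)).norm
  · refine isClosed_le ?_ continuous_const
    have h2 : Continuous (fun y : Ph N => ∑ i ∈ A, y.2 i) :=
      continuous_finset_sum A fun i _ => (continuous_apply i).comp continuous_snd
    exact (h2.norm.pow 2).mul continuous_const

/-- along a continuous curve the violations of `Star` are open -/
theorem isOpen_not_star {N : ℕ} (C : ℝ) {x : ℝ → Ph N} (hx : Continuous x) :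
    IsOpen {s : ℝ | ¬ Star C (x s).1 (x s).2} :=
  ((isClosed_star C).preimage hx).isOpen_compl

theorem IsTraj.continuous {N : ℕ} {m : Fin N → ℝ} {σ : ℝ → ℝ} {x : ℝ → Ph N}
    (h : IsTraj m σ x) : Continuous x :=
  continuous_iff_continuousAt.mpr fun s => (h.der s).continuousAt

theorem star_nhds {N : ℕ} {C C' : ℝ} (hC : 0 ≤ C) (h : C < C') {x₀ : Ph N}
    (_hp : ∑ i, x₀.2 i = 0) (h0 : Star C x₀.1 x₀.2) :
    ∀ᶠ y in 𝓝 x₀, (∑ i, y.2 i = 0) → Star C' y.1 y.2 := by
  have hC' : 0 ≤ C' := hC.trans h.le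
  have key : ∀ A : Finset (Fin N), ∀ᶠ y in 𝓝 x₀, (∑ i, y.2 i = 0) → ∀ d : ℝ, 0 < d →
      (∀ i ∈ A, ∀ j ∉ A, d ≤ ‖y.1 i - y.1 j‖) → ‖∑ i ∈ A, y.2 i‖ ^ 2 * d ≤ C' := by
    intro A
    rcases A.eq_empty_or_nonempty with hA | hA
    · filter_upwards with y _ d hd _
      rw [hA]
      simpa using hC'
    rcases Aᶜ.eq_empty_or_nonempty with hB | hB
    · filter_upwards with y hy d hd _
      have : A = Finset.univ := by
        rw [← compl_compl A, hB, Finset.compl_empty]
      rw [this, hy]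
      simpa using hC'
    have hne : (A ×ˢ Aᶜ).Nonempty := hA.product hB
    let g : Ph N → ℝ := fun y => (A ×ˢ Aᶜ).inf' hne (fun r => ‖y.1 r.1 - y.1 r.2‖)
    have hg : Continuous g := by
      apply Continuous.finset_inf'_apply
      intro r _
      exact (((continuous_apply r.1).comp continuous_fst).sub
        ((continuous_apply r.2).comp continuous_fst)).norm
    have hP : Continuous (fun y : Ph N => ‖∑ i ∈ A, y.2 i‖ ^ 2) :=
      (continuous_finset_sum A fun i _ => (continuous_apply i).comp continuous_snd).norm.pow 2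
    have hF : Continuous (fun y : Ph N => ‖∑ i ∈ A, y.2 i‖ ^ 2 * g y) := hP.mul hg
    have hFx : ‖∑ i ∈ A, x₀.2 i‖ ^ 2 * g x₀ ≤ C := by
      have hg0 : 0 ≤ g x₀ := Finset.le_inf' _ _ (fun r _ => norm_nonneg _)
      rcases hg0.lt_or_eq with hpos | hz
      · refine h0 A (g x₀) hpos ?_
        intro i hi j hj
        exact Finset.inf'_le (fun r : Fin N × Fin N => ‖x₀.1 r.1 - x₀.1 r.2‖)
          (b := (i, j)) (Finset.mem_product.mpr ⟨hi, Finset.mem_compl.mpr hj⟩)
      · rw [← hz, mul_zero]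
        exact hC
    have h1 : ∀ᶠ y in 𝓝 x₀, ‖∑ i ∈ A, y.2 i‖ ^ 2 * g y < C' :=
      hF.continuousAt.eventually_lt continuousAt_const (lt_of_le_of_lt hFx h)
    filter_upwards [h1] with y hy _ d hd hAd
    have h2 : d ≤ g y := by
      apply Finset.le_inf'
      intro r hr
      rw [Finset.mem_product, Finset.mem_compl] at hr
      exact hAd r.1 hr.1 r.2 hr.2
    refine le_trans ?_ hy.le
    gcongr
  have key2 : ∀ᶠ y in 𝓝 x₀, ∀ A : Finset (Fin N), (∑ i, y.2 i = 0) → ∀ d : ℝ, 0 < d →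
      (∀ i ∈ A, ∀ j ∉ A, d ≤ ‖y.1 i - y.1 j‖) → ‖∑ i ∈ A, y.2 i‖ ^ 2 * d ≤ C' :=
    eventually_all.mpr key
  filter_upwards [key2] with y hy hy0 A d hd hA
  exact hy A hy0 d hd hA

end Pool.Agent.NBody
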