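import Mathlib
import Pool.Agent.NBody.Select

/-!
The choice of the half-space functional, with a lower bound for the initial slope.
-/

set_option autoImplicit false
open scoped RealInnerProductSpace
open Set Finset Filter Topology

namespace Pool.Agent.NBody

/-- `exists_ratchet` with a lower bound for the initial slope. -/
theorem exists_ratchet_quant {N : ℕ} (m : Fin N → ℝ) (hm : ∀ i, 0 < m i) :
    ∃ (C L η' : ℝ), 0 < C ∧ 0 < η' ∧ 1 ≤ L ∧ (∀ i j, m i * (1 + 1 / m j) ≤ L) ∧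
      ∀ x : (Fin N → V3) × (Fin N → V3), ∑ i, x.2 i = 0 → ∀ (A : Finset (Fin N)) (d : ℝ),
        0 < d → (∀ i ∈ A, ∀ j ∉ A, d ≤ ‖x.1 i - x.1 j‖) → C < ‖∑ i ∈ A, x.2 i‖ ^ 2 * d →
        ∃ (e : V3) (s₀ κ₀ lam c : ℝ) (A₀ : Finset (Fin N)), ‖e‖ ≤ 1 ∧ 0 < κ₀ ∧ 0 < lam ∧
          η' * ‖∑ i ∈ A, x.2 i‖ ≤ c ∧
          (∀ B, B ≠ A₀ → fA m L e s₀ x.1 κ₀ B < fA m L e s₀ x.1 κ₀ A₀) ∧
          (c + 2 * (∑ i, m i) ^ 2 / (lam * κ₀) + nu L N N * lam < ∑ i ∈ A₀, ⟪x.2 i, e⟫ ∨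
           c + 2 * (∑ i, m i) ^ 2 / (lam * κ₀) + nu L N N * lam < -∑ i ∈ A₀, ⟪x.2 i, e⟫) := by
  classical
  -- trivial case without bodies
  rcases Nat.eq_zero_or_pos N with hN | hN
  · subst hN
    refine ⟨1, 1, 1, one_pos, one_pos, le_rfl, fun i => i.elim0, ?_⟩
    intro x _ A d hd _ hC
    exfalso
    have : A = ∅ := Finset.eq_empty_of_isEmpty A
    rw [this] at hC
    simp at hC
    linarith
  have : Nonempty (Fin N) := ⟨⟨0, hN⟩⟩
  obtain ⟨η, hη, hdir⟩ := exists_direction (W := V3) (Option (Fin N × Fin N))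
  obtain ⟨μ, hμ, hμm⟩ : ∃ μ > 0, ∀ i, μ ≤ m i := by
    obtain ⟨i₀, hi₀⟩ := Finite.exists_min m
    exact ⟨m i₀, hm i₀, hi₀⟩
  set L : ℝ := 1 + ∑ i, ∑ j, m i * (1 + 1 / m j) with hLdef
  have hnn : ∀ i j, 0 ≤ m i * (1 + 1 / m j) := fun i j => by
    have := hm i
    have := hm j
    positivity
  have hL1 : 1 ≤ L := by
    rw [hLdef]
    have : 0 ≤ ∑ i, ∑ j, m i * (1 + 1 / m j) :=
      Finset.sum_nonneg (fun i _ => Finset.sum_nonneg (fun j _ => hnn i j))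
    linarith
  have hL : ∀ i j, m i * (1 + 1 / m j) ≤ L := by
    intro i j
    have h1 : m i * (1 + 1 / m j) ≤ ∑ j, m i * (1 + 1 / m j) :=
      Finset.single_le_sum (f := fun j => m i * (1 + 1 / m j)) (fun j _ => hnn i j)
        (Finset.mem_univ j)
    have h2 : ∑ j, m i * (1 + 1 / m j) ≤ ∑ i, ∑ j, m i * (1 + 1 / m j) :=
      Finset.single_le_sum (f := fun i => ∑ j, m i * (1 + 1 / m j))
        (fun i _ => Finset.sum_nonneg (fun j _ => hnn i j)) (Finset.mem_univ i)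
    rw [hLdef]
    linarith
  set ν : ℝ := nu L N N + 1 with hν
  have hνpos : 0 < ν := by
    have := nu_nonneg hL1 N N
    rw [hν]; linarith
  set M : ℝ := ∑ i, m i with hM
  have hMpos : 0 < M := Finset.sum_pos (fun i _ => hm i) ⟨⟨0, hN⟩, Finset.mem_univ _⟩
  have hNpos : (0:ℝ) < N := by exact_mod_cast hN
  refine ⟨2048 * (N:ℝ) ^ 2 * M ^ 2 * ν ^ 2 / (η ^ 3 * μ), L, η / (16 * N), by positivity,
    by positivity, hL1, hL, ?_⟩
  intro x hp0 A d hd hA hC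
  -- momentum of A
  set P : V3 := ∑ i ∈ A, x.2 i with hP
  have hPpos : 0 < ‖P‖ := by
    rw [norm_pos_iff]
    intro h0
    rw [h0] at hC
    have : 0 < 2048 * (N:ℝ) ^ 2 * M ^ 2 * ν ^ 2 / (η ^ 3 * μ) := by positivity
    simp at hC
    linarith
  obtain ⟨e, he, hek⟩ := hdir (fun k => match k with
    | none => P
    | some ij => x.1 ij.1 - x.1 ij.2)
  have heP : η * ‖P‖ ≤ |⟪P, e⟫| := hek none
  have heq : ∀ i j, η * ‖x.1 i - x.1 j‖ ≤ |⟪x.1 i - x.1 j, e⟫| := fun i j => hek (some (i, j))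
  set γ : ℝ := η * d with hγ
  have hγpos : 0 < γ := by positivity
  have hsepγ : ∀ i ∈ A, ∀ j ∉ A, γ ≤ |⟪x.1 i, e⟫ - ⟪x.1 j, e⟫| := by
    intro i hi j hj
    rw [← inner_sub_left]
    refine le_trans ?_ (heq i j)
    exact mul_le_mul_of_nonneg_left (hA i hi j hj) hη.le
  set π₀ : ℝ := η * ‖P‖ / (4 * N) with hπ₀
  have hπpos : 0 < π₀ := by positivity
  -- a good upper set
  obtain ⟨A', hA'gap, hA'P⟩ : ∃ A' : Finset (Fin N),
      (∀ i ∈ A', ∀ j ∉ A', γ ≤ ⟪x.1 i, e⟫ - ⟪x.1 j, e⟫) ∧ π₀ < |∑ i ∈ A', ⟪x.2 i, e⟫| := by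
    by_contra hcon
    push Not at hcon
    have h1 := gap_lemma (fun i => ⟪x.1 i, e⟫) (fun i => ⟪x.2 i, e⟫) A γ hγpos hsepγ π₀ hcon
    rw [Fintype.card_fin] at h1
    have h2 : |⟪P, e⟫| = |∑ i ∈ A, ⟪x.2 i, e⟫| := by
      rw [hP, sum_inner]
    have h3 : η * ‖P‖ ≤ 2 * (N:ℝ) * π₀ := by
      rw [h2] at heP
      exact heP.trans h1
    have h4 : 2 * (N:ℝ) * π₀ = η * ‖P‖ / 2 := by
      rw [hπ₀]
      field_simp
      ring
    rw [h4] at h3
    have : 0 < η * ‖P‖ := by positivity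
    linarith
  have hne : A'.Nonempty := by
    by_contra h
    rw [Finset.not_nonempty_iff_eq_empty] at h
    rw [h, Finset.sum_empty, abs_zero] at hA'P
    linarith
  have hnec : A'ᶜ.Nonempty := by
    by_contra h
    rw [Finset.not_nonempty_iff_eq_empty, Finset.compl_eq_empty_iff] at h
    rw [h, ← sum_inner, hp0, inner_zero_left, abs_zero] at hA'P
    linarith
  obtain ⟨j₀, hj₀, hj₀max⟩ := A'ᶜ.exists_max_image (fun i => ⟪x.1 i, e⟫) hnec
  rw [Finset.mem_compl] at hj₀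
  set s₀ : ℝ := ⟪x.1 j₀, e⟫ + γ / 2 with hs₀
  set κ₀ : ℝ := μ * γ / (4 * ν) with hκ₀
  have hκpos : 0 < κ₀ := by positivity
  set lam : ℝ := π₀ / (4 * ν) with hlam
  have hlampos : 0 < lam := by positivity
  have hnuκ : nu L N N * κ₀ < μ * (γ / 2) := by
    have h1 : nu L N N * κ₀ ≤ ν * κ₀ := by
      apply mul_le_mul_of_nonneg_right _ hκpos.le
      rw [hν]; linarith
    have h2 : ν * κ₀ = μ * γ / 4 := by
      rw [hκ₀]
      field_simp
    have h3 : 0 < μ * γ := by positivity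
    rw [h2] at h1
    linarith
  have hstrict := strict_max (m := m) hL1 (e := e) (q := x.1) (A₀ := A') (s₀ := s₀) (γ := γ)
    (μ := μ) (κ₀ := κ₀) hγpos hμ hμm hκpos
    (fun i hi => by
      have := hA'gap i hi j₀ hj₀
      rw [hs₀]; linarith)
    (fun i hi => by
      have := hj₀max i (Finset.mem_compl.mpr hi)
      rw [hs₀]
      linarith) hnuκ
  have hlamν : nu L N N * lam ≤ π₀ / 4 := by
    have h1 : nu L N N * lam ≤ ν * lam := by
      apply mul_le_mul_of_nonneg_right _ hlampos.le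
      rw [hν]; linarith
    have h2 : ν * lam = π₀ / 4 := by
      rw [hlam]
      field_simp
    linarith
  have hforce : 2 * M ^ 2 / (lam * κ₀) ≤ π₀ / 4 := by
    have h1 : lam * κ₀ = π₀ * μ * γ / (16 * ν ^ 2) := by
      rw [hlam, hκ₀]
      field_simp
      ring
    rw [h1, div_le_iff₀ (by positivity)]
    have h2 : π₀ / 4 * (π₀ * μ * γ / (16 * ν ^ 2)) = π₀ ^ 2 * μ * γ / (64 * ν ^ 2) := by
      field_simp
      ring
    rw [h2, le_div_iff₀ (by positivity)]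
    have h3 : π₀ ^ 2 * μ * γ = η ^ 3 * μ * (‖P‖ ^ 2 * d) / (16 * (N:ℝ) ^ 2) := by
      rw [hπ₀, hγ]
      field_simp
      ring
    rw [h3, le_div_iff₀ (by positivity)]
    rw [div_lt_iff₀ (by positivity)] at hC
    nlinarith
  refine ⟨e, s₀, κ₀, lam, π₀ / 4, A', he, hκpos, hlampos, le_of_eq ?_, hstrict, ?_⟩
  · rw [hπ₀]
    field_simp
    ring
  rcases lt_abs.mp hA'P with h | h
  · left; linarith
  · right; linarith

end Pool.Agent.NBody
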