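import Mathlib
import Pool.Agent.NBody.En8
import Pool.Agent.NBody.En10
import Pool.Agent.NBody.En11

/-!
Almost closed orbit segments: near both ends all subsystems are at most parabolic.
-/

set_option autoImplicit false
open scoped RealInnerProductSpace
open Set Finset Filter Topology

namespace Pool.Agent.NBody

/-- reversal of the momenta -/
def rev {N : ℕ} (y : Ph N) : Ph N := (y.1, -y.2)

theorem rev_rev {N : ℕ} (y : Ph N) : rev (rev y) = y := by
  unfold rev
  simp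

theorem continuous_rev {N : ℕ} : Continuous (rev : Ph N → Ph N) :=
  continuous_fst.prodMk continuous_snd.neg

theorem dist_rev {N : ℕ} (y z : Ph N) : dist (rev y) (rev z) = dist y z := by
  unfold rev
  rw [Prod.dist_eq, Prod.dist_eq]
  simp only [dist_neg_neg]

/-- Near the beginning of an almost closed orbit segment all subsystems are at most parabolic. -/
theorem loop_star_traj {N : ℕ} {m : Fin N → ℝ} (hm : ∀ i, 0 < m i) {C L η' : ℝ} (hC : 0 < C)
    (hη' : 0 < η') (hL1 : 1 ≤ L) (hL : ∀ i j, m i * (1 + 1 / m j) ≤ L)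
    (hrat : ∀ x : (Fin N → V3) × (Fin N → V3), ∑ i, x.2 i = 0 → ∀ (A : Finset (Fin N)) (d : ℝ),
        0 < d → (∀ i ∈ A, ∀ j ∉ A, d ≤ ‖x.1 i - x.1 j‖) → C < ‖∑ i ∈ A, x.2 i‖ ^ 2 * d →
        ∃ (e : V3) (s₀ κ₀ lam c : ℝ) (A₀ : Finset (Fin N)), ‖e‖ ≤ 1 ∧ 0 < κ₀ ∧ 0 < lam ∧
          η' * ‖∑ i ∈ A, x.2 i‖ ≤ c ∧
          (∀ B, B ≠ A₀ → fA m L e s₀ x.1 κ₀ B < fA m L e s₀ x.1 κ₀ A₀) ∧
          (c + 2 * (∑ i, m i) ^ 2 / (lam * κ₀) + nu L N N * lam < ∑ i ∈ A₀, ⟪x.2 i, e⟫ ∨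
           c + 2 * (∑ i, m i) ^ 2 / (lam * κ₀) + nu L N N * lam < -∑ i ∈ A₀, ⟪x.2 i, e⟫))
    {C' : ℝ} (hCC' : C < C') {x₀ : Ph N} (hnc : ∀ i j, i ≠ j → x₀.1 i ≠ x₀.1 j)
    (hp : ∑ i, x₀.2 i = 0) (hstar : Star C x₀.1 x₀.2) {ψ : Ph N → ℝ} (hψc : ContinuousAt ψ x₀)
    (hψpos : 0 < ψ x₀) (T : ℝ) :
    ∃ V ∈ 𝓝 x₀, ∀ (σ τ : ℝ → ℝ) (x : ℝ → Ph N), IsTraj m σ x → (∀ s, σ s = ψ (x s)) →
      (∀ s, HasDerivAt τ (σ s) s) → (∀ s, ∑ i, (x s).2 i = 0) → ∀ a b : ℝ, a ≤ b → x a ∈ V →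
      x b ∈ V → ∀ r ∈ Icc a b, τ r - τ a ≤ T → Star C' (x r).1 (x r).2 := by
  -- near x₀
  obtain ⟨η₀, hη₀, hball⟩ := Metric.eventually_nhds_iff_ball.mp (star_nhds hC.le hCC' hp hstar)
  obtain ⟨κ, hκ, hslow⟩ := slow_motion hm C'
  -- the size
  obtain ⟨D, hD1, hDx, hDT⟩ : ∃ D : ℝ, 1 ≤ D ∧ ‖x₀‖ + 1 ≤ D ∧ T ≤ κ * (D * √D) := by
    refine ⟨max (‖x₀‖ + 1) (|T| / κ + 1), ?_, le_max_left _ _, ?_⟩
    · exact (by have := norm_nonneg x₀; linarith : (1:ℝ) ≤ ‖x₀‖ + 1).trans (le_max_left _ _)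
    · set D : ℝ := max (‖x₀‖ + 1) (|T| / κ + 1) with hDdef
      have h1 : (1:ℝ) ≤ D :=
        (by have := norm_nonneg x₀; linarith : (1:ℝ) ≤ ‖x₀‖ + 1).trans (le_max_left _ _)
      have h2 : |T| / κ + 1 ≤ D := le_max_right _ _
      have h3 : (1:ℝ) ≤ √D := by
        rw [Real.one_le_sqrt]
        exact h1
      have h4 : D ≤ D * √D := le_mul_of_one_le_right (by linarith) h3
      have h5 : |T| ≤ κ * D := by
        have h6 : |T| / κ ≤ D := by linarith
        rw [div_le_iff₀ hκ] at h6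
        linarith
      calc T ≤ |T| := le_abs_self T
        _ ≤ κ * D := h5
        _ ≤ κ * (D * √D) := mul_le_mul_of_nonneg_left h4 hκ.le
  have hD : 0 < D := by linarith
  have hC'pos : 0 < C' := hC.trans hCC'
  set cm : ℝ := η' * √(C' / (6 * D)) with hcm
  have hcmpos : 0 < cm := by positivity
  obtain ⟨V₁, hV₁, hloop₁⟩ := loop_core hm hL1 hL hnc hψc hψpos hcmpos hη₀
  obtain ⟨V₂, hV₂, hloop₂⟩ := loop_core hm hL1 hL (x₀ := rev x₀) (ψ := fun y => ψ (rev y)) hnc
    (by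
      apply ContinuousAt.comp _ continuous_rev.continuousAt
      rw [rev_rev]
      exact hψc) (by simp only [rev_rev]; exact hψpos) hcmpos hη₀
  have hV₂' : rev ⁻¹' V₂ ∈ 𝓝 x₀ := continuous_rev.continuousAt.preimage_mem_nhds hV₂
  refine ⟨V₁ ∩ rev ⁻¹' V₂ ∩ Metric.ball x₀ (min 1 η₀),
    Filter.inter_mem (Filter.inter_mem hV₁ hV₂') (Metric.ball_mem_nhds _ (lt_min one_pos hη₀)), ?_⟩
  intro σ τ x hx hσ hτ hmom a b hab ha hb r hr hT
  have hτm := clock_strictMono hτ hx.pos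
  have hxc : Continuous x := continuous_iff_continuousAt.mpr (fun s => (hx.der s).continuousAt)
  -- a state with a fast subsystem and bounded positions is impossible on the segment
  have key : ∀ w ∈ Icc a b, (∀ i, ‖(x w).1 i‖ ≤ 3 * D) → Star C' (x w).1 (x w).2 := by
    intro w hw hpos A d hd hA
    by_contra hcon
    push Not at hcon
    have hPne : ∑ i ∈ A, (x w).2 i ≠ 0 := by
      intro h0
      rw [h0] at hcon
      simp at hcon
      linarith
    obtain ⟨i, hi⟩ : A.Nonempty := by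
      by_contra h
      rw [Finset.not_nonempty_iff_eq_empty] at h
      rw [h] at hPne
      simp at hPne
    obtain ⟨j, hj⟩ : ∃ j, j ∉ A := by
      by_contra h
      push Not at h
      have : A = Finset.univ := Finset.eq_univ_iff_forall.mpr h
      rw [this] at hPne
      exact hPne (hmom w)
    have hd6 : d ≤ 6 * D := by
      refine (hA i hi j hj).trans ((norm_sub_le _ _).trans ?_)
      linarith [hpos i, hpos j]
    have hPlow : √(C' / (6 * D)) ≤ ‖∑ i ∈ A, (x w).2 i‖ := by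
      apply Real.sqrt_le_iff.mpr
      refine ⟨norm_nonneg _, ?_⟩
      rw [div_le_iff₀ (by positivity)]
      have h1 : ‖∑ i ∈ A, (x w).2 i‖ ^ 2 * d ≤ ‖∑ i ∈ A, (x w).2 i‖ ^ 2 * (6 * D) :=
        mul_le_mul_of_nonneg_left hd6 (by positivity)
      linarith
    obtain ⟨e, s₀, κ₀, lam, c, A₀, he, hκ₀, hlam, hc, hstrict, hcase⟩ :=
      hrat (x w) (hmom w) A d hd hA (hCC'.trans hcon)
    have hcm' : cm ≤ c := (mul_le_mul_of_nonneg_left hPlow hη'.le).trans hc
    have hmax : ∀ B, fA m L e s₀ (x w).1 κ₀ B ≤ fA m L e s₀ (x w).1 κ₀ A₀ := fun B => by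
      by_cases hB : B = A₀
      · rw [hB]
      · exact (hstrict B hB).le
    have hnear : x w ∈ Metric.ball x₀ η₀ := by
      rcases hcase with hfw | hbw
      · exact hloop₁ σ τ x hx hσ hτ a w b hw.1 hw.2 ha.1.1 hb.1.1 e s₀ κ₀ lam c A₀ he hκ₀ hlam
          hcm' hmax hfw
      · have hτ' : ∀ s, HasDerivAt (fun s => -τ (b - s)) (σ (b - s)) s := by
          intro s
          have h1 : HasDerivAt (fun s => b - s) (-1 : ℝ) s := by
            simpa using (hasDerivAt_id s).const_sub b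
          have h2 := ((hτ (b - s)).comp s h1).neg
          simp only [mul_neg, mul_one, neg_neg] at h2
          exact h2
        have h1 := hloop₂ (fun s => σ (b - s)) (fun s => -τ (b - s)) (fun s => rev (x (b - s)))
          (hx.reverse b) (fun s => by simp only [rev_rev]; exact hσ _) hτ' 0 (b - w) (b - a)
          (by linarith [hw.2]) (by linarith [hw.1]) (by simpa using hb.1.2)
          (by simpa using ha.1.2) e s₀ κ₀ lam c A₀ he hκ₀ hlam hcm' (by
            simp only [sub_sub_cancel]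
            exact hmax) (by
            simp only [sub_sub_cancel, rev, Pi.neg_apply, inner_neg_left, Finset.sum_neg_distrib]
            exact hbw)
        simp only [sub_sub_cancel] at h1
        rw [Metric.mem_ball, dist_rev] at h1
        exact h1
    have h2 := hball (x w) hnear (hmom w) A d hd hA
    linarith
  -- the first violation
  by_contra hbad
  set Bd : Set ℝ := {s | s ∈ Icc a b ∧ ¬ Star C' (x s).1 (x s).2} with hBd
  have hBdne : Bd.Nonempty := ⟨r, hr, hbad⟩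
  have hBdb : BddBelow Bd := ⟨a, fun s hs => hs.1.1⟩
  set r₀ : ℝ := sInf Bd with hr₀
  have har₀ : a ≤ r₀ := le_csInf hBdne (fun s hs => hs.1.1)
  have hr₀r : r₀ ≤ r := csInf_le hBdb ⟨hr, hbad⟩
  have hgood : ∀ s, a ≤ s → s < r₀ → Star C' (x s).1 (x s).2 := by
    intro s hs1 hs2
    by_contra hns
    have := csInf_le hBdb (show s ∈ Bd from ⟨⟨hs1, hs2.le.trans (hr₀r.trans hr.2)⟩, hns⟩)
    linarith
  have hgood0 : Star C' (x a).1 (x a).2 :=
    hball (x a) (Metric.ball_subset_ball (min_le_right _ _) ha.2) (hmom a)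
  have hgood₀ : Star C' (x r₀).1 (x r₀).2 := by
    rcases har₀.lt_or_eq with h | h
    · have hcl : IsClosed {s | Star C' (x s).1 (x s).2} := (isClosed_star C').preimage hxc
      have hsub : Ico a r₀ ⊆ {s | Star C' (x s).1 (x s).2} := fun s hs => hgood s hs.1 hs.2
      have h2 : closure (Ico a r₀) ⊆ {s | Star C' (x s).1 (x s).2} := hcl.closure_subset_iff.mpr hsub
      rw [closure_Ico h.ne] at h2
      exact h2 (right_mem_Icc.mpr h.le)
    · rw [← h]
      exact hgood0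
  -- positions at the first violation
  have hnorm_a : ∀ i, ‖(x a).1 i - 0‖ ≤ D := by
    intro i
    rw [sub_zero]
    have h1 : ‖(x a).1 i‖ ≤ ‖x a‖ := (norm_le_pi_norm (x a).1 i).trans (norm_fst_le _)
    have h2 : ‖x a‖ ≤ ‖x₀‖ + 1 := by
      have h3 := Metric.mem_ball.mp ha.2
      have h4 : dist (x a) x₀ < 1 := h3.trans_le (min_le_left _ _)
      have h5 : ‖x a‖ ≤ ‖x₀‖ + dist (x a) x₀ := by
        rw [dist_eq_norm]
        have := norm_add_le x₀ (x a - x₀)
        rwa [add_sub_cancel] at this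
      linarith
    linarith
  have hpos₀ : ∀ i, ‖(x r₀).1 i - 0‖ ≤ 2 * D := by
    have h1 := hslow σ τ x hx hτ a r₀ (fun s hs => by
      rcases hs.2.lt_or_eq with h | h
      · exact hgood s hs.1 h
      · rw [h]; exact hgood₀) 0 D hD Finset.univ (fun i _ => hnorm_a i)
      (fun i hi => absurd (Finset.mem_univ i) hi) (by
        have := hτm.monotone hr₀r
        linarith) r₀ (right_mem_Icc.mpr har₀)
    exact fun i => h1.1 i (Finset.mem_univ i)
  have hev : ∀ᶠ s in 𝓝 r₀, ∀ i, ‖(x s).1 i‖ ≤ 3 * D := by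
    apply eventually_all.mpr
    intro i
    have hc : Continuous (fun s => ‖(x s).1 i‖) :=
      (((continuous_apply i).comp continuous_fst).comp hxc).norm
    have h1 : ‖(x r₀).1 i‖ < 3 * D := by
      have := hpos₀ i
      rw [sub_zero] at this
      linarith
    filter_upwards [hc.continuousAt.eventually (gt_mem_nhds h1)] with s hs using hs.le
  obtain ⟨ε, hε, hεb⟩ := Metric.eventually_nhds_iff_ball.mp hev
  obtain ⟨w, hw, hwlt⟩ := exists_lt_of_csInf_lt hBdne (show sInf Bd < r₀ + ε by linarith)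
  have hwge : r₀ ≤ w := csInf_le hBdb hw
  have h1 := hεb w (by
    rw [Metric.mem_ball, Real.dist_eq, abs_of_nonneg (by linarith)]
    linarith)
  exact hw.2 (key w hw.1 h1)

end Pool.Agent.NBody
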