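import Mathlib
import Pool.Agent.NBody.Traj

/-!
The energy, the virial and the moment of inertia of a subsystem along an orbit.
-/

set_option autoImplicit false
open scoped RealInnerProductSpace
open Set Finset Filter Topology

namespace Pool.Agent.NBody

/-- the energy of the subsystem `A` alone -/
noncomputable def enA {N : ℕ} (m : Fin N → ℝ) (A : Finset (Fin N)) (y : Ph N) : ℝ :=
  ∑ i ∈ A, ‖y.2 i‖ ^ 2 / (2 * m i) - ∑ i ∈ A, ∑ j ∈ A, m i * m j / ‖y.1 i - y.1 j‖ / 2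

/-- the acceleration of the body `i` due to the bodies outside `A` -/
noncomputable def accA {N : ℕ} (m : Fin N → ℝ) (A : Finset (Fin N)) (q : Fin N → V3)
    (i : Fin N) : V3 :=
  ∑ j ∈ Aᶜ, (m j / ‖q j - q i‖ ^ 3) • (q j - q i)

/-- the virial of `A` about `c` -/
noncomputable def virA {N : ℕ} (A : Finset (Fin N)) (c : V3) (y : Ph N) : ℝ :=
  ∑ i ∈ A, ⟪y.1 i - c, y.2 i⟫

/-- the moment of inertia of `A` about `c` -/
noncomputable def inA {N : ℕ} (m : Fin N → ℝ) (A : Finset (Fin N)) (c : V3) (y : Ph N) : ℝ :=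
  ∑ i ∈ A, m i * ‖y.1 i - c‖ ^ 2

theorem force_eq {N : ℕ} (m : Fin N → ℝ) (A : Finset (Fin N)) (q : Fin N → V3) (i : Fin N) :
    force m q i = ∑ j ∈ A, (m i * m j / ‖q j - q i‖ ^ 3) • (q j - q i) + m i • accA m A q i := by
  unfold force accA
  rw [← Finset.sum_add_sum_compl A, Finset.smul_sum]
  congr 1
  apply Finset.sum_congr rfl
  intro j _
  rw [smul_smul]
  congr 1
  ring

/-- Symmetrisation of the internal forces against a family of vectors. -/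
theorem sum_internal {N : ℕ} (m : Fin N → ℝ) (A : Finset (Fin N)) (q v : Fin N → V3) :
    ∑ i ∈ A, ⟪v i, ∑ j ∈ A, (m i * m j / ‖q j - q i‖ ^ 3) • (q j - q i)⟫ =
      -(∑ i ∈ A, ∑ j ∈ A, m i * m j / ‖q i - q j‖ ^ 3 * ⟪v i - v j, q i - q j⟫ / 2) := by
  have h1 : ∀ i, ⟪v i, ∑ j ∈ A, (m i * m j / ‖q j - q i‖ ^ 3) • (q j - q i)⟫ =
      ∑ j ∈ A, m i * m j / ‖q j - q i‖ ^ 3 * ⟪v i, q j - q i⟫ := by
    intro i
    rw [inner_sum]
    apply Finset.sum_congr rfl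
    intro j _
    rw [real_inner_smul_right]
  rw [Finset.sum_congr rfl (fun i _ => h1 i)]
  have h2 : ∑ i ∈ A, ∑ j ∈ A, m i * m j / ‖q j - q i‖ ^ 3 * ⟪v i, q j - q i⟫ =
      ∑ i ∈ A, ∑ j ∈ A, m i * m j / ‖q j - q i‖ ^ 3 * ⟪v j, q i - q j⟫ := by
    rw [Finset.sum_comm]
    apply Finset.sum_congr rfl
    intro i _
    apply Finset.sum_congr rfl
    intro j _
    rw [norm_sub_rev (q i) (q j)]
    ring
  have h3 : ∑ i ∈ A, ∑ j ∈ A, m i * m j / ‖q i - q j‖ ^ 3 * ⟪v i - v j, q i - q j⟫ / 2 =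
      -((∑ i ∈ A, ∑ j ∈ A, m i * m j / ‖q j - q i‖ ^ 3 * ⟪v i, q j - q i⟫ +
        ∑ i ∈ A, ∑ j ∈ A, m i * m j / ‖q j - q i‖ ^ 3 * ⟪v j, q i - q j⟫) / 2) := by
    rw [← Finset.sum_add_distrib, Finset.sum_div, ← Finset.sum_neg_distrib]
    apply Finset.sum_congr rfl
    intro i _
    rw [← Finset.sum_add_distrib, Finset.sum_div, ← Finset.sum_neg_distrib]
    apply Finset.sum_congr rfl
    intro j _
    rw [norm_sub_rev (q i) (q j), ← neg_sub (q i) (q j), inner_neg_right, inner_sub_left]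
    ring
  rw [h3, ← h2]
  ring

namespace IsTraj

variable {N : ℕ} {m : Fin N → ℝ} {σ : ℝ → ℝ} {x : ℝ → Ph N}

theorem der_kin (h : IsTraj m σ x) (A : Finset (Fin N)) (s : ℝ) :
    HasDerivAt (fun s => ∑ i ∈ A, ‖(x s).2 i‖ ^ 2 / (2 * m i))
      (σ s * ∑ i ∈ A, ⟪(m i)⁻¹ • (x s).2 i, force m (x s).1 i⟫) s := by
  have h1 : ∀ i ∈ A, HasDerivAt (fun s => ‖(x s).2 i‖ ^ 2 / (2 * m i))
      (2 * ⟪(x s).2 i, σ s • force m (x s).1 i⟫ / (2 * m i)) s := fun i _ =>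
    ((h.der_p i s).norm_sq).div_const _
  have h2 := HasDerivAt.fun_sum h1
  have h3 : ∑ i ∈ A, 2 * ⟪(x s).2 i, σ s • force m (x s).1 i⟫ / (2 * m i) =
      σ s * ∑ i ∈ A, ⟪(m i)⁻¹ • (x s).2 i, force m (x s).1 i⟫ := by
    rw [Finset.mul_sum]
    apply Finset.sum_congr rfl
    intro i _
    rw [real_inner_smul_right, real_inner_smul_left, mul_div_mul_left _ _ (two_ne_zero' ℝ)]
    ring
  rw [h3] at h2
  exact h2

theorem der_pot (h : IsTraj m σ x) (A : Finset (Fin N)) (s : ℝ) :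
    HasDerivAt (fun s => ∑ i ∈ A, ∑ j ∈ A, m i * m j / ‖(x s).1 i - (x s).1 j‖ / 2)
      (σ s * ∑ i ∈ A, ⟪(m i)⁻¹ • (x s).2 i,
        ∑ j ∈ A, (m i * m j / ‖(x s).1 j - (x s).1 i‖ ^ 3) • ((x s).1 j - (x s).1 i)⟫) s := by
  have h1 : ∀ i ∈ A, ∀ j ∈ A, HasDerivAt (fun s => m i * m j / ‖(x s).1 i - (x s).1 j‖ / 2)
      (-(σ s * (m i * m j / ‖(x s).1 i - (x s).1 j‖ ^ 3 *
        ⟪(m i)⁻¹ • (x s).2 i - (m j)⁻¹ • (x s).2 j, (x s).1 i - (x s).1 j⟫ / 2))) s := by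
    intro i _ j _
    by_cases hij : i = j
    · subst hij
      simp only [sub_self, norm_zero, div_zero, zero_div, inner_zero_left, mul_zero, neg_zero]
      exact hasDerivAt_const s 0
    · have hne : (x s).1 i - (x s).1 j ≠ 0 := sub_ne_zero.mpr (h.ncol s i j hij)
      have hn : ‖(x s).1 i - (x s).1 j‖ ≠ 0 := norm_ne_zero_iff.mpr hne
      have h2 : HasDerivAt (fun s => (x s).1 i - (x s).1 j)
          (σ s • ((m i)⁻¹ • (x s).2 i) - σ s • ((m j)⁻¹ • (x s).2 j)) s :=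
        (h.der_q i s).sub (h.der_q j s)
      have h3 := h2.norm_sq
      have h4 : HasDerivAt (fun s => ‖(x s).1 i - (x s).1 j‖)
          (⟪(x s).1 i - (x s).1 j, σ s • ((m i)⁻¹ • (x s).2 i) - σ s • ((m j)⁻¹ • (x s).2 j)⟫ /
            ‖(x s).1 i - (x s).1 j‖) s := by
        have h5 := h3.sqrt (pow_ne_zero 2 hn)
        have h6 : (fun s => √(‖(x s).1 i - (x s).1 j‖ ^ 2)) =
            fun s => ‖(x s).1 i - (x s).1 j‖ := by
          funext r
          exact Real.sqrt_sq (norm_nonneg _)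
        rw [h6, Real.sqrt_sq (norm_nonneg _)] at h5
        have h7 : ⟪(x s).1 i - (x s).1 j,
            σ s • ((m i)⁻¹ • (x s).2 i) - σ s • ((m j)⁻¹ • (x s).2 j)⟫ /
            ‖(x s).1 i - (x s).1 j‖ = 2 * ⟪(x s).1 i - (x s).1 j,
            σ s • ((m i)⁻¹ • (x s).2 i) - σ s • ((m j)⁻¹ • (x s).2 j)⟫ /
            (2 * ‖(x s).1 i - (x s).1 j‖) := by
          rw [mul_div_mul_left _ _ (two_ne_zero' ℝ)]
        rw [h7]
        exact h5
      have h8 := ((h4.inv hn).const_mul (m i * m j)).div_const 2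
      have h9 : (fun s => m i * m j * (‖(x s).1 i - (x s).1 j‖)⁻¹ / 2) =
          fun s => m i * m j / ‖(x s).1 i - (x s).1 j‖ / 2 := by
        funext r
        rw [div_eq_mul_inv (m i * m j)]
      have h10 : HasDerivAt (fun s => m i * m j / ‖(x s).1 i - (x s).1 j‖ / 2)
          (m i * m j * (-(⟪(x s).1 i - (x s).1 j,
            σ s • ((m i)⁻¹ • (x s).2 i) - σ s • ((m j)⁻¹ • (x s).2 j)⟫ /
            ‖(x s).1 i - (x s).1 j‖) / ‖(x s).1 i - (x s).1 j‖ ^ 2) / 2) s := by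
        rw [← h9]
        exact h8
      have h11 : m i * m j * (-(⟪(x s).1 i - (x s).1 j,
            σ s • ((m i)⁻¹ • (x s).2 i) - σ s • ((m j)⁻¹ • (x s).2 j)⟫ /
            ‖(x s).1 i - (x s).1 j‖) / ‖(x s).1 i - (x s).1 j‖ ^ 2) / 2 =
          -(σ s * (m i * m j / ‖(x s).1 i - (x s).1 j‖ ^ 3 *
        ⟪(m i)⁻¹ • (x s).2 i - (m j)⁻¹ • (x s).2 j, (x s).1 i - (x s).1 j⟫ / 2)) := by
        rw [← smul_sub, real_inner_smul_right, real_inner_comm]
        field_simp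
      rw [h11] at h10
      exact h10
  have h2 := HasDerivAt.fun_sum (fun i hi => HasDerivAt.fun_sum (h1 i hi))
  have h3 : ∑ i ∈ A, ∑ j ∈ A, -(σ s * (m i * m j / ‖(x s).1 i - (x s).1 j‖ ^ 3 *
        ⟪(m i)⁻¹ • (x s).2 i - (m j)⁻¹ • (x s).2 j, (x s).1 i - (x s).1 j⟫ / 2)) =
      σ s * ∑ i ∈ A, ⟪(m i)⁻¹ • (x s).2 i,
        ∑ j ∈ A, (m i * m j / ‖(x s).1 j - (x s).1 i‖ ^ 3) • ((x s).1 j - (x s).1 i)⟫ := by
    rw [sum_internal m A (x s).1 (fun i => (m i)⁻¹ • (x s).2 i), mul_neg, Finset.mul_sum,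
      ← Finset.sum_neg_distrib]
    apply Finset.sum_congr rfl
    intro i _
    rw [Finset.mul_sum, ← Finset.sum_neg_distrib]
  rw [h3] at h2
  exact h2

/-- derivative of the energy of a subsystem: only the exterior forces work -/
theorem der_enA (hm : ∀ i, 0 < m i) (h : IsTraj m σ x) (A : Finset (Fin N)) (s : ℝ) :
    HasDerivAt (fun s => enA m A (x s)) (σ s * ∑ i ∈ A, ⟪accA m A (x s).1 i, (x s).2 i⟫) s := by
  have h1 := (h.der_kin A s).sub (h.der_pot A s)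
  have h2 : σ s * ∑ i ∈ A, ⟪(m i)⁻¹ • (x s).2 i, force m (x s).1 i⟫ -
      σ s * ∑ i ∈ A, ⟪(m i)⁻¹ • (x s).2 i,
        ∑ j ∈ A, (m i * m j / ‖(x s).1 j - (x s).1 i‖ ^ 3) • ((x s).1 j - (x s).1 i)⟫ =
      σ s * ∑ i ∈ A, ⟪accA m A (x s).1 i, (x s).2 i⟫ := by
    rw [← mul_sub, ← Finset.sum_sub_distrib]
    congr 1
    apply Finset.sum_congr rfl
    intro i _
    rw [← inner_sub_right, force_eq m A, add_sub_cancel_left, real_inner_smul_left,
      real_inner_smul_right, real_inner_comm]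
    have := (hm i).ne'
    field_simp
  rw [h2] at h1
  exact h1

/-- derivative of the virial -/
theorem der_virA (h : IsTraj m σ x) (A : Finset (Fin N)) (c : V3) (s : ℝ) :
    HasDerivAt (fun s => virA A c (x s))
      (σ s * (enA m A (x s) + ∑ i ∈ A, ‖(x s).2 i‖ ^ 2 / (2 * m i) +
        ∑ i ∈ A, ⟪(x s).1 i - c, m i • accA m A (x s).1 i⟫)) s := by
  have h1 : ∀ i ∈ A, HasDerivAt (fun s => ⟪(x s).1 i - c, (x s).2 i⟫)
      (⟪(x s).1 i - c, σ s • force m (x s).1 i⟫ + ⟪σ s • (m i)⁻¹ • (x s).2 i, (x s).2 i⟫) s :=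
    fun i _ => ((h.der_q i s).sub_const c).inner ℝ (h.der_p i s)
  have h2 := HasDerivAt.fun_sum h1
  have h3 : ∑ i ∈ A, (⟪(x s).1 i - c, σ s • force m (x s).1 i⟫ +
      ⟪σ s • (m i)⁻¹ • (x s).2 i, (x s).2 i⟫) =
      σ s * (enA m A (x s) + ∑ i ∈ A, ‖(x s).2 i‖ ^ 2 / (2 * m i) +
        ∑ i ∈ A, ⟪(x s).1 i - c, m i • accA m A (x s).1 i⟫) := by
    have h4 := sum_internal m A (x s).1 (fun i => (x s).1 i - c)
    have h5 : ∑ i ∈ A, ∑ j ∈ A, m i * m j / ‖(x s).1 i - (x s).1 j‖ ^ 3 *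
        ⟪((x s).1 i - c) - ((x s).1 j - c), (x s).1 i - (x s).1 j⟫ / 2 =
        ∑ i ∈ A, ∑ j ∈ A, m i * m j / ‖(x s).1 i - (x s).1 j‖ / 2 := by
      apply Finset.sum_congr rfl
      intro i _
      apply Finset.sum_congr rfl
      intro j _
      rw [sub_sub_sub_cancel_right, real_inner_self_eq_norm_sq]
      rcases eq_or_ne (‖(x s).1 i - (x s).1 j‖) 0 with h0 | h0
      · rw [h0]; simp
      · field_simp
    rw [h5] at h4
    have h6 : ∀ i ∈ A, ⟪(x s).1 i - c, σ s • force m (x s).1 i⟫ +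
        ⟪σ s • (m i)⁻¹ • (x s).2 i, (x s).2 i⟫ =
        σ s * (⟪(x s).1 i - c, ∑ j ∈ A, (m i * m j / ‖(x s).1 j - (x s).1 i‖ ^ 3) •
          ((x s).1 j - (x s).1 i)⟫ + ⟪(x s).1 i - c, m i • accA m A (x s).1 i⟫ +
          (‖(x s).2 i‖ ^ 2 / (2 * m i) + ‖(x s).2 i‖ ^ 2 / (2 * m i))) := by
      intro i _
      rw [real_inner_smul_right, real_inner_smul_left, real_inner_smul_left,
        real_inner_self_eq_norm_sq, force_eq m A, inner_add_right]
      have h7 : ‖(x s).2 i‖ ^ 2 / (2 * m i) + ‖(x s).2 i‖ ^ 2 / (2 * m i) =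
          (m i)⁻¹ * ‖(x s).2 i‖ ^ 2 := by
        rw [div_eq_mul_inv, mul_inv]; ring
      rw [h7]; ring
    rw [Finset.sum_congr rfl h6, ← Finset.mul_sum, Finset.sum_add_distrib, Finset.sum_add_distrib,
      Finset.sum_add_distrib, h4]
    unfold enA
    ring
  rw [h3] at h2
  exact h2

/-- derivative of the moment of inertia -/
theorem der_inA (hm : ∀ i, 0 < m i) (h : IsTraj m σ x) (A : Finset (Fin N)) (c : V3) (s : ℝ) :
    HasDerivAt (fun s => inA m A c (x s)) (σ s * (2 * virA A c (x s))) s := by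
  have h1 : ∀ i ∈ A, HasDerivAt (fun s => m i * ‖(x s).1 i - c‖ ^ 2)
      (m i * (2 * ⟪(x s).1 i - c, σ s • (m i)⁻¹ • (x s).2 i⟫)) s := fun i _ =>
    (((h.der_q i s).sub_const c).norm_sq).const_mul (m i)
  have h2 := HasDerivAt.fun_sum h1
  have h3 : ∑ i ∈ A, m i * (2 * ⟪(x s).1 i - c, σ s • (m i)⁻¹ • (x s).2 i⟫) =
      σ s * (2 * virA A c (x s)) := by
    unfold virA
    rw [Finset.mul_sum, Finset.mul_sum]
    apply Finset.sum_congr rfl
    intro i _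
    rw [real_inner_smul_right, real_inner_smul_right]
    have := (hm i).ne'
    field_simp
  rw [h3] at h2
  exact h2

end IsTraj

end Pool.Agent.NBody
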