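import Mathlib
import Pool.Agent.NBody.En3
import Pool.Agent.NBody.En4

/-!
The energy of an isolated cluster along an at most parabolic orbit is at most `C / D`.
-/

set_option autoImplicit false
open scoped RealInnerProductSpace
open Set Finset Filter Topology

namespace Pool.Agent.NBody

theorem inv_cube_lip (u w : V3) {ρ : ℝ} (hρ : 0 < ρ) (hu : ρ ≤ ‖u‖) (hw : ρ ≤ ‖w‖) :
    ‖(1 / ‖u‖ ^ 3) • u - (1 / ‖w‖ ^ 3) • w‖ ≤ 4 / ρ ^ 3 * ‖u - w‖ := by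
  have hu0 : 0 < ‖u‖ := hρ.trans_le hu
  have hw0 : 0 < ‖w‖ := hρ.trans_le hw
  have h1 : (1 / ‖u‖ ^ 3) • u - (1 / ‖w‖ ^ 3) • w =
      (1 / ‖u‖ ^ 3) • (u - w) + (1 / ‖u‖ ^ 3 - 1 / ‖w‖ ^ 3) • w := by
    rw [smul_sub, sub_smul]; abel
  rw [h1]
  refine (norm_add_le _ _).trans ?_
  rw [norm_smul, norm_smul, Real.norm_eq_abs, Real.norm_eq_abs,
    abs_of_pos (by positivity : 0 < 1 / ‖u‖ ^ 3)]
  have h2 : |1 / ‖u‖ ^ 3 - 1 / ‖w‖ ^ 3| * ‖w‖ =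
      |‖w‖ - ‖u‖| * (1 / (‖u‖ * ‖w‖ ^ 2) + 1 / (‖u‖ ^ 2 * ‖w‖) + 1 / ‖u‖ ^ 3) := by
    have h3 : 1 / ‖u‖ ^ 3 - 1 / ‖w‖ ^ 3 = (‖w‖ - ‖u‖) *
        ((‖u‖ ^ 2 + ‖u‖ * ‖w‖ + ‖w‖ ^ 2) / (‖u‖ ^ 3 * ‖w‖ ^ 3)) := by
      field_simp
      ring
    rw [h3, abs_mul, abs_of_pos (by positivity :
      0 < (‖u‖ ^ 2 + ‖u‖ * ‖w‖ + ‖w‖ ^ 2) / (‖u‖ ^ 3 * ‖w‖ ^ 3)), mul_assoc]
    congr 1
    field_simp
  rw [h2]
  have h4 : |‖w‖ - ‖u‖| ≤ ‖u - w‖ := by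
    rw [norm_sub_rev]
    exact abs_norm_sub_norm_le w u
  have h5 : 1 / ‖u‖ ^ 3 ≤ 1 / ρ ^ 3 :=
    one_div_le_one_div_of_le (by positivity) (pow_le_pow_left₀ hρ.le hu 3)
  have h6 : 1 / (‖u‖ * ‖w‖ ^ 2) ≤ 1 / ρ ^ 3 := by
    apply one_div_le_one_div_of_le (by positivity)
    calc ρ ^ 3 = ρ * ρ ^ 2 := by ring
      _ ≤ ‖u‖ * ‖w‖ ^ 2 := mul_le_mul hu (pow_le_pow_left₀ hρ.le hw 2) (by positivity) hu0.le
  have h7 : 1 / (‖u‖ ^ 2 * ‖w‖) ≤ 1 / ρ ^ 3 := by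
    apply one_div_le_one_div_of_le (by positivity)
    calc ρ ^ 3 = ρ ^ 2 * ρ := by ring
      _ ≤ ‖u‖ ^ 2 * ‖w‖ := mul_le_mul (pow_le_pow_left₀ hρ.le hu 2) hw hρ.le (by positivity)
  have h8 : |‖w‖ - ‖u‖| * (1 / (‖u‖ * ‖w‖ ^ 2) + 1 / (‖u‖ ^ 2 * ‖w‖) + 1 / ‖u‖ ^ 3) ≤
      ‖u - w‖ * (3 * (1 / ρ ^ 3)) :=
    mul_le_mul h4 (by linarith) (by positivity) (norm_nonneg _)
  have h9 : 1 / ‖u‖ ^ 3 * ‖u - w‖ ≤ 1 / ρ ^ 3 * ‖u - w‖ :=
    mul_le_mul_of_nonneg_right h5 (norm_nonneg _)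
  have h10 : 4 / ρ ^ 3 * ‖u - w‖ = 1 / ρ ^ 3 * ‖u - w‖ + ‖u - w‖ * (3 * (1 / ρ ^ 3)) := by ring
  rw [h10]
  exact add_le_add h9 h8

theorem norm_accA_le {N : ℕ} {m : Fin N → ℝ} (hm : ∀ i, 0 < m i) {A : Finset (Fin N)}
    {q : Fin N → V3} {ρ : ℝ} (hρ : 0 < ρ) {i : Fin N} (hi : ∀ j ∉ A, ρ ≤ ‖q j - q i‖) :
    ‖accA m A q i‖ ≤ (∑ j, m j) / ρ ^ 2 := by
  unfold accA
  refine (norm_sum_le _ _).trans ?_
  have h1 : ∀ j ∈ Aᶜ, ‖(m j / ‖q j - q i‖ ^ 3) • (q j - q i)‖ ≤ m j / ρ ^ 2 := by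
    intro j hj
    have h2 := hi j (Finset.mem_compl.mp hj)
    have h3 : 0 < ‖q j - q i‖ := hρ.trans_le h2
    rw [norm_smul, Real.norm_of_nonneg (div_nonneg (hm j).le (by positivity))]
    have h4 : m j / ‖q j - q i‖ ^ 3 * ‖q j - q i‖ = m j / ‖q j - q i‖ ^ 2 := by
      field_simp
    rw [h4]
    exact div_le_div_of_nonneg_left (hm j).le (by positivity) (pow_le_pow_left₀ hρ.le h2 2)
  refine (Finset.sum_le_sum h1).trans ?_
  rw [← Finset.sum_div]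
  apply div_le_div_of_nonneg_right _ (by positivity)
  exact Finset.sum_le_sum_of_subset_of_nonneg (Finset.subset_univ _) (fun j _ _ => (hm j).le)

theorem norm_accA_sub_le {N : ℕ} {m : Fin N → ℝ} (hm : ∀ i, 0 < m i) {A : Finset (Fin N)}
    {q : Fin N → V3} {ρ : ℝ} (hρ : 0 < ρ) {i k : Fin N} (hi : ∀ j ∉ A, ρ ≤ ‖q j - q i‖)
    (hk : ∀ j ∉ A, ρ ≤ ‖q j - q k‖) :
    ‖accA m A q i - accA m A q k‖ ≤ 4 * (∑ j, m j) / ρ ^ 3 * ‖q i - q k‖ := by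
  unfold accA
  rw [← Finset.sum_sub_distrib]
  refine (norm_sum_le _ _).trans ?_
  have h1 : ∀ j ∈ Aᶜ, ‖(m j / ‖q j - q i‖ ^ 3) • (q j - q i) -
      (m j / ‖q j - q k‖ ^ 3) • (q j - q k)‖ ≤ m j * (4 / ρ ^ 3 * ‖q i - q k‖) := by
    intro j hj
    have h2 := inv_cube_lip (q j - q i) (q j - q k) hρ (hi j (Finset.mem_compl.mp hj))
      (hk j (Finset.mem_compl.mp hj))
    have h3 : (m j / ‖q j - q i‖ ^ 3) • (q j - q i) - (m j / ‖q j - q k‖ ^ 3) • (q j - q k) =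
        m j • ((1 / ‖q j - q i‖ ^ 3) • (q j - q i) - (1 / ‖q j - q k‖ ^ 3) • (q j - q k)) := by
      rw [smul_sub (m j) ((1 / ‖q j - q i‖ ^ 3) • (q j - q i)), smul_smul, smul_smul, mul_one_div,
        mul_one_div]
    rw [h3, norm_smul, Real.norm_of_nonneg (hm j).le]
    apply mul_le_mul_of_nonneg_left _ (hm j).le
    refine h2.trans (le_of_eq ?_)
    rw [sub_sub_sub_cancel_left, norm_sub_rev]
  refine (Finset.sum_le_sum h1).trans ?_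
  rw [← Finset.sum_mul]
  have h2 : ∑ j ∈ Aᶜ, m j ≤ ∑ j, m j :=
    Finset.sum_le_sum_of_subset_of_nonneg (Finset.subset_univ _) (fun j _ _ => (hm j).le)
  have h3 : 0 ≤ 4 / ρ ^ 3 * ‖q i - q k‖ := by positivity
  refine (mul_le_mul_of_nonneg_right h2 h3).trans (le_of_eq ?_)
  ring

/-- Along an at most parabolic orbit an isolated cluster stays isolated for a time of the order
`D ^ (3 / 2)`, and its virial grows at least at the rate given by its energy. -/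
theorem core_growth {N : ℕ} {m : Fin N → ℝ} (hm : ∀ i, 0 < m i) (C : ℝ) :
    ∃ κ K₂ : ℝ, 0 < κ ∧ 0 < K₂ ∧ ∀ (σ τ : ℝ → ℝ) (x : ℝ → Ph N), IsTraj m σ x →
      (∀ s, HasDerivAt τ (σ s) s) → ∀ s₁ s₂ : ℝ, s₁ ≤ s₂ →
      (∀ s ∈ Icc s₁ s₂, Star C (x s).1 (x s).2) → ∀ (c : V3) (D : ℝ), 0 < D →
      ∀ A : Finset (Fin N), (∀ i ∈ A, ‖(x s₁).1 i - c‖ ≤ D) →
      (∀ i ∉ A, 10 * D ≤ ‖(x s₁).1 i - c‖) → τ s₂ - τ s₁ ≤ κ * (D * √D) →
      ∀ s ∈ Icc s₁ s₂, (∀ i ∈ A, ‖(x s).1 i - c‖ ≤ 2 * D) ∧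
        virA A c (x s₁) + (enA m A (x s₁) - K₂ / D) * (τ s - τ s₁) ≤ virA A c (x s) := by
  rcases Nat.eq_zero_or_pos N with hN | hN
  · subst hN
    refine ⟨1, 1, one_pos, one_pos, ?_⟩
    intro σ τ x hx hτ s₁ s₂ _ _ c D hD A _ _ _ s hs
    have : A = ∅ := Finset.eq_empty_of_isEmpty A
    subst this
    have h1 := (clock_strictMono hτ hx.pos).monotone hs.1
    unfold enA virA
    simp only [Finset.sum_empty, sub_zero, zero_add, zero_sub]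
    refine ⟨fun i => i.elim0, ?_⟩
    have h2 : 0 < 1 / D := by positivity
    nlinarith
  have : Nonempty (Fin N) := ⟨⟨0, hN⟩⟩
  have hNr : (0:ℝ) < N := by exact_mod_cast hN
  obtain ⟨κ, hκ, hslow⟩ := slow_motion hm C
  set M : ℝ := ∑ i, m i with hM
  have hMpos : 0 < M := Finset.sum_pos (fun i _ => hm i) ⟨⟨0, hN⟩, Finset.mem_univ _⟩
  set K₁ : ℝ := 4 ^ N * √(N * C) * (5 * M) with hK₁
  have hK₁0 : 0 ≤ K₁ := by positivity
  refine ⟨κ, K₁ * κ + 2 * M ^ 2, hκ, by positivity, ?_⟩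
  intro σ τ x hx hτ s₁ s₂ hs₁₂ hstar c D hD A hA hA' hT
  have hτmono := clock_strictMono hτ hx.pos
  have hsD : 0 < √D := Real.sqrt_pos.mpr hD
  have hDD : √D * √D = D := Real.mul_self_sqrt hD.le
  have hconf := hslow σ τ x hx hτ s₁ s₂ hstar c D hD A hA hA' hT
  have hsep : ∀ s ∈ Icc s₁ s₂, ∀ i ∈ A, ∀ j ∉ A, D ≤ ‖(x s).1 j - (x s).1 i‖ := by
    intro s hs i hi j hj
    have h1 := (hconf s hs).1 i hi
    have h2 := (hconf s hs).2 j hj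
    have h3 : ‖(x s).1 j - c‖ ≤ ‖(x s).1 j - (x s).1 i‖ + ‖(x s).1 i - c‖ := by
      have := norm_add_le ((x s).1 j - (x s).1 i) ((x s).1 i - c)
      rwa [sub_add_sub_cancel] at this
    linarith
  have hDN : D / N ≤ D := by
    apply div_le_self hD.le
    exact_mod_cast hN
  -- work of the exterior forces
  have hwork : ∀ s ∈ Icc s₁ s₂, |∑ i ∈ A, ⟪accA m A (x s).1 i, (x s).2 i⟫| ≤
      K₁ / (D ^ 2 * √D) := by
    intro s hs
    have h1 := field_bound hN (hstar s hs) N A (by simpa using Finset.card_le_univ A) D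
      (M / D ^ 2) (4 * M / D ^ 3) (fun i => innerSL ℝ (accA m A (x s).1 i)) hD (by positivity)
      (by positivity)
      (fun i hi j hj => by
        rw [norm_sub_rev]
        exact hDN.trans (hsep s hs i hi j hj))
      (fun i hi => by
        rw [innerSL_apply_norm]
        exact norm_accA_le hm hD (hsep s hs i hi))
      (fun i hi k hk => by
        rw [← map_sub, innerSL_apply_norm]
        exact norm_accA_sub_le hm hD (hsep s hs i hi) (hsep s hs k hk))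
    simp only [innerSL_apply_apply] at h1
    refine h1.trans (le_of_eq ?_)
    have h2 : M / D ^ 2 / √D + 4 * M / D ^ 3 * √D = 5 * M / (D ^ 2 * √D) := by
      have h3 : 4 * M / D ^ 3 * √D = 4 * M / (D ^ 2 * √D) := by
        rw [div_mul_eq_mul_div, div_eq_div_iff (by positivity) (by positivity)]
        have : √D * (D ^ 2 * √D) = D ^ 3 := by
          calc √D * (D ^ 2 * √D) = D ^ 2 * (√D * √D) := by ring
            _ = D ^ 3 := by rw [hDD]; ring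
        calc 4 * M * √D * (D ^ 2 * √D) = 4 * M * (√D * (D ^ 2 * √D)) := by ring
          _ = 4 * M * D ^ 3 := by rw [this]
      rw [h3, div_div, ← add_div]
      congr 1
      ring
    rw [h2, hK₁]
    ring
  have hen : ∀ s ∈ Icc s₁ s₂, enA m A (x s₁) - K₁ * κ / D ≤ enA m A (x s) := by
    intro s hs
    have h1 := clock_growth (L := -(K₁ / (D ^ 2 * √D))) hτ (fun s => hx.der_enA hm A s) hx.pos
      (fun r hr => by
        have := (abs_le.mp (hwork r hr)).1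
        exact this) s hs
    have h2 : τ s - τ s₁ ≤ κ * (D * √D) := by
      have := hτmono.monotone hs.2
      linarith
    have h3 : K₁ / (D ^ 2 * √D) * (τ s - τ s₁) ≤ K₁ / (D ^ 2 * √D) * (κ * (D * √D)) :=
      mul_le_mul_of_nonneg_left h2 (by positivity)
    have h4 : K₁ / (D ^ 2 * √D) * (κ * (D * √D)) = K₁ * κ / D := by
      field_simp
    linarith
  set h' : ℝ := enA m A (x s₁) - (K₁ * κ + 2 * M ^ 2) / D with hh'
  have htid : ∀ s ∈ Icc s₁ s₂, -(2 * M ^ 2 / D) ≤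
      ∑ i ∈ A, ⟪(x s).1 i - c, m i • accA m A (x s).1 i⟫ := by
    intro s hs
    have h1 : ∀ i ∈ A, -(m i * (2 * M / D)) ≤ ⟪(x s).1 i - c, m i • accA m A (x s).1 i⟫ := by
      intro i hi
      rw [real_inner_smul_right, ← mul_neg]
      apply mul_le_mul_of_nonneg_left _ (hm i).le
      have h2 := (abs_le.mp (abs_real_inner_le_norm ((x s).1 i - c) (accA m A (x s).1 i))).1
      have h3 := (hconf s hs).1 i hi
      have h4 := norm_accA_le hm hD (hsep s hs i hi)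
      have h5 : ‖(x s).1 i - c‖ * ‖accA m A (x s).1 i‖ ≤ 2 * D * (M / D ^ 2) :=
        mul_le_mul h3 h4 (norm_nonneg _) (by positivity)
      have h6 : 2 * D * (M / D ^ 2) = 2 * M / D := by
        field_simp
      linarith
    refine le_trans ?_ (Finset.sum_le_sum h1)
    rw [Finset.sum_neg_distrib, neg_le_neg_iff, ← Finset.sum_mul]
    have h2 : ∑ i ∈ A, m i ≤ M :=
      Finset.sum_le_sum_of_subset_of_nonneg (Finset.subset_univ _) (fun j _ _ => (hm j).le)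
    refine (mul_le_mul_of_nonneg_right h2 (by positivity)).trans (le_of_eq ?_)
    ring
  intro s hs
  refine ⟨(hconf s hs).1, ?_⟩
  exact clock_growth (L := h') hτ (fun s => hx.der_virA A c s) hx.pos
    (fun r hr => by
      have e1 := hen r hr
      have e2 := htid r hr
      have e3 : 0 ≤ ∑ i ∈ A, ‖(x r).2 i‖ ^ 2 / (2 * m i) :=
        Finset.sum_nonneg (fun i _ => by
          have := hm i
          positivity)
      have e4 : (K₁ * κ + 2 * M ^ 2) / D = K₁ * κ / D + 2 * M ^ 2 / D := by ring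
      rw [hh', e4]
      linarith) s hs

theorem core_forward {N : ℕ} {m : Fin N → ℝ} (hm : ∀ i, 0 < m i) (C : ℝ) :
    ∃ κ C₂ K₂ : ℝ, 0 < κ ∧ 0 < C₂ ∧ 0 < K₂ ∧ K₂ < C₂ ∧
      ∀ (σ τ : ℝ → ℝ) (x : ℝ → Ph N), IsTraj m σ x →
      (∀ s, HasDerivAt τ (σ s) s) → ∀ s₁ s₂ : ℝ, s₁ ≤ s₂ →
      (∀ s ∈ Icc s₁ s₂, Star C (x s).1 (x s).2) → ∀ (c : V3) (D : ℝ), 0 < D →
      ∀ A : Finset (Fin N), (∀ i ∈ A, ‖(x s₁).1 i - c‖ ≤ D) →
      (∀ i ∉ A, 10 * D ≤ ‖(x s₁).1 i - c‖) →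
      (κ * (D * √D) ≤ τ s₂ - τ s₁ → -√D ≤ virA A c (x s₁) → enA m A (x s₁) ≤ C₂ / D) ∧
      (τ s₂ - τ s₁ ≤ κ * (D * √D) → virA A c (x s₁) +
        (enA m A (x s₁) - K₂ / D) * (τ s₂ - τ s₁) ≤ virA A c (x s₂)) := by
  obtain ⟨κ, K₂, hκ, hK₂, hcore⟩ := core_growth hm C
  set M : ℝ := ∑ i, m i with hM
  have hM0 : 0 ≤ M := Finset.sum_nonneg (fun i _ => (hm i).le)
  refine ⟨κ, (4 * M + 2 * κ) / κ ^ 2 + K₂, K₂, hκ, by positivity, hK₂, by
    have : 0 < (4 * M + 2 * κ) / κ ^ 2 := by positivity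
    linarith, ?_⟩
  intro σ τ x hx hτ s₁ s₂ hs₁₂ hstar c D hD A hA hA'
  refine ⟨?_, fun hT => (hcore σ τ x hx hτ s₁ s₂ hs₁₂ hstar c D hD A hA hA' hT s₂
    (right_mem_Icc.mpr hs₁₂)).2⟩
  intro hT hvir
  have hτmono := clock_strictMono hτ hx.pos
  have hsD : 0 < √D := Real.sqrt_pos.mpr hD
  have hDD : √D * √D = D := Real.mul_self_sqrt hD.le
  -- the end of the time window
  obtain ⟨s₃, hs₃, hτ₃⟩ : ∃ s₃ ∈ Icc s₁ s₂, τ s₃ = τ s₁ + κ * (D * √D) := by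
    have hcont : ContinuousOn τ (Icc s₁ s₂) := fun s _ =>
      (hτ s).continuousAt.continuousWithinAt
    have h1 := intermediate_value_Icc hs₁₂ hcont
    have h2 : τ s₁ + κ * (D * √D) ∈ Icc (τ s₁) (τ s₂) :=
      ⟨by linarith [mul_pos hκ (mul_pos hD hsD)], by linarith⟩
    obtain ⟨s₃, h3, h4⟩ := h1 h2
    exact ⟨s₃, h3, h4⟩
  have hsub : Icc s₁ s₃ ⊆ Icc s₁ s₂ := Icc_subset_Icc_right hs₃.2
  have hg := hcore σ τ x hx hτ s₁ s₃ hs₃.1 (fun s hs => hstar s (hsub hs)) c D hD A hA hA'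
    (by rw [hτ₃]; linarith)
  set h' : ℝ := enA m A (x s₁) - K₂ / D with hh'
  have hin : h' * (κ * (D * √D)) ^ 2 ≤ (4 * M + 2 * κ) * D ^ 2 := by
    have hd : ∀ s, HasDerivAt (fun s => inA m A c (x s) - h' * (τ s - τ s₁) ^ 2)
        (σ s * (2 * virA A c (x s) - 2 * (h' * (τ s - τ s₁)))) s := by
      intro s
      have h1 := (hx.der_inA hm A c s).sub
        ((((hτ s).sub_const (τ s₁)).pow 2).const_mul h')
      have h2 : σ s * (2 * virA A c (x s)) - h' * (((2:ℕ):ℝ) * (τ s - τ s₁) ^ (2 - 1) * σ s) =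
          σ s * (2 * virA A c (x s) - 2 * (h' * (τ s - τ s₁))) := by
        norm_num
        ring
      rw [h2] at h1
      exact h1
    have h1 := clock_growth (L := -(2 * √D)) hτ hd hx.pos
      (fun r hr => by
        have := (hg r hr).2
        linarith) s₃ (right_mem_Icc.mpr hs₃.1)
    simp only [sub_self, ne_eq, OfNat.ofNat_ne_zero, not_false_eq_true, zero_pow, mul_zero,
      sub_zero] at h1
    have h2 : 0 ≤ inA m A c (x s₁) := by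
      unfold inA
      exact Finset.sum_nonneg (fun i _ => by
        have := hm i
        positivity)
    have h3 : inA m A c (x s₃) ≤ 4 * M * D ^ 2 := by
      unfold inA
      have h4 : ∀ i ∈ A, m i * ‖(x s₃).1 i - c‖ ^ 2 ≤ m i * (2 * D) ^ 2 := by
        intro i hi
        apply mul_le_mul_of_nonneg_left _ (hm i).le
        exact pow_le_pow_left₀ (norm_nonneg _) ((hg s₃ (right_mem_Icc.mpr hs₃.1)).1 i hi) 2
      refine (Finset.sum_le_sum h4).trans ?_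
      rw [← Finset.sum_mul]
      have h5 : ∑ i ∈ A, m i ≤ M :=
        Finset.sum_le_sum_of_subset_of_nonneg (Finset.subset_univ _) (fun j _ _ => (hm j).le)
      refine (mul_le_mul_of_nonneg_right h5 (by positivity)).trans (le_of_eq ?_)
      ring
    have h6 : τ s₃ - τ s₁ = κ * (D * √D) := by rw [hτ₃]; ring
    rw [h6] at h1
    have h7 : 2 * √D * (κ * (D * √D)) = 2 * κ * D ^ 2 := by
      calc 2 * √D * (κ * (D * √D)) = 2 * κ * D * (√D * √D) := by ring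
        _ = 2 * κ * D ^ 2 := by rw [hDD]; ring
    linarith
  have hh'le : h' ≤ (4 * M + 2 * κ) / κ ^ 2 / D := by
    have h1 : (κ * (D * √D)) ^ 2 = κ ^ 2 * D ^ 3 := by
      calc (κ * (D * √D)) ^ 2 = κ ^ 2 * D ^ 2 * (√D * √D) := by ring
        _ = κ ^ 2 * D ^ 3 := by rw [hDD]; ring
    rw [h1] at hin
    rw [div_div, le_div_iff₀ (by positivity)]
    have h2 : h' * (κ ^ 2 * D) * D ^ 2 ≤ (4 * M + 2 * κ) * D ^ 2 := by
      calc h' * (κ ^ 2 * D) * D ^ 2 = h' * (κ ^ 2 * D ^ 3) := by ring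
        _ ≤ _ := hin
    exact le_of_mul_le_mul_right h2 (by positivity)
  have hfin : ((4 * M + 2 * κ) / κ ^ 2 + K₂) / D = (4 * M + 2 * κ) / κ ^ 2 / D + K₂ / D := by ring
  rw [hfin]
  rw [hh'] at hh'le
  linarith

theorem Star.neg {N : ℕ} {C : ℝ} {q p : Fin N → V3} (h : Star C q p) : Star C q (-p) := by
  intro A d hd hA
  have h1 := h A d hd hA
  simpa only [Pi.neg_apply, Finset.sum_neg_distrib, norm_neg] using h1

/-- The same at the end of an orbit segment. -/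
theorem core_backward {N : ℕ} {m : Fin N → ℝ} {C κ C₂ : ℝ}
    (H : ∀ (σ τ : ℝ → ℝ) (x : ℝ → Ph N), IsTraj m σ x →
      (∀ s, HasDerivAt τ (σ s) s) → ∀ s₁ s₂ : ℝ, s₁ ≤ s₂ →
      (∀ s ∈ Icc s₁ s₂, Star C (x s).1 (x s).2) → ∀ (c : V3) (D : ℝ), 0 < D →
      ∀ A : Finset (Fin N), (∀ i ∈ A, ‖(x s₁).1 i - c‖ ≤ D) →
      (∀ i ∉ A, 10 * D ≤ ‖(x s₁).1 i - c‖) →
      κ * (D * √D) ≤ τ s₂ - τ s₁ → -√D ≤ virA A c (x s₁) → enA m A (x s₁) ≤ C₂ / D)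
    {σ τ : ℝ → ℝ} {x : ℝ → Ph N} (hx : IsTraj m σ x) (hτ : ∀ s, HasDerivAt τ (σ s) s)
    {s₁ s₀ : ℝ} (h10 : s₁ ≤ s₀) (hstar : ∀ s ∈ Icc s₁ s₀, Star C (x s).1 (x s).2) {c : V3}
    {D : ℝ} (hD : 0 < D) {A : Finset (Fin N)} (hA : ∀ i ∈ A, ‖(x s₀).1 i - c‖ ≤ D)
    (hA' : ∀ i ∉ A, 10 * D ≤ ‖(x s₀).1 i - c‖) (hT : κ * (D * √D) ≤ τ s₀ - τ s₁)
    (hv : virA A c (x s₀) ≤ √D) : enA m A (x s₀) ≤ C₂ / D := by
  have hrev := hx.reverse s₀
  have hτ' : ∀ s, HasDerivAt (fun s => -τ (s₀ - s)) (σ (s₀ - s)) s := by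
    intro s
    have h1 : HasDerivAt (fun s => s₀ - s) (-1 : ℝ) s := by
      simpa using (hasDerivAt_id s).const_sub s₀
    have h2 := ((hτ (s₀ - s)).comp s h1).neg
    simp only [mul_neg, mul_one, neg_neg] at h2
    exact h2
  have h1 := H (fun s => σ (s₀ - s)) (fun s => -τ (s₀ - s))
    (fun s => ((x (s₀ - s)).1, -(x (s₀ - s)).2)) hrev hτ' 0 (s₀ - s₁) (by linarith)
    (fun s hs => (hstar (s₀ - s) ⟨by linarith [hs.2], by linarith [hs.1]⟩).neg) c D hD A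
    (by simpa using hA) (by simpa using hA') (by
      simp only [sub_sub_cancel, sub_zero]
      linarith) (by
      unfold virA at hv ⊢
      simp only [sub_zero, Pi.neg_apply, inner_neg_right, Finset.sum_neg_distrib]
      linarith)
  have h2 : enA m A ((x (s₀ - 0)).1, -(x (s₀ - 0)).2) = enA m A (x s₀) := by
    unfold enA
    simp
  rw [h2] at h1
  exact h1

end Pool.Agent.NBody
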