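import Mathlib
import Pool.Agent.NBody.En4
import Pool.Agent.NBody.Tensor

/-!
Static facts about the energies of subsystems: reduction to clusters, and complements.
-/

set_option autoImplicit false
open scoped RealInnerProductSpace
open Set Finset Filter Topology

namespace Pool.Agent.NBody

/-- The energy of a union of two disjoint subsystems is at most the sum of the energies. -/
theorem enA_union_le {N : ℕ} {m : Fin N → ℝ} (hm : ∀ i, 0 < m i) {b b' : Finset (Fin N)}
    (hd : Disjoint b b') (y : Ph N) : enA m (b ∪ b') y ≤ enA m b y + enA m b' y := by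
  unfold enA
  rw [Finset.sum_union hd, Finset.sum_union hd]
  have h1 : ∀ i, ∑ j ∈ b ∪ b', m i * m j / ‖y.1 i - y.1 j‖ / 2 =
      ∑ j ∈ b, m i * m j / ‖y.1 i - y.1 j‖ / 2 + ∑ j ∈ b', m i * m j / ‖y.1 i - y.1 j‖ / 2 :=
    fun i => Finset.sum_union hd
  rw [Finset.sum_congr rfl (fun i _ => h1 i), Finset.sum_congr rfl (fun i _ => h1 i),
    Finset.sum_add_distrib, Finset.sum_add_distrib]
  have hnn : ∀ s t : Finset (Fin N),
      0 ≤ ∑ i ∈ s, ∑ j ∈ t, m i * m j / ‖y.1 i - y.1 j‖ / 2 := fun s t =>
    Finset.sum_nonneg (fun i _ => Finset.sum_nonneg (fun j _ => by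
      have := hm i
      have := hm j
      positivity))
  have h2 := hnn b b'
  have h3 := hnn b' b
  linarith

/-- The energy bound for clusters implies the energy bound for all subsystems. -/
theorem energy_reduction {N : ℕ} (hN : 0 < N) {m : Fin N → ℝ} (hm : ∀ i, 0 < m i) {y : Ph N}
    {C₂ : ℝ} (hC₂ : 0 ≤ C₂)
    (hcl : ∀ (B : Finset (Fin N)) (c : V3) (D : ℝ), 0 < D → (∀ i ∈ B, ‖y.1 i - c‖ ≤ D) →
      (∀ i ∉ B, 11 * D ≤ ‖y.1 i - c‖) → enA m B y ≤ C₂ / D) :
    ∀ (n : ℕ) (A : Finset (Fin N)), A.card ≤ n → ∀ d : ℝ, 0 < d →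
      (∀ i ∈ A, ∀ j ∉ A, d ≤ ‖y.1 i - y.1 j‖) → enA m A y ≤ 11 * C₂ * (22 * N) ^ n / d := by
  have hNr : (0:ℝ) < N := by exact_mod_cast hN
  have hN1 : (1:ℝ) ≤ N := by exact_mod_cast hN
  intro n
  induction n with
  | zero =>
    intro A hA d hd _
    have : A = ∅ := Finset.card_eq_zero.mp (Nat.le_zero.mp hA)
    subst this
    unfold enA
    simp only [Finset.sum_empty, sub_zero]
    positivity
  | succ n ih =>
    intro A hAn d hd hsep
    rcases A.eq_empty_or_nonempty with hAe | hAne
    · subst hAe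
      unfold enA
      simp only [Finset.sum_empty, sub_zero]
      positivity
    have hcardN : A.card ≤ N := by
      simpa using Finset.card_le_univ A
    obtain ⟨uv, huv, hmax⟩ := (A ×ˢ A).exists_max_image (fun w => dist (y.1 w.1) (y.1 w.2))
      (hAne.product hAne)
    obtain ⟨u, v⟩ := uv
    rw [Finset.mem_product] at huv
    obtain ⟨hu, hv⟩ := huv
    simp only at hu hv
    have hmax' : ∀ i ∈ A, ∀ j ∈ A, ‖y.1 i - y.1 j‖ ≤ dist (y.1 u) (y.1 v) := by
      intro i hi j hj
      have := hmax (i, j) (Finset.mem_product.mpr ⟨hi, hj⟩)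
      rwa [dist_eq_norm] at this
    rcases le_or_gt (dist (y.1 u) (y.1 v)) (d / 11) with hle | hgt
    · have h1 := hcl A (y.1 u) (d / 11) (by positivity)
        (fun i hi => (hmax' i hi u hu).trans hle)
        (fun i hi => by
          have := hsep u hu i hi
          rw [norm_sub_rev] at this
          linarith)
      refine h1.trans ?_
      have h2 : C₂ / (d / 11) = 11 * C₂ / d := by
        field_simp
      rw [h2]
      apply div_le_div_of_nonneg_right _ hd.le
      have h3 : (1:ℝ) ≤ (22 * N) ^ (n + 1) := one_le_pow₀ (by linarith)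
      nlinarith
    · obtain ⟨b, b', hunion, hdisj, hub, hvb, hgap⟩ :=
        exists_split y.1 A N hcardN (dist (y.1 u) (y.1 v)) (lt_trans (by positivity) hgt) u v hu hv
          le_rfl
      have hcards : b.card + b'.card = A.card := by
        rw [← hunion, Finset.card_union_of_disjoint hdisj]
      have hb1 : 0 < b.card := Finset.card_pos.mpr ⟨u, hub⟩
      have hb2 : 0 < b'.card := Finset.card_pos.mpr ⟨v, hvb⟩
      have hdpos : 0 < d / (11 * N) := by positivity
      have hdle : d / (11 * N) ≤ d := by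
        apply div_le_self hd.le
        linarith
      have hgap' : ∀ i ∈ b, ∀ j ∈ b', d / (11 * N) ≤ ‖y.1 i - y.1 j‖ := by
        intro i hi j hj
        have h1 := hgap i hi j hj
        rw [dist_eq_norm (y.1 i)] at h1
        refine le_trans ?_ h1
        rw [← div_div]
        exact div_le_div_of_nonneg_right hgt.le hNr.le
      have h1 := ih b (by omega) (d / (11 * N)) hdpos (by
        intro i hi j hj
        by_cases hjA : j ∈ A
        · rw [← hunion, Finset.mem_union] at hjA
          exact hgap' i hi j (hjA.resolve_left hj)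
        · exact hdle.trans (hsep i (by rw [← hunion]; exact Finset.mem_union_left _ hi) j hjA))
      have h2 := ih b' (by omega) (d / (11 * N)) hdpos (by
        intro i hi j hj
        by_cases hjA : j ∈ A
        · rw [← hunion, Finset.mem_union] at hjA
          rw [norm_sub_rev]
          exact hgap' j (hjA.resolve_right hj) i hi
        · exact hdle.trans (hsep i (by rw [← hunion]; exact Finset.mem_union_right _ hi) j hjA))
      have h3 := enA_union_le hm hdisj y
      rw [hunion] at h3
      have h4 : 11 * C₂ * (22 * N) ^ (n + 1) / d =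
          2 * (11 * C₂ * (22 * N) ^ n / (d / (11 * N))) := by
        rw [pow_succ]
        field_simp
        ring
      rw [h4]
      linarith

/-- The energies of a subsystem and of its complement, and the interaction. -/
theorem enA_add_compl {N : ℕ} (m : Fin N → ℝ) (A : Finset (Fin N)) (y : Ph N) :
    enA m Finset.univ y = enA m A y + enA m Aᶜ y -
      (∑ i ∈ A, ∑ j ∈ Aᶜ, m i * m j / ‖y.1 i - y.1 j‖ / 2 +
        ∑ i ∈ Aᶜ, ∑ j ∈ A, m i * m j / ‖y.1 i - y.1 j‖ / 2) := by
  unfold enA
  have h1 : ∀ f : Fin N → ℝ, ∑ i, f i = ∑ i ∈ A, f i + ∑ i ∈ Aᶜ, f i := fun f =>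
    (Finset.sum_add_sum_compl A f).symm
  rw [h1, h1 (fun i => ∑ j, m i * m j / ‖y.1 i - y.1 j‖ / 2)]
  rw [Finset.sum_congr rfl (fun i (_ : i ∈ A) => h1 (fun j => m i * m j / ‖y.1 i - y.1 j‖ / 2)),
    Finset.sum_congr rfl (fun i (_ : i ∈ Aᶜ) => h1 (fun j => m i * m j / ‖y.1 i - y.1 j‖ / 2)),
    Finset.sum_add_distrib, Finset.sum_add_distrib]
  ring

/-- The upper energy bound for the complement is a lower energy bound. -/
theorem enA_lower {N : ℕ} {m : Fin N → ℝ} (hm : ∀ i, 0 < m i) {A : Finset (Fin N)} {y : Ph N}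
    {K : ℝ} (h : enA m Aᶜ y ≤ K) : enA m Finset.univ y - K ≤ enA m A y := by
  have h1 := enA_add_compl m A y
  have hnn : ∀ s t : Finset (Fin N),
      0 ≤ ∑ i ∈ s, ∑ j ∈ t, m i * m j / ‖y.1 i - y.1 j‖ / 2 := fun s t =>
    Finset.sum_nonneg (fun i _ => Finset.sum_nonneg (fun j _ => by
      have := hm i
      have := hm j
      positivity))
  have h2 := hnn A Aᶜ
  have h3 := hnn Aᶜ A
  linarith

end Pool.Agent.NBody
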