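import Mathlib

/-!
Uniqueness, group property and continuity for the flow of a locally Lipschitz vector field on an
invariant set.
-/

set_option autoImplicit false
open Set Filter Topology

namespace Pool.Agent.NBody

variable {W : Type*} [NormedAddCommGroup W] [NormedSpace ℝ W]

/-- `f` is Lipschitz near every point of `Ω` -/
def LocLip (f : W → W) (Ω : Set W) : Prop :=
  ∀ x ∈ Ω, ∃ K : NNReal, ∃ t ∈ 𝓝 x, LipschitzOnWith K f t

omit [NormedSpace ℝ W] in
theorem LocLip.neg {f : W → W} {Ω : Set W} (hf : LocLip f Ω) : LocLip (fun x => -f x) Ω := by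
  intro x hx
  obtain ⟨K, t, ht, h⟩ := hf x hx
  exact ⟨K, t, ht, h.neg⟩

theorem sol_unique {f : W → W} {Ω : Set W} (hf : LocLip f Ω) {γ₁ γ₂ : ℝ → W}
    (h₁ : ∀ s, HasDerivAt γ₁ (f (γ₁ s)) s) (h₁Ω : ∀ s, γ₁ s ∈ Ω)
    (h₂ : ∀ s, HasDerivAt γ₂ (f (γ₂ s)) s)
    {s₀ : ℝ} (heq : γ₁ s₀ = γ₂ s₀) : γ₁ = γ₂ := by
  have hc₁ : Continuous γ₁ := continuous_iff_continuousAt.mpr (fun s => (h₁ s).continuousAt)
  have hc₂ : Continuous γ₂ := continuous_iff_continuousAt.mpr (fun s => (h₂ s).continuousAt)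
  have hclosed : IsClosed {s | γ₁ s = γ₂ s} := isClosed_eq hc₁ hc₂
  have hopen : IsOpen {s | γ₁ s = γ₂ s} := by
    rw [isOpen_iff_mem_nhds]
    intro s hs
    obtain ⟨K, t, ht, hK⟩ := hf (γ₁ s) (h₁Ω s)
    have e₁ : ∀ᶠ r in 𝓝 s, γ₁ r ∈ t := hc₁.continuousAt.eventually_mem ht
    have e₂ : ∀ᶠ r in 𝓝 s, γ₂ r ∈ t := hc₂.continuousAt.eventually_mem (by
      have : γ₁ s = γ₂ s := hs
      rw [← this]; exact ht)
    have := ODE_solution_unique_of_eventually (v := fun _ => f) (s := fun _ => t) (K := K)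
      (f := γ₁) (g := γ₂) (t₀ := s) (Eventually.of_forall (fun _ => hK))
      (e₁.mono (fun r hr => ⟨h₁ r, hr⟩)) (e₂.mono (fun r hr => ⟨h₂ r, hr⟩)) hs
    exact this
  have huniv := IsClopen.eq_univ ⟨hclosed, hopen⟩ ⟨s₀, heq⟩
  funext s
  have : s ∈ {s | γ₁ s = γ₂ s} := by rw [huniv]; trivial
  exact this

/-- local Lipschitz dependence on the initial value, forward in time -/
theorem local_dep {f : W → W} {Ω : Set W} (hf : LocLip f Ω) {z : W} (hz : z ∈ Ω) :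
    ∃ V ∈ 𝓝 z, ∃ δ > 0, ∃ C : ℝ, ∀ γ₁ γ₂ : ℝ → W, (∀ s, HasDerivAt γ₁ (f (γ₁ s)) s) →
      (∀ s, HasDerivAt γ₂ (f (γ₂ s)) s) → γ₁ 0 ∈ V → γ₂ 0 ∈ V →
      ∀ s ∈ Icc (0:ℝ) δ, dist (γ₁ s) (γ₂ s) ≤ dist (γ₁ 0) (γ₂ 0) * C := by
  obtain ⟨K, t, ht, hK⟩ := hf z hz
  have hcont : ContinuousAt f z := hK.continuousOn.continuousAt ht
  have h1 : ∀ᶠ y in 𝓝 z, ‖f y‖ < ‖f z‖ + 1 :=
    hcont.norm.eventually_lt continuousAt_const (by linarith)
  have h2 : ∀ᶠ y in 𝓝 z, y ∈ t := ht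
  obtain ⟨R, hR, hRb⟩ := Metric.eventually_nhds_iff_ball.mp (h1.and h2)
  set M : ℝ := ‖f z‖ + 1 with hM
  have hMpos : 0 < M := by positivity
  set δ : ℝ := R / 4 / M with hδ
  have hδpos : 0 < δ := by positivity
  have hMδ : M * δ = R / 4 := by
    rw [hδ]
    field_simp
  have stay : ∀ γ : ℝ → W, (∀ s, HasDerivAt γ (f (γ s)) s) → γ 0 ∈ Metric.ball z (R / 2) →
      ∀ s ∈ Icc (0:ℝ) δ, γ s ∈ Metric.ball z R := by
    intro γ hγ hγ0
    have hb : ∀ s ∈ Icc (0:ℝ) δ, ‖γ s - γ 0‖ ≤ M * s → γ s ∈ Metric.ball z R := by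
      intro s hs h
      rw [Metric.mem_ball, dist_eq_norm] at hγ0 ⊢
      have h3 : M * s ≤ M * δ := mul_le_mul_of_nonneg_left hs.2 hMpos.le
      calc ‖γ s - z‖ = ‖(γ s - γ 0) + (γ 0 - z)‖ := by congr 1; abel
        _ ≤ ‖γ s - γ 0‖ + ‖γ 0 - z‖ := norm_add_le _ _
        _ < R := by linarith
    have hmain := image_norm_le_of_norm_deriv_right_lt_deriv_boundary
      (f := fun s => γ s - γ 0) (f' := fun s => f (γ s)) (a := 0) (b := δ)
      (B := fun s => M * s) (B' := fun _ => M)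
      (by
        intro s _
        exact ((hγ s).sub_const (γ 0)).continuousAt.continuousWithinAt)
      (by
        intro s _
        exact ((hγ s).sub_const (γ 0)).hasDerivWithinAt)
      (by simp)
      (fun s => by simpa using (hasDerivAt_id s).const_mul M)
      (by
        intro s hs heq
        exact (hRb _ (hb s ⟨hs.1, hs.2.le⟩ heq.le)).1)
    intro s hs
    exact hb s hs (hmain hs)
  refine ⟨Metric.ball z (R / 2), Metric.ball_mem_nhds _ (by linarith), δ, hδpos,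
    Real.exp (K * δ), ?_⟩
  intro γ₁ γ₂ h₁ h₂ h₁0 h₂0 s hs
  have hg := dist_le_of_trajectories_ODE_of_mem (v := fun _ => f) (s := fun _ => t) (K := K)
    (f := γ₁) (g := γ₂) (a := 0) (b := δ) (δ := dist (γ₁ 0) (γ₂ 0))
    (fun _ _ => hK)
    (fun s _ => (h₁ s).continuousAt.continuousWithinAt)
    (fun s _ => (h₁ s).hasDerivWithinAt)
    (fun s hs => (hRb _ (stay γ₁ h₁ h₁0 s ⟨hs.1, hs.2.le⟩)).2)
    (fun s _ => (h₂ s).continuousAt.continuousWithinAt)
    (fun s _ => (h₂ s).hasDerivWithinAt)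
    (fun s hs => (hRb _ (stay γ₂ h₂ h₂0 s ⟨hs.1, hs.2.le⟩)).2) le_rfl s hs
  refine hg.trans ?_
  apply mul_le_mul_of_nonneg_left _ dist_nonneg
  apply Real.exp_le_exp.mpr
  rw [sub_zero]
  exact mul_le_mul_of_nonneg_left hs.2 K.2

/-- A complete flow on an invariant set. -/
structure IsFlowOn (f : W → W) (S : Set W) (φ : ℝ → W → W) : Prop where
  zero : ∀ x ∈ S, φ 0 x = x
  mem : ∀ x ∈ S, ∀ t, φ t x ∈ S
  der : ∀ x ∈ S, ∀ t, HasDerivAt (fun s => φ s x) (f (φ t x)) t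

namespace IsFlowOn

variable {f : W → W} {Ω S : Set W} {φ : ℝ → W → W}

theorem add (h : IsFlowOn f S φ) (hf : LocLip f Ω) (hS : S ⊆ Ω) {x : W} (hx : x ∈ S) (s t : ℝ) :
    φ (s + t) x = φ s (φ t x) := by
  have h1 : ∀ s, HasDerivAt (fun s => φ (s + t) x) (f (φ (s + t) x)) s := fun s =>
    HasDerivAt.comp_add_const s t (h.der x hx (s + t))
  have h2 := sol_unique hf (γ₁ := fun s => φ (s + t) x) (γ₂ := fun s => φ s (φ t x)) h1
    (fun s => hS (h.mem x hx _)) (h.der _ (h.mem x hx t)) (s₀ := 0)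
    (by simp only [zero_add]; rw [h.zero _ (h.mem x hx t)])
  exact congrFun h2 s

theorem loc_cont (h : IsFlowOn f S φ) (hf : LocLip f Ω) (hS : S ⊆ Ω) {z : W} (hz : z ∈ S) :
    ∃ V ∈ 𝓝 z, ∃ δ > 0, ∀ t, |t| ≤ δ → ∀ y ∈ V ∩ S, ContinuousWithinAt (φ t) S y := by
  obtain ⟨V₁, hV₁, δ₁, hδ₁, C₁, H₁⟩ := local_dep hf (hS hz)
  obtain ⟨V₂, hV₂, δ₂, hδ₂, C₂, H₂⟩ := local_dep hf.neg (hS hz)
  obtain ⟨V, hVsub, hVo, hzV⟩ := mem_nhds_iff.mp (Filter.inter_mem hV₁ hV₂)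
  refine ⟨V, hVo.mem_nhds hzV, min δ₁ δ₂, lt_min hδ₁ hδ₂, ?_⟩
  intro t ht y hy
  have hfin : ∀ C : ℝ, (∀ y' ∈ V ∩ S, dist (φ t y') (φ t y) ≤ dist y' y * C) →
      ContinuousWithinAt (φ t) S y := by
    intro C hC
    rw [ContinuousWithinAt, tendsto_iff_dist_tendsto_zero]
    have h0 : Tendsto (fun y' => dist y' y * C) (𝓝[S] y) (𝓝 0) := by
      have h3 : Tendsto (fun y' => dist y' y) (𝓝[S] y) (𝓝 0) := by
        exact (tendsto_iff_dist_tendsto_zero (f := fun y' : W => y') (x := 𝓝[S] y) (a := y)).mp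
          (Filter.tendsto_id.mono_left nhdsWithin_le_nhds)
      simpa using h3.mul_const C
    refine squeeze_zero' (Eventually.of_forall (fun _ => dist_nonneg)) ?_ h0
    have h4 : ∀ᶠ y' in 𝓝[S] y, y' ∈ V := mem_nhdsWithin_of_mem_nhds (hVo.mem_nhds hy.1)
    filter_upwards [h4, self_mem_nhdsWithin] with y' hy1 hy2
    exact hC y' ⟨hy1, hy2⟩
  rcases le_total 0 t with h0 | h0
  · apply hfin C₁
    intro y' hy'
    have := H₁ (fun s => φ s y') (fun s => φ s y) (h.der y' hy'.2) (h.der y hy.2)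
      (by simp only [h.zero y' hy'.2]; exact (hVsub hy'.1).1)
      (by simp only [h.zero y hy.2]; exact (hVsub hy.1).1) t
      ⟨h0, by rw [abs_of_nonneg h0] at ht; exact ht.trans (min_le_left _ _)⟩
    simpa only [h.zero y' hy'.2, h.zero y hy.2] using this
  · apply hfin C₂
    intro y' hy'
    have hrev : ∀ w ∈ S, ∀ s, HasDerivAt (fun s => φ (-s) w) (-f (φ (-s) w)) s := by
      intro w hw s
      have h1 := (h.der w hw (-s)).scomp s (hasDerivAt_neg s)
      rw [neg_one_smul] at h1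
      exact h1
    have := H₂ (fun s => φ (-s) y') (fun s => φ (-s) y) (hrev y' hy'.2) (hrev y hy.2)
      (by simp only [neg_zero, h.zero y' hy'.2]; exact (hVsub hy'.1).2)
      (by simp only [neg_zero, h.zero y hy.2]; exact (hVsub hy.1).2) (-t)
      ⟨by linarith, by rw [abs_of_nonpos h0] at ht; exact ht.trans (min_le_right _ _)⟩
    simpa only [neg_zero, neg_neg, h.zero y' hy'.2, h.zero y hy.2] using this

theorem continuousOn (h : IsFlowOn f S φ) (hf : LocLip f Ω) (hS : S ⊆ Ω) (t : ℝ) :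
    ContinuousOn (φ t) S := by
  intro x hx
  set T : Set ℝ := {t | ContinuousWithinAt (φ t) S x} with hT
  have hloc : ∀ t₀ : ℝ, ∀ᶠ t in 𝓝 t₀, (t ∈ T ↔ t₀ ∈ T) := by
    intro t₀
    obtain ⟨V, hV, δ, hδ, H⟩ := h.loc_cont hf hS (h.mem x hx t₀)
    have e1 : ∀ᶠ t in 𝓝 t₀, φ t x ∈ V := (h.der x hx t₀).continuousAt.eventually_mem hV
    have e2 : ∀ᶠ t in 𝓝 t₀, |t - t₀| ≤ δ := by
      filter_upwards [Metric.closedBall_mem_nhds t₀ hδ] with t ht
      rwa [Metric.mem_closedBall, Real.dist_eq] at ht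
    filter_upwards [e1, e2] with t ht1 ht2
    constructor
    · intro htT
      have h1 : ContinuousWithinAt (φ (t₀ - t)) S (φ t x) :=
        H (t₀ - t) (by rw [abs_sub_comm]; exact ht2) _ ⟨ht1, h.mem x hx t⟩
      have h2 : ContinuousWithinAt (fun y => φ (t₀ - t) (φ t y)) S x :=
        ContinuousWithinAt.comp (t := S) h1 htT (fun y hy => h.mem y hy t)
      refine h2.congr (fun y hy => ?_) ?_
      · rw [← h.add hf hS hy]; congr 1; ring
      · rw [← h.add hf hS hx]; congr 1; ring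
    · intro htT
      have h1 : ContinuousWithinAt (φ (t - t₀)) S (φ t₀ x) :=
        H (t - t₀) ht2 _ ⟨mem_of_mem_nhds hV, h.mem x hx t₀⟩
      have h2 : ContinuousWithinAt (fun y => φ (t - t₀) (φ t₀ y)) S x :=
        ContinuousWithinAt.comp (t := S) h1 htT (fun y hy => h.mem y hy t₀)
      refine h2.congr (fun y hy => ?_) ?_
      · rw [← h.add hf hS hy]; congr 1; ring
      · rw [← h.add hf hS hx]; congr 1; ring
  have hopen : IsOpen T := by
    rw [isOpen_iff_mem_nhds]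
    intro t₀ ht₀
    filter_upwards [hloc t₀] with t ht
    exact ht.mpr ht₀
  have hclosed : IsClosed T := by
    rw [← isOpen_compl_iff, isOpen_iff_mem_nhds]
    intro t₀ ht₀
    filter_upwards [hloc t₀] with t ht
    exact fun h' => ht₀ (ht.mp h')
  have hne : T.Nonempty := by
    refine ⟨0, ?_⟩
    have : ContinuousWithinAt (fun y : W => y) S x := continuousWithinAt_id
    exact this.congr (fun y hy => h.zero y hy) (h.zero x hx)
  have huniv := IsClopen.eq_univ ⟨hclosed, hopen⟩ hne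
  have : t ∈ T := by rw [huniv]; trivial
  exact this

end IsFlowOn

end Pool.Agent.NBody
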