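import Mathlib
import Pool.Agent.NBody.Clock
import Pool.Agent.NBody.Select

/-!
The momentum bound for nonwandering points.
-/

set_option autoImplicit false
open scoped RealInnerProductSpace
open Set Finset Filter Topology

namespace Pool.Agent.NBody

/-- the set of collision-free states -/
def NC (N : ℕ) : Set (Ph N) := {x | ∀ i j, i ≠ j → x.1 i ≠ x.1 j}

theorem isOpen_NC (N : ℕ) : IsOpen (NC N) := by
  have : NC N = ⋂ i : Fin N, ⋂ j : Fin N, {x : Ph N | i ≠ j → x.1 i ≠ x.1 j} := by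
    ext x
    simp [NC]
  rw [this]
  apply isOpen_iInter_of_finite
  intro i
  apply isOpen_iInter_of_finite
  intro j
  by_cases hij : i = j
  · simp [hij]
  · have h : {x : Ph N | i ≠ j → x.1 i ≠ x.1 j} = {x : Ph N | x.1 i ≠ x.1 j} := by
      ext x
      simp [hij]
    rw [h]
    exact isOpen_ne_fun ((continuous_apply i).comp continuous_fst)
      ((continuous_apply j).comp continuous_fst)

/-- a flow line is a trajectory -/
theorem isTraj_of_flow {N : ℕ} {m : Fin N → ℝ} {S : Set (Ph N)} (hS : S ⊆ NC N)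
    {ψ : Ph N → ℝ} {φ : ℝ → Ph N → Ph N} (hψc : ContinuousOn ψ (NC N))
    (hψpos : ∀ x ∈ NC N, 0 < ψ x)
    (hφ : ∀ x ∈ S, φ 0 x = x ∧ ∀ t : ℝ, φ t x ∈ S ∧
        HasDerivAt (fun s : ℝ => φ s x)
          (ψ (φ t x) • ((fun i => (m i)⁻¹ • (φ t x).2 i),
            (fun i => ∑ j, (m i * m j / ‖(φ t x).1 j - (φ t x).1 i‖ ^ 3) •
              ((φ t x).1 j - (φ t x).1 i)))) t)
    {y : Ph N} (hy : y ∈ S) :
    IsTraj m (fun s => ψ (φ s y)) (fun s => φ s y) where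
  cont := by
    have h1 : Continuous (fun s => φ s y) :=
      continuous_iff_continuousAt.mpr (fun s => ((hφ y hy).2 s).2.continuousAt)
    rw [← continuousOn_univ] at h1 ⊢
    exact hψc.comp h1 (fun s _ => hS ((hφ y hy).2 s).1)
  pos := fun s => hψpos _ (hS ((hφ y hy).2 s).1)
  ncol := fun s => hS ((hφ y hy).2 s).1
  der := fun s => ((hφ y hy).2 s).2

theorem wandering_of_momentum (N : ℕ) (m : Fin N → ℝ) (hm : ∀ i, 0 < m i) :
    ∃ C : ℝ, 0 < C ∧ ∀ S : Set (Ph N), S ⊆ NC N → (∀ x ∈ S, ∑ i, x.2 i = 0) →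
      ∀ (ψ : Ph N → ℝ) (φ : ℝ → Ph N → Ph N), ContinuousOn ψ (NC N) → (∀ x ∈ NC N, 0 < ψ x) →
      (∀ x ∈ S, φ 0 x = x ∧ ∀ t : ℝ, φ t x ∈ S ∧
        HasDerivAt (fun s : ℝ => φ s x)
          (ψ (φ t x) • ((fun i => (m i)⁻¹ • (φ t x).2 i),
            (fun i => ∑ j, (m i * m j / ‖(φ t x).1 j - (φ t x).1 i‖ ^ 3) •
              ((φ t x).1 j - (φ t x).1 i)))) t) →
      ∀ x ∈ S, ∀ (A : Finset (Fin N)) (d : ℝ), 0 < d →
        (∀ i ∈ A, ∀ j ∉ A, d ≤ ‖x.1 i - x.1 j‖) → C < ‖∑ i ∈ A, x.2 i‖ ^ 2 * d →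
        ∃ V : Set (Ph N), IsOpen V ∧ x ∈ V ∧ ∃ T : ℝ, ∀ t : ℝ, T < t → ∀ y ∈ V ∩ S, φ t y ∉ V := by
  obtain ⟨C, L, hC, hL1, hL, hsel⟩ := exists_ratchet m hm
  refine ⟨C, hC, ?_⟩
  intro S hS hp ψ φ hψc hψpos hφ x hx A d hd hA hCd
  have htraj : ∀ y ∈ S, IsTraj m (fun s => ψ (φ s y)) (fun s => φ s y) := fun y hy =>
    isTraj_of_flow hS hψc hψpos hφ hy
  have hxnc := hS hx
  have hψx : ContinuousAt ψ x := hψc.continuousAt ((isOpen_NC N).mem_nhds hxnc)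
  obtain ⟨V₁, hV₁, τ₀, hτ₀, hclock⟩ := clock_lower (m := m) hxnc hψx (hψpos x hxnc)
  obtain ⟨e, s₀, κ₀, lam, c, A₀, he, hκ₀, hlam, hc, hstrict, hcase⟩ :=
    hsel x (hp x hx) A d hd hA hCd
  -- clock
  have hτd : ∀ y ∈ S, ∀ s, HasDerivAt (fun s => ∫ r in (0:ℝ)..s, ψ (φ r y)) (ψ (φ s y)) s := by
    intro y hy s
    exact intervalIntegral.integral_hasDerivAt_right
      ((htraj y hy).cont.intervalIntegrable _ _)
      ((htraj y hy).cont.stronglyMeasurableAtFilter _ _) (htraj y hy).cont.continuousAt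
  have hτlow : ∀ y ∈ V₁ ∩ S, ∀ s, 1 ≤ s → τ₀ ≤ ∫ r in (0:ℝ)..s, ψ (φ r y) := by
    intro y hy s hs
    refine hclock (fun s => ψ (φ s y)) (fun s => ∫ r in (0:ℝ)..s, ψ (φ r y)) (fun s => φ s y)
      (htraj y hy.2) (fun s => rfl) (by simp) (hτd y hy.2) ?_ s hs
    simp only [(hφ y hy.2).1]
    exact hy.1
  rcases hcase with hfw | hbw
  · -- forward
    obtain ⟨V₂, hV₂, hno⟩ := noreturn hm hL1 hL he hκ₀ hlam x hstrict hc hfw hτ₀
    obtain ⟨V, hVsub, hVo, hxV⟩ := mem_nhds_iff.mp (Filter.inter_mem hV₁ hV₂)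
    refine ⟨V, hVo, hxV, 1, ?_⟩
    intro t ht y hy hret
    refine hno (fun s => ψ (φ s y)) (fun s => ∫ r in (0:ℝ)..s, ψ (φ r y)) (fun s => φ s y)
      (htraj y hy.2) (by simp) (hτd y hy.2) ?_ t (by linarith)
      (hτlow y ⟨(hVsub hy.1).1, hy.2⟩ t ht.le) (hVsub hret).2
    simp only [(hφ y hy.2).1]
    exact (hVsub hy.1).2
  · -- backward
    have hbw' : c + 2 * (∑ i, m i) ^ 2 / (lam * κ₀) + nu L N N * lam <
        ∑ i ∈ A₀, ⟪((x.1, -x.2) : Ph N).2 i, e⟫ := by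
      simp only [Pi.neg_apply, inner_neg_left, Finset.sum_neg_distrib]
      exact hbw
    obtain ⟨V₂, hV₂, hno⟩ := noreturn hm hL1 hL he hκ₀ hlam ((x.1, -x.2) : Ph N) hstrict hc
      hbw' hτ₀
    have hrev : Continuous (fun y : Ph N => ((y.1, -y.2) : Ph N)) :=
      continuous_fst.prodMk continuous_snd.neg
    have hV₂' : (fun y : Ph N => ((y.1, -y.2) : Ph N)) ⁻¹' V₂ ∈ 𝓝 x :=
      hrev.continuousAt.preimage_mem_nhds hV₂
    obtain ⟨V, hVsub, hVo, hxV⟩ := mem_nhds_iff.mp (Filter.inter_mem hV₁ hV₂')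
    refine ⟨V, hVo, hxV, 1, ?_⟩
    intro t ht y hy hret
    have hTr := (htraj y hy.2).reverse t
    refine hno (fun s => ψ (φ (t - s) y))
      (fun s => (∫ r in (0:ℝ)..t, ψ (φ r y)) - ∫ r in (0:ℝ)..(t - s), ψ (φ r y))
      (fun s => ((φ (t - s) y).1, -(φ (t - s) y).2)) hTr (by simp) ?_ ?_ t (by linarith) ?_ ?_
    · intro s
      have h1 : HasDerivAt (fun s => t - s) (-1 : ℝ) s := by
        simpa using (hasDerivAt_id s).const_sub t
      have h2 := (hτd y hy.2 (t - s)).comp s h1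
      have h3 := h2.const_sub (∫ r in (0:ℝ)..t, ψ (φ r y))
      simp only [mul_neg, mul_one, neg_neg] at h3
      exact h3
    · simp only [sub_zero]
      exact (hVsub hret).2
    · simp only [sub_self, intervalIntegral.integral_same, sub_zero]
      exact hτlow y ⟨(hVsub hy.1).1, hy.2⟩ t ht.le
    · simp only [sub_self, (hφ y hy.2).1]
      exact (hVsub hy.1).2

end Pool.Agent.NBody
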