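import Mathlib
import Pool.Agent.NBody.Momentum
import Pool.Agent.NBody.Flow
import Pool.Agent.NBody.Tensor

/-!
Invariance of the wandering set, and the growth bound along nonwandering orbits.
-/

set_option autoImplicit false
open scoped RealInnerProductSpace
open Set Finset Filter Topology

namespace Pool.Agent.NBody

/-- the Newtonian vector field -/
noncomputable def field {N : ℕ} (m : Fin N → ℝ) (y : Ph N) : Ph N :=
  ((fun i => (m i)⁻¹ • y.2 i), (fun i => force m y.1 i))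

theorem contDiffAt_field {N : ℕ} (m : Fin N → ℝ) {x : Ph N} (hx : x ∈ NC N) :
    ContDiffAt ℝ 1 (field m) x := by
  unfold field
  apply ContDiffAt.prodMk
  · apply contDiffAt_pi.mpr
    intro i
    have h : ContDiff ℝ 1 (fun y : Ph N => y.2 i) :=
      (contDiff_apply ℝ V3 i).comp contDiff_snd
    exact (contDiff_const (c := (m i)⁻¹) |>.smul h).contDiffAt
  · apply contDiffAt_pi.mpr
    intro i
    unfold force
    apply ContDiffAt.sum
    intro j _
    by_cases hij : j = i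
    · subst hij
      simp only [sub_self, smul_zero]
      exact contDiffAt_const
    · have h1 : ContDiff ℝ 1 (fun y : Ph N => y.1 j - y.1 i) :=
        ((contDiff_apply ℝ V3 j).comp contDiff_fst).sub
          ((contDiff_apply ℝ V3 i).comp contDiff_fst)
      have hne : x.1 j - x.1 i ≠ 0 := sub_ne_zero.mpr (hx j i hij)
      have h2 : ContDiffAt ℝ 1 (fun y : Ph N => ‖y.1 j - y.1 i‖) x :=
        h1.contDiffAt.norm ℝ hne
      have h3 : ContDiffAt ℝ 1 (fun y : Ph N => m i * m j / ‖y.1 j - y.1 i‖ ^ 3) x :=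
        contDiffAt_const.div (h2.pow 3) (pow_ne_zero 3 (norm_ne_zero_iff.mpr hne))
      exact h3.smul h1.contDiffAt

theorem locLip_field {N : ℕ} (m : Fin N → ℝ) {ψ : Ph N → ℝ} (hψ : ContDiffOn ℝ 1 ψ (NC N)) :
    LocLip (fun y => ψ y • field m y) (NC N) := by
  intro x hx
  have h1 : ContDiffAt ℝ 1 ψ x := hψ.contDiffAt ((isOpen_NC N).mem_nhds hx)
  exact (h1.smul (contDiffAt_field m hx)).exists_lipschitzOnWith

/-- wandering points -/
def Wandering {W : Type*} [TopologicalSpace W] (S : Set W) (φ : ℝ → W → W) (x : W) : Prop :=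
  ∃ V : Set W, IsOpen V ∧ x ∈ V ∧ ∃ T : ℝ, ∀ t : ℝ, T < t → ∀ y ∈ V ∩ S, φ t y ∉ V

/-- If a state on the orbit of `x` is wandering, then so is `x`. -/
theorem wandering_of_orbit {W : Type*} [NormedAddCommGroup W] [NormedSpace ℝ W] {f : W → W}
    {Ω S : Set W} {φ : ℝ → W → W} (h : IsFlowOn f S φ) (hf : LocLip f Ω) (hS : S ⊆ Ω) {x : W}
    (hx : x ∈ S) {s : ℝ} (hw : Wandering S φ (φ s x)) : Wandering S φ x := by
  obtain ⟨V, hVo, hxV, T, hT⟩ := hw
  have hc := h.continuousOn hf hS s x hx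
  have h1 : φ s ⁻¹' V ∈ 𝓝[S] x := hc (hVo.mem_nhds hxV)
  obtain ⟨U, hUo, hxU, hU⟩ := mem_nhdsWithin.mp h1
  refine ⟨U, hUo, hxU, T, ?_⟩
  intro t ht y hy hret
  have h2 : φ s y ∈ V := hU ⟨hy.1, hy.2⟩
  have h3 : φ s (φ t y) ∈ V := hU ⟨hret, h.mem y hy.2 t⟩
  refine hT t ht (φ s y) ⟨h2, h.mem y hy.2 s⟩ ?_
  rw [← h.add hf hS hy.2, add_comm, h.add hf hS hy.2]
  exact h3

/-- hypotheses on the reduced flow, in the form used below -/
structure Setting {N : ℕ} (m : Fin N → ℝ) (S : Set (Ph N)) (ψ : Ph N → ℝ)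
    (φ : ℝ → Ph N → Ph N) : Prop where
  sub : S ⊆ NC N
  mom : ∀ x ∈ S, ∑ i, x.2 i = 0
  com : ∀ x ∈ S, ∑ i, m i • x.1 i = 0
  smooth : ContDiffOn ℝ 1 ψ (NC N)
  pos : ∀ x ∈ NC N, 0 < ψ x
  flow : ∀ x ∈ S, φ 0 x = x ∧ ∀ t : ℝ, φ t x ∈ S ∧
        HasDerivAt (fun s : ℝ => φ s x)
          (ψ (φ t x) • ((fun i => (m i)⁻¹ • (φ t x).2 i),
            (fun i => ∑ j, (m i * m j / ‖(φ t x).1 j - (φ t x).1 i‖ ^ 3) •
              ((φ t x).1 j - (φ t x).1 i)))) t

theorem Setting.isFlowOn {N : ℕ} {m : Fin N → ℝ} {S : Set (Ph N)} {ψ : Ph N → ℝ}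
    {φ : ℝ → Ph N → Ph N} (h : Setting m S ψ φ) : IsFlowOn (fun y => ψ y • field m y) S φ where
  zero := fun x hx => (h.flow x hx).1
  mem := fun x hx t => ((h.flow x hx).2 t).1
  der := fun x hx t => ((h.flow x hx).2 t).2

/-- If some state of the orbit has a fast subsystem, the point is wandering. -/
theorem wandering_of_momentum_orbit (N : ℕ) (m : Fin N → ℝ) (hm : ∀ i, 0 < m i) :
    ∃ C : ℝ, 0 < C ∧ ∀ (S : Set (Ph N)) (ψ : Ph N → ℝ) (φ : ℝ → Ph N → Ph N), Setting m S ψ φ →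
      ∀ x ∈ S, ∀ (s : ℝ) (A : Finset (Fin N)) (d : ℝ), 0 < d →
        (∀ i ∈ A, ∀ j ∉ A, d ≤ ‖(φ s x).1 i - (φ s x).1 j‖) →
        C < ‖∑ i ∈ A, (φ s x).2 i‖ ^ 2 * d → Wandering S φ x := by
  obtain ⟨C, hC, H⟩ := wandering_of_momentum N m hm
  refine ⟨C, hC, ?_⟩
  intro S ψ φ hset x hx s A d hd hA hCd
  have hw : Wandering S φ (φ s x) :=
    H S hset.sub hset.mom ψ φ hset.smooth.continuousOn hset.pos hset.flow (φ s x)
      (hset.isFlowOn.mem x hx s) A d hd hA hCd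
  exact wandering_of_orbit hset.isFlowOn (locLip_field m hset.smooth) hset.sub hx hw

/-- Tensor bound along nonwandering orbits. -/
theorem tensor_of_nonwandering (N : ℕ) (m : Fin N → ℝ) (hm : ∀ i, 0 < m i) :
    ∃ C : ℝ, 0 < C ∧ ∀ (S : Set (Ph N)) (ψ : Ph N → ℝ) (φ : ℝ → Ph N → Ph N), Setting m S ψ φ →
      ∀ x ∈ S, ¬ Wandering S φ x → ∀ (s : ℝ) (a b : Fin 3),
        (∑ i, (φ s x).1 i a * (φ s x).2 i b) ^ 2 ≤
          C * Real.sqrt (∑ i, m i * ‖(φ s x).1 i‖ ^ 2) := by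
  rcases Nat.eq_zero_or_pos N with hN | hN
  · subst hN
    exact ⟨1, one_pos, fun S ψ φ _ x _ _ s a b => by simp⟩
  have hNr : (0:ℝ) < N := by exact_mod_cast hN
  have : Nonempty (Fin N) := ⟨⟨0, hN⟩⟩
  obtain ⟨C, hC, H⟩ := wandering_of_momentum_orbit N m hm
  obtain ⟨i₀, hi₀⟩ := Finite.exists_min m
  refine ⟨2 * N ^ 3 * C / Real.sqrt (m i₀), by
    have := Real.sqrt_pos.mpr (hm i₀)
    positivity, ?_⟩
  intro S ψ φ hset x hx hnw s a b
  refine tensor_bound_size (hm i₀) hi₀ _ _ C hC.le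
    (hset.mom _ (hset.isFlowOn.mem x hx s)) ?_ a b
  intro A d hd hA
  by_contra hcon
  push Not at hcon
  exact hnw (H S ψ φ hset x hx s A d hd hA hcon)

/-- A nonwandering orbit changes its size at most at the parabolic rate. -/
theorem growth_of_nonwandering (N : ℕ) (m : Fin N → ℝ) (hm : ∀ i, 0 < m i) :
    ∃ C : ℝ, 0 < C ∧ ∀ (S : Set (Ph N)) (ψ : Ph N → ℝ) (φ : ℝ → Ph N → Ph N), Setting m S ψ φ →
      ∀ x ∈ S, ¬ Wandering S φ x → ∀ t : ℝ,
        |(∑ i, m i * ‖(φ t x).1 i‖ ^ 2) ^ (3 / 4 : ℝ) - (∑ i, m i * ‖x.1 i‖ ^ 2) ^ (3 / 4 : ℝ)| ≤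
          C * |∫ r in (0:ℝ)..t, ψ (φ r x)| := by
  obtain ⟨C, hC, H⟩ := tensor_of_nonwandering N m hm
  refine ⟨5 * Real.sqrt C, by positivity, ?_⟩
  intro S ψ φ hset x hx hnw t
  have htraj : IsTraj m (fun s => ψ (φ s x)) (fun s => φ s x) :=
    isTraj_of_flow hset.sub hset.smooth.continuousOn hset.pos hset.flow hx
  -- the size
  set I : ℝ → ℝ := fun s => ∑ i, m i * ‖(φ s x).1 i‖ ^ 2 with hI
  have hI0 : ∀ s, 0 ≤ I s := fun s => Finset.sum_nonneg (fun i _ => by
    have := hm i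
    positivity)
  have hIeq : I t = ∑ i, m i * ‖(φ t x).1 i‖ ^ 2 := rfl
  have hI00 : I 0 = ∑ i, m i * ‖x.1 i‖ ^ 2 := by
    rw [hI]
    simp only [(hset.flow x hx).1]
  rw [← hIeq, ← hI00]
  by_cases hN : ∀ i j : Fin N, i = j
  · -- at most one body: the size vanishes
    have hz : ∀ s, I s = 0 := by
      intro s
      rw [hI]
      apply Finset.sum_eq_zero
      intro i _
      have h1 := hset.com _ (hset.isFlowOn.mem x hx s)
      have h2 : ∑ j, m j • (φ s x).1 j = m i • (φ s x).1 i := by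
        apply Finset.sum_eq_single i
        · intro j _ hj
          exact absurd (hN j i) hj
        · intro h
          exact absurd (Finset.mem_univ i) h
      rw [h2] at h1
      rcases smul_eq_zero.mp h1 with h3 | h3
      · exact absurd h3 (hm i).ne'
      · rw [h3]
        simp
    rw [hz t, hz 0, sub_self, abs_zero]
    positivity
  push Not at hN
  obtain ⟨i₁, i₂, hi₁₂⟩ := hN
  have hIpos : ∀ s, 0 < I s := by
    intro s
    rcases (hI0 s).lt_or_eq with h | h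
    · exact h
    · exfalso
      have h1 : ∀ i ∈ Finset.univ, m i * ‖(φ s x).1 i‖ ^ 2 = 0 := by
        apply (Finset.sum_eq_zero_iff_of_nonneg (fun i _ => by
          have := hm i
          positivity)).mp
        exact h.symm
      have h2 : ∀ i, (φ s x).1 i = 0 := by
        intro i
        have h3 := h1 i (Finset.mem_univ i)
        rcases mul_eq_zero.mp h3 with h4 | h4
        · exact absurd h4 (hm i).ne'
        · exact norm_eq_zero.mp (pow_eq_zero_iff (two_ne_zero)|>.mp h4)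
      exact htraj.ncol s i₁ i₂ hi₁₂ (by
        show (φ s x).1 i₁ = (φ s x).1 i₂
        rw [h2, h2])
  -- derivative of the size
  have hIder : ∀ s, HasDerivAt I (ψ (φ s x) *
      (2 * ∑ a : Fin 3, ∑ i, (φ s x).1 i a * (φ s x).2 i a)) s := by
    intro s
    have h1 : ∀ i ∈ (Finset.univ : Finset (Fin N)),
        HasDerivAt (fun s => m i * ‖(φ s x).1 i‖ ^ 2)
          (m i * (2 * ⟪(φ s x).1 i, ψ (φ s x) • (m i)⁻¹ • (φ s x).2 i⟫)) s := by
      intro i _
      exact ((htraj.der_q i s).norm_sq).const_mul (m i)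
    have h2 := HasDerivAt.fun_sum h1
    have h3 : ∑ i, m i * (2 * ⟪(φ s x).1 i, ψ (φ s x) • (m i)⁻¹ • (φ s x).2 i⟫) =
        ψ (φ s x) * (2 * ∑ a : Fin 3, ∑ i, (φ s x).1 i a * (φ s x).2 i a) := by
      rw [Finset.sum_comm, Finset.mul_sum, Finset.mul_sum]
      apply Finset.sum_congr rfl
      intro i _
      rw [inner_smul_right, inner_smul_right, PiLp.inner_apply]
      have := (hm i).ne'
      have h4 : ∑ a : Fin 3, ⟪(φ s x).1 i a, (φ s x).2 i a⟫ =
          ∑ a : Fin 3, (φ s x).1 i a * (φ s x).2 i a := by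
        apply Finset.sum_congr rfl
        intro a _
        simp [mul_comm]
      rw [h4]
      field_simp
    rw [h3] at h2
    exact h2
  have hFder : ∀ s, HasDerivAt (fun s => I s ^ (3 / 4 : ℝ))
      ((ψ (φ s x) * (2 * ∑ a : Fin 3, ∑ i, (φ s x).1 i a * (φ s x).2 i a)) * (3 / 4 : ℝ) *
        I s ^ ((3 / 4 : ℝ) - 1)) s := fun s =>
    (hIder s).rpow_const (Or.inl (hIpos s).ne')
  have hbound : ∀ s, |(ψ (φ s x) * (2 * ∑ a : Fin 3, ∑ i, (φ s x).1 i a * (φ s x).2 i a)) *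
      (3 / 4 : ℝ) * I s ^ ((3 / 4 : ℝ) - 1)| ≤ 5 * Real.sqrt C * ψ (φ s x) := by
    intro s
    have hψs : 0 < ψ (φ s x) := htraj.pos s
    have h1 : ∀ a : Fin 3, |∑ i, (φ s x).1 i a * (φ s x).2 i a| ≤
        Real.sqrt C * I s ^ (1 / 4 : ℝ) := by
      intro a
      have h2 := H S ψ φ hset x hx hnw s a a
      have h3 := Real.abs_le_sqrt h2
      refine h3.trans (le_of_eq ?_)
      rw [Real.sqrt_mul hC.le]
      congr 1
      show Real.sqrt (Real.sqrt (I s)) = _
      rw [Real.sqrt_eq_rpow, Real.sqrt_eq_rpow, ← Real.rpow_mul (hI0 s)]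
      norm_num
    have h4 : |∑ a : Fin 3, ∑ i, (φ s x).1 i a * (φ s x).2 i a| ≤
        3 * (Real.sqrt C * I s ^ (1 / 4 : ℝ)) := by
      refine (Finset.abs_sum_le_sum_abs _ _).trans ?_
      refine (Finset.sum_le_sum (fun a _ => h1 a)).trans ?_
      simp
    rw [abs_mul, abs_mul, abs_mul, abs_mul, abs_of_pos hψs, abs_of_pos (by norm_num : (0:ℝ) < 2),
      abs_of_pos (by norm_num : (0:ℝ) < 3 / 4),
      abs_of_pos (Real.rpow_pos_of_pos (hIpos s) _)]
    have h5 : I s ^ (1 / 4 : ℝ) * I s ^ ((3 / 4 : ℝ) - 1) = 1 := by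
      rw [← Real.rpow_add (hIpos s)]
      norm_num
    have h6 : 0 < I s ^ ((3 / 4 : ℝ) - 1) := Real.rpow_pos_of_pos (hIpos s) _
    have h7 : 0 ≤ Real.sqrt C := Real.sqrt_nonneg C
    calc ψ (φ s x) * (2 * |∑ a : Fin 3, ∑ i, (φ s x).1 i a * (φ s x).2 i a|) * (3 / 4) *
          I s ^ ((3 / 4 : ℝ) - 1)
        ≤ ψ (φ s x) * (2 * (3 * (Real.sqrt C * I s ^ (1 / 4 : ℝ)))) * (3 / 4) *
          I s ^ ((3 / 4 : ℝ) - 1) := by gcongr
      _ = (9 / 2) * Real.sqrt C * ψ (φ s x) * (I s ^ (1 / 4 : ℝ) * I s ^ ((3 / 4 : ℝ) - 1)) := by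
          ring
      _ = (9 / 2) * Real.sqrt C * ψ (φ s x) := by rw [h5, mul_one]
      _ ≤ 5 * Real.sqrt C * ψ (φ s x) := by
          have : 0 ≤ Real.sqrt C * ψ (φ s x) := mul_nonneg h7 hψs.le
          nlinarith
  have hτd : ∀ s, HasDerivAt (fun s => ∫ r in (0:ℝ)..s, ψ (φ r x)) (ψ (φ s x)) s := by
    intro s
    exact intervalIntegral.integral_hasDerivAt_right
      (htraj.cont.intervalIntegrable _ _)
      (htraj.cont.stronglyMeasurableAtFilter _ _) htraj.cont.continuousAt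
  -- comparison on both sides
  have hup : Monotone (fun s => 5 * Real.sqrt C * (∫ r in (0:ℝ)..s, ψ (φ r x)) -
      I s ^ (3 / 4 : ℝ)) := by
    apply monotone_of_deriv_nonneg
    · intro s
      exact (((hτd s).const_mul (5 * Real.sqrt C)).sub (hFder s)).differentiableAt
    · intro s
      have hd : HasDerivAt (fun s => 5 * Real.sqrt C * (∫ r in (0:ℝ)..s, ψ (φ r x)) -
        I s ^ (3 / 4 : ℝ)) _ s := ((hτd s).const_mul (5 * Real.sqrt C)).sub (hFder s)
      rw [hd.deriv]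
      have := (abs_le.mp (hbound s)).2
      linarith
  have hdn : Monotone (fun s => 5 * Real.sqrt C * (∫ r in (0:ℝ)..s, ψ (φ r x)) +
      I s ^ (3 / 4 : ℝ)) := by
    apply monotone_of_deriv_nonneg
    · intro s
      exact (((hτd s).const_mul (5 * Real.sqrt C)).add (hFder s)).differentiableAt
    · intro s
      have hd : HasDerivAt (fun s => 5 * Real.sqrt C * (∫ r in (0:ℝ)..s, ψ (φ r x)) +
        I s ^ (3 / 4 : ℝ)) _ s := ((hτd s).const_mul (5 * Real.sqrt C)).add (hFder s)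
      rw [hd.deriv]
      have := (abs_le.mp (hbound s)).1
      linarith
  have hτmono : StrictMono (fun s => ∫ r in (0:ℝ)..s, ψ (φ r x)) :=
    strictMono_of_deriv_pos (fun s => by rw [(hτd s).deriv]; exact htraj.pos s)
  rcases le_total 0 t with h0 | h0
  · have h1 := hup h0
    have h2 := hdn h0
    have h3 := hτmono.monotone h0
    simp only [intervalIntegral.integral_same, mul_zero, zero_sub, zero_add] at h1 h2 h3
    rw [abs_of_nonneg h3, abs_le]
    constructor <;> linarith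
  · have h1 := hup h0
    have h2 := hdn h0
    have h3 := hτmono.monotone h0
    simp only [intervalIntegral.integral_same, mul_zero, zero_sub, zero_add] at h1 h2 h3
    rw [abs_of_nonpos h3, abs_le]
    constructor <;> linarith

end Pool.Agent.NBody
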