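import Mathlib
import Pool.Agent.NBody.Orbit
import Pool.Agent.NBody.En5
import Pool.Agent.NBody.En6
import Pool.Agent.NBody.En12

/-!
A priori bounds for nonwandering orbits: the field bound and the energy bound for all subsystems.
-/

set_option autoImplicit false
open scoped RealInnerProductSpace
open Set Finset Filter Topology

namespace Pool.Agent.NBody

/-- nonwandering orbits: every subsystem is at most parabolic -/
theorem star_of_nonwandering (N : ℕ) (m : Fin N → ℝ) (hm : ∀ i, 0 < m i) :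
    ∃ C : ℝ, 0 < C ∧ ∀ (S : Set (Ph N)) (ψ : Ph N → ℝ) (φ : ℝ → Ph N → Ph N), Setting m S ψ φ →
      ∀ x ∈ S, ¬ Wandering S φ x → ∀ s : ℝ, Star C (φ s x).1 (φ s x).2 := by
  obtain ⟨C, hC, H⟩ := wandering_of_momentum_orbit N m hm
  refine ⟨C, hC, ?_⟩
  intro S ψ φ hset x hx hnw s A d hd hA
  by_contra hcon
  push Not at hcon
  exact hnw (H S ψ φ hset x hx s A d hd hA hcon)

/-- The field bound. -/
theorem field_of_nonwandering (N : ℕ) (m : Fin N → ℝ) (hm : ∀ i, 0 < m i) :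
    ∃ C : ℝ, 0 < C ∧ ∀ (S : Set (Ph N)) (ψ : Ph N → ℝ) (φ : ℝ → Ph N → Ph N), Setting m S ψ φ →
      ∀ x ∈ S, ¬ Wandering S φ x → ∀ (s : ℝ) (a : Fin N → V3) (al la : ℝ), 0 ≤ al → 0 ≤ la →
        (∀ i, ‖a i‖ ≤ al) → (∀ i j, ‖a i - a j‖ ≤ la * ‖(φ s x).1 i - (φ s x).1 j‖) →
        (∑ i, ⟪(φ s x).2 i, a i⟫) ^ 2 ≤ C * al * la := by
  obtain ⟨C, hC, H⟩ := star_of_nonwandering N m hm
  refine ⟨4 * (4 ^ N) ^ 2 * (N * C) + 1, by positivity, ?_⟩
  intro S ψ φ hset x hx hnw s a al la hal hla hsup hlip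
  have h1 := field_bound_univ hC.le (H S ψ φ hset x hx hnw s) al la hal hla a hsup hlip
  have h2 : ∑ i, ⟪(φ s x).2 i, a i⟫ = ∑ i, ⟪a i, (φ s x).2 i⟫ :=
    Finset.sum_congr rfl (fun i _ => real_inner_comm _ _)
  rw [h2]
  refine h1.trans ?_
  have h3 : 0 ≤ al * la := mul_nonneg hal hla
  nlinarith

/-- Near both ends of an almost closed orbit segment all subsystems are at most parabolic. -/
theorem loop_star (N : ℕ) (m : Fin N → ℝ) (hm : ∀ i, 0 < m i) :
    ∃ C' : ℝ, 0 < C' ∧ ∀ (S : Set (Ph N)) (ψ : Ph N → ℝ) (φ : ℝ → Ph N → Ph N),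
      Setting m S ψ φ → ∀ x ∈ S, ¬ Wandering S φ x → ∀ T : ℝ, ∃ V ∈ 𝓝 x,
      ∀ y ∈ S, y ∈ V → ∀ b, 0 ≤ b → φ b y ∈ V → ∀ r ∈ Icc 0 b,
        (∫ u in (0:ℝ)..r, ψ (φ u y)) ≤ T ∨
          (∫ u in (0:ℝ)..b, ψ (φ u y)) - (∫ u in (0:ℝ)..r, ψ (φ u y)) ≤ T →
        Star C' (φ r y).1 (φ r y).2 := by
  obtain ⟨C₁, L, η', hC₁, hη', hL1, hL, hrat⟩ := exists_ratchet_quant m hm
  obtain ⟨C₂, hC₂, hstar⟩ := star_of_nonwandering N m hm
  set C : ℝ := max C₁ C₂ with hCdef
  have hC : 0 < C := hC₁.trans_le (le_max_left _ _)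
  refine ⟨C + 1, by linarith, ?_⟩
  intro S ψ φ hset x hx hnw T
  have hnc : ∀ i j, i ≠ j → x.1 i ≠ x.1 j := hset.sub hx
  have hψc : ContinuousAt ψ x :=
    hset.smooth.continuousOn.continuousAt ((isOpen_NC N).mem_nhds (hset.sub hx))
  have hψpos : 0 < ψ x := hset.pos x (hset.sub hx)
  have hst : Star C x.1 x.2 := by
    have h1 := hstar S ψ φ hset x hx hnw 0
    rw [(hset.flow x hx).1] at h1
    intro A d hd hA
    exact (h1 A d hd hA).trans (le_max_right _ _)
  have hrat' : ∀ x : (Fin N → V3) × (Fin N → V3), ∑ i, x.2 i = 0 → ∀ (A : Finset (Fin N)) (d : ℝ),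
        0 < d → (∀ i ∈ A, ∀ j ∉ A, d ≤ ‖x.1 i - x.1 j‖) → C < ‖∑ i ∈ A, x.2 i‖ ^ 2 * d →
        ∃ (e : V3) (s₀ κ₀ lam c : ℝ) (A₀ : Finset (Fin N)), ‖e‖ ≤ 1 ∧ 0 < κ₀ ∧ 0 < lam ∧
          η' * ‖∑ i ∈ A, x.2 i‖ ≤ c ∧
          (∀ B, B ≠ A₀ → fA m L e s₀ x.1 κ₀ B < fA m L e s₀ x.1 κ₀ A₀) ∧
          (c + 2 * (∑ i, m i) ^ 2 / (lam * κ₀) + nu L N N * lam < ∑ i ∈ A₀, ⟪x.2 i, e⟫ ∨
           c + 2 * (∑ i, m i) ^ 2 / (lam * κ₀) + nu L N N * lam < -∑ i ∈ A₀, ⟪x.2 i, e⟫) :=
    fun y hy A d hd hA hCd => hrat y hy A d hd hA ((le_max_left _ _).trans_lt hCd)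
  have hpx := hset.mom x hx
  obtain ⟨V₁, hV₁, H₁⟩ := loop_star_traj hm hC hη' hL1 hL hrat' (lt_add_one C) hnc hpx hst hψc
    hψpos T
  obtain ⟨V₂, hV₂, H₂⟩ := loop_star_traj hm hC hη' hL1 hL hrat' (lt_add_one C) (x₀ := rev x)
    (ψ := fun y => ψ (rev y)) hnc (by
      simp only [rev, Pi.neg_apply, Finset.sum_neg_distrib, neg_eq_zero]
      exact hpx) hst.neg (by
      apply ContinuousAt.comp _ continuous_rev.continuousAt
      rw [rev_rev]
      exact hψc) (by simp only [rev_rev]; exact hψpos) T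
  have hV₂' : rev ⁻¹' V₂ ∈ 𝓝 x := continuous_rev.continuousAt.preimage_mem_nhds hV₂
  refine ⟨V₁ ∩ rev ⁻¹' V₂, Filter.inter_mem hV₁ hV₂', ?_⟩
  intro y hy hyV b hb hbV r hr hT
  have htraj : IsTraj m (fun s => ψ (φ s y)) (fun s => φ s y) :=
    isTraj_of_flow hset.sub hset.smooth.continuousOn hset.pos hset.flow hy
  have hτd : ∀ s, HasDerivAt (fun s => ∫ r in (0:ℝ)..s, ψ (φ r y)) (ψ (φ s y)) s := by
    intro s
    exact intervalIntegral.integral_hasDerivAt_right
      (htraj.cont.intervalIntegrable _ _)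
      (htraj.cont.stronglyMeasurableAtFilter _ _) htraj.cont.continuousAt
  have hmom : ∀ s, ∑ i, (φ s y).2 i = 0 := fun s => hset.mom _ (hset.isFlowOn.mem y hy s)
  have hy0 : φ 0 y = y := (hset.flow y hy).1
  rcases hT with hT | hT
  · exact H₁ _ _ _ htraj (fun s => rfl) hτd hmom 0 b hb (by simp only [hy0]; exact hyV.1)
      hbV.1 r hr (by simp only [intervalIntegral.integral_same, sub_zero]; exact hT)
  · have hτ' : ∀ s, HasDerivAt (fun s => -∫ r in (0:ℝ)..(b - s), ψ (φ r y)) (ψ (φ (b - s) y)) s := by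
      intro s
      have h1 : HasDerivAt (fun s => b - s) (-1 : ℝ) s := by
        simpa using (hasDerivAt_id s).const_sub b
      have h2 := ((hτd (b - s)).comp s h1).neg
      simp only [mul_neg, mul_one, neg_neg] at h2
      exact h2
    have h1 := H₂ (fun s => ψ (φ (b - s) y)) (fun s => -∫ r in (0:ℝ)..(b - s), ψ (φ r y))
      (fun s => rev (φ (b - s) y)) (htraj.reverse b)
      (fun s => by simp only [rev_rev]) hτ'
      (fun s => by
        simp only [rev, Pi.neg_apply, Finset.sum_neg_distrib, neg_eq_zero]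
        exact hmom _) 0 b hb (by simpa using hbV.2) (by simpa [hy0] using hyV.2) (b - r)
      ⟨by linarith [hr.2], by linarith [hr.1]⟩ (by
        simp only [sub_sub_cancel, sub_zero]
        linarith)
    simp only [sub_sub_cancel] at h1
    have h2 := h1.neg
    simp only [rev, neg_neg] at h2
    exact h2

/-- The energy of an isolated cluster of a nonwandering state. -/
theorem cluster_of_nonwandering (N : ℕ) (m : Fin N → ℝ) (hm : ∀ i, 0 < m i) :
    ∃ C : ℝ, 0 < C ∧ ∀ (S : Set (Ph N)) (ψ : Ph N → ℝ) (φ : ℝ → Ph N → Ph N),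
      Setting m S ψ φ → ∀ x ∈ S, ¬ Wandering S φ x →
      ∀ (B : Finset (Fin N)) (c : V3) (D : ℝ), 0 < D → (∀ i ∈ B, ‖x.1 i - c‖ ≤ D) →
      (∀ i ∉ B, 11 * D ≤ ‖x.1 i - c‖) → enA m B x ≤ C / D := by
  obtain ⟨C', hC', hloop⟩ := loop_star N m hm
  obtain ⟨κ, C₂, K₂, hκ, hC₂, hK₂, hKC, hcore⟩ := core_forward hm C'
  refine ⟨2 * C₂, by positivity, ?_⟩
  intro S ψ φ hset x hx hnw B c D hD hB hB'
  by_contra hcon
  push Not at hcon
  have hnc : ∀ i j, i ≠ j → x.1 i ≠ x.1 j := hset.sub hx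
  have hψc : ContinuousAt ψ x :=
    hset.smooth.continuousOn.continuousAt ((isOpen_NC N).mem_nhds (hset.sub hx))
  have hψpos : 0 < ψ x := hset.pos x (hset.sub hx)
  set D' : ℝ := 21 / 20 * D with hD'
  have hD'pos : 0 < D' := by positivity
  have hDD' : D < D' := by rw [hD']; linarith
  have hsD : √D ≤ √D' := Real.sqrt_le_sqrt hDD'.le
  have hsDpos : 0 < √D := Real.sqrt_pos.mpr hD
  set T : ℝ := κ * (D' * √D') with hTdef
  obtain ⟨V₀, hV₀, hstar⟩ := hloop S ψ φ hset x hx hnw T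
  obtain ⟨V₁, hV₁, τ₀, hτ₀, hclock⟩ := clock_lower (m := m) hnc hψc hψpos
  -- continuity of positions, energy and virial
  have hposc : ∀ i, ContinuousAt (fun y : Ph N => ‖y.1 i - c‖) x := fun i =>
    ((((continuous_apply i).comp continuous_fst).sub continuous_const).norm).continuousAt
  have hV₂ : ∀ᶠ y in 𝓝 x, ∀ i, i ∈ B → ‖y.1 i - c‖ ≤ D' := by
    apply eventually_all.mpr
    intro i
    by_cases hi : i ∈ B
    · filter_upwards [(hposc i).eventually (gt_mem_nhds ((hB i hi).trans_lt hDD'))] with y hy _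
        using hy.le
    · exact Eventually.of_forall (fun y h => absurd h hi)
  have hV₃ : ∀ᶠ y in 𝓝 x, ∀ i, i ∉ B → 10 * D' ≤ ‖y.1 i - c‖ := by
    apply eventually_all.mpr
    intro i
    by_cases hi : i ∈ B
    · exact Eventually.of_forall (fun y h => absurd hi h)
    · have h1 : 10 * D' < ‖x.1 i - c‖ := by
        have := hB' i hi
        rw [hD']; linarith
      filter_upwards [(hposc i).eventually (lt_mem_nhds h1)] with y hy _ using hy.le
  have hencont : ContinuousAt (fun y : Ph N => enA m B y) x := by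
    unfold enA
    apply ContinuousAt.sub
    · apply tendsto_finsetSum
      intro i _
      have h : Continuous (fun y : Ph N => ‖y.2 i‖ ^ 2 / (2 * m i)) :=
        ((((continuous_apply i).comp continuous_snd).norm).pow 2).div_const _
      exact h.continuousAt
    · apply tendsto_finsetSum
      intro i _
      apply tendsto_finsetSum
      intro j _
      by_cases hij : i = j
      · subst hij
        simp only [sub_self, norm_zero, div_zero, zero_div]
        exact tendsto_const_nhds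
      · have h : Continuous (fun y : Ph N => ‖y.1 i - y.1 j‖) :=
          (((continuous_apply i).comp continuous_fst).sub
            ((continuous_apply j).comp continuous_fst)).norm
        have h2 : ‖x.1 i - x.1 j‖ ≠ 0 := norm_ne_zero_iff.mpr (sub_ne_zero.mpr (hnc i j hij))
        exact (continuousAt_const.div h.continuousAt h2).div_const 2
  have hV₄ : ∀ᶠ y in 𝓝 x, C₂ / D < enA m B y := by
    have h1 : C₂ / D < enA m B x := by
      have h2 : C₂ / D < 2 * C₂ / D := by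
        apply div_lt_div_of_pos_right _ hD
        linarith
      linarith
    exact hencont.eventually (lt_mem_nhds h1)
  have hvircont : ContinuousAt (fun y : Ph N => virA B c y) x := by
    unfold virA
    apply tendsto_finsetSum
    intro i _
    have h : Continuous (fun y : Ph N => ⟪y.1 i - c, y.2 i⟫) :=
      (((continuous_apply i).comp continuous_fst).sub continuous_const).inner
        ((continuous_apply i).comp continuous_snd)
    exact h.continuousAt
  set ε : ℝ := min (√D) ((C₂ - K₂) / D' * τ₀ / 2) with hε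
  have hεpos : 0 < ε := by
    apply lt_min hsDpos
    have : 0 < C₂ - K₂ := by linarith
    positivity
  have hV₅ : ∀ᶠ y in 𝓝 x, |virA B c y - virA B c x| < ε := by
    have h2 := Metric.tendsto_nhds.mp hvircont ε hεpos
    simpa [Real.dist_eq] using h2
  -- a returning orbit
  obtain ⟨V, hVsub, hVo, hxV⟩ := mem_nhds_iff.mp
    (Filter.inter_mem (Filter.inter_mem hV₀ hV₁)
      (Filter.inter_mem (Filter.inter_mem hV₂ hV₃) (Filter.inter_mem hV₄ hV₅)))
  obtain ⟨b, hb, y, hy, hyb⟩ : ∃ b : ℝ, 1 < b ∧ ∃ y ∈ V ∩ S, φ b y ∈ V := by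
    by_contra hno
    push Not at hno
    exact hnw ⟨V, hVo, hxV, 1, fun t ht y hy => hno t ht y hy⟩
  obtain ⟨⟨hy0, hy1⟩, ⟨hy2, hy3⟩, hy4, hy5⟩ := hVsub hy.1
  obtain ⟨⟨hz0, hz1⟩, ⟨hz2, hz3⟩, hz4, hz5⟩ := hVsub hyb
  have hb0 : (0:ℝ) ≤ b := by linarith
  have htraj : IsTraj m (fun s => ψ (φ s y)) (fun s => φ s y) :=
    isTraj_of_flow hset.sub hset.smooth.continuousOn hset.pos hset.flow hy.2
  have hτd : ∀ s, HasDerivAt (fun s => ∫ r in (0:ℝ)..s, ψ (φ r y)) (ψ (φ s y)) s := by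
    intro s
    exact intervalIntegral.integral_hasDerivAt_right
      (htraj.cont.intervalIntegrable _ _)
      (htraj.cont.stronglyMeasurableAtFilter _ _) htraj.cont.continuousAt
  obtain ⟨τ, hτeq⟩ : ∃ τ : ℝ → ℝ, τ = fun s => ∫ r in (0:ℝ)..s, ψ (φ r y) := ⟨_, rfl⟩
  have hτ : ∀ s, HasDerivAt τ (ψ (φ s y)) s := by rw [hτeq]; exact hτd
  have hτ0 : τ 0 = 0 := by rw [hτeq]; simp
  have hφ0 : φ 0 y = y := (hset.flow y hy.2).1
  have hτm := clock_strictMono hτ htraj.pos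
  have hτc : Continuous τ := continuous_iff_continuousAt.mpr (fun s => (hτ s).continuousAt)
  have hτb : τ₀ ≤ τ b := hclock _ τ _ htraj (fun s => rfl) hτ0 hτ
    (by simp only [hφ0]; exact hy1) b hb.le
  have hst : ∀ r ∈ Icc 0 b, τ r ≤ T ∨ τ b - τ r ≤ T → Star C' (φ r y).1 (φ r y).2 := by
    rw [hτeq]
    exact hstar y hy.2 hy0 b hb0 hz0
  have hcoreF := hcore (fun s => ψ (φ s y)) τ (fun s => φ s y) htraj hτ
  -- smaller than the threshold
  have hCD : C₂ / D' ≤ C₂ / D := div_le_div_of_nonneg_left hC₂.le hD hDD'.le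
  rcases le_total (τ b) T with hTb | hTb
  · -- a short return
    have h1 := (hcoreF 0 b hb0 (fun s hs => hst s hs (Or.inl ((hτm.monotone hs.2).trans hTb))) c D'
      hD'pos B (by simp only [hφ0]; exact hy2) (by simp only [hφ0]; exact hy3)).2
      (by rw [hτ0, sub_zero]; exact hTb)
    simp only [hφ0, hτ0, sub_zero] at h1
    have h2 : (C₂ - K₂) / D' * τ₀ ≤ (enA m B y - K₂ / D') * τ b := by
      have h3 : (C₂ - K₂) / D' ≤ enA m B y - K₂ / D' := by
        have : (C₂ - K₂) / D' = C₂ / D' - K₂ / D' := by ring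
        rw [this]
        linarith [show C₂ / D < enA m B y from hy4]
      have h4 : 0 ≤ (C₂ - K₂) / D' := div_nonneg (by linarith) hD'pos.le
      exact mul_le_mul h3 hτb hτ₀.le (h4.trans h3)
    have h5 := abs_lt.mp (show |virA B c y - virA B c x| < ε from hy5)
    have h6 := abs_lt.mp (show |virA B c (φ b y) - virA B c x| < ε from hz5)
    have h7 : ε ≤ (C₂ - K₂) / D' * τ₀ / 2 := min_le_right _ _
    linarith [h5.1, h6.2]
  · -- a long return
    have hT0 : 0 ≤ T := by rw [hTdef]; positivity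
    rcases le_total 0 (virA B c x) with hv | hv
    · obtain ⟨s₂, hs₂, hτs₂⟩ : ∃ s₂ ∈ Icc 0 b, τ s₂ = T := by
        have h1 := intermediate_value_Icc hb0 hτc.continuousOn
        obtain ⟨s, h3, h4⟩ := h1 (show T ∈ Icc (τ 0) (τ b) from ⟨by rw [hτ0]; exact hT0, hTb⟩)
        exact ⟨s, h3, h4⟩
      have h1 := (hcoreF 0 s₂ hs₂.1 (fun s hs => hst s ⟨hs.1, hs.2.trans hs₂.2⟩
        (Or.inl ((hτm.monotone hs.2).trans hτs₂.le))) c D'
        hD'pos B (by simp only [hφ0]; exact hy2) (by simp only [hφ0]; exact hy3)).1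
        (by rw [hτ0, sub_zero, hτs₂]) (by
          simp only [hφ0]
          have h5 := abs_lt.mp (show |virA B c y - virA B c x| < ε from hy5)
          have h6 : ε ≤ √D := min_le_left _ _
          linarith [h5.1])
      simp only [hφ0] at h1
      linarith [show C₂ / D < enA m B y from hy4]
    · obtain ⟨s₁, hs₁, hτs₁⟩ : ∃ s₁ ∈ Icc 0 b, τ s₁ = τ b - T := by
        have h1 := intermediate_value_Icc hb0 hτc.continuousOn
        obtain ⟨s, h3, h4⟩ := h1 (show τ b - T ∈ Icc (τ 0) (τ b) from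
          ⟨by rw [hτ0]; linarith, by linarith⟩)
        exact ⟨s, h3, h4⟩
      have h1 := core_backward (m := m) (C := C') (κ := κ) (C₂ := C₂)
        (fun σ τ x hx hτ s₁ s₂ h12 hS c D hD A hA hA' =>
          (hcore σ τ x hx hτ s₁ s₂ h12 hS c D hD A hA hA').1)
        htraj hτ hs₁.2 (fun s hs => hst s ⟨hs₁.1.trans hs.1, hs.2⟩ (Or.inr (by
          have := hτm.monotone hs.1
          linarith))) (c := c) hD'pos (A := B) hz2 hz3 (by rw [hτs₁]; linarith) (by
          have h5 := abs_lt.mp (show |virA B c (φ b y) - virA B c x| < ε from hz5)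
          have h6 : ε ≤ √D := min_le_left _ _
          linarith [h5.2])
      linarith [show C₂ / D < enA m B (φ b y) from hz4]

/-- The energy bound: on a nonwandering orbit every subsystem `A` at distance `d` from the others
has energy between `E - C / d` and `C / d`. -/
theorem energy_of_nonwandering (N : ℕ) (m : Fin N → ℝ) (hm : ∀ i, 0 < m i) :
    ∃ C : ℝ, 0 < C ∧ ∀ (E : ℝ) (S : Set (Ph N)) (ψ : Ph N → ℝ) (φ : ℝ → Ph N → Ph N),
      Setting m S ψ φ →
      (∀ x ∈ S, ∑ i, ‖x.2 i‖ ^ 2 / (2 * m i) -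
        ∑ i, ∑ j, m i * m j / ‖x.1 i - x.1 j‖ / 2 = E) →
      ∀ x ∈ S, ¬ Wandering S φ x →
        ∀ (s : ℝ) (A : Finset (Fin N)) (d : ℝ), 0 < d →
          (∀ i ∈ A, ∀ j ∉ A, d ≤ ‖(φ s x).1 i - (φ s x).1 j‖) →
          E - C / d ≤ ∑ i ∈ A, ‖(φ s x).2 i‖ ^ 2 / (2 * m i) -
            ∑ i ∈ A, ∑ j ∈ A, m i * m j / ‖(φ s x).1 i - (φ s x).1 j‖ / 2 ∧
          ∑ i ∈ A, ‖(φ s x).2 i‖ ^ 2 / (2 * m i) -
            ∑ i ∈ A, ∑ j ∈ A, m i * m j / ‖(φ s x).1 i - (φ s x).1 j‖ / 2 ≤ C / d := by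
  rcases Nat.eq_zero_or_pos N with hN | hN
  · subst hN
    refine ⟨1, one_pos, ?_⟩
    intro E S ψ φ hset hE x hx hnw s A d hd hA
    have hA0 : A = ∅ := Finset.eq_empty_of_isEmpty A
    have hE0 := hE x hx
    simp at hE0
    subst hA0
    simp only [Finset.sum_empty, sub_zero]
    rw [← hE0]
    have : 0 < 1 / d := by positivity
    exact ⟨by linarith, this.le⟩
  obtain ⟨C, hC, H⟩ := cluster_of_nonwandering N m hm
  refine ⟨11 * C * (22 * N) ^ N, by positivity, ?_⟩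
  intro E S ψ φ hset hE x hx hnw s A d hd hA
  have hxs : φ s x ∈ S := hset.isFlowOn.mem x hx s
  have hnws : ¬ Wandering S φ (φ s x) := fun hw =>
    hnw (wandering_of_orbit hset.isFlowOn (locLip_field m hset.smooth) hset.sub hx hw)
  have hup : ∀ (A : Finset (Fin N)) (d : ℝ), 0 < d →
      (∀ i ∈ A, ∀ j ∉ A, d ≤ ‖(φ s x).1 i - (φ s x).1 j‖) →
      enA m A (φ s x) ≤ 11 * C * (22 * N) ^ N / d := fun A d hd hA =>
    energy_reduction hN hm hC.le (fun B c D hD hB hB' =>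
      H S ψ φ hset (φ s x) hxs hnws B c D hD hB hB') N A (by simpa using Finset.card_le_univ A)
      d hd hA
  have h1 := hup A d hd hA
  have h2 := enA_lower hm (hup Aᶜ d hd (fun i hi j hj => by
    rw [norm_sub_rev]
    exact hA j (by simpa using hj) i (Finset.mem_compl.mp hi)))
  have h3 : enA m Finset.univ (φ s x) = E := hE _ hxs
  rw [h3] at h2
  exact ⟨h2, h1⟩

end Pool.Agent.NBody
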