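import Mathlib
import Pool.Agent.NBody.Orbit

/-!
Near infinity the wandering set is dense at a small scale.
-/

set_option autoImplicit false
open scoped RealInnerProductSpace
open Set Finset Filter Topology

namespace Pool.Agent.NBody

/-- kinetic energy -/
noncomputable def kin {N : ℕ} (m : Fin N → ℝ) (p : Fin N → V3) : ℝ := ∑ i, ‖p i‖ ^ 2 / (2 * m i)

/-- the force function (minus the potential energy) -/
noncomputable def pot {N : ℕ} (m : Fin N → ℝ) (q : Fin N → V3) : ℝ :=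
  ∑ i, ∑ j, m i * m j / ‖q i - q j‖ / 2

/-- Selection of an isolated inner cluster containing two given close bodies. -/
theorem select_cluster {N : ℕ} (q : Fin N → V3) (i j : Fin N) (L : ℝ) (hL : 1 ≤ L) :
    ∀ (n : ℕ) (T : Finset (Fin N)) (a : ℝ), Tᶜ.card = n → 0 < a → i ∈ T → j ∈ T →
      (∀ k ∈ T, ∀ l ∈ T, ‖q k - q l‖ ≤ a) →
      ∃ (T' : Finset (Fin N)) (a' : ℝ), 0 < a' ∧ a' ≤ (1 + L) ^ n * a ∧ i ∈ T' ∧ j ∈ T' ∧
        (∀ k ∈ T', ∀ l ∈ T', ‖q k - q l‖ ≤ a') ∧ (∀ k ∈ T', ∀ l ∉ T', L * a' ≤ ‖q k - q l‖) := by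
  intro n
  induction n with
  | zero =>
    intro T a hT ha hi hj hd
    refine ⟨T, a, ha, by simp, hi, hj, hd, ?_⟩
    intro k _ l hl
    rw [Finset.card_eq_zero, Finset.compl_eq_empty_iff] at hT
    rw [hT] at hl
    exact absurd (Finset.mem_univ l) hl
  | succ n ih =>
    intro T a hT ha hi hj hd
    by_cases hsep : ∀ k ∈ T, ∀ l ∉ T, L * a ≤ ‖q k - q l‖
    · refine ⟨T, a, ha, ?_, hi, hj, hd, hsep⟩
      have h1 : (1:ℝ) ≤ (1 + L) ^ (n + 1) := one_le_pow₀ (by linarith)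
      nlinarith
    · push Not at hsep
      obtain ⟨k, hk, l, hl, hkl⟩ := hsep
      have hcard : (insert l T)ᶜ.card = n := by
        have h1 : (insert l T)ᶜ = Tᶜ.erase l := by
          ext z
          simp only [Finset.mem_compl, Finset.mem_insert, Finset.mem_erase]
          tauto
        rw [h1, Finset.card_erase_of_mem (Finset.mem_compl.mpr hl), hT]
        rfl
      have hnew : ∀ z ∈ insert l T, ∀ w ∈ insert l T, ‖q z - q w‖ ≤ (1 + L) * a := by
        have h2 : ∀ z ∈ T, ‖q z - q l‖ ≤ (1 + L) * a := by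
          intro z hz
          calc ‖q z - q l‖ = ‖(q z - q k) + (q k - q l)‖ := by congr 1; abel
            _ ≤ ‖q z - q k‖ + ‖q k - q l‖ := norm_add_le _ _
            _ ≤ (1 + L) * a := by
              have := hd z hz k hk
              linarith
        intro z hz w hw
        rcases Finset.mem_insert.mp hz with rfl | hz'
        · rcases Finset.mem_insert.mp hw with rfl | hw'
          · rw [sub_self, norm_zero]; positivity
          · rw [norm_sub_rev]; exact h2 w hw'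
        · rcases Finset.mem_insert.mp hw with rfl | hw'
          · exact h2 z hz'
          · have := hd z hz' w hw'
            nlinarith
      obtain ⟨T', a', ha', hle, hi', hj', hd', hs'⟩ := ih (insert l T) ((1 + L) * a) hcard
        (by positivity) (Finset.mem_insert_of_mem hi) (Finset.mem_insert_of_mem hj) hnew
      refine ⟨T', a', ha', hle.trans (le_of_eq ?_), hi', hj', hd', hs'⟩
      rw [pow_succ]; ring

/-- boosting the group `A` against the rest -/
noncomputable def boost {N : ℕ} (m : Fin N → ℝ) (A : Finset (Fin N)) (b : ℝ) (w : V3)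
    (p : Fin N → V3) (i : Fin N) : V3 :=
  p i + (m i * (if i ∈ A then b / ∑ k ∈ A, m k else -(b / ∑ k ∈ Aᶜ, m k))) • w

theorem sum_boost_A {N : ℕ} {m : Fin N → ℝ} (hm : ∀ i, 0 < m i) {A : Finset (Fin N)}
    (hA : A.Nonempty) (b : ℝ) (w : V3) (p : Fin N → V3) :
    ∑ i ∈ A, boost m A b w p i = ∑ i ∈ A, p i + b • w := by
  have hpos : 0 < ∑ k ∈ A, m k := Finset.sum_pos (fun i _ => hm i) hA
  unfold boost
  rw [Finset.sum_add_distrib, ← Finset.sum_smul]
  congr 2
  have h1 : ∑ i ∈ A, m i * (if i ∈ A then b / ∑ k ∈ A, m k else -(b / ∑ k ∈ Aᶜ, m k)) =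
      ∑ i ∈ A, m i * (b / ∑ k ∈ A, m k) := by
    apply Finset.sum_congr rfl
    intro i hi
    rw [if_pos hi]
  rw [h1, ← Finset.sum_mul]
  field_simp

theorem sum_boost_compl {N : ℕ} {m : Fin N → ℝ} (hm : ∀ i, 0 < m i) {A : Finset (Fin N)}
    (hA : Aᶜ.Nonempty) (b : ℝ) (w : V3) (p : Fin N → V3) :
    ∑ i ∈ Aᶜ, boost m A b w p i = ∑ i ∈ Aᶜ, p i - b • w := by
  have hpos : 0 < ∑ k ∈ Aᶜ, m k := Finset.sum_pos (fun i _ => hm i) hA
  unfold boost
  rw [Finset.sum_add_distrib, ← Finset.sum_smul, sub_eq_add_neg, ← neg_smul]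
  congr 2
  have h1 : ∑ i ∈ Aᶜ, m i * (if i ∈ A then b / ∑ k ∈ A, m k else -(b / ∑ k ∈ Aᶜ, m k)) =
      ∑ i ∈ Aᶜ, m i * (-(b / ∑ k ∈ Aᶜ, m k)) := by
    apply Finset.sum_congr rfl
    intro i hi
    rw [if_neg (Finset.mem_compl.mp hi)]
  rw [h1, ← Finset.sum_mul]
  field_simp

theorem sum_boost {N : ℕ} {m : Fin N → ℝ} (hm : ∀ i, 0 < m i) {A : Finset (Fin N)}
    (hA : A.Nonempty) (hAc : Aᶜ.Nonempty) (b : ℝ) (w : V3) (p : Fin N → V3) :
    ∑ i, boost m A b w p i = ∑ i, p i := by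
  rw [← Finset.sum_add_sum_compl A, sum_boost_A hm hA, sum_boost_compl hm hAc,
    ← Finset.sum_add_sum_compl A p]
  abel

theorem kin_boost {N : ℕ} {m : Fin N → ℝ} (hm : ∀ i, 0 < m i) {A : Finset (Fin N)}
    (hA : A.Nonempty) (hAc : Aᶜ.Nonempty) (b : ℝ) {w : V3} (hw : ‖w‖ = 1) (p : Fin N → V3)
    (hp : ∑ i, p i = 0) :
    kin m (boost m A b w p) = kin m p +
      (b * ⟪∑ i ∈ A, p i, w⟫ + b ^ 2 / 2) * (1 / ∑ k ∈ A, m k + 1 / ∑ k ∈ Aᶜ, m k) := by
  have hpos : 0 < ∑ k ∈ A, m k := Finset.sum_pos (fun i _ => hm i) hA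
  have hposc : 0 < ∑ k ∈ Aᶜ, m k := Finset.sum_pos (fun i _ => hm i) hAc
  set mA : ℝ := ∑ k ∈ A, m k with hmA
  set mB : ℝ := ∑ k ∈ Aᶜ, m k with hmB
  have h1 : ∀ (i : Fin N) (c : ℝ), ‖p i + (m i * c) • w‖ ^ 2 / (2 * m i) =
      ‖p i‖ ^ 2 / (2 * m i) + (c * ⟪p i, w⟫ + m i * (c ^ 2 / 2)) := by
    intro i c
    rw [@norm_add_sq_real, inner_smul_right, norm_smul, hw, mul_one, Real.norm_eq_abs, sq_abs]
    have := (hm i).ne'
    field_simp
    ring
  have hA1 : ∑ i ∈ A, ‖boost m A b w p i‖ ^ 2 / (2 * m i) =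
      ∑ i ∈ A, ‖p i‖ ^ 2 / (2 * m i) + (b / mA * ⟪∑ i ∈ A, p i, w⟫ + mA * ((b / mA) ^ 2 / 2)) := by
    have h2 : ∑ i ∈ A, ‖boost m A b w p i‖ ^ 2 / (2 * m i) =
        ∑ i ∈ A, (‖p i‖ ^ 2 / (2 * m i) + (b / mA * ⟪p i, w⟫ + m i * ((b / mA) ^ 2 / 2))) := by
      apply Finset.sum_congr rfl
      intro i hi
      unfold boost
      rw [if_pos hi, h1]
    rw [h2, Finset.sum_add_distrib, Finset.sum_add_distrib, ← Finset.mul_sum, ← Finset.sum_mul,
      sum_inner]
  have hB1 : ∑ i ∈ Aᶜ, ‖boost m A b w p i‖ ^ 2 / (2 * m i) =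
      ∑ i ∈ Aᶜ, ‖p i‖ ^ 2 / (2 * m i) +
        (-(b / mB) * ⟪∑ i ∈ Aᶜ, p i, w⟫ + mB * ((-(b / mB)) ^ 2 / 2)) := by
    have h2 : ∑ i ∈ Aᶜ, ‖boost m A b w p i‖ ^ 2 / (2 * m i) =
        ∑ i ∈ Aᶜ, (‖p i‖ ^ 2 / (2 * m i) + (-(b / mB) * ⟪p i, w⟫ +
          m i * ((-(b / mB)) ^ 2 / 2))) := by
      apply Finset.sum_congr rfl
      intro i hi
      unfold boost
      rw [if_neg (Finset.mem_compl.mp hi), h1]
    rw [h2, Finset.sum_add_distrib, Finset.sum_add_distrib, ← Finset.mul_sum, ← Finset.sum_mul,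
      sum_inner]
  have hPB : ∑ i ∈ Aᶜ, p i = -∑ i ∈ A, p i := by
    rw [← Finset.sum_add_sum_compl A p] at hp
    exact eq_neg_of_add_eq_zero_right hp
  unfold kin
  rw [← Finset.sum_add_sum_compl A, ← Finset.sum_add_sum_compl A (fun i => ‖p i‖ ^ 2 / (2 * m i)),
    hA1, hB1, hPB, inner_neg_left]
  field_simp
  ring

/-- shrinking the cluster `T` towards the point `c` -/
noncomputable def shrink {N : ℕ} (T : Finset (Fin N)) (c : V3) (q : Fin N → V3) (δ : ℝ)
    (k : Fin N) : V3 :=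
  if k ∈ T then c + (1 - δ) • (q k - c) else q k

theorem shrink_sub_self {N : ℕ} {T : Finset (Fin N)} {c : V3} {q : Fin N → V3} {a δ : ℝ}
    (hδ : 0 ≤ δ) (ha : 0 ≤ a) (hc : ∀ k ∈ T, ‖q k - c‖ ≤ a) (k : Fin N) :
    ‖shrink T c q δ k - q k‖ ≤ δ * a := by
  unfold shrink
  split_ifs with hk
  · have h1 : c + (1 - δ) • (q k - c) - q k = (-δ) • (q k - c) := by
      rw [sub_smul, one_smul, neg_smul]; abel
    rw [h1, norm_smul, norm_neg, Real.norm_of_nonneg hδ]
    exact mul_le_mul_of_nonneg_left (hc k hk) hδ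
  · rw [sub_self, norm_zero]; positivity

theorem shrink_mem_mem {N : ℕ} {T : Finset (Fin N)} {c : V3} {q : Fin N → V3} {δ : ℝ}
    (hδ : δ ≤ 1) {k l : Fin N} (hk : k ∈ T) (hl : l ∈ T) :
    ‖shrink T c q δ k - shrink T c q δ l‖ = (1 - δ) * ‖q k - q l‖ := by
  unfold shrink
  rw [if_pos hk, if_pos hl]
  have h1 : c + (1 - δ) • (q k - c) - (c + (1 - δ) • (q l - c)) = (1 - δ) • (q k - q l) := by
    rw [add_sub_add_left_eq_sub, ← smul_sub]
    congr 1
    abel
  rw [h1, norm_smul, Real.norm_of_nonneg (by linarith)]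

theorem shrink_mem_notMem {N : ℕ} {T : Finset (Fin N)} {c : V3} {q : Fin N → V3} {a δ L : ℝ}
    (hδ : 0 ≤ δ) (hδ1 : δ ≤ 1) (ha : 0 < a) (hc : ∀ k ∈ T, ‖q k - c‖ ≤ a)
    (hL : ∀ k ∈ T, ∀ l ∉ T, L * a ≤ ‖q k - q l‖) {k l : Fin N} (hk : k ∈ T) (hl : l ∉ T) :
    (L - 1) * a ≤ ‖shrink T c q δ k - shrink T c q δ l‖ := by
  have h1 := shrink_sub_self (T := T) (q := q) (c := c) hδ ha.le hc k
  have h2 : shrink T c q δ l = q l := by unfold shrink; rw [if_neg hl]
  rw [h2]
  have h3 : ‖q k - q l‖ ≤ ‖shrink T c q δ k - q l‖ + ‖shrink T c q δ k - q k‖ := by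
    calc ‖q k - q l‖ = ‖(shrink T c q δ k - q l) - (shrink T c q δ k - q k)‖ := by
          congr 1; abel
      _ ≤ _ := norm_sub_le _ _
  have h4 := hL k hk l hl
  have h5 : δ * a ≤ a := by nlinarith
  linarith

/-- Shrinking increases the force function. -/
theorem pot_shrink {N : ℕ} {m : Fin N → ℝ} (hm : ∀ i, 0 < m i) {μ : ℝ} (hμ : 0 < μ)
    (hμm : ∀ i, μ ≤ m i) {T : Finset (Fin N)} {c : V3} {q : Fin N → V3}
    (hq : ∀ i j, i ≠ j → q i ≠ q j) {a δ L : ℝ}
    (hδ : 0 ≤ δ) (hδ1 : δ < 1) (ha : 0 < a) (hc : ∀ k ∈ T, ‖q k - c‖ ≤ a)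
    (hd : ∀ k ∈ T, ∀ l ∈ T, ‖q k - q l‖ ≤ a)
    (hL : ∀ k ∈ T, ∀ l ∉ T, L * a ≤ ‖q k - q l‖) (hL2 : 2 ≤ L)
    (hLM : (∑ i, m i) ^ 2 ≤ μ ^ 2 * (L * (L - 1))) {i j : Fin N} (hi : i ∈ T) (hj : j ∈ T)
    (hij : i ≠ j) :
    δ * μ ^ 2 / (2 * a) ≤ pot m (shrink T c q δ) - pot m q := by
  set κ : ℝ := δ / (L * (L - 1) * a) with hκ
  have hLL : 0 < L * (L - 1) := by nlinarith
  have hκ0 : 0 ≤ κ := by rw [hκ]; positivity
  set t : Fin N → Fin N → ℝ := fun k l =>
    m k * m l / ‖shrink T c q δ k - shrink T c q δ l‖ / 2 - m k * m l / ‖q k - q l‖ / 2 +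
      m k * m l * κ / 2 with ht
  have hmm : ∀ k l, 0 < m k * m l := fun k l => mul_pos (hm k) (hm l)
  -- lower bounds
  have hTT : ∀ k ∈ T, ∀ l ∈ T, k ≠ l → m k * m l * (δ / a) / 2 ≤ t k l := by
    intro k hk l hl hkl
    have h1 := shrink_mem_mem (T := T) (q := q) (c := c) hδ1.le hk hl
    have hpos : 0 < ‖q k - q l‖ := norm_pos_iff.mpr (sub_ne_zero.mpr (hq k l hkl))
    have h2 : δ / a ≤ 1 / ((1 - δ) * ‖q k - q l‖) - 1 / ‖q k - q l‖ := by
      have h3 : 1 / ((1 - δ) * ‖q k - q l‖) - 1 / ‖q k - q l‖ =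
          δ / ((1 - δ) * ‖q k - q l‖) := by
        have : 1 - δ ≠ 0 := by linarith
        field_simp
        ring
      rw [h3]
      apply div_le_div_of_nonneg_left hδ
      · have : 0 < 1 - δ := by linarith
        positivity
      · have := hd k hk l hl
        nlinarith
    rw [ht]
    simp only
    rw [h1]
    have h4 : m k * m l * (δ / a) / 2 ≤
        m k * m l * (1 / ((1 - δ) * ‖q k - q l‖) - 1 / ‖q k - q l‖) / 2 := by
      have := mul_le_mul_of_nonneg_left h2 (hmm k l).le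
      linarith
    have h5 : m k * m l * (1 / ((1 - δ) * ‖q k - q l‖) - 1 / ‖q k - q l‖) / 2 =
        m k * m l / ((1 - δ) * ‖q k - q l‖) / 2 - m k * m l / ‖q k - q l‖ / 2 := by ring
    have h6 : 0 ≤ m k * m l * κ / 2 := by
      have := mul_nonneg (hmm k l).le hκ0
      linarith
    linarith
  have hmix : ∀ k ∈ T, ∀ l ∉ T, 0 ≤ t k l := by
    intro k hk l hl
    have h1 := shrink_mem_notMem (T := T) (q := q) (c := c) hδ hδ1.le ha hc hL hk hl
    have h2 := hL k hk l hl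
    have h3 := shrink_sub_self (T := T) (q := q) (c := c) hδ ha.le hc k
    have h4 : shrink T c q δ l = q l := by unfold shrink; rw [if_neg hl]
    have hLa : 0 < (L - 1) * a := mul_pos (by linarith) ha
    have hLa' : 0 < L * a := mul_pos (by linarith) ha
    set x := ‖shrink T c q δ k - shrink T c q δ l‖ with hx
    set y := ‖q k - q l‖ with hy
    have hxpos : 0 < x := hLa.trans_le h1
    have hypos : 0 < y := hLa'.trans_le h2
    have hxy : x - y ≤ δ * a := by
      have : x ≤ y + ‖shrink T c q δ k - q k‖ := by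
        rw [hx, hy, h4]
        calc ‖shrink T c q δ k - q l‖ = ‖(q k - q l) + (shrink T c q δ k - q k)‖ := by
              congr 1; abel
          _ ≤ _ := norm_add_le _ _
      linarith
    have h5 : -κ ≤ 1 / x - 1 / y := by
      have h6 : 1 / x - 1 / y = -((x - y) / (x * y)) := by
        field_simp
        ring
      rw [h6, neg_le_neg_iff]
      have h7 : (x - y) / (x * y) ≤ (δ * a) / (x * y) :=
        div_le_div_of_nonneg_right hxy (by positivity)
      refine h7.trans ?_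
      have h8 : (δ * a) / (x * y) ≤ (δ * a) / ((L - 1) * a * (L * a)) := by
        apply div_le_div_of_nonneg_left (by positivity) (by positivity)
        exact mul_le_mul h1 h2 hLa'.le hxpos.le
      refine h8.trans (le_of_eq ?_)
      rw [hκ]
      have : L - 1 ≠ 0 := by linarith
      have : L ≠ 0 := by linarith
      field_simp
    rw [ht]
    simp only
    rw [← hx, ← hy]
    have h9 := mul_le_mul_of_nonneg_left h5 (hmm k l).le
    have h10 : m k * m l * (1 / x - 1 / y) = m k * m l / x - m k * m l / y := by ring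
    rw [h10] at h9
    linarith
  have hsymm : ∀ k l, t k l = t l k := by
    intro k l
    rw [ht]
    simp only
    rw [norm_sub_rev (shrink T c q δ k), norm_sub_rev (q k), mul_comm (m k) (m l)]
  have hnn : ∀ k l, 0 ≤ t k l := by
    intro k l
    by_cases hkl : k = l
    · subst hkl
      rw [ht]
      simp only [sub_self, norm_zero, div_zero, zero_div, zero_add]
      have := mul_nonneg (hmm k k).le hκ0
      linarith
    by_cases hk : k ∈ T
    · by_cases hl : l ∈ T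
      · refine le_trans ?_ (hTT k hk l hl hkl)
        have : 0 ≤ δ / a := by positivity
        have := mul_nonneg (hmm k l).le this
        linarith
      · exact hmix k hk l hl
    · by_cases hl : l ∈ T
      · rw [hsymm]; exact hmix l hl k hk
      · rw [ht]
        simp only
        have h1 : shrink T c q δ k = q k := by unfold shrink; rw [if_neg hk]
        have h2 : shrink T c q δ l = q l := by unfold shrink; rw [if_neg hl]
        rw [h1, h2, sub_self, zero_add]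
        have := mul_nonneg (hmm k l).le hκ0
        linarith
  have hsum : ∑ k, ∑ l, t k l = pot m (shrink T c q δ) - pot m q + (∑ i, m i) ^ 2 * κ / 2 := by
    rw [ht]
    unfold pot
    simp only [Finset.sum_add_distrib, Finset.sum_sub_distrib]
    congr 1
    rw [sq, Finset.sum_mul_sum, Finset.sum_mul, Finset.sum_div]
    apply Finset.sum_congr rfl
    intro k _
    rw [Finset.sum_mul, Finset.sum_div]
  have hlow : t i j + t j i ≤ ∑ k, ∑ l, t k l := by
    have h1 : t i j ≤ ∑ l, t i l := Finset.single_le_sum (fun l _ => hnn i l) (Finset.mem_univ j)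
    have h2 : t j i ≤ ∑ l, t j l := Finset.single_le_sum (fun l _ => hnn j l) (Finset.mem_univ i)
    have h3 : ∑ l, t i l + ∑ l, t j l ≤ ∑ k, ∑ l, t k l := by
      have := Finset.sum_le_sum_of_subset_of_nonneg (f := fun k => ∑ l, t k l)
        (Finset.subset_univ ({i, j} : Finset (Fin N)))
        (fun k _ _ => Finset.sum_nonneg (fun l _ => hnn k l))
      rwa [Finset.sum_pair hij] at this
    linarith
  have h1 := hTT i hi j hj hij
  rw [hsymm j i, hsum] at hlow
  have h2 : μ ^ 2 * (δ / a) ≤ m i * m j * (δ / a) := by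
    apply mul_le_mul_of_nonneg_right _ (by positivity)
    have := mul_le_mul (hμm i) (hμm j) hμ.le (hm i).le
    rw [sq]; exact this
  have h3 : (∑ i, m i) ^ 2 * κ ≤ μ ^ 2 * (δ / a) := by
    calc (∑ i, m i) ^ 2 * κ ≤ μ ^ 2 * (L * (L - 1)) * κ := mul_le_mul_of_nonneg_right hLM hκ0
      _ = μ ^ 2 * (δ / a) := by
        rw [hκ]
        have : L - 1 ≠ 0 := by linarith
        have : L ≠ 0 := by linarith
        field_simp
  have h4 : δ * μ ^ 2 / (2 * a) = μ ^ 2 * (δ / a) / 2 := by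
    field_simp
  rw [h4]
  linarith

end Pool.Agent.NBody
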