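import Mathlib
import Pool.Agent.NBody.Infinity

/-!
Near infinity the wandering set is dense at a small scale: conclusion.
-/

set_option autoImplicit false
open scoped RealInnerProductSpace
open Set Finset Filter Topology

namespace Pool.Agent.NBody

theorem exists_unit_aligned (P : V3) : ∃ w : V3, ‖w‖ = 1 ∧ 0 ≤ ⟪P, w⟫ ∧ ⟪P, w⟫ ≤ ‖P‖ := by
  by_cases hP : P = 0
  · refine ⟨EuclideanSpace.single 0 1, by simp, by rw [hP, inner_zero_left], ?_⟩
    rw [hP, inner_zero_left, norm_zero]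
  · have hn : ‖P‖ ≠ 0 := norm_ne_zero_iff.mpr hP
    refine ⟨(‖P‖)⁻¹ • P, ?_, ?_, ?_⟩
    · rw [norm_smul, norm_inv, norm_norm, inv_mul_cancel₀ hn]
    · rw [inner_smul_right, real_inner_self_eq_norm_sq]; positivity
    · rw [inner_smul_right, real_inner_self_eq_norm_sq]
      apply le_of_eq
      field_simp

theorem continuousOn_pot_shrink {N : ℕ} (m : Fin N → ℝ) {T : Finset (Fin N)} {c : V3}
    {q : Fin N → V3} {s : Set ℝ}
    (h : ∀ δ ∈ s, ∀ k l, k ≠ l → shrink T c q δ k ≠ shrink T c q δ l) :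
    ContinuousOn (fun δ => pot m (shrink T c q δ)) s := by
  unfold pot
  apply continuousOn_finsetSum
  intro k _
  apply continuousOn_finsetSum
  intro l _
  by_cases hkl : k = l
  · subst hkl
    simp only [sub_self, norm_zero, div_zero, zero_div]
    exact continuousOn_const
  · have hc : ∀ k : Fin N, Continuous (fun δ => shrink T c q δ k) := by
      intro k
      unfold shrink
      by_cases hk : k ∈ T
      · simp only [if_pos hk]
        exact continuous_const.add ((continuous_const.sub continuous_id).smul continuous_const)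
      · simp only [if_neg hk]
        exact continuous_const
    apply ContinuousOn.div_const
    apply ContinuousOn.div continuousOn_const
    · exact ((hc k).sub (hc l)).norm.continuousOn
    · intro δ hδ
      exact norm_ne_zero_iff.mpr (sub_ne_zero.mpr (h δ hδ k l hkl))

theorem dense_at_infinity (N : ℕ) (m : Fin N → ℝ) (hm : ∀ i, 0 < m i) (hN : 2 ≤ N) :
    ∃ C : ℝ, 0 < C ∧ ∀ (E : ℝ), E < 0 →
      ∀ (S : Set (Ph N)) (ψ : Ph N → ℝ) (φ : ℝ → Ph N → Ph N),
      Setting m S ψ φ →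
      (∀ x : Ph N, x ∈ S ↔ (∀ i j, i ≠ j → x.1 i ≠ x.1 j) ∧ ∑ i, m i • x.1 i = 0 ∧
        ∑ i, x.2 i = 0 ∧ kin m x.2 - pot m x.1 = E) →
      ∀ x ∈ S, C / |E| ≤ Real.sqrt (∑ i, m i * ‖x.1 i‖ ^ 2) →
        ∃ y ∈ S, Wandering S φ y ∧
          (∀ i, ‖y.1 i - x.1 i‖ ≤ C / (E ^ 2 * Real.sqrt (∑ i, m i * ‖x.1 i‖ ^ 2))) ∧
          (∀ i, ‖y.2 i - x.2 i‖ ≤ C / Real.sqrt (Real.sqrt (∑ i, m i * ‖x.1 i‖ ^ 2))) := by
  classical
  obtain ⟨C₀, hC₀, H⟩ := wandering_of_momentum_orbit N m hm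
  have hNpos : 0 < N := by omega
  have hNr : (0:ℝ) < N := by exact_mod_cast hNpos
  have : Nonempty (Fin N) := ⟨⟨0, hNpos⟩⟩
  obtain ⟨i₀, hi₀⟩ := Finite.exists_min m
  set μ : ℝ := m i₀ with hμdef
  have hμ : 0 < μ := hm i₀
  set M : ℝ := ∑ i, m i with hM
  have hMpos : 0 < M := Finset.sum_pos (fun i _ => hm i) ⟨i₀, Finset.mem_univ _⟩
  set L : ℝ := 2 + M ^ 2 / μ ^ 2 with hLdef
  have hz : 0 ≤ M ^ 2 / μ ^ 2 := by positivity
  have hL2 : 2 ≤ L := by rw [hLdef]; linarith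
  have hLM : M ^ 2 ≤ μ ^ 2 * (L * (L - 1)) := by
    have h1 : μ ^ 2 * (M ^ 2 / μ ^ 2) = M ^ 2 := by field_simp
    have h2 : M ^ 2 / μ ^ 2 ≤ L * (L - 1) := by
      rw [hLdef]
      nlinarith
    calc M ^ 2 = μ ^ 2 * (M ^ 2 / μ ^ 2) := h1.symm
      _ ≤ μ ^ 2 * (L * (L - 1)) := mul_le_mul_of_nonneg_left h2 (by positivity)
  have hsM : 0 < Real.sqrt M := Real.sqrt_pos.mpr hMpos
  set K : ℝ := N * Real.sqrt M with hK
  have hKpos : 0 < K := by positivity
  set κ : ℝ := (1 + L) ^ N * M ^ 2 with hκ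
  have hκpos : 0 < κ := by positivity
  set K₁ : ℝ := 16 * κ ^ 2 * C₀ * K / μ ^ 3 with hK₁
  set K₂ : ℝ := 2 * Real.sqrt (C₀ * K) with hK₂
  set K₃ : ℝ := K * (32 * κ * C₀ / μ ^ 3 + 2 * κ) with hK₃
  have hK₁0 : 0 < K₁ := by positivity
  have hK₂0 : 0 ≤ K₂ := by positivity
  have hK₃0 : 0 < K₃ := by positivity
  refine ⟨K₁ + K₂ + K₃, by positivity, ?_⟩
  intro E hE S ψ φ hset hSdef x hx hRx
  have hE' : 0 < -E := by linarith
  set r₁ : ℝ := M ^ 2 / (-E) with hr₁
  have hr₁pos : 0 < r₁ := by positivity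
  set aM : ℝ := (1 + L) ^ N * r₁ with haM
  have haMpos : 0 < aM := by positivity
  have haMκ : aM = κ / (-E) := by rw [haM, hr₁, hκ]; ring
  set Rd : ℝ := 32 * aM * C₀ / μ ^ 3 + 2 * aM with hRd
  have hRdpos : 0 < Rd := by positivity
  have hRd2 : 32 * aM * C₀ / μ ^ 3 ≤ Rd := by rw [hRd]; linarith
  have hRd3 : 2 * aM ≤ Rd := by
    have : 0 ≤ 32 * aM * C₀ / μ ^ 3 := by positivity
    rw [hRd]; linarith
  set ρ : ℝ := Real.sqrt (∑ i, m i * ‖x.1 i‖ ^ 2) with hρ
  obtain ⟨hnc, hcom, hmom, hen⟩ := (hSdef x).mp hx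
  -- maximal distance
  obtain ⟨uv, -, huv⟩ := (Finset.univ : Finset (Fin N × Fin N)).exists_max_image
    (fun z => ‖x.1 z.1 - x.1 z.2‖) ⟨(i₀, i₀), Finset.mem_univ _⟩
  set D : ℝ := ‖x.1 uv.1 - x.1 uv.2‖ with hD
  have hDmax : ∀ i j, ‖x.1 i - x.1 j‖ ≤ D := fun i j => huv (i, j) (Finset.mem_univ _)
  have hD0 : 0 ≤ D := norm_nonneg _
  have hqD : ∀ i, ‖x.1 i‖ ≤ D := by
    intro i
    have h1 : M • x.1 i = ∑ j, m j • (x.1 i - x.1 j) := by
      simp only [smul_sub]
      rw [Finset.sum_sub_distrib, hcom, sub_zero, ← Finset.sum_smul]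
    have h2 : M * ‖x.1 i‖ ≤ M * D := by
      calc M * ‖x.1 i‖ = ‖M • x.1 i‖ := by rw [norm_smul, Real.norm_of_nonneg hMpos.le]
        _ = ‖∑ j, m j • (x.1 i - x.1 j)‖ := by rw [h1]
        _ ≤ ∑ j, ‖m j • (x.1 i - x.1 j)‖ := norm_sum_le _ _
        _ ≤ ∑ j, m j * D := by
            apply Finset.sum_le_sum
            intro j _
            rw [norm_smul, Real.norm_of_nonneg (hm j).le]
            exact mul_le_mul_of_nonneg_left (hDmax i j) (hm j).le
        _ = M * D := by rw [← Finset.sum_mul]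
    exact le_of_mul_le_mul_left h2 hMpos
  have hρD : ρ ≤ Real.sqrt M * D := by
    rw [hρ]
    apply Real.sqrt_le_iff.mpr
    refine ⟨by positivity, ?_⟩
    rw [mul_pow, Real.sq_sqrt hMpos.le, hM, Finset.sum_mul]
    apply Finset.sum_le_sum
    intro i _
    apply mul_le_mul_of_nonneg_left _ (hm i).le
    exact pow_le_pow_left₀ (norm_nonneg _) (hqD i) 2
  set d : ℝ := D / N with hd
  have hρd : ρ ≤ K * d := by
    rw [hd, hK]
    calc ρ ≤ Real.sqrt M * D := hρD
      _ = N * Real.sqrt M * (D / N) := by field_simp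
  have hRx' : K * Rd ≤ ρ := by
    have h1 : K * Rd = K₃ / |E| := by
      rw [hRd, hK₃, haMκ, abs_of_neg hE]
      ring
    rw [h1]
    refine le_trans ?_ hRx
    apply div_le_div_of_nonneg_right _ (abs_nonneg _)
    linarith
  have hdR : Rd ≤ d := by
    have h1 : K * Rd ≤ K * d := hRx'.trans hρd
    exact le_of_mul_le_mul_left h1 hKpos
  have hdpos : 0 < d := hRdpos.trans_le hdR
  have hDpos : 0 < D := by
    rw [hd] at hdpos
    by_contra hcon
    have : D = 0 := le_antisymm (not_lt.mp hcon) hD0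
    rw [this, zero_div] at hdpos
    exact lt_irrefl _ hdpos
  have hρpos : 0 < ρ := (mul_pos hKpos hRdpos).trans_le hRx'
  -- outer splitting
  obtain ⟨A, B, hAB, hdisj, huA, hvB, hdist⟩ := exists_split x.1 Finset.univ N (by simp) D hDpos
    uv.1 uv.2 (Finset.mem_univ _) (Finset.mem_univ _) (by rw [dist_eq_norm])
  have hBA : B = Aᶜ := by
    ext k
    rw [Finset.mem_compl]
    constructor
    · intro h h'
      exact Finset.disjoint_left.mp hdisj h' h
    · intro h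
      have : k ∈ A ∪ B := by rw [hAB]; exact Finset.mem_univ _
      exact (Finset.mem_union.mp this).resolve_left h
  subst hBA
  have hAne : A.Nonempty := ⟨_, huA⟩
  have hAcne : Aᶜ.Nonempty := ⟨_, hvB⟩
  have hsepA : ∀ i ∈ A, ∀ j ∉ A, d ≤ ‖x.1 i - x.1 j‖ := fun i hi j hj => by
    rw [← dist_eq_norm]
    exact hdist i hi j (Finset.mem_compl.mpr hj)
  -- first case
  by_cases hcase : C₀ < ‖∑ i ∈ A, x.2 i‖ ^ 2 * d
  · have h0 : φ 0 x = x := (hset.flow x hx).1
    have hKK : 0 ≤ K₁ + K₂ + K₃ := by linarith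
    refine ⟨x, hx, ?_, ?_, ?_⟩
    · refine H S ψ φ hset x hx 0 A d hdpos ?_ ?_
      · rw [h0]; exact hsepA
      · rw [h0]; exact hcase
    · intro i
      rw [sub_self, norm_zero]
      exact div_nonneg hKK (mul_nonneg (sq_nonneg _) hρpos.le)
    · intro i
      rw [sub_self, norm_zero]
      exact div_nonneg hKK (Real.sqrt_nonneg _)
  push Not at hcase
  set P : V3 := ∑ i ∈ A, x.2 i with hP
  obtain ⟨w, hw1, hw2, hw3⟩ := exists_unit_aligned P
  set b : ℝ := 2 * Real.sqrt (C₀ / d) with hb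
  have hbpos : 0 < b := by
    have : 0 < Real.sqrt (C₀ / d) := Real.sqrt_pos.mpr (by positivity)
    positivity
  have hb2 : b ^ 2 = 4 * C₀ / d := by
    rw [hb, mul_pow, Real.sq_sqrt (by positivity)]
    ring
  have hPb : ‖P‖ ≤ b / 2 := by
    rw [hb]
    have h1 : ‖P‖ ≤ Real.sqrt (C₀ / d) := by
      apply Real.le_sqrt_of_sq_le
      rw [le_div_iff₀ hdpos]
      exact hcase
    linarith
  set p' : Fin N → V3 := boost m A b w x.2 with hp'
  have hmA : μ ≤ ∑ k ∈ A, m k := by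
    obtain ⟨k, hk⟩ := hAne
    exact (hi₀ k).trans (Finset.single_le_sum (fun i _ => (hm i).le) hk)
  have hmB : μ ≤ ∑ k ∈ Aᶜ, m k := by
    obtain ⟨k, hk⟩ := hAcne
    exact (hi₀ k).trans (Finset.single_le_sum (fun i _ => (hm i).le) hk)
  have hkin := kin_boost hm hAne hAcne b hw1 x.2 hmom
  have hΔ0 : 0 ≤ (b * ⟪∑ i ∈ A, x.2 i, w⟫ + b ^ 2 / 2) *
      (1 / ∑ k ∈ A, m k + 1 / ∑ k ∈ Aᶜ, m k) := by
    have h1 : 0 < ∑ k ∈ A, m k := hμ.trans_le hmA
    have h2 : 0 < ∑ k ∈ Aᶜ, m k := hμ.trans_le hmB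
    have h3 : 0 ≤ ⟪∑ i ∈ A, x.2 i, w⟫ := hw2
    positivity
  have hΔ1 : (b * ⟪∑ i ∈ A, x.2 i, w⟫ + b ^ 2 / 2) *
      (1 / ∑ k ∈ A, m k + 1 / ∑ k ∈ Aᶜ, m k) ≤ 8 * C₀ / (μ * d) := by
    have h1 : 1 / ∑ k ∈ A, m k ≤ 1 / μ := one_div_le_one_div_of_le hμ hmA
    have h2 : 1 / ∑ k ∈ Aᶜ, m k ≤ 1 / μ := one_div_le_one_div_of_le hμ hmB
    have h3 : b * ⟪∑ i ∈ A, x.2 i, w⟫ + b ^ 2 / 2 ≤ b ^ 2 := by
      have h4 : ⟪∑ i ∈ A, x.2 i, w⟫ ≤ b / 2 := hw3.trans hPb
      calc b * ⟪∑ i ∈ A, x.2 i, w⟫ + b ^ 2 / 2 ≤ b * (b / 2) + b ^ 2 / 2 :=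
            add_le_add_left (mul_le_mul_of_nonneg_left h4 hbpos.le) _
        _ = b ^ 2 := by ring
    have h5 : 0 ≤ b * ⟪∑ i ∈ A, x.2 i, w⟫ + b ^ 2 / 2 := by
      have h3 : 0 ≤ ⟪∑ i ∈ A, x.2 i, w⟫ := hw2
      positivity
    calc _ ≤ b ^ 2 * (1 / μ + 1 / μ) := by
          apply mul_le_mul h3 (by linarith) _ (by positivity)
          have h6 : 0 < ∑ k ∈ A, m k := hμ.trans_le hmA
          have h7 : 0 < ∑ k ∈ Aᶜ, m k := hμ.trans_le hmB
          positivity
      _ = 8 * C₀ / (μ * d) := by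
          rw [hb2]
          field_simp
          ring
  -- a close pair
  obtain ⟨i, j, hij, hclose⟩ : ∃ i j : Fin N, i ≠ j ∧ ‖x.1 i - x.1 j‖ ≤ r₁ := by
    by_contra hcon
    push Not at hcon
    have hpot : pot m x.1 ≤ M ^ 2 / (2 * r₁) := by
      unfold pot
      have h1 : ∀ i j : Fin N, m i * m j / ‖x.1 i - x.1 j‖ / 2 ≤ m i * m j / (2 * r₁) := by
        intro i j
        by_cases hij : i = j
        · subst hij
          have := hm i
          simp only [sub_self, norm_zero, div_zero, zero_div]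
          positivity
        · have h2 := hcon i j hij
          have h3 : 0 < m i * m j := mul_pos (hm i) (hm j)
          have h4 : m i * m j / ‖x.1 i - x.1 j‖ ≤ m i * m j / r₁ :=
            div_le_div_of_nonneg_left h3.le hr₁pos h2.le
          calc m i * m j / ‖x.1 i - x.1 j‖ / 2 ≤ m i * m j / r₁ / 2 := by linarith
            _ = m i * m j / (2 * r₁) := by rw [div_div, mul_comm r₁ 2]
      calc ∑ i, ∑ j, m i * m j / ‖x.1 i - x.1 j‖ / 2 ≤ ∑ i, ∑ j, m i * m j / (2 * r₁) :=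
            Finset.sum_le_sum (fun i _ => Finset.sum_le_sum (fun j _ => h1 i j))
        _ = M ^ 2 / (2 * r₁) := by
            rw [sq, hM, Finset.sum_mul_sum, Finset.sum_div]
            apply Finset.sum_congr rfl
            intro i _
            rw [Finset.sum_div]
    have h5 : M ^ 2 / (2 * r₁) = -E / 2 := by
      rw [hr₁]
      have : E ≠ 0 := hE.ne
      have : M ≠ 0 := hMpos.ne'
      field_simp
    have h6 : 0 ≤ kin m x.2 := by
      unfold kin
      apply Finset.sum_nonneg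
      intro i _
      have := hm i
      positivity
    linarith
  -- the isolated inner cluster
  obtain ⟨T, a, ha, haM', hiT, hjT, hTd, hTs⟩ := select_cluster x.1 i j L (by linarith)
    (({i, j} : Finset (Fin N))ᶜ.card) {i, j} r₁ rfl hr₁pos (by simp) (by simp) (by
      intro k hk l hl
      rw [Finset.mem_insert, Finset.mem_singleton] at hk hl
      rcases hk with rfl | rfl <;> rcases hl with rfl | rfl
      · rw [sub_self, norm_zero]; exact hr₁pos.le
      · exact hclose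
      · rw [norm_sub_rev]; exact hclose
      · rw [sub_self, norm_zero]; exact hr₁pos.le)
  have haaM : a ≤ aM := by
    refine haM'.trans ?_
    rw [haM]
    apply mul_le_mul_of_nonneg_right _ hr₁pos.le
    apply pow_le_pow_right₀ (by linarith)
    have := Finset.card_le_univ (({i, j} : Finset (Fin N))ᶜ)
    simpa using this
  have hmT : 0 < ∑ k ∈ T, m k := Finset.sum_pos (fun i _ => hm i) ⟨i, hiT⟩
  set c : V3 := (∑ k ∈ T, m k)⁻¹ • ∑ k ∈ T, m k • x.1 k with hc
  have hcq : ∀ k ∈ T, ‖x.1 k - c‖ ≤ a := by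
    intro k hk
    have h1 : x.1 k - c = (∑ l ∈ T, m l)⁻¹ • ∑ l ∈ T, m l • (x.1 k - x.1 l) := by
      simp only [smul_sub]
      rw [Finset.sum_sub_distrib, ← Finset.sum_smul, smul_sub, smul_smul,
        inv_mul_cancel₀ hmT.ne', one_smul]
    rw [h1, norm_smul, norm_inv, Real.norm_of_nonneg hmT.le, inv_mul_le_iff₀ hmT]
    calc ‖∑ l ∈ T, m l • (x.1 k - x.1 l)‖ ≤ ∑ l ∈ T, ‖m l • (x.1 k - x.1 l)‖ := norm_sum_le _ _
      _ ≤ ∑ l ∈ T, m l * a := by
          apply Finset.sum_le_sum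
          intro l hl
          rw [norm_smul, Real.norm_of_nonneg (hm l).le]
          exact mul_le_mul_of_nonneg_left (hTd k hk l hl) (hm l).le
      _ = (∑ l ∈ T, m l) * a := by rw [← Finset.sum_mul]
  set δ₁ : ℝ := 16 * aM * C₀ / (μ ^ 3 * d) with hδ₁
  have hδ₁pos : 0 < δ₁ := by positivity
  have hδ₁half : δ₁ ≤ 1 / 2 := by
    rw [hδ₁, div_le_iff₀ (by positivity)]
    rw [div_le_iff₀ (by positivity)] at hRd2
    have : Rd * μ ^ 3 ≤ d * μ ^ 3 := mul_le_mul_of_nonneg_right hdR (by positivity)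
    linarith
  have hnc' : ∀ δ ∈ Icc 0 δ₁, ∀ k l, k ≠ l → shrink T c x.1 δ k ≠ shrink T c x.1 δ l := by
    intro δ hδ k l hkl
    have hδ1 : δ < 1 := by linarith [hδ.2]
    by_cases hk : k ∈ T
    · by_cases hl : l ∈ T
      · have h1 := shrink_mem_mem (T := T) (q := x.1) (c := c) hδ1.le hk hl
        intro heq
        rw [heq, sub_self, norm_zero] at h1
        have h2 : 0 < ‖x.1 k - x.1 l‖ := norm_pos_iff.mpr (sub_ne_zero.mpr (hnc k l hkl))
        have h3 : 0 < (1 - δ) * ‖x.1 k - x.1 l‖ := mul_pos (by linarith) h2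
        linarith
      · have h1 := shrink_mem_notMem (T := T) (q := x.1) (c := c) hδ.1 hδ1.le ha hcq hTs hk hl
        intro heq
        rw [heq, sub_self, norm_zero] at h1
        have : 0 < (L - 1) * a := mul_pos (by linarith) ha
        linarith
    · by_cases hl : l ∈ T
      · have h1 := shrink_mem_notMem (T := T) (q := x.1) (c := c) hδ.1 hδ1.le ha hcq hTs hl hk
        intro heq
        rw [heq, sub_self, norm_zero] at h1
        have : 0 < (L - 1) * a := mul_pos (by linarith) ha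
        linarith
      · have h1 : shrink T c x.1 δ k = x.1 k := by unfold shrink; rw [if_neg hk]
        have h2 : shrink T c x.1 δ l = x.1 l := by unfold shrink; rw [if_neg hl]
        rw [h1, h2]
        exact hnc k l hkl
  -- intermediate value
  have hcont : ContinuousOn (fun δ => kin m p' - pot m (shrink T c x.1 δ)) (Icc 0 δ₁) :=
    continuousOn_const.sub (continuousOn_pot_shrink m hnc')
  have hshr0 : shrink T c x.1 0 = x.1 := by
    funext k
    unfold shrink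
    split_ifs
    · rw [sub_zero, one_smul]; abel
    · rfl
  have hf0 : E ≤ kin m p' - pot m (shrink T c x.1 0) := by
    rw [hshr0, hp', hkin]
    linarith
  have hf1 : kin m p' - pot m (shrink T c x.1 δ₁) ≤ E := by
    have h1 := pot_shrink hm hμ hi₀ hnc hδ₁pos.le (by linarith) ha hcq hTd hTs hL2 hLM hiT hjT hij
    have h2 : 8 * C₀ / (μ * d) ≤ δ₁ * μ ^ 2 / (2 * a) := by
      have h3 : 8 * C₀ / (μ * d) = δ₁ * μ ^ 2 / (2 * aM) := by
        rw [hδ₁]
        field_simp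
        ring
      rw [h3]
      apply div_le_div_of_nonneg_left (by positivity) (by positivity)
      linarith
    rw [hp', hkin]
    linarith
  obtain ⟨δ, hδ, hδE⟩ := intermediate_value_Icc' hδ₁pos.le hcont ⟨hf1, hf0⟩
  simp only at hδE
  -- the new state
  set q' : Fin N → V3 := shrink T c x.1 δ with hq'
  have hyS : ((q', p') : Ph N) ∈ S := by
    rw [hSdef]
    refine ⟨hnc' δ hδ, ?_, ?_, hδE⟩
    · have h1 : ∀ k, m k • q' k = m k • x.1 k + (if k ∈ T then (-δ) • (m k • (x.1 k - c)) else 0) := by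
        intro k
        rw [hq']
        unfold shrink
        split_ifs with hk
        · rw [smul_smul (-δ), mul_comm (-δ), ← smul_smul, ← smul_add]
          congr 1
          rw [sub_smul, one_smul, neg_smul]
          abel
        · rw [add_zero]
      simp only
      rw [Finset.sum_congr rfl (fun k _ => h1 k), Finset.sum_add_distrib, hcom, zero_add,
        Finset.sum_ite_mem, Finset.univ_inter, ← Finset.smul_sum]
      have h2 : ∑ k ∈ T, m k • (x.1 k - c) = 0 := by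
        simp only [smul_sub]
        rw [Finset.sum_sub_distrib, ← Finset.sum_smul, hc, smul_smul,
          mul_inv_cancel₀ hmT.ne', one_smul, sub_self]
      rw [h2, smul_zero]
    · simp only
      rw [hp', sum_boost hm hAne hAcne, hmom]
  have hdisp : ∀ k, ‖q' k - x.1 k‖ ≤ δ * a := fun k =>
    shrink_sub_self hδ.1 ha.le hcq k
  have hδa : δ * a ≤ δ₁ * aM := mul_le_mul hδ.2 haaM ha.le hδ₁pos.le
  have hδa2 : δ * a ≤ d / 4 := by
    have h1 : δ * a ≤ 1 / 2 * aM := mul_le_mul (hδ.2.trans hδ₁half) haaM ha.le (by norm_num)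
    linarith
  refine ⟨(q', p'), hyS, ?_, ?_, ?_⟩
  · -- wandering
    have h0 : φ 0 (q', p') = (q', p') := (hset.flow _ hyS).1
    refine H S ψ φ hset (q', p') hyS 0 A (d / 2) (by positivity) ?_ ?_
    · rw [h0]
      intro k hk l hl
      have h1 := hsepA k hk l hl
      have h2 := hdisp k
      have h3 := hdisp l
      have h4 : ‖x.1 k - x.1 l‖ ≤ ‖q' k - x.1 k‖ + ‖q' k - q' l‖ + ‖q' l - x.1 l‖ := by
        calc ‖x.1 k - x.1 l‖ = ‖-(q' k - x.1 k) + (q' k - q' l) + (q' l - x.1 l)‖ := by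
              congr 1; abel
          _ ≤ ‖-(q' k - x.1 k) + (q' k - q' l)‖ + ‖q' l - x.1 l‖ := norm_add_le _ _
          _ ≤ ‖-(q' k - x.1 k)‖ + ‖q' k - q' l‖ + ‖q' l - x.1 l‖ := by
              gcongr
              exact norm_add_le _ _
          _ = _ := by rw [norm_neg]
      simp only
      linarith
    · rw [h0]
      simp only
      rw [hp', sum_boost_A hm hAne]
      have h1 : b ^ 2 ≤ ‖∑ i ∈ A, x.2 i + b • w‖ ^ 2 := by
        rw [@norm_add_sq_real, inner_smul_right, norm_smul, hw1, mul_one, Real.norm_eq_abs, sq_abs]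
        have : 0 ≤ ⟪∑ i ∈ A, x.2 i, w⟫ := hw2
        have h2 : 0 ≤ b * ⟪∑ i ∈ A, x.2 i, w⟫ := mul_nonneg hbpos.le this
        have h3 : 0 ≤ ‖∑ i ∈ A, x.2 i‖ ^ 2 := sq_nonneg _
        have h4 : 0 ≤ 2 * (b * ⟪∑ i ∈ A, x.2 i, w⟫) := mul_nonneg (by norm_num) h2
        exact le_add_of_nonneg_left (add_nonneg h3 h4)
      have h2 : b ^ 2 * (d / 2) = 2 * C₀ := by
        rw [hb2]
        field_simp
        ring
      have h3 := mul_le_mul_of_nonneg_right h1 (by positivity : 0 ≤ d / 2)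
      linarith
  · -- positions
    intro k
    simp only
    refine (hdisp k).trans (hδa.trans ?_)
    have h1 : δ₁ * aM = 16 * κ ^ 2 * C₀ / μ ^ 3 / (E ^ 2 * d) := by
      rw [hδ₁, haMκ]
      field_simp
    have h2 : K₁ / (E ^ 2 * ρ) ≤ (K₁ + K₂ + K₃) / (E ^ 2 * ρ) := by
      apply div_le_div_of_nonneg_right _ (mul_nonneg (sq_nonneg _) hρpos.le)
      linarith
    refine le_trans ?_ h2
    have hE2 : 0 < E ^ 2 := by rw [← neg_sq]; positivity
    rw [h1, hK₁, div_le_div_iff₀ (mul_pos hE2 hdpos) (mul_pos hE2 hρpos)]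
    calc 16 * κ ^ 2 * C₀ / μ ^ 3 * (E ^ 2 * ρ) ≤ 16 * κ ^ 2 * C₀ / μ ^ 3 * (E ^ 2 * (K * d)) := by
          apply mul_le_mul_of_nonneg_left _ (by positivity)
          exact mul_le_mul_of_nonneg_left hρd hE2.le
      _ = 16 * κ ^ 2 * C₀ * K / μ ^ 3 * (E ^ 2 * d) := by ring
  · -- momenta
    intro k
    simp only
    have hb1 : b ≤ (K₁ + K₂ + K₃) / Real.sqrt ρ := by
      have hsρpos : 0 < Real.sqrt ρ := Real.sqrt_pos.mpr hρpos
      rw [le_div_iff₀ hsρpos, hb]
      calc 2 * Real.sqrt (C₀ / d) * Real.sqrt ρ = 2 * Real.sqrt (C₀ / d * ρ) := by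
            rw [Real.sqrt_mul (by positivity)]; ring
        _ ≤ 2 * Real.sqrt (C₀ * K) := by
            apply mul_le_mul_of_nonneg_left _ (by norm_num)
            apply Real.sqrt_le_sqrt
            rw [div_mul_eq_mul_div, div_le_iff₀ hdpos, mul_assoc]
            exact mul_le_mul_of_nonneg_left hρd hC₀.le
        _ ≤ K₁ + K₂ + K₃ := by rw [← hK₂]; linarith
    refine le_trans ?_ hb1
    have h1 : p' k - x.2 k =
        (m k * (if k ∈ A then b / ∑ k ∈ A, m k else -(b / ∑ k ∈ Aᶜ, m k))) • w := by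
      rw [hp']
      unfold boost
      abel
    rw [h1, norm_smul, hw1, mul_one, Real.norm_eq_abs, abs_mul, abs_of_pos (hm k)]
    split_ifs with hk
    · have h2 : m k ≤ ∑ k ∈ A, m k := Finset.single_le_sum (fun i _ => (hm i).le) hk
      have h3 : 0 < ∑ k ∈ A, m k := hμ.trans_le hmA
      rw [abs_of_pos (div_pos hbpos h3), ← mul_div_assoc, div_le_iff₀ h3, mul_comm (m k)]
      exact mul_le_mul_of_nonneg_left h2 hbpos.le
    · have h2 : m k ≤ ∑ k ∈ Aᶜ, m k :=
        Finset.single_le_sum (fun i _ => (hm i).le) (Finset.mem_compl.mpr hk)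
      have h3 : 0 < ∑ k ∈ Aᶜ, m k := hμ.trans_le hmB
      rw [abs_neg, abs_of_pos (div_pos hbpos h3), ← mul_div_assoc, div_le_iff₀ h3,
        mul_comm (m k)]
      exact mul_le_mul_of_nonneg_left h2 hbpos.le

end Pool.Agent.NBody
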