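import Mathlib
import Pool.Agent.NBody.Infinity2

/-!
Rearrangement of all the bodies at a small scale: a close pair absorbs a given amount of potential
energy, all the other pairs are put apart.
-/

set_option autoImplicit false
open scoped RealInnerProductSpace
open Set Finset Filter Topology

namespace Pool.Agent.NBody

/-- A point away from finitely many given points. -/
theorem exists_free {ι : Type*} (s : Finset ι) (q : ι → V3) (c : V3) {σ : ℝ} (hσ : 0 < σ) :
    ∃ z : V3, ‖z - c‖ ≤ 2 * σ * s.card ∧ ∀ k ∈ s, σ ≤ ‖z - q k‖ := by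
  classical
  set e : V3 := EuclideanSpace.single 0 1 with he
  have he1 : ‖e‖ = 1 := by simp [he]
  rcases s.eq_empty_or_nonempty with hs | hs
  · subst hs
    exact ⟨c, by simp, by simp⟩
  have : Nonempty ι := ⟨hs.choose⟩
  by_contra hcon
  push Not at hcon
  have h1 : ∀ t ∈ Finset.range (s.card + 1),
      ∃ k ∈ s, ‖c + (2 * σ * (t : ℝ)) • e - q k‖ < σ := by
    intro t ht
    apply hcon
    rw [add_sub_cancel_left, norm_smul, he1, mul_one, Real.norm_of_nonneg (by positivity)]
    have h2 : (t : ℝ) ≤ s.card := by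
      have := Finset.mem_range.mp ht
      exact_mod_cast Nat.lt_succ_iff.mp this
    exact mul_le_mul_of_nonneg_left h2 (by positivity)
  choose! f hf hfd using h1
  obtain ⟨t, ht, u, hu, htu, hftu⟩ := Finset.exists_ne_map_eq_of_card_lt_of_maps_to
    (s := Finset.range (s.card + 1)) (t := s) (f := f) (by rw [Finset.card_range]; omega)
    (fun t ht => hf t ht)
  have h3 := hfd t ht
  have h4 := hfd u hu
  rw [← hftu] at h4
  have h5 : ‖(2 * σ * ((t : ℝ) - u)) • e‖ < 2 * σ := by
    have e1 : (2 * σ * ((t : ℝ) - u)) • e =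
        (c + (2 * σ * (t : ℝ)) • e - q (f t)) - (c + (2 * σ * (u : ℝ)) • e - q (f t)) := by
      rw [mul_sub, sub_smul]
      abel
    rw [e1]
    refine lt_of_le_of_lt (norm_sub_le _ _) ?_
    linarith
  rw [norm_smul, he1, mul_one, Real.norm_eq_abs, abs_mul, abs_of_pos (by positivity)] at h5
  have h6 : (1 : ℝ) ≤ |(t : ℝ) - u| := by
    have h7 : (1 : ℤ) ≤ |(t : ℤ) - u| := Int.one_le_abs (by
      intro h
      apply htu
      omega)
    exact_mod_cast h7
  nlinarith

/-- All the bodies are put apart. -/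
theorem exists_apart {N : ℕ} (q : Fin N → V3) {σ : ℝ} (hσ : 0 < σ) :
    ∀ s : Finset (Fin N), ∃ z : Fin N → V3, (∀ i, ‖z i - q i‖ ≤ 2 * σ * N) ∧
      ∀ i ∈ s, ∀ j ∈ s, i ≠ j → σ ≤ ‖z i - z j‖ := by
  classical
  intro s
  induction s using Finset.induction_on with
  | empty => exact ⟨q, fun i => by rw [sub_self, norm_zero]; positivity, by simp⟩
  | insert k s hk ih =>
    obtain ⟨z, hz1, hz2⟩ := ih
    obtain ⟨y, hy1, hy2⟩ := exists_free s z (q k) hσ
    have hcard : (s.card : ℝ) ≤ N := by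
      have := Finset.card_le_univ s
      rw [Fintype.card_fin] at this
      exact_mod_cast this
    refine ⟨Function.update z k y, ?_, ?_⟩
    · intro i
      by_cases hik : i = k
      · rw [hik, Function.update_self]
        exact hy1.trans (mul_le_mul_of_nonneg_left hcard (by positivity))
      · rw [Function.update_of_ne hik]
        exact hz1 i
    · intro i hi j hj hij
      by_cases hik : i = k
      · have hjk : j ≠ k := fun h => hij (by rw [hik, h])
        have hjs : j ∈ s := (Finset.mem_insert.mp hj).resolve_left hjk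
        rw [hik, Function.update_self, Function.update_of_ne hjk]
        exact hy2 j hjs
      · have his : i ∈ s := (Finset.mem_insert.mp hi).resolve_left hik
        by_cases hjk : j = k
        · rw [hjk, Function.update_self, Function.update_of_ne hik, norm_sub_rev]
          exact hy2 i his
        · have hjs : j ∈ s := (Finset.mem_insert.mp hj).resolve_left hjk
          rw [Function.update_of_ne hik, Function.update_of_ne hjk]
          exact hz2 i his j hjs hij

/-- a pair bounds the potential energy from below -/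
theorem pot_ge_pair {N : ℕ} {m : Fin N → ℝ} (hm : ∀ i, 0 < m i) {a b : Fin N} (hab : a ≠ b)
    (p : Fin N → V3) : m a * m b / ‖p a - p b‖ ≤ pot m p := by
  have hnn : ∀ i j, 0 ≤ m i * m j / ‖p i - p j‖ / 2 := by
    intro i j
    have := mul_pos (hm i) (hm j)
    positivity
  have h1 : m a * m b / ‖p a - p b‖ / 2 ≤ ∑ j, m a * m j / ‖p a - p j‖ / 2 :=
    Finset.single_le_sum (f := fun j => m a * m j / ‖p a - p j‖ / 2) (fun j _ => hnn a j)
      (Finset.mem_univ b)
  have h2 : m b * m a / ‖p b - p a‖ / 2 ≤ ∑ j, m b * m j / ‖p b - p j‖ / 2 :=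
    Finset.single_le_sum (f := fun j => m b * m j / ‖p b - p j‖ / 2) (fun j _ => hnn b j)
      (Finset.mem_univ a)
  have h3 := Finset.sum_le_sum_of_subset_of_nonneg
    (f := fun i => ∑ j, m i * m j / ‖p i - p j‖ / 2)
    (Finset.subset_univ ({a, b} : Finset (Fin N)))
    (fun i _ _ => Finset.sum_nonneg (fun j _ => hnn i j))
  rw [Finset.sum_pair hab] at h3
  have h4 : m b * m a / ‖p b - p a‖ = m a * m b / ‖p a - p b‖ := by
    rw [norm_sub_rev, mul_comm]
  rw [h4] at h2
  unfold pot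
  linarith

/-- The potential energy of bodies at mutual distances at least `r`. -/
theorem pot_le_of_apart {N : ℕ} {m : Fin N → ℝ} (hm : ∀ i, 0 < m i) {p : Fin N → V3} {r : ℝ}
    (hr : 0 < r) (hp : ∀ i j, i ≠ j → r ≤ ‖p i - p j‖) : pot m p ≤ (∑ i, m i) ^ 2 / (2 * r) := by
  have h1 : pot m p ≤ ∑ i, ∑ j, m i * m j / r / 2 := by
    unfold pot
    apply Finset.sum_le_sum
    intro i _
    apply Finset.sum_le_sum
    intro j _
    have hmm : 0 < m i * m j := mul_pos (hm i) (hm j)
    apply div_le_div_of_nonneg_right _ (by norm_num)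
    by_cases hij : i = j
    · rw [hij, sub_self, norm_zero, div_zero]
      rw [hij] at hmm
      positivity
    · exact div_le_div_of_nonneg_left hmm.le hr (hp i j hij)
  refine h1.trans (le_of_eq ?_)
  have h2 : (∑ i, m i) ^ 2 / (2 * r) = (∑ i, m i) ^ 2 / r / 2 := by
    rw [div_div, mul_comm]
  rw [h2, sq, Finset.sum_mul_sum, Finset.sum_div, Finset.sum_div]
  apply Finset.sum_congr rfl
  intro i _
  rw [Finset.sum_div, Finset.sum_div]

/-- Energy match: all the bodies are moved at the scale `r` of a close pair, such that the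
potential energy takes a prescribed value and all the pairs except the close one are at distance
at least `r`. -/
theorem exists_place {N : ℕ} {m : Fin N → ℝ} (hm : ∀ i, 0 < m i) (q : Fin N → V3)
    {a b : Fin N} (hab : a ≠ b) {r : ℝ} (hr : 0 < r) (hqab : ‖q a - q b‖ ≤ r) {Y : ℝ}
    (hY : (∑ i, m i) ^ 2 / (2 * r) ≤ Y) :
    ∃ q' : Fin N → V3, (∀ i j, i ≠ j → q' i ≠ q' j) ∧ ∑ i, m i • q' i = ∑ i, m i • q i ∧
      pot m q' = Y ∧
      (∀ i j, i ≠ j → ¬(i = a ∧ j = b) → ¬(i = b ∧ j = a) → r ≤ ‖q' i - q' j‖) ∧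
      ∀ i, ‖q' i - q i‖ ≤ 4 * (2 * N + 1) * r := by
  classical
  have hM : 0 < ∑ i, m i := Finset.sum_pos (fun i _ => hm i) ⟨a, Finset.mem_univ _⟩
  set e : V3 := EuclideanSpace.single 0 1 with he
  have he1 : ‖e‖ = 1 := by simp [he]
  have h2r : 0 < 2 * r := by linarith
  obtain ⟨z, hz1, hz2⟩ := exists_apart q h2r Finset.univ
  have hzz : ∀ i j, i ≠ j → 2 * r ≤ ‖z i - z j‖ := fun i j hij =>
    hz2 i (Finset.mem_univ _) j (Finset.mem_univ _) hij
  -- the configuration
  obtain ⟨P, hP⟩ : ∃ P : ℝ → Fin N → V3, P = fun s i => if i = b then z a + s • e else z i :=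
    ⟨_, rfl⟩
  have hPb : ∀ s, P s b = z a + s • e := by
    intro s
    rw [hP]
    simp
  have hPo : ∀ s j, j ≠ b → P s j = z j := by
    intro s j h1
    rw [hP]
    simp [h1]
  have hPab : ∀ s, 0 < s → ‖P s a - P s b‖ = s := by
    intro s hs
    rw [hPb, hPo s a hab, sub_add_cancel_left, norm_neg, norm_smul, he1, mul_one,
      Real.norm_of_nonneg hs.le]
  have hPc : ∀ i, Continuous (fun s => P s i) := by
    intro i
    by_cases hib : i = b
    · subst hib
      simp only [hPb]
      exact continuous_const.add (continuous_id.smul continuous_const)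
    · simp only [hPo _ i hib]
      exact continuous_const
  have hPbj : ∀ s, 0 < s → s ≤ r → ∀ j, j ≠ a → j ≠ b → r ≤ ‖P s b - P s j‖ := by
    intro s hs hsr j hja hjb
    rw [hPb, hPo s j hjb]
    have h1 := hzz a j (fun h => hja h.symm)
    have h2 : ‖z a - z j‖ ≤ ‖z a + s • e - z j‖ + ‖s • e‖ := by
      calc ‖z a - z j‖ = ‖(z a + s • e - z j) - s • e‖ := by congr 1; abel
        _ ≤ _ := norm_sub_le _ _
    rw [norm_smul, he1, mul_one, Real.norm_of_nonneg hs.le] at h2
    linarith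
  have hPfar : ∀ s, 0 < s → s ≤ r → ∀ i j, i ≠ j → ¬(i = a ∧ j = b) → ¬(i = b ∧ j = a) →
      r ≤ ‖P s i - P s j‖ := by
    intro s hs hsr i j hij h1 h2
    by_cases hib : i = b
    · rw [hib]
      exact hPbj s hs hsr j (fun h => h2 ⟨hib, h⟩) (fun h => hij (by rw [hib, h]))
    · by_cases hjb : j = b
      · rw [hjb, norm_sub_rev]
        exact hPbj s hs hsr i (fun h => h1 ⟨h, hjb⟩) hib
      · rw [hPo s i hib, hPo s j hjb]
        have := hzz i j hij
        linarith
  have hPnc : ∀ s, 0 < s → s ≤ r → ∀ i j, i ≠ j → P s i ≠ P s j := by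
    intro s hs hsr i j hij h
    by_cases h1 : i = a ∧ j = b
    · have h3 := hPab s hs
      rw [h1.1, h1.2] at h
      rw [h, sub_self, norm_zero] at h3
      linarith
    · by_cases h2 : i = b ∧ j = a
      · have h3 := hPab s hs
        rw [h2.1, h2.2] at h
        rw [h, sub_self, norm_zero] at h3
        linarith
      · have h3 := hPfar s hs hsr i j hij h1 h2
        rw [h, sub_self, norm_zero] at h3
        linarith
  have hmm : 0 < m a * m b := mul_pos (hm a) (hm b)
  have hYpos : 0 < Y := lt_of_lt_of_le (by positivity) hY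
  have hup : pot m (P r) ≤ Y := by
    refine le_trans (pot_le_of_apart hm hr ?_) hY
    intro i j hij
    by_cases h1 : i = a ∧ j = b
    · rw [h1.1, h1.2, hPab r hr]
    · by_cases h2 : i = b ∧ j = a
      · rw [h2.1, h2.2, norm_sub_rev, hPab r hr]
      · exact hPfar r hr le_rfl i j hij h1 h2
  obtain ⟨r₁, hr₁⟩ : ∃ r₁, r₁ = min r (m a * m b / Y) := ⟨_, rfl⟩
  have hr₁0 : 0 < r₁ := by rw [hr₁]; positivity
  have hr₁2 : r₁ ≤ r := by rw [hr₁]; exact min_le_left _ _
  have hr₁Y : r₁ ≤ m a * m b / Y := by rw [hr₁]; exact min_le_right _ _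
  have hlo : Y ≤ pot m (P r₁) := by
    refine le_trans ?_ (pot_ge_pair hm hab (P r₁))
    rw [hPab r₁ hr₁0, le_div_iff₀ hr₁0]
    have h1 := mul_le_mul_of_nonneg_left hr₁Y hYpos.le
    have h2 : Y * (m a * m b / Y) = m a * m b := by field_simp
    linarith
  have hcont : ContinuousOn (fun s => pot m (P s)) (Icc r₁ r) := by
    unfold pot
    apply continuousOn_finsetSum
    intro i _
    apply continuousOn_finsetSum
    intro j _
    by_cases hij : i = j
    · subst hij
      simp only [sub_self, norm_zero, div_zero, zero_div]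
      exact continuousOn_const
    · apply ContinuousOn.div_const
      apply ContinuousOn.div continuousOn_const
      · exact ((hPc i).sub (hPc j)).norm.continuousOn
      · intro s hs
        exact norm_ne_zero_iff.mpr (sub_ne_zero.mpr
          (hPnc s (hr₁0.trans_le hs.1) hs.2 i j hij))
  obtain ⟨s, hs, hsY⟩ := intermediate_value_Icc' hr₁2 hcont ⟨hup, hlo⟩
  simp only at hsY
  have hs0 : 0 < s := hr₁0.trans_le hs.1
  -- displacement
  obtain ⟨Δ, hΔ⟩ : ∃ Δ, Δ = 2 * (2 * N + 1) * r := ⟨_, rfl⟩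
  have hN0 : 0 ≤ (N : ℝ) * r := by positivity
  have hdisp : ∀ i, ‖P s i - q i‖ ≤ Δ := by
    intro i
    by_cases hib : i = b
    · rw [hib, hPb]
      have h1 := hz1 a
      calc ‖z a + s • e - q b‖ = ‖(z a - q a) + (q a - q b) + s • e‖ := by congr 1; abel
        _ ≤ ‖(z a - q a) + (q a - q b)‖ + ‖s • e‖ := norm_add_le _ _
        _ ≤ ‖z a - q a‖ + ‖q a - q b‖ + ‖s • e‖ := by
          gcongr
          exact norm_add_le _ _
        _ ≤ Δ := by
          rw [norm_smul, he1, mul_one, Real.norm_of_nonneg hs0.le, hΔ]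
          have := hs.2
          linarith
    · rw [hPo s i hib, hΔ]
      have h1 := hz1 i
      linarith
  -- recentre
  obtain ⟨w, hw⟩ : ∃ w : V3, w = (∑ i, m i)⁻¹ • ∑ i, m i • (P s i - q i) := ⟨_, rfl⟩
  have hwn : ‖w‖ ≤ Δ := by
    rw [hw, norm_smul, norm_inv, Real.norm_of_nonneg hM.le, inv_mul_le_iff₀ hM]
    refine (norm_sum_le _ _).trans ?_
    rw [Finset.sum_mul]
    apply Finset.sum_le_sum
    intro i _
    rw [norm_smul, Real.norm_of_nonneg (hm i).le]
    exact mul_le_mul_of_nonneg_left (hdisp i) (hm i).le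
  have hdiff : ∀ i j, (P s i - w) - (P s j - w) = P s i - P s j := fun i j => by abel
  refine ⟨fun i => P s i - w, ?_, ?_, ?_, ?_, ?_⟩
  · intro i j hij h
    exact hPnc s hs0 hs.2 i j hij (sub_left_injective h)
  · simp only [smul_sub]
    rw [Finset.sum_sub_distrib, ← Finset.sum_smul]
    have h1 : (∑ i, m i) • w = ∑ i, m i • P s i - ∑ i, m i • q i := by
      rw [hw, smul_smul, mul_inv_cancel₀ hM.ne', one_smul]
      simp only [smul_sub]
      rw [Finset.sum_sub_distrib]
    rw [h1]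
    abel
  · rw [← hsY]
    unfold pot
    simp only [hdiff]
  · intro i j hij h1 h2
    simp only [hdiff]
    exact hPfar s hs0 hs.2 i j hij h1 h2
  · intro i
    calc ‖P s i - w - q i‖ = ‖(P s i - q i) - w‖ := by congr 1; abel
      _ ≤ ‖P s i - q i‖ + ‖w‖ := norm_sub_le _ _
      _ ≤ Δ + Δ := add_le_add (hdisp i) hwn
      _ = 4 * (2 * N + 1) * r := by rw [hΔ]; ring

/-- Cauchy-Schwarz for the momentum of a group. -/
theorem sq_mom_le_kin {N : ℕ} {m : Fin N → ℝ} (hm : ∀ i, 0 < m i) (p : Fin N → V3)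
    (A : Finset (Fin N)) : ‖∑ i ∈ A, p i‖ ^ 2 ≤ 2 * (∑ i, m i) * kin m p := by
  have h1 : ‖∑ i ∈ A, p i‖ ≤ ∑ i ∈ A, ‖p i‖ := norm_sum_le _ _
  have h2 : (∑ i ∈ A, ‖p i‖) ^ 2 ≤ (∑ i ∈ A, m i) * ∑ i ∈ A, ‖p i‖ ^ 2 / m i := by
    have h3 := Finset.sum_mul_sq_le_sq_mul_sq A (fun i => √(m i)) (fun i => ‖p i‖ / √(m i))
    have e1 : ∑ i ∈ A, √(m i) * (‖p i‖ / √(m i)) = ∑ i ∈ A, ‖p i‖ := by
      apply Finset.sum_congr rfl
      intro i _
      have : 0 < √(m i) := Real.sqrt_pos.mpr (hm i)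
      field_simp
    have e2 : ∑ i ∈ A, √(m i) ^ 2 = ∑ i ∈ A, m i :=
      Finset.sum_congr rfl (fun i _ => Real.sq_sqrt (hm i).le)
    have e3 : ∑ i ∈ A, (‖p i‖ / √(m i)) ^ 2 = ∑ i ∈ A, ‖p i‖ ^ 2 / m i := by
      apply Finset.sum_congr rfl
      intro i _
      rw [div_pow, Real.sq_sqrt (hm i).le]
    rw [e1, e2, e3] at h3
    exact h3
  have h4 : ∑ i ∈ A, m i ≤ ∑ i, m i :=
    Finset.sum_le_sum_of_subset_of_nonneg (Finset.subset_univ _) (fun i _ _ => (hm i).le)
  have h5 : ∑ i ∈ A, ‖p i‖ ^ 2 / m i ≤ 2 * kin m p := by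
    have e1 : 2 * kin m p = ∑ i, ‖p i‖ ^ 2 / m i := by
      unfold kin
      rw [Finset.mul_sum]
      apply Finset.sum_congr rfl
      intro i _
      have := (hm i).ne'
      field_simp
    rw [e1]
    exact Finset.sum_le_sum_of_subset_of_nonneg (Finset.subset_univ _)
      (fun i _ _ => by have := hm i; positivity)
  have h6 : 0 ≤ ∑ i, m i := Finset.sum_nonneg (fun i _ => (hm i).le)
  have h7 : 0 ≤ ∑ i ∈ A, ‖p i‖ ^ 2 / m i :=
    Finset.sum_nonneg (fun i _ => by have := hm i; positivity)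
  calc ‖∑ i ∈ A, p i‖ ^ 2 ≤ (∑ i ∈ A, ‖p i‖) ^ 2 := pow_le_pow_left₀ (norm_nonneg _) h1 2
    _ ≤ (∑ i ∈ A, m i) * ∑ i ∈ A, ‖p i‖ ^ 2 / m i := h2
    _ ≤ (∑ i, m i) * (2 * kin m p) := mul_le_mul h4 h5 h7 h6
    _ = 2 * (∑ i, m i) * kin m p := by ring

end Pool.Agent.NBody
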