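import Mathlib
import Pool.Agent.NBody.Ends
import Pool.Agent.NBody.Infinity3

/-!
The distance to the wandering set is bounded by the size of the smallest triple, by the inverse
of the energy and by the inverse of the size of the configuration.
-/

set_option autoImplicit false
open scoped RealInnerProductSpace
open Set Finset Filter Topology

namespace Pool.Agent.NBody

theorem le_one_mul' {K t : ℝ} (hK : 1 ≤ K) (ht : 0 ≤ t) : t ≤ K * t := by
  calc t = 1 * t := (one_mul t).symm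
    _ ≤ K * t := mul_le_mul_of_nonneg_right hK ht

/-- some body carries the mean kinetic energy -/
theorem exists_fast {N : ℕ} {m : Fin N → ℝ} {μ : ℝ} (hμ : 0 < μ)
    (hμm : ∀ i, μ ≤ m i) (hN : 0 < N) (p : Fin N → V3) :
    ∃ l, 2 * μ * kin m p / N ≤ ‖p l‖ ^ 2 := by
  have : Nonempty (Fin N) := ⟨⟨0, hN⟩⟩
  have hNr : (0:ℝ) < N := by exact_mod_cast hN
  obtain ⟨l, -, hl⟩ := (Finset.univ : Finset (Fin N)).exists_max_image
    (fun i => ‖p i‖ ^ 2 / (2 * m i)) Finset.univ_nonempty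
  refine ⟨l, ?_⟩
  have h1 : kin m p ≤ N * (‖p l‖ ^ 2 / (2 * m l)) := by
    unfold kin
    have := Finset.sum_le_card_nsmul (Finset.univ : Finset (Fin N))
      (fun i => ‖p i‖ ^ 2 / (2 * m i)) (‖p l‖ ^ 2 / (2 * m l))
      (fun i _ => hl i (Finset.mem_univ i))
    rwa [Finset.card_univ, Fintype.card_fin, nsmul_eq_mul] at this
  have h2 : ‖p l‖ ^ 2 / (2 * m l) ≤ ‖p l‖ ^ 2 / (2 * μ) := by
    apply div_le_div_of_nonneg_left (by positivity) (by positivity)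
    linarith [hμm l]
  have h3 : kin m p ≤ N * (‖p l‖ ^ 2 / (2 * μ)) :=
    h1.trans (mul_le_mul_of_nonneg_left h2 hNr.le)
  rw [div_le_iff₀ hNr]
  have h4 := mul_le_mul_of_nonneg_left h3 (by positivity : 0 ≤ 2 * μ)
  have h5 : 2 * μ * (N * (‖p l‖ ^ 2 / (2 * μ))) = ‖p l‖ ^ 2 * N := by
    field_simp
  linarith

/-- A state with a separated fast group is wandering together with a box around it. -/
theorem wandering_box (N : ℕ) (m : Fin N → ℝ) (hm : ∀ i, 0 < m i) (hN : 0 < N) :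
    ∃ C₁ : ℝ, 0 < C₁ ∧ ∃ κ : ℝ, 0 < κ ∧ ∀ (S : Set (Ph N)) (ψ : Ph N → ℝ)
      (φ : ℝ → Ph N → Ph N), Setting m S ψ φ → ∀ (y : Ph N) (A : Finset (Fin N)) (d : ℝ),
      0 < d → (∀ i ∈ A, ∀ j ∉ A, d ≤ ‖y.1 i - y.1 j‖) → C₁ < ‖∑ i ∈ A, y.2 i‖ ^ 2 * d →
      ∀ z ∈ S, (∀ i, ‖z.1 i - y.1 i‖ ≤ d / 4) → (∀ i, ‖z.2 i - y.2 i‖ ≤ κ / √d) →
      Wandering S φ z := by
  obtain ⟨C₀, hC₀, H⟩ := wandering_of_momentum_orbit N m hm
  have hNr : (0:ℝ) < N := by exact_mod_cast hN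
  refine ⟨8 * C₀, by positivity, √(8 * C₀) / (2 * N), by positivity, ?_⟩
  intro S ψ φ hset y A d hd hsep hbig z hz hzq hzp
  have h0 : φ 0 z = z := (hset.flow z hz).1
  refine H S ψ φ hset z hz 0 A (d / 2) (by positivity) ?_ ?_
  · rw [h0]
    intro i hi j hj
    have h1 := hsep i hi j hj
    have h2 := hzq i
    have h3 := hzq j
    have h4 : ‖y.1 i - y.1 j‖ ≤ ‖z.1 i - y.1 i‖ + ‖z.1 i - z.1 j‖ + ‖z.1 j - y.1 j‖ := by
      calc ‖y.1 i - y.1 j‖ = ‖-(z.1 i - y.1 i) + (z.1 i - z.1 j) + (z.1 j - y.1 j)‖ := by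
            congr 1; abel
        _ ≤ ‖-(z.1 i - y.1 i) + (z.1 i - z.1 j)‖ + ‖z.1 j - y.1 j‖ := norm_add_le _ _
        _ ≤ ‖-(z.1 i - y.1 i)‖ + ‖z.1 i - z.1 j‖ + ‖z.1 j - y.1 j‖ := by
            gcongr
            exact norm_add_le _ _
        _ = _ := by rw [norm_neg]
    linarith
  · rw [h0]
    obtain ⟨Py, hPy⟩ : ∃ Py, Py = ∑ i ∈ A, y.2 i := ⟨_, rfl⟩
    obtain ⟨Pz, hPz⟩ : ∃ Pz, Pz = ∑ i ∈ A, z.2 i := ⟨_, rfl⟩
    rw [← hPy] at hbig
    rw [← hPz]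
    have hsd : 0 < √d := Real.sqrt_pos.mpr hd
    have h1 : √(8 * C₀) / √d ≤ ‖Py‖ := by
      rw [div_le_iff₀ hsd]
      apply Real.sqrt_le_iff.mpr
      refine ⟨by positivity, ?_⟩
      rw [mul_pow, Real.sq_sqrt hd.le]
      exact hbig.le
    have h2 : ‖Pz - Py‖ ≤ ‖Py‖ / 2 := by
      have e1 : Pz - Py = ∑ i ∈ A, (z.2 i - y.2 i) := by
        rw [Finset.sum_sub_distrib, hPy, hPz]
      rw [e1]
      refine (norm_sum_le _ _).trans ?_
      have e2 : ∑ i ∈ A, ‖z.2 i - y.2 i‖ ≤ ∑ i ∈ A, √(8 * C₀) / (2 * N) / √d :=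
        Finset.sum_le_sum (fun i _ => hzp i)
      refine e2.trans ?_
      rw [Finset.sum_const, nsmul_eq_mul]
      have e3 : (A.card : ℝ) ≤ N := by
        have := Finset.card_le_univ A
        rw [Fintype.card_fin] at this
        exact_mod_cast this
      have e4 : 0 ≤ √(8 * C₀) / (2 * N) / √d := by positivity
      calc (A.card : ℝ) * (√(8 * C₀) / (2 * N) / √d) ≤ N * (√(8 * C₀) / (2 * N) / √d) :=
            mul_le_mul_of_nonneg_right e3 e4
        _ = √(8 * C₀) / √d / 2 := by field_simp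
        _ ≤ ‖Py‖ / 2 := by linarith
    have h3 : ‖Py‖ / 2 ≤ ‖Pz‖ := by
      have e1 : ‖Py‖ ≤ ‖Pz - Py‖ + ‖Pz‖ := by
        calc ‖Py‖ = ‖Pz - (Pz - Py)‖ := by congr 1; abel
          _ ≤ ‖Pz‖ + ‖Pz - Py‖ := norm_sub_le _ _
          _ = _ := add_comm _ _
      linarith
    have h4 : (‖Py‖ / 2) ^ 2 ≤ ‖Pz‖ ^ 2 := pow_le_pow_left₀ (by positivity) h3 2
    have h5 := mul_le_mul_of_nonneg_right h4 (by positivity : 0 ≤ d / 2)
    have h6 : (‖Py‖ / 2) ^ 2 * (d / 2) = ‖Py‖ ^ 2 * d / 8 := by ring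
    linarith

/-- A close pair and a fast group which contains both or neither of its bodies. -/
theorem near_pair (N : ℕ) (m : Fin N → ℝ) (hm : ∀ i, 0 < m i) :
    ∃ C : ℝ, 1 ≤ C ∧ ∀ (E : ℝ), E < 0 →
      ∀ (S : Set (Ph N)) (ψ : Ph N → ℝ) (φ : ℝ → Ph N → Ph N),
      Setting m S ψ φ →
      (∀ x : Ph N, x ∈ S ↔ (∀ i j, i ≠ j → x.1 i ≠ x.1 j) ∧ ∑ i, m i • x.1 i = 0 ∧
        ∑ i, x.2 i = 0 ∧ kin m x.2 - pot m x.1 = E) →
      ∀ x ∈ S, ∀ (a b : Fin N) (A : Finset (Fin N)), a ≠ b → (a ∈ A ↔ b ∈ A) → ∀ η : ℝ,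
        ‖x.1 a - x.1 b‖ ≤ η → 1 ≤ η * ‖∑ i ∈ A, x.2 i‖ ^ 2 →
        ∃ y ∈ S, (∀ i, ‖y.1 i - x.1 i‖ ≤ C * η) ∧ y.2 = x.2 ∧ ∀ z ∈ S,
          (∀ i, ‖z.1 i - y.1 i‖ ≤ η / C) → (∀ i, ‖z.2 i - y.2 i‖ ≤ 1 / (C * √η)) →
          Wandering S φ z := by
  classical
  rcases Nat.eq_zero_or_pos N with hN | hN
  · subst hN
    exact ⟨1, le_rfl, fun E _ S ψ φ _ _ x _ a => Fin.elim0 a⟩
  obtain ⟨C₀, hC₀, κ, hκ, H⟩ := wandering_box N m hm hN
  obtain ⟨M, hM⟩ : ∃ M, M = ∑ i, m i := ⟨_, rfl⟩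
  have hMpos : 0 < M := by
    rw [hM]
    exact Finset.sum_pos (fun i _ => hm i) ⟨⟨0, hN⟩, Finset.mem_univ _⟩
  obtain ⟨L, hL⟩ : ∃ L, L = 1 + C₀ + M ^ 3 := ⟨_, rfl⟩
  have hM3 : 0 < M ^ 3 := by positivity
  have hL1 : 1 ≤ L := by rw [hL]; linarith
  have hL0 : 0 < L := by linarith
  have hLC : C₀ < L := by rw [hL]; linarith
  have hLM : M ^ 3 ≤ L := by rw [hL]; linarith
  obtain ⟨C, hC⟩ : ∃ C, C = 4 * (2 * N + 1) * L + √L / κ := ⟨_, rfl⟩
  have h5 : 0 ≤ √L / κ := by positivity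
  have hN0 : (0:ℝ) ≤ N := Nat.cast_nonneg _
  have hNL : 0 ≤ (N : ℝ) * L := by positivity
  have hC4 : 4 ≤ C := by rw [hC]; linarith
  refine ⟨C, by linarith, ?_⟩
  intro E hE S ψ φ hset hS x hx a b A hab habA η hηab hηA
  obtain ⟨hnc, hcom, hmom, hen⟩ := (hS x).mp hx
  have hqpos : 0 < ‖x.1 a - x.1 b‖ := norm_pos_iff.mpr (sub_ne_zero.mpr (hnc a b hab))
  have hη : 0 < η := hqpos.trans_le hηab
  have hLη : 0 < L * η := by positivity
  have hYle : (∑ i, m i) ^ 2 / (2 * (L * η)) ≤ pot m x.1 := by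
    rw [← hM]
    have e1 := sq_mom_le_kin hm x.2 A
    rw [← hM] at e1
    have e2 : M ^ 3 * 1 ≤ L * (η * ‖∑ i ∈ A, x.2 i‖ ^ 2) :=
      mul_le_mul hLM hηA (by norm_num) hL0.le
    have e3 : M ^ 3 ≤ L * η * (2 * M * kin m x.2) := by
      calc M ^ 3 = M ^ 3 * 1 := (mul_one _).symm
        _ ≤ L * (η * ‖∑ i ∈ A, x.2 i‖ ^ 2) := e2
        _ = L * η * ‖∑ i ∈ A, x.2 i‖ ^ 2 := by ring
        _ ≤ L * η * (2 * M * kin m x.2) := mul_le_mul_of_nonneg_left e1 hLη.le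
    rw [div_le_iff₀ (by positivity)]
    have e4 : M * M ^ 2 ≤ M * (kin m x.2 * (2 * (L * η))) := by
      calc M * M ^ 2 = M ^ 3 := by ring
        _ ≤ L * η * (2 * M * kin m x.2) := e3
        _ = M * (kin m x.2 * (2 * (L * η))) := by ring
    have e5 := le_of_mul_le_mul_left e4 hMpos
    refine e5.trans ?_
    apply mul_le_mul_of_nonneg_right _ (by positivity)
    linarith
  obtain ⟨q', hq1, hq2, hq3, hq4, hq5⟩ := exists_place hm x.1 hab hLη
    (hηab.trans (le_one_mul' hL1 hη.le)) hYle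
  have hyS : ((q', x.2) : Ph N) ∈ S := by
    rw [hS]
    refine ⟨hq1, ?_, hmom, ?_⟩
    · simp only
      rw [hq2, hcom]
    · simp only
      rw [hq3]
      exact hen
  refine ⟨(q', x.2), hyS, ?_, rfl, ?_⟩
  · intro i
    refine (hq5 i).trans ?_
    have e1 : 4 * (2 * N + 1) * (L * η) = 4 * (2 * N + 1) * L * η := by ring
    rw [e1]
    apply mul_le_mul_of_nonneg_right _ hη.le
    rw [hC]
    linarith
  · intro z hz hzq hzp
    have hsη : 0 < √η := Real.sqrt_pos.mpr hη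
    have hsL : 0 < √L := Real.sqrt_pos.mpr hL0
    refine H S ψ φ hset (q', x.2) A (L * η) hLη ?_ ?_ z hz
      (fun i => (hzq i).trans ?_) (fun i => (hzp i).trans ?_)
    · intro i hi j hj
      refine hq4 i j (fun h => hj (h ▸ hi)) ?_ ?_
      · rintro ⟨rfl, rfl⟩
        exact hj (habA.mp hi)
      · rintro ⟨rfl, rfl⟩
        exact hj (habA.mpr hi)
    · have e1 := mul_le_mul_of_nonneg_left hηA hL0.le
      have e2 : L * (η * ‖∑ i ∈ A, x.2 i‖ ^ 2) = ‖∑ i ∈ A, x.2 i‖ ^ 2 * (L * η) := by ring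
      simp only
      linarith
    · have e1 : η / C ≤ η / 4 := div_le_div_of_nonneg_left hη.le (by norm_num) hC4
      have e2 : η / 4 ≤ L * η / 4 := by
        apply div_le_div_of_nonneg_right _ (by norm_num)
        exact le_one_mul' hL1 hη.le
      exact e1.trans e2
    · rw [Real.sqrt_mul hL0.le, div_le_div_iff₀ (by positivity) (by positivity), one_mul]
      have e1 : √L / κ ≤ C := by
        rw [hC]
        have : 0 ≤ 4 * (2 * (N : ℝ) + 1) * L := by positivity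
        linarith
      rw [div_le_iff₀ hκ] at e1
      calc √L * √η ≤ C * κ * √η := mul_le_mul_of_nonneg_right e1 hsη.le
        _ = κ * (C * √η) := by ring

/-- The two kinds of small scale. -/
def SmallScale {N : ℕ} (x : Ph N) (η : ℝ) : Prop :=
  (∃ a b c : Fin N, a ≠ b ∧ b ≠ c ∧ a ≠ c ∧ ‖x.1 a - x.1 b‖ ≤ η ∧ ‖x.1 b - x.1 c‖ ≤ η ∧
      ‖x.1 a - x.1 c‖ ≤ η) ∨
    ∃ (a b : Fin N) (A : Finset (Fin N)), a ≠ b ∧ (a ∈ A ↔ b ∈ A) ∧ ‖x.1 a - x.1 b‖ ≤ η ∧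
      1 ≤ η * ‖∑ i ∈ A, x.2 i‖ ^ 2

/-- Near a triple collision, or a close pair and a fast group. -/
theorem near_small (N : ℕ) (m : Fin N → ℝ) (hm : ∀ i, 0 < m i) :
    ∃ C : ℝ, 1 ≤ C ∧ ∀ (E : ℝ), E < 0 →
      ∀ (S : Set (Ph N)) (ψ : Ph N → ℝ) (φ : ℝ → Ph N → Ph N),
      Setting m S ψ φ →
      (∀ x : Ph N, x ∈ S ↔ (∀ i j, i ≠ j → x.1 i ≠ x.1 j) ∧ ∑ i, m i • x.1 i = 0 ∧
        ∑ i, x.2 i = 0 ∧ kin m x.2 - pot m x.1 = E) →
      ∀ x ∈ S, ∀ η : ℝ, SmallScale x η → η ≤ 1 / (C * |E|) →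
        ∃ y ∈ S, (∀ i, ‖y.1 i - x.1 i‖ ≤ C * η) ∧ y.2 = x.2 ∧ ∀ z ∈ S,
          (∀ i, ‖z.1 i - y.1 i‖ ≤ η / C) → (∀ i, ‖z.2 i - y.2 i‖ ≤ 1 / (C * √η)) →
          Wandering S φ z := by
  classical
  rcases Nat.eq_zero_or_pos N with hN | hN
  · subst hN
    refine ⟨1, le_rfl, fun E _ S ψ φ _ _ x _ η h => ?_⟩
    rcases h with ⟨a, -⟩ | ⟨a, -⟩
    · exact Fin.elim0 a
    · exact Fin.elim0 a
  obtain ⟨C₁, hC₁, H₁⟩ := near_pair N m hm
  have hNr : (0:ℝ) < N := by exact_mod_cast hN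
  have : Nonempty (Fin N) := ⟨⟨0, hN⟩⟩
  obtain ⟨i₀, hi₀⟩ := Finite.exists_min m
  obtain ⟨μ, hμd⟩ : ∃ μ, μ = m i₀ := ⟨_, rfl⟩
  rw [← hμd] at hi₀
  have hμ : 0 < μ := by rw [hμd]; exact hm i₀
  obtain ⟨κ, hκ⟩ : ∃ κ, κ = 1 + N / μ ^ 3 := ⟨_, rfl⟩
  have hκ0 : 0 ≤ N / μ ^ 3 := by positivity
  have hκ1 : 1 ≤ κ := by rw [hκ]; linarith
  have hκN : N / μ ^ 3 ≤ κ := by rw [hκ]; linarith
  have h3 : 0 ≤ 2 / μ ^ 2 := by positivity
  have hCκ : 0 ≤ C₁ * κ := by positivity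
  have hC₁κ : C₁ ≤ C₁ * κ := by
    calc C₁ = C₁ * 1 := (mul_one _).symm
      _ ≤ C₁ * κ := mul_le_mul_of_nonneg_left hκ1 (by linarith)
  refine ⟨C₁ * κ + 2 / μ ^ 2, by linarith, ?_⟩
  obtain ⟨C, hC⟩ : ∃ C, C = C₁ * κ + 2 / μ ^ 2 := ⟨_, rfl⟩
  rw [← hC]
  have hCC : C₁ * κ ≤ C := by rw [hC]; linarith
  have hCpos : 0 < C := by linarith
  -- enlarging the scale
  have key : ∀ t : ℝ, 1 ≤ t → t ≤ κ → ∀ (E : ℝ), E < 0 →
      ∀ (S : Set (Ph N)) (ψ : Ph N → ℝ) (φ : ℝ → Ph N → Ph N), Setting m S ψ φ →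
      (∀ x : Ph N, x ∈ S ↔ (∀ i j, i ≠ j → x.1 i ≠ x.1 j) ∧ ∑ i, m i • x.1 i = 0 ∧
        ∑ i, x.2 i = 0 ∧ kin m x.2 - pot m x.1 = E) →
      ∀ x ∈ S, ∀ (a b : Fin N) (A : Finset (Fin N)), a ≠ b → (a ∈ A ↔ b ∈ A) → ∀ η : ℝ,
        0 < η → ‖x.1 a - x.1 b‖ ≤ t * η → 1 ≤ t * η * ‖∑ i ∈ A, x.2 i‖ ^ 2 →
        ∃ y ∈ S, (∀ i, ‖y.1 i - x.1 i‖ ≤ C * η) ∧ y.2 = x.2 ∧ ∀ z ∈ S,
          (∀ i, ‖z.1 i - y.1 i‖ ≤ η / C) → (∀ i, ‖z.2 i - y.2 i‖ ≤ 1 / (C * √η)) →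
          Wandering S φ z := by
    intro t ht1 htκ E hE S ψ φ hset hS x hx a b A hab habA η hη h1 h2
    obtain ⟨y, hyS, hy1, hy2, hy3⟩ := H₁ E hE S ψ φ hset hS x hx a b A hab habA (t * η) h1 h2
    have ht0 : 0 < t := by linarith
    have hCt : C₁ * t ≤ C := (mul_le_mul_of_nonneg_left htκ (by linarith)).trans hCC
    refine ⟨y, hyS, fun i => (hy1 i).trans ?_, hy2, fun z hz hzq hzp => hy3 z hz
      (fun i => (hzq i).trans ?_) (fun i => (hzp i).trans ?_)⟩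
    · rw [← mul_assoc]
      exact mul_le_mul_of_nonneg_right hCt hη.le
    · have hC₁C : C₁ ≤ C := hC₁κ.trans hCC
      calc η / C ≤ η / C₁ := div_le_div_of_nonneg_left hη.le (by linarith) hC₁C
        _ ≤ t * η / C₁ := div_le_div_of_nonneg_right (le_one_mul' ht1 hη.le) (by linarith)
    · have hsη : 0 < √η := Real.sqrt_pos.mpr hη
      have hst : √t ≤ t := by
        apply Real.sqrt_le_iff.mpr
        refine ⟨ht0.le, ?_⟩
        calc t = t * 1 := (mul_one t).symm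
          _ ≤ t * t := mul_le_mul_of_nonneg_left ht1 ht0.le
          _ = t ^ 2 := (sq t).symm
      have hst0 : 0 < √t := Real.sqrt_pos.mpr ht0
      rw [Real.sqrt_mul ht0.le]
      apply one_div_le_one_div_of_le (by positivity)
      calc C₁ * (√t * √η) = C₁ * √t * √η := by ring
        _ ≤ C₁ * t * √η := by
          apply mul_le_mul_of_nonneg_right _ hsη.le
          exact mul_le_mul_of_nonneg_left hst (by linarith)
        _ ≤ C * √η := mul_le_mul_of_nonneg_right hCt hsη.le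
  intro E hE S ψ φ hset hS x hx η hsmall hηC
  obtain ⟨hnc, hcom, hmom, hen⟩ := (hS x).mp hx
  have hE' : 0 < |E| := abs_pos.mpr hE.ne
  rcases hsmall with ⟨a, b, c, hab, hbc, hac, hηab, hηbc, hηac⟩ |
    ⟨a, b, A, hab, habA, hηab, hηA⟩
  swap
  · have hqpos : 0 < ‖x.1 a - x.1 b‖ := norm_pos_iff.mpr (sub_ne_zero.mpr (hnc a b hab))
    exact key 1 le_rfl hκ1 E hE S ψ φ hset hS x hx a b A hab habA η (hqpos.trans_le hηab)
      (by rw [one_mul]; exact hηab) (by rw [one_mul]; exact hηA)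
  have hqpos : 0 < ‖x.1 a - x.1 b‖ := norm_pos_iff.mpr (sub_ne_zero.mpr (hnc a b hab))
  have hη : 0 < η := hqpos.trans_le hηab
  -- energies
  have hpot : μ ^ 2 / η ≤ pot m x.1 := by
    refine le_trans ?_ (pot_ge_pair hm hab x.1)
    have e1 : μ ^ 2 ≤ m a * m b := by
      have := mul_le_mul (hi₀ a) (hi₀ b) hμ.le (hm a).le
      rw [sq]; exact this
    calc μ ^ 2 / η ≤ μ ^ 2 / ‖x.1 a - x.1 b‖ :=
          div_le_div_of_nonneg_left (by positivity) hqpos hηab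
      _ ≤ m a * m b / ‖x.1 a - x.1 b‖ := div_le_div_of_nonneg_right e1 hqpos.le
  have hEη : |E| ≤ μ ^ 2 / η / 2 := by
    have e1 : η * (C * |E|) ≤ 1 := by
      rw [le_div_iff₀ (by positivity)] at hηC
      exact hηC
    have e2 : 2 / μ ^ 2 ≤ C := by rw [hC]; linarith
    have e3 : η * (2 / μ ^ 2 * |E|) ≤ η * (C * |E|) :=
      mul_le_mul_of_nonneg_left (mul_le_mul_of_nonneg_right e2 hE'.le) hη.le
    have e4 : η * (2 / μ ^ 2 * |E|) = 2 * η / μ ^ 2 * |E| := by ring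
    have e5 : 2 * η / μ ^ 2 * |E| ≤ 1 := by linarith
    have e6 := mul_le_mul_of_nonneg_left e5 (by positivity : 0 ≤ μ ^ 2 / η / 2)
    have e7 : μ ^ 2 / η / 2 * (2 * η / μ ^ 2 * |E|) = |E| := by
      field_simp
    linarith
  have hkin : μ ^ 2 / η / 2 ≤ kin m x.2 := by
    have e1 : |E| = -E := abs_of_neg hE
    linarith
  obtain ⟨l, hl⟩ := exists_fast hμ hi₀ hN x.2
  have hl2 : μ ^ 3 / N / η ≤ ‖x.2 l‖ ^ 2 := by
    refine le_trans ?_ hl
    have e1 := mul_le_mul_of_nonneg_left hkin (by positivity : 0 ≤ 2 * μ / N)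
    have e2 : 2 * μ / N * (μ ^ 2 / η / 2) = μ ^ 3 / N / η := by
      field_simp
    have e3 : 2 * μ / N * kin m x.2 = 2 * μ * kin m x.2 / N := by ring
    linarith
  have hl3 : 1 ≤ κ * η * ‖∑ i ∈ ({l} : Finset (Fin N)), x.2 i‖ ^ 2 := by
    rw [Finset.sum_singleton]
    have e1 : N / μ ^ 3 * η * (μ ^ 3 / N / η) = 1 := by field_simp
    calc (1:ℝ) = N / μ ^ 3 * η * (μ ^ 3 / N / η) := e1.symm
      _ ≤ κ * η * ‖x.2 l‖ ^ 2 := by
        apply mul_le_mul _ hl2 (by positivity) (by positivity)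
        exact mul_le_mul_of_nonneg_right hκN hη.le
  -- the pair
  obtain ⟨a', b', hab', hal', hbl', hq'⟩ : ∃ a' b' : Fin N, a' ≠ b' ∧ a' ≠ l ∧ b' ≠ l ∧
      ‖x.1 a' - x.1 b'‖ ≤ η := by
    by_cases hla : l = a
    · exact ⟨b, c, hbc, fun h => hab (by rw [h, hla]), fun h => hac (by rw [h, hla]), hηbc⟩
    · by_cases hlb : l = b
      · exact ⟨a, c, hac, fun h => hab (by rw [h, hlb]), fun h => hbc (by rw [h, hlb]), hηac⟩
      · exact ⟨a, b, hab, fun h => hla h.symm, fun h => hlb h.symm, hηab⟩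
  exact key κ hκ1 le_rfl E hE S ψ φ hset hS x hx a' b' {l} hab' (by
    rw [Finset.mem_singleton, Finset.mem_singleton]
    exact ⟨fun h => absurd h hal', fun h => absurd h hbl'⟩) η hη
    (hq'.trans (le_one_mul' hκ1 hη.le)) hl3

theorem boost_sub_le {N : ℕ} {m : Fin N → ℝ} (hm : ∀ i, 0 < m i) {A : Finset (Fin N)} {b : ℝ}
    (hb : 0 ≤ b) {w : V3} (hw : ‖w‖ = 1) (p : Fin N → V3) (k : Fin N) :
    ‖boost m A b w p k - p k‖ ≤ b := by
  have h1 : boost m A b w p k - p k =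
      (m k * (if k ∈ A then b / ∑ k ∈ A, m k else -(b / ∑ k ∈ Aᶜ, m k))) • w := by
    unfold boost
    abel
  rw [h1, norm_smul, hw, mul_one, Real.norm_eq_abs, abs_mul, abs_of_pos (hm k)]
  split_ifs with hk
  · have h2 : m k ≤ ∑ k ∈ A, m k := Finset.single_le_sum (fun i _ => (hm i).le) hk
    have h3 : 0 < ∑ k ∈ A, m k := (hm k).trans_le h2
    rw [abs_of_nonneg (div_nonneg hb h3.le), ← mul_div_assoc, div_le_iff₀ h3, mul_comm (m k)]
    exact mul_le_mul_of_nonneg_left h2 hb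
  · have h2 : m k ≤ ∑ k ∈ Aᶜ, m k :=
      Finset.single_le_sum (fun i _ => (hm i).le) (Finset.mem_compl.mpr hk)
    have h3 : 0 < ∑ k ∈ Aᶜ, m k := (hm k).trans_le h2
    rw [abs_neg, abs_of_nonneg (div_nonneg hb h3.le), ← mul_div_assoc, div_le_iff₀ h3,
      mul_comm (m k)]
    exact mul_le_mul_of_nonneg_left h2 hb

/-- The wandering set is dense at the scale of the energy. -/
theorem coarse_density (N : ℕ) (m : Fin N → ℝ) (hm : ∀ i, 0 < m i) (hN : 3 ≤ N) :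
    ∃ C : ℝ, 1 ≤ C ∧ ∀ (E : ℝ), E < 0 →
      ∀ (S : Set (Ph N)) (ψ : Ph N → ℝ) (φ : ℝ → Ph N → Ph N),
      Setting m S ψ φ →
      (∀ x : Ph N, x ∈ S ↔ (∀ i j, i ≠ j → x.1 i ≠ x.1 j) ∧ ∑ i, m i • x.1 i = 0 ∧
        ∑ i, x.2 i = 0 ∧ kin m x.2 - pot m x.1 = E) →
      ∀ x ∈ S, ∃ y ∈ S, (∀ i, ‖y.1 i - x.1 i‖ ≤ C / |E|) ∧
        (∀ i, ‖y.2 i - x.2 i‖ ≤ C * √|E|) ∧ ∀ z ∈ S,
          (∀ i, ‖z.1 i - y.1 i‖ ≤ 1 / (C * |E|)) → (∀ i, ‖z.2 i - y.2 i‖ ≤ √|E| / C) →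
          Wandering S φ z := by
  classical
  have hN0 : 0 < N := by omega
  obtain ⟨C₀, hC₀, κ, hκ, H⟩ := wandering_box N m hm hN0
  obtain ⟨M, hM⟩ : ∃ M, M = ∑ i, m i := ⟨_, rfl⟩
  have hMpos : 0 < M := by
    rw [hM]
    exact Finset.sum_pos (fun i _ => hm i) ⟨⟨0, hN0⟩, Finset.mem_univ _⟩
  obtain ⟨C₁, hC₁⟩ : ∃ C₁, C₁ = 4 * (2 * N + 1) * M ^ 2 := ⟨_, rfl⟩
  obtain ⟨C₂, hC₂⟩ : ∃ C₂, C₂ = √(2 * C₀ / M ^ 2) := ⟨_, rfl⟩
  obtain ⟨C₃, hC₃⟩ : ∃ C₃, C₃ = 4 / M ^ 2 + M / κ := ⟨_, rfl⟩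
  have hC₁0 : 0 ≤ C₁ := by rw [hC₁]; positivity
  have hC₂0 : 0 ≤ C₂ := by rw [hC₂]; exact Real.sqrt_nonneg _
  have hC₃a : 4 / M ^ 2 ≤ C₃ := by
    have : 0 ≤ M / κ := by positivity
    rw [hC₃]; linarith
  have hC₃b : M / κ ≤ C₃ := by
    have : 0 ≤ 4 / M ^ 2 := by positivity
    rw [hC₃]; linarith
  have hC₃0 : 0 ≤ C₃ := le_trans (by positivity) hC₃a
  refine ⟨1 + C₁ + C₂ + C₃, by linarith, ?_⟩
  intro E hE S ψ φ hset hS x hx
  obtain ⟨hnc, hcom, hmom, hen⟩ := (hS x).mp hx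
  have hE' : 0 < |E| := abs_pos.mpr hE.ne
  have hEabs : |E| = -E := abs_of_neg hE
  obtain ⟨r₁, hr₁⟩ : ∃ r₁, r₁ = M ^ 2 / |E| := ⟨_, rfl⟩
  have hr₁pos : 0 < r₁ := by rw [hr₁]; positivity
  have hkin0 : 0 ≤ kin m x.2 := by
    unfold kin
    exact Finset.sum_nonneg (fun i _ => by have := hm i; positivity)
  have hMr : (∑ i, m i) ^ 2 / (2 * r₁) = |E| / 2 := by
    rw [← hM, hr₁]
    field_simp
  -- a close pair
  obtain ⟨a, b, hab, hqab⟩ : ∃ a b : Fin N, a ≠ b ∧ ‖x.1 a - x.1 b‖ ≤ r₁ := by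
    by_contra hcon
    push Not at hcon
    have e1 := pot_le_of_apart hm hr₁pos (fun i j hij => (hcon i j hij).le)
    rw [hMr] at e1
    linarith
  obtain ⟨l, hl⟩ : ∃ l : Fin N, l ∉ ({a, b} : Finset (Fin N)) := by
    by_contra hcon
    push Not at hcon
    have e1 : (Finset.univ : Finset (Fin N)).card ≤ ({a, b} : Finset (Fin N)).card :=
      Finset.card_le_card (fun i _ => hcon i)
    rw [Finset.card_univ, Fintype.card_fin] at e1
    have := Finset.card_le_two (a := a) (b := b)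
    omega
  rw [Finset.mem_insert, Finset.mem_singleton, not_or] at hl
  -- the boost
  obtain ⟨w, hw1, hw2, -⟩ := exists_unit_aligned (∑ i ∈ ({l} : Finset (Fin N)), x.2 i)
  obtain ⟨β, hβ⟩ : ∃ β, β = √(2 * C₀ / r₁) := ⟨_, rfl⟩
  have hβ0 : 0 ≤ β := by rw [hβ]; exact Real.sqrt_nonneg _
  have hβ2 : β ^ 2 = 2 * C₀ / r₁ := by
    rw [hβ, Real.sq_sqrt (by positivity)]
  have hβE : β = C₂ * √|E| := by
    rw [hβ, hC₂, ← Real.sqrt_mul (by positivity)]
    congr 1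
    rw [hr₁]
    field_simp
  have hAne : ({l} : Finset (Fin N)).Nonempty := Finset.singleton_nonempty l
  have hAcne : ({l} : Finset (Fin N))ᶜ.Nonempty :=
    ⟨a, by rw [Finset.mem_compl, Finset.mem_singleton]; exact fun h => hl.1 h.symm⟩
  obtain ⟨p', hp'⟩ : ∃ p', p' = boost m {l} β w x.2 := ⟨_, rfl⟩
  have hkin : kin m x.2 ≤ kin m p' := by
    rw [hp', kin_boost hm hAne hAcne β hw1 x.2 hmom]
    have e1 : 0 ≤ β * ⟪∑ i ∈ ({l} : Finset (Fin N)), x.2 i, w⟫ + β ^ 2 / 2 := by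
      have := mul_nonneg hβ0 hw2
      positivity
    have e2 : 0 ≤ 1 / ∑ k ∈ ({l} : Finset (Fin N)), m k +
        1 / ∑ k ∈ ({l} : Finset (Fin N))ᶜ, m k := by
      have g1 := Finset.sum_nonneg (s := ({l} : Finset (Fin N))) (f := m)
        (fun i _ => (hm i).le)
      have g2 := Finset.sum_nonneg (s := ({l} : Finset (Fin N))ᶜ) (f := m)
        (fun i _ => (hm i).le)
      positivity
    have := mul_nonneg e1 e2
    linarith
  obtain ⟨q', hq1, hq2, hq3, hq4, hq5⟩ := exists_place hm x.1 hab hr₁pos hqab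
    (Y := kin m p' - E) (by rw [hMr]; linarith)
  have hyS : ((q', p') : Ph N) ∈ S := by
    rw [hS]
    refine ⟨hq1, ?_, ?_, ?_⟩
    · simp only
      rw [hq2, hcom]
    · simp only
      rw [hp', sum_boost hm hAne hAcne, hmom]
    · simp only
      rw [hq3]
      ring
  refine ⟨(q', p'), hyS, ?_, ?_, ?_⟩
  · intro i
    refine (hq5 i).trans ?_
    have e1 : 4 * (2 * N + 1) * r₁ = C₁ / |E| := by
      rw [hr₁, hC₁]
      ring
    rw [e1]
    apply div_le_div_of_nonneg_right _ hE'.le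
    linarith
  · intro i
    simp only
    rw [hp']
    refine (boost_sub_le hm hβ0 hw1 x.2 i).trans ?_
    rw [hβE]
    apply mul_le_mul_of_nonneg_right _ (Real.sqrt_nonneg _)
    linarith
  · intro z hz hzq hzp
    have hsE : 0 < √|E| := Real.sqrt_pos.mpr hE'
    refine H S ψ φ hset (q', p') {l} r₁ hr₁pos ?_ ?_ z hz
      (fun i => (hzq i).trans ?_) (fun i => (hzp i).trans ?_)
    · intro i hi j hj
      rw [Finset.mem_singleton] at hi hj
      refine hq4 i j (fun h => hj (by rw [← h, hi])) ?_ ?_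
      · rintro ⟨h, -⟩
        exact hl.1 (by rw [← hi, h])
      · rintro ⟨h, -⟩
        exact hl.2 (by rw [← hi, h])
    · simp only
      rw [hp', sum_boost_A hm hAne]
      have e1 : β ^ 2 ≤ ‖∑ i ∈ ({l} : Finset (Fin N)), x.2 i + β • w‖ ^ 2 := by
        rw [@norm_add_sq_real, inner_smul_right, norm_smul, hw1, mul_one, Real.norm_eq_abs, sq_abs]
        have e2 : 0 ≤ β * ⟪∑ i ∈ ({l} : Finset (Fin N)), x.2 i, w⟫ := mul_nonneg hβ0 hw2
        have e3 : 0 ≤ ‖∑ i ∈ ({l} : Finset (Fin N)), x.2 i‖ ^ 2 := sq_nonneg _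
        have e4 : 0 ≤ 2 * (β * ⟪∑ i ∈ ({l} : Finset (Fin N)), x.2 i, w⟫) :=
          mul_nonneg (by norm_num) e2
        exact le_add_of_nonneg_left (add_nonneg e3 e4)
      have e2 := mul_le_mul_of_nonneg_right e1 hr₁pos.le
      rw [hβ2] at e2
      have e3 : 2 * C₀ / r₁ * r₁ = 2 * C₀ := by
        field_simp
      linarith
    · rw [hr₁, div_le_iff₀ (by positivity)]
      rw [div_le_iff₀ (by positivity)] at hC₃a
      have e1 : M ^ 2 / |E| / 4 * ((1 + C₁ + C₂ + C₃) * |E|) =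
          (1 + C₁ + C₂ + C₃) * M ^ 2 / 4 := by
        field_simp
      rw [e1]
      have e2 : C₃ * M ^ 2 ≤ (1 + C₁ + C₂ + C₃) * M ^ 2 :=
        mul_le_mul_of_nonneg_right (by linarith) (by positivity)
      linarith
    · have e1 : √r₁ = M / √|E| := by
        rw [hr₁, Real.sqrt_div (by positivity), Real.sqrt_sq hMpos.le]
      rw [e1, div_div_eq_mul_div, div_le_div_iff₀ (by linarith) hMpos]
      rw [div_le_iff₀ hκ] at hC₃b
      have e2 : C₃ * κ ≤ (1 + C₁ + C₂ + C₃) * κ := mul_le_mul_of_nonneg_right (by linarith) hκ.le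
      calc √|E| * M ≤ √|E| * ((1 + C₁ + C₂ + C₃) * κ) :=
            mul_le_mul_of_nonneg_left (hC₃b.trans e2) hsE.le
        _ = κ * √|E| * (1 + C₁ + C₂ + C₃) := by ring

/-- Near infinity. -/
theorem near_infinity (N : ℕ) (m : Fin N → ℝ) (hm : ∀ i, 0 < m i) (hN : 2 ≤ N) :
    ∃ C : ℝ, 1 ≤ C ∧ ∀ (E : ℝ), E < 0 →
      ∀ (S : Set (Ph N)) (ψ : Ph N → ℝ) (φ : ℝ → Ph N → Ph N),
      Setting m S ψ φ →
      (∀ x : Ph N, x ∈ S ↔ (∀ i j, i ≠ j → x.1 i ≠ x.1 j) ∧ ∑ i, m i • x.1 i = 0 ∧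
        ∑ i, x.2 i = 0 ∧ kin m x.2 - pot m x.1 = E) →
      ∀ x ∈ S, ∀ ρ : ℝ, ρ = √(∑ i, m i * ‖x.1 i‖ ^ 2) → C / |E| ≤ ρ →
        ∃ y ∈ S, (∀ i, ‖y.1 i - x.1 i‖ ≤ C / (E ^ 2 * ρ)) ∧
          (∀ i, ‖y.2 i - x.2 i‖ ≤ C / √ρ) ∧ ∀ z ∈ S,
          (∀ i, ‖z.1 i - y.1 i‖ ≤ ρ / C) → (∀ i, ‖z.2 i - y.2 i‖ ≤ 1 / (C * √ρ)) →
          Wandering S φ z := by
  obtain ⟨C₀, hC₀, κ, hκ, H⟩ := wandering_box N m hm (by omega)
  obtain ⟨K, hK, HK⟩ := static_infinity N m hm hN hC₀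
  refine ⟨1 + 4 * K + √K / κ, by
    have : 0 ≤ √K / κ := by positivity
    linarith, ?_⟩
  intro E hE S ψ φ hset hS x hx ρ hρ hρC
  have hE' : 0 < |E| := abs_pos.mpr hE.ne
  have hK2 : 0 ≤ √K / κ := by positivity
  have hKC : K ≤ 1 + 4 * K + √K / κ := by linarith
  have hKC4 : 4 * K ≤ 1 + 4 * K + √K / κ := by linarith
  obtain ⟨y, A, d', hy1, hd', hd1, hd2, hsep, hbig, hy2, hy3⟩ := HK E hE x ((hS x).mp hx) (by
    rw [← hρ]
    exact (div_le_div_of_nonneg_right hKC hE'.le).trans hρC)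
  rw [← hρ] at hd1 hd2 hy2 hy3
  have hρpos : 0 < ρ := lt_of_lt_of_le (by positivity) hρC
  refine ⟨y, (hS y).mpr hy1, fun i => (hy2 i).trans ?_, fun i => (hy3 i).trans ?_, ?_⟩
  · exact div_le_div_of_nonneg_right hKC (mul_nonneg (sq_nonneg _) hρpos.le)
  · exact div_le_div_of_nonneg_right hKC (Real.sqrt_nonneg _)
  · intro z hz hzq hzp
    refine H S ψ φ hset y A d' hd' hsep hbig z hz (fun i => (hzq i).trans ?_)
      (fun i => (hzp i).trans ?_)
    · have e1 : ρ / (1 + 4 * K + √K / κ) ≤ ρ / (4 * K) :=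
        div_le_div_of_nonneg_left hρpos.le (by positivity) hKC4
      refine e1.trans ?_
      rw [div_le_div_iff₀ (by positivity) (by norm_num)]
      linarith
    · have hsρ : 0 < √ρ := Real.sqrt_pos.mpr hρpos
      have hsd : 0 < √d' := Real.sqrt_pos.mpr hd'
      have e1 : √d' ≤ √K * √ρ := by
        rw [← Real.sqrt_mul hK.le]
        exact Real.sqrt_le_sqrt hd2
      rw [div_le_div_iff₀ (by positivity) hsd, one_mul]
      have e2 : √K ≤ (1 + 4 * K + √K / κ) * κ := by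
        have e3 : √K = √K / κ * κ := by field_simp
        calc √K = √K / κ * κ := e3
          _ ≤ (1 + 4 * K + √K / κ) * κ := mul_le_mul_of_nonneg_right (by linarith) hκ.le
      calc √d' ≤ √K * √ρ := e1
        _ ≤ (1 + 4 * K + √K / κ) * κ * √ρ := mul_le_mul_of_nonneg_right e2 hsρ.le
        _ = κ * ((1 + 4 * K + √K / κ) * √ρ) := by ring

theorem le_mul_min3 {K t u v w : ℝ} (hK : 0 ≤ K) (h1 : t ≤ K * u) (h2 : t ≤ K * v)
    (h3 : t ≤ K * w) : t ≤ K * min u (min v w) := by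
  rw [mul_min_of_nonneg _ _ hK, mul_min_of_nonneg _ _ hK]
  exact le_min h1 (le_min h2 h3)

/-- the momentum bound at the scale of the energy -/
theorem sqrt_scale {K e d : ℝ} (hK : 1 ≤ K) (he : 0 < e) (hd : 0 < d) (h : 1 / e ≤ K * d) :
    √e ≤ K * (e * √d) := by
  have h0 : 0 ≤ √d := Real.sqrt_nonneg _
  apply Real.sqrt_le_iff.mpr
  constructor
  · positivity
  · have h1 : e ≤ K * (e ^ 2 * d) := by
      have h2 := mul_le_mul_of_nonneg_left h (by positivity : 0 ≤ e ^ 2)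
      have h3 : e ^ 2 * (1 / e) = e := by field_simp
      rw [h3] at h2
      calc e ≤ e ^ 2 * (K * d) := h2
        _ = K * (e ^ 2 * d) := by ring
    have h4 : (K * (e * √d)) ^ 2 = K ^ 2 * (e ^ 2 * d) := by
      rw [mul_pow, mul_pow, Real.sq_sqrt hd.le]
    rw [h4]
    refine h1.trans ?_
    apply mul_le_mul_of_nonneg_right _ (by positivity)
    calc K = K * 1 := (mul_one K).symm
      _ ≤ K * K := mul_le_mul_of_nonneg_left hK (by linarith)
      _ = K ^ 2 := (sq K).symm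

/-- a box at the scale `d` is inside of a box at a larger scale -/
theorem box_scale {C c e d t : ℝ} (hc : 0 < c) (hcC : c ≤ C) (he : 0 < e) (hdt : d ≤ t)
    (ht : 0 < t) (het : e * t ≤ 1) : d / C ≤ t / c ∧ e * √d / C ≤ 1 / (c * √t) := by
  have hC : 0 < C := hc.trans_le hcC
  have hst : 0 < √t := Real.sqrt_pos.mpr ht
  constructor
  · calc d / C ≤ t / C := div_le_div_of_nonneg_right hdt hC.le
      _ ≤ t / c := div_le_div_of_nonneg_left ht.le hc hcC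
  · rw [div_le_div_iff₀ hC (by positivity), one_mul]
    have h1 : √d ≤ √t := Real.sqrt_le_sqrt hdt
    have h2 : √d * √t ≤ t := by
      calc √d * √t ≤ √t * √t := mul_le_mul_of_nonneg_right h1 hst.le
        _ = t := Real.mul_self_sqrt ht.le
    have h3 : e * (√d * √t) ≤ 1 := (mul_le_mul_of_nonneg_left h2 he.le).trans het
    have h4 := mul_le_mul_of_nonneg_left h3 hc.le
    calc e * √d * (c * √t) = c * (e * (√d * √t)) := by ring
      _ ≤ c * 1 := h4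
      _ ≤ C := by linarith

/-- The distance to the wandering set. -/
theorem dist_wandering (N : ℕ) (m : Fin N → ℝ) (hm : ∀ i, 0 < m i) (hN : 3 ≤ N) :
    ∃ C : ℝ, 0 < C ∧ ∀ (E : ℝ), E < 0 →
      ∀ (S : Set (Ph N)) (ψ : Ph N → ℝ) (φ : ℝ → Ph N → Ph N),
      Setting m S ψ φ →
      (∀ x : Ph N, x ∈ S ↔ (∀ i j, i ≠ j → x.1 i ≠ x.1 j) ∧ ∑ i, m i • x.1 i = 0 ∧
        ∑ i, x.2 i = 0 ∧ kin m x.2 - pot m x.1 = E) →
      ∀ x ∈ S, ∀ η ρ d : ℝ, SmallScale x η →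
        ρ = √(∑ i, m i * ‖x.1 i‖ ^ 2) →
        d = min (1 / |E|) (min η (1 / (E ^ 2 * ρ))) →
        ∃ y ∈ S, (∀ i, ‖y.1 i - x.1 i‖ ≤ C * d) ∧
          (∀ i, ‖y.2 i - x.2 i‖ ≤ C * |E| * √d) ∧
          (η ≤ 1 / (C * |E|) → η ≤ 1 / (E ^ 2 * ρ) → y.2 = x.2) ∧
          ∀ z ∈ S, (∀ i, ‖z.1 i - y.1 i‖ ≤ d / C) → (∀ i, ‖z.2 i - y.2 i‖ ≤ |E| * √d / C) →
            Wandering S φ z := by
  classical
  obtain ⟨CA, hCA, HA⟩ := near_small N m hm
  obtain ⟨CD, hCD1, HB⟩ := near_infinity N m hm (by omega)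
  obtain ⟨CC, hCC, HC⟩ := coarse_density N m hm hN
  obtain ⟨K, hK⟩ : ∃ K, K = CA * CD := ⟨_, rfl⟩
  have hK1 : 1 ≤ K := by rw [hK]; nlinarith
  have hKA : CA ≤ K := by rw [hK]; nlinarith
  have hKD : CD ≤ K := by rw [hK]; nlinarith
  obtain ⟨C, hC⟩ : ∃ C, C = K * CC := ⟨_, rfl⟩
  have hKC : K ≤ C := by rw [hC]; nlinarith
  have hCCC : CC ≤ C := by rw [hC]; nlinarith
  have hCAC : CA ≤ C := hKA.trans hKC
  have hCDC : CD ≤ C := hKD.trans hKC
  have hC0 : 0 < C := by linarith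
  refine ⟨C, hC0, ?_⟩
  intro E hE S ψ φ hset hS x hx η ρ d hη hρ hd
  obtain ⟨hnc, hcom, hmom, hen⟩ := (hS x).mp hx
  have hE' : 0 < |E| := abs_pos.mpr hE.ne
  have hE2 : E ^ 2 = |E| * |E| := by rw [← sq, sq_abs]
  obtain ⟨a, b, hab, hηab⟩ : ∃ a b : Fin N, a ≠ b ∧ ‖x.1 a - x.1 b‖ ≤ η := by
    rcases hη with ⟨a, b, c, hab, -, -, h, -⟩ | ⟨a, b, A, hab, -, h, -⟩
    · exact ⟨a, b, hab, h⟩
    · exact ⟨a, b, hab, h⟩
  have hηpos : 0 < η :=
    (norm_pos_iff.mpr (sub_ne_zero.mpr (hnc a b hab))).trans_le hηab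
  have hρpos : 0 < ρ := by
    rw [hρ]
    apply Real.sqrt_pos.mpr
    have h0 : ∀ i ∈ (Finset.univ : Finset (Fin N)), 0 ≤ m i * ‖x.1 i‖ ^ 2 := fun i _ => by
      have := hm i
      positivity
    rcases (Finset.sum_nonneg h0).lt_or_eq with h | h
    · exact h
    · exfalso
      have h1 := (Finset.sum_eq_zero_iff_of_nonneg h0).mp h.symm
      have h2 : ∀ i, x.1 i = 0 := by
        intro i
        have h3 := h1 i (Finset.mem_univ i)
        rcases mul_eq_zero.mp h3 with h4 | h4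
        · exact absurd h4 (hm i).ne'
        · exact norm_eq_zero.mp (pow_eq_zero_iff (two_ne_zero) |>.mp h4)
      exact hnc a b hab (by rw [h2 a, h2 b])
  have hEρ : 0 < E ^ 2 * ρ := by rw [hE2]; positivity
  have hd0 : 0 < d := by
    rw [hd]
    refine lt_min (by positivity) (lt_min hηpos (by positivity))
  have hdE : d ≤ 1 / |E| := by rw [hd]; exact min_le_left _ _
  have hdη : d ≤ η := by rw [hd]; exact (min_le_right _ _).trans (min_le_left _ _)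
  by_cases hcase : CD / |E| ≤ ρ ∧ 1 / (E ^ 2 * ρ) < η
  · -- infinity
    obtain ⟨h1, h2⟩ := hcase
    obtain ⟨y, hyS, hy2, hy3, hy4⟩ := HB E hE S ψ φ hset hS x hx ρ hρ h1
    have h1' : 1 / |E| ≤ ρ := (div_le_div_of_nonneg_right hCD1 hE'.le).trans h1
    have h3 : 1 / (E ^ 2 * ρ) ≤ 1 / |E| := by
      rw [hE2]
      apply one_div_le_one_div_of_le hE'
      rw [div_le_iff₀ hE'] at h1'
      nlinarith
    have hdv : d = 1 / (E ^ 2 * ρ) := by
      rw [hd, min_eq_right h2.le, min_eq_right h3]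
    have h4 : |E| * √d = 1 / √ρ := by
      rw [hdv, hE2, one_div, Real.sqrt_inv, Real.sqrt_mul (by positivity),
        Real.sqrt_mul_self hE'.le]
      have : 0 < √ρ := Real.sqrt_pos.mpr hρpos
      field_simp
    refine ⟨y, hyS, fun i => (hy2 i).trans ?_, fun i => (hy3 i).trans ?_, fun _ h => ?_,
      fun z hz hzq hzp => hy4 z hz (fun i => (hzq i).trans ?_) (fun i => (hzp i).trans ?_)⟩
    · rw [hdv, mul_one_div]
      exact div_le_div_of_nonneg_right hCDC hEρ.le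
    · rw [mul_assoc, h4, mul_one_div]
      exact div_le_div_of_nonneg_right hCDC (Real.sqrt_nonneg _)
    · exact absurd h2 (not_lt.mpr h)
    · calc d / C ≤ ρ / C := div_le_div_of_nonneg_right (hdE.trans h1') hC0.le
        _ ≤ ρ / CD := div_le_div_of_nonneg_left hρpos.le (by linarith) hCDC
    · have hsρ : 0 < √ρ := Real.sqrt_pos.mpr hρpos
      rw [h4, div_div, mul_comm]
      apply one_div_le_one_div_of_le (mul_pos (by linarith) hsρ)
      exact mul_le_mul_of_nonneg_right hCDC hsρ.le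
  · -- the third scale
    have hthird : 1 / |E| ≤ CD * (1 / (E ^ 2 * ρ)) ∨ η ≤ 1 / (E ^ 2 * ρ) := by
      rcases not_and_or.mp hcase with h | h
      · left
        push Not at h
        rw [lt_div_iff₀ hE'] at h
        rw [mul_one_div, hE2, div_le_div_iff₀ hE' (by positivity), one_mul]
        nlinarith
      · right
        exact not_lt.mp h
    by_cases hcase2 : η ≤ 1 / (CA * |E|)
    · -- a small triple
      obtain ⟨y, hyS, hy2, hy3, hy4⟩ := HA E hE S ψ φ hset hS x hx η hη hcase2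
      have hηE : η ≤ 1 / |E| := by
        refine hcase2.trans ?_
        apply one_div_le_one_div_of_le hE'
        exact le_one_mul' hCA hE'.le
      have hηd : η ≤ CD * d := by
        rw [hd]
        have h0 : 0 ≤ 1 / |E| := (one_div_pos.mpr hE').le
        have h0' : 0 ≤ 1 / (E ^ 2 * ρ) := (one_div_pos.mpr hEρ).le
        refine le_mul_min3 (by linarith) (hηE.trans (le_one_mul' hCD1 h0))
          (le_one_mul' hCD1 hηpos.le) ?_
        rcases hthird with h | h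
        · exact hηE.trans h
        · exact h.trans (le_one_mul' hCD1 h0')
      have hEη : |E| * η ≤ 1 := by
        rw [le_div_iff₀ hE'] at hηE
        linarith
      obtain ⟨hb1, hb2⟩ := box_scale (c := CA) (by linarith) hCAC hE' hdη hηpos hEη
      refine ⟨y, hyS, fun i => (hy2 i).trans ?_, fun i => ?_, fun _ _ => hy3,
        fun z hz hzq hzp => hy4 z hz (fun i => (hzq i).trans hb1) (fun i => (hzp i).trans hb2)⟩
      · have h1 : CA * η ≤ CA * (CD * d) := mul_le_mul_of_nonneg_left hηd (by linarith)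
        have h2 : CA * (CD * d) = K * d := by rw [hK]; ring
        have h3 : K * d ≤ C * d := mul_le_mul_of_nonneg_right hKC hd0.le
        linarith
      · rw [hy3, sub_self, norm_zero]
        positivity
    · -- the scale of the energy
      push Not at hcase2
      obtain ⟨y, hyS, hy2, hy3, hy4⟩ := HC E hE S ψ φ hset hS x hx
      have hEη : 1 / |E| < CA * η := by
        rw [div_lt_iff₀ (by positivity)] at hcase2
        rw [div_lt_iff₀ hE']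
        linarith
      have hEd : 1 / |E| ≤ K * d := by
        have h0 : 0 ≤ 1 / |E| := (one_div_pos.mpr hE').le
        have h0' : 0 ≤ 1 / (E ^ 2 * ρ) := (one_div_pos.mpr hEρ).le
        rw [hd]
        refine le_mul_min3 (by linarith) (le_one_mul' hK1 h0)
          (hEη.le.trans (mul_le_mul_of_nonneg_right hKA hηpos.le)) ?_
        rcases hthird with h | h
        · exact h.trans (mul_le_mul_of_nonneg_right hKD h0')
        · exact hEη.le.trans ((mul_le_mul_of_nonneg_left h (by linarith)).trans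
            (mul_le_mul_of_nonneg_right hKA h0'))
      have hsE : 0 < √|E| := Real.sqrt_pos.mpr hE'
      refine ⟨y, hyS, fun i => (hy2 i).trans ?_, fun i => (hy3 i).trans ?_, fun h _ => ?_,
        fun z hz hzq hzp => hy4 z hz (fun i => (hzq i).trans ?_) (fun i => (hzp i).trans ?_)⟩
      · have h1 := mul_le_mul_of_nonneg_left hEd (by linarith : 0 ≤ CC)
        rw [mul_one_div] at h1
        calc CC / |E| ≤ CC * (K * d) := h1
          _ = C * d := by rw [hC]; ring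
      · have h2 : √|E| ≤ K * (|E| * √d) := sqrt_scale hK1 hE' hd0 hEd
        calc CC * √|E| ≤ CC * (K * (|E| * √d)) := mul_le_mul_of_nonneg_left h2 (by linarith)
          _ = C * |E| * √d := by rw [hC]; ring
      · exfalso
        have h1 : 1 / (C * |E|) ≤ 1 / (CA * |E|) := by
          apply one_div_le_one_div_of_le (by positivity)
          exact mul_le_mul_of_nonneg_right hCAC hE'.le
        linarith
      · calc d / C ≤ (1 / |E|) / C := div_le_div_of_nonneg_right hdE hC0.le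
          _ ≤ (1 / |E|) / CC := div_le_div_of_nonneg_left (by positivity) (by linarith) hCCC
          _ = 1 / (CC * |E|) := by rw [div_div, mul_comm]
      · have h1 : |E| * √d ≤ √|E| := by
          have h2 : √d ≤ √(1 / |E|) := Real.sqrt_le_sqrt hdE
          have h3 : |E| * √(1 / |E|) = √|E| := by
            rw [one_div, Real.sqrt_inv]
            have h4 : √|E| * √|E| = |E| := Real.mul_self_sqrt hE'.le
            rw [← div_eq_mul_inv, div_eq_iff hsE.ne', h4]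
          calc |E| * √d ≤ |E| * √(1 / |E|) := mul_le_mul_of_nonneg_left h2 hE'.le
            _ = √|E| := h3
        calc |E| * √d / C ≤ √|E| / C := div_le_div_of_nonneg_right h1 hC0.le
          _ ≤ √|E| / CC := div_le_div_of_nonneg_left hsE.le (by linarith) hCCC

end Pool.Agent.NBody
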