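import Mathlib
import Pool.Agent.NBody.Functional

/-!
The front functional with a concave penalty of the mass: at a maximiser the force on the front set
is bounded by a logarithmic multiple of its mass.
-/

set_option autoImplicit false
open scoped RealInnerProductSpace
open Set Finset Filter Topology

namespace Pool.Agent.NBody

/-- A sum over cumulative masses is bounded by an integral. -/
theorem tele {ι : Type*} [DecidableEq ι] (m x : ι → ℝ) (hm : ∀ i, 0 < m i) (Φ G : ℝ → ℝ)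
    (hΦ : ∀ a b, 0 < a → a ≤ b → Φ b ≤ Φ a)
    (hG : ∀ a b, 0 < a → a ≤ b → a * Φ b ≤ G b - G (b - a)) :
    ∀ (n : ℕ) (Q : Finset ι), Q.card = n →
    ∑ j ∈ Q, m j * Φ (∑ k ∈ Q with x k ≤ x j, m k) ≤ G (∑ j ∈ Q, m j) - G 0 := by
  intro n
  induction n with
  | zero =>
    intro Q hQ
    rw [Finset.card_eq_zero] at hQ
    subst hQ
    simp
  | succ n ih =>
    intro Q hQ
    have hne : Q.Nonempty := by
      rw [← Finset.card_pos]
      omega
    obtain ⟨j0, hj0, hmax⟩ := Q.exists_max_image x hne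
    have hcard : (Q.erase j0).card = n := by
      rw [Finset.card_erase_of_mem hj0]
      omega
    have h1 := ih (Q.erase j0) hcard
    rw [← Finset.add_sum_erase Q _ hj0, ← Finset.add_sum_erase Q _ hj0]
    have h2 : (∑ k ∈ Q with x k ≤ x j0, m k) = m j0 + ∑ k ∈ Q.erase j0, m k := by
      rw [Finset.filter_true_of_mem (fun k hk => hmax k hk), ← Finset.add_sum_erase Q _ hj0]
    rw [h2]
    have h3 : ∑ j ∈ Q.erase j0, m j * Φ (∑ k ∈ Q with x k ≤ x j, m k) ≤
        ∑ j ∈ Q.erase j0, m j * Φ (∑ k ∈ Q.erase j0 with x k ≤ x j, m k) := by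
      apply Finset.sum_le_sum
      intro j hj
      apply mul_le_mul_of_nonneg_left _ (hm j).le
      apply hΦ
      · apply Finset.sum_pos (fun k _ => hm k)
        exact ⟨j, Finset.mem_filter.mpr ⟨hj, le_rfl⟩⟩
      · apply Finset.sum_le_sum_of_subset_of_nonneg
        · intro k hk
          rw [Finset.mem_filter] at hk ⊢
          exact ⟨Finset.mem_of_mem_erase hk.1, hk.2⟩
        · intro k _ _
          exact (hm k).le
    have h4 : 0 ≤ ∑ k ∈ Q.erase j0, m k := Finset.sum_nonneg (fun k _ => (hm k).le)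
    have h5 := hG (m j0) (m j0 + ∑ k ∈ Q.erase j0, m k) (hm j0) (by linarith)
    rw [add_sub_cancel_left] at h5
    linarith

/-- the concave penalty of the mass `M` -/
noncomputable def pen (T M : ℝ) : ℝ := M - 2 / 3 * (M * √M) / √T

theorem pen_zero (T : ℝ) : pen T 0 = 0 := by simp [pen]

/-- the slope of the penalty -/
theorem pen_slope {T : ℝ} (u w : ℝ) (hu : 0 ≤ u) (huw : u < w) :
    pen T (w ^ 2) - pen T (u ^ 2) =
      (w ^ 2 - u ^ 2) * (1 - 2 / 3 / √T * ((w ^ 2 + w * u + u ^ 2) / (w + u))) := by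
  unfold pen
  rw [Real.sqrt_sq hu, Real.sqrt_sq (hu.trans huw.le)]
  have hw : 0 < w := hu.trans_lt huw
  have h1 : w + u ≠ 0 := by positivity
  have h2 : (w ^ 2 - u ^ 2) * ((w ^ 2 + w * u + u ^ 2) / (w + u)) = w ^ 3 - u ^ 3 := by
    field_simp
    ring
  have h3 : (w ^ 2 - u ^ 2) * (1 - 2 / 3 / √T * ((w ^ 2 + w * u + u ^ 2) / (w + u))) =
      (w ^ 2 - u ^ 2) - 2 / 3 / √T * ((w ^ 2 - u ^ 2) * ((w ^ 2 + w * u + u ^ 2) / (w + u))) := by
    ring
  rw [h3, h2]
  ring

theorem slope_gap {t u w : ℝ} (ht : 0 ≤ t) (htu : t < u) (huw : u < w) :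
    (w ^ 2 - t ^ 2) / (4 * w) ≤
      (w ^ 2 + w * u + u ^ 2) / (w + u) - (u ^ 2 + u * t + t ^ 2) / (u + t) := by
  have hu : 0 < u := ht.trans_lt htu
  have hw : 0 < w := hu.trans huw
  have h1 : 3 / 2 * u + 3 / 4 * (w - u) ≤ (w ^ 2 + w * u + u ^ 2) / (w + u) := by
    rw [le_div_iff₀ (by positivity)]
    nlinarith [sq_nonneg (w - u)]
  have h2 : (u ^ 2 + u * t + t ^ 2) / (u + t) ≤ u + t / 2 := by
    rw [div_le_iff₀ (by positivity)]
    nlinarith [mul_nonneg ht (sub_nonneg.mpr htu.le)]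
  have h3 : (w ^ 2 - t ^ 2) / (4 * w) ≤ (w - t) / 2 := by
    rw [div_le_div_iff₀ (by positivity) (by norm_num)]
    nlinarith [mul_nonneg (sub_nonneg.mpr (htu.trans huw).le) (sub_nonneg.mpr (htu.trans huw).le)]
  linarith

theorem pen_mono {T M M' : ℝ} (hM : 0 ≤ M) (h : M < M') (hT : M' ≤ T) : pen T M < pen T M' := by
  have hM' : 0 < M' := hM.trans_lt h
  have hTpos : 0 < T := hM'.trans_le hT
  have h1 := pen_slope (T := T) (√M) (√M') (Real.sqrt_nonneg _) (Real.sqrt_lt_sqrt hM h)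
  rw [Real.sq_sqrt hM, Real.sq_sqrt hM'.le] at h1
  have hw : 0 < √M' := Real.sqrt_pos.mpr hM'
  have hu : 0 ≤ √M := Real.sqrt_nonneg _
  have huw : √M < √M' := Real.sqrt_lt_sqrt hM h
  have hT2 : 0 < √T := Real.sqrt_pos.mpr hTpos
  have hwT : √M' ≤ √T := Real.sqrt_le_sqrt hT
  have h2 : (M' + √M' * √M + M) / (√M' + √M) < 3 / 2 * √M' := by
    rw [div_lt_iff₀ (by positivity)]
    have e1 : √M' * √M' = M' := Real.mul_self_sqrt hM'.le
    have e2 : √M * √M = M := Real.mul_self_sqrt hM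
    nlinarith [mul_pos (sub_pos.mpr huw) hw, mul_nonneg hu (sub_pos.mpr huw).le]
  have h3 : 2 / 3 / √T * ((M' + √M' * √M + M) / (√M' + √M)) < 1 := by
    rw [div_mul_eq_mul_div, div_lt_one hT2]
    linarith
  have h4 : 0 < (M' - M) * (1 - 2 / 3 / √T * ((M' + √M' * √M + M) / (√M' + √M))) :=
    mul_pos (by linarith) (by linarith)
  linarith

theorem pen_nonneg {T M : ℝ} (hM : 0 ≤ M) (hT : M ≤ T) : 0 ≤ pen T M := by
  rcases hM.lt_or_eq with h | h
  · rw [← pen_zero T]
    exact (pen_mono le_rfl h hT).le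
  · rw [← h, pen_zero]

theorem pen_le {T M : ℝ} (hM : 0 ≤ M) : pen T M ≤ M := by
  unfold pen
  have : 0 ≤ 2 / 3 * (M * √M) / √T := by positivity
  linarith

/-- the front functional -/
noncomputable def fF {N : ℕ} (m : Fin N → ℝ) (T : ℝ) (e : V3) (s : ℝ) (q : Fin N → V3) (κ : ℝ)
    (A : Finset (Fin N)) : ℝ :=
  ∑ i ∈ A, m i * (⟪q i, e⟫ - s) - pen T (∑ i ∈ A, m i) * κ

/-- At a maximiser there is a gap which grows with the mass in between. -/
theorem front_gap {N : ℕ} {m : Fin N → ℝ} (hm : ∀ i, 0 < m i) {T : ℝ} (hT : 0 < T) {e : V3}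
    {s : ℝ} {q : Fin N → V3} {κ : ℝ} (hκ : 0 < κ)
    {A : Finset (Fin N)} (hA : ∀ B, fF m T e s q κ B ≤ fF m T e s q κ A) :
    ∀ i ∈ A, ∀ j ∈ Aᶜ,
      κ * (((∑ k ∈ A with ⟪q k, e⟫ ≤ ⟪q i, e⟫, m k) +
        ∑ k ∈ Aᶜ with -⟪q k, e⟫ ≤ -⟪q j, e⟫, m k) /
        (6 * √T * √((∑ k ∈ A, m k) + ∑ k ∈ Aᶜ with -⟪q k, e⟫ ≤ -⟪q j, e⟫, m k))) ≤
      ⟪q i, e⟫ - ⟪q j, e⟫ := by
  intro i hi j hj
  set P : Finset (Fin N) := A.filter (fun k => ⟪q k, e⟫ ≤ ⟪q i, e⟫) with hP
  set Q : Finset (Fin N) := Aᶜ.filter (fun k => -⟪q k, e⟫ ≤ -⟪q j, e⟫) with hQ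
  set a : ℝ := ∑ k ∈ P, m k with ha
  set b : ℝ := ∑ k ∈ Q, m k with hb
  set M : ℝ := ∑ k ∈ A, m k with hM
  have hPA : P ⊆ A := Finset.filter_subset _ _
  have hdisj : Disjoint A Q := by
    rw [Finset.disjoint_left]
    intro k hk hk'
    exact (Finset.mem_compl.mp (Finset.mem_filter.mp hk').1) hk
  have hapos : 0 < a := Finset.sum_pos (fun k _ => hm k)
    ⟨i, Finset.mem_filter.mpr ⟨hi, le_rfl⟩⟩
  have hbpos : 0 < b := Finset.sum_pos (fun k _ => hm k)
    ⟨j, Finset.mem_filter.mpr ⟨hj, le_rfl⟩⟩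
  have haM : a ≤ M := Finset.sum_le_sum_of_subset_of_nonneg hPA (fun k _ _ => (hm k).le)
  have hMpos : 0 < M := hapos.trans_le haM
  -- the three roots
  have hs1 : M = (√M) ^ 2 := (Real.sq_sqrt hMpos.le).symm
  have hs2 : M + b = (√(M + b)) ^ 2 := (Real.sq_sqrt (by linarith)).symm
  have hs3 : M - a = (√(M - a)) ^ 2 := (Real.sq_sqrt (by linarith)).symm
  have hlt1 : √(M - a) < √M := Real.sqrt_lt_sqrt (by linarith) (by linarith)
  have hlt2 : √M < √(M + b) := Real.sqrt_lt_sqrt hMpos.le (by linarith)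
  have ht0 : 0 ≤ √(M - a) := Real.sqrt_nonneg _
  have hTs : 0 < √T := Real.sqrt_pos.mpr hT
  have hw0 : 0 < √(M + b) := (Real.sqrt_nonneg _).trans_lt hlt2
  have hpin := pen_slope (T := T) (√(M - a)) (√M) ht0 hlt1
  have hpout := pen_slope (T := T) (√M) (√(M + b)) (Real.sqrt_nonneg _) hlt2
  have hgap := slope_gap ht0 hlt1 hlt2
  rw [← hs1, ← hs3] at hpin
  rw [← hs1, ← hs2] at hpout
  rw [← hs1, ← hs2, ← hs3] at hgap
  have ea : M - (M - a) = a := by ring
  have eb : M + b - M = b := by ring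
  rw [ea] at hpin
  rw [eb] at hpout
  set sin : ℝ := (M + √M * √(M - a) + (M - a)) / (√M + √(M - a)) with hsin
  set sout : ℝ := (M + b + √(M + b) * √M + M) / (√(M + b) + √M) with hsout
  -- remove P
  have h1 := hA (A \ P)
  have h1s : ∑ k ∈ A \ P, m k = M - a := by
    have := Finset.sum_sdiff (f := m) hPA
    linarith
  have h1t : ∑ k ∈ A \ P, m k * (⟪q k, e⟫ - s) =
      ∑ k ∈ A, m k * (⟪q k, e⟫ - s) - ∑ k ∈ P, m k * (⟪q k, e⟫ - s) := by
    have := Finset.sum_sdiff (f := fun k => m k * (⟪q k, e⟫ - s)) hPA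
    linarith
  unfold fF at h1
  rw [h1s, h1t, ← hM] at h1
  have h1u : ∑ k ∈ P, m k * (⟪q k, e⟫ - s) ≤ a * (⟪q i, e⟫ - s) := by
    rw [ha, Finset.sum_mul]
    apply Finset.sum_le_sum
    intro k hk
    apply mul_le_mul_of_nonneg_left _ (hm k).le
    have := (Finset.mem_filter.mp hk).2
    linarith
  have h1v : κ * (1 - 2 / 3 / √T * sin) ≤ ⟪q i, e⟫ - s := by
    have h6 : a * (κ * (1 - 2 / 3 / √T * sin)) ≤ a * (⟪q i, e⟫ - s) := by
      have : a * (κ * (1 - 2 / 3 / √T * sin)) = (pen T M - pen T (M - a)) * κ := by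
        rw [hpin]; ring
      rw [this]
      linarith
    exact le_of_mul_le_mul_left h6 hapos
  -- add Q
  have h2 := hA (A ∪ Q)
  unfold fF at h2
  rw [Finset.sum_union hdisj, Finset.sum_union hdisj, ← hM, ← hb] at h2
  have h2u : b * (⟪q j, e⟫ - s) ≤ ∑ k ∈ Q, m k * (⟪q k, e⟫ - s) := by
    rw [hb, Finset.sum_mul]
    apply Finset.sum_le_sum
    intro k hk
    apply mul_le_mul_of_nonneg_left _ (hm k).le
    have := (Finset.mem_filter.mp hk).2
    linarith
  have h2v : ⟪q j, e⟫ - s ≤ κ * (1 - 2 / 3 / √T * sout) := by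
    have h6 : b * (⟪q j, e⟫ - s) ≤ b * (κ * (1 - 2 / 3 / √T * sout)) := by
      have : b * (κ * (1 - 2 / 3 / √T * sout)) = (pen T (M + b) - pen T M) * κ := by
        rw [hpout]; ring
      rw [this]
      linarith
    exact le_of_mul_le_mul_left h6 hbpos
  have h3 : κ * ((a + b) / (6 * √T * √(M + b))) ≤ κ * (2 / 3 / √T * (sout - sin)) := by
    apply mul_le_mul_of_nonneg_left _ hκ.le
    have h4 : (a + b) / (6 * √T * √(M + b)) = 2 / 3 / √T * ((M + b - (M - a)) / (4 * √(M + b))) := by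
      have e3 : M + b - (M - a) = a + b := by ring
      rw [e3]
      field_simp
      ring
    rw [h4]
    exact mul_le_mul_of_nonneg_left hgap (by positivity)
  have h5 : κ * (2 / 3 / √T * (sout - sin)) =
      κ * (1 - 2 / 3 / √T * sin) - κ * (1 - 2 / 3 / √T * sout) := by ring
  rw [h5] at h3
  linarith

/-- the sum over the complement -/
theorem sum_out {ι : Type*} [DecidableEq ι] (m x : ι → ℝ) (hm : ∀ i, 0 < m i) {a M T : ℝ}
    (ha : 0 < a) (haM : a ≤ M) (Q : Finset ι) (hQ : M + ∑ j ∈ Q, m j ≤ T) :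
    ∑ j ∈ Q, m j * ((M + ∑ k ∈ Q with x k ≤ x j, m k) / (a + ∑ k ∈ Q with x k ≤ x j, m k) ^ 2) ≤
      M / a + Real.log (T / a) := by
  have h := tele m x hm (fun b => (M + b) / (a + b) ^ 2)
    (fun b => Real.log (a + b) - (M - a) / (a + b)) ?_ ?_ Q.card Q rfl
  · refine h.trans ?_
    have hB : 0 ≤ ∑ j ∈ Q, m j := Finset.sum_nonneg (fun k _ => (hm k).le)
    have hT : 0 < T := by linarith
    simp only [add_zero]
    have h1 : Real.log (a + ∑ j ∈ Q, m j) ≤ Real.log T :=
      Real.log_le_log (by linarith) (by linarith)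
    have h2 : 0 ≤ (M - a) / (a + ∑ j ∈ Q, m j) := div_nonneg (by linarith) (by linarith)
    have h3 : (M - a) / a = M / a - 1 := by field_simp
    rw [Real.log_div hT.ne' ha.ne', h3]
    linarith
  · intro c b hc hcb
    have hb : 0 < b := hc.trans_le hcb
    have e1 : ∀ t : ℝ, 0 < t → (M + t) / (a + t) ^ 2 = (M - a) / (a + t) ^ 2 + 1 / (a + t) := by
      intro t ht
      have : a + t ≠ 0 := by positivity
      field_simp
      ring
    rw [e1 b hb, e1 c hc]
    have h1 : (M - a) / (a + b) ^ 2 ≤ (M - a) / (a + c) ^ 2 := by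
      apply div_le_div_of_nonneg_left (by linarith) (by positivity)
      exact pow_le_pow_left₀ (by positivity) (by linarith) 2
    have h2 : 1 / (a + b) ≤ 1 / (a + c) := by
      apply div_le_div_of_nonneg_left (by norm_num) (by positivity) (by linarith)
    linarith
  · intro c b hc hcb
    have hb : 0 < b := hc.trans_le hcb
    have hbc : 0 ≤ b - c := by linarith
    have e1 : c * ((M + b) / (a + b) ^ 2) = (M - a) * (c / (a + b) ^ 2) + c / (a + b) := by
      have : a + b ≠ 0 := by positivity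
      field_simp
      ring
    rw [e1]
    have h1 : c / (a + b) ^ 2 ≤ 1 / (a + (b - c)) - 1 / (a + b) := by
      have p1 : 0 < a + (b - c) := by linarith
      have p2 : 0 < a + b := by linarith
      have e2 : 1 / (a + (b - c)) - 1 / (a + b) = c / ((a + (b - c)) * (a + b)) := by
        field_simp
        ring
      rw [e2]
      apply div_le_div_of_nonneg_left hc.le (by positivity)
      nlinarith
    have h2 : c / (a + b) ≤ Real.log (a + b) - Real.log (a + (b - c)) := by
      have p1 : 0 < a + (b - c) := by linarith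
      have p2 : 0 < a + b := by linarith
      rw [← Real.log_div p2.ne' p1.ne']
      have h3 := Real.log_le_sub_one_of_pos (div_pos p1 p2)
      have h4 : Real.log ((a + (b - c)) / (a + b)) = - Real.log ((a + b) / (a + (b - c))) := by
        rw [← Real.log_inv, inv_div]
      have h5 : (a + (b - c)) / (a + b) - 1 = - (c / (a + b)) := by
        field_simp
        ring
      rw [h4, h5] at h3
      linarith
    have h3 : (M - a) * (c / (a + b) ^ 2) ≤ (M - a) * (1 / (a + (b - c)) - 1 / (a + b)) :=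
      mul_le_mul_of_nonneg_left h1 (by linarith)
    have h4 : (M - a) * (1 / (a + (b - c)) - 1 / (a + b)) =
        (M - a) / (a + (b - c)) - (M - a) / (a + b) := by ring
    rw [h4] at h3
    linarith

/-- the sum over the front set -/
theorem sum_in {ι : Type*} [DecidableEq ι] (m x : ι → ℝ) (hm : ∀ i, 0 < m i) {μ : ℝ}
    (hμ : 0 < μ) (hμm : ∀ i, μ ≤ m i) (P : Finset ι) :
    ∑ i ∈ P, m i / (∑ k ∈ P with x k ≤ x i, m k) ≤ 2 * Real.log (1 + (∑ i ∈ P, m i) / μ) := by
  have h := tele m x hm (fun b => 1 / (μ + b)) (fun b => Real.log (μ + b)) ?_ ?_ P.card P rfl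
  · have h1 : ∑ i ∈ P, m i / (∑ k ∈ P with x k ≤ x i, m k) ≤
        2 * ∑ i ∈ P, m i * (1 / (μ + ∑ k ∈ P with x k ≤ x i, m k)) := by
      rw [Finset.mul_sum]
      apply Finset.sum_le_sum
      intro i hi
      have h2 : μ ≤ ∑ k ∈ P with x k ≤ x i, m k := by
        refine (hμm i).trans ?_
        apply Finset.single_le_sum (f := m) (fun k _ => (hm k).le)
        exact Finset.mem_filter.mpr ⟨hi, le_rfl⟩
      have h3 : 0 < ∑ k ∈ P with x k ≤ x i, m k := hμ.trans_le h2
      have h4 : m i / (∑ k ∈ P with x k ≤ x i, m k) ≤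
          m i / ((μ + ∑ k ∈ P with x k ≤ x i, m k) / 2) := by
        apply div_le_div_of_nonneg_left (hm i).le (by positivity)
        linarith
      refine h4.trans (le_of_eq ?_)
      field_simp
    refine h1.trans ?_
    apply mul_le_mul_of_nonneg_left _ (by norm_num)
    refine h.trans (le_of_eq ?_)
    have h5 : 0 ≤ ∑ i ∈ P, m i := Finset.sum_nonneg (fun k _ => (hm k).le)
    rw [add_zero, ← Real.log_div (by positivity) hμ.ne']
    congr 1
    field_simp
  · intro c b hc hcb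
    apply div_le_div_of_nonneg_left (by norm_num) (by positivity) (by linarith)
  · intro c b hc hcb
    have hbc : 0 ≤ b - c := by linarith
    have p1 : 0 < μ + (b - c) := by linarith
    have p2 : 0 < μ + b := by linarith
    rw [← Real.log_div p2.ne' p1.ne']
    have h3 := Real.log_le_sub_one_of_pos (div_pos p1 p2)
    have h4 : Real.log ((μ + (b - c)) / (μ + b)) = - Real.log ((μ + b) / (μ + (b - c))) := by
      rw [← Real.log_inv, inv_div]
    have h5 : (μ + (b - c)) / (μ + b) - 1 = - (c * (1 / (μ + b))) := by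
      field_simp
      ring
    rw [h4, h5] at h3
    linarith

/-- At a maximiser the force on the front set is bounded by a multiple of its mass. -/
theorem front_force {N : ℕ} {m : Fin N → ℝ} (hm : ∀ i, 0 < m i) {T μ : ℝ} (hT : 0 < T)
    (hTm : ∑ i, m i ≤ T) (hμ : 0 < μ) (hμm : ∀ i, μ ≤ m i) {e : V3} (he : ‖e‖ ≤ 1)
    {s : ℝ} {q : Fin N → V3} {κ : ℝ} (hκ : 0 < κ)
    {A : Finset (Fin N)} (hA : ∀ B, fF m T e s q κ B ≤ fF m T e s q κ A) :
    -(108 * T * Real.log (1 + T / μ) * (∑ i ∈ A, m i)) / κ ^ 2 ≤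
      ∑ i ∈ A, ⟪force m q i, e⟫ := by
  rw [sum_force]
  set M : ℝ := ∑ i ∈ A, m i with hM
  set a : Fin N → ℝ := fun i => ∑ k ∈ A with ⟪q k, e⟫ ≤ ⟪q i, e⟫, m k with ha
  set b : Fin N → ℝ := fun j => ∑ k ∈ Aᶜ with -⟪q k, e⟫ ≤ -⟪q j, e⟫, m k with hb
  have hMQ : M + ∑ j ∈ Aᶜ, m j ≤ T := by
    rw [hM, Finset.sum_add_sum_compl]
    exact hTm
  have hMT : M ≤ T := by
    have : 0 ≤ ∑ j ∈ Aᶜ, m j := Finset.sum_nonneg (fun k _ => (hm k).le)
    linarith
  have hapos : ∀ i ∈ A, μ ≤ a i := by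
    intro i hi
    refine (hμm i).trans ?_
    apply Finset.single_le_sum (f := m) (fun k _ => (hm k).le)
    exact Finset.mem_filter.mpr ⟨hi, le_rfl⟩
  have haM : ∀ i, a i ≤ M := by
    intro i
    exact Finset.sum_le_sum_of_subset_of_nonneg (Finset.filter_subset _ _)
      (fun k _ _ => (hm k).le)
  have hbpos : ∀ j, 0 ≤ b j := fun j => Finset.sum_nonneg (fun k _ => (hm k).le)
  have hTs : √T * √T = T := Real.mul_self_sqrt hT.le
  have hTs0 : 0 < √T := Real.sqrt_pos.mpr hT
  -- a single pair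
  have h1 : ∀ i ∈ A, ∀ j ∈ Aᶜ, -(36 * T / κ ^ 2 * (m i * (m j * ((M + b j) / (a i + b j) ^ 2)))) ≤
      (m i * m j / ‖q j - q i‖ ^ 3) * ⟪q j - q i, e⟫ := by
    intro i hi j hj
    have hg := front_gap hm hT hκ hA i hi j hj
    have hai : 0 < a i := hμ.trans_le (hapos i hi)
    have hbj := hbpos j
    have hMb : 0 < M + b j := by linarith [haM i]
    have hsq : 0 < √(M + b j) := Real.sqrt_pos.mpr hMb
    set g : ℝ := κ * ((a i + b j) / (6 * √T * √(M + b j))) with hgdef
    have hgpos : 0 < g := by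
      rw [hgdef]
      have : 0 < a i + b j := by linarith
      positivity
    have hg' : g ≤ ⟪q i, e⟫ - ⟪q j, e⟫ := hg
    have hmm : 0 < m i * m j := mul_pos (hm i) (hm j)
    have h3 : |⟪q j - q i, e⟫| ≤ ‖q j - q i‖ := by
      refine (abs_real_inner_le_norm _ _).trans ?_
      have := norm_nonneg (q j - q i)
      nlinarith
    have h4 : g ≤ ‖q j - q i‖ := by
      refine le_trans ?_ h3
      rw [inner_sub_left]
      refine hg'.trans ?_
      rw [abs_sub_comm]
      exact le_abs_self _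
    have hpos : 0 < ‖q j - q i‖ := hgpos.trans_le h4
    have h5 : -‖q j - q i‖ ≤ ⟪q j - q i, e⟫ := by
      have := neg_abs_le ⟪q j - q i, e⟫
      linarith
    have h6 : (m i * m j / ‖q j - q i‖ ^ 3) * (-‖q j - q i‖) ≤
        (m i * m j / ‖q j - q i‖ ^ 3) * ⟪q j - q i, e⟫ :=
      mul_le_mul_of_nonneg_left h5 (by positivity)
    refine le_trans ?_ h6
    have h7 : (m i * m j / ‖q j - q i‖ ^ 3) * (-‖q j - q i‖) = -(m i * m j / ‖q j - q i‖ ^ 2) := by
      field_simp
    rw [h7, neg_le_neg_iff]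
    have h8 : m i * m j / ‖q j - q i‖ ^ 2 ≤ m i * m j / g ^ 2 := by
      apply div_le_div_of_nonneg_left hmm.le (by positivity)
      exact pow_le_pow_left₀ hgpos.le h4 2
    refine h8.trans (le_of_eq ?_)
    have h9 : g ^ 2 = κ ^ 2 * (a i + b j) ^ 2 / (36 * T * (M + b j)) := by
      rw [hgdef]
      have e1 : √(M + b j) ^ 2 = M + b j := Real.sq_sqrt hMb.le
      have e2 : √T ^ 2 = T := Real.sq_sqrt hT.le
      rw [mul_pow, div_pow, mul_pow, mul_pow, e1, e2]
      ring
    rw [h9]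
    have : a i + b j ≠ 0 := by
      have : 0 < a i + b j := by linarith
      exact this.ne'
    field_simp
  calc -(108 * T * Real.log (1 + T / μ) * M) / κ ^ 2
      ≤ -(36 * T / κ ^ 2 * ∑ i ∈ A, m i * ∑ j ∈ Aᶜ, m j * ((M + b j) / (a i + b j) ^ 2)) := by
        have hlog : 0 ≤ Real.log (1 + T / μ) := Real.log_nonneg (by
          have : 0 < T / μ := by positivity
          linarith)
        have hin : ∀ i ∈ A, ∑ j ∈ Aᶜ, m j * ((M + b j) / (a i + b j) ^ 2) ≤
            M / a i + Real.log (1 + T / μ) := by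
          intro i hi
          have hai := hapos i hi
          have hai0 : 0 < a i := hμ.trans_le hai
          have h2 := sum_out m (fun k => -⟪q k, e⟫) hm hai0 (haM i) Aᶜ hMQ
          refine h2.trans ?_
          have h3 : Real.log (T / a i) ≤ Real.log (1 + T / μ) := by
            apply Real.log_le_log (by positivity)
            have h4 : T / a i ≤ T / μ := div_le_div_of_nonneg_left hT.le hμ hai
            linarith
          linarith
        have h2 : ∑ i ∈ A, m i * ∑ j ∈ Aᶜ, m j * ((M + b j) / (a i + b j) ^ 2) ≤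
            3 * M * Real.log (1 + T / μ) := by
          have h3 : ∑ i ∈ A, m i * ∑ j ∈ Aᶜ, m j * ((M + b j) / (a i + b j) ^ 2) ≤
              ∑ i ∈ A, m i * (M / a i + Real.log (1 + T / μ)) :=
            Finset.sum_le_sum (fun i hi => mul_le_mul_of_nonneg_left (hin i hi) (hm i).le)
          refine h3.trans ?_
          have h4 : ∑ i ∈ A, m i * (M / a i + Real.log (1 + T / μ)) =
              M * ∑ i ∈ A, m i / a i + M * Real.log (1 + T / μ) := by
            rw [Finset.mul_sum, hM, Finset.sum_mul, ← Finset.sum_add_distrib]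
            apply Finset.sum_congr rfl
            intro i _
            ring
          rw [h4]
          have h5 := sum_in m (fun k => ⟪q k, e⟫) hm hμ hμm A
          have hM0 : 0 ≤ M := Finset.sum_nonneg (fun k _ => (hm k).le)
          have h6 : Real.log (1 + M / μ) ≤ Real.log (1 + T / μ) := by
            apply Real.log_le_log (by positivity)
            have : M / μ ≤ T / μ := div_le_div_of_nonneg_right hMT hμ.le
            linarith
          have h7 : ∑ i ∈ A, m i / a i ≤ 2 * Real.log (1 + T / μ) := by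
            refine h5.trans ?_
            linarith
          have h8 := mul_le_mul_of_nonneg_left h7 hM0
          linarith
        rw [neg_div, neg_le_neg_iff]
        have h3 := mul_le_mul_of_nonneg_left h2 (by positivity : 0 ≤ 36 * T / κ ^ 2)
        refine h3.trans (le_of_eq ?_)
        ring
    _ = ∑ i ∈ A, ∑ j ∈ Aᶜ, -(36 * T / κ ^ 2 * (m i * (m j * ((M + b j) / (a i + b j) ^ 2)))) := by
        rw [Finset.mul_sum, ← Finset.sum_neg_distrib]
        apply Finset.sum_congr rfl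
        intro i _
        rw [Finset.mul_sum, Finset.mul_sum, ← Finset.sum_neg_distrib]
    _ ≤ _ := Finset.sum_le_sum (fun i hi => Finset.sum_le_sum (fun j hj => h1 i hi j hj))

end Pool.Agent.NBody
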