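import Mathlib
import Pool.Agent.NBody.FrontFun
import Pool.Agent.NBody.Orbit

/-!
An escape criterion with a logarithmic constant: a body which is ahead of all the others by `d`
with speed `v`, `v ^ 2 * d` larger than `864 * T * log (1 + T / μ)` (`T` the total mass, `μ` the
smallest mass), never comes back.
-/

set_option autoImplicit false
open scoped RealInnerProductSpace
open Set Finset Filter Topology

namespace Pool.Agent.NBody

/-- The barrier lemma with hypotheses at nonnegative times only. -/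
theorem barrier_pos {α : Type*} [Finite α] (f g h : α → ℝ → ℝ) (τ ψ : ℝ → ℝ) (K κ₀ lam : ℝ)
    (hK : 0 < K) (hκ₀ : 0 < κ₀) (hlam : 0 < lam)
    (hτ0 : τ 0 = 0) (hτ : ∀ s, HasDerivAt τ (ψ s) s) (hψ : ∀ s, 0 < ψ s)
    (hf : ∀ a s, 0 ≤ s → HasDerivAt (f a) (ψ s * g a s) s)
    (hg : ∀ a s, 0 ≤ s → HasDerivAt (g a) (ψ s * h a s) s)
    (hmax : ∀ s, 0 ≤ s → ∀ a, (∀ b, f b s ≤ f a s) → -K / (κ₀ + lam * τ s) ^ 2 ≤ h a s)
    (a₀ : α) (ha₀ : ∀ b, f b 0 ≤ f a₀ 0) (ε : ℝ) (hε : 0 < ε) :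
    ∀ s, 0 ≤ s → ∃ b, f a₀ 0 + (g a₀ 0 - ε - 2 * K / (lam * κ₀)) * τ s ≤ f b s := by
  classical
  have : Nonempty α := ⟨a₀⟩
  have := Fintype.ofFinite α
  have hτmono : StrictMono τ := strictMono_of_deriv_pos (fun s => by rw [(hτ s).deriv]; exact hψ s)
  have hτnn : ∀ s, 0 ≤ s → 0 ≤ τ s := fun s hs => by
    rw [← hτ0]; exact hτmono.monotone hs
  have hκpos : ∀ s, 0 ≤ s → 0 < κ₀ + lam * τ s := fun s hs => by
    have := mul_nonneg hlam.le (hτnn s hs)
    linarith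
  obtain ⟨β, hβ⟩ : ∃ β : ℝ, β = g a₀ 0 - ε - 2 * K / (lam * κ₀) := ⟨_, rfl⟩
  rw [← hβ]
  -- barrier and its derivative with respect to the clock
  obtain ⟨B, hB⟩ : ∃ B : ℝ → ℝ, ∀ s, B s = f a₀ 0 + β * τ s +
    2 * K / lam ^ 2 * (Real.log (κ₀ + lam * τ s) - Real.log κ₀) := ⟨_, fun _ => rfl⟩
  obtain ⟨b, hb⟩ : ∃ b : ℝ → ℝ, ∀ s, b s = β + 2 * K / (lam * (κ₀ + lam * τ s)) :=
    ⟨_, fun _ => rfl⟩
  have hBfun : B = fun s => f a₀ 0 + β * τ s +
    2 * K / lam ^ 2 * (Real.log (κ₀ + lam * τ s) - Real.log κ₀) := funext hB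
  have hbfun : b = fun s => β + 2 * K / (lam * (κ₀ + lam * τ s)) := funext hb
  have hBderiv : ∀ s, 0 ≤ s → HasDerivAt B (ψ s * b s) s := by
    intro s hs
    have h1 : HasDerivAt (fun s => κ₀ + lam * τ s) (lam * ψ s) s :=
      ((hτ s).const_mul lam).const_add κ₀
    have h2 := h1.log (hκpos s hs).ne'
    have h3 : HasDerivAt B (β * ψ s + 2 * K / lam ^ 2 * (lam * ψ s / (κ₀ + lam * τ s))) s := by
      rw [hBfun]
      exact (((hτ s).const_mul β).const_add (f a₀ 0)).add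
        ((h2.sub_const (Real.log κ₀)).const_mul _)
    have h4 : ψ s * b s = β * ψ s + 2 * K / lam ^ 2 * (lam * ψ s / (κ₀ + lam * τ s)) := by
      rw [hb]
      have := (hκpos s hs).ne'
      field_simp
    rw [h4]
    exact h3
  have hbderiv : ∀ s, 0 ≤ s →
      HasDerivAt b (ψ s * (-(2 * K) / (κ₀ + lam * τ s) ^ 2)) s := by
    intro s hs
    have h1 : HasDerivAt (fun s => κ₀ + lam * τ s) (lam * ψ s) s :=
      ((hτ s).const_mul lam).const_add κ₀
    have h2 : HasDerivAt (fun s => (κ₀ + lam * τ s)⁻¹) (-(lam * ψ s) / (κ₀ + lam * τ s) ^ 2) s :=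
      h1.inv (hκpos s hs).ne'
    have h3 := (h2.const_mul (2 * K / lam)).const_add β
    have h4 : (fun s => β + 2 * K / lam * (κ₀ + lam * τ s)⁻¹) = b := by
      funext t
      rw [hb, div_mul_eq_div_div, div_eq_mul_inv (2 * K / lam)]
    rw [h4] at h3
    have h5 : ψ s * (-(2 * K) / (κ₀ + lam * τ s) ^ 2) =
        2 * K / lam * (-(lam * ψ s) / (κ₀ + lam * τ s) ^ 2) := by
      have := (hκpos s hs).ne'
      field_simp
    rw [h5]
    exact h3
  -- the maximum function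
  obtain ⟨F, hF⟩ : ∃ F : ℝ → ℝ, F = fun s =>
    Finset.univ.sup' Finset.univ_nonempty (fun a => f a s) := ⟨_, rfl⟩
  have hFcont : ContinuousOn F (Ici 0) := by
    rw [hF]
    apply ContinuousOn.finset_sup'_apply
    intro a _
    exact fun s hs => (hf a s hs).continuousAt.continuousWithinAt
  have hFle : ∀ a s, f a s ≤ F s := fun a s => by
    rw [hF]
    exact Finset.le_sup' (fun a => f a s) (Finset.mem_univ a)
  have hFex : ∀ s, ∃ a, F s = f a s := fun s => by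
    obtain ⟨a, -, ha⟩ := Finset.exists_mem_eq_sup' Finset.univ_nonempty (fun a => f a s)
    exact ⟨a, by rw [hF]; exact ha⟩
  have hB0 : B 0 = f a₀ 0 := by
    rw [hB]; simp [hτ0]
  have hF0 : F 0 = f a₀ 0 := by
    obtain ⟨a, ha⟩ := hFex 0
    exact le_antisymm (by rw [ha]; exact ha₀ a) (hFle a₀ 0)
  have hmain : ∀ s, 0 ≤ s → B s ≤ F s := by
    intro s₂ hs₂
    by_contra hcon
    push Not at hcon
    have hs2pos : 0 < s₂ := by
      rcases hs₂.lt_or_eq with h | h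
      · exact h
      · exfalso
        rw [← h, hB0, hF0] at hcon
        exact lt_irrefl _ hcon
    have hBcont : ContinuousOn B (Icc 0 s₂) := fun s hs =>
      (hBderiv s hs.1).continuousAt.continuousWithinAt
    have hDcont : ContinuousOn (fun s => F s - B s) (Icc 0 s₂) :=
      (hFcont.mono (fun _ h => h.1)).sub hBcont
    -- D is positive somewhere
    have hpos : ∃ s ∈ Icc 0 s₂, 0 < F s - B s := by
      have he : HasDerivAt (fun s => f a₀ s - B s) (ψ 0 * g a₀ 0 - ψ 0 * b 0) 0 :=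
        (hf a₀ 0 le_rfl).sub (hBderiv 0 le_rfl)
      have hval : ψ 0 * g a₀ 0 - ψ 0 * b 0 = ψ 0 * ε := by
        rw [hb, hβ, hτ0, mul_zero, add_zero]
        ring
      rw [hval] at he
      have hpos' : 0 < ψ 0 * ε := mul_pos (hψ 0) hε
      have hslope := (hasDerivAt_iff_tendsto_slope.mp he).eventually (lt_mem_nhds hpos')
      have h1 : ∀ᶠ s in 𝓝[>] (0:ℝ), 0 < slope (fun s => f a₀ s - B s) 0 s :=
        hslope.filter_mono (nhdsWithin_mono _ (fun s hs => ne_of_gt hs))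
      have h2 : ∀ᶠ s in 𝓝[>] (0:ℝ), s ∈ Ioo 0 s₂ := Ioo_mem_nhdsGT hs2pos
      obtain ⟨s, hs1, hs2⟩ := (h1.and h2).exists
      refine ⟨s, ⟨hs2.1.le, hs2.2.le⟩, ?_⟩
      rw [slope_def_field, hB0] at hs1
      simp only [sub_self, sub_zero] at hs1
      have h3 : 0 < f a₀ s - B s := by
        rcases (div_pos_iff.mp hs1) with h | h
        · exact h.1
        · exact absurd h.2 (not_lt.mpr hs2.1.le)
      linarith [hFle a₀ s]
    obtain ⟨s, hs, hspos⟩ := hpos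
    obtain ⟨t, ht, htmax⟩ := isCompact_Icc.exists_isMaxOn ⟨s, hs⟩ hDcont
    have hDt : 0 < F t - B t := lt_of_lt_of_le hspos (htmax hs)
    have ht2 : t ≠ s₂ := by
      rintro rfl
      linarith
    have hlt : t < s₂ := lt_of_le_of_ne ht.2 ht2
    have ht0 : 0 < t := by
      rcases ht.1.lt_or_eq with h | h
      · exact h
      · exfalso
        rw [← h, hB0, hF0] at hDt
        linarith
    obtain ⟨a, ha⟩ := hFex t
    have hamax : ∀ b', f b' t ≤ f a t := fun b' => by rw [← ha]; exact hFle b' t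
    have hh := hmax t ht.1 a hamax
    have hemax : ∀ r ∈ Icc 0 s₂, f a r - B r ≤ f a t - B t := by
      intro r hr
      have h1 : F r - B r ≤ F t - B t := htmax hr
      have h2 := hFle a r
      linarith
    have heder : ∀ r, 0 ≤ r → HasDerivAt (fun r => f a r - B r) (ψ r * (g a r - b r)) r := by
      intro r hr
      have h := (hf a r hr).sub (hBderiv r hr)
      rw [mul_sub]
      exact h
    have hzero : g a t - b t = 0 := by
      have hloc : IsLocalMax (fun r => f a r - B r) t := by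
        filter_upwards [Ioo_mem_nhds ht0 hlt] with r hr
        exact hemax r ⟨hr.1.le, hr.2.le⟩
      have := hloc.hasDerivAt_eq_zero (heder t ht.1)
      rcases mul_eq_zero.mp this with h | h
      · exact absurd h (hψ t).ne'
      · exact h
    -- the derivative of g - b at t is positive
    have hder2 : HasDerivAt (fun r => g a r - b r)
        (ψ t * h a t - ψ t * (-(2 * K) / (κ₀ + lam * τ t) ^ 2)) t :=
      (hg a t ht.1).sub (hbderiv t ht.1)
    have hposd : 0 < ψ t * h a t - ψ t * (-(2 * K) / (κ₀ + lam * τ t) ^ 2) := by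
      rw [← mul_sub]
      apply mul_pos (hψ t)
      have h6 : 0 < K / (κ₀ + lam * τ t) ^ 2 := by
        have := hκpos t ht.1
        positivity
      have h7 : -(2 * K) / (κ₀ + lam * τ t) ^ 2 = -K / (κ₀ + lam * τ t) ^ 2
          - K / (κ₀ + lam * τ t) ^ 2 := by ring
      rw [h7]
      linarith
    have hslope := (hasDerivAt_iff_tendsto_slope.mp hder2).eventually (lt_mem_nhds hposd)
    have h1 : ∀ᶠ r in 𝓝[>] t, 0 < slope (fun r => g a r - b r) t r :=
      hslope.filter_mono (nhdsWithin_mono _ (fun s hs => ne_of_gt hs))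
    rw [eventually_nhdsWithin_iff, Metric.eventually_nhds_iff] at h1
    obtain ⟨δ, hδ, hδs⟩ := h1
    obtain ⟨r, hr1, hr2⟩ : ∃ r, t < r ∧ r < min s₂ (t + δ) :=
      exists_between (lt_min hlt (by linarith))
    have hr3 : r < s₂ := hr2.trans_le (min_le_left _ _)
    have hr4 : r < t + δ := hr2.trans_le (min_le_right _ _)
    have hmono : StrictMonoOn (fun r => f a r - B r) (Icc t r) := by
      apply strictMonoOn_of_deriv_pos (convex_Icc t r)
      · intro u hu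
        exact (heder u (ht.1.trans hu.1)).continuousAt.continuousWithinAt
      · intro u hu
        rw [interior_Icc] at hu
        rw [(heder u (ht.1.trans hu.1.le)).deriv]
        apply mul_pos (hψ u)
        have h8 := hδs (y := u) (by
          rw [Real.dist_eq, abs_of_pos (by linarith [hu.1])]
          linarith [hu.2]) hu.1
        rw [slope_def_field, hzero, sub_zero] at h8
        rcases (div_pos_iff.mp h8) with h | h
        · exact h.1
        · exact absurd h.2 (not_lt.mpr (by linarith [hu.1]))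
    have h9 := hmono (left_mem_Icc.mpr hr1.le) (right_mem_Icc.mpr hr1.le) hr1
    have h10 := hemax r ⟨ht.1.trans hr1.le, hr3.le⟩
    simp only at h9
    linarith
  intro s hs
  obtain ⟨a, ha⟩ := hFex s
  refine ⟨a, ?_⟩
  rw [← ha]
  refine le_trans ?_ (hmain s hs)
  rw [hB]
  have h1 : Real.log κ₀ ≤ Real.log (κ₀ + lam * τ s) := by
    apply Real.log_le_log hκ₀
    have := mul_nonneg hlam.le (hτnn s hs)
    linarith
  have h2 : 0 ≤ 2 * K / lam ^ 2 * (Real.log (κ₀ + lam * τ s) - Real.log κ₀) := by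
    apply mul_nonneg (by positivity)
    linarith
  linarith


/-- the force constant of the front functional -/
noncomputable def Kf (T μ : ℝ) : ℝ := 108 * T * Real.log (1 + T / μ)

theorem Kf_pos {T μ : ℝ} (hT : 0 < T) (hμ : 0 < μ) : 0 < Kf T μ := by
  unfold Kf
  have h1 : 0 < T / μ := by positivity
  have : 0 < Real.log (1 + T / μ) := Real.log_pos (by linarith)
  positivity

theorem fF_anti {N : ℕ} {m : Fin N → ℝ} (hm : ∀ i, 0 < m i) {T : ℝ} (hTm : ∑ i, m i ≤ T)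
    (e : V3) {s s' : ℝ} (hs : s ≤ s') (q : Fin N → V3) {κ κ' : ℝ} (hκ : κ ≤ κ')
    (B : Finset (Fin N)) : fF m T e s' q κ' B ≤ fF m T e s q κ B := by
  unfold fF
  have hM0 : 0 ≤ ∑ i ∈ B, m i := Finset.sum_nonneg (fun i _ => (hm i).le)
  have hMT : ∑ i ∈ B, m i ≤ T := by
    refine le_trans ?_ hTm
    exact Finset.sum_le_sum_of_subset_of_nonneg (Finset.subset_univ _) (fun i _ _ => (hm i).le)
  have h1 : pen T (∑ i ∈ B, m i) * κ ≤ pen T (∑ i ∈ B, m i) * κ' :=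
    mul_le_mul_of_nonneg_left hκ (pen_nonneg hM0 hMT)
  have h2 : ∑ i ∈ B, m i * (⟪q i, e⟫ - s') ≤ ∑ i ∈ B, m i * (⟪q i, e⟫ - s) := by
    apply Finset.sum_le_sum
    intro i _
    apply mul_le_mul_of_nonneg_left _ (hm i).le
    linarith
  linarith

/-- Growth of the front functional along a trajectory. -/
theorem front_growth {N : ℕ} {m : Fin N → ℝ} (hm : ∀ i, 0 < m i) {T μ : ℝ} (hT : 0 < T)
    (hTm : ∑ i, m i ≤ T) (hμ : 0 < μ) (hμm : ∀ i, μ ≤ m i) {e : V3} (he : ‖e‖ ≤ 1)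
    {s₀ κ₀ lam : ℝ} (hκ₀ : 0 < κ₀) (hlam : 0 < lam) {A₀ : Finset (Fin N)} {σ τ : ℝ → ℝ}
    {x : ℝ → Ph N} (hx : IsTraj m σ x) (hτ0 : τ 0 = 0) (hτ : ∀ s, HasDerivAt τ (σ s) s)
    (hA₀ : ∀ B, fF m T e s₀ (x 0).1 κ₀ B ≤ fF m T e s₀ (x 0).1 κ₀ A₀) {c : ℝ}
    (hcle : c + (∑ i ∈ A₀, m i) * (Kf T μ / (lam * κ₀)) + pen T (∑ i ∈ A₀, m i) * lam <
      ∑ i ∈ A₀, ⟪(x 0).2 i, e⟫) :
    ∀ s, 0 ≤ s → ∃ B, fF m T e s₀ (x 0).1 κ₀ A₀ + c * τ s ≤ fF m T e s₀ (x s).1 κ₀ B := by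
  classical
  have hK := Kf_pos hT hμ
  have hτmono : StrictMono τ := strictMono_of_deriv_pos (fun s => by
    rw [(hτ s).deriv]; exact hx.pos s)
  have hτnn : ∀ s, 0 ≤ s → 0 ≤ τ s := fun s hs => by
    rw [← hτ0]; exact hτmono.monotone hs
  have hκpos : ∀ s, 0 ≤ s → 0 < κ₀ + lam * τ s := fun s hs => by
    have := mul_nonneg hlam.le (hτnn s hs)
    linarith
  obtain ⟨η, hη, hηle⟩ : ∃ η > 0, c + 2 * η + (∑ i ∈ A₀, m i) * (Kf T μ / (lam * κ₀)) +
      pen T (∑ i ∈ A₀, m i) * lam ≤ ∑ i ∈ A₀, ⟪(x 0).2 i, e⟫ := by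
    refine ⟨(∑ i ∈ A₀, ⟪(x 0).2 i, e⟫ - (c + (∑ i ∈ A₀, m i) * (Kf T μ / (lam * κ₀)) +
      pen T (∑ i ∈ A₀, m i) * lam)) / 2, by linarith, by linarith⟩
  set S : ℝ → ℝ := fun t => s₀ + Kf T μ / lam ^ 2 * (Real.log (κ₀ + lam * t) - Real.log κ₀)
    with hS
  have hb := barrier_pos (α := Finset (Fin N))
    (fun A s => fF m T e (S (τ s)) (x s).1 (κ₀ + lam * τ s) A)
    (fun A s => ∑ i ∈ A, ⟪(x s).2 i, e⟫ - (∑ i ∈ A, m i) * (Kf T μ / (lam * (κ₀ + lam * τ s)))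
      - pen T (∑ i ∈ A, m i) * lam)
    (fun A s => ∑ i ∈ A, ⟪force m (x s).1 i, e⟫ +
      (∑ i ∈ A, m i) * (Kf T μ / (κ₀ + lam * τ s) ^ 2)) τ σ (η * (lam * κ₀) / 2) κ₀ lam
    (by positivity) hκ₀ hlam hτ0 hτ hx.pos ?_ ?_ ?_ A₀ ?_ η hη
  · intro s hs
    obtain ⟨B, hB⟩ := hb s hs
    refine ⟨B, ?_⟩
    have hSs : s₀ ≤ S (τ s) := by
      have h1 : Real.log κ₀ ≤ Real.log (κ₀ + lam * τ s) := by
        apply Real.log_le_log hκ₀
        have := mul_nonneg hlam.le (hτnn s hs)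
        linarith
      have h2 : 0 ≤ Kf T μ / lam ^ 2 * (Real.log (κ₀ + lam * τ s) - Real.log κ₀) := by
        apply mul_nonneg (by positivity)
        linarith
      rw [hS]
      simp only
      linarith
    have h1 : fF m T e (S (τ s)) (x s).1 (κ₀ + lam * τ s) B ≤ fF m T e s₀ (x s).1 κ₀ B := by
      apply fF_anti hm hTm e hSs
      have := mul_nonneg hlam.le (hτnn s hs)
      linarith
    refine le_trans ?_ h1
    refine le_trans ?_ hB
    have hS0 : S 0 = s₀ := by simp [hS]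
    simp only [hτ0, mul_zero, add_zero, hS0]
    have h4 : 2 * (η * (lam * κ₀) / 2) / (lam * κ₀) = η := by
      field_simp
    rw [h4]
    have h6 : c ≤ ∑ i ∈ A₀, ⟪(x 0).2 i, e⟫ - (∑ i ∈ A₀, m i) * (Kf T μ / (lam * κ₀)) -
        pen T (∑ i ∈ A₀, m i) * lam - η - η := by linarith
    have h7 := mul_le_mul_of_nonneg_right h6 (hτnn s hs)
    linarith
  · -- derivative of f
    intro A s hs
    have hκs := hκpos s hs
    have h1 : HasDerivAt (fun s => κ₀ + lam * τ s) (lam * σ s) s :=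
      ((hτ s).const_mul lam).const_add κ₀
    have hSd : HasDerivAt (fun s => S (τ s))
        (Kf T μ / lam ^ 2 * (lam * σ s / (κ₀ + lam * τ s))) s :=
      (((h1.log hκs.ne').sub_const (Real.log κ₀)).const_mul (Kf T μ / lam ^ 2)).const_add s₀
    have h2 : HasDerivAt (fun s => ∑ i ∈ A, m i * (⟪(x s).1 i, e⟫ - S (τ s)))
        (∑ i ∈ A, m i * (σ s * ((m i)⁻¹ * ⟪(x s).2 i, e⟫) -
          Kf T μ / lam ^ 2 * (lam * σ s / (κ₀ + lam * τ s)))) s := by
      apply HasDerivAt.fun_sum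
      intro i _
      exact ((hx.der_inner_q e i s).sub hSd).const_mul (m i)
    have h3 := h2.sub (h1.const_mul (pen T (∑ i ∈ A, m i)))
    have h4 : σ s * (∑ i ∈ A, ⟪(x s).2 i, e⟫ -
        (∑ i ∈ A, m i) * (Kf T μ / (lam * (κ₀ + lam * τ s))) - pen T (∑ i ∈ A, m i) * lam) =
        (∑ i ∈ A, m i * (σ s * ((m i)⁻¹ * ⟪(x s).2 i, e⟫) -
          Kf T μ / lam ^ 2 * (lam * σ s / (κ₀ + lam * τ s)))) -
          pen T (∑ i ∈ A, m i) * (lam * σ s) := by
      rw [mul_sub, mul_sub, Finset.mul_sum, Finset.sum_mul, Finset.mul_sum,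
        ← Finset.sum_sub_distrib]
      congr 1
      · apply Finset.sum_congr rfl
        intro i _
        have := (hm i).ne'
        have := hκs.ne'
        field_simp
      · ring
    rw [h4]
    exact h3
  · -- derivative of g
    intro A s hs
    have hκs := hκpos s hs
    have h1 : HasDerivAt (fun s => ∑ i ∈ A, ⟪(x s).2 i, e⟫)
        (∑ i ∈ A, σ s * ⟪force m (x s).1 i, e⟫) s := by
      apply HasDerivAt.fun_sum
      intro i _
      exact hx.der_inner_p e i s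
    have h2 : HasDerivAt (fun s => lam * (κ₀ + lam * τ s)) (lam * (lam * σ s)) s :=
      (((hτ s).const_mul lam).const_add κ₀).const_mul lam
    have h3 : HasDerivAt (fun s => Kf T μ / (lam * (κ₀ + lam * τ s)))
        (Kf T μ * (-(lam * (lam * σ s)) / (lam * (κ₀ + lam * τ s)) ^ 2)) s := by
      have h4 := (h2.inv (by positivity : lam * (κ₀ + lam * τ s) ≠ 0)).const_mul (Kf T μ)
      simp only [div_eq_mul_inv] at h4 ⊢
      exact h4
    have h5 := (h1.sub (h3.const_mul (∑ i ∈ A, m i))).sub_const (pen T (∑ i ∈ A, m i) * lam)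
    have h6 : σ s * (∑ i ∈ A, ⟪force m (x s).1 i, e⟫ +
      (∑ i ∈ A, m i) * (Kf T μ / (κ₀ + lam * τ s) ^ 2)) =
      (∑ i ∈ A, σ s * ⟪force m (x s).1 i, e⟫) -
        (∑ i ∈ A, m i) * (Kf T μ * (-(lam * (lam * σ s)) / (lam * (κ₀ + lam * τ s)) ^ 2)) := by
      rw [mul_add, Finset.mul_sum]
      have := hκs.ne'
      field_simp
      ring
    rw [h6]
    exact h5
  · -- at a maximiser
    intro s hs A hA
    have hκs := hκpos s hs
    have h1 := front_force hm hT hTm hμ hμm he hκs hA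
    have h2 : 0 ≤ η * (lam * κ₀) / 2 / (κ₀ + lam * τ s) ^ 2 := by positivity
    have h3 : -(108 * T * Real.log (1 + T / μ) * (∑ i ∈ A, m i)) / (κ₀ + lam * τ s) ^ 2 =
        -((∑ i ∈ A, m i) * (Kf T μ / (κ₀ + lam * τ s) ^ 2)) := by
      unfold Kf
      ring
    rw [h3] at h1
    rw [neg_div]
    linarith
  · intro B
    have hS0 : S 0 = s₀ := by simp [hS]
    simp only [hτ0, mul_zero, add_zero, hS0]
    exact hA₀ B

theorem continuous_fF {N : ℕ} (m : Fin N → ℝ) (T : ℝ) (e : V3) (s κ : ℝ)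
    (B : Finset (Fin N)) : Continuous (fun y : Ph N => fF m T e s y.1 κ B) := by
  unfold fF
  apply Continuous.sub _ continuous_const
  apply continuous_finsetSum
  intro i _
  apply Continuous.mul continuous_const
  apply Continuous.sub _ continuous_const
  exact ((continuous_apply i).comp continuous_fst).inner continuous_const

/-- No return near a state whose front set moves fast enough. -/
theorem front_noreturn {N : ℕ} {m : Fin N → ℝ} (hm : ∀ i, 0 < m i) {T μ : ℝ} (hT : 0 < T)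
    (hTm : ∑ i, m i ≤ T) (hμ : 0 < μ) (hμm : ∀ i, μ ≤ m i) {e : V3} (he : ‖e‖ ≤ 1)
    {s₀ κ₀ lam : ℝ} (hκ₀ : 0 < κ₀) (hlam : 0 < lam) {A₀ : Finset (Fin N)} (x₀ : Ph N)
    (hA₀ : ∀ B, B ≠ A₀ → fF m T e s₀ x₀.1 κ₀ B < fF m T e s₀ x₀.1 κ₀ A₀) {c : ℝ} (hc : 0 < c)
    (hcle : c + (∑ i ∈ A₀, m i) * (Kf T μ / (lam * κ₀)) + pen T (∑ i ∈ A₀, m i) * lam <
      ∑ i ∈ A₀, ⟪x₀.2 i, e⟫)
    {τ₀ : ℝ} (hτ₀ : 0 < τ₀) :
    ∃ V ∈ 𝓝 x₀, ∀ (σ τ : ℝ → ℝ) (x : ℝ → Ph N), IsTraj m σ x → τ 0 = 0 →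
      (∀ s, HasDerivAt τ (σ s) s) → x 0 ∈ V → ∀ s, 0 ≤ s → τ₀ ≤ τ s → x s ∉ V := by
  classical
  set ε₁ : ℝ := c * τ₀ / 2 with hε₁
  have hε₁pos : 0 < ε₁ := by positivity
  have hV1 : ∀ B : Finset (Fin N), ∀ᶠ y in 𝓝 x₀,
      |fF m T e s₀ y.1 κ₀ B - fF m T e s₀ x₀.1 κ₀ B| < ε₁ := by
    intro B
    have h1 := (continuous_fF m T e s₀ κ₀ B).continuousAt (x := x₀)
    have h2 := Metric.tendsto_nhds.mp h1 ε₁ hε₁pos
    simpa [Real.dist_eq] using h2
  have hV2 : ∀ B : Finset (Fin N), ∀ᶠ y in 𝓝 x₀,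
      B ≠ A₀ → fF m T e s₀ y.1 κ₀ B < fF m T e s₀ y.1 κ₀ A₀ := by
    intro B
    by_cases hB : B = A₀
    · exact Eventually.of_forall (fun y h => absurd hB h)
    · have h1 := (continuous_fF m T e s₀ κ₀ B).continuousAt (x := x₀)
      have h2 := (continuous_fF m T e s₀ κ₀ A₀).continuousAt (x := x₀)
      have h3 := h1.eventually_lt h2 (hA₀ B hB)
      filter_upwards [h3] with y hy _ using hy
  have hV3 : ∀ᶠ y : Ph N in 𝓝 x₀,
      c + (∑ i ∈ A₀, m i) * (Kf T μ / (lam * κ₀)) + pen T (∑ i ∈ A₀, m i) * lam <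
        ∑ i ∈ A₀, ⟪y.2 i, e⟫ := by
    have h1 : Continuous (fun y : Ph N => ∑ i ∈ A₀, ⟪y.2 i, e⟫) := by
      apply continuous_finsetSum
      intro i _
      exact ((continuous_apply i).comp continuous_snd).inner continuous_const
    exact h1.continuousAt.eventually (lt_mem_nhds hcle)
  have hV : ∀ᶠ y in 𝓝 x₀, (∀ B : Finset (Fin N),
      |fF m T e s₀ y.1 κ₀ B - fF m T e s₀ x₀.1 κ₀ B| < ε₁) ∧
      (∀ B : Finset (Fin N), B ≠ A₀ → fF m T e s₀ y.1 κ₀ B < fF m T e s₀ y.1 κ₀ A₀) ∧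
      c + (∑ i ∈ A₀, m i) * (Kf T μ / (lam * κ₀)) + pen T (∑ i ∈ A₀, m i) * lam <
        ∑ i ∈ A₀, ⟪y.2 i, e⟫ :=
    (eventually_all.mpr hV1).and ((eventually_all.mpr hV2).and hV3)
  refine ⟨_, hV, ?_⟩
  intro σ τ x hx hτ0 hτ hx0 s hs hτs hxs
  obtain ⟨h1, h2, h3⟩ := hx0
  obtain ⟨h4, -, -⟩ := hxs
  obtain ⟨B, hB⟩ := front_growth hm hT hTm hμ hμm he hκ₀ hlam hx hτ0 hτ (A₀ := A₀) (fun B => by
    by_cases hBA : B = A₀
    · rw [hBA]
    · exact (h2 B hBA).le) h3 s hs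
  have h5 := h4 B
  have h6 := h1 A₀
  rw [abs_lt] at h5 h6
  have h7 : fF m T e s₀ x₀.1 κ₀ B ≤ fF m T e s₀ x₀.1 κ₀ A₀ := by
    by_cases hBA : B = A₀
    · rw [hBA]
    · exact (hA₀ B hBA).le
  have h8 : c * τ₀ ≤ c * τ s := mul_le_mul_of_nonneg_left hτs hc.le
  have h9 : 2 * ε₁ = c * τ₀ := by rw [hε₁]; ring
  linarith [h5.2, h6.1]

/-- A body which is ahead of all the others and fast enough never comes back: the state is
wandering. -/
theorem wandering_of_front {N : ℕ} {m : Fin N → ℝ} (hm : ∀ i, 0 < m i) {T μ : ℝ}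
    (hTm : ∑ i, m i ≤ T) (hμ : 0 < μ) (hμm : ∀ i, μ ≤ m i) {S : Set (Ph N)} {ψ : Ph N → ℝ}
    {φ : ℝ → Ph N → Ph N} (hset : Setting m S ψ φ) {x : Ph N} (hx : x ∈ S) (s : ℝ) {e : V3}
    (he : ‖e‖ ≤ 1) (i₀ : Fin N) {d v : ℝ} (hd : 0 < d) (hv : 0 < v)
    (hq : ∀ j, j ≠ i₀ → ⟪(φ s x).1 j, e⟫ + d ≤ ⟪(φ s x).1 i₀, e⟫)
    (hp : m i₀ * v ≤ ⟪(φ s x).2 i₀, e⟫) (hC : 8 * Kf T μ < v ^ 2 * d) :
    Wandering S φ x := by
  classical
  have hT : 0 < T := lt_of_lt_of_le (Finset.sum_pos (fun i _ => hm i) ⟨i₀, Finset.mem_univ _⟩) hTm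
  refine wandering_of_orbit hset.isFlowOn (locLip_field m hset.smooth) hset.sub hx
    (s := s) ?_
  obtain ⟨y, hy⟩ : ∃ y, y = φ s x := ⟨_, rfl⟩
  rw [← hy] at hq hp ⊢
  have hyS : y ∈ S := by rw [hy]; exact hset.isFlowOn.mem x hx s
  have hKp := Kf_pos hT hμ
  have htraj : ∀ y ∈ S, IsTraj m (fun s => ψ (φ s y)) (fun s => φ s y) := fun y hy =>
    isTraj_of_flow hset.sub hset.smooth.continuousOn hset.pos hset.flow hy
  have hxnc := hset.sub hyS
  have hψx : ContinuousAt ψ y :=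
    hset.smooth.continuousOn.continuousAt ((isOpen_NC N).mem_nhds hxnc)
  obtain ⟨V₁, hV₁, τ₀, hτ₀, hclock⟩ := clock_lower (m := m) hxnc hψx (hset.pos y hxnc)
  have hτd : ∀ y ∈ S, ∀ s, HasDerivAt (fun s => ∫ r in (0:ℝ)..s, ψ (φ r y)) (ψ (φ s y)) s := by
    intro y hy s
    exact intervalIntegral.integral_hasDerivAt_right
      ((htraj y hy).cont.intervalIntegrable _ _)
      ((htraj y hy).cont.stronglyMeasurableAtFilter _ _) (htraj y hy).cont.continuousAt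
  have hτlow : ∀ y ∈ V₁ ∩ S, ∀ s, 1 ≤ s → τ₀ ≤ ∫ r in (0:ℝ)..s, ψ (φ r y) := by
    intro y hy s hs
    refine hclock (fun s => ψ (φ s y)) (fun s => ∫ r in (0:ℝ)..s, ψ (φ r y)) (fun s => φ s y)
      (htraj y hy.2) (fun s => rfl) (by simp) (hτd y hy.2) ?_ s hs
    simp only [(hset.flow y hy.2).1]
    exact hy.1
  -- the parameters
  set κ₀ : ℝ := d / 2 with hκ₀
  have hκ₀pos : 0 < κ₀ := by positivity
  set lam : ℝ := √(Kf T μ / κ₀) with hlam
  have hlampos : 0 < lam := Real.sqrt_pos.mpr (by positivity)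
  have hlamsq : lam * lam = Kf T μ / κ₀ := Real.mul_self_sqrt (by positivity)
  have h2l : 2 * lam < v := by
    have h1 : (2 * lam) ^ 2 < v ^ 2 := by
      have e1 : (2 * lam) ^ 2 = 4 * (Kf T μ / κ₀) := by rw [← hlamsq]; ring
      rw [e1, mul_div_assoc', div_lt_iff₀ hκ₀pos, hκ₀]
      linarith
    exact lt_of_pow_lt_pow_left₀ 2 hv.le h1
  have hKl : Kf T μ / (lam * κ₀) = lam := by
    rw [div_eq_iff (by positivity)]
    have : lam * (lam * κ₀) = (lam * lam) * κ₀ := by ring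
    rw [this, hlamsq]
    field_simp
  have hmp := hm i₀
  set c : ℝ := m i₀ * (v - 2 * lam) / 2 with hc
  have hcpos : 0 < c := by
    have : 0 < v - 2 * lam := by linarith
    positivity
  set s₀ : ℝ := ⟪y.1 i₀, e⟫ - d with hs₀
  have hsing : ∑ i ∈ ({i₀} : Finset (Fin N)), m i = m i₀ := Finset.sum_singleton _ _
  have hFi : 0 < fF m T e s₀ y.1 κ₀ {i₀} := by
    unfold fF
    rw [Finset.sum_singleton, Finset.sum_singleton]
    have h1 : pen T (m i₀) ≤ m i₀ := pen_le hmp.le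
    have h2 : pen T (m i₀) * κ₀ ≤ m i₀ * κ₀ := mul_le_mul_of_nonneg_right h1 hκ₀pos.le
    have h3 : m i₀ * (⟪y.1 i₀, e⟫ - s₀) = m i₀ * d := by rw [hs₀]; ring
    rw [h3]
    have h4 : m i₀ * κ₀ < m i₀ * d := mul_lt_mul_of_pos_left (by rw [hκ₀]; linarith) hmp
    linarith
  have hstrict : ∀ B, B ≠ ({i₀} : Finset (Fin N)) →
      fF m T e s₀ y.1 κ₀ B < fF m T e s₀ y.1 κ₀ {i₀} := by
    intro B hB
    have hBT : ∑ i ∈ B, m i ≤ T := by
      refine le_trans ?_ hTm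
      exact Finset.sum_le_sum_of_subset_of_nonneg (Finset.subset_univ _)
        (fun i _ _ => (hm i).le)
    by_cases hi : i₀ ∈ B
    · have hBe : (B.erase i₀).Nonempty := by
        by_contra hne
        rw [Finset.not_nonempty_iff_eq_empty] at hne
        apply hB
        rw [← Finset.insert_erase hi, hne, insert_empty_eq]
      have hpos : 0 < ∑ i ∈ B.erase i₀, m i := Finset.sum_pos (fun i _ => hm i) hBe
      unfold fF
      rw [Finset.sum_singleton, Finset.sum_singleton, ← Finset.add_sum_erase B _ hi]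
      have h1 : ∑ i ∈ B.erase i₀, m i * (⟪y.1 i, e⟫ - s₀) ≤ 0 := by
        apply Finset.sum_nonpos
        intro j hj
        have h2 := hq j (Finset.ne_of_mem_erase hj)
        have h3 : ⟪y.1 j, e⟫ - s₀ ≤ 0 := by rw [hs₀]; linarith
        exact mul_nonpos_of_nonneg_of_nonpos (hm j).le h3
      have h4 : ∑ i ∈ B, m i = m i₀ + ∑ i ∈ B.erase i₀, m i :=
        (Finset.add_sum_erase B _ hi).symm
      have h5 : pen T (m i₀) < pen T (∑ i ∈ B, m i) :=
        pen_mono hmp.le (by rw [h4]; linarith) hBT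
      have h6 : pen T (m i₀) * κ₀ < pen T (∑ i ∈ B, m i) * κ₀ :=
        mul_lt_mul_of_pos_right h5 hκ₀pos
      linarith
    · refine lt_of_le_of_lt ?_ hFi
      unfold fF
      have h1 : ∑ i ∈ B, m i * (⟪y.1 i, e⟫ - s₀) ≤ 0 := by
        apply Finset.sum_nonpos
        intro j hj
        have h2 := hq j (fun h => hi (h ▸ hj))
        have h3 : ⟪y.1 j, e⟫ - s₀ ≤ 0 := by rw [hs₀]; linarith
        exact mul_nonpos_of_nonneg_of_nonpos (hm j).le h3
      have h2 : 0 ≤ pen T (∑ i ∈ B, m i) * κ₀ :=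
        mul_nonneg (pen_nonneg (Finset.sum_nonneg (fun i _ => (hm i).le)) hBT) hκ₀pos.le
      linarith
  have hcle : c + (∑ i ∈ ({i₀} : Finset (Fin N)), m i) * (Kf T μ / (lam * κ₀)) +
      pen T (∑ i ∈ ({i₀} : Finset (Fin N)), m i) * lam <
      ∑ i ∈ ({i₀} : Finset (Fin N)), ⟪y.2 i, e⟫ := by
    rw [hsing, Finset.sum_singleton, hKl]
    have h1 : pen T (m i₀) * lam ≤ m i₀ * lam :=
      mul_le_mul_of_nonneg_right (pen_le hmp.le) hlampos.le
    have h2 : c + m i₀ * lam + m i₀ * lam < m i₀ * v := by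
      rw [hc]
      have : 0 < m i₀ * (v - 2 * lam) := mul_pos hmp (by linarith)
      linarith
    linarith
  obtain ⟨V₂, hV₂, hno⟩ := front_noreturn hm hT hTm hμ hμm he hκ₀pos hlampos y hstrict hcpos
    hcle hτ₀
  obtain ⟨V, hVsub, hVo, hxV⟩ := mem_nhds_iff.mp (Filter.inter_mem hV₁ hV₂)
  refine ⟨V, hVo, hxV, 1, ?_⟩
  intro t ht z hz hret
  refine hno (fun s => ψ (φ s z)) (fun s => ∫ r in (0:ℝ)..s, ψ (φ r z)) (fun s => φ s z)
    (htraj z hz.2) (by simp) (hτd z hz.2) ?_ t (by linarith)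
    (hτlow z ⟨(hVsub hz.1).1, hz.2⟩ t ht.le) (hVsub hret).2
  simp only [(hset.flow z hz.2).1]
  exact (hVsub hz.1).2

end Pool.Agent.NBody
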