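import Mathlib

/-!
The Gaussian mean of the Newton potential in three dimensions is at most its value at the
centre.
-/

set_option autoImplicit false
open scoped ENNReal Real
open MeasureTheory Set Filter Topology

namespace Pool.Agent.NBody

/-- The normalising constant of the Gaussian weight. -/
noncomputable def gc (b : ℝ) : ℝ := (π / b) * √(π / b)

theorem gc_pos {b : ℝ} (hb : 0 < b) : 0 < gc b := by
  unfold gc
  have : 0 < π / b := div_pos Real.pi_pos hb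
  positivity

theorem integral_gauss3 {b : ℝ} (hb : 0 < b) :
    ∫ x : EuclideanSpace ℝ (Fin 3), Real.exp (-b * ‖x‖ ^ 2) = gc b := by
  rw [GaussianFourier.integral_rexp_neg_mul_sq_norm hb]
  unfold gc
  have h0 : 0 < π / b := div_pos Real.pi_pos hb
  have h1 : ((Module.finrank ℝ (EuclideanSpace ℝ (Fin 3)) : ℝ) / 2 : ℝ) = 1 + 1 / 2 := by
    rw [finrank_euclideanSpace_fin]; norm_num
  rw [h1, Real.rpow_add h0, Real.rpow_one, ← Real.sqrt_eq_rpow]

theorem integrable_gauss3 {b : ℝ} (hb : 0 < b) :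
    Integrable (fun x : EuclideanSpace ℝ (Fin 3) => Real.exp (-b * ‖x‖ ^ 2)) := by
  by_contra h
  have h1 := integral_gauss3 hb
  rw [integral_undef h] at h1
  exact (gc_pos hb).ne h1

theorem lintegral_gauss3 {b : ℝ} (hb : 0 < b) :
    ∫⁻ x : EuclideanSpace ℝ (Fin 3), ENNReal.ofReal (Real.exp (-b * ‖x‖ ^ 2)) =
      ENNReal.ofReal (gc b) := by
  rw [← ofReal_integral_eq_lintegral_ofReal (integrable_gauss3 hb)
    (ae_of_all _ fun x => (Real.exp_pos _).le), integral_gauss3 hb]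

/-- Completing the square. -/
theorem gauss_split {b s : ℝ} (hb : 0 < b) (a x : EuclideanSpace ℝ (Fin 3)) :
    Real.exp (-b * ‖x‖ ^ 2) * Real.exp (-s ^ 2 * ‖x - a‖ ^ 2) =
      Real.exp (-(b * s ^ 2 / (b + s ^ 2)) * ‖a‖ ^ 2) *
        Real.exp (-(b + s ^ 2) * ‖x - (s ^ 2 / (b + s ^ 2)) • a‖ ^ 2) := by
  rw [← Real.exp_add, ← Real.exp_add]
  congr 1
  have hpos : 0 < b + s ^ 2 := by positivity
  rw [@norm_sub_sq_real _ _ _ x a, @norm_sub_sq_real _ _ _ x ((s ^ 2 / (b + s ^ 2)) • a),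
    inner_smul_right, norm_smul, Real.norm_of_nonneg (by positivity)]
  field_simp
  ring

theorem lintegral_gauss_shift {b s : ℝ} (hb : 0 < b) (a : EuclideanSpace ℝ (Fin 3)) :
    ∫⁻ x : EuclideanSpace ℝ (Fin 3),
        ENNReal.ofReal (Real.exp (-b * ‖x‖ ^ 2) * Real.exp (-s ^ 2 * ‖x - a‖ ^ 2)) =
      ENNReal.ofReal (gc (b + s ^ 2) *
        Real.exp (-(b * s ^ 2 / (b + s ^ 2)) * ‖a‖ ^ 2)) := by
  have hpos : 0 < b + s ^ 2 := by positivity
  simp_rw [gauss_split hb a]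
  have h1 : ∀ x : EuclideanSpace ℝ (Fin 3),
      ENNReal.ofReal (Real.exp (-(b * s ^ 2 / (b + s ^ 2)) * ‖a‖ ^ 2) *
        Real.exp (-(b + s ^ 2) * ‖x - (s ^ 2 / (b + s ^ 2)) • a‖ ^ 2)) =
      ENNReal.ofReal (Real.exp (-(b * s ^ 2 / (b + s ^ 2)) * ‖a‖ ^ 2)) *
        ENNReal.ofReal (Real.exp (-(b + s ^ 2) * ‖x - (s ^ 2 / (b + s ^ 2)) • a‖ ^ 2)) :=
    fun x => ENNReal.ofReal_mul (Real.exp_pos _).le
  simp_rw [h1]
  rw [lintegral_const_mul _ (by fun_prop)]
  rw [lintegral_sub_right_eq_self (fun x : EuclideanSpace ℝ (Fin 3) =>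
    ENNReal.ofReal (Real.exp (-(b + s ^ 2) * ‖x‖ ^ 2))) ((s ^ 2 / (b + s ^ 2)) • a)]
  rw [lintegral_gauss3 hpos, ← ENNReal.ofReal_mul (Real.exp_pos _).le, mul_comm]

theorem lintegral_gauss_half {r : ℝ} (hr : 0 < r) :
    ∫⁻ s in Ioi (0:ℝ), ENNReal.ofReal (Real.exp (-s ^ 2 * r ^ 2)) =
      ENNReal.ofReal (√π / 2 / r) := by
  have h0 : 0 < r ^ 2 := by positivity
  have h1 : ∀ s : ℝ, Real.exp (-s ^ 2 * r ^ 2) = Real.exp (-(r ^ 2) * s ^ 2) := by
    intro s; congr 1; ring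
  simp_rw [h1]
  rw [← ofReal_integral_eq_lintegral_ofReal
    ((integrable_exp_neg_mul_sq h0).integrableOn) (ae_of_all _ fun x => (Real.exp_pos _).le),
    integral_gaussian_Ioi]
  congr 1
  rw [Real.sqrt_div Real.pi_pos.le, Real.sqrt_sq hr.le]
  ring

/-- The primitive in the width variable. -/
theorem lintegral_width {b A : ℝ} (hb : 0 < b) (hA : 0 < A) :
    ∫⁻ s in Ioi (0:ℝ), ENNReal.ofReal (gc (b + s ^ 2) *
        Real.exp (-(b * s ^ 2 / (b + s ^ 2)) * A)) ≤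
      ENNReal.ofReal (gc b * (√(π / A) / 2)) := by
  set G : ℝ → ℝ := fun y => ∫ v in (0:ℝ)..y, Real.exp (-A * v ^ 2) with hG
  have hcont : Continuous fun v : ℝ => Real.exp (-A * v ^ 2) := by fun_prop
  have hGd : ∀ y, HasDerivAt G (Real.exp (-A * y ^ 2)) y := fun y =>
    (hcont.integral_hasStrictDerivAt 0 y).hasDerivAt
  set w : ℝ → ℝ := fun s => √b * s / √(b + s ^ 2) with hw
  have hwd : ∀ s, HasDerivAt w (√b * (b / ((b + s ^ 2) * √(b + s ^ 2)))) s := by
    intro s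
    have hpos : 0 < b + s ^ 2 := by positivity
    have hsq : √(b + s ^ 2) ≠ 0 := (Real.sqrt_pos.mpr hpos).ne'
    have h1 : HasDerivAt (fun s : ℝ => b + s ^ 2) (2 * s) s := by
      simpa using ((hasDerivAt_pow 2 s).const_add b)
    have h2 : HasDerivAt (fun s : ℝ => √(b + s ^ 2)) (2 * s / (2 * √(b + s ^ 2))) s :=
      h1.sqrt hpos.ne'
    have h3 : HasDerivAt (fun s : ℝ => √b * s) (√b) s := by
      simpa using (hasDerivAt_id s).const_mul (√b)
    have h4 := h3.div h2 hsq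
    refine h4.congr_deriv ?_
    have hss : √(b + s ^ 2) ^ 2 = b + s ^ 2 := Real.sq_sqrt hpos.le
    field_simp
    rw [hss]
    ring
  have hgd : ∀ s ∈ Ici (0:ℝ), HasDerivAt (fun s => gc b * G (w s))
      (gc (b + s ^ 2) * Real.exp (-(b * s ^ 2 / (b + s ^ 2)) * A)) s := by
    intro s _
    have hpos : 0 < b + s ^ 2 := by positivity
    have h1 := ((hGd (w s)).comp s (hwd s)).const_mul (gc b)
    refine h1.congr_deriv ?_
    have h2 : (w s) ^ 2 = b * s ^ 2 / (b + s ^ 2) := by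
      rw [hw]
      simp only
      rw [div_pow, mul_pow, Real.sq_sqrt hb.le, Real.sq_sqrt hpos.le]
    rw [h2]
    have h3 : -A * (b * s ^ 2 / (b + s ^ 2)) = -(b * s ^ 2 / (b + s ^ 2)) * A := by ring
    rw [h3]
    unfold gc
    have hb' : √b ≠ 0 := (Real.sqrt_pos.mpr hb).ne'
    have hs' : √(b + s ^ 2) ≠ 0 := (Real.sqrt_pos.mpr hpos).ne'
    rw [Real.sqrt_div Real.pi_pos.le, Real.sqrt_div Real.pi_pos.le]
    field_simp
  have hnn : ∀ s ∈ Ioi (0:ℝ), 0 ≤ gc (b + s ^ 2) *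
      Real.exp (-(b * s ^ 2 / (b + s ^ 2)) * A) := by
    intro s _
    have hpos : 0 < b + s ^ 2 := by positivity
    exact mul_nonneg (gc_pos hpos).le (Real.exp_pos _).le
  have hwlim : Tendsto w atTop (𝓝 (√b)) := by
    have h1 : ∀ᶠ s in atTop, w s = √b * (1 / √(b / s ^ 2 + 1)) := by
      filter_upwards [eventually_gt_atTop (0:ℝ)] with s hs
      rw [hw]
      simp only
      have h2 : √(b + s ^ 2) = s * √(b / s ^ 2 + 1) := by
        have : b + s ^ 2 = s ^ 2 * (b / s ^ 2 + 1) := by field_simp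
        rw [this, Real.sqrt_mul (by positivity), Real.sqrt_sq hs.le]
      rw [h2]
      have h3 : √(b / s ^ 2 + 1) ≠ 0 := (Real.sqrt_pos.mpr (by positivity)).ne'
      field_simp
    refine Tendsto.congr' (h1.mono fun s hs => hs.symm) ?_
    have h4 : Tendsto (fun s : ℝ => b / s ^ 2 + 1) atTop (𝓝 (0 + 1)) := by
      refine Tendsto.add ?_ tendsto_const_nhds
      exact tendsto_const_nhds.div_atTop (tendsto_pow_atTop (by norm_num))
    have h5 : Tendsto (fun s : ℝ => 1 / √(b / s ^ 2 + 1)) atTop (𝓝 (1 / √(0 + 1))) := by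
      refine Tendsto.div tendsto_const_nhds ((Real.continuous_sqrt.tendsto _).comp h4) ?_
      norm_num
    have h6 := h5.const_mul (√b)
    simpa using h6
  have hlim : Tendsto (fun s => gc b * G (w s)) atTop (𝓝 (gc b * G (√b))) := by
    have hGc : ContinuousAt G (√b) := (hGd _).continuousAt
    exact (hGc.tendsto.comp hwlim).const_mul _
  have hint := integral_Ioi_of_hasDerivAt_of_nonneg' hgd hnn hlim
  have hintb := integrableOn_Ioi_deriv_of_nonneg' hgd hnn hlim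
  rw [← ofReal_integral_eq_lintegral_ofReal hintb
    ((ae_restrict_iff' measurableSet_Ioi).mpr (ae_of_all _ hnn)), hint]
  apply ENNReal.ofReal_le_ofReal
  have hw0 : w 0 = 0 := by simp [hw]
  have hG0 : G 0 = 0 := by simp [hG]
  rw [hw0, hG0, mul_zero, sub_zero]
  apply mul_le_mul_of_nonneg_left _ (gc_pos hb).le
  rw [← integral_gaussian_Ioi A, hG]
  simp only
  rw [intervalIntegral.integral_of_le (Real.sqrt_nonneg b)]
  apply setIntegral_mono_set
  · exact (integrable_exp_neg_mul_sq hA).integrableOn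
  · exact ae_of_all _ fun x => (Real.exp_pos _).le
  · exact (Ioc_subset_Ioi_self).eventuallyLE

/-- **Gaussian mean of the Newton potential.** -/
theorem gauss_mean {b : ℝ} (hb : 0 < b) (a : EuclideanSpace ℝ (Fin 3)) (ha : a ≠ 0) :
    ∫⁻ x : EuclideanSpace ℝ (Fin 3),
        ENNReal.ofReal (Real.exp (-b * ‖x‖ ^ 2) * (1 / ‖x - a‖)) ≤
      ENNReal.ofReal (gc b * (1 / ‖a‖)) := by
  have hna : 0 < ‖a‖ := norm_pos_iff.mpr ha
  have hpi : 0 < √π / 2 := by
    have := Real.sqrt_pos.mpr Real.pi_pos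
    positivity
  -- the pointwise bound by the inner integral
  have h1 : ∀ x : EuclideanSpace ℝ (Fin 3),
      ENNReal.ofReal (√π / 2) * ENNReal.ofReal (Real.exp (-b * ‖x‖ ^ 2) * (1 / ‖x - a‖)) ≤
        ∫⁻ s in Ioi (0:ℝ),
          ENNReal.ofReal (Real.exp (-b * ‖x‖ ^ 2) * Real.exp (-s ^ 2 * ‖x - a‖ ^ 2)) := by
    intro x
    rcases eq_or_ne x a with rfl | hxa
    · simp
    · have hr : 0 < ‖x - a‖ := norm_pos_iff.mpr (sub_ne_zero.mpr hxa)
      have h2 : ∀ s : ℝ, ENNReal.ofReal (Real.exp (-b * ‖x‖ ^ 2) *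
          Real.exp (-s ^ 2 * ‖x - a‖ ^ 2)) = ENNReal.ofReal (Real.exp (-b * ‖x‖ ^ 2)) *
          ENNReal.ofReal (Real.exp (-s ^ 2 * ‖x - a‖ ^ 2)) :=
        fun s => ENNReal.ofReal_mul (Real.exp_pos _).le
      simp_rw [h2]
      rw [lintegral_const_mul _ (by fun_prop), lintegral_gauss_half hr,
        ← ENNReal.ofReal_mul hpi.le, ← ENNReal.ofReal_mul (Real.exp_pos _).le]
      apply ENNReal.ofReal_le_ofReal
      apply le_of_eq
      ring
  have hmeas : Measurable (Function.uncurry fun (x : EuclideanSpace ℝ (Fin 3)) (s : ℝ) =>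
      ENNReal.ofReal (Real.exp (-b * ‖x‖ ^ 2) * Real.exp (-s ^ 2 * ‖x - a‖ ^ 2))) := by
    unfold Function.uncurry
    fun_prop
  have h3 : ENNReal.ofReal (√π / 2) * ∫⁻ x : EuclideanSpace ℝ (Fin 3),
      ENNReal.ofReal (Real.exp (-b * ‖x‖ ^ 2) * (1 / ‖x - a‖)) ≤
      ENNReal.ofReal (√π / 2) * ENNReal.ofReal (gc b * (1 / ‖a‖)) := by
    rw [← lintegral_const_mul _ (by fun_prop)]
    refine (lintegral_mono h1).trans ?_
    rw [lintegral_lintegral_swap hmeas.aemeasurable]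
    have h4 : ∀ s : ℝ, ∫⁻ x : EuclideanSpace ℝ (Fin 3),
        ENNReal.ofReal (Real.exp (-b * ‖x‖ ^ 2) * Real.exp (-s ^ 2 * ‖x - a‖ ^ 2)) =
        ENNReal.ofReal (gc (b + s ^ 2) *
          Real.exp (-(b * s ^ 2 / (b + s ^ 2)) * ‖a‖ ^ 2)) :=
      fun s => lintegral_gauss_shift hb a
    simp_rw [h4]
    refine (lintegral_width hb (by positivity : 0 < ‖a‖ ^ 2)).trans ?_
    rw [← ENNReal.ofReal_mul hpi.le]
    apply ENNReal.ofReal_le_ofReal
    apply le_of_eq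
    rw [Real.sqrt_div Real.pi_pos.le, Real.sqrt_sq hna.le]
    ring
  have h5 : ENNReal.ofReal (√π / 2) ≠ 0 := by
    rw [Ne, ENNReal.ofReal_eq_zero, not_le]
    exact hpi
  exact (ENNReal.mul_le_mul_iff_right h5 ENNReal.ofReal_ne_top).mp h3

end Pool.Agent.NBody
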