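import Mathlib
import Pool.Agent.NBody.Mean

/-!
Spreading finitely many bodies by small displacements without raising the Newton energy by more
than a factor close to one.
-/

set_option autoImplicit false
open scoped ENNReal Real
open MeasureTheory Set Filter Topology

namespace Pool.Agent.NBody

/-- The Gaussian measure (not normalised) of the displacements. -/
noncomputable def gm (b : ℝ) : Measure (EuclideanSpace ℝ (Fin 3)) :=
  volume.withDensity (fun x => ENNReal.ofReal (Real.exp (-b * ‖x‖ ^ 2)))

theorem gm_univ {b : ℝ} (hb : 0 < b) : gm b univ = ENNReal.ofReal (gc b) := by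
  rw [gm, withDensity_apply _ MeasurableSet.univ, Measure.restrict_univ, lintegral_gauss3 hb]

theorem gm_le_volume {b : ℝ} (hb : 0 < b) (s : Set (EuclideanSpace ℝ (Fin 3))) :
    gm b s ≤ volume s := by
  have h1 : gm b ≤ volume.withDensity (1 : EuclideanSpace ℝ (Fin 3) → ℝ≥0∞) := by
    apply withDensity_mono
    refine ae_of_all _ fun x => ?_
    simp only [Pi.one_apply]
    rw [← ENNReal.ofReal_one]
    apply ENNReal.ofReal_le_ofReal
    rw [Real.exp_le_one_iff]
    have : 0 ≤ b * ‖x‖ ^ 2 := by positivity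
    linarith
  have h2 := h1 s
  rwa [withDensity_one] at h2

/-- Gaussian tail. -/
theorem gm_far {b : ℝ} (hb : 0 < b) (d : ℝ) (hd : 0 ≤ d) :
    gm b {x | d < ‖x‖} ≤ ENNReal.ofReal (3 * Real.exp (-b * d ^ 2 / 2) * gc b) := by
  have hm : MeasurableSet {x : EuclideanSpace ℝ (Fin 3) | d < ‖x‖} :=
    measurableSet_lt measurable_const measurable_norm
  rw [gm, withDensity_apply _ hm]
  have h1 : ∀ x ∈ {x : EuclideanSpace ℝ (Fin 3) | d < ‖x‖},
      ENNReal.ofReal (Real.exp (-b * ‖x‖ ^ 2)) ≤
        ENNReal.ofReal (Real.exp (-b * d ^ 2 / 2)) *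
          ENNReal.ofReal (Real.exp (-(b / 2) * ‖x‖ ^ 2)) := by
    intro x hx
    rw [← ENNReal.ofReal_mul (Real.exp_pos _).le, ← Real.exp_add]
    apply ENNReal.ofReal_le_ofReal
    apply Real.exp_le_exp.mpr
    have hx' : d < ‖x‖ := hx
    have : d ^ 2 ≤ ‖x‖ ^ 2 := by gcongr
    nlinarith
  calc ∫⁻ x in {x : EuclideanSpace ℝ (Fin 3) | d < ‖x‖},
        ENNReal.ofReal (Real.exp (-b * ‖x‖ ^ 2))
      ≤ ∫⁻ x in {x : EuclideanSpace ℝ (Fin 3) | d < ‖x‖},
        ENNReal.ofReal (Real.exp (-b * d ^ 2 / 2)) *
          ENNReal.ofReal (Real.exp (-(b / 2) * ‖x‖ ^ 2)) := setLIntegral_mono' hm h1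
    _ ≤ ∫⁻ x : EuclideanSpace ℝ (Fin 3),
        ENNReal.ofReal (Real.exp (-b * d ^ 2 / 2)) *
          ENNReal.ofReal (Real.exp (-(b / 2) * ‖x‖ ^ 2)) := setLIntegral_le_lintegral _ _
    _ = ENNReal.ofReal (Real.exp (-b * d ^ 2 / 2)) * ENNReal.ofReal (gc (b / 2)) := by
        rw [lintegral_const_mul _ (by fun_prop), lintegral_gauss3 (by positivity)]
    _ ≤ _ := by
        rw [← ENNReal.ofReal_mul (Real.exp_pos _).le]
        apply ENNReal.ofReal_le_ofReal
        have h2 : gc (b / 2) ≤ 3 * gc b := by
          unfold gc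
          have h3 : π / (b / 2) = 2 * (π / b) := by field_simp
          have h4 : 0 < π / b := div_pos Real.pi_pos hb
          rw [h3, Real.sqrt_mul (by norm_num)]
          have h5 : √2 ≤ 3 / 2 := by
            rw [Real.sqrt_le_left (by norm_num)]; norm_num
          have h6 : 0 ≤ π / b * √(π / b) := by positivity
          nlinarith
        have h7 := Real.exp_pos (-b * d ^ 2 / 2)
        nlinarith

/-- First moment method: a point outside of the bad set at which a nonnegative function is at
most its mean times `1 / (1 - ε)`. -/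
theorem exists_good {b : ℝ} (hb : 0 < b) {ε c : ℝ} (hε : 0 ≤ ε) (hε1 : ε < 1) (hc : 0 ≤ c)
    (f : EuclideanSpace ℝ (Fin 3) → ℝ) (hf : Measurable f)
    (hfi : ∫⁻ x, ENNReal.ofReal (f x) ∂(gm b) ≤ ENNReal.ofReal (gc b * c))
    (B : Set (EuclideanSpace ℝ (Fin 3))) (hB : MeasurableSet B)
    (hBm : gm b B ≤ ENNReal.ofReal (ε * gc b)) :
    ∃ x ∉ B, f x ≤ (1 - ε)⁻¹ * c := by
  have hg := gc_pos hb
  have h1ε : 0 < 1 - ε := by linarith
  have hcompl : ENNReal.ofReal ((1 - ε) * gc b) ≤ gm b Bᶜ := by
    have h1 : gm b univ ≤ gm b B + gm b Bᶜ := by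
      rw [← union_compl_self B]
      exact measure_union_le _ _
    rw [gm_univ hb] at h1
    have h2 : ENNReal.ofReal (gc b) ≤ ENNReal.ofReal (ε * gc b) + gm b Bᶜ :=
      h1.trans (add_le_add hBm le_rfl)
    have h3 : ENNReal.ofReal (gc b) = ENNReal.ofReal (ε * gc b) +
        ENNReal.ofReal ((1 - ε) * gc b) := by
      rw [← ENNReal.ofReal_add (by positivity) (by positivity)]
      congr 1
      ring
    rw [h3] at h2
    exact (ENNReal.add_le_add_iff_left ENNReal.ofReal_ne_top).mp h2
  have hpos : 0 < gm b Bᶜ := by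
    refine lt_of_lt_of_le ?_ hcompl
    rw [ENNReal.ofReal_pos]
    positivity
  have hfin : gm b Bᶜ ≠ ∞ := by
    have h1 : gm b Bᶜ ≤ gm b univ := measure_mono (subset_univ _)
    rw [gm_univ hb] at h1
    exact (h1.trans_lt ENNReal.ofReal_lt_top).ne
  obtain ⟨x, hx, hfx⟩ := exists_le_setLAverage (μ := gm b) (s := Bᶜ)
    (f := fun x => ENNReal.ofReal (f x)) hpos.ne' hfin (by fun_prop)
  refine ⟨x, hx, ?_⟩
  rw [setLAverage_eq] at hfx
  have h4 : ENNReal.ofReal (f x) ≤ ENNReal.ofReal ((1 - ε)⁻¹ * c) := by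
    refine hfx.trans ?_
    rw [ENNReal.div_le_iff hpos.ne' hfin]
    refine (setLIntegral_le_lintegral _ _).trans (hfi.trans ?_)
    have h5 : ENNReal.ofReal (gc b * c) =
        ENNReal.ofReal ((1 - ε)⁻¹ * c) * ENNReal.ofReal ((1 - ε) * gc b) := by
      rw [← ENNReal.ofReal_mul (by positivity)]
      congr 1
      field_simp
    rw [h5]
    exact mul_le_mul_right hcompl _
  by_contra hcon
  push Not at hcon
  have h6 : 0 ≤ (1 - ε)⁻¹ * c := by positivity
  have h7 := (ENNReal.ofReal_lt_ofReal_iff (h6.trans_lt hcon)).mpr hcon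
  exact absurd h4 (not_le.mpr h7)

/-- One displacement: outside of the bad set, the weighted Newton potential of finitely many
centres is at most its old value times `1 / (1 - ε)`. -/
theorem exists_move {b : ℝ} (hb : 0 < b) {ε : ℝ} (hε : 0 ≤ ε) (hε1 : ε < 1)
    {ι : Type*} (s : Finset ι) (w : ι → ℝ) (hw : ∀ i ∈ s, 0 ≤ w i)
    (a : ι → EuclideanSpace ℝ (Fin 3)) (q : EuclideanSpace ℝ (Fin 3))
    (ha : ∀ i ∈ s, a i ≠ q)
    (B : Set (EuclideanSpace ℝ (Fin 3))) (hB : MeasurableSet B)
    (hBm : gm b {x | q + x ∈ B} ≤ ENNReal.ofReal (ε * gc b)) :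
    ∃ z ∉ B, ∑ i ∈ s, w i / ‖z - a i‖ ≤ (1 - ε)⁻¹ * ∑ i ∈ s, w i / ‖q - a i‖ := by
  have hg := gc_pos hb
  have hmeas : Measurable fun x : EuclideanSpace ℝ (Fin 3) =>
      ∑ i ∈ s, w i / ‖q + x - a i‖ := by
    fun_prop
  have hc : 0 ≤ ∑ i ∈ s, w i / ‖q - a i‖ :=
    Finset.sum_nonneg fun i hi => div_nonneg (hw i hi) (norm_nonneg _)
  have hfi : ∫⁻ x, ENNReal.ofReal (∑ i ∈ s, w i / ‖q + x - a i‖) ∂(gm b) ≤
      ENNReal.ofReal (gc b * ∑ i ∈ s, w i / ‖q - a i‖) := by
    rw [gm, lintegral_withDensity_eq_lintegral_mul _ (by fun_prop) (by fun_prop)]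
    have h1 : ∀ x : EuclideanSpace ℝ (Fin 3),
        ENNReal.ofReal (Real.exp (-b * ‖x‖ ^ 2)) *
          ENNReal.ofReal (∑ i ∈ s, w i / ‖q + x - a i‖) =
        ∑ i ∈ s, ENNReal.ofReal (w i) *
          ENNReal.ofReal (Real.exp (-b * ‖x‖ ^ 2) * (1 / ‖x - (a i - q)‖)) := by
      intro x
      rw [ENNReal.ofReal_sum_of_nonneg
        (fun i hi => div_nonneg (hw i hi) (norm_nonneg _)), Finset.mul_sum]
      refine Finset.sum_congr rfl fun i hi => ?_
      rw [← ENNReal.ofReal_mul (Real.exp_pos _).le, ← ENNReal.ofReal_mul (hw i hi)]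
      congr 1
      have : q + x - a i = x - (a i - q) := by abel
      rw [this]
      ring
    simp only [Pi.mul_apply]
    simp_rw [h1]
    rw [lintegral_finset_sum _ (fun i _ => by fun_prop)]
    have h2 : ∀ i ∈ s, ∫⁻ x : EuclideanSpace ℝ (Fin 3), ENNReal.ofReal (w i) *
          ENNReal.ofReal (Real.exp (-b * ‖x‖ ^ 2) * (1 / ‖x - (a i - q)‖)) ≤
        ENNReal.ofReal (gc b * (w i / ‖q - a i‖)) := by
      intro i hi
      rw [lintegral_const_mul _ (by fun_prop)]
      have h3 := gauss_mean hb (a i - q) (sub_ne_zero.mpr (ha i hi))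
      refine (mul_le_mul_right h3 _).trans ?_
      rw [← ENNReal.ofReal_mul (hw i hi)]
      apply ENNReal.ofReal_le_ofReal
      rw [norm_sub_rev (a i) q]
      apply le_of_eq
      ring
    refine (Finset.sum_le_sum h2).trans ?_
    rw [← ENNReal.ofReal_sum_of_nonneg
      (fun i hi => mul_nonneg hg.le (div_nonneg (hw i hi) (norm_nonneg _))), Finset.mul_sum]
  have hB' : MeasurableSet {x : EuclideanSpace ℝ (Fin 3) | q + x ∈ B} :=
    measurable_const_add q hB
  obtain ⟨x, hx, hfx⟩ := exists_good hb hε hε1 hc _ hmeas hfi _ hB' hBm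
  exact ⟨q + x, hx, hfx⟩

section Energy

variable {n : ℕ}

/-- Weighted double sum of the Newton potential. -/
noncomputable def wpot (m u : Fin n → ℝ) (p : Fin n → EuclideanSpace ℝ (Fin 3)) : ℝ :=
  ∑ i, ∑ j, m i * u i * (m j * u j) / ‖p i - p j‖

theorem pair_split (f : Fin n → Fin n → ℝ) (hs : ∀ i j, f i j = f j i) (k : Fin n)
    (hk : f k k = 0) :
    ∑ i, ∑ j, f i j = 2 * ∑ j ∈ Finset.univ.erase k, f k j +
      ∑ i ∈ Finset.univ.erase k, ∑ j ∈ Finset.univ.erase k, f i j := by
  have h1 : ∀ i, ∑ j, f i j = f i k + ∑ j ∈ Finset.univ.erase k, f i j := fun i =>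
    (Finset.add_sum_erase Finset.univ (fun j => f i j) (Finset.mem_univ k)).symm
  rw [← Finset.add_sum_erase Finset.univ (fun i => ∑ j, f i j) (Finset.mem_univ k)]
  simp_rw [h1]
  rw [hk, Finset.sum_add_distrib]
  have h2 : ∑ i ∈ Finset.univ.erase k, f i k = ∑ j ∈ Finset.univ.erase k, f k j :=
    Finset.sum_congr rfl fun i _ => hs i k
  rw [h2]
  ring

theorem wpot_split (m u : Fin n → ℝ) (p : Fin n → EuclideanSpace ℝ (Fin 3)) (k : Fin n) :
    wpot m u p = 2 * ∑ j ∈ Finset.univ.erase k,
        m k * u k * (m j * u j) / ‖p k - p j‖ +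
      ∑ i ∈ Finset.univ.erase k, ∑ j ∈ Finset.univ.erase k,
        m i * u i * (m j * u j) / ‖p i - p j‖ := by
  unfold wpot
  apply pair_split (fun i j => m i * u i * (m j * u j) / ‖p i - p j‖)
  · intro i j
    rw [norm_sub_rev (p i) (p j)]
    ring
  · simp

/-- **Spreading.** -/
theorem spread_weighted (m : Fin n → ℝ) (hm : ∀ i, 0 ≤ m i) {b ε d s₀ : ℝ} (hb : 0 < b) (hε1 : ε < 1)
    (hd : 0 ≤ d) (hs₀ : 0 < s₀)
    (q : Fin n → EuclideanSpace ℝ (Fin 3)) (hq : ∀ i j, i ≠ j → q i ≠ q j)
    (F : Fin n → Set (EuclideanSpace ℝ (Fin 3))) (hF : ∀ i, MeasurableSet (F i))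
    {ε₁ : ℝ} (hε₁ : 0 ≤ ε₁)
    (hFm : ∀ i, gm b {x | q i + x ∈ F i} ≤ ENNReal.ofReal (ε₁ * gc b))
    (hε : 3 * Real.exp (-b * d ^ 2 / 2) + n * (s₀ ^ 3 * (π * 4 / 3) / gc b) + ε₁ ≤ ε) :
    ∃ p : Fin n → EuclideanSpace ℝ (Fin 3),
      (∀ i, ‖p i - q i‖ ≤ d) ∧ (∀ i j, i ≠ j → s₀ < ‖p i - p j‖) ∧ (∀ i, p i ∉ F i) ∧
      ∑ i, ∑ j, m i * m j / ‖p i - p j‖ ≤
        ((1 - ε)⁻¹) ^ 2 * ∑ i, ∑ j, m i * m j / ‖q i - q j‖ := by
  have hg := gc_pos hb
  have hε0 : 0 ≤ ε := by
    have h1 := Real.exp_pos (-b * d ^ 2 / 2)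
    have h2 : 0 ≤ n * (s₀ ^ 3 * (π * 4 / 3) / gc b) := by positivity
    linarith
  have h1ε : 0 < 1 - ε := by linarith
  set κ : ℝ := (1 - ε)⁻¹ with hκ
  have hκ0 : 0 < κ := by positivity
  classical
  have key : ∀ T : Finset (Fin n), ∃ p : Fin n → EuclideanSpace ℝ (Fin 3),
      (∀ i ∉ T, p i = q i) ∧ (∀ i, ‖p i - q i‖ ≤ d) ∧ (∀ i j, i ≠ j → p i ≠ p j) ∧
      (∀ i ∈ T, ∀ j ∈ T, i ≠ j → s₀ < ‖p i - p j‖) ∧ (∀ i ∈ T, p i ∉ F i) ∧
      wpot m (fun i => if i ∈ T then 1 else κ) p ≤
        wpot m (fun _ => κ) q := by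
    intro T
    induction T using Finset.induction_on with
    | empty =>
      refine ⟨q, fun i _ => rfl, fun i => by simpa using hd, hq, by simp, by simp, ?_⟩
      simp
    | insert k T hk ih =>
      obtain ⟨p, hp1, hp2, hp3, hp4, hp5, hp6⟩ := ih
      have hpk : p k = q k := hp1 k hk
      set B : Set (EuclideanSpace ℝ (Fin 3)) := {z | d < ‖z - q k‖} ∪
        (⋃ j ∈ Finset.univ.erase k, Metric.closedBall (p j) s₀) ∪ F k with hBdef
      have hBmeas : MeasurableSet B := by
        refine MeasurableSet.union (MeasurableSet.union ?_ ?_) (hF k)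
        · exact measurableSet_lt measurable_const (by fun_prop)
        · exact Finset.measurableSet_biUnion _ fun j _ => measurableSet_closedBall
      have hBm : gm b {x | p k + x ∈ B} ≤ ENNReal.ofReal (ε * gc b) := by
        have hsub : {x | p k + x ∈ B} ⊆ {x | d < ‖x‖} ∪
            (⋃ j ∈ Finset.univ.erase k, Metric.closedBall (p j - q k) s₀) ∪
            {x | q k + x ∈ F k} := by
          intro x hx
          rw [hpk] at hx
          rcases hx with (hx | hx) | hx
          · left; left
            have : d < ‖q k + x - q k‖ := hx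
            rwa [add_sub_cancel_left] at this
          · left; right
            simp only [mem_iUnion] at hx ⊢
            obtain ⟨j, hj, hx⟩ := hx
            refine ⟨j, hj, ?_⟩
            rw [mem_closedBall_iff_norm] at hx ⊢
            have : x - (p j - q k) = q k + x - p j := by abel
            rwa [this]
          · right; exact hx
        refine (measure_mono hsub).trans ?_
        refine (measure_union_le _ _).trans ?_
        refine (add_le_add (measure_union_le _ _) le_rfl).trans ?_
        have h1 := gm_far hb d hd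
        have h2 : gm b (⋃ j ∈ Finset.univ.erase k, Metric.closedBall (p j - q k) s₀) ≤
            ENNReal.ofReal (n * (s₀ ^ 3 * (π * 4 / 3))) := by
          refine (measure_biUnion_finset_le _ _).trans ?_
          have h3 : ∀ j ∈ Finset.univ.erase k, gm b (Metric.closedBall (p j - q k) s₀) ≤
              ENNReal.ofReal (s₀ ^ 3 * (π * 4 / 3)) := by
            intro j _
            refine (gm_le_volume hb _).trans ?_
            rw [EuclideanSpace.volume_closedBall_fin_three, ← ENNReal.ofReal_pow hs₀.le,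
              ← ENNReal.ofReal_mul (by positivity)]
          refine (Finset.sum_le_sum h3).trans ?_
          rw [Finset.sum_const, nsmul_eq_mul]
          have h4 : (((Finset.univ.erase k).card : ℕ) : ℝ≥0∞) ≤ ENNReal.ofReal (n : ℝ) := by
            rw [ENNReal.ofReal_natCast]
            have h5 : (Finset.univ.erase k).card ≤ n :=
              (Finset.card_le_univ _).trans_eq (Fintype.card_fin n)
            exact_mod_cast h5
          refine (mul_le_mul_left h4 _).trans ?_
          rw [← ENNReal.ofReal_mul (by positivity)]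
        refine (add_le_add (add_le_add h1 h2) (hFm k)).trans ?_
        rw [← ENNReal.ofReal_add (by positivity) (by positivity),
          ← ENNReal.ofReal_add (by positivity) (by positivity)]
        apply ENNReal.ofReal_le_ofReal
        have h6 : (3 * Real.exp (-b * d ^ 2 / 2) + n * (s₀ ^ 3 * (π * 4 / 3) / gc b) + ε₁) *
            gc b ≤ ε * gc b := mul_le_mul_of_nonneg_right hε hg.le
        refine le_trans (le_of_eq ?_) h6
        field_simp
      set u : Fin n → ℝ := fun i => if i ∈ T then 1 else κ with hu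
      have hu0 : ∀ i, 0 ≤ u i := by
        intro i; rw [hu]; simp only; split_ifs
        · exact zero_le_one
        · exact hκ0.le
      obtain ⟨z, hzB, hz⟩ := exists_move hb hε0 hε1 (Finset.univ.erase k)
        (fun j => m k * (m j * u j)) (fun j _ => mul_nonneg (hm k) (mul_nonneg (hm j) (hu0 j)))
        p (p k) (fun j hj => hp3 j k (Finset.ne_of_mem_erase hj)) B hBmeas hBm
      have hz1 : ‖z - q k‖ ≤ d := by
        by_contra h
        push Not at h
        exact hzB (Or.inl (Or.inl h))
      have hz2 : ∀ j, j ≠ k → s₀ < ‖z - p j‖ := by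
        intro j hj
        by_contra h
        push Not at h
        apply hzB
        left; right
        simp only [mem_iUnion]
        exact ⟨j, Finset.mem_erase.mpr ⟨hj, Finset.mem_univ _⟩,
          mem_closedBall_iff_norm.mpr h⟩
      have hz3 : z ∉ F k := fun h => hzB (Or.inr h)
      have hpu : ∀ j, j ≠ k → Function.update p k z j = p j := fun j hj =>
        Function.update_of_ne hj z p
      have hpk' : Function.update p k z k = z := Function.update_self k z p
      refine ⟨Function.update p k z, ?_, ?_, ?_, ?_, ?_, ?_⟩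
      · intro i hi
        rw [Finset.mem_insert, not_or] at hi
        rw [hpu i hi.1]
        exact hp1 i hi.2
      · intro i
        rcases eq_or_ne i k with rfl | hik
        · rw [hpk']; exact hz1
        · rw [hpu i hik]; exact hp2 i
      · intro i j hij
        rcases eq_or_ne i k with rfl | hik
        · rw [hpk', hpu j hij.symm]
          intro h
          have := hz2 j hij.symm
          rw [h, sub_self, norm_zero] at this
          exact absurd this (not_lt.mpr hs₀.le)
        · rcases eq_or_ne j k with rfl | hjk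
          · rw [hpk', hpu i hik]
            intro h
            have := hz2 i hik
            rw [h, sub_self, norm_zero] at this
            exact absurd this (not_lt.mpr hs₀.le)
          · rw [hpu i hik, hpu j hjk]; exact hp3 i j hij
      · intro i hi j hj hij
        rcases eq_or_ne i k with rfl | hik
        · rw [hpk', hpu j hij.symm]
          exact hz2 j hij.symm
        · rcases eq_or_ne j k with rfl | hjk
          · rw [hpk', hpu i hik, norm_sub_rev]
            exact hz2 i hik
          · rw [hpu i hik, hpu j hjk]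
            exact hp4 i ((Finset.mem_insert.mp hi).resolve_left hik) j
              ((Finset.mem_insert.mp hj).resolve_left hjk) hij
      · intro i hi
        rcases eq_or_ne i k with rfl | hik
        · rw [hpk']; exact hz3
        · rw [hpu i hik]
          exact hp5 i ((Finset.mem_insert.mp hi).resolve_left hik)
      · refine le_trans ?_ hp6
        rw [wpot_split m _ (Function.update p k z) k, wpot_split m u p k]
        have hrest : ∑ i ∈ Finset.univ.erase k, ∑ j ∈ Finset.univ.erase k,
            m i * (if i ∈ insert k T then (1:ℝ) else κ) *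
              (m j * (if j ∈ insert k T then (1:ℝ) else κ)) /
              ‖Function.update p k z i - Function.update p k z j‖ =
            ∑ i ∈ Finset.univ.erase k, ∑ j ∈ Finset.univ.erase k,
              m i * u i * (m j * u j) / ‖p i - p j‖ := by
          refine Finset.sum_congr rfl fun i hi => Finset.sum_congr rfl fun j hj => ?_
          have hik := Finset.ne_of_mem_erase hi
          have hjk := Finset.ne_of_mem_erase hj
          rw [hpu i hik, hpu j hjk]
          have h1 : (if i ∈ insert k T then (1:ℝ) else κ) = u i := by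
            rw [hu]; simp only [Finset.mem_insert, hik, false_or]
          have h2 : (if j ∈ insert k T then (1:ℝ) else κ) = u j := by
            rw [hu]; simp only [Finset.mem_insert, hjk, false_or]
          rw [h1, h2]
        have hrow : ∑ j ∈ Finset.univ.erase k,
            m k * (if k ∈ insert k T then (1:ℝ) else κ) *
              (m j * (if j ∈ insert k T then (1:ℝ) else κ)) /
              ‖Function.update p k z k - Function.update p k z j‖ ≤
            ∑ j ∈ Finset.univ.erase k, m k * u k * (m j * u j) / ‖p k - p j‖ := by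
          have h1 : ∑ j ∈ Finset.univ.erase k,
              m k * (if k ∈ insert k T then (1:ℝ) else κ) *
                (m j * (if j ∈ insert k T then (1:ℝ) else κ)) /
                ‖Function.update p k z k - Function.update p k z j‖ =
              ∑ j ∈ Finset.univ.erase k, m k * (m j * u j) / ‖z - p j‖ := by
            refine Finset.sum_congr rfl fun j hj => ?_
            have hjk := Finset.ne_of_mem_erase hj
            rw [hpk', hpu j hjk]
            have h2 : (if j ∈ insert k T then (1:ℝ) else κ) = u j := by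
              rw [hu]; simp only [Finset.mem_insert, hjk, false_or]
            rw [h2, if_pos (Finset.mem_insert_self k T), mul_one]
          have h3 : ∑ j ∈ Finset.univ.erase k, m k * u k * (m j * u j) / ‖p k - p j‖ =
              κ * ∑ j ∈ Finset.univ.erase k, m k * (m j * u j) / ‖p k - p j‖ := by
            rw [Finset.mul_sum]
            refine Finset.sum_congr rfl fun j _ => ?_
            have h4 : u k = κ := by rw [hu]; simp only [hk, if_false]
            rw [h4]
            ring
          rw [h1, h3]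
          exact hz
        linarith
  obtain ⟨p, -, hp2, -, hp4, hp5, hp6⟩ := key Finset.univ
  refine ⟨p, hp2, fun i j hij => hp4 i (Finset.mem_univ _) j (Finset.mem_univ _) hij,
    fun i => hp5 i (Finset.mem_univ _), ?_⟩
  have h1 : wpot m (fun i => if i ∈ (Finset.univ : Finset (Fin n)) then (1:ℝ) else κ) p =
      ∑ i, ∑ j, m i * m j / ‖p i - p j‖ := by
    unfold wpot
    simp
  have h2 : wpot m (fun _ => κ) q = κ ^ 2 * ∑ i, ∑ j, m i * m j / ‖q i - q j‖ := by
    unfold wpot
    rw [Finset.mul_sum]
    refine Finset.sum_congr rfl fun i _ => ?_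
    rw [Finset.mul_sum]
    refine Finset.sum_congr rfl fun j _ => ?_
    ring
  rw [h1, h2] at hp6
  exact hp6

end Energy

end Pool.Agent.NBody
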