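import Mathlib
import Pool.Agent.NBody.Orbit

/-!
Definitions for the theorem on many bodies: solutions in Newtonian time with additional
accelerations, the property of the gun, and prepared states.
-/

set_option autoImplicit false
open scoped RealInnerProductSpace
open Set Finset Filter Topology

namespace Pool.Agent.NBody

/-- the acceleration of the body `i` when all masses are `μ` -/
noncomputable def acc {ι : Type*} [Fintype ι] (μ : ℝ) (q : ι → V3) (i : ι) : V3 :=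
  ∑ j, (μ / ‖q j - q i‖ ^ 3) • (q j - q i)

/-- On `[0, T]`, in Newtonian time, `(q, v)` solves the problem of bodies of mass `μ` with the
additional accelerations `f`. -/
structure IsSol {ι : Type*} [Fintype ι] (μ T : ℝ) (f : ℝ → ι → V3) (q v : ℝ → ι → V3) :
    Prop where
  dq : ∀ t ∈ Icc (0 : ℝ) T, ∀ i, HasDerivWithinAt (fun s => q s i) (v t i) (Icc 0 T) t
  dv : ∀ t ∈ Icc (0 : ℝ) T, ∀ i,
    HasDerivWithinAt (fun s => v s i) (acc μ (q t) i + f t i) (Icc 0 T) t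
  nc : ∀ t ∈ Icc (0 : ℝ) T, ∀ i j, i ≠ j → q t i ≠ q t j

/-- a direction in the horizontal plane together with the initial positions of the gun -/
structure GunShape (s : Fin 3 → V3) (e : V3) : Prop where
  sum : ∑ k, s k = 0
  flat : ∀ k, s k 2 = 0
  ne : ∀ k l, k ≠ l → s k ≠ s l
  le : ∀ k, ‖s k‖ ≤ 1
  norm : ‖e‖ = 1
  eflat : e 2 = 0

/-- The gun: three bodies of mass one which start from rest at `s` eject the body `0` in the
direction `e`, also under small additional accelerations and for a long time. -/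
def GunProp (s : Fin 3 → V3) (e : V3) (μ₀ C₀ : ℝ) : Prop :=
  ∀ ε > 0, ∃ η₀ > 0, ∀ T : ℝ, 0 < T → ∀ η : ℝ, 0 ≤ η → η ≤ η₀ → η * T ≤ η₀ →
    ∀ f Q V : ℝ → Fin 3 → V3, IsSol 1 T f Q V → (∀ t ∈ Icc (0 : ℝ) T, ∀ k, ‖f t k‖ ≤ η) →
    (∀ k, Q 0 k = s k) → (∀ k, V 0 k = 0) →
    ∀ t ∈ Icc (0 : ℝ) T,
      (∀ k l, k ≠ l → μ₀ ≤ ‖Q t k - Q t l‖) ∧
      (∀ k, |Q t k 2| ≤ ε * (1 + t)) ∧
      (∀ k, ‖Q t k‖ ≤ C₀ * (1 + t)) ∧
      (∀ k, ‖V t k‖ ≤ C₀) ∧
      t / 2 - C₀ ≤ ⟪Q t 0, e⟫ ∧ (C₀ ≤ t → 1 / 2 ≤ ⟪V t 0, e⟫) ∧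
      (∀ k, k ≠ 0 → ⟪Q t k, e⟫ ≤ C₀)

/-- A prepared state of `N` bodies of mass `1 / N`: three bodies form a gun of size `r` at `z`,
moving with the velocity `w`; the other bodies are `σ`-separated, and their heights differ from
that of the gun by at least `c`. -/
structure Prep (N : ℕ) (R c σ r : ℝ) (s : Fin 3 → V3) (g : Fin 3 → Fin N) (z w : V3)
    (q v : Fin N → V3) : Prop where
  inj : Function.Injective g
  bq : ∀ i, ‖q i‖ ≤ R
  bv : ∀ i, ‖v i‖ ≤ R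
  gq : ∀ k, q (g k) = z + r • s k
  gv : ∀ k, v (g k) = w
  sep : ∀ i j, i ∉ Set.range g → j ∉ Set.range g → i ≠ j → σ ≤ ‖q i - q j‖
  lay : ∀ j, j ∉ Set.range g → c ≤ |q j 2 - z 2|

end Pool.Agent.NBody
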