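import Mathlib
import Pool.Agent.NBody.Functional

/-!
Packing in three-dimensional space and the sum of the inverse squares of separated points.
-/

set_option autoImplicit false
open scoped RealInnerProductSpace
open Set Finset Filter Topology MeasureTheory

namespace Pool.Agent.NBody

/-- Packing: `s`-separated points of a ball of radius `r`. -/
theorem packing {ι : Type*} (J : Finset ι) (x : ι → V3) {s r : ℝ} (hs : 0 < s) (hr : 0 ≤ r)
    (hsep : ∀ i ∈ J, ∀ j ∈ J, i ≠ j → s ≤ ‖x i - x j‖) (hin : ∀ i ∈ J, ‖x i‖ ≤ r) :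
    (J.card : ℝ) ≤ (1 + 2 * r / s) ^ 3 := by
  have hfin : Module.finrank ℝ V3 = 3 := by simp
  have hdisj : Set.PairwiseDisjoint (↑J : Set ι) (fun i => Metric.ball (x i) (s / 2)) := by
    intro i hi j hj hij
    apply Metric.ball_disjoint_ball
    rw [dist_eq_norm]
    have := hsep i hi j hj hij
    linarith
  have h1 : volume (⋃ i ∈ J, Metric.ball (x i) (s / 2)) =
      ∑ i ∈ J, volume (Metric.ball (x i) (s / 2)) :=
    measure_biUnion_finset hdisj (fun i _ => Metric.isOpen_ball.measurableSet)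
  have h2 : (⋃ i ∈ J, Metric.ball (x i) (s / 2)) ⊆ Metric.ball (0 : V3) (r + s / 2) := by
    intro y hy
    simp only [Set.mem_iUnion] at hy
    obtain ⟨i, hi, hy⟩ := hy
    rw [Metric.mem_ball, dist_eq_norm] at hy
    rw [Metric.mem_ball, dist_eq_norm, sub_zero]
    have h3 : ‖y‖ ≤ ‖y - x i‖ + ‖x i‖ := by
      have := norm_add_le (y - x i) (x i)
      simpa using this
    have := hin i hi
    linarith
  have h3 := measure_mono h2 (μ := (volume : Measure V3))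
  rw [h1] at h3
  have hs2 : (0:ℝ) ≤ s / 2 := by positivity
  have h4 : ∀ y : V3, ∀ t : ℝ, 0 ≤ t → volume (Metric.ball y t) =
      ENNReal.ofReal (t ^ 3) * volume (Metric.ball (0 : V3) 1) := by
    intro y t ht
    have := Measure.addHaar_ball (volume : Measure V3) y ht
    rw [hfin] at this
    exact this
  rw [h4 0 (r + s / 2) (by positivity)] at h3
  rw [Finset.sum_congr rfl (fun i _ => h4 (x i) (s / 2) hs2), Finset.sum_const, nsmul_eq_mul,
    ← mul_assoc] at h3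
  have hpos : volume (Metric.ball (0 : V3) 1) ≠ 0 :=
    (Metric.measure_ball_pos volume (0 : V3) one_pos).ne'
  have htop : volume (Metric.ball (0 : V3) 1) ≠ ⊤ := measure_ball_lt_top.ne
  have h5 : (J.card : ENNReal) * ENNReal.ofReal ((s / 2) ^ 3) ≤ ENNReal.ofReal ((r + s / 2) ^ 3) := by
    by_contra hcon
    push Not at hcon
    have := ENNReal.mul_lt_mul_left hpos htop hcon
    exact absurd h3 (not_le.mpr this)
  have h6 : (J.card : ℝ) * (s / 2) ^ 3 ≤ (r + s / 2) ^ 3 := by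
    have h7 : (J.card : ENNReal) * ENNReal.ofReal ((s / 2) ^ 3) =
        ENNReal.ofReal ((J.card : ℝ) * (s / 2) ^ 3) := by
      rw [ENNReal.ofReal_mul (by positivity), ENNReal.ofReal_natCast]
    rw [h7] at h5
    exact (ENNReal.ofReal_le_ofReal_iff (by positivity)).mp h5
  have h8 : (1 + 2 * r / s) = (r + s / 2) / (s / 2) := by
    field_simp
    ring
  rw [h8, div_pow, le_div_iff₀ (by positivity)]
  exact h6

/-- The sum of the inverse squares of `s`-separated points, dyadic form. -/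
theorem sum_inv_sq_dyadic {ι : Type*} (J : Finset ι) (x : ι → V3) {s : ℝ} (hs : 0 < s)
    (hsep : ∀ i ∈ J, ∀ j ∈ J, i ≠ j → s ≤ ‖x i - x j‖) (hlow : ∀ i ∈ J, s ≤ ‖x i‖) (K : ℕ) :
    ∑ i ∈ J.filter (fun i => ‖x i‖ ≤ 2 ^ K * s), 1 / ‖x i‖ ^ 2 ≤ 216 * 2 ^ K / s ^ 2 := by
  classical
  have hcount : ∀ K : ℕ, ((J.filter (fun i => ‖x i‖ ≤ 2 ^ K * s)).card : ℝ) ≤ 27 * 8 ^ K := by
    intro K
    have h1 := packing (J.filter (fun i => ‖x i‖ ≤ 2 ^ K * s)) x hs
      (by positivity : (0:ℝ) ≤ 2 ^ K * s)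
      (fun i hi j hj hij => hsep i (Finset.mem_filter.mp hi).1 j (Finset.mem_filter.mp hj).1 hij)
      (fun i hi => (Finset.mem_filter.mp hi).2)
    have h2 : 1 + 2 * (2 ^ K * s) / s = 1 + 2 * (2:ℝ) ^ K := by
      field_simp
    rw [h2] at h1
    have h3 : (1:ℝ) ≤ 2 ^ K := one_le_pow₀ (by norm_num)
    calc _ ≤ (1 + 2 * (2:ℝ) ^ K) ^ 3 := h1
      _ ≤ (3 * (2:ℝ) ^ K) ^ 3 := by
        apply pow_le_pow_left₀ (by positivity)
        linarith
      _ = 27 * 8 ^ K := by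
        rw [mul_pow, ← pow_mul, mul_comm K 3, pow_mul]
        norm_num
  induction K with
  | zero =>
    have h1 : ∀ i ∈ J.filter (fun i => ‖x i‖ ≤ 2 ^ 0 * s), 1 / ‖x i‖ ^ 2 ≤ 1 / s ^ 2 := by
      intro i hi
      apply one_div_le_one_div_of_le (by positivity)
      exact pow_le_pow_left₀ hs.le (hlow i (Finset.mem_filter.mp hi).1) 2
    have h2 := Finset.sum_le_sum h1
    rw [Finset.sum_const, nsmul_eq_mul] at h2
    have h3 := hcount 0
    calc _ ≤ _ := h2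
      _ ≤ (27 * 8 ^ 0) * (1 / s ^ 2) := mul_le_mul_of_nonneg_right h3 (by positivity)
      _ ≤ 216 * 2 ^ 0 / s ^ 2 := by
        rw [mul_one_div]
        apply div_le_div_of_nonneg_right _ (by positivity)
        norm_num
  | succ K ih =>
    have hsplit : J.filter (fun i => ‖x i‖ ≤ 2 ^ (K + 1) * s) =
        (J.filter (fun i => ‖x i‖ ≤ 2 ^ K * s)) ∪
        ((J.filter (fun i => ‖x i‖ ≤ 2 ^ (K + 1) * s)).filter (fun i => ¬ ‖x i‖ ≤ 2 ^ K * s)) := by
      ext i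
      simp only [Finset.mem_filter, Finset.mem_union]
      constructor
      · rintro ⟨h1, h2⟩
        by_cases h3 : ‖x i‖ ≤ 2 ^ K * s
        · exact Or.inl ⟨h1, h3⟩
        · exact Or.inr ⟨⟨h1, h2⟩, h3⟩
      · rintro (⟨h1, h2⟩ | ⟨⟨h1, h2⟩, -⟩)
        · refine ⟨h1, h2.trans ?_⟩
          rw [pow_succ]
          have : 0 < (2:ℝ) ^ K * s := by positivity
          linarith
        · exact ⟨h1, h2⟩
    have hd : Disjoint (J.filter (fun i => ‖x i‖ ≤ 2 ^ K * s))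
        ((J.filter (fun i => ‖x i‖ ≤ 2 ^ (K + 1) * s)).filter (fun i => ¬ ‖x i‖ ≤ 2 ^ K * s)) := by
      rw [Finset.disjoint_left]
      intro i hi hi'
      exact (Finset.mem_filter.mp hi').2 (Finset.mem_filter.mp hi).2
    rw [hsplit, Finset.sum_union hd]
    have h1 : ∀ i ∈ ((J.filter (fun i => ‖x i‖ ≤ 2 ^ (K + 1) * s)).filter
        (fun i => ¬ ‖x i‖ ≤ 2 ^ K * s)), 1 / ‖x i‖ ^ 2 ≤ 1 / (2 ^ K * s) ^ 2 := by
      intro i hi
      have h2 := (Finset.mem_filter.mp hi).2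
      push Not at h2
      apply one_div_le_one_div_of_le (by positivity)
      exact pow_le_pow_left₀ (by positivity) h2.le 2
    have h2 := Finset.sum_le_sum h1
    rw [Finset.sum_const, nsmul_eq_mul] at h2
    have h3 : (((J.filter (fun i => ‖x i‖ ≤ 2 ^ (K + 1) * s)).filter
        (fun i => ¬ ‖x i‖ ≤ 2 ^ K * s)).card : ℝ) ≤ 27 * 8 ^ (K + 1) := by
      refine le_trans ?_ (hcount (K + 1))
      exact Nat.cast_le.mpr (Finset.card_le_card (Finset.filter_subset _ _))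
    have h4 : (((J.filter (fun i => ‖x i‖ ≤ 2 ^ (K + 1) * s)).filter
        (fun i => ¬ ‖x i‖ ≤ 2 ^ K * s)).card : ℝ) * (1 / (2 ^ K * s) ^ 2) ≤
        27 * 8 ^ (K + 1) * (1 / (2 ^ K * s) ^ 2) := mul_le_mul_of_nonneg_right h3 (by positivity)
    have h5 : (27:ℝ) * 8 ^ (K + 1) * (1 / (2 ^ K * s) ^ 2) = 216 * 2 ^ K / s ^ 2 := by
      have h6 : (8:ℝ) ^ (K + 1) = 8 * (2 ^ K * (2 ^ K * 2 ^ K)) := by
        rw [pow_succ, ← mul_pow, ← mul_pow]
        norm_num
        ring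
      rw [h6]
      have h7 : (2:ℝ) ^ K ≠ 0 := by positivity
      field_simp
      ring
    have h6 : (216:ℝ) * 2 ^ (K + 1) / s ^ 2 = 216 * 2 ^ K / s ^ 2 + 216 * 2 ^ K / s ^ 2 := by
      rw [pow_succ]
      ring
    rw [h6]
    linarith

/-- The sum of the inverse squares of `s`-separated points of a ball of radius `ρ`. -/
theorem sum_inv_sq {ι : Type*} (J : Finset ι) (x : ι → V3) {s ρ : ℝ} (hs : 0 < s) (hρ : s ≤ ρ)
    (hsep : ∀ i ∈ J, ∀ j ∈ J, i ≠ j → s ≤ ‖x i - x j‖) (hlow : ∀ i ∈ J, s ≤ ‖x i‖) :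
    ∑ i ∈ J.filter (fun i => ‖x i‖ ≤ ρ), 1 / ‖x i‖ ^ 2 ≤ 432 * ρ / s ^ 3 := by
  obtain ⟨K, hK, hK2⟩ : ∃ K : ℕ, ρ ≤ 2 ^ K * s ∧ 2 ^ K * s ≤ 2 * ρ := by
    have hex : ∃ K : ℕ, ρ ≤ 2 ^ K * s := by
      obtain ⟨K, hK⟩ := pow_unbounded_of_one_lt (ρ / s) (by norm_num : (1:ℝ) < 2)
      exact ⟨K, by rw [div_lt_iff₀ hs] at hK; exact hK.le⟩
    classical
    refine ⟨Nat.find hex, Nat.find_spec hex, ?_⟩
    rcases Nat.eq_zero_or_pos (Nat.find hex) with h0 | h0
    · rw [h0]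
      simp only [pow_zero, one_mul]
      linarith
    · have h1 := Nat.find_min hex (m := Nat.find hex - 1) (by omega)
      push Not at h1
      have h2 : (2:ℝ) ^ (Nat.find hex) = 2 * 2 ^ (Nat.find hex - 1) := by
        conv_lhs => rw [show Nat.find hex = (Nat.find hex - 1) + 1 by omega]
        rw [pow_succ]
        ring
      rw [h2]
      linarith
  have h1 := sum_inv_sq_dyadic J x hs hsep hlow K
  have h2 : ∑ i ∈ J.filter (fun i => ‖x i‖ ≤ ρ), 1 / ‖x i‖ ^ 2 ≤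
      ∑ i ∈ J.filter (fun i => ‖x i‖ ≤ 2 ^ K * s), 1 / ‖x i‖ ^ 2 := by
    apply Finset.sum_le_sum_of_subset_of_nonneg
    · intro i hi
      rw [Finset.mem_filter] at hi ⊢
      exact ⟨hi.1, hi.2.trans hK⟩
    · intro i _ _
      positivity
  refine (h2.trans h1).trans ?_
  have h3 : (216:ℝ) * 2 ^ K / s ^ 2 = 216 * (2 ^ K * s) / s ^ 3 := by
    field_simp
  rw [h3]
  apply div_le_div_of_nonneg_right _ (by positivity)
  linarith

end Pool.Agent.NBody
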