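import Mathlib
import Pool.Agent.NBody.ThDefs
import Pool.Agent.NBody.ThPack

/-!
Bootstrap of the bodies outside the gun.
-/

set_option autoImplicit false
open scoped RealInnerProductSpace
open Set Finset Filter Topology

namespace Pool.Agent.NBody

/-- the acceleration of the body `i` by the bodies of `J` when all masses are `μ` -/
noncomputable def accOn {ι : Type*} (μ : ℝ) (J : Finset ι) (q : ι → V3) (i : ι) : V3 :=
  ∑ j ∈ J, (μ / ‖q j - q i‖ ^ 3) • (q j - q i)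

theorem acc_eq {ι : Type*} [Fintype ι] [DecidableEq ι] (μ : ℝ) (G : Finset ι) (q : ι → V3)
    (i : ι) : acc μ q i = accOn μ G q i + accOn μ Gᶜ q i := by
  unfold acc accOn
  rw [Finset.sum_add_sum_compl]

theorem norm_term {μ : ℝ} (hμ : 0 ≤ μ) (x : V3) (hx : x ≠ 0) :
    ‖(μ / ‖x‖ ^ 3) • x‖ = μ * (1 / ‖x‖ ^ 2) := by
  have h : 0 < ‖x‖ := norm_pos_iff.mpr hx
  rw [norm_smul, Real.norm_of_nonneg (by positivity)]
  field_simp

theorem norm_accOn_far {ι : Type*} {μ : ℝ} (hμ : 0 ≤ μ) {J : Finset ι} {q : ι → V3} {i : ι}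
    {d : ℝ} (hd : 0 < d) (h : ∀ j ∈ J, d ≤ ‖q j - q i‖) :
    ‖accOn μ J q i‖ ≤ J.card * (μ * (1 / d ^ 2)) := by
  unfold accOn
  refine (norm_sum_le _ _).trans ?_
  rw [← nsmul_eq_mul, ← Finset.sum_const]
  apply Finset.sum_le_sum
  intro j hj
  have h1 := h j hj
  have hne : q j - q i ≠ 0 := by
    rw [← norm_pos_iff]
    linarith
  rw [norm_term hμ _ hne]
  apply mul_le_mul_of_nonneg_left _ hμ
  apply one_div_le_one_div_of_le (by positivity)
  exact pow_le_pow_left₀ hd.le h1 2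

theorem norm_accOn_sep {ι : Type*} {μ : ℝ} (hμ : 0 ≤ μ) {J : Finset ι} {q : ι → V3} {i : ι}
    {s : ℝ} (hs : 0 < s) (hs1 : s ≤ 1) (h : ∀ j ∈ J, s ≤ ‖q j - q i‖)
    (hsep : ∀ j ∈ J, ∀ k ∈ J, j ≠ k → s ≤ ‖q j - q k‖) :
    ‖accOn μ J q i‖ ≤ 432 * μ / s ^ 3 + J.card * μ := by
  classical
  have h1 : ‖accOn μ J q i‖ ≤ ∑ j ∈ J, μ * (1 / ‖q j - q i‖ ^ 2) := by
    unfold accOn
    refine (norm_sum_le _ _).trans (le_of_eq ?_)
    apply Finset.sum_congr rfl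
    intro j hj
    have hne : q j - q i ≠ 0 := by
      rw [← norm_pos_iff]
      have := h j hj
      linarith
    exact norm_term hμ _ hne
  have h2 := sum_inv_sq J (fun j => q j - q i) hs hs1 (fun j hj k hk hjk => by
    have := hsep j hj k hk hjk
    simpa using this) h
  have h3 : ∑ j ∈ J.filter (fun j => ¬ ‖q j - q i‖ ≤ 1), 1 / ‖q j - q i‖ ^ 2 ≤
      (J.card : ℝ) := by
    have h4 : ∀ j ∈ J.filter (fun j => ¬ ‖q j - q i‖ ≤ 1), 1 / ‖q j - q i‖ ^ 2 ≤ 1 := by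
      intro j hj
      have h5 := (Finset.mem_filter.mp hj).2
      push Not at h5
      rw [div_le_one (by positivity)]
      exact one_le_pow₀ h5.le
    have h5 := Finset.sum_le_sum h4
    rw [Finset.sum_const, nsmul_eq_mul, mul_one] at h5
    refine h5.trans ?_
    exact Nat.cast_le.mpr (Finset.card_le_card (Finset.filter_subset _ _))
  have h4 := Finset.sum_filter_add_sum_filter_not J (fun j => ‖q j - q i‖ ≤ 1)
    (fun j => 1 / ‖q j - q i‖ ^ 2)
  refine h1.trans ?_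
  rw [← Finset.mul_sum, ← h4]
  have h5 : μ * (∑ j ∈ J.filter (fun j => ‖q j - q i‖ ≤ 1), 1 / ‖q j - q i‖ ^ 2 +
      ∑ j ∈ J.filter (fun j => ¬ ‖q j - q i‖ ≤ 1), 1 / ‖q j - q i‖ ^ 2) ≤
      μ * (432 * 1 / s ^ 3 + J.card) := mul_le_mul_of_nonneg_left (add_le_add h2 h3) hμ
  refine h5.trans (le_of_eq ?_)
  ring

/-- continuous induction with finitely many conditions -/
theorem cont_induct {κ : Type*} [Finite κ] {F : κ → ℝ → ℝ} {T : ℝ}
    (hF : ∀ k, ContinuousOn (F k) (Icc 0 T)) (h0 : ∀ k, F k 0 < 1)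
    (himp : ∀ t ∈ Icc 0 T, (∀ u ∈ Icc 0 t, ∀ k, F k u ≤ 1) → ∀ k, F k t < 1) :
    ∀ t ∈ Icc 0 T, ∀ k, F k t < 1 := by
  by_contra hcon
  push Not at hcon
  obtain ⟨t0, ht0, k0, hk0⟩ := hcon
  set A : Set ℝ := ⋃ k, (Icc 0 T ∩ F k ⁻¹' (Ici 1)) with hA
  have hAc : IsCompact A := by
    apply isCompact_iUnion
    intro k
    have h1 : IsClosed (Icc 0 T ∩ F k ⁻¹' (Ici 1)) :=
      (hF k).preimage_isClosed_of_isClosed isClosed_Icc isClosed_Ici
    exact isCompact_Icc.of_isClosed_subset h1 Set.inter_subset_left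
  have hAne : A.Nonempty := ⟨t0, Set.mem_iUnion.mpr ⟨k0, ht0, hk0⟩⟩
  obtain ⟨t1, ht1, hleast⟩ := hAc.exists_isLeast hAne
  obtain ⟨k1, ht1T, hk1⟩ := Set.mem_iUnion.mp ht1
  have hk1' : 1 ≤ F k1 t1 := hk1
  have hlt : ∀ u ∈ Icc 0 T, u < t1 → ∀ k, F k u < 1 := by
    intro u hu hut k
    by_contra hc
    push Not at hc
    have : t1 ≤ u := hleast (Set.mem_iUnion.mpr ⟨k, hu, hc⟩)
    linarith
  have hle : ∀ u ∈ Icc 0 t1, ∀ k, F k u ≤ 1 := by
    intro u hu k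
    have huT : u ∈ Icc 0 T := ⟨hu.1, hu.2.trans ht1T.2⟩
    rcases lt_or_eq_of_le hu.2 with h | h
    · exact (hlt u huT h k).le
    · subst h
      by_contra hc
      push Not at hc
      have hc2 : ContinuousOn (F k) (Icc 0 u) := (hF k).mono (Set.Icc_subset_Icc_right huT.2)
      have h2 := intermediate_value_Icc hu.1 hc2 ⟨(h0 k).le, hc.le⟩
      obtain ⟨w, hw, hw1⟩ := h2
      have hwu : w < u := by
        rcases lt_or_eq_of_le hw.2 with h3 | h3
        · exact h3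
        · rw [h3] at hw1
          linarith
      have := hlt w ⟨hw.1, hw.2.trans huT.2⟩ hwu k
      linarith
  have := himp t1 ht1T hle k1
  linarith

theorem IsSol.mono {ι : Type*} [Fintype ι] {μ T T' : ℝ} {f : ℝ → ι → V3} {q v : ℝ → ι → V3}
    (h : IsSol μ T f q v) (hT : T' ≤ T) : IsSol μ T' f q v where
  dq := fun t ht i => (h.dq t ⟨ht.1, ht.2.trans hT⟩ i).mono (Set.Icc_subset_Icc_right hT)
  dv := fun t ht i => (h.dv t ⟨ht.1, ht.2.trans hT⟩ i).mono (Set.Icc_subset_Icc_right hT)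
  nc := fun t ht i j hij => h.nc t ⟨ht.1, ht.2.trans hT⟩ i j hij

theorem abs_coord2_le (x y : V3) : |x 2 - y 2| ≤ ‖x - y‖ := by
  have h := PiLp.norm_apply_le (x - y) 2
  simpa using h

/-- The bounds for the bodies outside the gun as long as they stay near their places. -/
theorem others_step {N : ℕ} {μ T R c σ A : ℝ} {G : Finset (Fin N)} {z : V3}
    {q v : ℝ → Fin N → V3} (hμ : 0 < μ) (hμN : (N : ℝ) * μ ≤ 1) (hR : 0 ≤ R)
    (hσ : 0 < σ) (hσ2 : σ ≤ 2) (hc : 0 < c) (hG : G.card ≤ 3)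
    (hsol : IsSol μ T (fun _ _ => 0) q v) (hv : ∀ i ∉ G, ‖v 0 i‖ ≤ R)
    (hsep : ∀ i ∉ G, ∀ j ∉ G, i ≠ j → σ ≤ ‖q 0 i - q 0 j‖)
    (hlay : ∀ j ∉ G, c ≤ |q 0 j 2 - z 2|)
    (hA : 3456 * μ / σ ^ 3 + 1 + 48 * μ / c ^ 2 ≤ A) {t : ℝ} (ht : t ∈ Icc 0 T)
    (h1 : ∀ u ∈ Icc 0 t, ∀ i ∉ G, ‖q u i - q 0 i‖ ≤ σ / 4)
    (h2 : ∀ u ∈ Icc 0 t, ∀ i ∉ G, ‖q u i - q 0 i‖ ≤ c / 4)
    (h3 : ∀ u ∈ Icc 0 t, ∀ i ∈ G, |q u i 2 - z 2| ≤ c / 2) :
    ∀ u ∈ Icc 0 t, (∀ i ∉ G, ‖q u i - q 0 i‖ ≤ (R + A * T) * T) ∧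
      (∀ i ∉ G, ‖v u i - v 0 i‖ ≤ A * T) ∧
      (∀ i ∉ G, ∀ j ∉ G, i ≠ j → σ / 2 ≤ ‖q u i - q u j‖) ∧
      (∀ i ∉ G, ∀ j ∈ G, c / 4 ≤ ‖q u i - q u j‖) ∧
      (∀ i ∈ G, ‖accOn μ Gᶜ (q u) i‖ ≤ 16 / c ^ 2) := by
  classical
  have hT : 0 ≤ T := ht.1.trans ht.2
  have hA0 : 0 ≤ A := by
    have : 0 ≤ 3456 * μ / σ ^ 3 + 1 + 48 * μ / c ^ 2 := by positivity
    linarith
  have hs : ∀ u ∈ Icc 0 t, ∀ i ∉ G, ∀ j ∉ G, i ≠ j → σ / 2 ≤ ‖q u i - q u j‖ := by
    intro u hu i hi j hj hij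
    have e1 := h1 u hu i hi
    have e2 := h1 u hu j hj
    have e3 := hsep i hi j hj hij
    have e4 : ‖q 0 i - q 0 j‖ ≤ ‖q u i - q u j‖ + ‖q u i - q 0 i‖ + ‖q u j - q 0 j‖ := by
      have : q 0 i - q 0 j = (q u i - q u j) - (q u i - q 0 i) + (q u j - q 0 j) := by abel
      rw [this]
      exact (norm_add_le _ _).trans (add_le_add_left (norm_sub_le _ _) _)
    linarith
  have hg : ∀ u ∈ Icc 0 t, ∀ i ∉ G, ∀ j ∈ G, c / 4 ≤ ‖q u i - q u j‖ := by
    intro u hu i hi j hj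
    have e1 := h2 u hu i hi
    have e2 := h3 u hu j hj
    have e3 := hlay i hi
    have e4 := abs_coord2_le (q u i) (q 0 i)
    have e5 := abs_coord2_le (q u i) (q u j)
    have e6 : |q 0 i 2 - z 2| ≤ |q u i 2 - q u j 2| + |q u i 2 - q 0 i 2| + |q u j 2 - z 2| := by
      have : q 0 i 2 - z 2 = (q u i 2 - q u j 2) - (q u i 2 - q 0 i 2) + (q u j 2 - z 2) := by ring
      rw [this]
      exact (abs_add_le _ _).trans (add_le_add_left (abs_sub _ _) _)
    linarith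
  have hext : ∀ u ∈ Icc 0 t, ∀ i ∈ G, ‖accOn μ Gᶜ (q u) i‖ ≤ 16 / c ^ 2 := by
    intro u hu i hi
    have e1 := norm_accOn_far hμ.le (J := Gᶜ) (q := q u) (i := i) (d := c / 4) (by positivity)
      (fun j hj => hg u hu j (Finset.mem_compl.mp hj) i hi)
    refine e1.trans ?_
    have e2 : ((Gᶜ : Finset (Fin N)).card : ℝ) ≤ N := by
      have := Finset.card_le_univ (Gᶜ : Finset (Fin N))
      rw [Fintype.card_fin] at this
      exact_mod_cast this
    have e3 : ((Gᶜ : Finset (Fin N)).card : ℝ) * μ ≤ 1 :=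
      (mul_le_mul_of_nonneg_right e2 hμ.le).trans hμN
    calc ((Gᶜ : Finset (Fin N)).card : ℝ) * (μ * (1 / (c / 4) ^ 2)) =
        (((Gᶜ : Finset (Fin N)).card : ℝ) * μ) * (16 / c ^ 2) := by
          field_simp
          ring
      _ ≤ 1 * (16 / c ^ 2) := mul_le_mul_of_nonneg_right e3 (by positivity)
      _ = 16 / c ^ 2 := one_mul _
  have hacc : ∀ u ∈ Icc 0 t, ∀ i ∉ G, ‖acc μ (q u) i‖ ≤ A := by
    intro u hu i hi
    have e0 : acc μ (q u) i = accOn μ G (q u) i + accOn μ (Gᶜ.erase i) (q u) i := by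
      rw [acc_eq μ G (q u) i]
      congr 1
      unfold accOn
      rw [← Finset.sum_erase_add Gᶜ _ (Finset.mem_compl.mpr hi)]
      simp
    rw [e0]
    have e1 := norm_accOn_far hμ.le (J := G) (q := q u) (i := i) (d := c / 4) (by positivity)
      (fun j hj => by rw [norm_sub_rev]; exact hg u hu i hi j hj)
    have e2 := norm_accOn_sep hμ.le (J := Gᶜ.erase i) (q := q u) (i := i) (s := σ / 2)
      (by positivity) (by linarith)
      (fun j hj => by
        rw [Finset.mem_erase, Finset.mem_compl] at hj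
        exact hs u hu j hj.2 i hi hj.1)
      (fun j hj k hk hjk => by
        rw [Finset.mem_erase, Finset.mem_compl] at hj hk
        exact hs u hu j hj.2 k hk.2 hjk)
    have e3 : ((Gᶜ.erase i : Finset (Fin N)).card : ℝ) * μ ≤ 1 := by
      have := Finset.card_le_univ (Gᶜ.erase i : Finset (Fin N))
      rw [Fintype.card_fin] at this
      have e4 : ((Gᶜ.erase i : Finset (Fin N)).card : ℝ) ≤ N := by exact_mod_cast this
      exact (mul_le_mul_of_nonneg_right e4 hμ.le).trans hμN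
    have e4 : (G.card : ℝ) * (μ * (1 / (c / 4) ^ 2)) ≤ 48 * μ / c ^ 2 := by
      have e5 : (G.card : ℝ) ≤ 3 := by exact_mod_cast hG
      calc (G.card : ℝ) * (μ * (1 / (c / 4) ^ 2)) ≤ 3 * (μ * (1 / (c / 4) ^ 2)) :=
            mul_le_mul_of_nonneg_right e5 (by positivity)
        _ = 48 * μ / c ^ 2 := by
          field_simp
          ring
    have e5 : 432 * μ / (σ / 2) ^ 3 = 3456 * μ / σ ^ 3 := by
      field_simp
      ring
    rw [e5] at e2
    refine (norm_add_le _ _).trans ?_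
    linarith
  have hvel : ∀ u ∈ Icc 0 t, ∀ i ∉ G, ‖v u i - v 0 i‖ ≤ A * T := by
    intro u hu i hi
    have e1 := Convex.norm_image_sub_le_of_norm_hasDerivWithin_le
      (f := fun s => v s i) (f' := fun s => acc μ (q s) i + 0) (C := A) (s := Icc 0 t)
      (x := 0) (y := u)
      (fun s hs => (hsol.dv s ⟨hs.1, hs.2.trans ht.2⟩ i).mono (Set.Icc_subset_Icc_right ht.2))
      (fun s hs => by simpa using hacc s hs i hi) (convex_Icc 0 t)
      ⟨le_refl _, ht.1⟩ hu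
    refine e1.trans ?_
    apply mul_le_mul_of_nonneg_left _ hA0
    rw [sub_zero, Real.norm_of_nonneg hu.1]
    exact hu.2.trans ht.2
  have hpos : ∀ u ∈ Icc 0 t, ∀ i ∉ G, ‖q u i - q 0 i‖ ≤ (R + A * T) * T := by
    intro u hu i hi
    have e1 := Convex.norm_image_sub_le_of_norm_hasDerivWithin_le
      (f := fun s => q s i) (f' := fun s => v s i) (C := R + A * T) (s := Icc 0 t)
      (x := 0) (y := u)
      (fun s hs => (hsol.dq s ⟨hs.1, hs.2.trans ht.2⟩ i).mono (Set.Icc_subset_Icc_right ht.2))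
      (fun s hs => by
        have e2 := hvel s hs i hi
        have e3 := hv i hi
        have e4 : ‖v s i‖ ≤ ‖v 0 i‖ + ‖v s i - v 0 i‖ := by
          have : v s i = v 0 i + (v s i - v 0 i) := by abel
          conv_lhs => rw [this]
          exact norm_add_le _ _
        linarith) (convex_Icc 0 t)
      ⟨le_refl _, ht.1⟩ hu
    refine e1.trans ?_
    apply mul_le_mul_of_nonneg_left _ (by positivity)
    rw [sub_zero, Real.norm_of_nonneg hu.1]
    exact hu.2.trans ht.2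
  intro u hu
  exact ⟨hpos u hu, hvel u hu, hs u hu, hg u hu, hext u hu⟩

/-- Bootstrap of the bodies outside the gun. -/
theorem others {N : ℕ} {μ T R c σ A : ℝ} {G : Finset (Fin N)} {z : V3}
    {q v : ℝ → Fin N → V3} (hμ : 0 < μ) (hμN : (N : ℝ) * μ ≤ 1) (hR : 0 ≤ R)
    (hσ : 0 < σ) (hσ2 : σ ≤ 2) (hc : 0 < c) (hG : G.card ≤ 3)
    (hsol : IsSol μ T (fun _ _ => 0) q v) (hv : ∀ i ∉ G, ‖v 0 i‖ ≤ R)
    (hsep : ∀ i ∉ G, ∀ j ∉ G, i ≠ j → σ ≤ ‖q 0 i - q 0 j‖)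
    (hlay : ∀ j ∉ G, c ≤ |q 0 j 2 - z 2|) (hg0 : ∀ i ∈ G, |q 0 i 2 - z 2| ≤ c / 4)
    (hA : 3456 * μ / σ ^ 3 + 1 + 48 * μ / c ^ 2 ≤ A)
    (hs1 : (R + A * T) * T < σ / 4) (hs2 : (R + A * T) * T < c / 4)
    (hgun : ∀ T1 ∈ Icc 0 T, (∀ t ∈ Icc 0 T1, ∀ i ∈ G, ‖accOn μ Gᶜ (q t) i‖ ≤ 16 / c ^ 2) →
      ∀ i ∈ G, |q T1 i 2 - z 2| ≤ c / 4) :
    ∀ t ∈ Icc 0 T, (∀ i ∉ G, ‖q t i - q 0 i‖ ≤ (R + A * T) * T) ∧
      (∀ i ∉ G, ‖v t i - v 0 i‖ ≤ A * T) ∧
      (∀ i ∉ G, ∀ j ∉ G, i ≠ j → σ / 2 ≤ ‖q t i - q t j‖) ∧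
      (∀ i ∉ G, ∀ j ∈ G, c / 4 ≤ ‖q t i - q t j‖) ∧
      (∀ i ∈ G, ‖accOn μ Gᶜ (q t) i‖ ≤ 16 / c ^ 2) := by
  classical
  set η : ℝ := min (σ / 4) (c / 4) with hη
  have hη0 : 0 < η := lt_min (by positivity) (by positivity)
  set F : Fin N → ℝ → ℝ := fun k t =>
    if k ∈ G then |q t k 2 - z 2| / (c / 2) else ‖q t k - q 0 k‖ / η with hF
  have hqc : ∀ k, ContinuousOn (fun s => q s k) (Icc 0 T) := fun k s hs =>
    (hsol.dq s hs k).continuousWithinAt
  have hFc : ∀ k, ContinuousOn (F k) (Icc 0 T) := by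
    intro k
    by_cases hk : k ∈ G
    · have : F k = fun t => |q t k 2 - z 2| / (c / 2) := by
        funext t
        simp [hF, hk]
      rw [this]
      apply ContinuousOn.div_const
      apply ContinuousOn.abs
      apply ContinuousOn.sub _ continuousOn_const
      have h1 : Continuous (fun x : V3 => x 2) := by fun_prop
      exact h1.comp_continuousOn (hqc k)
    · have : F k = fun t => ‖q t k - q 0 k‖ / η := by
        funext t
        simp [hF, hk]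
      rw [this]
      apply ContinuousOn.div_const
      exact ((hqc k).sub continuousOn_const).norm
  have hF0 : ∀ k, F k 0 < 1 := by
    intro k
    by_cases hk : k ∈ G
    · simp only [hF, hk, if_true]
      rw [div_lt_one (by positivity)]
      have := hg0 k hk
      linarith
    · simp only [hF, hk, if_false, sub_self, norm_zero, zero_div]
      exact one_pos
  have hrange : ∀ t : ℝ, (∀ u ∈ Set.Icc 0 t, ∀ k, F k u ≤ 1) →
      (∀ u ∈ Set.Icc 0 t, ∀ i ∉ G, ‖q u i - q 0 i‖ ≤ σ / 4) ∧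
      (∀ u ∈ Set.Icc 0 t, ∀ i ∉ G, ‖q u i - q 0 i‖ ≤ c / 4) ∧
      (∀ u ∈ Set.Icc 0 t, ∀ i ∈ G, |q u i 2 - z 2| ≤ c / 2) := by
    intro t hFt
    refine ⟨?_, ?_, ?_⟩
    · intro u hu i hi
      have := hFt u hu i
      simp only [hF, hi, if_false] at this
      rw [div_le_one hη0] at this
      exact this.trans (min_le_left _ _)
    · intro u hu i hi
      have := hFt u hu i
      simp only [hF, hi, if_false] at this
      rw [div_le_one hη0] at this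
      exact this.trans (min_le_right _ _)
    · intro u hu i hi
      have := hFt u hu i
      simp only [hF, hi, if_true] at this
      rwa [div_le_one (by positivity)] at this
  have key := cont_induct hFc hF0 (by
    intro t ht hFt k
    obtain ⟨r1, r2, r3⟩ := hrange t hFt
    have hst := others_step hμ hμN hR hσ hσ2 hc hG hsol hv hsep hlay hA ht r1 r2 r3
    by_cases hk : k ∈ G
    · simp only [hF, hk, if_true]
      rw [div_lt_one (by positivity)]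
      have := hgun t ht (fun u hu i hi => (hst u hu).2.2.2.2 i hi) k hk
      linarith
    · simp only [hF, hk, if_false]
      rw [div_lt_one hη0]
      have := (hst t ⟨ht.1, le_refl _⟩).1 k hk
      exact lt_min (by linarith) (by linarith))
  intro t ht
  obtain ⟨r1, r2, r3⟩ := hrange t (fun u hu k => (key u ⟨hu.1, hu.2.trans ht.2⟩ k).le)
  exact others_step hμ hμN hR hσ hσ2 hc hG hsol hv hsep hlay hA ht r1 r2 r3 t ⟨ht.1, le_refl _⟩

end Pool.Agent.NBody
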