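import Mathlib
import Pool.Agent.NBody.ThDefs

/-!
Definitions for the second version of the theorem on many bodies: arbitrary masses.
-/

set_option autoImplicit false
open scoped RealInnerProductSpace
open Set Finset Filter Topology

namespace Pool.Agent.NBody

/-- the acceleration of the body `i` when the masses are `m` -/
noncomputable def accM {ι : Type*} [Fintype ι] (m : ι → ℝ) (q : ι → V3) (i : ι) : V3 :=
  ∑ j, (m j / ‖q j - q i‖ ^ 3) • (q j - q i)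

/-- On `[0, T]`, in Newtonian time, `(q, v)` solves the problem of bodies of masses `m` with the
additional accelerations `f`. -/
structure IsSolM {ι : Type*} [Fintype ι] (m : ι → ℝ) (T : ℝ) (f : ℝ → ι → V3)
    (q v : ℝ → ι → V3) : Prop where
  dq : ∀ t ∈ Icc (0 : ℝ) T, ∀ i, HasDerivWithinAt (fun s => q s i) (v t i) (Icc 0 T) t
  dv : ∀ t ∈ Icc (0 : ℝ) T, ∀ i,
    HasDerivWithinAt (fun s => v s i) (accM m (q t) i + f t i) (Icc 0 T) t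
  nc : ∀ t ∈ Icc (0 : ℝ) T, ∀ i j, i ≠ j → q t i ≠ q t j

/-- The gun for masses near one, with heights linear in the size of the perturbation. -/
def GunPropM (s : Fin 3 → V3) (e : V3) (μ₀ C₀ η₀ : ℝ) : Prop :=
  ∀ m : Fin 3 → ℝ, (∀ k, |m k - 1| ≤ η₀) → ∀ T : ℝ, 0 < T → ∀ η : ℝ, 0 ≤ η → η ≤ η₀ →
    η * T ≤ η₀ → ∀ f Q V : ℝ → Fin 3 → V3, IsSolM m T f Q V →
    (∀ t ∈ Icc (0 : ℝ) T, ∀ k, ‖f t k‖ ≤ η) →
    (∀ k, Q 0 k = s k) → (∀ k, V 0 k = 0) →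
    ∀ t ∈ Icc (0 : ℝ) T,
      (∀ k l, k ≠ l → μ₀ ≤ ‖Q t k - Q t l‖) ∧
      (∀ k, |Q t k 2| ≤ C₀ * (η * (1 + T)) * (1 + t)) ∧
      (∀ k, ‖Q t k‖ ≤ C₀ * (1 + t)) ∧
      (∀ k, ‖V t k‖ ≤ C₀) ∧
      t / 2 - C₀ ≤ ⟪Q t 0, e⟫ ∧ (C₀ ≤ t → 1 / 2 ≤ ⟪V t 0, e⟫) ∧
      (∀ k, k ≠ 0 → ⟪Q t k, e⟫ ≤ C₀)

theorem accM_const {ι : Type*} [Fintype ι] (μ : ℝ) (q : ι → V3) (i : ι) :
    accM (fun _ => μ) q i = acc μ q i := rfl

theorem isSolM_const {ι : Type*} [Fintype ι] {μ T : ℝ} {f q v : ℝ → ι → V3} :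
    IsSolM (fun _ => μ) T f q v ↔ IsSol μ T f q v :=
  ⟨fun h => ⟨h.dq, h.dv, h.nc⟩, fun h => ⟨h.dq, h.dv, h.nc⟩⟩

end Pool.Agent.NBody
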