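import Mathlib
import Pool.Agent.NBody.ThDefsM
import Pool.Agent.NBody.ThBoot1

/-!
Bootstrap of the bodies outside the gun, arbitrary masses.
-/

set_option autoImplicit false
open scoped RealInnerProductSpace
open Set Finset Filter Topology

namespace Pool.Agent.NBody

/-- the acceleration of the body `i` by the bodies of `J` when the masses are `m` -/
noncomputable def accOnM {ι : Type*} (m : ι → ℝ) (J : Finset ι) (q : ι → V3) (i : ι) : V3 :=
  ∑ j ∈ J, (m j / ‖q j - q i‖ ^ 3) • (q j - q i)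

theorem accM_eq {ι : Type*} [Fintype ι] [DecidableEq ι] (m : ι → ℝ) (G : Finset ι) (q : ι → V3)
    (i : ι) : accM m q i = accOnM m G q i + accOnM m Gᶜ q i := by
  unfold accM accOnM
  rw [Finset.sum_add_sum_compl]

theorem norm_accOnM_far {ι : Type*} {m : ι → ℝ} (hm : ∀ i, 0 ≤ m i) {J : Finset ι} {q : ι → V3}
    {i : ι} {d : ℝ} (hd : 0 < d) (h : ∀ j ∈ J, d ≤ ‖q j - q i‖) :
    ‖accOnM m J q i‖ ≤ (∑ j ∈ J, m j) * (1 / d ^ 2) := by
  unfold accOnM
  refine (norm_sum_le _ _).trans ?_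
  rw [Finset.sum_mul]
  apply Finset.sum_le_sum
  intro j hj
  have h1 := h j hj
  have hne : q j - q i ≠ 0 := by
    rw [← norm_pos_iff]
    linarith
  rw [norm_term (hm j) _ hne]
  apply mul_le_mul_of_nonneg_left _ (hm j)
  apply one_div_le_one_div_of_le (by positivity)
  exact pow_le_pow_left₀ hd.le h1 2

theorem norm_accOnM_sep {ι : Type*} {m : ι → ℝ} (hm : ∀ i, 0 ≤ m i) {μ : ℝ}
    (hmμ : ∀ i, m i ≤ μ) (hμ : 0 ≤ μ) {J : Finset ι} {q : ι → V3} {i : ι}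
    {s : ℝ} (hs : 0 < s) (hs1 : s ≤ 1) (h : ∀ j ∈ J, s ≤ ‖q j - q i‖)
    (hsep : ∀ j ∈ J, ∀ k ∈ J, j ≠ k → s ≤ ‖q j - q k‖) :
    ‖accOnM m J q i‖ ≤ 432 * μ / s ^ 3 + ∑ j ∈ J, m j := by
  classical
  have h1 : ‖accOnM m J q i‖ ≤ ∑ j ∈ J, m j * (1 / ‖q j - q i‖ ^ 2) := by
    unfold accOnM
    refine (norm_sum_le _ _).trans (le_of_eq ?_)
    apply Finset.sum_congr rfl
    intro j hj
    have hne : q j - q i ≠ 0 := by
      rw [← norm_pos_iff]
      have := h j hj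
      linarith
    exact norm_term (hm j) _ hne
  have h2 := sum_inv_sq J (fun j => q j - q i) hs hs1 (fun j hj k hk hjk => by
    have := hsep j hj k hk hjk
    simpa using this) h
  have h2' : ∑ j ∈ J.filter (fun j => ‖q j - q i‖ ≤ 1), m j * (1 / ‖q j - q i‖ ^ 2) ≤
      432 * μ / s ^ 3 := by
    calc ∑ j ∈ J.filter (fun j => ‖q j - q i‖ ≤ 1), m j * (1 / ‖q j - q i‖ ^ 2) ≤
        ∑ j ∈ J.filter (fun j => ‖q j - q i‖ ≤ 1), μ * (1 / ‖q j - q i‖ ^ 2) := by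
          apply Finset.sum_le_sum
          intro j _
          exact mul_le_mul_of_nonneg_right (hmμ j) (by positivity)
      _ = μ * ∑ j ∈ J.filter (fun j => ‖q j - q i‖ ≤ 1), (1 / ‖q j - q i‖ ^ 2) := by
          rw [Finset.mul_sum]
      _ ≤ μ * (432 * 1 / s ^ 3) := mul_le_mul_of_nonneg_left h2 hμ
      _ = 432 * μ / s ^ 3 := by ring
  have h3 : ∑ j ∈ J.filter (fun j => ¬ ‖q j - q i‖ ≤ 1), m j * (1 / ‖q j - q i‖ ^ 2) ≤
      ∑ j ∈ J, m j := by
    calc ∑ j ∈ J.filter (fun j => ¬ ‖q j - q i‖ ≤ 1), m j * (1 / ‖q j - q i‖ ^ 2) ≤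
        ∑ j ∈ J.filter (fun j => ¬ ‖q j - q i‖ ≤ 1), m j := by
          apply Finset.sum_le_sum
          intro j hj
          have h5 := (Finset.mem_filter.mp hj).2
          push Not at h5
          apply mul_le_of_le_one_right (hm j)
          rw [div_le_one (by positivity)]
          exact one_le_pow₀ h5.le
      _ ≤ ∑ j ∈ J, m j := Finset.sum_le_sum_of_subset_of_nonneg (Finset.filter_subset _ _)
          (fun j _ _ => hm j)
  have h4 := Finset.sum_filter_add_sum_filter_not J (fun j => ‖q j - q i‖ ≤ 1)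
    (fun j => m j * (1 / ‖q j - q i‖ ^ 2))
  refine h1.trans ?_
  rw [← h4]
  exact add_le_add h2' h3

theorem IsSolM.mono {ι : Type*} [Fintype ι] {m : ι → ℝ} {T T' : ℝ} {f : ℝ → ι → V3}
    {q v : ℝ → ι → V3} (h : IsSolM m T f q v) (hT : T' ≤ T) : IsSolM m T' f q v where
  dq := fun t ht i => (h.dq t ⟨ht.1, ht.2.trans hT⟩ i).mono (Set.Icc_subset_Icc_right hT)
  dv := fun t ht i => (h.dv t ⟨ht.1, ht.2.trans hT⟩ i).mono (Set.Icc_subset_Icc_right hT)
  nc := fun t ht i j hij => h.nc t ⟨ht.1, ht.2.trans hT⟩ i j hij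

/-- The bounds for the bodies outside the gun as long as they stay near their places. -/
theorem others_stepM {N : ℕ} {m : Fin N → ℝ} {μ T R c σ A : ℝ} {G : Finset (Fin N)} {z : V3}
    {q v : ℝ → Fin N → V3} (hm : ∀ i, 0 ≤ m i) (hmμ : ∀ i, m i ≤ μ)
    (hμ : 0 < μ) (hsum : ∑ i, m i ≤ 1) (hR : 0 ≤ R)
    (hσ : 0 < σ) (hσ2 : σ ≤ 2) (hc : 0 < c) (hG : G.card ≤ 3)
    (hsol : IsSolM m T (fun _ _ => 0) q v) (hv : ∀ i ∉ G, ‖v 0 i‖ ≤ R)
    (hsep : ∀ i ∉ G, ∀ j ∉ G, i ≠ j → σ ≤ ‖q 0 i - q 0 j‖)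
    (hlay : ∀ j ∉ G, c ≤ |q 0 j 2 - z 2|)
    (hA : 3456 * μ / σ ^ 3 + 1 + 48 * μ / c ^ 2 ≤ A) {t : ℝ} (ht : t ∈ Icc 0 T)
    (h1 : ∀ u ∈ Icc 0 t, ∀ i ∉ G, ‖q u i - q 0 i‖ ≤ σ / 4)
    (h2 : ∀ u ∈ Icc 0 t, ∀ i ∉ G, ‖q u i - q 0 i‖ ≤ c / 4)
    (h3 : ∀ u ∈ Icc 0 t, ∀ i ∈ G, |q u i 2 - z 2| ≤ c / 2) :
    ∀ u ∈ Icc 0 t, (∀ i ∉ G, ‖q u i - q 0 i‖ ≤ (R + A * T) * T) ∧
      (∀ i ∉ G, ‖v u i - v 0 i‖ ≤ A * T) ∧
      (∀ i ∉ G, ∀ j ∉ G, i ≠ j → σ / 2 ≤ ‖q u i - q u j‖) ∧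
      (∀ i ∉ G, ∀ j ∈ G, c / 4 ≤ ‖q u i - q u j‖) ∧
      (∀ i ∈ G, ‖accOnM m Gᶜ (q u) i‖ ≤ 16 / c ^ 2) := by
  classical
  have hT : 0 ≤ T := ht.1.trans ht.2
  have hA0 : 0 ≤ A := by
    have : 0 ≤ 3456 * μ / σ ^ 3 + 1 + 48 * μ / c ^ 2 := by positivity
    linarith
  have hs : ∀ u ∈ Icc 0 t, ∀ i ∉ G, ∀ j ∉ G, i ≠ j → σ / 2 ≤ ‖q u i - q u j‖ := by
    intro u hu i hi j hj hij
    have e1 := h1 u hu i hi
    have e2 := h1 u hu j hj
    have e3 := hsep i hi j hj hij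
    have e4 : ‖q 0 i - q 0 j‖ ≤ ‖q u i - q u j‖ + ‖q u i - q 0 i‖ + ‖q u j - q 0 j‖ := by
      have : q 0 i - q 0 j = (q u i - q u j) - (q u i - q 0 i) + (q u j - q 0 j) := by abel
      rw [this]
      exact (norm_add_le _ _).trans (add_le_add_left (norm_sub_le _ _) _)
    linarith
  have hg : ∀ u ∈ Icc 0 t, ∀ i ∉ G, ∀ j ∈ G, c / 4 ≤ ‖q u i - q u j‖ := by
    intro u hu i hi j hj
    have e1 := h2 u hu i hi
    have e2 := h3 u hu j hj
    have e3 := hlay i hi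
    have e4 := abs_coord2_le (q u i) (q 0 i)
    have e5 := abs_coord2_le (q u i) (q u j)
    have e6 : |q 0 i 2 - z 2| ≤ |q u i 2 - q u j 2| + |q u i 2 - q 0 i 2| + |q u j 2 - z 2| := by
      have : q 0 i 2 - z 2 = (q u i 2 - q u j 2) - (q u i 2 - q 0 i 2) + (q u j 2 - z 2) := by ring
      rw [this]
      exact (abs_add_le _ _).trans (add_le_add_left (abs_sub _ _) _)
    linarith
  have hext : ∀ u ∈ Icc 0 t, ∀ i ∈ G, ‖accOnM m Gᶜ (q u) i‖ ≤ 16 / c ^ 2 := by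
    intro u hu i hi
    have e1 := norm_accOnM_far hm (J := Gᶜ) (q := q u) (i := i) (d := c / 4) (by positivity)
      (fun j hj => hg u hu j (Finset.mem_compl.mp hj) i hi)
    refine e1.trans ?_
    have e3 : ∑ j ∈ Gᶜ, m j ≤ 1 :=
      (Finset.sum_le_sum_of_subset_of_nonneg (Finset.subset_univ _) (fun j _ _ => hm j)).trans hsum
    calc (∑ j ∈ Gᶜ, m j) * (1 / (c / 4) ^ 2) = (∑ j ∈ Gᶜ, m j) * (16 / c ^ 2) := by
          field_simp
          ring
      _ ≤ 1 * (16 / c ^ 2) := mul_le_mul_of_nonneg_right e3 (by positivity)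
      _ = 16 / c ^ 2 := one_mul _
  have hacc : ∀ u ∈ Icc 0 t, ∀ i ∉ G, ‖accM m (q u) i‖ ≤ A := by
    intro u hu i hi
    have e0 : accM m (q u) i = accOnM m G (q u) i + accOnM m (Gᶜ.erase i) (q u) i := by
      rw [accM_eq m G (q u) i]
      congr 1
      unfold accOnM
      rw [← Finset.sum_erase_add Gᶜ _ (Finset.mem_compl.mpr hi)]
      simp
    rw [e0]
    have e1 := norm_accOnM_far hm (J := G) (q := q u) (i := i) (d := c / 4) (by positivity)
      (fun j hj => by rw [norm_sub_rev]; exact hg u hu i hi j hj)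
    have e2 := norm_accOnM_sep hm hmμ hμ.le (J := Gᶜ.erase i) (q := q u) (i := i) (s := σ / 2)
      (by positivity) (by linarith)
      (fun j hj => by
        rw [Finset.mem_erase, Finset.mem_compl] at hj
        exact hs u hu j hj.2 i hi hj.1)
      (fun j hj k hk hjk => by
        rw [Finset.mem_erase, Finset.mem_compl] at hj hk
        exact hs u hu j hj.2 k hk.2 hjk)
    have e3 : ∑ j ∈ Gᶜ.erase i, m j ≤ 1 :=
      (Finset.sum_le_sum_of_subset_of_nonneg (Finset.subset_univ _) (fun j _ _ => hm j)).trans hsum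
    have e4 : (∑ j ∈ G, m j) * (1 / (c / 4) ^ 2) ≤ 48 * μ / c ^ 2 := by
      have e5 : ∑ j ∈ G, m j ≤ 3 * μ := by
        calc ∑ j ∈ G, m j ≤ ∑ _j ∈ G, μ := Finset.sum_le_sum (fun j _ => hmμ j)
          _ = G.card * μ := by rw [Finset.sum_const, nsmul_eq_mul]
          _ ≤ 3 * μ := by
            apply mul_le_mul_of_nonneg_right _ hμ.le
            exact_mod_cast hG
      calc (∑ j ∈ G, m j) * (1 / (c / 4) ^ 2) ≤ (3 * μ) * (1 / (c / 4) ^ 2) :=
            mul_le_mul_of_nonneg_right e5 (by positivity)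
        _ = 48 * μ / c ^ 2 := by
          field_simp
          ring
    have e5 : 432 * μ / (σ / 2) ^ 3 = 3456 * μ / σ ^ 3 := by
      field_simp
      ring
    rw [e5] at e2
    refine (norm_add_le _ _).trans ?_
    linarith
  have hvel : ∀ u ∈ Icc 0 t, ∀ i ∉ G, ‖v u i - v 0 i‖ ≤ A * T := by
    intro u hu i hi
    have e1 := Convex.norm_image_sub_le_of_norm_hasDerivWithin_le
      (f := fun s => v s i) (f' := fun s => accM m (q s) i + 0) (C := A) (s := Icc 0 t)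
      (x := 0) (y := u)
      (fun s hs => (hsol.dv s ⟨hs.1, hs.2.trans ht.2⟩ i).mono (Set.Icc_subset_Icc_right ht.2))
      (fun s hs => by simpa using hacc s hs i hi) (convex_Icc 0 t)
      ⟨le_refl _, ht.1⟩ hu
    refine e1.trans ?_
    apply mul_le_mul_of_nonneg_left _ hA0
    rw [sub_zero, Real.norm_of_nonneg hu.1]
    exact hu.2.trans ht.2
  have hpos : ∀ u ∈ Icc 0 t, ∀ i ∉ G, ‖q u i - q 0 i‖ ≤ (R + A * T) * T := by
    intro u hu i hi
    have e1 := Convex.norm_image_sub_le_of_norm_hasDerivWithin_le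
      (f := fun s => q s i) (f' := fun s => v s i) (C := R + A * T) (s := Icc 0 t)
      (x := 0) (y := u)
      (fun s hs => (hsol.dq s ⟨hs.1, hs.2.trans ht.2⟩ i).mono (Set.Icc_subset_Icc_right ht.2))
      (fun s hs => by
        have e2 := hvel s hs i hi
        have e3 := hv i hi
        have e4 : ‖v s i‖ ≤ ‖v 0 i‖ + ‖v s i - v 0 i‖ := by
          have : v s i = v 0 i + (v s i - v 0 i) := by abel
          conv_lhs => rw [this]
          exact norm_add_le _ _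
        linarith) (convex_Icc 0 t)
      ⟨le_refl _, ht.1⟩ hu
    refine e1.trans ?_
    apply mul_le_mul_of_nonneg_left _ (by positivity)
    rw [sub_zero, Real.norm_of_nonneg hu.1]
    exact hu.2.trans ht.2
  intro u hu
  exact ⟨hpos u hu, hvel u hu, hs u hu, hg u hu, hext u hu⟩

/-- Bootstrap of the bodies outside the gun. -/
theorem othersM {N : ℕ} {m : Fin N → ℝ} {μ T R c σ A : ℝ} {G : Finset (Fin N)} {z : V3}
    {q v : ℝ → Fin N → V3} (hm : ∀ i, 0 ≤ m i) (hmμ : ∀ i, m i ≤ μ)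
    (hμ : 0 < μ) (hsum : ∑ i, m i ≤ 1) (hR : 0 ≤ R)
    (hσ : 0 < σ) (hσ2 : σ ≤ 2) (hc : 0 < c) (hG : G.card ≤ 3)
    (hsol : IsSolM m T (fun _ _ => 0) q v) (hv : ∀ i ∉ G, ‖v 0 i‖ ≤ R)
    (hsep : ∀ i ∉ G, ∀ j ∉ G, i ≠ j → σ ≤ ‖q 0 i - q 0 j‖)
    (hlay : ∀ j ∉ G, c ≤ |q 0 j 2 - z 2|) (hg0 : ∀ i ∈ G, |q 0 i 2 - z 2| ≤ c / 4)
    (hA : 3456 * μ / σ ^ 3 + 1 + 48 * μ / c ^ 2 ≤ A)
    (hs1 : (R + A * T) * T < σ / 4) (hs2 : (R + A * T) * T < c / 4)
    (hgun : ∀ T1 ∈ Icc 0 T, (∀ t ∈ Icc 0 T1, ∀ i ∈ G, ‖accOnM m Gᶜ (q t) i‖ ≤ 16 / c ^ 2) →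
      ∀ i ∈ G, |q T1 i 2 - z 2| ≤ c / 4) :
    ∀ t ∈ Icc 0 T, (∀ i ∉ G, ‖q t i - q 0 i‖ ≤ (R + A * T) * T) ∧
      (∀ i ∉ G, ‖v t i - v 0 i‖ ≤ A * T) ∧
      (∀ i ∉ G, ∀ j ∉ G, i ≠ j → σ / 2 ≤ ‖q t i - q t j‖) ∧
      (∀ i ∉ G, ∀ j ∈ G, c / 4 ≤ ‖q t i - q t j‖) ∧
      (∀ i ∈ G, ‖accOnM m Gᶜ (q t) i‖ ≤ 16 / c ^ 2) := by
  classical
  set η : ℝ := min (σ / 4) (c / 4) with hη
  have hη0 : 0 < η := lt_min (by positivity) (by positivity)
  set F : Fin N → ℝ → ℝ := fun k t =>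
    if k ∈ G then |q t k 2 - z 2| / (c / 2) else ‖q t k - q 0 k‖ / η with hF
  have hqc : ∀ k, ContinuousOn (fun s => q s k) (Icc 0 T) := fun k s hs =>
    (hsol.dq s hs k).continuousWithinAt
  have hFc : ∀ k, ContinuousOn (F k) (Icc 0 T) := by
    intro k
    by_cases hk : k ∈ G
    · have : F k = fun t => |q t k 2 - z 2| / (c / 2) := by
        funext t
        simp [hF, hk]
      rw [this]
      apply ContinuousOn.div_const
      apply ContinuousOn.abs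
      apply ContinuousOn.sub _ continuousOn_const
      have h1 : Continuous (fun x : V3 => x 2) := by fun_prop
      exact h1.comp_continuousOn (hqc k)
    · have : F k = fun t => ‖q t k - q 0 k‖ / η := by
        funext t
        simp [hF, hk]
      rw [this]
      apply ContinuousOn.div_const
      exact ((hqc k).sub continuousOn_const).norm
  have hF0 : ∀ k, F k 0 < 1 := by
    intro k
    by_cases hk : k ∈ G
    · simp only [hF, hk, if_true]
      rw [div_lt_one (by positivity)]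
      have := hg0 k hk
      linarith
    · simp only [hF, hk, if_false, sub_self, norm_zero, zero_div]
      exact one_pos
  have hrange : ∀ t : ℝ, (∀ u ∈ Set.Icc 0 t, ∀ k, F k u ≤ 1) →
      (∀ u ∈ Set.Icc 0 t, ∀ i ∉ G, ‖q u i - q 0 i‖ ≤ σ / 4) ∧
      (∀ u ∈ Set.Icc 0 t, ∀ i ∉ G, ‖q u i - q 0 i‖ ≤ c / 4) ∧
      (∀ u ∈ Set.Icc 0 t, ∀ i ∈ G, |q u i 2 - z 2| ≤ c / 2) := by
    intro t hFt
    refine ⟨?_, ?_, ?_⟩
    · intro u hu i hi
      have := hFt u hu i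
      simp only [hF, hi, if_false] at this
      rw [div_le_one hη0] at this
      exact this.trans (min_le_left _ _)
    · intro u hu i hi
      have := hFt u hu i
      simp only [hF, hi, if_false] at this
      rw [div_le_one hη0] at this
      exact this.trans (min_le_right _ _)
    · intro u hu i hi
      have := hFt u hu i
      simp only [hF, hi, if_true] at this
      rwa [div_le_one (by positivity)] at this
  have key := cont_induct hFc hF0 (by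
    intro t ht hFt k
    obtain ⟨r1, r2, r3⟩ := hrange t hFt
    have hst := others_stepM hm hmμ hμ hsum hR hσ hσ2 hc hG hsol hv hsep hlay hA ht r1 r2 r3
    by_cases hk : k ∈ G
    · simp only [hF, hk, if_true]
      rw [div_lt_one (by positivity)]
      have := hgun t ht (fun u hu i hi => (hst u hu).2.2.2.2 i hi) k hk
      linarith
    · simp only [hF, hk, if_false]
      rw [div_lt_one hη0]
      have := (hst t ⟨ht.1, le_refl _⟩).1 k hk
      exact lt_min (by linarith) (by linarith))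
  intro t ht
  obtain ⟨r1, r2, r3⟩ := hrange t (fun u hu k => (key u ⟨hu.1, hu.2.trans ht.2⟩ k).le)
  exact others_stepM hm hmμ hμ hsum hR hσ hσ2 hc hG hsol hv hsep hlay hA ht r1 r2 r3 t ⟨ht.1, le_refl _⟩

end Pool.Agent.NBody
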