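import Mathlib
import Pool.Agent.NBody.ThDefsM
import Pool.Agent.NBody.ThBootM1

/-!
Definitions for the third version of the theorem on many bodies (the whole energy surface):
the gun with small initial velocities, the bootstrap along straight lines, prepared states of
type I-A.
-/

set_option autoImplicit false
open scoped RealInnerProductSpace
open Set Finset Filter Topology

namespace Pool.Agent.NBody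

/-- The gun for masses near one and small initial velocities. -/
def GunProp3 (s : Fin 3 → V3) (e : V3) (μ₀ C₀ η₀ : ℝ) : Prop :=
  ∀ m : Fin 3 → ℝ, (∀ k, |m k - 1| ≤ η₀) → ∀ T : ℝ, 0 < T → ∀ η : ℝ, 0 ≤ η → η ≤ η₀ →
    η * T ≤ η₀ → ∀ α : ℝ, 0 ≤ α → α ≤ η₀ → ∀ f Q V : ℝ → Fin 3 → V3, IsSolM m T f Q V →
    (∀ t ∈ Icc (0 : ℝ) T, ∀ k, ‖f t k‖ ≤ η) →
    (∀ k, Q 0 k = s k) → (∀ k, ‖V 0 k‖ ≤ α) →
    ∀ t ∈ Icc (0 : ℝ) T,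
      (∀ k l, k ≠ l → μ₀ ≤ ‖Q t k - Q t l‖) ∧
      (∀ k, |Q t k 2| ≤ C₀ * (α + η * (1 + T)) * (1 + t)) ∧
      (∀ k, ‖Q t k‖ ≤ C₀ * (1 + t)) ∧
      (∀ k, ‖V t k‖ ≤ C₀) ∧
      t / 2 - C₀ ≤ ⟪Q t 0, e⟫ ∧ (C₀ ≤ t → 1 / 2 ≤ ⟪V t 0, e⟫) ∧
      (∀ k, k ≠ 0 → ⟪Q t k, e⟫ ≤ C₀)

/-- The bootstrap of the bodies outside a cluster `G` of at most three bodies along their straight
lines; `F` are the fast bodies; `C` is an absolute constant. -/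
def Others3 (C : ℝ) : Prop :=
  ∀ {N : ℕ} {m : Fin N → ℝ} {μ T s s' d B A φ : ℝ} {G F : Finset (Fin N)}
    {q v : ℝ → Fin N → V3}, (∀ i, 0 ≤ m i) → (∀ i, m i ≤ μ) → 0 < μ → ∑ i, m i ≤ 1 →
    0 < s' → s' ≤ s → s ≤ 2 → 0 < d → G.card ≤ 3 → 1 ≤ φ → (F.card : ℝ) ≤ φ ^ 3 →
    IsSolM m T (fun _ _ => 0) q v →
    (∀ i ∉ G, ∀ j ∉ G, i ≠ j → ∀ t ∈ Icc (0 : ℝ) T,
      s' ≤ ‖(q 0 i + t • v 0 i) - (q 0 j + t • v 0 j)‖) →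
    (∀ i ∉ G, i ∉ F → ∀ j ∉ G, j ∉ F → i ≠ j → ∀ t ∈ Icc (0 : ℝ) T,
      s ≤ ‖(q 0 i + t • v 0 i) - (q 0 j + t • v 0 j)‖) →
    C * μ * (φ / s' ^ 2 + 1 / s ^ 3) + 1 + 12 * μ / d ^ 2 ≤ A →
    A * T ^ 2 < s' / 4 → A * T ^ 2 < d / 4 → (4 / d ^ 2 ≤ B ∨ (s' ≤ d ∧ A ≤ B)) →
    (∀ i ∈ G, ∀ j ∉ G, d < ‖q 0 i - q 0 j‖) →
    (∀ T1 ∈ Icc (0 : ℝ) T,
      (∀ t ∈ Icc (0 : ℝ) T1, ∀ i ∈ G, ‖accOnM m Gᶜ (q t) i‖ ≤ B) →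
      ∀ i ∈ G, ∀ j ∉ G, d < ‖q T1 i - (q 0 j + T1 • v 0 j)‖) →
    ∀ t ∈ Icc (0 : ℝ) T,
      (∀ i ∉ G, ‖q t i - (q 0 i + t • v 0 i)‖ ≤ A * T ^ 2) ∧
      (∀ i ∉ G, ‖v t i - v 0 i‖ ≤ A * T) ∧
      (∀ i ∉ G, ∀ j ∉ G, i ≠ j → s' / 2 ≤ ‖q t i - q t j‖) ∧
      (∀ i ∉ G, ∀ j ∈ G, d / 2 ≤ ‖q t i - q t j‖) ∧
      (∀ i ∈ G, ‖accOnM m Gᶜ (q t) i‖ ≤ B)

/-- A prepared state of type I-A: three bodies form a gun of size `r` at `z`, with velocities at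
most `ω`; all velocities are at most `ν`; the straight lines of the other bodies are
`s'`-separated on `[0, τ]`, and `s`-separated outside the set `F` of the fast bodies; the heights
of the other bodies differ from that of the gun by at least `c`. -/
structure Prep3A (N : ℕ) (R c ν ω τ s s' r : ℝ) (sh : Fin 3 → V3) (F : Finset (Fin N))
    (g : Fin 3 → Fin N) (z : V3) (q v : Fin N → V3) : Prop where
  inj : Function.Injective g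
  bq : ∀ i, ‖q i‖ ≤ R
  bv : ∀ i, ‖v i‖ ≤ ν
  gq : ∀ k, q (g k) = z + r • sh k
  gv : ∀ k, ‖v (g k)‖ ≤ ω
  sep' : ∀ i j, i ∉ Set.range g → j ∉ Set.range g → i ≠ j → ∀ t ∈ Icc (0 : ℝ) τ,
    s' ≤ ‖(q i + t • v i) - (q j + t • v j)‖
  sep : ∀ i j, i ∉ Set.range g → j ∉ Set.range g → i ∉ F → j ∉ F → i ≠ j →
    ∀ t ∈ Icc (0 : ℝ) τ, s ≤ ‖(q i + t • v i) - (q j + t • v j)‖
  lay : ∀ j, j ∉ Set.range g → c ≤ |q j 2 - z 2|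

end Pool.Agent.NBody
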