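import Mathlib
import Pool.Agent.NBody.ThDefsM
import Pool.Agent.NBody.ThDefs3
import Pool.Agent.NBody.ThBootM1

/-!
Bootstrap of the bodies outside a small cluster along straight lines, with a class of slow bodies
that are well separated and a small class of fast bodies.
-/

set_option autoImplicit false
open scoped RealInnerProductSpace
open Set Finset Filter Topology

namespace Pool.Agent.NBody

/-- The acceleration by a class of well separated bodies and a small class of badly separated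
bodies. -/
theorem norm_accOnM_two {ι : Type*} [DecidableEq ι] {m : ι → ℝ} (hm : ∀ i, 0 ≤ m i) {μ : ℝ}
    (hmμ : ∀ i, m i ≤ μ) (hμ : 0 ≤ μ) {J Sl : Finset ι} {q : ι → V3} {i : ι} {a b k : ℝ}
    (hb : 0 < b) (ha : 0 < a) (ha1 : a ≤ 1) (hk : 1 ≤ k)
    (hcard : ((J.filter (fun j => j ∉ Sl)).card : ℝ) ≤ k ^ 3)
    (h1 : ∀ j ∈ J, b ≤ ‖q j - q i‖)
    (h2 : ∀ j ∈ J, ∀ l ∈ J, j ≠ l → b ≤ ‖q j - q l‖)
    (h3 : ∀ j ∈ J, j ∈ Sl → ∀ l ∈ J, l ∈ Sl → j ≠ l → a ≤ ‖q j - q l‖) :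
    ‖accOnM m J q i‖ ≤ μ * (27 / b ^ 2 + 432 / a ^ 3 + 433 * k / b ^ 2) + ∑ j ∈ J, m j := by
  classical
  set JS := J.filter (fun j => j ∈ Sl) with hJS
  set JF := J.filter (fun j => j ∉ Sl) with hJF
  have hne : ∀ j ∈ J, q j - q i ≠ 0 := by
    intro j hj
    rw [← norm_pos_iff]
    linarith [h1 j hj]
  have hterm : ∀ j ∈ J, ‖(m j / ‖q j - q i‖ ^ 3) • (q j - q i)‖ ≤ μ * (1 / ‖q j - q i‖ ^ 2) := by
    intro j hj
    rw [norm_term (hm j) _ (hne j hj)]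
    exact mul_le_mul_of_nonneg_right (hmμ j) (by positivity)
  have hsplit : accOnM m J q i = accOnM m JS q i + accOnM m JF q i := by
    unfold accOnM
    rw [hJS, hJF]
    exact (Finset.sum_filter_add_sum_filter_not J (fun j => j ∈ Sl) _).symm
  -- the slow ones
  set Jn := JS.filter (fun j => ‖q j - q i‖ ≤ a) with hJn
  set Jf := JS.filter (fun j => ¬ ‖q j - q i‖ ≤ a) with hJf
  have hsplit2 : accOnM m JS q i = accOnM m Jn q i + accOnM m Jf q i := by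
    unfold accOnM
    rw [hJn, hJf]
    exact (Finset.sum_filter_add_sum_filter_not JS (fun j => ‖q j - q i‖ ≤ a) _).symm
  have hJSJ : ∀ j ∈ JS, j ∈ J ∧ j ∈ Sl := fun j hj => Finset.mem_filter.mp hj
  have hn : ‖accOnM m Jn q i‖ ≤ μ * (27 / b ^ 2) := by
    have e1 := packing Jn (fun j => q j - q i) ha ha.le
      (fun j hj l hl hjl => by
        have := h3 j (hJSJ j (Finset.mem_filter.mp hj).1).1 (hJSJ j (Finset.mem_filter.mp hj).1).2
          l (hJSJ l (Finset.mem_filter.mp hl).1).1 (hJSJ l (Finset.mem_filter.mp hl).1).2 hjl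
        simpa using this)
      (fun j hj => (Finset.mem_filter.mp hj).2)
    have e2 : (1 + 2 * a / a) ^ 3 = 27 := by
      rw [mul_div_assoc, div_self ha.ne']
      norm_num
    rw [e2] at e1
    unfold accOnM
    refine (norm_sum_le _ _).trans ?_
    have e3 : ∀ j ∈ Jn, ‖(m j / ‖q j - q i‖ ^ 3) • (q j - q i)‖ ≤ μ * (1 / b ^ 2) := by
      intro j hj
      have hjJ := (hJSJ j (Finset.mem_filter.mp hj).1).1
      refine (hterm j hjJ).trans ?_
      apply mul_le_mul_of_nonneg_left _ hμ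
      apply one_div_le_one_div_of_le (by positivity)
      exact pow_le_pow_left₀ hb.le (h1 j hjJ) 2
    refine (Finset.sum_le_sum e3).trans ?_
    rw [Finset.sum_const, nsmul_eq_mul]
    calc (Jn.card : ℝ) * (μ * (1 / b ^ 2)) ≤ 27 * (μ * (1 / b ^ 2)) :=
          mul_le_mul_of_nonneg_right e1 (by positivity)
      _ = μ * (27 / b ^ 2) := by ring
  have hf : ‖accOnM m Jf q i‖ ≤ 432 * μ / a ^ 3 + ∑ j ∈ Jf, m j := by
    apply norm_accOnM_sep hm hmμ hμ ha ha1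
    · intro j hj
      have := (Finset.mem_filter.mp hj).2
      push Not at this
      exact this.le
    · intro j hj l hl hjl
      exact h3 j (hJSJ j (Finset.mem_filter.mp hj).1).1 (hJSJ j (Finset.mem_filter.mp hj).1).2
          l (hJSJ l (Finset.mem_filter.mp hl).1).1 (hJSJ l (Finset.mem_filter.mp hl).1).2 hjl
  have hfm : ∑ j ∈ Jf, m j ≤ ∑ j ∈ J, m j :=
    Finset.sum_le_sum_of_subset_of_nonneg (fun j hj => (hJSJ j (Finset.mem_filter.mp hj).1).1)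
      (fun j _ _ => hm j)
  -- the fast ones
  have hkb : b ≤ k * b := by nlinarith
  have hF : ‖accOnM m JF q i‖ ≤ μ * (433 * k / b ^ 2) := by
    have e1 := sum_inv_sq JF (fun j => q j - q i) hb hkb (fun j hj l hl hjl => by
      have := h2 j (Finset.mem_filter.mp hj).1 l (Finset.mem_filter.mp hl).1 hjl
      simpa using this) (fun j hj => h1 j (Finset.mem_filter.mp hj).1)
    have e2 : ∑ j ∈ JF.filter (fun j => ¬ ‖q j - q i‖ ≤ k * b), 1 / ‖q j - q i‖ ^ 2 ≤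
        k / b ^ 2 := by
      have e3 : ∀ j ∈ JF.filter (fun j => ¬ ‖q j - q i‖ ≤ k * b), 1 / ‖q j - q i‖ ^ 2 ≤
          1 / (k * b) ^ 2 := by
        intro j hj
        have e4 := (Finset.mem_filter.mp hj).2
        push Not at e4
        apply one_div_le_one_div_of_le (by positivity)
        exact pow_le_pow_left₀ (by positivity) e4.le 2
      refine (Finset.sum_le_sum e3).trans ?_
      rw [Finset.sum_const, nsmul_eq_mul]
      have e5 : ((JF.filter (fun j => ¬ ‖q j - q i‖ ≤ k * b)).card : ℝ) ≤ k ^ 3 :=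
        le_trans (Nat.cast_le.mpr (Finset.card_le_card (Finset.filter_subset _ _))) hcard
      calc _ ≤ k ^ 3 * (1 / (k * b) ^ 2) := mul_le_mul_of_nonneg_right e5 (by positivity)
        _ = k / b ^ 2 := by
          field_simp
    have e6 := Finset.sum_filter_add_sum_filter_not JF (fun j => ‖q j - q i‖ ≤ k * b)
      (fun j => 1 / ‖q j - q i‖ ^ 2)
    unfold accOnM
    refine (norm_sum_le _ _).trans ?_
    refine (Finset.sum_le_sum (fun j hj => hterm j (Finset.mem_filter.mp hj).1)).trans ?_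
    rw [← Finset.mul_sum]
    apply mul_le_mul_of_nonneg_left _ hμ
    rw [← e6]
    have e7 : 432 * (k * b) / b ^ 3 = 432 * k / b ^ 2 := by
      field_simp
    rw [e7] at e1
    have e8 : 433 * k / b ^ 2 = 432 * k / b ^ 2 + k / b ^ 2 := by ring
    rw [e8]
    exact add_le_add e1 e2
  rw [hsplit, hsplit2]
  have e9 := norm_add_le (accOnM m Jn q i + accOnM m Jf q i) (accOnM m JF q i)
  have e10 := norm_add_le (accOnM m Jn q i) (accOnM m Jf q i)
  have e11 : μ * (27 / b ^ 2 + 432 / a ^ 3 + 433 * k / b ^ 2) =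
      μ * (27 / b ^ 2) + 432 * μ / a ^ 3 + μ * (433 * k / b ^ 2) := by ring
  rw [e11]
  linarith

/-- The bounds for the bodies outside the cluster as long as they stay near their straight lines. -/
theorem others3_step {N : ℕ} {m : Fin N → ℝ} {μ T s s' c A k : ℝ} {G Sl : Finset (Fin N)}
    {q v : ℝ → Fin N → V3} (hm : ∀ i, 0 ≤ m i) (hmμ : ∀ i, m i ≤ μ)
    (hμ : 0 < μ) (hsum : ∑ i, m i ≤ 1) (hs' : 0 < s') (hss : s' ≤ s) (hs1 : s ≤ 2)
    (hc0 : 0 < c) (hG : G.card ≤ 3) (hk : 1 ≤ k)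
    (hcard : ((Slᶜ : Finset (Fin N)).card : ℝ) ≤ k ^ 3)
    (hsol : IsSolM m T (fun _ _ => 0) q v)
    (hslow : ∀ t ∈ Icc 0 T, ∀ i ∈ Sl, i ∉ G → ∀ j ∈ Sl, j ∉ G → i ≠ j →
      s ≤ ‖(q 0 i + t • v 0 i) - (q 0 j + t • v 0 j)‖)
    (hfast : ∀ t ∈ Icc 0 T, ∀ i ∉ G, ∀ j ∉ G, i ≠ j →
      s' ≤ ‖(q 0 i + t • v 0 i) - (q 0 j + t • v 0 j)‖)
    (hA : μ * (108 / s' ^ 2 + 3456 / s ^ 3 + 1732 * k / s' ^ 2 + 12 / c ^ 2) + 1 ≤ A)
    {t : ℝ} (ht : t ∈ Icc 0 T)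
    (h1 : ∀ u ∈ Icc 0 t, ∀ i ∉ G, ‖q u i - (q 0 i + u • v 0 i)‖ ≤ s' / 4)
    (h1' : ∀ u ∈ Icc 0 t, ∀ i ∉ G, ‖q u i - (q 0 i + u • v 0 i)‖ ≤ c / 4)
    (h2 : ∀ u ∈ Icc 0 t, ∀ i ∈ G, ∀ j ∉ G, c ≤ ‖q u i - (q 0 j + u • v 0 j)‖) :
    (∀ i ∉ G, ‖q t i - (q 0 i + t • v 0 i)‖ ≤ A * t ^ 2) ∧
      (∀ i ∉ G, ‖v t i - v 0 i‖ ≤ A * t) ∧
      (∀ i ∉ G, ∀ j ∉ G, i ≠ j → s' / 2 ≤ ‖q t i - q t j‖) ∧
      (∀ i ∈ Sl, i ∉ G → ∀ j ∈ Sl, j ∉ G → i ≠ j → s / 2 ≤ ‖q t i - q t j‖) ∧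
      (∀ i ∉ G, ∀ j ∈ G, 3 * c / 4 ≤ ‖q t i - q t j‖) ∧
      (∀ i ∈ G, ‖accOnM m Gᶜ (q t) i‖ ≤ 2 / c ^ 2 ∧
        (s' ≤ c → ‖accOnM m Gᶜ (q t) i‖ ≤ A)) := by
  classical
  have hs0 : 0 < s := lt_of_lt_of_le hs' hss
  have hA0 : 0 ≤ A := by
    have : 0 ≤ μ * (108 / s' ^ 2 + 3456 / s ^ 3 + 1732 * k / s' ^ 2 + 12 / c ^ 2) + 1 := by
      positivity
    linarith
  have htri : ∀ (x y x' y' : V3), ‖x' - y'‖ ≤ ‖x - y‖ + ‖x - x'‖ + ‖y - y'‖ := by
    intro x y x' y'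
    have : x' - y' = (x - y) - (x - x') + (y - y') := by abel
    rw [this]
    exact (norm_add_le _ _).trans (add_le_add_left (norm_sub_le _ _) _)
  have hmemT : ∀ u ∈ Icc 0 t, u ∈ Icc 0 T := fun u hu => ⟨hu.1, hu.2.trans ht.2⟩
  have hsepF : ∀ u ∈ Icc 0 t, ∀ i ∉ G, ∀ j ∉ G, i ≠ j → s' / 2 ≤ ‖q u i - q u j‖ := by
    intro u hu i hi j hj hij
    have e1 := h1 u hu i hi
    have e2 := h1 u hu j hj
    have e3 := hfast u (hmemT u hu) i hi j hj hij
    have e4 := htri (q u i) (q u j) (q 0 i + u • v 0 i) (q 0 j + u • v 0 j)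
    linarith
  have hsepS : ∀ u ∈ Icc 0 t, ∀ i ∈ Sl, i ∉ G → ∀ j ∈ Sl, j ∉ G → i ≠ j →
      s / 2 ≤ ‖q u i - q u j‖ := by
    intro u hu i hiS hi j hjS hj hij
    have e1 := h1 u hu i hi
    have e2 := h1 u hu j hj
    have e3 := hslow u (hmemT u hu) i hiS hi j hjS hj hij
    have e4 := htri (q u i) (q u j) (q 0 i + u • v 0 i) (q 0 j + u • v 0 j)
    linarith
  have hsepG : ∀ u ∈ Icc 0 t, ∀ i ∉ G, ∀ j ∈ G, 3 * c / 4 ≤ ‖q u i - q u j‖ := by
    intro u hu i hi j hj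
    have e1 := h1' u hu i hi
    have e2 := h2 u hu j hj i hi
    rw [norm_sub_rev] at e2
    have e3 := htri (q u i) (q u j) (q 0 i + u • v 0 i) (q u j)
    rw [sub_self, norm_zero, add_zero] at e3
    linarith
  have hcardJ : ∀ J : Finset (Fin N), ((J.filter (fun j => j ∉ Sl)).card : ℝ) ≤ k ^ 3 := by
    intro J
    refine le_trans (Nat.cast_le.mpr (Finset.card_le_card ?_)) hcard
    intro j hj
    rw [Finset.mem_compl]
    exact (Finset.mem_filter.mp hj).2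
  have hforce : ∀ u ∈ Icc 0 t, ∀ (J : Finset (Fin N)) (i : Fin N), (∀ j ∈ J, j ∉ G) →
      (∀ j ∈ J, s' / 2 ≤ ‖q u j - q u i‖) →
      ‖accOnM m J (q u) i‖ ≤ μ * (108 / s' ^ 2 + 3456 / s ^ 3 + 1732 * k / s' ^ 2) + 1 := by
    intro u hu J i hJ hJi
    have e1 := norm_accOnM_two hm hmμ hμ.le (J := J) (Sl := Sl) (q := q u) (i := i) (a := s / 2)
      (b := s' / 2) (k := k) (by positivity) (by positivity) (by linarith) hk (hcardJ J) hJi
      (fun j hj l hl hjl => hsepF u hu j (hJ j hj) l (hJ l hl) hjl)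
      (fun j hj hjS l hl hlS hjl => hsepS u hu j hjS (hJ j hj) l hlS (hJ l hl) hjl)
    have e2 : ∑ j ∈ J, m j ≤ 1 :=
      (Finset.sum_le_sum_of_subset_of_nonneg (Finset.subset_univ _) (fun j _ _ => hm j)).trans hsum
    have e3 : μ * (27 / (s' / 2) ^ 2 + 432 / (s / 2) ^ 3 + 433 * k / (s' / 2) ^ 2) =
        μ * (108 / s' ^ 2 + 3456 / s ^ 3 + 1732 * k / s' ^ 2) := by
      congr 1
      field_simp
      ring
    rw [e3] at e1
    linarith
  have hext : ∀ u ∈ Icc 0 t, ∀ i ∈ G,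
      ‖accOnM m Gᶜ (q u) i‖ ≤ 2 / c ^ 2 ∧ (s' ≤ c → ‖accOnM m Gᶜ (q u) i‖ ≤ A) := by
    intro u hu i hi
    constructor
    · have e1 := norm_accOnM_far hm (J := Gᶜ) (q := q u) (i := i) (d := 3 * c / 4) (by positivity)
        (fun j hj => hsepG u hu j (Finset.mem_compl.mp hj) i hi)
      refine e1.trans ?_
      have e3 : ∑ j ∈ Gᶜ, m j ≤ 1 :=
        (Finset.sum_le_sum_of_subset_of_nonneg (Finset.subset_univ _)
          (fun j _ _ => hm j)).trans hsum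
      have e4 : 1 / (3 * c / 4) ^ 2 ≤ 2 / c ^ 2 := by
        rw [div_le_div_iff₀ (by positivity) (by positivity)]
        nlinarith [sq_nonneg c]
      calc (∑ j ∈ Gᶜ, m j) * (1 / (3 * c / 4) ^ 2) ≤ 1 * (1 / (3 * c / 4) ^ 2) :=
            mul_le_mul_of_nonneg_right e3 (by positivity)
        _ ≤ 2 / c ^ 2 := by rw [one_mul]; exact e4
    · intro hc
      have e1 := hforce u hu Gᶜ i (fun j hj => Finset.mem_compl.mp hj) (fun j hj => by
        have := hsepG u hu j (Finset.mem_compl.mp hj) i hi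
        linarith)
      have e2 : 0 ≤ μ * (12 / c ^ 2) := by positivity
      have e3 : μ * (108 / s' ^ 2 + 3456 / s ^ 3 + 1732 * k / s' ^ 2 + 12 / c ^ 2) =
          μ * (108 / s' ^ 2 + 3456 / s ^ 3 + 1732 * k / s' ^ 2) + μ * (12 / c ^ 2) := by ring
      linarith
  have hacc : ∀ u ∈ Icc 0 t, ∀ i ∉ G, ‖accM m (q u) i‖ ≤ A := by
    intro u hu i hi
    have e0 : accM m (q u) i = accOnM m G (q u) i + accOnM m (Gᶜ.erase i) (q u) i := by
      rw [accM_eq m G (q u) i]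
      congr 1
      unfold accOnM
      rw [← Finset.sum_erase_add Gᶜ _ (Finset.mem_compl.mpr hi)]
      simp
    rw [e0]
    have e1 := norm_accOnM_far hm (J := G) (q := q u) (i := i) (d := 3 * c / 4) (by positivity)
      (fun j hj => by rw [norm_sub_rev]; exact hsepG u hu i hi j hj)
    have e2 := hforce u hu (Gᶜ.erase i) i
      (fun j hj => by
        rw [Finset.mem_erase, Finset.mem_compl] at hj
        exact hj.2)
      (fun j hj => by
        rw [Finset.mem_erase, Finset.mem_compl] at hj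
        exact hsepF u hu j hj.2 i hi hj.1)
    have e4 : (∑ j ∈ G, m j) * (1 / (3 * c / 4) ^ 2) ≤ μ * (12 / c ^ 2) := by
      have e5 : ∑ j ∈ G, m j ≤ 3 * μ := by
        calc ∑ j ∈ G, m j ≤ ∑ _j ∈ G, μ := Finset.sum_le_sum (fun j _ => hmμ j)
          _ = G.card * μ := by rw [Finset.sum_const, nsmul_eq_mul]
          _ ≤ 3 * μ := by
            apply mul_le_mul_of_nonneg_right _ hμ.le
            exact_mod_cast hG
      have e6 : 1 / (3 * c / 4) ^ 2 ≤ 4 / c ^ 2 := by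
        rw [div_le_div_iff₀ (by positivity) (by positivity)]
        nlinarith [sq_nonneg c]
      calc (∑ j ∈ G, m j) * (1 / (3 * c / 4) ^ 2) ≤ (3 * μ) * (4 / c ^ 2) :=
            mul_le_mul e5 e6 (by positivity) (by positivity)
        _ = μ * (12 / c ^ 2) := by ring
    have e7 : μ * (108 / s' ^ 2 + 3456 / s ^ 3 + 1732 * k / s' ^ 2 + 12 / c ^ 2) =
        μ * (108 / s' ^ 2 + 3456 / s ^ 3 + 1732 * k / s' ^ 2) + μ * (12 / c ^ 2) := by ring
    refine (norm_add_le _ _).trans ?_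
    linarith
  have hvel : ∀ u ∈ Icc 0 t, ∀ i ∉ G, ‖v u i - v 0 i‖ ≤ A * u := by
    intro u hu i hi
    have e1 := Convex.norm_image_sub_le_of_norm_hasDerivWithin_le
      (f := fun s => v s i) (f' := fun s => accM m (q s) i + 0) (C := A) (s := Icc 0 t)
      (x := 0) (y := u)
      (fun s hs => (hsol.dv s (hmemT s hs) i).mono (Set.Icc_subset_Icc_right ht.2))
      (fun s hs => by simpa using hacc s hs i hi) (convex_Icc 0 t)
      ⟨le_refl _, ht.1⟩ hu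
    rw [sub_zero, Real.norm_of_nonneg hu.1] at e1
    exact e1
  have hpos : ∀ i ∉ G, ‖q t i - (q 0 i + t • v 0 i)‖ ≤ A * t ^ 2 := by
    intro i hi
    have e1 := Convex.norm_image_sub_le_of_norm_hasDerivWithin_le
      (f := fun s => q s i - s • v 0 i) (f' := fun s => v s i - v 0 i) (C := A * t)
      (s := Icc 0 t) (x := 0) (y := t)
      (fun s hs => by
        have e2 := (hsol.dq s (hmemT s hs) i).mono (Set.Icc_subset_Icc_right ht.2)
        have e3 : HasDerivWithinAt (fun s : ℝ => s • v 0 i) (v 0 i) (Icc 0 t) s := by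
          have := (hasDerivWithinAt_id s (Icc 0 t)).smul_const (v 0 i)
          simpa using this
        exact e2.sub e3)
      (fun s hs => by
        have e2 := hvel s hs i hi
        exact e2.trans (mul_le_mul_of_nonneg_left hs.2 hA0)) (convex_Icc 0 t)
      ⟨le_refl _, ht.1⟩ ⟨ht.1, le_refl _⟩
    simp only [zero_smul, sub_zero] at e1
    rw [Real.norm_of_nonneg ht.1] at e1
    have e4 : q t i - (q 0 i + t • v 0 i) = q t i - t • v 0 i - q 0 i := by abel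
    rw [e4]
    refine e1.trans (le_of_eq ?_)
    ring
  have htt : t ∈ Icc 0 t := ⟨ht.1, le_refl _⟩
  exact ⟨hpos, hvel t htt, hsepF t htt, hsepS t htt, hsepG t htt, hext t htt⟩

/-- Bootstrap of the bodies outside the cluster along straight lines; the cluster lives in a moving
region. -/
theorem others3_region {N : ℕ} {m : Fin N → ℝ} {μ T s s' c A k : ℝ} {G Sl : Finset (Fin N)}
    {g : ℝ → V3 → ℝ} {q v : ℝ → Fin N → V3} (hm : ∀ i, 0 ≤ m i) (hmμ : ∀ i, m i ≤ μ)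
    (hμ : 0 < μ) (hsum : ∑ i, m i ≤ 1) (hs' : 0 < s') (hss : s' ≤ s) (hs1 : s ≤ 1)
    (hc : s' ≤ c) (hG : G.card ≤ 3) (hk : 1 ≤ k)
    (hcard : ((Slᶜ : Finset (Fin N)).card : ℝ) ≤ k ^ 3)
    (hsol : IsSolM m T (fun _ _ => 0) q v)
    (hslow : ∀ t ∈ Icc 0 T, ∀ i ∈ Sl, i ∉ G → ∀ j ∈ Sl, j ∉ G → i ≠ j →
      s ≤ ‖(q 0 i + t • v 0 i) - (q 0 j + t • v 0 j)‖)
    (hfast : ∀ t ∈ Icc 0 T, ∀ i ∉ G, ∀ j ∉ G, i ≠ j →
      s' ≤ ‖(q 0 i + t • v 0 i) - (q 0 j + t • v 0 j)‖)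
    (hclu : ∀ t ∈ Icc 0 T, ∀ i ∉ G, ∀ y, g t y ≤ 1 → c ≤ ‖(q 0 i + t • v 0 i) - y‖)
    (hg : Continuous (fun p : ℝ × V3 => g p.1 p.2)) (hg0 : ∀ i ∈ G, g 0 (q 0 i) < 1)
    (hA : μ * (108 / s' ^ 2 + 3456 / s ^ 3 + 1732 * k / s' ^ 2 + 12 / c ^ 2) + 1 ≤ A)
    (hAT : A * T ^ 2 < s' / 4)
    (hgun : ∀ T1 ∈ Icc 0 T, (∀ t ∈ Icc 0 T1, ∀ i ∈ G,
      ‖accOnM m Gᶜ (q t) i‖ ≤ 2 / c ^ 2 ∧ ‖accOnM m Gᶜ (q t) i‖ ≤ A) →
      ∀ i ∈ G, g T1 (q T1 i) < 1) :
    ∀ t ∈ Icc 0 T, (∀ i ∉ G, ‖q t i - (q 0 i + t • v 0 i)‖ ≤ A * t ^ 2) ∧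
      (∀ i ∉ G, ‖v t i - v 0 i‖ ≤ A * t) ∧
      (∀ i ∉ G, ∀ j ∉ G, i ≠ j → s' / 2 ≤ ‖q t i - q t j‖) ∧
      (∀ i ∈ Sl, i ∉ G → ∀ j ∈ Sl, j ∉ G → i ≠ j → s / 2 ≤ ‖q t i - q t j‖) ∧
      (∀ i ∉ G, ∀ j ∈ G, 3 * c / 4 ≤ ‖q t i - q t j‖) ∧
      (∀ i ∈ G, ‖accOnM m Gᶜ (q t) i‖ ≤ 2 / c ^ 2 ∧ ‖accOnM m Gᶜ (q t) i‖ ≤ A) ∧
      (∀ i ∈ G, g t (q t i) < 1) := by
  classical
  have hη : 0 < s' / 4 := by positivity
  have hA0 : 0 ≤ A := by
    have hc0 : 0 < c := lt_of_lt_of_le hs' hc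
    have hs0 : 0 < s := lt_of_lt_of_le hs' hss
    have : 0 ≤ μ * (108 / s' ^ 2 + 3456 / s ^ 3 + 1732 * k / s' ^ 2 + 12 / c ^ 2) + 1 := by
      positivity
    linarith
  set F : Fin N → ℝ → ℝ := fun l t =>
    if l ∈ G then g t (q t l) else ‖q t l - (q 0 l + t • v 0 l)‖ / (s' / 4) with hF
  have hqc : ∀ l, ContinuousOn (fun s => q s l) (Icc 0 T) := fun l s hs =>
    (hsol.dq s hs l).continuousWithinAt
  have hFc : ∀ l, ContinuousOn (F l) (Icc 0 T) := by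
    intro l
    by_cases hl : l ∈ G
    · have : F l = fun t => g t (q t l) := by
        funext t
        simp [hF, hl]
      rw [this]
      exact hg.comp_continuousOn (continuousOn_id.prodMk (hqc l))
    · have : F l = fun t => ‖q t l - (q 0 l + t • v 0 l)‖ / (s' / 4) := by
        funext t
        simp [hF, hl]
      rw [this]
      apply ContinuousOn.div_const
      apply ContinuousOn.norm
      apply (hqc l).sub
      exact (continuous_const.add (continuous_id.smul continuous_const)).continuousOn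
  have hF0 : ∀ l, F l 0 < 1 := by
    intro l
    by_cases hl : l ∈ G
    · simp only [hF, hl, if_true]
      exact hg0 l hl
    · simp only [hF, hl, if_false, zero_smul, add_zero, sub_self, norm_zero, zero_div]
      exact one_pos
  have hrange : ∀ t : ℝ, (∀ u ∈ Set.Icc 0 t, ∀ l, F l u ≤ 1) →
      (∀ u ∈ Set.Icc 0 t, ∀ i ∉ G, ‖q u i - (q 0 i + u • v 0 i)‖ ≤ s' / 4) ∧
      (∀ u ∈ Set.Icc 0 t, ∀ i ∈ G, g u (q u i) ≤ 1) := by
    intro t hFt
    refine ⟨?_, ?_⟩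
    · intro u hu i hi
      have := hFt u hu i
      simp only [hF, hi, if_false] at this
      rwa [div_le_one hη] at this
    · intro u hu i hi
      have := hFt u hu i
      simp only [hF, hi, if_true] at this
      exact this
  have hstep : ∀ t ∈ Icc 0 T, (∀ u ∈ Set.Icc 0 t, ∀ l, F l u ≤ 1) → ∀ u ∈ Icc 0 t,
      (∀ i ∉ G, ‖q u i - (q 0 i + u • v 0 i)‖ ≤ A * u ^ 2) ∧
      (∀ i ∉ G, ‖v u i - v 0 i‖ ≤ A * u) ∧
      (∀ i ∉ G, ∀ j ∉ G, i ≠ j → s' / 2 ≤ ‖q u i - q u j‖) ∧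
      (∀ i ∈ Sl, i ∉ G → ∀ j ∈ Sl, j ∉ G → i ≠ j → s / 2 ≤ ‖q u i - q u j‖) ∧
      (∀ i ∉ G, ∀ j ∈ G, 3 * c / 4 ≤ ‖q u i - q u j‖) ∧
      (∀ i ∈ G, ‖accOnM m Gᶜ (q u) i‖ ≤ 2 / c ^ 2 ∧ ‖accOnM m Gᶜ (q u) i‖ ≤ A) := by
    intro t ht hFt u hu
    obtain ⟨r1, r2⟩ := hrange t hFt
    have hc0 : 0 < c := lt_of_lt_of_le hs' hc
    obtain ⟨a1, a2, a3, a4, a5, a6⟩ := others3_step hm hmμ hμ hsum hs' hss (by linarith) hc0 hG hk
      hcard hsol hslow hfast hA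
      (⟨hu.1, hu.2.trans ht.2⟩ : u ∈ Icc 0 T)
      (fun w hw => r1 w ⟨hw.1, hw.2.trans hu.2⟩)
      (fun w hw i hi => (r1 w ⟨hw.1, hw.2.trans hu.2⟩ i hi).trans (by linarith))
      (fun w hw i hi j hj => by
        have hwt : w ≤ t := hw.2.trans hu.2
        rw [norm_sub_rev]
        exact hclu w ⟨hw.1, hwt.trans ht.2⟩ j hj (q w i) (r2 w ⟨hw.1, hwt⟩ i hi))
    exact ⟨a1, a2, a3, a4, a5, fun i hi => ⟨(a6 i hi).1, (a6 i hi).2 hc⟩⟩
  have key := cont_induct hFc hF0 (by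
    intro t ht hFt l
    have hst := hstep t ht hFt
    by_cases hl : l ∈ G
    · simp only [hF, hl, if_true]
      exact hgun t ht (fun u hu i hi => (hst u hu).2.2.2.2.2 i hi) l hl
    · simp only [hF, hl, if_false]
      rw [div_lt_one hη]
      have e1 := (hst t ⟨ht.1, le_refl _⟩).1 l hl
      have e2 : A * t ^ 2 ≤ A * T ^ 2 :=
        mul_le_mul_of_nonneg_left (pow_le_pow_left₀ ht.1 ht.2 2) hA0
      linarith)
  intro t ht
  have h1 := hstep t ht (fun u hu l => (key u ⟨hu.1, hu.2.trans ht.2⟩ l).le) t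
    ⟨ht.1, le_refl _⟩
  refine ⟨h1.1, h1.2.1, h1.2.2.1, h1.2.2.2.1, h1.2.2.2.2.1, h1.2.2.2.2.2, ?_⟩
  intro i hi
  have h2 := key t ht i
  simp only [hF, hi, if_true] at h2
  exact h2

/-- Bootstrap of the bodies outside the cluster along straight lines; the cluster keeps its distance
from the straight lines. -/
theorem others3 : Others3 4000 := by
  classical
  intro N m μ T s s' d B A k G F q v hm hmμ hμ hsum hs' hss hs2 hd hG hk hcard hsol hfast0 hslow0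
    hA hAs hAd hB h0 hgun
  have hs0 : 0 < s := lt_of_lt_of_le hs' hss
  have hfast : ∀ t ∈ Icc 0 T, ∀ i ∉ G, ∀ j ∉ G, i ≠ j →
      s' ≤ ‖(q 0 i + t • v 0 i) - (q 0 j + t • v 0 j)‖ :=
    fun t ht i hi j hj hij => hfast0 i hi j hj hij t ht
  have hslow : ∀ t ∈ Icc 0 T, ∀ i ∈ Fᶜ, i ∉ G → ∀ j ∈ Fᶜ, j ∉ G → i ≠ j →
      s ≤ ‖(q 0 i + t • v 0 i) - (q 0 j + t • v 0 j)‖ :=
    fun t ht i hiF hi j hjF hj hij => hslow0 i hi (Finset.mem_compl.mp hiF) j hj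
      (Finset.mem_compl.mp hjF) hij t ht
  have hcard' : (((Fᶜ)ᶜ : Finset (Fin N)).card : ℝ) ≤ k ^ 3 := by rw [compl_compl]; exact hcard
  have hA' : μ * (108 / s' ^ 2 + 3456 / s ^ 3 + 1732 * k / s' ^ 2 + 12 / d ^ 2) + 1 ≤ A := by
    refine le_trans ?_ hA
    have e1 : 108 / s' ^ 2 ≤ 108 * (k / s' ^ 2) := by
      rw [← mul_div_assoc]
      apply div_le_div_of_nonneg_right _ (by positivity)
      linarith
    have e2 : 1732 * k / s' ^ 2 = 1732 * (k / s' ^ 2) := by ring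
    have e3 : 3456 / s ^ 3 = 3456 * (1 / s ^ 3) := by ring
    have e4 : 0 ≤ k / s' ^ 2 := by positivity
    have e5 : 0 ≤ 1 / s ^ 3 := by positivity
    have e6 : 108 / s' ^ 2 + 3456 / s ^ 3 + 1732 * k / s' ^ 2 ≤ 4000 * (k / s' ^ 2 + 1 / s ^ 3) := by
      rw [e2, e3]
      linarith
    have e7 := mul_le_mul_of_nonneg_left e6 hμ.le
    have e8 : μ * (108 / s' ^ 2 + 3456 / s ^ 3 + 1732 * k / s' ^ 2 + 12 / d ^ 2) =
        μ * (108 / s' ^ 2 + 3456 / s ^ 3 + 1732 * k / s' ^ 2) + 12 * μ / d ^ 2 := by ring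
    rw [e8]
    linarith
  have hA0 : 0 ≤ A := by
    have : 0 ≤ μ * (108 / s' ^ 2 + 3456 / s ^ 3 + 1732 * k / s' ^ 2 + 12 / d ^ 2) + 1 := by
      positivity
    linarith
  set η : ℝ := min (s' / 4) (d / 4) with hηdef
  have hη : 0 < η := lt_min (by positivity) (by positivity)
  -- the bounds of the step
  have hstep : ∀ t ∈ Icc 0 T,
      (∀ u ∈ Icc 0 t, ∀ i ∉ G, ‖q u i - (q 0 i + u • v 0 i)‖ ≤ η) →
      (∀ u ∈ Icc 0 t, ∀ i ∈ G, ∀ j ∉ G, d ≤ ‖q u i - (q 0 j + u • v 0 j)‖) → ∀ u ∈ Icc 0 t,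
      (∀ i ∉ G, ‖q u i - (q 0 i + u • v 0 i)‖ ≤ A * T ^ 2) ∧
      (∀ i ∉ G, ‖v u i - v 0 i‖ ≤ A * T) ∧
      (∀ i ∉ G, ∀ j ∉ G, i ≠ j → s' / 2 ≤ ‖q u i - q u j‖) ∧
      (∀ i ∉ G, ∀ j ∈ G, d / 2 ≤ ‖q u i - q u j‖) ∧
      (∀ i ∈ G, ‖accOnM m Gᶜ (q u) i‖ ≤ B) := by
    intro t ht r1 r2 u hu
    have huT : u ∈ Icc 0 T := ⟨hu.1, hu.2.trans ht.2⟩
    obtain ⟨a1, a2, a3, a4, a5, a6⟩ := others3_step hm hmμ hμ hsum hs' hss hs2 hd hG hk hcard'
      hsol hslow hfast hA' huT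
      (fun w hw i hi => (r1 w ⟨hw.1, hw.2.trans hu.2⟩ i hi).trans (min_le_left _ _))
      (fun w hw i hi => (r1 w ⟨hw.1, hw.2.trans hu.2⟩ i hi).trans (min_le_right _ _))
      (fun w hw i hi j hj => r2 w ⟨hw.1, hw.2.trans hu.2⟩ i hi j hj)
    refine ⟨fun i hi => (a1 i hi).trans ?_, fun i hi => (a2 i hi).trans ?_, a3,
      fun i hi j hj => ?_, fun i hi => ?_⟩
    · exact mul_le_mul_of_nonneg_left (pow_le_pow_left₀ huT.1 huT.2 2) hA0
    · exact mul_le_mul_of_nonneg_left huT.2 hA0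
    · have := a5 i hi j hj
      linarith
    · rcases hB with hB | ⟨hB1, hB2⟩
      · refine (a6 i hi).1.trans (le_trans ?_ hB)
        apply div_le_div_of_nonneg_right _ (by positivity)
        norm_num
      · exact ((a6 i hi).2 hB1).trans hB2
  set Fc : Fin N ⊕ (Fin N × Fin N) → ℝ → ℝ := fun l t =>
    Sum.elim (fun i => if i ∈ G then 0 else ‖q t i - (q 0 i + t • v 0 i)‖ / η)
      (fun p => if p.1 ∈ G ∧ p.2 ∉ G then 1 + d - ‖q t p.1 - (q 0 p.2 + t • v 0 p.2)‖ else 0) l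
    with hFc
  have hqc : ∀ l, ContinuousOn (fun s => q s l) (Icc 0 T) := fun l s hs =>
    (hsol.dq s hs l).continuousWithinAt
  have hlin : ∀ l, ContinuousOn (fun t : ℝ => q 0 l + t • v 0 l) (Icc 0 T) := fun l =>
    (continuous_const.add (continuous_id.smul continuous_const)).continuousOn
  have hcont : ∀ l, ContinuousOn (Fc l) (Icc 0 T) := by
    rintro (i | ⟨i, j⟩)
    · by_cases hi : i ∈ G
      · simp only [hFc, Sum.elim_inl, hi, if_true]
        exact continuousOn_const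
      · simp only [hFc, Sum.elim_inl, hi, if_false]
        exact (((hqc i).sub (hlin i)).norm).div_const _
    · by_cases hij : i ∈ G ∧ j ∉ G
      · simp only [hFc, Sum.elim_inr, hij, if_true, not_false_eq_true, and_self]
        exact continuousOn_const.sub ((hqc i).sub (hlin j)).norm
      · simp only [hFc, Sum.elim_inr, hij, if_false]
        exact continuousOn_const
  have hF1 : ∀ t i, i ∉ G → (Fc (Sum.inl i) t ≤ 1 ↔ ‖q t i - (q 0 i + t • v 0 i)‖ ≤ η) := by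
    intro t i hi
    simp only [hFc, Sum.elim_inl, hi, if_false]
    exact div_le_one hη
  have hF2 : ∀ t i j, i ∈ G → j ∉ G →
      (Fc (Sum.inr (i, j)) t ≤ 1 ↔ d ≤ ‖q t i - (q 0 j + t • v 0 j)‖) := by
    intro t i j hi hj
    simp only [hFc, Sum.elim_inr, hi, hj, not_false_eq_true, and_self, if_true]
    constructor
    · intro h; linarith
    · intro h; linarith
  have hF0 : ∀ l, Fc l 0 < 1 := by
    rintro (i | ⟨i, j⟩)
    · by_cases hi : i ∈ G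
      · simp only [hFc, Sum.elim_inl, hi, if_true]
        exact one_pos
      · simp only [hFc, Sum.elim_inl, hi, if_false, zero_smul, add_zero, sub_self, norm_zero,
          zero_div]
        exact one_pos
    · by_cases hij : i ∈ G ∧ j ∉ G
      · have e1 := h0 i hij.1 j hij.2
        simp only [hFc, Sum.elim_inr, hij, if_true, not_false_eq_true, and_self, zero_smul,
          add_zero]
        linarith
      · simp only [hFc, Sum.elim_inr, hij, if_false]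
        exact one_pos
  have hrange : ∀ t : ℝ, (∀ u ∈ Set.Icc 0 t, ∀ l, Fc l u ≤ 1) →
      (∀ u ∈ Set.Icc 0 t, ∀ i ∉ G, ‖q u i - (q 0 i + u • v 0 i)‖ ≤ η) ∧
      (∀ u ∈ Set.Icc 0 t, ∀ i ∈ G, ∀ j ∉ G, d ≤ ‖q u i - (q 0 j + u • v 0 j)‖) := by
    intro t hFt
    exact ⟨fun u hu i hi => (hF1 u i hi).1 (hFt u hu (Sum.inl i)),
      fun u hu i hi j hj => (hF2 u i j hi hj).1 (hFt u hu (Sum.inr (i, j)))⟩
  have key := cont_induct hcont hF0 (by
    intro t ht hFt l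
    obtain ⟨r1, r2⟩ := hrange t hFt
    have hst := hstep t ht r1 r2
    rcases l with i | ⟨i, j⟩
    · by_cases hi : i ∈ G
      · simp only [hFc, Sum.elim_inl, hi, if_true]
        exact one_pos
      · simp only [hFc, Sum.elim_inl, hi, if_false]
        rw [div_lt_one hη]
        exact lt_of_le_of_lt ((hst t ⟨ht.1, le_refl _⟩).1 i hi) (lt_min hAs hAd)
    · by_cases hij : i ∈ G ∧ j ∉ G
      · have e1 := hgun t ht (fun u hu i hi => (hst u hu).2.2.2.2 i hi) i hij.1 j hij.2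
        simp only [hFc, Sum.elim_inr, hij, if_true, not_false_eq_true, and_self]
        linarith
      · simp only [hFc, Sum.elim_inr, hij, if_false]
        exact one_pos)
  intro t ht
  obtain ⟨r1, r2⟩ := hrange t (fun u hu l => (key u ⟨hu.1, hu.2.trans ht.2⟩ l).le)
  exact hstep t ht r1 r2 t ⟨ht.1, le_refl _⟩

end Pool.Agent.NBody
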