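import Mathlib
import Pool.Agent.NBody.ThDefsM

/-!
Definitions for the whole energy surface and arbitrary masses (V4).
-/

set_option autoImplicit false
open scoped RealInnerProductSpace
open Set Finset Filter Topology

namespace Pool.Agent.NBody

/-- The prescribed separation of the straight lines of two bodies: the cube (both slow) or the
square (one of them in the set `F` of the fast bodies) is `κ` times the larger mass, where masses
smaller than `1 / N` count as `1 / N`. -/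
noncomputable def sep4 {N : ℕ} (κ : ℝ) (m : Fin N → ℝ) (F : Finset (Fin N)) (i j : Fin N) : ℝ :=
  if i ∈ F ∨ j ∈ F then √(κ * max (1 / (N : ℝ)) (max (m i) (m j)))
  else (κ * max (1 / (N : ℝ)) (max (m i) (m j))) ^ (1 / 3 : ℝ)

theorem sep4_comm {N : ℕ} (κ : ℝ) (m : Fin N → ℝ) (F : Finset (Fin N)) (i j : Fin N) :
    sep4 κ m F i j = sep4 κ m F j i := by
  unfold sep4
  rw [max_comm (m i) (m j)]
  exact if_congr or_comm rfl rfl

theorem sep4_pos {N : ℕ} {κ : ℝ} (hκ : 0 < κ) (m : Fin N → ℝ) (F : Finset (Fin N))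
    (i j : Fin N) : 0 < sep4 κ m F i j := by
  have hN : 0 < N := Fin.pos i
  have hN' : (0 : ℝ) < N := by exact_mod_cast hN
  have h1 : 0 < κ * max (1 / (N : ℝ)) (max (m i) (m j)) :=
    mul_pos hκ (lt_of_lt_of_le (by positivity) (le_max_left _ _))
  unfold sep4
  split_ifs
  · exact Real.sqrt_pos.mpr h1
  · exact Real.rpow_pos_of_pos h1 _

/-- One of the two squares or cubes. -/
theorem sep4_fast {N : ℕ} {κ : ℝ} (hκ : 0 < κ) (m : Fin N → ℝ) {F : Finset (Fin N)}
    {i j : Fin N} (h : i ∈ F ∨ j ∈ F) :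
    sep4 κ m F i j ^ 2 = κ * max (1 / (N : ℝ)) (max (m i) (m j)) := by
  have hN : 0 < N := Fin.pos i
  have hN' : (0 : ℝ) < N := by exact_mod_cast hN
  have h1 : 0 < κ * max (1 / (N : ℝ)) (max (m i) (m j)) :=
    mul_pos hκ (lt_of_lt_of_le (by positivity) (le_max_left _ _))
  unfold sep4
  rw [if_pos h, Real.sq_sqrt h1.le]

theorem sep4_slow {N : ℕ} {κ : ℝ} (hκ : 0 < κ) (m : Fin N → ℝ) {F : Finset (Fin N)}
    {i j : Fin N} (hi : i ∉ F) (hj : j ∉ F) :
    sep4 κ m F i j ^ 3 = κ * max (1 / (N : ℝ)) (max (m i) (m j)) := by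
  have hN : 0 < N := Fin.pos i
  have hN' : (0 : ℝ) < N := by exact_mod_cast hN
  have h1 : 0 < κ * max (1 / (N : ℝ)) (max (m i) (m j)) :=
    mul_pos hκ (lt_of_lt_of_le (by positivity) (le_max_left _ _))
  unfold sep4
  rw [if_neg (by tauto), ← Real.rpow_natCast, ← Real.rpow_mul h1.le]
  norm_num

/-- In all cases the square is at least `κ` times the larger mass (if `κ` and the masses are at
most one). -/
theorem sep4_sq_ge {N : ℕ} {κ : ℝ} (hκ : 0 < κ) (hκ1 : κ ≤ 1) {m : Fin N → ℝ}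
    (hm1 : ∀ i, m i ≤ 1) (F : Finset (Fin N)) (i j : Fin N) :
    κ * max (1 / (N : ℝ)) (max (m i) (m j)) ≤ sep4 κ m F i j ^ 2 := by
  have hN : 0 < N := Fin.pos i
  have hN' : (1 : ℝ) ≤ N := by exact_mod_cast hN
  have h1 : 0 < κ * max (1 / (N : ℝ)) (max (m i) (m j)) :=
    mul_pos hκ (lt_of_lt_of_le (by positivity) (le_max_left _ _))
  have h2 : κ * max (1 / (N : ℝ)) (max (m i) (m j)) ≤ 1 := by
    have h3 : max (1 / (N : ℝ)) (max (m i) (m j)) ≤ 1 :=
      max_le ((div_le_one (by positivity)).mpr hN') (max_le (hm1 i) (hm1 j))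
    have h4 : 0 < max (1 / (N : ℝ)) (max (m i) (m j)) :=
      lt_of_lt_of_le (by positivity) (le_max_left _ _)
    nlinarith
  by_cases h : i ∈ F ∨ j ∈ F
  · exact (sep4_fast hκ m h).ge
  · push Not at h
    have h5 := sep4_slow hκ m h.1 h.2
    have h6 := sep4_pos hκ m F i j
    have h7 : sep4 κ m F i j ≤ 1 := by
      by_contra hlt
      push Not at hlt
      have := one_lt_pow₀ hlt (n := 3) (by norm_num)
      linarith
    rw [← h5]
    nlinarith [pow_pos h6 2]

/-- The separation is at least `√(κ / N)`. -/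
theorem sep4_ge {N : ℕ} {κ : ℝ} (hκ : 0 < κ) (hκ1 : κ ≤ 1) {m : Fin N → ℝ}
    (hm1 : ∀ i, m i ≤ 1) (F : Finset (Fin N)) (i j : Fin N) :
    √(κ / N) ≤ sep4 κ m F i j := by
  apply Real.sqrt_le_iff.mpr
  refine ⟨(sep4_pos hκ m F i j).le, le_trans ?_ (sep4_sq_ge hκ hκ1 hm1 F i j)⟩
  rw [div_eq_mul_one_div]
  exact mul_le_mul_of_nonneg_left (le_max_left _ _) hκ.le

end Pool.Agent.NBody
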