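import Mathlib
import Pool.Agent.NBody.ThPack
import Pool.Agent.NBody.FrontFun

/-!
The force of bodies with arbitrary masses whose mutual distances are bounded below in terms of the
masses.
-/

set_option autoImplicit false
open scoped RealInnerProductSpace
open Set Finset Filter Topology MeasureTheory

namespace Pool.Agent.NBody

/-- Packing of balls of different radii in a ball around a point which is outside of them. -/
theorem f4_packing {ι : Type*} (J : Finset ι) (x : ι → V3) (r : ι → ℝ) {d : ℝ} (hd : 0 ≤ d)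
    (hr : ∀ i ∈ J, 0 < r i) (hsep : ∀ i ∈ J, ∀ j ∈ J, i ≠ j → r i ≤ ‖x i - x j‖)
    (hrx : ∀ i ∈ J, r i ≤ ‖x i‖) (hin : ∀ i ∈ J, ‖x i‖ ≤ d) :
    ∑ i ∈ J, r i ^ 3 ≤ 27 * d ^ 3 := by
  have hfin : Module.finrank ℝ V3 = 3 := by simp
  have hdisj : Set.PairwiseDisjoint (↑J : Set ι) (fun i => Metric.ball (x i) (r i / 2)) := by
    intro i hi j hj hij
    apply Metric.ball_disjoint_ball
    rw [dist_eq_norm]
    have h1 := hsep i hi j hj hij
    have h2 := hsep j hj i hi hij.symm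
    rw [norm_sub_rev] at h2
    linarith
  have h1 : volume (⋃ i ∈ J, Metric.ball (x i) (r i / 2)) =
      ∑ i ∈ J, volume (Metric.ball (x i) (r i / 2)) :=
    measure_biUnion_finset hdisj (fun i _ => Metric.isOpen_ball.measurableSet)
  have h2 : (⋃ i ∈ J, Metric.ball (x i) (r i / 2)) ⊆ Metric.ball (0 : V3) (3 * d / 2) := by
    intro y hy
    simp only [Set.mem_iUnion] at hy
    obtain ⟨i, hi, hy⟩ := hy
    rw [Metric.mem_ball, dist_eq_norm] at hy
    rw [Metric.mem_ball, dist_eq_norm, sub_zero]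
    have h3 : ‖y‖ ≤ ‖y - x i‖ + ‖x i‖ := by
      have := norm_add_le (y - x i) (x i)
      simpa using this
    have h4 := hin i hi
    have h5 := hrx i hi
    linarith
  have h3 := measure_mono h2 (μ := (volume : Measure V3))
  rw [h1] at h3
  have h4 : ∀ y : V3, ∀ t : ℝ, 0 ≤ t → volume (Metric.ball y t) =
      ENNReal.ofReal (t ^ 3) * volume (Metric.ball (0 : V3) 1) := by
    intro y t ht
    have := Measure.addHaar_ball (volume : Measure V3) y ht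
    rw [hfin] at this
    exact this
  have hr2 : ∀ i ∈ J, 0 ≤ r i / 2 := fun i hi => by have := hr i hi; positivity
  rw [h4 0 (3 * d / 2) (by positivity)] at h3
  rw [Finset.sum_congr rfl (fun i hi => h4 (x i) (r i / 2) (hr2 i hi)), ← Finset.sum_mul] at h3
  have hpos : volume (Metric.ball (0 : V3) 1) ≠ 0 :=
    (Metric.measure_ball_pos volume (0 : V3) one_pos).ne'
  have htop : volume (Metric.ball (0 : V3) 1) ≠ ⊤ := measure_ball_lt_top.ne
  have h5 : ∑ i ∈ J, ENNReal.ofReal ((r i / 2) ^ 3) ≤ ENNReal.ofReal ((3 * d / 2) ^ 3) := by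
    by_contra hcon
    push Not at hcon
    have := ENNReal.mul_lt_mul_left hpos htop hcon
    exact absurd h3 (not_le.mpr this)
  have h6 : ∑ i ∈ J, (r i / 2) ^ 3 ≤ (3 * d / 2) ^ 3 := by
    rw [← ENNReal.ofReal_sum_of_nonneg (fun i hi => by have := hr2 i hi; positivity)] at h5
    exact (ENNReal.ofReal_le_ofReal_iff (by positivity)).mp h5
  have h7 : ∑ i ∈ J, (r i / 2) ^ 3 = (∑ i ∈ J, r i ^ 3) / 8 := by
    rw [Finset.sum_div]
    exact Finset.sum_congr rfl (fun i _ => by ring)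
  rw [h7] at h6
  have h8 : (3 * d / 2) ^ 3 = 27 * d ^ 3 / 8 := by ring
  linarith

/-- Vectors which are farther from each other than from the origin: there are at most `27`. -/
theorem f4_near {ι : Type*} (J : Finset ι) (x : ι → V3) (h0 : ∀ i ∈ J, 0 < ‖x i‖)
    (hsep : ∀ i ∈ J, ∀ j ∈ J, i ≠ j → ‖x j‖ ≤ ‖x i - x j‖) : (J.card : ℝ) ≤ 27 := by
  have key : ∀ i ∈ J, ∀ j ∈ J, i ≠ j → ‖x i‖ ≤ ‖x j‖ →
      1 ≤ ‖‖x i‖⁻¹ • x i - ‖x j‖⁻¹ • x j‖ := by
    intro i hi j hj hij hle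
    have ha := h0 i hi
    have hb := h0 j hj
    have h1 := hsep i hi j hj hij
    have h2 : ‖x j‖ ^ 2 ≤ ‖x i - x j‖ ^ 2 := pow_le_pow_left₀ (norm_nonneg _) h1 2
    rw [@norm_sub_sq_real] at h2
    have h3 : ‖‖x i‖⁻¹ • x i - ‖x j‖⁻¹ • x j‖ ^ 2 =
        2 - 2 * (⟪x i, x j⟫ / (‖x i‖ * ‖x j‖)) := by
      rw [@norm_sub_sq_real, norm_smul, norm_smul, norm_inv, norm_inv, norm_norm, norm_norm,
        inv_mul_cancel₀ ha.ne', inv_mul_cancel₀ hb.ne', real_inner_smul_left,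
        real_inner_smul_right]
      field_simp
      ring
    have h4 : ⟪x i, x j⟫ / (‖x i‖ * ‖x j‖) ≤ 1 / 2 := by
      rw [div_le_iff₀ (by positivity)]
      nlinarith
    have h5 : 1 ^ 2 ≤ ‖‖x i‖⁻¹ • x i - ‖x j‖⁻¹ • x j‖ ^ 2 := by
      rw [h3]
      linarith
    exact le_of_sq_le_sq h5 (norm_nonneg _)
  have h1 := packing J (fun i => ‖x i‖⁻¹ • x i) (s := 1) (r := 1) one_pos zero_le_one ?_ ?_
  · refine h1.trans (le_of_eq ?_)
    norm_num
  · intro i hi j hj hij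
    rcases le_total ‖x i‖ ‖x j‖ with h | h
    · exact key i hi j hj hij h
    · have := key j hj i hi hij.symm h
      rw [norm_sub_rev] at this
      exact this
  · intro i hi
    have := h0 i hi
    rw [norm_smul, norm_inv, norm_norm, inv_mul_cancel₀ this.ne']

/-- The far part of a force: the density of the mass is bounded by `C ^ 3`, the total mass is at
most `B ^ 3`. -/
theorem f4_far {ι : Type*} (J : Finset ι) (x : ι → V3) (r w : ι → ℝ) (hw : ∀ i, 0 < w i)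
    {C B : ℝ} (hC : 0 ≤ C) (hB : 0 ≤ B) (hr : ∀ i ∈ J, 0 < r i)
    (hsep : ∀ i ∈ J, ∀ j ∈ J, i ≠ j → r i ≤ ‖x i - x j‖) (hrx : ∀ i ∈ J, r i ≤ ‖x i‖)
    (hwr : ∀ i ∈ J, w i ≤ (C * r i) ^ 3) (hW : ∑ i ∈ J, w i ≤ B ^ 3) :
    ∑ i ∈ J, w i / ‖x i‖ ^ 2 ≤ 27 * C ^ 2 * B := by
  classical
  obtain ⟨cr, hcr⟩ : ∃ cr : ℝ → ℝ, cr = fun t => t ^ (1 / 3 : ℝ) := ⟨_, rfl⟩
  have hcr0 : ∀ t, 0 ≤ t → 0 ≤ cr t := fun t ht => by rw [hcr]; positivity
  have hcrp : ∀ t, 0 < t → 0 < cr t := fun t ht => by rw [hcr]; positivity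
  have hcr3 : ∀ t, 0 ≤ t → cr t ^ 3 = t := fun t ht => by
    rw [hcr]
    simp only
    rw [← Real.rpow_natCast, ← Real.rpow_mul ht]
    norm_num
  have hle3 : ∀ a b : ℝ, 0 ≤ a → 0 ≤ b → a ^ 3 ≤ b ^ 3 → a ≤ b := fun a b ha hb h =>
    le_of_pow_le_pow_left₀ (by norm_num) hb h
  -- cumulative masses
  have hcum : ∀ j ∈ J, ∑ k ∈ J with ‖x k‖ ≤ ‖x j‖, w k ≤ (3 * C * ‖x j‖) ^ 3 := by
    intro j hj
    have h1 : ∑ k ∈ J with ‖x k‖ ≤ ‖x j‖, w k ≤ ∑ k ∈ J with ‖x k‖ ≤ ‖x j‖, C ^ 3 * r k ^ 3 := by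
      apply Finset.sum_le_sum
      intro k hk
      refine (hwr k (Finset.mem_filter.mp hk).1).trans (le_of_eq ?_)
      ring
    have h2 : ∑ k ∈ J with ‖x k‖ ≤ ‖x j‖, r k ^ 3 ≤ 27 * ‖x j‖ ^ 3 := by
      apply f4_packing _ x r (norm_nonneg _)
      · exact fun i hi => hr i (Finset.mem_filter.mp hi).1
      · exact fun i hi k hk hik => hsep i (Finset.mem_filter.mp hi).1 k
          (Finset.mem_filter.mp hk).1 hik
      · exact fun i hi => hrx i (Finset.mem_filter.mp hi).1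
      · exact fun i hi => (Finset.mem_filter.mp hi).2
    rw [← Finset.mul_sum] at h1
    have h3 := mul_le_mul_of_nonneg_left h2 (pow_nonneg hC 3)
    calc _ ≤ C ^ 3 * ∑ k ∈ J with ‖x k‖ ≤ ‖x j‖, r k ^ 3 := h1
      _ ≤ C ^ 3 * (27 * ‖x j‖ ^ 3) := h3
      _ = _ := by ring
  have hcumpos : ∀ j ∈ J, 0 < ∑ k ∈ J with ‖x k‖ ≤ ‖x j‖, w k := fun j hj =>
    Finset.sum_pos (fun k _ => hw k) ⟨j, Finset.mem_filter.mpr ⟨hj, le_rfl⟩⟩
  have htele := tele w (fun j => ‖x j‖) hw (fun t => 1 / cr t ^ 2) (fun t => 3 * cr t) ?_ ?_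
    J.card J rfl
  · have h1 : ∀ j ∈ J, w j / ‖x j‖ ^ 2 ≤
        9 * C ^ 2 * (w j * (1 / cr (∑ k ∈ J with ‖x k‖ ≤ ‖x j‖, w k) ^ 2)) := by
      intro j hj
      have hWp := hcumpos j hj
      have hcp := hcrp _ hWp
      have hxj : 0 < ‖x j‖ := lt_of_lt_of_le (hr j hj) (hrx j hj)
      have h2 : cr (∑ k ∈ J with ‖x k‖ ≤ ‖x j‖, w k) ≤ 3 * C * ‖x j‖ := by
        apply hle3 _ _ hcp.le (by positivity)
        rw [hcr3 _ hWp.le]
        exact hcum j hj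
      have h3 : cr (∑ k ∈ J with ‖x k‖ ≤ ‖x j‖, w k) ^ 2 ≤ 9 * C ^ 2 * ‖x j‖ ^ 2 := by
        refine (pow_le_pow_left₀ hcp.le h2 2).trans (le_of_eq ?_)
        ring
      have h4 : 1 / ‖x j‖ ^ 2 ≤
          9 * C ^ 2 * (1 / cr (∑ k ∈ J with ‖x k‖ ≤ ‖x j‖, w k) ^ 2) := by
        rw [mul_one_div, div_le_div_iff₀ (by positivity) (by positivity)]
        linarith
      have h5 := mul_le_mul_of_nonneg_left h4 (hw j).le
      calc w j / ‖x j‖ ^ 2 = w j * (1 / ‖x j‖ ^ 2) := by ring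
        _ ≤ _ := h5
        _ = _ := by ring
    refine (Finset.sum_le_sum h1).trans ?_
    rw [← Finset.mul_sum]
    have h2 : cr 0 = 0 := by
      rw [hcr]
      simp only
      rw [Real.zero_rpow (by norm_num)]
    simp only [h2, mul_zero, sub_zero] at htele
    have h3 : cr (∑ j ∈ J, w j) ≤ B := by
      have h4 : 0 ≤ ∑ j ∈ J, w j := Finset.sum_nonneg (fun j _ => (hw j).le)
      apply hle3 _ _ (hcr0 _ h4) hB
      rw [hcr3 _ h4]
      exact hW
    have h5 : ∑ j ∈ J, w j * (1 / cr (∑ k ∈ J with ‖x k‖ ≤ ‖x j‖, w k) ^ 2) ≤ 3 * B := by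
      linarith
    have h6 := mul_le_mul_of_nonneg_left h5 (by positivity : 0 ≤ 9 * C ^ 2)
    linarith
  · intro a b ha hab
    have h1 := hcrp a ha
    have h2 : cr a ≤ cr b := by
      apply hle3 _ _ h1.le (hcr0 b (ha.le.trans hab))
      rw [hcr3 a ha.le, hcr3 b (ha.le.trans hab)]
      exact hab
    exact one_div_le_one_div_of_le (by positivity) (pow_le_pow_left₀ h1.le h2 2)
  · intro a b ha hab
    have hb : 0 < b := ha.trans_le hab
    have hβ := hcrp b hb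
    have hα := hcr0 (b - a) (by linarith)
    have h1 := hcr3 b hb.le
    have h2 := hcr3 (b - a) (by linarith)
    have h3 : cr (b - a) ≤ cr b := by
      apply hle3 _ _ hα hβ.le
      rw [h1, h2]
      linarith
    rw [mul_one_div, div_le_iff₀ (by positivity)]
    have h4 : a = cr b ^ 3 - cr (b - a) ^ 3 := by rw [h1, h2]; ring
    have h5 : cr b ^ 3 - cr (b - a) ^ 3 =
        (cr b - cr (b - a)) * (cr b ^ 2 + cr b * cr (b - a) + cr (b - a) ^ 2) := by ring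
    have h6 : cr b ^ 2 + cr b * cr (b - a) + cr (b - a) ^ 2 ≤ 3 * cr b ^ 2 := by nlinarith
    have h7 := mul_le_mul_of_nonneg_left h6 (sub_nonneg.mpr h3)
    calc a = cr b ^ 3 - cr (b - a) ^ 3 := h4
      _ ≤ (cr b - cr (b - a)) * (3 * cr b ^ 2) := by rw [h5]; exact h7
      _ = _ := by ring

/-- The force of bodies with arbitrary masses: slow bodies at mutual distances at least
`(κ max (1 / n) m)^(1/3)`, fast bodies of total mass at most `M` at mutual distances at least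
`(κ max (1 / n) m)^(1/2)`. -/
theorem force4' {ι : Type*} (Sl Fa : Finset ι) (m : ι → ℝ) (hm : ∀ j, 0 < m j) (z : ι → V3)
    (p : V3) {κ n M B : ℝ} (hκ : 0 < κ) (hκ1 : κ ≤ 1) (hn : 1 ≤ n)
    (hSl : ∑ j ∈ Sl, m j ≤ 1) (hFa : ∑ j ∈ Fa, m j ≤ M) (hB : 0 ≤ B) (hMB : n * M ≤ B ^ 3)
    (hs : ∀ j ∈ Sl, ∀ k ∈ Sl, j ≠ k → κ * max (1 / n) (m j) ≤ ‖z j - z k‖ ^ 3)
    (hf : ∀ j ∈ Fa, ∀ k ∈ Fa, j ≠ k → κ * max (1 / n) (m j) ≤ ‖z j - z k‖ ^ 2)
    (hp1 : ∀ j ∈ Sl, κ * max (1 / n) (m j) ≤ ‖p - z j‖ ^ 2)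
    (hp2 : ∀ j ∈ Fa, κ * max (1 / n) (m j) ≤ ‖p - z j‖ ^ 2) :
    ∑ j ∈ Sl, m j / ‖p - z j‖ ^ 2 + ∑ j ∈ Fa, m j / ‖p - z j‖ ^ 2 ≤ (54 + 27 * B) / κ := by
  classical
  have hn0 : 0 < n := by linarith
  obtain ⟨μ, hμ⟩ : ∃ μ : ι → ℝ, μ = fun j => max (1 / n) (m j) := ⟨_, rfl⟩
  have hμn : ∀ j, 1 / n ≤ μ j := fun j => by rw [hμ]; exact le_max_left _ _
  have hμm : ∀ j, m j ≤ μ j := fun j => by rw [hμ]; exact le_max_right _ _
  have hμ0 : ∀ j, 0 < μ j := fun j => lt_of_lt_of_le (by positivity) (hμn j)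
  have hs' : ∀ j ∈ Sl, ∀ k ∈ Sl, j ≠ k → κ * μ j ≤ ‖z j - z k‖ ^ 3 := by rw [hμ]; exact hs
  have hf' : ∀ j ∈ Fa, ∀ k ∈ Fa, j ≠ k → κ * μ j ≤ ‖z j - z k‖ ^ 2 := by rw [hμ]; exact hf
  have hp1' : ∀ j ∈ Sl, κ * μ j ≤ ‖p - z j‖ ^ 2 := by rw [hμ]; exact hp1
  have hp2' : ∀ j ∈ Fa, κ * μ j ≤ ‖p - z j‖ ^ 2 := by rw [hμ]; exact hp2
  have hle3 : ∀ a b : ℝ, 0 ≤ a → 0 ≤ b → a ^ 3 ≤ b ^ 3 → a ≤ b := fun a b ha hb h =>
    le_of_pow_le_pow_left₀ (by norm_num) hb h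
  obtain ⟨cr, hcr⟩ : ∃ cr : ℝ → ℝ, cr = fun t => t ^ (1 / 3 : ℝ) := ⟨_, rfl⟩
  have hcrp : ∀ t, 0 < t → 0 < cr t := fun t ht => by rw [hcr]; positivity
  have hcr3 : ∀ t, 0 ≤ t → cr t ^ 3 = t := fun t ht => by
    rw [hcr]
    simp only
    rw [← Real.rpow_natCast, ← Real.rpow_mul ht]
    norm_num
  -- the slow bodies
  have hslow : ∑ j ∈ Sl, m j / ‖p - z j‖ ^ 2 ≤ 54 / κ := by
    obtain ⟨r, hr⟩ : ∃ r : ι → ℝ, r = fun j => cr (κ * μ j) := ⟨_, rfl⟩
    have hκμ : ∀ j, 0 < κ * μ j := fun j => mul_pos hκ (hμ0 j)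
    have hr0 : ∀ j, 0 < r j := fun j => by rw [hr]; exact hcrp _ (hκμ j)
    have hr3 : ∀ j, r j ^ 3 = κ * μ j := fun j => by rw [hr]; exact hcr3 _ (hκμ j).le
    have hrsep : ∀ i ∈ Sl, ∀ j ∈ Sl, i ≠ j → r i ≤ ‖z i - z j‖ := fun i hi j hj hij =>
      hle3 _ _ (hr0 i).le (norm_nonneg _) (by rw [hr3]; exact hs' i hi j hj hij)
    rw [← Finset.sum_filter_add_sum_filter_not Sl (fun j => r j ≤ ‖p - z j‖)]
    have hfar : ∑ j ∈ Sl with r j ≤ ‖p - z j‖, m j / ‖p - z j‖ ^ 2 ≤ 27 / κ := by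
      have h1 := f4_far (Sl.filter (fun j => r j ≤ ‖p - z j‖)) (fun j => p - z j) r m hm
        (C := cr (1 / κ)) (B := 1) (hcrp _ (by positivity)).le zero_le_one
        (fun j _ => hr0 j) ?_ (fun j hj => (Finset.mem_filter.mp hj).2) ?_ ?_
      · refine h1.trans ?_
        have h2 : 1 ≤ cr (1 / κ) := by
          apply hle3 _ _ zero_le_one (hcrp _ (by positivity)).le
          rw [hcr3 _ (by positivity), one_pow, le_div_iff₀ hκ]
          linarith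
        have h3 : cr (1 / κ) ^ 2 ≤ cr (1 / κ) ^ 3 := pow_le_pow_right₀ h2 (by norm_num)
        rw [hcr3 _ (by positivity)] at h3
        have h4 : 27 / κ = 27 * (1 / κ) := by ring
        rw [h4]
        linarith
      · intro i hi j hj hij
        have h2 := hrsep i (Finset.mem_filter.mp hi).1 j (Finset.mem_filter.mp hj).1 hij
        have h3 : (p - z i) - (p - z j) = -(z i - z j) := by abel
        rw [h3, norm_neg]
        exact h2
      · intro j _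
        rw [mul_pow, hcr3 _ (by positivity), hr3]
        have h2 : 1 / κ * (κ * μ j) = μ j := by field_simp
        rw [h2]
        exact hμm j
      · rw [one_pow]
        refine le_trans ?_ hSl
        exact Finset.sum_le_sum_of_subset_of_nonneg (Finset.filter_subset _ _)
          (fun j _ _ => (hm j).le)
    have hnear : ∑ j ∈ Sl with ¬ r j ≤ ‖p - z j‖, m j / ‖p - z j‖ ^ 2 ≤ 27 / κ := by
      have hx0 : ∀ j ∈ Sl, 0 < ‖p - z j‖ := by
        intro j hj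
        rcases (norm_nonneg (p - z j)).lt_or_eq with h | h
        · exact h
        · exfalso
          have h2 := hp1' j hj
          rw [← h] at h2
          have h3 := hκμ j
          norm_num at h2
          linarith
      have h1 : ∀ j ∈ Sl.filter (fun j => ¬ r j ≤ ‖p - z j‖), m j / ‖p - z j‖ ^ 2 ≤ 1 / κ := by
        intro j hj
        have hjS := (Finset.mem_filter.mp hj).1
        have h2 := hp1' j hjS
        have h3 := hx0 j hjS
        rw [div_le_div_iff₀ (by positivity) hκ, one_mul]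
        have h4 : m j * κ ≤ μ j * κ := mul_le_mul_of_nonneg_right (hμm j) hκ.le
        linarith
      have h2 := f4_near (Sl.filter (fun j => ¬ r j ≤ ‖p - z j‖)) (fun j => p - z j)
        (fun j hj => hx0 j (Finset.mem_filter.mp hj).1) ?_
      · refine (Finset.sum_le_sum h1).trans ?_
        rw [Finset.sum_const, nsmul_eq_mul]
        have h3 : 27 / κ = 27 * (1 / κ) := by ring
        rw [h3]
        exact mul_le_mul_of_nonneg_right h2 (by positivity)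
      · intro i hi j hj hij
        have h3 := hrsep j (Finset.mem_filter.mp hj).1 i (Finset.mem_filter.mp hi).1 hij.symm
        have h4 : (p - z i) - (p - z j) = z j - z i := by abel
        rw [h4]
        have h5 := not_le.mp (Finset.mem_filter.mp hj).2
        linarith
    have h5 : (54 : ℝ) / κ = 27 / κ + 27 / κ := by ring
    rw [h5]
    exact add_le_add hfar hnear
  -- the fast bodies
  have hfast : ∑ j ∈ Fa, m j / ‖p - z j‖ ^ 2 ≤ 27 * B / κ := by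
    obtain ⟨r, hr⟩ : ∃ r : ι → ℝ, r = fun j => √(κ * μ j) := ⟨_, rfl⟩
    have hκμ : ∀ j, 0 < κ * μ j := fun j => mul_pos hκ (hμ0 j)
    have hr0 : ∀ j, 0 < r j := fun j => by rw [hr]; exact Real.sqrt_pos.mpr (hκμ j)
    have hr2 : ∀ j, r j ^ 2 = κ * μ j := fun j => by rw [hr]; exact Real.sq_sqrt (hκμ j).le
    have hle2 : ∀ a b : ℝ, 0 ≤ b → a ^ 2 ≤ b ^ 2 → a ≤ b := fun a b hb h => le_of_sq_le_sq h hb
    obtain ⟨c, hc⟩ : ∃ c : ℝ, c = cr n := ⟨_, rfl⟩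
    have hc0 : 0 < c := by rw [hc]; exact hcrp n hn0
    have hc3 : c ^ 3 = n := by rw [hc]; exact hcr3 n hn0.le
    obtain ⟨C, hC⟩ : ∃ C : ℝ, C = √(c / κ) := ⟨_, rfl⟩
    have hC0 : 0 ≤ C := by rw [hC]; exact Real.sqrt_nonneg _
    have hC2 : C ^ 2 = c / κ := by rw [hC]; exact Real.sq_sqrt (by positivity)
    have hMn : ∑ j ∈ Fa, m j ≤ (B / c) ^ 3 := by
      refine hFa.trans ?_
      rw [div_pow, hc3, le_div_iff₀ hn0]
      linarith
    have h1 := f4_far Fa (fun j => p - z j) r m hm (C := C) (B := B / c) hC0 (by positivity)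
      (fun j _ => hr0 j) ?_ ?_ ?_ hMn
    · refine h1.trans (le_of_eq ?_)
      rw [hC2]
      field_simp
    · intro i hi j hj hij
      have h3 : (p - z i) - (p - z j) = -(z i - z j) := by abel
      rw [h3, norm_neg]
      apply hle2 _ _ (norm_nonneg _)
      rw [hr2]
      exact hf' i hi j hj hij
    · intro j hj
      apply hle2 _ _ (norm_nonneg _)
      rw [hr2]
      exact hp2' j hj
    · intro j _
      have hCr : 0 ≤ C * r j := mul_nonneg hC0 (hr0 j).le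
      apply hle2 _ _ (by positivity)
      have h2 : ((C * r j) ^ 3) ^ 2 = (C ^ 2 * r j ^ 2) ^ 3 := by ring
      rw [h2, hC2, hr2]
      have h3 : (c / κ * (κ * μ j)) ^ 3 = n * μ j ^ 3 := by
        have h4 : c / κ * (κ * μ j) = c * μ j := by field_simp
        rw [h4, mul_pow, hc3]
      rw [h3]
      have h4 : 1 ≤ n * μ j := by
        have := hμn j
        rw [div_le_iff₀ hn0] at this
        linarith
      have h5 : m j ^ 2 ≤ μ j ^ 2 := pow_le_pow_left₀ (hm j).le (hμm j) 2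
      have h6 : μ j ^ 2 * 1 ≤ μ j ^ 2 * (n * μ j) :=
        mul_le_mul_of_nonneg_left h4 (by positivity)
      have h7 : n * μ j ^ 3 = μ j ^ 2 * (n * μ j) := by ring
      rw [h7]
      linarith
  have h8 : (54 + 27 * B) / κ = 54 / κ + 27 * B / κ := by ring
  rw [h8]
  exact add_le_add hslow hfast

/-- N5a. -/
theorem force4 {ι : Type*} [DecidableEq ι] (Sl Fa : Finset ι) (m : ι → ℝ) (hm : ∀ j, 0 < m j)
    (z : ι → V3) (p : V3) {κ n M : ℝ} (hκ : 0 < κ) (hκ1 : κ ≤ 1) (hn : 1 ≤ n) (hM : 0 ≤ M)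
    (hSl : ∑ j ∈ Sl, m j ≤ 1) (hFa : ∑ j ∈ Fa, m j ≤ M)
    (hs : ∀ j ∈ Sl, ∀ k ∈ Sl, j ≠ k → κ * max (1 / n) (m j) ≤ ‖z j - z k‖ ^ 3)
    (hf : ∀ j ∈ Fa, ∀ k ∈ Fa, j ≠ k → κ * max (1 / n) (m j) ≤ ‖z j - z k‖ ^ 2)
    (hp : ∀ j ∈ Sl ∪ Fa, κ * max (1 / n) (m j) ≤ ‖p - z j‖ ^ 2) :
    ∑ j ∈ Sl, m j / ‖p - z j‖ ^ 2 + ∑ j ∈ Fa, m j / ‖p - z j‖ ^ 2 ≤
      (54 + 27 * (n * M) ^ (1 / 3 : ℝ)) / κ := by
  have h0 : 0 ≤ n * M := by positivity
  refine force4' Sl Fa m hm z p hκ hκ1 hn hSl hFa (B := (n * M) ^ (1 / 3 : ℝ)) (by positivity)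
    (le_of_eq ?_) hs hf (fun j hj => hp j (Finset.mem_union_left _ hj))
    (fun j hj => hp j (Finset.mem_union_right _ hj))
  rw [← Real.rpow_natCast, ← Real.rpow_mul h0]
  norm_num

end Pool.Agent.NBody
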