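import Mathlib
import Pool.Agent.NBody.Functional

/-!
Opening a layer around a horizontal plane does not decrease any distance, and the pigeonhole
principle for three close bodies.
-/

set_option autoImplicit false
open scoped RealInnerProductSpace
open Set Finset Filter Topology

namespace Pool.Agent.NBody

/-- the vertical unit vector -/
noncomputable def e3 : V3 := EuclideanSpace.single (2 : Fin 3) (1 : ℝ)

theorem norm_e3 : ‖e3‖ = 1 := by
  unfold e3
  simp

theorem e3_apply_two : e3 2 = 1 := by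
  unfold e3
  simp

theorem inner_e3 (z : V3) : ⟪z, e3⟫ = z 2 := by
  unfold e3
  rw [EuclideanSpace.inner_single_right]
  simp

/-- opening a layer of half-width `ρ` around the plane of height `h` -/
noncomputable def openLayer (h ρ : ℝ) (z : V3) : V3 := if h < z 2 then z + ρ • e3 else z - ρ • e3

theorem openLayer_sub_self {h ρ : ℝ} (hρ : 0 ≤ ρ) (z : V3) : ‖openLayer h ρ z - z‖ ≤ ρ := by
  unfold openLayer
  split_ifs
  · rw [add_sub_cancel_left, norm_smul, norm_e3, mul_one, Real.norm_of_nonneg hρ]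
  · have : z - ρ • e3 - z = -(ρ • e3) := by abel
    rw [this, norm_neg, norm_smul, norm_e3, mul_one, Real.norm_of_nonneg hρ]

theorem openLayer_height {h ρ : ℝ} (hρ : 0 ≤ ρ) (z : V3) : ρ ≤ |openLayer h ρ z 2 - h| := by
  unfold openLayer
  split_ifs with hz
  · have : (z + ρ • e3) 2 = z 2 + ρ := by
      simp [e3]
    rw [this, abs_of_nonneg (by linarith)]
    linarith
  · push Not at hz
    have : (z - ρ • e3) 2 = z 2 - ρ := by
      simp [e3]
    rw [this, abs_sub_comm, abs_of_nonneg (by linarith)]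
    linarith

theorem norm_le_add_smul_e3 {t : ℝ} (ht : 0 ≤ t) {d : V3} (hd : 0 ≤ d 2) :
    ‖d‖ ≤ ‖d + t • e3‖ := by
  have h1 : ‖d + t • e3‖ ^ 2 = ‖d‖ ^ 2 + 2 * (t * d 2) + t ^ 2 := by
    rw [@norm_add_sq_real, inner_smul_right, inner_e3, norm_smul, norm_e3, mul_one,
      Real.norm_eq_abs, sq_abs]
  have h2 : ‖d‖ ^ 2 ≤ ‖d + t • e3‖ ^ 2 := by
    rw [h1]
    have := mul_nonneg ht hd
    nlinarith
  exact (pow_le_pow_iff_left₀ (norm_nonneg _) (norm_nonneg _) two_ne_zero).mp h2

theorem dist_le_openLayer {h ρ : ℝ} (hρ : 0 ≤ ρ) (z w : V3) :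
    ‖z - w‖ ≤ ‖openLayer h ρ z - openLayer h ρ w‖ := by
  have key : ∀ z w : V3, h < z 2 → w 2 ≤ h → ‖z - w‖ ≤ ‖(z + ρ • e3) - (w - ρ • e3)‖ := by
    intro z w hz hw
    have h1 : (z + ρ • e3) - (w - ρ • e3) = (z - w) + (2 * ρ) • e3 := by
      rw [two_mul, add_smul]; abel
    rw [h1]
    apply norm_le_add_smul_e3 (by linarith)
    simp only [PiLp.sub_apply]
    linarith
  unfold openLayer
  split_ifs with hz hw hw
  · apply le_of_eq; congr 1; abel
  · exact key z w hz (not_lt.mp hw)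
  · rw [norm_sub_rev z w, norm_sub_rev (z - ρ • e3)]
    exact key w z hw (not_lt.mp hz)
  · apply le_of_eq; congr 1; abel

/-- Pigeonhole: three bodies whose data differ by at most `η`. -/
theorem exists_three_close {N : ℕ} {κ : Type*} [Fintype κ] (f : Fin N → κ → ℝ) {B η : ℝ}
    (hη : 0 < η) (hB : ∀ i k, |f i k| ≤ B) {K : ℕ} (hK : B / η + 1 ≤ K)
    (hN : (2 * K + 1) ^ (Fintype.card κ) * 2 < N) :
    ∃ a b c : Fin N, a ≠ b ∧ a ≠ c ∧ b ≠ c ∧
      (∀ k, |f a k - f b k| ≤ η) ∧ (∀ k, |f a k - f c k| ≤ η) ∧ (∀ k, |f b k - f c k| ≤ η) := by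
  classical
  set g : Fin N → κ → ℤ := fun i k => ⌊f i k / η⌋ with hg
  set T : Finset (κ → ℤ) := Fintype.piFinset (fun _ => Finset.Icc (-(K:ℤ)) K) with hT
  have hcard : T.card = (2 * K + 1) ^ (Fintype.card κ) := by
    rw [hT, Fintype.card_piFinset]
    simp only [Int.card_Icc, Finset.prod_const, Finset.card_univ]
    congr 1
    omega
  have hmaps : ∀ i ∈ (Finset.univ : Finset (Fin N)), g i ∈ T := by
    intro i _
    rw [hT, Fintype.mem_piFinset]
    intro k
    have h1 := hB i k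
    rw [abs_le] at h1
    have h2 : -(K:ℝ) ≤ f i k / η - 1 := by
      rw [le_sub_iff_add_le, le_div_iff₀ hη]
      have h3 : (B / η + 1) * η ≤ K * η := mul_le_mul_of_nonneg_right hK hη.le
      have h4 : (B / η + 1) * η = B + η := by field_simp
      nlinarith
    have h3 : f i k / η ≤ K := by
      rw [div_le_iff₀ hη]
      have h3 : (B / η + 1) * η ≤ K * η := mul_le_mul_of_nonneg_right hK hη.le
      have h4 : (B / η + 1) * η = B + η := by field_simp
      linarith
    rw [Finset.mem_Icc]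
    constructor
    · have h5 := Int.sub_one_lt_floor (f i k / η)
      have h6 : (-(K:ℤ) : ℝ) < ((⌊f i k / η⌋ : ℤ) : ℝ) := by
        push_cast
        linarith
      have h7 : -(K:ℤ) < ⌊f i k / η⌋ := by exact_mod_cast h6
      exact h7.le
    · have h5 := Int.floor_le (f i k / η)
      have h6 : ((⌊f i k / η⌋ : ℤ) : ℝ) ≤ ((K:ℤ) : ℝ) := by
        push_cast
        linarith
      exact_mod_cast h6
  obtain ⟨y, -, hy⟩ := Finset.exists_lt_card_fiber_of_mul_lt_card_of_maps_to hmaps (n := 2)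
    (by rw [hcard, Finset.card_univ, Fintype.card_fin]; exact hN)
  obtain ⟨a, ha, b, hb, c, hc, hab, hac, hbc⟩ := Finset.two_lt_card.mp hy
  rw [Finset.mem_filter] at ha hb hc
  have key : ∀ i j : Fin N, g i = y → g j = y → ∀ k, |f i k - f j k| ≤ η := by
    intro i j hi hj k
    have h1 : ⌊f i k / η⌋ = ⌊f j k / η⌋ := by
      have : g i k = g j k := by rw [hi, hj]
      exact this
    have h2 := Int.abs_sub_lt_one_of_floor_eq_floor h1
    rw [← sub_div, abs_div, abs_of_pos hη, div_lt_one hη] at h2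
    exact h2.le
  exact ⟨a, b, c, hab, hac, hbc, key a b ha.2 hb.2, key a c ha.2 hc.2, key b c hb.2 hc.2⟩

end Pool.Agent.NBody
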