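import Mathlib
import Pool.Agent.NBody.Infinity
import Pool.Agent.NBody.ThCut

/-!
Energy bookkeeping for equal masses, splitting of sums into gun and rest, balanced kicks.
-/

set_option autoImplicit false
open scoped RealInnerProductSpace
open Set Finset Filter Topology

namespace Pool.Agent.NBody

/-- the bodies which do not belong to the gun -/
def rest {N : ℕ} (g : Fin 3 → Fin N) : Finset (Fin N) := (Finset.univ.image g)ᶜ

theorem mem_rest {N : ℕ} {g : Fin 3 → Fin N} {j : Fin N} : j ∈ rest g ↔ j ∉ Set.range g := by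
  unfold rest
  simp

theorem card_rest {N : ℕ} {g : Fin 3 → Fin N} (hg : Function.Injective g) :
    (rest g).card = N - 3 := by
  unfold rest
  rw [Finset.card_compl, Finset.card_image_of_injective _ hg]
  simp

theorem card_rest_real {N : ℕ} {g : Fin 3 → Fin N} (hg : Function.Injective g) :
    ((rest g).card : ℝ) = (N : ℝ) - 3 := by
  have h1 : (rest g).card + 3 = N := by
    unfold rest
    have := Finset.card_add_card_compl (Finset.univ.image g)
    rw [Finset.card_image_of_injective _ hg] at this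
    simp only [Finset.card_univ, Fintype.card_fin] at this
    omega
  have h2 : ((rest g).card : ℝ) + 3 = N := by exact_mod_cast h1
  linarith

theorem sum_gun_rest {N : ℕ} {M : Type*} [AddCommMonoid M] {g : Fin 3 → Fin N}
    (hg : Function.Injective g) (F : Fin N → M) :
    ∑ i, F i = ∑ k, F (g k) + ∑ j ∈ rest g, F j := by
  unfold rest
  rw [← Finset.sum_add_sum_compl (Finset.univ.image g) F,
    Finset.sum_image (fun a _ b _ h => hg h)]

/-- the double sum of inverse distances -/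
noncomputable def invd {N : ℕ} (q : Fin N → V3) : ℝ := ∑ i, ∑ j, 1 / ‖q i - q j‖

theorem pot_eq_invd {N : ℕ} (hN : 0 < N) (q : Fin N → V3) :
    pot (fun _ => 1 / (N : ℝ)) q = invd q / (2 * (N : ℝ) ^ 2) := by
  have hN' : (N : ℝ) ≠ 0 := by exact_mod_cast hN.ne'
  unfold pot invd
  rw [Finset.sum_div]
  apply Finset.sum_congr rfl
  intro i _
  rw [Finset.sum_div]
  apply Finset.sum_congr rfl
  intro j _
  rcases eq_or_ne (‖q i - q j‖) 0 with h | h
  · rw [h]; simp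
  · field_simp

theorem kin_eq {N : ℕ} (hN : 0 < N) (v : Fin N → V3) :
    kin (fun _ => 1 / (N : ℝ)) ((1 / (N : ℝ)) • v) = (∑ i, ‖v i‖ ^ 2) / (2 * (N : ℝ)) := by
  have hN' : (N : ℝ) ≠ 0 := by exact_mod_cast hN.ne'
  have hN0 : (0 : ℝ) < N := by exact_mod_cast hN
  unfold kin
  rw [Finset.sum_div]
  apply Finset.sum_congr rfl
  intro i _
  rw [Pi.smul_apply, norm_smul, Real.norm_of_nonneg (by positivity)]
  field_simp

/-- splitting of the double sum -/
theorem invd_split {N : ℕ} {g : Fin 3 → Fin N} (hg : Function.Injective g) (q : Fin N → V3) :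
    invd q = ∑ k, ∑ l, 1 / ‖q (g k) - q (g l)‖ + 2 * ∑ k, ∑ j ∈ rest g, 1 / ‖q (g k) - q j‖ +
      ∑ i ∈ rest g, ∑ j ∈ rest g, 1 / ‖q i - q j‖ := by
  unfold invd
  rw [sum_gun_rest hg]
  have h1 : ∀ i, ∑ j, 1 / ‖q i - q j‖ =
      ∑ l, 1 / ‖q i - q (g l)‖ + ∑ j ∈ rest g, 1 / ‖q i - q j‖ := fun i => sum_gun_rest hg _
  simp only [h1]
  rw [Finset.sum_add_distrib, Finset.sum_add_distrib]
  have h2 : ∑ i ∈ rest g, ∑ l, 1 / ‖q i - q (g l)‖ = ∑ k, ∑ j ∈ rest g, 1 / ‖q (g k) - q j‖ := by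
    rw [Finset.sum_comm]
    apply Finset.sum_congr rfl
    intro k _
    apply Finset.sum_congr rfl
    intro j _
    rw [norm_sub_rev]
  rw [h2]
  ring

theorem invd_rest_le {N : ℕ} {g : Fin 3 → Fin N} (hg : Function.Injective g) (q : Fin N → V3) :
    ∑ i ∈ rest g, ∑ j ∈ rest g, 1 / ‖q i - q j‖ ≤ invd q := by
  rw [invd_split hg]
  have h1 : 0 ≤ ∑ k, ∑ l, 1 / ‖q (g k) - q (g l)‖ :=
    Finset.sum_nonneg (fun _ _ => Finset.sum_nonneg (fun _ _ => by positivity))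
  have h2 : 0 ≤ ∑ k, ∑ j ∈ rest g, 1 / ‖q (g k) - q j‖ :=
    Finset.sum_nonneg (fun _ _ => Finset.sum_nonneg (fun _ _ => by positivity))
  linarith

/-- Balanced signs with a nonnegative correlation. -/
theorem exists_signs {ι : Type*} [DecidableEq ι] (J : Finset ι) (x : ι → ℝ) :
    ∃ σ : ι → ℝ, (∀ i, |σ i| ≤ 1) ∧ ∑ i ∈ J, σ i = 0 ∧ 0 ≤ ∑ i ∈ J, σ i * x i ∧
      (J.card : ℝ) - 1 ≤ ∑ i ∈ J, σ i ^ 2 := by
  obtain ⟨A, hAJ, hA⟩ := Finset.exists_subset_card_eq (s := J) (n := J.card / 2) (by omega)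
  obtain ⟨B, hBJ, hB⟩ := Finset.exists_subset_card_eq (s := J \ A) (n := J.card / 2) (by
    rw [Finset.card_sdiff_of_subset hAJ, hA]
    omega)
  have hdisj : ∀ i, i ∈ A → i ∈ B → False := fun i h1 h2 =>
    (Finset.mem_sdiff.mp (hBJ h2)).2 h1
  obtain ⟨σ, hσ⟩ : ∃ σ : ι → ℝ, σ = fun i => (if i ∈ A then (1:ℝ) else 0) - (if i ∈ B then 1 else 0) :=
    ⟨_, rfl⟩
  have habs : ∀ i, |σ i| ≤ 1 := by
    intro i
    rw [hσ]
    simp only
    split_ifs with h1 h2 h2
    · exact absurd (hdisj i h1 h2) not_false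
    · simp
    · simp
    · simp
  have hsum : ∑ i ∈ J, σ i = 0 := by
    rw [hσ, Finset.sum_sub_distrib, Finset.sum_ite_mem, Finset.sum_ite_mem,
      Finset.inter_eq_right.mpr hAJ,
      Finset.inter_eq_right.mpr (hBJ.trans Finset.sdiff_subset)]
    simp [hA, hB]
  have hsq : ∑ i ∈ J, σ i ^ 2 = ((2 * (J.card / 2) : ℕ) : ℝ) := by
    have h1 : ∀ i ∈ J, σ i ^ 2 = (if i ∈ A then (1:ℝ) else 0) + (if i ∈ B then 1 else 0) := by
      intro i _
      rw [hσ]
      simp only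
      split_ifs with h1 h2 h2
      · exact absurd (hdisj i h1 h2) not_false
      · norm_num
      · norm_num
      · norm_num
    rw [Finset.sum_congr rfl h1, Finset.sum_add_distrib, Finset.sum_ite_mem, Finset.sum_ite_mem,
      Finset.inter_eq_right.mpr hAJ,
      Finset.inter_eq_right.mpr (hBJ.trans Finset.sdiff_subset)]
    simp only [Finset.sum_const, hA, hB, nsmul_eq_mul, mul_one]
    push_cast
    ring
  have hcard : (J.card : ℝ) - 1 ≤ ∑ i ∈ J, σ i ^ 2 := by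
    rw [hsq, sub_le_iff_le_add]
    exact_mod_cast (by omega : J.card ≤ 2 * (J.card / 2) + 1)
  rcases le_total 0 (∑ i ∈ J, σ i * x i) with h | h
  · exact ⟨σ, habs, hsum, h, hcard⟩
  · refine ⟨fun i => -σ i, fun i => by rw [abs_neg]; exact habs i, ?_, ?_, ?_⟩
    · rw [Finset.sum_neg_distrib, hsum, neg_zero]
    · simp only [neg_mul, Finset.sum_neg_distrib]
      linarith
    · simpa using hcard

/-- The balanced kick: the velocities change little, the momentum does not change, the gun gets a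
common velocity, and the kinetic energy grows. -/
theorem exists_kick {N : ℕ} {g : Fin 3 → Fin N} (hg : Function.Injective g) (u : Fin N → V3)
    {ε η V : ℝ} (hε : 0 ≤ ε) (hu : ∀ i, ‖u i‖ ≤ V) (hclose : ∀ k l, ‖u (g k) - u (g l)‖ ≤ η) :
    ∃ (w : V3) (v : Fin N → V3), (∀ k, v (g k) = w) ∧ (∀ j ∈ rest g, ‖v j - u j‖ ≤ ε) ∧
      (∀ k, ‖v (g k) - u (g k)‖ ≤ η) ∧ ∑ i, v i = ∑ i, u i ∧
      ∑ i, ‖u i‖ ^ 2 + ε ^ 2 * ((N : ℝ) - 4) - 3 * V ^ 2 ≤ ∑ i, ‖v i‖ ^ 2 := by
  classical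
  obtain ⟨e, he⟩ : ∃ e : V3, e = e3 := ⟨_, rfl⟩
  have hen : ‖e‖ = 1 := by rw [he]; exact norm_e3
  obtain ⟨σ, hσ1, hσ0, hσx, hσ2⟩ := exists_signs (rest g) (fun i => ⟪u i, e⟫)
  set w : V3 := (1 / 3 : ℝ) • ∑ k, u (g k) with hw
  set v : Fin N → V3 := Function.extend g (fun _ => w) (fun j => u j + (ε * σ j) • e) with hv
  have hvg : ∀ k, v (g k) = w := fun k => by rw [hv, hg.extend_apply]
  have hvr : ∀ j ∈ rest g, v j = u j + (ε * σ j) • e := by
    intro j hj
    rw [hv, Function.extend_apply']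
    intro ⟨k, hk⟩
    exact mem_rest.mp hj ⟨k, hk⟩
  refine ⟨w, v, hvg, ?_, ?_, ?_, ?_⟩
  · intro j hj
    rw [hvr j hj, add_sub_cancel_left, norm_smul, hen, mul_one, Real.norm_eq_abs, abs_mul,
      abs_of_nonneg hε]
    have := hσ1 j
    nlinarith
  · intro k
    rw [hvg, hw]
    have h1 : (1 / 3 : ℝ) • ∑ l, u (g l) - u (g k) = (1 / 3 : ℝ) • ∑ l, (u (g l) - u (g k)) := by
      rw [Finset.sum_sub_distrib, smul_sub, Finset.sum_const, Finset.card_univ, Fintype.card_fin,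
        ← Nat.cast_smul_eq_nsmul ℝ, smul_smul]
      norm_num
    rw [h1, norm_smul]
    have h2 : ‖∑ l, (u (g l) - u (g k))‖ ≤ ∑ l : Fin 3, η :=
      (norm_sum_le _ _).trans (Finset.sum_le_sum (fun l _ => hclose l k))
    rw [Finset.sum_const, Finset.card_univ, Fintype.card_fin, nsmul_eq_mul] at h2
    rw [Real.norm_of_nonneg (by norm_num)]
    push_cast at h2
    linarith
  · rw [sum_gun_rest hg v, sum_gun_rest hg u, Finset.sum_congr rfl (fun j hj => hvr j hj),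
      Finset.sum_add_distrib, ← Finset.sum_smul, ← Finset.mul_sum, hσ0, mul_zero, zero_smul,
      add_zero]
    congr 1
    rw [Finset.sum_congr rfl (fun k _ => hvg k), Finset.sum_const, Finset.card_univ,
      Fintype.card_fin, ← Nat.cast_smul_eq_nsmul ℝ, hw, smul_smul]
    norm_num
  · rw [sum_gun_rest hg (fun i => ‖v i‖ ^ 2), sum_gun_rest hg (fun i => ‖u i‖ ^ 2)]
    have h1 : ∀ j ∈ rest g, ‖v j‖ ^ 2 = ‖u j‖ ^ 2 + (2 * ε * (σ j * ⟪u j, e⟫) + ε ^ 2 * σ j ^ 2) := by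
      intro j hj
      rw [hvr j hj, @norm_add_sq_real, inner_smul_right, norm_smul, hen, mul_one,
        Real.norm_eq_abs, sq_abs]
      ring
    rw [Finset.sum_congr rfl h1, Finset.sum_add_distrib, Finset.sum_add_distrib, ← Finset.mul_sum,
      ← Finset.mul_sum]
    have h2 : ∑ k, ‖u (g k)‖ ^ 2 ≤ 3 * V ^ 2 := by
      have h3 : ∑ k, ‖u (g k)‖ ^ 2 ≤ ∑ k : Fin 3, V ^ 2 :=
        Finset.sum_le_sum (fun k _ => pow_le_pow_left₀ (norm_nonneg _) (hu _) 2)
      rw [Finset.sum_const, Finset.card_univ, Fintype.card_fin, nsmul_eq_mul] at h3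
      exact_mod_cast h3
    have h4 : 0 ≤ ∑ k, ‖v (g k)‖ ^ 2 := Finset.sum_nonneg (fun _ _ => by positivity)
    have h5 : 0 ≤ 2 * ε * ∑ j ∈ rest g, σ j * ⟪u j, e⟫ := mul_nonneg (by linarith) hσx
    have h6 : ε ^ 2 * ((N : ℝ) - 4) ≤ ε ^ 2 * ∑ j ∈ rest g, σ j ^ 2 := by
      apply mul_le_mul_of_nonneg_left _ (by positivity)
      rw [card_rest_real hg] at hσ2
      linarith
    linarith

end Pool.Agent.NBody
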