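import Mathlib
import Pool.Agent.NBody.ThDefs
import Pool.Agent.NBody.ThKick

/-!
Construction of a prepared state near a given state: three close bodies become the gun, a layer is
opened around its plane, the other bodies are spread, the velocities get a balanced kick, and the
size of the gun is determined by the energy.
-/

set_option autoImplicit false
open scoped RealInnerProductSpace
open Set Finset Filter Topology

namespace Pool.Agent.NBody

theorem norm_le_of_coord {z : V3} {η : ℝ} (hη : 0 ≤ η) (h : ∀ k, |z k| ≤ η) : ‖z‖ ≤ 2 * η := by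
  have h1 : ‖z‖ ^ 2 ≤ (2 * η) ^ 2 := by
    rw [EuclideanSpace.norm_sq_eq, Fin.sum_univ_three]
    simp only [Real.norm_eq_abs]
    have h0 := pow_le_pow_left₀ (abs_nonneg _) (h 0) 2
    have h1 := pow_le_pow_left₀ (abs_nonneg _) (h 1) 2
    have h2 := pow_le_pow_left₀ (abs_nonneg _) (h 2) 2
    have h3 := sq_nonneg η
    nlinarith
  exact (pow_le_pow_iff_left₀ (norm_nonneg _) (by positivity) two_ne_zero).mp h1

theorem abs_coord_le (z : V3) (k : Fin 3) : |z k| ≤ ‖z‖ := by
  have := PiLp.norm_apply_le z k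
  simpa using this

/-- the hypothesis on spreading, in the form used here -/
def SpreadRest (C₁ : ℝ → ℝ → ℝ) : Prop :=
  ∀ (N : ℕ) (g : Fin 3 → Fin N) (q : Fin N → V3), Function.Injective g → 0 < N →
    (∀ i ∈ rest g, ∀ j ∈ rest g, i ≠ j → q i ≠ q j) →
    ∀ η ε : ℝ, 0 < η → 0 < ε → ε < 1 → ∃ q' : Fin N → V3, (∀ i ∈ rest g, ‖q' i - q i‖ ≤ η) ∧
      (∀ i ∈ rest g, ∀ j ∈ rest g, i ≠ j → C₁ η ε * (N : ℝ) ^ (-(1 / 3) : ℝ) ≤ ‖q' i - q' j‖) ∧
      ∑ i ∈ rest g, ∑ j ∈ rest g, 1 / ‖q' i - q' j‖ ≤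
        ((1 - ε) ^ 2)⁻¹ * ∑ i ∈ rest g, ∑ j ∈ rest g, 1 / ‖q i - q j‖

/-- positions of the prepared state -/
noncomputable def gunPos {N : ℕ} (g : Fin 3 → Fin N) (s : Fin 3 → V3) (z : V3) (q₂ : Fin N → V3)
    (r : ℝ) : Fin N → V3 := Function.extend g (fun k => z + r • s k) q₂

theorem gunPos_gun {N : ℕ} {g : Fin 3 → Fin N} (hg : Function.Injective g) (s : Fin 3 → V3)
    (z : V3) (q₂ : Fin N → V3) (r : ℝ) (k : Fin 3) : gunPos g s z q₂ r (g k) = z + r • s k := by
  unfold gunPos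
  rw [hg.extend_apply]

theorem gunPos_rest {N : ℕ} {g : Fin 3 → Fin N} (s : Fin 3 → V3)
    (z : V3) (q₂ : Fin N → V3) (r : ℝ) {j : Fin N} (hj : j ∈ rest g) :
    gunPos g s z q₂ r j = q₂ j := by
  unfold gunPos
  rw [Function.extend_apply']
  intro ⟨k, hk⟩
  exact mem_rest.mp hj ⟨k, hk⟩

/-- Energy match: the size of the gun is determined by the energy. -/
theorem exists_size {N : ℕ} {g : Fin 3 → Fin N} (hg : Function.Injective g) {s : Fin 3 → V3}
    (hflat : ∀ k, s k 2 = 0) (z : V3) (q₂ : Fin N → V3) {c : ℝ} (hc : 0 < c)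
    (hlay : ∀ j ∈ rest g, c ≤ |q₂ j 2 - z 2|) {Y r₁ r₂ : ℝ} (hr₁ : 0 < r₁) (hr : r₁ ≤ r₂)
    (h1 : Y ≤ (∑ k, ∑ l, 1 / ‖s k - s l‖) / r₁)
    (h2 : (∑ k, ∑ l, 1 / ‖s k - s l‖) / r₂ + 6 * (N : ℝ) / c +
      ∑ i ∈ rest g, ∑ j ∈ rest g, 1 / ‖q₂ i - q₂ j‖ ≤ Y) :
    ∃ r, r₁ ≤ r ∧ r ≤ r₂ ∧ invd (gunPos g s z q₂ r) = Y := by
  have hr₂ : 0 < r₂ := hr₁.trans_le hr
  set u : ℝ := ∑ k, ∑ l, 1 / ‖s k - s l‖ with hu
  set A : ℝ := ∑ i ∈ rest g, ∑ j ∈ rest g, 1 / ‖q₂ i - q₂ j‖ with hA
  set Cr : ℝ → ℝ := fun r => ∑ k, ∑ j ∈ rest g, 1 / ‖z + r • s k - q₂ j‖ with hCr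
  have hdist : ∀ (r : ℝ) (k : Fin 3), ∀ j ∈ rest g, c ≤ ‖z + r • s k - q₂ j‖ := by
    intro r k j hj
    refine (hlay j hj).trans ?_
    have h3 : |(z + r • s k - q₂ j) 2| ≤ ‖z + r • s k - q₂ j‖ := abs_coord_le _ _
    have h4 : (z + r • s k - q₂ j) 2 = z 2 - q₂ j 2 := by
      simp [hflat k]
    rw [h4, abs_sub_comm] at h3
    exact h3
  have hsplit : ∀ r, 0 < r → invd (gunPos g s z q₂ r) = u / r + 2 * Cr r + A := by
    intro r hr0
    rw [invd_split hg]
    congr 1
    · congr 1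
      · rw [hu, Finset.sum_div]
        apply Finset.sum_congr rfl
        intro k _
        rw [Finset.sum_div]
        apply Finset.sum_congr rfl
        intro l _
        rw [gunPos_gun hg, gunPos_gun hg, add_sub_add_left_eq_sub, ← smul_sub, norm_smul,
          Real.norm_of_nonneg hr0.le, one_div, one_div, mul_inv, div_eq_mul_inv]
        ring
      · rw [hCr]
        simp only
        congr 1
        apply Finset.sum_congr rfl
        intro k _
        apply Finset.sum_congr rfl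
        intro j hj
        rw [gunPos_gun hg, gunPos_rest s z q₂ r hj]
    · rw [hA]
      apply Finset.sum_congr rfl
      intro i hi
      apply Finset.sum_congr rfl
      intro j hj
      rw [gunPos_rest s z q₂ r hi, gunPos_rest s z q₂ r hj]
  have hCnn : ∀ r, 0 ≤ Cr r := fun r =>
    Finset.sum_nonneg (fun _ _ => Finset.sum_nonneg (fun _ _ => by positivity))
  have hAnn : 0 ≤ A := Finset.sum_nonneg (fun _ _ => Finset.sum_nonneg (fun _ _ => by positivity))
  have hCle : ∀ r, Cr r ≤ 3 * (N : ℝ) / c := by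
    intro r
    have h3 : ∀ k : Fin 3, ∑ j ∈ rest g, 1 / ‖z + r • s k - q₂ j‖ ≤ (N : ℝ) / c := by
      intro k
      have h4 : ∑ j ∈ rest g, 1 / ‖z + r • s k - q₂ j‖ ≤ ∑ j ∈ rest g, 1 / c :=
        Finset.sum_le_sum (fun j hj => one_div_le_one_div_of_le hc (hdist r k j hj))
      refine h4.trans ?_
      rw [Finset.sum_const, nsmul_eq_mul, card_rest_real hg, mul_one_div]
      apply div_le_div_of_nonneg_right _ hc.le
      linarith
    have h5 : Cr r ≤ ∑ k : Fin 3, (N : ℝ) / c := Finset.sum_le_sum (fun k _ => h3 k)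
    rw [Finset.sum_const, Finset.card_univ, Fintype.card_fin, nsmul_eq_mul] at h5
    refine h5.trans (le_of_eq ?_)
    push_cast
    ring
  have hcont : ContinuousOn (fun r => u / r + 2 * Cr r) (Icc r₁ r₂) := by
    apply ContinuousOn.add
    · apply ContinuousOn.div continuousOn_const continuousOn_id
      intro r hr
      exact (hr₁.trans_le hr.1).ne'
    · apply ContinuousOn.mul continuousOn_const
      apply Continuous.continuousOn
      rw [hCr]
      apply continuous_finsetSum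
      intro k _
      apply continuous_finsetSum
      intro j hj
      apply Continuous.div continuous_const
      · exact ((continuous_const.add (continuous_id.smul continuous_const)).sub
          continuous_const).norm
      · intro r
        exact (hc.trans_le (hdist r k j hj)).ne'
  have hmem : Y - A ∈ Icc (u / r₂ + 2 * Cr r₂) (u / r₁ + 2 * Cr r₁) := by
    constructor
    · have := hCle r₂
      have h6 : 6 * (N : ℝ) / c = 2 * (3 * (N : ℝ) / c) := by ring
      linarith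
    · have := hCnn r₁
      linarith
  obtain ⟨r, hr', hY⟩ := intermediate_value_Icc' hr hcont hmem
  refine ⟨r, hr'.1, hr'.2, ?_⟩
  rw [hsplit r (hr₁.trans_le hr'.1)]
  simp only at hY
  linarith

theorem exists_gun {N : ℕ} (q u : Fin N → V3) {R V η : ℝ} (hη : 0 < η) (hq : ∀ i, ‖q i‖ ≤ R)
    (hu : ∀ i, ‖u i‖ ≤ V) {K : ℕ} (hK : (|R| + |V|) / η + 1 ≤ K)
    (hN : (2 * K + 1) ^ 6 * 2 < N) :
    ∃ g : Fin 3 → Fin N, Function.Injective g ∧ (∀ k l, ‖q (g k) - q (g l)‖ ≤ 2 * η) ∧
      (∀ k l, ‖u (g k) - u (g l)‖ ≤ 2 * η) := by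
  obtain ⟨a, b, c, hab, hac, hbc, h1, h2, h3⟩ := exists_three_close (κ := Fin 3 ⊕ Fin 3)
    (fun i => Sum.elim (fun k => q i k) (fun k => u i k)) (B := |R| + |V|) (η := η) hη (by
      intro i k
      have hR := (hq i).trans (le_abs_self R)
      have hV := (hu i).trans (le_abs_self V)
      have hR0 := abs_nonneg R
      have hV0 := abs_nonneg V
      rcases k with k | k
      · exact ((abs_coord_le (q i) k).trans hR).trans (by linarith)
      · exact ((abs_coord_le (u i) k).trans hV).trans (by linarith)) (K := K) hK (by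
      simpa using hN)
  have hqq : ∀ i j : Fin N, (∀ k : Fin 3 ⊕ Fin 3, |Sum.elim (fun k => q i k) (fun k => u i k) k -
      Sum.elim (fun k => q j k) (fun k => u j k) k| ≤ η) →
      ‖q i - q j‖ ≤ 2 * η ∧ ‖u i - u j‖ ≤ 2 * η := by
    intro i j h
    constructor
    · apply norm_le_of_coord hη.le
      intro k
      have := h (Sum.inl k)
      simpa using this
    · apply norm_le_of_coord hη.le
      intro k
      have := h (Sum.inr k)
      simpa using this
  have hqq' : ∀ i j : Fin N, ‖q i - q j‖ ≤ 2 * η ∧ ‖u i - u j‖ ≤ 2 * η →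
      ‖q j - q i‖ ≤ 2 * η ∧ ‖u j - u i‖ ≤ 2 * η := by
    intro i j h
    rw [norm_sub_rev (q j), norm_sub_rev (u j)]
    exact h
  have hself : ∀ i : Fin N, ‖q i - q i‖ ≤ 2 * η ∧ ‖u i - u i‖ ≤ 2 * η := by
    intro i
    simp only [sub_self, norm_zero]
    constructor <;> linarith
  have hall : ∀ k l : Fin 3, ‖q (![a, b, c] k) - q (![a, b, c] l)‖ ≤ 2 * η ∧
      ‖u (![a, b, c] k) - u (![a, b, c] l)‖ ≤ 2 * η := by
    intro k l
    fin_cases k <;> fin_cases l
    · exact hself a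
    · exact hqq a b h1
    · exact hqq a c h2
    · exact hqq' _ _ (hqq a b h1)
    · exact hself b
    · exact hqq b c h3
    · exact hqq' _ _ (hqq a c h2)
    · exact hqq' _ _ (hqq b c h3)
    · exact hself c
  refine ⟨![a, b, c], ?_, fun k l => (hall k l).1, fun k l => (hall k l).2⟩
  intro k l hkl
  fin_cases k <;> fin_cases l <;> simp_all

end Pool.Agent.NBody
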