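import Mathlib
import Pool.Agent.NBody.ThDefs
import Pool.Agent.NBody.Spread

/-!
Finitely many points can be moved by at most `η` to mutual distance `η ε (100 n) ^ (-1/3)`, and
the Newton energy grows at most by the factor `(1 - ε) ^ (-2)`.
-/

set_option autoImplicit false
open scoped RealInnerProductSpace
open Set Finset Filter Topology Real

namespace Pool.Agent.NBody

theorem spread_fin {n : ℕ} (hn : 0 < n) (m : Fin n → ℝ) (hm : ∀ i, 0 ≤ m i)
    (q : Fin n → V3) (hq : ∀ i j, i ≠ j → q i ≠ q j) (η ε : ℝ)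
    (hη : 0 < η) (hε : 0 < ε) (hε1 : ε < 1) :
    ∃ q' : Fin n → V3, (∀ i, ‖q' i - q i‖ ≤ η) ∧
      (∀ i j, i ≠ j → η * ε * (1 / (100 * (n : ℝ))) ^ (1 / 3 : ℝ) ≤ ‖q' i - q' j‖) ∧
      ∑ i, ∑ j, m i * m j / ‖q' i - q' j‖ ≤
        ((1 - ε) ^ 2)⁻¹ * ∑ i, ∑ j, m i * m j / ‖q i - q j‖ := by
  have hn' : (0 : ℝ) < n := by exact_mod_cast hn
  set b : ℝ := 12 / (ε * η ^ 2) with hbdef
  have hb : 0 < b := by positivity
  set s₀ : ℝ := η * ε * (1 / (100 * (n : ℝ))) ^ (1 / 3 : ℝ) with hs₀def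
  have hs₀ : 0 < s₀ := by positivity
  have hs3 : s₀ ^ 3 = η ^ 3 * ε ^ 3 / (100 * n) := by
    rw [hs₀def, mul_pow, mul_pow, ← Real.rpow_natCast (_ ^ (1 / 3 : ℝ)) 3,
      ← Real.rpow_mul (by positivity)]
    norm_num
    ring
  have h1 : 3 * Real.exp (-b * η ^ 2 / 2) ≤ ε / 2 := by
    have e1 : -b * η ^ 2 / 2 = -(6 / ε) := by
      rw [hbdef]
      field_simp
      ring
    rw [e1, Real.exp_neg]
    have e2 : 6 / ε ≤ Real.exp (6 / ε) := by
      have := Real.add_one_le_exp (6 / ε)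
      linarith
    have e3 : (Real.exp (6 / ε))⁻¹ ≤ (6 / ε)⁻¹ := inv_anti₀ (by positivity) e2
    rw [inv_div] at e3
    linarith
  have h2 : (n : ℝ) * (s₀ ^ 3 * (π * 4 / 3) / gc b) ≤ ε / 2 := by
    have e0 : π / b = π * ε * η ^ 2 / 12 := by
      rw [hbdef]
      field_simp
    have e1 : 8 / 25 * ε * η ≤ √(π / b) := by
      apply Real.le_sqrt_of_sq_le
      rw [e0]
      have hpi := Real.pi_gt_three
      have : ε ^ 2 ≤ ε := by nlinarith
      have h3 : (8 / 25 * ε * η) ^ 2 = 64 / 625 * ε ^ 2 * η ^ 2 := by ring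
      rw [h3]
      have h4 : 64 / 625 * ε ^ 2 ≤ π * ε / 12 := by nlinarith
      have h5 : (0 : ℝ) ≤ η ^ 2 := by positivity
      nlinarith
    have e2 : π * ε * η ^ 2 / 12 * (8 / 25 * ε * η) ≤ gc b := by
      unfold gc
      rw [← e0]
      exact mul_le_mul_of_nonneg_left e1 (by positivity)
    have hg := gc_pos hb
    rw [hs3, ← mul_div_assoc, div_le_iff₀ hg]
    have e3 : (n : ℝ) * (η ^ 3 * ε ^ 3 / (100 * n) * (π * 4 / 3)) =
        ε / 2 * (π * ε * η ^ 2 / 12 * (8 / 25 * ε * η)) := by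
      field_simp
      ring
    rw [e3]
    exact mul_le_mul_of_nonneg_left e2 (by positivity)
  obtain ⟨p, p1, p2, -, p4⟩ := spread_weighted m hm (ε₁ := 0) (d := η) hb hε1 hη.le hs₀ q hq
    (fun _ => ∅) (fun _ => MeasurableSet.empty) le_rfl (fun i => by simp) (by linarith)
  refine ⟨p, p1, fun i j hij => (p2 i j hij).le, ?_⟩
  rw [← inv_pow]
  exact p4

/-- E (module of the theorem on many bodies) -/
theorem spread {ι : Type*} [Fintype ι] [DecidableEq ι] (q : ι → V3)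
    (hq : ∀ i j, i ≠ j → q i ≠ q j) (η ε : ℝ) (hη : 0 < η) (hε : 0 < ε) (hε1 : ε < 1) :
    ∃ q' : ι → V3, (∀ i, ‖q' i - q i‖ ≤ η) ∧
      (∀ i j, i ≠ j →
        η * ε * (1 / (100 * (Fintype.card ι : ℝ))) ^ (1 / 3 : ℝ) ≤ ‖q' i - q' j‖) ∧
      ∑ i, ∑ j, 1 / ‖q' i - q' j‖ ≤ ((1 - ε) ^ 2)⁻¹ * ∑ i, ∑ j, 1 / ‖q i - q j‖ := by
  rcases isEmpty_or_nonempty ι with h | h
  · exact ⟨q, fun i => isEmptyElim i, fun i => isEmptyElim i, by simp⟩
  let e := Fintype.equivFin ι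
  obtain ⟨p, p1, p2, p3⟩ := spread_fin (Fintype.card_pos (α := ι)) (fun _ => 1)
    (fun _ => zero_le_one) (fun i => q (e.symm i))
    (fun i j hij => hq _ _ (e.symm.injective.ne hij)) η ε hη hε hε1
  refine ⟨fun i => p (e i), fun i => ?_, fun i j hij => p2 _ _ (e.injective.ne hij), ?_⟩
  · have := p1 (e i)
    simpa using this
  · have s1 : ∑ i, ∑ j, 1 / ‖p (e i) - p (e j)‖ =
        ∑ i, ∑ j, (1 : ℝ) * 1 / ‖p i - p j‖ := by
      rw [← Equiv.sum_comp e]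
      refine Finset.sum_congr rfl fun i _ => ?_
      rw [← Equiv.sum_comp e]
      simp
    have s2 : ∑ i, ∑ j, 1 / ‖q i - q j‖ =
        ∑ i, ∑ j, (1 : ℝ) * 1 / ‖q (e.symm i) - q (e.symm j)‖ := by
      rw [← Equiv.sum_comp e.symm]
      refine Finset.sum_congr rfl fun i _ => ?_
      rw [← Equiv.sum_comp e.symm]
      simp
    rw [s1, s2]
    exact p3

end Pool.Agent.NBody
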