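import Mathlib
import Pool.Agent.NBody.ThPrep
import Pool.Agent.NBody.ThSpread

/-!
Prepared states for bodies with different masses: pigeonhole among the heavy bodies, kicks with
equal momenta, energy bookkeeping.
-/

set_option autoImplicit false
open scoped RealInnerProductSpace
open Set Finset Filter Topology

namespace Pool.Agent.NBody

/-- Pigeonhole in a set of bodies. -/
theorem exists_three_closeM {N : ℕ} {κ : Type*} [Fintype κ] (H : Finset (Fin N))
    (f : Fin N → κ → ℝ) {B η : ℝ}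
    (hη : 0 < η) (hB : ∀ i ∈ H, ∀ k, |f i k| ≤ B) {K : ℕ} (hK : B / η + 1 ≤ K)
    (hN : (2 * K + 1) ^ (Fintype.card κ) * 2 < H.card) :
    ∃ a ∈ H, ∃ b ∈ H, ∃ c ∈ H, a ≠ b ∧ a ≠ c ∧ b ≠ c ∧
      (∀ k, |f a k - f b k| ≤ η) ∧ (∀ k, |f a k - f c k| ≤ η) ∧ (∀ k, |f b k - f c k| ≤ η) := by
  classical
  set g : Fin N → κ → ℤ := fun i k => ⌊f i k / η⌋ with hg
  set T : Finset (κ → ℤ) := Fintype.piFinset (fun _ => Finset.Icc (-(K:ℤ)) K) with hT
  have hcard : T.card = (2 * K + 1) ^ (Fintype.card κ) := by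
    rw [hT, Fintype.card_piFinset]
    simp only [Int.card_Icc, Finset.prod_const, Finset.card_univ]
    congr 1
    omega
  have hmaps : ∀ i ∈ H, g i ∈ T := by
    intro i hi
    rw [hT, Fintype.mem_piFinset]
    intro k
    have h1 := hB i hi k
    rw [abs_le] at h1
    have h2 : -(K:ℝ) ≤ f i k / η - 1 := by
      rw [le_sub_iff_add_le, le_div_iff₀ hη]
      have h3 : (B / η + 1) * η ≤ K * η := mul_le_mul_of_nonneg_right hK hη.le
      have h4 : (B / η + 1) * η = B + η := by field_simp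
      nlinarith
    have h3 : f i k / η ≤ K := by
      rw [div_le_iff₀ hη]
      have h3 : (B / η + 1) * η ≤ K * η := mul_le_mul_of_nonneg_right hK hη.le
      have h4 : (B / η + 1) * η = B + η := by field_simp
      linarith
    rw [Finset.mem_Icc]
    constructor
    · have h5 := Int.sub_one_lt_floor (f i k / η)
      have h6 : (-(K:ℤ) : ℝ) < ((⌊f i k / η⌋ : ℤ) : ℝ) := by
        push_cast
        linarith
      have h7 : -(K:ℤ) < ⌊f i k / η⌋ := by exact_mod_cast h6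
      exact h7.le
    · have h5 := Int.floor_le (f i k / η)
      have h6 : ((⌊f i k / η⌋ : ℤ) : ℝ) ≤ ((K:ℤ) : ℝ) := by
        push_cast
        linarith
      exact_mod_cast h6
  obtain ⟨y, -, hy⟩ := Finset.exists_lt_card_fiber_of_mul_lt_card_of_maps_to hmaps (n := 2)
    (by rw [hcard]; exact hN)
  obtain ⟨a, ha, b, hb, c, hc, hab, hac, hbc⟩ := Finset.two_lt_card.mp hy
  rw [Finset.mem_filter] at ha hb hc
  have key : ∀ i j : Fin N, g i = y → g j = y → ∀ k, |f i k - f j k| ≤ η := by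
    intro i j hi hj k
    have h1 : ⌊f i k / η⌋ = ⌊f j k / η⌋ := by
      have : g i k = g j k := by rw [hi, hj]
      exact this
    have h2 := Int.abs_sub_lt_one_of_floor_eq_floor h1
    rw [← sub_div, abs_div, abs_of_pos hη, div_lt_one hη] at h2
    exact h2.le
  exact ⟨a, ha.1, b, hb.1, c, hc.1, hab, hac, hbc, key a b ha.2 hb.2, key a c ha.2 hc.2,
    key b c hb.2 hc.2⟩

/-- the heavy bodies -/
noncomputable def heavy {N : ℕ} (m : Fin N → ℝ) : Finset (Fin N) :=
  Finset.univ.filter (fun i => 1 / (2 * (N : ℝ)) ≤ m i)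

theorem card_heavy {N : ℕ} {m : Fin N → ℝ} (hN : 0 < N) (hM : ∑ i, m i = 1) {μ : ℝ}
    (hμ0 : 0 < μ) (hμ : ∀ i, m i ≤ μ) : 1 / (2 * μ) ≤ ((heavy m).card : ℝ) := by
  classical
  have hNr : (0 : ℝ) < N := by exact_mod_cast hN
  have h1 : ∑ i ∈ heavy m, m i + ∑ i ∈ (heavy m)ᶜ, m i = 1 := by
    rw [Finset.sum_add_sum_compl, hM]
  have h2 : ∑ i ∈ (heavy m)ᶜ, m i ≤ 1 / 2 := by
    have h3 : ∑ i ∈ (heavy m)ᶜ, m i ≤ ∑ i ∈ (heavy m)ᶜ, 1 / (2 * (N : ℝ)) := by
      apply Finset.sum_le_sum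
      intro i hi
      rw [Finset.mem_compl, heavy, Finset.mem_filter, not_and] at hi
      exact (not_le.mp (hi (Finset.mem_univ i))).le
    refine h3.trans ?_
    rw [Finset.sum_const, nsmul_eq_mul]
    have h4 : (((heavy m)ᶜ.card : ℕ) : ℝ) ≤ N := by
      have := Finset.card_le_univ (heavy m)ᶜ
      rw [Fintype.card_fin] at this
      exact_mod_cast this
    calc (((heavy m)ᶜ.card : ℕ) : ℝ) * (1 / (2 * (N : ℝ))) ≤ N * (1 / (2 * (N : ℝ))) :=
          mul_le_mul_of_nonneg_right h4 (by positivity)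
      _ = 1 / 2 := by field_simp
  have h5 : ∑ i ∈ heavy m, m i ≤ ((heavy m).card : ℝ) * μ := by
    have h6 : ∑ i ∈ heavy m, m i ≤ ∑ i ∈ heavy m, μ := Finset.sum_le_sum (fun i _ => hμ i)
    rw [Finset.sum_const, nsmul_eq_mul] at h6
    exact h6
  rw [div_le_iff₀ (by positivity)]
  nlinarith

/-- Three heavy bodies which are close in position, velocity and mass. -/
theorem exists_gunM {N : ℕ} {m : Fin N → ℝ} (hN : 0 < N) (hm : ∀ i, 0 < m i)
    (hM : ∑ i, m i = 1) {μ : ℝ} (hμ0 : 0 < μ) (hμ : ∀ i, m i ≤ μ) (q u : Fin N → V3)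
    {R V η η₀ : ℝ} (hη : 0 < η) (hη₀ : 0 < η₀) (hq : ∀ i, ‖q i‖ ≤ R)
    (hu : ∀ i, ‖u i‖ ≤ V) {K : ℕ} (hK : (|R| + |V|) / η + 2 * N * μ / η₀ + 1 ≤ K)
    (hN1 : (2 * (K : ℝ) + 1) ^ 7 * 4 * μ < 1) :
    ∃ g : Fin 3 → Fin N, Function.Injective g ∧ (∀ k l, ‖q (g k) - q (g l)‖ ≤ 2 * η) ∧
      (∀ k l, ‖u (g k) - u (g l)‖ ≤ 2 * η) ∧ (∀ k, 1 / (2 * (N : ℝ)) ≤ m (g k)) ∧
      (∀ k, |m (g k) / m (g 0) - 1| ≤ η₀) := by
  have hNr : (0 : ℝ) < N := by exact_mod_cast hN
  have hR0 := abs_nonneg R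
  have hV0 := abs_nonneg V
  have hcard := card_heavy hN hM hμ0 hμ
  have hlt : (2 * K + 1) ^ 7 * 2 < (heavy m).card := by
    have h1 : (((2 * K + 1) ^ 7 * 2 : ℕ) : ℝ) < ((heavy m).card : ℝ) := by
      refine lt_of_lt_of_le ?_ hcard
      rw [lt_div_iff₀ (by positivity)]
      push_cast
      nlinarith
    exact_mod_cast h1
  obtain ⟨a, ha, b, hb, c, hc, hab, hac, hbc, h1, h2, h3⟩ :=
    exists_three_closeM (κ := (Fin 3 ⊕ Fin 3) ⊕ Unit) (heavy m)
    (fun i => Sum.elim (Sum.elim (fun k => q i k) (fun k => u i k))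
      (fun _ => (N : ℝ) * m i * (2 * η / η₀))) (B := |R| + |V| + N * μ * (2 * η / η₀)) (η := η) hη (by
      intro i _ k
      have hR := (hq i).trans (le_abs_self R)
      have hV := (hu i).trans (le_abs_self V)
      have hx : 0 ≤ N * μ * (2 * η / η₀) := by positivity
      rcases k with (k | k) | k
      · exact ((abs_coord_le (q i) k).trans hR).trans (by linarith)
      · exact ((abs_coord_le (u i) k).trans hV).trans (by linarith)
      · have h4 : (N : ℝ) * m i * (2 * η / η₀) ≤ N * μ * (2 * η / η₀) := by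
          apply mul_le_mul_of_nonneg_right _ (by positivity)
          exact mul_le_mul_of_nonneg_left (hμ i) hNr.le
        have h5 : 0 ≤ (N : ℝ) * m i * (2 * η / η₀) := by
          have := hm i
          positivity
        simp only [Sum.elim_inr]
        rw [abs_of_nonneg h5]
        linarith) (K := K) (by
      refine le_trans (le_of_eq ?_) hK
      field_simp) (by
      simpa using hlt)
  have hqq : ∀ i j : Fin N, i ∈ heavy m → j ∈ heavy m →
      (∀ k : (Fin 3 ⊕ Fin 3) ⊕ Unit, |Sum.elim (Sum.elim (fun k => q i k) (fun k => u i k))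
      (fun _ => (N : ℝ) * m i * (2 * η / η₀)) k - Sum.elim (Sum.elim (fun k => q j k)
      (fun k => u j k)) (fun _ => (N : ℝ) * m j * (2 * η / η₀)) k| ≤ η) →
      ‖q i - q j‖ ≤ 2 * η ∧ ‖u i - u j‖ ≤ 2 * η ∧ |m j / m i - 1| ≤ η₀ := by
    intro i j hi hj h
    refine ⟨?_, ?_, ?_⟩
    · apply norm_le_of_coord hη.le
      intro k
      have := h (Sum.inl (Sum.inl k))
      simpa using this
    · apply norm_le_of_coord hη.le
      intro k
      have := h (Sum.inl (Sum.inr k))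
      simpa using this
    · have h4 := h (Sum.inr ())
      simp only [Sum.elim_inr] at h4
      have ht : 0 < 2 * η / η₀ := by positivity
      rw [← sub_mul, ← mul_sub, abs_mul, abs_mul, abs_of_pos hNr, abs_of_pos ht] at h4
      have h5 : (N : ℝ) * |m i - m j| ≤ η₀ / 2 := by
        have h6 : (N : ℝ) * |m i - m j| * (2 * η / η₀) ≤ η₀ / 2 * (2 * η / η₀) := by
          refine h4.trans (le_of_eq ?_)
          field_simp
        exact le_of_mul_le_mul_right h6 (by positivity)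
      have hmi : 1 / (2 * (N : ℝ)) ≤ m i := by
        rw [heavy, Finset.mem_filter] at hi
        exact hi.2
      have hmi0 := hm i
      have h7 : m j / m i - 1 = (m j - m i) / m i := by field_simp
      rw [h7, abs_div, abs_of_pos hmi0, div_le_iff₀ hmi0, abs_sub_comm]
      have h8 : |m i - m j| ≤ η₀ / 2 / N := by
        rw [le_div_iff₀ hNr]
        linarith
      refine h8.trans ?_
      have h9 : η₀ / 2 / N = η₀ * (1 / (2 * (N : ℝ))) := by field_simp
      rw [h9]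
      exact mul_le_mul_of_nonneg_left hmi hη₀.le
  have hsymm : ∀ i j : Fin N, (∀ k : (Fin 3 ⊕ Fin 3) ⊕ Unit, |Sum.elim (Sum.elim (fun k => q i k)
      (fun k => u i k)) (fun _ => (N : ℝ) * m i * (2 * η / η₀)) k - Sum.elim (Sum.elim
      (fun k => q j k) (fun k => u j k)) (fun _ => (N : ℝ) * m j * (2 * η / η₀)) k| ≤ η) →
      ∀ k : (Fin 3 ⊕ Fin 3) ⊕ Unit, |Sum.elim (Sum.elim (fun k => q j k)
      (fun k => u j k)) (fun _ => (N : ℝ) * m j * (2 * η / η₀)) k - Sum.elim (Sum.elim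
      (fun k => q i k) (fun k => u i k)) (fun _ => (N : ℝ) * m i * (2 * η / η₀)) k| ≤ η := by
    intro i j h k
    rw [abs_sub_comm]
    exact h k
  have hself : ∀ i : Fin N, ‖q i - q i‖ ≤ 2 * η ∧ ‖u i - u i‖ ≤ 2 * η ∧ |m i / m i - 1| ≤ η₀ := by
    intro i
    rw [div_self (hm i).ne']
    simp only [sub_self, norm_zero, abs_zero]
    exact ⟨by linarith, by linarith, hη₀.le⟩
  have hall : ∀ k l : Fin 3, ‖q (![a, b, c] k) - q (![a, b, c] l)‖ ≤ 2 * η ∧
      ‖u (![a, b, c] k) - u (![a, b, c] l)‖ ≤ 2 * η ∧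
      |m (![a, b, c] l) / m (![a, b, c] k) - 1| ≤ η₀ := by
    intro k l
    fin_cases k <;> fin_cases l
    · exact hself a
    · exact hqq a b ha hb h1
    · exact hqq a c ha hc h2
    · exact hqq b a hb ha (hsymm a b h1)
    · exact hself b
    · exact hqq b c hb hc h3
    · exact hqq c a hc ha (hsymm a c h2)
    · exact hqq c b hc hb (hsymm b c h3)
    · exact hself c
  have hheavy : ∀ i ∈ heavy m, 1 / (2 * (N : ℝ)) ≤ m i := by
    intro i hi
    rw [heavy, Finset.mem_filter] at hi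
    exact hi.2
  refine ⟨![a, b, c], ?_, fun k l => (hall k l).1, fun k l => (hall k l).2.1, ?_,
    fun k => (hall 0 k).2.2⟩
  · intro k l hkl
    fin_cases k <;> fin_cases l <;> simp_all
  · intro k
    fin_cases k
    · exact hheavy a ha
    · exact hheavy b hb
    · exact hheavy c hc

/-- Kicks with equal momenta: the velocities change little, the momentum does not change, the gun
gets a common velocity, and the kinetic energy grows. -/
theorem exists_kickM {N : ℕ} {g : Fin 3 → Fin N} (hg : Function.Injective g) {m : Fin N → ℝ}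
    (hm : ∀ i, 0 < m i) {μ : ℝ} (hμ0 : 0 < μ) (hμ : ∀ i, m i ≤ μ) (u : Fin N → V3)
    {ε η V p : ℝ} (hε : 0 ≤ ε) (hp : 0 ≤ p) (H : Finset (Fin N)) (hH : ∀ i ∈ H, p ≤ m i * ε)
    (hu : ∀ i, ‖u i‖ ≤ V) (hclose : ∀ k l, ‖u (g k) - u (g l)‖ ≤ η) :
    ∃ (w : V3) (v : Fin N → V3), (∀ k, v (g k) = w) ∧ (∀ j ∈ rest g, ‖v j - u j‖ ≤ ε) ∧
      (∀ k, ‖v (g k) - u (g k)‖ ≤ η) ∧ ∑ i, m i • v i = ∑ i, m i • u i ∧
      ∑ i, m i * ‖u i‖ ^ 2 + p ^ 2 / μ * ((H.card : ℝ) - 4) - 3 * μ * V ^ 2 ≤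
        ∑ i, m i * ‖v i‖ ^ 2 := by
  classical
  obtain ⟨e, he⟩ : ∃ e : V3, e = e3 := ⟨_, rfl⟩
  have hen : ‖e‖ = 1 := by rw [he]; exact norm_e3
  obtain ⟨σ₀, hσ₀1, hσ₀0, hσ₀x, hσ₀2⟩ := exists_signs (H ∩ rest g) (fun i => ⟪u i, e⟫)
  obtain ⟨σ, hσ⟩ : ∃ σ : Fin N → ℝ, σ = fun i => if i ∈ H then σ₀ i else 0 := ⟨_, rfl⟩
  have hsumσ : ∀ F : Fin N → ℝ → ℝ, (∀ i, F i 0 = 0) →
      ∑ i ∈ rest g, F i (σ i) = ∑ i ∈ H ∩ rest g, F i (σ₀ i) := by
    intro F hF
    have h1 : ∑ i ∈ H ∩ rest g, F i (σ₀ i) = ∑ i ∈ H ∩ rest g, F i (σ i) := by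
      apply Finset.sum_congr rfl
      intro i hi
      rw [hσ]
      simp only
      rw [if_pos (Finset.mem_inter.mp hi).1]
    rw [h1]
    symm
    apply Finset.sum_subset Finset.inter_subset_right
    intro i hi hni
    have h2 : i ∉ H := fun h => hni (Finset.mem_inter.mpr ⟨h, hi⟩)
    rw [hσ]
    simp only
    rw [if_neg h2, hF]
  have hMg : 0 < ∑ k, m (g k) := Finset.sum_pos (fun k _ => hm _) ⟨0, Finset.mem_univ _⟩
  set w : V3 := (∑ k, m (g k))⁻¹ • ∑ k, m (g k) • u (g k) with hw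
  set v : Fin N → V3 := Function.extend g (fun _ => w) (fun j => u j + (p * σ j / m j) • e) with hv
  have hvg : ∀ k, v (g k) = w := fun k => by rw [hv, hg.extend_apply]
  have hvr : ∀ j ∈ rest g, v j = u j + (p * σ j / m j) • e := by
    intro j hj
    rw [hv, Function.extend_apply']
    intro ⟨k, hk⟩
    exact mem_rest.mp hj ⟨k, hk⟩
  refine ⟨w, v, hvg, ?_, ?_, ?_, ?_⟩
  · intro j hj
    have hmj := hm j
    rw [hvr j hj, add_sub_cancel_left, norm_smul, hen, mul_one, Real.norm_eq_abs, abs_div,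
      abs_of_pos hmj, abs_mul, abs_of_nonneg hp, div_le_iff₀ hmj]
    by_cases hjH : j ∈ H
    · have h1 : |σ j| ≤ 1 := by
        rw [hσ]
        simp only
        rw [if_pos hjH]
        exact hσ₀1 j
      have h2 := hH j hjH
      nlinarith
    · have h1 : σ j = 0 := by
        rw [hσ]
        simp only
        rw [if_neg hjH]
      rw [h1, abs_zero, mul_zero]
      positivity
  · intro k
    rw [hvg, hw]
    have h1 : (∑ k, m (g k))⁻¹ • ∑ l, m (g l) • u (g l) - u (g k) =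
        (∑ k, m (g k))⁻¹ • ∑ l, m (g l) • (u (g l) - u (g k)) := by
      simp only [smul_sub]
      rw [Finset.sum_sub_distrib, ← Finset.sum_smul, smul_sub, smul_smul,
        inv_mul_cancel₀ hMg.ne', one_smul]
    rw [h1, norm_smul, norm_inv, Real.norm_of_nonneg hMg.le, inv_mul_le_iff₀ hMg]
    have h2 : ‖∑ l, m (g l) • (u (g l) - u (g k))‖ ≤ ∑ l, m (g l) * η := by
      refine (norm_sum_le _ _).trans (Finset.sum_le_sum (fun l _ => ?_))
      rw [norm_smul, Real.norm_of_nonneg (hm _).le]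
      exact mul_le_mul_of_nonneg_left (hclose l k) (hm _).le
    rw [← Finset.sum_mul] at h2
    exact h2
  · rw [sum_gun_rest hg (fun i => m i • v i), sum_gun_rest hg (fun i => m i • u i)]
    have h1 : ∑ j ∈ rest g, m j • v j = ∑ j ∈ rest g, m j • u j := by
      have h2 : ∀ j ∈ rest g, m j • v j = m j • u j + (p * σ j) • e := by
        intro j hj
        have hmj := (hm j).ne'
        rw [hvr j hj, smul_add, smul_smul]
        congr 2
        field_simp
      rw [Finset.sum_congr rfl h2, Finset.sum_add_distrib, ← Finset.sum_smul, ← Finset.mul_sum,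
        hsumσ (fun _ y => y) (fun _ => rfl), hσ₀0, mul_zero, zero_smul, add_zero]
    rw [h1]
    congr 1
    rw [Finset.sum_congr rfl (fun k _ => by rw [hvg k]), ← Finset.sum_smul, hw, smul_smul,
      mul_inv_cancel₀ hMg.ne', one_smul]
  · rw [sum_gun_rest hg (fun i => m i * ‖v i‖ ^ 2), sum_gun_rest hg (fun i => m i * ‖u i‖ ^ 2)]
    have h1 : ∀ j ∈ rest g, m j * ‖v j‖ ^ 2 =
        m j * ‖u j‖ ^ 2 + (2 * p * (σ j * ⟪u j, e⟫) + p ^ 2 * (σ j ^ 2 / m j)) := by
      intro j hj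
      have hmj := (hm j).ne'
      rw [hvr j hj, @norm_add_sq_real, inner_smul_right, norm_smul, hen, mul_one,
        Real.norm_eq_abs, sq_abs]
      field_simp
      ring
    rw [Finset.sum_congr rfl h1, Finset.sum_add_distrib, Finset.sum_add_distrib, ← Finset.mul_sum,
      ← Finset.mul_sum, hsumσ (fun i y => y * ⟪u i, e⟫) (fun _ => zero_mul _),
      hsumσ (fun i y => y ^ 2 / m i) (fun _ => by simp)]
    have h2 : ∑ k, m (g k) * ‖u (g k)‖ ^ 2 ≤ 3 * μ * V ^ 2 := by
      have h3 : ∑ k, m (g k) * ‖u (g k)‖ ^ 2 ≤ ∑ k : Fin 3, μ * V ^ 2 :=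
        Finset.sum_le_sum (fun k _ => mul_le_mul (hμ _)
          (pow_le_pow_left₀ (norm_nonneg _) (hu _) 2) (by positivity) hμ0.le)
      rw [Finset.sum_const, Finset.card_univ, Fintype.card_fin, nsmul_eq_mul] at h3
      push_cast at h3
      linarith
    have h4 : 0 ≤ ∑ k, m (g k) * ‖v (g k)‖ ^ 2 := Finset.sum_nonneg (fun k _ => by
      have := hm (g k)
      positivity)
    have h5 : 0 ≤ 2 * p * ∑ j ∈ H ∩ rest g, σ₀ j * ⟪u j, e⟫ := mul_nonneg (by linarith) hσ₀x
    have hcardJ : (H.card : ℝ) - 3 ≤ ((H ∩ rest g).card : ℝ) := by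
      have h6 : H.card ≤ (H ∩ rest g).card + 3 := by
        have h7 : H ⊆ (H ∩ rest g) ∪ Finset.univ.image g := by
          intro i hi
          by_cases hir : i ∈ rest g
          · exact Finset.mem_union_left _ (Finset.mem_inter.mpr ⟨hi, hir⟩)
          · apply Finset.mem_union_right
            unfold rest at hir
            rw [Finset.mem_compl, not_not] at hir
            exact hir
        have h8 := (Finset.card_le_card h7).trans (Finset.card_union_le _ _)
        rw [Finset.card_image_of_injective _ hg] at h8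
        simpa using h8
      have h9 : (H.card : ℝ) ≤ ((H ∩ rest g).card : ℝ) + 3 := by exact_mod_cast h6
      linarith
    have h6 : p ^ 2 / μ * ((H.card : ℝ) - 4) ≤ p ^ 2 * ∑ j ∈ H ∩ rest g, σ₀ j ^ 2 / m j := by
      have h7 : ∑ j ∈ H ∩ rest g, σ₀ j ^ 2 / μ ≤ ∑ j ∈ H ∩ rest g, σ₀ j ^ 2 / m j := by
        apply Finset.sum_le_sum
        intro j _
        exact div_le_div_of_nonneg_left (by positivity) (hm j) (hμ j)
      have h8 : p ^ 2 / μ * ((H.card : ℝ) - 4) ≤ p ^ 2 / μ * ∑ j ∈ H ∩ rest g, σ₀ j ^ 2 := by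
        apply mul_le_mul_of_nonneg_left _ (by positivity)
        linarith
      rw [← Finset.sum_div] at h7
      calc p ^ 2 / μ * ((H.card : ℝ) - 4) ≤ p ^ 2 / μ * ∑ j ∈ H ∩ rest g, σ₀ j ^ 2 := h8
        _ = p ^ 2 * ((∑ j ∈ H ∩ rest g, σ₀ j ^ 2) / μ) := by ring
        _ ≤ _ := mul_le_mul_of_nonneg_left h7 (by positivity)
    linarith

end Pool.Agent.NBody
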