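import Mathlib
import Pool.Agent.NBody.ThKickM

/-!
Three bodies of one mass class, slow and close to each other (V4).
-/

set_option autoImplicit false
open scoped RealInnerProductSpace
open Set Finset Filter Topology

namespace Pool.Agent.NBody

/-- Two logarithms closer than half of `η₀` give a quotient close to one. -/
theorem ratio_of_log {a b η₀ : ℝ} (ha : 0 < a) (hb : 0 < b) (hη₀ : 0 < η₀) (hη₁ : η₀ ≤ 1 / 2)
    (h : |Real.log a - Real.log b| ≤ η₀ / 2) : |a / b - 1| ≤ η₀ := by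
  have h1 : a / b = Real.exp (Real.log a - Real.log b) := by
    rw [Real.exp_sub, Real.exp_log ha, Real.exp_log hb]
  rw [h1]
  obtain ⟨h2, h3⟩ := abs_le.mp h
  set t := Real.log a - Real.log b with ht
  have h4 : Real.exp t ≤ 1 + η₀ := by
    have h5 : Real.exp t ≤ Real.exp (η₀ / 2) := Real.exp_le_exp.mpr h3
    have h6 := Real.add_one_le_exp (-(η₀ / 2))
    have h7 : Real.exp (-(η₀ / 2)) * Real.exp (η₀ / 2) = 1 := by
      rw [← Real.exp_add]
      simp
    have h8 : 0 < Real.exp (η₀ / 2) := Real.exp_pos _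
    nlinarith
  have h5 : 1 + t ≤ Real.exp t := by
    have := Real.add_one_le_exp t
    linarith
  rw [abs_le]
  constructor <;> linarith

/-- A large mass class. -/
theorem exists_massClass {N : ℕ} (hN : 0 < N) {m : Fin N → ℝ} (hm : ∀ i, 0 < m i)
    (hm1 : ∀ i, m i ≤ 1) {X : ℝ} (hX0 : 0 ≤ X) (hmX : ∀ i, Real.exp (-X) ≤ m i) {lam : ℝ}
    (hlam : 0 < lam) :
    ∃ C : Finset (Fin N), (N : ℝ) / (X / lam + 1) ≤ (C.card : ℝ) ∧
      ∀ i ∈ C, ∀ j ∈ C, |Real.log (m i) - Real.log (m j)| ≤ lam := by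
  classical
  set f : Fin N → ℕ := fun i => ⌊-Real.log (m i) / lam⌋₊ with hf
  set T : Finset ℕ := Finset.range (⌊X / lam⌋₊ + 1) with hT
  have hl : ∀ i, 0 ≤ -Real.log (m i) ∧ -Real.log (m i) ≤ X := by
    intro i
    constructor
    · have := Real.log_nonpos (hm i).le (hm1 i)
      linarith
    · have h1 := (Real.le_log_iff_exp_le (hm i)).mpr (hmX i)
      linarith
  have hmaps : ∀ i ∈ (Finset.univ : Finset (Fin N)), f i ∈ T := by
    intro i _
    rw [hT, Finset.mem_range, Nat.lt_succ_iff]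
    apply Nat.floor_le_floor
    exact div_le_div_of_nonneg_right (hl i).2 hlam.le
  have hTne : T.Nonempty := ⟨0, by rw [hT, Finset.mem_range]; omega⟩
  have hTcard : (T.card : ℝ) ≤ X / lam + 1 := by
    rw [hT, Finset.card_range]
    push_cast
    have := Nat.floor_le (show 0 ≤ X / lam by positivity)
    linarith
  have hNr : (0 : ℝ) < N := by exact_mod_cast hN
  have hpos : 0 < X / lam + 1 := by positivity
  obtain ⟨y, hy, hcard⟩ := Finset.exists_le_card_fiber_of_nsmul_le_card_of_maps_to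
    (s := (Finset.univ : Finset (Fin N))) (t := T) (f := f) (b := (N : ℝ) / (X / lam + 1))
    hmaps hTne (by
      rw [nsmul_eq_mul, Finset.card_univ, Fintype.card_fin]
      calc (T.card : ℝ) * ((N : ℝ) / (X / lam + 1)) ≤
          (X / lam + 1) * ((N : ℝ) / (X / lam + 1)) :=
            mul_le_mul_of_nonneg_right hTcard (by positivity)
        _ = N := by field_simp)
  refine ⟨Finset.univ.filter (fun i => f i = y), hcard, ?_⟩
  intro i hi j hj
  rw [Finset.mem_filter] at hi hj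
  have e1 := Nat.floor_le (show 0 ≤ -Real.log (m i) / lam from div_nonneg (hl i).1 hlam.le)
  have e2 := Nat.lt_floor_add_one (-Real.log (m i) / lam)
  have e3 := Nat.floor_le (show 0 ≤ -Real.log (m j) / lam from div_nonneg (hl j).1 hlam.le)
  have e4 := Nat.lt_floor_add_one (-Real.log (m j) / lam)
  have e5 : (⌊-Real.log (m i) / lam⌋₊ : ℝ) = (y : ℝ) := by exact_mod_cast hi.2
  have e6 : (⌊-Real.log (m j) / lam⌋₊ : ℝ) = (y : ℝ) := by exact_mod_cast hj.2
  rw [e5] at e1 e2
  rw [e6] at e3 e4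
  rw [le_div_iff₀ hlam] at e1 e3
  rw [div_lt_iff₀ hlam] at e2 e4
  rw [abs_le]
  constructor <;> nlinarith

/-- Three slow bodies of one mass class which are close to each other. -/
theorem exists_gun4 {N : ℕ} {m : Fin N → ℝ} (hm : ∀ i, 0 < m i) (hM : ∑ i, m i = 1) {X : ℝ}
    (hX1 : 1 ≤ X) (hmX : ∀ i, Real.exp (-X) ≤ m i) {U : ℝ} (hU : 0 < U) (u : Fin N → V3)
    (hu : ∑ i, m i * ‖u i‖ ^ 2 ≤ 2 * U) (x : Fin N → V3) {R ρ η₀ : ℝ} (hx : ∀ i, ‖x i‖ ≤ R)
    (hρ : 0 < ρ) (hη₀ : 0 < η₀) (hη₁ : η₀ ≤ 1 / 2) (hX : 2 * (2 * X / η₀ + 1) ≤ X ^ 2) {K : ℕ}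
    (hK : 2 * R / ρ + 1 ≤ K) (hN : (2 * (K : ℝ) + 1) ^ 3 * 4 * (2 * X / η₀ + 1) < N) :
    ∃ g : Fin 3 → Fin N, Function.Injective g ∧ (∀ k l, ‖x (g k) - x (g l)‖ ≤ ρ) ∧
      (∀ k, |m (g k) / m (g 0) - 1| ≤ η₀) ∧ m (g 0) ≤ X ^ 2 / N ∧
      (∀ k, ‖u (g k)‖ ^ 2 ≤ X ^ 4 * (U / m (g 0)) / N) := by
  classical
  set Q : ℝ := 2 * X / η₀ + 1 with hQ
  have hQpos : 0 < Q := by positivity
  have hQ3 : 3 ≤ Q := by
    have h1 : 2 ≤ 2 * X / η₀ := by
      rw [le_div_iff₀ hη₀]
      nlinarith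
    linarith
  have hNr : (0 : ℝ) < N := lt_of_le_of_lt (by positivity) hN
  have hNpos : 0 < N := by exact_mod_cast hNr
  have hm1 : ∀ i, m i ≤ 1 := by
    intro i
    rw [← hM]
    exact Finset.single_le_sum (fun j _ => (hm j).le) (Finset.mem_univ i)
  obtain ⟨C, hC, hlog⟩ := exists_massClass hNpos hm hm1 (by linarith) hmX
    (show 0 < η₀ / 2 by positivity)
  have hXQ : X / (η₀ / 2) + 1 = Q := by
    rw [hQ]
    field_simp
  rw [hXQ] at hC
  have hCpos : (0 : ℝ) < C.card := lt_of_lt_of_le (by positivity) hC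
  have hratio : ∀ i ∈ C, ∀ j ∈ C, |m i / m j - 1| ≤ η₀ := fun i hi j hj =>
    ratio_of_log (hm i) (hm j) hη₀ hη₁ (hlog i hi j hj)
  have hcmp : ∀ i ∈ C, ∀ j ∈ C, m i ≤ 3 / 2 * m j := by
    intro i hi j hj
    have h1 := (abs_le.mp (hratio i hi j hj)).2
    have h2 : m i / m j ≤ 3 / 2 := by linarith
    rwa [div_le_iff₀ (hm j)] at h2
  -- upper bound of the masses
  have hup : ∀ i ∈ C, m i ≤ 3 / 2 * Q / N := by
    intro i hi
    have h1 : (C.card : ℝ) * (2 / 3 * m i) ≤ 1 := by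
      calc (C.card : ℝ) * (2 / 3 * m i) = ∑ _j ∈ C, 2 / 3 * m i := by
            rw [Finset.sum_const, nsmul_eq_mul]
        _ ≤ ∑ j ∈ C, m j := by
            apply Finset.sum_le_sum
            intro j hj
            have := hcmp i hi j hj
            linarith
        _ ≤ ∑ j, m j := Finset.sum_le_sum_of_subset_of_nonneg (Finset.subset_univ _)
            (fun j _ _ => (hm j).le)
        _ = 1 := hM
    have h2 : (N : ℝ) / Q * (2 / 3 * m i) ≤ 1 := by
      refine le_trans ?_ h1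
      apply mul_le_mul_of_nonneg_right hC
      have := hm i
      positivity
    rw [le_div_iff₀ hNr]
    have h3 : (N : ℝ) / Q * (2 / 3 * m i) = (m i * N) * (2 / (3 * Q)) := by
      field_simp
    rw [h3] at h2
    have h4 : (m i * N) * (2 / (3 * Q)) * (3 * Q / 2) ≤ 1 * (3 * Q / 2) :=
      mul_le_mul_of_nonneg_right h2 (by positivity)
    have h5 : (m i * N) * (2 / (3 * Q)) * (3 * Q / 2) = m i * N := by field_simp
    linarith
  -- slow bodies
  obtain ⟨S, hS⟩ : ∃ S : Finset (Fin N), S = C.filter (fun i => m i * ‖u i‖ ^ 2 ≤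
      4 * U / C.card) := ⟨_, rfl⟩
  have hSC : S ⊆ C := by rw [hS]; exact Finset.filter_subset _ _
  have hScard : (C.card : ℝ) / 2 ≤ S.card := by
    have h1 : ((C \ S).card : ℝ) * (4 * U / C.card) ≤ 2 * U := by
      calc ((C \ S).card : ℝ) * (4 * U / C.card) = ∑ _i ∈ C \ S, 4 * U / C.card := by
            rw [Finset.sum_const, nsmul_eq_mul]
        _ ≤ ∑ i ∈ C \ S, m i * ‖u i‖ ^ 2 := by
            apply Finset.sum_le_sum
            intro i hi
            rw [Finset.mem_sdiff, hS, Finset.mem_filter, not_and] at hi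
            exact (not_le.mp (hi.2 hi.1)).le
        _ ≤ ∑ i, m i * ‖u i‖ ^ 2 := Finset.sum_le_sum_of_subset_of_nonneg
            (Finset.subset_univ _) (fun i _ _ => by
              have := hm i
              positivity)
        _ ≤ 2 * U := hu
    have h2 : ((C \ S).card : ℝ) ≤ C.card / 2 := by
      have h3 : ((C \ S).card : ℝ) * (4 * U / C.card) =
          (((C \ S).card : ℝ) * 2 / C.card) * (2 * U) := by ring
      rw [h3] at h1
      have h4 : ((C \ S).card : ℝ) * 2 / C.card ≤ 1 := by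
        by_contra hlt
        push Not at hlt
        nlinarith
      rw [div_le_one hCpos] at h4
      linarith
    have h5 : ((C \ S).card : ℝ) + S.card = C.card := by
      have h6 := Finset.card_sdiff_add_card_eq_card hSC
      exact_mod_cast h6
    linarith
  have hlt : (2 * K + 1) ^ (Fintype.card (Fin 3)) * 2 < S.card := by
    have h1 : (((2 * K + 1) ^ 3 * 2 : ℕ) : ℝ) < (S.card : ℝ) := by
      refine lt_of_lt_of_le ?_ hScard
      push_cast
      have h2 : (N : ℝ) / Q / 2 ≤ C.card / 2 := by linarith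
      refine lt_of_lt_of_le ?_ h2
      rw [div_div, lt_div_iff₀ (by positivity)]
      refine lt_of_le_of_lt (le_of_eq ?_) hN
      ring
    rw [Fintype.card_fin]
    exact_mod_cast h1
  obtain ⟨a, ha, b, hb, c, hc, hab, hac, hbc, h1, h2, h3⟩ :=
    exists_three_closeM (κ := Fin 3) S (fun i k => x i k) (B := R) (η := ρ / 2)
      (by positivity) (fun i _ k => (abs_coord_le (x i) k).trans (hx i)) (K := K) (by
        refine le_trans (le_of_eq ?_) hK
        field_simp) hlt
  have hnorm : ∀ i j : Fin N, (∀ k, |x i k - x j k| ≤ ρ / 2) → ‖x i - x j‖ ≤ ρ := by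
    intro i j h
    have h4 := norm_le_of_coord (z := x i - x j) (η := ρ / 2) (by positivity) (by
      intro k
      have := h k
      simpa using this)
    linarith
  have hsymm : ∀ i j : Fin N, ‖x i - x j‖ ≤ ρ → ‖x j - x i‖ ≤ ρ := by
    intro i j h
    rwa [norm_sub_rev]
  have H1 := hnorm a b h1
  have H2 := hnorm a c h2
  have H3 := hnorm b c h3
  have hmemS : ∀ k, (![a, b, c] : Fin 3 → Fin N) k ∈ S := by
    intro k
    fin_cases k
    · exact ha
    · exact hb
    · exact hc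
  have hmemC : ∀ k, (![a, b, c] : Fin 3 → Fin N) k ∈ C := fun k => hSC (hmemS k)
  refine ⟨![a, b, c], ?_, ?_, ?_, ?_, ?_⟩
  · intro k l hkl
    fin_cases k <;> fin_cases l <;> simp_all
  · intro k l
    fin_cases k <;> fin_cases l
    · simp [hρ.le]
    · exact H1
    · exact H2
    · exact hsymm _ _ H1
    · simp [hρ.le]
    · exact H3
    · exact hsymm _ _ H2
    · exact hsymm _ _ H3
    · simp [hρ.le]
  · exact fun k => hratio _ (hmemC k) _ (hmemC 0)
  · refine (hup _ (hmemC 0)).trans ?_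
    apply div_le_div_of_nonneg_right _ hNr.le
    linarith
  · intro k
    set i := (![a, b, c] : Fin 3 → Fin N) k with hi
    set j := (![a, b, c] : Fin 3 → Fin N) 0 with hj
    have hiS : i ∈ S := hmemS k
    have h4 : m i * ‖u i‖ ^ 2 ≤ 4 * U / C.card := by
      rw [hS, Finset.mem_filter] at hiS
      exact hiS.2
    have h5 : 4 * U / C.card ≤ 4 * U * Q / N := by
      rw [div_le_div_iff₀ hCpos hNr]
      have h6 : (N : ℝ) ≤ C.card * Q := by
        rwa [div_le_iff₀ hQpos] at hC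
      have h7 : 4 * U * N ≤ 4 * U * (C.card * Q) := mul_le_mul_of_nonneg_left h6 (by positivity)
      linarith
    have h6 : m j ≤ 3 / 2 * m i := hcmp _ (hmemC 0) _ (hmemC k)
    have hmi := hm i
    have hmj := hm j
    have h7 : m j * ‖u i‖ ^ 2 ≤ 6 * U * Q / N := by
      calc m j * ‖u i‖ ^ 2 ≤ (3 / 2 * m i) * ‖u i‖ ^ 2 :=
            mul_le_mul_of_nonneg_right h6 (by positivity)
        _ = 3 / 2 * (m i * ‖u i‖ ^ 2) := by ring
        _ ≤ 3 / 2 * (4 * U * Q / N) := by linarith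
        _ = 6 * U * Q / N := by ring
    have h8 : 6 * Q ≤ X ^ 4 := by
      have h9 : 6 * Q ≤ (2 * Q) * (2 * Q) := by nlinarith
      have h10 : (2 * Q) * (2 * Q) ≤ X ^ 2 * X ^ 2 := mul_le_mul hX hX (by positivity)
        (by positivity)
      calc 6 * Q ≤ (2 * Q) * (2 * Q) := h9
        _ ≤ X ^ 2 * X ^ 2 := h10
        _ = X ^ 4 := by ring
    have h9 : ‖u i‖ ^ 2 ≤ 6 * U * Q / N / m j := by
      rw [le_div_iff₀ hmj]
      linarith
    refine h9.trans ?_
    have h10 : 6 * U * Q / N / m j = (6 * Q) * (U / m j / N) := by ring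
    have h11 : X ^ 4 * (U / m j) / N = X ^ 4 * (U / m j / N) := by ring
    rw [h10, h11]
    exact mul_le_mul_of_nonneg_right h8 (by positivity)

end Pool.Agent.NBody
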