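import Mathlib
import Pool.Agent.NBody.ThDefsM
import Pool.Agent.NBody.ThBootM1

/-!
Bootstrap of the bodies outside a small cluster along straight lines, with arbitrary separations of
the pairs and a static bound of the forces as a hypothesis.
-/

set_option autoImplicit false
open scoped RealInnerProductSpace
open Set Finset Filter Topology

namespace Pool.Agent.NBody

/-- The acceleration in terms of the inverse squares of the distances. -/
theorem norm_accOnM_le {ι : Type*} {m : ι → ℝ} (hm : ∀ i, 0 ≤ m i) {J : Finset ι} {q : ι → V3}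
    {i : ι} (h : ∀ j ∈ J, q j ≠ q i) :
    ‖accOnM m J q i‖ ≤ ∑ j ∈ J, m j / ‖q j - q i‖ ^ 2 := by
  unfold accOnM
  refine (norm_sum_le _ _).trans (le_of_eq ?_)
  refine Finset.sum_congr rfl fun j hj => ?_
  rw [norm_term (hm j) _ (sub_ne_zero.mpr (h j hj)), mul_one_div]

/-- The bounds for the bodies outside the cluster as long as they stay near their straight lines,
with a static bound of the forces. -/
theorem others_gen_step {N : ℕ} {m : Fin N → ℝ} {T σ c A0 A B MG : ℝ} {G : Finset (Fin N)}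
    {sep : Fin N → Fin N → ℝ} {q v : ℝ → Fin N → V3} (hm : ∀ i, 0 ≤ m i)
    (hsum : ∑ i, m i ≤ 1)
    (hσs : ∀ i ∉ G, ∀ j ∉ G, i ≠ j → σ ≤ sep i j) (hc0 : 0 < c) (hG : ∑ i ∈ G, m i ≤ MG)
    (hsol : IsSolM m T (fun _ _ => 0) q v)
    (hl : ∀ i ∉ G, ∀ j ∉ G, i ≠ j → ∀ t ∈ Icc (0 : ℝ) T,
      sep i j ≤ ‖(q 0 i + t • v 0 i) - (q 0 j + t • v 0 j)‖)
    (hF : ∀ z : Fin N → V3, (∀ i ∉ G, ∀ j ∉ G, i ≠ j → sep i j / 2 ≤ ‖z i - z j‖) →
      ∀ i ∉ G, ‖accOnM m (Gᶜ.erase i) z i‖ ≤ A0)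
    (hA0 : 0 ≤ A) (hA : A0 + 4 * MG / c ^ 2 ≤ A)
    (hB : 4 / c ^ 2 ≤ B ∨ ∀ z : Fin N → V3,
      (∀ i ∉ G, ∀ j ∉ G, i ≠ j → sep i j / 2 ≤ ‖z i - z j‖) →
      (∀ i ∉ G, ∀ j ∈ G, 3 * c / 4 ≤ ‖z i - z j‖) → ∀ i ∈ G, ‖accOnM m Gᶜ z i‖ ≤ B)
    {t : ℝ} (ht : t ∈ Icc 0 T)
    (h1 : ∀ u ∈ Icc 0 t, ∀ i ∉ G, ‖q u i - (q 0 i + u • v 0 i)‖ ≤ σ / 4)
    (h1' : ∀ u ∈ Icc 0 t, ∀ i ∉ G, ‖q u i - (q 0 i + u • v 0 i)‖ ≤ c / 4)
    (h2 : ∀ u ∈ Icc 0 t, ∀ i ∈ G, ∀ j ∉ G, c ≤ ‖q u i - (q 0 j + u • v 0 j)‖) :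
    (∀ i ∉ G, ‖q t i - (q 0 i + t • v 0 i)‖ ≤ A * t ^ 2) ∧
      (∀ i ∉ G, ‖v t i - v 0 i‖ ≤ A * t) ∧
      (∀ i ∉ G, ∀ j ∉ G, i ≠ j → sep i j / 2 ≤ ‖q t i - q t j‖) ∧
      (∀ i ∉ G, ∀ j ∈ G, 3 * c / 4 ≤ ‖q t i - q t j‖) ∧
      (∀ i ∈ G, ‖accOnM m Gᶜ (q t) i‖ ≤ B) := by
  classical
  have hMG : 0 ≤ MG := (Finset.sum_nonneg fun i _ => hm i).trans hG
  have htri : ∀ (x y x' y' : V3), ‖x' - y'‖ ≤ ‖x - y‖ + ‖x - x'‖ + ‖y - y'‖ := by
    intro x y x' y'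
    have : x' - y' = (x - y) - (x - x') + (y - y') := by abel
    rw [this]
    exact (norm_add_le _ _).trans (add_le_add_left (norm_sub_le _ _) _)
  have hmemT : ∀ u ∈ Icc 0 t, u ∈ Icc 0 T := fun u hu => ⟨hu.1, hu.2.trans ht.2⟩
  have hsepF : ∀ u ∈ Icc 0 t, ∀ i ∉ G, ∀ j ∉ G, i ≠ j → sep i j / 2 ≤ ‖q u i - q u j‖ := by
    intro u hu i hi j hj hij
    have e1 := h1 u hu i hi
    have e2 := h1 u hu j hj
    have e3 := hl i hi j hj hij u (hmemT u hu)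
    have e4 := htri (q u i) (q u j) (q 0 i + u • v 0 i) (q 0 j + u • v 0 j)
    have e5 := hσs i hi j hj hij
    linarith
  have hsepG : ∀ u ∈ Icc 0 t, ∀ i ∉ G, ∀ j ∈ G, 3 * c / 4 ≤ ‖q u i - q u j‖ := by
    intro u hu i hi j hj
    have e1 := h1' u hu i hi
    have e2 := h2 u hu j hj i hi
    rw [norm_sub_rev] at e2
    have e3 := htri (q u i) (q u j) (q 0 i + u • v 0 i) (q u j)
    rw [sub_self, norm_zero, add_zero] at e3
    linarith
  have hext : ∀ u ∈ Icc 0 t, ∀ i ∈ G, ‖accOnM m Gᶜ (q u) i‖ ≤ B := by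
    intro u hu i hi
    rcases hB with hB | hB
    · have e1 := norm_accOnM_far hm (J := Gᶜ) (q := q u) (i := i) (d := 3 * c / 4) (by positivity)
        (fun j hj => hsepG u hu j (Finset.mem_compl.mp hj) i hi)
      refine e1.trans ?_
      have e3 : ∑ j ∈ Gᶜ, m j ≤ 1 :=
        (Finset.sum_le_sum_of_subset_of_nonneg (Finset.subset_univ _)
          (fun j _ _ => hm j)).trans hsum
      have e4 : 1 / (3 * c / 4) ^ 2 ≤ 4 / c ^ 2 := by
        rw [div_le_div_iff₀ (by positivity) (by positivity)]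
        nlinarith [sq_nonneg c]
      calc (∑ j ∈ Gᶜ, m j) * (1 / (3 * c / 4) ^ 2) ≤ 1 * (1 / (3 * c / 4) ^ 2) :=
            mul_le_mul_of_nonneg_right e3 (by positivity)
        _ ≤ 4 / c ^ 2 := by rw [one_mul]; exact e4
        _ ≤ B := hB
    · exact hB (q u) (hsepF u hu) (hsepG u hu) i hi
  have hacc : ∀ u ∈ Icc 0 t, ∀ i ∉ G, ‖accM m (q u) i‖ ≤ A := by
    intro u hu i hi
    have e0 : accM m (q u) i = accOnM m G (q u) i + accOnM m (Gᶜ.erase i) (q u) i := by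
      rw [accM_eq m G (q u) i]
      congr 1
      unfold accOnM
      rw [← Finset.sum_erase_add Gᶜ _ (Finset.mem_compl.mpr hi)]
      simp
    rw [e0]
    have e1 := norm_accOnM_far hm (J := G) (q := q u) (i := i) (d := 3 * c / 4) (by positivity)
      (fun j hj => by rw [norm_sub_rev]; exact hsepG u hu i hi j hj)
    have e2 := hF (q u) (hsepF u hu) i hi
    have e4 : (∑ j ∈ G, m j) * (1 / (3 * c / 4) ^ 2) ≤ 4 * MG / c ^ 2 := by
      have e6 : 1 / (3 * c / 4) ^ 2 ≤ 4 / c ^ 2 := by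
        rw [div_le_div_iff₀ (by positivity) (by positivity)]
        nlinarith [sq_nonneg c]
      calc (∑ j ∈ G, m j) * (1 / (3 * c / 4) ^ 2) ≤ MG * (4 / c ^ 2) :=
            mul_le_mul hG e6 (by positivity) hMG
        _ = 4 * MG / c ^ 2 := by ring
    refine (norm_add_le _ _).trans ?_
    linarith
  have hvel : ∀ u ∈ Icc 0 t, ∀ i ∉ G, ‖v u i - v 0 i‖ ≤ A * u := by
    intro u hu i hi
    have e1 := Convex.norm_image_sub_le_of_norm_hasDerivWithin_le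
      (f := fun s => v s i) (f' := fun s => accM m (q s) i + 0) (C := A) (s := Icc 0 t)
      (x := 0) (y := u)
      (fun s hs => (hsol.dv s (hmemT s hs) i).mono (Set.Icc_subset_Icc_right ht.2))
      (fun s hs => by simpa using hacc s hs i hi) (convex_Icc 0 t)
      ⟨le_refl _, ht.1⟩ hu
    rw [sub_zero, Real.norm_of_nonneg hu.1] at e1
    exact e1
  have hpos : ∀ i ∉ G, ‖q t i - (q 0 i + t • v 0 i)‖ ≤ A * t ^ 2 := by
    intro i hi
    have e1 := Convex.norm_image_sub_le_of_norm_hasDerivWithin_le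
      (f := fun s => q s i - s • v 0 i) (f' := fun s => v s i - v 0 i) (C := A * t)
      (s := Icc 0 t) (x := 0) (y := t)
      (fun s hs => by
        have e2 := (hsol.dq s (hmemT s hs) i).mono (Set.Icc_subset_Icc_right ht.2)
        have e3 : HasDerivWithinAt (fun s : ℝ => s • v 0 i) (v 0 i) (Icc 0 t) s := by
          have := (hasDerivWithinAt_id s (Icc 0 t)).smul_const (v 0 i)
          simpa using this
        exact e2.sub e3)
      (fun s hs => by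
        have e2 := hvel s hs i hi
        exact e2.trans (mul_le_mul_of_nonneg_left hs.2 hA0)) (convex_Icc 0 t)
      ⟨le_refl _, ht.1⟩ ⟨ht.1, le_refl _⟩
    simp only [zero_smul, sub_zero] at e1
    rw [Real.norm_of_nonneg ht.1] at e1
    have e4 : q t i - (q 0 i + t • v 0 i) = q t i - t • v 0 i - q 0 i := by abel
    rw [e4]
    refine e1.trans (le_of_eq ?_)
    ring
  have htt : t ∈ Icc 0 t := ⟨ht.1, le_refl _⟩
  exact ⟨hpos, hvel t htt, hsepF t htt, hsepG t htt, hext t htt⟩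

/-- Bootstrap of the bodies outside the cluster along straight lines, with arbitrary separations of
the pairs and a static bound of the forces. -/
theorem others_gen {N : ℕ} {m : Fin N → ℝ} {T σ d A0 A B MG : ℝ} {G : Finset (Fin N)}
    {sep : Fin N → Fin N → ℝ} {q v : ℝ → Fin N → V3} (hm : ∀ i, 0 ≤ m i)
    (hsum : ∑ i, m i ≤ 1) (hσ : 0 < σ)
    (hσs : ∀ i ∉ G, ∀ j ∉ G, i ≠ j → σ ≤ sep i j) (hd : 0 < d) (hG : ∑ i ∈ G, m i ≤ MG)
    (hsol : IsSolM m T (fun _ _ => 0) q v)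
    (hl : ∀ i ∉ G, ∀ j ∉ G, i ≠ j → ∀ t ∈ Icc (0 : ℝ) T,
      sep i j ≤ ‖(q 0 i + t • v 0 i) - (q 0 j + t • v 0 j)‖)
    (hF : ∀ z : Fin N → V3, (∀ i ∉ G, ∀ j ∉ G, i ≠ j → sep i j / 2 ≤ ‖z i - z j‖) →
      ∀ i ∉ G, ‖accOnM m (Gᶜ.erase i) z i‖ ≤ A0)
    (hA : A0 + 4 * MG / d ^ 2 ≤ A) (hAs : A * T ^ 2 < σ / 4) (hAd : A * T ^ 2 < d / 4)
    (hB : 4 / d ^ 2 ≤ B ∨ ∀ z : Fin N → V3,
      (∀ i ∉ G, ∀ j ∉ G, i ≠ j → sep i j / 2 ≤ ‖z i - z j‖) →
      (∀ i ∉ G, ∀ j ∈ G, 3 * d / 4 ≤ ‖z i - z j‖) → ∀ i ∈ G, ‖accOnM m Gᶜ z i‖ ≤ B)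
    (h0 : ∀ i ∈ G, ∀ j ∉ G, d < ‖q 0 i - q 0 j‖)
    (hgun : ∀ T1 ∈ Icc (0 : ℝ) T,
      (∀ t ∈ Icc (0 : ℝ) T1, ∀ i ∈ G, ‖accOnM m Gᶜ (q t) i‖ ≤ B) →
      ∀ i ∈ G, ∀ j ∉ G, d < ‖q T1 i - (q 0 j + T1 • v 0 j)‖) :
    ∀ t ∈ Icc (0 : ℝ) T,
      (∀ i ∉ G, ‖q t i - (q 0 i + t • v 0 i)‖ ≤ A * T ^ 2) ∧
      (∀ i ∉ G, ‖v t i - v 0 i‖ ≤ A * T) ∧
      (∀ i ∉ G, ∀ j ∉ G, i ≠ j → sep i j / 2 ≤ ‖q t i - q t j‖) ∧
      (∀ i ∉ G, ∀ j ∈ G, d / 2 ≤ ‖q t i - q t j‖) ∧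
      (∀ i ∈ G, ‖accOnM m Gᶜ (q t) i‖ ≤ B) := by
  classical
  by_cases hT : 0 ≤ T
  swap
  · intro t ht
    exact absurd (ht.1.trans ht.2) hT
  have hMG : 0 ≤ MG := (Finset.sum_nonneg fun i _ => hm i).trans hG
  -- a body outside the cluster, if there is one, shows that `A` is not negative
  have hA0 : ∀ i ∉ G, 0 ≤ A := by
    intro i hi
    have e1 := hF (q 0) (fun i hi j hj hij => by
      have e2 := hl i hi j hj hij 0 ⟨le_refl _, hT⟩
      simp only [zero_smul, add_zero] at e2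
      have e3 := hσs i hi j hj hij
      linarith) i hi
    have e2 : 0 ≤ 4 * MG / d ^ 2 := by positivity
    have e3 := norm_nonneg (accOnM m (Gᶜ.erase i) (q 0) i)
    linarith
  by_cases hne : ∃ i, i ∉ G
  swap
  · push Not at hne
    intro t ht
    refine ⟨fun i hi => absurd (hne i) hi, fun i hi => absurd (hne i) hi,
      fun i hi => absurd (hne i) hi, fun i hi => absurd (hne i) hi, fun i hi => ?_⟩
    have hGc : Gᶜ = (∅ : Finset (Fin N)) := by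
      ext j
      simp [hne j]
    have h3 : accOnM m Gᶜ (q t) i = 0 := by
      unfold accOnM
      rw [hGc, Finset.sum_empty]
    rcases hB with hB | hB
    · rw [h3, norm_zero]
      exact le_trans (by positivity) hB
    · exact hB (q t) (fun i hi => absurd (hne i) hi) (fun i hi => absurd (hne i) hi) i hi
  obtain ⟨i1, hi1⟩ := hne
  have hA0' : 0 ≤ A := hA0 i1 hi1
  set η : ℝ := min (σ / 4) (d / 4) with hηdef
  have hη : 0 < η := lt_min (by positivity) (by positivity)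
  -- the bounds of the step
  have hstep : ∀ t ∈ Icc 0 T,
      (∀ u ∈ Icc 0 t, ∀ i ∉ G, ‖q u i - (q 0 i + u • v 0 i)‖ ≤ η) →
      (∀ u ∈ Icc 0 t, ∀ i ∈ G, ∀ j ∉ G, d ≤ ‖q u i - (q 0 j + u • v 0 j)‖) → ∀ u ∈ Icc 0 t,
      (∀ i ∉ G, ‖q u i - (q 0 i + u • v 0 i)‖ ≤ A * T ^ 2) ∧
      (∀ i ∉ G, ‖v u i - v 0 i‖ ≤ A * T) ∧
      (∀ i ∉ G, ∀ j ∉ G, i ≠ j → sep i j / 2 ≤ ‖q u i - q u j‖) ∧
      (∀ i ∉ G, ∀ j ∈ G, d / 2 ≤ ‖q u i - q u j‖) ∧
      (∀ i ∈ G, ‖accOnM m Gᶜ (q u) i‖ ≤ B) := by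
    intro t ht r1 r2 u hu
    have huT : u ∈ Icc 0 T := ⟨hu.1, hu.2.trans ht.2⟩
    obtain ⟨a1, a2, a3, a5, a6⟩ := others_gen_step hm hsum hσs hd hG hsol hl hF hA0' hA hB huT
      (fun w hw i hi => (r1 w ⟨hw.1, hw.2.trans hu.2⟩ i hi).trans (min_le_left _ _))
      (fun w hw i hi => (r1 w ⟨hw.1, hw.2.trans hu.2⟩ i hi).trans (min_le_right _ _))
      (fun w hw i hi j hj => r2 w ⟨hw.1, hw.2.trans hu.2⟩ i hi j hj)
    refine ⟨fun i hi => (a1 i hi).trans ?_, fun i hi => (a2 i hi).trans ?_, a3,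
      fun i hi j hj => ?_, a6⟩
    · exact mul_le_mul_of_nonneg_left (pow_le_pow_left₀ huT.1 huT.2 2) hA0'
    · exact mul_le_mul_of_nonneg_left huT.2 hA0'
    · have := a5 i hi j hj
      linarith
  set Fc : Fin N ⊕ (Fin N × Fin N) → ℝ → ℝ := fun l t =>
    Sum.elim (fun i => if i ∈ G then 0 else ‖q t i - (q 0 i + t • v 0 i)‖ / η)
      (fun p => if p.1 ∈ G ∧ p.2 ∉ G then 1 + d - ‖q t p.1 - (q 0 p.2 + t • v 0 p.2)‖ else 0) l
    with hFc
  have hqc : ∀ l, ContinuousOn (fun s => q s l) (Icc 0 T) := fun l s hs =>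
    (hsol.dq s hs l).continuousWithinAt
  have hlin : ∀ l, ContinuousOn (fun t : ℝ => q 0 l + t • v 0 l) (Icc 0 T) := fun l =>
    (continuous_const.add (continuous_id.smul continuous_const)).continuousOn
  have hcont : ∀ l, ContinuousOn (Fc l) (Icc 0 T) := by
    rintro (i | ⟨i, j⟩)
    · by_cases hi : i ∈ G
      · simp only [hFc, Sum.elim_inl, hi, if_true]
        exact continuousOn_const
      · simp only [hFc, Sum.elim_inl, hi, if_false]
        exact (((hqc i).sub (hlin i)).norm).div_const _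
    · by_cases hij : i ∈ G ∧ j ∉ G
      · simp only [hFc, Sum.elim_inr, hij, if_true, not_false_eq_true, and_self]
        exact continuousOn_const.sub ((hqc i).sub (hlin j)).norm
      · simp only [hFc, Sum.elim_inr, hij, if_false]
        exact continuousOn_const
  have hF1 : ∀ t i, i ∉ G → (Fc (Sum.inl i) t ≤ 1 ↔ ‖q t i - (q 0 i + t • v 0 i)‖ ≤ η) := by
    intro t i hi
    simp only [hFc, Sum.elim_inl, hi, if_false]
    exact div_le_one hη
  have hF2 : ∀ t i j, i ∈ G → j ∉ G →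
      (Fc (Sum.inr (i, j)) t ≤ 1 ↔ d ≤ ‖q t i - (q 0 j + t • v 0 j)‖) := by
    intro t i j hi hj
    simp only [hFc, Sum.elim_inr, hi, hj, not_false_eq_true, and_self, if_true]
    constructor
    · intro h; linarith
    · intro h; linarith
  have hF0 : ∀ l, Fc l 0 < 1 := by
    rintro (i | ⟨i, j⟩)
    · by_cases hi : i ∈ G
      · simp only [hFc, Sum.elim_inl, hi, if_true]
        exact one_pos
      · simp only [hFc, Sum.elim_inl, hi, if_false, zero_smul, add_zero, sub_self, norm_zero,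
          zero_div]
        exact one_pos
    · by_cases hij : i ∈ G ∧ j ∉ G
      · have e1 := h0 i hij.1 j hij.2
        simp only [hFc, Sum.elim_inr, hij, if_true, not_false_eq_true, and_self, zero_smul,
          add_zero]
        linarith
      · simp only [hFc, Sum.elim_inr, hij, if_false]
        exact one_pos
  have hrange : ∀ t : ℝ, (∀ u ∈ Set.Icc 0 t, ∀ l, Fc l u ≤ 1) →
      (∀ u ∈ Set.Icc 0 t, ∀ i ∉ G, ‖q u i - (q 0 i + u • v 0 i)‖ ≤ η) ∧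
      (∀ u ∈ Set.Icc 0 t, ∀ i ∈ G, ∀ j ∉ G, d ≤ ‖q u i - (q 0 j + u • v 0 j)‖) := by
    intro t hFt
    exact ⟨fun u hu i hi => (hF1 u i hi).1 (hFt u hu (Sum.inl i)),
      fun u hu i hi j hj => (hF2 u i j hi hj).1 (hFt u hu (Sum.inr (i, j)))⟩
  have key := cont_induct hcont hF0 (by
    intro t ht hFt l
    obtain ⟨r1, r2⟩ := hrange t hFt
    have hst := hstep t ht r1 r2
    rcases l with i | ⟨i, j⟩
    · by_cases hi : i ∈ G
      · simp only [hFc, Sum.elim_inl, hi, if_true]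
        exact one_pos
      · simp only [hFc, Sum.elim_inl, hi, if_false]
        rw [div_lt_one hη]
        exact lt_of_le_of_lt ((hst t ⟨ht.1, le_refl _⟩).1 i hi) (lt_min hAs hAd)
    · by_cases hij : i ∈ G ∧ j ∉ G
      · have e1 := hgun t ht (fun u hu i hi => (hst u hu).2.2.2.2 i hi) i hij.1 j hij.2
        simp only [hFc, Sum.elim_inr, hij, if_true, not_false_eq_true, and_self]
        linarith
      · simp only [hFc, Sum.elim_inr, hij, if_false]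
        exact one_pos)
  intro t ht
  obtain ⟨r1, r2⟩ := hrange t (fun u hu l => (key u ⟨hu.1, hu.2.trans ht.2⟩ l).le)
  exact hstep t ht r1 r2 t ⟨ht.1, le_refl _⟩

end Pool.Agent.NBody
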