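import Mathlib
import Pool.Agent.NBody.Th4Others
import Pool.Agent.NBody.Th4Force

/-!
Bootstrap of the bodies outside a small cluster along straight lines, for arbitrary masses: the
distance of two straight lines is bounded below in terms of the heavier mass.
-/

set_option autoImplicit false
open scoped RealInnerProductSpace
open Set Finset Filter Topology

namespace Pool.Agent.NBody

/-- The static bound of the forces of the bodies of `J` for separations of half the prescribed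
size. -/
theorem accOnM_le_half {N : ℕ} {m : Fin N → ℝ} {κ n M Bf : ℝ} {F J : Finset (Fin N)}
    (hm : ∀ i, 0 < m i) (hsum : ∑ i, m i ≤ 1) (hκ : 0 < κ) (hκ1 : κ ≤ 1) (hn : 1 ≤ n)
    (hM : ∑ i ∈ F, m i ≤ M) (hBf : 0 ≤ Bf) (hMB : n * M ≤ Bf ^ 3) (z : Fin N → V3) (i : Fin N)
    (h3 : ∀ j ∈ J, j ∉ F → ∀ k ∈ J, k ∉ F → j ≠ k →
      κ / 8 * max (1 / n) (m j) ≤ ‖z j - z k‖ ^ 3)
    (h2 : ∀ j ∈ J, ∀ k ∈ J, j ≠ k → κ / 8 * max (1 / n) (m j) ≤ ‖z j - z k‖ ^ 2)
    (hi : ∀ j ∈ J, κ / 8 * max (1 / n) (m j) ≤ ‖z i - z j‖ ^ 2) :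
    ‖accOnM m J z i‖ ≤ 8 * (54 + 27 * Bf) / κ := by
  classical
  have hn0 : 0 < n := by linarith
  have hmax : ∀ j, 0 < max (1 / n) (m j) := fun j => lt_of_lt_of_le (hm j) (le_max_right _ _)
  have hne : ∀ j ∈ J, z j ≠ z i := by
    intro j hj hcon
    have e1 := hi j hj
    rw [hcon, sub_self, norm_zero, zero_pow (by norm_num)] at e1
    have e2 : 0 < κ / 8 * max (1 / n) (m j) := mul_pos (by positivity) (hmax j)
    linarith
  have e1 := norm_accOnM_le (fun j => (hm j).le) (J := J) (q := z) (i := i) hne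
  have e2 := force4' (J.filter (fun j => j ∉ F)) (J.filter (fun j => ¬ j ∉ F)) m hm z (z i)
    (κ := κ / 8) (n := n) (M := M) (B := Bf) (by positivity) (by linarith) hn
    ((Finset.sum_le_sum_of_subset_of_nonneg (Finset.subset_univ _)
      (fun j _ _ => (hm j).le)).trans hsum)
    ((Finset.sum_le_sum_of_subset_of_nonneg (fun j hj => by
      have := (Finset.mem_filter.mp hj).2
      push Not at this
      exact this) (fun j _ _ => (hm j).le)).trans hM) hBf hMB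
    (fun j hj k hk hjk => h3 j (Finset.mem_filter.mp hj).1 (Finset.mem_filter.mp hj).2 k
      (Finset.mem_filter.mp hk).1 (Finset.mem_filter.mp hk).2 hjk)
    (fun j hj k hk hjk => h2 j (Finset.mem_filter.mp hj).1 k (Finset.mem_filter.mp hk).1 hjk)
    (fun j hj => hi j (Finset.mem_filter.mp hj).1)
    (fun j hj => hi j (Finset.mem_filter.mp hj).1)
  rw [Finset.sum_filter_add_sum_filter_not] at e2
  have e3 : (54 + 27 * Bf) / (κ / 8) = 8 * (54 + 27 * Bf) / κ := by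
    field_simp
  rw [e3] at e2
  refine e1.trans (le_trans (le_of_eq ?_) e2)
  refine Finset.sum_congr rfl fun j _ => ?_
  rw [norm_sub_rev]

/-- Bootstrap of the bodies outside the cluster along straight lines, arbitrary masses. -/
theorem others4 {N : ℕ} {m : Fin N → ℝ} {T κ n M Bf σ d A B MG : ℝ} {G F : Finset (Fin N)}
    {q v : ℝ → Fin N → V3} (hm : ∀ i, 0 < m i) (hsum : ∑ i, m i ≤ 1) (hκ : 0 < κ) (hκ1 : κ ≤ 1)
    (hn : 1 ≤ n) (hM : ∑ i ∈ F, m i ≤ M) (hBf : 0 ≤ Bf) (hMB : n * M ≤ Bf ^ 3)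
    (hσ : 0 < σ) (hσκ : σ ^ 2 ≤ κ / n) (hd : 0 < d) (hG : ∑ i ∈ G, m i ≤ MG)
    (hsol : IsSolM m T (fun _ _ => 0) q v)
    (h3 : ∀ i ∉ G, i ∉ F → ∀ j ∉ G, j ∉ F → i ≠ j → ∀ t ∈ Icc (0 : ℝ) T,
      κ * max (1 / n) (m j) ≤ ‖(q 0 i + t • v 0 i) - (q 0 j + t • v 0 j)‖ ^ 3)
    (h2 : ∀ i ∉ G, ∀ j ∉ G, i ≠ j → ∀ t ∈ Icc (0 : ℝ) T,
      κ * max (1 / n) (m j) ≤ ‖(q 0 i + t • v 0 i) - (q 0 j + t • v 0 j)‖ ^ 2)
    (hA : 8 * (54 + 27 * Bf) / κ + 4 * MG / d ^ 2 ≤ A)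
    (hAs : A * T ^ 2 < σ / 4) (hAd : A * T ^ 2 < d / 4)
    (hB : 4 / d ^ 2 ≤ B ∨
      ((∀ j ∉ G, κ * max (1 / n) (m j) ≤ d ^ 2) ∧ 8 * (54 + 27 * Bf) / κ ≤ B))
    (h0 : ∀ i ∈ G, ∀ j ∉ G, d < ‖q 0 i - q 0 j‖)
    (hgun : ∀ T1 ∈ Icc (0 : ℝ) T,
      (∀ t ∈ Icc (0 : ℝ) T1, ∀ i ∈ G, ‖accOnM m Gᶜ (q t) i‖ ≤ B) →
      ∀ i ∈ G, ∀ j ∉ G, d < ‖q T1 i - (q 0 j + T1 • v 0 j)‖) :
    ∀ t ∈ Icc (0 : ℝ) T,
      (∀ i ∉ G, ‖q t i - (q 0 i + t • v 0 i)‖ ≤ A * T ^ 2) ∧
      (∀ i ∉ G, ‖v t i - v 0 i‖ ≤ A * T) ∧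
      (∀ i ∉ G, ∀ j ∉ G, i ≠ j → σ / 2 ≤ ‖q t i - q t j‖) ∧
      (∀ i ∉ G, ∀ j ∈ G, d / 2 ≤ ‖q t i - q t j‖) ∧
      (∀ i ∈ G, ‖accOnM m Gᶜ (q t) i‖ ≤ B) := by
  classical
  have hn0 : 0 < n := by linarith
  have hmi1 : ∀ i, m i ≤ 1 := fun i =>
    (Finset.single_le_sum (f := m) (fun j _ => (hm j).le) (Finset.mem_univ i)).trans hsum
  obtain ⟨w, hw⟩ : ∃ w : Fin N → Fin N → ℝ, w = fun i j => κ * max (1 / n) (max (m i) (m j)) :=
    ⟨_, rfl⟩
  have hw0 : ∀ i j, 0 < w i j := fun i j => by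
    rw [hw]
    exact mul_pos hκ (lt_of_lt_of_le (hm i) ((le_max_left _ _).trans (le_max_right _ _)))
  have hw1 : ∀ i j, w i j ≤ 1 := fun i j => by
    rw [hw]
    have e1 : max (1 / n) (max (m i) (m j)) ≤ 1 :=
      max_le (by rw [div_le_one hn0]; exact hn) (max_le (hmi1 i) (hmi1 j))
    have e2 : 0 ≤ max (1 / n) (max (m i) (m j)) :=
      (hm i).le.trans ((le_max_left _ _).trans (le_max_right _ _))
    calc κ * max (1 / n) (max (m i) (m j)) ≤ 1 * 1 := mul_le_mul hκ1 e1 e2 (by norm_num)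
      _ = 1 := by norm_num
  have hwn : ∀ i j, κ / n ≤ w i j := fun i j => by
    rw [hw]
    have e1 : 1 / n ≤ max (1 / n) (max (m i) (m j)) := le_max_left _ _
    calc κ / n = κ * (1 / n) := by ring
      _ ≤ _ := mul_le_mul_of_nonneg_left e1 hκ.le
  have hwj : ∀ i j, κ * max (1 / n) (m j) ≤ w i j := fun i j => by
    rw [hw]
    exact mul_le_mul_of_nonneg_left (max_le_max (le_refl _) (le_max_right _ _)) hκ.le
  have hwi : ∀ i j, κ * max (1 / n) (m i) ≤ w i j := fun i j => by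
    rw [hw]
    exact mul_le_mul_of_nonneg_left (max_le_max (le_refl _) (le_max_left _ _)) hκ.le
  have hwle : ∀ i j x, κ * max (1 / n) (m i) ≤ x → κ * max (1 / n) (m j) ≤ x → w i j ≤ x := by
    intro i j x hi hj
    rw [hw]
    show κ * max (1 / n) (max (m i) (m j)) ≤ x
    rcases le_total (m i) (m j) with h | h
    · rw [max_eq_right h]; exact hj
    · rw [max_eq_left h]; exact hi
  -- cube roots
  obtain ⟨cr, hcr0, hcr3⟩ : ∃ cr : ℝ → ℝ, (∀ x, 0 < x → 0 < cr x) ∧ ∀ x, 0 < x → cr x ^ 3 = x := by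
    refine ⟨fun x => x ^ (1 / 3 : ℝ), fun x hx => Real.rpow_pos_of_pos hx _, fun x hx => ?_⟩
    rw [← Real.rpow_natCast, ← Real.rpow_mul hx.le]
    norm_num
  obtain ⟨sep, hsep⟩ : ∃ sep : Fin N → Fin N → ℝ,
      sep = fun i j => if i ∉ F ∧ j ∉ F then cr (w i j) else √(w i j) := ⟨_, rfl⟩
  have hsep0 : ∀ i j, 0 < sep i j := by
    intro i j
    rw [hsep]
    show 0 < (if i ∉ F ∧ j ∉ F then cr (w i j) else √(w i j))
    split
    · exact hcr0 _ (hw0 i j)
    · exact Real.sqrt_pos.2 (hw0 i j)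
  have hsep3 : ∀ i j, i ∉ F → j ∉ F → sep i j ^ 3 = w i j := by
    intro i j hi hj
    rw [hsep]
    show (if i ∉ F ∧ j ∉ F then cr (w i j) else √(w i j)) ^ 3 = w i j
    rw [if_pos ⟨hi, hj⟩]
    exact hcr3 _ (hw0 i j)
  have hsep2 : ∀ i j, w i j ≤ sep i j ^ 2 := by
    intro i j
    by_cases h : i ∉ F ∧ j ∉ F
    · have e1 := hsep3 i j h.1 h.2
      have e2 := hsep0 i j
      have e3 : sep i j ≤ 1 := by
        by_contra hcon
        push Not at hcon
        have e4 : 1 < sep i j ^ 3 := one_lt_pow₀ hcon (by norm_num)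
        linarith [hw1 i j]
      rw [← e1]
      nlinarith [sq_nonneg (sep i j), mul_nonneg (sq_nonneg (sep i j)) (by linarith : (0:ℝ) ≤ 1 - sep i j)]
    · have e1 : sep i j = √(w i j) := by
        rw [hsep]
        exact if_neg h
      rw [e1, Real.sq_sqrt (hw0 i j).le]
  have hσs : ∀ i j, σ ≤ sep i j := by
    intro i j
    have e1 : σ ^ 2 ≤ sep i j ^ 2 := hσκ.trans ((hwn i j).trans (hsep2 i j))
    exact le_of_pow_le_pow_left₀ (by norm_num) (hsep0 i j).le e1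
  have hseple : ∀ i j (x : ℝ), 0 ≤ x → (i ∉ F → j ∉ F → w i j ≤ x ^ 3) → w i j ≤ x ^ 2 →
      sep i j ≤ x := by
    intro i j x hx hx3 hx2
    by_cases h : i ∉ F ∧ j ∉ F
    · have e1 := hsep3 i j h.1 h.2
      have e2 := hx3 h.1 h.2
      exact le_of_pow_le_pow_left₀ (n := 3) (by norm_num) hx (by rw [e1]; exact e2)
    · have e1 : sep i j = √(w i j) := by
        rw [hsep]
        exact if_neg h
      rw [e1]
      exact Real.sqrt_le_iff.2 ⟨hx, hx2⟩
  -- the consequences of half the separation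
  have half3 : ∀ i j (x : ℝ), i ∉ F → j ∉ F → sep i j / 2 ≤ x → w i j / 8 ≤ x ^ 3 := by
    intro i j x hi hj hx
    have e1 := hsep3 i j hi hj
    have e2 := hsep0 i j
    have e3 : (sep i j / 2) ^ 3 ≤ x ^ 3 := pow_le_pow_left₀ (by positivity) hx 3
    calc w i j / 8 = (sep i j / 2) ^ 3 := by rw [← e1]; ring
      _ ≤ x ^ 3 := e3
  have half2 : ∀ i j (x : ℝ), sep i j / 2 ≤ x → w i j / 8 ≤ x ^ 2 := by
    intro i j x hx
    have e1 := hsep2 i j
    have e2 := hsep0 i j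
    have e3 : (sep i j / 2) ^ 2 ≤ x ^ 2 := pow_le_pow_left₀ (by positivity) hx 2
    have e4 := hw0 i j
    nlinarith
  have hF : ∀ z : Fin N → V3, (∀ i ∉ G, ∀ j ∉ G, i ≠ j → sep i j / 2 ≤ ‖z i - z j‖) →
      ∀ (J : Finset (Fin N)) (i : Fin N), (∀ j ∈ J, j ∉ G) →
      (∀ j ∈ J, κ / 8 * max (1 / n) (m j) ≤ ‖z i - z j‖ ^ 2) →
      ‖accOnM m J z i‖ ≤ 8 * (54 + 27 * Bf) / κ := by
    intro z hz J i hJ hi
    apply accOnM_le_half hm hsum hκ hκ1 hn hM hBf hMB z i _ _ hi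
    · intro j hj hjF k hk hkF hjk
      have e1 := half3 j k _ hjF hkF (hz j (hJ j hj) k (hJ k hk) hjk)
      have e2 := hwi j k
      calc κ / 8 * max (1 / n) (m j) = κ * max (1 / n) (m j) / 8 := by ring
        _ ≤ w j k / 8 := by linarith
        _ ≤ _ := e1
    · intro j hj k hk hjk
      have e1 := half2 j k _ (hz j (hJ j hj) k (hJ k hk) hjk)
      have e2 := hwi j k
      calc κ / 8 * max (1 / n) (m j) = κ * max (1 / n) (m j) / 8 := by ring
        _ ≤ w j k / 8 := by linarith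
        _ ≤ _ := e1
  have main := others_gen (A0 := 8 * (54 + 27 * Bf) / κ) (sep := sep) (B := B)
    (fun i => (hm i).le) hsum hσ (fun i _ j _ _ => hσs i j) hd hG hsol
    (fun i hi j hj hij t ht => by
      apply hseple i j _ (norm_nonneg _)
      · intro hiF hjF
        apply hwle
        · have e1 := h3 j hj hjF i hi hiF (Ne.symm hij) t ht
          rw [norm_sub_rev] at e1
          exact e1
        · exact h3 i hi hiF j hj hjF hij t ht
      · apply hwle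
        · have e1 := h2 j hj i hi (Ne.symm hij) t ht
          rw [norm_sub_rev] at e1
          exact e1
        · exact h2 i hi j hj hij t ht)
    (fun z hz i hi => hF z hz (Gᶜ.erase i) i
      (fun j hj => by
        rw [Finset.mem_erase, Finset.mem_compl] at hj
        exact hj.2)
      (fun j hj => by
        rw [Finset.mem_erase, Finset.mem_compl] at hj
        have e1 := half2 i j _ (hz i hi j hj.2 (Ne.symm hj.1))
        have e2 := hwj i j
        calc κ / 8 * max (1 / n) (m j) = κ * max (1 / n) (m j) / 8 := by ring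
          _ ≤ w i j / 8 := by linarith
          _ ≤ _ := e1))
    hA hAs hAd
    (by
      rcases hB with hB | ⟨hB1, hB2⟩
      · exact Or.inl hB
      · refine Or.inr fun z hz hzG i hi => ?_
        refine (hF z hz Gᶜ i (fun j hj => Finset.mem_compl.mp hj) (fun j hj => ?_)).trans hB2
        have e1 := hzG j (Finset.mem_compl.mp hj) i hi
        have e2 := hB1 j (Finset.mem_compl.mp hj)
        rw [norm_sub_rev] at e1
        have e3 : (3 * d / 4) ^ 2 ≤ ‖z i - z j‖ ^ 2 := pow_le_pow_left₀ (by positivity) e1 2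
        calc κ / 8 * max (1 / n) (m j) = κ * max (1 / n) (m j) / 8 := by ring
          _ ≤ d ^ 2 / 8 := by linarith
          _ ≤ (3 * d / 4) ^ 2 := by nlinarith [sq_nonneg d]
          _ ≤ _ := e3)
    h0 hgun
  intro t ht
  obtain ⟨a1, a2, a3, a4, a5⟩ := main t ht
  refine ⟨a1, a2, fun i hi j hj hij => ?_, a4, a5⟩
  have e1 := a3 i hi j hj hij
  have e2 := hσs i j
  linarith

end Pool.Agent.NBody
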