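import Mathlib
import Pool.Agent.NBody.Th4Defs
import Pool.Agent.NBody.Th4OthersF

/-!
The static bounds of the forces for the separations `sep4`, and the mass of the fast bodies.
-/

set_option autoImplicit false
open scoped RealInnerProductSpace
open Set Finset Filter Topology

namespace Pool.Agent.NBody

/-- The force of the bodies of `J` at half of the prescribed separations. -/
theorem static4 {N : ℕ} {m : Fin N → ℝ} {κ MF B : ℝ} {F J : Finset (Fin N)}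
    (hm : ∀ i, 0 < m i) (hsum : ∑ i, m i ≤ 1) (hκ : 0 < κ) (hκ1 : κ ≤ 1)
    (hM : ∑ i ∈ F, m i ≤ MF) (hB : 0 ≤ B) (hMB : (N : ℝ) * MF ≤ B ^ 3) (z : Fin N → V3)
    (i : Fin N)
    (hz : ∀ j ∈ J, ∀ k ∈ J, j ≠ k → sep4 κ m F j k / 2 ≤ ‖z j - z k‖)
    (hi : ∀ j ∈ J, ∃ l, sep4 κ m F j l / 2 ≤ ‖z i - z j‖) :
    ‖accOnM m J z i‖ ≤ 8 * (54 + 27 * B) / κ := by
  have hN : 0 < N := Fin.pos i
  have hN1 : (1 : ℝ) ≤ N := by exact_mod_cast hN
  have hm1 : ∀ i, m i ≤ 1 := fun i =>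
    (Finset.single_le_sum (f := m) (fun j _ => (hm j).le) (Finset.mem_univ i)).trans hsum
  have hle : ∀ j k, κ * max (1 / (N : ℝ)) (m j) ≤ κ * max (1 / (N : ℝ)) (max (m j) (m k)) :=
    fun j k => mul_le_mul_of_nonneg_left (max_le_max (le_refl _) (le_max_left _ _)) hκ.le
  have h8 : ∀ j, κ / 8 * max (1 / (N : ℝ)) (m j) = κ * max (1 / (N : ℝ)) (m j) / 8 := fun j => by
    ring
  have half2 : ∀ j k (x : ℝ), sep4 κ m F j k / 2 ≤ x →
      κ / 8 * max (1 / (N : ℝ)) (m j) ≤ x ^ 2 := by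
    intro j k x hx
    have e1 := sep4_sq_ge hκ hκ1 hm1 F j k
    have e2 := sep4_pos hκ m F j k
    have e3 : (sep4 κ m F j k / 2) ^ 2 ≤ x ^ 2 := pow_le_pow_left₀ (by positivity) hx 2
    have e4 := hle j k
    have e5 : 0 < κ * max (1 / (N : ℝ)) (m j) :=
      mul_pos hκ (lt_of_lt_of_le (hm j) (le_max_right _ _))
    rw [h8]
    have e6 : (sep4 κ m F j k / 2) ^ 2 = sep4 κ m F j k ^ 2 / 4 := by ring
    rw [e6] at e3
    linarith
  apply accOnM_le_half hm hsum hκ hκ1 hN1 hM hB hMB z i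
  · intro j hj hjF k hk hkF hjk
    have e1 := sep4_slow hκ m hjF hkF
    have e2 := sep4_pos hκ m F j k
    have e3 : (sep4 κ m F j k / 2) ^ 3 ≤ ‖z j - z k‖ ^ 3 :=
      pow_le_pow_left₀ (by positivity) (hz j hj k hk hjk) 3
    have e4 := hle j k
    have e6 : (sep4 κ m F j k / 2) ^ 3 = sep4 κ m F j k ^ 3 / 8 := by ring
    rw [e6, e1] at e3
    rw [h8]
    linarith
  · intro j hj k hk hjk
    exact half2 j k _ (hz j hj k hk hjk)
  · intro j hj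
    obtain ⟨l, hl⟩ := hi j hj
    exact half2 j l _ hl

/-- The force on a body outside the cluster by the others outside the cluster. -/
theorem force4A {N : ℕ} {m : Fin N → ℝ} {κ MF B : ℝ} {F G : Finset (Fin N)}
    (hm : ∀ i, 0 < m i) (hsum : ∑ i, m i ≤ 1) (hκ : 0 < κ) (hκ1 : κ ≤ 1)
    (hM : ∑ i ∈ F, m i ≤ MF) (hB : 0 ≤ B) (hMB : (N : ℝ) * MF ≤ B ^ 3) :
    ∀ z : Fin N → V3, (∀ i ∉ G, ∀ j ∉ G, i ≠ j → sep4 κ m F i j / 2 ≤ ‖z i - z j‖) →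
      ∀ i ∉ G, ‖accOnM m (Gᶜ.erase i) z i‖ ≤ 8 * (54 + 27 * B) / κ := by
  intro z hz i hi
  apply static4 hm hsum hκ hκ1 hM hB hMB z i
  · intro j hj k hk hjk
    rw [Finset.mem_erase, Finset.mem_compl] at hj hk
    exact hz j hj.2 k hk.2 hjk
  · intro j hj
    rw [Finset.mem_erase, Finset.mem_compl] at hj
    exact ⟨i, by rw [norm_sub_rev]; exact hz j hj.2 i hi hj.1⟩

/-- The force on any body by the bodies outside a tight pair. -/
theorem force4B {N : ℕ} {m : Fin N → ℝ} {κ MF B : ℝ} {F : Finset (Fin N)} {a b : Fin N}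
    (hm : ∀ i, 0 < m i) (hsum : ∑ i, m i ≤ 1) (hκ : 0 < κ) (hκ1 : κ ≤ 1)
    (hM : ∑ i ∈ F, m i ≤ MF) (hB : 0 ≤ B) (hMB : (N : ℝ) * MF ≤ B ^ 3) :
    ∀ z : Fin N → V3,
      (∀ i ∉ ({a, b} : Finset (Fin N)), ∀ j ∉ ({a, b} : Finset (Fin N)), i ≠ j →
        sep4 κ m F i j / 2 ≤ ‖z i - z j‖) →
      (∀ i ∉ ({a, b} : Finset (Fin N)), sep4 κ m F i a / 2 ≤ ‖z i - z a‖ ∧
        sep4 κ m F i a / 2 ≤ ‖z i - z b‖) →
      ∀ i, ‖accOnM m ((({a, b} : Finset (Fin N))ᶜ).erase i) z i‖ ≤ 8 * (54 + 27 * B) / κ := by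
  intro z hz hzab i
  apply static4 hm hsum hκ hκ1 hM hB hMB z i
  · intro j hj k hk hjk
    rw [Finset.mem_erase, Finset.mem_compl] at hj hk
    exact hz j hj.2 k hk.2 hjk
  · intro j hj
    rw [Finset.mem_erase, Finset.mem_compl] at hj
    by_cases hi : i ∈ ({a, b} : Finset (Fin N))
    · rw [Finset.mem_insert, Finset.mem_singleton] at hi
      rcases hi with rfl | rfl
      · exact ⟨i, by rw [norm_sub_rev]; exact (hzab j hj.2).1⟩
      · exact ⟨a, by rw [norm_sub_rev]; exact (hzab j hj.2).2⟩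
    · exact ⟨i, by rw [norm_sub_rev]; exact hz j hj.2 i hi hj.1⟩

/-- The mass of the fast bodies. -/
theorem mass_fast {N : ℕ} {m : Fin N → ℝ} {u : Fin N → V3} {U τ c : ℝ} {F : Finset (Fin N)}
    (hm : ∀ i, 0 < m i) (hE : ∑ i, m i * ‖u i‖ ^ 2 ≤ 2 * U) (hc : 0 < c)
    (hF : ∀ i ∈ F, c / 8 < ‖u i‖ * τ) :
    ∑ i ∈ F, m i ≤ 2 * U * (8 * τ / c) ^ 2 := by
  have h1 : ∀ i ∈ F, m i ≤ m i * ‖u i‖ ^ 2 * (8 * τ / c) ^ 2 := by
    intro i hi
    have e1 := hF i hi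
    have e2 : 1 ≤ ‖u i‖ * (8 * τ / c) := by
      rw [mul_div_assoc', le_div_iff₀ hc]
      linarith
    have e3 : 1 ≤ (‖u i‖ * (8 * τ / c)) ^ 2 := one_le_pow₀ e2
    calc m i = m i * 1 := (mul_one _).symm
      _ ≤ m i * (‖u i‖ * (8 * τ / c)) ^ 2 := mul_le_mul_of_nonneg_left e3 (hm i).le
      _ = m i * ‖u i‖ ^ 2 * (8 * τ / c) ^ 2 := by ring
  calc ∑ i ∈ F, m i ≤ ∑ i ∈ F, m i * ‖u i‖ ^ 2 * (8 * τ / c) ^ 2 := Finset.sum_le_sum h1
    _ = (∑ i ∈ F, m i * ‖u i‖ ^ 2) * (8 * τ / c) ^ 2 := by rw [Finset.sum_mul]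
    _ ≤ (∑ i, m i * ‖u i‖ ^ 2) * (8 * τ / c) ^ 2 := by
        apply mul_le_mul_of_nonneg_right _ (by positivity)
        exact Finset.sum_le_sum_of_subset_of_nonneg (Finset.subset_univ _)
          (fun j _ _ => mul_nonneg (hm j).le (by positivity))
    _ ≤ 2 * U * (8 * τ / c) ^ 2 := mul_le_mul_of_nonneg_right hE (by positivity)

/-- The mass of the fast bodies, with the threshold of `sep4`. -/
theorem mass_fast4 {N : ℕ} {m : Fin N → ℝ} {u : Fin N → V3} {U τ κ : ℝ}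
    (hm : ∀ i, 0 < m i) (hE : ∑ i, m i * ‖u i‖ ^ 2 ≤ 2 * U) (hκ : 0 < κ) :
    ∑ i ∈ Finset.univ.filter (fun i => (κ / N) ^ (1 / 3 : ℝ) / 8 < ‖u i‖ * τ), m i ≤
      2 * U * (8 * τ / (κ / N) ^ (1 / 3 : ℝ)) ^ 2 := by
  rcases Nat.eq_zero_or_pos N with h0 | h0
  · subst h0
    have e1 : (0 : ℝ) ≤ 2 * U := by
      refine le_trans ?_ hE
      simp
    have e2 : ∑ i ∈ Finset.univ.filter
        (fun i : Fin 0 => (κ / ((0 : ℕ) : ℝ)) ^ (1 / 3 : ℝ) / 8 < ‖u i‖ * τ), m i = 0 := by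
      apply Finset.sum_eq_zero
      intro i _
      exact i.elim0
    rw [e2]
    exact mul_nonneg e1 (by positivity)
  · have h1 : (0 : ℝ) < N := by exact_mod_cast h0
    exact mass_fast hm hE (Real.rpow_pos_of_pos (div_pos hκ h1) _)
      (fun i hi => (Finset.mem_filter.mp hi).2)

end Pool.Agent.NBody
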