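import Mathlib
import Pool.Agent.NBody.FrontCrit

/-!
The group criterion: when the maximiser of the front functional (a group of bodies beyond a height)
has a mean velocity larger than a logarithmic multiple of its escape velocity, in either time
direction, the state is wandering.
-/

set_option autoImplicit false
open scoped RealInnerProductSpace
open Set Finset Filter Topology

namespace Pool.Agent.NBody

/-- A strict maximiser of the front functional which moves fast enough, forwards or backwards. -/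
theorem grp_strict {N : ℕ} {m : Fin N → ℝ} (hm : ∀ i, 0 < m i) {T μ : ℝ}
    (hTm : ∑ i, m i ≤ T) (hμ : 0 < μ) (hμm : ∀ i, μ ≤ m i) {S : Set (Ph N)} {ψ : Ph N → ℝ}
    {φ : ℝ → Ph N → Ph N} (hset : Setting m S ψ φ) {x : Ph N} (hx : x ∈ S) (s : ℝ) {e : V3}
    (he : ‖e‖ ≤ 1) {h D u : ℝ} (hD : 0 < D) (hu : 0 < u) {A : Finset (Fin N)}
    (hAne : A.Nonempty)
    (hA : ∀ B, B ≠ A → fF m T e h (φ s x).1 D B < fF m T e h (φ s x).1 D A)
    (hP : (∑ i ∈ A, m i) * u ≤ |∑ i ∈ A, ⟪(φ s x).2 i, e⟫|) (hC : 4 * Kf T μ < u ^ 2 * D) :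
    Wandering S φ x := by
  classical
  obtain ⟨i₀, hi₀⟩ := hAne
  have hT : 0 < T := lt_of_lt_of_le (Finset.sum_pos (fun i _ => hm i) ⟨i₀, Finset.mem_univ _⟩) hTm
  refine wandering_of_orbit hset.isFlowOn (locLip_field m hset.smooth) hset.sub hx
    (s := s) ?_
  obtain ⟨y, hy⟩ : ∃ y, y = φ s x := ⟨_, rfl⟩
  rw [← hy] at hA hP ⊢
  have hyS : y ∈ S := by rw [hy]; exact hset.isFlowOn.mem x hx s
  have hKp := Kf_pos hT hμ
  have htraj : ∀ y ∈ S, IsTraj m (fun s => ψ (φ s y)) (fun s => φ s y) := fun y hy =>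
    isTraj_of_flow hset.sub hset.smooth.continuousOn hset.pos hset.flow hy
  have hxnc := hset.sub hyS
  have hψx : ContinuousAt ψ y :=
    hset.smooth.continuousOn.continuousAt ((isOpen_NC N).mem_nhds hxnc)
  obtain ⟨V₁, hV₁, τ₀, hτ₀, hclock⟩ := clock_lower (m := m) hxnc hψx (hset.pos y hxnc)
  have hτd : ∀ y ∈ S, ∀ s, HasDerivAt (fun s => ∫ r in (0:ℝ)..s, ψ (φ r y)) (ψ (φ s y)) s := by
    intro y hy s
    exact intervalIntegral.integral_hasDerivAt_right
      ((htraj y hy).cont.intervalIntegrable _ _)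
      ((htraj y hy).cont.stronglyMeasurableAtFilter _ _) (htraj y hy).cont.continuousAt
  have hτlow : ∀ y ∈ V₁ ∩ S, ∀ s, 1 ≤ s → τ₀ ≤ ∫ r in (0:ℝ)..s, ψ (φ r y) := by
    intro y hy s hs
    refine hclock (fun s => ψ (φ s y)) (fun s => ∫ r in (0:ℝ)..s, ψ (φ r y)) (fun s => φ s y)
      (htraj y hy.2) (fun s => rfl) (by simp) (hτd y hy.2) ?_ s hs
    simp only [(hset.flow y hy.2).1]
    exact hy.1
  -- the parameters
  set lam : ℝ := √(Kf T μ / D) with hlam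
  have hlampos : 0 < lam := Real.sqrt_pos.mpr (by positivity)
  have hlamsq : lam * lam = Kf T μ / D := Real.mul_self_sqrt (by positivity)
  have h2l : 2 * lam < u := by
    have h1 : (2 * lam) ^ 2 < u ^ 2 := by
      have e1 : (2 * lam) ^ 2 = 4 * (Kf T μ / D) := by rw [← hlamsq]; ring
      rw [e1, mul_div_assoc', div_lt_iff₀ hD]
      linarith
    exact lt_of_pow_lt_pow_left₀ 2 hu.le h1
  have hKl : Kf T μ / (lam * D) = lam := by
    rw [div_eq_iff (by positivity)]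
    have : lam * (lam * D) = (lam * lam) * D := by ring
    rw [this, hlamsq]
    field_simp
  obtain ⟨M, hM⟩ : ∃ M, M = ∑ i ∈ A, m i := ⟨_, rfl⟩
  have hMpos : 0 < M := by
    rw [hM]
    exact Finset.sum_pos (fun i _ => hm i) ⟨i₀, hi₀⟩
  obtain ⟨c, hc⟩ : ∃ c, c = M * (u - 2 * lam) / 2 := ⟨_, rfl⟩
  have hcpos : 0 < c := by
    have : 0 < u - 2 * lam := by linarith
    rw [hc]
    positivity
  have hcle : c + (∑ i ∈ A, m i) * (Kf T μ / (lam * D)) + pen T (∑ i ∈ A, m i) * lam <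
      |∑ i ∈ A, ⟪y.2 i, e⟫| := by
    rw [hKl, ← hM]
    rw [← hM] at hP
    have h1 : pen T M * lam ≤ M * lam :=
      mul_le_mul_of_nonneg_right (pen_le hMpos.le) hlampos.le
    have h2 : c + M * lam + M * lam < M * u := by
      rw [hc]
      have : 0 < M * (u - 2 * lam) := mul_pos hMpos (by linarith)
      linarith
    linarith
  rcases le_total 0 (∑ i ∈ A, ⟪y.2 i, e⟫) with hsgn | hsgn
  · -- forwards
    rw [abs_of_nonneg hsgn] at hcle
    obtain ⟨V₂, hV₂, hno⟩ := front_noreturn hm hT hTm hμ hμm he hD hlampos y hA hcpos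
      hcle hτ₀
    obtain ⟨V, hVsub, hVo, hxV⟩ := mem_nhds_iff.mp (Filter.inter_mem hV₁ hV₂)
    refine ⟨V, hVo, hxV, 1, ?_⟩
    intro t ht z hz hret
    refine hno (fun s => ψ (φ s z)) (fun s => ∫ r in (0:ℝ)..s, ψ (φ r z)) (fun s => φ s z)
      (htraj z hz.2) (by simp) (hτd z hz.2) ?_ t (by linarith)
      (hτlow z ⟨(hVsub hz.1).1, hz.2⟩ t ht.le) (hVsub hret).2
    simp only [(hset.flow z hz.2).1]
    exact (hVsub hz.1).2
  · -- backwards
    rw [abs_of_nonpos hsgn] at hcle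
    have hbw' : c + (∑ i ∈ A, m i) * (Kf T μ / (lam * D)) + pen T (∑ i ∈ A, m i) * lam <
        ∑ i ∈ A, ⟪((y.1, -y.2) : Ph N).2 i, e⟫ := by
      simp only [Pi.neg_apply, inner_neg_left, Finset.sum_neg_distrib]
      exact hcle
    obtain ⟨V₂, hV₂, hno⟩ := front_noreturn hm hT hTm hμ hμm he hD hlampos
      ((y.1, -y.2) : Ph N) hA hcpos hbw' hτ₀
    have hrev : Continuous (fun y : Ph N => ((y.1, -y.2) : Ph N)) :=
      continuous_fst.prodMk continuous_snd.neg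
    have hV₂' : (fun y : Ph N => ((y.1, -y.2) : Ph N)) ⁻¹' V₂ ∈ 𝓝 y :=
      hrev.continuousAt.preimage_mem_nhds hV₂
    obtain ⟨V, hVsub, hVo, hxV⟩ := mem_nhds_iff.mp (Filter.inter_mem hV₁ hV₂')
    refine ⟨V, hVo, hxV, 1, ?_⟩
    intro t ht z hz hret
    have hTr := (htraj z hz.2).reverse t
    refine hno (fun s => ψ (φ (t - s) z))
      (fun s => (∫ r in (0:ℝ)..t, ψ (φ r z)) - ∫ r in (0:ℝ)..(t - s), ψ (φ r z))
      (fun s => ((φ (t - s) z).1, -(φ (t - s) z).2)) hTr (by simp) ?_ ?_ t (by linarith) ?_ ?_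
    · intro s
      have h1 : HasDerivAt (fun s => t - s) (-1 : ℝ) s := by
        simpa using (hasDerivAt_id s).const_sub t
      have h2 := (hτd z hz.2 (t - s)).comp s h1
      have h3 := h2.const_sub (∫ r in (0:ℝ)..t, ψ (φ r z))
      simp only [mul_neg, mul_one, neg_neg] at h3
      exact h3
    · simp only [sub_zero]
      exact (hVsub hret).2
    · simp only [sub_self, intervalIntegral.integral_same, sub_zero]
      exact hτlow z ⟨(hVsub hz.1).1, hz.2⟩ t ht.le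
    · simp only [sub_self, (hset.flow z hz.2).1]
      exact (hVsub hz.1).2

/-- The functional depends on the heights only. -/
theorem fF_congr {N : ℕ} (m : Fin N → ℝ) (T : ℝ) (e : V3) (s : ℝ) {q q' : Fin N → V3} (κ : ℝ)
    (hq : ∀ i, ⟪q i, e⟫ = ⟪q' i, e⟫) (B : Finset (Fin N)) :
    fF m T e s q κ B = fF m T e s q' κ B := by
  unfold fF
  simp only [hq]

/-- Two maximisers are nested. -/
theorem grp_nested {N : ℕ} {m : Fin N → ℝ} (hm : ∀ i, 0 < m i) {T : ℝ} (hT : 0 < T) {e : V3}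
    {s : ℝ} {q : Fin N → V3} {κ : ℝ} (hκ : 0 < κ) {A B : Finset (Fin N)}
    (hA : ∀ C, fF m T e s q κ C ≤ fF m T e s q κ A)
    (hB : ∀ C, fF m T e s q κ C ≤ fF m T e s q κ B) : A ⊆ B ∨ B ⊆ A := by
  classical
  have key : ∀ A : Finset (Fin N), (∀ C, fF m T e s q κ C ≤ fF m T e s q κ A) →
      ∀ i ∈ A, ∀ j, j ∉ A → ⟪q j, e⟫ < ⟪q i, e⟫ := by
    intro A hA i hi j hj
    have h1 := front_gap hm hT hκ hA i hi j (Finset.mem_compl.mpr hj)
    have hT2 : 0 < √T := Real.sqrt_pos.mpr hT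
    have ha : 0 < ∑ k ∈ A with ⟪q k, e⟫ ≤ ⟪q i, e⟫, m k :=
      Finset.sum_pos (fun k _ => hm k) ⟨i, Finset.mem_filter.mpr ⟨hi, le_rfl⟩⟩
    have hb : 0 < ∑ k ∈ Aᶜ with -⟪q k, e⟫ ≤ -⟪q j, e⟫, m k :=
      Finset.sum_pos (fun k _ => hm k)
        ⟨j, Finset.mem_filter.mpr ⟨Finset.mem_compl.mpr hj, le_rfl⟩⟩
    have hMA : 0 ≤ ∑ k ∈ A, m k := Finset.sum_nonneg (fun k _ => (hm k).le)
    have h2 : 0 < √((∑ k ∈ A, m k) + ∑ k ∈ Aᶜ with -⟪q k, e⟫ ≤ -⟪q j, e⟫, m k) :=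
      Real.sqrt_pos.mpr (by linarith)
    have h3 : 0 < κ * (((∑ k ∈ A with ⟪q k, e⟫ ≤ ⟪q i, e⟫, m k) +
        ∑ k ∈ Aᶜ with -⟪q k, e⟫ ≤ -⟪q j, e⟫, m k) /
        (6 * √T * √((∑ k ∈ A, m k) + ∑ k ∈ Aᶜ with -⟪q k, e⟫ ≤ -⟪q j, e⟫, m k))) := by
      apply mul_pos hκ
      apply div_pos (by linarith)
      positivity
    linarith
  by_contra hcon
  push Not at hcon
  obtain ⟨h1, h2⟩ := hcon
  obtain ⟨i, hiA, hiB⟩ := Finset.not_subset.mp h1
  obtain ⟨j, hjB, hjA⟩ := Finset.not_subset.mp h2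
  have h3 := key A hA i hiA j hjA
  have h4 := key B hB j hjB i hiB
  linarith

/-- Every body of a maximiser is beyond the height of the functional. -/
theorem grp_height {N : ℕ} {m : Fin N → ℝ} (hm : ∀ i, 0 < m i) {T : ℝ} (hTm : ∑ i, m i ≤ T)
    {e : V3} {s : ℝ} {q : Fin N → V3} {κ : ℝ} (hκ : 0 < κ) {A : Finset (Fin N)}
    (hA : ∀ C, fF m T e s q κ C ≤ fF m T e s q κ A) : ∀ i ∈ A, s < ⟪q i, e⟫ := by
  classical
  intro i hi
  have h1 := hA (A.erase i)
  unfold fF at h1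
  rw [← Finset.add_sum_erase A _ hi, ← Finset.add_sum_erase A m hi] at h1
  have h2 : 0 ≤ ∑ k ∈ A.erase i, m k := Finset.sum_nonneg (fun k _ => (hm k).le)
  have hMT : m i + ∑ k ∈ A.erase i, m k ≤ T := by
    rw [Finset.add_sum_erase A m hi]
    refine le_trans ?_ hTm
    exact Finset.sum_le_sum_of_subset_of_nonneg (Finset.subset_univ _) (fun i _ _ => (hm i).le)
  have h3 : pen T (∑ k ∈ A.erase i, m k) < pen T (m i + ∑ k ∈ A.erase i, m k) :=
    pen_mono h2 (by linarith [hm i]) hMT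
  have h4 := mul_lt_mul_of_pos_right h3 hκ
  have h5 : 0 < m i * (⟪q i, e⟫ - s) := by linarith
  have h6 := (mul_pos_iff_of_pos_left (hm i)).mp h5
  linarith

/-- For given heights there is a nonempty group of bodies beyond the height `h` such that every
state with these heights whose group moves with a mean velocity at least `u`, forwards or
backwards, is wandering. -/
theorem grp_set {N : ℕ} {m : Fin N → ℝ} (hm : ∀ i, 0 < m i) {T μ : ℝ}
    (hTm : ∑ i, m i ≤ T) (hμ : 0 < μ) (hμm : ∀ i, μ ≤ m i) {e : V3} (he : ‖e‖ ≤ 1)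
    (q : Fin N → V3) {h D : ℝ} (hD : 0 < D) (hex : ∃ i, h + D < ⟪q i, e⟫) :
    ∃ A : Finset (Fin N), A.Nonempty ∧ (∀ i ∈ A, h < ⟪q i, e⟫) ∧
      ∀ (S : Set (Ph N)) (ψ : Ph N → ℝ) (φ : ℝ → Ph N → Ph N), Setting m S ψ φ →
        ∀ x ∈ S, ∀ s : ℝ, (∀ i, ⟪(φ s x).1 i, e⟫ = ⟪q i, e⟫) →
        ∀ u : ℝ, 0 < u → 4 * Kf T μ < u ^ 2 * D →
        (∑ i ∈ A, m i) * u ≤ |∑ i ∈ A, ⟪(φ s x).2 i, e⟫| → Wandering S φ x := by
  classical
  obtain ⟨i₀, hi₀⟩ := hex
  have hT : 0 < T := lt_of_lt_of_le (Finset.sum_pos (fun i _ => hm i) ⟨i₀, Finset.mem_univ _⟩) hTm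
  -- the maximisers and the one of smallest mass
  obtain ⟨A₁, -, hA₁⟩ := Finset.exists_max_image (Finset.univ : Finset (Finset (Fin N)))
    (fun B => fF m T e h q D B) ⟨∅, Finset.mem_univ _⟩
  obtain ⟨A, hAmem, hAmin⟩ := Finset.exists_min_image
    ((Finset.univ : Finset (Finset (Fin N))).filter
      (fun B => fF m T e h q D A₁ ≤ fF m T e h q D B)) (fun B => ∑ i ∈ B, m i)
    ⟨A₁, by simp⟩
  have hAge := (Finset.mem_filter.mp hAmem).2
  have hA : ∀ C, fF m T e h q D C ≤ fF m T e h q D A := fun C =>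
    (hA₁ C (Finset.mem_univ _)).trans hAge
  have hsmall : ∀ B, B ≠ A → fF m T e h q D B = fF m T e h q D A →
      ∑ i ∈ A, m i < ∑ i ∈ B, m i := by
    intro B hBA hFB
    have hB : ∀ C, fF m T e h q D C ≤ fF m T e h q D B := fun C => by rw [hFB]; exact hA C
    have h1 := hAmin B (Finset.mem_filter.mpr ⟨Finset.mem_univ _, by rw [hFB]; exact hAge⟩)
    rcases grp_nested hm hT hD hA hB with hs | hs
    · exact Finset.sum_lt_sum_of_subset hs
        (Finset.exists_of_ssubset (Finset.ssubset_iff_subset_ne.mpr ⟨hs, Ne.symm hBA⟩)).choose_spec.1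
        (Finset.exists_of_ssubset (Finset.ssubset_iff_subset_ne.mpr ⟨hs, Ne.symm hBA⟩)).choose_spec.2
        (hm _) (fun j _ _ => (hm j).le)
    · exfalso
      have h2 : ∑ i ∈ B, m i < ∑ i ∈ A, m i := Finset.sum_lt_sum_of_subset hs
        (Finset.exists_of_ssubset (Finset.ssubset_iff_subset_ne.mpr ⟨hs, hBA⟩)).choose_spec.1
        (Finset.exists_of_ssubset (Finset.ssubset_iff_subset_ne.mpr ⟨hs, hBA⟩)).choose_spec.2
        (hm _) (fun j _ _ => (hm j).le)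
      linarith
  have hne : A.Nonempty := by
    by_contra hne
    rw [Finset.not_nonempty_iff_eq_empty] at hne
    have h1 := hA {i₀}
    rw [hne] at h1
    unfold fF at h1
    simp only [Finset.sum_singleton, Finset.sum_empty, pen_zero, zero_mul, sub_zero] at h1
    have h2 : pen T (m i₀) * D ≤ m i₀ * D := mul_le_mul_of_nonneg_right (pen_le (hm i₀).le) hD.le
    have h3 : 0 < m i₀ * (⟪q i₀, e⟫ - h - D) := mul_pos (hm i₀) (by linarith)
    have h4 : m i₀ * (⟪q i₀, e⟫ - h - D) = m i₀ * (⟪q i₀, e⟫ - h) - m i₀ * D := by ring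
    linarith
  -- a slightly larger height makes the maximiser strict
  have hMpos : 0 < ∑ i ∈ A, m i := Finset.sum_pos (fun i _ => hm i) hne
  obtain ⟨ε, hε, hεlt⟩ : ∃ ε > 0, ∀ B : Finset (Fin N), fF m T e h q D B < fF m T e h q D A →
      fF m T e h q D B < fF m T e h q D A - ε * ∑ i ∈ A, m i := by
    have hfin : ∀ B : Finset (Fin N), ∃ ε > 0, fF m T e h q D B < fF m T e h q D A →
        fF m T e h q D B < fF m T e h q D A - ε * ∑ i ∈ A, m i := by
      intro B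
      by_cases hB : fF m T e h q D B < fF m T e h q D A
      · refine ⟨(fF m T e h q D A - fF m T e h q D B) / (2 * ∑ i ∈ A, m i), ?_, ?_⟩
        · apply div_pos (by linarith)
          positivity
        · intro _
          have h1 : (fF m T e h q D A - fF m T e h q D B) / (2 * ∑ i ∈ A, m i) *
              ∑ i ∈ A, m i = (fF m T e h q D A - fF m T e h q D B) / 2 := by
            field_simp
          rw [h1]
          linarith
      · exact ⟨1, one_pos, fun h => absurd h hB⟩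
    choose f hf hf2 using hfin
    obtain ⟨B₀, -, hB₀⟩ := Finset.exists_min_image (Finset.univ : Finset (Finset (Fin N))) f
      ⟨∅, Finset.mem_univ _⟩
    refine ⟨f B₀, hf B₀, fun B hB => lt_of_lt_of_le (hf2 B hB) ?_⟩
    have h1 := mul_le_mul_of_nonneg_right (hB₀ B (Finset.mem_univ _)) hMpos.le
    linarith
  have hFshift : ∀ B, fF m T e (h + ε) q D B = fF m T e h q D B - ε * ∑ i ∈ B, m i := by
    intro B
    unfold fF
    rw [Finset.mul_sum]
    have h1 : ∑ i ∈ B, m i * (⟪q i, e⟫ - (h + ε)) =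
        ∑ i ∈ B, m i * (⟪q i, e⟫ - h) - ∑ i ∈ B, ε * m i := by
      rw [← Finset.sum_sub_distrib]
      exact Finset.sum_congr rfl (fun i _ => by ring)
    rw [h1]
    ring
  have hstrict : ∀ B, B ≠ A → fF m T e (h + ε) q D B < fF m T e (h + ε) q D A := by
    intro B hB
    rw [hFshift, hFshift]
    rcases (hA B).lt_or_eq with hlt | heq
    · have h1 := hεlt B hlt
      have h2 : 0 ≤ ε * ∑ i ∈ B, m i :=
        mul_nonneg hε.le (Finset.sum_nonneg (fun i _ => (hm i).le))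
      linarith
    · have h1 := mul_lt_mul_of_pos_left (hsmall B hB heq) hε
      linarith
  refine ⟨A, hne, grp_height hm hTm hD hA, ?_⟩
  intro S ψ φ hset x hx s hq u hu hC hP
  refine grp_strict hm hTm hμ hμm hset hx s he (h := h + ε) hD hu hne ?_ hP hC
  intro B hB
  rw [fF_congr m T e (h + ε) D hq B, fF_congr m T e (h + ε) D hq A]
  exact hstrict B hB

theorem grp_Kf {X : ℝ} (hX : 0 ≤ X) : 8 * Kf 1 (Real.exp (-X)) ≤ 864 * (X + 1) := by
  unfold Kf
  have h1 : (1:ℝ) / Real.exp (-X) = Real.exp X := by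
    rw [Real.exp_neg, one_div, inv_inv]
  have h2 : Real.log (1 + 1 / Real.exp (-X)) ≤ X + 1 := by
    rw [h1]
    have h3 : 1 + Real.exp X ≤ Real.exp (X + 1) := by
      rw [Real.exp_add]
      have h4 : 2 ≤ Real.exp 1 := by
        have := Real.add_one_le_exp 1
        linarith
      have h5 : 1 ≤ Real.exp X := Real.one_le_exp hX
      nlinarith
    have h6 := Real.log_le_log (by positivity) h3
    rwa [Real.log_exp] at h6
  linarith

/-- M1, form for type II: total mass at most one, masses at least `exp (-X)`.  The group `A`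
depends only on the heights of the bodies. -/
theorem groupM_set {N : ℕ} {m : Fin N → ℝ} (hm : ∀ i, 0 < m i) (hM : ∑ i, m i ≤ 1) {X : ℝ}
    (hX : 0 ≤ X) (hmX : ∀ i, Real.exp (-X) ≤ m i) {e : V3} (he : ‖e‖ ≤ 1) (q₀ : Fin N → V3)
    {h D : ℝ} (hD : 0 < D) (hex : ∃ i, h + D < ⟪q₀ i, e⟫) :
    ∃ A : Finset (Fin N), A.Nonempty ∧ (∀ i ∈ A, h < ⟪q₀ i, e⟫) ∧
      ∀ (S : Set (Ph N)) (ψ : Ph N → ℝ) (φ : ℝ → Ph N → Ph N), Setting m S ψ φ →
        ∀ x ∈ S, ∀ (s : ℝ) (q v : Fin N → V3), φ s x = ((q, fun i => m i • v i) : Ph N) →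
        (∀ i, ⟪q i, e⟫ = ⟪q₀ i, e⟫) → ∀ u : ℝ, 0 < u →
        (∑ i ∈ A, m i) * u ≤ |∑ i ∈ A, m i * ⟪v i, e⟫| → 864 * (X + 1) < u ^ 2 * D →
        Wandering S φ x := by
  obtain ⟨A, hA1, hA2, hA3⟩ := grp_set hm hM (Real.exp_pos (-X)) hmX he q₀ hD hex
  refine ⟨A, hA1, hA2, ?_⟩
  intro S ψ φ hset x hx s q v hs hq u hu hP hbig
  refine hA3 S ψ φ hset x hx s ?_ u hu ?_ ?_
  · rw [hs]
    exact hq
  · have h1 := grp_Kf hX
    have h2 : 0 < Kf 1 (Real.exp (-X)) := Kf_pos one_pos (Real.exp_pos _)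
    linarith
  · rw [hs]
    simp only [real_inner_smul_left]
    exact hP

/-- M1, easy form: some body is beyond the height `h + D` and all the bodies beyond the height
`h` move outwards with speed at least `u`. -/
theorem groupM {N : ℕ} {m : Fin N → ℝ} (hm : ∀ i, 0 < m i) (hM : ∑ i, m i ≤ 1) {X : ℝ}
    (hX : 0 ≤ X) (hmX : ∀ i, Real.exp (-X) ≤ m i) {S : Set (Ph N)} {ψ : Ph N → ℝ}
    {φ : ℝ → Ph N → Ph N} (hset : Setting m S ψ φ) {x : Ph N} (hx : x ∈ S) (s : ℝ)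
    {q v : Fin N → V3} (hs : φ s x = ((q, fun i => m i • v i) : Ph N)) {e : V3} (he : ‖e‖ ≤ 1)
    {h D u : ℝ} (hD : 0 < D) (hex : ∃ i, h + D < ⟪q i, e⟫) (hu : 0 < u)
    (hspeed : ∀ i, h < ⟪q i, e⟫ → u ≤ ⟪v i, e⟫) (hbig : 864 * (X + 1) < u ^ 2 * D) :
    Wandering S φ x := by
  obtain ⟨A, -, hA2, hA3⟩ := groupM_set hm hM hX hmX he q hD hex
  refine hA3 S ψ φ hset x hx s q v hs (fun _ => rfl) u hu ?_ hbig
  have h1 : ∑ i ∈ A, m i * u ≤ ∑ i ∈ A, m i * ⟪v i, e⟫ := Finset.sum_le_sum (fun i hi =>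
    mul_le_mul_of_nonneg_left (hspeed i (hA2 i hi)) (hm i).le)
  rw [Finset.sum_mul]
  exact h1.trans (le_abs_self _)

/-- The group criterion for all masses: the maximiser of the front functional at the height `h`
moves with a mean velocity at least `u` in the direction `e`, forwards or backwards. -/
theorem groupM_max {N : ℕ} {m : Fin N → ℝ} (hm : ∀ i, 0 < m i) {T μ : ℝ}
    (hTm : ∑ i, m i ≤ T) (hμ : 0 < μ) (hμm : ∀ i, μ ≤ m i) {S : Set (Ph N)} {ψ : Ph N → ℝ}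
    {φ : ℝ → Ph N → Ph N} (hset : Setting m S ψ φ) {x : Ph N} (hx : x ∈ S) (s : ℝ) {e : V3}
    (he : ‖e‖ ≤ 1) {h D u : ℝ} (hD : 0 < D) (hex : ∃ i, h + D < ⟪(φ s x).1 i, e⟫) (hu : 0 < u)
    (hP : ∀ A : Finset (Fin N), A.Nonempty → (∀ i ∈ A, h < ⟪(φ s x).1 i, e⟫) →
      (∑ i ∈ A, m i) * u ≤ |∑ i ∈ A, ⟪(φ s x).2 i, e⟫|) (hC : 4 * Kf T μ < u ^ 2 * D) :
    Wandering S φ x := by
  obtain ⟨A, hA1, hA2, hA3⟩ := grp_set hm hTm hμ hμm he (φ s x).1 hD hex
  exact hA3 S ψ φ hset x hx s (fun _ => rfl) u hu hC (hP A hA1 hA2)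

end Pool.Agent.NBody
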