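import Mathlib
import Pool.Agent.NBody.Infinity
import Pool.Agent.NBody.ThPack

/-!
A small change of the positions which increases the potential by a prescribed small amount.
-/

set_option autoImplicit false
open scoped RealInnerProductSpace
open Set Finset Filter Topology

namespace Pool.Agent.NBody

/-- The intermediate value theorem for the potential along a path without collisions. -/
theorem pot_ivt {N : ℕ} (m : Fin N → ℝ) (γ : ℝ → Fin N → V3) {T : ℝ} (hT : 0 ≤ T)
    (hγ : ∀ i, ContinuousOn (fun t => γ t i) (Icc 0 T))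
    (hnc : ∀ t ∈ Icc 0 T, ∀ i j, i ≠ j → γ t i ≠ γ t j) {W : ℝ} (h0 : pot m (γ 0) ≤ W)
    (h1 : W ≤ pot m (γ T)) : ∃ t ∈ Icc 0 T, pot m (γ t) = W := by
  have hc : ContinuousOn (fun t => pot m (γ t)) (Icc 0 T) := by
    unfold pot
    apply continuousOn_finsetSum
    intro i _
    apply continuousOn_finsetSum
    intro j _
    by_cases hij : i = j
    · subst hij
      simp only [sub_self, norm_zero, div_zero, zero_div]
      exact continuousOn_const
    · apply ContinuousOn.div_const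
      apply ContinuousOn.div continuousOn_const
      · exact ((hγ i).sub (hγ j)).norm
      · intro t ht
        exact norm_ne_zero_iff.mpr (sub_ne_zero.mpr (hnc t ht i j hij))
  have h2 := intermediate_value_Icc hT hc
  obtain ⟨t, ht, hW⟩ := h2 ⟨h0, h1⟩
  exact ⟨t, ht, hW⟩

theorem pot_nonneg {N : ℕ} {m : Fin N → ℝ} (hm : ∀ i, 0 < m i) (q : Fin N → V3) :
    0 ≤ pot m q := by
  unfold pot
  refine Finset.sum_nonneg (fun i _ => Finset.sum_nonneg (fun j _ => ?_))
  have := hm i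
  have := hm j
  positivity

/-- One pair is a lower bound of the potential. -/
theorem pair_le_pot {N : ℕ} {m : Fin N → ℝ} (hm : ∀ i, 0 < m i) (q : Fin N → V3) {a b : Fin N}
    (hab : a ≠ b) : m a * m b / ‖q a - q b‖ ≤ pot m q := by
  classical
  have hnn : ∀ i j, 0 ≤ m i * m j / ‖q i - q j‖ / 2 := by
    intro i j
    have := hm i
    have := hm j
    positivity
  have h1 : ∀ i j, m i * m j / ‖q i - q j‖ / 2 ≤ ∑ j, m i * m j / ‖q i - q j‖ / 2 := fun i j =>
    Finset.single_le_sum (f := fun j => m i * m j / ‖q i - q j‖ / 2) (fun j _ => hnn i j)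
      (Finset.mem_univ j)
  have h2 : ∑ i ∈ ({a, b} : Finset (Fin N)), ∑ j, m i * m j / ‖q i - q j‖ / 2 ≤ pot m q := by
    unfold pot
    exact Finset.sum_le_sum_of_subset_of_nonneg (Finset.subset_univ _)
      (fun i _ _ => Finset.sum_nonneg (fun j _ => hnn i j))
  rw [Finset.sum_pair hab] at h2
  have h3 := h1 a b
  have h4 := h1 b a
  rw [norm_sub_rev, mul_comm (m b)] at h4
  linarith

/-- Lemma P, first case: one body moves towards another one. -/
theorem lemP_close {N : ℕ} {m : Fin N → ℝ} (hm : ∀ i, 0 < m i) (q : Fin N → V3)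
    (hq : ∀ i j, i ≠ j → q i ≠ q j) {a b : Fin N} (hab : a ≠ b) {κ : ℝ} (hκ : 0 ≤ κ) :
    ∃ q' : Fin N → V3, (∀ i, ‖q' i - q i‖ ≤ ‖q a - q b‖) ∧ (∀ i j, i ≠ j → q' i ≠ q' j) ∧
      pot m q' = pot m q + κ := by
  classical
  obtain ⟨w, hw⟩ : ∃ w, w = q b - q a := ⟨_, rfl⟩
  have hw0 : w ≠ 0 := by
    rw [hw]
    exact sub_ne_zero.mpr (hq b a hab.symm)
  have hwn : 0 < ‖w‖ := norm_pos_iff.mpr hw0
  obtain ⟨C, hC⟩ : ∃ C : Set ℝ, C = {t | t ∈ Icc (0 : ℝ) 1 ∧ ∃ j, j ≠ a ∧ q a + t • w = q j} :=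
    ⟨_, rfl⟩
  have hCc : IsClosed C := by
    have h1 : C = Icc (0 : ℝ) 1 ∩ ⋃ j ∈ (Finset.univ.erase a : Finset (Fin N)),
        {t : ℝ | q a + t • w = q j} := by
      ext t
      rw [hC]
      simp only [Set.mem_ofPred_eq, Set.mem_inter_iff, Set.mem_iUnion, Finset.mem_erase,
        Finset.mem_univ, and_true, exists_prop]
    rw [h1]
    apply IsClosed.inter isClosed_Icc
    apply Set.Finite.isClosed_biUnion (Finset.finite_toSet _)
    intro j _
    exact isClosed_eq (by fun_prop) continuous_const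
  have hCne : (1 : ℝ) ∈ C := by
    rw [hC]
    exact ⟨⟨zero_le_one, le_rfl⟩, b, hab.symm, by rw [hw, one_smul]; abel⟩
  have hCcomp : IsCompact C := by
    apply isCompact_Icc.of_isClosed_subset hCc
    · intro t ht
      rw [hC] at ht
      exact ht.1
  obtain ⟨t₀, ht₀, hmin⟩ := hCcomp.exists_isLeast ⟨1, hCne⟩
  have ht₀' := ht₀
  rw [hC] at ht₀'
  obtain ⟨⟨ht₀0, ht₀1⟩, c, hca, hc⟩ := ht₀'
  have ht₀pos : 0 < t₀ := by
    rcases eq_or_lt_of_le ht₀0 with h | h
    · rw [← h, zero_smul, add_zero] at hc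
      exact absurd hc (hq a c hca.symm)
    · exact h
  -- the path
  obtain ⟨γ, hγ⟩ : ∃ γ : ℝ → Fin N → V3, γ = fun t => Function.update q a (q a + t • w) :=
    ⟨_, rfl⟩
  have hγa : ∀ t, γ t a = q a + t • w := fun t => by rw [hγ]; simp
  have hγj : ∀ t j, j ≠ a → γ t j = q j := fun t j hj => by rw [hγ]; simp [hj]
  have hγ0 : γ 0 = q := by
    rw [hγ]
    simp
  have hnc : ∀ t, 0 ≤ t → t < t₀ → ∀ i j, i ≠ j → γ t i ≠ γ t j := by
    intro t ht0 ht i j hij
    have hno : ∀ j, j ≠ a → q a + t • w ≠ q j := by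
      intro j hj h
      have h1 : t ∈ C := by
        rw [hC]
        exact ⟨⟨ht0, ht.le.trans ht₀1⟩, j, hj, h⟩
      have := hmin h1
      linarith
    by_cases hi : i = a
    · subst hi
      rw [hγa, hγj t j hij.symm]
      exact hno j hij.symm
    · by_cases hj : j = a
      · subst hj
        rw [hγa, hγj t i hi]
        exact (hno i hi).symm
      · rw [hγj t i hi, hγj t j hj]
        exact hq i j hij
  have hma := hm a
  have hmc := hm c
  have hpot := pot_nonneg hm q
  obtain ⟨ε, hε⟩ : ∃ ε, ε = min (t₀ / 2) (m a * m c / (‖w‖ * (pot m q + κ + 1))) := ⟨_, rfl⟩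
  have hε0 : 0 < ε := by
    rw [hε]
    apply lt_min (by linarith)
    positivity
  have hε1 : ε ≤ t₀ / 2 := by rw [hε]; exact min_le_left _ _
  have hε2 : ε ≤ m a * m c / (‖w‖ * (pot m q + κ + 1)) := by rw [hε]; exact min_le_right _ _
  have hT0 : 0 ≤ t₀ - ε := by linarith
  have hbig : pot m q + κ ≤ pot m (γ (t₀ - ε)) := by
    refine le_trans ?_ (pair_le_pot hm (γ (t₀ - ε)) hca.symm)
    have h1 : γ (t₀ - ε) a - γ (t₀ - ε) c = -(ε • w) := by
      rw [hγa, hγj _ c hca, ← hc]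
      module
    rw [h1, norm_neg, norm_smul, Real.norm_of_nonneg hε0.le]
    have h2 : pot m q + κ + 1 ≤ m a * m c / (ε * ‖w‖) := by
      rw [le_div_iff₀ (by positivity)]
      rw [le_div_iff₀ (by positivity)] at hε2
      linarith
    linarith
  obtain ⟨t, ht, hW⟩ := pot_ivt m γ hT0 (fun i => by
      by_cases hi : i = a
      · subst hi
        simp only [hγa]
        fun_prop
      · simp only [hγj _ i hi]
        exact continuousOn_const)
    (fun t ht => hnc t ht.1 (by linarith [ht.2])) (W := pot m q + κ)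
    (by rw [hγ0]; linarith) hbig
  refine ⟨γ t, fun i => ?_, hnc t ht.1 (by linarith [ht.2]), hW⟩
  have hab' : ‖q a - q b‖ = ‖w‖ := by rw [hw, norm_sub_rev]
  rw [hab']
  by_cases hi : i = a
  · subst hi
    rw [hγa, add_sub_cancel_left, norm_smul, Real.norm_of_nonneg ht.1]
    have h1 : t ≤ 1 := by linarith [ht.2]
    calc t * ‖w‖ ≤ 1 * ‖w‖ := mul_le_mul_of_nonneg_right h1 hwn.le
      _ = ‖w‖ := one_mul _
  · rw [hγj t i hi, sub_self, norm_zero]
    exact hwn.le

/-- the contraction towards the origin, by the length `d` outside the ball of radius `ρ` -/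
noncomputable def ctr (ρ d : ℝ) (x : V3) : V3 := (1 - d / max ρ ‖x‖) • x

theorem ctr_factor {ρ d : ℝ} (hρ : 0 < ρ) (hd : 0 ≤ d) (hdρ : d ≤ ρ) (x : V3) :
    0 ≤ 1 - d / ρ ∧ 1 - d / ρ ≤ 1 - d / max ρ ‖x‖ ∧ 1 - d / max ρ ‖x‖ ≤ 1 := by
  have h1 : ρ ≤ max ρ ‖x‖ := le_max_left _ _
  have h2 : 0 < max ρ ‖x‖ := lt_of_lt_of_le hρ h1
  refine ⟨?_, ?_, ?_⟩
  · have : d / ρ ≤ 1 := by
      rw [div_le_one hρ]
      exact hdρ
    linarith
  · have : d / max ρ ‖x‖ ≤ d / ρ := div_le_div_of_nonneg_left hd hρ h1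
    linarith
  · have : 0 ≤ d / max ρ ‖x‖ := by positivity
    linarith

theorem ctr_zero (ρ : ℝ) (x : V3) : ctr ρ 0 x = x := by
  unfold ctr
  rw [zero_div, sub_zero, one_smul]

theorem ctr_move {ρ d : ℝ} (hρ : 0 < ρ) (hd : 0 ≤ d) (x : V3) : ‖ctr ρ d x - x‖ ≤ d := by
  have h1 : ctr ρ d x - x = -((d / max ρ ‖x‖) • x) := by
    unfold ctr
    rw [sub_smul, one_smul]
    abel
  have h2 : 0 < max ρ ‖x‖ := lt_of_lt_of_le hρ (le_max_left _ _)
  rw [h1, norm_neg, norm_smul, Real.norm_of_nonneg (by positivity), div_mul_eq_mul_div,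
    div_le_iff₀ h2]
  exact mul_le_mul_of_nonneg_left (le_max_right _ _) hd

theorem ctr_near {ρ d : ℝ} {x : V3} (hx : ‖x‖ ≤ ρ) : ctr ρ d x = (1 - d / ρ) • x := by
  unfold ctr
  rw [max_eq_left hx]

/-- The radial part. -/
theorem ctr_radial {ρ d s t : ℝ} (hρ : 0 < ρ) (hd : 0 ≤ d) (hdρ : d ≤ ρ) (ht : 0 ≤ t)
    (hts : t ≤ s) :
    (1 - d / ρ) * (s - t) ≤ (1 - d / max ρ s) * s - (1 - d / max ρ t) * t ∧
      (1 - d / max ρ s) * s - (1 - d / max ρ t) * t ≤ s - t := by
  have hs : 0 ≤ s := ht.trans hts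
  have h1 : (1 - d / max ρ s) * s - (1 - d / max ρ t) * t =
      s - t - d * (s / max ρ s - t / max ρ t) := by ring
  have h2 : 0 ≤ s / max ρ s - t / max ρ t ∧ s / max ρ s - t / max ρ t ≤ (s - t) / ρ := by
    rcases le_total s ρ with h | h
    · rw [max_eq_left h, max_eq_left (hts.trans h), ← sub_div]
      refine ⟨?_, le_rfl⟩
      have : 0 ≤ s - t := by linarith
      positivity
    · have hs0 : 0 < s := lt_of_lt_of_le hρ h
      rw [max_eq_right h, div_self hs0.ne']
      rcases le_total t ρ with h' | h'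
      · rw [max_eq_left h']
        have h3 : t / ρ ≤ 1 := by
          rw [div_le_one hρ]
          exact h'
        refine ⟨by linarith, ?_⟩
        rw [sub_div]
        have : 1 ≤ s / ρ := by
          rw [le_div_iff₀ hρ]
          linarith
        linarith
      · have ht0 : 0 < t := lt_of_lt_of_le hρ h'
        rw [max_eq_right h', div_self ht0.ne', sub_self]
        refine ⟨le_rfl, ?_⟩
        have : 0 ≤ s - t := by linarith
        positivity
  rw [h1]
  refine ⟨?_, ?_⟩
  · have h3 : d * (s / max ρ s - t / max ρ t) ≤ d * ((s - t) / ρ) :=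
      mul_le_mul_of_nonneg_left h2.2 hd
    have h4 : (1 - d / ρ) * (s - t) = s - t - d * ((s - t) / ρ) := by ring
    linarith
  · have : 0 ≤ d * (s / max ρ s - t / max ρ t) := mul_nonneg hd h2.1
    linarith

theorem ctr_sq (f g : ℝ) (x y : V3) : ‖f • x - g • y‖ ^ 2 =
    (f * ‖x‖ - g * ‖y‖) ^ 2 + 2 * (f * g) * (‖x‖ * ‖y‖ - ⟪x, y⟫) := by
  rw [@norm_sub_sq_real, norm_smul, norm_smul, inner_smul_left, inner_smul_right, mul_pow, mul_pow,
    Real.norm_eq_abs, Real.norm_eq_abs, sq_abs, sq_abs]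
  simp only [conj_trivial]
  ring

/-- The contraction changes distances by a factor between `1 - d / ρ` and `1`. -/
theorem ctr_dist {ρ d : ℝ} (hρ : 0 < ρ) (hd : 0 ≤ d) (hdρ : d ≤ ρ) (x y : V3) :
    (1 - d / ρ) * ‖x - y‖ ≤ ‖ctr ρ d x - ctr ρ d y‖ ∧ ‖ctr ρ d x - ctr ρ d y‖ ≤ ‖x - y‖ := by
  wlog hxy : ‖y‖ ≤ ‖x‖ generalizing x y with H
  · have h := H y x (le_of_not_ge hxy)
    rw [norm_sub_rev y x, norm_sub_rev (ctr ρ d y)] at h
    exact h
  obtain ⟨h1, h2, h3⟩ := ctr_factor hρ hd hdρ x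
  obtain ⟨-, h4, h5⟩ := ctr_factor hρ hd hdρ y
  obtain ⟨h6, h7⟩ := ctr_radial hρ hd hdρ (norm_nonneg y) hxy
  have hin : 0 ≤ ‖x‖ * ‖y‖ - ⟪x, y⟫ := by
    have := real_inner_le_norm x y
    linarith
  have e1 := ctr_sq (1 - d / max ρ ‖x‖) (1 - d / max ρ ‖y‖) x y
  have e2 := ctr_sq 1 1 x y
  rw [one_smul, one_smul, one_mul, one_mul] at e2
  obtain ⟨f, hf⟩ : ∃ f, f = 1 - d / max ρ ‖x‖ := ⟨_, rfl⟩
  obtain ⟨g, hg⟩ : ∃ g, g = 1 - d / max ρ ‖y‖ := ⟨_, rfl⟩
  obtain ⟨l, hl⟩ : ∃ l, l = 1 - d / ρ := ⟨_, rfl⟩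
  unfold ctr
  rw [← hf, ← hg] at e1 h6 h7
  rw [← hf] at h2 h3
  rw [← hg] at h4 h5
  rw [← hl] at h1 h2 h4 h6
  rw [← hf, ← hg, ← hl]
  have hst : 0 ≤ ‖x‖ - ‖y‖ := by linarith
  have hf0 : 0 ≤ f := h1.trans h2
  have hg0 : 0 ≤ g := h1.trans h4
  have hfg1 : f * g ≤ 1 := mul_le_one₀ h3 hg0 h5
  have hfg2 : l ^ 2 ≤ f * g := by
    rw [sq]
    exact mul_le_mul h2 h4 h1 hf0
  refine ⟨?_, ?_⟩
  · apply le_of_sq_le_sq _ (norm_nonneg _)
    rw [e1, mul_pow, e2]
    have h8 : (l * (‖x‖ - ‖y‖)) ^ 2 ≤ (f * ‖x‖ - g * ‖y‖) ^ 2 :=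
      pow_le_pow_left₀ (mul_nonneg h1 hst) h6 2
    have h9 : l ^ 2 * (‖x‖ * ‖y‖ - ⟪x, y⟫) ≤ f * g * (‖x‖ * ‖y‖ - ⟪x, y⟫) :=
      mul_le_mul_of_nonneg_right hfg2 hin
    nlinarith
  · apply le_of_sq_le_sq _ (norm_nonneg _)
    rw [e1, e2]
    have h8 : (f * ‖x‖ - g * ‖y‖) ^ 2 ≤ (‖x‖ - ‖y‖) ^ 2 := by
      apply pow_le_pow_left₀ _ h7
      exact (mul_nonneg h1 hst).trans h6
    have h9 : f * g * (‖x‖ * ‖y‖ - ⟪x, y⟫) ≤ 1 * (‖x‖ * ‖y‖ - ⟪x, y⟫) :=
      mul_le_mul_of_nonneg_right hfg1 hin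
    nlinarith

/-- A configuration whose potential is not small has a heavy body with much mass in its
neighbourhood. -/
theorem exists_heavy_near {N : ℕ} {m : Fin N → ℝ} (hm : ∀ i, 0 < m i) (hM : ∑ i, m i = 1)
    (q : Fin N → V3) {s ρ β V : ℝ} (hs : 0 < s) (hρ : 0 < ρ) (hβ : 0 < β) (hV : 0 ≤ V)
    (hsep : ∀ i j, i ≠ j → s ≤ ‖q i - q j‖)
    (hbig : V / β + β * (1 + 2 * ρ / s) ^ 3 / s / 2 + 1 / (2 * ρ) < pot m q) :
    ∃ k, V ≤ m k * ∑ j with ‖q k - q j‖ ≤ ρ, m j / ‖q k - q j‖ := by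
  classical
  by_contra hcon
  push Not at hcon
  -- one ordered pair
  obtain ⟨t, ht⟩ : ∃ t : Fin N → Fin N → ℝ, t = fun i j =>
      if ‖q i - q j‖ ≤ ρ then m i * m j / ‖q i - q j‖ else 0 := ⟨_, rfl⟩
  have ht0 : ∀ i j, 0 ≤ t i j := by
    intro i j
    have := hm i
    have := hm j
    rw [ht]
    simp only
    split_ifs
    · positivity
    · exact le_rfl
  have htsymm : ∀ i j, t i j = t j i := by
    intro i j
    rw [ht]
    simp only
    rw [norm_sub_rev (q i), mul_comm (m i)]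
  have hS : ∀ k, ∑ j, t k j = m k * ∑ j with ‖q k - q j‖ ≤ ρ, m j / ‖q k - q j‖ := by
    intro k
    rw [ht, Finset.mul_sum, Finset.sum_filter]
    apply Finset.sum_congr rfl
    intro j _
    simp only
    split_ifs
    · ring
    · rfl
  have hSV : ∀ k, ∑ j, t k j ≤ V := fun k => by
    rw [hS]
    exact (hcon k).le
  -- the three parts
  obtain ⟨H, hH⟩ : ∃ H : Finset (Fin N), H = Finset.univ.filter (fun i => β ≤ m i) := ⟨_, rfl⟩
  have hHcard : (H.card : ℝ) * β ≤ 1 := by
    calc (H.card : ℝ) * β = ∑ i ∈ H, β := by rw [Finset.sum_const, nsmul_eq_mul]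
      _ ≤ ∑ i ∈ H, m i := by
          apply Finset.sum_le_sum
          intro i hi
          rw [hH, Finset.mem_filter] at hi
          exact hi.2
      _ ≤ ∑ i, m i := Finset.sum_le_sum_of_subset_of_nonneg (Finset.subset_univ _)
          (fun i _ _ => (hm i).le)
      _ = 1 := hM
  have hheavy : ∑ k ∈ H, ∑ j, t k j ≤ V / β := by
    rw [le_div_iff₀ hβ]
    calc (∑ k ∈ H, ∑ j, t k j) * β ≤ (∑ k ∈ H, V) * β := by
          apply mul_le_mul_of_nonneg_right _ hβ.le
          exact Finset.sum_le_sum (fun k _ => hSV k)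
      _ = V * (H.card * β) := by
          rw [Finset.sum_const, nsmul_eq_mul]
          ring
      _ ≤ V * 1 := mul_le_mul_of_nonneg_left hHcard hV
      _ = V := mul_one V
  have hlight : ∀ k, ∑ j ∈ Hᶜ, t k j ≤ m k * (β * (1 + 2 * ρ / s) ^ 3 / s) := by
    intro k
    obtain ⟨J, hJ⟩ : ∃ J : Finset (Fin N), J = (Hᶜ).filter
        (fun j => j ≠ k ∧ ‖q k - q j‖ ≤ ρ) := ⟨_, rfl⟩
    have hcard : (J.card : ℝ) ≤ (1 + 2 * ρ / s) ^ 3 := by
      apply packing J (fun j => q j - q k) hs hρ.le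
      · intro i _ j _ hij
        have := hsep i j hij
        simpa using this
      · intro j hj
        rw [hJ, Finset.mem_filter] at hj
        show ‖q j - q k‖ ≤ ρ
        rw [norm_sub_rev]
        exact hj.2.2
    have hterm : ∀ j ∈ Hᶜ, t k j ≤ if j ∈ J then m k * (β / s) else 0 := by
      intro j hj
      have hmk := hm k
      have hmj := hm j
      rw [hH, Finset.mem_compl, Finset.mem_filter, not_and] at hj
      have hjβ : m j < β := not_le.mp (hj (Finset.mem_univ j))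
      by_cases hjk : j = k
      · subst hjk
        rw [ht]
        simp only [sub_self, norm_zero, div_zero, ite_self]
        split_ifs
        · positivity
        · exact le_rfl
      · by_cases hr : ‖q k - q j‖ ≤ ρ
        · have hjJ : j ∈ J := by
            rw [hJ, Finset.mem_filter, Finset.mem_compl, hH, Finset.mem_filter]
            exact ⟨fun h => absurd h.2 (not_le.mpr hjβ), hjk, hr⟩
          rw [if_pos hjJ, ht]
          simp only
          rw [if_pos hr, mul_div_assoc]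
          apply mul_le_mul_of_nonneg_left _ hmk.le
          exact div_le_div₀ hβ.le hjβ.le hs (hsep k j (Ne.symm hjk))
        · rw [ht]
          simp only
          rw [if_neg hr]
          split_ifs
          · positivity
          · exact le_rfl
    calc ∑ j ∈ Hᶜ, t k j ≤ ∑ j ∈ Hᶜ, (if j ∈ J then m k * (β / s) else 0) :=
          Finset.sum_le_sum hterm
      _ = (J.card : ℝ) * (m k * (β / s)) := by
          rw [Finset.sum_ite_mem, Finset.sum_const, nsmul_eq_mul]
          congr 2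
          have : Hᶜ ∩ J = J := Finset.inter_eq_right.mpr (by
            rw [hJ]
            exact Finset.filter_subset _ _)
          rw [this]
      _ ≤ (1 + 2 * ρ / s) ^ 3 * (m k * (β / s)) := by
          have := hm k
          gcongr
      _ = _ := by ring
  have hall : ∑ i, ∑ j, t i j ≤ V / β + V / β + β * (1 + 2 * ρ / s) ^ 3 / s := by
    have h1 : ∑ i, ∑ j, t i j = ∑ i ∈ H, ∑ j, t i j + (∑ i ∈ Hᶜ, ∑ j ∈ H, t i j +
        ∑ i ∈ Hᶜ, ∑ j ∈ Hᶜ, t i j) := by
      rw [← Finset.sum_add_distrib, ← Finset.sum_add_sum_compl H (fun i => ∑ j, t i j)]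
      congr 1
      apply Finset.sum_congr rfl
      intro i _
      rw [Finset.sum_add_sum_compl]
    have h2 : ∑ i ∈ Hᶜ, ∑ j ∈ H, t i j ≤ V / β := by
      rw [Finset.sum_comm]
      refine le_trans ?_ hheavy
      apply Finset.sum_le_sum
      intro j _
      calc ∑ i ∈ Hᶜ, t i j ≤ ∑ i, t i j := Finset.sum_le_sum_of_subset_of_nonneg
            (Finset.subset_univ _) (fun i _ _ => ht0 i j)
        _ = ∑ i, t j i := Finset.sum_congr rfl (fun i _ => htsymm i j)
    have h3 : ∑ i ∈ Hᶜ, ∑ j ∈ Hᶜ, t i j ≤ β * (1 + 2 * ρ / s) ^ 3 / s := by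
      calc ∑ i ∈ Hᶜ, ∑ j ∈ Hᶜ, t i j ≤ ∑ i ∈ Hᶜ, m i * (β * (1 + 2 * ρ / s) ^ 3 / s) :=
            Finset.sum_le_sum (fun i _ => hlight i)
        _ ≤ ∑ i, m i * (β * (1 + 2 * ρ / s) ^ 3 / s) :=
            Finset.sum_le_sum_of_subset_of_nonneg (Finset.subset_univ _) (fun i _ _ => by
              have := hm i
              positivity)
        _ = β * (1 + 2 * ρ / s) ^ 3 / s := by rw [← Finset.sum_mul, hM, one_mul]
    linarith
  have hpot : pot m q ≤ (∑ i, ∑ j, t i j) / 2 + 1 / (2 * ρ) := by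
    have h1 : ∀ i j, m i * m j / ‖q i - q j‖ / 2 ≤ t i j / 2 + m i * (m j * (1 / (2 * ρ))) := by
      intro i j
      have hmi := hm i
      have hmj := hm j
      rw [ht]
      simp only
      split_ifs with h
      · have : 0 ≤ m i * (m j * (1 / (2 * ρ))) := by positivity
        linarith
      · push Not at h
        have h2 : m i * m j / ‖q i - q j‖ ≤ m i * m j / ρ :=
          div_le_div_of_nonneg_left (by positivity) hρ h.le
        have h3 : m i * (m j * (1 / (2 * ρ))) = m i * m j / ρ / 2 := by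
          field_simp
        linarith
    unfold pot
    calc ∑ i, ∑ j, m i * m j / ‖q i - q j‖ / 2 ≤
          ∑ i, ∑ j, (t i j / 2 + m i * (m j * (1 / (2 * ρ)))) :=
          Finset.sum_le_sum (fun i _ => Finset.sum_le_sum (fun j _ => h1 i j))
      _ = (∑ i, ∑ j, t i j) / 2 + 1 / (2 * ρ) := by
          simp only [Finset.sum_add_distrib]
          rw [Finset.sum_div]
          congr 1
          · apply Finset.sum_congr rfl
            intro i _
            rw [Finset.sum_div]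
          · have h2 : ∀ i, ∑ j, m i * (m j * (1 / (2 * ρ))) = m i * (1 / (2 * ρ)) := by
              intro i
              rw [← Finset.mul_sum, ← Finset.sum_mul, hM, one_mul]
            rw [Finset.sum_congr rfl (fun i _ => h2 i), ← Finset.sum_mul, hM, one_mul]
  have e1 : (V / β + V / β + β * (1 + 2 * ρ / s) ^ 3 / s) / 2 =
      V / β + β * (1 + 2 * ρ / s) ^ 3 / s / 2 := by ring
  linarith

/-- Lemma P, second case: the contraction about a heavy body. -/
theorem lemP_far {N : ℕ} {m : Fin N → ℝ} (hm : ∀ i, 0 < m i) (q : Fin N → V3)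
    (hq : ∀ i j, i ≠ j → q i ≠ q j) {ρ d : ℝ} (hρ : 0 < ρ) (hd : 0 ≤ d) (hdρ : d < ρ)
    (k : Fin N) {κ : ℝ} (hκ : 0 ≤ κ)
    (hκ' : κ ≤ d / ρ * ((m k * ∑ j with ‖q k - q j‖ ≤ ρ, m j / ‖q k - q j‖) / 2)) :
    ∃ q' : Fin N → V3, (∀ i, ‖q' i - q i‖ ≤ d) ∧ (∀ i j, i ≠ j → q' i ≠ q' j) ∧
      pot m q' = pot m q + κ := by
  classical
  obtain ⟨γ, hγ⟩ : ∃ γ : ℝ → Fin N → V3, γ = fun t i => q k + ctr ρ t (q i - q k) := ⟨_, rfl⟩
  have hγ0 : γ 0 = q := by
    rw [hγ]
    funext i
    simp only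
    rw [ctr_zero]
    abel
  have hγd : ∀ t i j, γ t i - γ t j = ctr ρ t (q i - q k) - ctr ρ t (q j - q k) := by
    intro t i j
    rw [hγ]
    simp only
    abel
  have hdist : ∀ t, 0 ≤ t → t ≤ d → ∀ i j, (1 - t / ρ) * ‖q i - q j‖ ≤ ‖γ t i - γ t j‖ ∧
      ‖γ t i - γ t j‖ ≤ ‖q i - q j‖ := by
    intro t ht htd i j
    have h1 := ctr_dist hρ ht (htd.trans hdρ.le) (q i - q k) (q j - q k)
    rw [sub_sub_sub_cancel_right] at h1
    rw [hγd]
    exact h1
  have hnc : ∀ t ∈ Icc 0 d, ∀ i j, i ≠ j → γ t i ≠ γ t j := by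
    intro t ht i j hij h
    have h1 := (hdist t ht.1 ht.2 i j).1
    rw [h, sub_self, norm_zero] at h1
    have h2 : 0 < ‖q i - q j‖ := norm_pos_iff.mpr (sub_ne_zero.mpr (hq i j hij))
    have h3 : t / ρ < 1 := by
      rw [div_lt_one hρ]
      exact lt_of_le_of_lt ht.2 hdρ
    have h4 : 0 < (1 - t / ρ) * ‖q i - q j‖ := mul_pos (by linarith) h2
    linarith
  -- the growth
  have hgrow : pot m q + d / ρ * ((m k * ∑ j with ‖q k - q j‖ ≤ ρ, m j / ‖q k - q j‖) / 2) ≤
      pot m (γ d) := by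
    have hdρ1 : 0 < 1 - d / ρ := by
      have : d / ρ < 1 := by
        rw [div_lt_one hρ]
        exact hdρ
      linarith
    have h1 : ∀ i j, m i * m j / ‖q i - q j‖ / 2 +
        (if i = k then (if ‖q k - q j‖ ≤ ρ then d / ρ * (m k * (m j / ‖q k - q j‖) / 2) else 0)
          else 0) ≤ m i * m j / ‖γ d i - γ d j‖ / 2 := by
      intro i j
      have hmi := hm i
      have hmj := hm j
      have hmk := hm k
      by_cases hij : i = j
      · subst hij
        rw [sub_self, norm_zero, div_zero, zero_div, zero_add]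
        have h2 : (if i = k then (if ‖q k - q i‖ ≤ ρ then
            d / ρ * (m k * (m i / ‖q k - q i‖) / 2) else 0) else 0) = 0 := by
          by_cases hik : i = k
          · subst hik
            simp
          · rw [if_neg hik]
        rw [h2]
        positivity
      · have hpos : 0 < ‖q i - q j‖ := norm_pos_iff.mpr (sub_ne_zero.mpr (hq i j hij))
        obtain ⟨h3, h4⟩ := hdist d hd le_rfl i j
        have hpos' : 0 < ‖γ d i - γ d j‖ := lt_of_lt_of_le (mul_pos hdρ1 hpos) h3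
        have h5 : m i * m j / ‖q i - q j‖ ≤ m i * m j / ‖γ d i - γ d j‖ :=
          div_le_div_of_nonneg_left (by positivity) hpos' h4
        split_ifs with hik hr
        · subst hik
          have h6 : ‖γ d i - γ d j‖ = (1 - d / ρ) * ‖q i - q j‖ := by
            rw [hγd, sub_self, ctr_near (x := (0 : V3)) (by rw [norm_zero]; exact hρ.le),
              smul_zero, zero_sub, norm_neg, ctr_near (by rw [norm_sub_rev]; exact hr),
              norm_smul, Real.norm_of_nonneg hdρ1.le, norm_sub_rev]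
          rw [h6]
          have h7 : (1 + d / ρ) * (m i * m j / ‖q i - q j‖) ≤
              m i * m j / ((1 - d / ρ) * ‖q i - q j‖) := by
            rw [le_div_iff₀ (by positivity)]
            have e1 : (1 + d / ρ) * (m i * m j / ‖q i - q j‖) * ((1 - d / ρ) * ‖q i - q j‖) =
                (1 - (d / ρ) ^ 2) * (m i * m j) := by
              field_simp
              ring
            rw [e1]
            have h8 : 0 ≤ (d / ρ) ^ 2 := by positivity
            have h9 : 0 < m i * m j := by positivity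
            nlinarith
          have e2 : (1 + d / ρ) * (m i * m j / ‖q i - q j‖) = m i * m j / ‖q i - q j‖ +
              d / ρ * (m i * (m j / ‖q i - q j‖)) := by ring
          linarith
        · linarith
        · linarith
    calc pot m q + d / ρ * ((m k * ∑ j with ‖q k - q j‖ ≤ ρ, m j / ‖q k - q j‖) / 2) =
          ∑ i, ∑ j, (m i * m j / ‖q i - q j‖ / 2 +
        (if i = k then (if ‖q k - q j‖ ≤ ρ then d / ρ * (m k * (m j / ‖q k - q j‖) / 2) else 0)
          else 0)) := by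
          unfold pot
          simp only [Finset.sum_add_distrib]
          congr 1
          rw [Finset.sum_eq_single k (fun i _ hik => by simp [hik])
            (fun h => absurd (Finset.mem_univ k) h)]
          simp only [if_true]
          rw [← Finset.sum_filter, Finset.mul_sum, Finset.sum_div, Finset.mul_sum]
      _ ≤ pot m (γ d) := by
          unfold pot
          exact Finset.sum_le_sum (fun i _ => Finset.sum_le_sum (fun j _ => h1 i j))
  obtain ⟨t, ht, hW⟩ := pot_ivt m γ hd (fun i => by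
      rw [hγ]
      unfold ctr
      simp only
      fun_prop) hnc (W := pot m q + κ) (by rw [hγ0]; linarith) (by linarith)
  refine ⟨γ t, fun i => ?_, hnc t ht, hW⟩
  have h1 := ctr_move hρ ht.1 (q i - q k)
  have h2 : γ t i - q i = ctr ρ t (q i - q k) - (q i - q k) := by
    rw [hγ]
    simp only
    abel
  rw [h2]
  exact h1.trans ht.2

/-- **Lemma P.** If the potential is at least `1 / X`, then a displacement of the bodies by at most
`1 / (2 X)` increases it by any prescribed amount up to `1 / X ^ 12`. -/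
theorem lemP_half {X : ℝ} (hX : 10 ^ 9 ≤ X) {N : ℕ} {m : Fin N → ℝ} (hm : ∀ i, 0 < m i)
    (hM : ∑ i, m i = 1) (q : Fin N → V3) (hq : ∀ i j, i ≠ j → q i ≠ q j)
    (hU : 1 / X ≤ pot m q) {κ : ℝ} (hκ : 0 ≤ κ) (hκ' : κ ≤ 1 / X ^ 12) :
    ∃ q' : Fin N → V3, (∀ i, ‖q' i - q i‖ ≤ 1 / (2 * X)) ∧ (∀ i j, i ≠ j → q' i ≠ q' j) ∧
      pot m q' = pot m q + κ := by
  have hX1 : 1 ≤ X := le_trans (by norm_num) hX
  have hX0 : 0 < X := by linarith
  by_cases hclose : ∃ a b, a ≠ b ∧ ‖q a - q b‖ ≤ 1 / (2 * X)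
  · obtain ⟨a, b, hab, hcl⟩ := hclose
    obtain ⟨q', h1, h2, h3⟩ := lemP_close hm q hq hab hκ
    exact ⟨q', fun i => (h1 i).trans hcl, h2, h3⟩
  · push Not at hclose
    have hbig : 1 / (4 * (300000 * X ^ 9)) / (1 / (300000 * X ^ 8)) +
        1 / (300000 * X ^ 8) * (1 + 2 * (8 * X) / (1 / (2 * X))) ^ 3 / (1 / (2 * X)) / 2 +
        1 / (2 * (8 * X)) < pot m q := by
      refine lt_of_lt_of_le ?_ hU
      have e1 : 1 / (4 * (300000 * X ^ 9)) / (1 / (300000 * X ^ 8)) = 1 / (4 * X) := by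
        field_simp
      have e2 : 2 * (8 * X) / (1 / (2 * X)) = 32 * X ^ 2 := by
        field_simp
        norm_num
      have h1 : (1 + 32 * X ^ 2) ^ 3 ≤ 35937 * X ^ 6 := by
        have h2 : 1 + 32 * X ^ 2 ≤ 33 * X ^ 2 := by
          have : (1 : ℝ) ≤ X ^ 2 := one_le_pow₀ hX1
          linarith
        calc (1 + 32 * X ^ 2) ^ 3 ≤ (33 * X ^ 2) ^ 3 := pow_le_pow_left₀ (by positivity) h2 3
          _ = 35937 * X ^ 6 := by ring
      have h3 : 1 / (300000 * X ^ 8) * (1 + 32 * X ^ 2) ^ 3 / (1 / (2 * X)) / 2 ≤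
          1 / (8 * X) := by
        calc 1 / (300000 * X ^ 8) * (1 + 32 * X ^ 2) ^ 3 / (1 / (2 * X)) / 2 =
              (1 + 32 * X ^ 2) ^ 3 / (300000 * X ^ 7) := by
                field_simp
          _ ≤ 35937 * X ^ 6 / (300000 * X ^ 7) := by gcongr
          _ = 35937 / 300000 / X := by
                field_simp
          _ ≤ 1 / (8 * X) := by
                rw [div_div, div_le_div_iff₀ (by positivity) (by positivity)]
                linarith
      rw [e1, e2]
      have h4 : 1 / (4 * X) + 1 / (8 * X) + 1 / (2 * (8 * X)) = 7 / 16 * (1 / X) := by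
        field_simp
        norm_num
      have h5 : 0 < 1 / X := by positivity
      linarith
    obtain ⟨k, hk⟩ := exists_heavy_near hm hM q (s := 1 / (2 * X)) (ρ := 8 * X)
      (β := 1 / (300000 * X ^ 8)) (V := 1 / (4 * (300000 * X ^ 9))) (by positivity)
      (by positivity) (by positivity) (by positivity) (fun i j hij => (hclose i j hij).le) hbig
    obtain ⟨q', h1, h2, h3⟩ := lemP_far hm q hq (ρ := 8 * X) (d := 1 / (2 * X)) (by positivity)
      (by positivity) (by
        rw [div_lt_iff₀ (by positivity)]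
        nlinarith) k hκ (by
        refine hκ'.trans ?_
        calc 1 / X ^ 12 ≤ 1 / (2 * X) / (8 * X) * (1 / (4 * (300000 * X ^ 9)) / 2) := by
              have e1 : 1 / (2 * X) / (8 * X) * (1 / (4 * (300000 * X ^ 9)) / 2) =
                  1 / (38400000 * X ^ 11) := by
                field_simp
                norm_num
              rw [e1]
              apply one_div_le_one_div_of_le (by positivity)
              calc 38400000 * X ^ 11 ≤ X * X ^ 11 := by
                    apply mul_le_mul_of_nonneg_right _ (by positivity)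
                    linarith
                _ = X ^ 12 := by ring
          _ ≤ _ := by gcongr)
    exact ⟨q', h1, h2, h3⟩

end Pool.Agent.NBody
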