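import Mathlib
import Pool.Agent.NBody.ThPrep

/-!
Construction of a prepared state near a given state: assembly.
-/

set_option autoImplicit false
open scoped RealInnerProductSpace
open Set Finset Filter Topology

namespace Pool.Agent.NBody

/-- the arithmetic of the energy match -/
theorem energy_arith {N G₀ P P₀ ε₂ A₂ Ku Kv E V c δ₁ A : ℝ} (hN : 0 < N) (hG₀ : G₀ = δ₁ ^ 2 / 64)
    (hδ : 0 < δ₁) (hδ1 : δ₁ ≤ 1) (hP₀ : 1 ≤ P₀) (hε₂ : ε₂ = G₀ / (16 * P₀)) (hP : P ≤ P₀)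
    (hP0 : 0 ≤ P) (hA : A = 2 * N ^ 2 * P) (hA₂ : A₂ ≤ ((1 - ε₂) ^ 2)⁻¹ * A)
    (hPE : Ku / (2 * N) - E = P) (hKv : Ku + (δ₁ / 4) ^ 2 * (N - 4) - 3 * V ^ 2 ≤ Kv)
    (hc : 0 < c) (hbig : (6 / c + 1 + 3 * V ^ 2) / G₀ ≤ N) :
    N ^ 2 * G₀ + 6 * N / c + A₂ ≤ 2 * N ^ 2 * (Kv / (2 * N) - E) := by
  have hG0 : 0 < G₀ := by rw [hG₀]; positivity
  have hG1 : G₀ ≤ 1 / 64 := by
    rw [hG₀]
    have : δ₁ ^ 2 ≤ 1 := by nlinarith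
    linarith
  have hε0 : 0 < ε₂ := by rw [hε₂]; positivity
  have hεP : ε₂ * (16 * P₀) = G₀ := by
    rw [hε₂]; field_simp
  have hε1 : ε₂ ≤ 1 / 4 := by nlinarith
  have hinv : ((1 - ε₂) ^ 2)⁻¹ ≤ 1 + 4 * ε₂ := by
    have h1 : 0 < (1 - ε₂) ^ 2 := by
      have : 0 < 1 - ε₂ := by linarith
      positivity
    rw [inv_le_iff_one_le_mul₀ h1]
    have h2 : 0 ≤ ε₂ ^ 3 := by positivity
    nlinarith
  have hA0 : 0 ≤ A := by rw [hA]; positivity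
  have h1 : A₂ ≤ 2 * N ^ 2 * P + N ^ 2 * G₀ / 2 := by
    have h2 : ((1 - ε₂) ^ 2)⁻¹ * A ≤ (1 + 4 * ε₂) * A := mul_le_mul_of_nonneg_right hinv hA0
    have h3 : (1 + 4 * ε₂) * A = 2 * N ^ 2 * P + 8 * N ^ 2 * (ε₂ * P) := by rw [hA]; ring
    have h4 : ε₂ * P ≤ ε₂ * P₀ := mul_le_mul_of_nonneg_left hP hε0.le
    have h5 : 8 * N ^ 2 * (ε₂ * P) ≤ 8 * N ^ 2 * (ε₂ * P₀) :=
      mul_le_mul_of_nonneg_left h4 (by positivity)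
    have h6 : 8 * N ^ 2 * (ε₂ * P₀) = N ^ 2 * G₀ / 2 := by rw [← hεP]; ring
    linarith
  have h2 : 2 * N ^ 2 * (Kv / (2 * N) - E) = N * (Kv - Ku) + 2 * N ^ 2 * P := by
    rw [← hPE]
    field_simp
    ring
  rw [h2]
  have h3 : N * ((δ₁ / 4) ^ 2 * (N - 4) - 3 * V ^ 2) ≤ N * (Kv - Ku) :=
    mul_le_mul_of_nonneg_left (by linarith) hN.le
  have h4 : (δ₁ / 4) ^ 2 = 4 * G₀ := by rw [hG₀]; ring
  rw [h4] at h3
  rw [div_le_iff₀ hG0] at hbig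
  have h5 : N * (6 / c + 1 + 3 * V ^ 2) ≤ N * (N * G₀) := mul_le_mul_of_nonneg_left hbig hN.le
  have h6 : 6 * N / c = N * (6 / c) := by ring
  rw [h6]
  have h7 : N * (16 * G₀) ≤ N * 1 := mul_le_mul_of_nonneg_left (by linarith) hN.le
  have h8 : 0 ≤ N ^ 2 * G₀ := by positivity
  nlinarith

theorem gun_energy_pos {s : Fin 3 → V3} {e : V3} (hs : GunShape s e) :
    0 < ∑ k, ∑ l, 1 / ‖s k - s l‖ := by
  have h1 : (0:ℝ) < 1 / ‖s 0 - s 1‖ := by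
    have : 0 < ‖s 0 - s 1‖ := norm_pos_iff.mpr (sub_ne_zero.mpr (hs.ne 0 1 (by decide)))
    positivity
  have h2 : 1 / ‖s 0 - s 1‖ ≤ ∑ l, 1 / ‖s 0 - s l‖ :=
    Finset.single_le_sum (f := fun l => 1 / ‖s 0 - s l‖) (fun _ _ => by positivity)
      (Finset.mem_univ 1)
  have h3 : ∑ l, 1 / ‖s 0 - s l‖ ≤ ∑ k, ∑ l, 1 / ‖s k - s l‖ :=
    Finset.single_le_sum (f := fun k => ∑ l, 1 / ‖s k - s l‖)
      (fun _ _ => Finset.sum_nonneg (fun _ _ => by positivity)) (Finset.mem_univ 0)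
  linarith

/-- The construction of prepared states for one `N` and one `δ₁`, with explicit hypotheses on the
parameters. -/
theorem prep_at {C₁ : ℝ → ℝ → ℝ} (hC₁ : ∀ η ε, 0 < η → 0 < ε → 0 < C₁ η ε)
    (hsp : SpreadRest C₁) {s : Fin 3 → V3} {e : V3} (hs : GunShape s e) (E R V δ₁ : ℝ)
    (hδ₁ : 0 < δ₁) (hδ₁1 : δ₁ ≤ 1) {N K : ℕ} {G₀ P₀ P₁ ε₂ u₀ c b' : ℝ}
    (hG₀ : G₀ = δ₁ ^ 2 / 64) (hP₀ : P₀ = V ^ 2 / 2 + |E| + 1) (hε₂ : ε₂ = G₀ / (16 * P₀))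
    (hu₀ : u₀ = ∑ k, ∑ l, 1 / ‖s k - s l‖) (hP₁ : P₁ = (|V| + 1) ^ 2 / 2 + |E|)
    (hc : c = δ₁ / 32) (hb3 : b' ≤ C₁ c ε₂) (hK' : (|R| + |V|) / c + 1 ≤ K)
    (hN1 : (2 * K + 1) ^ 6 * 2 < N) (hN4 : (6 / c + 1 + 3 * V ^ 2) / G₀ ≤ N)
    (hN5 : u₀ / G₀ / (N : ℝ) ^ 2 ≤ δ₁ / 16) :
    ∀ x : Ph N, x ∈ NC N →
      ∑ i, x.1 i = 0 → ∑ i, x.2 i = 0 →
      kin (fun _ => 1 / (N : ℝ)) x.2 - pot (fun _ => 1 / (N : ℝ)) x.1 = E →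
      (∀ i, ‖x.1 i‖ ≤ R) → (∀ i, (N : ℝ) * ‖x.2 i‖ ≤ V) →
      ∃ (r : ℝ) (g : Fin 3 → Fin N) (z w : V3) (q v : Fin N → V3),
        u₀ / (2 * P₁) / (N : ℝ) ^ 2 ≤ r ∧ r ≤ u₀ / G₀ / (N : ℝ) ^ 2 ∧
        Prep N (|R| + |V| + 1) c (b' * (N : ℝ) ^ (-(1 / 3) : ℝ)) r s g z w q v ∧
        ((q, (1 / (N : ℝ)) • v) : Ph N) ∈ NC N ∧ ∑ i, q i = 0 ∧ ∑ i, v i = 0 ∧
        kin (fun _ => 1 / (N : ℝ)) ((1 / (N : ℝ)) • v) - pot (fun _ => 1 / (N : ℝ)) q = E ∧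
        (∀ i, ‖q i - x.1 i‖ ≤ δ₁) ∧ (∀ i, ‖v i - (N : ℝ) • x.2 i‖ ≤ δ₁) := by
  classical
  intro x hnc hcom hmom hen hR hV
  have hG0 : 0 < G₀ := by rw [hG₀]; positivity
  have hG1 : G₀ ≤ 1 / 64 := by
    rw [hG₀]
    have : δ₁ ^ 2 ≤ 1 := by nlinarith
    linarith
  have hP₀1 : 1 ≤ P₀ := by
    rw [hP₀]
    have := abs_nonneg E
    have := sq_nonneg V
    linarith
  have hε₂0 : 0 < ε₂ := by rw [hε₂]; positivity
  have hε₂1 : ε₂ < 1 := by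
    rw [hε₂, div_lt_one (by positivity)]
    linarith
  have hu0 : 0 < u₀ := by
    rw [hu₀]
    exact gun_energy_pos hs
  have hP₁1 : 1 / 2 ≤ P₁ := by
    rw [hP₁]
    have := abs_nonneg E
    have := abs_nonneg V
    nlinarith
  have hc0 : 0 < c := by rw [hc]; positivity
  have hC : 0 < C₁ c ε₂ := hC₁ _ _ hc0 hε₂0
  have hP₁0 : 0 < P₁ := by linarith
  have hNpos : 0 < N := lt_of_le_of_lt (Nat.zero_le _) hN1
  have hNr : (0 : ℝ) < N := by exact_mod_cast hNpos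
  have hN3 : (1 : ℝ) ≤ N := by exact_mod_cast hNpos
  -- velocities
  obtain ⟨u, hu⟩ : ∃ u : Fin N → V3, u = (N : ℝ) • x.2 := ⟨_, rfl⟩
  have hui : ∀ i, u i = (N : ℝ) • x.2 i := fun i => by rw [hu]; rfl
  have hxu : x.2 = (1 / (N : ℝ)) • u := by
    rw [hu, smul_smul, one_div, inv_mul_cancel₀ hNr.ne', one_smul]
  have huV : ∀ i, ‖u i‖ ≤ V := by
    intro i
    rw [hui, norm_smul, Real.norm_of_nonneg hNr.le]
    exact hV i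
  have husum : ∑ i, u i = 0 := by
    simp only [hui]
    rw [← Finset.smul_sum, hmom, smul_zero]
  have hV0 : 0 ≤ V := (norm_nonneg _).trans (huV ⟨0, hNpos⟩)
  -- the gun
  obtain ⟨g, hg, hgq, hgu⟩ := exists_gun x.1 u hc0 hR huV hK' hN1
  have hcd : 2 * c = δ₁ / 16 := by rw [hc]; ring
  rw [hcd] at hgq hgu
  obtain ⟨w, v, hvg, hvr, hvg', hvsum, hvkin⟩ := exists_kick hg u (ε := δ₁ / 4) (η := δ₁ / 16)
    (V := V) (by positivity) huV hgu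
  have hvu : ∀ i, ‖v i - u i‖ ≤ δ₁ / 4 := by
    intro i
    by_cases hi : i ∈ rest g
    · exact hvr i hi
    · rw [mem_rest, not_not] at hi
      obtain ⟨k, rfl⟩ := hi
      exact (hvg' k).trans (by linarith)
  -- opening of the layer
  obtain ⟨z₀, hz₀⟩ : ∃ z₀ : V3, z₀ = x.1 (g 0) := ⟨_, rfl⟩
  obtain ⟨q₁, hq₁⟩ : ∃ q₁ : Fin N → V3, q₁ = fun j => openLayer (z₀ 2) (δ₁ / 16) (x.1 j) :=
    ⟨_, rfl⟩
  have hρ : (0:ℝ) ≤ δ₁ / 16 := by positivity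
  have hq₁d : ∀ i j, ‖x.1 i - x.1 j‖ ≤ ‖q₁ i - q₁ j‖ := by
    intro i j
    rw [hq₁]
    exact dist_le_openLayer hρ _ _
  have hq₁x : ∀ i, ‖q₁ i - x.1 i‖ ≤ δ₁ / 16 := by
    intro i
    rw [hq₁]
    exact openLayer_sub_self hρ _
  have hq₁h : ∀ i, δ₁ / 16 ≤ |q₁ i 2 - z₀ 2| := by
    intro i
    rw [hq₁]
    exact openLayer_height hρ _
  have hxpos : ∀ i j, i ≠ j → 0 < ‖x.1 i - x.1 j‖ := fun i j hij =>
    norm_pos_iff.mpr (sub_ne_zero.mpr (hnc i j hij))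
  have hq₁ne : ∀ i ∈ rest g, ∀ j ∈ rest g, i ≠ j → q₁ i ≠ q₁ j := by
    intro i _ j _ hij h
    have h1 := (hxpos i j hij).trans_le (hq₁d i j)
    rw [h, sub_self, norm_zero] at h1
    exact lt_irrefl _ h1
  -- spreading
  obtain ⟨q₂, hq₂d, hq₂s, hq₂e⟩ := hsp N g q₁ hg hNpos hq₁ne c ε₂ hc0 hε₂0 hε₂1
  have hq₂x : ∀ i ∈ rest g, ‖q₂ i - x.1 i‖ ≤ 3 * δ₁ / 32 := by
    intro i hi
    have h1 := hq₂d i hi
    have h2 := hq₁x i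
    calc ‖q₂ i - x.1 i‖ = ‖(q₂ i - q₁ i) + (q₁ i - x.1 i)‖ := by congr 1; abel
      _ ≤ ‖q₂ i - q₁ i‖ + ‖q₁ i - x.1 i‖ := norm_add_le _ _
      _ ≤ c + δ₁ / 16 := add_le_add h1 h2
      _ = 3 * δ₁ / 32 := by rw [hc]; ring
  have hlay : ∀ j ∈ rest g, c ≤ |q₂ j 2 - z₀ 2| := by
    intro j hj
    have h1 := hq₁h j
    have h2 : |q₂ j 2 - q₁ j 2| ≤ c := by
      have h3 := abs_coord_le (q₂ j - q₁ j) 2
      rw [PiLp.sub_apply] at h3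
      exact h3.trans (hq₂d j hj)
    have h4 : |q₁ j 2 - z₀ 2| ≤ |q₂ j 2 - z₀ 2| + |q₂ j 2 - q₁ j 2| := by
      have h5 : q₁ j 2 - z₀ 2 = (q₂ j 2 - z₀ 2) - (q₂ j 2 - q₁ j 2) := by ring
      rw [h5]
      exact abs_sub _ _
    have h6 : δ₁ / 16 = 2 * c := by rw [hc]; ring
    linarith
  -- energies
  obtain ⟨Ku, hKu⟩ : ∃ Ku : ℝ, Ku = ∑ i, ‖u i‖ ^ 2 := ⟨_, rfl⟩
  obtain ⟨Kv, hKv⟩ : ∃ Kv : ℝ, Kv = ∑ i, ‖v i‖ ^ 2 := ⟨_, rfl⟩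
  rw [← hKu, ← hKv] at hvkin
  have hen' : Ku / (2 * (N : ℝ)) - E = invd x.1 / (2 * (N : ℝ) ^ 2) := by
    rw [hxu, kin_eq hNpos, pot_eq_invd hNpos, ← hKu] at hen
    linarith
  have hinv0 : 0 ≤ invd x.1 :=
    Finset.sum_nonneg (fun _ _ => Finset.sum_nonneg (fun _ _ => by positivity))
  have hKuV : Ku ≤ (N : ℝ) * V ^ 2 := by
    rw [hKu]
    have h1 : ∑ i, ‖u i‖ ^ 2 ≤ ∑ i : Fin N, V ^ 2 :=
      Finset.sum_le_sum (fun i _ => pow_le_pow_left₀ (norm_nonneg _) (huV i) 2)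
    rw [Finset.sum_const, Finset.card_univ, Fintype.card_fin, nsmul_eq_mul] at h1
    exact h1
  have hKvV : Kv ≤ (N : ℝ) * (|V| + 1) ^ 2 := by
    rw [hKv]
    have h1 : ∑ i, ‖v i‖ ^ 2 ≤ ∑ i : Fin N, (|V| + 1) ^ 2 := by
      apply Finset.sum_le_sum
      intro i _
      apply pow_le_pow_left₀ (norm_nonneg _)
      have h2 : ‖v i‖ ≤ ‖u i‖ + ‖v i - u i‖ := by
        calc ‖v i‖ = ‖u i + (v i - u i)‖ := by congr 1; abel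
          _ ≤ _ := norm_add_le _ _
      have h3 := huV i
      have h4 := hvu i
      have h5 := le_abs_self V
      linarith
    rw [Finset.sum_const, Finset.card_univ, Fintype.card_fin, nsmul_eq_mul] at h1
    exact h1
  obtain ⟨P, hP⟩ : ∃ P : ℝ, P = invd x.1 / (2 * (N : ℝ) ^ 2) := ⟨_, rfl⟩
  have hP0 : 0 ≤ P := by rw [hP]; positivity
  have hPP₀ : P ≤ P₀ := by
    rw [hP, ← hen', hP₀]
    have h1 : Ku / (2 * (N : ℝ)) ≤ V ^ 2 / 2 := by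
      rw [div_le_iff₀ (by positivity)]
      linarith
    have h2 := neg_abs_le E
    linarith
  have hA : invd x.1 = 2 * (N : ℝ) ^ 2 * P := by
    rw [hP]; field_simp
  obtain ⟨A₂, hA₂⟩ : ∃ A₂ : ℝ, A₂ = ∑ i ∈ rest g, ∑ j ∈ rest g, 1 / ‖q₂ i - q₂ j‖ := ⟨_, rfl⟩
  have hA₂le : A₂ ≤ ((1 - ε₂) ^ 2)⁻¹ * invd x.1 := by
    rw [hA₂]
    refine hq₂e.trans ?_
    apply mul_le_mul_of_nonneg_left _ (by positivity)
    refine le_trans ?_ (invd_rest_le hg x.1)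
    apply Finset.sum_le_sum
    intro i _
    apply Finset.sum_le_sum
    intro j _
    by_cases hij : i = j
    · subst hij
      simp
    · exact one_div_le_one_div_of_le (hxpos i j hij) (hq₁d i j)
  have harith := energy_arith hNr hG₀ hδ₁ hδ₁1 hP₀1 hε₂ hPP₀ hP0 hA hA₂le (by rw [hen', hP]) hvkin
    hc0 hN4
  obtain ⟨r, hr1, hr2, hrY⟩ := exists_size hg hs.flat z₀ q₂ hc0 hlay
    (Y := 2 * (N : ℝ) ^ 2 * (Kv / (2 * (N : ℝ)) - E)) (r₁ := u₀ / (2 * P₁) / (N : ℝ) ^ 2)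
    (r₂ := u₀ / G₀ / (N : ℝ) ^ 2) (by positivity) (by
      apply div_le_div_of_nonneg_right _ (by positivity)
      apply div_le_div_of_nonneg_left hu0.le hG0
      linarith) (by
      rw [← hu₀]
      have h1 : u₀ / (u₀ / (2 * P₁) / (N : ℝ) ^ 2) = 2 * (N : ℝ) ^ 2 * P₁ := by
        field_simp
      rw [h1]
      apply mul_le_mul_of_nonneg_left _ (by positivity)
      have h2 : Kv / (2 * (N : ℝ)) ≤ (|V| + 1) ^ 2 / 2 := by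
        rw [div_le_iff₀ (by positivity)]
        linarith
      have h3 := neg_abs_le E
      rw [hP₁]
      linarith) (by
      rw [← hu₀, ← hA₂]
      have h1 : u₀ / (u₀ / G₀ / (N : ℝ) ^ 2) = (N : ℝ) ^ 2 * G₀ := by
        field_simp
      rw [h1]
      exact harith)
  have hr0 : 0 < r := lt_of_lt_of_le (by positivity) hr1
  have hrδ : r ≤ δ₁ / 16 := hr2.trans hN5
  -- positions
  obtain ⟨Q, hQ⟩ : ∃ Q : Fin N → V3, Q = gunPos g s z₀ q₂ r := ⟨_, rfl⟩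
  have hQg : ∀ k, Q (g k) = z₀ + r • s k := fun k => by rw [hQ]; exact gunPos_gun hg s z₀ q₂ r k
  have hQr : ∀ j ∈ rest g, Q j = q₂ j := fun j hj => by rw [hQ]; exact gunPos_rest s z₀ q₂ r hj
  rw [← hQ] at hrY
  have hQx : ∀ i, ‖Q i - x.1 i‖ ≤ δ₁ / 8 := by
    intro i
    by_cases hi : i ∈ rest g
    · rw [hQr i hi]
      exact (hq₂x i hi).trans (by linarith)
    · rw [mem_rest, not_not] at hi
      obtain ⟨k, rfl⟩ := hi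
      rw [hQg, hz₀]
      calc ‖x.1 (g 0) + r • s k - x.1 (g k)‖ = ‖(x.1 (g 0) - x.1 (g k)) + r • s k‖ := by
            congr 1; abel
        _ ≤ ‖x.1 (g 0) - x.1 (g k)‖ + ‖r • s k‖ := norm_add_le _ _
        _ ≤ δ₁ / 16 + δ₁ / 16 := by
          apply add_le_add (hgq 0 k)
          rw [norm_smul, Real.norm_of_nonneg hr0.le]
          have := hs.le k
          nlinarith
        _ = δ₁ / 8 := by ring
  obtain ⟨m₀, hm₀⟩ : ∃ m₀ : V3, m₀ = (1 / (N : ℝ)) • ∑ i, Q i := ⟨_, rfl⟩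
  have hm₀n : ‖m₀‖ ≤ δ₁ / 8 := by
    have h1 : m₀ = (1 / (N : ℝ)) • ∑ i, (Q i - x.1 i) := by
      rw [hm₀, Finset.sum_sub_distrib, hcom, sub_zero]
    rw [h1, norm_smul, Real.norm_of_nonneg (by positivity)]
    have h2 : ‖∑ i, (Q i - x.1 i)‖ ≤ ∑ i : Fin N, δ₁ / 8 :=
      (norm_sum_le _ _).trans (Finset.sum_le_sum (fun i _ => hQx i))
    rw [Finset.sum_const, Finset.card_univ, Fintype.card_fin, nsmul_eq_mul] at h2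
    rw [one_div, inv_mul_le_iff₀ hNr]
    exact h2
  have hqsub : ∀ i j, (Q i - m₀) - (Q j - m₀) = Q i - Q j := fun i j => by abel
  have hqx : ∀ i, ‖Q i - m₀ - x.1 i‖ ≤ δ₁ / 4 := by
    intro i
    calc ‖Q i - m₀ - x.1 i‖ = ‖(Q i - x.1 i) - m₀‖ := by congr 1; abel
      _ ≤ ‖Q i - x.1 i‖ + ‖m₀‖ := norm_sub_le _ _
      _ ≤ δ₁ / 8 + δ₁ / 8 := add_le_add (hQx i) hm₀n
      _ = δ₁ / 4 := by ring
  refine ⟨r, g, z₀ - m₀, w, fun i => Q i - m₀, v, hr1, hr2, ?_, ?_, ?_, ?_, ?_, ?_, ?_⟩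
  · -- Prep
    refine ⟨hg, ?_, ?_, ?_, hvg, ?_, ?_⟩
    · intro i
      have h1 := hqx i
      have h2 := hR i
      have h3 := le_abs_self R
      have h4 := abs_nonneg V
      have h5 : ‖Q i - m₀‖ ≤ ‖Q i - m₀ - x.1 i‖ + ‖x.1 i‖ := by
        calc ‖Q i - m₀‖ = ‖(Q i - m₀ - x.1 i) + x.1 i‖ := by congr 1; abel
          _ ≤ _ := norm_add_le _ _
      linarith
    · intro i
      have h1 := hvu i
      have h2 := huV i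
      have h3 := abs_nonneg R
      have h4 := le_abs_self V
      have h5 : ‖v i‖ ≤ ‖v i - u i‖ + ‖u i‖ := by
        calc ‖v i‖ = ‖(v i - u i) + u i‖ := by congr 1; abel
          _ ≤ _ := norm_add_le _ _
      linarith
    · intro k
      rw [hQg]; abel
    · intro i j hi hj hij
      rw [hqsub, hQr i (mem_rest.mpr hi), hQr j (mem_rest.mpr hj)]
      refine le_trans ?_ (hq₂s i (mem_rest.mpr hi) j (mem_rest.mpr hj) hij)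
      exact mul_le_mul_of_nonneg_right hb3 (by positivity)
    · intro j hj
      simp only
      rw [PiLp.sub_apply, PiLp.sub_apply, sub_sub_sub_cancel_right, hQr j (mem_rest.mpr hj)]
      exact hlay j (mem_rest.mpr hj)
  · -- no collisions
    intro i j hij h
    have hQij : Q i = Q j := by
      have h1 : (Q i - m₀) = (Q j - m₀) := h
      exact sub_left_injective h1
    have hmix : ∀ k : Fin 3, ∀ j ∈ rest g, Q (g k) ≠ Q j := by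
      intro k j hj h1
      rw [hQg, hQr j hj] at h1
      have h2 := hlay j hj
      rw [← h1] at h2
      have h3 : (z₀ + r • s k) 2 - z₀ 2 = 0 := by
        simp [hs.flat k]
      rw [h3, abs_zero] at h2
      linarith
    by_cases hi : i ∈ rest g
    · by_cases hj : j ∈ rest g
      · rw [hQr i hi, hQr j hj] at hQij
        have h1 := hq₂s i hi j hj hij
        rw [hQij, sub_self, norm_zero] at h1
        have h2 : 0 < C₁ c ε₂ * (N : ℝ) ^ (-(1 / 3) : ℝ) :=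
          mul_pos hC (Real.rpow_pos_of_pos hNr _)
        linarith
      · rw [mem_rest, not_not] at hj
        obtain ⟨l, rfl⟩ := hj
        exact hmix l i hi hQij.symm
    · rw [mem_rest, not_not] at hi
      obtain ⟨k, rfl⟩ := hi
      by_cases hj : j ∈ rest g
      · exact hmix k j hj hQij
      · rw [mem_rest, not_not] at hj
        obtain ⟨l, rfl⟩ := hj
        rw [hQg, hQg] at hQij
        have h1 : r • s k = r • s l := add_left_cancel hQij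
        have h2 : s k = s l := smul_right_injective V3 hr0.ne' h1
        have hkl : k ≠ l := fun h => hij (by rw [h])
        exact hs.ne k l hkl h2
  · -- centre of mass
    rw [Finset.sum_sub_distrib, Finset.sum_const, Finset.card_univ, Fintype.card_fin, hm₀,
      ← Nat.cast_smul_eq_nsmul ℝ, smul_smul, mul_one_div, div_self hNr.ne', one_smul, sub_self]
  · rw [hvsum, husum]
  · -- energy
    rw [kin_eq hNpos, pot_eq_invd hNpos, ← hKv]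
    have h1 : invd (fun i => Q i - m₀) = invd Q := by
      unfold invd
      apply Finset.sum_congr rfl
      intro i _
      apply Finset.sum_congr rfl
      intro j _
      rw [hqsub]
    rw [h1, hrY]
    field_simp
    ring
  · intro i
    exact (hqx i).trans (by linarith)
  · intro i
    rw [← hui]
    exact (hvu i).trans (by linarith)

/-- The same with one constant `b` for the size of the gun. -/
theorem prep_explicit {C₁ : ℝ → ℝ → ℝ} (hC₁ : ∀ η ε, 0 < η → 0 < ε → 0 < C₁ η ε)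
    (hsp : SpreadRest C₁) {s : Fin 3 → V3} {e : V3} (hs : GunShape s e) (E R V δ₁ : ℝ)
    (hδ₁ : 0 < δ₁) (hδ₁1 : δ₁ ≤ 1) {N K : ℕ} {G₀ P₀ P₁ ε₂ u₀ c b b' : ℝ}
    (hG₀ : G₀ = δ₁ ^ 2 / 64) (hP₀ : P₀ = V ^ 2 / 2 + |E| + 1) (hε₂ : ε₂ = G₀ / (16 * P₀))
    (hu₀ : u₀ = ∑ k, ∑ l, 1 / ‖s k - s l‖) (hP₁ : P₁ = (|V| + 1) ^ 2 / 2 + |E|)
    (hc : c = δ₁ / 32) (hb0 : 0 < b) (hb1 : b ≤ u₀ / (2 * P₁)) (hb2 : b ≤ G₀ / u₀)
    (hb3 : b' ≤ C₁ c ε₂) (hK' : (|R| + |V|) / c + 1 ≤ K) (hN1 : (2 * K + 1) ^ 6 * 2 < N)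
    (hN4 : (6 / c + 1 + 3 * V ^ 2) / G₀ ≤ N) (hN5 : 16 / (b * δ₁) ≤ N) :
    ∀ x : Ph N, x ∈ NC N →
      ∑ i, x.1 i = 0 → ∑ i, x.2 i = 0 →
      kin (fun _ => 1 / (N : ℝ)) x.2 - pot (fun _ => 1 / (N : ℝ)) x.1 = E →
      (∀ i, ‖x.1 i‖ ≤ R) → (∀ i, (N : ℝ) * ‖x.2 i‖ ≤ V) →
      ∃ (r : ℝ) (g : Fin 3 → Fin N) (z w : V3) (q v : Fin N → V3),
        b / (N : ℝ) ^ 2 ≤ r ∧ r ≤ 1 / (b * (N : ℝ) ^ 2) ∧
        Prep N (|R| + |V| + 1) c (b' * (N : ℝ) ^ (-(1 / 3) : ℝ)) r s g z w q v ∧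
        ((q, (1 / (N : ℝ)) • v) : Ph N) ∈ NC N ∧ ∑ i, q i = 0 ∧ ∑ i, v i = 0 ∧
        kin (fun _ => 1 / (N : ℝ)) ((1 / (N : ℝ)) • v) - pot (fun _ => 1 / (N : ℝ)) q = E ∧
        (∀ i, ‖q i - x.1 i‖ ≤ δ₁) ∧ (∀ i, ‖v i - (N : ℝ) • x.2 i‖ ≤ δ₁) := by
  intro x hnc hcom hmom hen hR hV
  have hNpos : 0 < N := lt_of_le_of_lt (Nat.zero_le _) hN1
  have hNr : (0 : ℝ) < N := by exact_mod_cast hNpos
  have hN3 : (1 : ℝ) ≤ N := by exact_mod_cast hNpos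
  have hG0 : 0 < G₀ := by rw [hG₀]; positivity
  have hu0 : 0 < u₀ := by
    rw [hu₀]
    exact gun_energy_pos hs
  have hub : u₀ / G₀ ≤ 1 / b := by
    rw [div_le_div_iff₀ hG0 hb0, one_mul]
    rw [le_div_iff₀ hu0] at hb2
    linarith
  have hr2 : u₀ / G₀ / (N : ℝ) ^ 2 ≤ 1 / (b * (N : ℝ) ^ 2) := by
    rw [← div_div 1 b]
    exact div_le_div_of_nonneg_right hub (by positivity)
  have hr3 : 1 / (b * (N : ℝ) ^ 2) ≤ δ₁ / 16 := by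
    rw [div_le_iff₀ (by positivity)] at hN5 ⊢
    have h1 : (N : ℝ) * (b * δ₁) ≤ (N : ℝ) ^ 2 * (b * δ₁) := by
      apply mul_le_mul_of_nonneg_right _ (by positivity)
      nlinarith
    nlinarith
  obtain ⟨r, g, z, w, q, v, h1, h2, h3⟩ :=
    prep_at hC₁ hsp hs E R V δ₁ hδ₁ hδ₁1 (N := N) (K := K) (b' := b') hG₀ hP₀ hε₂
      hu₀ hP₁ hc hb3 hK' hN1 hN4 (hr2.trans hr3) x hnc hcom hmom hen hR hV
  exact ⟨r, g, z, w, q, v, (div_le_div_of_nonneg_right hb1 (by positivity)).trans h1,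
    h2.trans hr2, h3⟩

theorem exists_prep_of_spread {C₁ : ℝ → ℝ → ℝ} (hC₁ : ∀ η ε, 0 < η → 0 < ε → 0 < C₁ η ε)
    (hsp : SpreadRest C₁) {s : Fin 3 → V3} {e : V3} (hs : GunShape s e) (E R V δ : ℝ)
    (hδ : 0 < δ) :
    ∃ (R' c b : ℝ) (N₀ : ℕ), 0 < R' ∧ 0 < c ∧ 0 < b ∧ ∀ N : ℕ, N₀ ≤ N → ∀ x : Ph N, x ∈ NC N →
      ∑ i, x.1 i = 0 → ∑ i, x.2 i = 0 →
      kin (fun _ => 1 / (N : ℝ)) x.2 - pot (fun _ => 1 / (N : ℝ)) x.1 = E →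
      (∀ i, ‖x.1 i‖ ≤ R) → (∀ i, (N : ℝ) * ‖x.2 i‖ ≤ V) →
      ∃ (r : ℝ) (g : Fin 3 → Fin N) (z w : V3) (q v : Fin N → V3),
        b / (N : ℝ) ^ 2 ≤ r ∧ r ≤ 1 / (b * (N : ℝ) ^ 2) ∧
        Prep N R' c (b * (N : ℝ) ^ (-(1 / 3) : ℝ)) r s g z w q v ∧
        ((q, (1 / (N : ℝ)) • v) : Ph N) ∈ NC N ∧ ∑ i, q i = 0 ∧ ∑ i, v i = 0 ∧
        kin (fun _ => 1 / (N : ℝ)) ((1 / (N : ℝ)) • v) - pot (fun _ => 1 / (N : ℝ)) q = E ∧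
        (∀ i, ‖q i - x.1 i‖ ≤ δ) ∧ (∀ i, ‖v i - (N : ℝ) • x.2 i‖ ≤ δ) := by
  classical
  -- parameters
  obtain ⟨δ₁, hδ₁, hδ₁1, hδ₁δ⟩ : ∃ δ₁ : ℝ, 0 < δ₁ ∧ δ₁ ≤ 1 ∧ δ₁ ≤ δ :=
    ⟨min δ 1, by positivity, min_le_right _ _, min_le_left _ _⟩
  obtain ⟨G₀, hG₀⟩ : ∃ G₀ : ℝ, G₀ = δ₁ ^ 2 / 64 := ⟨_, rfl⟩
  have hG0 : 0 < G₀ := by rw [hG₀]; positivity
  obtain ⟨P₀, hP₀⟩ : ∃ P₀ : ℝ, P₀ = V ^ 2 / 2 + |E| + 1 := ⟨_, rfl⟩
  have hP₀0 : 0 < P₀ := by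
    rw [hP₀]
    have := abs_nonneg E
    positivity
  obtain ⟨ε₂, hε₂⟩ : ∃ ε₂ : ℝ, ε₂ = G₀ / (16 * P₀) := ⟨_, rfl⟩
  have hε₂0 : 0 < ε₂ := by rw [hε₂]; positivity
  obtain ⟨u₀, hu₀⟩ : ∃ u₀ : ℝ, u₀ = ∑ k, ∑ l, 1 / ‖s k - s l‖ := ⟨_, rfl⟩
  have hu0 : 0 < u₀ := by
    rw [hu₀]
    exact gun_energy_pos hs
  obtain ⟨P₁, hP₁⟩ : ∃ P₁ : ℝ, P₁ = (|V| + 1) ^ 2 / 2 + |E| := ⟨_, rfl⟩
  have hP₁0 : 0 < P₁ := by
    rw [hP₁]
    have := abs_nonneg E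
    have := abs_nonneg V
    positivity
  obtain ⟨c, hc⟩ : ∃ c : ℝ, c = δ₁ / 32 := ⟨_, rfl⟩
  have hc0 : 0 < c := by rw [hc]; positivity
  have hC : 0 < C₁ c ε₂ := hC₁ _ _ hc0 hε₂0
  obtain ⟨b, hb⟩ : ∃ b : ℝ, b = min (u₀ / (2 * P₁)) (min (G₀ / u₀) (C₁ c ε₂)) := ⟨_, rfl⟩
  have hb0 : 0 < b := by
    rw [hb]
    exact lt_min (by positivity) (lt_min (by positivity) hC)
  have hb1 : b ≤ u₀ / (2 * P₁) := by rw [hb]; exact min_le_left _ _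
  have hb2 : b ≤ G₀ / u₀ := by rw [hb]; exact (min_le_right _ _).trans (min_le_left _ _)
  have hb3 : b ≤ C₁ c ε₂ := by rw [hb]; exact (min_le_right _ _).trans (min_le_right _ _)
  obtain ⟨K, hK⟩ : ∃ K : ℕ, K = ⌈(|R| + |V|) / c⌉₊ + 1 := ⟨_, rfl⟩
  have hK' : (|R| + |V|) / c + 1 ≤ K := by
    rw [hK]
    push_cast
    have := Nat.le_ceil ((|R| + |V|) / c)
    linarith
  refine ⟨|R| + |V| + 1, c, b, max ((2 * K + 1) ^ 6 * 2 + 1)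
    (⌈(6 / c + 1 + 3 * V ^ 2) / G₀ + 16 / (b * δ₁) + 1⌉₊), ?_, hc0, hb0, ?_⟩
  · have := abs_nonneg R
    have := abs_nonneg V
    linarith
  intro N hNN x hnc hcom hmom hen hR hV
  have hN1 : (2 * K + 1) ^ 6 * 2 < N :=
    Nat.lt_of_succ_le ((le_max_left _ _).trans hNN)
  have hN2 : (6 / c + 1 + 3 * V ^ 2) / G₀ + 16 / (b * δ₁) + 1 ≤ (N : ℝ) := by
    have h1 := Nat.le_ceil ((6 / c + 1 + 3 * V ^ 2) / G₀ + 16 / (b * δ₁) + 1)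
    have h2 : ((⌈(6 / c + 1 + 3 * V ^ 2) / G₀ + 16 / (b * δ₁) + 1⌉₊ : ℕ) : ℝ) ≤ (N : ℝ) := by
      exact_mod_cast (le_max_right _ _).trans hNN
    exact h1.trans h2
  have hq1 : 0 ≤ (6 / c + 1 + 3 * V ^ 2) / G₀ := by positivity
  have hq2 : 0 ≤ 16 / (b * δ₁) := by positivity
  obtain ⟨r, g, z, w, q, v, h1, h2, h3, h4, h5, h6, h7, h8, h9⟩ :=
    prep_explicit hC₁ hsp hs E R V δ₁ hδ₁ hδ₁1 (N := N) (K := K) (b := b) (b' := b) hG₀ hP₀ hε₂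
      hu₀ hP₁ hc hb0 hb1 hb2 hb3 hK' hN1 (by linarith) (by linarith) x hnc hcom hmom hen hR hV
  exact ⟨r, g, z, w, q, v, h1, h2, h3, h4, h5, h6, h7, fun i => (h8 i).trans hδ₁δ,
    fun i => (h9 i).trans hδ₁δ⟩

end Pool.Agent.NBody
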