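import Mathlib
import Pool.Agent.NBody.ThKickM
import Pool.Agent.NBody.ThPrep2

/-!
Prepared states for bodies with different masses.
-/

set_option autoImplicit false
open scoped RealInnerProductSpace
open Set Finset Filter Topology

namespace Pool.Agent.NBody

/-- the weighted double sum of inverse distances -/
noncomputable def invdM {N : ℕ} (m : Fin N → ℝ) (q : Fin N → V3) : ℝ :=
  ∑ i, ∑ j, m i * m j / ‖q i - q j‖

theorem pot_eq_invdM {N : ℕ} (m : Fin N → ℝ) (q : Fin N → V3) : pot m q = invdM m q / 2 := by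
  unfold pot invdM
  rw [Finset.sum_div]
  apply Finset.sum_congr rfl
  intro i _
  rw [Finset.sum_div]

theorem kin_eqM {N : ℕ} {m : Fin N → ℝ} (hm : ∀ i, 0 < m i) (v : Fin N → V3) :
    kin m (fun i => m i • v i) = (∑ i, m i * ‖v i‖ ^ 2) / 2 := by
  unfold kin
  rw [Finset.sum_div]
  apply Finset.sum_congr rfl
  intro i _
  have := (hm i).ne'
  rw [norm_smul, Real.norm_of_nonneg (hm i).le]
  field_simp

/-- splitting of the weighted double sum -/
theorem invdM_split {N : ℕ} {g : Fin 3 → Fin N} (hg : Function.Injective g) (m : Fin N → ℝ)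
    (q : Fin N → V3) :
    invdM m q = ∑ k, ∑ l, m (g k) * m (g l) / ‖q (g k) - q (g l)‖ +
      2 * ∑ k, ∑ j ∈ rest g, m (g k) * m j / ‖q (g k) - q j‖ +
      ∑ i ∈ rest g, ∑ j ∈ rest g, m i * m j / ‖q i - q j‖ := by
  unfold invdM
  rw [sum_gun_rest hg]
  have h1 : ∀ i, ∑ j, m i * m j / ‖q i - q j‖ =
      ∑ l, m i * m (g l) / ‖q i - q (g l)‖ + ∑ j ∈ rest g, m i * m j / ‖q i - q j‖ :=
    fun i => sum_gun_rest hg _
  simp only [h1]
  rw [Finset.sum_add_distrib, Finset.sum_add_distrib]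
  have h2 : ∑ i ∈ rest g, ∑ l, m i * m (g l) / ‖q i - q (g l)‖ =
      ∑ k, ∑ j ∈ rest g, m (g k) * m j / ‖q (g k) - q j‖ := by
    rw [Finset.sum_comm]
    apply Finset.sum_congr rfl
    intro k _
    apply Finset.sum_congr rfl
    intro j _
    rw [norm_sub_rev, mul_comm (m j)]
  rw [h2]
  ring

/-- the masses of the bodies outside the gun -/
noncomputable def restMass {N : ℕ} (g : Fin 3 → Fin N) (m : Fin N → ℝ) (i : Fin N) : ℝ :=
  if i ∈ rest g then m i else 0

theorem restMass_gun {N : ℕ} {g : Fin 3 → Fin N} (m : Fin N → ℝ) (k : Fin 3) :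
    restMass g m (g k) = 0 := by
  unfold restMass
  rw [if_neg]
  rw [mem_rest, not_not]
  exact ⟨k, rfl⟩

theorem restMass_rest {N : ℕ} {g : Fin 3 → Fin N} (m : Fin N → ℝ) {j : Fin N}
    (hj : j ∈ rest g) : restMass g m j = m j := by
  unfold restMass
  rw [if_pos hj]

theorem invdM_restMass {N : ℕ} {g : Fin 3 → Fin N} (hg : Function.Injective g) (m : Fin N → ℝ)
    (q : Fin N → V3) : invdM (restMass g m) q =
      ∑ i ∈ rest g, ∑ j ∈ rest g, m i * m j / ‖q i - q j‖ := by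
  rw [invdM_split hg]
  simp only [restMass_gun, zero_mul, zero_div, Finset.sum_const_zero, mul_zero, zero_add]
  apply Finset.sum_congr rfl
  intro i hi
  apply Finset.sum_congr rfl
  intro j hj
  rw [restMass_rest m hi, restMass_rest m hj]

theorem invdM_nonneg {N : ℕ} {m : Fin N → ℝ} (hm : ∀ i, 0 < m i) (q : Fin N → V3) :
    0 ≤ invdM m q := by
  unfold invdM
  apply Finset.sum_nonneg
  intro i _
  apply Finset.sum_nonneg
  intro j _
  have h1 := hm i
  have h2 := hm j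
  positivity

theorem invdM_rest_le {N : ℕ} {g : Fin 3 → Fin N} (hg : Function.Injective g) {m : Fin N → ℝ}
    (hm : ∀ i, 0 < m i) (q : Fin N → V3) :
    ∑ i ∈ rest g, ∑ j ∈ rest g, m i * m j / ‖q i - q j‖ ≤ invdM m q := by
  rw [invdM_split hg]
  have h1 : 0 ≤ ∑ k, ∑ l, m (g k) * m (g l) / ‖q (g k) - q (g l)‖ :=
    Finset.sum_nonneg (fun k _ => Finset.sum_nonneg (fun l _ => by
      have h1 := hm (g k)
      have h2 := hm (g l)
      positivity))
  have h2 : 0 ≤ ∑ k, ∑ j ∈ rest g, m (g k) * m j / ‖q (g k) - q j‖ :=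
    Finset.sum_nonneg (fun k _ => Finset.sum_nonneg (fun l _ => by
      have h1 := hm (g k)
      have h2 := hm l
      positivity))
  linarith

/-- Energy match with masses: the size of the gun is determined by the energy. -/
theorem exists_sizeM {N : ℕ} {g : Fin 3 → Fin N} (hg : Function.Injective g) {m : Fin N → ℝ}
    (hm : ∀ i, 0 < m i) (hM : ∑ i, m i = 1) {μ : ℝ} (hμ : ∀ i, m i ≤ μ) {s : Fin 3 → V3}
    (hflat : ∀ k, s k 2 = 0) (z : V3) (q₂ : Fin N → V3) {c : ℝ} (hc : 0 < c)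
    (hlay : ∀ j ∈ rest g, c ≤ |q₂ j 2 - z 2|) {Y r₁ r₂ : ℝ} (hr₁ : 0 < r₁) (hr : r₁ ≤ r₂)
    (h1 : Y ≤ (∑ k, ∑ l, m (g k) * m (g l) / ‖s k - s l‖) / r₁)
    (h2 : (∑ k, ∑ l, m (g k) * m (g l) / ‖s k - s l‖) / r₂ + 6 * μ / c +
      ∑ i ∈ rest g, ∑ j ∈ rest g, m i * m j / ‖q₂ i - q₂ j‖ ≤ Y) :
    ∃ r, r₁ ≤ r ∧ r ≤ r₂ ∧ invdM m (gunPos g s z q₂ r) = Y := by
  have hr₂ : 0 < r₂ := hr₁.trans_le hr
  set u : ℝ := ∑ k, ∑ l, m (g k) * m (g l) / ‖s k - s l‖ with hu
  set A : ℝ := ∑ i ∈ rest g, ∑ j ∈ rest g, m i * m j / ‖q₂ i - q₂ j‖ with hA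
  set Cr : ℝ → ℝ := fun r => ∑ k, ∑ j ∈ rest g, m (g k) * m j / ‖z + r • s k - q₂ j‖ with hCr
  have hdist : ∀ (r : ℝ) (k : Fin 3), ∀ j ∈ rest g, c ≤ ‖z + r • s k - q₂ j‖ := by
    intro r k j hj
    refine (hlay j hj).trans ?_
    have h3 : |(z + r • s k - q₂ j) 2| ≤ ‖z + r • s k - q₂ j‖ := abs_coord_le _ _
    have h4 : (z + r • s k - q₂ j) 2 = z 2 - q₂ j 2 := by
      simp [hflat k]
    rw [h4, abs_sub_comm] at h3
    exact h3
  have hsplit : ∀ r, 0 < r → invdM m (gunPos g s z q₂ r) = u / r + 2 * Cr r + A := by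
    intro r hr0
    rw [invdM_split hg]
    congr 1
    · congr 1
      · rw [hu, Finset.sum_div]
        apply Finset.sum_congr rfl
        intro k _
        rw [Finset.sum_div]
        apply Finset.sum_congr rfl
        intro l _
        rw [gunPos_gun hg, gunPos_gun hg, add_sub_add_left_eq_sub, ← smul_sub, norm_smul,
          Real.norm_of_nonneg hr0.le, div_eq_mul_inv, div_eq_mul_inv, mul_inv, div_eq_mul_inv]
        ring
      · rw [hCr]
        simp only
        congr 1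
        apply Finset.sum_congr rfl
        intro k _
        apply Finset.sum_congr rfl
        intro j hj
        rw [gunPos_gun hg, gunPos_rest s z q₂ r hj]
    · rw [hA]
      apply Finset.sum_congr rfl
      intro i hi
      apply Finset.sum_congr rfl
      intro j hj
      rw [gunPos_rest s z q₂ r hi, gunPos_rest s z q₂ r hj]
  have hCnn : ∀ r, 0 ≤ Cr r := fun r =>
    Finset.sum_nonneg (fun k _ => Finset.sum_nonneg (fun j _ => by
      have h1 := hm (g k)
      have h2 := hm j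
      positivity))
  have hAnn : 0 ≤ A := Finset.sum_nonneg (fun i _ => Finset.sum_nonneg (fun j _ => by
      have h1 := hm i
      have h2 := hm j
      positivity))
  have hrest1 : ∑ j ∈ rest g, m j ≤ 1 := by
    rw [← hM]
    exact Finset.sum_le_sum_of_subset_of_nonneg (Finset.subset_univ _) (fun i _ _ => (hm i).le)
  have hCle : ∀ r, Cr r ≤ 3 * μ / c := by
    intro r
    have h3 : ∀ k : Fin 3, ∑ j ∈ rest g, m (g k) * m j / ‖z + r • s k - q₂ j‖ ≤ μ / c := by
      intro k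
      have h4 : ∑ j ∈ rest g, m (g k) * m j / ‖z + r • s k - q₂ j‖ ≤
          ∑ j ∈ rest g, m (g k) * m j / c := by
        apply Finset.sum_le_sum
        intro j hj
        exact div_le_div_of_nonneg_left (mul_nonneg (hm _).le (hm _).le) hc (hdist r k j hj)
      refine h4.trans ?_
      rw [← Finset.sum_div, ← Finset.mul_sum]
      apply div_le_div_of_nonneg_right _ hc.le
      calc m (g k) * ∑ j ∈ rest g, m j ≤ m (g k) * 1 :=
            mul_le_mul_of_nonneg_left hrest1 (hm _).le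
        _ ≤ μ := by rw [mul_one]; exact hμ _
    have h5 : Cr r ≤ ∑ k : Fin 3, μ / c := Finset.sum_le_sum (fun k _ => h3 k)
    rw [Finset.sum_const, Finset.card_univ, Fintype.card_fin, nsmul_eq_mul] at h5
    refine h5.trans (le_of_eq ?_)
    push_cast
    ring
  have hcont : ContinuousOn (fun r => u / r + 2 * Cr r) (Icc r₁ r₂) := by
    apply ContinuousOn.add
    · apply ContinuousOn.div continuousOn_const continuousOn_id
      intro r hr
      exact (hr₁.trans_le hr.1).ne'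
    · apply ContinuousOn.mul continuousOn_const
      apply Continuous.continuousOn
      rw [hCr]
      apply continuous_finsetSum
      intro k _
      apply continuous_finsetSum
      intro j hj
      apply Continuous.div continuous_const
      · exact ((continuous_const.add (continuous_id.smul continuous_const)).sub
          continuous_const).norm
      · intro r
        exact (hc.trans_le (hdist r k j hj)).ne'
  have hmem : Y - A ∈ Icc (u / r₂ + 2 * Cr r₂) (u / r₁ + 2 * Cr r₁) := by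
    constructor
    · have := hCle r₂
      have h6 : 6 * μ / c = 2 * (3 * μ / c) := by ring
      linarith
    · have := hCnn r₁
      linarith
  obtain ⟨r, hr', hY⟩ := intermediate_value_Icc' hr hcont hmem
  refine ⟨r, hr'.1, hr'.2, ?_⟩
  rw [hsplit r (hr₁.trans_le hr'.1)]
  simp only at hY
  linarith

/-- the arithmetic of the energy match with masses -/
theorem energy_arithM {N G₀ P P₀ ε₂ A₂ Ku Kv E V c δ₁ A μ p h : ℝ} (hN : 0 < N) (hμ0 : 0 < μ)
    (hG₀ : G₀ = δ₁ ^ 2 / (1024 * N ^ 2 * μ ^ 2)) (hNμ : 1 ≤ N * μ)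
    (hδ : 0 < δ₁) (hδ1 : δ₁ ≤ 1) (hP₀ : 1 ≤ P₀) (hε₂ : ε₂ = G₀ / (16 * P₀)) (hP : P ≤ P₀)
    (hP0 : 0 ≤ P) (hA : A = 2 * P) (hA₂ : A₂ ≤ ((1 - ε₂) ^ 2)⁻¹ * A)
    (hPE : Ku / 2 - E = P) (hp : p = δ₁ / (8 * N)) (hh : 1 / (2 * μ) ≤ h) (hμ1 : μ ≤ 1 / 32)
    (hKv : Ku + p ^ 2 / μ * (h - 4) - 3 * μ * V ^ 2 ≤ Kv)
    (hbig : (6 / c + 3 * V ^ 2) * μ ≤ G₀) :
    G₀ + 6 * μ / c + A₂ ≤ 2 * (Kv / 2 - E) := by
  have hG0 : 0 < G₀ := by rw [hG₀]; positivity
  have hG1 : G₀ ≤ 1 / 1024 := by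
    rw [hG₀, div_le_iff₀ (by positivity)]
    have h1 : δ₁ ^ 2 ≤ 1 := by nlinarith
    have h2 : 1 ≤ (N * μ) ^ 2 := by nlinarith
    have h3 : 1 / 1024 * (1024 * N ^ 2 * μ ^ 2) = (N * μ) ^ 2 := by ring
    linarith
  have hε0 : 0 < ε₂ := by rw [hε₂]; positivity
  have hεP : ε₂ * (16 * P₀) = G₀ := by
    rw [hε₂]; field_simp
  have hε1 : ε₂ ≤ 1 / 4 := by nlinarith
  have hinv : ((1 - ε₂) ^ 2)⁻¹ ≤ 1 + 4 * ε₂ := by
    have h1 : 0 < (1 - ε₂) ^ 2 := by
      have : 0 < 1 - ε₂ := by linarith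
      positivity
    rw [inv_le_iff_one_le_mul₀ h1]
    have h2 : 0 ≤ ε₂ ^ 3 := by positivity
    nlinarith
  have hA0 : 0 ≤ A := by rw [hA]; positivity
  have h1 : A₂ ≤ 2 * P + G₀ / 2 := by
    have h2 : ((1 - ε₂) ^ 2)⁻¹ * A ≤ (1 + 4 * ε₂) * A := mul_le_mul_of_nonneg_right hinv hA0
    have h3 : (1 + 4 * ε₂) * A = 2 * P + 8 * (ε₂ * P) := by rw [hA]; ring
    have h4 : ε₂ * P ≤ ε₂ * P₀ := mul_le_mul_of_nonneg_left hP hε0.le
    have h6 : 8 * (ε₂ * P₀) = G₀ / 2 := by rw [← hεP]; ring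
    linarith
  have h2 : 2 * (Kv / 2 - E) = (Kv - Ku) + 2 * P := by
    rw [← hPE]
    ring
  rw [h2]
  have h3 : 4 * G₀ ≤ p ^ 2 / μ * (h - 4) := by
    have h4 : 1 / (4 * μ) ≤ h - 4 := by
      have h5 : 1 / (2 * μ) = 1 / (4 * μ) + 1 / (4 * μ) := by
        field_simp
        norm_num
      have h6 : 8 ≤ 1 / (4 * μ) := by
        rw [le_div_iff₀ (by positivity)]
        linarith
      linarith
    have h5 : p ^ 2 / μ * (1 / (4 * μ)) = 4 * G₀ := by
      rw [hp, hG₀]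
      field_simp
      ring
    rw [← h5]
    exact mul_le_mul_of_nonneg_left h4 (by positivity)
  have h4 : (6 / c + 3 * V ^ 2) * μ = 6 * μ / c + 3 * μ * V ^ 2 := by ring
  rw [h4] at hbig
  linarith

end Pool.Agent.NBody
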