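import Mathlib
import Pool.Agent.NBody.ThKick

/-!
Fourth version, type II: velocities with a prescribed gain of the kinetic energy and a fast group.
-/

set_option autoImplicit false
open scoped RealInnerProductSpace
open Set Finset Filter Topology

namespace Pool.Agent.NBody

/-- Signs which balance weights up to the largest one. -/
theorem greedy_signs {ι : Type*} (J : Finset ι) (w : ι → ℝ) {M : ℝ} (hM : 0 ≤ M)
    (hw0 : ∀ i ∈ J, 0 ≤ w i) (hwM : ∀ i ∈ J, w i ≤ M) :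
    ∃ s : ι → ℝ, (∀ i, s i = 1 ∨ s i = -1) ∧ |∑ i ∈ J, w i * s i| ≤ M := by
  classical
  induction J using Finset.induction_on with
  | empty => exact ⟨fun _ => 1, fun _ => Or.inl rfl, by simpa using hM⟩
  | insert a J ha ih =>
    obtain ⟨s, hs, hsum⟩ := ih (fun i hi => hw0 i (Finset.mem_insert_of_mem hi))
      (fun i hi => hwM i (Finset.mem_insert_of_mem hi))
    have ha0 := hw0 a (Finset.mem_insert_self a J)
    have haM := hwM a (Finset.mem_insert_self a J)
    rw [abs_le] at hsum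
    have hcongr : ∀ c : ℝ, ∑ i ∈ J, w i * Function.update s a c i = ∑ i ∈ J, w i * s i := by
      intro c
      apply Finset.sum_congr rfl
      intro i hi
      have hia : i ≠ a := fun h => ha (by rw [← h]; exact hi)
      rw [Function.update_of_ne hia]
    have hupd : ∀ c : ℝ, c = 1 ∨ c = -1 → ∀ i, Function.update s a c i = 1 ∨
        Function.update s a c i = -1 := by
      intro c hc i
      by_cases hi : i = a
      · rw [hi, Function.update_self]
        exact hc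
      · rw [Function.update_of_ne hi]
        exact hs i
    rcases le_total 0 (∑ i ∈ J, w i * s i) with h | h
    · refine ⟨Function.update s a (-1), hupd _ (Or.inr rfl), ?_⟩
      rw [Finset.sum_insert ha, hcongr, Function.update_self, abs_le]
      constructor <;> linarith [hsum.1, hsum.2]
    · refine ⟨Function.update s a 1, hupd _ (Or.inl rfl), ?_⟩
      rw [Finset.sum_insert ha, hcongr, Function.update_self, abs_le]
      constructor <;> linarith [hsum.1, hsum.2]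

/-- Kicks along `n` with a prescribed gain. -/
theorem exists_kick_exact {N : ℕ} {m : Fin N → ℝ} (hm : ∀ i, 0 < m i) (hM : ∑ i, m i = 1)
    (v : Fin N → V3) {e n : V3} (hn : ‖n‖ = 1) (hne : ⟪n, e⟫ = 0) {β t : ℝ} (hβ : 0 ≤ β)
    {j₀ : Fin N} (hj₀ : ∀ i, m i ≤ m j₀) (ht0 : 0 ≤ t) (ht : t ≤ β ^ 2 * (1 - m j₀)) :
    ∃ v' : Fin N → V3, (∀ i, ‖v' i - v i‖ ≤ β) ∧ (∀ i, ⟪v' i, e⟫ = ⟪v i, e⟫) ∧
      ∑ i, m i • v' i = ∑ i, m i • v i ∧
      ∑ i, m i * ‖v' i‖ ^ 2 = ∑ i, m i * ‖v i‖ ^ 2 + t := by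
  classical
  obtain ⟨s, hs, hsum⟩ := greedy_signs (Finset.univ.erase j₀) m (hm j₀).le
    (fun i _ => (hm i).le) (fun i _ => hj₀ i)
  -- the directions of the kicks
  obtain ⟨d, hd1, hd2, hd3⟩ : ∃ d : Fin N → ℝ, (∀ i, |d i| ≤ 1) ∧ ∑ i, m i * d i = 0 ∧
      1 - m j₀ ≤ ∑ i, m i * d i ^ 2 := by
    refine ⟨Function.update s j₀ (-(∑ i ∈ Finset.univ.erase j₀, m i * s i) / m j₀), ?_, ?_, ?_⟩
    · intro i
      by_cases hi : i = j₀
      · rw [hi, Function.update_self, abs_div, abs_neg, abs_of_pos (hm j₀), div_le_one (hm j₀)]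
        exact hsum
      · rw [Function.update_of_ne hi]
        rcases hs i with h | h <;> rw [h] <;> simp
    · rw [← Finset.add_sum_erase _ _ (Finset.mem_univ j₀), Function.update_self]
      have h1 : ∑ i ∈ Finset.univ.erase j₀,
          m i * Function.update s j₀ (-(∑ i ∈ Finset.univ.erase j₀, m i * s i) / m j₀) i =
          ∑ i ∈ Finset.univ.erase j₀, m i * s i := by
        apply Finset.sum_congr rfl
        intro i hi
        rw [Function.update_of_ne (Finset.ne_of_mem_erase hi)]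
      rw [h1, mul_div_cancel₀ _ (hm j₀).ne', neg_add_cancel]
    · rw [← Finset.add_sum_erase _ _ (Finset.mem_univ j₀)]
      have h1 : ∑ i ∈ Finset.univ.erase j₀,
          m i * Function.update s j₀ (-(∑ i ∈ Finset.univ.erase j₀, m i * s i) / m j₀) i ^ 2 =
          ∑ i ∈ Finset.univ.erase j₀, m i := by
        apply Finset.sum_congr rfl
        intro i hi
        rw [Function.update_of_ne (Finset.ne_of_mem_erase hi)]
        rcases hs i with h | h <;> rw [h] <;> ring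
      have h2 : m j₀ + ∑ i ∈ Finset.univ.erase j₀, m i = 1 := by
        rw [Finset.add_sum_erase _ _ (Finset.mem_univ j₀), hM]
      have h3 : 0 ≤ m j₀ * Function.update s j₀
          (-(∑ i ∈ Finset.univ.erase j₀, m i * s i) / m j₀) j₀ ^ 2 :=
        mul_nonneg (hm j₀).le (sq_nonneg _)
      rw [h1]
      linarith
  -- the sign of the whole pattern
  obtain ⟨c, hc1, hc2, hc3, hc4⟩ : ∃ c : Fin N → ℝ, (∀ i, |c i| ≤ 1) ∧ ∑ i, m i * c i = 0 ∧
      1 - m j₀ ≤ ∑ i, m i * c i ^ 2 ∧ 0 ≤ ∑ i, m i * (c i * ⟪v i, n⟫) := by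
    rcases le_total 0 (∑ i, m i * (d i * ⟪v i, n⟫)) with h | h
    · exact ⟨d, hd1, hd2, hd3, h⟩
    · refine ⟨fun i => -d i, fun i => by rw [abs_neg]; exact hd1 i, ?_, ?_, ?_⟩
      · simp only [mul_neg, Finset.sum_neg_distrib, hd2, neg_zero]
      · simpa using hd3
      · simp only [neg_mul, mul_neg, Finset.sum_neg_distrib]
        linarith
  obtain ⟨L, hL⟩ : ∃ L, L = ∑ i, m i * (c i * ⟪v i, n⟫) := ⟨_, rfl⟩
  obtain ⟨Q, hQ⟩ : ∃ Q, Q = ∑ i, m i * c i ^ 2 := ⟨_, rfl⟩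
  rw [← hQ] at hc3
  rw [← hL] at hc4
  obtain ⟨lam, hlam, hval⟩ : ∃ lam ∈ Set.Icc (0 : ℝ) 1,
      2 * β * L * lam + β ^ 2 * Q * lam ^ 2 = t := by
    have hcont : ContinuousOn (fun lam : ℝ => 2 * β * L * lam + β ^ 2 * Q * lam ^ 2)
        (Set.Icc 0 1) := by fun_prop
    have hmem : t ∈ Set.Icc ((fun lam : ℝ => 2 * β * L * lam + β ^ 2 * Q * lam ^ 2) 0)
        ((fun lam : ℝ => 2 * β * L * lam + β ^ 2 * Q * lam ^ 2) 1) := by
      constructor
      · simp only
        linarith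
      · simp only
        have h1 : 0 ≤ 2 * β * L := mul_nonneg (by linarith) hc4
        have h2 : β ^ 2 * (1 - m j₀) ≤ β ^ 2 * Q := mul_le_mul_of_nonneg_left hc3 (by positivity)
        linarith
    exact intermediate_value_Icc zero_le_one hcont hmem
  refine ⟨fun i => v i + (lam * β * c i) • n, ?_, ?_, ?_, ?_⟩
  · intro i
    rw [add_sub_cancel_left, norm_smul, hn, mul_one, Real.norm_eq_abs, abs_mul,
      abs_of_nonneg (mul_nonneg hlam.1 hβ)]
    have h1 : lam * β ≤ 1 * β := mul_le_mul_of_nonneg_right hlam.2 hβ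
    have h2 : lam * β * |c i| ≤ lam * β * 1 :=
      mul_le_mul_of_nonneg_left (hc1 i) (mul_nonneg hlam.1 hβ)
    linarith
  · intro i
    rw [inner_add_left, real_inner_smul_left, hne, mul_zero, add_zero]
  · simp only [smul_add, smul_smul]
    rw [Finset.sum_add_distrib, ← Finset.sum_smul]
    have h1 : ∑ i, m i * (lam * β * c i) = 0 := by
      have h2 : ∀ i, m i * (lam * β * c i) = lam * β * (m i * c i) := fun i => by ring
      rw [Finset.sum_congr rfl (fun i _ => h2 i), ← Finset.mul_sum, hc2, mul_zero]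
    rw [h1, zero_smul, add_zero]
  · have h1 : ∀ i, m i * ‖v i + (lam * β * c i) • n‖ ^ 2 = m i * ‖v i‖ ^ 2 +
        (2 * β * lam * (m i * (c i * ⟪v i, n⟫)) + β ^ 2 * lam ^ 2 * (m i * c i ^ 2)) := by
      intro i
      rw [@norm_add_sq_real, inner_smul_right, norm_smul, hn, mul_one, Real.norm_eq_abs, sq_abs]
      ring
    rw [Finset.sum_congr rfl (fun i _ => h1 i), Finset.sum_add_distrib, Finset.sum_add_distrib,
      ← Finset.mul_sum, ← Finset.mul_sum, ← hL, ← hQ, ← hval]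
    ring

/-- The boost: the group `A` gets a mean velocity at least `u` in the direction `e`, forwards or
backwards; the gain of the kinetic energy is nonnegative and small. -/
theorem exists_boost_exact {N : ℕ} {m : Fin N → ℝ} (hm : ∀ i, 0 < m i) (hM1 : ∑ i, m i = 1)
    (v : Fin N → V3)
    (hv : ∑ i, m i • v i = 0) {e : V3} (he : ‖e‖ = 1) {A : Finset (Fin N)} (hA : A.Nonempty)
    {C u : ℝ} (hC : 1 ≤ C) (hu : 0 ≤ u) (hAc : ∑ i ∈ A, m i ≤ C * ∑ i ∈ Aᶜ, m i) (j₀ : Fin N) :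
    ∃ v' : Fin N → V3, (∀ i, ‖v' i - v i‖ ≤ 2 * C * u) ∧ ∑ i, m i • v' i = 0 ∧
      (∑ i ∈ A, m i) * u ≤ |∑ i ∈ A, m i * ⟪v' i, e⟫| ∧
      ∑ i, m i * ‖v i‖ ^ 2 ≤ ∑ i, m i * ‖v' i‖ ^ 2 ∧
      ∑ i, m i * ‖v' i‖ ^ 2 ≤ ∑ i, m i * ‖v i‖ ^ 2 +
        2 * (4 * C * (1 + C) * u ^ 2 * (1 - m j₀)) := by
  classical
  obtain ⟨M, hM⟩ : ∃ M, M = ∑ i ∈ A, m i := ⟨_, rfl⟩
  obtain ⟨M', hM'⟩ : ∃ M', M' = ∑ i ∈ Aᶜ, m i := ⟨_, rfl⟩
  obtain ⟨P, hP⟩ : ∃ P, P = ∑ i ∈ A, m i * ⟪v i, e⟫ := ⟨_, rfl⟩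
  have hM0 : 0 < M := by
    rw [hM]
    exact Finset.sum_pos (fun i _ => hm i) hA
  have hMM1 : M + M' = 1 := by
    rw [hM, hM', Finset.sum_add_sum_compl, hM1]
  rw [← hM, ← hM'] at hAc
  have hM'0 : 0 < M' := by
    by_contra h
    push Not at h
    have : C * M' ≤ 0 := mul_nonpos_of_nonneg_of_nonpos (by linarith) h
    linarith
  have hMj : M ≤ C * (1 - m j₀) := by
    by_cases hj : j₀ ∈ A
    · have h1 : m j₀ ≤ M := by
        rw [hM]
        exact Finset.single_le_sum (f := m) (fun i _ => (hm i).le) hj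
      have h2 : C * M' ≤ C * (1 - m j₀) := mul_le_mul_of_nonneg_left (by linarith) (by linarith)
      linarith
    · have h1 : m j₀ ≤ M' := by
        rw [hM']
        exact Finset.single_le_sum (f := m) (fun i _ => (hm i).le) (Finset.mem_compl.mpr hj)
      have h2 : 0 ≤ 1 - m j₀ := by linarith
      nlinarith
  have hj1 : 0 ≤ 1 - m j₀ := by
    by_contra h
    push Not at h
    have : C * (1 - m j₀) < 0 := mul_neg_of_pos_of_neg (by linarith) h
    linarith
  by_cases hbig : M * u ≤ |P|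
  · refine ⟨v, fun i => ?_, hv, by rw [← hM, ← hP]; exact hbig, le_rfl, ?_⟩
    · rw [sub_self, norm_zero]
      positivity
    · have : 0 ≤ 2 * (4 * C * (1 + C) * u ^ 2 * (1 - m j₀)) := by positivity
      linarith
  · push Not at hbig
    -- the sign of the momentum
    obtain ⟨g, hg1, hg2, hg3⟩ : ∃ g : ℝ, |g| = 1 ∧ g * P = |P| ∧ g ^ 2 = 1 := by
      rcases le_total 0 P with h | h
      · exact ⟨1, abs_one, by rw [one_mul, abs_of_nonneg h], one_pow 2⟩
      · exact ⟨-1, by rw [abs_neg, abs_one], by rw [abs_of_nonpos h]; ring, by norm_num⟩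
    obtain ⟨b, hb⟩ : ∃ b : Fin N → ℝ,
        b = fun i => if i ∈ A then 2 * u * g else -(2 * u * g * (M / M')) := ⟨_, rfl⟩
    have hbA : ∀ i ∈ A, b i = 2 * u * g := fun i hi => by rw [hb]; simp only; rw [if_pos hi]
    have hbc : ∀ i ∈ Aᶜ, b i = -(2 * u * g * (M / M')) := fun i hi => by
      rw [hb]
      simp only
      rw [if_neg (Finset.mem_compl.mp hi)]
    have hMM : M / M' ≤ C := by
      rw [div_le_iff₀ hM'0]
      exact hAc
    have hMM0 : 0 ≤ M / M' := by positivity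
    have hPc : ∑ i ∈ Aᶜ, m i * ⟪v i, e⟫ = -P := by
      have h1 : ∑ i, m i * ⟪v i, e⟫ = 0 := by
        have h2 : ∀ i, m i * ⟪v i, e⟫ = ⟪m i • v i, e⟫ := fun i => by rw [real_inner_smul_left]
        rw [Finset.sum_congr rfl (fun i _ => h2 i), ← sum_inner, hv, inner_zero_left]
      have h3 := Finset.sum_add_sum_compl A (fun i => m i * ⟪v i, e⟫)
      rw [h1, ← hP] at h3
      linarith
    have hgain : ∑ i, m i * ‖v i + b i • e‖ ^ 2 = ∑ i, m i * ‖v i‖ ^ 2 +
        4 * u * (1 + M / M') * (|P| + u * M) := by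
      have h1 : ∀ i, m i * ‖v i + b i • e‖ ^ 2 =
          m i * ‖v i‖ ^ 2 + (2 * (b i * (m i * ⟪v i, e⟫)) + b i ^ 2 * m i) := by
        intro i
        rw [@norm_add_sq_real, inner_smul_right, norm_smul, he, mul_one, Real.norm_eq_abs, sq_abs]
        ring
      rw [Finset.sum_congr rfl (fun i _ => h1 i), Finset.sum_add_distrib,
        ← Finset.sum_add_sum_compl A (fun i => 2 * (b i * (m i * ⟪v i, e⟫)) + b i ^ 2 * m i)]
      have h2 : ∑ i ∈ A, (2 * (b i * (m i * ⟪v i, e⟫)) + b i ^ 2 * m i) =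
          4 * u * (g * P) + (2 * u) ^ 2 * g ^ 2 * M := by
        rw [hP, hM, Finset.mul_sum, Finset.mul_sum, Finset.mul_sum, ← Finset.sum_add_distrib]
        apply Finset.sum_congr rfl
        intro i hi
        rw [hbA i hi]
        ring
      have h3 : ∑ i ∈ Aᶜ, (2 * (b i * (m i * ⟪v i, e⟫)) + b i ^ 2 * m i) =
          4 * u * (M / M') * (g * P) + (2 * u * (M / M')) ^ 2 * g ^ 2 * M' := by
        have h4 : 4 * u * (M / M') * (g * P) =
            -(4 * u * (M / M') * g) * ∑ i ∈ Aᶜ, m i * ⟪v i, e⟫ := by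
          rw [hPc]; ring
        rw [h4]
        conv_rhs => rw [hM']
        rw [Finset.mul_sum, Finset.mul_sum, ← Finset.sum_add_distrib]
        apply Finset.sum_congr rfl
        intro i hi
        rw [hbc i hi, ← hM']
        ring
      rw [h2, h3, hg2, hg3]
      have h7 : (2 * u * (M / M')) ^ 2 * 1 * M' = 4 * u * (M / M') * (u * M) := by
        field_simp
        ring
      rw [h7]
      ring
    refine ⟨fun i => v i + b i • e, ?_, ?_, ?_, ?_, ?_⟩
    · intro i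
      rw [add_sub_cancel_left, norm_smul, he, mul_one, Real.norm_eq_abs]
      by_cases hi : i ∈ A
      · rw [hbA i hi, abs_mul, hg1, mul_one, abs_of_nonneg (by linarith)]
        nlinarith
      · rw [hbc i (Finset.mem_compl.mpr hi), abs_neg, abs_mul, abs_mul, hg1, mul_one,
          abs_of_nonneg (by linarith : 0 ≤ 2 * u), abs_of_nonneg hMM0]
        nlinarith
    · simp only [smul_add, smul_smul]
      rw [Finset.sum_add_distrib, hv, zero_add, ← Finset.sum_smul]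
      have h1 : ∑ i, m i * b i = 0 := by
        rw [← Finset.sum_add_sum_compl A (fun i => m i * b i),
          Finset.sum_congr rfl (fun i hi => by rw [hbA i hi] :
            ∀ i ∈ A, m i * b i = m i * (2 * u * g)),
          Finset.sum_congr rfl (fun i hi => by rw [hbc i hi] :
            ∀ i ∈ Aᶜ, m i * b i = m i * (-(2 * u * g * (M / M')))),
          ← Finset.sum_mul, ← Finset.sum_mul, ← hM, ← hM']
        field_simp
        ring
      rw [h1, zero_smul]
    · have h1 : ∀ i ∈ A, m i * ⟪v i + b i • e, e⟫ = m i * ⟪v i, e⟫ + m i * (2 * u * g) := by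
        intro i hi
        rw [inner_add_left, real_inner_smul_left, real_inner_self_eq_norm_sq, he, hbA i hi]
        ring
      rw [Finset.sum_congr rfl h1, Finset.sum_add_distrib, ← Finset.sum_mul, ← hM, ← hP]
      have h2 : |P + M * (2 * u * g)| = |g * (P + M * (2 * u * g))| := by
        rw [abs_mul, hg1, one_mul]
      have h3 : g * (P + M * (2 * u * g)) = |P| + 2 * u * M := by
        rw [mul_add, hg2]
        have : g * (M * (2 * u * g)) = g ^ 2 * (2 * u * M) := by ring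
        rw [this, hg3, one_mul]
      rw [h2, h3]
      have h4 : 0 ≤ |P| + 2 * u * M := by positivity
      rw [abs_of_nonneg h4]
      have h5 := abs_nonneg P
      nlinarith [mul_nonneg hu hM0.le]
    · rw [hgain]
      have : 0 ≤ 4 * u * (1 + M / M') * (|P| + u * M) := by positivity
      linarith
    · rw [hgain]
      have h1 : 4 * u * (1 + M / M') * (|P| + u * M) ≤ 4 * u * (1 + C) * (2 * (u * M)) := by
        apply mul_le_mul
        · exact mul_le_mul_of_nonneg_left (by linarith) (by positivity)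
        · linarith
        · positivity
        · have : 0 ≤ 1 + C := by linarith
          positivity
      have h2 : 4 * u * (1 + C) * (2 * (u * M)) = 8 * (1 + C) * u ^ 2 * M := by ring
      have h3 : 8 * (1 + C) * u ^ 2 * M ≤ 8 * (1 + C) * u ^ 2 * (C * (1 - m j₀)) := by
        apply mul_le_mul_of_nonneg_left hMj
        have : 0 ≤ 1 + C := by linarith
        positivity
      have h4 : 8 * (1 + C) * u ^ 2 * (C * (1 - m j₀)) =
          2 * (4 * C * (1 + C) * u ^ 2 * (1 - m j₀)) := by ring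
      linarith

/-- Velocities with a fast group and a prescribed gain `κ` of the kinetic energy. -/
theorem exists_vel4 {N : ℕ} {m : Fin N → ℝ} (hm : ∀ i, 0 < m i) (hM : ∑ i, m i = 1)
    (v : Fin N → V3) (hv : ∑ i, m i • v i = 0) {e n : V3} (he : ‖e‖ = 1) (hn : ‖n‖ = 1)
    (hne : ⟪n, e⟫ = 0) {A : Finset (Fin N)} (hA : A.Nonempty) {C u β κ : ℝ} (hC : 1 ≤ C)
    (hu : 0 ≤ u) (hβ : 0 ≤ β) (hAc : ∑ i ∈ A, m i ≤ C * ∑ i ∈ Aᶜ, m i) {j₀ : Fin N}
    (hj₀ : ∀ i, m i ≤ m j₀) (hκ1 : 4 * C * (1 + C) * u ^ 2 * (1 - m j₀) ≤ κ)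
    (hκ2 : 2 * κ ≤ β ^ 2 * (1 - m j₀)) :
    ∃ v' : Fin N → V3, (∀ i, ‖v' i - v i‖ ≤ 2 * C * u + β) ∧ ∑ i, m i • v' i = 0 ∧
      (∑ i ∈ A, m i) * u ≤ |∑ i ∈ A, m i * ⟪v' i, e⟫| ∧
      ∑ i, m i * ‖v' i‖ ^ 2 = ∑ i, m i * ‖v i‖ ^ 2 + 2 * κ := by
  obtain ⟨v₁, h1, h2, h3, h4, h5⟩ := exists_boost_exact hm hM v hv he hA hC hu hAc j₀
  obtain ⟨v₂, k1, k2, k3, k4⟩ := exists_kick_exact hm hM v₁ hn hne hβ hj₀
    (t := ∑ i, m i * ‖v i‖ ^ 2 + 2 * κ - ∑ i, m i * ‖v₁ i‖ ^ 2) (by linarith) (by linarith)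
  refine ⟨v₂, ?_, ?_, ?_, ?_⟩
  · intro i
    calc ‖v₂ i - v i‖ = ‖(v₂ i - v₁ i) + (v₁ i - v i)‖ := by congr 1; abel
      _ ≤ ‖v₂ i - v₁ i‖ + ‖v₁ i - v i‖ := norm_add_le _ _
      _ ≤ β + 2 * C * u := add_le_add (k1 i) (h1 i)
      _ = 2 * C * u + β := by ring
  · rw [k3, h2]
  · rw [Finset.sum_congr rfl (fun i _ => by rw [k2 i] :
      ∀ i ∈ A, m i * ⟪v₂ i, e⟫ = m i * ⟪v₁ i, e⟫)]
    exact h3
  · rw [k4]
    ring

/-- a unit vector orthogonal to a given one -/
theorem exists_unit_orth (e : V3) : ∃ n : V3, ‖n‖ = 1 ∧ ⟪n, e⟫ = 0 := by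
  have h1 : Module.finrank ℝ (ℝ ∙ e) ≤ 1 := by
    rcases eq_or_ne e 0 with h | h
    · rw [h, Submodule.span_zero_singleton, finrank_bot]
      exact zero_le_one
    · exact (finrank_span_singleton h).le
  have h2 : Module.finrank ℝ V3 = 3 := by simp
  have h3 : 0 < Module.finrank ℝ ((ℝ ∙ e)ᗮ : Submodule ℝ V3) := by
    have := Submodule.finrank_add_finrank_orthogonal (ℝ ∙ e)
    omega
  obtain ⟨n, hn⟩ := (Module.finrank_pos_iff_exists_ne_zero (R := ℝ)).mp h3
  have hn0 : (n : V3) ≠ 0 := fun h => hn (Subtype.ext h)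
  refine ⟨(‖(n : V3)‖)⁻¹ • (n : V3), ?_, ?_⟩
  · rw [norm_smul, norm_inv, norm_norm, inv_mul_cancel₀ (norm_ne_zero_iff.mpr hn0)]
  · rw [real_inner_smul_left, real_inner_comm,
      (Submodule.mem_orthogonal _ _).mp n.2 e (Submodule.mem_span_singleton_self e), mul_zero]

/-- The module N2b: boost and kicks with the exact gain `80 u² (1 - m j₀)`. -/
theorem boost_kick4 : ∀ {N : ℕ} (m : Fin N → ℝ), (∀ i, 0 < m i) → ∑ i, m i = 1 → ∀ e : V3,
    ‖e‖ = 1 → ∀ v : Fin N → V3, ∑ i, m i • v i = 0 → ∀ A : Finset (Fin N), A.Nonempty →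
    ∑ i ∈ A, m i ≤ 4 * ∑ i ∈ Aᶜ, m i → ∀ j₀ : Fin N, (∀ i, m i ≤ m j₀) → ∀ u δ : ℝ, 0 < u →
    0 < δ → 80 * u ^ 2 ≤ δ ^ 2 / 128 →
    ∃ v' : Fin N → V3, ∑ i, m i • v' i = 0 ∧ (∀ i, ‖v' i - v i‖ ≤ δ) ∧
      (∑ i ∈ A, m i) * u ≤ |∑ i ∈ A, m i * ⟪v' i, e⟫| ∧
      (∑ i, m i * ‖v' i‖ ^ 2) / 2 = (∑ i, m i * ‖v i‖ ^ 2) / 2 + 80 * u ^ 2 * (1 - m j₀) := by
  intro N m hm hM e he v hv A hA hAc j₀ hj₀ u δ hu hδ huδ
  obtain ⟨n, hn, hne⟩ := exists_unit_orth e
  have hj1 : 0 ≤ 1 - m j₀ := by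
    have := Finset.single_le_sum (f := m) (fun i _ => (hm i).le) (Finset.mem_univ j₀)
    linarith
  have hu8 : 8 * u ≤ δ / 8 := by
    have h1 : (8 * u) ^ 2 ≤ (δ / 8) ^ 2 := by nlinarith [sq_nonneg δ, sq_nonneg u]
    exact (pow_le_pow_iff_left₀ (by linarith) (by linarith) two_ne_zero).mp h1
  obtain ⟨v', h1, h2, h3, h4⟩ := exists_vel4 hm hM v hv he hn hne hA (C := 4) (u := u)
    (β := δ / 2) (κ := 80 * u ^ 2 * (1 - m j₀)) (by norm_num) hu.le (by linarith) hAc hj₀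
    (by apply le_of_eq; ring) (by
      have h5 := mul_le_mul_of_nonneg_right huδ hj1
      have h6 : 0 ≤ δ ^ 2 * (1 - m j₀) := by positivity
      nlinarith)
  refine ⟨v', h2, fun i => (h1 i).trans ?_, h3, ?_⟩
  · linarith
  · rw [h4]
    ring

end Pool.Agent.NBody
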