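import Mathlib
import Pool.Agent.NBody.ThGroup
import Pool.Agent.NBody.ThPrepM
import Pool.Agent.NBody.ThVel4
import Pool.Agent.NBody.ThLemP

/-!
Arbitrary masses, the whole energy surface: states with a body far away (type II), assembly.

`PosUp`: the positions can be moved a little so that the force function increases by a given small
amount.  `BoostKick`: the velocities can be changed a little so that the momentum stays zero, the
kinetic energy increases by a given small amount and a given group of bodies moves fast.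
-/

set_option autoImplicit false
open scoped RealInnerProductSpace
open Set Finset Filter Topology

namespace Pool.Agent.NBody

/-- Positions: a small displacement which increases the force function by exactly `κ`. -/
def PosUp : Prop :=
  ∀ {N : ℕ} (m : Fin N → ℝ), (∀ i, 0 < m i) → ∑ i, m i = 1 → ∀ X : ℝ, 10 ^ 9 ≤ X →
    ∀ q : Fin N → V3, (∀ i j, i ≠ j → q i ≠ q j) → 1 / X ≤ pot m q →
    ∀ κ : ℝ, 0 ≤ κ → κ ≤ 1 / X ^ 12 →
    ∃ q' : Fin N → V3, (∀ i, ‖q' i - q i‖ ≤ 1 / (2 * X)) ∧ (∀ i j, i ≠ j → q' i ≠ q' j) ∧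
      pot m q' = pot m q + κ

/-- Velocities: a small change which keeps the momentum, makes the group `A` fast in the direction
`e` and increases the kinetic energy by exactly `80 u ^ 2 (1 - m j₀)`. -/
def BoostKick : Prop :=
  ∀ {N : ℕ} (m : Fin N → ℝ), (∀ i, 0 < m i) → ∑ i, m i = 1 → ∀ e : V3, ‖e‖ = 1 →
    ∀ v : Fin N → V3, ∑ i, m i • v i = 0 → ∀ A : Finset (Fin N), A.Nonempty →
    ∑ i ∈ A, m i ≤ 4 * ∑ i ∈ Aᶜ, m i → ∀ j₀ : Fin N, (∀ i, m i ≤ m j₀) →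
    ∀ u δ : ℝ, 0 < u → 0 < δ → 80 * u ^ 2 ≤ δ ^ 2 / 128 →
    ∃ v' : Fin N → V3, ∑ i, m i • v' i = 0 ∧ (∀ i, ‖v' i - v i‖ ≤ δ) ∧
      (∑ i ∈ A, m i) * u ≤ |∑ i ∈ A, m i * ⟪v' i, e⟫| ∧
      (∑ i, m i * ‖v' i‖ ^ 2) / 2 = (∑ i, m i * ‖v i‖ ^ 2) / 2 + 80 * u ^ 2 * (1 - m j₀)

/-- Translations do not change the force function. -/
theorem invdM_sub_const {N : ℕ} (m : Fin N → ℝ) (q : Fin N → V3) (c : V3) :
    invdM m (fun i => q i - c) = invdM m q := by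
  unfold invdM
  refine Finset.sum_congr rfl fun i _ => Finset.sum_congr rfl fun j _ => ?_
  rw [sub_sub_sub_cancel_right]

/-- If the centre of mass is the origin, the bodies beyond a quarter of the largest distance have
at most four fifths of the mass. -/
theorem mass_far_le {N : ℕ} {m : Fin N → ℝ} (hm : ∀ i, 0 < m i) {q : Fin N → V3}
    (hcom : ∑ i, m i • q i = 0) {e : V3} (he : ‖e‖ = 1) {ρ : ℝ} (hρ : 0 < ρ)
    (hq : ∀ i, ‖q i‖ ≤ ρ) {A : Finset (Fin N)} (hA : ∀ i ∈ A, ρ / 4 < ⟪q i, e⟫) :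
    ∑ i ∈ A, m i ≤ 4 * ∑ i ∈ Aᶜ, m i := by
  classical
  have h0 : ∑ i, m i * ⟪q i, e⟫ = 0 := by
    have h1 : ⟪∑ i, m i • q i, e⟫ = ∑ i, m i * ⟪q i, e⟫ := by
      rw [sum_inner]
      exact Finset.sum_congr rfl fun i _ => real_inner_smul_left _ _ _
    rw [← h1, hcom, inner_zero_left]
  rw [← Finset.sum_add_sum_compl A] at h0
  have h1 : (∑ i ∈ A, m i) * (ρ / 4) ≤ ∑ i ∈ A, m i * ⟪q i, e⟫ := by
    rw [Finset.sum_mul]
    exact Finset.sum_le_sum fun i hi => mul_le_mul_of_nonneg_left (hA i hi).le (hm i).le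
  have h2 : (∑ i ∈ Aᶜ, m i) * (-ρ) ≤ ∑ i ∈ Aᶜ, m i * ⟪q i, e⟫ := by
    rw [Finset.sum_mul]
    refine Finset.sum_le_sum fun i _ => mul_le_mul_of_nonneg_left ?_ (hm i).le
    have h3 := abs_real_inner_le_norm (q i) e
    rw [he, mul_one] at h3
    have h4 := (abs_le.mp h3).1
    have h5 := hq i
    linarith
  have h3 : (∑ i ∈ A, m i) * (ρ / 4) ≤ (∑ i ∈ Aᶜ, m i) * ρ := by linarith
  have h4 : (∑ i ∈ A, m i) * (ρ / 4) = ((∑ i ∈ A, m i) / 4) * ρ := by ring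
  rw [h4] at h3
  have h5 := le_of_mul_le_mul_right h3 hρ
  linarith

/-- N2c: states with a body far away are close to wandering states. -/
theorem type2_4_of (hP : PosUp) (hB : BoostKick) {N : ℕ} {m : Fin N → ℝ}
    (hm : ∀ i, 0 < m i) (hM : ∑ i, m i = 1) {X : ℝ} (hX9 : 10 ^ 9 ≤ X)
    (hmX : ∀ i, Real.exp (-X) ≤ m i) {E : ℝ} (hE : E ≤ -(1 / X)) {R : ℝ}
    (hR : X ^ 14 ≤ R) {S : Set (Ph N)} {ψ : Ph N → ℝ}
    {φ : ℝ → Ph N → Ph N} (hset : Setting m S ψ φ)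
    (hS : ∀ x : Ph N, x ∈ S ↔ (∀ i j, i ≠ j → x.1 i ≠ x.1 j) ∧ ∑ i, m i • x.1 i = 0 ∧
      ∑ i, x.2 i = 0 ∧ kin m x.2 - pot m x.1 = E) {x : Ph N} (hx : x ∈ S)
    {i₁ : Fin N} (hfar : R < ‖x.1 i₁‖) :
    ∃ y ∈ S, Wandering S φ y ∧ (∀ i, ‖y.1 i - x.1 i‖ ≤ 1 / X) ∧
      (∀ i, ‖(m i)⁻¹ • y.2 i - (m i)⁻¹ • x.2 i‖ ≤ 1 / X) := by
  classical
  obtain ⟨hnc, hcom, hmom, hen⟩ := (hS x).mp hx
  have hX : 1 ≤ X := le_trans (by norm_num) hX9
  have hX0 : 0 < X := by linarith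
  have hX13 : 1 ≤ X ^ 13 := one_le_pow₀ hX
  have hR13 : 10 ^ 9 * X ^ 13 ≤ R := by
    refine le_trans ?_ hR
    have h1 : X ^ 14 = X * X ^ 13 := by ring
    rw [h1]
    exact mul_le_mul_of_nonneg_right hX9 (by positivity)
  have hR9 : 10 ^ 9 ≤ R := by linarith
  have hR0 : 0 < R := by linarith
  -- velocities
  obtain ⟨v, hv⟩ : ∃ v : Fin N → V3, v = fun i => (m i)⁻¹ • x.2 i := ⟨_, rfl⟩
  have hmv : ∀ i, m i • v i = x.2 i := by
    intro i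
    rw [hv]
    simp only
    rw [smul_smul, mul_inv_cancel₀ (hm i).ne', one_smul]
  have hxv : x.2 = fun i => m i • v i := by
    funext i
    rw [hmv]
  have hvsum : ∑ i, m i • v i = 0 := by
    simp only [hmv]
    exact hmom
  obtain ⟨Kv, hKv⟩ : ∃ Kv : ℝ, Kv = ∑ i, m i * ‖v i‖ ^ 2 := ⟨_, rfl⟩
  have hKv0 : 0 ≤ Kv := by
    rw [hKv]
    exact Finset.sum_nonneg fun i _ => mul_nonneg (hm i).le (sq_nonneg _)
  have hen' : Kv / 2 - invdM m x.1 / 2 = E := by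
    rw [hxv, kin_eqM hm, pot_eq_invdM, ← hKv] at hen
    exact hen
  -- the heaviest body
  obtain ⟨j₀, -, hj₀⟩ := Finset.exists_max_image (Finset.univ : Finset (Fin N)) m
    ⟨i₁, Finset.mem_univ _⟩
  have hmj1 : m j₀ ≤ 1 := by
    rw [← hM]
    exact Finset.single_le_sum (fun i _ => (hm i).le) (Finset.mem_univ j₀)
  have hmj0 := hm j₀
  -- parameters
  obtain ⟨w, hw⟩ : ∃ w : ℝ, w = 4320 * (X + 2) / R := ⟨_, rfl⟩
  have hw0 : 0 < w := by rw [hw]; positivity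
  obtain ⟨u, hu⟩ : ∃ u : ℝ, u = √w := ⟨_, rfl⟩
  have hu0 : 0 < u := by rw [hu]; exact Real.sqrt_pos.mpr hw0
  have hu2 : u ^ 2 = w := by rw [hu]; exact Real.sq_sqrt hw0.le
  have hw1 : w ≤ 12960 * X / R := by
    rw [hw]
    apply div_le_div_of_nonneg_right _ hR0.le
    linarith
  have hwδ : 80 * u ^ 2 ≤ (1 / X) ^ 2 / 128 := by
    rw [hu2]
    have h1 : 80 * w ≤ 1036800 * X / R := by
      have : 1036800 * X / R = 80 * (12960 * X / R) := by ring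
      rw [this]
      linarith
    refine h1.trans ?_
    rw [div_le_iff₀ hR0]
    have h2 : (1 / X) ^ 2 / 128 * R = R / (128 * X ^ 2) := by field_simp
    rw [h2, le_div_iff₀ (by positivity)]
    have h3 : X ^ 3 ≤ X ^ 13 := pow_le_pow_right₀ hX (by norm_num)
    have h5 : 1036800 * X * (128 * X ^ 2) = 132710400 * X ^ 3 := by ring
    rw [h5]
    have h6 : (0:ℝ) ≤ X ^ 3 := by positivity
    linarith
  obtain ⟨κ, hκ⟩ : ∃ κ : ℝ, κ = 80 * u ^ 2 * (1 - m j₀) := ⟨_, rfl⟩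
  have hκ0 : 0 ≤ κ := by
    rw [hκ]
    have : 0 ≤ 1 - m j₀ := by linarith
    positivity
  have hκ1 : κ ≤ 1 / X ^ 12 := by
    have h1 : κ ≤ 80 * w := by
      rw [hκ, hu2]
      have : 0 ≤ 80 * w := by positivity
      nlinarith
    refine h1.trans ?_
    have h2 : 80 * w ≤ 1036800 * X / R := by
      have : 1036800 * X / R = 80 * (12960 * X / R) := by ring
      rw [this]
      linarith
    refine h2.trans ?_
    rw [div_le_div_iff₀ hR0 (by positivity)]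
    have h3 : 1036800 * X * X ^ 12 = 1036800 * X ^ 13 := by ring
    rw [h3, one_mul]
    linarith
  -- positions
  have hUX : 1 / X ≤ pot m x.1 := by
    rw [pot_eq_invdM]
    linarith
  obtain ⟨q₁, hq₁d, hq₁nc, hq₁U⟩ := hP m hm hM X hX9 x.1 hnc hUX κ hκ0 hκ1
  rw [pot_eq_invdM, pot_eq_invdM] at hq₁U
  obtain ⟨c₀, hc₀⟩ : ∃ c₀ : V3, c₀ = ∑ i, m i • q₁ i := ⟨_, rfl⟩
  have hc₀n : ‖c₀‖ ≤ 1 / (2 * X) := by
    have h1 : c₀ = ∑ i, m i • (q₁ i - x.1 i) := by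
      simp only [smul_sub]
      rw [hc₀, Finset.sum_sub_distrib, hcom, sub_zero]
    rw [h1]
    have h2 : ‖∑ i, m i • (q₁ i - x.1 i)‖ ≤ ∑ i, m i * (1 / (2 * X)) := by
      refine (norm_sum_le _ _).trans (Finset.sum_le_sum (fun i _ => ?_))
      rw [norm_smul, Real.norm_of_nonneg (hm i).le]
      exact mul_le_mul_of_nonneg_left (hq₁d i) (hm i).le
    rw [← Finset.sum_mul, hM, one_mul] at h2
    exact h2
  obtain ⟨q, hq⟩ : ∃ q : Fin N → V3, q = fun i => q₁ i - c₀ := ⟨_, rfl⟩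
  have hqi : ∀ i, q i = q₁ i - c₀ := fun i => by rw [hq]
  have hqx : ∀ i, ‖q i - x.1 i‖ ≤ 1 / X := by
    intro i
    rw [hqi]
    calc ‖q₁ i - c₀ - x.1 i‖ = ‖(q₁ i - x.1 i) - c₀‖ := by congr 1; abel
      _ ≤ ‖q₁ i - x.1 i‖ + ‖c₀‖ := norm_sub_le _ _
      _ ≤ 1 / (2 * X) + 1 / (2 * X) := add_le_add (hq₁d i) hc₀n
      _ = 1 / X := by field_simp; norm_num
  have hqcom : ∑ i, m i • q i = 0 := by
    simp only [hqi, smul_sub]
    rw [Finset.sum_sub_distrib, ← Finset.sum_smul, hM, one_smul, hc₀, sub_self]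
  have hqnc : ∀ i j, i ≠ j → q i ≠ q j := by
    intro i j hij h
    rw [hqi, hqi] at h
    exact hq₁nc i j hij (sub_left_injective h)
  have hqU : invdM m q = invdM m q₁ := by
    rw [hq]
    exact invdM_sub_const m q₁ c₀
  -- the farthest body
  obtain ⟨i₀, -, hi₀⟩ := Finset.exists_max_image (Finset.univ : Finset (Fin N))
    (fun i => ‖q i‖) ⟨i₁, Finset.mem_univ _⟩
  obtain ⟨ρ, hρ⟩ : ∃ ρ : ℝ, ρ = ‖q i₀‖ := ⟨_, rfl⟩
  have hqρ : ∀ i, ‖q i‖ ≤ ρ := fun i => by rw [hρ]; exact hi₀ i (Finset.mem_univ _)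
  have hρR : R - 1 ≤ ρ := by
    have h1 := hqρ i₁
    have h2 := hqx i₁
    have h3 : ‖x.1 i₁‖ ≤ ‖q i₁‖ + ‖q i₁ - x.1 i₁‖ := by
      calc ‖x.1 i₁‖ = ‖q i₁ - (q i₁ - x.1 i₁)‖ := by congr 1; abel
        _ ≤ _ := norm_sub_le _ _
    have h4 : 1 / X ≤ 1 := by
      rw [div_le_one hX0]
      exact hX
    linarith
  have hρ0 : 0 < ρ := by linarith
  obtain ⟨e, he⟩ : ∃ e : V3, e = ρ⁻¹ • q i₀ := ⟨_, rfl⟩
  have hen1 : ‖e‖ = 1 := by
    rw [he, norm_smul, norm_inv, Real.norm_of_nonneg hρ0.le, ← hρ, inv_mul_cancel₀ hρ0.ne']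
  have hqe : ⟪q i₀, e⟫ = ρ := by
    rw [he, inner_smul_right, real_inner_self_eq_norm_sq, ← hρ]
    field_simp
  obtain ⟨A, hA1, hA2, hA3⟩ := groupM_set hm hM.le hX0.le hmX hen1.le q (h := ρ / 4)
    (D := R / 5) (by positivity) ⟨i₀, by rw [hqe]; linarith⟩
  have hMA : ∑ i ∈ A, m i ≤ 4 * ∑ i ∈ Aᶜ, m i := mass_far_le hm hqcom hen1 hρ0 hqρ hA2
  obtain ⟨v', hv'sum, hv'd, hv'A, hv'K⟩ := hB m hm hM e hen1 v hvsum A hA1 hMA j₀
    (fun i => hj₀ i (Finset.mem_univ _)) u (1 / X) hu0 (by positivity) hwδ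
  have hy : ((q, fun i => m i • v' i) : Ph N) ∈ S := by
    rw [hS]
    refine ⟨hqnc, hqcom, hv'sum, ?_⟩
    rw [kin_eqM hm, pot_eq_invdM, hv'K, ← hκ, hqU, hq₁U, ← hKv]
    linarith
  refine ⟨(q, fun i => m i • v' i), hy, ?_, hqx, ?_⟩
  · refine hA3 S ψ φ hset _ hy 0 q v' (hset.flow _ hy).1 (fun _ => rfl) u hu0 hv'A ?_
    rw [hu2, hw]
    have h1 : 4320 * (X + 2) / R * (R / 5) = 864 * (X + 2) := by
      field_simp
      norm_num
    rw [h1]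
    linarith
  · intro i
    simp only
    rw [smul_smul, inv_mul_cancel₀ (hm i).ne', one_smul]
    have h1 := hv'd i
    rw [hv] at h1
    exact h1

theorem boostKick_type2 : BoostKick := boost_kick4

theorem posUp_type2 : PosUp := fun _ hm hM _ hX q hq hU _ hκ hκ' => lemP_half hX hm hM q hq hU hκ hκ'

/-- N2c: a state with a body farther away than `R ≥ X ^ 14` is within `1 / X`, in the position and
in the velocity of every body, of a wandering state of the same energy surface. -/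
theorem type2_4 {N : ℕ} {m : Fin N → ℝ} (hm : ∀ i, 0 < m i) (hM : ∑ i, m i = 1) {X : ℝ}
    (hX9 : 10 ^ 9 ≤ X) (hmX : ∀ i, Real.exp (-X) ≤ m i) {E : ℝ} (hE : E ≤ -(1 / X)) {R : ℝ}
    (hR : X ^ 14 ≤ R) {S : Set (Ph N)} {ψ : Ph N → ℝ} {φ : ℝ → Ph N → Ph N}
    (hset : Setting m S ψ φ)
    (hS : ∀ x : Ph N, x ∈ S ↔ (∀ i j, i ≠ j → x.1 i ≠ x.1 j) ∧ ∑ i, m i • x.1 i = 0 ∧
      ∑ i, x.2 i = 0 ∧ kin m x.2 - pot m x.1 = E) {x : Ph N} (hx : x ∈ S)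
    {i₁ : Fin N} (hfar : R < ‖x.1 i₁‖) :
    ∃ y ∈ S, Wandering S φ y ∧ (∀ i, ‖y.1 i - x.1 i‖ ≤ 1 / X) ∧
      (∀ i, ‖(m i)⁻¹ • y.2 i - (m i)⁻¹ • x.2 i‖ ≤ 1 / X) :=
  type2_4_of posUp_type2 boostKick_type2 hm hM hX9 hmX hE hR hset hS hx hfar

end Pool.Agent.NBody
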