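import Mathlib
import Pool.Agent.NBody.Mean
import Pool.Agent.NBody.Spread

/-!
Measures of the forbidden sets of one displacement: tubes swept by a ball moving on a segment,
slabs, and the absolute bound for the Gaussian mean of the Newton potential.
-/

set_option autoImplicit false
open scoped ENNReal Real
open MeasureTheory Set Filter Topology

namespace Pool.Agent.NBody

/-! ### Tubes -/

/-- The displacements which bring a body within `ρ` of the other during the time `τ`, `w` the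
relative velocity. -/
def tube3 (w : EuclideanSpace ℝ (Fin 3)) (τ ρ : ℝ) : Set (EuclideanSpace ℝ (Fin 3)) :=
  {x | ∃ t ∈ Icc (0:ℝ) τ, ‖x + t • w‖ ≤ ρ}

open Pointwise in
theorem tube3_eq (w : EuclideanSpace ℝ (Fin 3)) (τ ρ : ℝ) :
    tube3 w τ ρ = Metric.closedBall 0 ρ + (fun t : ℝ => -(t • w)) '' Icc (0:ℝ) τ := by
  ext x
  simp only [tube3, mem_ofPred_eq, Set.mem_add]
  constructor
  · rintro ⟨t, ht, h⟩
    exact ⟨x + t • w, by simpa using h, -(t • w), ⟨t, ht, rfl⟩, by abel⟩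
  · rintro ⟨y, hy, z, ⟨t, ht, rfl⟩, rfl⟩
    refine ⟨t, ht, ?_⟩
    have h1 : y + -(t • w) + t • w = y := by abel
    simp only
    rw [h1]
    simpa using hy

open Pointwise in
theorem isCompact_tube3 (w : EuclideanSpace ℝ (Fin 3)) (τ ρ : ℝ) : IsCompact (tube3 w τ ρ) := by
  rw [tube3_eq]
  exact (isCompact_closedBall 0 ρ).add (isCompact_Icc.image (by fun_prop))

theorem isClosed_tube3 (w : EuclideanSpace ℝ (Fin 3)) (τ ρ : ℝ) : IsClosed (tube3 w τ ρ) :=
  (isCompact_tube3 w τ ρ).isClosed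

theorem measurableSet_tube3 (w : EuclideanSpace ℝ (Fin 3)) (τ ρ : ℝ) :
    MeasurableSet (tube3 w τ ρ) := (isClosed_tube3 w τ ρ).measurableSet

/-- The tube is covered by balls of twice the radius. -/
theorem tube3_subset (w : EuclideanSpace ℝ (Fin 3)) {τ ρ : ℝ} (hρ : 0 < ρ) :
    tube3 w τ ρ ⊆ ⋃ k ∈ Finset.range (⌊‖w‖ * τ / ρ⌋₊ + 1),
      Metric.closedBall (-(((k : ℝ) * ρ / ‖w‖) • w)) (2 * ρ) := by
  rintro x ⟨t, ht, hx⟩
  simp only [mem_iUnion, Finset.mem_range, exists_prop]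
  rcases eq_or_ne w 0 with hw | hw
  · refine ⟨0, Nat.succ_pos _, ?_⟩
    rw [mem_closedBall_iff_norm]
    subst hw
    simp only [smul_zero, add_zero] at hx
    simp only [smul_zero, neg_zero, sub_zero]
    linarith
  · have hw0 : 0 < ‖w‖ := norm_pos_iff.mpr hw
    refine ⟨⌊‖w‖ * t / ρ⌋₊, ?_, ?_⟩
    · refine Nat.lt_succ_of_le (Nat.floor_le_floor ?_)
      have := ht.2
      gcongr
    · rw [mem_closedBall_iff_norm]
      set k := ⌊‖w‖ * t / ρ⌋₊ with hk
      have hnn : 0 ≤ ‖w‖ * t / ρ := by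
        have := ht.1
        positivity
      have h1 : (k : ℝ) ≤ ‖w‖ * t / ρ := Nat.floor_le hnn
      have h2 : ‖w‖ * t / ρ < k + 1 := Nat.lt_floor_add_one _
      have h3 : (k : ℝ) * ρ ≤ ‖w‖ * t := by rwa [le_div_iff₀ hρ] at h1
      have h4 : ‖w‖ * t < (k + 1) * ρ := by rwa [div_lt_iff₀ hρ] at h2
      have h5 : x - -(((k : ℝ) * ρ / ‖w‖) • w) = (x + t • w) - (t - (k : ℝ) * ρ / ‖w‖) • w := by
        module
      rw [h5]
      refine (norm_sub_le _ _).trans ?_
      have h6 : ‖(t - (k : ℝ) * ρ / ‖w‖) • w‖ ≤ ρ := by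
        rw [norm_smul, Real.norm_eq_abs, ← abs_of_pos hw0, ← abs_mul, abs_of_pos hw0]
        have h7 : (t - (k : ℝ) * ρ / ‖w‖) * ‖w‖ = ‖w‖ * t - k * ρ := by field_simp
        rw [h7, abs_le]
        constructor <;> nlinarith
      linarith

/-- **Volume of a tube.** -/
theorem volume_tube3 (w : EuclideanSpace ℝ (Fin 3)) {τ ρ : ℝ} (hτ : 0 ≤ τ) (hρ : 0 < ρ) :
    volume (tube3 w τ ρ) ≤ ENNReal.ofReal (34 * (ρ ^ 2 * (‖w‖ * τ) + ρ ^ 3)) := by
  refine (measure_mono (tube3_subset w hρ)).trans ?_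
  refine (measure_biUnion_finset_le _ _).trans ?_
  have h1 : ∀ k ∈ Finset.range (⌊‖w‖ * τ / ρ⌋₊ + 1),
      volume (Metric.closedBall (-(((k : ℝ) * ρ / ‖w‖) • w)) (2 * ρ)) ≤
        ENNReal.ofReal (34 * ρ ^ 3) := by
    intro k _
    rw [EuclideanSpace.volume_closedBall_fin_three, ← ENNReal.ofReal_pow (by positivity),
      ← ENNReal.ofReal_mul (by positivity)]
    apply ENNReal.ofReal_le_ofReal
    have hp := Real.pi_lt_d4
    have : (2 * ρ) ^ 3 * (π * 4 / 3) = (32 * π / 3) * ρ ^ 3 := by ring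
    rw [this]
    have h3 : 0 < ρ ^ 3 := by positivity
    nlinarith
  refine (Finset.sum_le_sum h1).trans ?_
  rw [Finset.sum_const, nsmul_eq_mul, Finset.card_range]
  have hnn : 0 ≤ ‖w‖ * τ / ρ := by positivity
  have h2 : ((⌊‖w‖ * τ / ρ⌋₊ + 1 : ℕ) : ℝ≥0∞) ≤ ENNReal.ofReal (‖w‖ * τ / ρ + 1) := by
    rw [← ENNReal.ofReal_natCast]
    apply ENNReal.ofReal_le_ofReal
    push_cast
    have := Nat.floor_le hnn
    linarith
  refine (mul_le_mul_left h2 _).trans ?_
  rw [← ENNReal.ofReal_mul (by positivity)]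
  apply ENNReal.ofReal_le_ofReal
  apply le_of_eq
  field_simp

/-- The translated tube. -/
theorem measurableSet_tube3_shift (c w : EuclideanSpace ℝ (Fin 3)) (τ ρ : ℝ) :
    MeasurableSet {x : EuclideanSpace ℝ (Fin 3) | ∃ t ∈ Icc (0:ℝ) τ, ‖x + c + t • w‖ ≤ ρ} := by
  have h1 : {x : EuclideanSpace ℝ (Fin 3) | ∃ t ∈ Icc (0:ℝ) τ, ‖x + c + t • w‖ ≤ ρ} =
      (fun x => x + c) ⁻¹' tube3 w τ ρ := rfl
  rw [h1]
  exact (measurable_add_const c) (measurableSet_tube3 w τ ρ)

theorem volume_tube3_shift (c w : EuclideanSpace ℝ (Fin 3)) {τ ρ : ℝ} (hτ : 0 ≤ τ) (hρ : 0 < ρ) :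
    volume {x : EuclideanSpace ℝ (Fin 3) | ∃ t ∈ Icc (0:ℝ) τ, ‖x + c + t • w‖ ≤ ρ} ≤
      ENNReal.ofReal (34 * (ρ ^ 2 * (‖w‖ * τ) + ρ ^ 3)) := by
  have h1 : {x : EuclideanSpace ℝ (Fin 3) | ∃ t ∈ Icc (0:ℝ) τ, ‖x + c + t • w‖ ≤ ρ} =
      (fun x => x + c) ⁻¹' tube3 w τ ρ := rfl
  rw [h1, measure_preimage_add_right]
  exact volume_tube3 w hτ hρ

theorem gm_tube3 {b : ℝ} (hb : 0 < b) (c w : EuclideanSpace ℝ (Fin 3)) {τ ρ : ℝ} (hτ : 0 ≤ τ)
    (hρ : 0 < ρ) :
    gm b {x : EuclideanSpace ℝ (Fin 3) | ∃ t ∈ Icc (0:ℝ) τ, ‖x + c + t • w‖ ≤ ρ} ≤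
      ENNReal.ofReal (34 * (ρ ^ 2 * (‖w‖ * τ) + ρ ^ 3)) :=
  (gm_le_volume hb _).trans (volume_tube3_shift c w hτ hρ)

/-! ### Slabs -/

theorem exists_onb (e : EuclideanSpace ℝ (Fin 3)) (he : ‖e‖ = 1) :
    ∃ B : OrthonormalBasis (Fin 3) ℝ (EuclideanSpace ℝ (Fin 3)), B 0 = e := by
  have h1 : Orthonormal ℝ (({0} : Set (Fin 3)).domRestrict
      (fun _ : Fin 3 => e)) := by
    constructor
    · intro i; exact he
    · intro i j hij
      exact absurd (Subsingleton.elim i j) hij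
  obtain ⟨B, hB⟩ := h1.exists_orthonormalBasis_extension_of_card_eq
    (by rw [finrank_euclideanSpace_fin]; simp)
  exact ⟨B, hB 0 rfl⟩

/-- Product functions in an orthonormal frame. -/
theorem lintegral_frame (B : OrthonormalBasis (Fin 3) ℝ (EuclideanSpace ℝ (Fin 3)))
    (g : Fin 3 → ℝ → ℝ) (hg : ∀ i, Integrable (g i)) (hg0 : ∀ i u, 0 ≤ g i u)
    (hgm : ∀ i, Measurable (g i)) :
    ∫⁻ x : EuclideanSpace ℝ (Fin 3), ENNReal.ofReal (∏ i, g i (inner ℝ (B i) x)) =
      ENNReal.ofReal (∏ i, ∫ u, g i u) := by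
  have h1 : ∀ x : EuclideanSpace ℝ (Fin 3), ENNReal.ofReal (∏ i, g i (inner ℝ (B i) x)) =
      (fun z : Fin 3 → ℝ => ENNReal.ofReal (∏ i, g i (z i)))
        (WithLp.ofLp (B.repr x)) := by
    intro x
    simp only [OrthonormalBasis.repr_apply_apply]
  simp_rw [h1]
  have hm : Measurable (fun z : Fin 3 → ℝ => ENNReal.ofReal (∏ i, g i (z i))) := by
    fun_prop
  have h2 := (PiLp.volume_preserving_ofLp (Fin 3)).comp B.measurePreserving_repr
  have h3 := h2.lintegral_comp hm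
  simp only [Function.comp_apply] at h3
  rw [h3]
  rw [← ofReal_integral_eq_lintegral_ofReal]
  · rw [integral_fintype_prod_volume_eq_prod]
  · exact Integrable.fintype_prod hg
  · exact ae_of_all _ fun z => Finset.prod_nonneg fun i _ => hg0 i _

theorem integrable_gauss1 {b : ℝ} (hb : 0 < b) :
    Integrable (fun u : ℝ => Real.exp (-b * u ^ 2)) := integrable_exp_neg_mul_sq hb

/-- **Gaussian measure of a slab.** -/
theorem gm_slab {b : ℝ} (hb : 0 < b) (e : EuclideanSpace ℝ (Fin 3)) (he : ‖e‖ = 1) (h : ℝ)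
    {d : ℝ} (hd : 0 ≤ d) :
    gm b {x : EuclideanSpace ℝ (Fin 3) | |inner ℝ x e - h| ≤ d} ≤
      ENNReal.ofReal (2 * d * (π / b)) := by
  obtain ⟨B, hB⟩ := exists_onb e he
  have hmS : MeasurableSet {x : EuclideanSpace ℝ (Fin 3) | |inner ℝ x e - h| ≤ d} :=
    (isClosed_le (by fun_prop) continuous_const).measurableSet
  have hmI : MeasurableSet (Icc (h - d) (h + d)) := measurableSet_Icc
  set g : Fin 3 → ℝ → ℝ := ![(Icc (h - d) (h + d)).indicator fun u => Real.exp (-b * u ^ 2),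
    fun u => Real.exp (-b * u ^ 2), fun u => Real.exp (-b * u ^ 2)] with hg
  have hexp : Measurable fun u : ℝ => Real.exp (-b * u ^ 2) := by fun_prop
  have hg1 : ∀ i, Integrable (g i) := by
    intro i
    fin_cases i
    · exact (integrable_gauss1 hb).indicator hmI
    · exact integrable_gauss1 hb
    · exact integrable_gauss1 hb
  have hg2 : ∀ i u, 0 ≤ g i u := by
    intro i u
    fin_cases i
    · exact indicator_nonneg (fun _ _ => (Real.exp_pos _).le) u
    · exact (Real.exp_pos _).le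
    · exact (Real.exp_pos _).le
  have hg3 : ∀ i, Measurable (g i) := by
    intro i
    fin_cases i
    · exact hexp.indicator hmI
    · exact hexp
    · exact hexp
  have h1 := lintegral_frame B g hg1 hg2 hg3
  rw [gm, withDensity_apply _ hmS, ← lintegral_indicator hmS]
  have h2 : ∀ x : EuclideanSpace ℝ (Fin 3),
      ({x : EuclideanSpace ℝ (Fin 3) | |inner ℝ x e - h| ≤ d}.indicator
        fun x => ENNReal.ofReal (Real.exp (-b * ‖x‖ ^ 2))) x =
      ENNReal.ofReal (∏ i, g i (inner ℝ (B i) x)) := by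
    intro x
    have hn : ‖x‖ ^ 2 = (inner ℝ (B 0) x) ^ 2 + (inner ℝ (B 1) x) ^ 2 +
        (inner ℝ (B 2) x) ^ 2 := by
      have h3 := B.sum_sq_norm_inner_right x
      rw [← h3, Fin.sum_univ_three]
      simp only [Real.norm_eq_abs, sq_abs]
    rw [Fin.prod_univ_three]
    have hg0' : g 0 = (Icc (h - d) (h + d)).indicator fun u => Real.exp (-b * u ^ 2) := rfl
    have hg1' : g 1 = fun u => Real.exp (-b * u ^ 2) := rfl
    have hg2' : g 2 = fun u => Real.exp (-b * u ^ 2) := rfl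
    rw [hg0', hg1', hg2']
    have hiff : x ∈ {x : EuclideanSpace ℝ (Fin 3) | |inner ℝ x e - h| ≤ d} ↔
        inner ℝ (B 0) x ∈ Icc (h - d) (h + d) := by
      rw [hB, mem_ofPred_eq, real_inner_comm, abs_le, mem_Icc]
      constructor <;> rintro ⟨h4, h5⟩ <;> constructor <;> linarith
    by_cases hx : x ∈ {x : EuclideanSpace ℝ (Fin 3) | |inner ℝ x e - h| ≤ d}
    · rw [indicator_of_mem hx, indicator_of_mem (hiff.mp hx), ← Real.exp_add, ← Real.exp_add]
      congr 2
      rw [hn]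
      ring
    · rw [indicator_of_notMem hx, indicator_of_notMem (fun h' => hx (hiff.mpr h'))]
      simp
  simp_rw [h2]
  rw [h1]
  apply ENNReal.ofReal_le_ofReal
  rw [Fin.prod_univ_three]
  have hg1' : g 1 = fun u => Real.exp (-b * u ^ 2) := rfl
  have hg2' : g 2 = fun u => Real.exp (-b * u ^ 2) := rfl
  have hg0' : g 0 = (Icc (h - d) (h + d)).indicator fun u => Real.exp (-b * u ^ 2) := rfl
  rw [hg1', hg2', integral_gaussian, mul_assoc,
    Real.mul_self_sqrt (div_pos Real.pi_pos hb).le]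
  apply mul_le_mul_of_nonneg_right _ (div_pos Real.pi_pos hb).le
  rw [hg0', integral_indicator hmI]
  have h5 : ∫ u in Icc (h - d) (h + d), Real.exp (-b * u ^ 2) ≤
      ∫ u in Icc (h - d) (h + d), (1:ℝ) := by
    apply setIntegral_mono_on
    · exact (integrable_gauss1 hb).integrableOn
    · exact integrableOn_const (by simp)
    · exact hmI
    · intro u _
      rw [Real.exp_le_one_iff]
      nlinarith [sq_nonneg u]
  refine h5.trans ?_
  rw [setIntegral_const, smul_eq_mul, mul_one, Measure.real, Real.volume_Icc,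
    ENNReal.toReal_ofReal (by linarith)]
  linarith

/-- The slab for the difference of two heights at time `τ`. -/
theorem gm_slab_shift {b : ℝ} (hb : 0 < b) (e : EuclideanSpace ℝ (Fin 3)) (he : ‖e‖ = 1)
    (c : EuclideanSpace ℝ (Fin 3)) {d : ℝ} (hd : 0 ≤ d) :
    gm b {x : EuclideanSpace ℝ (Fin 3) | |inner ℝ (x + c) e| ≤ d} ≤
      ENNReal.ofReal (2 * d * (π / b)) := by
  have h1 : {x : EuclideanSpace ℝ (Fin 3) | |inner ℝ (x + c) e| ≤ d} =
      {x : EuclideanSpace ℝ (Fin 3) | |inner ℝ x e - (-inner ℝ c e)| ≤ d} := by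
    ext x
    simp only [mem_ofPred_eq, inner_add_left, sub_neg_eq_add]
  rw [h1]
  exact gm_slab hb e he _ hd

/-- `gm_slab` as a fraction of the total mass. -/
theorem gm_slab_frac {b : ℝ} (hb : 0 < b) (e : EuclideanSpace ℝ (Fin 3)) (he : ‖e‖ = 1)
    (c : EuclideanSpace ℝ (Fin 3)) {d : ℝ} (hd : 0 ≤ d) :
    gm b {x : EuclideanSpace ℝ (Fin 3) | |inner ℝ (x + c) e| ≤ d} ≤
      ENNReal.ofReal (2 * d * √b * gc b) := by
  refine (gm_slab_shift hb e he c hd).trans (ENNReal.ofReal_le_ofReal ?_)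
  have h0 : 0 < π / b := div_pos Real.pi_pos hb
  unfold gc
  have h1 : √b * √(π / b) = √π := by
    rw [← Real.sqrt_mul hb.le]
    congr 1
    field_simp
  have h2 : 1 ≤ √π := by
    rw [Real.one_le_sqrt]
    linarith [Real.pi_gt_three]
  have h3 : 2 * d * √b * (π / b * √(π / b)) = 2 * d * (π / b) * (√b * √(π / b)) := by ring
  rw [h3, h1]
  have h4 : 0 ≤ 2 * d * (π / b) := by positivity
  nlinarith

/-- Volume of a slab of a ball. -/
theorem volume_slab_ball (e : EuclideanSpace ℝ (Fin 3)) (he : ‖e‖ = 1) (h : ℝ)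
    (c : EuclideanSpace ℝ (Fin 3)) {d R : ℝ} (hd : 0 ≤ d) (hR : 0 ≤ R) :
    volume {x : EuclideanSpace ℝ (Fin 3) | ‖x - c‖ ≤ R ∧ |inner ℝ x e - h| ≤ d} ≤
      ENNReal.ofReal (8 * d * R ^ 2) := by
  obtain ⟨B, hB⟩ := exists_onb e he
  set I : Fin 3 → Set ℝ := ![Icc (h - d) (h + d), Icc (inner ℝ (B 1) c - R) (inner ℝ (B 1) c + R),
    Icc (inner ℝ (B 2) c - R) (inner ℝ (B 2) c + R)] with hI
  have h0 := (PiLp.volume_preserving_ofLp (Fin 3)).comp B.measurePreserving_repr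
  have hsub : {x : EuclideanSpace ℝ (Fin 3) | ‖x - c‖ ≤ R ∧ |inner ℝ x e - h| ≤ d} ⊆
      (WithLp.ofLp ∘ B.repr) ⁻¹' (Set.univ.pi I) := by
    rintro x ⟨hx1, hx2⟩
    rw [mem_preimage, Set.mem_univ_pi]
    intro i
    have hc : ∀ i, |inner ℝ (B i) (x - c)| ≤ R := by
      intro i
      refine (abs_real_inner_le_norm _ _).trans ?_
      rw [B.norm_eq_one i, one_mul]
      exact hx1
    simp only [Function.comp_apply, OrthonormalBasis.repr_apply_apply]
    fin_cases i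
    · change inner ℝ (B 0) x ∈ Icc (h - d) (h + d)
      rw [hB, real_inner_comm, mem_Icc]
      rw [abs_le] at hx2
      constructor <;> linarith [hx2.1, hx2.2]
    · change inner ℝ (B 1) x ∈ Icc (inner ℝ (B 1) c - R) (inner ℝ (B 1) c + R)
      have := hc 1
      rw [inner_sub_right, abs_le] at this
      constructor <;> linarith [this.1, this.2]
    · change inner ℝ (B 2) x ∈ Icc (inner ℝ (B 2) c - R) (inner ℝ (B 2) c + R)
      have := hc 2
      rw [inner_sub_right, abs_le] at this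
      constructor <;> linarith [this.1, this.2]
  refine (measure_mono hsub).trans ?_
  have hmI : MeasurableSet (Set.univ.pi I) := by
    refine MeasurableSet.univ_pi fun i => ?_
    fin_cases i <;> exact measurableSet_Icc
  rw [h0.measure_preimage hmI.nullMeasurableSet, volume_pi_pi, Fin.prod_univ_three]
  change volume (Icc (h - d) (h + d)) * volume (Icc (inner ℝ (B 1) c - R) (inner ℝ (B 1) c + R)) *
    volume (Icc (inner ℝ (B 2) c - R) (inner ℝ (B 2) c + R)) ≤ _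
  rw [Real.volume_Icc, Real.volume_Icc, Real.volume_Icc,
    ← ENNReal.ofReal_mul (by linarith), ← ENNReal.ofReal_mul (by nlinarith)]
  apply ENNReal.ofReal_le_ofReal
  apply le_of_eq
  ring

/-! ### The absolute bound for the mean of the Newton potential -/

theorem lintegral_width_abs {b A : ℝ} (hb : 0 < b) (hA : 0 ≤ A) :
    ∫⁻ s in Ioi (0:ℝ), ENNReal.ofReal (gc (b + s ^ 2) *
        Real.exp (-(b * s ^ 2 / (b + s ^ 2)) * A)) ≤
      ENNReal.ofReal (gc b * √b) := by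
  set w : ℝ → ℝ := fun s => √b * s / √(b + s ^ 2) with hw
  have hwd : ∀ s, HasDerivAt w (√b * (b / ((b + s ^ 2) * √(b + s ^ 2)))) s := by
    intro s
    have hpos : 0 < b + s ^ 2 := by positivity
    have hsq : √(b + s ^ 2) ≠ 0 := (Real.sqrt_pos.mpr hpos).ne'
    have h1 : HasDerivAt (fun s : ℝ => b + s ^ 2) (2 * s) s := by
      simpa using ((hasDerivAt_pow 2 s).const_add b)
    have h2 : HasDerivAt (fun s : ℝ => √(b + s ^ 2)) (2 * s / (2 * √(b + s ^ 2))) s :=
      h1.sqrt hpos.ne'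
    have h3 : HasDerivAt (fun s : ℝ => √b * s) (√b) s := by
      simpa using (hasDerivAt_id s).const_mul (√b)
    have h4 := h3.div h2 hsq
    refine h4.congr_deriv ?_
    have hss : √(b + s ^ 2) ^ 2 = b + s ^ 2 := Real.sq_sqrt hpos.le
    field_simp
    rw [hss]
    ring
  have hgd : ∀ s ∈ Ici (0:ℝ), HasDerivAt (fun s => gc b * w s) (gc (b + s ^ 2)) s := by
    intro s _
    have hpos : 0 < b + s ^ 2 := by positivity
    have h1 := (hwd s).const_mul (gc b)
    refine h1.congr_deriv ?_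
    unfold gc
    have hb' : √b ≠ 0 := (Real.sqrt_pos.mpr hb).ne'
    have hs' : √(b + s ^ 2) ≠ 0 := (Real.sqrt_pos.mpr hpos).ne'
    rw [Real.sqrt_div Real.pi_pos.le, Real.sqrt_div Real.pi_pos.le]
    field_simp
  have hnn : ∀ s ∈ Ioi (0:ℝ), 0 ≤ gc (b + s ^ 2) := by
    intro s _
    have hpos : 0 < b + s ^ 2 := by positivity
    exact (gc_pos hpos).le
  have hwlim : Tendsto w atTop (𝓝 (√b)) := by
    have h1 : ∀ᶠ s in atTop, w s = √b * (1 / √(b / s ^ 2 + 1)) := by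
      filter_upwards [eventually_gt_atTop (0:ℝ)] with s hs
      rw [hw]
      simp only
      have h2 : √(b + s ^ 2) = s * √(b / s ^ 2 + 1) := by
        have : b + s ^ 2 = s ^ 2 * (b / s ^ 2 + 1) := by field_simp
        rw [this, Real.sqrt_mul (by positivity), Real.sqrt_sq hs.le]
      rw [h2]
      have h3 : √(b / s ^ 2 + 1) ≠ 0 := (Real.sqrt_pos.mpr (by positivity)).ne'
      field_simp
    refine Tendsto.congr' (h1.mono fun s hs => hs.symm) ?_
    have h4 : Tendsto (fun s : ℝ => b / s ^ 2 + 1) atTop (𝓝 (0 + 1)) := by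
      refine Tendsto.add ?_ tendsto_const_nhds
      exact tendsto_const_nhds.div_atTop (tendsto_pow_atTop (by norm_num))
    have h5 : Tendsto (fun s : ℝ => 1 / √(b / s ^ 2 + 1)) atTop (𝓝 (1 / √(0 + 1))) := by
      refine Tendsto.div tendsto_const_nhds ((Real.continuous_sqrt.tendsto _).comp h4) ?_
      norm_num
    have h6 := h5.const_mul (√b)
    simpa using h6
  have hlim : Tendsto (fun s => gc b * w s) atTop (𝓝 (gc b * √b)) := hwlim.const_mul _
  have hint := integral_Ioi_of_hasDerivAt_of_nonneg' hgd hnn hlim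
  have hintb := integrableOn_Ioi_deriv_of_nonneg' hgd hnn hlim
  have hw0 : w 0 = 0 := by simp [hw]
  calc ∫⁻ s in Ioi (0:ℝ), ENNReal.ofReal (gc (b + s ^ 2) *
        Real.exp (-(b * s ^ 2 / (b + s ^ 2)) * A))
      ≤ ∫⁻ s in Ioi (0:ℝ), ENNReal.ofReal (gc (b + s ^ 2)) := by
        apply lintegral_mono
        intro s
        apply ENNReal.ofReal_le_ofReal
        have hpos : 0 < b + s ^ 2 := by positivity
        have h1 : Real.exp (-(b * s ^ 2 / (b + s ^ 2)) * A) ≤ 1 := by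
          rw [Real.exp_le_one_iff]
          have : 0 ≤ b * s ^ 2 / (b + s ^ 2) := by positivity
          nlinarith
        have := gc_pos hpos
        nlinarith
    _ = ENNReal.ofReal (gc b * √b) := by
        rw [← ofReal_integral_eq_lintegral_ofReal hintb
          ((ae_restrict_iff' measurableSet_Ioi).mpr (ae_of_all _ hnn)), hint]
        rw [hw0, mul_zero, sub_zero]

/-- **Gaussian mean of the Newton potential, absolute bound**: no condition on the centre. -/
theorem gauss_mean_abs {b : ℝ} (hb : 0 < b) (a : EuclideanSpace ℝ (Fin 3)) :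
    ∫⁻ x : EuclideanSpace ℝ (Fin 3),
        ENNReal.ofReal (Real.exp (-b * ‖x‖ ^ 2) * (1 / ‖x - a‖)) ≤
      ENNReal.ofReal (gc b * (2 * √(b / π))) := by
  have hpi : 0 < √π / 2 := by
    have := Real.sqrt_pos.mpr Real.pi_pos
    positivity
  have h1 : ∀ x : EuclideanSpace ℝ (Fin 3),
      ENNReal.ofReal (√π / 2) * ENNReal.ofReal (Real.exp (-b * ‖x‖ ^ 2) * (1 / ‖x - a‖)) ≤
        ∫⁻ s in Ioi (0:ℝ),
          ENNReal.ofReal (Real.exp (-b * ‖x‖ ^ 2) * Real.exp (-s ^ 2 * ‖x - a‖ ^ 2)) := by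
    intro x
    rcases eq_or_ne x a with rfl | hxa
    · simp
    · have hr : 0 < ‖x - a‖ := norm_pos_iff.mpr (sub_ne_zero.mpr hxa)
      have h2 : ∀ s : ℝ, ENNReal.ofReal (Real.exp (-b * ‖x‖ ^ 2) *
          Real.exp (-s ^ 2 * ‖x - a‖ ^ 2)) = ENNReal.ofReal (Real.exp (-b * ‖x‖ ^ 2)) *
          ENNReal.ofReal (Real.exp (-s ^ 2 * ‖x - a‖ ^ 2)) :=
        fun s => ENNReal.ofReal_mul (Real.exp_pos _).le
      simp_rw [h2]
      rw [lintegral_const_mul _ (by fun_prop), lintegral_gauss_half hr,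
        ← ENNReal.ofReal_mul hpi.le, ← ENNReal.ofReal_mul (Real.exp_pos _).le]
      apply ENNReal.ofReal_le_ofReal
      apply le_of_eq
      ring
  have hmeas : Measurable (Function.uncurry fun (x : EuclideanSpace ℝ (Fin 3)) (s : ℝ) =>
      ENNReal.ofReal (Real.exp (-b * ‖x‖ ^ 2) * Real.exp (-s ^ 2 * ‖x - a‖ ^ 2))) := by
    unfold Function.uncurry
    fun_prop
  have h3 : ENNReal.ofReal (√π / 2) * ∫⁻ x : EuclideanSpace ℝ (Fin 3),
      ENNReal.ofReal (Real.exp (-b * ‖x‖ ^ 2) * (1 / ‖x - a‖)) ≤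
      ENNReal.ofReal (√π / 2) * ENNReal.ofReal (gc b * (2 * √(b / π))) := by
    rw [← lintegral_const_mul _ (by fun_prop)]
    refine (lintegral_mono h1).trans ?_
    rw [lintegral_lintegral_swap hmeas.aemeasurable]
    have h4 : ∀ s : ℝ, ∫⁻ x : EuclideanSpace ℝ (Fin 3),
        ENNReal.ofReal (Real.exp (-b * ‖x‖ ^ 2) * Real.exp (-s ^ 2 * ‖x - a‖ ^ 2)) =
        ENNReal.ofReal (gc (b + s ^ 2) *
          Real.exp (-(b * s ^ 2 / (b + s ^ 2)) * ‖a‖ ^ 2)) :=
      fun s => lintegral_gauss_shift hb a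
    simp_rw [h4]
    refine (lintegral_width_abs hb (sq_nonneg ‖a‖)).trans ?_
    rw [← ENNReal.ofReal_mul hpi.le]
    apply ENNReal.ofReal_le_ofReal
    apply le_of_eq
    rw [Real.sqrt_div hb.le]
    have h5 : √π ≠ 0 := (Real.sqrt_pos.mpr Real.pi_pos).ne'
    field_simp
  have h5 : ENNReal.ofReal (√π / 2) ≠ 0 := by
    rw [Ne, ENNReal.ofReal_eq_zero, not_le]
    exact hpi
  exact (ENNReal.mul_le_mul_iff_right h5 ENNReal.ofReal_ne_top).mp h3

theorem gauss_mean_abs' {b : ℝ} (hb : 0 < b) (a : EuclideanSpace ℝ (Fin 3)) :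
    ∫⁻ x : EuclideanSpace ℝ (Fin 3),
        ENNReal.ofReal (Real.exp (-b * ‖x‖ ^ 2) * (1 / ‖x - a‖)) ≤
      ENNReal.ofReal (gc b * (6 / 5 * √b)) := by
  refine (gauss_mean_abs hb a).trans (ENNReal.ofReal_le_ofReal ?_)
  apply mul_le_mul_of_nonneg_left _ (gc_pos hb).le
  rw [Real.sqrt_div hb.le]
  have h5 : 5 / 3 ≤ √π := by
    rw [Real.le_sqrt (by norm_num) Real.pi_pos.le]
    linarith [Real.pi_gt_three]
  have h6 : 0 < √π := by linarith
  have h7 : 0 ≤ √b := Real.sqrt_nonneg b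
  have h8 : √b / √π ≤ √b * (3 / 5) := by
    rw [div_le_iff₀ h6]
    nlinarith
  linarith

/-- One displacement with the absolute bound: outside of the bad set, the weighted Newton
potential of finitely many centres (anywhere, also at the starting point) is at most
`(1 - ε)⁻¹ · 2 √(b/π) ·` total weight. -/
theorem exists_move_abs {b : ℝ} (hb : 0 < b) {ε : ℝ} (hε : 0 ≤ ε) (hε1 : ε < 1)
    {ι : Type*} (s : Finset ι) (w : ι → ℝ) (hw : ∀ i ∈ s, 0 ≤ w i)
    (a : ι → EuclideanSpace ℝ (Fin 3)) (q : EuclideanSpace ℝ (Fin 3))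
    (B : Set (EuclideanSpace ℝ (Fin 3))) (hB : MeasurableSet B)
    (hBm : gm b {x | q + x ∈ B} ≤ ENNReal.ofReal (ε * gc b)) :
    ∃ z ∉ B, ∑ i ∈ s, w i / ‖z - a i‖ ≤ (1 - ε)⁻¹ * (2 * √(b / π) * ∑ i ∈ s, w i) := by
  have hg := gc_pos hb
  have hk : 0 ≤ 2 * √(b / π) := by positivity
  have hmeas : Measurable fun x : EuclideanSpace ℝ (Fin 3) =>
      ∑ i ∈ s, w i / ‖q + x - a i‖ := by
    fun_prop
  have hc : 0 ≤ 2 * √(b / π) * ∑ i ∈ s, w i := mul_nonneg hk (Finset.sum_nonneg hw)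
  have hfi : ∫⁻ x, ENNReal.ofReal (∑ i ∈ s, w i / ‖q + x - a i‖) ∂(gm b) ≤
      ENNReal.ofReal (gc b * (2 * √(b / π) * ∑ i ∈ s, w i)) := by
    rw [gm, lintegral_withDensity_eq_lintegral_mul _ (by fun_prop) (by fun_prop)]
    have h1 : ∀ x : EuclideanSpace ℝ (Fin 3),
        ENNReal.ofReal (Real.exp (-b * ‖x‖ ^ 2)) *
          ENNReal.ofReal (∑ i ∈ s, w i / ‖q + x - a i‖) =
        ∑ i ∈ s, ENNReal.ofReal (w i) *
          ENNReal.ofReal (Real.exp (-b * ‖x‖ ^ 2) * (1 / ‖x - (a i - q)‖)) := by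
      intro x
      rw [ENNReal.ofReal_sum_of_nonneg
        (fun i hi => div_nonneg (hw i hi) (norm_nonneg _)), Finset.mul_sum]
      refine Finset.sum_congr rfl fun i hi => ?_
      rw [← ENNReal.ofReal_mul (Real.exp_pos _).le, ← ENNReal.ofReal_mul (hw i hi)]
      congr 1
      have : q + x - a i = x - (a i - q) := by abel
      rw [this]
      ring
    simp only [Pi.mul_apply]
    simp_rw [h1]
    rw [lintegral_finset_sum _ (fun i _ => by fun_prop)]
    have h2 : ∀ i ∈ s, ∫⁻ x : EuclideanSpace ℝ (Fin 3), ENNReal.ofReal (w i) *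
          ENNReal.ofReal (Real.exp (-b * ‖x‖ ^ 2) * (1 / ‖x - (a i - q)‖)) ≤
        ENNReal.ofReal (gc b * (2 * √(b / π) * w i)) := by
      intro i hi
      rw [lintegral_const_mul _ (by fun_prop)]
      have h3 := gauss_mean_abs hb (a i - q)
      refine (mul_le_mul_right h3 _).trans ?_
      rw [← ENNReal.ofReal_mul (hw i hi)]
      apply ENNReal.ofReal_le_ofReal
      apply le_of_eq
      ring
    refine (Finset.sum_le_sum h2).trans ?_
    rw [← ENNReal.ofReal_sum_of_nonneg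
      (fun i hi => mul_nonneg hg.le (mul_nonneg hk (hw i hi)))]
    apply ENNReal.ofReal_le_ofReal
    rw [← Finset.mul_sum, ← Finset.mul_sum]
  have hB' : MeasurableSet {x : EuclideanSpace ℝ (Fin 3) | q + x ∈ B} :=
    measurable_const_add q hB
  obtain ⟨x, hx, hfx⟩ := exists_good hb hε hε1 hc _ hmeas hfi _ hB' hBm
  exact ⟨q + x, hx, hfx⟩

end Pool.Agent.NBody
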