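import Mathlib
import Pool.Agent.NBody.ThDefsM
import Pool.Agent.NBody.ThMeas3

/-!
Spreading of points one after the other in a given order, with forbidden sets for the differences
of a point and the points placed before.
-/

set_option autoImplicit false
open scoped RealInnerProductSpace ENNReal
open Set Finset Filter Topology Real MeasureTheory

namespace Pool.Agent.NBody

theorem gm_finite {b : ℝ} (hb : 0 < b) {s : Set V3} (hs : s.Finite) : gm b s = 0 := by
  have h1 := gm_le_volume hb s
  have h2 : (volume : Measure V3) s = 0 := hs.measure_zero _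
  rw [h2] at h1
  exact le_antisymm h1 bot_le

/-- Placing in the order of decreasing `w`: the forbidden sets for the differences `p i - p j` are
counted only over the `j` with `w i ≤ w j`. -/
theorem place_order {n : ℕ} (m w : Fin n → ℝ) (hm : ∀ i, 0 ≤ m i) {b ε ε₁ ε₂ d : ℝ} (hb : 0 < b)
    (hd : 0 ≤ d) (hε1 : ε < 1) (hε₁ : 0 ≤ ε₁) (hε₂ : 0 ≤ ε₂)
    (q : Fin n → V3) (hq : ∀ i j, i ≠ j → q i ≠ q j)
    (F : Fin n → Set V3) (hF : ∀ i, MeasurableSet (F i))
    (hFm : ∀ i, gm b {x | q i + x ∈ F i} ≤ ENNReal.ofReal (ε₁ * gc b))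
    (T : Fin n → Fin n → Set V3) (hT : ∀ i j, MeasurableSet (T i j))
    (hTs : ∀ i j x, x ∈ T i j → -x ∈ T j i)
    (hTm : ∀ i, ∀ p : Fin n → V3, gm b (⋃ j ∈ Finset.univ.filter fun j => j ≠ i ∧ w i ≤ w j,
      {x | q i + x - p j ∈ T i j}) ≤ ENNReal.ofReal (ε₂ * gc b))
    (hε : 3 * Real.exp (-b * d ^ 2 / 2) + ε₂ + ε₁ ≤ ε) :
    ∃ p : Fin n → V3, (∀ i, ‖p i - q i‖ ≤ d) ∧ (∀ i j, i ≠ j → p i ≠ p j) ∧
      (∀ i j, i ≠ j → p i - p j ∉ T i j) ∧ (∀ i, p i ∉ F i) ∧
      ∑ i, ∑ j, m i * m j / ‖p i - p j‖ ≤
        ((1 - ε)⁻¹) ^ 2 * ∑ i, ∑ j, m i * m j / ‖q i - q j‖ := by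
  classical
  have hg := gc_pos hb
  have hε0 : 0 ≤ ε := by
    have h1 := Real.exp_pos (-b * d ^ 2 / 2)
    linarith
  have h1ε : 0 < 1 - ε := by linarith
  obtain ⟨κ, hκ⟩ : ∃ κ : ℝ, κ = (1 - ε)⁻¹ := ⟨_, rfl⟩
  have hκ0 : 0 < κ := by rw [hκ]; positivity
  rw [← hκ]
  have key : ∀ k : ℕ, k ≤ n → ∃ (S : Finset (Fin n)) (p : Fin n → V3), S.card = k ∧
      (∀ i ∈ S, ∀ j ∉ S, w j ≤ w i) ∧
      (∀ i ∉ S, p i = q i) ∧ (∀ i, ‖p i - q i‖ ≤ d) ∧ (∀ i j, i ≠ j → p i ≠ p j) ∧
      (∀ i ∈ S, ∀ j ∈ S, i ≠ j → p i - p j ∉ T i j) ∧ (∀ i ∈ S, p i ∉ F i) ∧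
      wpot m (fun i => if i ∈ S then 1 else κ) p ≤ wpot m (fun _ => κ) q := by
    intro k
    induction k with
    | zero =>
      intro _
      exact ⟨∅, q, rfl, by simp, fun i _ => rfl, fun i => by simpa using hd, hq, by simp, by simp,
        by simp⟩
    | succ k ih =>
      intro hkn
      obtain ⟨S, p, hS, hSw, hp1, hp2, hp3, hp4, hp5, hp6⟩ := ih (Nat.le_of_succ_le hkn)
      have hne : (Finset.univ \ S).Nonempty := by
        rw [← Finset.card_pos, Finset.card_sdiff_of_subset (Finset.subset_univ S),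
          Finset.card_univ, Fintype.card_fin]
        omega
      obtain ⟨i, hi, himax⟩ := Finset.exists_max_image (Finset.univ \ S) w hne
      have hiS : i ∉ S := (Finset.mem_sdiff.mp hi).2
      have hpi : p i = q i := hp1 i hiS
      obtain ⟨U, hU⟩ : ∃ U : Set V3, U = ⋃ j ∈ Finset.univ.filter (fun j => j ≠ i ∧ w i ≤ w j),
        {z | z - p j ∈ T i j} := ⟨_, rfl⟩
      obtain ⟨Z, hZ⟩ : ∃ Z : Set V3, Z = Set.range p := ⟨_, rfl⟩
      have hZfin : Z.Finite := by
        rw [hZ]
        exact Set.finite_range p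
      obtain ⟨B, hB⟩ : ∃ B : Set V3, B = (({z | d < ‖z - q i‖} ∪ U) ∪ F i) ∪ Z := ⟨_, rfl⟩
      have hUmeas : MeasurableSet U := by
        rw [hU]
        exact Finset.measurableSet_biUnion _ fun j _ => measurable_sub_const (p j) (hT i j)
      have hBmeas : MeasurableSet B := by
        rw [hB]
        refine MeasurableSet.union (MeasurableSet.union (MeasurableSet.union ?_ hUmeas) (hF i))
          hZfin.measurableSet
        exact measurableSet_lt measurable_const (by fun_prop)
      have hBm : gm b {x | p i + x ∈ B} ≤ ENNReal.ofReal (ε * gc b) := by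
        rw [hpi]
        have hsub : {x | q i + x ∈ B} ⊆ (({x | d < ‖x‖} ∪
            ⋃ j ∈ Finset.univ.filter (fun j => j ≠ i ∧ w i ≤ w j), {x | q i + x - p j ∈ T i j}) ∪
            {x | q i + x ∈ F i}) ∪ {x | q i + x ∈ Z} := by
          intro x hx
          have hx' : q i + x ∈ B := hx
          rw [hB] at hx'
          rcases hx' with ((hx' | hx') | hx') | hx'
          · left; left; left
            have : d < ‖q i + x - q i‖ := hx'
            rwa [add_sub_cancel_left] at this
          · left; left; right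
            rw [hU] at hx'
            simp only [mem_iUnion] at hx' ⊢
            exact hx'
          · left; right; exact hx'
          · right; exact hx'
        have hZ0 : gm b {x | q i + x ∈ Z} = 0 := by
          apply gm_finite hb
          exact hZfin.preimage (fun x _ y _ h => add_left_cancel h)
        refine (measure_mono hsub).trans ?_
        refine (measure_union_le _ _).trans ?_
        rw [hZ0, add_zero]
        refine (measure_union_le _ _).trans ?_
        refine (add_le_add (measure_union_le _ _) le_rfl).trans ?_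
        refine (add_le_add (add_le_add (gm_far hb d hd) (hTm i p)) (hFm i)).trans ?_
        rw [← ENNReal.ofReal_add (by positivity) (by positivity),
          ← ENNReal.ofReal_add (by positivity) (by positivity)]
        apply ENNReal.ofReal_le_ofReal
        have h6 := mul_le_mul_of_nonneg_right hε hg.le
        linarith
      obtain ⟨u, hu⟩ : ∃ u : Fin n → ℝ, u = fun j => if j ∈ S then 1 else κ := ⟨_, rfl⟩
      have hu0 : ∀ j, 0 ≤ u j := by
        intro j; rw [hu]; simp only; split_ifs
        · exact zero_le_one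
        · exact hκ0.le
      obtain ⟨z, hzB, hz⟩ := exists_move hb hε0 hε1 (Finset.univ.erase i)
        (fun j => m i * (m j * u j)) (fun j _ => mul_nonneg (hm i) (mul_nonneg (hm j) (hu0 j)))
        p (p i) (fun j hj => hp3 j i (Finset.ne_of_mem_erase hj)) B hBmeas hBm
      rw [hB] at hzB
      have hz1 : ‖z - q i‖ ≤ d := by
        by_contra h
        push Not at h
        exact hzB (Or.inl (Or.inl (Or.inl h)))
      have hz2 : ∀ j ∈ S, z - p j ∉ T i j := by
        intro j hj h
        apply hzB
        left; left; right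
        rw [hU]
        simp only [mem_iUnion]
        refine ⟨j, Finset.mem_filter.mpr ⟨Finset.mem_univ _, ?_, hSw j hj i hiS⟩, h⟩
        rintro rfl
        exact hiS hj
      have hz3 : z ∉ F i := fun h => hzB (Or.inl (Or.inr h))
      have hz4 : ∀ j, z ≠ p j := by
        intro j h
        apply hzB
        right
        rw [hZ, h]
        exact Set.mem_range_self j
      have hz5 : ∀ j ∈ S, p j - z ∉ T j i := by
        intro j hj h
        apply hz2 j hj
        have := hTs _ _ _ h
        rwa [neg_sub] at this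
      have hpu : ∀ j, j ≠ i → Function.update p i z j = p j := fun j hj =>
        Function.update_of_ne hj z p
      have hpi' : Function.update p i z i = z := Function.update_self i z p
      refine ⟨insert i S, Function.update p i z, ?_, ?_, ?_, ?_, ?_, ?_, ?_, ?_⟩
      · rw [Finset.card_insert_of_notMem hiS, hS]
      · intro a ha c hc
        rw [Finset.mem_insert, not_or] at hc
        rcases Finset.mem_insert.mp ha with rfl | ha
        · exact himax c (Finset.mem_sdiff.mpr ⟨Finset.mem_univ _, hc.2⟩)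
        · exact hSw a ha c hc.2
      · intro j hj
        rw [Finset.mem_insert, not_or] at hj
        rw [hpu j hj.1]
        exact hp1 j hj.2
      · intro j
        rcases eq_or_ne j i with rfl | hji
        · rw [hpi']; exact hz1
        · rw [hpu j hji]; exact hp2 j
      · intro a c hac
        rcases eq_or_ne a i with rfl | hai
        · rw [hpi', hpu c hac.symm]
          exact hz4 c
        · rcases eq_or_ne c i with rfl | hci
          · rw [hpi', hpu a hai]
            exact (hz4 a).symm
          · rw [hpu a hai, hpu c hci]; exact hp3 a c hac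
      · intro a ha c hc hac
        rcases eq_or_ne a i with rfl | hai
        · rw [hpi', hpu c hac.symm]
          exact hz2 c ((Finset.mem_insert.mp hc).resolve_left hac.symm)
        · rcases eq_or_ne c i with rfl | hci
          · rw [hpi', hpu a hai]
            exact hz5 a ((Finset.mem_insert.mp ha).resolve_left hai)
          · rw [hpu a hai, hpu c hci]
            exact hp4 a ((Finset.mem_insert.mp ha).resolve_left hai) c
              ((Finset.mem_insert.mp hc).resolve_left hci) hac
      · intro a ha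
        rcases eq_or_ne a i with rfl | hai
        · rw [hpi']; exact hz3
        · rw [hpu a hai]
          exact hp5 a ((Finset.mem_insert.mp ha).resolve_left hai)
      · refine le_trans ?_ hp6
        rw [← hu, wpot_split m _ (Function.update p i z) i, wpot_split m u p i]
        have hrest : ∑ a ∈ Finset.univ.erase i, ∑ c ∈ Finset.univ.erase i,
            m a * (if a ∈ insert i S then (1:ℝ) else κ) *
              (m c * (if c ∈ insert i S then (1:ℝ) else κ)) /
              ‖Function.update p i z a - Function.update p i z c‖ =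
            ∑ a ∈ Finset.univ.erase i, ∑ c ∈ Finset.univ.erase i,
              m a * u a * (m c * u c) / ‖p a - p c‖ := by
          refine Finset.sum_congr rfl fun a ha => Finset.sum_congr rfl fun c hc => ?_
          have hai := Finset.ne_of_mem_erase ha
          have hci := Finset.ne_of_mem_erase hc
          rw [hpu a hai, hpu c hci]
          have h1 : (if a ∈ insert i S then (1:ℝ) else κ) = u a := by
            rw [hu]; simp only [Finset.mem_insert, hai, false_or]
          have h2 : (if c ∈ insert i S then (1:ℝ) else κ) = u c := by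
            rw [hu]; simp only [Finset.mem_insert, hci, false_or]
          rw [h1, h2]
        have hrow : ∑ j ∈ Finset.univ.erase i,
            m i * (if i ∈ insert i S then (1:ℝ) else κ) *
              (m j * (if j ∈ insert i S then (1:ℝ) else κ)) /
              ‖Function.update p i z i - Function.update p i z j‖ ≤
            ∑ j ∈ Finset.univ.erase i, m i * u i * (m j * u j) / ‖p i - p j‖ := by
          have h1 : ∑ j ∈ Finset.univ.erase i,
              m i * (if i ∈ insert i S then (1:ℝ) else κ) *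
                (m j * (if j ∈ insert i S then (1:ℝ) else κ)) /
                ‖Function.update p i z i - Function.update p i z j‖ =
              ∑ j ∈ Finset.univ.erase i, m i * (m j * u j) / ‖z - p j‖ := by
            refine Finset.sum_congr rfl fun j hj => ?_
            have hji := Finset.ne_of_mem_erase hj
            rw [hpi', hpu j hji]
            have h2 : (if j ∈ insert i S then (1:ℝ) else κ) = u j := by
              rw [hu]; simp only [Finset.mem_insert, hji, false_or]
            rw [h2, if_pos (Finset.mem_insert_self i S), mul_one]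
          have h3 : ∑ j ∈ Finset.univ.erase i, m i * u i * (m j * u j) / ‖p i - p j‖ =
              κ * ∑ j ∈ Finset.univ.erase i, m i * (m j * u j) / ‖p i - p j‖ := by
            rw [Finset.mul_sum]
            refine Finset.sum_congr rfl fun j _ => ?_
            have h4 : u i = κ := by rw [hu]; simp only [hiS, if_false]
            rw [h4]
            ring
          rw [h1, h3, hκ]
          exact hz
        linarith
  obtain ⟨S, p, hS, -, -, hp2, hp3, hp4, hp5, hp6⟩ := key n le_rfl
  have hSu : S = Finset.univ := by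
    apply Finset.eq_univ_of_card
    rw [hS, Fintype.card_fin]
  subst hSu
  refine ⟨p, hp2, hp3, fun i j hij => hp4 i (Finset.mem_univ _) j (Finset.mem_univ _) hij,
    fun i => hp5 i (Finset.mem_univ _), ?_⟩
  have e1 : wpot m (fun i => if i ∈ (Finset.univ : Finset (Fin n)) then (1:ℝ) else κ) p =
      ∑ i, ∑ j, m i * m j / ‖p i - p j‖ := by
    unfold wpot
    simp
  have e2 : wpot m (fun _ => κ) q = κ ^ 2 * ∑ i, ∑ j, m i * m j / ‖q i - q j‖ := by
    unfold wpot
    rw [Finset.mul_sum]
    refine Finset.sum_congr rfl fun i _ => ?_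
    rw [Finset.mul_sum]
    refine Finset.sum_congr rfl fun j _ => ?_
    ring
  rw [e1, e2] at hp6
  exact hp6

/-- numbers for the spreading -/
theorem spread_num {η ε : ℝ} (hη : 0 < η) (hε : 0 < ε) (hε1 : ε ≤ 1) :
    3 * Real.exp (-(18 / (ε * η ^ 2)) * η ^ 2 / 2) ≤ ε / 3 ∧
      3 / 50 * (ε ^ 2 * η ^ 3) ≤ gc (18 / (ε * η ^ 2)) := by
  constructor
  · have h1 : -(18 / (ε * η ^ 2)) * η ^ 2 / 2 = -(9 / ε) := by
      field_simp
      ring
    rw [h1, Real.exp_neg]
    have h2 : 9 / ε ≤ Real.exp (9 / ε) := by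
      have := Real.add_one_le_exp (9 / ε)
      linarith
    have h3 : (Real.exp (9 / ε))⁻¹ ≤ (9 / ε)⁻¹ := inv_anti₀ (by positivity) h2
    rw [inv_div] at h3
    linarith
  · unfold gc
    have h1 : π / (18 / (ε * η ^ 2)) = π * ε * η ^ 2 / 18 := by
      field_simp
    rw [h1]
    have hp := Real.pi_gt_d2
    have h2 : 17 / 100 * (ε * η ^ 2) ≤ π * ε * η ^ 2 / 18 := by
      have h3 : 0 < ε * η ^ 2 := by positivity
      nlinarith
    have h4 : 2 / 5 * (ε * η) ≤ √(π * ε * η ^ 2 / 18) := by
      apply Real.le_sqrt_of_sq_le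
      refine le_trans ?_ h2
      have h5 : (2 / 5 * (ε * η)) ^ 2 = 4 / 25 * (ε * (ε * η ^ 2)) := by ring
      rw [h5]
      have h6 : 0 < ε * η ^ 2 := by positivity
      nlinarith
    calc 3 / 50 * (ε ^ 2 * η ^ 3) ≤ (17 / 100 * (ε * η ^ 2)) * (2 / 5 * (ε * η)) := by
          have h7 : 0 < ε ^ 2 * η ^ 3 := by positivity
          nlinarith
      _ ≤ _ := mul_le_mul h2 h4 (by positivity) (by positivity)

/-- **Spreading in the order of decreasing `w`, along straight lines**: the lines
`p i + t • v i`, `0 ≤ t ≤ τ`, keep the distances `σ i j`; the volumes of the forbidden tubes are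
counted for every `i` only over the `j` with `w i ≤ w j`. -/
theorem spread_order {n : ℕ} (m w : Fin n → ℝ) (hm : ∀ i, 0 ≤ m i) (q v : Fin n → V3)
    (hq : ∀ i j, i ≠ j → q i ≠ q j) {η ε τ : ℝ} (hη : 0 < η) (hε : 0 < ε) (hε1 : ε ≤ 1 / 2)
    (hτ : 0 ≤ τ) (σ : Fin n → Fin n → ℝ) (hσ : ∀ i j, 0 < σ i j) (hσs : ∀ i j, σ i j = σ j i)
    (hvol : ∀ i, ∑ j ∈ Finset.univ.filter (fun j => j ≠ i ∧ w i ≤ w j),
      (‖v i - v j‖ * τ * σ i j ^ 2 + σ i j ^ 3) ≤ ε ^ 3 * η ^ 3 / 2000)
    (F : Fin n → Set V3) (hF : ∀ i, MeasurableSet (F i))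
    (hFv : ∀ i, volume (F i) ≤ ENNReal.ofReal (ε ^ 3 * η ^ 3 / 100)) :
    ∃ p : Fin n → V3, (∀ i, ‖p i - q i‖ ≤ η) ∧ (∀ i j, i ≠ j → p i ≠ p j) ∧
      (∀ i j, i ≠ j → ∀ t ∈ Icc (0:ℝ) τ, σ i j < ‖(p i + t • v i) - (p j + t • v j)‖) ∧
      (∀ i, p i ∉ F i) ∧
      ∑ i, ∑ j, m i * m j / ‖p i - p j‖ ≤
        ((1 - ε)⁻¹) ^ 2 * ∑ i, ∑ j, m i * m j / ‖q i - q j‖ := by
  obtain ⟨b, hb⟩ : ∃ b : ℝ, b = 18 / (ε * η ^ 2) := ⟨_, rfl⟩
  have hb0 : 0 < b := by rw [hb]; positivity
  obtain ⟨h1, h2⟩ := spread_num hη hε (by linarith)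
  rw [← hb] at h1 h2
  have he3 : 0 < ε ^ 3 * η ^ 3 := by positivity
  have hmul : ε / 3 * (3 / 50 * (ε ^ 2 * η ^ 3)) ≤ ε / 3 * gc b :=
    mul_le_mul_of_nonneg_left h2 (by positivity)
  have hmul' : ε / 3 * (3 / 50 * (ε ^ 2 * η ^ 3)) = ε ^ 3 * η ^ 3 / 50 := by ring
  rw [hmul'] at hmul
  obtain ⟨p, hp1, hp2, hp3, hp4, hp5⟩ := place_order m w hm (ε := ε) (ε₁ := ε / 3) (ε₂ := ε / 3)
    hb0 hη.le (by linarith) (by positivity) (by positivity) q hq F hF
    (by
      intro i
      refine (gm_le_volume hb0 _).trans ?_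
      have h3 : {x | q i + x ∈ F i} = (fun x => q i + x) ⁻¹' F i := rfl
      rw [h3, measure_preimage_add]
      refine (hFv i).trans (ENNReal.ofReal_le_ofReal ?_)
      linarith)
    (fun i j => tube3 (v i - v j) τ (σ i j)) (fun i j => measurableSet_tube3 _ _ _)
    (by
      rintro i j x ⟨t, ht, hx⟩
      refine ⟨t, ht, ?_⟩
      have h3 : -x + t • (v j - v i) = -(x + t • (v i - v j)) := by module
      rw [h3, norm_neg, ← hσs i j]
      exact hx)
    (by
      intro i p
      refine (measure_biUnion_finset_le _ _).trans ?_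
      have h3 : ∀ j ∈ Finset.univ.filter (fun j => j ≠ i ∧ w i ≤ w j),
          gm b {x | q i + x - p j ∈ tube3 (v i - v j) τ (σ i j)} ≤
            ENNReal.ofReal (34 * (σ i j ^ 2 * (‖v i - v j‖ * τ) + σ i j ^ 3)) := by
        intro j _
        have h4 := gm_tube3 hb0 (q i - p j) (v i - v j) hτ (hσ i j)
        have h5 : {x | q i + x - p j ∈ tube3 (v i - v j) τ (σ i j)} =
            {x : V3 | ∃ t ∈ Icc (0:ℝ) τ, ‖x + (q i - p j) + t • (v i - v j)‖ ≤ σ i j} := by
          ext x
          have h6 : q i + x - p j = x + (q i - p j) := by abel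
          simp only [tube3, mem_ofPred_eq, h6]
        rw [h5]
        exact h4
      refine (Finset.sum_le_sum h3).trans ?_
      rw [← ENNReal.ofReal_sum_of_nonneg (fun j _ => by have := hσ i j; positivity)]
      apply ENNReal.ofReal_le_ofReal
      rw [← Finset.mul_sum]
      have h6 : ∑ j ∈ Finset.univ.filter (fun j => j ≠ i ∧ w i ≤ w j),
          (σ i j ^ 2 * (‖v i - v j‖ * τ) + σ i j ^ 3) =
          ∑ j ∈ Finset.univ.filter (fun j => j ≠ i ∧ w i ≤ w j),
          (‖v i - v j‖ * τ * σ i j ^ 2 + σ i j ^ 3) :=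
        Finset.sum_congr rfl fun j _ => by ring
      rw [h6]
      have h7 := hvol i
      linarith)
    (by linarith)
  refine ⟨p, hp1, hp2, fun i j hij t ht => ?_, hp4, hp5⟩
  by_contra hcon
  push Not at hcon
  apply hp3 i j hij
  refine ⟨t, ht, ?_⟩
  have h8 : p i - p j + t • (v i - v j) = (p i + t • v i) - (p j + t • v j) := by module
  rw [h8]
  exact hcon

end Pool.Agent.NBody
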