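import Mathlib
import Pool.Agent.NBody.Th4Defs
import Pool.Agent.NBody.ThPrepM
import Pool.Agent.NBody.ThOrder4

/-!
The volume condition of the spreading for the separations `sep4`, and the spreading in the form
used by the prepared states (V4).
-/

set_option autoImplicit false
open scoped RealInnerProductSpace ENNReal
open Set Finset Filter Topology Real MeasureTheory

namespace Pool.Agent.NBody

/-- The sum of the volumes of the tubes around the lines of the heavier bodies. -/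
theorem vol4 {N : ℕ} {m : Fin N → ℝ} (hm : ∀ i, 0 ≤ m i) (hm1 : ∑ i, m i ≤ 1) {κ V τ : ℝ}
    (hκ : 0 < κ) (hκ1 : κ ≤ 1) (hτ : 0 ≤ τ) (v : Fin N → V3) (hV : ∀ i, ‖v i‖ ≤ V)
    (F : Finset (Fin N)) (hF : ∀ i, i ∉ F → ‖v i‖ * τ ≤ (κ / N) ^ (1 / 3 : ℝ) / 8)
    (i : Fin N) :
    ∑ j ∈ Finset.univ.filter (fun j => j ≠ i ∧ m i ≤ m j),
      (‖v i - v j‖ * τ * sep4 κ m F i j ^ 2 + sep4 κ m F i j ^ 3) ≤ 2 * κ * (2 * V * τ + 2) := by
  have hN : 0 < N := Fin.pos i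
  have hN' : (0 : ℝ) < N := by exact_mod_cast hN
  have hN1 : (1 : ℝ) ≤ N := by exact_mod_cast hN
  have hmle : ∀ j, m j ≤ 1 := fun j =>
    (Finset.single_le_sum (fun i _ => hm i) (Finset.mem_univ j)).trans hm1
  have hV0 : 0 ≤ V := (norm_nonneg _).trans (hV i)
  have hVτ : 0 ≤ V * τ := mul_nonneg hV0 hτ
  have hterm : ∀ j ∈ Finset.univ.filter (fun j => j ≠ i ∧ m i ≤ m j),
      (‖v i - v j‖ * τ * sep4 κ m F i j ^ 2 + sep4 κ m F i j ^ 3) ≤
        κ * (2 * V * τ + 2) * (1 / N + m j) := by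
    intro j hj
    have hij : m i ≤ m j := (Finset.mem_filter.mp hj).2.2
    have hmax : max (m i) (m j) = m j := max_eq_right hij
    obtain ⟨μ, hμ⟩ : ∃ μ : ℝ, μ = max (1 / (N : ℝ)) (m j) := ⟨_, rfl⟩
    have hμ0 : 0 < μ := by rw [hμ]; exact lt_of_lt_of_le (by positivity) (le_max_left _ _)
    have hμ1 : μ ≤ 1 := by
      rw [hμ]
      exact max_le ((div_le_one hN').mpr hN1) (hmle j)
    have hμN : 1 / (N : ℝ) ≤ μ := by rw [hμ]; exact le_max_left _ _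
    have hμle : μ ≤ 1 / N + m j := by
      rw [hμ]
      apply max_le
      · have := hm j
        linarith
      · have : 0 ≤ 1 / (N : ℝ) := by positivity
        linarith
    have hσ0 := sep4_pos hκ m F i j
    have hκμ : 0 < κ * μ := mul_pos hκ hμ0
    have hdiff : ‖v i - v j‖ * τ ≤ 2 * V * τ := by
      have h1 := norm_sub_le (v i) (v j)
      have h2 := hV i
      have h3 := hV j
      exact mul_le_mul_of_nonneg_right (by linarith) hτ
    have hmain : ‖v i - v j‖ * τ * sep4 κ m F i j ^ 2 + sep4 κ m F i j ^ 3 ≤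
        (2 * V * τ + 2) * (κ * μ) := by
      by_cases h : i ∈ F ∨ j ∈ F
      · have h1 := sep4_fast hκ m h
        rw [hmax, ← hμ] at h1
        have h2 : sep4 κ m F i j ≤ 1 := by
          by_contra hlt
          push Not at hlt
          have h3 := one_lt_pow₀ hlt (n := 2) (by norm_num)
          rw [h1] at h3
          nlinarith
        have h4 : sep4 κ m F i j ^ 3 = sep4 κ m F i j * (κ * μ) := by rw [← h1]; ring
        rw [h1, h4]
        have h5 : ‖v i - v j‖ * τ + sep4 κ m F i j ≤ 2 * V * τ + 2 := by linarith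
        calc ‖v i - v j‖ * τ * (κ * μ) + sep4 κ m F i j * (κ * μ) =
              (‖v i - v j‖ * τ + sep4 κ m F i j) * (κ * μ) := by ring
          _ ≤ _ := mul_le_mul_of_nonneg_right h5 hκμ.le
      · push Not at h
        have h1 := sep4_slow hκ m h.1 h.2
        rw [hmax, ← hμ] at h1
        have hroot : (κ / N) ^ (1 / 3 : ℝ) ≤ sep4 κ m F i j := by
          have h2 : 0 ≤ κ / N := by positivity
          have h3 : ((κ / N) ^ (1 / 3 : ℝ)) ^ 3 = κ / N := by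
            rw [← Real.rpow_natCast, ← Real.rpow_mul h2]
            norm_num
          have h4 : ((κ / N) ^ (1 / 3 : ℝ)) ^ 3 ≤ sep4 κ m F i j ^ 3 := by
            rw [h3, h1, div_eq_mul_one_div]
            exact mul_le_mul_of_nonneg_left hμN hκ.le
          exact le_of_pow_le_pow_left₀ (by norm_num) hσ0.le h4
        have h5 : ‖v i - v j‖ * τ ≤ sep4 κ m F i j := by
          have h6 := norm_sub_le (v i) (v j)
          have h7 := hF i h.1
          have h8 := hF j h.2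
          have h9 : ‖v i - v j‖ * τ ≤ (‖v i‖ + ‖v j‖) * τ := mul_le_mul_of_nonneg_right h6 hτ
          have h10 : (‖v i‖ + ‖v j‖) * τ = ‖v i‖ * τ + ‖v j‖ * τ := by ring
          linarith
        have h11 : ‖v i - v j‖ * τ * sep4 κ m F i j ^ 2 ≤ sep4 κ m F i j ^ 3 := by
          calc ‖v i - v j‖ * τ * sep4 κ m F i j ^ 2 ≤ sep4 κ m F i j * sep4 κ m F i j ^ 2 :=
                mul_le_mul_of_nonneg_right h5 (by positivity)
            _ = _ := by ring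
        rw [h1] at h11 ⊢
        nlinarith
    refine hmain.trans ?_
    calc (2 * V * τ + 2) * (κ * μ) = κ * (2 * V * τ + 2) * μ := by ring
      _ ≤ _ := mul_le_mul_of_nonneg_left hμle (mul_nonneg hκ.le (by linarith))
  refine (Finset.sum_le_sum hterm).trans ?_
  rw [← Finset.mul_sum]
  have hsum : ∑ j ∈ Finset.univ.filter (fun j => j ≠ i ∧ m i ≤ m j), (1 / (N : ℝ) + m j) ≤ 2 := by
    refine (Finset.sum_le_sum_of_subset_of_nonneg (Finset.subset_univ _) (fun j _ _ => by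
      have := hm j
      positivity)).trans ?_
    rw [Finset.sum_add_distrib, Finset.sum_const, Finset.card_univ, Fintype.card_fin,
      nsmul_eq_mul, mul_one_div, div_self hN'.ne']
    linarith
  calc κ * (2 * V * τ + 2) * ∑ j ∈ Finset.univ.filter (fun j => j ≠ i ∧ m i ≤ m j),
        (1 / (N : ℝ) + m j) ≤ κ * (2 * V * τ + 2) * 2 :=
        mul_le_mul_of_nonneg_left hsum (mul_nonneg hκ.le (by linarith))
    _ = _ := by ring

/-- **Spreading for the separations `sep4`**, energy weights `W`. -/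
theorem hspread4 {N : ℕ} {m : Fin N → ℝ} (hm : ∀ i, 0 ≤ m i) (hm1 : ∑ i, m i ≤ 1)
    {κ V τ c ep : ℝ} (hκ : 0 < κ) (hκ1 : κ ≤ 1) (hτ : 0 ≤ τ) (hc : 0 < c) (hep : 0 < ep)
    (hep1 : ep ≤ 1 / 2) (hnum : 2 * κ * (2 * V * τ + 2) ≤ ep ^ 3 * c ^ 3 / 2000)
    (F : Finset (Fin N)) (v : Fin N → V3) (hV : ∀ i, ‖v i‖ ≤ V)
    (hF : ∀ i, i ∉ F → ‖v i‖ * τ ≤ (κ / N) ^ (1 / 3 : ℝ) / 8)
    (q : Fin N → V3) (hq : ∀ i j, i ≠ j → q i ≠ q j) (W : Fin N → ℝ) (hW : ∀ i, 0 ≤ W i) :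
    ∃ p : Fin N → V3, (∀ i, ‖p i - q i‖ ≤ c) ∧ (∀ i j, i ≠ j → p i ≠ p j) ∧
      (∀ i j, i ≠ j → ∀ t ∈ Icc (0:ℝ) τ,
        sep4 κ m F i j ≤ ‖(p i + t • v i) - (p j + t • v j)‖) ∧
      invdM W p ≤ ((1 - ep) ^ 2)⁻¹ * invdM W q := by
  obtain ⟨p, hp1, hp2, hp3, -, hp5⟩ := spread_order W m hW q v hq hc hep hep1 hτ
    (fun i j => sep4 κ m F i j) (fun i j => sep4_pos hκ m F i j)
    (fun i j => sep4_comm κ m F i j)
    (fun i => (vol4 hm hm1 hκ hκ1 hτ v hV F hF i).trans hnum)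
    (fun _ => ∅) (fun _ => MeasurableSet.empty) (fun i => by simp)
  refine ⟨p, hp1, hp2, fun i j hij t ht => (hp3 i j hij t ht).le, ?_⟩
  unfold invdM
  rw [inv_pow] at hp5
  exact hp5

/-- the hypothesis `hspread` of the prepared states with a gun -/
theorem hspread4A {N : ℕ} {m : Fin N → ℝ} (hm : ∀ i, 0 ≤ m i) (hm1 : ∑ i, m i ≤ 1)
    {κ V τ c ep R : ℝ} (hκ : 0 < κ) (hκ1 : κ ≤ 1) (hτ : 0 ≤ τ) (hc : 0 < c) (hep : 0 < ep)
    (hep1 : ep ≤ 1 / 2) (hnum : 2 * κ * (2 * V * τ + 2) ≤ ep ^ 3 * c ^ 3 / 2000)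
    (F : Finset (Fin N)) (u : Fin N → V3) (hV : ∀ i, ‖u i‖ ≤ V)
    (hF : ∀ i, i ∉ F → ‖u i‖ * τ ≤ (κ / N) ^ (1 / 3 : ℝ) / 8) :
    ∀ q1 : Fin N → V3, (∀ i, ‖q1 i‖ ≤ R + 1) → (∀ i j, i ≠ j → q1 i ≠ q1 j) →
      ∀ W : Fin N → ℝ, (∀ i, 0 ≤ W i) → (∀ i, W i ≤ m i) →
      ∃ q2 : Fin N → V3, (∀ i, ‖q2 i - q1 i‖ ≤ c) ∧
        (∀ i j, i ≠ j → ∀ t ∈ Icc (0:ℝ) τ,
          sep4 κ m F i j ≤ ‖(q2 i + t • u i) - (q2 j + t • u j)‖) ∧
        invdM W q2 ≤ ((1 - ep) ^ 2)⁻¹ * invdM W q1 := by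
  intro q1 _ hq1 W hW _
  obtain ⟨p, h1, _, h3, h4⟩ := hspread4 hm hm1 hκ hκ1 hτ hc hep hep1 hnum F u hV hF q1 hq1 W hW
  exact ⟨p, h1, h3, h4⟩

/-- the hypothesis `hspread` of the prepared states with a tight pair: the slot `a` is the centre of
mass of the pair, with any velocity that is at most `w` -/
theorem hspread4B {N : ℕ} {m : Fin N → ℝ} (hm : ∀ i, 0 ≤ m i) (hm1 : ∑ i, m i ≤ 1)
    {κ V τ c ep R w : ℝ} (hκ : 0 < κ) (hκ1 : κ ≤ 1) (hτ : 0 ≤ τ) (hc : 0 < c) (hep : 0 < ep)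
    (hep1 : ep ≤ 1 / 2) (hnum : 2 * κ * (2 * V * τ + 2) ≤ ep ^ 3 * c ^ 3 / 2000)
    (F : Finset (Fin N)) (u : Fin N → V3) (hV : ∀ i, ‖u i‖ ≤ V)
    (hF : ∀ i, i ∉ F → ‖u i‖ * τ ≤ (κ / N) ^ (1 / 3 : ℝ) / 8) (a : Fin N)
    (hwV : w ≤ V) (hw : w * τ ≤ (κ / N) ^ (1 / 3 : ℝ) / 8) :
    ∀ v' : Fin N → V3, (∀ i, i ≠ a → v' i = u i) → ‖v' a‖ ≤ w →
      ∀ q1 : Fin N → V3, (∀ i, ‖q1 i‖ ≤ R + 1) → (∀ i j, i ≠ j → q1 i ≠ q1 j) →
      ∀ W : Fin N → ℝ, (∀ i, 0 ≤ W i) → (∀ i, W i ≤ m i) →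
      ∃ q2 : Fin N → V3, (∀ i, ‖q2 i - q1 i‖ ≤ c) ∧
        (∀ i j, i ≠ j → ∀ t ∈ Icc (0:ℝ) τ,
          sep4 κ m F i j ≤ ‖(q2 i + t • v' i) - (q2 j + t • v' j)‖) ∧
        invdM W q2 ≤ ((1 - ep) ^ 2)⁻¹ * invdM W q1 := by
  intro v' hv' hva
  refine hspread4A hm hm1 hκ hκ1 hτ hc hep hep1 hnum F v' (fun i => ?_) (fun i hi => ?_)
  · by_cases h : i = a
    · rw [h]
      exact hva.trans hwV
    · rw [hv' i h]
      exact hV i
  · by_cases h : i = a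
    · rw [h]
      exact (mul_le_mul_of_nonneg_right hva hτ).trans hw
    · rw [hv' i h]
      exact hF i hi

end Pool.Agent.NBody
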