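import Mathlib
import Pool.Agent.NBody.ThDefs

/-!
The data of the gun: three bodies of mass one released from rest at `gunS`; at the time `gunT`
the body `0` is leaving, the bodies `1` and `2` form a close pair, and the positions and
velocities are near `gunP` and `gunW`.
-/

set_option autoImplicit false
open scoped RealInnerProductSpace
open Set Finset Filter Topology

namespace Pool.Agent.NBody

noncomputable section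

/-- the time at which the enclosure of the gun ends -/
def gunT : ℝ := 17 / 25

/-- initial positions -/
def gunS : Fin 3 → V3 := ![!₂[-15217 / 30000, -59 / 300, 0], !₂[14783 / 30000, -59 / 300, 0],
  !₂[217 / 15000, 59 / 150, 0]]

/-- approximate positions at the time `gunT` -/
def gunP : Fin 3 → V3 := ![!₂[43788 / 100000, 22779 / 100000, 0],
  !₂[-26953 / 100000, -16085 / 100000, 0], !₂[-16836 / 100000, -6695 / 100000, 0]]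

/-- approximate velocities at the time `gunT` -/
def gunW : Fin 3 → V3 := ![!₂[18816 / 10000, 12703 / 10000, 0], !₂[-13204 / 10000, 9046 / 10000, 0],
  !₂[-5613 / 10000, -21749 / 10000, 0]]

/-- (A1) the enclosure up to the time `gunT` -/
def GunEnc : Prop :=
  ∃ η₁ > 0, ∀ T η : ℝ, 0 < T → 0 ≤ η → η ≤ η₁ →
    ∀ f Q V : ℝ → Fin 3 → V3, IsSol 1 T f Q V → (∀ t ∈ Icc (0 : ℝ) T, ∀ k, ‖f t k‖ ≤ η) →
    (∀ k, Q 0 k = gunS k) → (∀ k, V 0 k = 0) →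
    ∀ t ∈ Icc (0 : ℝ) T, t ≤ gunT →
      (∀ k l, k ≠ l → 1 / 30 ≤ ‖Q t k - Q t l‖) ∧ (∀ k, ‖Q t k‖ ≤ 1) ∧ (∀ k, ‖V t k‖ ≤ 20) ∧
      (t = gunT → ∀ k, ‖Q t k - gunP k‖ ≤ 1 / 2000 ∧ ‖V t k - gunW k‖ ≤ 1 / 50)

/-- (A2) the flight after the time `gunT` (which is the time `0` here) -/
def GunFlight (e : V3) (μ₁ C₁ : ℝ) : Prop :=
  ∃ η₂ > 0, ∀ T η : ℝ, 0 < T → 0 ≤ η → η ≤ η₂ → η * T ≤ η₂ →
    ∀ f Q V : ℝ → Fin 3 → V3, IsSol 1 T f Q V → (∀ t ∈ Icc (0 : ℝ) T, ∀ k, ‖f t k‖ ≤ η) →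
    (∀ k, ‖Q 0 k - gunP k‖ ≤ 1 / 2000) → (∀ k, ‖V 0 k - gunW k‖ ≤ 1 / 50) →
    ∀ t ∈ Icc (0 : ℝ) T,
      (∀ k l, k ≠ l → μ₁ ≤ ‖Q t k - Q t l‖) ∧ (∀ k, ‖V t k‖ ≤ C₁) ∧
      ‖Q t 1 - Q t 2‖ ≤ 1 ∧ (∀ k, k ≠ 0 → (1 + t) / C₁ ≤ ‖Q t 0 - Q t k‖) ∧
      (3 / 5) * t ≤ ⟪Q t 0, e⟫ ∧ 3 / 5 ≤ ⟪V t 0, e⟫ ∧ (∀ k, k ≠ 0 → ⟪Q t k, e⟫ ≤ C₁)

end

end Pool.Agent.NBody
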