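import Mathlib
import Pool.Agent.NBody.ThGunDefs
import Pool.Agent.NBody.ThRel

/-!
The flight after the handover time: the outer body keeps its velocity and the pair stays bound.
-/

set_option autoImplicit false
open scoped RealInnerProductSpace
open Set Finset Filter Topology

namespace Pool.Agent.NBody
namespace Flt

/-- the kernel -/
noncomputable def ker (z : V3) : V3 := (1 / ‖z‖ ^ 3) • z

theorem ker_neg (z : V3) : ker (-z) = -ker z := by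
  unfold ker
  rw [norm_neg, smul_neg]

theorem ker_zero : ker 0 = 0 := by
  unfold ker
  simp

theorem acc_zero_eq (q : Fin 3 → V3) : acc 1 q 0 = -ker (q 0 - q 1) - ker (q 0 - q 2) := by
  have h0 : acc 1 q 0 = ker (q 0 - q 0) + ker (q 1 - q 0) + ker (q 2 - q 0) := by
    unfold acc
    rw [Fin.sum_univ_three]
    rfl
  rw [h0, sub_self, ker_zero, ← neg_sub (q 0) (q 1), ← neg_sub (q 0) (q 2), ker_neg, ker_neg]
  abel

theorem acc_one_eq (q : Fin 3 → V3) : acc 1 q 1 = ker (q 0 - q 1) + ker (q 2 - q 1) := by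
  have h0 : acc 1 q 1 = ker (q 0 - q 1) + ker (q 1 - q 1) + ker (q 2 - q 1) := by
    unfold acc
    rw [Fin.sum_univ_three]
    rfl
  rw [h0, sub_self, ker_zero, add_zero]

theorem acc_two_eq (q : Fin 3 → V3) : acc 1 q 2 = ker (q 0 - q 2) - ker (q 2 - q 1) := by
  have h0 : acc 1 q 2 = ker (q 0 - q 2) + ker (q 1 - q 2) + ker (q 2 - q 2) := by
    unfold acc
    rw [Fin.sum_univ_three]
    rfl
  rw [h0, sub_self, ker_zero, add_zero, ← neg_sub (q 2) (q 1), ker_neg]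
  abel

section Jacobi

variable {T η : ℝ} {f Q V : ℝ → Fin 3 → V3} {e : V3}

theorem hasDerivAt_q (h : IsSol 1 T f Q V) {t : ℝ} (ht : t ∈ Ioo (0:ℝ) T) (k : Fin 3) :
    HasDerivAt (fun s => Q s k) (V t k) t :=
  (h.dq t (Ioo_subset_Icc_self ht) k).hasDerivAt (Icc_mem_nhds ht.1 ht.2)

theorem hasDerivAt_v (h : IsSol 1 T f Q V) {t : ℝ} (ht : t ∈ Ioo (0:ℝ) T) (k : Fin 3) :
    HasDerivAt (fun s => V s k) (acc 1 (Q t) k + f t k) t :=
  (h.dv t (Ioo_subset_Icc_self ht) k).hasDerivAt (Icc_mem_nhds ht.1 ht.2)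

theorem cont_q (h : IsSol 1 T f Q V) (k : Fin 3) : ContinuousOn (fun s => Q s k) (Icc 0 T) :=
  fun t ht => (h.dq t ht k).continuousWithinAt

theorem cont_v (h : IsSol 1 T f Q V) (k : Fin 3) : ContinuousOn (fun s => V s k) (Icc 0 T) :=
  fun t ht => (h.dv t ht k).continuousWithinAt

/-- The distance of the outer body from the two bodies of the pair. -/
theorem outer_dist {Q0 Q1 Q2 : V3} (he : ‖e‖ ≤ 1) (hx : ‖Q2 - Q1‖ ≤ 1 / 4) :
    ⟪Q0 - (1 / 2 : ℝ) • (Q1 + Q2), e⟫ - 1 / 8 ≤ ‖Q0 - Q1‖ ∧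
      ⟪Q0 - (1 / 2 : ℝ) • (Q1 + Q2), e⟫ - 1 / 8 ≤ ‖Q0 - Q2‖ := by
  have hxe : |⟪Q2 - Q1, e⟫| ≤ 1 / 4 := by
    refine (abs_real_inner_le_norm _ _).trans ?_
    calc ‖Q2 - Q1‖ * ‖e‖ ≤ ‖Q2 - Q1‖ * 1 := mul_le_mul_of_nonneg_left he (norm_nonneg _)
      _ ≤ 1 / 4 := by linarith
  have h1 : ∀ z : V3, ⟪z, e⟫ ≤ ‖z‖ := by
    intro z
    refine (real_inner_le_norm _ _).trans ?_
    calc ‖z‖ * ‖e‖ ≤ ‖z‖ * 1 := mul_le_mul_of_nonneg_left he (norm_nonneg _)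
      _ = ‖z‖ := mul_one _
  have e1 : Q0 - Q1 = (Q0 - (1 / 2 : ℝ) • (Q1 + Q2)) + (1 / 2 : ℝ) • (Q2 - Q1) := by
    module
  have e2 : Q0 - Q2 = (Q0 - (1 / 2 : ℝ) • (Q1 + Q2)) - (1 / 2 : ℝ) • (Q2 - Q1) := by
    module
  obtain ⟨a1, a2⟩ := abs_le.mp hxe
  constructor
  · have h2 := h1 (Q0 - Q1)
    have h3 : ⟪Q0 - Q1, e⟫ = ⟪Q0 - (1 / 2 : ℝ) • (Q1 + Q2), e⟫ + (1 / 2) * ⟪Q2 - Q1, e⟫ := by
      conv_lhs => rw [e1]
      rw [inner_add_left, real_inner_smul_left (Q2 - Q1)]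
    linarith
  · have h2 := h1 (Q0 - Q2)
    have h3 : ⟪Q0 - Q2, e⟫ = ⟪Q0 - (1 / 2 : ℝ) • (Q1 + Q2), e⟫ - (1 / 2) * ⟪Q2 - Q1, e⟫ := by
      conv_lhs => rw [e2]
      rw [inner_sub_left, real_inner_smul_left (Q2 - Q1)]
    linarith

/-- The relative motion of a solution. -/
theorem rel_of_isSol (h : IsSol 1 T f Q V) (hf : ∀ t ∈ Icc (0:ℝ) T, ∀ k, ‖f t k‖ ≤ η)
    (hη : 0 ≤ η) (he : ‖e‖ ≤ 1) :
    Rel e η (fun t => Q t 0 - (1 / 2 : ℝ) • (Q t 1 + Q t 2))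
      (fun t => V t 0 - (1 / 2 : ℝ) • (V t 1 + V t 2))
      (fun t => Q t 2 - Q t 1) (fun t => V t 2 - V t 1)
      (fun t => ker (Q t 0 - Q t 2) - ker (Q t 0 - Q t 1) + (f t 2 - f t 1))
      (fun t => -(3 / 2 : ℝ) • (ker (Q t 0 - Q t 1) + ker (Q t 0 - Q t 2)) +
        (f t 0 - (1 / 2 : ℝ) • (f t 1 + f t 2))) 0 T where
  cD := (cont_q h 0).sub (((cont_q h 1).add (cont_q h 2)).const_smul (1 / 2 : ℝ))
  cu := (cont_v h 0).sub (((cont_v h 1).add (cont_v h 2)).const_smul (1 / 2 : ℝ))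
  cx := (cont_q h 2).sub (cont_q h 1)
  cw := (cont_v h 2).sub (cont_v h 1)
  dD := fun t ht => (hasDerivAt_q h ht 0).sub
    (((hasDerivAt_q h ht 1).add (hasDerivAt_q h ht 2)).const_smul (1 / 2 : ℝ))
  du := fun t ht => by
    refine HasDerivAt.congr_deriv ((hasDerivAt_v h ht 0).sub
      (((hasDerivAt_v h ht 1).add (hasDerivAt_v h ht 2)).const_smul (1 / 2 : ℝ))) ?_
    rw [acc_zero_eq, acc_one_eq, acc_two_eq]
    module
  dx := fun t ht => (hasDerivAt_q h ht 2).sub (hasDerivAt_q h ht 1)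
  dw := fun t ht => by
    refine HasDerivAt.congr_deriv ((hasDerivAt_v h ht 2).sub (hasDerivAt_v h ht 1)) ?_
    have h1 : (2 / ‖Q t 2 - Q t 1‖ ^ 3) • (Q t 2 - Q t 1) = (2:ℝ) • ker (Q t 2 - Q t 1) := by
      unfold ker
      rw [smul_smul]
      congr 1
      ring
    rw [h1, acc_one_eq, acc_two_eq]
    module
  ne := fun t ht => by
    have := h.nc t ht 2 1 (by decide)
    rwa [sub_ne_zero]
  he := he
  hη := hη
  hP := fun t ht hx hD => by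
    have htI := Ioo_subset_Icc_self ht
    obtain ⟨d1, d2⟩ := outer_dist he hx (Q0 := Q t 0)
    have hd : 0 < ⟪Q t 0 - (1 / 2 : ℝ) • (Q t 1 + Q t 2), e⟫ - 1 / 8 := by linarith
    have h1 := ker_sub_le' hd d2 d1
    have h2 : (Q t 0 - Q t 2) - (Q t 0 - Q t 1) = -(Q t 2 - Q t 1) := by abel
    rw [h2, norm_neg] at h1
    have h3 : ‖f t 2 - f t 1‖ ≤ 2 * η := by
      refine (norm_sub_le _ _).trans ?_
      linarith [hf t htI 2, hf t htI 1]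
    refine (norm_add_le _ _).trans ?_
    exact add_le_add h1 h3
  hA := fun t ht hx hD => by
    have htI := Ioo_subset_Icc_self ht
    obtain ⟨d1, d2⟩ := outer_dist he hx (Q0 := Q t 0)
    have hd : 0 < ⟪Q t 0 - (1 / 2 : ℝ) • (Q t 1 + Q t 2), e⟫ - 1 / 8 := by linarith
    have h1 := ker_le hd d1
    have h2 := ker_le hd d2
    have h3 : ‖f t 0 - (1 / 2 : ℝ) • (f t 1 + f t 2)‖ ≤ 2 * η := by
      refine (norm_sub_le _ _).trans ?_
      rw [norm_smul, Real.norm_of_nonneg (by norm_num : (0:ℝ) ≤ 1 / 2)]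
      have h4 := norm_add_le (f t 1) (f t 2)
      linarith [hf t htI 2, hf t htI 1, hf t htI 0]
    refine (norm_add_le _ _).trans ?_
    refine add_le_add ?_ h3
    rw [norm_smul, norm_neg, Real.norm_of_nonneg (by norm_num : (0:ℝ) ≤ 3 / 2)]
    have h5 : ‖ker (Q t 0 - Q t 1) + ker (Q t 0 - Q t 2)‖ ≤
        1 / (⟪Q t 0 - (1 / 2 : ℝ) • (Q t 1 + Q t 2), e⟫ - 1 / 8) ^ 2 +
        1 / (⟪Q t 0 - (1 / 2 : ℝ) • (Q t 1 + Q t 2), e⟫ - 1 / 8) ^ 2 :=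
      (norm_add_le _ _).trans (add_le_add h1 h2)
    have h6 : (3:ℝ) / (⟪Q t 0 - (1 / 2 : ℝ) • (Q t 1 + Q t 2), e⟫ - 1 / 8) ^ 2 =
      (3 / 2) * (1 / (⟪Q t 0 - (1 / 2 : ℝ) • (Q t 1 + Q t 2), e⟫ - 1 / 8) ^ 2 +
        1 / (⟪Q t 0 - (1 / 2 : ℝ) • (Q t 1 + Q t 2), e⟫ - 1 / 8) ^ 2) := by ring
    rw [h6]
    exact mul_le_mul_of_nonneg_left h5 (by norm_num)

end Jacobi

section Box

theorem norm_sq3 (v : V3) : ‖v‖ ^ 2 = v 0 ^ 2 + v 1 ^ 2 + v 2 ^ 2 := by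
  rw [EuclideanSpace.norm_sq_eq, Fin.sum_univ_three]
  simp only [Real.norm_eq_abs, sq_abs]

theorem inner3 (v w : V3) : ⟪v, w⟫ = v 0 * w 0 + v 1 * w 1 + v 2 * w 2 := by
  rw [PiLp.inner_apply, Fin.sum_univ_three]
  simp only [RCLike.inner_apply, conj_trivial]
  ring

/-- the direction of the flight -/
noncomputable def dirE : V3 := !₂[56 / 65, 33 / 65, 0]

theorem norm_dirE : ‖dirE‖ = 1 := by
  have h : ‖dirE‖ ^ 2 = 1 := by
    rw [norm_sq3]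
    simp [dirE]
    norm_num
  have h1 : ‖dirE‖ = √(‖dirE‖ ^ 2) := (Real.sqrt_sq (norm_nonneg _)).symm
  rw [h1, h, Real.sqrt_one]

/-- the reference values of the relative positions and velocities -/
noncomputable def rD : V3 := !₂[656825 / 1000000, 34169 / 100000, 0]
/-- reference relative velocity of the outer body -/
noncomputable def rU : V3 := !₂[282245 / 100000, 190545 / 100000, 0]
/-- reference pair -/
noncomputable def rX : V3 := !₂[10117 / 100000, 9390 / 100000, 0]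
/-- reference velocity of the pair -/
noncomputable def rW : V3 := !₂[7591 / 10000, -30795 / 10000, 0]

theorem rD_eq : gunP 0 - (1 / 2 : ℝ) • (gunP 1 + gunP 2) = rD := by
  ext i
  fin_cases i <;> simp [gunP, rD] <;> norm_num

theorem rU_eq : gunW 0 - (1 / 2 : ℝ) • (gunW 1 + gunW 2) = rU := by
  ext i
  fin_cases i <;> simp [gunW, rU] <;> norm_num

theorem rX_eq : gunP 2 - gunP 1 = rX := by
  ext i
  fin_cases i <;> simp [gunP, rX] <;> norm_num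

theorem rW_eq : gunW 2 - gunW 1 = rW := by
  ext i
  fin_cases i <;> simp [gunW, rW] <;> norm_num

theorem rD_inner : 739 / 1000 ≤ ⟪rD, dirE⟫ := by
  rw [inner3]
  simp [rD, dirE]
  norm_num

theorem rU_inner : 3399 / 1000 ≤ ⟪rU, dirE⟫ := by
  rw [inner3]
  simp [rU, dirE]
  norm_num

theorem rU_norm : ‖rU‖ ≤ 341 / 100 := by
  refine (sq_le_sq₀ (norm_nonneg _) (by norm_num)).mp ?_
  rw [norm_sq3]
  simp [rU]
  norm_num

theorem rX_norm : 138 / 1000 ≤ ‖rX‖ ∧ ‖rX‖ ≤ 1381 / 10000 := by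
  constructor
  · refine (sq_le_sq₀ (by norm_num) (norm_nonneg _)).mp ?_
    rw [norm_sq3]
    simp [rX]
    norm_num
  · refine (sq_le_sq₀ (norm_nonneg _) (by norm_num)).mp ?_
    rw [norm_sq3]
    simp [rX]
    norm_num

theorem rW_norm : 31716 / 10000 ≤ ‖rW‖ ∧ ‖rW‖ ≤ 31717 / 10000 := by
  constructor
  · refine (sq_le_sq₀ (by norm_num) (norm_nonneg _)).mp ?_
    rw [norm_sq3]
    simp [rW]
    norm_num
  · refine (sq_le_sq₀ (norm_nonneg _) (by norm_num)).mp ?_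
    rw [norm_sq3]
    simp [rW]
    norm_num

theorem rXW : ⟪rX, rW⟫ = -(212366903 / 1000000000) := by
  rw [inner3]
  simp [rX, rW]
  norm_num

/-- The state near the reference values satisfies the conditions at the handover time. -/
theorem start_of_near {D u x w : V3} (hD : ‖D - rD‖ ≤ 1 / 1000) (hu : ‖u - rU‖ ≤ 1 / 25)
    (hx : ‖x - rX‖ ≤ 1 / 1000) (hw : ‖w - rW‖ ≤ 1 / 25) : Start dirE D u x w := by
  have hin : ∀ z : V3, -‖z‖ ≤ ⟪z, dirE⟫ := by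
    intro z
    have h1 := abs_real_inner_le_norm z dirE
    rw [norm_dirE, mul_one] at h1
    exact (abs_le.mp h1).1
  have ex : ‖x‖ ≤ ‖rX‖ + 1 / 1000 ∧ ‖rX‖ - 1 / 1000 ≤ ‖x‖ := by
    have h1 := norm_sub_norm_le x rX
    have h2 := norm_sub_norm_le rX x
    rw [norm_sub_rev] at h2
    constructor <;> linarith
  have ew : ‖w‖ ≤ ‖rW‖ + 1 / 25 ∧ ‖rW‖ - 1 / 25 ≤ ‖w‖ := by
    have h1 := norm_sub_norm_le w rW
    have h2 := norm_sub_norm_le rW w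
    rw [norm_sub_rev] at h2
    constructor <;> linarith
  obtain ⟨x1, x2⟩ := rX_norm
  obtain ⟨w1, w2⟩ := rW_norm
  have X1 : 137 / 1000 ≤ ‖x‖ := by linarith [ex.2]
  have X2 : ‖x‖ ≤ 1391 / 10000 := by linarith [ex.1]
  have W1 : 31316 / 10000 ≤ ‖w‖ := by linarith [ew.2]
  have W2 : ‖w‖ ≤ 32117 / 10000 := by linarith [ew.1]
  constructor
  · have h1 := hin (D - rD)
    rw [inner_sub_left] at h1
    have h2 := rD_inner
    linarith
  · have h1 := hin (u - rU)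
    rw [inner_sub_left] at h1
    have h2 := rU_inner
    linarith
  · have h1 := norm_sub_norm_le u rU
    have h2 := rU_norm
    linarith
  · unfold en
    have h1 : ‖w‖ ^ 2 ≤ (32117 / 10000) ^ 2 := pow_le_pow_left₀ (norm_nonneg _) W2 2
    have h2 : 2 / (1391 / 10000 : ℝ) ≤ 2 / ‖x‖ :=
      div_le_div_of_nonneg_left (by norm_num) (by linarith) X2
    have h3 : (14378 / 1000 : ℝ) ≤ 2 / (1391 / 10000 : ℝ) := by norm_num
    norm_num at h1 h2 h3 ⊢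
    linarith
  · -- the angular momentum
    have h1 : ⟪x, w⟫ = ⟪rX, rW⟫ + ⟪rX, w - rW⟫ + ⟪x - rX, rW⟫ + ⟪x - rX, w - rW⟫ := by
      simp only [inner_sub_left, inner_sub_right]
      ring
    have h2 : |⟪rX, w - rW⟫| ≤ (1381 / 10000) * (1 / 25) :=
      (abs_real_inner_le_norm _ _).trans (mul_le_mul x2 hw (norm_nonneg _) (by norm_num))
    have h3 : |⟪x - rX, rW⟫| ≤ (1 / 1000) * (31717 / 10000) :=
      (abs_real_inner_le_norm _ _).trans (mul_le_mul hx w2 (norm_nonneg _) (by norm_num))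
    have h4 : |⟪x - rX, w - rW⟫| ≤ (1 / 1000) * (1 / 25) :=
      (abs_real_inner_le_norm _ _).trans (mul_le_mul hx hw (norm_nonneg _) (by norm_num))
    have h5 : |⟪x, w⟫| ≤ 2212 / 10000 := by
      rw [h1, rXW]
      rw [abs_le] at h2 h3 h4 ⊢
      norm_num at h2 h3 h4 ⊢
      constructor <;> linarith [h2.1, h2.2, h3.1, h3.2, h4.1, h4.2]
    have h6 : ⟪x, w⟫ ^ 2 ≤ (2212 / 10000) ^ 2 := by
      rw [← sq_abs]
      exact pow_le_pow_left₀ (abs_nonneg _) h5 2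
    have h7 : ((137 / 1000) * (31316 / 10000) : ℝ) ^ 2 ≤ ‖x‖ ^ 2 * ‖w‖ ^ 2 := by
      rw [← mul_pow]
      apply pow_le_pow_left₀ (by norm_num)
      exact mul_le_mul X1 W1 (by norm_num) (norm_nonneg _)
    unfold lam
    norm_num at h6 h7 ⊢
    linarith

end Box

section Final

variable {T t₀ η : ℝ} {f Q V : ℝ → Fin 3 → V3} {e : V3}

/-- The flight: from the handover time on the pair stays bound and away from collisions, and the
outer body keeps flying. -/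
theorem flight (h : IsSol 1 T f Q V) (hf : ∀ t ∈ Icc (0:ℝ) T, ∀ k, ‖f t k‖ ≤ η)
    (hη : 0 ≤ η) (ht₀ : 0 ≤ t₀) (he : ‖e‖ ≤ 1) (hηT : η * (T - t₀) ≤ 1 / 2000)
    (hs : Start e (Q t₀ 0 - (1 / 2 : ℝ) • (Q t₀ 1 + Q t₀ 2))
      (V t₀ 0 - (1 / 2 : ℝ) • (V t₀ 1 + V t₀ 2)) (Q t₀ 2 - Q t₀ 1) (V t₀ 2 - V t₀ 1)) :
    ∀ t ∈ Icc t₀ T,
      1 / 80 ≤ ‖Q t 2 - Q t 1‖ ∧ ‖Q t 2 - Q t 1‖ ≤ 1 / 4 ∧ ‖V t 2 - V t 1‖ ≤ 18 ∧
      ‖V t 0 - (1 / 2 : ℝ) • (V t 1 + V t 2)‖ ≤ 8 ∧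
      738 / 1000 + (6 / 5) * (t - t₀) ≤ ⟪Q t 0 - (1 / 2 : ℝ) • (Q t 1 + Q t 2), e⟫ ∧
      6 / 5 ≤ ⟪V t 0 - (1 / 2 : ℝ) • (V t 1 + V t 2), e⟫ ∧
      1 / 20 ≤ ‖Q t 2 - Q t 1‖ ^ 2 * ‖V t 2 - V t 1‖ ^ 2 -
        ⟪Q t 2 - Q t 1, V t 2 - V t 1⟫ ^ 2 := by
  intro t ht
  have hR := (rel_of_isSol h hf hη he).mono ht₀ (le_refl T)
  obtain ⟨G, hg⟩ := hR.good hs hηT t ht
  have hfar := hR.far hs hηT ht
  have hne := hR.ne t ht
  obtain ⟨p1, p2, p3, p4⟩ := pair_small hne G.hen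
  obtain ⟨p5, p6⟩ := pair_large hne G.hen G.hlam
  have hl := G.hlam
  unfold lam at hl
  exact ⟨p5, p1, p6, G.hun.le, hfar, hg.le, hl.le⟩

/-- The change of the relative velocity of the outer body during the flight. -/
theorem flight_vel (h : IsSol 1 T f Q V) (hf : ∀ t ∈ Icc (0:ℝ) T, ∀ k, ‖f t k‖ ≤ η)
    (hη : 0 ≤ η) (ht₀ : 0 ≤ t₀) (he : ‖e‖ ≤ 1) (hηT : η * (T - t₀) ≤ 1 / 2000)
    (hs : Start e (Q t₀ 0 - (1 / 2 : ℝ) • (Q t₀ 1 + Q t₀ 2))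
      (V t₀ 0 - (1 / 2 : ℝ) • (V t₀ 1 + V t₀ 2)) (Q t₀ 2 - Q t₀ 1) (V t₀ 2 - V t₀ 1)) :
    ∀ t' t, t₀ ≤ t' → t' ≤ t → t ≤ T →
      ‖(V t 0 - (1 / 2 : ℝ) • (V t 1 + V t 2)) - (V t' 0 - (1 / 2 : ℝ) • (V t' 1 + V t' 2))‖ ≤
      (5 / 2) * (√(⟪Q t' 0 - (1 / 2 : ℝ) • (Q t' 1 + Q t' 2), e⟫ - 1 / 8))⁻¹ +
        2 * η * (t - t') := by
  intro t' t h1 h2 h3
  have hR := (rel_of_isSol h hf hη he).mono ht₀ (le_refl T)
  have hg := hR.good hs hηT
  exact (hR.est h1 h2 h3 (fun s hs' => (hg s ⟨h1.trans hs'.1.le, hs'.2.le.trans h3⟩).1)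
    (hg t' ⟨h1, h2.trans h3⟩).1.hD).2.2.1

/-- the motion of the centre of mass -/
theorem com_bound (h : IsSol 1 T f Q V) (hf : ∀ t ∈ Icc (0:ℝ) T, ∀ k, ‖f t k‖ ≤ η)
    (hη : 0 ≤ η) {t : ℝ} (ht : t ∈ Icc (0:ℝ) T) :
    ‖(V t 0 + V t 1 + V t 2) - (V 0 0 + V 0 1 + V 0 2)‖ ≤ 3 * η * t ∧
    ‖(Q t 0 + Q t 1 + Q t 2) - (Q 0 0 + Q 0 1 + Q 0 2)‖ ≤
      (‖V 0 0 + V 0 1 + V 0 2‖ + 3 * η * T) * t := by
  have hV : ∀ s ∈ Icc (0:ℝ) T,
      ‖(V s 0 + V s 1 + V s 2) - (V 0 0 + V 0 1 + V 0 2)‖ ≤ 3 * η * s := by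
    intro s hs
    have hsub : Icc 0 s ⊆ Icc 0 T := Icc_subset_Icc le_rfl hs.2
    have := norm_sub_le_of_deriv (f := fun r => V r 0 + V r 1 + V r 2)
      (f' := fun r => f r 0 + f r 1 + f r 2) (B := fun r => 3 * η * r) (B' := fun _ => 3 * η)
      hs.1 ((((cont_v h 0).add (cont_v h 1)).add (cont_v h 2)).mono hsub) (by fun_prop)
      (by
        intro r hr
        have hr' : r ∈ Ioo (0:ℝ) T := ⟨hr.1, hr.2.trans_le hs.2⟩
        refine HasDerivAt.congr_deriv (((hasDerivAt_v h hr' 0).add (hasDerivAt_v h hr' 1)).add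
          (hasDerivAt_v h hr' 2)) ?_
        rw [acc_zero_eq, acc_one_eq, acc_two_eq]
        module)
      (by
        intro r hr
        have := (hasDerivAt_id r).const_mul (3 * η)
        refine HasDerivAt.congr_deriv this ?_
        ring)
      (by
        intro r hr
        have hr' : r ∈ Icc (0:ℝ) T := ⟨hr.1.le, hr.2.le.trans hs.2⟩
        have h1 := norm_add_le (f r 0 + f r 1) (f r 2)
        have h2 := norm_add_le (f r 0) (f r 1)
        linarith [hf r hr' 0, hf r hr' 1, hf r hr' 2])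
    simpa using this
  refine ⟨hV t ht, ?_⟩
  have hsub : Icc 0 t ⊆ Icc 0 T := Icc_subset_Icc le_rfl ht.2
  have := norm_sub_le_of_deriv (f := fun r => Q r 0 + Q r 1 + Q r 2)
    (f' := fun r => V r 0 + V r 1 + V r 2)
    (B := fun r => (‖V 0 0 + V 0 1 + V 0 2‖ + 3 * η * T) * r)
    (B' := fun _ => ‖V 0 0 + V 0 1 + V 0 2‖ + 3 * η * T)
    ht.1 ((((cont_q h 0).add (cont_q h 1)).add (cont_q h 2)).mono hsub) (by fun_prop)
    (by
      intro r hr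
      have hr' : r ∈ Ioo (0:ℝ) T := ⟨hr.1, hr.2.trans_le ht.2⟩
      exact ((hasDerivAt_q h hr' 0).add (hasDerivAt_q h hr' 1)).add (hasDerivAt_q h hr' 2))
    (by
      intro r hr
      have := (hasDerivAt_id r).const_mul (‖V 0 0 + V 0 1 + V 0 2‖ + 3 * η * T)
      refine HasDerivAt.congr_deriv this ?_
      ring)
    (by
      intro r hr
      have hr' : r ∈ Icc (0:ℝ) T := ⟨hr.1.le, hr.2.le.trans ht.2⟩
      have h1 := hV r hr'
      have h2 := norm_add_le ((V r 0 + V r 1 + V r 2) - (V 0 0 + V 0 1 + V 0 2))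
        (V 0 0 + V 0 1 + V 0 2)
      rw [sub_add_cancel] at h2
      have h3 : 3 * η * r ≤ 3 * η * T :=
        mul_le_mul_of_nonneg_left hr'.2 (by positivity)
      linarith)
  simpa using this

theorem gun_sum : gunP 0 + gunP 1 + gunP 2 = !₂[-(1 / 100000 : ℝ), -(1 / 100000 : ℝ), 0] ∧
    gunW 0 + gunW 1 + gunW 2 = !₂[-(1 / 10000 : ℝ), 0, 0] := by
  constructor
  · ext i
    fin_cases i <;> simp [gunP] <;> norm_num
  · ext i
    fin_cases i <;> simp [gunW] <;> norm_num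

/-- A2: the flight after the time of the handover. -/
theorem gun_flight_dirE : GunFlight dirE (1 / 80) 30 := by
  refine ⟨1 / 2000, by norm_num, ?_⟩
  intro T η hT hη hη1 hηT f Q V h hf hQ hV t ht
  have hD : ‖(Q 0 0 - (1 / 2 : ℝ) • (Q 0 1 + Q 0 2)) - rD‖ ≤ 1 / 1000 := by
    rw [← rD_eq]
    have e1 : (Q 0 0 - (1 / 2 : ℝ) • (Q 0 1 + Q 0 2)) - (gunP 0 - (1 / 2 : ℝ) • (gunP 1 + gunP 2))
      = (Q 0 0 - gunP 0) - (1 / 2 : ℝ) • ((Q 0 1 - gunP 1) + (Q 0 2 - gunP 2)) := by module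
    rw [e1]
    have h1 := norm_sub_le (Q 0 0 - gunP 0) ((1 / 2 : ℝ) • ((Q 0 1 - gunP 1) + (Q 0 2 - gunP 2)))
    rw [norm_smul, Real.norm_of_nonneg (by norm_num : (0:ℝ) ≤ 1 / 2)] at h1
    have h2 := norm_add_le (Q 0 1 - gunP 1) (Q 0 2 - gunP 2)
    linarith [hQ 0, hQ 1, hQ 2]
  have hU : ‖(V 0 0 - (1 / 2 : ℝ) • (V 0 1 + V 0 2)) - rU‖ ≤ 1 / 25 := by
    rw [← rU_eq]
    have e1 : (V 0 0 - (1 / 2 : ℝ) • (V 0 1 + V 0 2)) - (gunW 0 - (1 / 2 : ℝ) • (gunW 1 + gunW 2))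
      = (V 0 0 - gunW 0) - (1 / 2 : ℝ) • ((V 0 1 - gunW 1) + (V 0 2 - gunW 2)) := by module
    rw [e1]
    have h1 := norm_sub_le (V 0 0 - gunW 0) ((1 / 2 : ℝ) • ((V 0 1 - gunW 1) + (V 0 2 - gunW 2)))
    rw [norm_smul, Real.norm_of_nonneg (by norm_num : (0:ℝ) ≤ 1 / 2)] at h1
    have h2 := norm_add_le (V 0 1 - gunW 1) (V 0 2 - gunW 2)
    linarith [hV 0, hV 1, hV 2]
  have hX : ‖(Q 0 2 - Q 0 1) - rX‖ ≤ 1 / 1000 := by
    rw [← rX_eq]
    have e1 : (Q 0 2 - Q 0 1) - (gunP 2 - gunP 1) = (Q 0 2 - gunP 2) - (Q 0 1 - gunP 1) := by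
      module
    rw [e1]
    have h1 := norm_sub_le (Q 0 2 - gunP 2) (Q 0 1 - gunP 1)
    linarith [hQ 1, hQ 2]
  have hW : ‖(V 0 2 - V 0 1) - rW‖ ≤ 1 / 25 := by
    rw [← rW_eq]
    have e1 : (V 0 2 - V 0 1) - (gunW 2 - gunW 1) = (V 0 2 - gunW 2) - (V 0 1 - gunW 1) := by
      module
    rw [e1]
    have h1 := norm_sub_le (V 0 2 - gunW 2) (V 0 1 - gunW 1)
    linarith [hV 1, hV 2]
  have hs := start_of_near hD hU hX hW
  have hηT' : η * (T - 0) ≤ 1 / 2000 := by rwa [sub_zero]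
  obtain ⟨a1, a2, a3, a4, a5, a6, a7⟩ :=
    flight h hf hη le_rfl norm_dirE.le hηT' hs t ht
  obtain ⟨c1, c2⟩ := com_bound h hf hη ht
  rw [sub_zero] at a5
  obtain ⟨d1, d2⟩ := outer_dist norm_dirE.le a2 (Q0 := Q t 0)
  have ht0 : 0 ≤ t := ht.1
  have hηt : η * t ≤ 1 / 2000 := (mul_le_mul_of_nonneg_left ht.2 hη).trans hηT
  -- the centre of mass at the beginning
  have g1 : ‖gunP 0 + gunP 1 + gunP 2‖ ≤ 1 / 10000 := by
    rw [gun_sum.1]
    refine (sq_le_sq₀ (norm_nonneg _) (by norm_num)).mp ?_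
    rw [norm_sq3]
    simp
    norm_num
  have g2 : ‖gunW 0 + gunW 1 + gunW 2‖ ≤ 1 / 10000 := by
    rw [gun_sum.2]
    refine (sq_le_sq₀ (norm_nonneg _) (by norm_num)).mp ?_
    rw [norm_sq3]
    simp
  have s1 : ‖Q 0 0 + Q 0 1 + Q 0 2‖ ≤ 1 / 500 := by
    have e1 : Q 0 0 + Q 0 1 + Q 0 2 = (Q 0 0 - gunP 0) + (Q 0 1 - gunP 1) + (Q 0 2 - gunP 2) +
      (gunP 0 + gunP 1 + gunP 2) := by module
    rw [e1]
    have h1 := norm_add_le ((Q 0 0 - gunP 0) + (Q 0 1 - gunP 1) + (Q 0 2 - gunP 2))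
      (gunP 0 + gunP 1 + gunP 2)
    have h2 := norm_add_le ((Q 0 0 - gunP 0) + (Q 0 1 - gunP 1)) (Q 0 2 - gunP 2)
    have h3 := norm_add_le (Q 0 0 - gunP 0) (Q 0 1 - gunP 1)
    linarith [hQ 0, hQ 1, hQ 2]
  have s2 : ‖V 0 0 + V 0 1 + V 0 2‖ ≤ 61 / 1000 := by
    have e1 : V 0 0 + V 0 1 + V 0 2 = (V 0 0 - gunW 0) + (V 0 1 - gunW 1) + (V 0 2 - gunW 2) +
      (gunW 0 + gunW 1 + gunW 2) := by module
    rw [e1]
    have h1 := norm_add_le ((V 0 0 - gunW 0) + (V 0 1 - gunW 1) + (V 0 2 - gunW 2))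
      (gunW 0 + gunW 1 + gunW 2)
    have h2 := norm_add_le ((V 0 0 - gunW 0) + (V 0 1 - gunW 1)) (V 0 2 - gunW 2)
    have h3 := norm_add_le (V 0 0 - gunW 0) (V 0 1 - gunW 1)
    linarith [hV 0, hV 1, hV 2]
  -- the centre of mass at the time t
  have s3 : ‖V t 0 + V t 1 + V t 2‖ ≤ 63 / 1000 := by
    have h1 := norm_add_le ((V t 0 + V t 1 + V t 2) - (V 0 0 + V 0 1 + V 0 2))
      (V 0 0 + V 0 1 + V 0 2)
    rw [sub_add_cancel] at h1
    linarith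
  have s4 : ‖Q t 0 + Q t 1 + Q t 2‖ ≤ 1 / 500 + (63 / 1000) * t := by
    have h1 := norm_add_le ((Q t 0 + Q t 1 + Q t 2) - (Q 0 0 + Q 0 1 + Q 0 2))
      (Q 0 0 + Q 0 1 + Q 0 2)
    rw [sub_add_cancel] at h1
    have h2 : (‖V 0 0 + V 0 1 + V 0 2‖ + 3 * η * T) * t ≤ (63 / 1000) * t := by
      apply mul_le_mul_of_nonneg_right _ ht0
      linarith
    linarith
  have hin : ∀ z : V3, |⟪z, dirE⟫| ≤ ‖z‖ := by
    intro z
    have h1 := abs_real_inner_le_norm z dirE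
    rwa [norm_dirE, mul_one] at h1
  -- decompositions
  set y := Q t 0 - (1 / 2 : ℝ) • (Q t 1 + Q t 2) with hy
  set u := V t 0 - (1 / 2 : ℝ) • (V t 1 + V t 2) with hu
  have q0 : Q t 0 = (1 / 3 : ℝ) • (Q t 0 + Q t 1 + Q t 2) + (2 / 3 : ℝ) • y := by
    rw [hy]; module
  have q1 : Q t 1 = (1 / 3 : ℝ) • (Q t 0 + Q t 1 + Q t 2) - (1 / 3 : ℝ) • y -
    (1 / 2 : ℝ) • (Q t 2 - Q t 1) := by rw [hy]; module
  have q2 : Q t 2 = (1 / 3 : ℝ) • (Q t 0 + Q t 1 + Q t 2) - (1 / 3 : ℝ) • y +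
    (1 / 2 : ℝ) • (Q t 2 - Q t 1) := by rw [hy]; module
  have v0 : V t 0 = (1 / 3 : ℝ) • (V t 0 + V t 1 + V t 2) + (2 / 3 : ℝ) • u := by
    rw [hu]; module
  have v1 : V t 1 = (1 / 3 : ℝ) • (V t 0 + V t 1 + V t 2) - (1 / 3 : ℝ) • u -
    (1 / 2 : ℝ) • (V t 2 - V t 1) := by rw [hu]; module
  have v2 : V t 2 = (1 / 3 : ℝ) • (V t 0 + V t 1 + V t 2) - (1 / 3 : ℝ) • u +
    (1 / 2 : ℝ) • (V t 2 - V t 1) := by rw [hu]; module
  have hsm : ∀ (c : ℝ) (z : V3), 0 ≤ c → ‖c • z‖ = c * ‖z‖ := by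
    intro c z hc
    rw [norm_smul, Real.norm_of_nonneg hc]
  refine ⟨?_, ?_, ?_, ?_, ?_, ?_, ?_⟩
  · -- separation
    have hb : 1 / 80 ≤ ‖Q t 0 - Q t 1‖ := by linarith
    have hc : 1 / 80 ≤ ‖Q t 0 - Q t 2‖ := by linarith
    intro k l hkl
    fin_cases k <;> fin_cases l
    · exact absurd rfl hkl
    · exact hb
    · exact hc
    · show 1 / 80 ≤ ‖Q t 1 - Q t 0‖
      rw [norm_sub_rev]; exact hb
    · exact absurd rfl hkl
    · show 1 / 80 ≤ ‖Q t 1 - Q t 2‖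
      rw [norm_sub_rev]; exact a1
    · show 1 / 80 ≤ ‖Q t 2 - Q t 0‖
      rw [norm_sub_rev]; exact hc
    · exact a1
    · exact absurd rfl hkl
  · -- velocities
    have n0 : ‖V t 0‖ ≤ 30 := by
      rw [v0]
      refine (norm_add_le _ _).trans ?_
      rw [hsm _ _ (by norm_num), hsm _ _ (by norm_num)]
      linarith
    have n1 : ‖V t 1‖ ≤ 30 := by
      rw [v1]
      refine (norm_sub_le _ _).trans ?_
      refine (add_le_add_left (norm_sub_le _ _) _).trans ?_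
      rw [hsm _ _ (by norm_num), hsm _ _ (by norm_num), hsm _ _ (by norm_num)]
      linarith
    have n2 : ‖V t 2‖ ≤ 30 := by
      rw [v2]
      refine (norm_add_le _ _).trans ?_
      refine (add_le_add_left (norm_sub_le _ _) _).trans ?_
      rw [hsm _ _ (by norm_num), hsm _ _ (by norm_num), hsm _ _ (by norm_num)]
      linarith
    intro k
    fin_cases k
    · exact n0
    · exact n1
    · exact n2
  · rw [norm_sub_rev]
    linarith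
  · -- the outer body is far away
    have hb : (1 + t) / 30 ≤ ‖Q t 0 - Q t 1‖ := by linarith
    have hc : (1 + t) / 30 ≤ ‖Q t 0 - Q t 2‖ := by linarith
    intro k hk
    fin_cases k
    · exact absurd rfl hk
    · exact hb
    · exact hc
  · -- position of the outer body
    rw [q0, inner_add_left, real_inner_smul_left, real_inner_smul_left]
    have h1 := (abs_le.mp (hin (Q t 0 + Q t 1 + Q t 2))).1
    linarith
  · -- velocity of the outer body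
    rw [v0, inner_add_left, real_inner_smul_left, real_inner_smul_left]
    have h1 := (abs_le.mp (hin (V t 0 + V t 1 + V t 2))).1
    linarith
  · -- the pair stays behind
    have h1 := (abs_le.mp (hin (Q t 0 + Q t 1 + Q t 2))).2
    have h2 := abs_le.mp (hin (Q t 2 - Q t 1))
    have hb : ⟪Q t 1, dirE⟫ ≤ 30 := by
      rw [q1, inner_sub_left, inner_sub_left, real_inner_smul_left, real_inner_smul_left,
        real_inner_smul_left]
      linarith [h2.1]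
    have hc : ⟪Q t 2, dirE⟫ ≤ 30 := by
      rw [q2, inner_add_left, inner_sub_left, real_inner_smul_left, real_inner_smul_left,
        real_inner_smul_left]
      linarith [h2.2]
    intro k hk
    fin_cases k
    · exact absurd rfl hk
    · exact hb
    · exact hc

end Final

end Flt

/-- A2: the flight of the pair and the outer body after the time of the handover. -/
theorem gun_flight : ∃ (e : V3) (μ₁ C₁ : ℝ), 0 < μ₁ ∧ 0 < C₁ ∧ ‖e‖ = 1 ∧ e 2 = 0 ∧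
    GunFlight e μ₁ C₁ :=
  ⟨Flt.dirE, 1 / 80, 30, by norm_num, by norm_num, Flt.norm_dirE, by simp [Flt.dirE],
    Flt.gun_flight_dirE⟩

end Pool.Agent.NBody
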