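import Mathlib
import Pool.Agent.NBody.ThFlight

/-!
The absorber: a tight and nearly radial pair under a small perturbation stays tight and does not
collide.
-/

set_option autoImplicit false
open scoped RealInnerProductSpace
open Set Filter Topology

namespace Pool.Agent.NBody
namespace Absorb

open Flt (first_failure mono_of_deriv norm_sub_le_of_deriv lam lam_nonneg lam_le lam_vec)

variable {V : Type*} [NormedAddCommGroup V] [InnerProductSpace ℝ V]

/-- the energy of the pair -/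
noncomputable def en (M : ℝ) (x w : V) : ℝ := ‖w‖ ^ 2 / 2 - M / ‖x‖

/-- derivative of the energy -/
theorem hasDerivAt_en {M : ℝ} {x w P : ℝ → V} {t : ℝ} (hx : HasDerivAt x (w t) t)
    (hw : HasDerivAt w (P t - (M / ‖x t‖ ^ 3) • x t) t) (hne : x t ≠ 0) :
    HasDerivAt (fun s => en M (x s) (w s)) ⟪w t, P t⟫ t := by
  have hn : 0 < ‖x t‖ := norm_pos_iff.mpr hne
  have h1 := hw.norm_sq
  have h2 := hx.norm_sq.sqrt (by positivity)
  have h3 : (fun s => Real.sqrt (‖x s‖ ^ 2)) = fun s => ‖x s‖ := by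
    funext s
    exact Real.sqrt_sq (norm_nonneg _)
  rw [h3, Real.sqrt_sq hn.le] at h2
  have h4 := h2.inv hn.ne'
  have h5 := (h1.div_const 2).sub (h4.const_mul M)
  have h6 : (fun s => en M (x s) (w s)) = fun s => ‖w s‖ ^ 2 / 2 - M * (‖x s‖)⁻¹ := by
    funext s
    unfold en
    rw [div_eq_mul_inv M]
  rw [h6]
  refine HasDerivAt.congr_deriv h5 ?_
  rw [inner_sub_right, real_inner_smul_right, real_inner_comm (x t) (w t)]
  field_simp
  ring

/-- derivative of the angular momentum -/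
theorem hasDerivAt_lam {M : ℝ} {x w P : ℝ → V} {t : ℝ} (hx : HasDerivAt x (w t) t)
    (hw : HasDerivAt w (P t - (M / ‖x t‖ ^ 3) • x t) t) (hne : x t ≠ 0) :
    HasDerivAt (fun s => lam (x s) (w s))
      (2 * ⟪(‖x t‖ ^ 2) • w t - ⟪x t, w t⟫ • x t, P t⟫) t := by
  have hn : 0 < ‖x t‖ := norm_pos_iff.mpr hne
  have h1 := hx.norm_sq
  have h2 := hw.norm_sq
  have h3 := hx.inner ℝ hw
  have h4 := (h1.mul h2).sub (h3.pow 2)
  have h6 : (fun s => lam (x s) (w s)) = fun s => ‖x s‖ ^ 2 * ‖w s‖ ^ 2 - ⟪x s, w s⟫ ^ 2 := rfl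
  rw [h6]
  refine HasDerivAt.congr_deriv h4 ?_
  rw [inner_sub_right, inner_sub_right, inner_sub_left, real_inner_smul_right,
    real_inner_smul_right, real_inner_smul_left, real_inner_smul_left,
    real_inner_comm (x t) (w t), real_inner_self_eq_norm_sq, real_inner_self_eq_norm_sq]
  field_simp
  ring

/-- Pointwise consequences of a negative energy and an angular momentum. -/
theorem pair_bounds {M r ℓ : ℝ} {x w : V} (hM : 0 < M) (hr : 0 < r) (hℓ : 0 < ℓ) (hx : x ≠ 0)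
    {κ : ℝ} (hκ : 0 < κ) (h : en M x w ≤ -(κ * (M / r))) (hl : ℓ ^ 2 ≤ lam x w) :
    ‖x‖ ≤ r / κ ∧ ℓ ^ 2 / (2 * M) ≤ ‖x‖ ∧ ‖w‖ ≤ 2 * M / ℓ := by
  unfold en at h
  have hn : 0 < ‖x‖ := norm_pos_iff.mpr hx
  set n := ‖x‖ with hnd
  set o := ‖w‖ with hod
  have ho : 0 ≤ o := norm_nonneg _
  have hκM : 0 < κ * (M / r) := by positivity
  have h1 : κ * (M / r) ≤ M / n := by nlinarith [sq_nonneg o]
  have hl2 : lam x w ≤ n ^ 2 * o ^ 2 := lam_le x w
  have h2 : o ^ 2 ≤ 2 * (M / n) := by nlinarith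
  have h3 : n ^ 2 * o ^ 2 ≤ 2 * M * n := by
    calc n ^ 2 * o ^ 2 ≤ n ^ 2 * (2 * (M / n)) := mul_le_mul_of_nonneg_left h2 (by positivity)
      _ = 2 * M * n := by field_simp
  have h4 : ℓ ^ 2 ≤ 2 * M * n := by linarith
  refine ⟨?_, ?_, ?_⟩
  · rw [le_div_iff₀ hκ]
    rw [le_div_iff₀ hn] at h1
    have h5 : κ * (M / r) * n = (κ * n) * M / r := by ring
    rw [h5, div_le_iff₀ hr] at h1
    have h6 : M * (n * κ) ≤ M * r := by nlinarith
    exact le_of_mul_le_mul_left h6 hM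
  · rw [div_le_iff₀ (by positivity)]
    linarith
  · rw [le_div_iff₀ hℓ]
    have h7 : (o * ℓ) ^ 2 ≤ (2 * M) ^ 2 := by
      calc (o * ℓ) ^ 2 = o ^ 2 * ℓ ^ 2 := by ring
        _ ≤ (2 * (M / n)) * (2 * M * n) := mul_le_mul h2 h4 (by positivity) (by positivity)
        _ = (2 * M) ^ 2 := by field_simp
    exact abs_le_of_sq_le_sq' h7 (by positivity) |>.2

/-- The relative motion of the absorber. -/
theorem absorb_rel {M r ℓ A T : ℝ} (hM : 0 < M) (hr : 0 < r) (hℓ : 0 < ℓ) (hA : 0 ≤ A)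
    {x w P : ℝ → V}
    (cx : ContinuousOn x (Icc 0 T)) (cw : ContinuousOn w (Icc 0 T))
    (dx : ∀ t ∈ Ioo 0 T, HasDerivAt x (w t) t)
    (dw : ∀ t ∈ Ioo 0 T, HasDerivAt w (P t - (M / ‖x t‖ ^ 3) • x t) t)
    (hne : ∀ t ∈ Icc 0 T, x t ≠ 0) (hP : ∀ t ∈ Icc 0 T, ‖P t‖ ≤ 2 * A)
    (h0 : ‖x 0‖ = r) (hv0 : ‖w 0‖ ^ 2 ≤ M / (2 * r)) (hL : ℓ ^ 2 ≤ lam (x 0) (w 0))
    (hc : 64 * (r * A * T) ≤ ℓ) :
    ∀ t ∈ Icc 0 T, en M (x t) (w t) ≤ -(5 / 8 * (M / r)) ∧ (3 / 4 * ℓ) ^ 2 ≤ lam (x t) (w t) := by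
  have hMr : 0 < M / r := by positivity
  have hen0 : en M (x 0) (w 0) ≤ -(3 / 4 * (M / r)) := by
    unfold en
    rw [h0]
    have : M / (2 * r) = (1 / 2) * (M / r) := by field_simp
    rw [this] at hv0
    linarith
  have hrA : r * A * T ≤ ℓ / 64 := by linarith
  have cen : ContinuousOn (fun s => en M (x s) (w s)) (Icc 0 T) := by
    unfold en
    apply ContinuousOn.sub
    · exact (cw.norm.pow 2).div_const 2
    · exact continuousOn_const.div cx.norm (fun t ht => norm_ne_zero_iff.mpr (hne t ht))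
  have clam : ContinuousOn (fun s => lam (x s) (w s)) (Icc 0 T) := by
    unfold lam
    apply ContinuousOn.sub
    · exact (cx.norm.pow 2).mul (cw.norm.pow 2)
    · exact (cx.inner cw).pow 2
  -- estimates as long as the weak condition holds
  have est : ∀ t ∈ Icc 0 T, (∀ s ∈ Ioo 0 t, en M (x s) (w s) < -(1 / 2 * (M / r)) ∧
      (1 / 2 * ℓ) ^ 2 < lam (x s) (w s)) →
      en M (x t) (w t) ≤ -(5 / 8 * (M / r)) ∧ (3 / 4 * ℓ) ^ 2 ≤ lam (x t) (w t) := by
    intro t ht hg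
    have hsub : Icc 0 t ⊆ Icc 0 T := Icc_subset_Icc le_rfl ht.2
    have hpt : ∀ s ∈ Ioo 0 t, ‖x s‖ ≤ 2 * r ∧ ‖w s‖ ≤ 4 * M / ℓ := by
      intro s hs
      obtain ⟨g1, g2⟩ := hg s hs
      have hsT : s ∈ Icc 0 T := ⟨hs.1.le, hs.2.le.trans ht.2⟩
      obtain ⟨b1, b2, b3⟩ := pair_bounds hM hr (by positivity : 0 < 1 / 2 * ℓ) (hne s hsT)
        (by norm_num : (0:ℝ) < 1 / 2) g1.le g2.le
      refine ⟨by linarith, ?_⟩
      have : 2 * M / (1 / 2 * ℓ) = 4 * M / ℓ := by field_simp; ring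
      rwa [this] at b3
    constructor
    · -- energy
      have h1 := mono_of_deriv (φ := fun s => (8 * M * A / ℓ) * s - en M (x s) (w s))
        (φ' := fun s => 8 * M * A / ℓ - ⟪w s, P s⟫) ht.1
        (by
          apply ContinuousOn.sub
          · fun_prop
          · exact cen.mono hsub)
        (by
          intro s hs
          have hsT : s ∈ Ioo 0 T := ⟨hs.1, hs.2.trans_le ht.2⟩
          have e1 := (hasDerivAt_id s).const_mul (8 * M * A / ℓ)
          have e2 := hasDerivAt_en (dx s hsT) (dw s hsT) (hne s (Ioo_subset_Icc_self hsT))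
          refine HasDerivAt.congr_deriv (e1.sub e2) ?_
          ring)
        (by
          intro s hs
          have hsT : s ∈ Icc 0 T := ⟨hs.1.le, hs.2.le.trans ht.2⟩
          obtain ⟨b1, b2⟩ := hpt s hs
          have e1 : ⟪w s, P s⟫ ≤ ‖w s‖ * ‖P s‖ := real_inner_le_norm _ _
          have e2 : ‖w s‖ * ‖P s‖ ≤ (4 * M / ℓ) * (2 * A) :=
            mul_le_mul b2 (hP s hsT) (norm_nonneg _) (by positivity)
          have e3 : (4 * M / ℓ) * (2 * A) = 8 * M * A / ℓ := by ring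
          linarith)
      have h2 : (8 * M * A / ℓ) * t ≤ 1 / 8 * (M / r) := by
        have e1 : (8 * M * A / ℓ) * t ≤ (8 * M * A / ℓ) * T :=
          mul_le_mul_of_nonneg_left ht.2 (by positivity)
        have e2 : (8 * M * A / ℓ) * T = (8 * M / (r * ℓ)) * (r * A * T) := by field_simp
        have e3 : (8 * M / (r * ℓ)) * (r * A * T) ≤ (8 * M / (r * ℓ)) * (ℓ / 64) :=
          mul_le_mul_of_nonneg_left hrA (by positivity)
        have e4 : (8 * M / (r * ℓ)) * (ℓ / 64) = 1 / 8 * (M / r) := by field_simp; ring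
        linarith
      simp only [mul_zero, zero_sub] at h1
      linarith
    · -- angular momentum
      have hpos : ∀ s ∈ Icc 0 t, 0 < lam (x s) (w s) := by
        intro s hs
        rcases hs.1.eq_or_lt with h | h
        · rw [← h]
          exact lt_of_lt_of_le (by positivity) hL
        · rcases hs.2.eq_or_lt with h' | h'
          · -- the endpoint: by continuity
            have hne' : (𝓝[Ioo 0 t] t).NeBot := by
              rw [← mem_closure_iff_nhdsWithin_neBot, closure_Ioo (h.trans_le hs.2).ne]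
              exact ⟨ht.1, le_rfl⟩
            have htend : Tendsto (fun s => lam (x s) (w s)) (𝓝[Ioo 0 t] t)
                (𝓝 (lam (x t) (w t))) :=
              (clam t ht).mono (fun s hs' => ⟨hs'.1.le, hs'.2.le.trans ht.2⟩)
            have : (1 / 2 * ℓ) ^ 2 ≤ lam (x t) (w t) := by
              apply isClosed_Ici.mem_of_tendsto htend
              filter_upwards [self_mem_nhdsWithin] with s' hs'
              exact (hg s' hs').2.le
            rw [h']
            exact lt_of_lt_of_le (by positivity) this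
          · exact lt_of_le_of_lt (by positivity) (hg s ⟨h, h'⟩).2
      have h1 := mono_of_deriv (φ := fun s => √(lam (x s) (w s)) + (4 * (r * A)) * s)
        (φ' := fun s => (2 * ⟪(‖x s‖ ^ 2) • w s - ⟪x s, w s⟫ • x s, P s⟫) /
          (2 * √(lam (x s) (w s))) + 4 * (r * A)) ht.1
        (by
          apply ContinuousOn.add
          · exact (clam.mono hsub).sqrt
          · fun_prop)
        (by
          intro s hs
          have hsT : s ∈ Ioo 0 T := ⟨hs.1, hs.2.trans_le ht.2⟩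
          have e1 := (hasDerivAt_id s).const_mul (4 * (r * A))
          have e2 := (hasDerivAt_lam (dx s hsT) (dw s hsT)
            (hne s (Ioo_subset_Icc_self hsT))).sqrt (hpos s (Ioo_subset_Icc_self hs)).ne'
          refine HasDerivAt.congr_deriv (e2.add e1) ?_
          ring)
        (by
          intro s hs
          have hsT : s ∈ Icc 0 T := ⟨hs.1.le, hs.2.le.trans ht.2⟩
          obtain ⟨b1, b2⟩ := hpt s hs
          have hl0 := hpos s (Ioo_subset_Icc_self hs)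
          set S := √(lam (x s) (w s)) with hS
          have hS0 : 0 < S := Real.sqrt_pos.mpr hl0
          set z := (‖x s‖ ^ 2) • w s - ⟪x s, w s⟫ • x s with hz
          have hzn : ‖z‖ = ‖x s‖ * S := by
            have e1 : ‖z‖ ^ 2 = (‖x s‖ * S) ^ 2 := by
              rw [hz, lam_vec, mul_pow, hS, Real.sq_sqrt hl0.le]
            have e2 : 0 ≤ ‖x s‖ * S := by positivity
            nlinarith [norm_nonneg z, sq_nonneg (‖z‖ - ‖x s‖ * S),
              abs_le_of_sq_le_sq' e1.le e2, abs_le_of_sq_le_sq' e1.ge (norm_nonneg z)]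
          have e1 : |⟪z, P s⟫| ≤ (‖x s‖ * S) * (2 * A) := by
            refine (abs_real_inner_le_norm _ _).trans ?_
            rw [hzn]
            exact mul_le_mul_of_nonneg_left (hP s hsT) (by positivity)
          have e2 : (‖x s‖ * S) * (2 * A) ≤ (2 * r * S) * (2 * A) := by
            apply mul_le_mul_of_nonneg_right _ (by positivity)
            exact mul_le_mul_of_nonneg_right b1 hS0.le
          have e3 : -(4 * (r * A)) ≤ (2 * ⟪z, P s⟫) / (2 * S) := by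
            rw [le_div_iff₀ (by positivity)]
            have := neg_abs_le ⟪z, P s⟫
            nlinarith
          linarith)
      have h2 : 4 * (r * A) * t ≤ ℓ / 16 := by
        have e1 : 4 * (r * A) * t ≤ 4 * (r * A) * T :=
          mul_le_mul_of_nonneg_left ht.2 (by positivity)
        nlinarith
      have h3 : ℓ ≤ √(lam (x 0) (w 0)) := Real.le_sqrt_of_sq_le hL
      simp only [mul_zero, add_zero] at h1
      have h4 : 3 / 4 * ℓ ≤ √(lam (x t) (w t)) := by linarith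
      calc (3 / 4 * ℓ) ^ 2 ≤ √(lam (x t) (w t)) ^ 2 := pow_le_pow_left₀ (by positivity) h4 2
        _ = lam (x t) (w t) := Real.sq_sqrt (hpos t ⟨ht.1, le_rfl⟩).le
  -- the bootstrap
  have hall := first_failure (a := 0) (b := T)
    (G := fun s => en M (x s) (w s) < -(1 / 2 * (M / r)) ∧ (1 / 2 * ℓ) ^ 2 < lam (x s) (w s))
    (by
      refine ⟨by linarith, ?_⟩
      nlinarith [sq_nonneg ℓ, mul_pos hℓ hℓ])
    (by
      intro t ht hG
      have htI : t ∈ Icc 0 T := ⟨ht.1, ht.2.le⟩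
      have e1 := (cen t htI).eventually (gt_mem_nhds hG.1)
      have e2 := (clam t htI).eventually (lt_mem_nhds hG.2)
      have e3 := e1.and e2
      rw [eventually_iff, Metric.mem_nhdsWithin_iff] at e3
      obtain ⟨δ, hδ, hball⟩ := e3
      refine ⟨δ, hδ, fun s hs hd => ?_⟩
      exact hball ⟨by rwa [Metric.mem_ball, Real.dist_eq], hs⟩)
    (by
      intro t ht hbefore
      obtain ⟨g1, g2⟩ := est t ⟨ht.1.le, ht.2⟩ (fun s hs => hbefore s ⟨hs.1.le, hs.2⟩)
      refine ⟨by linarith, ?_⟩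
      nlinarith [mul_pos hℓ hℓ])
  intro t ht
  exact est t ht (fun s hs => hall s ⟨hs.1.le, hs.2.le.trans ht.2⟩)

/-- a curve with small acceleration is close to a straight line -/
theorem near_line {A T : ℝ} {c u g : ℝ → V} (cc : ContinuousOn c (Icc 0 T))
    (cu : ContinuousOn u (Icc 0 T)) (dc : ∀ t ∈ Ioo 0 T, HasDerivAt c (u t) t)
    (du : ∀ t ∈ Ioo 0 T, HasDerivAt u (g t) t) (hg : ∀ t ∈ Ioo 0 T, ‖g t‖ ≤ A) :
    ∀ t ∈ Icc 0 T, ‖u t - u 0‖ ≤ A * t ∧ ‖c t - (c 0 + t • u 0)‖ ≤ A * t ^ 2 / 2 := by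
  have hu : ∀ t ∈ Icc 0 T, ‖u t - u 0‖ ≤ A * t := by
    intro t ht
    have hsub : Icc 0 t ⊆ Icc 0 T := Icc_subset_Icc le_rfl ht.2
    have h1 := norm_sub_le_of_deriv (f := u) (f' := g) (B := fun s => A * s) (B' := fun _ => A)
      ht.1 (cu.mono hsub) (by fun_prop)
      (fun s hs => du s ⟨hs.1, hs.2.trans_le ht.2⟩)
      (by
        intro s hs
        refine HasDerivAt.congr_deriv ((hasDerivAt_id s).const_mul A) ?_
        ring)
      (fun s hs => hg s ⟨hs.1, hs.2.trans_le ht.2⟩)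
    simpa using h1
  intro t ht
  refine ⟨hu t ht, ?_⟩
  have hsub : Icc 0 t ⊆ Icc 0 T := Icc_subset_Icc le_rfl ht.2
  have h1 := norm_sub_le_of_deriv (f := fun s => c s - s • u 0) (f' := fun s => u s - u 0)
    (B := fun s => A * s ^ 2 / 2) (B' := fun s => A * s)
    ht.1 ((cc.mono hsub).sub (by fun_prop)) (by fun_prop)
    (by
      intro s hs
      have e1 := dc s ⟨hs.1, hs.2.trans_le ht.2⟩
      have e2 := (hasDerivAt_id s).smul_const (u 0)
      refine HasDerivAt.congr_deriv (e1.sub e2) ?_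
      rw [one_smul])
    (by
      intro s hs
      refine HasDerivAt.congr_deriv ((((hasDerivAt_id s).pow 2).const_mul A).div_const 2) ?_
      simp only [id_eq, Nat.cast_ofNat]
      ring)
    (fun s hs => hu s ⟨hs.1.le, hs.2.le.trans ht.2⟩)
  have h2 : (c t - t • u 0) - (c 0 - (0:ℝ) • u 0) = c t - (c 0 + t • u 0) := by
    rw [zero_smul]
    abel
  rw [h2] at h1
  simpa using h1

end Absorb

/-- M7, the absorber: a tight and nearly radial pair under a small perturbation stays tight,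
follows its centre of mass and does not collide. -/
theorem absorber {ma mb r ℓ A T : ℝ} (hma : 0 < ma) (hmb : 0 < mb) (hr : 0 < r) (hℓ : 0 < ℓ)
    (hA : 0 ≤ A) {qa qb va vb ga gb : ℝ → V3}
    (dqa : ∀ t ∈ Icc 0 T, HasDerivWithinAt qa (va t) (Icc 0 T) t)
    (dqb : ∀ t ∈ Icc 0 T, HasDerivWithinAt qb (vb t) (Icc 0 T) t)
    (dva : ∀ t ∈ Icc 0 T, HasDerivWithinAt va
      ((mb / ‖qb t - qa t‖ ^ 3) • (qb t - qa t) + ga t) (Icc 0 T) t)
    (dvb : ∀ t ∈ Icc 0 T, HasDerivWithinAt vb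
      ((ma / ‖qa t - qb t‖ ^ 3) • (qa t - qb t) + gb t) (Icc 0 T) t)
    (hne : ∀ t ∈ Icc 0 T, qa t ≠ qb t)
    (hga : ∀ t ∈ Icc 0 T, ‖ga t‖ ≤ A) (hgb : ∀ t ∈ Icc 0 T, ‖gb t‖ ≤ A)
    (h0 : ‖qa 0 - qb 0‖ = r) (hv0 : ‖va 0 - vb 0‖ ^ 2 ≤ (ma + mb) / (2 * r))
    (hL : ℓ ^ 2 ≤ ‖qa 0 - qb 0‖ ^ 2 * ‖va 0 - vb 0‖ ^ 2 - ⟪qa 0 - qb 0, va 0 - vb 0⟫ ^ 2)
    (hc : 64 * (r * A * T) ≤ ℓ) :
    ∀ t ∈ Icc 0 T,
      ‖qa t - qb t‖ ≤ 8 / 5 * r ∧ ℓ ^ 2 / (4 * (ma + mb)) ≤ ‖qa t - qb t‖ ∧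
      ‖va t - vb t‖ ≤ 8 * (ma + mb) / (3 * ℓ) ∧
      ‖qa t - ((ma + mb)⁻¹ • (ma • qa 0 + mb • qb 0) +
        t • ((ma + mb)⁻¹ • (ma • va 0 + mb • vb 0)))‖ ≤ 8 / 5 * r + A * t ^ 2 / 2 ∧
      ‖qb t - ((ma + mb)⁻¹ • (ma • qa 0 + mb • qb 0) +
        t • ((ma + mb)⁻¹ • (ma • va 0 + mb • vb 0)))‖ ≤ 8 / 5 * r + A * t ^ 2 / 2 ∧
      ‖va t - (ma + mb)⁻¹ • (ma • va 0 + mb • vb 0)‖ ≤ 8 * (ma + mb) / (3 * ℓ) + A * t ∧
      ‖vb t - (ma + mb)⁻¹ • (ma • va 0 + mb • vb 0)‖ ≤ 8 * (ma + mb) / (3 * ℓ) + A * t := by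
  have hM : 0 < ma + mb := by linarith
  have hMne : ma + mb ≠ 0 := hM.ne'
  have cqa : ContinuousOn qa (Icc 0 T) := fun t ht => (dqa t ht).continuousWithinAt
  have cqb : ContinuousOn qb (Icc 0 T) := fun t ht => (dqb t ht).continuousWithinAt
  have cva : ContinuousOn va (Icc 0 T) := fun t ht => (dva t ht).continuousWithinAt
  have cvb : ContinuousOn vb (Icc 0 T) := fun t ht => (dvb t ht).continuousWithinAt
  have Dqa : ∀ t ∈ Ioo 0 T, HasDerivAt qa (va t) t := fun t ht =>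
    (dqa t (Ioo_subset_Icc_self ht)).hasDerivAt (Icc_mem_nhds ht.1 ht.2)
  have Dqb : ∀ t ∈ Ioo 0 T, HasDerivAt qb (vb t) t := fun t ht =>
    (dqb t (Ioo_subset_Icc_self ht)).hasDerivAt (Icc_mem_nhds ht.1 ht.2)
  have Dva : ∀ t ∈ Ioo 0 T, HasDerivAt va
      ((mb / ‖qb t - qa t‖ ^ 3) • (qb t - qa t) + ga t) t := fun t ht =>
    (dva t (Ioo_subset_Icc_self ht)).hasDerivAt (Icc_mem_nhds ht.1 ht.2)
  have Dvb : ∀ t ∈ Ioo 0 T, HasDerivAt vb
      ((ma / ‖qa t - qb t‖ ^ 3) • (qa t - qb t) + gb t) t := fun t ht =>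
    (dvb t (Ioo_subset_Icc_self ht)).hasDerivAt (Icc_mem_nhds ht.1 ht.2)
  have key := Absorb.absorb_rel (x := fun t => qa t - qb t) (w := fun t => va t - vb t)
    (P := fun t => ga t - gb t) hM hr hℓ hA (cqa.sub cqb) (cva.sub cvb)
    (fun t ht => (Dqa t ht).sub (Dqb t ht))
    (fun t ht => by
      refine HasDerivAt.congr_deriv ((Dva t ht).sub (Dvb t ht)) ?_
      have e1 : ‖qb t - qa t‖ = ‖qa t - qb t‖ := norm_sub_rev _ _
      rw [e1]
      module)
    (fun t ht => sub_ne_zero.mpr (hne t ht))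
    (fun t ht => (norm_sub_le _ _).trans (by linarith [hga t ht, hgb t ht])) h0 hv0 hL hc
  have line := Absorb.near_line (A := A) (c := fun t => (ma + mb)⁻¹ • (ma • qa t + mb • qb t))
    (u := fun t => (ma + mb)⁻¹ • (ma • va t + mb • vb t))
    (g := fun t => (ma + mb)⁻¹ • (ma • ga t + mb • gb t))
    (((cqa.const_smul ma).add (cqb.const_smul mb)).const_smul (ma + mb)⁻¹)
    (((cva.const_smul ma).add (cvb.const_smul mb)).const_smul (ma + mb)⁻¹)
    (fun t ht => (((Dqa t ht).const_smul ma).add ((Dqb t ht).const_smul mb)).const_smul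
      (ma + mb)⁻¹)
    (fun t ht => by
      refine HasDerivAt.congr_deriv
        ((((Dva t ht).const_smul ma).add ((Dvb t ht).const_smul mb)).const_smul
          (ma + mb)⁻¹) ?_
      have e1 : ‖qb t - qa t‖ = ‖qa t - qb t‖ := norm_sub_rev _ _
      rw [e1]
      congr 1
      module)
    (fun t ht => by
      rw [norm_smul, Real.norm_of_nonneg (inv_nonneg.mpr hM.le), inv_mul_le_iff₀ hM]
      refine (norm_add_le _ _).trans ?_
      rw [norm_smul, norm_smul, Real.norm_of_nonneg hma.le, Real.norm_of_nonneg hmb.le]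
      have h1 := mul_le_mul_of_nonneg_left (hga t (Ioo_subset_Icc_self ht)) hma.le
      have h2 := mul_le_mul_of_nonneg_left (hgb t (Ioo_subset_Icc_self ht)) hmb.le
      linarith)
  intro t ht
  obtain ⟨k1, k2⟩ := key t ht
  obtain ⟨l1, l2⟩ := line t ht
  obtain ⟨b1, b2, b3⟩ := Absorb.pair_bounds hM hr (by positivity : 0 < 3 / 4 * ℓ)
    (sub_ne_zero.mpr (hne t ht)) (by norm_num : (0:ℝ) < 5 / 8) k1 k2
  have c1 : ‖qa t - qb t‖ ≤ 8 / 5 * r := by
    have : r / (5 / 8) = 8 / 5 * r := by ring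
    rwa [this] at b1
  have c3 : ‖va t - vb t‖ ≤ 8 * (ma + mb) / (3 * ℓ) := by
    have : 2 * (ma + mb) / (3 / 4 * ℓ) = 8 * (ma + mb) / (3 * ℓ) := by
      field_simp
      ring
    rwa [this] at b3
  have c2 : ℓ ^ 2 / (4 * (ma + mb)) ≤ ‖qa t - qb t‖ := by
    refine le_trans ?_ b2
    rw [div_le_div_iff₀ (by positivity) (by positivity)]
    have : 0 ≤ ℓ ^ 2 * (ma + mb) := by positivity
    nlinarith
  have wa : 0 ≤ (ma + mb)⁻¹ * mb ∧ (ma + mb)⁻¹ * mb ≤ 1 := by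
    constructor
    · positivity
    · rw [inv_mul_le_iff₀ hM]; linarith
  have wb : 0 ≤ (ma + mb)⁻¹ * ma ∧ (ma + mb)⁻¹ * ma ≤ 1 := by
    constructor
    · positivity
    · rw [inv_mul_le_iff₀ hM]; linarith
  have hone : (ma + mb)⁻¹ * ma + (ma + mb)⁻¹ * mb = 1 := by
    rw [← mul_add, inv_mul_cancel₀ hMne]
  have split_a : ∀ (pa pb z : V3), pa - z =
      ((ma + mb)⁻¹ * mb) • (pa - pb) + ((ma + mb)⁻¹ • (ma • pa + mb • pb) - z) := by
    intro pa pb z
    have : pa = ((ma + mb)⁻¹ * ma + (ma + mb)⁻¹ * mb) • pa := by rw [hone, one_smul]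
    conv_lhs => rw [this]
    module
  have split_b : ∀ (pa pb z : V3), pb - z =
      -(((ma + mb)⁻¹ * ma) • (pa - pb)) + ((ma + mb)⁻¹ • (ma • pa + mb • pb) - z) := by
    intro pa pb z
    have : pb = ((ma + mb)⁻¹ * ma + (ma + mb)⁻¹ * mb) • pb := by rw [hone, one_smul]
    conv_lhs => rw [this]
    module
  have bnd : ∀ (θ : ℝ) (z : V3) (B : ℝ), 0 ≤ θ → θ ≤ 1 → ‖z‖ ≤ B → ‖θ • z‖ ≤ B := by
    intro θ z B h1 h2 h3
    rw [norm_smul, Real.norm_of_nonneg h1]
    calc θ * ‖z‖ ≤ 1 * ‖z‖ := mul_le_mul_of_nonneg_right h2 (norm_nonneg _)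
      _ ≤ B := by linarith
  refine ⟨c1, c2, c3, ?_, ?_, ?_, ?_⟩
  · rw [split_a (qa t) (qb t)]
    exact (norm_add_le _ _).trans (add_le_add (bnd _ _ _ wa.1 wa.2 c1) l2)
  · rw [split_b (qa t) (qb t)]
    refine (norm_add_le _ _).trans (add_le_add ?_ l2)
    rw [norm_neg]
    exact bnd _ _ _ wb.1 wb.2 c1
  · rw [split_a (va t) (vb t)]
    exact (norm_add_le _ _).trans (add_le_add (bnd _ _ _ wa.1 wa.2 c3) l1)
  · rw [split_b (va t) (vb t)]
    refine (norm_add_le _ _).trans (add_le_add ?_ l1)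
    rw [norm_neg]
    exact bnd _ _ _ wb.1 wb.2 c3

end Pool.Agent.NBody
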