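import Mathlib
import Pool.Agent.NBody.ThBoot1

/-!
The gun inside an `N`-body solution: scaling to the perturbed three-body problem.
-/

set_option autoImplicit false
open scoped RealInnerProductSpace
open Set Finset Filter Topology

namespace Pool.Agent.NBody

theorem scaled_term {n r : ℝ} (hn : 0 < n) (hr : 0 < r) (x : V3) :
    (n * r ^ 2) • ((1 / n / ‖x‖ ^ 3) • x) = (1 / ‖r⁻¹ • x‖ ^ 3) • (r⁻¹ • x) := by
  rw [norm_smul, norm_inv, Real.norm_of_nonneg hr.le, smul_smul, smul_smul]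
  congr 1
  rcases eq_or_ne ‖x‖ 0 with h | h
  · rw [h]
    simp
  · field_simp

/-- The three bodies of the gun in scaled variables. -/
theorem gun_scaled {N : ℕ} {T r ts : ℝ} (hN : 0 < (N : ℝ)) (hr : 0 < r) (hts : 0 < ts)
    (hts2 : ts ^ 2 = N * r ^ 3) {g : Fin 3 → Fin N} (hinj : Function.Injective g) (z w : V3)
    {q v : ℝ → Fin N → V3} (hsol : IsSol (1 / (N : ℝ)) T (fun _ _ => 0) q v) :
    IsSol 1 (T / ts)
      (fun θ k => ((N : ℝ) * r ^ 2) •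
        accOn (1 / (N : ℝ)) (Finset.univ.image g)ᶜ (q (ts * θ)) (g k))
      (fun θ k => r⁻¹ • (q (ts * θ) (g k) - z - (ts * θ) • w))
      (fun θ k => (ts / r) • (v (ts * θ) (g k) - w)) := by
  have hmaps : Set.MapsTo (fun θ : ℝ => ts * θ) (Set.Icc 0 (T / ts)) (Set.Icc 0 T) := by
    intro θ hθ
    refine ⟨mul_nonneg hts.le hθ.1, ?_⟩
    have := hθ.2
    rw [le_div_iff₀ hts] at this
    linarith
  have hlin : ∀ θ : ℝ, HasDerivWithinAt (fun θ : ℝ => ts * θ) ts (Set.Icc 0 (T / ts)) θ := by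
    intro θ
    have := (hasDerivAt_id θ).const_mul ts
    simp only [id, mul_one] at this
    exact this.hasDerivWithinAt
  refine ⟨?_, ?_, ?_⟩
  · intro θ hθ k
    have h1 := (hsol.dq (ts * θ) (hmaps hθ) (g k)).scomp θ (hlin θ) hmaps
    have h2 : HasDerivWithinAt (fun θ : ℝ => (ts * θ) • w) (ts • w) (Set.Icc 0 (T / ts)) θ :=
      (hlin θ).smul_const w
    have h3 := ((h1.sub_const z).sub h2).const_smul r⁻¹
    refine h3.congr_deriv ?_
    rw [← smul_sub, smul_smul]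
    congr 1
    rw [div_eq_mul_inv, mul_comm]
  · intro θ hθ k
    have h1 := (hsol.dv (ts * θ) (hmaps hθ) (g k)).scomp θ (hlin θ) hmaps
    have h3 := (h1.sub_const w).const_smul (ts / r)
    refine h3.congr_deriv ?_
    rw [add_zero, smul_smul]
    have h4 : ts / r * ts = N * r ^ 2 := by
      have : ts / r * ts = ts ^ 2 / r := by ring
      rw [this, hts2]
      field_simp
    rw [h4, acc_eq (1 / (N : ℝ)) (Finset.univ.image g) (q (ts * θ)) (g k), smul_add]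
    congr 1
    unfold accOn acc
    rw [Finset.sum_image (fun a _ b _ hab => hinj hab), Finset.smul_sum]
    apply Finset.sum_congr rfl
    intro l _
    rw [scaled_term hN hr]
    have h5 : r⁻¹ • (q (ts * θ) (g l) - q (ts * θ) (g k)) =
        r⁻¹ • (q (ts * θ) (g l) - z - (ts * θ) • w) -
        r⁻¹ • (q (ts * θ) (g k) - z - (ts * θ) • w) := by
      rw [← smul_sub]
      congr 1
      abel
    rw [h5]
  · intro θ hθ k l hkl h
    have h1 := hsol.nc (ts * θ) (hmaps hθ) (g k) (g l) (fun hh => hkl (hinj hh))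
    apply h1
    have h2 := smul_right_injective V3 (inv_ne_zero hr.ne') h
    have h3 : q (ts * θ) (g k) - z - (ts * θ) • w + ((ts * θ) • w + z) =
        q (ts * θ) (g l) - z - (ts * θ) • w + ((ts * θ) • w + z) := by
      exact congrArg (fun y => y + ((ts * θ) • w + z)) h2
    have h4 : ∀ y : V3, y - z - (ts * θ) • w + ((ts * θ) • w + z) = y := by
      intro y
      abel
    rwa [h4, h4] at h3

/-- The property of the gun for one pair `(ε, η₀)`. -/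
def GunAt (s : Fin 3 → V3) (e : V3) (μ₀ C₀ ε η₀ : ℝ) : Prop :=
  ∀ T : ℝ, 0 < T → ∀ η : ℝ, 0 ≤ η → η ≤ η₀ → η * T ≤ η₀ →
    ∀ f Q V : ℝ → Fin 3 → V3, IsSol 1 T f Q V → (∀ t ∈ Icc (0 : ℝ) T, ∀ k, ‖f t k‖ ≤ η) →
    (∀ k, Q 0 k = s k) → (∀ k, V 0 k = 0) →
    ∀ t ∈ Icc (0 : ℝ) T,
      (∀ k l, k ≠ l → μ₀ ≤ ‖Q t k - Q t l‖) ∧
      (∀ k, |Q t k 2| ≤ ε * (1 + t)) ∧
      (∀ k, ‖Q t k‖ ≤ C₀ * (1 + t)) ∧
      (∀ k, ‖V t k‖ ≤ C₀) ∧
      t / 2 - C₀ ≤ ⟪Q t 0, e⟫ ∧ (C₀ ≤ t → 1 / 2 ≤ ⟪V t 0, e⟫) ∧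
      (∀ k, k ≠ 0 → ⟪Q t k, e⟫ ≤ C₀)

theorem gunProp_iff {s : Fin 3 → V3} {e : V3} {μ₀ C₀ : ℝ} :
    GunProp s e μ₀ C₀ ↔ ∀ ε > 0, ∃ η₀ > 0, GunAt s e μ₀ C₀ ε η₀ := Iff.rfl

/-- The property of the gun in the original variables. -/
theorem gun_bounds {s : Fin 3 → V3} {e : V3} {μ₀ C₀ ε η₀ : ℝ} (hg : GunAt s e μ₀ C₀ ε η₀)
    {N : ℕ} {T r ts c : ℝ} (hN : 0 < (N : ℝ)) (hr : 0 < r) (hts : 0 < ts)
    (hts2 : ts ^ 2 = N * r ^ 3) (hT : 0 < T) (hc : 0 < c)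
    (hs1 : (N : ℝ) * r ^ 2 * (16 / c ^ 2) ≤ η₀)
    (hs2 : (N : ℝ) * r ^ 2 * (16 / c ^ 2) * (T / ts) ≤ η₀)
    {g : Fin 3 → Fin N} (hinj : Function.Injective g) (z w : V3) {q v : ℝ → Fin N → V3}
    (hsol : IsSol (1 / (N : ℝ)) T (fun _ _ => 0) q v)
    (hq0 : ∀ k, q 0 (g k) = z + r • s k) (hv0 : ∀ k, v 0 (g k) = w)
    (hext : ∀ t ∈ Set.Icc 0 T, ∀ k,
        ‖accOn (1 / (N : ℝ)) (Finset.univ.image g)ᶜ (q t) (g k)‖ ≤ 16 / c ^ 2) :
      ∀ t ∈ Set.Icc 0 T,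
        (∀ k l, k ≠ l → r * μ₀ ≤ ‖q t (g k) - q t (g l)‖) ∧
        (∀ k, |q t (g k) 2 - z 2 - t * w 2| ≤ r * (ε * (1 + t / ts))) ∧
        (∀ k, ‖q t (g k) - z - t • w‖ ≤ r * (C₀ * (1 + t / ts))) ∧
        (∀ k, ‖v t (g k) - w‖ ≤ r / ts * C₀) ∧
        r * (t / ts / 2 - C₀) ≤ ⟪q t (g 0) - z - t • w, e⟫ ∧
        (C₀ ≤ t / ts → r / ts * (1 / 2) ≤ ⟪v t (g 0) - w, e⟫) ∧
        (∀ k, k ≠ 0 → ⟪q t (g k) - z - t • w, e⟫ ≤ r * C₀) := by
  intro t ht
  have hη : 0 ≤ (N : ℝ) * r ^ 2 * (16 / c ^ 2) := by positivity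
  have hsc := gun_scaled hN hr hts hts2 hinj z w hsol
  have hmaps : Set.MapsTo (fun θ : ℝ => ts * θ) (Set.Icc 0 (T / ts)) (Set.Icc 0 T) := by
    intro θ hθ
    refine ⟨mul_nonneg hts.le hθ.1, ?_⟩
    have := hθ.2
    rw [le_div_iff₀ hts] at this
    linarith
  have hθ : t / ts ∈ Set.Icc 0 (T / ts) :=
    ⟨div_nonneg ht.1 hts.le, div_le_div_of_nonneg_right ht.2 hts.le⟩
  have key := hg (T / ts) (div_pos hT hts) ((N : ℝ) * r ^ 2 * (16 / c ^ 2)) hη hs1 hs2 _ _ _ hsc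
    (by
      intro θ hθ k
      rw [norm_smul, Real.norm_of_nonneg (by positivity)]
      exact mul_le_mul_of_nonneg_left (hext (ts * θ) (hmaps hθ) k) (by positivity))
    (by
      intro k
      simp only [mul_zero, zero_smul, sub_zero]
      rw [hq0 k, add_sub_cancel_left, smul_smul, inv_mul_cancel₀ hr.ne', one_smul])
    (by
      intro k
      simp only [mul_zero]
      rw [hv0 k, sub_self, smul_zero])
    (t / ts) hθ
  have htt : ts * (t / ts) = t := by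
    field_simp
  simp only [htt] at key
  obtain ⟨k1, k2, k3, k4, k5, k6, k7⟩ := key
  have hnz : ∀ y : V3, r • (r⁻¹ • y) = y := by
    intro y
    rw [smul_smul, mul_inv_cancel₀ hr.ne', one_smul]
  have hinn : ∀ y : V3, ⟪y, e⟫ = r * ⟪r⁻¹ • y, e⟫ := by
    intro y
    conv_lhs => rw [← hnz y]
    rw [real_inner_smul_left]
  have hnorm : ∀ y : V3, ‖y‖ = r * ‖r⁻¹ • y‖ := by
    intro y
    conv_lhs => rw [← hnz y]
    rw [norm_smul, Real.norm_of_nonneg hr.le]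
  have hnv : ∀ y : V3, (r / ts) • ((ts / r) • y) = y := by
    intro y
    rw [smul_smul]
    have : r / ts * (ts / r) = 1 := by
      field_simp
    rw [this, one_smul]
  refine ⟨?_, ?_, ?_, ?_, ?_, ?_, ?_⟩
  · intro k l hkl
    have h1 := k1 k l hkl
    have h2 : q t (g k) - q t (g l) = (q t (g k) - z - t • w) - (q t (g l) - z - t • w) := by
      abel
    rw [h2, hnorm, smul_sub]
    exact mul_le_mul_of_nonneg_left h1 hr.le
  · intro k
    have h1 := k2 k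
    have h2 : q t (g k) 2 - z 2 - t * w 2 = r * (r⁻¹ • (q t (g k) - z - t • w)) 2 := by
      simp only [PiLp.smul_apply, PiLp.sub_apply, smul_eq_mul]
      field_simp
    rw [h2, abs_mul, abs_of_pos hr]
    exact mul_le_mul_of_nonneg_left h1 hr.le
  · intro k
    rw [hnorm]
    exact mul_le_mul_of_nonneg_left (k3 k) hr.le
  · intro k
    rw [← hnv (v t (g k) - w), norm_smul, Real.norm_of_nonneg (by positivity)]
    exact mul_le_mul_of_nonneg_left (k4 k) (by positivity)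
  · rw [hinn]
    apply mul_le_mul_of_nonneg_left _ hr.le
    have h0 : 0 ≤ t / ts := hθ.1
    linarith
  · intro hC
    rw [← hnv (v t (g 0) - w), real_inner_smul_left]
    exact mul_le_mul_of_nonneg_left (k6 hC) (by positivity)
  · intro k hk
    rw [hinn]
    exact mul_le_mul_of_nonneg_left (k7 k hk) hr.le

end Pool.Agent.NBody
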