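import Mathlib
import Pool.Agent.NBody.ThBoot2

/-!
Bootstrap of a prepared state: the bounds on `[0, T]`, given the smallness conditions.
-/

set_option autoImplicit false
open scoped RealInnerProductSpace
open Set Finset Filter Topology

namespace Pool.Agent.NBody

/-- The bounds along a solution which starts at a prepared state; all conditions explicit. -/
theorem boot_core {s : Fin 3 → V3} {e : V3} {μ₀ C₀ ε η₀ : ℝ} (hs : GunShape s e)
    (hg : GunAt s e μ₀ C₀ ε η₀) (hε : 0 < ε) {N : ℕ} {R c σ r τ A T : ℝ} {g : Fin 3 → Fin N}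
    {z w : V3} {q v : ℝ → Fin N → V3} (hN : 1 ≤ (N : ℝ)) (hR : 0 < R) (hc : 0 < c)
    (hσ : 0 < σ) (hσ2 : σ ≤ 2) (hr : 0 < r)
    (hA : 3456 * (1 / (N : ℝ)) / σ ^ 3 + 1 + 48 * (1 / (N : ℝ)) / c ^ 2 ≤ A)
    (hs1 : (R + A * τ) * τ < σ / 4) (hs2 : (R + A * τ) * τ < c / 4)
    (hs3 : (R + A * τ) * τ ≤ 1) (hs4 : R * τ ≤ c / 8)
    (hεc : ε * (r + τ * (1 / √((N : ℝ) * r))) ≤ c / 8)
    (hη1 : (N : ℝ) * r ^ 2 * (16 / c ^ 2) ≤ η₀)
    (hη2 : 16 / c ^ 2 * (τ * √((N : ℝ) * r)) ≤ η₀)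
    (hT0 : 0 ≤ T) (hTτ : T ≤ τ) (hsol : IsSol (1 / (N : ℝ)) T (fun _ _ => 0) q v)
    (hp : Prep N R c σ r s g z w (q 0) (v 0)) :
      ∀ t ∈ Set.Icc 0 T,
        (∀ i ∉ Set.range g, ‖q t i - q 0 i‖ ≤ 1) ∧
        (∀ i ∉ Set.range g, ‖v t i - v 0 i‖ ≤ A * τ) ∧
        (∀ i ∉ Set.range g, ∀ j ∉ Set.range g, i ≠ j → σ / 2 ≤ ‖q t i - q t j‖) ∧
        (∀ i ∉ Set.range g, ∀ k, c / 4 ≤ ‖q t i - q t (g k)‖) ∧
        (0 < T →
          (∀ k l, k ≠ l → r * μ₀ ≤ ‖q t (g k) - q t (g l)‖) ∧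
          (∀ k, ‖q t (g k) - z - t • w‖ ≤ C₀ * (r + t * (1 / √((N : ℝ) * r)))) ∧
          (∀ k, ‖v t (g k) - w‖ ≤ 1 / √((N : ℝ) * r) * C₀) ∧
          t * (1 / √((N : ℝ) * r)) / 2 - r * C₀ ≤ ⟪q t (g 0) - z - t • w, e⟫ ∧
          (r * C₀ ≤ t * (1 / √((N : ℝ) * r)) →
            1 / √((N : ℝ) * r) / 2 ≤ ⟪v t (g 0) - w, e⟫) ∧
          (∀ k, k ≠ 0 → ⟪q t (g k) - z - t • w, e⟫ ≤ r * C₀)) := by
  classical
  set x : ℝ := (N : ℝ) with hx
  have hx0 : 0 < x := by linarith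
  have hτ0 : 0 ≤ τ := hT0.trans hTτ
  have hA1 : 1 ≤ A := by
    have h1 : 0 ≤ 3456 * (1 / x) / σ ^ 3 := by positivity
    have h2 : 0 ≤ 48 * (1 / x) / c ^ 2 := by positivity
    linarith
  set Y : ℝ := √(x * r) with hY
  have hY0 : 0 < Y := Real.sqrt_pos.mpr (by positivity)
  have hY2 : Y ^ 2 = x * r := Real.sq_sqrt (by positivity)
  set ts : ℝ := r * Y with hts
  have hts0 : 0 < ts := by positivity
  have hts2 : ts ^ 2 = x * r ^ 3 := by
    rw [hts, mul_pow, hY2]
    ring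
  set y : ℝ := 1 / Y with hy
  have hy0 : 0 < y := by positivity
  have hy2 : y ^ 2 * (x * r) = 1 := by
    rw [hy, div_pow, one_pow, hY2]
    field_simp
  have hrt : ∀ t : ℝ, r * (t / ts) = t * y := by
    intro t
    rw [hts, hy]
    field_simp
  have hrts : r / ts = y := by
    rw [hts, hy]
    field_simp
  have hz : ∀ k, q 0 (g k) = z + r • s k := hp.gq
  have hw : ‖w‖ ≤ R := by
    rw [← hp.gv 0]
    exact hp.bv _
  set G : Finset (Fin N) := Finset.univ.image g with hG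
  have hmem : ∀ i, i ∉ G → i ∉ Set.range g := by
    intro i hi h
    obtain ⟨k, hk⟩ := h
    exact hi (Finset.mem_image.mpr ⟨k, Finset.mem_univ _, hk⟩)
  have hmem' : ∀ i, i ∉ Set.range g → i ∉ G := by
    intro i hi h
    obtain ⟨k, _, hk⟩ := Finset.mem_image.mp h
    exact hi ⟨k, hk⟩
  have hmemG : ∀ i ∈ G, ∃ k, g k = i := by
    intro i hi
    obtain ⟨k, _, hk⟩ := Finset.mem_image.mp hi
    exact ⟨k, hk⟩
  have hgG : ∀ k, g k ∈ G := fun k => Finset.mem_image.mpr ⟨k, Finset.mem_univ _, rfl⟩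
  have hGcard : G.card ≤ 3 := by
    have := Finset.card_image_le (s := (Finset.univ : Finset (Fin 3))) (f := g)
    simpa using this
  have hη2' : ∀ T1 : ℝ, 0 ≤ T1 → T1 ≤ τ → x * r ^ 2 * (16 / c ^ 2) * (T1 / ts) ≤ η₀ := by
    intro T1 h0 h1
    refine le_trans ?_ hη2
    have h2 : x * r ^ 2 * (16 / c ^ 2) * (T1 / ts) = 16 / c ^ 2 * (T1 * Y) := by
      have h3 : x * r ^ 2 * (16 / c ^ 2) * (T1 / ts) = 16 / c ^ 2 * (T1 * ((x * r) * r / ts)) := by
        ring
      rw [h3, ← hY2, hts]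
      congr 2
      field_simp
    rw [h2]
    apply mul_le_mul_of_nonneg_left _ (by positivity)
    exact mul_le_mul_of_nonneg_right h1 hY0.le
  have hw2 : |w 2| ≤ R := by
    have := PiLp.norm_apply_le w 2
    rw [Real.norm_eq_abs] at this
    exact this.trans hw
  have hAT : A * T ≤ A * τ := mul_le_mul_of_nonneg_left hTτ (by linarith)
  have hATT : (R + A * T) * T ≤ (R + A * τ) * τ :=
    mul_le_mul (by linarith) hTτ hT0 (by positivity)
  have key := others (G := G) (z := z) (A := A) (c := c) (σ := σ) (R := R)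
    (by positivity : 0 < 1 / x) (by rw [← hx]; field_simp; exact le_refl _) hR.le hσ hσ2 hc
    hGcard hsol (fun i _ => hp.bv i)
    (fun i hi j hj hij => hp.sep i j (hmem i hi) (hmem j hj) hij)
    (fun j hj => hp.lay j (hmem j hj))
    (by
      intro i hi
      obtain ⟨k, rfl⟩ := hmemG i hi
      rw [hz k]
      simp only [PiLp.add_apply, PiLp.smul_apply, smul_eq_mul, hs.flat k, mul_zero, add_zero,
        sub_self, abs_zero]
      positivity) hA (by linarith) (by linarith)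
    (by
      intro T1 hT1 hext i hi
      obtain ⟨k, rfl⟩ := hmemG i hi
      have hT1τ : T1 ≤ τ := hT1.2.trans hTτ
      rcases lt_or_eq_of_le hT1.1 with h0 | h0
      · have h1 := gun_bounds hg (T := T1) (r := r) (ts := ts) (c := c) hx0 hr hts0 hts2 h0 hc hη1
          (hη2' T1 h0.le hT1τ) hp.inj z w (hsol.mono hT1.2) hz hp.gv
          (fun t ht k => hext t ht (g k) (hgG k)) T1 ⟨h0.le, le_refl _⟩
        have h2 := h1.2.1 k
        have h3 : r * (ε * (1 + T1 / ts)) ≤ c / 8 := by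
          have h4 : r * (ε * (1 + T1 / ts)) = ε * (r + r * (T1 / ts)) := by ring
          rw [h4, hrt]
          have h5 : T1 * y ≤ τ * y := mul_le_mul_of_nonneg_right hT1τ hy0.le
          exact (mul_le_mul_of_nonneg_left (add_le_add (le_refl r) h5) hε.le).trans hεc
        have h4 : |T1 * w 2| ≤ c / 8 := by
          rw [abs_mul, abs_of_pos h0]
          calc T1 * |w 2| ≤ τ * R := mul_le_mul hT1τ hw2 (abs_nonneg _) hτ0
            _ ≤ c / 8 := by linarith
        have h5 : q T1 (g k) 2 - z 2 = (q T1 (g k) 2 - z 2 - T1 * w 2) + T1 * w 2 := by ring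
        rw [h5]
        refine (abs_add_le _ _).trans ?_
        linarith
      · rw [← h0, hz k]
        simp only [PiLp.add_apply, PiLp.smul_apply, smul_eq_mul, hs.flat k, mul_zero, add_zero,
          sub_self, abs_zero]
        positivity)
  intro t ht
  obtain ⟨k1, k2, k3, k4, k5⟩ := key t ht
  refine ⟨?_, ?_, ?_, ?_, ?_⟩
  · intro i hi
    exact (k1 i (hmem' i hi)).trans (hATT.trans hs3)
  · intro i hi
    exact (k2 i (hmem' i hi)).trans hAT
  · intro i hi j hj hij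
    exact k3 i (hmem' i hi) j (hmem' j hj) hij
  · intro i hi k
    exact k4 i (hmem' i hi) (g k) (hgG k)
  · intro hT
    have h1 := gun_bounds hg (T := T) (r := r) (ts := ts) (c := c) hx0 hr hts0 hts2 hT hc hη1
      (hη2' T hT0 hTτ) hp.inj z w hsol hz hp.gv
      (fun t ht k => (key t ht).2.2.2.2 (g k) (hgG k)) t ht
    obtain ⟨g1, g2, g3, g4, g5, g6, g7⟩ := h1
    refine ⟨g1, ?_, ?_, ?_, ?_, g7⟩
    · intro k
      refine (g3 k).trans (le_of_eq ?_)
      have : r * (C₀ * (1 + t / ts)) = C₀ * (r + r * (t / ts)) := by ring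
      rw [this, hrt]
    · intro k
      rw [← hrts]
      exact g4 k
    · refine le_trans (le_of_eq ?_) g5
      have : r * (t / ts / 2 - C₀) = r * (t / ts) / 2 - r * C₀ := by ring
      rw [this, hrt]
    · intro hle
      have h2 : C₀ ≤ t / ts := by
        have h3 : r * C₀ ≤ r * (t / ts) := by
          rw [hrt]
          exact hle
        exact le_of_mul_le_mul_left h3 hr
      have h3 := g6 h2
      rw [hrts] at h3
      linarith

end Pool.Agent.NBody
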