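import Mathlib
import Pool.Agent.NBody.ThBoot3

/-!
Bootstrap of a prepared state of many bodies, with explicit conditions.
-/

set_option autoImplicit false
open scoped RealInnerProductSpace
open Set Finset Filter Topology

namespace Pool.Agent.NBody

theorem Prep.ne {N : ℕ} {R c σ r : ℝ} {s : Fin 3 → V3} {e : V3} (hs : GunShape s e)
    {g : Fin 3 → Fin N} {z w : V3} {q v : Fin N → V3} (hp : Prep N R c σ r s g z w q v)
    (hc : 0 < c) (hσ : 0 < σ) (hr : 0 < r) : ∀ i j, i ≠ j → q i ≠ q j := by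
  intro i j hij h
  by_cases hi : i ∈ Set.range g
  · obtain ⟨k, rfl⟩ := hi
    by_cases hj : j ∈ Set.range g
    · obtain ⟨l, rfl⟩ := hj
      rw [hp.gq, hp.gq] at h
      have h1 := smul_right_injective V3 hr.ne' (add_left_cancel h)
      exact hs.ne k l (fun hkl => hij (by rw [hkl])) h1
    · have h1 := hp.lay j hj
      rw [← h, hp.gq] at h1
      simp only [PiLp.add_apply, PiLp.smul_apply, smul_eq_mul, hs.flat k, mul_zero, add_zero,
        sub_self, abs_zero] at h1
      linarith
  · by_cases hj : j ∈ Set.range g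
    · obtain ⟨l, rfl⟩ := hj
      have h1 := hp.lay i hi
      rw [h, hp.gq] at h1
      simp only [PiLp.add_apply, PiLp.smul_apply, smul_eq_mul, hs.flat l, mul_zero, add_zero,
        sub_self, abs_zero] at h1
      linarith
    · have h1 := hp.sep i j hi hj hij
      rw [h, sub_self, norm_zero] at h1
      linarith

/-- the compact sets of states -/
theorem isCompact_box (N : ℕ) (B d : ℝ) :
    IsCompact {x : Ph N | (∀ i, ‖x.1 i‖ ≤ B) ∧ (∀ i, ‖x.2 i‖ ≤ B) ∧
      ∀ i j, i ≠ j → d ≤ ‖x.1 i - x.1 j‖} := by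
  have h1 : IsClosed {x : Ph N | (∀ i, ‖x.1 i‖ ≤ B) ∧ (∀ i, ‖x.2 i‖ ≤ B) ∧
      ∀ i j, i ≠ j → d ≤ ‖x.1 i - x.1 j‖} := by
    simp only [Set.ofPred_and, Set.ofPred_forall]
    refine IsClosed.inter ?_ (IsClosed.inter ?_ ?_)
    · exact isClosed_iInter fun i => isClosed_le (by fun_prop) continuous_const
    · exact isClosed_iInter fun i => isClosed_le (by fun_prop) continuous_const
    · exact isClosed_iInter fun i => isClosed_iInter fun j => isClosed_iInter fun _ =>
        isClosed_le continuous_const (by fun_prop)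
  refine (isCompact_closedBall (0 : Ph N) (max B 0)).of_isClosed_subset h1 ?_
  intro x hx
  rw [Metric.mem_closedBall, dist_zero_right, Prod.norm_def]
  refine max_le ?_ ?_
  · rw [pi_norm_le_iff_of_nonneg (le_max_right _ _)]
    exact fun i => (hx.1 i).trans (le_max_left _ _)
  · rw [pi_norm_le_iff_of_nonneg (le_max_right _ _)]
    exact fun i => (hx.2.1 i).trans (le_max_left _ _)

/-- The bootstrap of a prepared state, all conditions explicit. -/
theorem boot_at {s : Fin 3 → V3} {e : V3} {μ₀ C₀ ε η₀ : ℝ} (hs : GunShape s e) (hμ : 0 < μ₀)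
    (hC : 0 < C₀) (hε : 0 < ε) (hg : GunAt s e μ₀ C₀ ε η₀) {N : ℕ} {R c σ r τ A : ℝ}
    {g : Fin 3 → Fin N} {z w : V3} {q₀ v₀ : Fin N → V3} (hN : 1 ≤ (N : ℝ)) (hR : 0 < R)
    (hc : 0 < c) (hσ : 0 < σ) (hσ2 : σ ≤ 2) (hr : 0 < r) (hr1 : r ≤ 1) (hrC : r * C₀ ≤ 1)
    (hτ0 : 0 < τ) (hτ1 : τ ≤ 1)
    (hA : 3456 * (1 / (N : ℝ)) / σ ^ 3 + 1 + 48 * (1 / (N : ℝ)) / c ^ 2 ≤ A)
    (hs1 : (R + A * τ) * τ < σ / 4) (hs2 : (R + A * τ) * τ < c / 4)
    (hs3 : (R + A * τ) * τ ≤ 1) (hs4 : R * τ ≤ c / 8)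
    (hεc : ε * (r + τ * (1 / √((N : ℝ) * r))) ≤ c / 8)
    (hη1 : (N : ℝ) * r ^ 2 * (16 / c ^ 2) ≤ η₀)
    (hη2 : 16 / c ^ 2 * (τ * √((N : ℝ) * r)) ≤ η₀)
    (hτy : 4 * R + 10 ≤ τ * (1 / √((N : ℝ) * r)))
    (hp : Prep N R c σ r s g z w q₀ v₀) :
      (∃ K : Set (Ph N), IsCompact K ∧ K ⊆ NC N ∧
        ∀ T' : ℝ, 0 ≤ T' → T' ≤ τ → ∀ q v : ℝ → Fin N → V3,
          IsSol (1 / (N : ℝ)) T' (fun _ _ => 0) q v → q 0 = q₀ → v 0 = v₀ →
          ∀ t ∈ Icc (0 : ℝ) T', ((q t, (1 / (N : ℝ)) • v t) : Ph N) ∈ K) ∧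
      (∀ q v : ℝ → Fin N → V3,
          IsSol (1 / (N : ℝ)) τ (fun _ _ => 0) q v → q 0 = q₀ → v 0 = v₀ →
          (∀ j, j ≠ g 0 → ⟪q τ j, e⟫ + 1 ≤ ⟪q τ (g 0), e⟫) ∧
          1 / √((N : ℝ) * r) / 2 - R ≤ ⟪v τ (g 0), e⟫) := by
  have hx0 : 0 < (N : ℝ) := by linarith
  have hA1 : 1 ≤ A := by
    have h1 : 0 ≤ 3456 * (1 / (N : ℝ)) / σ ^ 3 := by positivity
    have h2 : 0 ≤ 48 * (1 / (N : ℝ)) / c ^ 2 := by positivity
    linarith
  set y : ℝ := 1 / √((N : ℝ) * r) with hy
  have hy0 : 0 < y := by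
    rw [hy]
    exact one_div_pos.mpr (Real.sqrt_pos.mpr (by positivity))
  have hcore : ∀ T' : ℝ, 0 ≤ T' → T' ≤ τ → ∀ q v : ℝ → Fin N → V3,
      IsSol (1 / (N : ℝ)) T' (fun _ _ => 0) q v → q 0 = q₀ → v 0 = v₀ → _ :=
    fun T' hT0 hTτ q v hsol hq0 hv0 =>
      boot_core (T := T') (q := q) (v := v) hs hg hε hN hR hc hσ hσ2 hr hA hs1 hs2 hs3 hs4 hεc
        hη1 hη2 hT0 hTτ hsol (by rw [hq0, hv0]; exact hp)
  have hnz : ‖z‖ ≤ R + 1 := by
    have h1 : z = q₀ (g 0) - r • s 0 := by
      rw [hp.gq 0]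
      abel
    rw [h1]
    refine (norm_sub_le _ _).trans ?_
    have h2 : ‖r • s 0‖ ≤ 1 := by
      rw [norm_smul, Real.norm_of_nonneg hr.le]
      calc r * ‖s 0‖ ≤ 1 * 1 := mul_le_mul hr1 (hs.le 0) (norm_nonneg _) zero_le_one
        _ = 1 := one_mul 1
    exact add_le_add (hp.bq _) h2
  have hnw : ‖w‖ ≤ R := by
    rw [← hp.gv 0]
    exact hp.bv _
  have hτR : τ * R ≤ 1 := by
    have h1 : R * τ ≤ (R + A * τ) * τ := by
      apply mul_le_mul_of_nonneg_right _ hτ0.le
      have : 0 ≤ A * τ := by positivity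
      linarith
    linarith
  refine ⟨?_, ?_⟩
  · set B : ℝ := (R + 1) + 1 + C₀ * (1 + y) + R + A + y * C₀ with hB
    have hpos1 : 0 ≤ y * C₀ := by positivity
    have hpos2 : 0 ≤ C₀ * (1 + y) := by positivity
    set d : ℝ := min (σ / 2) (min (c / 4) (r * μ₀)) with hd
    have hd0 : 0 < d := lt_min (by positivity) (lt_min (by positivity) (by positivity))
    refine ⟨{x : Ph N | (∀ i, ‖x.1 i‖ ≤ B) ∧ (∀ i, ‖x.2 i‖ ≤ B) ∧
      ∀ i j, i ≠ j → d ≤ ‖x.1 i - x.1 j‖} ∪ {((q₀, (1 / (N : ℝ)) • v₀) : Ph N)},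
      (isCompact_box N B d).union isCompact_singleton, ?_, ?_⟩
    · rintro x (hx | hx)
      · intro i j hij h
        have h1 := hx.2.2 i j hij
        rw [h, sub_self, norm_zero] at h1
        linarith
      · rw [Set.mem_singleton_iff] at hx
        rw [hx]
        exact hp.ne hs hc hσ hr
    · intro T' hT0 hTτ q v hsol hq0 hv0 t ht
      rcases lt_or_eq_of_le hT0 with hT | hT
      · left
        obtain ⟨k1, k2, k3, k4, k5⟩ := hcore T' hT0 hTτ q v hsol hq0 hv0 t ht
        obtain ⟨g1, g2, g3, g4, g5, g6⟩ := k5 hT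
        have ht1 : t ≤ 1 := ht.2.trans (hTτ.trans hτ1)
        have hAτ : A * τ ≤ A := mul_le_of_le_one_right (by linarith) hτ1
        refine ⟨?_, ?_, ?_⟩
        · intro i
          show ‖q t i‖ ≤ B
          by_cases hi : i ∈ Set.range g
          · obtain ⟨k, rfl⟩ := hi
            have h1 := g2 k
            have h2 : q t (g k) = (q t (g k) - z - t • w) + (z + t • w) := by abel
            have h3 : ‖t • w‖ ≤ R := by
              rw [norm_smul, Real.norm_of_nonneg ht.1]
              calc t * ‖w‖ ≤ 1 * R := mul_le_mul ht1 hnw (norm_nonneg _) zero_le_one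
                _ = R := one_mul R
            have h4 : C₀ * (r + t * y) ≤ C₀ * (1 + y) := by
              apply mul_le_mul_of_nonneg_left _ hC.le
              apply add_le_add hr1
              calc t * y ≤ 1 * y := mul_le_mul_of_nonneg_right ht1 hy0.le
                _ = y := one_mul _
            have h5 : ‖q t (g k)‖ ≤ ‖q t (g k) - z - t • w‖ + (‖z‖ + ‖t • w‖) := by
              conv_lhs => rw [h2]
              exact (norm_add_le _ _).trans (add_le_add_right (norm_add_le _ _) _)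
            linarith
          · have h1 := k1 i hi
            have h2 : ‖q t i‖ ≤ ‖q t i - q 0 i‖ + ‖q 0 i‖ := by
              have : q t i = (q t i - q 0 i) + q 0 i := by abel
              conv_lhs => rw [this]
              exact norm_add_le _ _
            have h3 : ‖q 0 i‖ ≤ R := by
              rw [hq0]
              exact hp.bq i
            linarith
        · intro i
          show ‖(1 / (N : ℝ)) • v t i‖ ≤ B
          have hsc : ‖(1 / (N : ℝ)) • v t i‖ ≤ ‖v t i‖ := by
            rw [norm_smul, Real.norm_of_nonneg (by positivity)]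
            apply mul_le_of_le_one_left (norm_nonneg _)
            rw [div_le_one hx0]
            exact hN
          refine hsc.trans ?_
          by_cases hi : i ∈ Set.range g
          · obtain ⟨k, rfl⟩ := hi
            have h1 := g3 k
            have h2 : ‖v t (g k)‖ ≤ ‖v t (g k) - w‖ + ‖w‖ := by
              have : v t (g k) = (v t (g k) - w) + w := by abel
              conv_lhs => rw [this]
              exact norm_add_le _ _
            linarith
          · have h1 := k2 i hi
            have h2 : ‖v t i‖ ≤ ‖v t i - v 0 i‖ + ‖v 0 i‖ := by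
              have : v t i = (v t i - v 0 i) + v 0 i := by abel
              conv_lhs => rw [this]
              exact norm_add_le _ _
            have h3 : ‖v 0 i‖ ≤ R := by
              rw [hv0]
              exact hp.bv i
            linarith
        · intro i j hij
          show d ≤ ‖q t i - q t j‖
          by_cases hi : i ∈ Set.range g
          · obtain ⟨k, rfl⟩ := hi
            by_cases hj : j ∈ Set.range g
            · obtain ⟨l, rfl⟩ := hj
              have h1 := g1 k l (fun hkl => hij (by rw [hkl]))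
              exact ((min_le_right _ _).trans (min_le_right _ _)).trans h1
            · have h1 := k4 j hj k
              rw [norm_sub_rev] at h1
              exact ((min_le_right _ _).trans (min_le_left _ _)).trans h1
          · by_cases hj : j ∈ Set.range g
            · obtain ⟨l, rfl⟩ := hj
              exact ((min_le_right _ _).trans (min_le_left _ _)).trans (k4 i hi l)
            · exact (min_le_left _ _).trans (k3 i hi j hj hij)
      · right
        have ht0 : t = 0 := le_antisymm (by rw [hT]; exact ht.2) ht.1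
        rw [ht0, hq0, hv0]
        exact Set.mem_singleton _
  · intro q v hsol hq0 hv0
    obtain ⟨k1, k2, k3, k4, k5⟩ := hcore τ hτ0.le (le_refl _) q v hsol hq0 hv0 τ ⟨hτ0.le, le_refl _⟩
    obtain ⟨g1, g2, g3, g4, g5, g6⟩ := k5 hτ0
    have hin : ∀ y' : V3, |⟪y', e⟫| ≤ ‖y'‖ := by
      intro y'
      have := abs_real_inner_le_norm y' e
      rwa [hs.norm, mul_one] at this
    have hsplit : ∀ k, ⟪q τ (g k), e⟫ = ⟪q τ (g k) - z - τ • w, e⟫ + ⟪z + τ • w, e⟫ := by
      intro k
      rw [← inner_add_left]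
      congr 1
      abel
    have hzw : ‖z + τ • w‖ ≤ R + 2 := by
      refine (norm_add_le _ _).trans ?_
      have h1 : ‖τ • w‖ ≤ 1 := by
        rw [norm_smul, Real.norm_of_nonneg hτ0.le]
        exact (mul_le_mul_of_nonneg_left hnw hτ0.le).trans hτR
      linarith
    have hzw2 := neg_le_of_abs_le (hin (z + τ • w))
    refine ⟨?_, ?_⟩
    · intro j hj
      by_cases hjr : j ∈ Set.range g
      · obtain ⟨k, rfl⟩ := hjr
        have hk : k ≠ 0 := fun h => hj (by rw [h])
        have h1 := g6 k hk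
        rw [hsplit k, hsplit 0]
        linarith
      · have h1 := k1 j hjr
        have h2 : ‖q 0 j‖ ≤ R := by
          rw [hq0]
          exact hp.bq j
        have h3 : ‖q τ j‖ ≤ R + 1 := by
          have h4 : q τ j = (q τ j - q 0 j) + q 0 j := by abel
          rw [h4]
          exact (norm_add_le _ _).trans (by linarith)
        have h4 := le_of_abs_le (hin (q τ j))
        rw [hsplit 0]
        linarith
    · have h1 := g5 (by linarith)
      have h2 : ⟪v τ (g 0), e⟫ = ⟪v τ (g 0) - w, e⟫ + ⟪w, e⟫ := by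
        rw [← inner_add_left]
        congr 1
        abel
      have h3 := neg_le_of_abs_le (hin w)
      rw [h2]
      linarith

end Pool.Agent.NBody
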