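import Mathlib
import Pool.Agent.NBody.ThBoot4

/-!
Bootstrap of a prepared state of many bodies.
-/

set_option autoImplicit false
open scoped RealInnerProductSpace
open Set Finset Filter Topology

namespace Pool.Agent.NBody

/-- the numerical conditions hold for large `N` -/
theorem boot_large (R c b κ A C₀ η₀ : ℝ) (hc : 0 < c) (hb : 0 < b)
    (hη₀ : 0 < η₀) :
    ∃ N₀ : ℕ, ∀ N : ℕ, N₀ ≤ N → 1 ≤ (N : ℝ) ∧ b * (N : ℝ) ^ (-(1 / 3) : ℝ) ≤ 2 ∧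
      1 / (b * (N : ℝ) ^ 2) ≤ 1 ∧ C₀ * (1 / (b * (N : ℝ) ^ 2)) ≤ 1 ∧
      κ / √(N : ℝ) ≤ 1 ∧
      (R + A) * (κ / √(N : ℝ)) < b * (N : ℝ) ^ (-(1 / 3) : ℝ) / 4 ∧
      (R + A) * (κ / √(N : ℝ)) < c / 4 ∧
      (R + A) * (κ / √(N : ℝ)) ≤ 1 ∧ R * (κ / √(N : ℝ)) ≤ c / 8 ∧
      16 / (b ^ 2 * c ^ 2) * (1 / (N : ℝ)) ≤ η₀ ∧
      16 * κ / (c ^ 2 * √b) * (1 / (N : ℝ)) ≤ η₀ ∧
      R ≤ √b * √(N : ℝ) / 4 := by
  have hsb : 0 < √b := Real.sqrt_pos.mpr hb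
  have hinv : Tendsto (fun x : ℝ => 1 / x) atTop (𝓝 0) := by
    simpa [one_div] using (tendsto_inv_atTop_zero (𝕜 := ℝ))
  have hsqrt : Tendsto (fun x : ℝ => √x) atTop atTop := Real.tendsto_sqrt_atTop
  have hsq : Tendsto (fun x : ℝ => κ / √x) atTop (𝓝 0) :=
    tendsto_const_nhds.div_atTop hsqrt
  have h3 : Tendsto (fun x : ℝ => x ^ (-(1 / 3) : ℝ)) atTop (𝓝 0) :=
    tendsto_rpow_neg_atTop (by norm_num)
  have h6 : Tendsto (fun x : ℝ => x ^ (-(1 / 6) : ℝ)) atTop (𝓝 0) :=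
    tendsto_rpow_neg_atTop (by norm_num)
  have hx2 : Tendsto (fun x : ℝ => 1 / (b * x ^ 2)) atTop (𝓝 0) := by
    apply tendsto_const_nhds.div_atTop
    exact (tendsto_pow_atTop (by norm_num)).const_mul_atTop hb
  have e1 : ∀ᶠ x : ℝ in atTop, 1 ≤ x := eventually_ge_atTop 1
  have e2 : ∀ᶠ x : ℝ in atTop, b * x ^ (-(1 / 3) : ℝ) ≤ 2 := by
    have := (h3.const_mul b)
    rw [mul_zero] at this
    exact this.eventually (eventually_le_nhds (by norm_num))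
  have e3 : ∀ᶠ x : ℝ in atTop, 1 / (b * x ^ 2) ≤ 1 :=
    hx2.eventually (eventually_le_nhds (by norm_num))
  have e4 : ∀ᶠ x : ℝ in atTop, C₀ * (1 / (b * x ^ 2)) ≤ 1 := by
    have := (hx2.const_mul C₀)
    rw [mul_zero] at this
    exact this.eventually (eventually_le_nhds (by norm_num))
  have e5 : ∀ᶠ x : ℝ in atTop, κ / √x ≤ 1 :=
    hsq.eventually (eventually_le_nhds (by norm_num))
  have e6 : ∀ᶠ x : ℝ in atTop, (R + A) * κ * x ^ (-(1 / 6) : ℝ) < b / 4 := by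
    have := (h6.const_mul ((R + A) * κ))
    rw [mul_zero] at this
    exact this.eventually (eventually_lt_nhds (by positivity))
  have e7 : ∀ᶠ x : ℝ in atTop, (R + A) * (κ / √x) < c / 4 := by
    have := (hsq.const_mul (R + A))
    rw [mul_zero] at this
    exact this.eventually (eventually_lt_nhds (by positivity))
  have e8 : ∀ᶠ x : ℝ in atTop, (R + A) * (κ / √x) ≤ 1 := by
    have := (hsq.const_mul (R + A))
    rw [mul_zero] at this
    exact this.eventually (eventually_le_nhds (by norm_num))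
  have e9 : ∀ᶠ x : ℝ in atTop, R * (κ / √x) ≤ c / 8 := by
    have := (hsq.const_mul R)
    rw [mul_zero] at this
    exact this.eventually (eventually_le_nhds (by positivity))
  have e10 : ∀ᶠ x : ℝ in atTop, 16 / (b ^ 2 * c ^ 2) * (1 / x) ≤ η₀ := by
    have := (hinv.const_mul (16 / (b ^ 2 * c ^ 2)))
    rw [mul_zero] at this
    exact this.eventually (eventually_le_nhds hη₀)
  have e11 : ∀ᶠ x : ℝ in atTop, 16 * κ / (c ^ 2 * √b) * (1 / x) ≤ η₀ := by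
    have := (hinv.const_mul (16 * κ / (c ^ 2 * √b)))
    rw [mul_zero] at this
    exact this.eventually (eventually_le_nhds hη₀)
  have e12 : ∀ᶠ x : ℝ in atTop, R ≤ √b * √x / 4 := by
    have h1 := hsqrt.eventually (eventually_ge_atTop (4 * R / √b))
    filter_upwards [h1] with x hx
    rw [div_le_iff₀ hsb] at hx
    linarith
  have hall := ((((((((((e1.and e2).and e3).and e4).and e5).and e6).and e7).and e8).and e9).and
    e10).and e11).and e12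
  obtain ⟨N₀, hN₀⟩ := eventually_atTop.mp (tendsto_natCast_atTop_atTop.eventually hall)
  refine ⟨N₀, fun N hN => ?_⟩
  obtain ⟨⟨⟨⟨⟨⟨⟨⟨⟨⟨⟨f1, f2⟩, f3⟩, f4⟩, f5⟩, f6⟩, f7⟩, f8⟩, f9⟩, f10⟩, f11⟩, f12⟩ := hN₀ N hN
  refine ⟨f1, f2, f3, f4, f5, ?_, f7, f8, f9, f10, f11, f12⟩
  have hx0 : 0 < (N : ℝ) := by linarith
  have h7 : κ / √(N : ℝ) = κ * (N : ℝ) ^ (-(1 / 6) : ℝ) * (N : ℝ) ^ (-(1 / 3) : ℝ) := by
    rw [mul_assoc, ← Real.rpow_add hx0, Real.sqrt_eq_rpow, div_eq_mul_inv, ← Real.rpow_neg hx0.le]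
    norm_num
  have h8 : 0 < (N : ℝ) ^ (-(1 / 3) : ℝ) := Real.rpow_pos_of_pos hx0 _
  calc (R + A) * (κ / √(N : ℝ)) =
      ((R + A) * κ * (N : ℝ) ^ (-(1 / 6) : ℝ)) * (N : ℝ) ^ (-(1 / 3) : ℝ) := by
        rw [h7]
        ring
    _ < (b / 4) * (N : ℝ) ^ (-(1 / 3) : ℝ) := mul_lt_mul_of_pos_right f6 h8
    _ = b * (N : ℝ) ^ (-(1 / 3) : ℝ) / 4 := by ring

/-- B: the bootstrap of a prepared state -/
theorem boot {s : Fin 3 → V3} {e : V3} {μ₀ C₀ : ℝ} (hs : GunShape s e) (hμ : 0 < μ₀)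
    (hC : 0 < C₀) (hg : GunProp s e μ₀ C₀) (R c b : ℝ) (hR : 0 < R) (hc : 0 < c) (hb : 0 < b) :
    ∃ (κ a : ℝ) (N₀ : ℕ), 0 < κ ∧ 0 < a ∧ ∀ N : ℕ, N₀ ≤ N →
      ∀ (r : ℝ) (g : Fin 3 → Fin N) (z w : V3) (q₀ v₀ : Fin N → V3),
      b / (N : ℝ) ^ 2 ≤ r → r ≤ 1 / (b * (N : ℝ) ^ 2) →
      Prep N R c (b * (N : ℝ) ^ (-(1 / 3) : ℝ)) r s g z w q₀ v₀ →
      (∃ K : Set (Ph N), IsCompact K ∧ K ⊆ NC N ∧
        ∀ T' : ℝ, 0 ≤ T' → T' ≤ κ / √(N : ℝ) → ∀ q v : ℝ → Fin N → V3,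
          IsSol (1 / (N : ℝ)) T' (fun _ _ => 0) q v → q 0 = q₀ → v 0 = v₀ →
          ∀ t ∈ Icc (0 : ℝ) T', ((q t, (1 / (N : ℝ)) • v t) : Ph N) ∈ K) ∧
      (∀ q v : ℝ → Fin N → V3,
          IsSol (1 / (N : ℝ)) (κ / √(N : ℝ)) (fun _ _ => 0) q v → q 0 = q₀ → v 0 = v₀ →
          (∀ j, j ≠ g 0 → ⟪q (κ / √(N : ℝ)) j, e⟫ + 1 ≤ ⟪q (κ / √(N : ℝ)) (g 0), e⟫) ∧
          a * √(N : ℝ) ≤ ⟪v (κ / √(N : ℝ)) (g 0), e⟫) := by
  have hsb : 0 < √b := Real.sqrt_pos.mpr hb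
  set κ : ℝ := (4 * R + 10) / √b with hκd
  have hκ : 0 < κ := by positivity
  set A : ℝ := 3456 / b ^ 3 + 1 + 48 / c ^ 2 with hAd
  have hA1 : 1 ≤ A := by
    have h1 : 0 ≤ 3456 / b ^ 3 := by positivity
    have h2 : 0 ≤ 48 / c ^ 2 := by positivity
    linarith
  set ε : ℝ := c / (8 * (1 + κ / √b)) with hεd
  have hε : 0 < ε := by positivity
  have hεc : ε * (1 + κ / √b) ≤ c / 8 := by
    rw [hεd]
    apply le_of_eq
    have : 1 + κ / √b ≠ 0 := by positivity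
    field_simp
  obtain ⟨η₀, hη₀, H⟩ := hg ε hε
  obtain ⟨N₀, hN₀⟩ := boot_large R c b κ A C₀ η₀ hc hb hη₀
  refine ⟨κ, √b / 4, N₀, hκ, by positivity, ?_⟩
  intro N hN r g z w q₀ v₀ hr1 hr2 hp
  obtain ⟨n1, n2, n3, n4, n5, n6, n7, n8, n9, n10, n11, n12⟩ := hN₀ N hN
  set x : ℝ := (N : ℝ) with hxd
  have hx0 : 0 < x := by linarith
  set σ : ℝ := b * x ^ (-(1 / 3) : ℝ) with hσd
  have hσ : 0 < σ := mul_pos hb (Real.rpow_pos_of_pos hx0 _)
  have hr : 0 < r := lt_of_lt_of_le (by positivity) hr1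
  have hr3 : r ≤ 1 := hr2.trans n3
  have hrC : r * C₀ ≤ 1 := by
    rw [mul_comm]
    exact (mul_le_mul_of_nonneg_left hr2 hC.le).trans n4
  have hσ3 : σ ^ 3 = b ^ 3 * (1 / x) := by
    rw [hσd, mul_pow]
    congr 1
    rw [← Real.rpow_natCast, ← Real.rpow_mul hx0.le]
    norm_num
    rw [Real.rpow_neg_one]
  have hAσ : 3456 * (1 / x) / σ ^ 3 + 1 + 48 * (1 / x) / c ^ 2 ≤ A := by
    rw [hσ3, hAd]
    have h1 : 3456 * (1 / x) / (b ^ 3 * (1 / x)) = 3456 / b ^ 3 := by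
      field_simp
    have h2 : 48 * (1 / x) / c ^ 2 ≤ 48 / c ^ 2 := by
      apply div_le_div_of_nonneg_right _ (by positivity)
      have : 1 / x ≤ 1 := by
        rw [div_le_one hx0]
        exact n1
      linarith
    rw [h1]
    linarith
  have hsx : 0 < √x := Real.sqrt_pos.mpr hx0
  have hsb2 : √b ^ 2 = b := Real.sq_sqrt hb.le
  have hsx2 : √x ^ 2 = x := Real.sq_sqrt hx0.le
  set τ : ℝ := κ / √x with hτ
  have hτ0 : 0 < τ := by positivity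
  set Y : ℝ := √(x * r) with hY
  have hY0 : 0 < Y := Real.sqrt_pos.mpr (by positivity)
  have hY2 : Y ^ 2 = x * r := Real.sq_sqrt (by positivity)
  have hxr1 : b ≤ x * (x * r) := by
    rw [div_le_iff₀ (by positivity)] at hr1
    linarith
  have hxr2 : x * (x * r) * b ≤ 1 := by
    rw [le_div_iff₀ (by positivity)] at hr2
    linarith
  -- `Y` lies between `√b / √x` and `1 / (√b √x)`
  have hYlow : √b / √x ≤ Y := by
    apply le_of_sq_le_sq _ hY0.le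
    rw [div_pow, hsb2, hsx2, hY2, div_le_iff₀ hx0]
    linarith
  have hYup : Y ≤ 1 / (√b * √x) := by
    apply le_of_sq_le_sq _ (by positivity)
    rw [div_pow, mul_pow, hsb2, hsx2, hY2, one_pow, le_div_iff₀ (by positivity)]
    linarith
  have hylow : √b * √x ≤ 1 / Y := by
    rw [le_div_iff₀ hY0]
    calc √b * √x * Y ≤ √b * √x * (1 / (√b * √x)) :=
          mul_le_mul_of_nonneg_left hYup (by positivity)
      _ = 1 := by field_simp
  have hyup : 1 / Y ≤ √x / √b := by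
    rw [div_le_iff₀ hY0]
    calc (1:ℝ) = √x / √b * (√b / √x) := by field_simp
      _ ≤ √x / √b * Y := mul_le_mul_of_nonneg_left hYlow (by positivity)
  have hRA : (R + A * τ) * τ ≤ (R + A) * τ := by
    apply mul_le_mul_of_nonneg_right _ hτ0.le
    have : A * τ ≤ A := mul_le_of_le_one_right (by linarith) n5
    linarith
  have hεc' : ε * (r + τ * (1 / Y)) ≤ c / 8 := by
    refine le_trans (mul_le_mul_of_nonneg_left (add_le_add hr3 ?_) hε.le) hεc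
    calc τ * (1 / Y) ≤ κ / √x * (√x / √b) := mul_le_mul_of_nonneg_left hyup hτ0.le
      _ = κ / √b := by field_simp
  have hη1 : x * r ^ 2 * (16 / c ^ 2) ≤ η₀ := by
    refine le_trans ?_ n10
    have h1 : x * r ^ 2 ≤ 1 / b ^ 2 * (1 / x) := by
      have h2 : x * r ^ 2 ≤ x * (1 / (b * x ^ 2)) ^ 2 := by
        apply mul_le_mul_of_nonneg_left _ hx0.le
        exact pow_le_pow_left₀ hr.le hr2 2
      refine h2.trans ?_
      have h3 : x * (1 / (b * x ^ 2)) ^ 2 = 1 / b ^ 2 * (1 / x) * (1 / x ^ 2) := by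
        field_simp
      rw [h3]
      have h4 : 1 / x ^ 2 ≤ 1 := by
        rw [div_le_one (by positivity)]
        exact one_le_pow₀ n1
      exact mul_le_of_le_one_right (by positivity) h4
    calc x * r ^ 2 * (16 / c ^ 2) ≤ 1 / b ^ 2 * (1 / x) * (16 / c ^ 2) :=
          mul_le_mul_of_nonneg_right h1 (by positivity)
      _ = 16 / (b ^ 2 * c ^ 2) * (1 / x) := by
        field_simp
  have hη2 : 16 / c ^ 2 * (τ * Y) ≤ η₀ := by
    refine le_trans ?_ n11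
    calc 16 / c ^ 2 * (τ * Y) ≤ 16 / c ^ 2 * (κ / √x * (1 / (√b * √x))) := by
          apply mul_le_mul_of_nonneg_left _ (by positivity)
          exact mul_le_mul_of_nonneg_left hYup hτ0.le
      _ = 16 * κ / (c ^ 2 * √b) * (1 / √x ^ 2) := by
        field_simp
      _ = 16 * κ / (c ^ 2 * √b) * (1 / x) := by rw [hsx2]
  have hτy : 4 * R + 10 ≤ τ * (1 / Y) := by
    have h1 : τ * (√b * √x) ≤ τ * (1 / Y) := mul_le_mul_of_nonneg_left hylow hτ0.le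
    have h2 : τ * (√b * √x) = 4 * R + 10 := by
      rw [hτ, hκd]
      field_simp
    linarith
  obtain ⟨hK, hfin⟩ := boot_at hs hμ hC hε H n1 hR hc hσ n2 hr hr3 hrC hτ0 n5 hAσ
    (by linarith) (by linarith) (by linarith) n9 hεc' hη1 hη2 hτy hp
  refine ⟨hK, ?_⟩
  intro q v hsol hq0 hv0
  obtain ⟨h1, h2⟩ := hfin q v hsol hq0 hv0
  refine ⟨h1, ?_⟩
  refine le_trans ?_ h2
  have h5 : √b / 4 * √x = √b * √x / 4 := by ring
  rw [h5]
  linarith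

end Pool.Agent.NBody
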