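import Mathlib
import Pool.Agent.NBody.ThBootM1

/-!
The gun inside an `N`-body solution with arbitrary masses: scaling to the perturbed three-body
problem with masses near one.
-/

set_option autoImplicit false
open scoped RealInnerProductSpace
open Set Finset Filter Topology

namespace Pool.Agent.NBody

theorem scaled_termM {M a r : ℝ} (hM : 0 < M) (hr : 0 < r) (x : V3) :
    (r ^ 2 / M) • ((a / ‖x‖ ^ 3) • x) = (a / M / ‖r⁻¹ • x‖ ^ 3) • (r⁻¹ • x) := by
  rw [norm_smul, norm_inv, Real.norm_of_nonneg hr.le, smul_smul, smul_smul]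
  congr 1
  rcases eq_or_ne ‖x‖ 0 with h | h
  · rw [h]
    simp
  · field_simp

/-- The three bodies of the gun in scaled variables. -/
theorem gun_scaledM {N : ℕ} {m : Fin N → ℝ} {T r ts M : ℝ} (hM : 0 < M) (hr : 0 < r)
    (hts : 0 < ts) (hts2 : ts ^ 2 * M = r ^ 3) {g : Fin 3 → Fin N}
    (hinj : Function.Injective g) (z w : V3)
    {q v : ℝ → Fin N → V3} (hsol : IsSolM m T (fun _ _ => 0) q v) :
    IsSolM (fun k => m (g k) / M) (T / ts)
      (fun θ k => (r ^ 2 / M) • accOnM m (Finset.univ.image g)ᶜ (q (ts * θ)) (g k))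
      (fun θ k => r⁻¹ • (q (ts * θ) (g k) - z - (ts * θ) • w))
      (fun θ k => (ts / r) • (v (ts * θ) (g k) - w)) := by
  have hmaps : Set.MapsTo (fun θ : ℝ => ts * θ) (Set.Icc 0 (T / ts)) (Set.Icc 0 T) := by
    intro θ hθ
    refine ⟨mul_nonneg hts.le hθ.1, ?_⟩
    have := hθ.2
    rw [le_div_iff₀ hts] at this
    linarith
  have hlin : ∀ θ : ℝ, HasDerivWithinAt (fun θ : ℝ => ts * θ) ts (Set.Icc 0 (T / ts)) θ := by
    intro θ
    have := (hasDerivAt_id θ).const_mul ts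
    simp only [id, mul_one] at this
    exact this.hasDerivWithinAt
  refine ⟨?_, ?_, ?_⟩
  · intro θ hθ k
    have h1 := (hsol.dq (ts * θ) (hmaps hθ) (g k)).scomp θ (hlin θ) hmaps
    have h2 : HasDerivWithinAt (fun θ : ℝ => (ts * θ) • w) (ts • w) (Set.Icc 0 (T / ts)) θ :=
      (hlin θ).smul_const w
    have h3 := ((h1.sub_const z).sub h2).const_smul r⁻¹
    refine h3.congr_deriv ?_
    rw [← smul_sub, smul_smul]
    congr 1
    rw [div_eq_mul_inv, mul_comm]
  · intro θ hθ k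
    have h1 := (hsol.dv (ts * θ) (hmaps hθ) (g k)).scomp θ (hlin θ) hmaps
    have h3 := (h1.sub_const w).const_smul (ts / r)
    refine h3.congr_deriv ?_
    rw [add_zero, smul_smul]
    have h4 : ts / r * ts = r ^ 2 / M := by
      rw [div_mul_eq_mul_div, div_eq_div_iff hr.ne' hM.ne']
      nlinarith [hts2]
    rw [h4, accM_eq m (Finset.univ.image g) (q (ts * θ)) (g k), smul_add]
    congr 1
    unfold accOnM accM
    rw [Finset.sum_image (fun a _ b _ hab => hinj hab), Finset.smul_sum]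
    apply Finset.sum_congr rfl
    intro l _
    rw [scaled_termM hM hr]
    have h5 : r⁻¹ • (q (ts * θ) (g l) - q (ts * θ) (g k)) =
        r⁻¹ • (q (ts * θ) (g l) - z - (ts * θ) • w) -
        r⁻¹ • (q (ts * θ) (g k) - z - (ts * θ) • w) := by
      rw [← smul_sub]
      congr 1
      abel
    rw [h5]
  · intro θ hθ k l hkl h
    have h1 := hsol.nc (ts * θ) (hmaps hθ) (g k) (g l) (fun hh => hkl (hinj hh))
    apply h1
    have h2 := smul_right_injective V3 (inv_ne_zero hr.ne') h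
    have h3 : q (ts * θ) (g k) - z - (ts * θ) • w + ((ts * θ) • w + z) =
        q (ts * θ) (g l) - z - (ts * θ) • w + ((ts * θ) • w + z) := by
      exact congrArg (fun y => y + ((ts * θ) • w + z)) h2
    have h4 : ∀ y : V3, y - z - (ts * θ) • w + ((ts * θ) • w + z) = y := by
      intro y
      abel
    rwa [h4, h4] at h3

/-- The property of the gun in the original variables. -/
theorem gun_boundsM {s : Fin 3 → V3} {e : V3} {μ₀ C₀ η₀ : ℝ} (hg : GunPropM s e μ₀ C₀ η₀)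
    {N : ℕ} {m : Fin N → ℝ} {T r ts M c : ℝ} (hM : 0 < M) (hr : 0 < r) (hts : 0 < ts)
    (hts2 : ts ^ 2 * M = r ^ 3) (hT : 0 < T) (hc : 0 < c) {g : Fin 3 → Fin N}
    (hgm : ∀ k, |m (g k) / M - 1| ≤ η₀)
    (hs1 : r ^ 2 / M * (16 / c ^ 2) ≤ η₀)
    (hs2 : r ^ 2 / M * (16 / c ^ 2) * (T / ts) ≤ η₀)
    (hinj : Function.Injective g) (z w : V3) {q v : ℝ → Fin N → V3}
    (hsol : IsSolM m T (fun _ _ => 0) q v)
    (hq0 : ∀ k, q 0 (g k) = z + r • s k) (hv0 : ∀ k, v 0 (g k) = w)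
    (hext : ∀ t ∈ Set.Icc 0 T, ∀ k,
        ‖accOnM m (Finset.univ.image g)ᶜ (q t) (g k)‖ ≤ 16 / c ^ 2) :
      ∀ t ∈ Set.Icc 0 T,
        (∀ k l, k ≠ l → r * μ₀ ≤ ‖q t (g k) - q t (g l)‖) ∧
        (∀ k, |q t (g k) 2 - z 2 - t * w 2| ≤
          r * (C₀ * (r ^ 2 / M * (16 / c ^ 2) * (1 + T / ts)) * (1 + t / ts))) ∧
        (∀ k, ‖q t (g k) - z - t • w‖ ≤ r * (C₀ * (1 + t / ts))) ∧
        (∀ k, ‖v t (g k) - w‖ ≤ r / ts * C₀) ∧
        r * (t / ts / 2 - C₀) ≤ ⟪q t (g 0) - z - t • w, e⟫ ∧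
        (C₀ ≤ t / ts → r / ts * (1 / 2) ≤ ⟪v t (g 0) - w, e⟫) ∧
        (∀ k, k ≠ 0 → ⟪q t (g k) - z - t • w, e⟫ ≤ r * C₀) := by
  intro t ht
  have hη : 0 ≤ r ^ 2 / M * (16 / c ^ 2) := by positivity
  have hsc := gun_scaledM hM hr hts hts2 hinj z w hsol
  have hmaps : Set.MapsTo (fun θ : ℝ => ts * θ) (Set.Icc 0 (T / ts)) (Set.Icc 0 T) := by
    intro θ hθ
    refine ⟨mul_nonneg hts.le hθ.1, ?_⟩
    have := hθ.2
    rw [le_div_iff₀ hts] at this
    linarith
  have hθ : t / ts ∈ Set.Icc 0 (T / ts) :=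
    ⟨div_nonneg ht.1 hts.le, div_le_div_of_nonneg_right ht.2 hts.le⟩
  have key := hg _ hgm (T / ts) (div_pos hT hts) (r ^ 2 / M * (16 / c ^ 2)) hη hs1 hs2 _ _ _ hsc
    (by
      intro θ hθ k
      rw [norm_smul, Real.norm_of_nonneg (by positivity)]
      exact mul_le_mul_of_nonneg_left (hext (ts * θ) (hmaps hθ) k) (by positivity))
    (by
      intro k
      simp only [mul_zero, zero_smul, sub_zero]
      rw [hq0 k, add_sub_cancel_left, smul_smul, inv_mul_cancel₀ hr.ne', one_smul])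
    (by
      intro k
      simp only [mul_zero]
      rw [hv0 k, sub_self, smul_zero])
    (t / ts) hθ
  have htt : ts * (t / ts) = t := by
    field_simp
  simp only [htt] at key
  obtain ⟨k1, k2, k3, k4, k5, k6, k7⟩ := key
  have hnz : ∀ y : V3, r • (r⁻¹ • y) = y := by
    intro y
    rw [smul_smul, mul_inv_cancel₀ hr.ne', one_smul]
  have hinn : ∀ y : V3, ⟪y, e⟫ = r * ⟪r⁻¹ • y, e⟫ := by
    intro y
    conv_lhs => rw [← hnz y]
    rw [real_inner_smul_left]
  have hnorm : ∀ y : V3, ‖y‖ = r * ‖r⁻¹ • y‖ := by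
    intro y
    conv_lhs => rw [← hnz y]
    rw [norm_smul, Real.norm_of_nonneg hr.le]
  have hnv : ∀ y : V3, (r / ts) • ((ts / r) • y) = y := by
    intro y
    rw [smul_smul]
    have : r / ts * (ts / r) = 1 := by
      field_simp
    rw [this, one_smul]
  refine ⟨?_, ?_, ?_, ?_, ?_, ?_, ?_⟩
  · intro k l hkl
    have h1 := k1 k l hkl
    have h2 : q t (g k) - q t (g l) = (q t (g k) - z - t • w) - (q t (g l) - z - t • w) := by
      abel
    rw [h2, hnorm, smul_sub]
    exact mul_le_mul_of_nonneg_left h1 hr.le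
  · intro k
    have h1 := k2 k
    have h2 : q t (g k) 2 - z 2 - t * w 2 = r * (r⁻¹ • (q t (g k) - z - t • w)) 2 := by
      simp only [PiLp.smul_apply, PiLp.sub_apply, smul_eq_mul]
      field_simp
    rw [h2, abs_mul, abs_of_pos hr]
    exact mul_le_mul_of_nonneg_left h1 hr.le
  · intro k
    rw [hnorm]
    exact mul_le_mul_of_nonneg_left (k3 k) hr.le
  · intro k
    rw [← hnv (v t (g k) - w), norm_smul, Real.norm_of_nonneg (by positivity)]
    exact mul_le_mul_of_nonneg_left (k4 k) (by positivity)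
  · rw [hinn]
    apply mul_le_mul_of_nonneg_left _ hr.le
    have h0 : 0 ≤ t / ts := hθ.1
    linarith
  · intro hC
    rw [← hnv (v t (g 0) - w), real_inner_smul_left]
    exact mul_le_mul_of_nonneg_left (k6 hC) (by positivity)
  · intro k hk
    rw [hinn]
    exact mul_le_mul_of_nonneg_left (k7 k hk) hr.le

end Pool.Agent.NBody
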