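import Mathlib
import Pool.Agent.NBody.ThBootM2
import Pool.Agent.NBody.ThDefs3

/-!
The gun with small initial velocities inside an `N`-body solution.
-/

set_option autoImplicit false
open scoped RealInnerProductSpace
open Set Finset Filter Topology

namespace Pool.Agent.NBody

/-- The property of the gun with small initial velocities in the original variables. -/
theorem gun_bounds3 {s : Fin 3 → V3} {e : V3} {μ₀ C₀ η₀ : ℝ} (hg : GunProp3 s e μ₀ C₀ η₀)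
    {N : ℕ} {m : Fin N → ℝ} {T r ts M B α : ℝ} (hM : 0 < M) (hr : 0 < r) (hts : 0 < ts)
    (hts2 : ts ^ 2 * M = r ^ 3) (hT : 0 < T) (hB : 0 ≤ B) {g : Fin 3 → Fin N}
    (hgm : ∀ k, |m (g k) / M - 1| ≤ η₀)
    (hs1 : r ^ 2 / M * B ≤ η₀)
    (hs2 : r ^ 2 / M * B * (T / ts) ≤ η₀) (hα0 : 0 ≤ α) (hα1 : α ≤ η₀)
    (hinj : Function.Injective g) (z w : V3) {q v : ℝ → Fin N → V3}
    (hsol : IsSolM m T (fun _ _ => 0) q v)
    (hq0 : ∀ k, q 0 (g k) = z + r • s k) (hv0 : ∀ k, ‖v 0 (g k) - w‖ ≤ r / ts * α)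
    (hext : ∀ t ∈ Set.Icc 0 T, ∀ k,
        ‖accOnM m (Finset.univ.image g)ᶜ (q t) (g k)‖ ≤ B) :
      ∀ t ∈ Set.Icc 0 T,
        (∀ k l, k ≠ l → r * μ₀ ≤ ‖q t (g k) - q t (g l)‖) ∧
        (∀ k, |q t (g k) 2 - z 2 - t * w 2| ≤
          r * (C₀ * (α + r ^ 2 / M * B * (1 + T / ts)) * (1 + t / ts))) ∧
        (∀ k, ‖q t (g k) - z - t • w‖ ≤ r * (C₀ * (1 + t / ts))) ∧
        (∀ k, ‖v t (g k) - w‖ ≤ r / ts * C₀) ∧
        r * (t / ts / 2 - C₀) ≤ ⟪q t (g 0) - z - t • w, e⟫ ∧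
        (C₀ ≤ t / ts → r / ts * (1 / 2) ≤ ⟪v t (g 0) - w, e⟫) ∧
        (∀ k, k ≠ 0 → ⟪q t (g k) - z - t • w, e⟫ ≤ r * C₀) := by
  intro t ht
  have hη : 0 ≤ r ^ 2 / M * B := by positivity
  have hsc := gun_scaledM hM hr hts hts2 hinj z w hsol
  have hmaps : Set.MapsTo (fun θ : ℝ => ts * θ) (Set.Icc 0 (T / ts)) (Set.Icc 0 T) := by
    intro θ hθ
    refine ⟨mul_nonneg hts.le hθ.1, ?_⟩
    have := hθ.2
    rw [le_div_iff₀ hts] at this
    linarith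
  have hθ : t / ts ∈ Set.Icc 0 (T / ts) :=
    ⟨div_nonneg ht.1 hts.le, div_le_div_of_nonneg_right ht.2 hts.le⟩
  have key := hg _ hgm (T / ts) (div_pos hT hts) (r ^ 2 / M * B) hη hs1 hs2 α hα0 hα1 _ _ _ hsc
    (by
      intro θ hθ k
      rw [norm_smul, Real.norm_of_nonneg (by positivity)]
      exact mul_le_mul_of_nonneg_left (hext (ts * θ) (hmaps hθ) k) (by positivity))
    (by
      intro k
      simp only [mul_zero, zero_smul, sub_zero]
      rw [hq0 k, add_sub_cancel_left, smul_smul, inv_mul_cancel₀ hr.ne', one_smul])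
    (by
      intro k
      simp only [mul_zero]
      rw [norm_smul, Real.norm_of_nonneg (by positivity)]
      calc ts / r * ‖v 0 (g k) - w‖ ≤ ts / r * (r / ts * α) :=
            mul_le_mul_of_nonneg_left (hv0 k) (by positivity)
        _ = α := by
            field_simp)
    (t / ts) hθ
  have htt : ts * (t / ts) = t := by
    field_simp
  simp only [htt] at key
  obtain ⟨k1, k2, k3, k4, k5, k6, k7⟩ := key
  have hnz : ∀ y : V3, r • (r⁻¹ • y) = y := by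
    intro y
    rw [smul_smul, mul_inv_cancel₀ hr.ne', one_smul]
  have hinn : ∀ y : V3, ⟪y, e⟫ = r * ⟪r⁻¹ • y, e⟫ := by
    intro y
    conv_lhs => rw [← hnz y]
    rw [real_inner_smul_left]
  have hnorm : ∀ y : V3, ‖y‖ = r * ‖r⁻¹ • y‖ := by
    intro y
    conv_lhs => rw [← hnz y]
    rw [norm_smul, Real.norm_of_nonneg hr.le]
  have hnv : ∀ y : V3, (r / ts) • ((ts / r) • y) = y := by
    intro y
    rw [smul_smul]
    have : r / ts * (ts / r) = 1 := by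
      field_simp
    rw [this, one_smul]
  refine ⟨?_, ?_, ?_, ?_, ?_, ?_, ?_⟩
  · intro k l hkl
    have h1 := k1 k l hkl
    have h2 : q t (g k) - q t (g l) = (q t (g k) - z - t • w) - (q t (g l) - z - t • w) := by
      abel
    rw [h2, hnorm, smul_sub]
    exact mul_le_mul_of_nonneg_left h1 hr.le
  · intro k
    have h1 := k2 k
    have h2 : q t (g k) 2 - z 2 - t * w 2 = r * (r⁻¹ • (q t (g k) - z - t • w)) 2 := by
      simp only [PiLp.smul_apply, PiLp.sub_apply, smul_eq_mul]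
      field_simp
    rw [h2, abs_mul, abs_of_pos hr]
    exact mul_le_mul_of_nonneg_left h1 hr.le
  · intro k
    rw [hnorm]
    exact mul_le_mul_of_nonneg_left (k3 k) hr.le
  · intro k
    rw [← hnv (v t (g k) - w), norm_smul, Real.norm_of_nonneg (by positivity)]
    exact mul_le_mul_of_nonneg_left (k4 k) (by positivity)
  · rw [hinn]
    apply mul_le_mul_of_nonneg_left _ hr.le
    have h0 : 0 ≤ t / ts := hθ.1
    linarith
  · intro hC
    rw [← hnv (v t (g 0) - w), real_inner_smul_left]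
    exact mul_le_mul_of_nonneg_left (k6 hC) (by positivity)
  · intro k hk
    rw [hinn]
    exact mul_le_mul_of_nonneg_left (k7 k hk) hr.le

/-- The result of a bootstrap of the bodies outside the cluster `G`, for the initial state
`(q₀, v₀)`; used with `Others3` and its variants. -/
def OthersOut {N : ℕ} (m : Fin N → ℝ) (τ : ℝ) (G : Finset (Fin N)) (q₀ v₀ : Fin N → V3)
    (d B Δ W d1 : ℝ) : Prop :=
  ∀ T ∈ Icc (0 : ℝ) τ, ∀ q v : ℝ → Fin N → V3, IsSolM m T (fun _ _ => 0) q v →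
    q 0 = q₀ → v 0 = v₀ →
    (∀ T1 ∈ Icc (0 : ℝ) T,
      (∀ t ∈ Icc (0 : ℝ) T1, ∀ i ∈ G, ‖accOnM m Gᶜ (q t) i‖ ≤ B) →
      ∀ i ∈ G, ∀ j ∉ G, d < ‖q T1 i - (q₀ j + T1 • v₀ j)‖) →
    ∀ t ∈ Icc (0 : ℝ) T,
      (∀ i ∉ G, ‖q t i - (q₀ i + t • v₀ i)‖ ≤ Δ) ∧
      (∀ i ∉ G, ‖v t i - v₀ i‖ ≤ W) ∧
      (∀ i ∉ G, ∀ j ∉ G, i ≠ j → d1 ≤ ‖q t i - q t j‖) ∧
      (∀ i ∉ G, ∀ j ∈ G, d / 2 ≤ ‖q t i - q t j‖) ∧
      (∀ i ∈ G, ‖accOnM m Gᶜ (q t) i‖ ≤ B)

/-- The bounds along a solution which starts at a prepared state with a gun. -/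
theorem boot_coreA {s : Fin 3 → V3} {e : V3} {μ₀ C₀ η₀ : ℝ} (hs : GunShape s e)
    (hC : 0 < C₀) (hg : GunProp3 s e μ₀ C₀ η₀) {N : ℕ} {m : Fin N → ℝ}
    {c ν ω r τ T y η Δ W d1 : ℝ} {g : Fin 3 → Fin N} {z : V3} {q₀ v₀ : Fin N → V3}
    {q v : ℝ → Fin N → V3} (hm : ∀ i, 0 < m i)
    (hgm : ∀ k, |m (g k) / m (g 0) - 1| ≤ η₀) (hc : 0 < c) (hr : 0 < r)
    (ho : OthersOut m τ (Finset.univ.image g) q₀ v₀ (c / 2) (16 / c ^ 2) Δ W d1)
    (hντ : ν * τ ≤ c / 4) (hω : 0 ≤ ω)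
    (hy : y = √(m (g 0) / r)) (hη : η = r ^ 2 / m (g 0) * (16 / c ^ 2))
    (hη1 : η ≤ η₀) (hη2 : η * (τ * y / r) ≤ η₀) (hα : ω / y ≤ η₀)
    (hh : C₀ * (ω / y + η * (1 + τ * y / r)) * (r + τ * y) ≤ c / 8)
    (hinj : Function.Injective g) (hbv : ∀ i, ‖v₀ i‖ ≤ ν) (hgq : ∀ k, q₀ (g k) = z + r • s k)
    (hgv : ∀ k, ‖v₀ (g k)‖ ≤ ω) (hlay : ∀ j, j ∉ Set.range g → c ≤ |q₀ j 2 - z 2|)
    (hT0 : 0 ≤ T) (hTτ : T ≤ τ) (hsol : IsSolM m T (fun _ _ => 0) q v)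
    (hq0 : q 0 = q₀) (hv0 : v 0 = v₀) :
      ∀ t ∈ Set.Icc 0 T,
        (∀ i ∉ Set.range g, ‖q t i - (q₀ i + t • v₀ i)‖ ≤ Δ) ∧
        (∀ i ∉ Set.range g, ‖v t i - v₀ i‖ ≤ W) ∧
        (∀ i ∉ Set.range g, ∀ j ∉ Set.range g, i ≠ j → d1 ≤ ‖q t i - q t j‖) ∧
        (∀ i ∉ Set.range g, ∀ k, c / 4 ≤ ‖q t i - q t (g k)‖) ∧
        (0 < T →
          (∀ k l, k ≠ l → r * μ₀ ≤ ‖q t (g k) - q t (g l)‖) ∧
          (∀ k, ‖q t (g k) - z‖ ≤ C₀ * (r + t * y)) ∧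
          (∀ k, ‖v t (g k)‖ ≤ y * C₀) ∧
          t * y / 2 - r * C₀ ≤ ⟪q t (g 0) - z, e⟫ ∧
          (r * C₀ ≤ t * y → y / 2 ≤ ⟪v t (g 0), e⟫) ∧
          (∀ k, k ≠ 0 → ⟪q t (g k) - z, e⟫ ≤ r * C₀)) := by
  classical
  have hM : 0 < m (g 0) := hm _
  have hτ0 : 0 ≤ τ := hT0.trans hTτ
  have hy0 : 0 < y := by
    rw [hy]
    exact Real.sqrt_pos.mpr (by positivity)
  have hy2 : y ^ 2 = m (g 0) / r := by
    rw [hy]
    exact Real.sq_sqrt (by positivity)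
  have hη0 : 0 ≤ η := by
    rw [hη]
    positivity
  have hα0 : 0 ≤ ω / y := by positivity
  set ts : ℝ := r / y with hts
  have hts0 : 0 < ts := by positivity
  have hts2 : ts ^ 2 * m (g 0) = r ^ 3 := by
    rw [hts, div_pow, hy2]
    field_simp
  have hrt : ∀ t : ℝ, r * (t / ts) = t * y := by
    intro t
    rw [hts]
    field_simp
  have hrts : r / ts = y := by
    rw [hts]
    field_simp
  have hTts : ∀ t : ℝ, t / ts = t * y / r := by
    intro t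
    rw [hts]
    field_simp
  set G : Finset (Fin N) := Finset.univ.image g with hG
  have hmem : ∀ i, i ∉ G → i ∉ Set.range g := by
    intro i hi h
    obtain ⟨k, hk⟩ := h
    exact hi (Finset.mem_image.mpr ⟨k, Finset.mem_univ _, hk⟩)
  have hmem' : ∀ i, i ∉ Set.range g → i ∉ G := by
    intro i hi h
    obtain ⟨k, _, hk⟩ := Finset.mem_image.mp h
    exact hi ⟨k, hk⟩
  have hmemG : ∀ i ∈ G, ∃ k, g k = i := by
    intro i hi
    obtain ⟨k, _, hk⟩ := Finset.mem_image.mp hi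
    exact ⟨k, hk⟩
  have hgG : ∀ k, g k ∈ G := fun k => Finset.mem_image.mpr ⟨k, Finset.mem_univ _, rfl⟩
  have hz : ∀ k, q 0 (g k) = z + r • s k := by
    intro k
    rw [hq0]
    exact hgq k
  have hvv : ∀ k, ‖v 0 (g k) - 0‖ ≤ r / ts * (ω / y) := by
    intro k
    rw [sub_zero, hv0, hrts]
    refine (hgv k).trans (le_of_eq ?_)
    field_simp
  have hη1' : r ^ 2 / m (g 0) * (16 / c ^ 2) ≤ η₀ := by
    rw [← hη]
    exact hη1
  have hmono : ∀ T1 : ℝ, T1 ≤ τ → T1 / ts ≤ τ * y / r := by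
    intro T1 h1
    rw [hTts]
    apply div_le_div_of_nonneg_right _ hr.le
    exact mul_le_mul_of_nonneg_right h1 hy0.le
  have hη2' : ∀ T1 : ℝ, T1 ≤ τ → r ^ 2 / m (g 0) * (16 / c ^ 2) * (T1 / ts) ≤ η₀ := by
    intro T1 h1
    rw [← hη]
    exact (mul_le_mul_of_nonneg_left (hmono T1 h1) hη0).trans hη2
  have hB0 : (0 : ℝ) ≤ 16 / c ^ 2 := by positivity
  have hlow : ∀ T1 ∈ Set.Icc 0 T, ∀ j ∉ G, 3 * c / 4 ≤ |(q₀ j + T1 • v₀ j) 2 - z 2| := by
    intro T1 hT1 j hj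
    have h1 := hlay j (hmem j hj)
    have h2 : |T1 * v₀ j 2| ≤ c / 4 := by
      have h3 : |v₀ j 2| ≤ ν := by
        have := PiLp.norm_apply_le (v₀ j) 2
        rw [Real.norm_eq_abs] at this
        exact this.trans (hbv j)
      rw [abs_mul, abs_of_nonneg hT1.1]
      calc T1 * |v₀ j 2| ≤ τ * ν :=
            mul_le_mul (hT1.2.trans hTτ) h3 (abs_nonneg _) hτ0
        _ ≤ c / 4 := by linarith
    have h3 : q₀ j 2 - z 2 = ((q₀ j + T1 • v₀ j) 2 - z 2) - T1 * v₀ j 2 := by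
      simp only [PiLp.add_apply, PiLp.smul_apply, smul_eq_mul]
      ring
    rw [h3] at h1
    have h4 := abs_sub ((q₀ j + T1 • v₀ j) 2 - z 2) (T1 * v₀ j 2)
    linarith
  have hheight : ∀ T1 ∈ Set.Icc 0 T, ∀ k, |q T1 (g k) 2 - z 2| ≤ c / 8 →
      ∀ j ∉ G, c / 2 < ‖q T1 (g k) - (q₀ j + T1 • v₀ j)‖ := by
    intro T1 hT1 k hk j hj
    have h1 := hlow T1 hT1 j hj
    have h2 := abs_coord2_le (q T1 (g k)) (q₀ j + T1 • v₀ j)
    have h3 : (q₀ j + T1 • v₀ j) 2 - z 2 =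
        (q T1 (g k) 2 - z 2) - (q T1 (g k) 2 - (q₀ j + T1 • v₀ j) 2) := by ring
    rw [h3] at h1
    have h4 := abs_sub (q T1 (g k) 2 - z 2) (q T1 (g k) 2 - (q₀ j + T1 • v₀ j) 2)
    linarith
  have hgun : ∀ T1 ∈ Icc (0 : ℝ) T,
      (∀ t ∈ Icc (0 : ℝ) T1, ∀ i ∈ G, ‖accOnM m Gᶜ (q t) i‖ ≤ 16 / c ^ 2) →
      ∀ i ∈ G, ∀ j ∉ G, c / 2 < ‖q T1 i - (q₀ j + T1 • v₀ j)‖ := by
    intro T1 hT1 hext i hi j hj
    obtain ⟨k, rfl⟩ := hmemG i hi
    have hT1τ : T1 ≤ τ := hT1.2.trans hTτ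
    refine hheight T1 hT1 k ?_ j hj
    rcases lt_or_eq_of_le hT1.1 with h0 | h0
    · have h1 := gun_bounds3 hg (T := T1) (r := r) (ts := ts) hM hr hts0 hts2 h0 hB0 hgm
        hη1' (hη2' T1 hT1τ) hα0 hα hinj z 0 (hsol.mono hT1.2) hz hvv
        (fun t ht k => hext t ht (g k) (hgG k)) T1 ⟨h0.le, le_refl _⟩
      have h2 := h1.2.1 k
      have h3 : r * (C₀ * (ω / y + r ^ 2 / m (g 0) * (16 / c ^ 2) * (1 + T1 / ts)) *
          (1 + T1 / ts)) ≤ c / 8 := by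
        rw [← hη]
        have h4 : r * (C₀ * (ω / y + η * (1 + T1 / ts)) * (1 + T1 / ts)) =
            C₀ * (ω / y + η * (1 + T1 / ts)) * (r + r * (T1 / ts)) := by ring
        rw [h4, hrt]
        refine le_trans ?_ hh
        have h5 : T1 * y ≤ τ * y := mul_le_mul_of_nonneg_right hT1τ hy0.le
        have h6 : 0 ≤ T1 / ts := div_nonneg h0.le hts0.le
        have h7 : 0 ≤ T1 * y := mul_nonneg h0.le hy0.le
        have h8 : 0 ≤ τ * y / r := by positivity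
        apply mul_le_mul _ (by linarith) (by linarith) (by positivity)
        apply mul_le_mul_of_nonneg_left _ hC.le
        apply add_le_add_right
        apply mul_le_mul_of_nonneg_left _ hη0
        have := hmono T1 hT1τ
        linarith
      have h4 : q T1 (g k) 2 - z 2 = q T1 (g k) 2 - z 2 - T1 * (0 : V3) 2 := by
        simp
      rw [h4]
      exact h2.trans h3
    · rw [← h0, hz k]
      simp only [PiLp.add_apply, PiLp.smul_apply, smul_eq_mul, hs.flat k, mul_zero, add_zero,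
        sub_self, abs_zero]
      positivity
  have key := ho T ⟨hT0, hTτ⟩ q v hsol hq0 hv0 hgun
  intro t ht
  obtain ⟨k1, k2, k3, k4, k5⟩ := key t ht
  refine ⟨fun i hi => k1 i (hmem' i hi), fun i hi => k2 i (hmem' i hi),
    fun i hi j hj hij => k3 i (hmem' i hi) j (hmem' j hj) hij, ?_, ?_⟩
  · intro i hi k
    have := k4 i (hmem' i hi) (g k) (hgG k)
    linarith
  · intro hT
    have h1 := gun_bounds3 hg (T := T) (r := r) (ts := ts) hM hr hts0 hts2 hT hB0 hgm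
      hη1' (hη2' T hTτ) hα0 hα hinj z 0 hsol hz hvv
      (fun t ht k => (key t ht).2.2.2.2 (g k) (hgG k)) t ht
    simp only [smul_zero, sub_zero] at h1
    obtain ⟨g1, g2, g3, g4, g5, g6, g7⟩ := h1
    refine ⟨g1, ?_, ?_, ?_, ?_, g7⟩
    · intro k
      refine (g3 k).trans (le_of_eq ?_)
      have : r * (C₀ * (1 + t / ts)) = C₀ * (r + r * (t / ts)) := by ring
      rw [this, hrt]
    · intro k
      rw [← hrts]
      exact g4 k
    · refine le_trans (le_of_eq ?_) g5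
      have : r * (t / ts / 2 - C₀) = r * (t / ts) / 2 - r * C₀ := by ring
      rw [this, hrt]
    · intro hle
      have h2 : C₀ ≤ t / ts := by
        have h3 : r * C₀ ≤ r * (t / ts) := by
          rw [hrt]
          exact hle
        exact le_of_mul_le_mul_left h3 hr
      have h3 := g6 h2
      rw [hrts] at h3
      linarith

end Pool.Agent.NBody
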