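import Mathlib
import Pool.Agent.NBody.ThBoot3A1
import Pool.Agent.NBody.ThBoot4

/-!
Bootstrap of a prepared state of type I-A (gun with small initial velocities, the other bodies
move along straight lines), with explicit conditions.
-/

set_option autoImplicit false
open scoped RealInnerProductSpace
open Set Finset Filter Topology

namespace Pool.Agent.NBody

/-- The bootstrap with a gun, from the bootstrap of the other bodies; all conditions explicit. -/
theorem boot_atA {s : Fin 3 → V3} {e : V3} {μ₀ C₀ η₀ : ℝ} (hs : GunShape s e) (hμ₀ : 0 < μ₀)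
    (hC : 0 < C₀) (hg : GunProp3 s e μ₀ C₀ η₀) {N : ℕ} {m : Fin N → ℝ}
    {R c ν ω r τ y η Δ W d1 : ℝ} {g : Fin 3 → Fin N} {z : V3} {q₀ v₀ : Fin N → V3}
    (hm : ∀ i, 0 < m i) (hsum : ∑ i, m i ≤ 1)
    (hgm : ∀ k, |m (g k) / m (g 0) - 1| ≤ η₀) (hR : 0 ≤ R) (hc : 0 < c) (hr : 0 < r)
    (hr1 : r ≤ 1) (hrC : r * C₀ ≤ 1) (hτ : 0 < τ) (hd1 : 0 < d1) (hν : 0 ≤ ν) (hW : 0 ≤ W)
    (ho : OthersOut m τ (Finset.univ.image g) q₀ v₀ (c / 2) (16 / c ^ 2) Δ W d1)
    (hντ : ν * τ ≤ c / 4) (hΔ : ν * τ + Δ ≤ 1) (hω : 0 ≤ ω)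
    (hy : y = √(m (g 0) / r)) (hη : η = r ^ 2 / m (g 0) * (16 / c ^ 2))
    (hη1 : η ≤ η₀) (hη2 : η * (τ * y / r) ≤ η₀) (hα : ω / y ≤ η₀)
    (hh : C₀ * (ω / y + η * (1 + τ * y / r)) * (r + τ * y) ≤ c / 8)
    (hτy : 8 * (R + 2) ≤ τ * y)
    (hinj : Function.Injective g) (hbq : ∀ i, ‖q₀ i‖ ≤ R) (hbv : ∀ i, ‖v₀ i‖ ≤ ν)
    (hgq : ∀ k, q₀ (g k) = z + r • s k)
    (hgv : ∀ k, ‖v₀ (g k)‖ ≤ ω) (hlay : ∀ j, j ∉ Set.range g → c ≤ |q₀ j 2 - z 2|)
    (hne : ∀ i, i ∉ Set.range g → ∀ j, j ∉ Set.range g → i ≠ j → q₀ i ≠ q₀ j) :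
      (∃ K : Set (Ph N), IsCompact K ∧ K ⊆ NC N ∧
        ∀ T' : ℝ, 0 ≤ T' → T' ≤ τ → ∀ q v : ℝ → Fin N → V3,
          IsSolM m T' (fun _ _ => 0) q v → q 0 = q₀ → v 0 = v₀ →
          ∀ t ∈ Icc (0 : ℝ) T', ((q t, fun i => m i • v t i) : Ph N) ∈ K) ∧
      (∀ q v : ℝ → Fin N → V3,
          IsSolM m τ (fun _ _ => 0) q v → q 0 = q₀ → v 0 = v₀ →
          (∀ j, j ≠ g 0 → ⟪q τ j, e⟫ ≤ R + 2) ∧ 3 * R + 3 ≤ ⟪q τ (g 0), e⟫ ∧
          y / 2 ≤ ⟪v τ (g 0), e⟫) := by
  have hM : 0 < m (g 0) := hm _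
  have hy0 : 0 < y := by
    rw [hy]
    exact Real.sqrt_pos.mpr (by positivity)
  have hcore : ∀ T' : ℝ, 0 ≤ T' → T' ≤ τ → ∀ q v : ℝ → Fin N → V3,
      IsSolM m T' (fun _ _ => 0) q v → q 0 = q₀ → v 0 = v₀ → _ :=
    fun T' hT0 hTτ q v hsol hq0 hv0 =>
      boot_coreA (T := T') (q := q) (v := v) hs hC hg hm hgm hc hr ho hντ hω hy hη hη1 hη2 hα hh
        hinj hbv hgq hgv hlay hT0 hTτ hsol hq0 hv0
  have hnz : ‖z‖ ≤ R + 1 := by
    have h1 : z = q₀ (g 0) - r • s 0 := by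
      rw [hgq 0]
      abel
    rw [h1]
    refine (norm_sub_le _ _).trans ?_
    have h2 : ‖r • s 0‖ ≤ 1 := by
      rw [norm_smul, Real.norm_of_nonneg hr.le]
      calc r * ‖s 0‖ ≤ 1 * 1 := mul_le_mul hr1 (hs.le 0) (norm_nonneg _) zero_le_one
        _ = 1 := one_mul 1
    exact add_le_add (hbq _) h2
  have hm1 : ∀ i, m i ≤ 1 := fun i =>
    (Finset.single_le_sum (fun j _ => (hm j).le) (Finset.mem_univ i)).trans hsum
  have hline : ∀ t ∈ Icc (0 : ℝ) τ, ∀ i, ‖t • v₀ i‖ ≤ ν * τ := by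
    intro t ht i
    rw [norm_smul, Real.norm_of_nonneg ht.1, mul_comm]
    exact mul_le_mul (hbv i) ht.2 ht.1 hν
  have hout : ∀ t ∈ Icc (0 : ℝ) τ, ∀ (x : V3) (i : Fin N), ‖x - (q₀ i + t • v₀ i)‖ ≤ Δ →
      ‖x‖ ≤ R + 1 := by
    intro t ht x i hx
    have h1 : x = (x - (q₀ i + t • v₀ i)) + (q₀ i + t • v₀ i) := by abel
    have h2 := norm_add_le (q₀ i) (t • v₀ i)
    have h3 := hline t ht i
    have h4 := hbq i
    rw [h1]
    exact (norm_add_le _ _).trans (by linarith)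
  refine ⟨?_, ?_⟩
  · set B : ℝ := (R + 1) + 1 + C₀ * (r + τ * y) + ν + W + y * C₀ with hB
    have hpos1 : 0 ≤ y * C₀ := by positivity
    have hpos2 : 0 ≤ C₀ * (r + τ * y) := by positivity
    set d : ℝ := min d1 (min (c / 4) (r * μ₀)) with hd
    have hd0 : 0 < d := lt_min hd1 (lt_min (by positivity) (by positivity))
    refine ⟨{x : Ph N | (∀ i, ‖x.1 i‖ ≤ B) ∧ (∀ i, ‖x.2 i‖ ≤ B) ∧
      ∀ i j, i ≠ j → d ≤ ‖x.1 i - x.1 j‖} ∪ {((q₀, fun i => m i • v₀ i) : Ph N)},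
      (isCompact_box N B d).union isCompact_singleton, ?_, ?_⟩
    · rintro x (hx | hx)
      · intro i j hij h
        have h1 := hx.2.2 i j hij
        rw [h, sub_self, norm_zero] at h1
        linarith
      · rw [Set.mem_singleton_iff] at hx
        rw [hx]
        intro i j hij h
        have h' : q₀ i = q₀ j := h
        by_cases hi : i ∈ Set.range g
        · obtain ⟨k, rfl⟩ := hi
          by_cases hj : j ∈ Set.range g
          · obtain ⟨l, rfl⟩ := hj
            rw [hgq k, hgq l] at h'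
            have h2 := add_left_cancel h'
            exact hs.ne k l (fun hkl => hij (by rw [hkl]))
              (smul_right_injective V3 hr.ne' h2)
          · have h2 := hlay j hj
            rw [← h', hgq k] at h2
            simp only [PiLp.add_apply, PiLp.smul_apply, smul_eq_mul, hs.flat k, mul_zero,
              add_zero, sub_self, abs_zero] at h2
            linarith
        · by_cases hj : j ∈ Set.range g
          · obtain ⟨l, rfl⟩ := hj
            have h2 := hlay i hi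
            rw [h', hgq l] at h2
            simp only [PiLp.add_apply, PiLp.smul_apply, smul_eq_mul, hs.flat l, mul_zero,
              add_zero, sub_self, abs_zero] at h2
            linarith
          · exact hne i hi j hj hij h'
    · intro T' hT0 hTτ q v hsol hq0 hv0 t ht
      rcases lt_or_eq_of_le hT0 with hT | hT
      · left
        obtain ⟨k1, k2, k3, k4, k5⟩ := hcore T' hT0 hTτ q v hsol hq0 hv0 t ht
        obtain ⟨g1, g2, g3, g4, g5, g6⟩ := k5 hT
        have htτ : t ∈ Icc (0 : ℝ) τ := ⟨ht.1, ht.2.trans hTτ⟩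
        refine ⟨?_, ?_, ?_⟩
        · intro i
          show ‖q t i‖ ≤ B
          by_cases hi : i ∈ Set.range g
          · obtain ⟨k, rfl⟩ := hi
            have h1 := g2 k
            have h2 : q t (g k) = (q t (g k) - z) + z := by abel
            have h4 : C₀ * (r + t * y) ≤ C₀ * (r + τ * y) := by
              apply mul_le_mul_of_nonneg_left _ hC.le
              apply add_le_add_right
              exact mul_le_mul_of_nonneg_right htτ.2 hy0.le
            have h5 : ‖q t (g k)‖ ≤ ‖q t (g k) - z‖ + ‖z‖ := by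
              conv_lhs => rw [h2]
              exact norm_add_le _ _
            linarith
          · have h1 := hout t htτ _ i (k1 i hi)
            linarith
        · intro i
          show ‖m i • v t i‖ ≤ B
          have hsc : ‖m i • v t i‖ ≤ ‖v t i‖ := by
            rw [norm_smul, Real.norm_of_nonneg (hm i).le]
            exact mul_le_of_le_one_left (norm_nonneg _) (hm1 i)
          refine hsc.trans ?_
          by_cases hi : i ∈ Set.range g
          · obtain ⟨k, rfl⟩ := hi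
            have h1 := g3 k
            linarith
          · have h1 := k2 i hi
            have h2 : ‖v t i‖ ≤ ‖v t i - v₀ i‖ + ‖v₀ i‖ := by
              have : v t i = (v t i - v₀ i) + v₀ i := by abel
              conv_lhs => rw [this]
              exact norm_add_le _ _
            have h3 := hbv i
            linarith
        · intro i j hij
          show d ≤ ‖q t i - q t j‖
          by_cases hi : i ∈ Set.range g
          · obtain ⟨k, rfl⟩ := hi
            by_cases hj : j ∈ Set.range g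
            · obtain ⟨l, rfl⟩ := hj
              have h1 := g1 k l (fun hkl => hij (by rw [hkl]))
              exact ((min_le_right _ _).trans (min_le_right _ _)).trans h1
            · have h1 := k4 j hj k
              rw [norm_sub_rev] at h1
              exact ((min_le_right _ _).trans (min_le_left _ _)).trans h1
          · by_cases hj : j ∈ Set.range g
            · obtain ⟨l, rfl⟩ := hj
              exact ((min_le_right _ _).trans (min_le_left _ _)).trans (k4 i hi l)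
            · exact (min_le_left _ _).trans (k3 i hi j hj hij)
      · right
        have ht0 : t = 0 := le_antisymm (by rw [hT]; exact ht.2) ht.1
        rw [ht0, hq0, hv0]
        exact Set.mem_singleton _
  · intro q v hsol hq0 hv0
    obtain ⟨k1, k2, k3, k4, k5⟩ := hcore τ hτ.le (le_refl _) q v hsol hq0 hv0 τ ⟨hτ.le, le_refl _⟩
    obtain ⟨g1, g2, g3, g4, g5, g6⟩ := k5 hτ
    have hin : ∀ y' : V3, |⟪y', e⟫| ≤ ‖y'‖ := by
      intro y'
      have := abs_real_inner_le_norm y' e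
      rwa [hs.norm, mul_one] at this
    have hsplit : ∀ k, ⟪q τ (g k), e⟫ = ⟪q τ (g k) - z, e⟫ + ⟪z, e⟫ := by
      intro k
      rw [← inner_add_left]
      congr 1
      abel
    have hz1 := le_of_abs_le (hin z)
    have hz2 := neg_le_of_abs_le (hin z)
    refine ⟨?_, ?_, ?_⟩
    · intro j hj
      by_cases hjr : j ∈ Set.range g
      · obtain ⟨k, rfl⟩ := hjr
        have hk : k ≠ 0 := fun h => hj (by rw [h])
        have h1 := g6 k hk
        rw [hsplit k]
        linarith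
      · have h1 := hout τ ⟨hτ.le, le_refl _⟩ _ j (k1 j hjr)
        have h4 := le_of_abs_le (hin (q τ j))
        linarith
    · rw [hsplit 0]
      linarith
    · exact g5 (by linarith)

/-- The bootstrap of the other bodies of a prepared state of type I-A. -/
theorem othersOut3A {C : ℝ} (ho : Others3 C) {N : ℕ} {m : Fin N → ℝ}
    {μ R c ν ω r τ A s s' φ : ℝ} {sh : Fin 3 → V3} {e : V3} (hs : GunShape sh e)
    {F : Finset (Fin N)} {g : Fin 3 → Fin N} {z : V3}
    {q₀ v₀ : Fin N → V3} (hm : ∀ i, 0 < m i) (hmμ : ∀ i, m i ≤ μ) (hμ : 0 < μ)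
    (hsum : ∑ i, m i ≤ 1) (hc : 0 < c) (hs' : 0 < s') (hss : s' ≤ s) (hs2 : s ≤ 2)
    (hφ : 1 ≤ φ) (hF : (F.card : ℝ) ≤ φ ^ 3) (hA0 : 0 ≤ A)
    (hA : C * μ * (φ / s' ^ 2 + 1 / s ^ 3) + 1 + 48 * μ / c ^ 2 ≤ A)
    (hA1 : A * τ ^ 2 < s' / 4) (hA2 : A * τ ^ 2 < c / 8)
    (hp : Prep3A N R c ν ω τ s s' r sh F g z q₀ v₀) :
    OthersOut m τ (Finset.univ.image g) q₀ v₀ (c / 2) (16 / c ^ 2) (A * τ ^ 2) (A * τ)
      (s' / 2) := by
  intro T hT q v hsol hq0 hv0 hgun
  have hmem : ∀ i, i ∉ (Finset.univ.image g : Finset (Fin N)) → i ∉ Set.range g := by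
    intro i hi h
    obtain ⟨k, hk⟩ := h
    exact hi (Finset.mem_image.mpr ⟨k, Finset.mem_univ _, hk⟩)
  have hT2 : A * T ^ 2 ≤ A * τ ^ 2 :=
    mul_le_mul_of_nonneg_left (pow_le_pow_left₀ hT.1 hT.2 2) hA0
  have hT1 : A * T ≤ A * τ := mul_le_mul_of_nonneg_left hT.2 hA0
  have hcard : (Finset.univ.image g : Finset (Fin N)).card ≤ 3 := by
    have := Finset.card_image_le (s := (Finset.univ : Finset (Fin 3))) (f := g)
    simpa using this
  have key := ho (m := m) (μ := μ) (T := T) (s := s) (s' := s') (d := c / 2) (B := 16 / c ^ 2)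
    (A := A) (φ := φ) (G := Finset.univ.image g) (F := F) (q := q) (v := v)
    (fun i => (hm i).le) hmμ hμ hsum hs' hss hs2 (by positivity) hcard hφ hF hsol
    (by
      intro i hi j hj hij t ht
      rw [hq0, hv0]
      exact hp.sep' i j (hmem i hi) (hmem j hj) hij t ⟨ht.1, ht.2.trans hT.2⟩)
    (by
      intro i hi hiF j hj hjF hij t ht
      rw [hq0, hv0]
      exact hp.sep i j (hmem i hi) (hmem j hj) hiF hjF hij t ⟨ht.1, ht.2.trans hT.2⟩)
    (by
      have h1 : 12 * μ / (c / 2) ^ 2 = 48 * μ / c ^ 2 := by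
        field_simp
        ring
      rw [h1]
      exact hA) (by linarith) (by linarith)
    (Or.inl (by
      have h1 : 4 / (c / 2) ^ 2 = 16 / c ^ 2 := by
        field_simp
        ring
      rw [h1]))
    (by
      intro i hi j hj
      obtain ⟨k, _, rfl⟩ := Finset.mem_image.mp hi
      rw [hq0]
      have h1 := hp.lay j (hmem j hj)
      have h2 := abs_coord2_le (q₀ (g k)) (q₀ j)
      have h3 : q₀ (g k) 2 = z 2 := by
        rw [hp.gq k]
        simp only [PiLp.add_apply, PiLp.smul_apply, smul_eq_mul, hs.flat k, mul_zero, add_zero]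
      rw [h3, abs_sub_comm] at h2
      linarith)
    (by
      intro T1 hT1 hext i hi j hj
      rw [hq0, hv0]
      exact hgun T1 hT1 hext i hi j hj)
  intro t ht
  obtain ⟨k1, k2, k3, k4, k5⟩ := key t ht
  rw [hq0, hv0] at k1
  rw [hv0] at k2
  exact ⟨fun i hi => (k1 i hi).trans hT2, fun i hi => (k2 i hi).trans hT1, k3, k4, k5⟩

/-- The bootstrap of a prepared state of type I-A, all conditions explicit. -/
theorem boot_at3A {sh : Fin 3 → V3} {e : V3} {μ₀ C₀ η₀ C : ℝ} (hs : GunShape sh e)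
    (hμ₀ : 0 < μ₀) (hC : 0 < C₀) (hg : GunProp3 sh e μ₀ C₀ η₀) (ho : Others3 C) {N : ℕ}
    {m : Fin N → ℝ} {μ R c ν ω r τ A s s' φ y η : ℝ} {F : Finset (Fin N)}
    {g : Fin 3 → Fin N} {z : V3} {q₀ v₀ : Fin N → V3}
    (hm : ∀ i, 0 < m i) (hmμ : ∀ i, m i ≤ μ) (hμ : 0 < μ) (hsum : ∑ i, m i ≤ 1)
    (hgm : ∀ k, |m (g k) / m (g 0) - 1| ≤ η₀) (hR : 0 ≤ R) (hc : 0 < c) (hc4 : c ≤ 2)
    (hr : 0 < r) (hr1 : r ≤ 1) (hrC : r * C₀ ≤ 1) (hτ : 0 < τ) (hν : 0 ≤ ν) (hω : 0 ≤ ω)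
    (hs' : 0 < s') (hss : s' ≤ s) (hs2 : s ≤ 2) (hφ : 1 ≤ φ) (hF : (F.card : ℝ) ≤ φ ^ 3)
    (hA0 : 0 ≤ A) (hA : C * μ * (φ / s' ^ 2 + 1 / s ^ 3) + 1 + 48 * μ / c ^ 2 ≤ A)
    (hA1 : A * τ ^ 2 < s' / 4) (hA2 : A * τ ^ 2 < c / 8) (hντ : ν * τ ≤ c / 4)
    (hy : y = √(m (g 0) / r)) (hη : η = r ^ 2 / m (g 0) * (16 / c ^ 2))
    (hη1 : η ≤ η₀) (hη2 : η * (τ * y / r) ≤ η₀) (hα : ω / y ≤ η₀)
    (hh : C₀ * (ω / y + η * (1 + τ * y / r)) * (r + τ * y) ≤ c / 8)
    (hτy : 8 * (R + 2) ≤ τ * y)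
    (hp : Prep3A N R c ν ω τ s s' r sh F g z q₀ v₀) :
      (∃ K : Set (Ph N), IsCompact K ∧ K ⊆ NC N ∧
        ∀ T' : ℝ, 0 ≤ T' → T' ≤ τ → ∀ q v : ℝ → Fin N → V3,
          IsSolM m T' (fun _ _ => 0) q v → q 0 = q₀ → v 0 = v₀ →
          ∀ t ∈ Icc (0 : ℝ) T', ((q t, fun i => m i • v t i) : Ph N) ∈ K) ∧
      (∀ q v : ℝ → Fin N → V3,
          IsSolM m τ (fun _ _ => 0) q v → q 0 = q₀ → v 0 = v₀ →
          (∀ j, j ≠ g 0 → ⟪q τ j, e⟫ ≤ R + 2) ∧ 3 * R + 3 ≤ ⟪q τ (g 0), e⟫ ∧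
          y / 2 ≤ ⟪v τ (g 0), e⟫) :=
  boot_atA hs hμ₀ hC hg hm hsum hgm hR hc hr hr1 hrC hτ (d1 := s' / 2) (by positivity) hν
    (W := A * τ) (by positivity)
    (othersOut3A ho hs hm hmμ hμ hsum hc hs' hss hs2 hφ hF hA0 hA hA1 hA2 hp)
    hντ (by linarith) hω hy hη hη1 hη2 hα hh hτy hp.inj hp.bq hp.bv hp.gq hp.gv hp.lay
    (by
      intro i hi j hj hij h
      have h1 := hp.sep' i j hi hj hij 0 ⟨le_refl _, hτ.le⟩
      simp only [zero_smul, add_zero] at h1
      rw [h, sub_self, norm_zero] at h1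
      linarith)

end Pool.Agent.NBody
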