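import Mathlib
import Pool.Agent.NBody.ThBootM2
import Pool.Agent.NBody.ThBoot4

/-!
Bootstrap of a prepared state of many bodies with arbitrary masses, with explicit conditions.
-/

set_option autoImplicit false
open scoped RealInnerProductSpace
open Set Finset Filter Topology

namespace Pool.Agent.NBody

/-- The bounds along a solution which starts at a prepared state; all conditions explicit. -/
theorem boot_coreM {s : Fin 3 → V3} {e : V3} {μ₀ C₀ η₀ : ℝ} (hs : GunShape s e)
    (hC : 0 < C₀) (hg : GunPropM s e μ₀ C₀ η₀) {N : ℕ} {m : Fin N → ℝ} {μ R c σ r τ A T y η : ℝ}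
    {g : Fin 3 → Fin N} {z w : V3} {q v : ℝ → Fin N → V3} (hm : ∀ i, 0 < m i)
    (hmμ : ∀ i, m i ≤ μ) (hsum : ∑ i, m i ≤ 1) (hgm : ∀ k, |m (g k) / m (g 0) - 1| ≤ η₀)
    (hR : 0 < R) (hc : 0 < c) (hσ : 0 < σ) (hσ2 : σ ≤ 2) (hr : 0 < r)
    (hA : 3456 * μ / σ ^ 3 + 1 + 48 * μ / c ^ 2 ≤ A)
    (hs1 : (R + A * τ) * τ < σ / 4) (hs2 : (R + A * τ) * τ < c / 4)
    (hs3 : (R + A * τ) * τ ≤ 1) (hs4 : R * τ ≤ c / 8)
    (hy : y = √(m (g 0) / r)) (hη : η = r ^ 2 / m (g 0) * (16 / c ^ 2))
    (hη1 : η ≤ η₀) (hη2 : η * (τ * y / r) ≤ η₀)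
    (hh : C₀ * (η * (1 + τ * y / r)) * (r + τ * y) ≤ c / 8)
    (hT0 : 0 ≤ T) (hTτ : T ≤ τ) (hsol : IsSolM m T (fun _ _ => 0) q v)
    (hp : Prep N R c σ r s g z w (q 0) (v 0)) :
      ∀ t ∈ Set.Icc 0 T,
        (∀ i ∉ Set.range g, ‖q t i - q 0 i‖ ≤ 1) ∧
        (∀ i ∉ Set.range g, ‖v t i - v 0 i‖ ≤ A * τ) ∧
        (∀ i ∉ Set.range g, ∀ j ∉ Set.range g, i ≠ j → σ / 2 ≤ ‖q t i - q t j‖) ∧
        (∀ i ∉ Set.range g, ∀ k, c / 4 ≤ ‖q t i - q t (g k)‖) ∧
        (0 < T →
          (∀ k l, k ≠ l → r * μ₀ ≤ ‖q t (g k) - q t (g l)‖) ∧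
          (∀ k, ‖q t (g k) - z - t • w‖ ≤ C₀ * (r + t * y)) ∧
          (∀ k, ‖v t (g k) - w‖ ≤ y * C₀) ∧
          t * y / 2 - r * C₀ ≤ ⟪q t (g 0) - z - t • w, e⟫ ∧
          (r * C₀ ≤ t * y → y / 2 ≤ ⟪v t (g 0) - w, e⟫) ∧
          (∀ k, k ≠ 0 → ⟪q t (g k) - z - t • w, e⟫ ≤ r * C₀)) := by
  classical
  have hM : 0 < m (g 0) := hm _
  have hμ : 0 < μ := lt_of_lt_of_le hM (hmμ _)
  have hτ0 : 0 ≤ τ := hT0.trans hTτ
  have hA1 : 1 ≤ A := by
    have h1 : 0 ≤ 3456 * μ / σ ^ 3 := by positivity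
    have h2 : 0 ≤ 48 * μ / c ^ 2 := by positivity
    linarith
  have hy0 : 0 < y := by
    rw [hy]
    exact Real.sqrt_pos.mpr (by positivity)
  have hy2 : y ^ 2 = m (g 0) / r := by
    rw [hy]
    exact Real.sq_sqrt (by positivity)
  have hη0 : 0 ≤ η := by
    rw [hη]
    positivity
  set ts : ℝ := r / y with hts
  have hts0 : 0 < ts := by positivity
  have hts2 : ts ^ 2 * m (g 0) = r ^ 3 := by
    rw [hts, div_pow, hy2]
    field_simp
  have hrt : ∀ t : ℝ, r * (t / ts) = t * y := by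
    intro t
    rw [hts]
    field_simp
  have hrts : r / ts = y := by
    rw [hts]
    field_simp
  have hTts : ∀ t : ℝ, t / ts = t * y / r := by
    intro t
    rw [hts]
    field_simp
  have hz : ∀ k, q 0 (g k) = z + r • s k := hp.gq
  have hw : ‖w‖ ≤ R := by
    rw [← hp.gv 0]
    exact hp.bv _
  set G : Finset (Fin N) := Finset.univ.image g with hG
  have hmem : ∀ i, i ∉ G → i ∉ Set.range g := by
    intro i hi h
    obtain ⟨k, hk⟩ := h
    exact hi (Finset.mem_image.mpr ⟨k, Finset.mem_univ _, hk⟩)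
  have hmem' : ∀ i, i ∉ Set.range g → i ∉ G := by
    intro i hi h
    obtain ⟨k, _, hk⟩ := Finset.mem_image.mp h
    exact hi ⟨k, hk⟩
  have hmemG : ∀ i ∈ G, ∃ k, g k = i := by
    intro i hi
    obtain ⟨k, _, hk⟩ := Finset.mem_image.mp hi
    exact ⟨k, hk⟩
  have hgG : ∀ k, g k ∈ G := fun k => Finset.mem_image.mpr ⟨k, Finset.mem_univ _, rfl⟩
  have hGcard : G.card ≤ 3 := by
    have := Finset.card_image_le (s := (Finset.univ : Finset (Fin 3))) (f := g)
    simpa using this
  have hη1' : r ^ 2 / m (g 0) * (16 / c ^ 2) ≤ η₀ := by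
    rw [← hη]
    exact hη1
  have hmono : ∀ T1 : ℝ, T1 ≤ τ → T1 / ts ≤ τ * y / r := by
    intro T1 h1
    rw [hTts]
    apply div_le_div_of_nonneg_right _ hr.le
    exact mul_le_mul_of_nonneg_right h1 hy0.le
  have hη2' : ∀ T1 : ℝ, T1 ≤ τ → r ^ 2 / m (g 0) * (16 / c ^ 2) * (T1 / ts) ≤ η₀ := by
    intro T1 h1
    rw [← hη]
    exact (mul_le_mul_of_nonneg_left (hmono T1 h1) hη0).trans hη2
  have hw2 : |w 2| ≤ R := by
    have := PiLp.norm_apply_le w 2
    rw [Real.norm_eq_abs] at this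
    exact this.trans hw
  have hAT : A * T ≤ A * τ := mul_le_mul_of_nonneg_left hTτ (by linarith)
  have hATT : (R + A * T) * T ≤ (R + A * τ) * τ :=
    mul_le_mul (by linarith) hTτ hT0 (by positivity)
  have key := othersM (m := m) (μ := μ) (G := G) (z := z) (A := A) (c := c) (σ := σ) (R := R)
    (fun i => (hm i).le) hmμ hμ hsum hR.le hσ hσ2 hc
    hGcard hsol (fun i _ => hp.bv i)
    (fun i hi j hj hij => hp.sep i j (hmem i hi) (hmem j hj) hij)
    (fun j hj => hp.lay j (hmem j hj))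
    (by
      intro i hi
      obtain ⟨k, rfl⟩ := hmemG i hi
      rw [hz k]
      simp only [PiLp.add_apply, PiLp.smul_apply, smul_eq_mul, hs.flat k, mul_zero, add_zero,
        sub_self, abs_zero]
      positivity) hA (by linarith) (by linarith)
    (by
      intro T1 hT1 hext i hi
      obtain ⟨k, rfl⟩ := hmemG i hi
      have hT1τ : T1 ≤ τ := hT1.2.trans hTτ
      rcases lt_or_eq_of_le hT1.1 with h0 | h0
      · have h1 := gun_boundsM hg (T := T1) (r := r) (ts := ts) (c := c) hM hr hts0 hts2 h0 hc hgm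
          hη1' (hη2' T1 hT1τ) hp.inj z w (hsol.mono hT1.2) hz hp.gv
          (fun t ht k => hext t ht (g k) (hgG k)) T1 ⟨h0.le, le_refl _⟩
        have h2 := h1.2.1 k
        have h3 : r * (C₀ * (r ^ 2 / m (g 0) * (16 / c ^ 2) * (1 + T1 / ts)) * (1 + T1 / ts)) ≤
            c / 8 := by
          rw [← hη]
          have h4 : r * (C₀ * (η * (1 + T1 / ts)) * (1 + T1 / ts)) =
              C₀ * (η * (1 + T1 / ts)) * (r + r * (T1 / ts)) := by ring
          rw [h4, hrt]
          refine le_trans ?_ hh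
          have h5 : T1 * y ≤ τ * y := mul_le_mul_of_nonneg_right hT1τ hy0.le
          have h6 : 0 ≤ T1 / ts := div_nonneg h0.le hts0.le
          have h7 : 0 ≤ T1 * y := mul_nonneg h0.le hy0.le
          apply mul_le_mul _ (by linarith) (by linarith) (by
            have : 0 ≤ τ * y / r := by positivity
            positivity)
          apply mul_le_mul_of_nonneg_left _ hC.le
          apply mul_le_mul_of_nonneg_left _ hη0
          have := hmono T1 hT1τ
          linarith
        have h4 : |T1 * w 2| ≤ c / 8 := by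
          rw [abs_mul, abs_of_pos h0]
          calc T1 * |w 2| ≤ τ * R := mul_le_mul hT1τ hw2 (abs_nonneg _) hτ0
            _ ≤ c / 8 := by linarith
        have h5 : q T1 (g k) 2 - z 2 = (q T1 (g k) 2 - z 2 - T1 * w 2) + T1 * w 2 := by ring
        rw [h5]
        refine (abs_add_le _ _).trans ?_
        linarith
      · rw [← h0, hz k]
        simp only [PiLp.add_apply, PiLp.smul_apply, smul_eq_mul, hs.flat k, mul_zero, add_zero,
          sub_self, abs_zero]
        positivity)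
  intro t ht
  obtain ⟨k1, k2, k3, k4, k5⟩ := key t ht
  refine ⟨?_, ?_, ?_, ?_, ?_⟩
  · intro i hi
    exact (k1 i (hmem' i hi)).trans (hATT.trans hs3)
  · intro i hi
    exact (k2 i (hmem' i hi)).trans hAT
  · intro i hi j hj hij
    exact k3 i (hmem' i hi) j (hmem' j hj) hij
  · intro i hi k
    exact k4 i (hmem' i hi) (g k) (hgG k)
  · intro hT
    have h1 := gun_boundsM hg (T := T) (r := r) (ts := ts) (c := c) hM hr hts0 hts2 hT hc hgm
      hη1' (hη2' T hTτ) hp.inj z w hsol hz hp.gv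
      (fun t ht k => (key t ht).2.2.2.2 (g k) (hgG k)) t ht
    obtain ⟨g1, g2, g3, g4, g5, g6, g7⟩ := h1
    refine ⟨g1, ?_, ?_, ?_, ?_, g7⟩
    · intro k
      refine (g3 k).trans (le_of_eq ?_)
      have : r * (C₀ * (1 + t / ts)) = C₀ * (r + r * (t / ts)) := by ring
      rw [this, hrt]
    · intro k
      rw [← hrts]
      exact g4 k
    · refine le_trans (le_of_eq ?_) g5
      have : r * (t / ts / 2 - C₀) = r * (t / ts) / 2 - r * C₀ := by ring
      rw [this, hrt]
    · intro hle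
      have h2 : C₀ ≤ t / ts := by
        have h3 : r * C₀ ≤ r * (t / ts) := by
          rw [hrt]
          exact hle
        exact le_of_mul_le_mul_left h3 hr
      have h3 := g6 h2
      rw [hrts] at h3
      linarith

/-- The bootstrap of a prepared state, arbitrary masses, all conditions explicit. -/
theorem boot_atM {s : Fin 3 → V3} {e : V3} {μ₀ C₀ η₀ : ℝ} (hs : GunShape s e) (hμ₀ : 0 < μ₀)
    (hC : 0 < C₀) (hg : GunPropM s e μ₀ C₀ η₀) {N : ℕ} {m : Fin N → ℝ} {μ R c σ r τ A y η : ℝ}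
    {g : Fin 3 → Fin N} {z w : V3} {q₀ v₀ : Fin N → V3} (hm : ∀ i, 0 < m i)
    (hmμ : ∀ i, m i ≤ μ) (hsum : ∑ i, m i ≤ 1) (hgm : ∀ k, |m (g k) / m (g 0) - 1| ≤ η₀)
    (hR : 0 < R) (hc : 0 < c) (hσ : 0 < σ) (hσ2 : σ ≤ 2) (hr : 0 < r) (hr1 : r ≤ 1)
    (hrC : r * C₀ ≤ 1) (hτ0 : 0 < τ) (hτ1 : τ ≤ 1)
    (hA : 3456 * μ / σ ^ 3 + 1 + 48 * μ / c ^ 2 ≤ A)
    (hs1 : (R + A * τ) * τ < σ / 4) (hs2 : (R + A * τ) * τ < c / 4)
    (hs3 : (R + A * τ) * τ ≤ 1) (hs4 : R * τ ≤ c / 8)
    (hy : y = √(m (g 0) / r)) (hη : η = r ^ 2 / m (g 0) * (16 / c ^ 2))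
    (hη1 : η ≤ η₀) (hη2 : η * (τ * y / r) ≤ η₀)
    (hh : C₀ * (η * (1 + τ * y / r)) * (r + τ * y) ≤ c / 8)
    (hτy : 4 * R + 10 ≤ τ * y)
    (hp : Prep N R c σ r s g z w q₀ v₀) :
      (∃ K : Set (Ph N), IsCompact K ∧ K ⊆ NC N ∧
        ∀ T' : ℝ, 0 ≤ T' → T' ≤ τ → ∀ q v : ℝ → Fin N → V3,
          IsSolM m T' (fun _ _ => 0) q v → q 0 = q₀ → v 0 = v₀ →
          ∀ t ∈ Icc (0 : ℝ) T', ((q t, fun i => m i • v t i) : Ph N) ∈ K) ∧
      (∀ q v : ℝ → Fin N → V3,
          IsSolM m τ (fun _ _ => 0) q v → q 0 = q₀ → v 0 = v₀ →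
          (∀ j, j ≠ g 0 → ⟪q τ j, e⟫ + 1 ≤ ⟪q τ (g 0), e⟫) ∧
          y / 2 - R ≤ ⟪v τ (g 0), e⟫) := by
  have hM : 0 < m (g 0) := hm _
  have hμ : 0 < μ := lt_of_lt_of_le hM (hmμ _)
  have hA1 : 1 ≤ A := by
    have h1 : 0 ≤ 3456 * μ / σ ^ 3 := by positivity
    have h2 : 0 ≤ 48 * μ / c ^ 2 := by positivity
    linarith
  have hy0 : 0 < y := by
    rw [hy]
    exact Real.sqrt_pos.mpr (by positivity)
  have hcore : ∀ T' : ℝ, 0 ≤ T' → T' ≤ τ → ∀ q v : ℝ → Fin N → V3,
      IsSolM m T' (fun _ _ => 0) q v → q 0 = q₀ → v 0 = v₀ → _ :=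
    fun T' hT0 hTτ q v hsol hq0 hv0 =>
      boot_coreM (T := T') (q := q) (v := v) hs hC hg hm hmμ hsum hgm hR hc hσ hσ2 hr hA hs1 hs2
        hs3 hs4 hy hη hη1 hη2 hh hT0 hTτ hsol (by rw [hq0, hv0]; exact hp)
  have hnz : ‖z‖ ≤ R + 1 := by
    have h1 : z = q₀ (g 0) - r • s 0 := by
      rw [hp.gq 0]
      abel
    rw [h1]
    refine (norm_sub_le _ _).trans ?_
    have h2 : ‖r • s 0‖ ≤ 1 := by
      rw [norm_smul, Real.norm_of_nonneg hr.le]
      calc r * ‖s 0‖ ≤ 1 * 1 := mul_le_mul hr1 (hs.le 0) (norm_nonneg _) zero_le_one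
        _ = 1 := one_mul 1
    exact add_le_add (hp.bq _) h2
  have hnw : ‖w‖ ≤ R := by
    rw [← hp.gv 0]
    exact hp.bv _
  have hτR : τ * R ≤ 1 := by
    have h1 : R * τ ≤ (R + A * τ) * τ := by
      apply mul_le_mul_of_nonneg_right _ hτ0.le
      have : 0 ≤ A * τ := by positivity
      linarith
    linarith
  have hm1 : ∀ i, m i ≤ 1 := fun i =>
    (Finset.single_le_sum (fun j _ => (hm j).le) (Finset.mem_univ i)).trans hsum
  refine ⟨?_, ?_⟩
  · set B : ℝ := (R + 1) + 1 + C₀ * (1 + y) + R + A + y * C₀ with hB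
    have hpos1 : 0 ≤ y * C₀ := by positivity
    have hpos2 : 0 ≤ C₀ * (1 + y) := by positivity
    set d : ℝ := min (σ / 2) (min (c / 4) (r * μ₀)) with hd
    have hd0 : 0 < d := lt_min (by positivity) (lt_min (by positivity) (by positivity))
    refine ⟨{x : Ph N | (∀ i, ‖x.1 i‖ ≤ B) ∧ (∀ i, ‖x.2 i‖ ≤ B) ∧
      ∀ i j, i ≠ j → d ≤ ‖x.1 i - x.1 j‖} ∪ {((q₀, fun i => m i • v₀ i) : Ph N)},
      (isCompact_box N B d).union isCompact_singleton, ?_, ?_⟩
    · rintro x (hx | hx)
      · intro i j hij h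
        have h1 := hx.2.2 i j hij
        rw [h, sub_self, norm_zero] at h1
        linarith
      · rw [Set.mem_singleton_iff] at hx
        rw [hx]
        exact hp.ne hs hc hσ hr
    · intro T' hT0 hTτ q v hsol hq0 hv0 t ht
      rcases lt_or_eq_of_le hT0 with hT | hT
      · left
        obtain ⟨k1, k2, k3, k4, k5⟩ := hcore T' hT0 hTτ q v hsol hq0 hv0 t ht
        obtain ⟨g1, g2, g3, g4, g5, g6⟩ := k5 hT
        have ht1 : t ≤ 1 := ht.2.trans (hTτ.trans hτ1)
        have hAτ : A * τ ≤ A := mul_le_of_le_one_right (by linarith) hτ1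
        refine ⟨?_, ?_, ?_⟩
        · intro i
          show ‖q t i‖ ≤ B
          by_cases hi : i ∈ Set.range g
          · obtain ⟨k, rfl⟩ := hi
            have h1 := g2 k
            have h2 : q t (g k) = (q t (g k) - z - t • w) + (z + t • w) := by abel
            have h3 : ‖t • w‖ ≤ R := by
              rw [norm_smul, Real.norm_of_nonneg ht.1]
              calc t * ‖w‖ ≤ 1 * R := mul_le_mul ht1 hnw (norm_nonneg _) zero_le_one
                _ = R := one_mul R
            have h4 : C₀ * (r + t * y) ≤ C₀ * (1 + y) := by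
              apply mul_le_mul_of_nonneg_left _ hC.le
              apply add_le_add hr1
              calc t * y ≤ 1 * y := mul_le_mul_of_nonneg_right ht1 hy0.le
                _ = y := one_mul _
            have h5 : ‖q t (g k)‖ ≤ ‖q t (g k) - z - t • w‖ + (‖z‖ + ‖t • w‖) := by
              conv_lhs => rw [h2]
              exact (norm_add_le _ _).trans (add_le_add_right (norm_add_le _ _) _)
            linarith
          · have h1 := k1 i hi
            have h2 : ‖q t i‖ ≤ ‖q t i - q 0 i‖ + ‖q 0 i‖ := by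
              have : q t i = (q t i - q 0 i) + q 0 i := by abel
              conv_lhs => rw [this]
              exact norm_add_le _ _
            have h3 : ‖q 0 i‖ ≤ R := by
              rw [hq0]
              exact hp.bq i
            linarith
        · intro i
          show ‖m i • v t i‖ ≤ B
          have hsc : ‖m i • v t i‖ ≤ ‖v t i‖ := by
            rw [norm_smul, Real.norm_of_nonneg (hm i).le]
            exact mul_le_of_le_one_left (norm_nonneg _) (hm1 i)
          refine hsc.trans ?_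
          by_cases hi : i ∈ Set.range g
          · obtain ⟨k, rfl⟩ := hi
            have h1 := g3 k
            have h2 : ‖v t (g k)‖ ≤ ‖v t (g k) - w‖ + ‖w‖ := by
              have : v t (g k) = (v t (g k) - w) + w := by abel
              conv_lhs => rw [this]
              exact norm_add_le _ _
            linarith
          · have h1 := k2 i hi
            have h2 : ‖v t i‖ ≤ ‖v t i - v 0 i‖ + ‖v 0 i‖ := by
              have : v t i = (v t i - v 0 i) + v 0 i := by abel
              conv_lhs => rw [this]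
              exact norm_add_le _ _
            have h3 : ‖v 0 i‖ ≤ R := by
              rw [hv0]
              exact hp.bv i
            linarith
        · intro i j hij
          show d ≤ ‖q t i - q t j‖
          by_cases hi : i ∈ Set.range g
          · obtain ⟨k, rfl⟩ := hi
            by_cases hj : j ∈ Set.range g
            · obtain ⟨l, rfl⟩ := hj
              have h1 := g1 k l (fun hkl => hij (by rw [hkl]))
              exact ((min_le_right _ _).trans (min_le_right _ _)).trans h1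
            · have h1 := k4 j hj k
              rw [norm_sub_rev] at h1
              exact ((min_le_right _ _).trans (min_le_left _ _)).trans h1
          · by_cases hj : j ∈ Set.range g
            · obtain ⟨l, rfl⟩ := hj
              exact ((min_le_right _ _).trans (min_le_left _ _)).trans (k4 i hi l)
            · exact (min_le_left _ _).trans (k3 i hi j hj hij)
      · right
        have ht0 : t = 0 := le_antisymm (by rw [hT]; exact ht.2) ht.1
        rw [ht0, hq0, hv0]
        exact Set.mem_singleton _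
  · intro q v hsol hq0 hv0
    obtain ⟨k1, k2, k3, k4, k5⟩ := hcore τ hτ0.le (le_refl _) q v hsol hq0 hv0 τ ⟨hτ0.le, le_refl _⟩
    obtain ⟨g1, g2, g3, g4, g5, g6⟩ := k5 hτ0
    have hin : ∀ y' : V3, |⟪y', e⟫| ≤ ‖y'‖ := by
      intro y'
      have := abs_real_inner_le_norm y' e
      rwa [hs.norm, mul_one] at this
    have hsplit : ∀ k, ⟪q τ (g k), e⟫ = ⟪q τ (g k) - z - τ • w, e⟫ + ⟪z + τ • w, e⟫ := by
      intro k
      rw [← inner_add_left]
      congr 1
      abel
    have hzw : ‖z + τ • w‖ ≤ R + 2 := by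
      refine (norm_add_le _ _).trans ?_
      have h1 : ‖τ • w‖ ≤ 1 := by
        rw [norm_smul, Real.norm_of_nonneg hτ0.le]
        exact (mul_le_mul_of_nonneg_left hnw hτ0.le).trans hτR
      linarith
    have hzw2 := neg_le_of_abs_le (hin (z + τ • w))
    refine ⟨?_, ?_⟩
    · intro j hj
      by_cases hjr : j ∈ Set.range g
      · obtain ⟨k, rfl⟩ := hjr
        have hk : k ≠ 0 := fun h => hj (by rw [h])
        have h1 := g6 k hk
        rw [hsplit k, hsplit 0]
        linarith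
      · have h1 := k1 j hjr
        have h2 : ‖q 0 j‖ ≤ R := by
          rw [hq0]
          exact hp.bq j
        have h3 : ‖q τ j‖ ≤ R + 1 := by
          have h4 : q τ j = (q τ j - q 0 j) + q 0 j := by abel
          rw [h4]
          exact (norm_add_le _ _).trans (by linarith)
        have h4 := le_of_abs_le (hin (q τ j))
        rw [hsplit 0]
        linarith
    · have h1 := g5 (by linarith)
      have h2 : ⟪v τ (g 0), e⟫ = ⟪v τ (g 0) - w, e⟫ + ⟪w, e⟫ := by
        rw [← inner_add_left]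
        congr 1
        abel
      have h3 := neg_le_of_abs_le (hin w)
      rw [h2]
      linarith

end Pool.Agent.NBody
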