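import Mathlib
import Pool.Agent.NBody.ThDefs3

/-!
Prepared states of type I-B for the third version of the theorem on many bodies: a tight pair
instead of a gun.
-/

set_option autoImplicit false
open scoped RealInnerProductSpace
open Set Finset Filter Topology

namespace Pool.Agent.NBody

/-- A prepared state of type I-B: the bodies `a`, `b` form a tight pair of size `r`, whose centre
of mass starts at `z` with the velocity `u` and keeps the distance `s'` from the straight lines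
of the other bodies; the straight lines of the other bodies are `s'`-separated on `[0, τ]`, and
`s`-separated outside the set `F` of the fast bodies. -/
structure Prep3B {N : ℕ} (m : Fin N → ℝ) (R ω τ s s' r lam : ℝ) (F : Finset (Fin N))
    (a b : Fin N) (z u : V3) (q v : Fin N → V3) : Prop where
  ab : a ≠ b
  bq : ∀ i, ‖q i‖ ≤ R
  mid : (m a + m b) • z = m a • q a + m b • q b
  vmid : (m a + m b) • u = m a • v a + m b • v b
  size : ‖q a - q b‖ = r
  rel : ‖v a - v b‖ ≤ ω
  vz : ‖u‖ ≤ ω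
  ang : (r * lam) ^ 2 ≤ ‖q a - q b‖ ^ 2 * ‖v a - v b‖ ^ 2 - ⟪q a - q b, v a - v b⟫ ^ 2
  far : ∀ i, i ≠ a → i ≠ b → ∀ t ∈ Icc (0 : ℝ) τ, s' ≤ ‖(q i + t • v i) - (z + t • u)‖
  sep' : ∀ i j, i ≠ a → i ≠ b → j ≠ a → j ≠ b → i ≠ j → ∀ t ∈ Icc (0 : ℝ) τ,
    s' ≤ ‖(q i + t • v i) - (q j + t • v j)‖
  sep : ∀ i j, i ≠ a → i ≠ b → j ≠ a → j ≠ b → i ∉ F → j ∉ F → i ≠ j → ∀ t ∈ Icc (0 : ℝ) τ,
    s ≤ ‖(q i + t • v i) - (q j + t • v j)‖

end Pool.Agent.NBody
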