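import Mathlib
import Pool.Agent.NBody.ThDefs3

/-!
Definitions for the fourth version of the theorem on many bodies (arbitrary masses, the whole
energy surface): prepared states with a gun and general separations of the pairs.
-/

set_option autoImplicit false
open scoped RealInnerProductSpace
open Set Finset Filter Topology

namespace Pool.Agent.NBody

/-- A prepared state with a gun: three bodies form a gun of size `r` at `z`, with velocities at
most `ω`; all velocities are at most `ν`; the straight lines of the other bodies `i`, `j` are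
`sep i j`-separated on `[0, τ]`; the heights of the other bodies differ from that of the gun by at
least `c`. -/
structure Prep4A (N : ℕ) (R c ν ω τ r : ℝ) (sh : Fin 3 → V3) (sep : Fin N → Fin N → ℝ)
    (g : Fin 3 → Fin N) (z : V3) (q v : Fin N → V3) : Prop where
  inj : Function.Injective g
  bq : ∀ i, ‖q i‖ ≤ R
  bv : ∀ i, ‖v i‖ ≤ ν
  gq : ∀ k, q (g k) = z + r • sh k
  gv : ∀ k, ‖v (g k)‖ ≤ ω
  lines : ∀ i j, i ∉ Set.range g → j ∉ Set.range g → i ≠ j → ∀ t ∈ Icc (0 : ℝ) τ,
    sep i j ≤ ‖(q i + t • v i) - (q j + t • v j)‖
  lay : ∀ j, j ∉ Set.range g → c ≤ |q j 2 - z 2|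

end Pool.Agent.NBody
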