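import Mathlib
import Pool.Agent.NBody.ThBoot3A
import Pool.Agent.NBody.ThDefs4
import Pool.Agent.NBody.Th4Others

/-!
Bootstrap of a prepared state with a gun, general separations of the pairs (arbitrary masses),
with explicit conditions.
-/

set_option autoImplicit false
open scoped RealInnerProductSpace
open Set Finset Filter Topology

namespace Pool.Agent.NBody

/-- The bootstrap of the other bodies of a prepared state with a gun, general separations. -/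
theorem othersOut4A {N : ℕ} {m : Fin N → ℝ} {R c ν ω r τ A A0 MG σ : ℝ} {sh : Fin 3 → V3}
    {e : V3} (hs : GunShape sh e) {sep : Fin N → Fin N → ℝ} {g : Fin 3 → Fin N} {z : V3}
    {q₀ v₀ : Fin N → V3} (hm : ∀ i, 0 < m i) (hsum : ∑ i, m i ≤ 1) (hc : 0 < c) (hσ : 0 < σ)
    (hσs : ∀ i, i ∉ Set.range g → ∀ j, j ∉ Set.range g → i ≠ j → σ ≤ sep i j)
    (hMG : ∑ i ∈ Finset.univ.image g, m i ≤ MG)
    (hF : ∀ z' : Fin N → V3,
      (∀ i, i ∉ Set.range g → ∀ j, j ∉ Set.range g → i ≠ j → sep i j / 2 ≤ ‖z' i - z' j‖) →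
      ∀ i, i ∉ Set.range g → ‖accOnM m ((Finset.univ.image g)ᶜ.erase i) z' i‖ ≤ A0)
    (hA0 : 0 ≤ A) (hA : A0 + 16 * MG / c ^ 2 ≤ A)
    (hA1 : A * τ ^ 2 < σ / 4) (hA2 : A * τ ^ 2 < c / 8)
    (hp : Prep4A N R c ν ω τ r sh sep g z q₀ v₀) :
    OthersOut m τ (Finset.univ.image g) q₀ v₀ (c / 2) (16 / c ^ 2) (A * τ ^ 2) (A * τ)
      (σ / 2) := by
  intro T hT q v hsol hq0 hv0 hgun
  have hmem : ∀ i, i ∉ (Finset.univ.image g : Finset (Fin N)) → i ∉ Set.range g := by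
    intro i hi h
    obtain ⟨k, hk⟩ := h
    exact hi (Finset.mem_image.mpr ⟨k, Finset.mem_univ _, hk⟩)
  have hmem' : ∀ i, i ∉ Set.range g → i ∉ (Finset.univ.image g : Finset (Fin N)) := by
    intro i hi h
    obtain ⟨k, _, hk⟩ := Finset.mem_image.mp h
    exact hi ⟨k, hk⟩
  have hT2 : A * T ^ 2 ≤ A * τ ^ 2 :=
    mul_le_mul_of_nonneg_left (pow_le_pow_left₀ hT.1 hT.2 2) hA0
  have hT1 : A * T ≤ A * τ := mul_le_mul_of_nonneg_left hT.2 hA0
  have h16 : 4 / (c / 2) ^ 2 = 16 / c ^ 2 := by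
    field_simp
    ring
  have key := others_gen (m := m) (T := T) (d := c / 2) (B := 16 / c ^ 2)
    (A0 := A0) (A := A) (MG := MG) (σ := σ) (G := Finset.univ.image g) (sep := sep) (q := q)
    (v := v)
    (fun i => (hm i).le) hsum hσ
    (fun i hi j hj hij => hσs i (hmem i hi) j (hmem j hj) hij) (by positivity) hMG hsol
    (by
      intro i hi j hj hij t ht
      rw [hq0, hv0]
      exact hp.lines i j (hmem i hi) (hmem j hj) hij t ⟨ht.1, ht.2.trans hT.2⟩)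
    (by
      intro z' hz' i hi
      exact hF z' (fun i hi j hj hij => hz' i (hmem' i hi) j (hmem' j hj) hij) i (hmem i hi))
    (by
      have h1 : 4 * MG / (c / 2) ^ 2 = 16 * MG / c ^ 2 := by
        field_simp
        ring
      rw [h1]
      exact hA) (by linarith) (by linarith)
    (Or.inl (by rw [h16]))
    (by
      intro i hi j hj
      obtain ⟨k, _, rfl⟩ := Finset.mem_image.mp hi
      rw [hq0]
      have h1 := hp.lay j (hmem j hj)
      have h2 := abs_coord2_le (q₀ (g k)) (q₀ j)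
      have h3 : q₀ (g k) 2 = z 2 := by
        rw [hp.gq k]
        simp only [PiLp.add_apply, PiLp.smul_apply, smul_eq_mul, hs.flat k, mul_zero, add_zero]
      rw [h3, abs_sub_comm] at h2
      linarith)
    (by
      intro T1 hT1 hext i hi j hj
      rw [hq0, hv0]
      exact hgun T1 hT1 hext i hi j hj)
  intro t ht
  obtain ⟨k1, k2, k3, k4, k5⟩ := key t ht
  rw [hq0, hv0] at k1
  rw [hv0] at k2
  refine ⟨fun i hi => (k1 i hi).trans hT2, fun i hi => (k2 i hi).trans hT1, ?_, k4, k5⟩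
  intro i hi j hj hij
  have h1 := k3 i hi j hj hij
  have h2 := hσs i (hmem i hi) j (hmem j hj) hij
  linarith

/-- The bootstrap of a prepared state with a gun, arbitrary masses and general separations, all
conditions explicit. -/
theorem boot_at4A {sh : Fin 3 → V3} {e : V3} {μ₀ C₀ η₀ : ℝ} (hs : GunShape sh e)
    (hμ₀ : 0 < μ₀) (hC : 0 < C₀) (hg : GunProp3 sh e μ₀ C₀ η₀) {N : ℕ}
    {m : Fin N → ℝ} {R c ν ω r τ A A0 MG σ y η : ℝ} {sep : Fin N → Fin N → ℝ}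
    {g : Fin 3 → Fin N} {z : V3} {q₀ v₀ : Fin N → V3}
    (hm : ∀ i, 0 < m i) (hsum : ∑ i, m i ≤ 1)
    (hgm : ∀ k, |m (g k) / m (g 0) - 1| ≤ η₀) (hR : 0 ≤ R) (hc : 0 < c) (hc4 : c ≤ 2)
    (hr : 0 < r) (hr1 : r ≤ 1) (hrC : r * C₀ ≤ 1) (hτ : 0 < τ) (hν : 0 ≤ ν) (hω : 0 ≤ ω)
    (hσ : 0 < σ)
    (hσs : ∀ i, i ∉ Set.range g → ∀ j, j ∉ Set.range g → i ≠ j → σ ≤ sep i j)
    (hMG : ∑ i ∈ Finset.univ.image g, m i ≤ MG)
    (hF : ∀ z' : Fin N → V3,
      (∀ i, i ∉ Set.range g → ∀ j, j ∉ Set.range g → i ≠ j → sep i j / 2 ≤ ‖z' i - z' j‖) →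
      ∀ i, i ∉ Set.range g → ‖accOnM m ((Finset.univ.image g)ᶜ.erase i) z' i‖ ≤ A0)
    (hA0 : 0 ≤ A) (hA : A0 + 16 * MG / c ^ 2 ≤ A)
    (hA1 : A * τ ^ 2 < σ / 4) (hA2 : A * τ ^ 2 < c / 8) (hντ : ν * τ ≤ c / 4)
    (hy : y = √(m (g 0) / r)) (hη : η = r ^ 2 / m (g 0) * (16 / c ^ 2))
    (hη1 : η ≤ η₀) (hη2 : η * (τ * y / r) ≤ η₀) (hα : ω / y ≤ η₀)
    (hh : C₀ * (ω / y + η * (1 + τ * y / r)) * (r + τ * y) ≤ c / 8)
    (hτy : 8 * (R + 2) ≤ τ * y)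
    (hp : Prep4A N R c ν ω τ r sh sep g z q₀ v₀) :
      (∃ K : Set (Ph N), IsCompact K ∧ K ⊆ NC N ∧
        ∀ T' : ℝ, 0 ≤ T' → T' ≤ τ → ∀ q v : ℝ → Fin N → V3,
          IsSolM m T' (fun _ _ => 0) q v → q 0 = q₀ → v 0 = v₀ →
          ∀ t ∈ Icc (0 : ℝ) T', ((q t, fun i => m i • v t i) : Ph N) ∈ K) ∧
      (∀ q v : ℝ → Fin N → V3,
          IsSolM m τ (fun _ _ => 0) q v → q 0 = q₀ → v 0 = v₀ →
          (∀ j, j ≠ g 0 → ⟪q τ j, e⟫ ≤ R + 2) ∧ 3 * R + 3 ≤ ⟪q τ (g 0), e⟫ ∧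
          y / 2 ≤ ⟪v τ (g 0), e⟫) :=
  boot_atA hs hμ₀ hC hg hm hsum hgm hR hc hr hr1 hrC hτ (d1 := σ / 2) (by positivity) hν
    (W := A * τ) (by positivity)
    (othersOut4A hs hm hsum hc hσ hσs hMG hF hA0 hA hA1 hA2 hp)
    hντ (by linarith) hω hy hη hη1 hη2 hα hh hτy hp.inj hp.bq hp.bv hp.gq hp.gv hp.lay
    (by
      intro i hi j hj hij h
      have h1 := hp.lines i j hi hj hij 0 ⟨le_refl _, hτ.le⟩
      have h2 := hσs i hi j hj hij
      simp only [zero_smul, add_zero] at h1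
      rw [h, sub_self, norm_zero] at h1
      linarith)

end Pool.Agent.NBody
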