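import Mathlib
import Pool.Agent.NBody.ThBootM3
import Pool.Agent.NBody.ThBoot3B
import Pool.Agent.NBody.ThDefs4B
import Pool.Agent.NBody.Th4OthersD

/-!
Bootstrap of a prepared state with a tight pair, arbitrary masses and general separations of the
pairs of bodies.
-/

set_option autoImplicit false
open scoped RealInnerProductSpace
open Set Finset Filter Topology

namespace Pool.Agent.NBody

/-- The bounds along a solution which starts at a prepared state with a tight pair. -/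
theorem boot_core4B {N : ℕ} {m : Fin N → ℝ} {R ω τ σ r lam A0 A T : ℝ}
    {sep : Fin N → Fin N → ℝ} {a b : Fin N} {z u : V3} {q v : ℝ → Fin N → V3}
    (hm : ∀ i, 0 < m i) (hσ : 0 < σ) (hσs : ∀ i j, i ≠ j → σ ≤ sep i j)
    (hr : 0 < r) (hrs : 16 * r ≤ σ) (hlam : 0 < lam) (hA00 : 0 ≤ A0)
    (hF : ∀ x : Fin N → V3,
      (∀ i ∉ ({a, b} : Finset (Fin N)), ∀ j ∉ ({a, b} : Finset (Fin N)), i ≠ j →
        sep i j / 2 ≤ ‖x i - x j‖) →
      (∀ i ∉ ({a, b} : Finset (Fin N)), sep i a / 2 ≤ ‖x i - x a‖ ∧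
        sep i a / 2 ≤ ‖x i - x b‖) →
      ∀ i, ‖accOnM m ((({a, b} : Finset (Fin N))ᶜ).erase i) x i‖ ≤ A0)
    (hA : A0 + 8 * (m a + m b) / σ ^ 2 ≤ A) (hAs : A * τ ^ 2 < σ / 8)
    (hAl : 64 * (A * τ) ≤ lam) (hω : ω ^ 2 ≤ (m a + m b) / (2 * r))
    (hT0 : 0 ≤ T) (hTτ : T ≤ τ) (hsol : IsSolM m T (fun _ _ => 0) q v)
    (hp : Prep4B m R ω τ r lam sep a b z u (q 0) (v 0)) :
    ∀ t ∈ Icc (0 : ℝ) T,
      (∀ i, i ≠ a → i ≠ b → ‖q t i - (q 0 i + t • v 0 i)‖ ≤ A * τ ^ 2) ∧
      (∀ i, i ≠ a → i ≠ b → ‖v t i - v 0 i‖ ≤ A * τ) ∧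
      (∀ i j, i ≠ a → i ≠ b → j ≠ a → j ≠ b → i ≠ j → σ / 2 ≤ ‖q t i - q t j‖) ∧
      (∀ i, i ≠ a → i ≠ b → 9 * σ / 16 ≤ ‖q t i - q t a‖ ∧ 9 * σ / 16 ≤ ‖q t i - q t b‖) ∧
      (r * lam) ^ 2 / (4 * (m a + m b)) ≤ ‖q t a - q t b‖ ∧
      ‖q t a - z - t • u‖ ≤ σ / 4 ∧ ‖q t b - z - t • u‖ ≤ σ / 4 ∧
      ‖v t a - u‖ ≤ 8 * (m a + m b) / (3 * (r * lam)) + A * τ ∧
      ‖v t b - u‖ ≤ 8 * (m a + m b) / (3 * (r * lam)) + A * τ := by
  classical
  have hτ0 : 0 ≤ τ := hT0.trans hTτ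
  have hab := hp.ab
  have hma := hm a
  have hmb := hm b
  have hM0 : 0 < m a + m b := by positivity
  have hA0 : 0 ≤ A := by
    have : 0 ≤ 8 * (m a + m b) / σ ^ 2 := by positivity
    linarith
  have hz : (m a + m b)⁻¹ • (m a • q 0 a + m b • q 0 b) = z := by
    rw [← hp.mid, smul_smul, inv_mul_cancel₀ hM0.ne', one_smul]
  have hu : (m a + m b)⁻¹ • (m a • v 0 a + m b • v 0 b) = u := by
    rw [← hp.vmid, smul_smul, inv_mul_cancel₀ hM0.ne', one_smul]
  set G : Finset (Fin N) := {a, b} with hG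
  have haG : a ∈ G := by simp [hG]
  have hbG : b ∈ G := by simp [hG]
  have hnG : ∀ i, i ∉ G → i ≠ a ∧ i ≠ b := by
    intro i hi
    rw [hG, Finset.mem_insert, Finset.mem_singleton, not_or] at hi
    exact hi
  have hnG' : ∀ i, i ≠ a → i ≠ b → i ∉ G := by
    intro i h3 h4
    rw [hG, Finset.mem_insert, Finset.mem_singleton, not_or]
    exact ⟨h3, h4⟩
  have hGsum : ∑ i ∈ G, m i ≤ m a + m b := by
    rw [hG, Finset.sum_pair hab]
  have hsub : Icc (0 : ℝ) T ⊆ Icc (0 : ℝ) τ := Set.Icc_subset_Icc_right hTτ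
  have hℓ : 0 < r * lam := by positivity
  -- the pair on `[0, T1]`
  have hpair : ∀ T1 ∈ Icc (0 : ℝ) T,
      (∀ t ∈ Icc (0 : ℝ) T1, ∀ i ∈ G, ‖accOnM m Gᶜ (q t) i‖ ≤ A) →
      ∀ t ∈ Icc (0 : ℝ) T1,
        ‖q t a - q t b‖ ≤ 8 / 5 * r ∧ (r * lam) ^ 2 / (4 * (m a + m b)) ≤ ‖q t a - q t b‖ ∧
        ‖v t a - v t b‖ ≤ 8 * (m a + m b) / (3 * (r * lam)) ∧
        ‖q t a - (z + t • u)‖ ≤ 8 / 5 * r + A * t ^ 2 / 2 ∧
        ‖q t b - (z + t • u)‖ ≤ 8 / 5 * r + A * t ^ 2 / 2 ∧
        ‖v t a - u‖ ≤ 8 * (m a + m b) / (3 * (r * lam)) + A * t ∧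
        ‖v t b - u‖ ≤ 8 * (m a + m b) / (3 * (r * lam)) + A * t := by
    intro T1 hT1 hext
    have hT1τ : T1 ≤ τ := hT1.2.trans hTτ
    have hsol1 := hsol.mono hT1.2
    have h1 := absorber (ma := m a) (mb := m b) (r := r) (ℓ := r * lam) (A := A) (T := T1)
      hma hmb hr hℓ hA0 (qa := fun t => q t a) (qb := fun t => q t b) (va := fun t => v t a)
      (vb := fun t => v t b) (ga := fun t => accOnM m Gᶜ (q t) a)
      (gb := fun t => accOnM m Gᶜ (q t) b)
      (fun t ht => hsol1.dq t ht a) (fun t ht => hsol1.dq t ht b)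
      (fun t ht => by
        have h3 := hsol1.dv t ht a
        rw [accM_eq m G (q t) a, hG, accOnM_pair_a m (q t) hab, add_zero] at h3
        exact h3)
      (fun t ht => by
        have h3 := hsol1.dv t ht b
        rw [accM_eq m G (q t) b, hG, accOnM_pair_b m (q t) hab, add_zero] at h3
        exact h3)
      (fun t ht => hsol1.nc t ht a b hab) (fun t ht => hext t ht a haG)
      (fun t ht => hext t ht b hbG) hp.size
      (le_trans (pow_le_pow_left₀ (norm_nonneg _) hp.rel 2) hω) hp.ang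
      (by
        have e1 : 64 * (r * A * T1) = r * (64 * (A * T1)) := by ring
        rw [e1]
        apply mul_le_mul_of_nonneg_left _ hr.le
        refine le_trans ?_ hAl
        have := mul_le_mul_of_nonneg_left hT1τ hA0
        linarith)
    simp only [hz, hu] at h1
    exact h1
  -- the pair stays in the ball around the centre line
  have hball : ∀ t ∈ Icc (0 : ℝ) T, ∀ x : V3, ‖x - (z + t • u)‖ ≤ 8 / 5 * r + A * t ^ 2 / 2 →
      ‖x - z - t • u‖ < σ / 4 := by
    intro t ht x hx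
    have e1 : x - z - t • u = x - (z + t • u) := by abel
    rw [e1]
    have e2 : A * t ^ 2 ≤ A * τ ^ 2 := by
      apply mul_le_mul_of_nonneg_left _ hA0
      exact pow_le_pow_left₀ ht.1 (ht.2.trans hTτ) 2
    linarith
  have hline : ∀ t ∈ Icc (0 : ℝ) T, ∀ x : V3, ‖x - z - t • u‖ < σ / 4 → ∀ j ∉ G,
      3 * sep j a / 4 < ‖x - (q 0 j + t • v 0 j)‖ := by
    intro t ht x hx j hj
    have h1 := hp.far j (hnG j hj).1 (hnG j hj).2 t (hsub ht)
    have h2 := hσs j a (hnG j hj).1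
    have h3 : q 0 j + t • v 0 j - (z + t • u) = (x - z - t • u) - (x - (q 0 j + t • v 0 j)) := by
      abel
    rw [h3] at h1
    have h4 := h1.trans (norm_sub_le _ _)
    linarith
  have hAT : A * T ^ 2 ≤ A * τ ^ 2 := by
    apply mul_le_mul_of_nonneg_left _ hA0
    exact pow_le_pow_left₀ hT0 hTτ 2
  have hin : ∀ x : Fin N → V3,
      (∀ i ∉ G, ∀ j ∉ G, i ≠ j → sep i j / 2 ≤ ‖x i - x j‖) →
      (∀ i ∉ G, ∀ j ∈ G, 3 * (3 * sep i a / 4) / 4 ≤ ‖x i - x j‖) →
      ∀ i, ‖accOnM m (Gᶜ.erase i) x i‖ ≤ A0 := by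
    intro x hx1 hx2 i
    refine hF x hx1 (fun i h1 => ?_) i
    have h3 := hx2 i h1 a haG
    have h4 := hx2 i h1 b hbG
    have h5 := hσs i a (hnG i h1).1
    constructor <;> linarith
  have key := others_gend (m := m) (T := T) (σ := σ) (d := 3 * σ / 4) (A0 := A0) (A := A) (B := A)
    (MG := m a + m b) (G := G) (sep := sep) (dist := fun j => 3 * sep j a / 4) (q := q) (v := v)
    (fun i => (hm i).le) hσ (fun i _ j _ hij => hσs i j hij) (by positivity)
    (fun j hj => by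
      have := hσs j a (hnG j hj).1
      show 3 * σ / 4 ≤ 3 * sep j a / 4
      linarith)
    hGsum hsol
    (fun i hi j hj hij t ht => hp.lines i j (hnG i hi).1 (hnG i hi).2 (hnG j hj).1 (hnG j hj).2
      hij t (hsub ht))
    (fun x hx1 hx2 i _ => hin x hx1 hx2 i) hA0
    (by
      have e1 : 4 * (m a + m b) / (3 * σ / 4) ^ 2 ≤ 8 * (m a + m b) / σ ^ 2 := by
        rw [div_le_div_iff₀ (by positivity) (by positivity)]
        have e2 : 0 ≤ (m a + m b) * σ ^ 2 := by positivity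
        nlinarith [e2]
      linarith)
    (by linarith) (by linarith)
    (fun x hx1 hx2 i hi => by
      have h1 := hin x hx1 hx2 i
      rw [Finset.erase_eq_of_notMem (by rw [Finset.mem_compl, not_not]; exact hi)] at h1
      have h2 : 0 ≤ 8 * (m a + m b) / σ ^ 2 := by positivity
      linarith)
    (fun i hi j hj => by
      have e1 : (m a + m b) • (q 0 a - z) = m b • (q 0 a - q 0 b) := by
        rw [smul_sub, hp.mid]
        module
      have e2 : (m a + m b) • (q 0 b - z) = -(m a • (q 0 a - q 0 b)) := by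
        rw [smul_sub, hp.mid]
        module
      have e3 := congrArg norm e1
      have e4 := congrArg norm e2
      rw [norm_smul, norm_smul, Real.norm_of_nonneg hM0.le, Real.norm_of_nonneg hmb.le,
        hp.size] at e3
      rw [norm_neg, norm_smul, norm_smul, Real.norm_of_nonneg hM0.le,
        Real.norm_of_nonneg hma.le, hp.size] at e4
      have h3 : ‖q 0 a - z‖ ≤ r ∧ ‖q 0 b - z‖ ≤ r := by
        constructor
        · refine le_of_mul_le_mul_left ?_ hM0
          rw [e3]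
          exact mul_le_mul_of_nonneg_right (by linarith) hr.le
        · refine le_of_mul_le_mul_left ?_ hM0
          rw [e4]
          exact mul_le_mul_of_nonneg_right (by linarith) hr.le
      have h4 : r ≤ 8 / 5 * r + A * 0 ^ 2 / 2 := by
        have : A * (0:ℝ) ^ 2 / 2 = 0 := by ring
        rw [this]
        linarith
      have h5 : ‖q 0 i - z - (0:ℝ) • u‖ < σ / 4 := by
        apply hball 0 ⟨le_refl _, hT0⟩
        rw [zero_smul, add_zero]
        rw [hG, Finset.mem_insert, Finset.mem_singleton] at hi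
        rcases hi with rfl | rfl
        · exact h3.1.trans h4
        · exact h3.2.trans h4
      have h6 := hline 0 ⟨le_refl _, hT0⟩ _ h5 j hj
      rw [zero_smul, add_zero] at h6
      exact h6)
    (fun T1 hT1 hext i hi j hj => by
      obtain ⟨-, -, -, k4, k5, -, -⟩ := hpair T1 hT1 hext T1 ⟨hT1.1, le_refl _⟩
      apply hline T1 hT1 _ _ j hj
      apply hball T1 hT1
      rw [hG, Finset.mem_insert, Finset.mem_singleton] at hi
      rcases hi with rfl | rfl
      · exact k4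
      · exact k5)
  have hpT := hpair T ⟨hT0, le_refl _⟩ (fun t ht i hi => (key t ht).2.2.2.2 i hi)
  intro t ht
  obtain ⟨k1, k2, k3, k5, -⟩ := key t ht
  obtain ⟨-, p2, -, p4, p5, p6, p7⟩ := hpT t ht
  have ht1 : A * t ≤ A * τ := mul_le_mul_of_nonneg_left (ht.2.trans hTτ) hA0
  have hT1 : A * T ≤ A * τ := mul_le_mul_of_nonneg_left hTτ hA0
  refine ⟨fun i h3 h4 => (k1 i (hnG' i h3 h4)).trans hAT,
    fun i h3 h4 => (k2 i (hnG' i h3 h4)).trans hT1,
    fun i j h3 h4 h5 h6 hij => ?_,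
    fun i h3 h4 => ⟨?_, ?_⟩, p2,
    (hball t ht _ p4).le, (hball t ht _ p5).le, by linarith, by linarith⟩
  · have := k3 i (hnG' i h3 h4) j (hnG' j h5 h6) hij
    have h7 := hσs i j hij
    linarith
  · have := k5 i (hnG' i h3 h4) a haG
    have h7 := hσs i a h3
    linarith
  · have := k5 i (hnG' i h3 h4) b hbG
    have h7 := hσs i a h3
    linarith

/-- **The bootstrap of a prepared state with a tight pair, arbitrary masses.** -/
theorem boot4B {N : ℕ} {m : Fin N → ℝ} {R ω τ σ r lam A0 A V : ℝ}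
    {sep : Fin N → Fin N → ℝ} {a b i₀ : Fin N} {z u e : V3} {q₀ v₀ : Fin N → V3}
    (hm : ∀ i, 0 < m i) (hsum : ∑ i, m i ≤ 1) (hR : 1 ≤ R)
    (hσ : 0 < σ) (hσ1 : σ ≤ 1) (hσs : ∀ i j, i ≠ j → σ ≤ sep i j)
    (hr : 0 < r) (hrs : 16 * r ≤ σ) (hlam : 0 < lam) (hA00 : 0 ≤ A0)
    (hF : ∀ x : Fin N → V3,
      (∀ i ∉ ({a, b} : Finset (Fin N)), ∀ j ∉ ({a, b} : Finset (Fin N)), i ≠ j →
        sep i j / 2 ≤ ‖x i - x j‖) →
      (∀ i ∉ ({a, b} : Finset (Fin N)), sep i a / 2 ≤ ‖x i - x a‖ ∧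
        sep i a / 2 ≤ ‖x i - x b‖) →
      ∀ i, ‖accOnM m ((({a, b} : Finset (Fin N))ᶜ).erase i) x i‖ ≤ A0)
    (hA : A0 + 8 * (m a + m b) / σ ^ 2 ≤ A) (hAs : A * τ ^ 2 < σ / 8)
    (hAl : 64 * (A * τ) ≤ lam) (hω : ω ^ 2 ≤ (m a + m b) / (2 * r)) (hωτ : ω * τ ≤ 1)
    (hV : 0 < V) (hτV : τ * V = 8 * (R + 2)) (hAV : A * τ ≤ V / 32) (he : ‖e‖ = 1)
    (hv : ∀ i, ‖v₀ i‖ ≤ V) (hi₀ : V / 2 ≤ ⟪v₀ i₀, e⟫) (hia : i₀ ≠ a) (hib : i₀ ≠ b)
    (hp : Prep4B m R ω τ r lam sep a b z u q₀ v₀) :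
    (∃ K : Set (Ph N), IsCompact K ∧ K ⊆ NC N ∧
      ∀ T' : ℝ, 0 ≤ T' → T' ≤ τ → ∀ q v : ℝ → Fin N → V3,
        IsSolM m T' (fun _ _ => 0) q v → q 0 = q₀ → v 0 = v₀ →
        ∀ t ∈ Icc (0 : ℝ) T', ((q t, fun i => m i • v t i) : Ph N) ∈ K) ∧
    (∀ q v : ℝ → Fin N → V3,
      IsSolM m τ (fun _ _ => 0) q v → q 0 = q₀ → v 0 = v₀ →
      (∃ i, 2 * (R + 2) + R / 2 < ⟪q τ i, e⟫) ∧
      (∀ i, 2 * (R + 2) < ⟪q τ i, e⟫ → V / 32 ≤ ⟪v τ i, e⟫)) := by
  classical
  have hτ0 : 0 < τ := by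
    have h1 : 0 < τ * V := by rw [hτV]; linarith
    exact (pos_iff_pos_of_mul_pos h1).mpr hV
  have hma := hm a
  have hmb := hm b
  have hM0 : 0 < m a + m b := by positivity
  have hA0 : 0 ≤ A := by
    have : 0 ≤ 8 * (m a + m b) / σ ^ 2 := by positivity
    linarith
  have hm1 : ∀ i, m i ≤ 1 := fun i =>
    (Finset.single_le_sum (fun j _ => (hm j).le) (Finset.mem_univ i)).trans hsum
  have hAτ2 : 0 ≤ A * τ ^ 2 := by positivity
  have hcore : ∀ T' : ℝ, 0 ≤ T' → T' ≤ τ → ∀ q v : ℝ → Fin N → V3,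
      IsSolM m T' (fun _ _ => 0) q v → q 0 = q₀ → v 0 = v₀ → _ :=
    fun T' hT0 hTτ q v hsol hq0 hv0 =>
      boot_core4B (T := T') (q := q) (v := v) hm hσ hσs hr hrs hlam hA00 hF hA hAs
        hAl hω hT0 hTτ hsol (by rw [hq0, hv0]; exact hp)
  -- the centre of the pair
  have hz : ‖z‖ ≤ R := by
    have h1 := congrArg norm hp.mid
    rw [norm_smul, Real.norm_of_nonneg hM0.le] at h1
    have h2 := norm_add_le (m a • q₀ a) (m b • q₀ b)
    rw [norm_smul, norm_smul, Real.norm_of_nonneg hma.le, Real.norm_of_nonneg hmb.le] at h2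
    have h3 := mul_le_mul_of_nonneg_left (hp.bq a) hma.le
    have h4 := mul_le_mul_of_nonneg_left (hp.bq b) hmb.le
    refine le_of_mul_le_mul_left ?_ hM0
    rw [h1]
    linarith
  have hω0 : 0 ≤ ω := (norm_nonneg _).trans hp.vz
  have hline : ∀ t ∈ Icc (0 : ℝ) τ, ∀ x : V3, ‖x - z - t • u‖ ≤ σ / 4 → ‖x‖ ≤ R + 5 / 4 := by
    intro t ht x hx
    have h1 : x = (x - z - t • u) + (z + t • u) := by abel
    have h2 : ‖t • u‖ ≤ 1 := by
      rw [norm_smul, Real.norm_of_nonneg ht.1]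
      calc t * ‖u‖ ≤ τ * ω := mul_le_mul ht.2 hp.vz (norm_nonneg _) hτ0.le
        _ = ω * τ := mul_comm _ _
        _ ≤ 1 := hωτ
    rw [h1]
    have h3 := norm_add_le (x - z - t • u) (z + t • u)
    have h4 := norm_add_le z (t • u)
    linarith
  refine ⟨?_, ?_⟩
  · set B : ℝ := R + 10 * (R + 2) + V + ω + 8 * (m a + m b) / (3 * (r * lam)) + A * τ + 2 with hB
    have hpos : 0 ≤ 8 * (m a + m b) / (3 * (r * lam)) := by positivity
    have hAτ : 0 ≤ A * τ := by positivity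
    set d : ℝ := min (σ / 2) ((r * lam) ^ 2 / (4 * (m a + m b))) with hd
    have hd0 : 0 < d := lt_min (by positivity) (by positivity)
    refine ⟨{x : Ph N | (∀ i, ‖x.1 i‖ ≤ B) ∧ (∀ i, ‖x.2 i‖ ≤ B) ∧
      ∀ i j, i ≠ j → d ≤ ‖x.1 i - x.1 j‖}, isCompact_box N B d, ?_, ?_⟩
    · intro x hx i j hij h
      have h1 := hx.2.2 i j hij
      rw [h, sub_self, norm_zero] at h1
      linarith
    · intro T' hT0 hTτ q v hsol hq0 hv0 t ht
      obtain ⟨k1, k2, k3, k4, k5, k6, k7, k8, k9⟩ := hcore T' hT0 hTτ q v hsol hq0 hv0 t ht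
      have htτ : t ∈ Icc (0 : ℝ) τ := ⟨ht.1, ht.2.trans hTτ⟩
      refine ⟨?_, ?_, ?_⟩
      · intro i
        show ‖q t i‖ ≤ B
        by_cases hi : i = a
        · rw [hi]
          have := hline t htτ _ k6
          linarith
        by_cases hi' : i = b
        · rw [hi']
          have := hline t htτ _ k7
          linarith
        have h1 := k1 i hi hi'
        have h2 : q t i = (q t i - (q 0 i + t • v 0 i)) + (q 0 i + t • v 0 i) := by abel
        have h3 : ‖t • v 0 i‖ ≤ 8 * (R + 2) := by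
          rw [norm_smul, Real.norm_of_nonneg ht.1, hv0, ← hτV]
          exact mul_le_mul htτ.2 (hv i) (norm_nonneg _) hτ0.le
        have h4 : ‖q 0 i‖ ≤ R := by
          rw [hq0]
          exact hp.bq i
        rw [h2]
        have h5 := norm_add_le (q t i - (q 0 i + t • v 0 i)) (q 0 i + t • v 0 i)
        have h6 := norm_add_le (q 0 i) (t • v 0 i)
        linarith
      · intro i
        show ‖m i • v t i‖ ≤ B
        have hsc : ‖m i • v t i‖ ≤ ‖v t i‖ := by
          rw [norm_smul, Real.norm_of_nonneg (hm i).le]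
          exact mul_le_of_le_one_left (norm_nonneg _) (hm1 i)
        refine hsc.trans ?_
        have hvz := hp.vz
        by_cases hi : i = a
        · rw [hi]
          have h2 : v t a = (v t a - u) + u := by abel
          rw [h2]
          have h3 := norm_add_le (v t a - u) u
          linarith
        by_cases hi' : i = b
        · rw [hi']
          have h2 : v t b = (v t b - u) + u := by abel
          rw [h2]
          have h3 := norm_add_le (v t b - u) u
          linarith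
        have h1 := k2 i hi hi'
        have h2 : v t i = (v t i - v 0 i) + v 0 i := by abel
        have h3 : ‖v 0 i‖ ≤ V := by
          rw [hv0]
          exact hv i
        rw [h2]
        have h4 := norm_add_le (v t i - v 0 i) (v 0 i)
        linarith
      · intro i j hij
        show d ≤ ‖q t i - q t j‖
        have hd1 : d ≤ σ / 2 := min_le_left _ _
        have hd3 : d ≤ (r * lam) ^ 2 / (4 * (m a + m b)) := min_le_right _ _
        have hd2 : d ≤ 9 * σ / 16 := by linarith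
        by_cases hi : i = a
        · by_cases hj : j = b
          · rw [hi, hj]
            exact hd3.trans k5
          · rw [hi, norm_sub_rev]
            exact hd2.trans (k4 j (fun h => hij (hi.trans h.symm)) hj).1
        by_cases hi' : i = b
        · by_cases hj : j = a
          · rw [hi', hj, norm_sub_rev]
            exact hd3.trans k5
          · rw [hi', norm_sub_rev]
            exact hd2.trans (k4 j hj (fun h => hij (hi'.trans h.symm))).2
        by_cases hj : j = a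
        · rw [hj]
          exact hd2.trans (k4 i hi hi').1
        by_cases hj' : j = b
        · rw [hj']
          exact hd2.trans (k4 i hi hi').2
        exact hd1.trans (k3 i j hi hi' hj hj' hij)
  · intro q v hsol hq0 hv0
    obtain ⟨k1, k2, k3, k4, k5, k6, k7, k8, k9⟩ := hcore τ hτ0.le (le_refl _) q v hsol hq0 hv0 τ
      ⟨hτ0.le, le_refl _⟩
    have hin : ∀ y' : V3, |⟪y', e⟫| ≤ ‖y'‖ := by
      intro y'
      have := abs_real_inner_le_norm y' e
      rwa [he, mul_one] at this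
    have hpos : ∀ i, i ≠ a → i ≠ b →
        |⟪q τ i, e⟫ - (⟪q₀ i, e⟫ + τ * ⟪v₀ i, e⟫)| ≤ A * τ ^ 2 := by
      intro i h1 h2
      have h3 := k1 i h1 h2
      rw [hq0, hv0] at h3
      have h4 : ⟪q τ i, e⟫ - (⟪q₀ i, e⟫ + τ * ⟪v₀ i, e⟫) = ⟪q τ i - (q₀ i + τ • v₀ i), e⟫ := by
        rw [inner_sub_left, inner_add_left, real_inner_smul_left]
      rw [h4]
      exact (hin _).trans h3
    have hsm : A * τ ^ 2 < 1 / 8 := by linarith
    refine ⟨⟨i₀, ?_⟩, ?_⟩
    · have h1 := (abs_le.mp (hpos i₀ hia hib)).1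
      have h2 := neg_le_of_abs_le ((hin (q₀ i₀)).trans (hp.bq i₀))
      have h3 : 4 * (R + 2) ≤ τ * ⟪v₀ i₀, e⟫ := by
        have := mul_le_mul_of_nonneg_left hi₀ hτ0.le
        have h4 : τ * (V / 2) = 4 * (R + 2) := by
          have : τ * (V / 2) = (τ * V) / 2 := by ring
          rw [this, hτV]
          ring
        linarith
      linarith
    · intro i hi
      have hia' : i ≠ a := by
        rintro rfl
        have h1 := hline τ ⟨hτ0.le, le_refl _⟩ _ k6
        have h2 := le_of_abs_le (hin (q τ i))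
        linarith
      have hib' : i ≠ b := by
        rintro rfl
        have h1 := hline τ ⟨hτ0.le, le_refl _⟩ _ k7
        have h2 := le_of_abs_le (hin (q τ i))
        linarith
      have h1 := (abs_le.mp (hpos i hia' hib')).2
      have h2 := le_of_abs_le ((hin (q₀ i)).trans (hp.bq i))
      have h3 : R + 3 ≤ τ * ⟪v₀ i, e⟫ := by linarith
      have h4 : V / 8 ≤ ⟪v₀ i, e⟫ := by
        refine le_of_mul_le_mul_left ?_ hτ0
        have h5 : τ * (V / 8) = R + 2 := by
          have : τ * (V / 8) = (τ * V) / 8 := by ring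
          rw [this, hτV]
          ring
        linarith
      have h5 := k2 i hia' hib'
      rw [hv0] at h5
      have h6 := neg_le_of_abs_le ((hin (v τ i - v₀ i)).trans h5)
      rw [inner_sub_left] at h6
      linarith

end Pool.Agent.NBody
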