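import Mathlib
import Pool.Agent.NBody.ThKick

/-!
Third version, type II: a body is far away.  The velocities get a balanced kick orthogonal to the
direction `e` of the far body and, if necessary, the group of the bodies beyond some height gets a
boost; the energy is absorbed by one pair of bodies.
-/

set_option autoImplicit false
open scoped RealInnerProductSpace
open Set Finset Filter Topology

namespace Pool.Agent.NBody

/-- Balanced kicks of all bodies in a direction orthogonal to `e`. -/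
theorem exists_kick_perp {N : ℕ} {m : Fin N → ℝ} (hm : ∀ i, 0 < m i) {μ : ℝ} (hμ0 : 0 < μ)
    (hμ : ∀ i, m i ≤ μ) (u : Fin N → V3) {e n : V3} (hn : ‖n‖ = 1) (hne : ⟪n, e⟫ = 0) {ε p : ℝ}
    (hp : 0 ≤ p) (hpε : ∀ i, p ≤ m i * ε) :
    ∃ v : Fin N → V3, (∀ i, ‖v i - u i‖ ≤ ε) ∧ (∀ i, ⟪v i, e⟫ = ⟪u i, e⟫) ∧
      ∑ i, m i • v i = ∑ i, m i • u i ∧
      ∑ i, m i * ‖u i‖ ^ 2 + p ^ 2 / μ * ((N : ℝ) - 1) ≤ ∑ i, m i * ‖v i‖ ^ 2 := by
  classical
  obtain ⟨σ, hσ1, hσ0, hσx, hσ2⟩ := exists_signs (Finset.univ : Finset (Fin N))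
    (fun i => ⟪u i, n⟫)
  rw [Finset.card_univ, Fintype.card_fin] at hσ2
  refine ⟨fun i => u i + (p * σ i / m i) • n, ?_, ?_, ?_, ?_⟩
  · intro i
    have hmi := hm i
    have h1 : p * |σ i| ≤ p * 1 := mul_le_mul_of_nonneg_left (hσ1 i) hp
    have h2 := hpε i
    rw [add_sub_cancel_left, norm_smul, hn, mul_one, Real.norm_eq_abs, abs_div, abs_mul,
      abs_of_nonneg hp, abs_of_pos hmi, div_le_iff₀ hmi]
    linarith
  · intro i
    rw [inner_add_left, inner_smul_left, hne, mul_zero, add_zero]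
  · simp only [smul_add, smul_smul]
    have h1 : ∀ i, m i * (p * σ i / m i) = p * σ i := by
      intro i
      have := (hm i).ne'
      field_simp
    simp only [h1]
    rw [Finset.sum_add_distrib, ← Finset.sum_smul, ← Finset.mul_sum, hσ0, mul_zero, zero_smul,
      add_zero]
  · have h1 : ∀ i, m i * ‖u i + (p * σ i / m i) • n‖ ^ 2 =
        m i * ‖u i‖ ^ 2 + (2 * p * (σ i * ⟪u i, n⟫) + p ^ 2 * (σ i ^ 2 / m i)) := by
      intro i
      have := (hm i).ne'
      rw [@norm_add_sq_real, inner_smul_right, norm_smul, hn, mul_one, Real.norm_eq_abs, sq_abs]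
      field_simp
      ring
    rw [Finset.sum_congr rfl (fun i _ => h1 i), Finset.sum_add_distrib, Finset.sum_add_distrib,
      ← Finset.mul_sum, ← Finset.mul_sum]
    have h2 : 0 ≤ 2 * p * ∑ i, σ i * ⟪u i, n⟫ := mul_nonneg (by linarith) hσx
    have h3 : ((N : ℝ) - 1) / μ ≤ ∑ i, σ i ^ 2 / m i := by
      have h4 : ∑ i, σ i ^ 2 / μ ≤ ∑ i, σ i ^ 2 / m i :=
        Finset.sum_le_sum (fun i _ => div_le_div_of_nonneg_left (sq_nonneg _) (hm i) (hμ i))
      rw [← Finset.sum_div] at h4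
      exact (div_le_div_of_nonneg_right hσ2 hμ0.le).trans h4
    have h5 : p ^ 2 * (((N : ℝ) - 1) / μ) ≤ p ^ 2 * ∑ i, σ i ^ 2 / m i :=
      mul_le_mul_of_nonneg_left h3 (by positivity)
    have h6 : p ^ 2 / μ * ((N : ℝ) - 1) = p ^ 2 * (((N : ℝ) - 1) / μ) := by ring
    rw [h6]
    linarith

/-- The boost: the group `A` gets a mean velocity at least `w` in the direction `e`, forwards or
backwards, without loss of kinetic energy. -/
theorem exists_boost {N : ℕ} {m : Fin N → ℝ} (hm : ∀ i, 0 < m i) (v : Fin N → V3)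
    (hv : ∑ i, m i • v i = 0) {e : V3} (he : ‖e‖ = 1) {A : Finset (Fin N)} (hA : A.Nonempty)
    {C w : ℝ} (hC : 1 ≤ C) (hw : 0 ≤ w) (hAc : ∑ i ∈ A, m i ≤ C * ∑ i ∈ Aᶜ, m i) :
    ∃ v' : Fin N → V3, (∀ i, ‖v' i - v i‖ ≤ 2 * C * w) ∧ ∑ i, m i • v' i = 0 ∧
      (∑ i ∈ A, m i) * w ≤ |∑ i ∈ A, m i * ⟪v' i, e⟫| ∧
      ∑ i, m i * ‖v i‖ ^ 2 ≤ ∑ i, m i * ‖v' i‖ ^ 2 := by
  classical
  obtain ⟨M, hM⟩ : ∃ M, M = ∑ i ∈ A, m i := ⟨_, rfl⟩
  obtain ⟨M', hM'⟩ : ∃ M', M' = ∑ i ∈ Aᶜ, m i := ⟨_, rfl⟩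
  obtain ⟨P, hP⟩ : ∃ P, P = ∑ i ∈ A, m i * ⟪v i, e⟫ := ⟨_, rfl⟩
  have hM0 : 0 < M := by
    rw [hM]
    exact Finset.sum_pos (fun i _ => hm i) hA
  rw [← hM, ← hM'] at hAc
  have hM'0 : 0 < M' := by
    by_contra h
    push Not at h
    have : C * M' ≤ 0 := mul_nonpos_of_nonneg_of_nonpos (by linarith) h
    linarith
  by_cases hbig : M * w ≤ |P|
  · refine ⟨v, fun i => ?_, hv, by rw [← hM, ← hP]; exact hbig, le_rfl⟩
    rw [sub_self, norm_zero]
    positivity
  · push Not at hbig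
    obtain ⟨β, hβ⟩ : ∃ β : Fin N → ℝ, β = fun i => if i ∈ A then 2 * w else -(2 * w * (M / M')) :=
      ⟨_, rfl⟩
    have hβA : ∀ i ∈ A, β i = 2 * w := fun i hi => by rw [hβ]; simp only; rw [if_pos hi]
    have hβc : ∀ i ∈ Aᶜ, β i = -(2 * w * (M / M')) := fun i hi => by
      rw [hβ]
      simp only
      rw [if_neg (Finset.mem_compl.mp hi)]
    have hMM : M / M' ≤ C := by
      rw [div_le_iff₀ hM'0]
      exact hAc
    have hMM0 : 0 ≤ M / M' := by positivity
    have hPc : ∑ i ∈ Aᶜ, m i * ⟪v i, e⟫ = -P := by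
      have h1 : ∑ i, m i * ⟪v i, e⟫ = 0 := by
        have h2 : ∀ i, m i * ⟪v i, e⟫ = ⟪m i • v i, e⟫ := fun i => by rw [real_inner_smul_left]
        rw [Finset.sum_congr rfl (fun i _ => h2 i), ← sum_inner, hv, inner_zero_left]
      have h3 := Finset.sum_add_sum_compl A (fun i => m i * ⟪v i, e⟫)
      rw [h1, ← hP] at h3
      linarith
    refine ⟨fun i => v i + β i • e, ?_, ?_, ?_, ?_⟩
    · intro i
      rw [add_sub_cancel_left, norm_smul, he, mul_one, Real.norm_eq_abs]
      by_cases hi : i ∈ A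
      · rw [hβA i hi, abs_of_nonneg (by linarith)]
        nlinarith
      · rw [hβc i (Finset.mem_compl.mpr hi), abs_neg, abs_of_nonneg (by positivity)]
        nlinarith
    · simp only [smul_add, smul_smul]
      rw [Finset.sum_add_distrib, hv, zero_add, ← Finset.sum_smul]
      have h1 : ∑ i, m i * β i = 0 := by
        rw [← Finset.sum_add_sum_compl A (fun i => m i * β i),
          Finset.sum_congr rfl (fun i hi => by rw [hβA i hi] :
            ∀ i ∈ A, m i * β i = m i * (2 * w)),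
          Finset.sum_congr rfl (fun i hi => by rw [hβc i hi] :
            ∀ i ∈ Aᶜ, m i * β i = m i * (-(2 * w * (M / M')))),
          ← Finset.sum_mul, ← Finset.sum_mul, ← hM, ← hM']
        field_simp
        ring
      rw [h1, zero_smul]
    · have h1 : ∀ i ∈ A, m i * ⟪v i + β i • e, e⟫ = m i * ⟪v i, e⟫ + m i * (2 * w) := by
        intro i hi
        rw [inner_add_left, real_inner_smul_left, real_inner_self_eq_norm_sq, he, hβA i hi]
        ring
      rw [Finset.sum_congr rfl h1, Finset.sum_add_distrib, ← Finset.sum_mul, ← hM, ← hP]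
      have h2 := (abs_lt.mp hbig).1
      have h3 : M * w ≤ P + M * (2 * w) := by linarith
      exact h3.trans (le_abs_self _)
    · have h1 : ∀ i, m i * ‖v i + β i • e‖ ^ 2 =
          m i * ‖v i‖ ^ 2 + (2 * (β i * (m i * ⟪v i, e⟫)) + β i ^ 2 * m i) := by
        intro i
        rw [@norm_add_sq_real, inner_smul_right, norm_smul, he, mul_one, Real.norm_eq_abs, sq_abs]
        ring
      rw [Finset.sum_congr rfl (fun i _ => h1 i), Finset.sum_add_distrib,
        ← Finset.sum_add_sum_compl A (fun i => 2 * (β i * (m i * ⟪v i, e⟫)) + β i ^ 2 * m i)]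
      have h2 : ∑ i ∈ A, (2 * (β i * (m i * ⟪v i, e⟫)) + β i ^ 2 * m i) =
          4 * w * P + (2 * w) ^ 2 * M := by
        rw [hP, hM, Finset.mul_sum, Finset.mul_sum, ← Finset.sum_add_distrib]
        apply Finset.sum_congr rfl
        intro i hi
        rw [hβA i hi]
        ring
      have h3 : ∑ i ∈ Aᶜ, (2 * (β i * (m i * ⟪v i, e⟫)) + β i ^ 2 * m i) =
          4 * w * (M / M') * P + (2 * w * (M / M')) ^ 2 * M' := by
        have h4 : 4 * w * (M / M') * P = -(4 * w * (M / M')) * ∑ i ∈ Aᶜ, m i * ⟪v i, e⟫ := by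
          rw [hPc]; ring
        rw [h4]
        conv_rhs => rw [hM']
        rw [Finset.mul_sum, Finset.mul_sum, ← Finset.sum_add_distrib]
        apply Finset.sum_congr rfl
        intro i hi
        rw [hβc i hi, ← hM']
        ring
      rw [h2, h3]
      have h5 : -(M * w) ≤ P := (abs_lt.mp hbig).1.le
      have h6 : 0 ≤ 4 * w * (P + M * w) := mul_nonneg (by linarith) (by linarith)
      have h7 : (2 * w * (M / M')) ^ 2 * M' = 4 * w * (M / M') * (w * M) := by
        field_simp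
        ring
      have h8 : 0 ≤ 4 * w * (M / M') * (P + w * M) :=
        mul_nonneg (by positivity) (by linarith)
      rw [h7]
      nlinarith

end Pool.Agent.NBody
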