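import Mathlib
import Pool.Agent.NBody.ThDefs

/-!
One step of the rigorous enclosure of a perturbed three-body solution near a reference curve.
-/

set_option autoImplicit false
open scoped RealInnerProductSpace
open Set Finset Filter Topology

namespace Pool.Agent.NBody

/-- The Newtonian kernel is Lipschitz with constant `2 / D ^ 3` outside the ball of radius `D`. -/
theorem kernel_lip {a b : V3} {D : ℝ} (hD : 0 < D) (ha : D ≤ ‖a‖) (hb : D ≤ ‖b‖) :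
    ‖(1 / ‖a‖ ^ 3) • a - (1 / ‖b‖ ^ 3) • b‖ ≤ 2 * ‖a - b‖ / D ^ 3 := by
  have hA : 0 < ‖a‖ := hD.trans_le ha
  have hB : 0 < ‖b‖ := hD.trans_le hb
  obtain ⟨A, hAe⟩ : ∃ A, A = ‖a‖ := ⟨_, rfl⟩
  obtain ⟨B, hBe⟩ : ∃ B, B = ‖b‖ := ⟨_, rfl⟩
  obtain ⟨c, hc⟩ : ∃ c : ℝ, c = ⟪a, b⟫ := ⟨_, rfl⟩
  have h1 : ‖(1 / ‖a‖ ^ 3) • a - (1 / ‖b‖ ^ 3) • b‖ ^ 2 =
      (1 / A ^ 3) ^ 2 * A ^ 2 - 2 * ((1 / A ^ 3) * (1 / B ^ 3) * c) + (1 / B ^ 3) ^ 2 * B ^ 2 := by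
    rw [norm_sub_sq_real, norm_smul, norm_smul, real_inner_smul_left, real_inner_smul_right,
      Real.norm_of_nonneg (by positivity), Real.norm_of_nonneg (by positivity), ← hAe, ← hBe, ← hc]
    ring
  have h2 : ‖a - b‖ ^ 2 = A ^ 2 - 2 * c + B ^ 2 := by
    rw [norm_sub_sq_real, ← hAe, ← hBe, ← hc]
  have h3 : (A - B) ^ 2 ≤ ‖a - b‖ ^ 2 := by
    have h4 : |A - B| ≤ ‖a - b‖ := by
      rw [hAe, hBe]
      exact abs_norm_sub_norm_le a b
    rw [← sq_abs]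
    exact pow_le_pow_left₀ (abs_nonneg _) h4 2
  rw [← hAe] at ha hA
  rw [← hBe] at hb hB
  obtain ⟨x, hx⟩ : ∃ x, x = 1 / A := ⟨_, rfl⟩
  obtain ⟨y, hy⟩ : ∃ y, y = 1 / B := ⟨_, rfl⟩
  obtain ⟨k, hk⟩ : ∃ k, k = 1 / D := ⟨_, rfl⟩
  have hx0 : 0 < x := by rw [hx]; positivity
  have hy0 : 0 < y := by rw [hy]; positivity
  have hxk : x ≤ k := by
    rw [hx, hk]
    exact one_div_le_one_div_of_le hD ha
  have hyk : y ≤ k := by
    rw [hy, hk]
    exact one_div_le_one_div_of_le hD hb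
  have hk0 : 0 < k := hx0.trans_le hxk
  have e1 : (1 / A ^ 3) ^ 2 * A ^ 2 - 2 * ((1 / A ^ 3) * (1 / B ^ 3) * c) +
      (1 / B ^ 3) ^ 2 * B ^ 2 =
      (A ^ 2 - 2 * c + B ^ 2) * (x ^ 3 * y ^ 3) +
      (A - B) ^ 2 * (x ^ 2 * y ^ 4 + x ^ 3 * y ^ 3 + x ^ 4 * y ^ 2) := by
    rw [hx, hy]
    field_simp
    ring
  have b1 : x ^ 3 * y ^ 3 ≤ k ^ 6 := by
    calc x ^ 3 * y ^ 3 ≤ k ^ 3 * k ^ 3 := by gcongr
      _ = k ^ 6 := by ring
  have b2 : x ^ 2 * y ^ 4 ≤ k ^ 6 := by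
    calc x ^ 2 * y ^ 4 ≤ k ^ 2 * k ^ 4 := by gcongr
      _ = k ^ 6 := by ring
  have b3 : x ^ 4 * y ^ 2 ≤ k ^ 6 := by
    calc x ^ 4 * y ^ 2 ≤ k ^ 4 * k ^ 2 := by gcongr
      _ = k ^ 6 := by ring
  have hsq : ‖(1 / ‖a‖ ^ 3) • a - (1 / ‖b‖ ^ 3) • b‖ ^ 2 ≤ (2 * ‖a - b‖ / D ^ 3) ^ 2 := by
    rw [h1, e1, ← h2]
    have e2 : (2 * ‖a - b‖ / D ^ 3) ^ 2 = ‖a - b‖ ^ 2 * k ^ 6 +
        ‖a - b‖ ^ 2 * (k ^ 6 + k ^ 6 + k ^ 6) := by
      rw [hk]
      field_simp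
      ring
    rw [e2]
    have hn : 0 ≤ ‖a - b‖ ^ 2 := by positivity
    have hs : 0 ≤ x ^ 2 * y ^ 4 + x ^ 3 * y ^ 3 + x ^ 4 * y ^ 2 := by positivity
    have t1 : ‖a - b‖ ^ 2 * (x ^ 3 * y ^ 3) ≤ ‖a - b‖ ^ 2 * k ^ 6 :=
      mul_le_mul_of_nonneg_left b1 hn
    have t2 : (A - B) ^ 2 * (x ^ 2 * y ^ 4 + x ^ 3 * y ^ 3 + x ^ 4 * y ^ 2) ≤
        ‖a - b‖ ^ 2 * (k ^ 6 + k ^ 6 + k ^ 6) := by
      refine (mul_le_mul_of_nonneg_right h3 hs).trans ?_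
      exact mul_le_mul_of_nonneg_left (by linarith) hn
    linarith
  exact le_of_sq_le_sq hsq (by positivity)

/-- Continuous induction. -/
theorem first_exit {G : ℝ → ℝ} {a b Z : ℝ} (hG : ContinuousOn G (Icc a b)) (h0 : G a < Z)
    (h : ∀ t ∈ Icc a b, (∀ s ∈ Icc a t, G s ≤ Z) → G t < Z) : ∀ t ∈ Icc a b, G t < Z := by
  by_contra hcon
  push Not at hcon
  obtain ⟨t₀, ht₀, hZ⟩ := hcon
  have hclosed : IsClosed (Icc a b ∩ G ⁻¹' Ici Z) :=
    hG.preimage_isClosed_of_isClosed isClosed_Icc isClosed_Ici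
  have hcomp : IsCompact (Icc a b ∩ G ⁻¹' Ici Z) :=
    isCompact_Icc.of_isClosed_subset hclosed inter_subset_left
  obtain ⟨t, ht, hmin⟩ := hcomp.exists_isLeast ⟨t₀, ht₀, hZ⟩
  have hta : a < t := by
    rcases ht.1.1.lt_or_eq with h1 | h1
    · exact h1
    · exfalso
      have := ht.2
      rw [Set.mem_preimage, Set.mem_Ici, ← h1] at this
      linarith
  have hlt : ∀ s ∈ Icc a t, s < t → G s < Z := by
    intro s hs hst
    by_contra hc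
    push Not at hc
    have := hmin ⟨⟨hs.1, hs.2.trans ht.1.2⟩, hc⟩
    linarith
  have hGt : G t ≤ Z := by
    by_contra hc
    push Not at hc
    have hcont : ContinuousOn G (Icc a t) := hG.mono (Icc_subset_Icc_right ht.1.2)
    obtain ⟨s, hs, hse⟩ := intermediate_value_Icc hta.le hcont ⟨h0.le, hc.le⟩
    have h2 : t ≤ s := hmin ⟨⟨hs.1, hs.2.trans ht.1.2⟩, hse.ge⟩
    have h3 : s = t := le_antisymm hs.2 h2
    rw [h3] at hse
    linarith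
  have h3 := h t ht.1 (fun s hs => by
    rcases hs.2.lt_or_eq with h4 | h4
    · exact (hlt s hs h4).le
    · rw [h4]
      exact hGt)
  have h4 : Z ≤ G t := ht.2
  linarith

/-- Difference of the accelerations at two configurations. -/
theorem acc_lip {q p : Fin 3 → V3} {m : Fin 3 → Fin 3 → ℝ} {Z L : ℝ}
    (hm : ∀ k l, k ≠ l → m k l ≤ ‖p k - p l‖) (hmZ : ∀ k l, k ≠ l → 2 * Z < m k l)
    (hL : ∀ k, ∑ l, (if l = k then 0 else 4 / (m k l - 2 * Z) ^ 3) ≤ L)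
    (hqp : ∀ k, ‖q k - p k‖ ≤ Z) (k : Fin 3) : ‖acc 1 q k - acc 1 p k‖ ≤ L * Z := by
  have hZ : 0 ≤ Z := (norm_nonneg _).trans (hqp 0)
  have h1 : ‖acc 1 q k - acc 1 p k‖ ≤
      ∑ l, (if l = k then 0 else 4 / (m k l - 2 * Z) ^ 3) * Z := by
    unfold acc
    rw [← Finset.sum_sub_distrib]
    refine (norm_sum_le _ _).trans ?_
    apply Finset.sum_le_sum
    intro l _
    by_cases hlk : l = k
    · subst hlk
      simp
    · rw [if_neg hlk]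
      have hkl : k ≠ l := fun h => hlk h.symm
      have hD : 0 < m k l - 2 * Z := by linarith [hmZ k l hkl]
      have h2 : m k l ≤ ‖p l - p k‖ := by
        rw [norm_sub_rev]
        exact hm k l hkl
      have h3 : ‖(q l - q k) - (p l - p k)‖ ≤ 2 * Z := by
        have e1 : (q l - q k) - (p l - p k) = (q l - p l) - (q k - p k) := by abel
        rw [e1]
        refine (norm_sub_le _ _).trans ?_
        linarith [hqp l, hqp k]
      have h4 : m k l - 2 * Z ≤ ‖q l - q k‖ := by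
        have h5 : ‖p l - p k‖ - ‖q l - q k‖ ≤ ‖(p l - p k) - (q l - q k)‖ := norm_sub_norm_le _ _
        rw [norm_sub_rev (p l - p k)] at h5
        linarith
      refine (kernel_lip hD h4 (by linarith : m k l - 2 * Z ≤ ‖p l - p k‖)).trans ?_
      have h6 : 2 * ‖q l - q k - (p l - p k)‖ / (m k l - 2 * Z) ^ 3 ≤
          2 * (2 * Z) / (m k l - 2 * Z) ^ 3 := by
        apply div_le_div_of_nonneg_right _ (by positivity)
        linarith
      refine h6.trans (le_of_eq ?_)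
      ring
  refine h1.trans ?_
  rw [← Finset.sum_mul]
  exact mul_le_mul_of_nonneg_right (hL k) hZ

/-- One step of the enclosure: a perturbed solution stays near the reference curve `P` on
`[t₀, t₁]` if it is near at `t₀`. -/
theorem gstep {T : ℝ} {f Q V : ℝ → Fin 3 → V3} (hsol : IsSol 1 T f Q V) {η : ℝ}
    (hf : ∀ t ∈ Icc (0 : ℝ) T, ∀ k, ‖f t k‖ ≤ η) {t₀ t₁ : ℝ} (h0 : 0 ≤ t₀) (h01 : t₀ ≤ t₁)
    (P W A : ℝ → Fin 3 → V3)
    (hP : ∀ t ∈ Icc t₀ t₁, ∀ k, HasDerivWithinAt (fun s => P s k) (W t k) (Icc t₀ t₁) t)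
    (hW : ∀ t ∈ Icc t₀ t₁, ∀ k, HasDerivWithinAt (fun s => W s k) (A t k) (Icc t₀ t₁) t)
    {δ : ℝ} (hd : ∀ t ∈ Icc t₀ t₁, ∀ k, ‖A t k - acc 1 (P t) k‖ ≤ δ)
    (m : Fin 3 → Fin 3 → ℝ) (hm : ∀ t ∈ Icc t₀ t₁, ∀ k l, k ≠ l → m k l ≤ ‖P t k - P t l‖)
    {a b Z C L : ℝ} (hZ0 : 0 ≤ Z) (hmZ : ∀ k l, k ≠ l → 2 * Z < m k l)
    (hL : ∀ k, ∑ l, (if l = k then 0 else 4 / (m k l - 2 * Z) ^ 3) ≤ L)
    (ha : t₀ ≤ T → ∀ k, ‖Q t₀ k - P t₀ k‖ ≤ a) (hb : t₀ ≤ T → ∀ k, ‖V t₀ k - W t₀ k‖ ≤ b)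
    (hC : L * Z + δ + η ≤ C) (hZ : a + (t₁ - t₀) * b + (t₁ - t₀) ^ 2 / 2 * C < Z) :
    ∀ t ∈ Icc t₀ t₁, t ≤ T → ∀ k, ‖Q t k - P t k‖ ≤ a + (t - t₀) * b + (t - t₀) ^ 2 / 2 * C ∧
      ‖V t k - W t k‖ ≤ b + (t - t₀) * C := by
  intro t₂ ht₂ ht₂T
  have hT0 : t₀ ≤ T := ht₂.1.trans ht₂T
  have hsub1 : Icc t₀ t₂ ⊆ Icc t₀ t₁ := Icc_subset_Icc_right ht₂.2
  have hsub2 : Icc t₀ t₂ ⊆ Icc (0:ℝ) T := Icc_subset_Icc h0 ht₂T
  have ha0 : 0 ≤ a := (norm_nonneg _).trans (ha hT0 0)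
  have hb0 : 0 ≤ b := (norm_nonneg _).trans (hb hT0 0)
  have hδ0 : 0 ≤ δ := (norm_nonneg _).trans (hd t₀ ⟨le_rfl, h01⟩ 0)
  have hη0 : 0 ≤ η := (norm_nonneg _).trans (hf t₀ ⟨h0, hT0⟩ 0)
  have hL0 : 0 ≤ L := by
    refine le_trans ?_ (hL 0)
    apply Finset.sum_nonneg
    intro l _
    split_ifs with h
    · exact le_rfl
    · have : 0 < m 0 l - 2 * Z := by linarith [hmZ 0 l (fun h' => h h'.symm)]
      positivity
  have hC0 : 0 ≤ C := by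
    have := mul_nonneg hL0 hZ0
    linarith
  -- derivatives of the differences
  have hE : ∀ t ∈ Icc t₀ t₂, ∀ k,
      HasDerivWithinAt (fun s => Q s k - P s k) (V t k - W t k) (Icc t₀ t₂) t := fun t ht k =>
    ((hsol.dq t (hsub2 ht) k).mono hsub2).sub ((hP t (hsub1 ht) k).mono hsub1)
  have hF : ∀ t ∈ Icc t₀ t₂, ∀ k,
      HasDerivWithinAt (fun s => V s k - W s k) (acc 1 (Q t) k + f t k - A t k)
        (Icc t₀ t₂) t := fun t ht k =>
    ((hsol.dv t (hsub2 ht) k).mono hsub2).sub ((hW t (hsub1 ht) k).mono hsub1)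
  -- bounds as long as the difference is at most `Z`
  have key : ∀ t ∈ Icc t₀ t₂, (∀ s ∈ Icc t₀ t, ∀ k, ‖Q s k - P s k‖ ≤ Z) → ∀ k,
      ‖Q t k - P t k‖ ≤ a + (t - t₀) * b + (t - t₀) ^ 2 / 2 * C ∧
        ‖V t k - W t k‖ ≤ b + (t - t₀) * C := by
    intro t ht hs
    have hsub3 : Icc t₀ t ⊆ Icc t₀ t₂ := Icc_subset_Icc_right ht.2
    have hVW : ∀ s ∈ Icc t₀ t, ∀ k, ‖V s k - W s k‖ ≤ b + (s - t₀) * C := by
      intro s hs' k
      refine image_norm_le_of_norm_deriv_right_le_deriv_boundary (f := fun s => V s k - W s k)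
        (f' := fun s => acc 1 (Q s) k + f s k - A s k) (a := t₀) (b := t)
        (B := fun s => b + (s - t₀) * C) (B' := fun _ => C) ?_ ?_ ?_ ?_ ?_ hs'
      · intro r hr
        exact ((hF r (hsub3 hr) k).mono hsub3).continuousWithinAt
      · intro r hr
        refine (hF r (hsub3 ⟨hr.1, hr.2.le⟩) k).mono_of_mem_nhdsWithin ?_
        exact Icc_mem_nhdsGE_of_mem ⟨hr.1, hr.2.trans_le ht.2⟩
      · simpa using hb hT0 k
      · intro r
        simpa using (((hasDerivAt_id r).sub_const t₀).mul_const C).const_add b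
      · intro r hr
        have hr' : r ∈ Icc t₀ t₂ := hsub3 ⟨hr.1, hr.2.le⟩
        have h1 := acc_lip (q := Q r) (p := P r) (hm r (hsub1 hr')) hmZ hL
          (hs r ⟨hr.1, hr.2.le⟩) k
        have h2 := hd r (hsub1 hr') k
        have h3 := hf r (hsub2 hr') k
        have e1 : acc 1 (Q r) k + f r k - A r k =
            (acc 1 (Q r) k - acc 1 (P r) k) + f r k - (A r k - acc 1 (P r) k) := by abel
        rw [e1]
        refine (norm_sub_le _ _).trans ?_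
        have h4 := norm_add_le (acc 1 (Q r) k - acc 1 (P r) k) (f r k)
        linarith
    intro k
    refine ⟨?_, hVW t ⟨ht.1, le_rfl⟩ k⟩
    refine image_norm_le_of_norm_deriv_right_le_deriv_boundary (f := fun s => Q s k - P s k)
      (f' := fun s => V s k - W s k) (a := t₀) (b := t)
      (B := fun s => a + (s - t₀) * b + (s - t₀) ^ 2 / 2 * C)
      (B' := fun s => b + (s - t₀) * C) ?_ ?_ ?_ ?_ ?_ ⟨ht.1, le_rfl⟩
    · intro r hr
      exact ((hE r (hsub3 hr) k).mono hsub3).continuousWithinAt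
    · intro r hr
      refine (hE r (hsub3 ⟨hr.1, hr.2.le⟩) k).mono_of_mem_nhdsWithin ?_
      exact Icc_mem_nhdsGE_of_mem ⟨hr.1, hr.2.trans_le ht.2⟩
    · simpa using ha hT0 k
    · intro r
      have h1 : HasDerivAt (fun s : ℝ => s - t₀) 1 r := (hasDerivAt_id r).sub_const t₀
      have h2 := ((h1.mul_const b).const_add a).add (((h1.mul h1).div_const 2).mul_const C)
      have h3 : b + (r - t₀) * C = 1 * b + (1 * (r - t₀) + (r - t₀) * 1) / 2 * C := by ring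
      have h4 : (fun s : ℝ => a + (s - t₀) * b + (s - t₀) ^ 2 / 2 * C) =
          fun s : ℝ => a + (s - t₀) * b + (s - t₀) * (s - t₀) / 2 * C := by
        funext s
        ring
      rw [h3, h4]
      exact h2
    · intro r hr
      exact hVW r ⟨hr.1, hr.2.le⟩ k
  -- continuous induction
  have hEc : ContinuousOn (fun t => fun k => Q t k - P t k) (Icc t₀ t₂) :=
    continuousOn_pi.mpr (fun k t ht => (hE t ht k).continuousWithinAt)
  have hbd : ∀ t ∈ Icc t₀ t₂, a + (t - t₀) * b + (t - t₀) ^ 2 / 2 * C < Z := by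
    intro t ht
    refine lt_of_le_of_lt ?_ hZ
    have h1 : t - t₀ ≤ t₁ - t₀ := by linarith [ht.2, ht₂.2]
    have h2 : 0 ≤ t - t₀ := by linarith [ht.1]
    gcongr
  have hind := first_exit (G := fun t => ‖fun k => Q t k - P t k‖) (a := t₀) (b := t₂) (Z := Z)
    hEc.norm ?_ ?_
  · intro k
    refine key t₂ ⟨ht₂.1, le_rfl⟩ (fun s hs k => ?_) k
    exact (norm_le_pi_norm (fun k => Q s k - P s k) k).trans (hind s hs).le
  · have h1 := hbd t₀ ⟨le_rfl, ht₂.1⟩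
    simp only [sub_self, zero_mul, add_zero, ne_eq, OfNat.ofNat_ne_zero, not_false_eq_true,
      zero_pow, zero_div] at h1
    refine lt_of_le_of_lt ((pi_norm_le_iff_of_nonneg ha0).mpr (fun k => ha hT0 k)) h1
  · intro t ht hs
    have h1 := key t ht (fun s hs' k =>
      (norm_le_pi_norm (fun k => Q s k - P s k) k).trans (hs s hs'))
    refine lt_of_le_of_lt ((pi_norm_le_iff_of_nonneg ?_).mpr (fun k => (h1 k).1)) (hbd t ht)
    exact (norm_nonneg _).trans (h1 0).1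

end Pool.Agent.NBody
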