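import Mathlib
import Pool.Agent.NBody.ThDefsM
import Pool.Agent.NBody.ThGunDefs
import Pool.Agent.NBody.ThStep

/-!
The enclosure of the gun for masses near one, from the enclosure for masses one: the difference
of the masses is put into the additional accelerations.
-/

set_option autoImplicit false
open scoped RealInnerProductSpace
open Set Finset Filter Topology

namespace Pool.Agent.NBody

/-- (A1) with masses: the enclosure up to the time `gunT` for masses near one -/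
def GunEncM : Prop :=
  ∃ η₁ > 0, ∀ m : Fin 3 → ℝ, (∀ k, |m k - 1| ≤ η₁) → ∀ T η : ℝ, 0 < T → 0 ≤ η → η ≤ η₁ →
    ∀ f Q V : ℝ → Fin 3 → V3, IsSolM m T f Q V → (∀ t ∈ Icc (0 : ℝ) T, ∀ k, ‖f t k‖ ≤ η) →
    (∀ k, Q 0 k = gunS k) → (∀ k, V 0 k = 0) →
    ∀ t ∈ Icc (0 : ℝ) T, t ≤ gunT →
      (∀ k l, k ≠ l → 1 / 30 ≤ ‖Q t k - Q t l‖) ∧ (∀ k, ‖Q t k‖ ≤ 1) ∧ (∀ k, ‖V t k‖ ≤ 20) ∧
      (t = gunT → ∀ k, ‖Q t k - gunP k‖ ≤ 1 / 2000 ∧ ‖V t k - gunW k‖ ≤ 1 / 50)

/-- A solution with masses `m` is a solution with masses one and other additional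
accelerations. -/
theorem IsSolM.toIsSol {ι : Type*} [Fintype ι] {m : ι → ℝ} {T : ℝ} {f q v : ℝ → ι → V3}
    (h : IsSolM m T f q v) :
    IsSol 1 T (fun t i => f t i + (accM m (q t) i - acc 1 (q t) i)) q v := by
  refine ⟨h.dq, fun t ht i => ?_, h.nc⟩
  have e1 : acc 1 (q t) i + (f t i + (accM m (q t) i - acc 1 (q t) i)) =
      accM m (q t) i + f t i := by abel
  rw [e1]
  exact h.dv t ht i

/-- Restriction to a shorter time. -/
theorem IsSolM.restr {ι : Type*} [Fintype ι] {m : ι → ℝ} {T T' : ℝ} {f q v : ℝ → ι → V3}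
    (h : IsSolM m T f q v) (hT : T' ≤ T) : IsSolM m T' f q v := by
  have hs : Icc (0 : ℝ) T' ⊆ Icc 0 T := Icc_subset_Icc_right hT
  exact ⟨fun t ht i => (h.dq t (hs ht) i).mono hs, fun t ht i => (h.dv t (hs ht) i).mono hs,
    fun t ht => h.nc t (hs ht)⟩

/-- Size of the difference of the accelerations for two systems of masses. -/
theorem accM_sub_acc_le {m : Fin 3 → ℝ} {η₁ D : ℝ} (hm : ∀ k, |m k - 1| ≤ η₁) (hD : 0 < D)
    {q : Fin 3 → V3} (hq : ∀ k l, k ≠ l → D ≤ ‖q k - q l‖) (i : Fin 3) :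
    ‖accM m q i - acc 1 q i‖ ≤ 3 * (η₁ / D ^ 2) := by
  have hη : 0 ≤ η₁ := (abs_nonneg _).trans (hm 0)
  unfold accM acc
  rw [← Finset.sum_sub_distrib]
  refine (norm_sum_le _ _).trans ?_
  have h1 : ∀ j ∈ (Finset.univ : Finset (Fin 3)),
      ‖(m j / ‖q j - q i‖ ^ 3) • (q j - q i) - (1 / ‖q j - q i‖ ^ 3) • (q j - q i)‖ ≤
        η₁ / D ^ 2 := by
    intro j _
    rw [← sub_smul, ← sub_div, norm_smul, norm_div, norm_pow, norm_norm]
    by_cases hji : j = i
    · subst hji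
      simp
      positivity
    · have hpos : D ≤ ‖q j - q i‖ := hq j i hji
      have hp : 0 < ‖q j - q i‖ := lt_of_lt_of_le hD hpos
      have e : ‖m j - 1‖ / ‖q j - q i‖ ^ 3 * ‖q j - q i‖ = ‖m j - 1‖ / ‖q j - q i‖ ^ 2 := by
        field_simp
      rw [e, Real.norm_eq_abs]
      gcongr
      exact hm j
  refine (Finset.sum_le_sum h1).trans ?_
  simp

theorem normsq_three (x : V3) : ‖x‖ ^ 2 = x 0 ^ 2 + x 1 ^ 2 + x 2 ^ 2 := by
  rw [EuclideanSpace.norm_sq_eq, Fin.sum_univ_three]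
  simp only [Real.norm_eq_abs, sq_abs]

theorem gunS_le (k : Fin 3) : ‖gunS k‖ ≤ 1 := by
  have h1 : ‖gunS k‖ ^ 2 ≤ 1 := by
    rw [normsq_three]
    fin_cases k <;> simp [gunS] <;> norm_num
  nlinarith [norm_nonneg (gunS k)]

theorem gunS_sep (k l : Fin 3) (h : k ≠ l) : 1 / 30 ≤ ‖gunS k - gunS l‖ := by
  have h1 : (1 / 30 : ℝ) ^ 2 ≤ ‖gunS k - gunS l‖ ^ 2 := by
    rw [normsq_three]
    fin_cases k <;> fin_cases l <;> simp [gunS] at h ⊢ <;> norm_num
  exact (pow_le_pow_iff_left₀ (by norm_num) (norm_nonneg _) two_ne_zero).1 h1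

/-- The enclosure for masses near one follows from the enclosure for masses one: the distances
of the three bodies stay above `1 / 40`. -/
theorem gunEncM_of (h : GunEnc) : GunEncM := by
  obtain ⟨η₁, hη₁, H⟩ := h
  refine ⟨η₁ / 5000, by positivity, ?_⟩
  intro m hm T η hT hη hηle f Q V hsol hf hQ0 hV0
  -- the time up to which we work
  set T₁ := min T gunT with hT₁
  have hgT : (0 : ℝ) < gunT := by
    unfold gunT
    norm_num
  have hT₁0 : 0 < T₁ := lt_min hT hgT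
  have hT₁T : T₁ ≤ T := min_le_left _ _
  -- the enclosure on `[0, t]` when the bodies are apart on `[0, t]`
  have key : ∀ t ∈ Icc (0 : ℝ) T₁, 0 < t →
      (∀ s ∈ Icc (0 : ℝ) t, ∀ k l, k ≠ l → 1 / 40 ≤ ‖Q s k - Q s l‖) →
      (∀ k l, k ≠ l → 1 / 30 ≤ ‖Q t k - Q t l‖) ∧ (∀ k, ‖Q t k‖ ≤ 1) ∧ (∀ k, ‖V t k‖ ≤ 20) ∧
      (t = gunT → ∀ k, ‖Q t k - gunP k‖ ≤ 1 / 2000 ∧ ‖V t k - gunW k‖ ≤ 1 / 50) := by
    intro t ht ht0 hsep
    have htT : t ≤ T := ht.2.trans hT₁T
    have hs : IsSol 1 t (fun t i => f t i + (accM m (Q t) i - acc 1 (Q t) i)) Q V :=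
      (hsol.restr htT).toIsSol
    have hbound : ∀ s ∈ Icc (0 : ℝ) t, ∀ k,
        ‖f s k + (accM m (Q s) k - acc 1 (Q s) k)‖ ≤ η₁ := by
      intro s hs k
      have h1 := hf s ⟨hs.1, hs.2.trans htT⟩ k
      have h2 := accM_sub_acc_le hm (by norm_num : (0 : ℝ) < 1 / 40) (hsep s hs) k
      refine (norm_add_le _ _).trans ?_
      have h3 : 3 * (η₁ / 5000 / (1 / 40 : ℝ) ^ 2) = η₁ * (24 / 25) := by
        ring
      rw [h3] at h2
      linarith
    exact H t η₁ ht0 hη₁.le le_rfl _ Q V hs hbound hQ0 hV0 t ⟨ht0.le, le_rfl⟩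
      (ht.2.trans (min_le_right _ _))
  -- the separation at the time `0`
  have hsep0 : ∀ k l, k ≠ l → 1 / 30 ≤ ‖Q 0 k - Q 0 l‖ := by
    intro k l hkl
    rw [hQ0, hQ0]
    exact gunS_sep k l hkl
  have hcontQ : ∀ k, ContinuousOn (fun s => Q s k) (Icc 0 T₁) := fun k s hs =>
    ((hsol.dq s ⟨hs.1, hs.2.trans hT₁T⟩ k).continuousWithinAt).mono
      (Icc_subset_Icc_right hT₁T)
  have hall : ∀ t ∈ Icc (0 : ℝ) T₁, ∀ k l, k ≠ l → 1 / 40 ≤ ‖Q t k - Q t l‖ := by
    set G : ℝ → ℝ := fun s => -(min (‖Q s 0 - Q s 1‖) (min (‖Q s 0 - Q s 2‖) (‖Q s 1 - Q s 2‖)))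
      with hG
    have hGc : ContinuousOn G (Icc 0 T₁) := by
      have c1 := ((hcontQ 0).sub (hcontQ 1)).norm
      have c2 := ((hcontQ 0).sub (hcontQ 2)).norm
      have c3 := ((hcontQ 1).sub (hcontQ 2)).norm
      have c4 := continuous_min.comp_continuousOn (c2.prodMk c3)
      exact (continuous_min.comp_continuousOn (c1.prodMk c4)).neg
    have hfrom : ∀ s : ℝ, ∀ c : ℝ, G s ≤ -c → ∀ k l, k ≠ l → c ≤ ‖Q s k - Q s l‖ := by
      intro s c hs
      have h1 : c ≤ min (‖Q s 0 - Q s 1‖) (min (‖Q s 0 - Q s 2‖) (‖Q s 1 - Q s 2‖)) := by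
        simp only [hG] at hs
        linarith
      have h2 := h1.trans (min_le_left _ _)
      have h3 := h1.trans ((min_le_right _ _).trans (min_le_left _ _))
      have h4 := h1.trans ((min_le_right _ _).trans (min_le_right _ _))
      intro k l hkl
      fin_cases k <;> fin_cases l <;> simp at hkl ⊢
      · exact h2
      · exact h3
      · rw [norm_sub_rev]
        exact h2
      · exact h4
      · rw [norm_sub_rev]
        exact h3
      · rw [norm_sub_rev]
        exact h4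
    have hto : ∀ s : ℝ, ∀ c : ℝ, (∀ k l, k ≠ l → c ≤ ‖Q s k - Q s l‖) → G s ≤ -c := by
      intro s c hs
      simp only [hG]
      have := le_min (hs 0 1 (by decide)) (le_min (hs 0 2 (by decide)) (hs 1 2 (by decide)))
      linarith
    have hexit := first_exit (a := 0) (b := T₁) (Z := -(1 / 40)) hGc
      (by
        have := hto 0 (1 / 30) hsep0
        linarith)
      (by
        intro t ht hpast
        rcases ht.1.lt_or_eq with h0 | h0
        · have h1 := key t ht h0 (fun s hs => hfrom s (1 / 40) (hpast s hs))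
          have := hto t (1 / 30) h1.1
          linarith
        · rw [← h0]
          have := hto 0 (1 / 30) hsep0
          linarith)
    intro t ht
    exact hfrom t (1 / 40) (hexit t ht).le
  intro t ht htg
  rcases ht.1.lt_or_eq with h0 | h0
  · exact key t ⟨ht.1, le_min ht.2 htg⟩ h0 (fun s hs => hall s ⟨hs.1, hs.2.trans (le_min ht.2 htg)⟩)
  · subst h0
    refine ⟨hsep0, ?_, ?_, ?_⟩
    · intro k
      rw [hQ0]
      exact gunS_le k
    · intro k
      rw [hV0]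
      norm_num
    · intro h1
      exact absurd h1 (by
        unfold gunT
        norm_num)

end Pool.Agent.NBody
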