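import Mathlib
import Pool.Agent.NBody.ThDefs

/-!
Heights of the gun: Gronwall for the third components, the centre of mass, and the heights for
a long time.
-/

set_option autoImplicit false
open scoped RealInnerProductSpace
open Set Finset Filter Topology

namespace Pool.Agent.NBody.Hts

/-- the component `i` of a derivative -/
theorem comp_deriv {g : ℝ → V3} {g' : V3} {s : Set ℝ} {t : ℝ} (h : HasDerivWithinAt g g' s t)
    (i : Fin 3) : HasDerivWithinAt (fun r => g r i) (g' i) s t := by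
  have h1 := (EuclideanSpace.proj (𝕜 := ℝ) i : V3 →L[ℝ] ℝ).hasFDerivAt.comp_hasDerivWithinAt t h
  exact h1

theorem abs_comp_le (x : V3) (i : Fin 3) : |x i| ≤ ‖x‖ := by
  have := PiLp.norm_apply_le x i
  simpa using this

theorem acc_comp {q : Fin 3 → V3} (μ : ℝ) (i : Fin 3) (c : Fin 3) :
    acc μ q i c = ∑ j, (μ / ‖q j - q i‖ ^ 3) * (q j c - q i c) := by
  unfold acc
  simp [Finset.sum_apply]

theorem acc_comp_le {q : Fin 3 → V3} {μ₀ M : ℝ} (hμ : 0 < μ₀)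
    (hsep : ∀ k l, k ≠ l → μ₀ ≤ ‖q k - q l‖) (c : Fin 3) (hM : ∀ k, |q k c| ≤ M) (i : Fin 3) :
    |acc 1 q i c| ≤ 6 / μ₀ ^ 3 * M := by
  have hM0 : 0 ≤ M := (abs_nonneg _).trans (hM 0)
  rw [acc_comp]
  have h1 : ∀ j, |(1 / ‖q j - q i‖ ^ 3) * (q j c - q i c)| ≤ 2 / μ₀ ^ 3 * M := by
    intro j
    by_cases hj : j = i
    · subst hj
      simp only [sub_self, mul_zero, abs_zero]
      positivity
    · have h2 := hsep j i hj
      have h3 : 1 / ‖q j - q i‖ ^ 3 ≤ 1 / μ₀ ^ 3 := by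
        apply one_div_le_one_div_of_le (by positivity)
        exact pow_le_pow_left₀ hμ.le h2 3
      have h4 : |q j c - q i c| ≤ 2 * M := by
        have := abs_sub (q j c) (q i c)
        have h5 := hM j
        have h6 := hM i
        linarith
      rw [abs_mul, abs_of_nonneg (by positivity : (0:ℝ) ≤ 1 / ‖q j - q i‖ ^ 3)]
      calc 1 / ‖q j - q i‖ ^ 3 * |q j c - q i c| ≤ 1 / μ₀ ^ 3 * (2 * M) :=
            mul_le_mul h3 h4 (abs_nonneg _) (by positivity)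
        _ = 2 / μ₀ ^ 3 * M := by ring
  calc |∑ j, (1 / ‖q j - q i‖ ^ 3) * (q j c - q i c)|
      ≤ ∑ j, |(1 / ‖q j - q i‖ ^ 3) * (q j c - q i c)| := Finset.abs_sum_le_sum_abs _ _
    _ ≤ ∑ _j : Fin 3, 2 / μ₀ ^ 3 * M := Finset.sum_le_sum fun j _ => h1 j
    _ = 6 / μ₀ ^ 3 * M := by
      rw [Finset.sum_const, Finset.card_univ, Fintype.card_fin, nsmul_eq_mul]
      push_cast
      ring

/-- a solution on `[0, T]` restricted to the right of a time -/
theorem deriv_right {E : Type*} [NormedAddCommGroup E] [NormedSpace ℝ E] {g : ℝ → E} {g' : E}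
    {T t : ℝ} (ht : t ∈ Ico 0 T) (h : HasDerivWithinAt g g' (Icc 0 T) t) :
    HasDerivWithinAt g g' (Ici t) t :=
  h.mono_of_mem_nhdsWithin (Icc_mem_nhdsGE_of_mem ht)

theorem heights_gronwall {T η μ₀ : ℝ} {f Q V : ℝ → Fin 3 → V3} (hs : IsSol 1 T f Q V)
    (hη : 0 ≤ η) (hf : ∀ t ∈ Icc (0 : ℝ) T, ∀ k, ‖f t k‖ ≤ η) (hμ : 0 < μ₀)
    (hsep : ∀ t ∈ Icc (0 : ℝ) T, ∀ k l, k ≠ l → μ₀ ≤ ‖Q t k - Q t l‖)
    (hQ : ∀ k, Q 0 k 2 = 0) (hV : ∀ k, V 0 k = 0) :
    ∀ t ∈ Icc (0 : ℝ) T, ∀ k, |Q t k 2| ≤ η * Real.exp ((1 + 6 / μ₀ ^ 3) * t) ∧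
      |V t k 2| ≤ η * Real.exp ((1 + 6 / μ₀ ^ 3) * t) := by
  set K : ℝ := 1 + 6 / μ₀ ^ 3 with hK
  have hK1 : 1 ≤ K := by
    have : 0 ≤ 6 / μ₀ ^ 3 := by positivity
    linarith
  let Z : ℝ → (Fin 3 → ℝ) × (Fin 3 → ℝ) := fun t => (fun k => Q t k 2, fun k => V t k 2)
  let Z' : ℝ → (Fin 3 → ℝ) × (Fin 3 → ℝ) := fun t =>
    (fun k => V t k 2, fun k => acc 1 (Q t) k 2 + f t k 2)
  have hZ : ∀ t ∈ Icc (0 : ℝ) T, HasDerivWithinAt Z (Z' t) (Icc 0 T) t := by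
    intro t ht
    have h1 : HasDerivWithinAt (fun t => (fun k => Q t k 2 : Fin 3 → ℝ)) (fun k => V t k 2)
        (Icc 0 T) t := by
      rw [hasDerivWithinAt_pi]
      intro k
      exact comp_deriv (hs.dq t ht k) 2
    have h2 : HasDerivWithinAt (fun t => (fun k => V t k 2 : Fin 3 → ℝ))
        (fun k => acc 1 (Q t) k 2 + f t k 2) (Icc 0 T) t := by
      rw [hasDerivWithinAt_pi]
      intro k
      exact comp_deriv (hs.dv t ht k) 2
    exact h1.prodMk h2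
  have hcont : ContinuousOn Z (Icc 0 T) := fun t ht => (hZ t ht).continuousWithinAt
  have hb : ∀ t ∈ Icc (0 : ℝ) T, ‖Z' t‖ ≤ K * ‖Z t‖ + η := by
    intro t ht
    have hz1 : ∀ k, |Q t k 2| ≤ ‖Z t‖ := fun k =>
      (norm_le_pi_norm (fun k => Q t k 2) k).trans (norm_fst_le (Z t))
    have hz2 : ∀ k, |V t k 2| ≤ ‖Z t‖ := fun k =>
      (norm_le_pi_norm (fun k => V t k 2) k).trans (norm_snd_le (Z t))
    have hnn : 0 ≤ ‖Z t‖ := norm_nonneg _
    have hpos : 0 ≤ K * ‖Z t‖ + η := by positivity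
    rw [Prod.norm_def]
    refine max_le ?_ ?_
    · rw [pi_norm_le_iff_of_nonneg hpos]
      intro k
      have h1 := hz2 k
      show |V t k 2| ≤ _
      nlinarith
    · rw [pi_norm_le_iff_of_nonneg hpos]
      intro k
      show |acc 1 (Q t) k 2 + f t k 2| ≤ _
      have h1 := acc_comp_le hμ (hsep t ht) 2 hz1 k
      have h2 : |f t k 2| ≤ η := (abs_comp_le _ _).trans (hf t ht k)
      have h3 := abs_add_le (acc 1 (Q t) k 2) (f t k 2)
      have h4 : 6 / μ₀ ^ 3 * ‖Z t‖ ≤ K * ‖Z t‖ :=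
        mul_le_mul_of_nonneg_right (by linarith) hnn
      linarith
  have h0 : ‖Z 0‖ ≤ 0 := by
    have h1 : Z 0 = 0 := by
      refine Prod.ext ?_ ?_
      · funext k
        exact hQ k
      · funext k
        show V 0 k 2 = 0
        rw [hV k]
        rfl
    rw [h1, norm_zero]
  have hG := norm_le_gronwallBound_of_norm_deriv_right_le hcont
    (fun t ht => deriv_right ht (hZ t (Ico_subset_Icc_self ht))) h0
    (fun t ht => hb t (Ico_subset_Icc_self ht))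
  intro t ht
  have h1 := hG t ht
  rw [sub_zero, gronwallBound_of_K_ne_0 (by linarith)] at h1
  simp only [zero_mul, zero_add] at h1
  have h2 : η / K * (Real.exp (K * t) - 1) ≤ η * Real.exp (K * t) := by
    have h3 : η / K ≤ η := div_le_self hη hK1
    have h4 : 0 ≤ Real.exp (K * t) - 1 := by
      have := Real.one_le_exp (by have := ht.1; positivity : 0 ≤ K * t)
      linarith
    calc η / K * (Real.exp (K * t) - 1) ≤ η * (Real.exp (K * t) - 1) :=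
          mul_le_mul_of_nonneg_right h3 h4
      _ ≤ η * Real.exp (K * t) := mul_le_mul_of_nonneg_left (by linarith) hη
  intro k
  exact ⟨((norm_le_pi_norm (fun k => Q t k 2) k).trans (norm_fst_le (Z t))).trans (h1.trans h2),
    ((norm_le_pi_norm (fun k => V t k 2) k).trans (norm_snd_le (Z t))).trans (h1.trans h2)⟩

/-- Newton's third law -/
theorem sum_acc {ι : Type*} [Fintype ι] (μ : ℝ) (q : ι → V3) : ∑ i, acc μ q i = 0 := by
  unfold acc
  have h1 : ∑ i, ∑ j, (μ / ‖q j - q i‖ ^ 3) • (q j - q i) =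
      -∑ i, ∑ j, (μ / ‖q j - q i‖ ^ 3) • (q j - q i) := by
    conv_lhs => rw [Finset.sum_comm]
    rw [← Finset.sum_neg_distrib]
    refine Finset.sum_congr rfl fun i _ => ?_
    rw [← Finset.sum_neg_distrib]
    refine Finset.sum_congr rfl fun j _ => ?_
    rw [norm_sub_rev, ← smul_neg, neg_sub]
  have h2 : (2 : ℝ) • ∑ i, ∑ j, (μ / ‖q j - q i‖ ^ 3) • (q j - q i) = 0 := by
    rw [two_smul]
    nth_rewrite 1 [h1]
    exact neg_add_cancel _
  exact (smul_eq_zero.mp h2).resolve_left two_ne_zero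

/-- the centre of mass of the gun -/
theorem centre {T η : ℝ} {f Q V : ℝ → Fin 3 → V3} (hs : IsSol 1 T f Q V)
    (hη : 0 ≤ η) (hf : ∀ t ∈ Icc (0 : ℝ) T, ∀ k, ‖f t k‖ ≤ η)
    (hQ : ∑ k, Q 0 k = 0) (hV : ∀ k, V 0 k = 0) :
    ∀ t ∈ Icc (0 : ℝ) T, ‖∑ k, V t k‖ ≤ 3 * (η * T) ∧ ‖∑ k, Q t k‖ ≤ 3 * (η * T) * t := by
  have hSV : ∀ t ∈ Icc (0 : ℝ) T,
      HasDerivWithinAt (fun t => ∑ k, V t k) (∑ k, f t k) (Icc 0 T) t := by
    intro t ht
    have h1 := HasDerivWithinAt.fun_sum (u := Finset.univ) fun k _ => hs.dv t ht k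
    rw [Finset.sum_add_distrib, sum_acc, zero_add] at h1
    exact h1
  have hS : ∀ t ∈ Icc (0 : ℝ) T,
      HasDerivWithinAt (fun t => ∑ k, Q t k) (∑ k, V t k) (Icc 0 T) t := by
    intro t ht
    exact HasDerivWithinAt.fun_sum (u := Finset.univ) fun k _ => hs.dq t ht k
  have hF : ∀ t ∈ Icc (0 : ℝ) T, ‖∑ k, f t k‖ ≤ 3 * η := by
    intro t ht
    calc ‖∑ k, f t k‖ ≤ ∑ k, ‖f t k‖ := norm_sum_le _ _
      _ ≤ ∑ _k : Fin 3, η := Finset.sum_le_sum fun k _ => hf t ht k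
      _ = 3 * η := by
        rw [Finset.sum_const, Finset.card_univ, Fintype.card_fin, nsmul_eq_mul]
        push_cast
        ring
  have hv : ∀ t ∈ Icc (0 : ℝ) T, ‖∑ k, V t k‖ ≤ 3 * (η * T) := by
    intro t ht
    have h1 := norm_image_sub_le_of_norm_deriv_le_segment' hSV
      (fun t ht => hF t (Ico_subset_Icc_self ht)) t ht
    have h2 : ∑ k, V 0 k = 0 := Finset.sum_eq_zero fun k _ => hV k
    rw [h2, sub_zero, sub_zero] at h1
    refine h1.trans ?_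
    have := mul_le_mul_of_nonneg_left ht.2 hη
    linarith
  intro t ht
  refine ⟨hv t ht, ?_⟩
  have h1 := norm_image_sub_le_of_norm_deriv_le_segment' hS
    (fun t ht => hv t (Ico_subset_Icc_self ht)) t ht
  rw [hQ, sub_zero, sub_zero] at h1
  exact h1

/-- one pull -/
theorem pull_le (x : V3) (c : Fin 3) {D : ℝ} (hD : 0 < D) (h : D ≤ ‖x‖) :
    |(1 / ‖x‖ ^ 3) * x c| ≤ 1 / D ^ 2 := by
  have hx : 0 < ‖x‖ := hD.trans_le h
  rw [abs_mul, abs_of_pos (by positivity : (0:ℝ) < 1 / ‖x‖ ^ 3)]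
  calc 1 / ‖x‖ ^ 3 * |x c| ≤ 1 / ‖x‖ ^ 3 * ‖x‖ :=
        mul_le_mul_of_nonneg_left (abs_comp_le x c) (by positivity)
    _ = 1 / ‖x‖ ^ 2 := by field_simp
    _ ≤ 1 / D ^ 2 := one_div_le_one_div_of_le (by positivity) (pow_le_pow_left₀ hD.le h 2)

/-- the relative acceleration of the body `0` -/
theorem rel_acc_comp (q : Fin 3 → V3) (c : Fin 3) :
    acc 1 q 0 c - (acc 1 q 1 c + acc 1 q 2 c) / 2 =
      3 / 2 * ((1 / ‖q 1 - q 0‖ ^ 3) * (q 1 - q 0) c + (1 / ‖q 2 - q 0‖ ^ 3) * (q 2 - q 0) c) := by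
  rw [acc_comp, acc_comp, acc_comp, Fin.sum_univ_three, Fin.sum_univ_three, Fin.sum_univ_three,
    norm_sub_rev (q 0) (q 1), norm_sub_rev (q 0) (q 2), norm_sub_rev (q 2) (q 1)]
  simp only [PiLp.sub_apply]
  ring

/-- Heights for a long time. -/
theorem heights {a μ₀ C₁ : ℝ} (ha : 0 ≤ a) (hμ : 0 < μ₀) (hC : 0 < C₁) (ε : ℝ) (hε : 0 < ε) :
    ∃ η₀ > 0, ∀ T η : ℝ, 0 ≤ η → η ≤ η₀ → η * T ≤ η₀ →
      ∀ f Q V : ℝ → Fin 3 → V3, IsSol 1 T f Q V → (∀ t ∈ Icc (0 : ℝ) T, ∀ k, ‖f t k‖ ≤ η) →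
      ∑ k, Q 0 k = 0 → (∀ k, Q 0 k 2 = 0) → (∀ k, V 0 k = 0) →
      (∀ t ∈ Icc (0 : ℝ) T, ∀ k l, k ≠ l → μ₀ ≤ ‖Q t k - Q t l‖) →
      (∀ t ∈ Icc (0 : ℝ) T, a < t → ‖Q t 1 - Q t 2‖ ≤ 1) →
      (∀ t ∈ Icc (0 : ℝ) T, a < t → ∀ k, k ≠ 0 → (1 + (t - a)) / C₁ ≤ ‖Q t 0 - Q t k‖) →
      ∀ t ∈ Icc (0 : ℝ) T, ∀ k, |Q t k 2| ≤ ε * (1 + t) := by
  set K : ℝ := 1 + 6 / μ₀ ^ 3 with hK
  have hK0 : 0 ≤ K := by positivity
  set t₁ : ℝ := a + 8 / ε + 24 * C₁ ^ 2 / ε with ht₁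
  have ht₁a : a < t₁ := by
    have h1 : 0 < 8 / ε := by positivity
    have h2 : 0 ≤ 24 * C₁ ^ 2 / ε := by positivity
    linarith
  have ht₁0 : 0 ≤ t₁ := ha.trans ht₁a.le
  have ht₁ε : 8 ≤ ε * t₁ := by
    have h2 : 0 ≤ 24 * C₁ ^ 2 / ε := by positivity
    have h3 : 8 / ε ≤ t₁ := by linarith
    calc (8 : ℝ) = ε * (8 / ε) := by field_simp
      _ ≤ ε * t₁ := mul_le_mul_of_nonneg_left h3 hε.le
  have ht₁C : 3 * C₁ ^ 2 / (1 + (t₁ - a)) ≤ ε / 8 := by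
    have h2 : 0 ≤ 8 / ε := by positivity
    have h3 : 24 * C₁ ^ 2 / ε ≤ 1 + (t₁ - a) := by linarith
    have h4 : 0 < 1 + (t₁ - a) := by linarith
    rw [div_le_iff₀ h4]
    calc 3 * C₁ ^ 2 = ε / 8 * (24 * C₁ ^ 2 / ε) := by field_simp; ring
      _ ≤ ε / 8 * (1 + (t₁ - a)) := mul_le_mul_of_nonneg_left h3 (by positivity)
  refine ⟨ε / 16 * Real.exp (-(K * t₁)), by positivity, ?_⟩
  intro T η hη hη1 hηT f Q V hs hf hS0 hQ0 hV0 hsep hx hD t ht k
  have hexp : Real.exp (-(K * t₁)) ≤ 1 := by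
    rw [Real.exp_le_one_iff]
    have := mul_nonneg hK0 ht₁0
    linarith
  have hηTε : η * T ≤ ε / 16 := by
    refine hηT.trans ?_
    calc ε / 16 * Real.exp (-(K * t₁)) ≤ ε / 16 * 1 :=
          mul_le_mul_of_nonneg_left hexp (by positivity)
      _ = ε / 16 := mul_one _
  have hG := heights_gronwall hs hη hf hμ hsep hQ0 hV0
  have hsmall : ∀ s ∈ Icc (0 : ℝ) T, s ≤ t₁ → ∀ k, |Q s k 2| ≤ ε / 16 ∧ |V s k 2| ≤ ε / 16 := by
    intro s hs' hst k
    have h1 := hG s hs' k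
    have h2 : η * Real.exp (K * s) ≤ ε / 16 := by
      calc η * Real.exp (K * s) ≤ (ε / 16 * Real.exp (-(K * t₁))) * Real.exp (K * t₁) := by
            apply mul_le_mul hη1 _ (Real.exp_pos _).le (by positivity)
            rw [Real.exp_le_exp]
            exact mul_le_mul_of_nonneg_left hst hK0
        _ = ε / 16 := by
          rw [mul_assoc, ← Real.exp_add, neg_add_cancel, Real.exp_zero, mul_one]
    exact ⟨h1.1.trans h2, h1.2.trans h2⟩
  have ht0 : 0 ≤ t := ht.1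
  rcases le_or_gt t t₁ with hle | hgt
  · have h1 := (hsmall t ht hle k).1
    have h2 : ε / 16 ≤ ε * (1 + t) := by nlinarith
    exact h1.trans h2
  -- late times
  have ht1T : t₁ ∈ Icc (0 : ℝ) T := ⟨ht₁0, hgt.le.trans ht.2⟩
  set y : ℝ → ℝ := fun s => Q s 0 2 - (Q s 1 2 + Q s 2 2) / 2 with hy
  set u : ℝ → ℝ := fun s => V s 0 2 - (V s 1 2 + V s 2 2) / 2 with hu
  have hsub : Icc t₁ T ⊆ Icc (0 : ℝ) T := Icc_subset_Icc_left ht₁0
  have hyd : ∀ s ∈ Icc t₁ T, HasDerivWithinAt y (u s) (Icc t₁ T) s := by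
    intro s hs'
    have h0 := (comp_deriv (hs.dq s (hsub hs') 0) 2).mono hsub
    have h1 := (comp_deriv (hs.dq s (hsub hs') 1) 2).mono hsub
    have h2 := (comp_deriv (hs.dq s (hsub hs') 2) 2).mono hsub
    exact h0.sub ((h1.add h2).div_const 2)
  set w : ℝ → ℝ := fun s => (acc 1 (Q s) 0 + f s 0) 2 -
    ((acc 1 (Q s) 1 + f s 1) 2 + (acc 1 (Q s) 2 + f s 2) 2) / 2 with hw
  have hud : ∀ s ∈ Icc t₁ T, HasDerivWithinAt u (w s) (Icc t₁ T) s := by
    intro s hs'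
    have h0 := (comp_deriv (hs.dv s (hsub hs') 0) 2).mono hsub
    have h1 := (comp_deriv (hs.dv s (hsub hs') 1) 2).mono hsub
    have h2 := (comp_deriv (hs.dv s (hsub hs') 2) 2).mono hsub
    exact h0.sub ((h1.add h2).div_const 2)
  have hwb : ∀ s ∈ Icc t₁ T, |w s| ≤ 3 * C₁ ^ 2 / (1 + (s - a)) ^ 2 + 2 * η := by
    intro s hs'
    have hsa : 0 < 1 + (s - a) := by have := hs'.1; linarith
    have hDp : 0 < (1 + (s - a)) / C₁ := by positivity
    have hsT : a < s := ht₁a.trans_le hs'.1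
    have hd : ∀ k : Fin 3, k ≠ 0 →
        |(1 / ‖Q s k - Q s 0‖ ^ 3) * (Q s k - Q s 0) 2| ≤ C₁ ^ 2 / (1 + (s - a)) ^ 2 := by
      intro k hk
      have h1 := pull_le (Q s k - Q s 0) 2 hDp (by
        rw [norm_sub_rev]
        exact hD s (hsub hs') hsT k hk)
      refine h1.trans (le_of_eq ?_)
      rw [div_pow, one_div_div]
    have h1 := hd 1 (by decide)
    have h2 := hd 2 (by decide)
    have h3 : ∀ k, |f s k 2| ≤ η := fun k => (abs_comp_le _ _).trans (hf s (hsub hs') k)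
    have h4 : w s = 3 / 2 * ((1 / ‖Q s 1 - Q s 0‖ ^ 3) * (Q s 1 - Q s 0) 2 +
        (1 / ‖Q s 2 - Q s 0‖ ^ 3) * (Q s 2 - Q s 0) 2) +
        (f s 0 2 - (f s 1 2 + f s 2 2) / 2) := by
      rw [← rel_acc_comp]
      simp only [hw, PiLp.add_apply]
      ring
    rw [h4]
    have h5 := abs_le.mp h1
    have h6 := abs_le.mp h2
    have h7 := abs_le.mp (h3 0)
    have h8 := abs_le.mp (h3 1)
    have h9 := abs_le.mp (h3 2)
    have h10 : 3 * C₁ ^ 2 / (1 + (s - a)) ^ 2 = 3 * (C₁ ^ 2 / (1 + (s - a)) ^ 2) := by ring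
    rw [h10, abs_le]
    constructor
    · linarith [h5.1, h6.1, h7.1, h8.2, h9.2]
    · linarith [h5.2, h6.2, h7.2, h8.1, h9.1]
  have hu1 : |u t₁| ≤ ε / 8 := by
    have h0 := abs_le.mp (hsmall t₁ ht1T le_rfl 0).2
    have h1 := abs_le.mp (hsmall t₁ ht1T le_rfl 1).2
    have h2 := abs_le.mp (hsmall t₁ ht1T le_rfl 2).2
    simp only [hu]
    rw [abs_le]
    constructor
    · linarith [h0.1, h1.2, h2.2]
    · linarith [h0.2, h1.1, h2.1]
  have hy1 : |y t₁| ≤ ε / 8 := by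
    have h0 := abs_le.mp (hsmall t₁ ht1T le_rfl 0).1
    have h1 := abs_le.mp (hsmall t₁ ht1T le_rfl 1).1
    have h2 := abs_le.mp (hsmall t₁ ht1T le_rfl 2).1
    simp only [hy]
    rw [abs_le]
    constructor
    · linarith [h0.1, h1.2, h2.2]
    · linarith [h0.2, h1.1, h2.1]
  have hub : ∀ s ∈ Icc t₁ T, |u s| ≤ 3 * ε / 8 := by
    intro s hs'
    have hB : ∀ r ∈ Ico t₁ T, HasDerivWithinAt
        (fun r => -(3 * C₁ ^ 2 / (1 + (r - a))) + 2 * η * (r - t₁) +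
          3 * C₁ ^ 2 / (1 + (t₁ - a)))
        (3 * C₁ ^ 2 / (1 + (r - a)) ^ 2 + 2 * η) (Ici r) r := by
      intro r hr
      have hra : 1 + (r - a) ≠ 0 := by have := hr.1; linarith
      have h1 : HasDerivAt (fun r : ℝ => 1 + (r - a)) 1 r := by
        simpa using ((hasDerivAt_id r).sub_const a).const_add 1
      have h2 : HasDerivAt (fun r : ℝ => 3 * C₁ ^ 2 / (1 + (r - a)))
          (-(3 * C₁ ^ 2 / (1 + (r - a)) ^ 2)) r := by
        have h3 := (hasDerivAt_const r (3 * C₁ ^ 2)).div h1 hra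
        have h4 : (0 * (1 + (r - a)) - 3 * C₁ ^ 2 * 1) / (1 + (r - a)) ^ 2 =
            -(3 * C₁ ^ 2 / (1 + (r - a)) ^ 2) := by
          ring
        rw [h4] at h3
        exact h3
      have h4 : HasDerivAt (fun r : ℝ => 2 * η * (r - t₁)) (2 * η) r := by
        simpa using ((hasDerivAt_id r).sub_const t₁).const_mul (2 * η)
      have h5 := ((h2.neg.add h4).add_const (3 * C₁ ^ 2 / (1 + (t₁ - a)))).hasDerivWithinAt
        (s := Ici r)
      rw [neg_neg] at h5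
      exact h5
    have hBc : ContinuousOn (fun r => -(3 * C₁ ^ 2 / (1 + (r - a))) + 2 * η * (r - t₁) +
          3 * C₁ ^ 2 / (1 + (t₁ - a))) (Icc t₁ T) := by
      refine ContinuousOn.add (ContinuousOn.add (ContinuousOn.neg ?_) ?_) continuousOn_const
      · refine continuousOn_const.div (by fun_prop) ?_
        intro r hr
        have := hr.1
        have : 0 < 1 + (r - a) := by linarith
        exact this.ne'
      · fun_prop
    have hF := image_norm_le_of_norm_deriv_right_le_deriv_boundary'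
      (f := fun r => u r - u t₁) (f' := w) (a := t₁) (b := T)
      (B := fun r => -(3 * C₁ ^ 2 / (1 + (r - a))) + 2 * η * (r - t₁) +
          3 * C₁ ^ 2 / (1 + (t₁ - a)))
      (B' := fun r => 3 * C₁ ^ 2 / (1 + (r - a)) ^ 2 + 2 * η)
      (fun r hr => ((hud r hr).sub_const (u t₁)).continuousWithinAt)
      (fun r hr => ((hud r (Ico_subset_Icc_self hr)).sub_const (u t₁)).mono_of_mem_nhdsWithin
        (Icc_mem_nhdsGE_of_mem hr))
      (by simp) hBc hB (fun r hr => hwb r (Ico_subset_Icc_self hr)) hs'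
    simp only [Real.norm_eq_abs] at hF
    have h1 : 0 ≤ 3 * C₁ ^ 2 / (1 + (s - a)) := by
      have : 0 < 1 + (s - a) := by have := hs'.1; linarith
      positivity
    have h2 : 2 * η * (s - t₁) ≤ ε / 8 := by
      have h3 : η * (s - t₁) ≤ η * T := mul_le_mul_of_nonneg_left (by linarith [hs'.2]) hη
      linarith
    have h4 := abs_le.mp hF
    have h5 := abs_le.mp hu1
    rw [abs_le]
    constructor
    · linarith [h4.1, h5.1]
    · linarith [h4.2, h5.2]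
  have hyb : |y t| ≤ ε / 8 + 3 * ε / 8 * (t - t₁) := by
    have h1 := norm_image_sub_le_of_norm_deriv_le_segment' hyd
      (fun s hs' => by rw [Real.norm_eq_abs]; exact hub s (Ico_subset_Icc_self hs')) t
      ⟨hgt.le, ht.2⟩
    rw [Real.norm_eq_abs] at h1
    have h2 := abs_le.mp h1
    have h3 := abs_le.mp hy1
    rw [abs_le]
    constructor
    · linarith [h2.1, h3.1]
    · linarith [h2.2, h3.2]
  have hSb : |Q t 0 2 + Q t 1 2 + Q t 2 2| ≤ 3 * (ε / 16) * t := by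
    have h1 := (centre hs hη hf hS0 hV0 t ht).2
    have h2 := abs_comp_le (∑ k, Q t k) 2
    have h3 : (∑ k, Q t k) 2 = Q t 0 2 + Q t 1 2 + Q t 2 2 := by
      rw [Fin.sum_univ_three]
      rfl
    rw [h3] at h2
    refine h2.trans (h1.trans ?_)
    exact mul_le_mul_of_nonneg_right (by linarith) ht0
  have hxb : |Q t 1 2 - Q t 2 2| ≤ ε / 8 * t := by
    have h1 := abs_comp_le (Q t 1 - Q t 2) 2
    have h2 : (Q t 1 - Q t 2) 2 = Q t 1 2 - Q t 2 2 := rfl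
    rw [h2] at h1
    have h3 := hx t ht (ht₁a.trans hgt)
    have h4 : 8 ≤ ε * t := ht₁ε.trans (mul_le_mul_of_nonneg_left hgt.le hε.le)
    linarith
  have hyy : y t = Q t 0 2 - (Q t 1 2 + Q t 2 2) / 2 := rfl
  rw [hyy] at hyb
  have h1 := abs_le.mp hyb
  have h2 := abs_le.mp hSb
  have h3 := abs_le.mp hxb
  have hεt : 0 ≤ ε * t := by positivity
  have hεt1 : 0 ≤ ε * t₁ := by positivity
  have h4 : ε / 8 + 3 * ε / 8 * (t - t₁) = ε / 8 + 3 / 8 * (ε * t) - 3 / 8 * (ε * t₁) := by ring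
  have h5 : 3 * (ε / 16) * t = 3 / 16 * (ε * t) := by ring
  have h6 : ε / 8 * t = 1 / 8 * (ε * t) := by ring
  have h7 : ε * (1 + t) = ε + ε * t := by ring
  rw [h4] at h1
  rw [h5] at h2
  rw [h6] at h3
  rw [h7]
  fin_cases k
  · rw [abs_le]
    constructor
    · show -(ε + ε * t) ≤ Q t 0 2
      linarith [h1.1, h1.2, h2.1, h2.2, h3.1, h3.2]
    · show Q t 0 2 ≤ ε + ε * t
      linarith [h1.1, h1.2, h2.1, h2.2, h3.1, h3.2]
  · rw [abs_le]
    constructor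
    · show -(ε + ε * t) ≤ Q t 1 2
      linarith [h1.1, h1.2, h2.1, h2.2, h3.1, h3.2]
    · show Q t 1 2 ≤ ε + ε * t
      linarith [h1.1, h1.2, h2.1, h2.2, h3.1, h3.2]
  · rw [abs_le]
    constructor
    · show -(ε + ε * t) ≤ Q t 2 2
      linarith [h1.1, h1.2, h2.1, h2.2, h3.1, h3.2]
    · show Q t 2 2 ≤ ε + ε * t
      linarith [h1.1, h1.2, h2.1, h2.2, h3.1, h3.2]

end Pool.Agent.NBody.Hts
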