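import Mathlib
import Pool.Agent.NBody.ThGunDefs
import Pool.Agent.NBody.ThHeights

/-!
The property of the gun from the enclosure of its beginning and from the flight.
-/

set_option autoImplicit false
open scoped RealInnerProductSpace
open Set Finset Filter Topology

namespace Pool.Agent.NBody

theorem IsSol.shift {ι : Type*} [Fintype ι] {μ T a : ℝ} {f q v : ℝ → ι → V3}
    (h : IsSol μ T f q v) (ha : 0 ≤ a) :
    IsSol μ (T - a) (fun t => f (t + a)) (fun t => q (t + a)) (fun t => v (t + a)) := by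
  have hmaps : MapsTo (fun s : ℝ => s + a) (Icc 0 (T - a)) (Icc 0 T) := by
    intro s hs
    exact ⟨by have := hs.1; show 0 ≤ s + a; linarith, by
      have := hs.2; show s + a ≤ T; linarith⟩
  have hd : ∀ t, HasDerivWithinAt (fun s : ℝ => s + a) 1 (Icc 0 (T - a)) t := fun t =>
    ((hasDerivAt_id t).add_const a).hasDerivWithinAt
  refine ⟨?_, ?_, ?_⟩
  · intro t ht i
    have h1 := (h.dq (t + a) (hmaps ht) i).scomp t (hd t) hmaps
    rw [one_smul] at h1
    exact h1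
  · intro t ht i
    have h1 := (h.dv (t + a) (hmaps ht) i).scomp t (hd t) hmaps
    rw [one_smul] at h1
    exact h1
  · intro t ht i j hij
    exact h.nc (t + a) (hmaps ht) i j hij

theorem norm_sq_three (x : V3) : ‖x‖ ^ 2 = x 0 ^ 2 + x 1 ^ 2 + x 2 ^ 2 := by
  rw [EuclideanSpace.norm_sq_eq, Fin.sum_univ_three]
  simp only [Real.norm_eq_abs, sq_abs]

theorem gunShape {e : V3} (he : ‖e‖ = 1) (he2 : e 2 = 0) : GunShape gunS e where
  sum := by
    rw [Fin.sum_univ_three]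
    ext i
    fin_cases i <;> simp [gunS] <;> norm_num
  flat := by
    intro k
    fin_cases k <;> simp [gunS]
  ne := by
    intro k l hkl h
    have h0 := congrArg (fun x : V3 => x 0) h
    fin_cases k <;> fin_cases l <;> simp [gunS] at h0 hkl
    all_goals norm_num at h0
  le := by
    intro k
    have h1 : ‖gunS k‖ ^ 2 ≤ 1 := by
      rw [norm_sq_three]
      fin_cases k <;> simp [gunS] <;> norm_num
    nlinarith [norm_nonneg (gunS k)]
  norm := he
  eflat := he2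

theorem gun_of (h : GunEnc) {e : V3} {μ₁ C₁ : ℝ} (hμ : 0 < μ₁) (hC : 0 < C₁) (he : ‖e‖ = 1)
    (he2 : e 2 = 0) (h2 : GunFlight e μ₁ C₁) :
    ∃ (s : Fin 3 → V3) (e : V3) (μ₀ C₀ : ℝ), 0 < μ₀ ∧ 0 < C₀ ∧ GunShape s e ∧
      GunProp s e μ₀ C₀ := by
  obtain ⟨η₁, hη₁, h⟩ := h
  obtain ⟨η₂, hη₂, h2⟩ := h2
  have hT0 : (0:ℝ) ≤ gunT := by unfold gunT; norm_num
  have hT1 : gunT ≤ 1 := by unfold gunT; norm_num
  refine ⟨gunS, e, min (1 / 30) μ₁, C₁ + 20, lt_min (by norm_num) hμ, by linarith,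
    gunShape he he2, ?_⟩
  intro ε hε
  obtain ⟨η₃, hη₃, h3⟩ := Hts.heights hT0 (lt_min (by norm_num : (0:ℝ) < 1 / 30) hμ) hC ε hε
  refine ⟨min η₁ (min η₂ η₃), lt_min hη₁ (lt_min hη₂ hη₃), ?_⟩
  intro T hT η hη hη0 hηT f Q V hs hf hQ hV
  have hηa : η ≤ η₁ := hη0.trans (min_le_left _ _)
  have hηb : η ≤ η₂ := hη0.trans ((min_le_right _ _).trans (min_le_left _ _))
  have hηc : η ≤ η₃ := hη0.trans ((min_le_right _ _).trans (min_le_right _ _))
  have hTb : η * T ≤ η₂ := hηT.trans ((min_le_right _ _).trans (min_le_left _ _))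
  have hTc : η * T ≤ η₃ := hηT.trans ((min_le_right _ _).trans (min_le_right _ _))
  have hE := h T η hT hη hηa f Q V hs hf hQ hV
  have hF : ∀ t ∈ Icc (0 : ℝ) T, gunT < t →
      (∀ k l, k ≠ l → μ₁ ≤ ‖Q t k - Q t l‖) ∧ (∀ k, ‖V t k‖ ≤ C₁) ∧
      ‖Q t 1 - Q t 2‖ ≤ 1 ∧ (∀ k, k ≠ 0 → (1 + (t - gunT)) / C₁ ≤ ‖Q t 0 - Q t k‖) ∧
      (3 / 5) * (t - gunT) ≤ ⟪Q t 0, e⟫ ∧ 3 / 5 ≤ ⟪V t 0, e⟫ ∧
      (∀ k, k ≠ 0 → ⟪Q t k, e⟫ ≤ C₁) := by
    intro t ht htg
    have hTg : 0 < T - gunT := by linarith [ht.2]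
    have hgT : gunT ∈ Icc (0 : ℝ) T := ⟨hT0, by linarith⟩
    have hb := (hE gunT hgT le_rfl).2.2.2 rfl
    have h1 := h2 (T - gunT) η hTg hη hηb
      ((mul_le_mul_of_nonneg_left (by linarith) hη).trans hTb) _ _ _ (hs.shift hT0)
      (fun s hs' k => hf (s + gunT) ⟨by linarith [hs'.1], by linarith [hs'.2]⟩ k)
      (fun k => by simpa using (hb k).1) (fun k => by simpa using (hb k).2) (t - gunT)
      ⟨by linarith, by linarith [ht.2]⟩
    simpa using h1
  have hsep : ∀ t ∈ Icc (0 : ℝ) T, ∀ k l, k ≠ l → min (1 / 30) μ₁ ≤ ‖Q t k - Q t l‖ := by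
    intro t ht k l hkl
    rcases le_or_gt t gunT with hle | hgt
    · exact (min_le_left _ _).trans ((hE t ht hle).1 k l hkl)
    · exact (min_le_right _ _).trans ((hF t ht hgt).1 k l hkl)
  have hS0 : ∑ k, Q 0 k = 0 := by
    rw [← (gunShape he he2).sum]
    exact Finset.sum_congr rfl fun k _ => hQ k
  have hQ2 : ∀ k, Q 0 k 2 = 0 := fun k => by
    rw [hQ k]
    exact (gunShape he he2).flat k
  have hH := h3 T η hη hηc hTc f Q V hs hf hS0 hQ2 hV hsep
    (fun t ht htg => (hF t ht htg).2.2.1) (fun t ht htg => (hF t ht htg).2.2.2.1)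
  have hVb : ∀ t ∈ Icc (0 : ℝ) T, ∀ k, ‖V t k‖ ≤ C₁ + 20 := by
    intro t ht k
    rcases le_or_gt t gunT with hle | hgt
    · exact ((hE t ht hle).2.2.1 k).trans (by linarith)
    · exact ((hF t ht hgt).2.1 k).trans (by linarith)
  intro t ht
  have ht0 : 0 ≤ t := ht.1
  have hQb : ∀ k, ‖Q t k‖ ≤ (C₁ + 20) * (1 + t) := by
    intro k
    have h1 := norm_image_sub_le_of_norm_deriv_le_segment' (fun s hs' => hs.dq s hs' k)
      (fun s hs' => hVb s (Ico_subset_Icc_self hs') k) t ht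
    have h4 : ‖Q 0 k‖ ≤ 1 := by
      rw [hQ k]
      exact (gunShape he he2).le k
    have h5 : ‖Q t k‖ ≤ ‖Q t k - Q 0 k‖ + ‖Q 0 k‖ := by
      simpa using norm_add_le (Q t k - Q 0 k) (Q 0 k)
    have h6 : (C₁ + 20) * (1 + t) = (C₁ + 20) * (t - 0) + (C₁ + 20) := by ring
    rw [h6]
    linarith
  refine ⟨fun k l hkl => hsep t ht k l hkl, fun k => hH t ht k, hQb, fun k => hVb t ht k, ?_⟩
  have hin : ∀ x : V3, |⟪x, e⟫| ≤ ‖x‖ := fun x => by
    have := abs_real_inner_le_norm x e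
    rwa [he, mul_one] at this
  rcases le_or_gt t gunT with hle | hgt
  · have h1 := hE t ht hle
    refine ⟨?_, fun h4 => ?_, fun k _ => ?_⟩
    · have h5 := (abs_le.mp ((hin _).trans (h1.2.1 0))).1
      linarith
    · linarith
    · have h5 := (abs_le.mp ((hin _).trans (h1.2.1 k))).2
      linarith
  · have h1 := hF t ht hgt
    refine ⟨?_, fun _ => by linarith [h1.2.2.2.2.2.1], fun k hk => by
      linarith [h1.2.2.2.2.2.2 k hk]⟩
    have h5 := h1.2.2.2.2.1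
    linarith

end Pool.Agent.NBody
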