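import Mathlib
import Pool.Agent.NBody.ThGun
import Pool.Agent.NBody.ThStep

/-!
Linear heights of the gun: the heights are at most a constant times `η T (1 + t)`.
-/

set_option autoImplicit false
open scoped RealInnerProductSpace
open Set Finset Filter Topology

namespace Pool.Agent.NBody.Lin

theorem inv_cube_lip {A B D : ℝ} (hD : 0 < D) (hA : D ≤ A) (hB : D ≤ B) :
    |1 / B ^ 3 - 1 / A ^ 3| ≤ 3 * |A - B| / D ^ 4 := by
  have hA0 : 0 < A := hD.trans_le hA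
  have hB0 : 0 < B := hD.trans_le hB
  have h1 : 1 / B ^ 3 - 1 / A ^ 3 =
      (A - B) * (1 / (A * B ^ 3) + 1 / (A ^ 2 * B ^ 2) + 1 / (A ^ 3 * B)) := by
    field_simp
    ring
  have h2 : 1 / (A * B ^ 3) ≤ 1 / D ^ 4 := by
    apply one_div_le_one_div_of_le (by positivity)
    calc D ^ 4 = D * D ^ 3 := by ring
      _ ≤ A * B ^ 3 := mul_le_mul hA (pow_le_pow_left₀ hD.le hB 3) (by positivity) hA0.le
  have h3 : 1 / (A ^ 2 * B ^ 2) ≤ 1 / D ^ 4 := by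
    apply one_div_le_one_div_of_le (by positivity)
    calc D ^ 4 = D ^ 2 * D ^ 2 := by ring
      _ ≤ A ^ 2 * B ^ 2 := mul_le_mul (pow_le_pow_left₀ hD.le hA 2)
          (pow_le_pow_left₀ hD.le hB 2) (by positivity) (by positivity)
  have h4 : 1 / (A ^ 3 * B) ≤ 1 / D ^ 4 := by
    apply one_div_le_one_div_of_le (by positivity)
    calc D ^ 4 = D ^ 3 * D := by ring
      _ ≤ A ^ 3 * B := mul_le_mul (pow_le_pow_left₀ hD.le hA 3) hB hD.le (by positivity)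
  rw [h1, abs_mul, abs_of_pos (by positivity :
    (0:ℝ) < 1 / (A * B ^ 3) + 1 / (A ^ 2 * B ^ 2) + 1 / (A ^ 3 * B))]
  calc |A - B| * (1 / (A * B ^ 3) + 1 / (A ^ 2 * B ^ 2) + 1 / (A ^ 3 * B))
      ≤ |A - B| * (3 * (1 / D ^ 4)) :=
        mul_le_mul_of_nonneg_left (by linarith) (abs_nonneg _)
    _ = 3 * |A - B| / D ^ 4 := by ring

/-- the squared length of the cross product -/
theorem lagrange (x w : V3) : ‖x‖ ^ 2 * ‖w‖ ^ 2 - ⟪x, w⟫ ^ 2 =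
    (x 0 * w 1 - x 1 * w 0) ^ 2 + (x 0 * w 2 - x 2 * w 0) ^ 2 + (x 1 * w 2 - x 2 * w 1) ^ 2 := by
  rw [norm_sq_three, norm_sq_three, PiLp.inner_apply, Fin.sum_univ_three]
  simp only [RCLike.inner_apply, conj_trivial]
  ring

/-- the height of the pair from the horizontal parts of its angular momentum -/
theorem height_pair {x w : V3} {A : ℝ} (hA : 0 ≤ A) (hA1 : A ≤ 1 / 15) (hx : ‖x‖ ≤ 1 / 4)
    (hL : 1 / 20 ≤ ‖x‖ ^ 2 * ‖w‖ ^ 2 - ⟪x, w⟫ ^ 2) (hp : |x 0 * w 2 - x 2 * w 0| ≤ A)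
    (hq : |x 1 * w 2 - x 2 * w 1| ≤ A) : |x 2| ≤ 5 / 2 * A := by
  rw [lagrange] at hL
  have h1 : (x 0 * w 2 - x 2 * w 0) ^ 2 ≤ A ^ 2 := by
    rw [← sq_abs]
    exact pow_le_pow_left₀ (abs_nonneg _) hp 2
  have h2 : (x 1 * w 2 - x 2 * w 1) ^ 2 ≤ A ^ 2 := by
    rw [← sq_abs]
    exact pow_le_pow_left₀ (abs_nonneg _) hq 2
  have h3 : A ^ 2 ≤ 1 / 225 := by nlinarith
  have h4 : (1 / 5 : ℝ) ^ 2 ≤ |x 0 * w 1 - x 1 * w 0| ^ 2 := by
    rw [sq_abs]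
    nlinarith
  have h5 : 1 / 5 ≤ |x 0 * w 1 - x 1 * w 0| := by
    by_contra hcon
    push Not at hcon
    have := pow_lt_pow_left₀ hcon (abs_nonneg _) (two_ne_zero)
    linarith
  have h6 : x 2 * (x 0 * w 1 - x 1 * w 0) =
      x 1 * (x 0 * w 2 - x 2 * w 0) - x 0 * (x 1 * w 2 - x 2 * w 1) := by ring
  have h7 : |x 2| * |x 0 * w 1 - x 1 * w 0| ≤ 1 / 4 * A + 1 / 4 * A := by
    rw [← abs_mul, h6]
    have h8 := abs_sub (x 1 * (x 0 * w 2 - x 2 * w 0)) (x 0 * (x 1 * w 2 - x 2 * w 1))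
    rw [abs_mul, abs_mul] at h8
    have h9 : |x 1| ≤ 1 / 4 := (Hts.abs_comp_le x 1).trans hx
    have h10 : |x 0| ≤ 1 / 4 := (Hts.abs_comp_le x 0).trans hx
    have h11 := mul_le_mul h9 hp (abs_nonneg _) (by norm_num)
    have h12 := mul_le_mul h10 hq (abs_nonneg _) (by norm_num)
    linarith
  have h13 : |x 2| * (1 / 5) ≤ |x 2| * |x 0 * w 1 - x 1 * w 0| :=
    mul_le_mul_of_nonneg_left h5 (abs_nonneg _)
  linarith

/-- the time derivative of the velocity of the pair -/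
theorem pair_acc_comp (q f : Fin 3 → V3) (c : Fin 3) :
    (acc 1 q 2 + f 2) c - (acc 1 q 1 + f 1) c =
      (1 / ‖q 0 - q 2‖ ^ 3 - 1 / ‖q 0 - q 1‖ ^ 3) * (q 0 c - (q 1 c + q 2 c) / 2) -
      ((1 / ‖q 0 - q 2‖ ^ 3 + 1 / ‖q 0 - q 1‖ ^ 3) / 2 + 2 * (1 / ‖q 1 - q 2‖ ^ 3)) *
        (q 2 c - q 1 c) + (f 2 c - f 1 c) := by
  simp only [PiLp.add_apply]
  rw [Hts.acc_comp, Hts.acc_comp, Fin.sum_univ_three, Fin.sum_univ_three,
    norm_sub_rev (q 2) (q 1)]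
  ring

theorem pair_torque {q f : Fin 3 → V3} {A s η : ℝ} (hs : 0 ≤ s)
    (hη : 0 ≤ η) (hf : ∀ k, ‖f k‖ ≤ η) (hA : 0 ≤ A)
    (hx : ‖q 2 - q 1‖ ≤ 1 / 4) (hy : ‖q 0 - (1 / 2 : ℝ) • (q 1 + q 2)‖ ≤ 8 * (1 + s))
    (h1 : 3 / 5 * (1 + s) ≤ ‖q 0 - q 1‖) (h2 : 3 / 5 * (1 + s) ≤ ‖q 0 - q 2‖)
    (hx2 : |(q 2 - q 1) 2| ≤ 5 / 2 * A) (hy2 : |q 0 2 - (q 1 2 + q 2 2) / 2| ≤ A * (1 + s))
    (i : Fin 3) :
    |(q 2 - q 1) i * ((acc 1 q 2 + f 2) 2 - (acc 1 q 1 + f 1) 2) -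
      (q 2 - q 1) 2 * ((acc 1 q 2 + f 2) i - (acc 1 q 1 + f 1) i)| ≤
      122 * A / (1 + s) ^ 2 + 2 * η := by
  have hs1 : 0 < 1 + s := by linarith
  have hD : 0 < 3 / 5 * (1 + s) := by positivity
  set δ : ℝ := 1 / ‖q 0 - q 2‖ ^ 3 - 1 / ‖q 0 - q 1‖ ^ 3 with hδ
  have hδb : |δ| ≤ 6 / (1 + s) ^ 4 := by
    have h3 := inv_cube_lip hD h1 h2
    have h4 : |‖q 0 - q 1‖ - ‖q 0 - q 2‖| ≤ 1 / 4 := by
      have h5 := abs_norm_sub_norm_le (q 0 - q 1) (q 0 - q 2)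
      have h6 : q 0 - q 1 - (q 0 - q 2) = q 2 - q 1 := by abel
      rw [h6] at h5
      exact h5.trans hx
    refine h3.trans ?_
    rw [div_le_div_iff₀ (by positivity) (by positivity)]
    have h7 : 0 < (1 + s) ^ 4 := by positivity
    have h8 : (3 / 5 * (1 + s)) ^ 4 = 81 / 625 * (1 + s) ^ 4 := by ring
    rw [h8]
    nlinarith
  have hyi : ∀ c, |q 0 c - (q 1 c + q 2 c) / 2| ≤ 8 * (1 + s) := by
    intro c
    have h3 := (Hts.abs_comp_le (q 0 - (1 / 2 : ℝ) • (q 1 + q 2)) c).trans hy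
    have h4 : (q 0 - (1 / 2 : ℝ) • (q 1 + q 2)) c = q 0 c - (q 1 c + q 2 c) / 2 := by
      simp only [PiLp.sub_apply, PiLp.smul_apply, PiLp.add_apply, smul_eq_mul]
      ring
    rwa [h4] at h3
  have hxi : ∀ c, |(q 2 - q 1) c| ≤ 1 / 4 := fun c => (Hts.abs_comp_le _ c).trans hx
  have hfi : ∀ c, |f 2 c - f 1 c| ≤ 2 * η := by
    intro c
    have h3 := abs_sub (f 2 c) (f 1 c)
    have h4 := (Hts.abs_comp_le (f 2) c).trans (hf 2)
    have h5 := (Hts.abs_comp_le (f 1) c).trans (hf 1)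
    linarith
  rw [pair_acc_comp, pair_acc_comp]
  have hid : ∀ g : ℝ, (q 2 - q 1) i *
      (δ * (q 0 2 - (q 1 2 + q 2 2) / 2) - g * (q 2 2 - q 1 2) + (f 2 2 - f 1 2)) -
      (q 2 - q 1) 2 * (δ * (q 0 i - (q 1 i + q 2 i) / 2) - g * (q 2 i - q 1 i) +
        (f 2 i - f 1 i)) =
      δ * ((q 2 - q 1) i * (q 0 2 - (q 1 2 + q 2 2) / 2) -
        (q 2 - q 1) 2 * (q 0 i - (q 1 i + q 2 i) / 2)) +
      ((q 2 - q 1) i * (f 2 2 - f 1 2) - (q 2 - q 1) 2 * (f 2 i - f 1 i)) := by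
    intro g
    simp only [PiLp.sub_apply]
    ring
  rw [hid]
  have hA1 : |(q 2 - q 1) i * (q 0 2 - (q 1 2 + q 2 2) / 2) -
        (q 2 - q 1) 2 * (q 0 i - (q 1 i + q 2 i) / 2)| ≤ 81 / 4 * A * (1 + s) := by
    have h3 := abs_sub ((q 2 - q 1) i * (q 0 2 - (q 1 2 + q 2 2) / 2))
      ((q 2 - q 1) 2 * (q 0 i - (q 1 i + q 2 i) / 2))
    rw [abs_mul, abs_mul] at h3
    have h4 := mul_le_mul (hxi i) hy2 (abs_nonneg _) (by norm_num)
    have h5 := mul_le_mul hx2 (hyi i) (abs_nonneg _) (by positivity)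
    nlinarith
  have hB1 : |(q 2 - q 1) i * (f 2 2 - f 1 2) - (q 2 - q 1) 2 * (f 2 i - f 1 i)| ≤ η := by
    have h3 := abs_sub ((q 2 - q 1) i * (f 2 2 - f 1 2)) ((q 2 - q 1) 2 * (f 2 i - f 1 i))
    rw [abs_mul, abs_mul] at h3
    have h4 := mul_le_mul (hxi i) (hfi 2) (abs_nonneg _) (by norm_num)
    have h5 := mul_le_mul (hxi 2) (hfi i) (abs_nonneg _) (by norm_num)
    linarith
  have hC1 : |δ * ((q 2 - q 1) i * (q 0 2 - (q 1 2 + q 2 2) / 2) -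
        (q 2 - q 1) 2 * (q 0 i - (q 1 i + q 2 i) / 2))| ≤ 122 * A / (1 + s) ^ 2 := by
    rw [abs_mul]
    refine (mul_le_mul hδb hA1 (abs_nonneg _) (by positivity)).trans ?_
    have h3 : 6 / (1 + s) ^ 4 * (81 / 4 * A * (1 + s)) = 243 / 2 * A / (1 + s) ^ 3 := by
      field_simp
      ring
    rw [h3, div_le_div_iff₀ (by positivity) (by positivity)]
    have h4 : (1 + s) ^ 2 ≤ (1 + s) ^ 3 := pow_le_pow_right₀ (by linarith) (by norm_num)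
    have h5 : 0 ≤ (1 + s) ^ 2 := by positivity
    nlinarith [mul_le_mul_of_nonneg_left h4 hA]
  have h3 := abs_add_le (δ * ((q 2 - q 1) i * (q 0 2 - (q 1 2 + q 2 2) / 2) -
        (q 2 - q 1) 2 * (q 0 i - (q 1 i + q 2 i) / 2)))
    ((q 2 - q 1) i * (f 2 2 - f 1 2) - (q 2 - q 1) 2 * (f 2 i - f 1 i))
  linarith

theorem body_pull {q f : Fin 3 → V3} {A s η : ℝ} (hs : 0 ≤ s)
    (hf : ∀ k, ‖f k‖ ≤ η) (hA : 0 ≤ A)
    (h1 : 3 / 5 * (1 + s) ≤ ‖q 0 - q 1‖) (h2 : 3 / 5 * (1 + s) ≤ ‖q 0 - q 2‖)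
    (hx2 : |(q 2 - q 1) 2| ≤ 5 / 2 * A) (hy2 : |q 0 2 - (q 1 2 + q 2 2) / 2| ≤ A * (1 + s)) :
    |(acc 1 q 0 + f 0) 2 - ((acc 1 q 1 + f 1) 2 + (acc 1 q 2 + f 2) 2) / 2| ≤
      122 * A / (1 + s) ^ 2 + 2 * η := by
  have hs1 : 0 < 1 + s := by linarith
  have hD : 0 < 3 / 5 * (1 + s) := by positivity
  have h3 : (acc 1 q 0 + f 0) 2 - ((acc 1 q 1 + f 1) 2 + (acc 1 q 2 + f 2) 2) / 2 =
      3 / 2 * ((1 / ‖q 1 - q 0‖ ^ 3) * (q 1 - q 0) 2 + (1 / ‖q 2 - q 0‖ ^ 3) * (q 2 - q 0) 2) +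
      (f 0 2 - (f 1 2 + f 2 2) / 2) := by
    rw [← Hts.rel_acc_comp]
    simp only [PiLp.add_apply]
    ring
  rw [h3]
  have hx := abs_le.mp hx2
  have hy := abs_le.mp hy2
  have hxe : (q 2 - q 1) 2 = q 2 2 - q 1 2 := rfl
  rw [hxe] at hx
  have hAs : A ≤ A * (1 + s) := by nlinarith
  have hq1 : |(q 1 - q 0) 2| ≤ 9 / 4 * A * (1 + s) := by
    have h4 : (q 1 - q 0) 2 = q 1 2 - q 0 2 := rfl
    rw [h4, abs_le]
    constructor <;> nlinarith [hx.1, hx.2, hy.1, hy.2]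
  have hq2 : |(q 2 - q 0) 2| ≤ 9 / 4 * A * (1 + s) := by
    have h4 : (q 2 - q 0) 2 = q 2 2 - q 0 2 := rfl
    rw [h4, abs_le]
    constructor <;> nlinarith [hx.1, hx.2, hy.1, hy.2]
  have hpull : ∀ v : V3, 3 / 5 * (1 + s) ≤ ‖v‖ → |v 2| ≤ 9 / 4 * A * (1 + s) →
      |(1 / ‖v‖ ^ 3) * v 2| ≤ 40 * A / (1 + s) ^ 2 := by
    intro v hv hv2
    have hvp : 0 < ‖v‖ := hD.trans_le hv
    rw [abs_mul, abs_of_pos (by positivity : (0:ℝ) < 1 / ‖v‖ ^ 3)]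
    have h4 : 1 / ‖v‖ ^ 3 ≤ 1 / (3 / 5 * (1 + s)) ^ 3 :=
      one_div_le_one_div_of_le (by positivity) (pow_le_pow_left₀ hD.le hv 3)
    refine (mul_le_mul h4 hv2 (abs_nonneg _) (by positivity)).trans ?_
    have h5 : 1 / (3 / 5 * (1 + s)) ^ 3 * (9 / 4 * A * (1 + s)) =
        125 / 12 * A / (1 + s) ^ 2 := by
      field_simp
      ring
    rw [h5]
    apply div_le_div_of_nonneg_right _ (by positivity)
    linarith
  have h4 := abs_le.mp (hpull (q 1 - q 0) (by rw [norm_sub_rev]; exact h1) hq1)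
  have h5 := abs_le.mp (hpull (q 2 - q 0) (by rw [norm_sub_rev]; exact h2) hq2)
  have h6 := abs_le.mp ((Hts.abs_comp_le (f 0) 2).trans (hf 0))
  have h7 := abs_le.mp ((Hts.abs_comp_le (f 1) 2).trans (hf 1))
  have h8 := abs_le.mp ((Hts.abs_comp_le (f 2) 2).trans (hf 2))
  have h9 : 122 * A / (1 + s) ^ 2 = 122 / 40 * (40 * A / (1 + s) ^ 2) := by ring
  have h10 : 0 ≤ 40 * A / (1 + s) ^ 2 := by positivity
  rw [h9, abs_le]
  constructor <;> linarith [h4.1, h4.2, h5.1, h5.2, h6.1, h6.2, h7.1, h7.2, h8.1, h8.2]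

/-- the barrier: it grows from one to at most `exp 125` -/
noncomputable def eb (a r : ℝ) : ℝ := Real.exp (125 * (1 - 1 / (1 + (r - a))))

theorem eb_self (a : ℝ) : eb a a = 1 := by
  unfold eb
  simp

theorem eb_pos (a r : ℝ) : 0 < eb a r := Real.exp_pos _

theorem eb_le {a r : ℝ} (h : a ≤ r) : eb a r ≤ Real.exp 125 := by
  unfold eb
  rw [Real.exp_le_exp]
  have h1 : 0 < 1 + (r - a) := by linarith
  have h2 : 0 ≤ 1 / (1 + (r - a)) := by positivity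
  linarith

theorem eb_mono {a r r' : ℝ} (h : a ≤ r) (h' : r ≤ r') : eb a r ≤ eb a r' := by
  unfold eb
  rw [Real.exp_le_exp]
  have h1 : 0 < 1 + (r - a) := by linarith
  have h2 : 1 / (1 + (r' - a)) ≤ 1 / (1 + (r - a)) :=
    one_div_le_one_div_of_le h1 (by linarith)
  linarith

theorem eb_deriv {a r : ℝ} (h : a ≤ r) :
    HasDerivAt (eb a) (125 / (1 + (r - a)) ^ 2 * eb a r) r := by
  have hra : 1 + (r - a) ≠ 0 := by have : 0 < 1 + (r - a) := by linarith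
                                   exact this.ne'
  have h1 : HasDerivAt (fun r : ℝ => 1 + (r - a)) 1 r := by
    simpa using ((hasDerivAt_id r).sub_const a).const_add 1
  have h2 : HasDerivAt (fun r : ℝ => 1 / (1 + (r - a))) (-(1 / (1 + (r - a)) ^ 2)) r := by
    have h3 := (hasDerivAt_const r (1 : ℝ)).div h1 hra
    have h4 : (0 * (1 + (r - a)) - 1 * 1) / (1 + (r - a)) ^ 2 = -(1 / (1 + (r - a)) ^ 2) := by
      ring
    rw [h4] at h3
    exact h3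
  have h3 := ((h2.const_sub 1).const_mul 125).exp
  have h4 : Real.exp (125 * (1 - 1 / (1 + (r - a)))) * (125 * -(-(1 / (1 + (r - a)) ^ 2))) =
      125 / (1 + (r - a)) ^ 2 * eb a r := by
    unfold eb
    ring
  rw [h4] at h3
  exact h3

theorem incr {g g' : ℝ → ℝ} {a t A₀ η : ℝ} (hat : a ≤ t)
    (hg : ∀ r ∈ Icc a t, HasDerivWithinAt g (g' r) (Icc a t) r)
    (hb : ∀ r ∈ Icc a t, |g' r| ≤ 122 * (A₀ * eb a r) / (1 + (r - a)) ^ 2 + 2 * η) :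
    |g t - g a| ≤ 122 / 125 * (A₀ * eb a t - A₀) + 2 * η * (t - a) := by
  have hB : ∀ r, a ≤ r → HasDerivAt
      (fun r => 122 / 125 * (A₀ * eb a r - A₀) + 2 * η * (r - a))
      (122 * (A₀ * eb a r) / (1 + (r - a)) ^ 2 + 2 * η) r := by
    intro r hr
    have h1 := (((eb_deriv hr).const_mul A₀).sub_const A₀).const_mul (122 / 125 : ℝ)
    have h2 : HasDerivAt (fun r : ℝ => 2 * η * (r - a)) (2 * η) r := by
      simpa using ((hasDerivAt_id r).sub_const a).const_mul (2 * η)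
    have h3 := h1.add h2
    have h4 : 122 / 125 * (A₀ * (125 / (1 + (r - a)) ^ 2 * eb a r)) + 2 * η =
        122 * (A₀ * eb a r) / (1 + (r - a)) ^ 2 + 2 * η := by ring
    rw [h4] at h3
    exact h3
  have hF := image_norm_le_of_norm_deriv_right_le_deriv_boundary'
    (f := fun r => g r - g a) (f' := g') (a := a) (b := t)
    (B := fun r => 122 / 125 * (A₀ * eb a r - A₀) + 2 * η * (r - a))
    (B' := fun r => 122 * (A₀ * eb a r) / (1 + (r - a)) ^ 2 + 2 * η)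
    (fun r hr => ((hg r hr).sub_const (g a)).continuousWithinAt)
    (fun r hr => ((hg r (Ico_subset_Icc_self hr)).sub_const (g a)).mono_of_mem_nhdsWithin
      (Icc_mem_nhdsGE_of_mem hr))
    (by simp [eb_self]) (fun r hr => (hB r hr.1).continuousAt.continuousWithinAt)
    (fun r hr => (hB r hr.1).hasDerivWithinAt)
    (fun r hr => by
      rw [Real.norm_eq_abs]
      exact hb r (Ico_subset_Icc_self hr)) (right_mem_Icc.mpr hat)
  simpa using hF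

/-- what the flight gives -/
structure Flight (a T : ℝ) (e : V3) (Q V : ℝ → Fin 3 → V3) : Prop where
  x_le : ∀ t ∈ Icc a T, ‖Q t 2 - Q t 1‖ ≤ 1 / 4
  w_le : ∀ t ∈ Icc a T, ‖V t 2 - V t 1‖ ≤ 18
  u_le : ∀ t ∈ Icc a T, ‖V t 0 - (1 / 2 : ℝ) • (V t 1 + V t 2)‖ ≤ 8
  y_ge : ∀ t ∈ Icc a T, 73 / 100 + 6 / 5 * (t - a) ≤
    ⟪Q t 0 - (1 / 2 : ℝ) • (Q t 1 + Q t 2), e⟫
  lam : ∀ t ∈ Icc a T, 1 / 20 ≤ ‖Q t 2 - Q t 1‖ ^ 2 * ‖V t 2 - V t 1‖ ^ 2 -
    ⟪Q t 2 - Q t 1, V t 2 - V t 1⟫ ^ 2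

theorem lin_core {a T η A₀ B₀ : ℝ} {e : V3} {f Q V : ℝ → Fin 3 → V3} (ha : 0 ≤ a) (haT : a ≤ T)
    (hη : 0 ≤ η) (hs : IsSol 1 T f Q V) (hf : ∀ t ∈ Icc (0 : ℝ) T, ∀ k, ‖f t k‖ ≤ η)
    (he : ‖e‖ = 1) (hfl : Flight a T e Q V)
    (hya : ‖Q a 0 - (1 / 2 : ℝ) • (Q a 1 + Q a 2)‖ ≤ 2)
    (hy0 : |Q a 0 2 - (Q a 1 2 + Q a 2 2) / 2| ≤ B₀)
    (hu0 : |V a 0 2 - (V a 1 2 + V a 2 2) / 2| ≤ B₀)
    (hp0 : |(Q a 2 - Q a 1) 0 * (V a 2 - V a 1) 2 - (Q a 2 - Q a 1) 2 * (V a 2 - V a 1) 0| ≤ B₀)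
    (hq0 : |(Q a 2 - Q a 1) 1 * (V a 2 - V a 1) 2 - (Q a 2 - Q a 1) 2 * (V a 2 - V a 1) 1| ≤ B₀)
    (hAB : B₀ + 2 * (η * T) < A₀) (hA1 : A₀ * Real.exp 125 ≤ 1 / 15) :
    ∀ t ∈ Icc a T, |(Q t 2 - Q t 1) 2| ≤ 5 / 2 * (A₀ * Real.exp 125) ∧
      |Q t 0 2 - (Q t 1 2 + Q t 2 2) / 2| ≤ A₀ * Real.exp 125 * (1 + (t - a)) := by
  have hT0 : 0 ≤ T := ha.trans haT
  have hB0 : 0 ≤ B₀ := (abs_nonneg _).trans hy0
  have hηT : 0 ≤ η * T := mul_nonneg hη hT0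
  have hA0 : 0 < A₀ := by linarith
  have hsub : Icc a T ⊆ Icc (0 : ℝ) T := Icc_subset_Icc_left ha
  have haa : a ∈ Icc a T := ⟨le_rfl, haT⟩
  -- the functions
  set y : ℝ → ℝ := fun s => Q s 0 2 - (Q s 1 2 + Q s 2 2) / 2 with hy
  set u : ℝ → ℝ := fun s => V s 0 2 - (V s 1 2 + V s 2 2) / 2 with hu
  set p : Fin 3 → ℝ → ℝ := fun i s => (Q s 2 - Q s 1) i * (V s 2 - V s 1) 2 -
    (Q s 2 - Q s 1) 2 * (V s 2 - V s 1) i with hp
  set u' : ℝ → ℝ := fun s => (acc 1 (Q s) 0 + f s 0) 2 -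
    ((acc 1 (Q s) 1 + f s 1) 2 + (acc 1 (Q s) 2 + f s 2) 2) / 2 with hu'
  set p' : Fin 3 → ℝ → ℝ := fun i s =>
    (Q s 2 - Q s 1) i * ((acc 1 (Q s) 2 + f s 2) 2 - (acc 1 (Q s) 1 + f s 1) 2) -
      (Q s 2 - Q s 1) 2 * ((acc 1 (Q s) 2 + f s 2) i - (acc 1 (Q s) 1 + f s 1) i) with hp'
  have hyd : ∀ s ∈ Icc a T, HasDerivWithinAt y (u s) (Icc a T) s := by
    intro s hs'
    have h0 := (Hts.comp_deriv (hs.dq s (hsub hs') 0) 2).mono hsub
    have h1 := (Hts.comp_deriv (hs.dq s (hsub hs') 1) 2).mono hsub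
    have h2 := (Hts.comp_deriv (hs.dq s (hsub hs') 2) 2).mono hsub
    exact h0.sub ((h1.add h2).div_const 2)
  have hud : ∀ s ∈ Icc a T, HasDerivWithinAt u (u' s) (Icc a T) s := by
    intro s hs'
    have h0 := (Hts.comp_deriv (hs.dv s (hsub hs') 0) 2).mono hsub
    have h1 := (Hts.comp_deriv (hs.dv s (hsub hs') 1) 2).mono hsub
    have h2 := (Hts.comp_deriv (hs.dv s (hsub hs') 2) 2).mono hsub
    exact h0.sub ((h1.add h2).div_const 2)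
  have hxd : ∀ i, ∀ s ∈ Icc a T, HasDerivWithinAt (fun s => (Q s 2 - Q s 1) i)
      ((V s 2 - V s 1) i) (Icc a T) s := by
    intro i s hs'
    exact Hts.comp_deriv (((hs.dq s (hsub hs') 2).mono hsub).sub
      ((hs.dq s (hsub hs') 1).mono hsub)) i
  have hwd : ∀ i, ∀ s ∈ Icc a T, HasDerivWithinAt (fun s => (V s 2 - V s 1) i)
      ((acc 1 (Q s) 2 + f s 2) i - (acc 1 (Q s) 1 + f s 1) i) (Icc a T) s := by
    intro i s hs'
    exact Hts.comp_deriv (((hs.dv s (hsub hs') 2).mono hsub).sub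
      ((hs.dv s (hsub hs') 1).mono hsub)) i
  have hpd : ∀ i, ∀ s ∈ Icc a T, HasDerivWithinAt (p i) (p' i s) (Icc a T) s := by
    intro i s hs'
    have h1 := ((hxd i s hs').mul (hwd 2 s hs')).sub ((hxd 2 s hs').mul (hwd i s hs'))
    have h2 : (V s 2 - V s 1) i * (V s 2 - V s 1) 2 +
        (Q s 2 - Q s 1) i * ((acc 1 (Q s) 2 + f s 2) 2 - (acc 1 (Q s) 1 + f s 1) 2) -
        ((V s 2 - V s 1) 2 * (V s 2 - V s 1) i +
        (Q s 2 - Q s 1) 2 * ((acc 1 (Q s) 2 + f s 2) i - (acc 1 (Q s) 1 + f s 1) i)) =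
        p' i s := by
      simp only [hp']
      ring
    rw [h2] at h1
    exact h1
  -- the size of the relative position
  have hyn : ∀ s ∈ Icc a T, ‖Q s 0 - (1 / 2 : ℝ) • (Q s 1 + Q s 2)‖ ≤ 8 * (1 + (s - a)) := by
    intro s hs'
    have hd : ∀ r ∈ Icc a T, HasDerivWithinAt
        (fun r => Q r 0 - (1 / 2 : ℝ) • (Q r 1 + Q r 2))
        (V r 0 - (1 / 2 : ℝ) • (V r 1 + V r 2)) (Icc a T) r := by
      intro r hr
      exact ((hs.dq r (hsub hr) 0).mono hsub).sub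
        ((((hs.dq r (hsub hr) 1).mono hsub).add ((hs.dq r (hsub hr) 2).mono hsub)).const_smul
          (1 / 2 : ℝ))
    have h1 := norm_image_sub_le_of_norm_deriv_le_segment' hd
      (fun r hr => hfl.u_le r (Ico_subset_Icc_self hr)) s hs'
    have h2 := norm_sub_norm_le (Q s 0 - (1 / 2 : ℝ) • (Q s 1 + Q s 2))
      (Q a 0 - (1 / 2 : ℝ) • (Q a 1 + Q a 2))
    linarith
  have hin : ∀ x : V3, |⟪x, e⟫| ≤ ‖x‖ := fun x => by
    have := abs_real_inner_le_norm x e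
    rwa [he, mul_one] at this
  have hD1 : ∀ s ∈ Icc a T, 3 / 5 * (1 + (s - a)) ≤ ‖Q s 0 - Q s 1‖ := by
    intro s hs'
    have h1 : Q s 0 - Q s 1 = (Q s 0 - (1 / 2 : ℝ) • (Q s 1 + Q s 2)) +
        (1 / 2 : ℝ) • (Q s 2 - Q s 1) := by module
    have h2 := hfl.y_ge s hs'
    have h3 := (abs_le.mp ((hin (Q s 2 - Q s 1)).trans (hfl.x_le s hs'))).1
    have h4 : ⟪Q s 0 - Q s 1, e⟫ = ⟪Q s 0 - (1 / 2 : ℝ) • (Q s 1 + Q s 2), e⟫ +
        1 / 2 * ⟪Q s 2 - Q s 1, e⟫ := by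
      conv_lhs => rw [h1]
      rw [inner_add_left, real_inner_smul_left]
    have h5 := (le_abs_self _).trans (hin (Q s 0 - Q s 1))
    have := hs'.1
    linarith
  have hD2 : ∀ s ∈ Icc a T, 3 / 5 * (1 + (s - a)) ≤ ‖Q s 0 - Q s 2‖ := by
    intro s hs'
    have h1 : Q s 0 - Q s 2 = (Q s 0 - (1 / 2 : ℝ) • (Q s 1 + Q s 2)) -
        (1 / 2 : ℝ) • (Q s 2 - Q s 1) := by module
    have h2 := hfl.y_ge s hs'
    have h3 := (abs_le.mp ((hin (Q s 2 - Q s 1)).trans (hfl.x_le s hs'))).2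
    have h4 : ⟪Q s 0 - Q s 2, e⟫ = ⟪Q s 0 - (1 / 2 : ℝ) • (Q s 1 + Q s 2), e⟫ -
        1 / 2 * ⟪Q s 2 - Q s 1, e⟫ := by
      conv_lhs => rw [h1]
      rw [inner_sub_left, real_inner_smul_left]
    have h5 := (le_abs_self _).trans (hin (Q s 0 - Q s 2))
    have := hs'.1
    linarith
  -- consequences of the bounds up to a time
  have hcons : ∀ t ∈ Icc a T, (∀ s ∈ Icc a t, |p 0 s| ≤ A₀ * eb a s ∧ |p 1 s| ≤ A₀ * eb a s ∧
      |u s| ≤ A₀ * eb a s) → ∀ s ∈ Icc a t, |(Q s 2 - Q s 1) 2| ≤ 5 / 2 * (A₀ * eb a s) ∧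
      |y s| ≤ A₀ * eb a s * (1 + (s - a)) := by
    intro t ht hH s hs'
    have hsT : s ∈ Icc a T := ⟨hs'.1, hs'.2.trans ht.2⟩
    have hH' := hH s hs'
    constructor
    · have hAs : A₀ * eb a s ≤ 1 / 15 :=
        (mul_le_mul_of_nonneg_left (eb_le hs'.1) hA0.le).trans hA1
      exact height_pair (mul_nonneg hA0.le (eb_pos a s).le) hAs (hfl.x_le s hsT)
        (hfl.lam s hsT) hH'.1 hH'.2.1
    · have h1 := norm_image_sub_le_of_norm_deriv_le_segment'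
        (f := y) (f' := u) (a := a) (b := s) (C := A₀ * eb a s)
        (fun r hr => (hyd r ⟨hr.1, hr.2.trans hsT.2⟩).mono (Icc_subset_Icc_right hsT.2))
        (fun r hr => by
          rw [Real.norm_eq_abs]
          exact (hH r ⟨hr.1, hr.2.le.trans hs'.2⟩).2.2.trans
            (mul_le_mul_of_nonneg_left (eb_mono hr.1 hr.2.le) hA0.le)) s ⟨hs'.1, le_rfl⟩
      rw [Real.norm_eq_abs] at h1
      have h2 := abs_le.mp h1
      have h3 := abs_le.mp hy0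
      have h4 : 1 ≤ eb a s := by
        rw [← eb_self a]
        exact eb_mono le_rfl hs'.1
      have h5 : A₀ ≤ A₀ * eb a s := by nlinarith
      have hya' : y a = Q a 0 2 - (Q a 1 2 + Q a 2 2) / 2 := rfl
      rw [← hya'] at h3
      rw [abs_le]
      constructor <;> nlinarith [h2.1, h2.2, h3.1, h3.2]
  -- the first exit argument
  set G : ℝ → ℝ := fun s => max (max |p 0 s| |p 1 s|) |u s| / eb a s with hG
  have hGc : ContinuousOn G (Icc a T) := by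
    refine ContinuousOn.div ?_ ?_ (fun s _ => (eb_pos a s).ne')
    · refine ContinuousOn.sup (ContinuousOn.sup ?_ ?_) ?_
      · exact (show ContinuousOn (p 0) (Icc a T) from
          fun s hs' => (hpd 0 s hs').continuousWithinAt).abs
      · exact (show ContinuousOn (p 1) (Icc a T) from
          fun s hs' => (hpd 1 s hs').continuousWithinAt).abs
      · exact (show ContinuousOn u (Icc a T) from
          fun s hs' => (hud s hs').continuousWithinAt).abs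
    · exact fun s hs' => (eb_deriv hs'.1).continuousAt.continuousWithinAt
  have hG3 : ∀ s, G s ≤ A₀ → |p 0 s| ≤ A₀ * eb a s ∧ |p 1 s| ≤ A₀ * eb a s ∧
      |u s| ≤ A₀ * eb a s := by
    intro s h1
    have h2 : max (max |p 0 s| |p 1 s|) |u s| ≤ A₀ * eb a s := (div_le_iff₀ (eb_pos a s)).mp h1
    exact ⟨(le_max_left _ _).trans ((le_max_left _ _).trans h2),
      (le_max_right _ _).trans ((le_max_left _ _).trans h2), (le_max_right _ _).trans h2⟩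
  have hall : ∀ t ∈ Icc a T, G t < A₀ := by
    refine first_exit hGc ?_ ?_
    · show max (max |p 0 a| |p 1 a|) |u a| / eb a a < A₀
      rw [eb_self, div_one]
      refine lt_of_le_of_lt (max_le (max_le hp0 hq0) hu0) ?_
      linarith
    · intro t ht hprev
      have hH : ∀ s ∈ Icc a t, |p 0 s| ≤ A₀ * eb a s ∧ |p 1 s| ≤ A₀ * eb a s ∧
          |u s| ≤ A₀ * eb a s := fun s hs' => hG3 s (hprev s hs')
      have hC := hcons t ht hH
      have hsubt : Icc a t ⊆ Icc a T := Icc_subset_Icc_right ht.2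
      have hηt : 2 * η * (t - a) ≤ 2 * (η * T) := by
        have : η * (t - a) ≤ η * T := mul_le_mul_of_nonneg_left (by linarith [ht.2]) hη
        linarith
      have h1e : 1 ≤ eb a t := by
        rw [← eb_self a]
        exact eb_mono le_rfl ht.1
      have hAe : 0 ≤ A₀ * eb a t - A₀ := by nlinarith
      have hfin : ∀ x x₀ : ℝ, |x - x₀| ≤ 122 / 125 * (A₀ * eb a t - A₀) + 2 * η * (t - a) →
          |x₀| ≤ B₀ → |x| < A₀ * eb a t := by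
        intro x x₀ h1 h2
        have h3 := abs_le.mp h1
        have h4 := abs_le.mp h2
        rw [abs_lt]
        constructor <;> linarith [h3.1, h3.2, h4.1, h4.2]
      have hpb : ∀ i, ∀ r ∈ Icc a t,
          |p' i r| ≤ 122 * (A₀ * eb a r) / (1 + (r - a)) ^ 2 + 2 * η := by
        intro i r hr
        exact pair_torque (by linarith [hr.1]) hη (hf r (hsub (hsubt hr)))
          (mul_nonneg hA0.le (eb_pos a r).le) (hfl.x_le r (hsubt hr)) (hyn r (hsubt hr))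
          (hD1 r (hsubt hr)) (hD2 r (hsubt hr)) (hC r hr).1 (hC r hr).2 i
      have hub : ∀ r ∈ Icc a t,
          |u' r| ≤ 122 * (A₀ * eb a r) / (1 + (r - a)) ^ 2 + 2 * η := by
        intro r hr
        exact body_pull (by linarith [hr.1]) (hf r (hsub (hsubt hr)))
          (mul_nonneg hA0.le (eb_pos a r).le)
          (hD1 r (hsubt hr)) (hD2 r (hsubt hr)) (hC r hr).1 (hC r hr).2
      have hP : ∀ i, |p i t - p i a| ≤ 122 / 125 * (A₀ * eb a t - A₀) + 2 * η * (t - a) :=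
        fun i => incr ht.1 (fun r hr => (hpd i r (hsubt hr)).mono hsubt) (hpb i)
      have hU : |u t - u a| ≤ 122 / 125 * (A₀ * eb a t - A₀) + 2 * η * (t - a) :=
        incr ht.1 (fun r hr => (hud r (hsubt hr)).mono hsubt) hub
      show max (max |p 0 t| |p 1 t|) |u t| / eb a t < A₀
      rw [div_lt_iff₀ (eb_pos a t)]
      exact max_lt (max_lt (hfin _ _ (hP 0) hp0) (hfin _ _ (hP 1) hq0)) (hfin _ _ hU hu0)
  intro t ht
  have hH : ∀ s ∈ Icc a t, |p 0 s| ≤ A₀ * eb a s ∧ |p 1 s| ≤ A₀ * eb a s ∧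
      |u s| ≤ A₀ * eb a s := fun s hs' => hG3 s (hall s ⟨hs'.1, hs'.2.trans ht.2⟩).le
  have hC := hcons t ht hH t ⟨ht.1, le_rfl⟩
  have h1 : A₀ * eb a t ≤ A₀ * Real.exp 125 := mul_le_mul_of_nonneg_left (eb_le ht.1) hA0.le
  have h2 : 0 ≤ 1 + (t - a) := by linarith [ht.1]
  exact ⟨hC.1.trans (by linarith), hC.2.trans (mul_le_mul_of_nonneg_right h1 h2)⟩

end Pool.Agent.NBody.Lin
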