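import Mathlib
import Pool.Agent.NBody.ThDefsM
import Pool.Agent.NBody.ThGunLin

/-!
Linear heights of the gun for masses near one: the heights are at most a constant times
`η T (1 + t)`.
-/

set_option autoImplicit false
open scoped RealInnerProductSpace
open Set Finset Filter Topology

namespace Pool.Agent.NBody.LinM

/-- the height of the pair from the horizontal parts of its angular momentum -/
theorem height_pair {x w : V3} {A : ℝ} (hA : 0 ≤ A) (hA1 : A ≤ 1 / 20) (hx : ‖x‖ ≤ 1 / 3)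
    (hL : 1 / 30 ≤ ‖x‖ ^ 2 * ‖w‖ ^ 2 - ⟪x, w⟫ ^ 2) (hp : |x 0 * w 2 - x 2 * w 0| ≤ A)
    (hq : |x 1 * w 2 - x 2 * w 1| ≤ A) : |x 2| ≤ 4 * A := by
  rw [Lin.lagrange] at hL
  have h1 : (x 0 * w 2 - x 2 * w 0) ^ 2 ≤ A ^ 2 := by
    rw [← sq_abs]
    exact pow_le_pow_left₀ (abs_nonneg _) hp 2
  have h2 : (x 1 * w 2 - x 2 * w 1) ^ 2 ≤ A ^ 2 := by
    rw [← sq_abs]
    exact pow_le_pow_left₀ (abs_nonneg _) hq 2
  have h3 : A ^ 2 ≤ 1 / 400 := by nlinarith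
  have h4 : (1 / 6 : ℝ) ^ 2 ≤ |x 0 * w 1 - x 1 * w 0| ^ 2 := by
    rw [sq_abs]
    nlinarith
  have h5 : 1 / 6 ≤ |x 0 * w 1 - x 1 * w 0| := by
    by_contra hcon
    push Not at hcon
    have := pow_lt_pow_left₀ hcon (abs_nonneg _) (two_ne_zero)
    linarith
  have h6 : x 2 * (x 0 * w 1 - x 1 * w 0) =
      x 1 * (x 0 * w 2 - x 2 * w 0) - x 0 * (x 1 * w 2 - x 2 * w 1) := by ring
  have h7 : |x 2| * |x 0 * w 1 - x 1 * w 0| ≤ 1 / 3 * A + 1 / 3 * A := by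
    rw [← abs_mul, h6]
    have h8 := abs_sub (x 1 * (x 0 * w 2 - x 2 * w 0)) (x 0 * (x 1 * w 2 - x 2 * w 1))
    rw [abs_mul, abs_mul] at h8
    have h9 : |x 1| ≤ 1 / 3 := (Hts.abs_comp_le x 1).trans hx
    have h10 : |x 0| ≤ 1 / 3 := (Hts.abs_comp_le x 0).trans hx
    have h11 := mul_le_mul h9 hp (abs_nonneg _) (by norm_num)
    have h12 := mul_le_mul h10 hq (abs_nonneg _) (by norm_num)
    linarith
  have h13 : |x 2| * (1 / 6) ≤ |x 2| * |x 0 * w 1 - x 1 * w 0| :=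
    mul_le_mul_of_nonneg_left h5 (abs_nonneg _)
  linarith

theorem accM_comp {q : Fin 3 → V3} (m : Fin 3 → ℝ) (i : Fin 3) (c : Fin 3) :
    accM m q i c = ∑ j, (m j / ‖q j - q i‖ ^ 3) * (q j c - q i c) := by
  unfold accM
  simp [Finset.sum_apply]

theorem mass_le {m : Fin 3 → ℝ} (hm : ∀ k, |m k - 1| ≤ 1 / 10) (k : Fin 3) :
    9 / 10 ≤ m k ∧ m k ≤ 11 / 10 := by
  have := abs_le.mp (hm k)
  constructor <;> linarith [this.1, this.2]

theorem accM_comp_le {q : Fin 3 → V3} {m : Fin 3 → ℝ} (hm : ∀ k, |m k - 1| ≤ 1 / 10)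
    {μ₀ M : ℝ} (hμ : 0 < μ₀)
    (hsep : ∀ k l, k ≠ l → μ₀ ≤ ‖q k - q l‖) (c : Fin 3) (hM : ∀ k, |q k c| ≤ M) (i : Fin 3) :
    |accM m q i c| ≤ 9 / μ₀ ^ 3 * M := by
  have hM0 : 0 ≤ M := (abs_nonneg _).trans (hM 0)
  rw [accM_comp]
  have h1 : ∀ j, |(m j / ‖q j - q i‖ ^ 3) * (q j c - q i c)| ≤ 3 / μ₀ ^ 3 * M := by
    intro j
    by_cases hj : j = i
    · subst hj
      simp only [sub_self, mul_zero, abs_zero]
      positivity
    · have h2 := hsep j i hj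
      have hmj := mass_le hm j
      have h2p : 0 < ‖q j - q i‖ := hμ.trans_le h2
      have h3 : m j / ‖q j - q i‖ ^ 3 ≤ (11 / 10) / μ₀ ^ 3 := by
        apply div_le_div₀ (by norm_num) hmj.2 (by positivity)
        exact pow_le_pow_left₀ hμ.le h2 3
      have h4 : |q j c - q i c| ≤ 2 * M := by
        have := abs_sub (q j c) (q i c)
        have h5 := hM j
        have h6 := hM i
        linarith
      rw [abs_mul, abs_of_nonneg (div_nonneg (by linarith [hmj.1]) (by positivity) :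
        (0:ℝ) ≤ m j / ‖q j - q i‖ ^ 3)]
      calc m j / ‖q j - q i‖ ^ 3 * |q j c - q i c| ≤ (11 / 10) / μ₀ ^ 3 * (2 * M) :=
            mul_le_mul h3 h4 (abs_nonneg _) (by positivity)
        _ = 11 / 5 * (M / μ₀ ^ 3) := by ring
        _ ≤ 3 * (M / μ₀ ^ 3) := by
          have : 0 ≤ M / μ₀ ^ 3 := by positivity
          linarith
        _ = 3 / μ₀ ^ 3 * M := by ring
  calc |∑ j, (m j / ‖q j - q i‖ ^ 3) * (q j c - q i c)|
      ≤ ∑ j, |(m j / ‖q j - q i‖ ^ 3) * (q j c - q i c)| := Finset.abs_sum_le_sum_abs _ _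
    _ ≤ ∑ _j : Fin 3, 3 / μ₀ ^ 3 * M := Finset.sum_le_sum fun j _ => h1 j
    _ = 9 / μ₀ ^ 3 * M := by
      rw [Finset.sum_const, Finset.card_univ, Fintype.card_fin, nsmul_eq_mul]
      push_cast
      ring

theorem gronwallM {T η μ₀ : ℝ} {m : Fin 3 → ℝ} (hm : ∀ k, |m k - 1| ≤ 1 / 10)
    {f Q V : ℝ → Fin 3 → V3} (hs : IsSolM m T f Q V)
    (hη : 0 ≤ η) (hf : ∀ t ∈ Icc (0 : ℝ) T, ∀ k, ‖f t k‖ ≤ η) (hμ : 0 < μ₀)
    (hsep : ∀ t ∈ Icc (0 : ℝ) T, ∀ k l, k ≠ l → μ₀ ≤ ‖Q t k - Q t l‖)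
    (hQ : ∀ k, Q 0 k 2 = 0) (hV : ∀ k, V 0 k = 0) :
    ∀ t ∈ Icc (0 : ℝ) T, ∀ k, |Q t k 2| ≤ η * t * Real.exp ((1 + 9 / μ₀ ^ 3) * t) ∧
      |V t k 2| ≤ η * t * Real.exp ((1 + 9 / μ₀ ^ 3) * t) := by
  set K : ℝ := 1 + 9 / μ₀ ^ 3 with hK
  have hK1 : 1 ≤ K := by
    have : 0 ≤ 9 / μ₀ ^ 3 := by positivity
    linarith
  let Z : ℝ → (Fin 3 → ℝ) × (Fin 3 → ℝ) := fun t => (fun k => Q t k 2, fun k => V t k 2)
  let Z' : ℝ → (Fin 3 → ℝ) × (Fin 3 → ℝ) := fun t =>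
    (fun k => V t k 2, fun k => accM m (Q t) k 2 + f t k 2)
  have hZ : ∀ t ∈ Icc (0 : ℝ) T, HasDerivWithinAt Z (Z' t) (Icc 0 T) t := by
    intro t ht
    have h1 : HasDerivWithinAt (fun t => (fun k => Q t k 2 : Fin 3 → ℝ)) (fun k => V t k 2)
        (Icc 0 T) t := by
      rw [hasDerivWithinAt_pi]
      intro k
      exact Hts.comp_deriv (hs.dq t ht k) 2
    have h2 : HasDerivWithinAt (fun t => (fun k => V t k 2 : Fin 3 → ℝ))
        (fun k => accM m (Q t) k 2 + f t k 2) (Icc 0 T) t := by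
      rw [hasDerivWithinAt_pi]
      intro k
      exact Hts.comp_deriv (hs.dv t ht k) 2
    exact h1.prodMk h2
  have hcont : ContinuousOn Z (Icc 0 T) := fun t ht => (hZ t ht).continuousWithinAt
  have hb : ∀ t ∈ Icc (0 : ℝ) T, ‖Z' t‖ ≤ K * ‖Z t‖ + η := by
    intro t ht
    have hz1 : ∀ k, |Q t k 2| ≤ ‖Z t‖ := fun k =>
      (norm_le_pi_norm (fun k => Q t k 2) k).trans (norm_fst_le (Z t))
    have hz2 : ∀ k, |V t k 2| ≤ ‖Z t‖ := fun k =>
      (norm_le_pi_norm (fun k => V t k 2) k).trans (norm_snd_le (Z t))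
    have hnn : 0 ≤ ‖Z t‖ := norm_nonneg _
    have hpos : 0 ≤ K * ‖Z t‖ + η := by positivity
    rw [Prod.norm_def]
    refine max_le ?_ ?_
    · rw [pi_norm_le_iff_of_nonneg hpos]
      intro k
      have h1 := hz2 k
      show |V t k 2| ≤ _
      nlinarith
    · rw [pi_norm_le_iff_of_nonneg hpos]
      intro k
      show |accM m (Q t) k 2 + f t k 2| ≤ _
      have h1 := accM_comp_le hm hμ (hsep t ht) 2 hz1 k
      have h2 : |f t k 2| ≤ η := (Hts.abs_comp_le _ _).trans (hf t ht k)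
      have h3 := abs_add_le (accM m (Q t) k 2) (f t k 2)
      have h4 : 9 / μ₀ ^ 3 * ‖Z t‖ ≤ K * ‖Z t‖ :=
        mul_le_mul_of_nonneg_right (by linarith) hnn
      linarith
  have h0 : ‖Z 0‖ ≤ 0 := by
    have h1 : Z 0 = 0 := by
      refine Prod.ext ?_ ?_
      · funext k
        exact hQ k
      · funext k
        show V 0 k 2 = 0
        rw [hV k]
        rfl
    rw [h1, norm_zero]
  have hG := norm_le_gronwallBound_of_norm_deriv_right_le hcont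
    (fun t ht => Hts.deriv_right ht (hZ t (Ico_subset_Icc_self ht))) h0
    (fun t ht => hb t (Ico_subset_Icc_self ht))
  intro t ht
  have h1 := hG t ht
  rw [sub_zero, gronwallBound_of_K_ne_0 (by linarith)] at h1
  simp only [zero_mul, zero_add] at h1
  have h2 : η / K * (Real.exp (K * t) - 1) ≤ η * t * Real.exp (K * t) := by
    have h3 : Real.exp (K * t) - 1 ≤ K * t * Real.exp (K * t) := by
      have h4 := Real.add_one_le_exp (-(K * t))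
      have h5 : Real.exp (-(K * t)) * Real.exp (K * t) = 1 := by
        rw [← Real.exp_add, neg_add_cancel, Real.exp_zero]
      have h6 := mul_le_mul_of_nonneg_right h4 (Real.exp_pos (K * t)).le
      rw [h5] at h6
      linarith
    calc η / K * (Real.exp (K * t) - 1) ≤ η / K * (K * t * Real.exp (K * t)) :=
          mul_le_mul_of_nonneg_left h3 (by positivity)
      _ = η * t * Real.exp (K * t) := by
        have : K ≠ 0 := by linarith
        field_simp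
  intro k
  exact ⟨((norm_le_pi_norm (fun k => Q t k 2) k).trans (norm_fst_le (Z t))).trans (h1.trans h2),
    ((norm_le_pi_norm (fun k => V t k 2) k).trans (norm_snd_le (Z t))).trans (h1.trans h2)⟩

/-- the time derivative of the velocity of the pair -/
theorem pair_acc_comp (q f : Fin 3 → V3) (m : Fin 3 → ℝ) (hM : m 1 + m 2 ≠ 0) (c : Fin 3) :
    (accM m q 2 + f 2) c - (accM m q 1 + f 1) c =
      m 0 * (1 / ‖q 0 - q 2‖ ^ 3 - 1 / ‖q 0 - q 1‖ ^ 3) *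
        (q 0 c - (m 1 * q 1 c + m 2 * q 2 c) / (m 1 + m 2)) -
      (m 0 * ((1 / ‖q 0 - q 2‖ ^ 3) * m 1 + (1 / ‖q 0 - q 1‖ ^ 3) * m 2) / (m 1 + m 2) +
        (m 1 + m 2) * (1 / ‖q 1 - q 2‖ ^ 3)) * (q 2 c - q 1 c) + (f 2 c - f 1 c) := by
  simp only [PiLp.add_apply]
  rw [accM_comp, accM_comp, Fin.sum_univ_three, Fin.sum_univ_three,
    norm_sub_rev (q 2) (q 1)]
  generalize ‖q 0 - q 2‖ ^ 3 = B
  generalize ‖q 0 - q 1‖ ^ 3 = A
  generalize ‖q 1 - q 2‖ ^ 3 = G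
  simp only [div_eq_mul_inv, one_mul]
  generalize B⁻¹ = b
  generalize A⁻¹ = a
  generalize G⁻¹ = g
  field_simp
  ring

/-- the relative acceleration of the body `0` -/
theorem rel_acc_comp (q f : Fin 3 → V3) (m : Fin 3 → ℝ) (hM : m 1 + m 2 ≠ 0) (c : Fin 3) :
    (accM m q 0 + f 0) c - (m 1 * (accM m q 1 + f 1) c + m 2 * (accM m q 2 + f 2) c) /
        (m 1 + m 2) =
      (1 + m 0 / (m 1 + m 2)) * (m 1 * ((1 / ‖q 1 - q 0‖ ^ 3) * (q 1 - q 0) c) +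
        m 2 * ((1 / ‖q 2 - q 0‖ ^ 3) * (q 2 - q 0) c)) +
      (f 0 c - (m 1 * f 1 c + m 2 * f 2 c) / (m 1 + m 2)) := by
  simp only [PiLp.add_apply, PiLp.sub_apply]
  rw [accM_comp, accM_comp, accM_comp, Fin.sum_univ_three, Fin.sum_univ_three,
    Fin.sum_univ_three, norm_sub_rev (q 0) (q 1), norm_sub_rev (q 0) (q 2),
    norm_sub_rev (q 2) (q 1)]
  generalize ‖q 1 - q 0‖ ^ 3 = B
  generalize ‖q 2 - q 0‖ ^ 3 = A
  generalize ‖q 1 - q 2‖ ^ 3 = G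
  simp only [div_eq_mul_inv, one_mul]
  generalize B⁻¹ = b
  generalize A⁻¹ = a
  generalize G⁻¹ = g
  field_simp
  ring

theorem pair_torque {q f : Fin 3 → V3} {m : Fin 3 → ℝ} (hm : ∀ k, |m k - 1| ≤ 1 / 10)
    {A s η : ℝ} (hs : 0 ≤ s)
    (hη : 0 ≤ η) (hf : ∀ k, ‖f k‖ ≤ η) (hA : 0 ≤ A)
    (hx : ‖q 2 - q 1‖ ≤ 1 / 3)
    (hy : ‖q 0 - (m 1 + m 2)⁻¹ • (m 1 • q 1 + m 2 • q 2)‖ ≤ 10 * (1 + s))
    (h1 : 2 / 5 * (1 + s) ≤ ‖q 0 - q 1‖) (h2 : 2 / 5 * (1 + s) ≤ ‖q 0 - q 2‖)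
    (hx2 : |(q 2 - q 1) 2| ≤ 4 * A)
    (hy2 : |q 0 2 - (m 1 * q 1 2 + m 2 * q 2 2) / (m 1 + m 2)| ≤ A * (1 + s))
    (i : Fin 3) :
    |(q 2 - q 1) i * ((accM m q 2 + f 2) 2 - (accM m q 1 + f 1) 2) -
      (q 2 - q 1) 2 * ((accM m q 2 + f 2) i - (accM m q 1 + f 1) i)| ≤
      1850 * A / (1 + s) ^ 2 + 2 * η := by
  have hs1 : 0 < 1 + s := by linarith
  have hD : 0 < 2 / 5 * (1 + s) := by positivity
  have hm0 := mass_le hm 0
  have hm1 := mass_le hm 1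
  have hm2 := mass_le hm 2
  have hM : m 1 + m 2 ≠ 0 := by
    have : 0 < m 1 + m 2 := by linarith [hm1.1, hm2.1]
    exact this.ne'
  set δ : ℝ := 1 / ‖q 0 - q 2‖ ^ 3 - 1 / ‖q 0 - q 1‖ ^ 3 with hδ
  have hδb : |m 0 * δ| ≤ 44 / (1 + s) ^ 4 := by
    have h3 := Lin.inv_cube_lip hD h1 h2
    have h4 : |‖q 0 - q 1‖ - ‖q 0 - q 2‖| ≤ 1 / 3 := by
      have h5 := abs_norm_sub_norm_le (q 0 - q 1) (q 0 - q 2)
      have h6 : q 0 - q 1 - (q 0 - q 2) = q 2 - q 1 := by abel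
      rw [h6] at h5
      exact h5.trans hx
    have h9 : |δ| ≤ 40 / (1 + s) ^ 4 := by
      refine h3.trans ?_
      rw [div_le_div_iff₀ (by positivity) (by positivity)]
      have h7 : 0 < (1 + s) ^ 4 := by positivity
      have h8 : (2 / 5 * (1 + s)) ^ 4 = 16 / 625 * (1 + s) ^ 4 := by ring
      rw [h8]
      nlinarith
    rw [abs_mul, abs_of_nonneg (by linarith [hm0.1] : 0 ≤ m 0)]
    have h10 : (44 : ℝ) / (1 + s) ^ 4 = 11 / 10 * (40 / (1 + s) ^ 4) := by ring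
    rw [h10]
    exact mul_le_mul hm0.2 h9 (abs_nonneg _) (by norm_num)
  have hyi : ∀ c, |q 0 c - (m 1 * q 1 c + m 2 * q 2 c) / (m 1 + m 2)| ≤ 10 * (1 + s) := by
    intro c
    have h3 := (Hts.abs_comp_le (q 0 - (m 1 + m 2)⁻¹ • (m 1 • q 1 + m 2 • q 2)) c).trans hy
    have h4 : (q 0 - (m 1 + m 2)⁻¹ • (m 1 • q 1 + m 2 • q 2)) c =
        q 0 c - (m 1 * q 1 c + m 2 * q 2 c) / (m 1 + m 2) := by
      simp only [PiLp.sub_apply, PiLp.smul_apply, PiLp.add_apply, smul_eq_mul]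
      ring
    rwa [h4] at h3
  have hxi : ∀ c, |(q 2 - q 1) c| ≤ 1 / 3 := fun c => (Hts.abs_comp_le _ c).trans hx
  have hfi : ∀ c, |f 2 c - f 1 c| ≤ 2 * η := by
    intro c
    have h3 := abs_sub (f 2 c) (f 1 c)
    have h4 := (Hts.abs_comp_le (f 2) c).trans (hf 2)
    have h5 := (Hts.abs_comp_le (f 1) c).trans (hf 1)
    linarith
  rw [pair_acc_comp q f m hM, pair_acc_comp q f m hM]
  have hid : ∀ g : ℝ, (q 2 - q 1) i *
      (m 0 * δ * (q 0 2 - (m 1 * q 1 2 + m 2 * q 2 2) / (m 1 + m 2)) - g * (q 2 2 - q 1 2) +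
        (f 2 2 - f 1 2)) -
      (q 2 - q 1) 2 * (m 0 * δ * (q 0 i - (m 1 * q 1 i + m 2 * q 2 i) / (m 1 + m 2)) -
        g * (q 2 i - q 1 i) + (f 2 i - f 1 i)) =
      m 0 * δ * ((q 2 - q 1) i * (q 0 2 - (m 1 * q 1 2 + m 2 * q 2 2) / (m 1 + m 2)) -
        (q 2 - q 1) 2 * (q 0 i - (m 1 * q 1 i + m 2 * q 2 i) / (m 1 + m 2))) +
      ((q 2 - q 1) i * (f 2 2 - f 1 2) - (q 2 - q 1) 2 * (f 2 i - f 1 i)) := by
    intro g
    simp only [PiLp.sub_apply]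
    ring
  rw [hid]
  have hA1 : |(q 2 - q 1) i * (q 0 2 - (m 1 * q 1 2 + m 2 * q 2 2) / (m 1 + m 2)) -
        (q 2 - q 1) 2 * (q 0 i - (m 1 * q 1 i + m 2 * q 2 i) / (m 1 + m 2))| ≤
        42 * A * (1 + s) := by
    have h3 := abs_sub ((q 2 - q 1) i * (q 0 2 - (m 1 * q 1 2 + m 2 * q 2 2) / (m 1 + m 2)))
      ((q 2 - q 1) 2 * (q 0 i - (m 1 * q 1 i + m 2 * q 2 i) / (m 1 + m 2)))
    rw [abs_mul, abs_mul] at h3
    have h4 := mul_le_mul (hxi i) hy2 (abs_nonneg _) (by norm_num)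
    have h5 := mul_le_mul hx2 (hyi i) (abs_nonneg _) (by positivity)
    nlinarith [mul_nonneg hA hs1.le]
  have hB1 : |(q 2 - q 1) i * (f 2 2 - f 1 2) - (q 2 - q 1) 2 * (f 2 i - f 1 i)| ≤ 2 * η := by
    have h3 := abs_sub ((q 2 - q 1) i * (f 2 2 - f 1 2)) ((q 2 - q 1) 2 * (f 2 i - f 1 i))
    rw [abs_mul, abs_mul] at h3
    have h4 := mul_le_mul (hxi i) (hfi 2) (abs_nonneg _) (by norm_num)
    have h5 := mul_le_mul (hxi 2) (hfi i) (abs_nonneg _) (by norm_num)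
    linarith
  have hC1 : |m 0 * δ * ((q 2 - q 1) i * (q 0 2 - (m 1 * q 1 2 + m 2 * q 2 2) / (m 1 + m 2)) -
        (q 2 - q 1) 2 * (q 0 i - (m 1 * q 1 i + m 2 * q 2 i) / (m 1 + m 2)))| ≤
        1850 * A / (1 + s) ^ 2 := by
    rw [abs_mul]
    refine (mul_le_mul hδb hA1 (abs_nonneg _) (by positivity)).trans ?_
    have h3 : 44 / (1 + s) ^ 4 * (42 * A * (1 + s)) = 1848 * A / (1 + s) ^ 3 := by
      field_simp
      ring
    rw [h3, div_le_div_iff₀ (by positivity) (by positivity)]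
    have h4 : (1 + s) ^ 2 ≤ (1 + s) ^ 3 := pow_le_pow_right₀ (by linarith) (by norm_num)
    have h5 : 0 ≤ (1 + s) ^ 2 := by positivity
    nlinarith [mul_le_mul_of_nonneg_left h4 hA, mul_nonneg hA h5]
  have h3 := abs_add_le (m 0 * δ * ((q 2 - q 1) i *
        (q 0 2 - (m 1 * q 1 2 + m 2 * q 2 2) / (m 1 + m 2)) -
        (q 2 - q 1) 2 * (q 0 i - (m 1 * q 1 i + m 2 * q 2 i) / (m 1 + m 2))))
    ((q 2 - q 1) i * (f 2 2 - f 1 2) - (q 2 - q 1) 2 * (f 2 i - f 1 i))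
  linarith

theorem body_pull {q f : Fin 3 → V3} {m : Fin 3 → ℝ} (hm : ∀ k, |m k - 1| ≤ 1 / 10)
    {A s η : ℝ} (hs : 0 ≤ s)
    (hf : ∀ k, ‖f k‖ ≤ η) (hA : 0 ≤ A)
    (h1 : 2 / 5 * (1 + s) ≤ ‖q 0 - q 1‖) (h2 : 2 / 5 * (1 + s) ≤ ‖q 0 - q 2‖)
    (hx2 : |(q 2 - q 1) 2| ≤ 4 * A)
    (hy2 : |q 0 2 - (m 1 * q 1 2 + m 2 * q 2 2) / (m 1 + m 2)| ≤ A * (1 + s)) :
    |(accM m q 0 + f 0) 2 - (m 1 * (accM m q 1 + f 1) 2 + m 2 * (accM m q 2 + f 2) 2) /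
        (m 1 + m 2)| ≤ 1850 * A / (1 + s) ^ 2 + 2 * η := by
  have hs1 : 0 < 1 + s := by linarith
  have hD : 0 < 2 / 5 * (1 + s) := by positivity
  have hm0 := mass_le hm 0
  have hm1 := mass_le hm 1
  have hm2 := mass_le hm 2
  have hMp : 0 < m 1 + m 2 := by linarith [hm1.1, hm2.1]
  have hη : 0 ≤ η := (norm_nonneg _).trans (hf 0)
  rw [rel_acc_comp q f m hMp.ne']
  have hx := abs_le.mp hx2
  have hy := abs_le.mp hy2
  have hxe : (q 2 - q 1) 2 = q 2 2 - q 1 2 := rfl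
  rw [hxe] at hx
  have hAs : A ≤ A * (1 + s) := by nlinarith
  -- the weights
  obtain ⟨c₁, hc₁⟩ : ∃ c, c = m 1 / (m 1 + m 2) := ⟨_, rfl⟩
  obtain ⟨c₂, hc₂⟩ : ∃ c, c = m 2 / (m 1 + m 2) := ⟨_, rfl⟩
  have hcs : c₁ + c₂ = 1 := by
    rw [hc₁, hc₂]
    field_simp
  have hc₁0 : 0 ≤ c₁ := by rw [hc₁]; exact div_nonneg (by linarith [hm1.1]) hMp.le
  have hc₂0 : 0 ≤ c₂ := by rw [hc₂]; exact div_nonneg (by linarith [hm2.1]) hMp.le
  have hwe : ∀ x y : ℝ, (m 1 * x + m 2 * y) / (m 1 + m 2) = c₁ * x + c₂ * y := by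
    intro x y
    rw [hc₁, hc₂]
    field_simp
  have hye : q 0 2 - (m 1 * q 1 2 + m 2 * q 2 2) / (m 1 + m 2) =
      q 0 2 - (c₁ * q 1 2 + c₂ * q 2 2) := by rw [hwe]
  rw [hye] at hy
  have hc₁' : c₁ = 1 - c₂ := by linarith
  have hq1 : |(q 1 - q 0) 2| ≤ 5 * A * (1 + s) := by
    have h4 : (q 1 - q 0) 2 = -(q 0 2 - (c₁ * q 1 2 + c₂ * q 2 2)) - c₂ * (q 2 2 - q 1 2) := by
      show q 1 2 - q 0 2 = _
      rw [hc₁']
      ring
    have h5 : |c₂ * (q 2 2 - q 1 2)| ≤ 4 * A := by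
      rw [abs_mul, abs_of_nonneg hc₂0]
      have : |q 2 2 - q 1 2| ≤ 4 * A := abs_le.mpr hx
      nlinarith [abs_nonneg (q 2 2 - q 1 2)]
    have h6 := abs_le.mp h5
    rw [h4, abs_le]
    constructor <;> linarith [h6.1, h6.2, hy.1, hy.2]
  have hq2 : |(q 2 - q 0) 2| ≤ 5 * A * (1 + s) := by
    have h4 : (q 2 - q 0) 2 = -(q 0 2 - (c₁ * q 1 2 + c₂ * q 2 2)) + c₁ * (q 2 2 - q 1 2) := by
      show q 2 2 - q 0 2 = _
      rw [hc₁']
      ring
    have h5 : |c₁ * (q 2 2 - q 1 2)| ≤ 4 * A := by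
      rw [abs_mul, abs_of_nonneg hc₁0]
      have : |q 2 2 - q 1 2| ≤ 4 * A := abs_le.mpr hx
      nlinarith [abs_nonneg (q 2 2 - q 1 2)]
    have h6 := abs_le.mp h5
    rw [h4, abs_le]
    constructor <;> linarith [h6.1, h6.2, hy.1, hy.2]
  have hpull : ∀ v : V3, 2 / 5 * (1 + s) ≤ ‖v‖ → |v 2| ≤ 5 * A * (1 + s) →
      |(1 / ‖v‖ ^ 3) * v 2| ≤ 80 * A / (1 + s) ^ 2 := by
    intro v hv hv2
    have hvp : 0 < ‖v‖ := hD.trans_le hv
    rw [abs_mul, abs_of_pos (by positivity : (0:ℝ) < 1 / ‖v‖ ^ 3)]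
    have h4 : 1 / ‖v‖ ^ 3 ≤ 1 / (2 / 5 * (1 + s)) ^ 3 :=
      one_div_le_one_div_of_le (by positivity) (pow_le_pow_left₀ hD.le hv 3)
    refine (mul_le_mul h4 hv2 (abs_nonneg _) (by positivity)).trans ?_
    have h5 : 1 / (2 / 5 * (1 + s)) ^ 3 * (5 * A * (1 + s)) =
        625 / 8 * A / (1 + s) ^ 2 := by
      field_simp
      ring
    rw [h5]
    apply div_le_div_of_nonneg_right _ (by positivity)
    linarith
  have h4 := hpull (q 1 - q 0) (by rw [norm_sub_rev]; exact h1) hq1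
  have h5 := hpull (q 2 - q 0) (by rw [norm_sub_rev]; exact h2) hq2
  obtain ⟨P, hP⟩ : ∃ P, P = (1 / ‖q 1 - q 0‖ ^ 3) * (q 1 - q 0) 2 := ⟨_, rfl⟩
  obtain ⟨R, hR⟩ : ∃ R, R = (1 / ‖q 2 - q 0‖ ^ 3) * (q 2 - q 0) 2 := ⟨_, rfl⟩
  rw [← hP] at h4 ⊢
  rw [← hR] at h5 ⊢
  have h10 : 0 ≤ 80 * A / (1 + s) ^ 2 := by positivity
  have h6 : |m 1 * P + m 2 * R| ≤ 11 / 5 * (80 * A / (1 + s) ^ 2) := by
    have h7 := abs_add_le (m 1 * P) (m 2 * R)
    rw [abs_mul, abs_mul, abs_of_nonneg (by linarith [hm1.1] : 0 ≤ m 1),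
      abs_of_nonneg (by linarith [hm2.1] : 0 ≤ m 2)] at h7
    have h8 := mul_le_mul hm1.2 h4 (abs_nonneg _) (by norm_num)
    have h9 := mul_le_mul hm2.2 h5 (abs_nonneg _) (by norm_num)
    linarith
  have h7 : |(1 + m 0 / (m 1 + m 2)) * (m 1 * P + m 2 * R)| ≤
      2 * (11 / 5 * (80 * A / (1 + s) ^ 2)) := by
    rw [abs_mul]
    refine mul_le_mul ?_ h6 (abs_nonneg _) (by norm_num)
    have h8 : m 0 / (m 1 + m 2) ≤ 1 := by
      rw [div_le_one hMp]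
      linarith [hm0.2, hm1.1, hm2.1]
    have h9 : 0 ≤ m 0 / (m 1 + m 2) := div_nonneg (by linarith [hm0.1]) hMp.le
    rw [abs_of_nonneg (by linarith)]
    linarith
  have h8 : |f 0 2 - (m 1 * f 1 2 + m 2 * f 2 2) / (m 1 + m 2)| ≤ 2 * η := by
    rw [hwe]
    have g0 := abs_le.mp ((Hts.abs_comp_le (f 0) 2).trans (hf 0))
    have g1 := abs_le.mp ((Hts.abs_comp_le (f 1) 2).trans (hf 1))
    have g2 := abs_le.mp ((Hts.abs_comp_le (f 2) 2).trans (hf 2))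
    have g3 : c₁ * f 1 2 ≤ c₁ * η := mul_le_mul_of_nonneg_left g1.2 hc₁0
    have g4 : c₁ * (-η) ≤ c₁ * f 1 2 := mul_le_mul_of_nonneg_left g1.1 hc₁0
    have g5 : c₂ * f 2 2 ≤ c₂ * η := mul_le_mul_of_nonneg_left g2.2 hc₂0
    have g6 : c₂ * (-η) ≤ c₂ * f 2 2 := mul_le_mul_of_nonneg_left g2.1 hc₂0
    have g7 : c₁ * η + c₂ * η = η := by rw [← add_mul, hcs, one_mul]
    rw [abs_le]
    constructor <;> linarith [g0.1, g0.2]
  have h9 := abs_add_le ((1 + m 0 / (m 1 + m 2)) * (m 1 * P + m 2 * R))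
    (f 0 2 - (m 1 * f 1 2 + m 2 * f 2 2) / (m 1 + m 2))
  have h11 : 1850 * A / (1 + s) ^ 2 = 1850 / 80 * (80 * A / (1 + s) ^ 2) := by ring
  rw [h11]
  linarith

/-- the barrier: it grows from one to at most `exp 1900` -/
noncomputable def eb (a r : ℝ) : ℝ := Real.exp (1900 * (1 - 1 / (1 + (r - a))))

theorem eb_self (a : ℝ) : eb a a = 1 := by
  unfold eb
  simp

theorem eb_pos (a r : ℝ) : 0 < eb a r := Real.exp_pos _

theorem eb_le {a r : ℝ} (h : a ≤ r) : eb a r ≤ Real.exp 1900 := by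
  unfold eb
  rw [Real.exp_le_exp]
  have h1 : 0 < 1 + (r - a) := by linarith
  have h2 : 0 ≤ 1 / (1 + (r - a)) := by positivity
  linarith

theorem eb_mono {a r r' : ℝ} (h : a ≤ r) (h' : r ≤ r') : eb a r ≤ eb a r' := by
  unfold eb
  rw [Real.exp_le_exp]
  have h1 : 0 < 1 + (r - a) := by linarith
  have h2 : 1 / (1 + (r' - a)) ≤ 1 / (1 + (r - a)) :=
    one_div_le_one_div_of_le h1 (by linarith)
  linarith

theorem eb_deriv {a r : ℝ} (h : a ≤ r) :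
    HasDerivAt (eb a) (1900 / (1 + (r - a)) ^ 2 * eb a r) r := by
  have hra : 1 + (r - a) ≠ 0 := by
    have : 0 < 1 + (r - a) := by linarith
    exact this.ne'
  have h1 : HasDerivAt (fun r : ℝ => 1 + (r - a)) 1 r := by
    simpa using ((hasDerivAt_id r).sub_const a).const_add 1
  have h2 : HasDerivAt (fun r : ℝ => 1 / (1 + (r - a))) (-(1 / (1 + (r - a)) ^ 2)) r := by
    have h3 := (hasDerivAt_const r (1 : ℝ)).div h1 hra
    have h4 : (0 * (1 + (r - a)) - 1 * 1) / (1 + (r - a)) ^ 2 = -(1 / (1 + (r - a)) ^ 2) := by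
      ring
    rw [h4] at h3
    exact h3
  have h3 := ((h2.const_sub 1).const_mul 1900).exp
  have h4 : Real.exp (1900 * (1 - 1 / (1 + (r - a)))) * (1900 * -(-(1 / (1 + (r - a)) ^ 2))) =
      1900 / (1 + (r - a)) ^ 2 * eb a r := by
    unfold eb
    ring
  rw [h4] at h3
  exact h3

theorem incr {g g' : ℝ → ℝ} {a t A₀ η : ℝ} (hat : a ≤ t)
    (hg : ∀ r ∈ Icc a t, HasDerivWithinAt g (g' r) (Icc a t) r)
    (hb : ∀ r ∈ Icc a t, |g' r| ≤ 1850 * (A₀ * eb a r) / (1 + (r - a)) ^ 2 + 2 * η) :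
    |g t - g a| ≤ 1850 / 1900 * (A₀ * eb a t - A₀) + 2 * η * (t - a) := by
  have hB : ∀ r, a ≤ r → HasDerivAt
      (fun r => 1850 / 1900 * (A₀ * eb a r - A₀) + 2 * η * (r - a))
      (1850 * (A₀ * eb a r) / (1 + (r - a)) ^ 2 + 2 * η) r := by
    intro r hr
    have h1 := (((eb_deriv hr).const_mul A₀).sub_const A₀).const_mul (1850 / 1900 : ℝ)
    have h2 : HasDerivAt (fun r : ℝ => 2 * η * (r - a)) (2 * η) r := by
      simpa using ((hasDerivAt_id r).sub_const a).const_mul (2 * η)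
    have h3 := h1.add h2
    have h4 : 1850 / 1900 * (A₀ * (1900 / (1 + (r - a)) ^ 2 * eb a r)) + 2 * η =
        1850 * (A₀ * eb a r) / (1 + (r - a)) ^ 2 + 2 * η := by ring
    rw [h4] at h3
    exact h3
  have hF := image_norm_le_of_norm_deriv_right_le_deriv_boundary'
    (f := fun r => g r - g a) (f' := g') (a := a) (b := t)
    (B := fun r => 1850 / 1900 * (A₀ * eb a r - A₀) + 2 * η * (r - a))
    (B' := fun r => 1850 * (A₀ * eb a r) / (1 + (r - a)) ^ 2 + 2 * η)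
    (fun r hr => ((hg r hr).sub_const (g a)).continuousWithinAt)
    (fun r hr => ((hg r (Ico_subset_Icc_self hr)).sub_const (g a)).mono_of_mem_nhdsWithin
      (Icc_mem_nhdsGE_of_mem hr))
    (by simp [eb_self]) (fun r hr => (hB r hr.1).continuousAt.continuousWithinAt)
    (fun r hr => (hB r hr.1).hasDerivWithinAt)
    (fun r hr => by
      rw [Real.norm_eq_abs]
      exact hb r (Ico_subset_Icc_self hr)) (right_mem_Icc.mpr hat)
  simpa using hF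

/-- the position of the body `0` relative to the centre of mass of the pair -/
noncomputable def rel (m : Fin 3 → ℝ) (q : Fin 3 → V3) : V3 :=
  q 0 - (m 1 + m 2)⁻¹ • (m 1 • q 1 + m 2 • q 2)

theorem rel_comp (m : Fin 3 → ℝ) (q : Fin 3 → V3) (c : Fin 3) :
    rel m q c = q 0 c - (m 1 * q 1 c + m 2 * q 2 c) / (m 1 + m 2) := by
  unfold rel
  simp only [PiLp.sub_apply, PiLp.smul_apply, PiLp.add_apply, smul_eq_mul]
  ring

/-- what the flight gives -/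
structure FlightM (a T : ℝ) (e : V3) (m : Fin 3 → ℝ) (Q V : ℝ → Fin 3 → V3) : Prop where
  x_le : ∀ t ∈ Icc a T, ‖Q t 2 - Q t 1‖ ≤ 1 / 3
  u_le : ∀ t ∈ Icc a T, ‖rel m (V t)‖ ≤ 10
  y_ge : ∀ t ∈ Icc a T, 2 / 3 + 11 / 10 * (t - a) ≤ ⟪rel m (Q t), e⟫
  lam : ∀ t ∈ Icc a T, 1 / 30 ≤ ‖Q t 2 - Q t 1‖ ^ 2 * ‖V t 2 - V t 1‖ ^ 2 -
    ⟪Q t 2 - Q t 1, V t 2 - V t 1⟫ ^ 2

theorem core {a T η A₀ B₀ : ℝ} {e : V3} {m : Fin 3 → ℝ} (hm : ∀ k, |m k - 1| ≤ 1 / 10)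
    {f Q V : ℝ → Fin 3 → V3} (ha : 0 ≤ a) (haT : a ≤ T)
    (hη : 0 ≤ η) (hs : IsSolM m T f Q V) (hf : ∀ t ∈ Icc (0 : ℝ) T, ∀ k, ‖f t k‖ ≤ η)
    (he : ‖e‖ = 1) (hfl : FlightM a T e m Q V)
    (hya : ‖rel m (Q a)‖ ≤ 2) (hy0 : |rel m (Q a) 2| ≤ B₀) (hu0 : |rel m (V a) 2| ≤ B₀)
    (hp0 : |(Q a 2 - Q a 1) 0 * (V a 2 - V a 1) 2 - (Q a 2 - Q a 1) 2 * (V a 2 - V a 1) 0| ≤ B₀)
    (hq0 : |(Q a 2 - Q a 1) 1 * (V a 2 - V a 1) 2 - (Q a 2 - Q a 1) 2 * (V a 2 - V a 1) 1| ≤ B₀)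
    (hAB : B₀ + 2 * (η * T) < A₀) (hA1 : A₀ * Real.exp 1900 ≤ 1 / 20) :
    ∀ t ∈ Icc a T, |(Q t 2 - Q t 1) 2| ≤ 4 * (A₀ * Real.exp 1900) ∧
      |rel m (Q t) 2| ≤ A₀ * Real.exp 1900 * (1 + (t - a)) := by
  have hT0 : 0 ≤ T := ha.trans haT
  have hB0 : 0 ≤ B₀ := (abs_nonneg _).trans hy0
  have hηT : 0 ≤ η * T := mul_nonneg hη hT0
  have hA0 : 0 < A₀ := by linarith
  have hsub : Icc a T ⊆ Icc (0 : ℝ) T := Icc_subset_Icc_left ha
  have haa : a ∈ Icc a T := ⟨le_rfl, haT⟩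
  have hm1 := mass_le hm 1
  have hm2 := mass_le hm 2
  have hMp : 0 < m 1 + m 2 := by linarith [hm1.1, hm2.1]
  -- the functions
  set y : ℝ → ℝ := fun s => rel m (Q s) 2 with hy
  set u : ℝ → ℝ := fun s => rel m (V s) 2 with hu
  set p : Fin 3 → ℝ → ℝ := fun i s => (Q s 2 - Q s 1) i * (V s 2 - V s 1) 2 -
    (Q s 2 - Q s 1) 2 * (V s 2 - V s 1) i with hp
  set u' : ℝ → ℝ := fun s => (accM m (Q s) 0 + f s 0) 2 -
    (m 1 * (accM m (Q s) 1 + f s 1) 2 + m 2 * (accM m (Q s) 2 + f s 2) 2) / (m 1 + m 2) with hu'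
  set p' : Fin 3 → ℝ → ℝ := fun i s =>
    (Q s 2 - Q s 1) i * ((accM m (Q s) 2 + f s 2) 2 - (accM m (Q s) 1 + f s 1) 2) -
      (Q s 2 - Q s 1) 2 * ((accM m (Q s) 2 + f s 2) i - (accM m (Q s) 1 + f s 1) i) with hp'
  have hyV : ∀ s ∈ Icc a T, HasDerivWithinAt (fun s => rel m (Q s)) (rel m (V s)) (Icc a T) s := by
    intro r hr
    exact ((hs.dq r (hsub hr) 0).mono hsub).sub
        (((((hs.dq r (hsub hr) 1).mono hsub).const_smul (m 1)).add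
          (((hs.dq r (hsub hr) 2).mono hsub).const_smul (m 2))).const_smul (m 1 + m 2)⁻¹)
  have hyd : ∀ s ∈ Icc a T, HasDerivWithinAt y (u s) (Icc a T) s := fun s hs' =>
    Hts.comp_deriv (hyV s hs') 2
  have hud : ∀ s ∈ Icc a T, HasDerivWithinAt u (u' s) (Icc a T) s := by
    intro s hs'
    have h0 := Hts.comp_deriv (((hs.dv s (hsub hs') 0).mono hsub).sub
        (((((hs.dv s (hsub hs') 1).mono hsub).const_smul (m 1)).add
          (((hs.dv s (hsub hs') 2).mono hsub).const_smul (m 2))).const_smul (m 1 + m 2)⁻¹)) 2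
    have h1 : (accM m (Q s) 0 + f s 0 - (m 1 + m 2)⁻¹ • (m 1 • (accM m (Q s) 1 + f s 1) +
        m 2 • (accM m (Q s) 2 + f s 2))) 2 = u' s := by
      simp only [hu', PiLp.sub_apply, PiLp.smul_apply, PiLp.add_apply, smul_eq_mul]
      ring
    rw [h1] at h0
    exact h0
  have hxd : ∀ i, ∀ s ∈ Icc a T, HasDerivWithinAt (fun s => (Q s 2 - Q s 1) i)
      ((V s 2 - V s 1) i) (Icc a T) s := by
    intro i s hs'
    exact Hts.comp_deriv (((hs.dq s (hsub hs') 2).mono hsub).sub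
      ((hs.dq s (hsub hs') 1).mono hsub)) i
  have hwd : ∀ i, ∀ s ∈ Icc a T, HasDerivWithinAt (fun s => (V s 2 - V s 1) i)
      ((accM m (Q s) 2 + f s 2) i - (accM m (Q s) 1 + f s 1) i) (Icc a T) s := by
    intro i s hs'
    exact Hts.comp_deriv (((hs.dv s (hsub hs') 2).mono hsub).sub
      ((hs.dv s (hsub hs') 1).mono hsub)) i
  have hpd : ∀ i, ∀ s ∈ Icc a T, HasDerivWithinAt (p i) (p' i s) (Icc a T) s := by
    intro i s hs'
    have h1 := ((hxd i s hs').mul (hwd 2 s hs')).sub ((hxd 2 s hs').mul (hwd i s hs'))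
    have h2 : (V s 2 - V s 1) i * (V s 2 - V s 1) 2 +
        (Q s 2 - Q s 1) i * ((accM m (Q s) 2 + f s 2) 2 - (accM m (Q s) 1 + f s 1) 2) -
        ((V s 2 - V s 1) 2 * (V s 2 - V s 1) i +
        (Q s 2 - Q s 1) 2 * ((accM m (Q s) 2 + f s 2) i - (accM m (Q s) 1 + f s 1) i)) =
        p' i s := by
      simp only [hp']
      ring
    rw [h2] at h1
    exact h1
  -- the size of the relative position
  have hyn : ∀ s ∈ Icc a T, ‖rel m (Q s)‖ ≤ 10 * (1 + (s - a)) := by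
    intro s hs'
    have h1 := norm_image_sub_le_of_norm_deriv_le_segment' hyV
      (fun r hr => hfl.u_le r (Ico_subset_Icc_self hr)) s hs'
    have h2 := norm_sub_norm_le (rel m (Q s)) (rel m (Q a))
    linarith
  have hin : ∀ x : V3, |⟪x, e⟫| ≤ ‖x‖ := fun x => by
    have := abs_real_inner_le_norm x e
    rwa [he, mul_one] at this
  have hc1 : m 1 / (m 1 + m 2) ≤ 11 / 18 := by
    rw [div_le_div_iff₀ hMp (by norm_num)]
    linarith [hm1.2, hm2.1]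
  have hc2 : m 2 / (m 1 + m 2) ≤ 11 / 18 := by
    rw [div_le_div_iff₀ hMp (by norm_num)]
    linarith [hm2.2, hm1.1]
  have hc1' : 0 ≤ m 1 / (m 1 + m 2) := div_nonneg (by linarith [hm1.1]) hMp.le
  have hc2' : 0 ≤ m 2 / (m 1 + m 2) := div_nonneg (by linarith [hm2.1]) hMp.le
  have hD1 : ∀ s ∈ Icc a T, 2 / 5 * (1 + (s - a)) ≤ ‖Q s 0 - Q s 1‖ := by
    intro s hs'
    have h1 : Q s 0 - Q s 1 = rel m (Q s) + (m 2 / (m 1 + m 2)) • (Q s 2 - Q s 1) := by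
      unfold rel
      ext c
      simp only [PiLp.sub_apply, PiLp.smul_apply, PiLp.add_apply, smul_eq_mul]
      field_simp
      ring
    have h2 := hfl.y_ge s hs'
    have h3 := (abs_le.mp ((hin (Q s 2 - Q s 1)).trans (hfl.x_le s hs'))).1
    have h4 : ⟪Q s 0 - Q s 1, e⟫ = ⟪rel m (Q s), e⟫ +
        m 2 / (m 1 + m 2) * ⟪Q s 2 - Q s 1, e⟫ := by
      conv_lhs => rw [h1]
      rw [inner_add_left, real_inner_smul_left]
    have h5 := (le_abs_self _).trans (hin (Q s 0 - Q s 1))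
    have h6 : -(11 / 54) ≤ m 2 / (m 1 + m 2) * ⟪Q s 2 - Q s 1, e⟫ := by nlinarith
    have := hs'.1
    linarith
  have hD2 : ∀ s ∈ Icc a T, 2 / 5 * (1 + (s - a)) ≤ ‖Q s 0 - Q s 2‖ := by
    intro s hs'
    have h1 : Q s 0 - Q s 2 = rel m (Q s) - (m 1 / (m 1 + m 2)) • (Q s 2 - Q s 1) := by
      unfold rel
      ext c
      simp only [PiLp.sub_apply, PiLp.smul_apply, PiLp.add_apply, smul_eq_mul]
      field_simp
      ring
    have h2 := hfl.y_ge s hs'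
    have h3 := (abs_le.mp ((hin (Q s 2 - Q s 1)).trans (hfl.x_le s hs'))).2
    have h4 : ⟪Q s 0 - Q s 2, e⟫ = ⟪rel m (Q s), e⟫ -
        m 1 / (m 1 + m 2) * ⟪Q s 2 - Q s 1, e⟫ := by
      conv_lhs => rw [h1]
      rw [inner_sub_left, real_inner_smul_left]
    have h5 := (le_abs_self _).trans (hin (Q s 0 - Q s 2))
    have h6 : m 1 / (m 1 + m 2) * ⟪Q s 2 - Q s 1, e⟫ ≤ 11 / 54 := by nlinarith
    have := hs'.1
    linarith
  -- consequences of the bounds up to a time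
  have hcons : ∀ t ∈ Icc a T, (∀ s ∈ Icc a t, |p 0 s| ≤ A₀ * eb a s ∧ |p 1 s| ≤ A₀ * eb a s ∧
      |u s| ≤ A₀ * eb a s) → ∀ s ∈ Icc a t, |(Q s 2 - Q s 1) 2| ≤ 4 * (A₀ * eb a s) ∧
      |y s| ≤ A₀ * eb a s * (1 + (s - a)) := by
    intro t ht hH s hs'
    have hsT : s ∈ Icc a T := ⟨hs'.1, hs'.2.trans ht.2⟩
    have hH' := hH s hs'
    constructor
    · have hAs : A₀ * eb a s ≤ 1 / 20 :=
        (mul_le_mul_of_nonneg_left (eb_le hs'.1) hA0.le).trans hA1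
      exact height_pair (mul_nonneg hA0.le (eb_pos a s).le) hAs (hfl.x_le s hsT)
        (hfl.lam s hsT) hH'.1 hH'.2.1
    · have h1 := norm_image_sub_le_of_norm_deriv_le_segment'
        (f := y) (f' := u) (a := a) (b := s) (C := A₀ * eb a s)
        (fun r hr => (hyd r ⟨hr.1, hr.2.trans hsT.2⟩).mono (Icc_subset_Icc_right hsT.2))
        (fun r hr => by
          rw [Real.norm_eq_abs]
          exact (hH r ⟨hr.1, hr.2.le.trans hs'.2⟩).2.2.trans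
            (mul_le_mul_of_nonneg_left (eb_mono hr.1 hr.2.le) hA0.le)) s ⟨hs'.1, le_rfl⟩
      rw [Real.norm_eq_abs] at h1
      have h2 := abs_le.mp h1
      have h3 : -B₀ ≤ y a ∧ y a ≤ B₀ := abs_le.mp hy0
      have h4 : 1 ≤ eb a s := by
        rw [← eb_self a]
        exact eb_mono le_rfl hs'.1
      have h5 : A₀ ≤ A₀ * eb a s := by nlinarith
      rw [abs_le]
      constructor <;> nlinarith [h2.1, h2.2, h3.1, h3.2]
  -- the first exit argument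
  set G : ℝ → ℝ := fun s => max (max |p 0 s| |p 1 s|) |u s| / eb a s with hG
  have hGc : ContinuousOn G (Icc a T) := by
    refine ContinuousOn.div ?_ ?_ (fun s _ => (eb_pos a s).ne')
    · refine ContinuousOn.sup (ContinuousOn.sup ?_ ?_) ?_
      · exact (show ContinuousOn (p 0) (Icc a T) from
          fun s hs' => (hpd 0 s hs').continuousWithinAt).abs
      · exact (show ContinuousOn (p 1) (Icc a T) from
          fun s hs' => (hpd 1 s hs').continuousWithinAt).abs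
      · exact (show ContinuousOn u (Icc a T) from
          fun s hs' => (hud s hs').continuousWithinAt).abs
    · exact fun s hs' => (eb_deriv hs'.1).continuousAt.continuousWithinAt
  have hG3 : ∀ s, G s ≤ A₀ → |p 0 s| ≤ A₀ * eb a s ∧ |p 1 s| ≤ A₀ * eb a s ∧
      |u s| ≤ A₀ * eb a s := by
    intro s h1
    have h2 : max (max |p 0 s| |p 1 s|) |u s| ≤ A₀ * eb a s := (div_le_iff₀ (eb_pos a s)).mp h1
    exact ⟨(le_max_left _ _).trans ((le_max_left _ _).trans h2),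
      (le_max_right _ _).trans ((le_max_left _ _).trans h2), (le_max_right _ _).trans h2⟩
  have hall : ∀ t ∈ Icc a T, G t < A₀ := by
    refine first_exit hGc ?_ ?_
    · show max (max |p 0 a| |p 1 a|) |u a| / eb a a < A₀
      rw [eb_self, div_one]
      refine lt_of_le_of_lt (max_le (max_le hp0 hq0) hu0) ?_
      linarith
    · intro t ht hprev
      have hH : ∀ s ∈ Icc a t, |p 0 s| ≤ A₀ * eb a s ∧ |p 1 s| ≤ A₀ * eb a s ∧
          |u s| ≤ A₀ * eb a s := fun s hs' => hG3 s (hprev s hs')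
      have hC := hcons t ht hH
      have hsubt : Icc a t ⊆ Icc a T := Icc_subset_Icc_right ht.2
      have hηt : 2 * η * (t - a) ≤ 2 * (η * T) := by
        have : η * (t - a) ≤ η * T := mul_le_mul_of_nonneg_left (by linarith [ht.2]) hη
        linarith
      have h1e : 1 ≤ eb a t := by
        rw [← eb_self a]
        exact eb_mono le_rfl ht.1
      have hAe : 0 ≤ A₀ * eb a t - A₀ := by nlinarith
      have hfin : ∀ x x₀ : ℝ, |x - x₀| ≤ 1850 / 1900 * (A₀ * eb a t - A₀) + 2 * η * (t - a) →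
          |x₀| ≤ B₀ → |x| < A₀ * eb a t := by
        intro x x₀ h1 h2
        have h3 := abs_le.mp h1
        have h4 := abs_le.mp h2
        rw [abs_lt]
        constructor <;> linarith [h3.1, h3.2, h4.1, h4.2]
      have hyC : ∀ r ∈ Icc a t, |Q r 0 2 - (m 1 * Q r 1 2 + m 2 * Q r 2 2) / (m 1 + m 2)| ≤
          A₀ * eb a r * (1 + (r - a)) := by
        intro r hr
        have h1 := (hC r hr).2
        simp only [hy, rel_comp] at h1
        exact h1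
      have hpb : ∀ i, ∀ r ∈ Icc a t,
          |p' i r| ≤ 1850 * (A₀ * eb a r) / (1 + (r - a)) ^ 2 + 2 * η := by
        intro i r hr
        exact pair_torque hm (by linarith [hr.1]) hη (hf r (hsub (hsubt hr)))
          (mul_nonneg hA0.le (eb_pos a r).le) (hfl.x_le r (hsubt hr)) (hyn r (hsubt hr))
          (hD1 r (hsubt hr)) (hD2 r (hsubt hr)) (hC r hr).1 (hyC r hr) i
      have hub : ∀ r ∈ Icc a t,
          |u' r| ≤ 1850 * (A₀ * eb a r) / (1 + (r - a)) ^ 2 + 2 * η := by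
        intro r hr
        exact body_pull hm (by linarith [hr.1]) (hf r (hsub (hsubt hr)))
          (mul_nonneg hA0.le (eb_pos a r).le)
          (hD1 r (hsubt hr)) (hD2 r (hsubt hr)) (hC r hr).1 (hyC r hr)
      have hP : ∀ i, |p i t - p i a| ≤ 1850 / 1900 * (A₀ * eb a t - A₀) + 2 * η * (t - a) :=
        fun i => incr ht.1 (fun r hr => (hpd i r (hsubt hr)).mono hsubt) (hpb i)
      have hU : |u t - u a| ≤ 1850 / 1900 * (A₀ * eb a t - A₀) + 2 * η * (t - a) :=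
        incr ht.1 (fun r hr => (hud r (hsubt hr)).mono hsubt) hub
      show max (max |p 0 t| |p 1 t|) |u t| / eb a t < A₀
      rw [div_lt_iff₀ (eb_pos a t)]
      exact max_lt (max_lt (hfin _ _ (hP 0) hp0) (hfin _ _ (hP 1) hq0)) (hfin _ _ hU hu0)
  intro t ht
  have hH : ∀ s ∈ Icc a t, |p 0 s| ≤ A₀ * eb a s ∧ |p 1 s| ≤ A₀ * eb a s ∧
      |u s| ≤ A₀ * eb a s := fun s hs' => hG3 s (hall s ⟨hs'.1, hs'.2.trans ht.2⟩).le
  have hC := hcons t ht hH t ⟨ht.1, le_rfl⟩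
  have h1 : A₀ * eb a t ≤ A₀ * Real.exp 1900 := mul_le_mul_of_nonneg_left (eb_le ht.1) hA0.le
  have h2 : 0 ≤ 1 + (t - a) := by linarith [ht.1]
  exact ⟨hC.1.trans (by linarith), hC.2.trans (mul_le_mul_of_nonneg_right h1 h2)⟩

end Pool.Agent.NBody.LinM
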