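import Mathlib
import Pool.Agent.NBody.ThGunDefs
import Pool.Agent.NBody.ThDefsM
import Pool.Agent.NBody.ThGunEncM
import Pool.Agent.NBody.ThGunLinM

/-!
Interface for the flight of the gun with masses near one.
-/

set_option autoImplicit false
open scoped RealInnerProductSpace
open Set Finset Filter Topology

namespace Pool.Agent.NBody

/-- what the flight with masses gives -/
structure FlightX (a T : ℝ) (e : V3) (m : Fin 3 → ℝ) (Q V : ℝ → Fin 3 → V3) (μ₁ C₁ : ℝ) :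
    Prop where
  base : LinM.FlightM a T e m Q V
  ve : ∀ t ∈ Icc a T, 11 / 10 ≤ ⟪LinM.rel m (V t), e⟫
  sep : ∀ t ∈ Icc a T, μ₁ ≤ ‖Q t 2 - Q t 1‖
  wv : ∀ t ∈ Icc a T, ‖V t 2 - V t 1‖ ≤ C₁

/-- (G2) the flight after the time `gunT` (original time), for masses near one -/
def FlightPropM (e : V3) (μ₁ C₁ η₂ : ℝ) : Prop :=
  ∀ m : Fin 3 → ℝ, (∀ k, |m k - 1| ≤ η₂) →
    ∀ T η : ℝ, gunT ≤ T → 0 ≤ η → η ≤ η₂ → η * T ≤ η₂ →
    ∀ f Q V : ℝ → Fin 3 → V3, IsSolM m T f Q V → (∀ t ∈ Icc (0 : ℝ) T, ∀ k, ‖f t k‖ ≤ η) →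
    (∀ k, ‖Q gunT k - gunP k‖ ≤ 1 / 2000) → (∀ k, ‖V gunT k - gunW k‖ ≤ 1 / 50) →
    FlightX gunT T e m Q V μ₁ C₁

end Pool.Agent.NBody
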