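import Mathlib
import Pool.Agent.NBody.ThRel

/-!
Three bodies with masses near one: after the ejection the outer body keeps flying and the pair
stays bound, also under small additional accelerations. Abstract relative motion.
-/

set_option autoImplicit false
open scoped RealInnerProductSpace
open Set Filter Topology

namespace Pool.Agent.NBody
namespace FltM

open Flt (first_failure mono_of_deriv norm_sub_le_of_deriv lam lam_nonneg lam_le lam_vec)

variable {V : Type*} [NormedAddCommGroup V] [InnerProductSpace ℝ V]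

/-- the energy of the pair -/
noncomputable def en (M : ℝ) (x w : V) : ℝ := ‖w‖ ^ 2 / 2 - M / ‖x‖

/-- the escape energy of the outer body -/
noncomputable def esc (g X : ℝ) : ℝ := g ^ 2 / 2 - (3001 / 1000) / (X - 1 / 8)

omit [InnerProductSpace ℝ V] in
/-- Pointwise consequences of a very negative energy. -/
theorem pair_small {M : ℝ} {x w : V} (hM : M ≤ 2001 / 1000) (hx : x ≠ 0)
    (h : en M x w < -(33 / 4)) :
    ‖x‖ ≤ 61 / 250 ∧ ‖x‖ * ‖w‖ ≤ 494 / 1000 ∧ ‖x‖ ^ 2 * ‖w‖ ^ 2 ≤ (4002 / 1000) * ‖x‖ ∧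
      ‖x‖ * ‖w‖ ^ 2 ≤ 4002 / 1000 := by
  unfold en at h
  have hr : 0 < ‖x‖ := norm_pos_iff.mpr hx
  set r := ‖x‖ with hrd
  set o := ‖w‖ with hod
  have ho : 0 ≤ o := norm_nonneg _
  have h1 : o ^ 2 / 2 + 33 / 4 < M / r := by linarith
  rw [lt_div_iff₀ hr] at h1
  have h2 : r * o ^ 2 + (33 / 2) * r < 4002 / 1000 := by nlinarith
  have h3 : 0 ≤ r * o ^ 2 := by positivity
  have h4 : (r * o) ^ 2 ≤ (494 / 1000) ^ 2 := by
    have h5 : (r * o) ^ 2 ≤ r * (4002 / 1000 - (33 / 2) * r) := by nlinarith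
    nlinarith [sq_nonneg (r - 4002 / 33000)]
  refine ⟨by linarith, ?_, by nlinarith, by linarith⟩
  exact abs_le_of_sq_le_sq' h4 (by norm_num) |>.2

/-- The pair is not close to a collision. -/
theorem pair_large {M : ℝ} {x w : V} (hM : M ≤ 2001 / 1000) (hx : x ≠ 0)
    (h : en M x w < -(33 / 4)) (hl : 11 / 200 < lam x w) :
    1 / 80 ≤ ‖x‖ ∧ ‖w‖ ≤ 18 := by
  obtain ⟨h1, h2, h3, h4⟩ := pair_small hM hx h
  have h5 := lam_le x w
  have hr : 1 / 80 ≤ ‖x‖ := by linarith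
  refine ⟨hr, ?_⟩
  by_contra hcon
  push Not at hcon
  nlinarith [norm_nonneg w]

/-- The relative motion after the ejection: `D` leads from the centre of the pair to the outer
body, `x` is the pair. -/
structure Rel (M : ℝ) (e : V) (η : ℝ) (D u x w P A : ℝ → V) (a b : ℝ) : Prop where
  hM1 : 1999 / 1000 ≤ M
  hM2 : M ≤ 2001 / 1000
  cD : ContinuousOn D (Icc a b)
  cu : ContinuousOn u (Icc a b)
  cx : ContinuousOn x (Icc a b)
  cw : ContinuousOn w (Icc a b)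
  dD : ∀ t ∈ Ioo a b, HasDerivAt D (u t) t
  du : ∀ t ∈ Ioo a b, HasDerivAt u (A t) t
  dx : ∀ t ∈ Ioo a b, HasDerivAt x (w t) t
  dw : ∀ t ∈ Ioo a b, HasDerivAt w (P t - (M / ‖x t‖ ^ 3) • x t) t
  ne : ∀ t ∈ Icc a b, x t ≠ 0
  he : ‖e‖ ≤ 1
  hη : 0 ≤ η
  hP : ∀ t ∈ Ioo a b, ‖x t‖ ≤ 61 / 250 → 5 / 8 < ⟪D t, e⟫ →
    ‖P t‖ ≤ (2002 / 1000) * ‖x t‖ / (⟪D t, e⟫ - 1 / 8) ^ 3 + 2 * η
  hA : ∀ t ∈ Ioo a b, ‖x t‖ ≤ 61 / 250 → 5 / 8 < ⟪D t, e⟫ →
    ‖A t‖ ≤ (3001 / 1000) / (⟪D t, e⟫ - 1 / 8) ^ 2 + 2 * η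

/-- the condition which is propagated -/
structure Good (M : ℝ) (e D u x w : V) : Prop where
  hD : 5 / 8 < ⟪D, e⟫
  hu : 0 < ⟪u, e⟫
  hF : 1 / 4 < esc ⟪u, e⟫ ⟪D, e⟫
  hun : ‖u‖ < 8
  hen : en M x w < -(33 / 4)
  hlam : 11 / 200 < lam x w

section Deriv

variable {M : ℝ} {e : V} {η : ℝ} {D u x w P A : ℝ → V} {a b : ℝ}

theorem Rel.dX (h : Rel M e η D u x w P A a b) {t : ℝ} (ht : t ∈ Ioo a b) :
    HasDerivAt (fun s => ⟪D s, e⟫) ⟪u t, e⟫ t := by
  have h1 := (h.dD t ht).inner ℝ (hasDerivAt_const t e)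
  rwa [inner_zero_right, zero_add] at h1

theorem Rel.dg (h : Rel M e η D u x w P A a b) {t : ℝ} (ht : t ∈ Ioo a b) :
    HasDerivAt (fun s => ⟪u s, e⟫) ⟪A t, e⟫ t := by
  have h1 := (h.du t ht).inner ℝ (hasDerivAt_const t e)
  rwa [inner_zero_right, zero_add] at h1

/-- derivative of the energy of the pair -/
theorem Rel.den (h : Rel M e η D u x w P A a b) {t : ℝ} (ht : t ∈ Ioo a b) :
    HasDerivAt (fun s => en M (x s) (w s)) ⟪w t, P t⟫ t := by
  have hx0 : x t ≠ 0 := h.ne t (Ioo_subset_Icc_self ht)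
  have hn : 0 < ‖x t‖ := norm_pos_iff.mpr hx0
  have h1 := (h.dw t ht).norm_sq
  have h2 := (h.dx t ht).norm_sq.sqrt (by positivity)
  have h3 : (fun s => Real.sqrt (‖x s‖ ^ 2)) = fun s => ‖x s‖ := by
    funext s
    exact Real.sqrt_sq (norm_nonneg _)
  rw [h3, Real.sqrt_sq hn.le] at h2
  have h4 := h2.inv hn.ne'
  have h5 := (h1.div_const 2).sub (h4.const_mul M)
  have h6 : (fun s => en M (x s) (w s)) = fun s => ‖w s‖ ^ 2 / 2 - M * (‖x s‖)⁻¹ := by
    funext s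
    unfold en
    rw [div_eq_mul_inv M]
  rw [h6]
  refine HasDerivAt.congr_deriv h5 ?_
  rw [inner_sub_right, real_inner_smul_right, real_inner_comm (x t) (w t)]
  field_simp
  ring

/-- derivative of the angular momentum of the pair -/
theorem Rel.dlam (h : Rel M e η D u x w P A a b) {t : ℝ} (ht : t ∈ Ioo a b) :
    HasDerivAt (fun s => lam (x s) (w s))
      (2 * ⟪(‖x t‖ ^ 2) • w t - ⟪x t, w t⟫ • x t, P t⟫) t := by
  have hx0 : x t ≠ 0 := h.ne t (Ioo_subset_Icc_self ht)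
  have hn : 0 < ‖x t‖ := norm_pos_iff.mpr hx0
  have h1 := (h.dx t ht).norm_sq
  have h2 := (h.dw t ht).norm_sq
  have h3 := (h.dx t ht).inner ℝ (h.dw t ht)
  have h4 := (h1.mul h2).sub (h3.pow 2)
  have h6 : (fun s => lam (x s) (w s)) = fun s => ‖x s‖ ^ 2 * ‖w s‖ ^ 2 - ⟪x s, w s⟫ ^ 2 := rfl
  rw [h6]
  refine HasDerivAt.congr_deriv h4 ?_
  rw [inner_sub_right, inner_sub_right, inner_sub_left, real_inner_smul_right,
    real_inner_smul_right, real_inner_smul_left, real_inner_smul_left,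
    real_inner_comm (x t) (w t), real_inner_self_eq_norm_sq, real_inner_self_eq_norm_sq]
  field_simp
  ring

/-- derivative of the escape energy -/
theorem Rel.desc (h : Rel M e η D u x w P A a b) {t : ℝ} (ht : t ∈ Ioo a b)
    (hX : 5 / 8 < ⟪D t, e⟫) :
    HasDerivAt (fun s => esc ⟪u s, e⟫ ⟪D s, e⟫)
      (⟪u t, e⟫ * (⟪A t, e⟫ + (3001 / 1000) / (⟪D t, e⟫ - 1 / 8) ^ 2)) t := by
  have hd : 0 < ⟪D t, e⟫ - 1 / 8 := by linarith
  have h1 := ((h.dg ht).pow 2).div_const 2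
  have h2 := (((h.dX ht).sub_const (1 / 8)).inv hd.ne').const_mul (3001 / 1000)
  have h3 := h1.sub h2
  have h6 : (fun s => esc ⟪u s, e⟫ ⟪D s, e⟫) =
      fun s => ⟪u s, e⟫ ^ 2 / 2 - (3001 / 1000) * (⟪D s, e⟫ - 1 / 8)⁻¹ := by
    funext s
    unfold esc
    rw [div_eq_mul_inv (3001 / 1000)]
  rw [h6]
  refine HasDerivAt.congr_deriv h3 ?_
  field_simp
  ring

/-- derivative of the first comparison function -/
theorem Rel.dB1 (h : Rel M e η D u x w P A a b) {t : ℝ} (ht : t ∈ Ioo a b)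
    (hX : 5 / 8 < ⟪D t, e⟫) :
    HasDerivAt (fun s => -((5 / 2) * (√(⟪D s, e⟫ - 1 / 8))⁻¹))
      ((5 / 4) * ⟪u t, e⟫ / √(⟪D t, e⟫ - 1 / 8) ^ 3) t := by
  have hd : 0 < ⟪D t, e⟫ - 1 / 8 := by linarith
  have hS : 0 < √(⟪D t, e⟫ - 1 / 8) := Real.sqrt_pos.mpr hd
  have h1 := ((h.dX ht).sub_const (1 / 8)).sqrt hd.ne'
  have h2 := ((h1.inv hS.ne').const_mul (5 / 2)).neg
  refine HasDerivAt.congr_deriv h2 ?_
  field_simp
  ring

/-- derivative of the second comparison function -/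
theorem Rel.dB2 (h : Rel M e η D u x w P A a b) {t : ℝ} (ht : t ∈ Ioo a b)
    (hX : 5 / 8 < ⟪D t, e⟫) :
    HasDerivAt (fun s => -((5 / 18) * ((√(⟪D s, e⟫ - 1 / 8))⁻¹) ^ 3))
      ((5 / 12) * ⟪u t, e⟫ / √(⟪D t, e⟫ - 1 / 8) ^ 5) t := by
  have hd : 0 < ⟪D t, e⟫ - 1 / 8 := by linarith
  have hS : 0 < √(⟪D t, e⟫ - 1 / 8) := Real.sqrt_pos.mpr hd
  have h1 := ((h.dX ht).sub_const (1 / 8)).sqrt hd.ne'
  have h2 := (((h1.inv hS.ne').pow 3).const_mul (5 / 18)).neg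
  refine HasDerivAt.congr_deriv h2 ?_
  simp only [Pi.inv_apply, Nat.cast_ofNat]
  field_simp
  ring

end Deriv

/-- Pointwise comparison of the two potentials with the derivatives of the comparison functions. -/
theorem compare {g X : ℝ} (hX : 5 / 8 < X) (hg : 0 < g) (hF : 1 / 4 < esc g X) :
    (3001 / 1000) / (X - 1 / 8) ^ 2 ≤ (5 / 4) * g / √(X - 1 / 8) ^ 3 ∧
      1 / (X - 1 / 8) ^ 3 ≤ (5 / 12) * g / √(X - 1 / 8) ^ 5 := by
  unfold esc at hF
  have hd : 0 < X - 1 / 8 := by linarith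
  set S := √(X - 1 / 8) with hSd
  have hS : 0 < S := Real.sqrt_pos.mpr hd
  have hS2 : X - 1 / 8 = S ^ 2 := (Real.sq_sqrt hd.le).symm
  rw [hS2] at hF ⊢
  have h1 : (3001 / 1000) / S ^ 2 < g ^ 2 / 2 := by linarith
  rw [div_lt_iff₀ (by positivity)] at h1
  have h2 : (241 / 100) ^ 2 ≤ (g * S) ^ 2 := by nlinarith
  have h3 : 241 / 100 ≤ g * S := by
    by_contra hcon
    push Not at hcon
    nlinarith [mul_pos hg hS]
  constructor
  · rw [div_le_div_iff₀ (by positivity) (by positivity)]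
    have h4 : (5 / 4) * g * (S ^ 2) ^ 2 = (5 / 4) * (g * S) * S ^ 3 := by ring
    rw [h4]
    have h5 : (0:ℝ) < S ^ 3 := by positivity
    nlinarith
  · rw [div_le_div_iff₀ (by positivity) (by positivity)]
    have h4 : (5 / 12) * g * (S ^ 2) ^ 3 = (5 / 12) * (g * S) * S ^ 5 := by ring
    rw [h4]
    have h5 : (0:ℝ) < S ^ 5 := by positivity
    nlinarith

section Est

variable {M : ℝ} {e : V} {η : ℝ} {D u x w P A : ℝ → V} {a b : ℝ}

/-- The estimates on a time interval in whose interior the condition holds. -/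
theorem Rel.est (h : Rel M e η D u x w P A a b) {c d : ℝ} (hac : a ≤ c) (hcd : c ≤ d)
    (hdb : d ≤ b) (hg : ∀ t ∈ Ioo c d, Good M e (D t) (u t) (x t) (w t))
    (hXc : 5 / 8 < ⟪D c, e⟫) :
    ⟪D c, e⟫ ≤ ⟪D d, e⟫ ∧
    esc ⟪u c, e⟫ ⟪D c, e⟫ - 16 * η * (d - c) ≤ esc ⟪u d, e⟫ ⟪D d, e⟫ ∧
    ‖u d - u c‖ ≤ (5 / 2) * (√(⟪D c, e⟫ - 1 / 8))⁻¹ + 2 * η * (d - c) ∧
    en M (x d) (w d) ≤ en M (x c) (w c) + (5 / 18) * ((√(⟪D c, e⟫ - 1 / 8))⁻¹) ^ 3 +
      36 * η * (d - c) ∧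
    |lam (x d) (w d) - lam (x c) (w c)| ≤
      (1 / 8) * ((5 / 18) * ((√(⟪D c, e⟫ - 1 / 8))⁻¹) ^ 3) + η / 2 * (d - c) := by
  have hsub : Icc c d ⊆ Icc a b := Icc_subset_Icc hac hdb
  have hsubo : ∀ t ∈ Ioo c d, t ∈ Ioo a b := fun t ht =>
    ⟨hac.trans_lt ht.1, ht.2.trans_le hdb⟩
  have cD : ContinuousOn (fun s => ⟪D s, e⟫) (Icc c d) :=
    (h.cD.mono hsub).inner continuousOn_const
  have cu : ContinuousOn (fun s => ⟪u s, e⟫) (Icc c d) :=
    (h.cu.mono hsub).inner continuousOn_const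
  have cx := h.cx.mono hsub
  have cw := h.cw.mono hsub
  -- monotonicity of the distance
  have hmono : ∀ t ∈ Icc c d, ⟪D c, e⟫ ≤ ⟪D t, e⟫ := by
    intro t ht
    apply mono_of_deriv (φ := fun s => ⟪D s, e⟫) (φ' := fun s => ⟪u s, e⟫) ht.1
    · exact cD.mono (Icc_subset_Icc le_rfl ht.2)
    · intro s hs
      exact h.dX (hsubo s ⟨hs.1, hs.2.trans_le ht.2⟩)
    · intro s hs
      exact (hg s ⟨hs.1, hs.2.trans_le ht.2⟩).hu.le
  have hX : ∀ t ∈ Icc c d, 5 / 8 < ⟪D t, e⟫ := fun t ht => hXc.trans_le (hmono t ht)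
  have hXd : ∀ t ∈ Icc c d, 0 < ⟪D t, e⟫ - 1 / 8 := fun t ht => by
    have := hX t ht
    linarith
  have hS : ∀ t ∈ Icc c d, 0 < √(⟪D t, e⟫ - 1 / 8) := fun t ht => Real.sqrt_pos.mpr (hXd t ht)
  have cS : ContinuousOn (fun s => (√(⟪D s, e⟫ - 1 / 8))⁻¹) (Icc c d) := by
    apply ContinuousOn.inv₀
    · exact (cD.sub continuousOn_const).sqrt
    · exact fun t ht => (hS t ht).ne'
  have hη := h.hη
  -- pointwise bounds
  have hpt : ∀ t ∈ Ioo c d, 0 < ‖x t‖ ∧ ‖x t‖ ≤ 61 / 250 ∧ ‖x t‖ * ‖w t‖ ≤ 494 / 1000 ∧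
      ‖w t‖ ≤ 18 ∧
      ‖P t‖ ≤ (2002 / 1000) * ‖x t‖ / (⟪D t, e⟫ - 1 / 8) ^ 3 + 2 * η ∧
      ‖A t‖ ≤ (3001 / 1000) / (⟪D t, e⟫ - 1 / 8) ^ 2 + 2 * η := by
    intro t ht
    have hne := h.ne t (hsub (Ioo_subset_Icc_self ht))
    have G := hg t ht
    obtain ⟨p1, p2, p3, p4⟩ := pair_small h.hM2 hne G.hen
    obtain ⟨p5, p6⟩ := pair_large h.hM2 hne G.hen G.hlam
    exact ⟨norm_pos_iff.mpr hne, p1, p2, p6, h.hP t (hsubo t ht) p1 G.hD,
      h.hA t (hsubo t ht) p1 G.hD⟩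
  have hAe : ∀ t ∈ Ioo c d, -((3001 / 1000) / (⟪D t, e⟫ - 1 / 8) ^ 2 + 2 * η) ≤ ⟪A t, e⟫ := by
    intro t ht
    obtain ⟨_, _, _, _, _, hA⟩ := hpt t ht
    have h1 : |⟪A t, e⟫| ≤ ‖A t‖ * ‖e‖ := abs_real_inner_le_norm _ _
    have h2 : ‖A t‖ * ‖e‖ ≤ ‖A t‖ * 1 := mul_le_mul_of_nonneg_left h.he (norm_nonneg _)
    have h3 := neg_abs_le ⟪A t, e⟫
    linarith
  have hgu : ∀ t ∈ Ioo c d, ⟪u t, e⟫ ≤ 8 := by
    intro t ht
    have h1 : ⟪u t, e⟫ ≤ ‖u t‖ * ‖e‖ := real_inner_le_norm _ _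
    have h2 : ‖u t‖ * ‖e‖ ≤ ‖u t‖ * 1 := mul_le_mul_of_nonneg_left h.he (norm_nonneg _)
    have h3 := (hg t ht).hun
    linarith
  -- the positive value of the second comparison function at the end
  have hB2d : 0 ≤ (5 / 18) * ((√(⟪D d, e⟫ - 1 / 8))⁻¹) ^ 3 := by positivity
  have hB1d : 0 ≤ (5 / 2) * (√(⟪D d, e⟫ - 1 / 8))⁻¹ := by positivity
  refine ⟨hmono d (right_mem_Icc.mpr hcd), ?_, ?_, ?_, ?_⟩
  · -- escape energy
    have := mono_of_deriv (φ := fun s => esc ⟪u s, e⟫ ⟪D s, e⟫ + 16 * η * s)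
      (φ' := fun s => ⟪u s, e⟫ * (⟪A s, e⟫ + (3001 / 1000) / (⟪D s, e⟫ - 1 / 8) ^ 2) + 16 * η) hcd
      (by
        apply ContinuousOn.add
        · unfold esc
          apply ContinuousOn.sub
          · exact (cu.pow 2).div_const 2
          · exact continuousOn_const.div (cD.sub continuousOn_const) (fun t ht => (hXd t ht).ne')
        · fun_prop)
      (by
        intro t ht
        have h1 := h.desc (hsubo t ht) (hX t (Ioo_subset_Icc_self ht))
        have h2 := (hasDerivAt_id t).const_mul (16 * η)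
        refine HasDerivAt.congr_deriv (h1.add h2) ?_
        ring)
      (by
        intro t ht
        have h1 := hAe t ht
        have h2 := hgu t ht
        have h3 := (hg t ht).hu
        have h4 : -(2 * η) ≤ ⟪A t, e⟫ + (3001 / 1000) / (⟪D t, e⟫ - 1 / 8) ^ 2 := by linarith
        have h5 : ⟪u t, e⟫ * (-(2 * η)) ≤
          ⟪u t, e⟫ * (⟪A t, e⟫ + (3001 / 1000) / (⟪D t, e⟫ - 1 / 8) ^ 2) :=
          mul_le_mul_of_nonneg_left h4 h3.le
        nlinarith)
    linarith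
  · -- velocity
    have := norm_sub_le_of_deriv (f := u) (f' := A)
      (B := fun s => -((5 / 2) * (√(⟪D s, e⟫ - 1 / 8))⁻¹) + 2 * η * s)
      (B' := fun s => (5 / 4) * ⟪u s, e⟫ / √(⟪D s, e⟫ - 1 / 8) ^ 3 + 2 * η) hcd
      (h.cu.mono hsub)
      (by
        apply ContinuousOn.add
        · exact (continuousOn_const.mul cS).neg
        · fun_prop)
      (fun t ht => h.du t (hsubo t ht))
      (by
        intro t ht
        have h1 := h.dB1 (hsubo t ht) (hX t (Ioo_subset_Icc_self ht))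
        have h2 := (hasDerivAt_id t).const_mul (2 * η)
        refine HasDerivAt.congr_deriv (h1.add h2) ?_
        ring)
      (by
        intro t ht
        obtain ⟨_, _, _, _, _, hA⟩ := hpt t ht
        have G := hg t ht
        have h1 := (compare G.hD G.hu G.hF).1
        linarith)
    linarith
  · -- energy of the pair
    have := mono_of_deriv (φ := fun s => -((5 / 18) * ((√(⟪D s, e⟫ - 1 / 8))⁻¹) ^ 3) +
        36 * η * s - en M (x s) (w s))
      (φ' := fun s => (5 / 12) * ⟪u s, e⟫ / √(⟪D s, e⟫ - 1 / 8) ^ 5 + 36 * η - ⟪w s, P s⟫) hcd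
      (by
        apply ContinuousOn.sub
        · apply ContinuousOn.add
          · exact (continuousOn_const.mul (cS.pow 3)).neg
          · fun_prop
        · unfold en
          apply ContinuousOn.sub
          · exact (cw.norm.pow 2).div_const 2
          · exact continuousOn_const.div cx.norm
              (fun t ht => norm_ne_zero_iff.mpr (h.ne t (hsub ht))))
      (by
        intro t ht
        have h1 := h.dB2 (hsubo t ht) (hX t (Ioo_subset_Icc_self ht))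
        have h2 := (hasDerivAt_id t).const_mul (36 * η)
        have h3 := h.den (hsubo t ht)
        refine HasDerivAt.congr_deriv ((h1.add h2).sub h3) ?_
        ring)
      (by
        intro t ht
        obtain ⟨hx0, hx4, hxw, hw, hP, _⟩ := hpt t ht
        have G := hg t ht
        have h1 := (compare G.hD G.hu G.hF).2
        have hdd := hXd t (Ioo_subset_Icc_self ht)
        have h2 : ⟪w t, P t⟫ ≤ ‖w t‖ * ‖P t‖ := real_inner_le_norm _ _
        have h3 : ‖w t‖ * ‖P t‖ ≤ ‖w t‖ * ((2002 / 1000) * ‖x t‖ / (⟪D t, e⟫ - 1 / 8) ^ 3 + 2 * η) :=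
          mul_le_mul_of_nonneg_left hP (norm_nonneg _)
        have h4 : ‖w t‖ * ((2002 / 1000) * ‖x t‖ / (⟪D t, e⟫ - 1 / 8) ^ 3 + 2 * η) =
          (2002 / 1000) * (‖x t‖ * ‖w t‖) * (1 / (⟪D t, e⟫ - 1 / 8) ^ 3) + 2 * η * ‖w t‖ := by
          ring
        have h5 : (2002 / 1000) * (‖x t‖ * ‖w t‖) * (1 / (⟪D t, e⟫ - 1 / 8) ^ 3) ≤
          1 * (1 / (⟪D t, e⟫ - 1 / 8) ^ 3) := by
          apply mul_le_mul_of_nonneg_right _ (by positivity)
          linarith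
        have h6 : 2 * η * ‖w t‖ ≤ 36 * η := by nlinarith
        linarith)
    linarith
  · -- angular momentum of the pair
    have := norm_sub_le_of_deriv (V := ℝ) (f := fun s => lam (x s) (w s))
      (f' := fun s => 2 * ⟪(‖x s‖ ^ 2) • w s - ⟪x s, w s⟫ • x s, P s⟫)
      (B := fun s => (1 / 8) * (-((5 / 18) * ((√(⟪D s, e⟫ - 1 / 8))⁻¹) ^ 3)) + η / 2 * s)
      (B' := fun s => (1 / 8) * ((5 / 12) * ⟪u s, e⟫ / √(⟪D s, e⟫ - 1 / 8) ^ 5) + η / 2) hcd
      (by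
        unfold lam
        apply ContinuousOn.sub
        · exact (cx.norm.pow 2).mul (cw.norm.pow 2)
        · exact (cx.inner cw).pow 2)
      (by
        apply ContinuousOn.add
        · exact continuousOn_const.mul (continuousOn_const.mul (cS.pow 3)).neg
        · fun_prop)
      (fun t ht => h.dlam (hsubo t ht))
      (by
        intro t ht
        have h1 := h.dB2 (hsubo t ht) (hX t (Ioo_subset_Icc_self ht))
        have h2 := (hasDerivAt_id t).const_mul (η / 2)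
        refine HasDerivAt.congr_deriv ((h1.const_mul (1 / 8)).add h2) ?_
        ring)
      (by
        intro t ht
        obtain ⟨hx0, hx4, hxw, hw, hP, _⟩ := hpt t ht
        have G := hg t ht
        have h1 := (compare G.hD G.hu G.hF).2
        have hdd := hXd t (Ioo_subset_Icc_self ht)
        set z := (‖x t‖ ^ 2) • w t - ⟪x t, w t⟫ • x t with hz
        have hz2 : ‖z‖ ^ 2 ≤ (‖x t‖ * (494 / 1000)) ^ 2 := by
          rw [hz, lam_vec, mul_pow]
          apply mul_le_mul_of_nonneg_left _ (by positivity)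
          refine (lam_le _ _).trans ?_
          rw [← mul_pow]
          exact pow_le_pow_left₀ (by positivity) hxw 2
        have hz1 : ‖z‖ ≤ ‖x t‖ * (494 / 1000) :=
          (sq_le_sq₀ (norm_nonneg _) (by positivity)).mp hz2
        have h2 : |⟪z, P t⟫| ≤ ‖z‖ * ‖P t‖ := abs_real_inner_le_norm _ _
        have h3 : ‖z‖ * ‖P t‖ ≤
            (‖x t‖ * (494 / 1000)) * ((2002 / 1000) * ‖x t‖ / (⟪D t, e⟫ - 1 / 8) ^ 3 + 2 * η) :=
          mul_le_mul hz1 hP (norm_nonneg _) (by positivity)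
        have h4 : (‖x t‖ * (494 / 1000)) * ((2002 / 1000) * ‖x t‖ / (⟪D t, e⟫ - 1 / 8) ^ 3 + 2 * η) =
          (494 / 1000 * (2002 / 1000)) * ‖x t‖ ^ 2 * (1 / (⟪D t, e⟫ - 1 / 8) ^ 3) +
            (988 / 1000) * (η * ‖x t‖) := by ring
        have h5 : (494 / 1000 * (2002 / 1000)) * ‖x t‖ ^ 2 * (1 / (⟪D t, e⟫ - 1 / 8) ^ 3) ≤
          (1 / 16) * (1 / (⟪D t, e⟫ - 1 / 8) ^ 3) := by
          apply mul_le_mul_of_nonneg_right _ (by positivity)
          nlinarith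
        have h6 : η * ‖x t‖ ≤ η * (61 / 250) := mul_le_mul_of_nonneg_left hx4 hη
        rw [Real.norm_eq_abs, abs_mul, abs_of_pos (by norm_num : (0:ℝ) < 2)]
        linarith)
    simp only [Real.norm_eq_abs] at this
    linarith

end Est

/-- the state at the handover time -/
structure Start (M : ℝ) (e D u x w : V) : Prop where
  hD : 738 / 1000 ≤ ⟪D, e⟫
  hu : 3358 / 1000 ≤ ⟪u, e⟫
  hun : ‖u‖ ≤ 7 / 2
  hen : en M x w ≤ -(46 / 5)
  hl1 : 13 / 100 ≤ lam x w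

/-- the value of the inverse root at the start -/
theorem inv_sqrt_start {X : ℝ} (hX : 738 / 1000 ≤ X) :
    (√(X - 1 / 8))⁻¹ ≤ 9 / 7 ∧ ((√(X - 1 / 8))⁻¹) ^ 3 ≤ 213 / 100 := by
  have h1 : (7 / 9) ^ 2 ≤ X - 1 / 8 := by norm_num; linarith
  have h2 : 7 / 9 ≤ √(X - 1 / 8) := Real.le_sqrt_of_sq_le h1
  have h3 : (√(X - 1 / 8))⁻¹ ≤ 9 / 7 := by
    rw [inv_le_comm₀ (by linarith) (by norm_num)]
    linarith
  refine ⟨h3, ?_⟩
  have h4 : 0 ≤ (√(X - 1 / 8))⁻¹ := by positivity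
  calc ((√(X - 1 / 8))⁻¹) ^ 3 ≤ (9 / 7) ^ 3 := pow_le_pow_left₀ h4 h3 3
    _ ≤ 213 / 100 := by norm_num

theorem esc_start {g X : ℝ} (hX : 738 / 1000 ≤ X) (hg : 3358 / 1000 ≤ g) :
    37 / 50 ≤ esc g X := by
  unfold esc
  have h1 : (3001 / 1000) / (X - 1 / 8) ≤ (3001 / 1000) / (738 / 1000 - 1 / 8) := by
    apply div_le_div_of_nonneg_left (by norm_num) (by norm_num) (by linarith)
  have h2 : (3358 / 1000 : ℝ) ^ 2 ≤ g ^ 2 := pow_le_pow_left₀ (by norm_num) hg 2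
  have h3 : (3001 / 1000 : ℝ) / (738 / 1000 - 1 / 8) ≤ 4896 / 1000 := by norm_num
  norm_num at h2 h3 ⊢
  linarith

section Boot

variable {M : ℝ} {e : V} {η : ℝ} {D u x w P A : ℝ → V} {a b : ℝ}

/-- The condition holds for ever. -/
theorem Rel.good (h : Rel M e η D u x w P A a b) (hs : Start M e (D a) (u a) (x a) (w a))
    (hηb : η * (b - a) ≤ 1 / 2000) :
    ∀ t ∈ Icc a b, Good M e (D t) (u t) (x t) (w t) ∧ 6 / 5 < ⟪u t, e⟫ := by
  have hη := h.hη
  have h0 : Good M e (D a) (u a) (x a) (w a) ∧ 6 / 5 < ⟪u a, e⟫ := by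
    refine ⟨⟨by linarith [hs.hD], by linarith [hs.hu], ?_, by linarith [hs.hun],
      by linarith [hs.hen], by linarith [hs.hl1]⟩, by linarith [hs.hu]⟩
    have := esc_start hs.hD hs.hu
    linarith
  have cDe : ContinuousOn (fun s => ⟪D s, e⟫) (Icc a b) := h.cD.inner continuousOn_const
  have cue : ContinuousOn (fun s => ⟪u s, e⟫) (Icc a b) := h.cu.inner continuousOn_const
  have cen : ContinuousOn (fun s => en M (x s) (w s)) (Icc a b) := by
    unfold en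
    apply ContinuousOn.sub
    · exact (h.cw.norm.pow 2).div_const 2
    · exact continuousOn_const.div h.cx.norm (fun t ht => norm_ne_zero_iff.mpr (h.ne t ht))
  have clam : ContinuousOn (fun s => lam (x s) (w s)) (Icc a b) := by
    unfold lam
    apply ContinuousOn.sub
    · exact (h.cx.norm.pow 2).mul (h.cw.norm.pow 2)
    · exact (h.cx.inner h.cw).pow 2
  refine first_failure (G := fun t => Good M e (D t) (u t) (x t) (w t) ∧ 6 / 5 < ⟪u t, e⟫)
    h0 ?_ ?_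
  · -- the condition is open
    intro t ht hG
    have htI : t ∈ Icc a b := ⟨ht.1, ht.2.le⟩
    obtain ⟨G, hg⟩ := hG
    have hesc : ContinuousWithinAt (fun s => esc ⟪u s, e⟫ ⟪D s, e⟫) (Icc a b) t := by
      unfold esc
      apply ContinuousWithinAt.sub
      · exact ((cue t htI).pow 2).div_const 2
      · apply ContinuousWithinAt.div continuousWithinAt_const
          ((cDe t htI).sub continuousWithinAt_const)
        have := G.hD
        exact ne_of_gt (show (0:ℝ) < ⟪D t, e⟫ - 1 / 8 by linarith)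
    have e1 := (cDe t htI).eventually (lt_mem_nhds G.hD)
    have e2 := (cue t htI).eventually (lt_mem_nhds hg)
    have e3 := hesc.eventually (lt_mem_nhds G.hF)
    have e4 := (h.cu.norm t htI).eventually (gt_mem_nhds G.hun)
    have e5 := (cen t htI).eventually (gt_mem_nhds G.hen)
    have e6 := (clam t htI).eventually (lt_mem_nhds G.hlam)
    have e7 := e1.and (e2.and (e3.and (e4.and (e5.and e6))))
    rw [eventually_iff, Metric.mem_nhdsWithin_iff] at e7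
    obtain ⟨δ, hδ, hball⟩ := e7
    refine ⟨δ, hδ, fun s hs' hd => ?_⟩
    have := hball ⟨by rwa [Metric.mem_ball, Real.dist_eq], hs'⟩
    obtain ⟨m1, m2, m3, m4, m5, m6⟩ := this
    exact ⟨⟨m1, by linarith, m3, m4, m5, m6⟩, m2⟩
  · -- the condition is closed
    intro t ht hbefore
    have htI : t ∈ Icc a b := ⟨ht.1.le, ht.2⟩
    have hXa : 5 / 8 < ⟪D a, e⟫ := by linarith [hs.hD]
    obtain ⟨q1, q2, q3, q4, q5⟩ := h.est le_rfl ht.1.le ht.2
      (fun s hs' => (hbefore s ⟨hs'.1.le, hs'.2⟩).1) hXa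
    obtain ⟨i1, i2⟩ := inv_sqrt_start hs.hD
    have hes := esc_start hs.hD hs.hu
    have hηt : η * (t - a) ≤ 1 / 2000 := by
      refine le_trans (mul_le_mul_of_nonneg_left ?_ hη) hηb
      linarith [ht.2]
    have hηt0 : 0 ≤ η * (t - a) := mul_nonneg hη (by linarith [ht.1])
    -- the velocity is not negative at the end
    have hgt : 6 / 5 ≤ ⟪u t, e⟫ := by
      have hcl : IsClosed (Ici (6 / 5 : ℝ)) := isClosed_Ici
      have hne : (𝓝[Ioo a t] t).NeBot := by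
        rw [← mem_closure_iff_nhdsWithin_neBot, closure_Ioo ht.1.ne]
        exact ⟨ht.1.le, le_rfl⟩
      have htend : Tendsto (fun s => ⟪u s, e⟫) (𝓝[Ioo a t] t) (𝓝 ⟪u t, e⟫) :=
        ((cue t htI).mono (fun s hs' => ⟨hs'.1.le, hs'.2.le.trans ht.2⟩))
      apply hcl.mem_of_tendsto htend
      filter_upwards [self_mem_nhdsWithin] with s hs'
      exact (hbefore s ⟨hs'.1.le, hs'.2⟩).2.le
    have hesc : 73 / 100 ≤ esc ⟪u t, e⟫ ⟪D t, e⟫ := by linarith
    have hg2 : 6 / 5 < ⟪u t, e⟫ := by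
      unfold esc at hesc
      have h1 : 0 ≤ (3001 / 1000) / (⟪D t, e⟫ - 1 / 8) := by
        apply div_nonneg (by norm_num)
        linarith
      nlinarith
    refine ⟨⟨by linarith, by linarith, by linarith, ?_, ?_, ?_⟩, hg2⟩
    · have h1 : ‖u t‖ ≤ ‖u t - u a‖ + ‖u a‖ := by
        have := norm_add_le (u t - u a) (u a)
        rwa [sub_add_cancel] at this
      have h2 := hs.hun
      linarith
    · have h2 := hs.hen
      linarith
    · have h2 := hs.hl1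
      have h3 := (abs_le.mp q5).1
      linarith

/-- A solution of the relative equations on a shorter interval. -/
theorem Rel.mono (h : Rel M e η D u x w P A a b) {c d : ℝ} (hac : a ≤ c) (hdb : d ≤ b) :
    Rel M e η D u x w P A c d where
  cD := h.cD.mono (Icc_subset_Icc hac hdb)
  cu := h.cu.mono (Icc_subset_Icc hac hdb)
  cx := h.cx.mono (Icc_subset_Icc hac hdb)
  cw := h.cw.mono (Icc_subset_Icc hac hdb)
  dD := fun t ht => h.dD t (Ioo_subset_Ioo hac hdb ht)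
  du := fun t ht => h.du t (Ioo_subset_Ioo hac hdb ht)
  dx := fun t ht => h.dx t (Ioo_subset_Ioo hac hdb ht)
  dw := fun t ht => h.dw t (Ioo_subset_Ioo hac hdb ht)
  hM1 := h.hM1
  hM2 := h.hM2
  ne := fun t ht => h.ne t (Icc_subset_Icc hac hdb ht)
  he := h.he
  hη := h.hη
  hP := fun t ht => h.hP t (Ioo_subset_Ioo hac hdb ht)
  hA := fun t ht => h.hA t (Ioo_subset_Ioo hac hdb ht)

/-- The outer body flies away with speed at least `6 / 5`. -/
theorem Rel.far (h : Rel M e η D u x w P A a b) (hs : Start M e (D a) (u a) (x a) (w a))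
    (hηb : η * (b - a) ≤ 1 / 2000) {t : ℝ} (ht : t ∈ Icc a b) :
    738 / 1000 + (6 / 5) * (t - a) ≤ ⟪D t, e⟫ := by
  have hg := h.good hs hηb
  have h1 := mono_of_deriv (φ := fun s => ⟪D s, e⟫ - (6 / 5) * s)
    (φ' := fun s => ⟪u s, e⟫ - 6 / 5) ht.1
    (((h.cD.inner continuousOn_const).mono (Icc_subset_Icc le_rfl ht.2)).sub (by fun_prop))
    (by
      intro s hs'
      have h2 := h.dX (t := s) ⟨hs'.1, hs'.2.trans_le ht.2⟩
      have h3 := (hasDerivAt_id s).const_mul (6 / 5)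
      refine HasDerivAt.congr_deriv (h2.sub h3) ?_
      ring)
    (by
      intro s hs'
      have := (hg s ⟨hs'.1.le, hs'.2.le.trans ht.2⟩).2
      linarith)
  have h4 := hs.hD
  linarith

end Boot

end FltM
end Pool.Agent.NBody
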