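import Mathlib
import Pool.Agent.NBody.ThGunMDefs
import Pool.Agent.NBody.ThRelM
import Pool.Agent.NBody.ThFlight

/-!
The flight after the handover time for masses near one.
-/

set_option autoImplicit false
open scoped RealInnerProductSpace
open Set Finset Filter Topology

namespace Pool.Agent.NBody
namespace FltM

open Flt (ker_neg ker_zero ker_sub_le' ker_le mono_of_deriv lam dirE norm_dirE rD rU rX rW
  rD_eq rU_eq rX_eq rW_eq rU_norm rX_norm rW_norm rXW rU_inner inner3 norm_sq3)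
open LinM (rel)

theorem accM_zero_eq (m : Fin 3 → ℝ) (q : Fin 3 → V3) :
    accM m q 0 = -(m 1 • Flt.ker (q 0 - q 1)) - m 2 • Flt.ker (q 0 - q 2) := by
  have h0 : accM m q 0 = m 0 • Flt.ker (q 0 - q 0) + m 1 • Flt.ker (q 1 - q 0) +
      m 2 • Flt.ker (q 2 - q 0) := by
    unfold accM
    rw [Fin.sum_univ_three]
    unfold Flt.ker
    simp only [smul_smul, mul_one_div]
  rw [h0, sub_self, ker_zero, ← neg_sub (q 0) (q 1), ← neg_sub (q 0) (q 2), ker_neg, ker_neg]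
  module

theorem accM_one_eq (m : Fin 3 → ℝ) (q : Fin 3 → V3) :
    accM m q 1 = m 0 • Flt.ker (q 0 - q 1) + m 2 • Flt.ker (q 2 - q 1) := by
  have h0 : accM m q 1 = m 0 • Flt.ker (q 0 - q 1) + m 1 • Flt.ker (q 1 - q 1) +
      m 2 • Flt.ker (q 2 - q 1) := by
    unfold accM
    rw [Fin.sum_univ_three]
    unfold Flt.ker
    simp only [smul_smul, mul_one_div]
  rw [h0, sub_self, ker_zero, smul_zero, add_zero]

theorem accM_two_eq (m : Fin 3 → ℝ) (q : Fin 3 → V3) :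
    accM m q 2 = m 0 • Flt.ker (q 0 - q 2) - m 1 • Flt.ker (q 2 - q 1) := by
  have h0 : accM m q 2 = m 0 • Flt.ker (q 0 - q 2) + m 1 • Flt.ker (q 1 - q 2) +
      m 2 • Flt.ker (q 2 - q 2) := by
    unfold accM
    rw [Fin.sum_univ_three]
    unfold Flt.ker
    simp only [smul_smul, mul_one_div]
  rw [h0, sub_self, ker_zero, smul_zero, add_zero, ← neg_sub (q 2) (q 1), ker_neg]
  module

section Jacobi

variable {m : Fin 3 → ℝ} {T η : ℝ} {f Q V : ℝ → Fin 3 → V3} {e : V3}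

theorem hasDerivAt_q (h : IsSolM m T f Q V) {t : ℝ} (ht : t ∈ Ioo (0:ℝ) T) (k : Fin 3) :
    HasDerivAt (fun s => Q s k) (V t k) t :=
  (h.dq t (Ioo_subset_Icc_self ht) k).hasDerivAt (Icc_mem_nhds ht.1 ht.2)

theorem hasDerivAt_v (h : IsSolM m T f Q V) {t : ℝ} (ht : t ∈ Ioo (0:ℝ) T) (k : Fin 3) :
    HasDerivAt (fun s => V s k) (accM m (Q t) k + f t k) t :=
  (h.dv t (Ioo_subset_Icc_self ht) k).hasDerivAt (Icc_mem_nhds ht.1 ht.2)

theorem cont_q (h : IsSolM m T f Q V) (k : Fin 3) : ContinuousOn (fun s => Q s k) (Icc 0 T) :=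
  fun t ht => (h.dq t ht k).continuousWithinAt

theorem cont_v (h : IsSolM m T f Q V) (k : Fin 3) : ContinuousOn (fun s => V s k) (Icc 0 T) :=
  fun t ht => (h.dv t ht k).continuousWithinAt

/-- the masses -/
theorem mass_bounds (hm : ∀ k, |m k - 1| ≤ 1 / 10000) (k : Fin 3) :
    9999 / 10000 ≤ m k ∧ m k ≤ 10001 / 10000 := by
  have := abs_le.mp (hm k)
  constructor <;> linarith [this.1, this.2]

/-- The distance of the outer body from the two bodies of the pair. -/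
theorem outer_distM (hm : ∀ k, |m k - 1| ≤ 1 / 10000) {q : Fin 3 → V3} (he : ‖e‖ ≤ 1)
    (hx : ‖q 2 - q 1‖ ≤ 61 / 250) :
    ⟪rel m q, e⟫ - 1 / 8 ≤ ‖q 0 - q 1‖ ∧ ⟪rel m q, e⟫ - 1 / 8 ≤ ‖q 0 - q 2‖ := by
  have b1 := mass_bounds hm 1
  have b2 := mass_bounds hm 2
  have hM : 0 < m 1 + m 2 := by linarith [b1.1, b2.1]
  have hMne : m 1 + m 2 ≠ 0 := hM.ne'
  have hxe : |⟪q 2 - q 1, e⟫| ≤ 61 / 250 := by
    refine (abs_real_inner_le_norm _ _).trans ?_
    calc ‖q 2 - q 1‖ * ‖e‖ ≤ ‖q 2 - q 1‖ * 1 := mul_le_mul_of_nonneg_left he (norm_nonneg _)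
      _ ≤ 61 / 250 := by linarith
  have h1 : ∀ z : V3, ⟪z, e⟫ ≤ ‖z‖ := by
    intro z
    refine (real_inner_le_norm _ _).trans ?_
    calc ‖z‖ * ‖e‖ ≤ ‖z‖ * 1 := mul_le_mul_of_nonneg_left he (norm_nonneg _)
      _ = ‖z‖ := mul_one _
  have w2 : 0 ≤ (m 1 + m 2)⁻¹ * m 2 ∧ (m 1 + m 2)⁻¹ * m 2 ≤ 501 / 1000 := by
    constructor
    · apply mul_nonneg (inv_nonneg.mpr hM.le)
      linarith [b2.1]
    · rw [inv_mul_le_iff₀ hM]
      linarith [b1.1, b1.2, b2.1, b2.2]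
  have w1 : 0 ≤ (m 1 + m 2)⁻¹ * m 1 ∧ (m 1 + m 2)⁻¹ * m 1 ≤ 501 / 1000 := by
    constructor
    · apply mul_nonneg (inv_nonneg.mpr hM.le)
      linarith [b1.1]
    · rw [inv_mul_le_iff₀ hM]
      linarith [b1.1, b1.2, b2.1, b2.2]
  have hone : (m 1 + m 2)⁻¹ * m 1 + (m 1 + m 2)⁻¹ * m 2 = 1 := by
    rw [← mul_add, inv_mul_cancel₀ hMne]
  have e1 : q 0 - q 1 = rel m q + ((m 1 + m 2)⁻¹ * m 2) • (q 2 - q 1) := by
    have : q 1 = ((m 1 + m 2)⁻¹ * m 1 + (m 1 + m 2)⁻¹ * m 2) • q 1 := by rw [hone, one_smul]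
    unfold rel
    conv_lhs => rw [this]
    module
  have e2 : q 0 - q 2 = rel m q - ((m 1 + m 2)⁻¹ * m 1) • (q 2 - q 1) := by
    have : q 2 = ((m 1 + m 2)⁻¹ * m 1 + (m 1 + m 2)⁻¹ * m 2) • q 2 := by rw [hone, one_smul]
    unfold rel
    conv_lhs => rw [this]
    module
  obtain ⟨a1, a2⟩ := abs_le.mp hxe
  constructor
  · have h2 := h1 (q 0 - q 1)
    have h3 : ⟪q 0 - q 1, e⟫ = ⟪rel m q, e⟫ + ((m 1 + m 2)⁻¹ * m 2) * ⟪q 2 - q 1, e⟫ := by
      conv_lhs => rw [e1]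
      rw [inner_add_left, real_inner_smul_left (q 2 - q 1)]
    have h4 : -(1 / 8) ≤ ((m 1 + m 2)⁻¹ * m 2) * ⟪q 2 - q 1, e⟫ := by nlinarith [w2.1, w2.2]
    linarith
  · have h2 := h1 (q 0 - q 2)
    have h3 : ⟪q 0 - q 2, e⟫ = ⟪rel m q, e⟫ - ((m 1 + m 2)⁻¹ * m 1) * ⟪q 2 - q 1, e⟫ := by
      conv_lhs => rw [e2]
      rw [inner_sub_left, real_inner_smul_left (q 2 - q 1)]
    have h4 : ((m 1 + m 2)⁻¹ * m 1) * ⟪q 2 - q 1, e⟫ ≤ 1 / 8 := by nlinarith [w1.1, w1.2]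
    linarith

theorem rel_norm_le (hm : ∀ k, |m k - 1| ≤ 1 / 10000) {q : Fin 3 → V3} {c : ℝ}
    (hq : ∀ k, ‖q k‖ ≤ c) : ‖rel m q‖ ≤ 2 * c := by
  have b1 := mass_bounds hm 1
  have b2 := mass_bounds hm 2
  have hM : 0 < m 1 + m 2 := by linarith [b1.1, b2.1]
  unfold rel
  refine (norm_sub_le _ _).trans ?_
  have h1 : ‖(m 1 + m 2)⁻¹ • (m 1 • q 1 + m 2 • q 2)‖ ≤ c := by
    rw [norm_smul, Real.norm_of_nonneg (inv_nonneg.mpr hM.le), inv_mul_le_iff₀ hM]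
    refine (norm_add_le _ _).trans ?_
    rw [norm_smul, norm_smul, Real.norm_of_nonneg (by linarith [b1.1] : 0 ≤ m 1),
      Real.norm_of_nonneg (by linarith [b2.1] : 0 ≤ m 2)]
    have h2 := mul_le_mul_of_nonneg_left (hq 1) (by linarith [b1.1] : 0 ≤ m 1)
    have h3 := mul_le_mul_of_nonneg_left (hq 2) (by linarith [b2.1] : 0 ≤ m 2)
    linarith
  linarith [hq 0]

/-- the relative acceleration of the outer body -/
theorem rel_acc (q g : Fin 3 → V3) :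
    rel m (fun k => accM m q k + g k) =
      -(1 + m 0 * (m 1 + m 2)⁻¹) • (m 1 • Flt.ker (q 0 - q 1) + m 2 • Flt.ker (q 0 - q 2)) + rel m g := by
  unfold rel
  simp only [accM_zero_eq, accM_one_eq, accM_two_eq]
  module

theorem hasDerivAt_rel {F F' : ℝ → Fin 3 → V3} {t : ℝ}
    (h : ∀ k, HasDerivAt (fun s => F s k) (F' t k) t) :
    HasDerivAt (fun s => rel m (F s)) (rel m (F' t)) t := by
  unfold rel
  exact (h 0).sub ((((h 1).const_smul (m 1)).add ((h 2).const_smul (m 2))).const_smul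
    (m 1 + m 2)⁻¹)

theorem cont_rel {F : ℝ → Fin 3 → V3} {s : Set ℝ} (h : ∀ k, ContinuousOn (fun t => F t k) s) :
    ContinuousOn (fun t => rel m (F t)) s := by
  unfold rel
  exact (h 0).sub ((((h 1).const_smul (m 1)).add ((h 2).const_smul (m 2))).const_smul
    (m 1 + m 2)⁻¹)

/-- The relative motion of a solution. -/
theorem rel_of_isSolM (hm : ∀ k, |m k - 1| ≤ 1 / 10000) (h : IsSolM m T f Q V)
    (hf : ∀ t ∈ Icc (0:ℝ) T, ∀ k, ‖f t k‖ ≤ η) (hη : 0 ≤ η) (he : ‖e‖ ≤ 1) :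
    Rel (m 1 + m 2) e η (fun t => rel m (Q t)) (fun t => rel m (V t))
      (fun t => Q t 2 - Q t 1) (fun t => V t 2 - V t 1)
      (fun t => m 0 • (Flt.ker (Q t 0 - Q t 2) - Flt.ker (Q t 0 - Q t 1)) + (f t 2 - f t 1))
      (fun t => -(1 + m 0 * (m 1 + m 2)⁻¹) •
        (m 1 • Flt.ker (Q t 0 - Q t 1) + m 2 • Flt.ker (Q t 0 - Q t 2)) + rel m (f t)) 0 T := by
  have b0 := mass_bounds hm 0
  have b1 := mass_bounds hm 1
  have b2 := mass_bounds hm 2
  have hM : 0 < m 1 + m 2 := by linarith [b1.1, b2.1]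
  exact
  { hM1 := by linarith [b1.1, b2.1]
    hM2 := by linarith [b1.2, b2.2]
    cD := cont_rel (cont_q h)
    cu := cont_rel (cont_v h)
    cx := (cont_q h 2).sub (cont_q h 1)
    cw := (cont_v h 2).sub (cont_v h 1)
    dD := fun t ht => hasDerivAt_rel (hasDerivAt_q h ht)
    du := fun t ht => by
      have h1 := hasDerivAt_rel (m := m) (F' := fun t k => accM m (Q t) k + f t k)
        (hasDerivAt_v h ht)
      rwa [rel_acc] at h1
    dx := fun t ht => (hasDerivAt_q h ht 2).sub (hasDerivAt_q h ht 1)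
    dw := fun t ht => by
      refine HasDerivAt.congr_deriv ((hasDerivAt_v h ht 2).sub (hasDerivAt_v h ht 1)) ?_
      have h1 : ((m 1 + m 2) / ‖Q t 2 - Q t 1‖ ^ 3) • (Q t 2 - Q t 1) =
          (m 1 + m 2) • Flt.ker (Q t 2 - Q t 1) := by
        unfold Flt.ker
        rw [smul_smul]
        congr 1
        ring
      rw [h1, accM_one_eq, accM_two_eq]
      module
    ne := fun t ht => by
      have := h.nc t ht 2 1 (by decide)
      rwa [sub_ne_zero]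
    he := he
    hη := hη
    hP := fun t ht hx hD => by
      have htI := Ioo_subset_Icc_self ht
      obtain ⟨d1, d2⟩ := outer_distM hm he hx
      have hd : 0 < ⟪rel m (Q t), e⟫ - 1 / 8 := by linarith
      have h1 := ker_sub_le' hd d2 d1
      have h2 : (Q t 0 - Q t 2) - (Q t 0 - Q t 1) = -(Q t 2 - Q t 1) := by abel
      rw [h2, norm_neg] at h1
      have h3 : ‖f t 2 - f t 1‖ ≤ 2 * η := by
        refine (norm_sub_le _ _).trans ?_
        linarith [hf t htI 2, hf t htI 1]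
      refine (norm_add_le _ _).trans ?_
      refine add_le_add ?_ h3
      rw [norm_smul, Real.norm_of_nonneg (by linarith [b0.1] : 0 ≤ m 0)]
      calc m 0 * ‖Flt.ker (Q t 0 - Q t 2) - Flt.ker (Q t 0 - Q t 1)‖
          ≤ (1001 / 1000) * (2 * ‖Q t 2 - Q t 1‖ / (⟪rel m (Q t), e⟫ - 1 / 8) ^ 3) :=
            mul_le_mul (by linarith [b0.2]) h1 (norm_nonneg _) (by norm_num)
        _ = (2002 / 1000) * ‖Q t 2 - Q t 1‖ / (⟪rel m (Q t), e⟫ - 1 / 8) ^ 3 := by ring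
    hA := fun t ht hx hD => by
      have htI := Ioo_subset_Icc_self ht
      obtain ⟨d1, d2⟩ := outer_distM hm he hx
      have hd : 0 < ⟪rel m (Q t), e⟫ - 1 / 8 := by linarith
      have h1 : ‖Flt.ker (Q t 0 - Q t 1)‖ ≤ 1 / (⟪rel m (Q t), e⟫ - 1 / 8) ^ 2 := ker_le hd d1
      have h2 : ‖Flt.ker (Q t 0 - Q t 2)‖ ≤ 1 / (⟪rel m (Q t), e⟫ - 1 / 8) ^ 2 := ker_le hd d2
      have h3 : ‖rel m (f t)‖ ≤ 2 * η := rel_norm_le hm (hf t htI)
      refine (norm_add_le _ _).trans ?_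
      refine add_le_add ?_ h3
      have hc : 0 ≤ 1 + m 0 * (m 1 + m 2)⁻¹ := by
        have : 0 ≤ m 0 * (m 1 + m 2)⁻¹ := mul_nonneg (by linarith [b0.1]) (inv_nonneg.mpr hM.le)
        linarith
      rw [norm_smul, norm_neg, Real.norm_of_nonneg hc]
      set ι := 1 / (⟪rel m (Q t), e⟫ - 1 / 8) ^ 2 with hι
      have hι0 : 0 ≤ ι := by positivity
      have h5 : ‖m 1 • Flt.ker (Q t 0 - Q t 1) + m 2 • Flt.ker (Q t 0 - Q t 2)‖ ≤ (m 1 + m 2) * ι := by
        refine (norm_add_le _ _).trans ?_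
        rw [norm_smul, norm_smul, Real.norm_of_nonneg (by linarith [b1.1] : 0 ≤ m 1),
          Real.norm_of_nonneg (by linarith [b2.1] : 0 ≤ m 2)]
        have e1 := mul_le_mul_of_nonneg_left h1 (by linarith [b1.1] : 0 ≤ m 1)
        have e2 := mul_le_mul_of_nonneg_left h2 (by linarith [b2.1] : 0 ≤ m 2)
        linarith
      have h6 : (3001 / 1000) / (⟪rel m (Q t), e⟫ - 1 / 8) ^ 2 = (3001 / 1000) * ι := by
        rw [hι]; ring
      rw [h6]
      have h7 : (1 + m 0 * (m 1 + m 2)⁻¹) * ((m 1 + m 2) * ι) = (m 0 + m 1 + m 2) * ι := by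
        field_simp
        ring
      calc (1 + m 0 * (m 1 + m 2)⁻¹) * ‖m 1 • Flt.ker (Q t 0 - Q t 1) + m 2 • Flt.ker (Q t 0 - Q t 2)‖
          ≤ (1 + m 0 * (m 1 + m 2)⁻¹) * ((m 1 + m 2) * ι) := mul_le_mul_of_nonneg_left h5 hc
        _ = (m 0 + m 1 + m 2) * ι := h7
        _ ≤ (3001 / 1000) * ι := by
          apply mul_le_mul_of_nonneg_right _ hι0
          linarith [b0.2, b1.2, b2.2] }

end Jacobi

section Final

theorem rD_inner' : 7393 / 10000 ≤ ⟪rD, dirE⟫ := by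
  rw [inner3]
  simp [rD, dirE]
  norm_num

/-- The state near the reference values satisfies the conditions at the handover time. -/
theorem start_of_nearM {M : ℝ} (hM : 19998 / 10000 ≤ M) {D u x w : V3}
    (hD : ‖D - rD‖ ≤ 101 / 100000) (hu : ‖u - rU‖ ≤ 402 / 10000)
    (hx : ‖x - rX‖ ≤ 1 / 1000) (hw : ‖w - rW‖ ≤ 1 / 25) : Start M dirE D u x w := by
  have hin : ∀ z : V3, -‖z‖ ≤ ⟪z, dirE⟫ := by
    intro z
    have h1 := abs_real_inner_le_norm z dirE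
    rw [norm_dirE, mul_one] at h1
    exact (abs_le.mp h1).1
  have ex : ‖x‖ ≤ ‖rX‖ + 1 / 1000 ∧ ‖rX‖ - 1 / 1000 ≤ ‖x‖ := by
    have h1 := norm_sub_norm_le x rX
    have h2 := norm_sub_norm_le rX x
    rw [norm_sub_rev] at h2
    constructor <;> linarith
  have ew : ‖w‖ ≤ ‖rW‖ + 1 / 25 ∧ ‖rW‖ - 1 / 25 ≤ ‖w‖ := by
    have h1 := norm_sub_norm_le w rW
    have h2 := norm_sub_norm_le rW w
    rw [norm_sub_rev] at h2
    constructor <;> linarith
  obtain ⟨x1, x2⟩ := rX_norm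
  obtain ⟨w1, w2⟩ := rW_norm
  have X1 : 137 / 1000 ≤ ‖x‖ := by linarith [ex.2]
  have X2 : ‖x‖ ≤ 1391 / 10000 := by linarith [ex.1]
  have W2 : ‖w‖ ≤ 32117 / 10000 := by linarith [ew.1]
  have S : Flt.lam x w ≥ 13 / 100 := by
    -- the angular momentum, as in the case of masses one
    have h1 : ⟪x, w⟫ = ⟪rX, rW⟫ + ⟪rX, w - rW⟫ + ⟪x - rX, rW⟫ + ⟪x - rX, w - rW⟫ := by
      simp only [inner_sub_left, inner_sub_right]
      ring
    have h2 : |⟪rX, w - rW⟫| ≤ (1381 / 10000) * (1 / 25) :=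
      (abs_real_inner_le_norm _ _).trans (mul_le_mul x2 hw (norm_nonneg _) (by norm_num))
    have h3 : |⟪x - rX, rW⟫| ≤ (1 / 1000) * (31717 / 10000) :=
      (abs_real_inner_le_norm _ _).trans (mul_le_mul hx w2 (norm_nonneg _) (by norm_num))
    have h4 : |⟪x - rX, w - rW⟫| ≤ (1 / 1000) * (1 / 25) :=
      (abs_real_inner_le_norm _ _).trans (mul_le_mul hx hw (norm_nonneg _) (by norm_num))
    have h5 : |⟪x, w⟫| ≤ 2212 / 10000 := by
      rw [h1, rXW]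
      rw [abs_le] at h2 h3 h4 ⊢
      norm_num at h2 h3 h4 ⊢
      constructor <;> linarith [h2.1, h2.2, h3.1, h3.2, h4.1, h4.2]
    have h6 : ⟪x, w⟫ ^ 2 ≤ (2212 / 10000) ^ 2 := by
      rw [← sq_abs]
      exact pow_le_pow_left₀ (abs_nonneg _) h5 2
    have W1 : 31316 / 10000 ≤ ‖w‖ := by linarith [ew.2]
    have h7 : ((137 / 1000) * (31316 / 10000) : ℝ) ^ 2 ≤ ‖x‖ ^ 2 * ‖w‖ ^ 2 := by
      rw [← mul_pow]
      apply pow_le_pow_left₀ (by norm_num)
      exact mul_le_mul X1 W1 (by norm_num) (norm_nonneg _)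
    unfold Flt.lam
    norm_num at h6 h7 ⊢
    linarith
  constructor
  · have h1 := hin (D - rD)
    rw [inner_sub_left] at h1
    have h2 := rD_inner'
    linarith
  · have h1 := hin (u - rU)
    rw [inner_sub_left] at h1
    have h2 := rU_inner
    linarith
  · have h1 := norm_sub_norm_le u rU
    have h2 := rU_norm
    linarith
  · unfold en
    have h1 : ‖w‖ ^ 2 ≤ (32117 / 10000) ^ 2 := pow_le_pow_left₀ (norm_nonneg _) W2 2
    have hx0 : 0 < ‖x‖ := by linarith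
    have h2 : (19998 / 10000) / (1391 / 10000 : ℝ) ≤ M / ‖x‖ :=
      div_le_div₀ (by linarith) hM hx0 X2
    have h3 : (14376 / 1000 : ℝ) ≤ (19998 / 10000) / (1391 / 10000 : ℝ) := by norm_num
    norm_num at h1 h2 h3 ⊢
    linarith
  · exact S

/-- the mass weighted centre differs little from the midpoint -/
theorem rel_near {m : Fin 3 → ℝ} (hm : ∀ k, |m k - 1| ≤ 1 / 10000) {q g : Fin 3 → V3} {d L : ℝ}
    (hq : ∀ k, ‖q k - g k‖ ≤ d) (hL : ‖q 2 - q 1‖ ≤ L) :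
    ‖rel m q - (g 0 - (1 / 2 : ℝ) • (g 1 + g 2))‖ ≤ 2 * d + (51 / 1000000) * L := by
  have b1 := mass_bounds hm 1
  have b2 := mass_bounds hm 2
  have hM : 0 < m 1 + m 2 := by linarith [b1.1, b2.1]
  have hMne : m 1 + m 2 ≠ 0 := hM.ne'
  have e1 : rel m q = (q 0 - (1 / 2 : ℝ) • (q 1 + q 2)) +
      ((m 1 + m 2)⁻¹ * ((m 1 - m 2) / 2)) • (q 2 - q 1) := by
    unfold rel
    have h1 : (m 1 + m 2)⁻¹ * m 1 = 1 / 2 + (m 1 + m 2)⁻¹ * ((m 1 - m 2) / 2) := by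
      field_simp
      ring
    have h2 : (m 1 + m 2)⁻¹ * m 2 = 1 / 2 - (m 1 + m 2)⁻¹ * ((m 1 - m 2) / 2) := by
      field_simp
      ring
    rw [smul_add, smul_smul, smul_smul, h1, h2]
    module
  have e2 : rel m q - (g 0 - (1 / 2 : ℝ) • (g 1 + g 2)) =
      (q 0 - g 0) - (1 / 2 : ℝ) • ((q 1 - g 1) + (q 2 - g 2)) +
      ((m 1 + m 2)⁻¹ * ((m 1 - m 2) / 2)) • (q 2 - q 1) := by
    rw [e1]
    module
  rw [e2]
  have h3 : ‖(q 0 - g 0) - (1 / 2 : ℝ) • ((q 1 - g 1) + (q 2 - g 2))‖ ≤ 2 * d := by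
    have h4 := norm_sub_le (q 0 - g 0) ((1 / 2 : ℝ) • ((q 1 - g 1) + (q 2 - g 2)))
    rw [norm_smul, Real.norm_of_nonneg (by norm_num : (0:ℝ) ≤ 1 / 2)] at h4
    have h5 := norm_add_le (q 1 - g 1) (q 2 - g 2)
    linarith [hq 0, hq 1, hq 2]
  have h6 : ‖((m 1 + m 2)⁻¹ * ((m 1 - m 2) / 2)) • (q 2 - q 1)‖ ≤ (51 / 1000000) * L := by
    rw [norm_smul, Real.norm_eq_abs]
    apply mul_le_mul _ hL (norm_nonneg _) (by norm_num)
    rw [abs_mul, abs_of_pos (inv_pos.mpr hM), inv_mul_le_iff₀ hM]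
    rw [abs_le]
    constructor <;> linarith [b1.1, b1.2, b2.1, b2.2]
  refine (norm_add_le _ _).trans ?_
  linarith

/-- G2: the flight of the gun for masses near one. -/
theorem flightPropM : FlightPropM dirE (1 / 80) 18 (1 / 10000) := by
  intro m hm T η hT hη hη1 hηT f Q V h hf hQ hV
  have b1 := mass_bounds hm 1
  have b2 := mass_bounds hm 2
  have hg0 : (0:ℝ) ≤ gunT := by unfold gunT; norm_num
  have hX : ‖(Q gunT 2 - Q gunT 1) - rX‖ ≤ 1 / 1000 := by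
    rw [← rX_eq]
    have e1 : (Q gunT 2 - Q gunT 1) - (gunP 2 - gunP 1) =
      (Q gunT 2 - gunP 2) - (Q gunT 1 - gunP 1) := by module
    rw [e1]
    have h1 := norm_sub_le (Q gunT 2 - gunP 2) (Q gunT 1 - gunP 1)
    linarith [hQ 1, hQ 2]
  have hW : ‖(V gunT 2 - V gunT 1) - rW‖ ≤ 1 / 25 := by
    rw [← rW_eq]
    have e1 : (V gunT 2 - V gunT 1) - (gunW 2 - gunW 1) =
      (V gunT 2 - gunW 2) - (V gunT 1 - gunW 1) := by module
    rw [e1]
    have h1 := norm_sub_le (V gunT 2 - gunW 2) (V gunT 1 - gunW 1)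
    linarith [hV 1, hV 2]
  have hXn : ‖Q gunT 2 - Q gunT 1‖ ≤ 14 / 100 := by
    have h1 := norm_sub_norm_le (Q gunT 2 - Q gunT 1) rX
    linarith [rX_norm.2]
  have hWn : ‖V gunT 2 - V gunT 1‖ ≤ 33 / 10 := by
    have h1 := norm_sub_norm_le (V gunT 2 - V gunT 1) rW
    linarith [rW_norm.2]
  have hD : ‖rel m (Q gunT) - rD‖ ≤ 101 / 100000 := by
    have h1 := rel_near hm hQ hXn
    rw [rD_eq] at h1
    linarith
  have hU : ‖rel m (V gunT) - rU‖ ≤ 402 / 10000 := by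
    have h1 := rel_near hm hV hWn
    rw [rU_eq] at h1
    linarith
  have hs := start_of_nearM (M := m 1 + m 2) (by linarith [b1.1, b2.1]) hD hU hX hW
  have hR := (rel_of_isSolM hm h hf hη norm_dirE.le).mono hg0 (le_refl T)
  have hηT' : η * (T - gunT) ≤ 1 / 2000 := by
    have h1 : η * (T - gunT) ≤ η * T := mul_le_mul_of_nonneg_left (by linarith) hη
    linarith
  have hgood := hR.good hs hηT'
  have key : ∀ t ∈ Icc gunT T, 1 / 80 ≤ ‖Q t 2 - Q t 1‖ ∧ ‖V t 2 - V t 1‖ ≤ 18 ∧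
      ‖Q t 2 - Q t 1‖ ≤ 61 / 250 := by
    intro t ht
    obtain ⟨G, hg⟩ := hgood t ht
    have hne := hR.ne t ht
    obtain ⟨p1, p2, p3, p4⟩ := pair_small hR.hM2 hne G.hen
    obtain ⟨p5, p6⟩ := pair_large hR.hM2 hne G.hen G.hlam
    exact ⟨p5, p6, p1⟩
  refine ⟨⟨?_, ?_, ?_, ?_⟩, ?_, ?_, ?_⟩
  · intro t ht
    linarith [(key t ht).2.2]
  · intro t ht
    linarith [(hgood t ht).1.hun]
  · intro t ht
    have h1 := hR.far hs hηT' ht
    linarith [ht.1]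
  · intro t ht
    have h1 := (hgood t ht).1.hlam
    unfold Flt.lam at h1
    linarith
  · intro t ht
    linarith [(hgood t ht).2]
  · intro t ht
    exact (key t ht).1
  · intro t ht
    exact (key t ht).2.1

end Final

end FltM
end Pool.Agent.NBody
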