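import Mathlib
import Pool.Agent.NBody.FrontCrit

/-!
The escape criterion for `N` bodies of mass `1 / N`.
-/

set_option autoImplicit false
open scoped RealInnerProductSpace
open Set Finset Filter Topology

namespace Pool.Agent.NBody

/-- `N` bodies of mass `1 / N`: a body which is ahead of all the others by `d` and has speed at
least `u`, with `u ^ 2 * d > 864 log (1 + N)`, never comes back. -/
theorem front {N : ℕ} (hN : 1 ≤ N) {S : Set (Ph N)} {ψ : Ph N → ℝ} {φ : ℝ → Ph N → Ph N}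
    (hset : Setting (fun _ : Fin N => 1 / (N : ℝ)) S ψ φ) {x : Ph N} (hx : x ∈ S) (t : ℝ)
    (i : Fin N) (e : V3) (he : ‖e‖ ≤ 1) (d u : ℝ) (hd : 0 < d) (hu : 0 < u)
    (hfront : ∀ j, j ≠ i → ⟪(φ t x).1 j, e⟫ + d ≤ ⟪(φ t x).1 i, e⟫)
    (hspeed : u ≤ ⟪(N : ℝ) • (φ t x).2 i, e⟫)
    (hbig : 864 * Real.log (1 + N) < u ^ 2 * d) :
    Wandering S φ x := by
  have hNr : (0:ℝ) < N := by exact_mod_cast hN
  refine wandering_of_front (m := fun _ : Fin N => 1 / (N : ℝ)) (fun _ => by positivity)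
    (T := 1) (μ := 1 / N) ?_ (by positivity) (fun _ => le_rfl) hset hx t he i hd hu hfront ?_ ?_
  · simp only [Finset.sum_const, Finset.card_univ, Fintype.card_fin, nsmul_eq_mul]
    rw [mul_one_div_cancel hNr.ne']
  · rw [real_inner_smul_left] at hspeed
    rw [one_div, inv_mul_le_iff₀ hNr]
    exact hspeed
  · unfold Kf
    have h1 : (1:ℝ) / (1 / N) = N := by rw [one_div_one_div]
    rw [h1]
    linarith

end Pool.Agent.NBody
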