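import Pool.Agent.NBody.ThGunData1
import Pool.Agent.NBody.ThGunData2
import Pool.Agent.NBody.ThGunData3
import Pool.Agent.NBody.ThGunData4
import Pool.Agent.NBody.ThGunData5
import Pool.Agent.NBody.ThGunData6

/-!
The enclosure of the gun.
-/

set_option autoImplicit false

namespace Pool.Agent.NBody

open RC

theorem gunList_init : okInit gp0 ge0 = true := by decide +kernel

theorem gunList_chain : okChain gp0 ge0 (gl1 ++ gl2 ++ gl3 ++ gl4 ++ gl5 ++ gl6) = true := by
  decide +kernel

theorem gunList_len : lenN gp0 (gl1 ++ gl2 ++ gl3 ++ gl4 ++ gl5 ++ gl6) = 340000000 := by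
  decide +kernel

theorem gunList_check : ∀ p ∈ gl1 ++ gl2 ++ gl3 ++ gl4 ++ gl5 ++ gl6, p.1.check = true := by
  have h1 := List.all_eq_true.mp gl1_ok
  have h2 := List.all_eq_true.mp gl2_ok
  have h3 := List.all_eq_true.mp gl3_ok
  have h4 := List.all_eq_true.mp gl4_ok
  have h5 := List.all_eq_true.mp gl5_ok
  have h6 := List.all_eq_true.mp gl6_ok
  intro p hp
  simp only [List.mem_append] at hp
  rcases hp with ((((hp | hp) | hp) | hp) | hp) | hp
  · exact h1 p hp
  · exact h2 p hp
  · exact h3 p hp
  · exact h4 p hp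
  · exact h5 p hp
  · exact h6 p hp

/-- (A1) the enclosure up to the time `gunT` -/
theorem gun_enc : GunEnc :=
  gunEnc_of gp0 ge0 _ gunList_init gunList_chain gp0_ok gunList_check gunList_len

end Pool.Agent.NBody
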