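import Mathlib
import Pool.Agent.NBody.ThGunEncM
import Pool.Agent.NBody.ThGunEncV

/-!
The enclosure of the gun for masses near one and small initial velocities.
-/

set_option autoImplicit false
open scoped RealInnerProductSpace
open Set Finset Filter Topology

namespace Pool.Agent.NBody

/-- (M6a) the enclosure up to the time `gunT` for masses near one and small initial velocities -/
def GunEncVM : Prop :=
  ∃ η₁ > 0, ∀ m : Fin 3 → ℝ, (∀ k, |m k - 1| ≤ η₁) → ∀ T η : ℝ, 0 < T → 0 ≤ η → η ≤ η₁ →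
    ∀ f Q V : ℝ → Fin 3 → V3, IsSolM m T f Q V → (∀ t ∈ Icc (0 : ℝ) T, ∀ k, ‖f t k‖ ≤ η) →
    (∀ k, Q 0 k = gunS k) → (∀ k, ‖V 0 k‖ ≤ η₁) →
    ∀ t ∈ Icc (0 : ℝ) T, t ≤ gunT →
      (∀ k l, k ≠ l → 1 / 30 ≤ ‖Q t k - Q t l‖) ∧ (∀ k, ‖Q t k‖ ≤ 1) ∧ (∀ k, ‖V t k‖ ≤ 20) ∧
      (t = gunT → ∀ k, ‖Q t k - gunP k‖ ≤ 1 / 2000 ∧ ‖V t k - gunW k‖ ≤ 1 / 50)

/-- The enclosure for masses near one and small initial velocities. -/
theorem gunEncVM_of (h : GunEncV) : GunEncVM := by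
  obtain ⟨η₀, hη₀, H₀⟩ := h
  obtain ⟨η₁, hη₁, hη₁1, hη₁₀⟩ : ∃ η₁ : ℝ, 0 < η₁ ∧ η₁ ≤ 1 ∧ η₁ ≤ η₀ :=
    ⟨min 1 η₀, lt_min one_pos hη₀, min_le_left _ _, min_le_right _ _⟩
  refine ⟨η₁ / 5000, by positivity, ?_⟩
  intro m hm T η hT hη hηle f Q V hsol hf hQ0 hV0
  -- the time up to which we work
  set T₁ := min T gunT with hT₁
  have hgT : (0 : ℝ) < gunT := by
    unfold gunT
    norm_num
  have hT₁0 : 0 < T₁ := lt_min hT hgT
  have hT₁T : T₁ ≤ T := min_le_left _ _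
  -- the enclosure on `[0, t]` when the bodies are apart on `[0, t]`
  have key : ∀ t ∈ Icc (0 : ℝ) T₁, 0 < t →
      (∀ s ∈ Icc (0 : ℝ) t, ∀ k l, k ≠ l → 1 / 40 ≤ ‖Q s k - Q s l‖) →
      (∀ k l, k ≠ l → 1 / 30 ≤ ‖Q t k - Q t l‖) ∧ (∀ k, ‖Q t k‖ ≤ 1) ∧ (∀ k, ‖V t k‖ ≤ 20) ∧
      (t = gunT → ∀ k, ‖Q t k - gunP k‖ ≤ 1 / 2000 ∧ ‖V t k - gunW k‖ ≤ 1 / 50) := by
    intro t ht ht0 hsep
    have htT : t ≤ T := ht.2.trans hT₁T
    have hs : IsSol 1 t (fun t i => f t i + (accM m (Q t) i - acc 1 (Q t) i)) Q V :=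
      (hsol.restr htT).toIsSol
    have hbound : ∀ s ∈ Icc (0 : ℝ) t, ∀ k,
        ‖f s k + (accM m (Q s) k - acc 1 (Q s) k)‖ ≤ η₁ := by
      intro s hs k
      have h1 := hf s ⟨hs.1, hs.2.trans htT⟩ k
      have h2 := accM_sub_acc_le hm (by norm_num : (0 : ℝ) < 1 / 40) (hsep s hs) k
      refine (norm_add_le _ _).trans ?_
      have h3 : 3 * (η₁ / 5000 / (1 / 40 : ℝ) ^ 2) = η₁ * (24 / 25) := by
        ring
      rw [h3] at h2
      linarith
    refine H₀ t η₁ ht0 hη₁.le hη₁₀ _ Q V hs hbound (fun k => ?_) (fun k => ?_) t ⟨ht0.le, le_rfl⟩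
      (ht.2.trans (min_le_right _ _))
    · rw [hQ0 k, sub_self, norm_zero]
      exact hη₀.le
    · exact (hV0 k).trans (le_trans (by linarith) hη₁₀)
  -- the separation at the time `0`
  have hsep0 : ∀ k l, k ≠ l → 1 / 30 ≤ ‖Q 0 k - Q 0 l‖ := by
    intro k l hkl
    rw [hQ0, hQ0]
    exact gunS_sep k l hkl
  have hcontQ : ∀ k, ContinuousOn (fun s => Q s k) (Icc 0 T₁) := fun k s hs =>
    ((hsol.dq s ⟨hs.1, hs.2.trans hT₁T⟩ k).continuousWithinAt).mono
      (Icc_subset_Icc_right hT₁T)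
  have hall : ∀ t ∈ Icc (0 : ℝ) T₁, ∀ k l, k ≠ l → 1 / 40 ≤ ‖Q t k - Q t l‖ := by
    set G : ℝ → ℝ := fun s => -(min (‖Q s 0 - Q s 1‖) (min (‖Q s 0 - Q s 2‖) (‖Q s 1 - Q s 2‖)))
      with hG
    have hGc : ContinuousOn G (Icc 0 T₁) := by
      have c1 := ((hcontQ 0).sub (hcontQ 1)).norm
      have c2 := ((hcontQ 0).sub (hcontQ 2)).norm
      have c3 := ((hcontQ 1).sub (hcontQ 2)).norm
      have c4 := continuous_min.comp_continuousOn (c2.prodMk c3)
      exact (continuous_min.comp_continuousOn (c1.prodMk c4)).neg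
    have hfrom : ∀ s : ℝ, ∀ c : ℝ, G s ≤ -c → ∀ k l, k ≠ l → c ≤ ‖Q s k - Q s l‖ := by
      intro s c hs
      have h1 : c ≤ min (‖Q s 0 - Q s 1‖) (min (‖Q s 0 - Q s 2‖) (‖Q s 1 - Q s 2‖)) := by
        simp only [hG] at hs
        linarith
      have h2 := h1.trans (min_le_left _ _)
      have h3 := h1.trans ((min_le_right _ _).trans (min_le_left _ _))
      have h4 := h1.trans ((min_le_right _ _).trans (min_le_right _ _))
      intro k l hkl
      fin_cases k <;> fin_cases l <;> simp at hkl ⊢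
      · exact h2
      · exact h3
      · rw [norm_sub_rev]
        exact h2
      · exact h4
      · rw [norm_sub_rev]
        exact h3
      · rw [norm_sub_rev]
        exact h4
    have hto : ∀ s : ℝ, ∀ c : ℝ, (∀ k l, k ≠ l → c ≤ ‖Q s k - Q s l‖) → G s ≤ -c := by
      intro s c hs
      simp only [hG]
      have := le_min (hs 0 1 (by decide)) (le_min (hs 0 2 (by decide)) (hs 1 2 (by decide)))
      linarith
    have hexit := first_exit (a := 0) (b := T₁) (Z := -(1 / 40)) hGc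
      (by
        have := hto 0 (1 / 30) hsep0
        linarith)
      (by
        intro t ht hpast
        rcases ht.1.lt_or_eq with h0 | h0
        · have h1 := key t ht h0 (fun s hs => hfrom s (1 / 40) (hpast s hs))
          have := hto t (1 / 30) h1.1
          linarith
        · rw [← h0]
          have := hto 0 (1 / 30) hsep0
          linarith)
    intro t ht
    exact hfrom t (1 / 40) (hexit t ht).le
  intro t ht htg
  rcases ht.1.lt_or_eq with h0 | h0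
  · exact key t ⟨ht.1, le_min ht.2 htg⟩ h0 (fun s hs => hall s ⟨hs.1, hs.2.trans (le_min ht.2 htg)⟩)
  · subst h0
    refine ⟨hsep0, ?_, ?_, ?_⟩
    · intro k
      rw [hQ0]
      exact gunS_le k
    · intro k
      refine (hV0 k).trans ?_
      linarith
    · intro h1
      exact absurd h1 (by
        unfold gunT
        norm_num)

theorem gun_encVM : GunEncVM := gunEncVM_of gun_encV

end Pool.Agent.NBody
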