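import Pool.Agent.NBody.ThGunEnc
import Pool.Agent.NBody.ThGun
import Pool.Agent.NBody.ThFlight

/-!
The gun exists.
-/

set_option autoImplicit false

namespace Pool.Agent.NBody

theorem gun_exists : ∃ (s : Fin 3 → V3) (e : V3) (μ₀ C₀ : ℝ), 0 < μ₀ ∧ 0 < C₀ ∧
    GunShape s e ∧ GunProp s e μ₀ C₀ := by
  obtain ⟨e, μ₁, C₁, h1, h2, h3, h4, h5⟩ := gun_flight
  exact gun_of gun_enc h1 h2 h3 h4 h5

end Pool.Agent.NBody
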