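import Mathlib
import Pool.Agent.NBody.ThGun
import Pool.Agent.NBody.ThGunMDefs

/-!
The gun for masses near one, from the enclosure of its beginning and from the flight.
-/

set_option autoImplicit false
open scoped RealInnerProductSpace
open Set Finset Filter Topology

namespace Pool.Agent.NBody.LinM

theorem sum_accM {ι : Type*} [Fintype ι] (m : ι → ℝ) (q : ι → V3) :
    ∑ i, m i • accM m q i = 0 := by
  have h : ∑ i, m i • accM m q i = -∑ i, m i • accM m q i := by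
    unfold accM
    simp only [Finset.smul_sum]
    conv_lhs => rw [Finset.sum_comm]
    rw [← Finset.sum_neg_distrib]
    refine Finset.sum_congr rfl fun j _ => ?_
    rw [← Finset.sum_neg_distrib]
    refine Finset.sum_congr rfl fun i _ => ?_
    rw [norm_sub_rev (q j) (q i), ← smul_neg, ← smul_neg, neg_sub, smul_smul, smul_smul]
    congr 1
    ring
  have h2 : (2 : ℝ) • ∑ i, m i • accM m q i = 0 := by
    rw [two_smul]
    nth_rewrite 1 [h]
    exact neg_add_cancel _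
  exact (smul_eq_zero.mp h2).resolve_left two_ne_zero

theorem norm_sum3_le {m : Fin 3 → ℝ} (hm : ∀ k, |m k - 1| ≤ 1 / 10) {g : Fin 3 → V3} {C : ℝ}
    (hg : ∀ k, ‖g k‖ ≤ C) : ‖∑ k, m k • g k‖ ≤ 4 * C := by
  have hC : 0 ≤ C := (norm_nonneg _).trans (hg 0)
  refine (norm_sum_le _ _).trans ?_
  have h1 : ∀ k ∈ (Finset.univ : Finset (Fin 3)), ‖m k • g k‖ ≤ 11 / 10 * C := by
    intro k _
    have h2 := mass_le hm k
    rw [norm_smul, Real.norm_eq_abs, abs_of_nonneg (by linarith [h2.1] : 0 ≤ m k)]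
    exact mul_le_mul h2.2 (hg k) (norm_nonneg _) (by norm_num)
  refine (Finset.sum_le_sum h1).trans ?_
  rw [Finset.sum_const, Finset.card_univ, Fintype.card_fin, nsmul_eq_mul]
  push_cast
  linarith

theorem bary {m : Fin 3 → ℝ} (hm : ∀ k, |m k - 1| ≤ 1 / 10) {T η : ℝ}
    {f Q V : ℝ → Fin 3 → V3} (hs : IsSolM m T f Q V) (hη : 0 ≤ η)
    (hf : ∀ t ∈ Icc (0 : ℝ) T, ∀ k, ‖f t k‖ ≤ η) (hV : ∀ k, V 0 k = 0) :
    ∀ t ∈ Icc (0 : ℝ) T, ‖∑ k, m k • V t k‖ ≤ 4 * (η * T) ∧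
      ‖∑ k, m k • Q t k - ∑ k, m k • Q 0 k‖ ≤ 4 * (η * T) * t := by
  have hVd : ∀ t ∈ Icc (0 : ℝ) T, HasDerivWithinAt (fun t => ∑ k, m k • V t k)
      (∑ k, m k • f t k) (Icc 0 T) t := by
    intro t ht
    have h1 := HasDerivWithinAt.fun_sum (u := (Finset.univ : Finset (Fin 3)))
      (A := fun k t => m k • V t k) (A' := fun k => m k • (accM m (Q t) k + f t k))
      (x := t) (s := Icc (0:ℝ) T) (fun k _ => (hs.dv t ht k).const_smul (m k))
    have h2 : ∑ k, m k • (accM m (Q t) k + f t k) = ∑ k, m k • f t k := by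
      simp only [smul_add, Finset.sum_add_distrib]
      rw [sum_accM, zero_add]
    rw [h2] at h1
    exact h1
  have hQd : ∀ t ∈ Icc (0 : ℝ) T, HasDerivWithinAt (fun t => ∑ k, m k • Q t k)
      (∑ k, m k • V t k) (Icc 0 T) t := by
    intro t ht
    exact HasDerivWithinAt.fun_sum (u := (Finset.univ : Finset (Fin 3)))
      (A := fun k t => m k • Q t k) (A' := fun k => m k • V t k)
      (x := t) (s := Icc (0:ℝ) T) (fun k _ => (hs.dq t ht k).const_smul (m k))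
  have h0 : ∑ k, m k • V 0 k = 0 := by simp [hV]
  have hVb : ∀ t ∈ Icc (0 : ℝ) T, ‖∑ k, m k • V t k‖ ≤ 4 * (η * T) := by
    intro t ht
    have h1 := norm_image_sub_le_of_norm_deriv_le_segment' hVd
      (fun s hs' => norm_sum3_le hm (hf s (Ico_subset_Icc_self hs'))) t ht
    rw [h0, sub_zero, sub_zero] at h1
    refine h1.trans ?_
    have := mul_le_mul_of_nonneg_left ht.2 hη
    linarith
  intro t ht
  refine ⟨hVb t ht, ?_⟩
  have h1 := norm_image_sub_le_of_norm_deriv_le_segment' hQd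
      (fun s hs' => hVb s (Ico_subset_Icc_self hs')) t ht
  rwa [sub_zero] at h1

/-- a limit -/
theorem le_of_shift {X K y z₀ : ℝ} (hK : 0 ≤ K) (hz : 0 < z₀)
    (h : ∀ ζ, 0 < ζ → ζ ≤ z₀ → X ≤ K * (y + ζ)) : X ≤ K * y := by
  refine le_of_forall_pos_le_add fun ε hε => ?_
  have h1 : 0 < ε / (K + 1) := by positivity
  have h2 := h (min z₀ (ε / (K + 1))) (lt_min hz h1) (min_le_left _ _)
  have h3 : K * min z₀ (ε / (K + 1)) ≤ ε := by
    calc K * min z₀ (ε / (K + 1)) ≤ K * (ε / (K + 1)) :=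
          mul_le_mul_of_nonneg_left (min_le_right _ _) hK
      _ = ε * (K / (K + 1)) := by ring
      _ ≤ ε * 1 := by
        refine mul_le_mul_of_nonneg_left ?_ hε.le
        rw [div_le_one (by linarith)]
        linarith
      _ = ε := mul_one ε
  linarith [mul_add K y (min z₀ (ε / (K + 1)))]

/-- the body `0` from the centre of mass and the relative position -/
theorem body0 {m : Fin 3 → ℝ} (h12 : m 1 + m 2 ≠ 0) (h3 : m 0 + m 1 + m 2 ≠ 0)
    (q : Fin 3 → V3) :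
    q 0 = (m 0 + m 1 + m 2)⁻¹ • (∑ k, m k • q k) +
      ((m 1 + m 2) / (m 0 + m 1 + m 2)) • rel m q := by
  unfold rel
  rw [Fin.sum_univ_three]
  ext c
  simp only [PiLp.sub_apply, PiLp.smul_apply, PiLp.add_apply, smul_eq_mul]
  field_simp
  ring

theorem body1 {m : Fin 3 → ℝ} (h12 : m 1 + m 2 ≠ 0) (h3 : m 0 + m 1 + m 2 ≠ 0)
    (q : Fin 3 → V3) :
    q 1 = (m 0 + m 1 + m 2)⁻¹ • (∑ k, m k • q k) -
      (m 0 / (m 0 + m 1 + m 2)) • rel m q - (m 2 / (m 1 + m 2)) • (q 2 - q 1) := by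
  unfold rel
  rw [Fin.sum_univ_three]
  ext c
  simp only [PiLp.sub_apply, PiLp.smul_apply, PiLp.add_apply, smul_eq_mul]
  field_simp
  ring

theorem body2 {m : Fin 3 → ℝ} (h12 : m 1 + m 2 ≠ 0) (h3 : m 0 + m 1 + m 2 ≠ 0)
    (q : Fin 3 → V3) :
    q 2 = (m 0 + m 1 + m 2)⁻¹ • (∑ k, m k • q k) -
      (m 0 / (m 0 + m 1 + m 2)) • rel m q + (m 1 / (m 1 + m 2)) • (q 2 - q 1) := by
  unfold rel
  rw [Fin.sum_univ_three]
  ext c
  simp only [PiLp.sub_apply, PiLp.smul_apply, PiLp.add_apply, smul_eq_mul]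
  field_simp
  ring

/-- bounds for a linear functional of the bodies -/
theorem bodies_abs {m : Fin 3 → ℝ} (hm : ∀ k, |m k - 1| ≤ 1 / 10) {q : Fin 3 → V3} {S R X : ℝ}
    (φ : V3 →ₗ[ℝ] ℝ) (hS : |φ (∑ k, m k • q k)| ≤ S) (hR : |φ (rel m q)| ≤ R)
    (hX : |φ (q 2 - q 1)| ≤ X) (k : Fin 3) : |φ (q k)| ≤ S / 2 + R + X := by
  have hm0 := mass_le hm 0
  have hm1 := mass_le hm 1
  have hm2 := mass_le hm 2
  have h12 : 0 < m 1 + m 2 := by linarith [hm1.1, hm2.1]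
  have h3 : 0 < m 0 + m 1 + m 2 := by linarith [hm0.1]
  have hS0 : 0 ≤ S := (abs_nonneg _).trans hS
  have hR0 : 0 ≤ R := (abs_nonneg _).trans hR
  have hX0 : 0 ≤ X := (abs_nonneg _).trans hX
  have e1 : |(m 0 + m 1 + m 2)⁻¹ * φ (∑ k, m k • q k)| ≤ S / 2 := by
    rw [abs_mul, abs_of_pos (by positivity : 0 < (m 0 + m 1 + m 2)⁻¹)]
    have h4 : (m 0 + m 1 + m 2)⁻¹ ≤ 1 / 2 := by
      rw [inv_le_comm₀ h3 (by norm_num)]
      linarith [hm0.1, hm1.1, hm2.1]
    calc (m 0 + m 1 + m 2)⁻¹ * |φ (∑ k, m k • q k)| ≤ 1 / 2 * S :=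
          mul_le_mul h4 hS (abs_nonneg _) (by norm_num)
      _ = S / 2 := by ring
  have hw : ∀ c : ℝ, 0 ≤ c → c ≤ 1 → ∀ z Z : ℝ, |z| ≤ Z → |c * z| ≤ Z := by
    intro c h0 h1 z Z hz
    rw [abs_mul, abs_of_nonneg h0]
    calc c * |z| ≤ 1 * Z := mul_le_mul h1 hz (abs_nonneg _) (by norm_num)
      _ = Z := one_mul Z
  have e2 := hw ((m 1 + m 2) / (m 0 + m 1 + m 2)) (by positivity)
    (by rw [div_le_one h3]; linarith [hm0.1]) _ _ hR
  have e3 := hw (m 0 / (m 0 + m 1 + m 2)) (div_nonneg (by linarith [hm0.1]) h3.le)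
    (by rw [div_le_one h3]; linarith [hm1.1, hm2.1]) _ _ hR
  have e4 := hw (m 2 / (m 1 + m 2)) (div_nonneg (by linarith [hm2.1]) h12.le)
    (by rw [div_le_one h12]; linarith [hm1.1]) _ _ hX
  have e5 := hw (m 1 / (m 1 + m 2)) (div_nonneg (by linarith [hm1.1]) h12.le)
    (by rw [div_le_one h12]; linarith [hm2.1]) _ _ hX
  fin_cases k
  · show |φ (q 0)| ≤ _
    have h := congrArg φ (body0 h12.ne' h3.ne' q)
    rw [map_add, map_smul, map_smul, smul_eq_mul, smul_eq_mul] at h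
    rw [h]
    have := abs_add_le ((m 0 + m 1 + m 2)⁻¹ * φ (∑ k, m k • q k))
      ((m 1 + m 2) / (m 0 + m 1 + m 2) * φ (rel m q))
    linarith
  · show |φ (q 1)| ≤ _
    have h := congrArg φ (body1 h12.ne' h3.ne' q)
    rw [map_sub, map_sub, map_smul, map_smul, map_smul, smul_eq_mul, smul_eq_mul,
      smul_eq_mul] at h
    rw [h]
    have h5 := abs_sub ((m 0 + m 1 + m 2)⁻¹ * φ (∑ k, m k • q k) -
      m 0 / (m 0 + m 1 + m 2) * φ (rel m q)) (m 2 / (m 1 + m 2) * φ (q 2 - q 1))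
    have h6 := abs_sub ((m 0 + m 1 + m 2)⁻¹ * φ (∑ k, m k • q k))
      (m 0 / (m 0 + m 1 + m 2) * φ (rel m q))
    linarith
  · show |φ (q 2)| ≤ _
    have h := congrArg φ (body2 h12.ne' h3.ne' q)
    rw [map_add, map_sub, map_smul, map_smul, map_smul, smul_eq_mul, smul_eq_mul,
      smul_eq_mul] at h
    rw [h]
    have h5 := abs_add_le ((m 0 + m 1 + m 2)⁻¹ * φ (∑ k, m k • q k) -
      m 0 / (m 0 + m 1 + m 2) * φ (rel m q)) (m 1 / (m 1 + m 2) * φ (q 2 - q 1))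
    have h6 := abs_sub ((m 0 + m 1 + m 2)⁻¹ * φ (∑ k, m k • q k))
      (m 0 / (m 0 + m 1 + m 2) * φ (rel m q))
    linarith

/-- the same for the norms -/
theorem bodies_norm {m : Fin 3 → ℝ} (hm : ∀ k, |m k - 1| ≤ 1 / 10) {q : Fin 3 → V3} {S R X : ℝ}
    (hS : ‖∑ k, m k • q k‖ ≤ S) (hR : ‖rel m q‖ ≤ R)
    (hX : ‖q 2 - q 1‖ ≤ X) (k : Fin 3) : ‖q k‖ ≤ S / 2 + R + X := by
  by_cases h0 : q k = 0
  · rw [h0, norm_zero]
    have h1 := (norm_nonneg _).trans hS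
    have h2 := (norm_nonneg _).trans hR
    have h3 := (norm_nonneg _).trans hX
    linarith
  have hn : 0 < ‖q k‖ := norm_pos_iff.mpr h0
  set w : V3 := (‖q k‖)⁻¹ • q k with hw
  have hw1 : ‖w‖ = 1 := by
    rw [hw, norm_smul, norm_inv, norm_norm, inv_mul_cancel₀ hn.ne']
  have hφ : ∀ x : V3, |(innerₗ V3 w) x| ≤ ‖x‖ := by
    intro x
    rw [innerₗ_apply_apply]
    have := abs_real_inner_le_norm w x
    rwa [hw1, one_mul] at this
  have h1 := bodies_abs hm (innerₗ V3 w) ((hφ _).trans hS) ((hφ _).trans hR)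
    ((hφ _).trans hX) k
  have h2 : (innerₗ V3 w) (q k) = ‖q k‖ := by
    rw [innerₗ_apply_apply, hw, real_inner_smul_left, real_inner_self_eq_norm_sq]
    field_simp
  rw [h2, abs_of_pos hn] at h1
  exact h1

/-- the third component as a linear functional -/
noncomputable def c2 : V3 →ₗ[ℝ] ℝ := innerₗ V3 (EuclideanSpace.single (2 : Fin 3) (1 : ℝ))

theorem c2_apply (x : V3) : c2 x = x 2 := by
  unfold c2
  rw [innerₗ_apply_apply, EuclideanSpace.inner_single_left]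
  simp

/-- heights linear in `η T` -/
theorem heightsM {a μ₀ : ℝ} (ha : 0 ≤ a) (hμ : 0 < μ₀) :
    ∃ C₀ > 0, ∃ η₀ > 0, ∀ m : Fin 3 → ℝ, (∀ k, |m k - 1| ≤ 1 / 10) → ∀ e : V3, ‖e‖ = 1 →
      ∀ T η : ℝ, 0 < T → 0 ≤ η → η * T ≤ η₀ → ∀ f Q V : ℝ → Fin 3 → V3, IsSolM m T f Q V →
      (∀ t ∈ Icc (0 : ℝ) T, ∀ k, ‖f t k‖ ≤ η) → (∀ k, Q 0 k 2 = 0) → (∀ k, V 0 k = 0) →
      (∀ t ∈ Icc (0 : ℝ) T, t ≤ a → ∀ k l, k ≠ l → μ₀ ≤ ‖Q t k - Q t l‖) →
      (a ≤ T → FlightM a T e m Q V ∧ ‖rel m (Q a)‖ ≤ 2 ∧ ‖V a 2 - V a 1‖ ≤ 50) →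
      ∀ t ∈ Icc (0 : ℝ) T, ∀ k, |Q t k 2| ≤ C₀ * (η * T) * (1 + t) := by
  set Eb : ℝ := Real.exp ((1 + 9 / μ₀ ^ 3) * a) with hEb
  have hEb1 : 1 ≤ Eb := by
    exact Real.one_le_exp (by positivity)
  set L : ℝ := 101 * Eb + 3 with hL
  have hL0 : 0 < L := by linarith
  set X : ℝ := Real.exp 1900 with hX
  have hX0 : 0 < X := Real.exp_pos _
  have hX1 : 1 ≤ X := by
    exact Real.one_le_exp (by norm_num)
  refine ⟨2 + 5 * (L * X), by positivity, (X * (40 * L))⁻¹, by positivity, ?_⟩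
  intro m hm e he T η hT hη hηT f Q V hs hf hQ hV hsep hfl t ht k
  set y : ℝ := η * T with hy
  have hy0 : 0 ≤ y := mul_nonneg hη hT.le
  -- the beginning
  have hbeg : ∀ s ∈ Icc (0 : ℝ) T, s ≤ a → ∀ k, |Q s k 2| ≤ y * Eb ∧ |V s k 2| ≤ y * Eb := by
    intro s hsT hsa k
    have h1 := gronwallM hm (hs.restr hsT.2) hη
      (fun r hr k => hf r ⟨hr.1, hr.2.trans hsT.2⟩ k) hμ
      (fun r hr => hsep r ⟨hr.1, hr.2.trans hsT.2⟩ (hr.2.trans hsa)) hQ hV s ⟨hsT.1, le_rfl⟩ k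
    have h2 : η * s * Real.exp ((1 + 9 / μ₀ ^ 3) * s) ≤ y * Eb := by
      apply mul_le_mul (mul_le_mul_of_nonneg_left hsT.2 hη) _ (Real.exp_pos _).le hy0
      rw [hEb, Real.exp_le_exp]
      exact mul_le_mul_of_nonneg_left hsa (by positivity)
    exact ⟨h1.1.trans h2, h1.2.trans h2⟩
  have ht0 : 0 ≤ t := ht.1
  rcases le_or_gt t a with hta | hat
  · refine (hbeg t ht hta k).1.trans ?_
    have h1 : Eb ≤ 2 + 5 * (L * X) := by nlinarith
    have h2 : y * Eb ≤ (2 + 5 * (L * X)) * y := by nlinarith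
    have h3 : 0 ≤ (2 + 5 * (L * X)) * y := by positivity
    nlinarith
  · have haT : a ≤ T := hat.le.trans ht.2
    obtain ⟨hF, hr2, hv50⟩ := hfl haT
    have haT' : a ∈ Icc (0 : ℝ) T := ⟨ha, haT⟩
    have haa : a ∈ Icc a T := ⟨le_rfl, haT⟩
    have hA := hbeg a haT' le_rfl
    have hm1 := mass_le hm 1
    have hm2 := mass_le hm 2
    have h12 : 0 < m 1 + m 2 := by linarith [hm1.1, hm2.1]
    have hyE : 0 ≤ y * Eb := by positivity
    -- the relative components at `a`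
    have hrel : ∀ g : Fin 3 → V3, (∀ k, |g k 2| ≤ y * Eb) → |rel m g 2| ≤ 101 * Eb * y := by
      intro g hg
      rw [rel_comp]
      have h1 : |(m 1 * g 1 2 + m 2 * g 2 2) / (m 1 + m 2)| ≤ y * Eb := by
        rw [abs_div, abs_of_pos h12, div_le_iff₀ h12]
        have h2 := abs_add_le (m 1 * g 1 2) (m 2 * g 2 2)
        rw [abs_mul, abs_mul, abs_of_nonneg (by linarith [hm1.1] : 0 ≤ m 1),
          abs_of_nonneg (by linarith [hm2.1] : 0 ≤ m 2)] at h2
        have h3 := mul_le_mul_of_nonneg_left (hg 1) (by linarith [hm1.1] : 0 ≤ m 1)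
        have h4 := mul_le_mul_of_nonneg_left (hg 2) (by linarith [hm2.1] : 0 ≤ m 2)
        linarith
      have h5 := abs_sub (g 0 2) ((m 1 * g 1 2 + m 2 * g 2 2) / (m 1 + m 2))
      have h6 := hg 0
      nlinarith
    have hy0' := hrel (Q a) fun k => (hA k).1
    have hu0' := hrel (V a) fun k => (hA k).2
    have hang : ∀ i : Fin 3, |(Q a 2 - Q a 1) i * (V a 2 - V a 1) 2 -
        (Q a 2 - Q a 1) 2 * (V a 2 - V a 1) i| ≤ 101 * Eb * y := by
      intro i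
      have h1 : |(Q a 2 - Q a 1) i| ≤ 1 / 3 := (Hts.abs_comp_le _ i).trans (hF.x_le a haa)
      have h2 : |(V a 2 - V a 1) i| ≤ 50 := (Hts.abs_comp_le _ i).trans hv50
      have h3 : |(V a 2 - V a 1) 2| ≤ 2 * (y * Eb) := by
        have h4 := abs_sub (V a 2 2) (V a 1 2)
        have h5 := (hA 1).2
        have h6 := (hA 2).2
        show |V a 2 2 - V a 1 2| ≤ _
        linarith
      have h4 : |(Q a 2 - Q a 1) 2| ≤ 2 * (y * Eb) := by
        have h4 := abs_sub (Q a 2 2) (Q a 1 2)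
        have h5 := (hA 1).1
        have h6 := (hA 2).1
        show |Q a 2 2 - Q a 1 2| ≤ _
        linarith
      have h5 := abs_sub ((Q a 2 - Q a 1) i * (V a 2 - V a 1) 2)
        ((Q a 2 - Q a 1) 2 * (V a 2 - V a 1) i)
      rw [abs_mul, abs_mul] at h5
      have h6 := mul_le_mul h1 h3 (abs_nonneg _) (by norm_num)
      have h7 := mul_le_mul h4 h2 (abs_nonneg _) (by positivity)
      nlinarith
    have htT : t ∈ Icc a T := ⟨hat.le, ht.2⟩
    have hcore : ∀ ζ, 0 < ζ → ζ ≤ (X * (40 * L))⁻¹ →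
        |(Q t 2 - Q t 1) 2| ≤ 4 * (L * (y + ζ) * X) ∧
        |rel m (Q t) 2| ≤ L * (y + ζ) * X * (1 + (t - a)) := by
      intro ζ hζ hζ1
      refine core (A₀ := L * (y + ζ)) (B₀ := 101 * Eb * y) hm ha haT hη hs hf he hF hr2 hy0' hu0'
        (hang 0) (hang 1) ?_ ?_ t htT
      · have h1 : 0 < L * ζ := by positivity
        nlinarith
      · have h1 : L * (y + ζ) * X ≤ L * ((X * (40 * L))⁻¹ + (X * (40 * L))⁻¹) * X := by
          gcongr
        refine h1.trans (le_of_eq ?_)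
        field_simp
        norm_num
    have hz0 : 0 < (X * (40 * L))⁻¹ := by positivity
    have hx : |(Q t 2 - Q t 1) 2| ≤ 4 * L * X * y :=
      le_of_shift (by positivity) hz0 fun ζ h1 h2 => by
        have := (hcore ζ h1 h2).1
        linarith
    have hta' : 0 ≤ 1 + (t - a) := by linarith
    have hr : |rel m (Q t) 2| ≤ L * X * (1 + (t - a)) * y :=
      le_of_shift (by positivity) hz0 fun ζ h1 h2 => by
        have := (hcore ζ h1 h2).2
        linarith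
    have hr' : |rel m (Q t) 2| ≤ L * X * y * (1 + t) := by
      refine hr.trans ?_
      have h1 : 0 ≤ L * X * y := by positivity
      nlinarith
    have hS : |(∑ k, m k • Q t k) 2| ≤ 4 * y * t := by
      have h1 := (bary hm hs hη hf hV t ht).2
      have h2 : (∑ k, m k • Q 0 k) 2 = 0 := by
        rw [Fin.sum_univ_three]
        simp [hQ]
      have h3 := (Hts.abs_comp_le _ 2).trans h1
      have h4 : (∑ k, m k • Q t k - ∑ k, m k • Q 0 k) 2 = (∑ k, m k • Q t k) 2 := by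
        rw [PiLp.sub_apply, h2, sub_zero]
      rwa [h4] at h3
    have hb := bodies_abs (q := Q t) (S := 4 * y * t) (R := L * X * y * (1 + t))
      (X := 4 * L * X * y) hm c2 (by rw [c2_apply]; exact hS) (by rw [c2_apply]; exact hr')
      (by rw [c2_apply]; exact hx) k
    rw [c2_apply] at hb
    refine hb.trans ?_
    have h1 : 4 * L * X * y ≤ 4 * L * X * y * (1 + t) := by
      have : 0 ≤ 4 * L * X * y := by positivity
      nlinarith
    nlinarith

/-- the distances of the body `0` from the pair -/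
theorem dist_pair {a T : ℝ} {e : V3} {m : Fin 3 → ℝ} (hm : ∀ k, |m k - 1| ≤ 1 / 10)
    {Q V : ℝ → Fin 3 → V3} (he : ‖e‖ = 1) (hfl : FlightM a T e m Q V) {t : ℝ}
    (ht : t ∈ Icc a T) (k : Fin 3) (hk : k ≠ 0) : 2 / 5 * (1 + (t - a)) ≤ ‖Q t 0 - Q t k‖ := by
  have hm1 := mass_le hm 1
  have hm2 := mass_le hm 2
  have hMp : 0 < m 1 + m 2 := by linarith [hm1.1, hm2.1]
  have hin : ∀ x : V3, |⟪x, e⟫| ≤ ‖x‖ := fun x => by
    have := abs_real_inner_le_norm x e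
    rwa [he, mul_one] at this
  have hc1 : m 1 / (m 1 + m 2) ≤ 11 / 18 := by
    rw [div_le_div_iff₀ hMp (by norm_num)]
    linarith [hm1.2, hm2.1]
  have hc2 : m 2 / (m 1 + m 2) ≤ 11 / 18 := by
    rw [div_le_div_iff₀ hMp (by norm_num)]
    linarith [hm2.2, hm1.1]
  have hc1' : 0 ≤ m 1 / (m 1 + m 2) := div_nonneg (by linarith [hm1.1]) hMp.le
  have hc2' : 0 ≤ m 2 / (m 1 + m 2) := div_nonneg (by linarith [hm2.1]) hMp.le
  have hta := ht.1
  have h2 := hfl.y_ge t ht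
  have hx := abs_le.mp ((hin (Q t 2 - Q t 1)).trans (hfl.x_le t ht))
  fin_cases k
  · exact absurd rfl hk
  · show 2 / 5 * (1 + (t - a)) ≤ ‖Q t 0 - Q t 1‖
    have h1 : Q t 0 - Q t 1 = rel m (Q t) + (m 2 / (m 1 + m 2)) • (Q t 2 - Q t 1) := by
      unfold rel
      ext c
      simp only [PiLp.sub_apply, PiLp.smul_apply, PiLp.add_apply, smul_eq_mul]
      field_simp
      ring
    have h4 : ⟪Q t 0 - Q t 1, e⟫ = ⟪rel m (Q t), e⟫ +
        m 2 / (m 1 + m 2) * ⟪Q t 2 - Q t 1, e⟫ := by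
      conv_lhs => rw [h1]
      rw [inner_add_left, real_inner_smul_left]
    have h5 := (le_abs_self _).trans (hin (Q t 0 - Q t 1))
    have h6 : -(11 / 54) ≤ m 2 / (m 1 + m 2) * ⟪Q t 2 - Q t 1, e⟫ := by nlinarith [hx.1]
    linarith
  · show 2 / 5 * (1 + (t - a)) ≤ ‖Q t 0 - Q t 2‖
    have h1 : Q t 0 - Q t 2 = rel m (Q t) - (m 1 / (m 1 + m 2)) • (Q t 2 - Q t 1) := by
      unfold rel
      ext c
      simp only [PiLp.sub_apply, PiLp.smul_apply, PiLp.add_apply, smul_eq_mul]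
      field_simp
      ring
    have h4 : ⟪Q t 0 - Q t 2, e⟫ = ⟪rel m (Q t), e⟫ -
        m 1 / (m 1 + m 2) * ⟪Q t 2 - Q t 1, e⟫ := by
      conv_lhs => rw [h1]
      rw [inner_sub_left, real_inner_smul_left]
    have h5 := (le_abs_self _).trans (hin (Q t 0 - Q t 2))
    have h6 : m 1 / (m 1 + m 2) * ⟪Q t 2 - Q t 1, e⟫ ≤ 11 / 54 := by nlinarith [hx.2]
    linarith

end Pool.Agent.NBody.LinM

namespace Pool.Agent.NBody

open LinM

/-- (G4) the gun for masses near one -/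
theorem gunM_of (hE : GunEncM) {e : V3} {μ₁ C₁ η₂ : ℝ} (hμ : 0 < μ₁) (hC : 0 < C₁)
    (hη₂ : 0 < η₂) (he : ‖e‖ = 1) (he2 : e 2 = 0) (hF : FlightPropM e μ₁ C₁ η₂) :
    ∃ (s : Fin 3 → V3) (e : V3) (μ₀ C₀ η₀ : ℝ), 0 < μ₀ ∧ 0 < C₀ ∧ 0 < η₀ ∧ GunShape s e ∧
      GunPropM s e μ₀ C₀ η₀ := by
  obtain ⟨η₁, hη₁, hE⟩ := hE
  have hT0 : (0:ℝ) ≤ gunT := by unfold gunT; norm_num
  have hT1 : gunT ≤ 1 := by unfold gunT; norm_num
  obtain ⟨Ch, hCh, η₃, hη₃, hH⟩ := heightsM hT0 (by norm_num : (0:ℝ) < 1 / 30)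
  refine ⟨gunS, e, min (1 / 30) μ₁, Ch + C₁ + 40, min (1 / 100) (min η₁ (min η₂ η₃)),
    lt_min (by norm_num) hμ, by linarith, lt_min (by norm_num) (lt_min hη₁ (lt_min hη₂ hη₃)),
    gunShape he he2, ?_⟩
  intro m hm T hT η hη hη0 hηT f Q V hs hf hQ hV
  have hl0 : min (1 / 100) (min η₁ (min η₂ η₃)) ≤ 1 / 100 := min_le_left _ _
  have hl1 : min (1 / 100) (min η₁ (min η₂ η₃)) ≤ η₁ := (min_le_right _ _).trans (min_le_left _ _)
  have hl2 : min (1 / 100) (min η₁ (min η₂ η₃)) ≤ η₂ :=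
    (min_le_right _ _).trans ((min_le_right _ _).trans (min_le_left _ _))
  have hl3 : min (1 / 100) (min η₁ (min η₂ η₃)) ≤ η₃ :=
    (min_le_right _ _).trans ((min_le_right _ _).trans (min_le_right _ _))
  have hmc : ∀ k, |m k - 1| ≤ 1 / 100 := fun k => (hm k).trans hl0
  have hm10 : ∀ k, |m k - 1| ≤ 1 / 10 := fun k => (hmc k).trans (by norm_num)
  have hm0 := abs_le.mp (hmc 0)
  have hm1 := abs_le.mp (hmc 1)
  have hm2 := abs_le.mp (hmc 2)
  have hM2 : 0 < m 1 + m 2 := by linarith [hm1.1, hm2.1]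
  have hM3 : 0 < m 0 + m 1 + m 2 := by linarith [hm0.1]
  have hyT : η * T ≤ 1 / 100 := hηT.trans hl0
  have hy0 : 0 ≤ η * T := mul_nonneg hη hT.le
  have hin : ∀ x : V3, |⟪x, e⟫| ≤ ‖x‖ := fun x => by
    have := abs_real_inner_le_norm x e
    rwa [he, mul_one] at this
  have hEn := hE m (fun k => (hm k).trans hl1) T η hT hη (hη0.trans hl1) f Q V hs hf hQ hV
  have hFl : gunT ≤ T → FlightX gunT T e m Q V μ₁ C₁ := by
    intro hgT
    have hb := (hEn gunT ⟨hT0, hgT⟩ le_rfl).2.2.2 rfl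
    exact hF m (fun k => (hm k).trans hl2) T η hgT hη (hη0.trans hl2) (hηT.trans hl2) f Q V hs hf
      (fun k => (hb k).1) (fun k => (hb k).2)
  have hsep : ∀ t ∈ Icc (0 : ℝ) T, ∀ k l, k ≠ l → min (1 / 30) μ₁ ≤ ‖Q t k - Q t l‖ := by
    intro t ht k l hkl
    rcases le_or_gt t gunT with hle | hgt
    · exact (min_le_left _ _).trans ((hEn t ht hle).1 k l hkl)
    · have hfx := hFl (hgt.le.trans ht.2)
      have htg : t ∈ Icc gunT T := ⟨hgt.le, ht.2⟩
      have h1 : ∀ j, j ≠ 0 → min (1 / 30) μ₁ ≤ ‖Q t 0 - Q t j‖ := by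
        intro j hj
        have h2 := dist_pair hm10 he hfx.base htg j hj
        have h3 : min (1 / 30) μ₁ ≤ 1 / 30 := min_le_left _ _
        linarith
      have h2 : min (1 / 30) μ₁ ≤ ‖Q t 2 - Q t 1‖ := (min_le_right _ _).trans (hfx.sep t htg)
      fin_cases k <;> fin_cases l
      · exact absurd rfl hkl
      · exact h1 1 (by decide)
      · exact h1 2 (by decide)
      · show _ ≤ ‖Q t 1 - Q t 0‖
        rw [norm_sub_rev]
        exact h1 1 (by decide)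
      · exact absurd rfl hkl
      · show _ ≤ ‖Q t 1 - Q t 2‖
        rw [norm_sub_rev]
        exact h2
      · show _ ≤ ‖Q t 2 - Q t 0‖
        rw [norm_sub_rev]
        exact h1 2 (by decide)
      · exact h2
      · exact absurd rfl hkl
  have hQ2 : ∀ k, Q 0 k 2 = 0 := fun k => by
    rw [hQ k]
    exact (gunShape he he2).flat k
  have hHe := hH m hm10 e he T η hT hη (hηT.trans hl3) f Q V hs hf hQ2 hV
    (fun t ht htg => (hEn t ht htg).1) (fun hgT => by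
      have h1 := hEn gunT ⟨hT0, hgT⟩ le_rfl
      refine ⟨(hFl hgT).base, ?_, ?_⟩
      · have h2 : ‖(m 1 + m 2)⁻¹ • (m 1 • Q gunT 1 + m 2 • Q gunT 2)‖ ≤ 1 := by
          rw [norm_smul, norm_inv, Real.norm_eq_abs, abs_of_pos hM2, inv_mul_le_iff₀ hM2, mul_one]
          refine (norm_add_le _ _).trans ?_
          rw [norm_smul, norm_smul, Real.norm_eq_abs, Real.norm_eq_abs,
            abs_of_nonneg (by linarith [hm1.1] : 0 ≤ m 1),
            abs_of_nonneg (by linarith [hm2.1] : 0 ≤ m 2)]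
          have h3 := mul_le_mul_of_nonneg_left (h1.2.1 1) (by linarith [hm1.1] : 0 ≤ m 1)
          have h4 := mul_le_mul_of_nonneg_left (h1.2.1 2) (by linarith [hm2.1] : 0 ≤ m 2)
          linarith
        have h3 := norm_sub_le (Q gunT 0) ((m 1 + m 2)⁻¹ • (m 1 • Q gunT 1 + m 2 • Q gunT 2))
        have h4 := h1.2.1 0
        unfold rel
        linarith
      · have h2 := norm_sub_le (V gunT 2) (V gunT 1)
        have h3 := h1.2.2.1 1
        have h4 := h1.2.2.1 2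
        linarith)
  have hB := bary hm10 hs hη hf hV
  have hVb : ∀ t ∈ Icc (0 : ℝ) T, ∀ k, ‖V t k‖ ≤ Ch + C₁ + 40 - 1 := by
    intro t ht k
    rcases le_or_gt t gunT with hle | hgt
    · exact ((hEn t ht hle).2.2.1 k).trans (by linarith)
    · have hfx := hFl (hgt.le.trans ht.2)
      have htg : t ∈ Icc gunT T := ⟨hgt.le, ht.2⟩
      have h1 := bodies_norm hm10 (hB t ht).1 (hfx.base.u_le t htg) (hfx.wv t htg) k
      linarith
  intro t ht
  have ht0 : 0 ≤ t := ht.1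
  have hQb : ∀ k, ‖Q t k‖ ≤ (Ch + C₁ + 40) * (1 + t) := by
    intro k
    have h1 := norm_image_sub_le_of_norm_deriv_le_segment' (fun s hs' => hs.dq s hs' k)
      (fun s hs' => hVb s (Ico_subset_Icc_self hs') k) t ht
    have h4 : ‖Q 0 k‖ ≤ 1 := by
      rw [hQ k]
      exact (gunShape he he2).le k
    have h5 : ‖Q t k‖ ≤ ‖Q t k - Q 0 k‖ + ‖Q 0 k‖ := by
      simpa using norm_add_le (Q t k - Q 0 k) (Q 0 k)
    have h6 : (Ch + C₁ + 40 - 1) * (t - 0) ≤ (Ch + C₁ + 40) * t := by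
      rw [sub_zero]
      nlinarith
    nlinarith
  refine ⟨fun k l hkl => hsep t ht k l hkl, fun k => ?_, hQb,
    fun k => (hVb t ht k).trans (by linarith), ?_⟩
  · refine (hHe t ht k).trans ?_
    have h1 : η * T ≤ η * (1 + T) := by linarith
    have h2 : Ch * (η * T) ≤ (Ch + C₁ + 40) * (η * (1 + T)) :=
      mul_le_mul (by linarith) h1 hy0 (by linarith)
    exact mul_le_mul_of_nonneg_right h2 (by linarith)
  rcases le_or_gt t gunT with hle | hgt
  · have h1 := hEn t ht hle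
    refine ⟨?_, fun h4 => ?_, fun k _ => ?_⟩
    · have h5 := (abs_le.mp ((hin _).trans (h1.2.1 0))).1
      linarith
    · linarith
    · have h5 := (abs_le.mp ((hin _).trans (h1.2.1 k))).2
      linarith
  · have hfx := hFl (hgt.le.trans ht.2)
    have htg : t ∈ Icc gunT T := ⟨hgt.le, ht.2⟩
    -- the ratios of the masses
    obtain ⟨c, hc⟩ : ∃ c, c = (m 1 + m 2) / (m 0 + m 1 + m 2) := ⟨_, rfl⟩
    obtain ⟨d, hd⟩ : ∃ d, d = m 0 / (m 0 + m 1 + m 2) := ⟨_, rfl⟩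
    obtain ⟨r, hr⟩ : ∃ r, r = (m 0 + m 1 + m 2)⁻¹ := ⟨_, rfl⟩
    have hc1 : 6 / 10 ≤ c := by
      rw [hc, div_le_div_iff₀ (by norm_num) hM3]
      linarith [hm0.2, hm1.1, hm2.1]
    have hd1 : 3 / 10 ≤ d := by
      rw [hd, div_le_div_iff₀ (by norm_num) hM3]
      linarith [hm0.1, hm1.2, hm2.2]
    have hr0 : 0 < r := by rw [hr]; positivity
    have hr1 : r ≤ 1 / 2 := by
      rw [hr, inv_le_comm₀ hM3 (by norm_num)]
      linarith [hm0.1, hm1.1, hm2.1]
    -- the centre of mass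
    have hS0 : ‖∑ k, m k • Q 0 k‖ ≤ 4 := by
      have h1 := norm_sum3_le hm10 (g := fun k => Q 0 k) (C := 1) (fun k => by
        show ‖Q 0 k‖ ≤ 1
        rw [hQ k]
        exact (gunShape he he2).le k)
      linarith
    have hSt : ‖∑ k, m k • Q t k‖ ≤ 4 + t / 25 := by
      have h1 := (hB t ht).2
      have h2 : ‖∑ k, m k • Q t k‖ ≤ ‖∑ k, m k • Q t k - ∑ k, m k • Q 0 k‖ +
          ‖∑ k, m k • Q 0 k‖ := by
        simpa using norm_add_le (∑ k, m k • Q t k - ∑ k, m k • Q 0 k) (∑ k, m k • Q 0 k)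
      nlinarith
    have hSV : ‖∑ k, m k • V t k‖ ≤ 1 / 25 := by
      have h1 := (hB t ht).1
      linarith
    have hSe := abs_le.mp ((hin _).trans hSt)
    have hSVe := abs_le.mp ((hin _).trans hSV)
    have hge := hfx.base.y_ge t htg
    have hve := hfx.ve t htg
    have hx1 := abs_le.mp ((hin _).trans (hfx.base.x_le t htg))
    have hrel0 : ∀ q : Fin 3 → V3, ⟪q 0, e⟫ = r * ⟪∑ k, m k • q k, e⟫ + c * ⟪rel m q, e⟫ := by
      intro q
      have h1 := congrArg (fun x : V3 => ⟪x, e⟫) (body0 hM2.ne' hM3.ne' q)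
      simp only [inner_add_left, real_inner_smul_left] at h1
      rw [h1, ← hr, ← hc]
    refine ⟨?_, fun _ => ?_, fun k hk => ?_⟩
    · rw [hrel0]
      have h1 : -(1 / 2 * (4 + t / 25)) ≤ r * ⟪∑ k, m k • Q t k, e⟫ := by nlinarith [hSe.1]
      have h2 : 6 / 10 * (2 / 3 + 11 / 10 * (t - gunT)) ≤ c * ⟪rel m (Q t), e⟫ := by
        apply mul_le_mul hc1 hge _ (by linarith)
        nlinarith
      nlinarith
    · rw [hrel0]
      have h1 : -(1 / 2 * (1 / 25)) ≤ r * ⟪∑ k, m k • V t k, e⟫ := by nlinarith [hSVe.1]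
      have h2 : 6 / 10 * (11 / 10) ≤ c * ⟪rel m (V t), e⟫ :=
        mul_le_mul hc1 hve (by norm_num) (by linarith)
      linarith
    · have h1 : r * ⟪∑ k, m k • Q t k, e⟫ ≤ 1 / 2 * (4 + t / 25) := by nlinarith [hSe.2]
      have h2 : 3 / 10 * (2 / 3 + 11 / 10 * (t - gunT)) ≤ d * ⟪rel m (Q t), e⟫ := by
        apply mul_le_mul hd1 hge _ (by linarith)
        nlinarith
      have hw : ∀ c : ℝ, 0 ≤ c → c ≤ 1 → |c * ⟪Q t 2 - Q t 1, e⟫| ≤ 1 / 3 := by
        intro c h0 h1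
        rw [abs_mul, abs_of_nonneg h0]
        calc c * |⟪Q t 2 - Q t 1, e⟫| ≤ 1 * (1 / 3) :=
              mul_le_mul h1 (abs_le.mpr hx1) (abs_nonneg _) (by norm_num)
          _ = 1 / 3 := one_mul _
      have e4 := abs_le.mp (hw (m 2 / (m 1 + m 2)) (div_nonneg (by linarith [hm2.1]) hM2.le)
        (by rw [div_le_one hM2]; linarith [hm1.1]))
      have e5 := abs_le.mp (hw (m 1 / (m 1 + m 2)) (div_nonneg (by linarith [hm1.1]) hM2.le)
        (by rw [div_le_one hM2]; linarith [hm2.1]))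
      fin_cases k
      · exact absurd rfl hk
      · show ⟪Q t 1, e⟫ ≤ _
        have h3 := congrArg (fun x : V3 => ⟪x, e⟫) (body1 hM2.ne' hM3.ne' (Q t))
        simp only [inner_sub_left, real_inner_smul_left] at h3
        rw [← hr, ← hd] at h3
        rw [inner_sub_left] at e4
        linarith [e4.1, e4.2]
      · show ⟪Q t 2, e⟫ ≤ _
        have h3 := congrArg (fun x : V3 => ⟪x, e⟫) (body2 hM2.ne' hM3.ne' (Q t))
        simp only [inner_add_left, inner_sub_left, real_inner_smul_left] at h3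
        rw [← hr, ← hd] at h3
        rw [inner_sub_left] at e5
        linarith [e5.1, e5.2]

end Pool.Agent.NBody
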