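import Mathlib
import Pool.Agent.NBody.ThGunM
import Pool.Agent.NBody.ThGunEncV
import Pool.Agent.NBody.ThDefs3
import Pool.Agent.NBody.ThGunEncVM

/-!
The gun for masses near one and small initial velocities, from the enclosure of its beginning and
from the flight.
-/

set_option autoImplicit false
open scoped RealInnerProductSpace
open Set Finset Filter Topology

namespace Pool.Agent.NBody.LinM

theorem gronwallV {T η μ₀ α : ℝ} {m : Fin 3 → ℝ} (hm : ∀ k, |m k - 1| ≤ 1 / 10)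
    {f Q V : ℝ → Fin 3 → V3} (hs : IsSolM m T f Q V)
    (hη : 0 ≤ η) (hf : ∀ t ∈ Icc (0 : ℝ) T, ∀ k, ‖f t k‖ ≤ η) (hμ : 0 < μ₀)
    (hsep : ∀ t ∈ Icc (0 : ℝ) T, ∀ k l, k ≠ l → μ₀ ≤ ‖Q t k - Q t l‖)
    (hα : 0 ≤ α) (hQ : ∀ k, Q 0 k 2 = 0) (hV : ∀ k, ‖V 0 k‖ ≤ α) :
    ∀ t ∈ Icc (0 : ℝ) T, ∀ k, |Q t k 2| ≤ (α + η * t) * Real.exp ((1 + 9 / μ₀ ^ 3) * t) ∧
      |V t k 2| ≤ (α + η * t) * Real.exp ((1 + 9 / μ₀ ^ 3) * t) := by
  set K : ℝ := 1 + 9 / μ₀ ^ 3 with hK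
  have hK1 : 1 ≤ K := by
    have : 0 ≤ 9 / μ₀ ^ 3 := by positivity
    linarith
  let Z : ℝ → (Fin 3 → ℝ) × (Fin 3 → ℝ) := fun t => (fun k => Q t k 2, fun k => V t k 2)
  let Z' : ℝ → (Fin 3 → ℝ) × (Fin 3 → ℝ) := fun t =>
    (fun k => V t k 2, fun k => accM m (Q t) k 2 + f t k 2)
  have hZ : ∀ t ∈ Icc (0 : ℝ) T, HasDerivWithinAt Z (Z' t) (Icc 0 T) t := by
    intro t ht
    have h1 : HasDerivWithinAt (fun t => (fun k => Q t k 2 : Fin 3 → ℝ)) (fun k => V t k 2)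
        (Icc 0 T) t := by
      rw [hasDerivWithinAt_pi]
      intro k
      exact Hts.comp_deriv (hs.dq t ht k) 2
    have h2 : HasDerivWithinAt (fun t => (fun k => V t k 2 : Fin 3 → ℝ))
        (fun k => accM m (Q t) k 2 + f t k 2) (Icc 0 T) t := by
      rw [hasDerivWithinAt_pi]
      intro k
      exact Hts.comp_deriv (hs.dv t ht k) 2
    exact h1.prodMk h2
  have hcont : ContinuousOn Z (Icc 0 T) := fun t ht => (hZ t ht).continuousWithinAt
  have hb : ∀ t ∈ Icc (0 : ℝ) T, ‖Z' t‖ ≤ K * ‖Z t‖ + η := by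
    intro t ht
    have hz1 : ∀ k, |Q t k 2| ≤ ‖Z t‖ := fun k =>
      (norm_le_pi_norm (fun k => Q t k 2) k).trans (norm_fst_le (Z t))
    have hz2 : ∀ k, |V t k 2| ≤ ‖Z t‖ := fun k =>
      (norm_le_pi_norm (fun k => V t k 2) k).trans (norm_snd_le (Z t))
    have hnn : 0 ≤ ‖Z t‖ := norm_nonneg _
    have hpos : 0 ≤ K * ‖Z t‖ + η := by positivity
    rw [Prod.norm_def]
    refine max_le ?_ ?_
    · rw [pi_norm_le_iff_of_nonneg hpos]
      intro k
      have h1 := hz2 k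
      show |V t k 2| ≤ _
      nlinarith
    · rw [pi_norm_le_iff_of_nonneg hpos]
      intro k
      show |accM m (Q t) k 2 + f t k 2| ≤ _
      have h1 := accM_comp_le hm hμ (hsep t ht) 2 hz1 k
      have h2 : |f t k 2| ≤ η := (Hts.abs_comp_le _ _).trans (hf t ht k)
      have h3 := abs_add_le (accM m (Q t) k 2) (f t k 2)
      have h4 : 9 / μ₀ ^ 3 * ‖Z t‖ ≤ K * ‖Z t‖ :=
        mul_le_mul_of_nonneg_right (by linarith) hnn
      linarith
  have h0 : ‖Z 0‖ ≤ α := by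
    rw [Prod.norm_def]
    refine max_le ?_ ?_
    · rw [pi_norm_le_iff_of_nonneg hα]
      intro k
      show |Q 0 k 2| ≤ α
      rw [hQ k, abs_zero]
      exact hα
    · rw [pi_norm_le_iff_of_nonneg hα]
      intro k
      show |V 0 k 2| ≤ α
      exact (Hts.abs_comp_le _ _).trans (hV k)
  have hG := norm_le_gronwallBound_of_norm_deriv_right_le hcont
    (fun t ht => Hts.deriv_right ht (hZ t (Ico_subset_Icc_self ht))) h0
    (fun t ht => hb t (Ico_subset_Icc_self ht))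
  intro t ht
  have h1 := hG t ht
  rw [sub_zero, gronwallBound_of_K_ne_0 (by linarith)] at h1
  have h2 : η / K * (Real.exp (K * t) - 1) ≤ η * t * Real.exp (K * t) := by
    have h3 : Real.exp (K * t) - 1 ≤ K * t * Real.exp (K * t) := by
      have h4 := Real.add_one_le_exp (-(K * t))
      have h5 : Real.exp (-(K * t)) * Real.exp (K * t) = 1 := by
        rw [← Real.exp_add, neg_add_cancel, Real.exp_zero]
      have h6 := mul_le_mul_of_nonneg_right h4 (Real.exp_pos (K * t)).le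
      rw [h5] at h6
      linarith
    calc η / K * (Real.exp (K * t) - 1) ≤ η / K * (K * t * Real.exp (K * t)) :=
          mul_le_mul_of_nonneg_left h3 (by positivity)
      _ = η * t * Real.exp (K * t) := by
        have : K ≠ 0 := by linarith
        field_simp
  have h3 : α * Real.exp (K * t) + η / K * (Real.exp (K * t) - 1) ≤
      (α + η * t) * Real.exp (K * t) := by
    have h4 : (α + η * t) * Real.exp (K * t) = α * Real.exp (K * t) +
        η * t * Real.exp (K * t) := by ring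
    rw [h4]
    linarith
  intro k
  exact ⟨((norm_le_pi_norm (fun k => Q t k 2) k).trans (norm_fst_le (Z t))).trans (h1.trans h3),
    ((norm_le_pi_norm (fun k => V t k 2) k).trans (norm_snd_le (Z t))).trans (h1.trans h3)⟩

theorem baryV {m : Fin 3 → ℝ} (hm : ∀ k, |m k - 1| ≤ 1 / 10) {T η α : ℝ}
    {f Q V : ℝ → Fin 3 → V3} (hs : IsSolM m T f Q V) (hη : 0 ≤ η)
    (hf : ∀ t ∈ Icc (0 : ℝ) T, ∀ k, ‖f t k‖ ≤ η) (hV : ∀ k, ‖V 0 k‖ ≤ α) :
    ∀ t ∈ Icc (0 : ℝ) T, ‖∑ k, m k • V t k‖ ≤ 4 * (α + η * T) ∧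
      ‖∑ k, m k • Q t k - ∑ k, m k • Q 0 k‖ ≤ 4 * (α + η * T) * t := by
  have hVd : ∀ t ∈ Icc (0 : ℝ) T, HasDerivWithinAt (fun t => ∑ k, m k • V t k)
      (∑ k, m k • f t k) (Icc 0 T) t := by
    intro t ht
    have h1 := HasDerivWithinAt.fun_sum (u := (Finset.univ : Finset (Fin 3)))
      (A := fun k t => m k • V t k) (A' := fun k => m k • (accM m (Q t) k + f t k))
      (x := t) (s := Icc (0:ℝ) T) (fun k _ => (hs.dv t ht k).const_smul (m k))
    have h2 : ∑ k, m k • (accM m (Q t) k + f t k) = ∑ k, m k • f t k := by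
      simp only [smul_add, Finset.sum_add_distrib]
      rw [sum_accM, zero_add]
    rw [h2] at h1
    exact h1
  have hQd : ∀ t ∈ Icc (0 : ℝ) T, HasDerivWithinAt (fun t => ∑ k, m k • Q t k)
      (∑ k, m k • V t k) (Icc 0 T) t := by
    intro t ht
    exact HasDerivWithinAt.fun_sum (u := (Finset.univ : Finset (Fin 3)))
      (A := fun k t => m k • Q t k) (A' := fun k => m k • V t k)
      (x := t) (s := Icc (0:ℝ) T) (fun k _ => (hs.dq t ht k).const_smul (m k))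
  have h0 : ‖∑ k, m k • V 0 k‖ ≤ 4 * α := norm_sum3_le hm hV
  have hVb : ∀ t ∈ Icc (0 : ℝ) T, ‖∑ k, m k • V t k‖ ≤ 4 * (α + η * T) := by
    intro t ht
    have h1 := norm_image_sub_le_of_norm_deriv_le_segment' hVd
      (fun s hs' => norm_sum3_le hm (hf s (Ico_subset_Icc_self hs'))) t ht
    rw [sub_zero] at h1
    have h2 : ‖∑ k, m k • V t k‖ ≤ ‖∑ k, m k • V t k - ∑ k, m k • V 0 k‖ +
        ‖∑ k, m k • V 0 k‖ := by
      simpa using norm_add_le (∑ k, m k • V t k - ∑ k, m k • V 0 k) (∑ k, m k • V 0 k)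
    have := mul_le_mul_of_nonneg_left ht.2 hη
    linarith
  intro t ht
  refine ⟨hVb t ht, ?_⟩
  have h1 := norm_image_sub_le_of_norm_deriv_le_segment' hQd
      (fun s hs' => hVb s (Ico_subset_Icc_self hs')) t ht
  rwa [sub_zero] at h1

/-- heights linear in `α + η T` -/
theorem heightsV {a μ₀ : ℝ} (ha : 0 ≤ a) (hμ : 0 < μ₀) :
    ∃ C₀ > 0, ∃ η₀ > 0, ∀ m : Fin 3 → ℝ, (∀ k, |m k - 1| ≤ 1 / 10) → ∀ e : V3, ‖e‖ = 1 →
      ∀ T η : ℝ, 0 < T → 0 ≤ η → η * T ≤ η₀ → ∀ α : ℝ, 0 ≤ α → α ≤ η₀ → ∀ f Q V : ℝ → Fin 3 → V3, IsSolM m T f Q V →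
      (∀ t ∈ Icc (0 : ℝ) T, ∀ k, ‖f t k‖ ≤ η) → (∀ k, Q 0 k 2 = 0) → (∀ k, ‖V 0 k‖ ≤ α) →
      (∀ t ∈ Icc (0 : ℝ) T, t ≤ a → ∀ k l, k ≠ l → μ₀ ≤ ‖Q t k - Q t l‖) →
      (a ≤ T → FlightM a T e m Q V ∧ ‖rel m (Q a)‖ ≤ 2 ∧ ‖V a 2 - V a 1‖ ≤ 50) →
      ∀ t ∈ Icc (0 : ℝ) T, ∀ k, |Q t k 2| ≤ C₀ * (α + η * T) * (1 + t) := by
  set Eb : ℝ := Real.exp ((1 + 9 / μ₀ ^ 3) * a) with hEb
  have hEb1 : 1 ≤ Eb := by
    exact Real.one_le_exp (by positivity)
  set L : ℝ := 101 * Eb + 3 with hL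
  have hL0 : 0 < L := by linarith
  set X : ℝ := Real.exp 1900 with hX
  have hX0 : 0 < X := Real.exp_pos _
  have hX1 : 1 ≤ X := by
    exact Real.one_le_exp (by norm_num)
  refine ⟨2 + 5 * (L * X), by positivity, (X * (80 * L))⁻¹, by positivity, ?_⟩
  intro m hm e he T η hT hη hηT α hα hαη f Q V hs hf hQ hV hsep hfl t ht k
  set y : ℝ := α + η * T with hy
  have hηT0 : 0 ≤ η * T := mul_nonneg hη hT.le
  have hy0 : 0 ≤ y := add_nonneg hα hηT0
  have hyη : y ≤ (X * (40 * L))⁻¹ := by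
    have h1 : (X * (40 * L))⁻¹ = (X * (80 * L))⁻¹ + (X * (80 * L))⁻¹ := by
      field_simp
      norm_num
    rw [h1]
    linarith
  -- the beginning
  have hbeg : ∀ s ∈ Icc (0 : ℝ) T, s ≤ a → ∀ k, |Q s k 2| ≤ y * Eb ∧ |V s k 2| ≤ y * Eb := by
    intro s hsT hsa k
    have h1 := gronwallV hm (hs.restr hsT.2) hη
      (fun r hr k => hf r ⟨hr.1, hr.2.trans hsT.2⟩ k) hμ
      (fun r hr => hsep r ⟨hr.1, hr.2.trans hsT.2⟩ (hr.2.trans hsa)) hα hQ hV s ⟨hsT.1, le_rfl⟩ k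
    have h2 : (α + η * s) * Real.exp ((1 + 9 / μ₀ ^ 3) * s) ≤ y * Eb := by
      have h3 := mul_le_mul_of_nonneg_left hsT.2 hη
      apply mul_le_mul (by rw [hy]; linarith) _ (Real.exp_pos _).le hy0
      rw [hEb, Real.exp_le_exp]
      exact mul_le_mul_of_nonneg_left hsa (by positivity)
    exact ⟨h1.1.trans h2, h1.2.trans h2⟩
  have ht0 : 0 ≤ t := ht.1
  rcases le_or_gt t a with hta | hat
  · refine (hbeg t ht hta k).1.trans ?_
    have h1 : Eb ≤ 2 + 5 * (L * X) := by nlinarith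
    have h2 : y * Eb ≤ (2 + 5 * (L * X)) * y := by nlinarith
    have h3 : 0 ≤ (2 + 5 * (L * X)) * y := by positivity
    nlinarith
  · have haT : a ≤ T := hat.le.trans ht.2
    obtain ⟨hF, hr2, hv50⟩ := hfl haT
    have haT' : a ∈ Icc (0 : ℝ) T := ⟨ha, haT⟩
    have haa : a ∈ Icc a T := ⟨le_rfl, haT⟩
    have hA := hbeg a haT' le_rfl
    have hm1 := mass_le hm 1
    have hm2 := mass_le hm 2
    have h12 : 0 < m 1 + m 2 := by linarith [hm1.1, hm2.1]
    have hyE : 0 ≤ y * Eb := by positivity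
    -- the relative components at `a`
    have hrel : ∀ g : Fin 3 → V3, (∀ k, |g k 2| ≤ y * Eb) → |rel m g 2| ≤ 101 * Eb * y := by
      intro g hg
      rw [rel_comp]
      have h1 : |(m 1 * g 1 2 + m 2 * g 2 2) / (m 1 + m 2)| ≤ y * Eb := by
        rw [abs_div, abs_of_pos h12, div_le_iff₀ h12]
        have h2 := abs_add_le (m 1 * g 1 2) (m 2 * g 2 2)
        rw [abs_mul, abs_mul, abs_of_nonneg (by linarith [hm1.1] : 0 ≤ m 1),
          abs_of_nonneg (by linarith [hm2.1] : 0 ≤ m 2)] at h2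
        have h3 := mul_le_mul_of_nonneg_left (hg 1) (by linarith [hm1.1] : 0 ≤ m 1)
        have h4 := mul_le_mul_of_nonneg_left (hg 2) (by linarith [hm2.1] : 0 ≤ m 2)
        linarith
      have h5 := abs_sub (g 0 2) ((m 1 * g 1 2 + m 2 * g 2 2) / (m 1 + m 2))
      have h6 := hg 0
      nlinarith
    have hy0' := hrel (Q a) fun k => (hA k).1
    have hu0' := hrel (V a) fun k => (hA k).2
    have hang : ∀ i : Fin 3, |(Q a 2 - Q a 1) i * (V a 2 - V a 1) 2 -
        (Q a 2 - Q a 1) 2 * (V a 2 - V a 1) i| ≤ 101 * Eb * y := by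
      intro i
      have h1 : |(Q a 2 - Q a 1) i| ≤ 1 / 3 := (Hts.abs_comp_le _ i).trans (hF.x_le a haa)
      have h2 : |(V a 2 - V a 1) i| ≤ 50 := (Hts.abs_comp_le _ i).trans hv50
      have h3 : |(V a 2 - V a 1) 2| ≤ 2 * (y * Eb) := by
        have h4 := abs_sub (V a 2 2) (V a 1 2)
        have h5 := (hA 1).2
        have h6 := (hA 2).2
        show |V a 2 2 - V a 1 2| ≤ _
        linarith
      have h4 : |(Q a 2 - Q a 1) 2| ≤ 2 * (y * Eb) := by
        have h4 := abs_sub (Q a 2 2) (Q a 1 2)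
        have h5 := (hA 1).1
        have h6 := (hA 2).1
        show |Q a 2 2 - Q a 1 2| ≤ _
        linarith
      have h5 := abs_sub ((Q a 2 - Q a 1) i * (V a 2 - V a 1) 2)
        ((Q a 2 - Q a 1) 2 * (V a 2 - V a 1) i)
      rw [abs_mul, abs_mul] at h5
      have h6 := mul_le_mul h1 h3 (abs_nonneg _) (by norm_num)
      have h7 := mul_le_mul h4 h2 (abs_nonneg _) (by positivity)
      nlinarith
    have htT : t ∈ Icc a T := ⟨hat.le, ht.2⟩
    have hcore : ∀ ζ, 0 < ζ → ζ ≤ (X * (40 * L))⁻¹ →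
        |(Q t 2 - Q t 1) 2| ≤ 4 * (L * (y + ζ) * X) ∧
        |rel m (Q t) 2| ≤ L * (y + ζ) * X * (1 + (t - a)) := by
      intro ζ hζ hζ1
      refine core (A₀ := L * (y + ζ)) (B₀ := 101 * Eb * y) hm ha haT hη hs hf he hF hr2 hy0' hu0'
        (hang 0) (hang 1) ?_ ?_ t htT
      · have h1 : 0 < L * ζ := by positivity
        have h2 : η * T ≤ y := by rw [hy]; linarith
        nlinarith
      · have h1 : L * (y + ζ) * X ≤ L * ((X * (40 * L))⁻¹ + (X * (40 * L))⁻¹) * X := by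
          gcongr
        refine h1.trans (le_of_eq ?_)
        field_simp
        norm_num
    have hz0 : 0 < (X * (40 * L))⁻¹ := by positivity
    have hx : |(Q t 2 - Q t 1) 2| ≤ 4 * L * X * y :=
      le_of_shift (by positivity) hz0 fun ζ h1 h2 => by
        have := (hcore ζ h1 h2).1
        linarith
    have hta' : 0 ≤ 1 + (t - a) := by linarith
    have hr : |rel m (Q t) 2| ≤ L * X * (1 + (t - a)) * y :=
      le_of_shift (by positivity) hz0 fun ζ h1 h2 => by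
        have := (hcore ζ h1 h2).2
        linarith
    have hr' : |rel m (Q t) 2| ≤ L * X * y * (1 + t) := by
      refine hr.trans ?_
      have h1 : 0 ≤ L * X * y := by positivity
      nlinarith
    have hS : |(∑ k, m k • Q t k) 2| ≤ 4 * y * t := by
      have h1 := (baryV hm hs hη hf hV t ht).2
      have h2 : (∑ k, m k • Q 0 k) 2 = 0 := by
        rw [Fin.sum_univ_three]
        simp [hQ]
      have h3 := (Hts.abs_comp_le _ 2).trans h1
      have h4 : (∑ k, m k • Q t k - ∑ k, m k • Q 0 k) 2 = (∑ k, m k • Q t k) 2 := by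
        rw [PiLp.sub_apply, h2, sub_zero]
      rwa [h4] at h3
    have hb := bodies_abs (q := Q t) (S := 4 * y * t) (R := L * X * y * (1 + t))
      (X := 4 * L * X * y) hm c2 (by rw [c2_apply]; exact hS) (by rw [c2_apply]; exact hr')
      (by rw [c2_apply]; exact hx) k
    rw [c2_apply] at hb
    refine hb.trans ?_
    have h1 : 4 * L * X * y ≤ 4 * L * X * y * (1 + t) := by
      have : 0 ≤ 4 * L * X * y := by positivity
      nlinarith
    nlinarith

end Pool.Agent.NBody.LinM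

namespace Pool.Agent.NBody

open LinM

/-- (M6) the gun for masses near one and small initial velocities -/
theorem gun3_of (hE : GunEncVM) {e : V3} {μ₁ C₁ η₂ : ℝ} (hμ : 0 < μ₁) (hC : 0 < C₁)
    (hη₂ : 0 < η₂) (he : ‖e‖ = 1) (he2 : e 2 = 0) (hF : FlightPropM e μ₁ C₁ η₂) :
    ∃ (s : Fin 3 → V3) (e : V3) (μ₀ C₀ η₀ : ℝ), 0 < μ₀ ∧ 0 < C₀ ∧ 0 < η₀ ∧ GunShape s e ∧
      GunProp3 s e μ₀ C₀ η₀ := by
  obtain ⟨η₁, hη₁, hE⟩ := hE
  have hT0 : (0:ℝ) ≤ gunT := by unfold gunT; norm_num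
  have hT1 : gunT ≤ 1 := by unfold gunT; norm_num
  obtain ⟨Ch, hCh, η₃, hη₃, hH⟩ := heightsV hT0 (by norm_num : (0:ℝ) < 1 / 30)
  refine ⟨gunS, e, min (1 / 30) μ₁, Ch + C₁ + 40, min (1 / 100) (min η₁ (min η₂ η₃)),
    lt_min (by norm_num) hμ, by linarith, lt_min (by norm_num) (lt_min hη₁ (lt_min hη₂ hη₃)),
    gunShape he he2, ?_⟩
  intro m hm T hT η hη hη0 hηT α hα hαη f Q V hs hf hQ hV
  have hl0 : min (1 / 100) (min η₁ (min η₂ η₃)) ≤ 1 / 100 := min_le_left _ _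
  have hl1 : min (1 / 100) (min η₁ (min η₂ η₃)) ≤ η₁ := (min_le_right _ _).trans (min_le_left _ _)
  have hl2 : min (1 / 100) (min η₁ (min η₂ η₃)) ≤ η₂ :=
    (min_le_right _ _).trans ((min_le_right _ _).trans (min_le_left _ _))
  have hl3 : min (1 / 100) (min η₁ (min η₂ η₃)) ≤ η₃ :=
    (min_le_right _ _).trans ((min_le_right _ _).trans (min_le_right _ _))
  have hmc : ∀ k, |m k - 1| ≤ 1 / 100 := fun k => (hm k).trans hl0
  have hm10 : ∀ k, |m k - 1| ≤ 1 / 10 := fun k => (hmc k).trans (by norm_num)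
  have hm0 := abs_le.mp (hmc 0)
  have hm1 := abs_le.mp (hmc 1)
  have hm2 := abs_le.mp (hmc 2)
  have hM2 : 0 < m 1 + m 2 := by linarith [hm1.1, hm2.1]
  have hM3 : 0 < m 0 + m 1 + m 2 := by linarith [hm0.1]
  have hyT : η * T ≤ 1 / 100 := hηT.trans hl0
  have hy0 : 0 ≤ η * T := mul_nonneg hη hT.le
  have hin : ∀ x : V3, |⟪x, e⟫| ≤ ‖x‖ := fun x => by
    have := abs_real_inner_le_norm x e
    rwa [he, mul_one] at this
  have hEn := hE m (fun k => (hm k).trans hl1) T η hT hη (hη0.trans hl1) f Q V hs hf hQ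
    (fun k => (hV k).trans (hαη.trans hl1))
  have hFl : gunT ≤ T → FlightX gunT T e m Q V μ₁ C₁ := by
    intro hgT
    have hb := (hEn gunT ⟨hT0, hgT⟩ le_rfl).2.2.2 rfl
    exact hF m (fun k => (hm k).trans hl2) T η hgT hη (hη0.trans hl2) (hηT.trans hl2) f Q V hs hf
      (fun k => (hb k).1) (fun k => (hb k).2)
  have hsep : ∀ t ∈ Icc (0 : ℝ) T, ∀ k l, k ≠ l → min (1 / 30) μ₁ ≤ ‖Q t k - Q t l‖ := by
    intro t ht k l hkl
    rcases le_or_gt t gunT with hle | hgt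
    · exact (min_le_left _ _).trans ((hEn t ht hle).1 k l hkl)
    · have hfx := hFl (hgt.le.trans ht.2)
      have htg : t ∈ Icc gunT T := ⟨hgt.le, ht.2⟩
      have h1 : ∀ j, j ≠ 0 → min (1 / 30) μ₁ ≤ ‖Q t 0 - Q t j‖ := by
        intro j hj
        have h2 := dist_pair hm10 he hfx.base htg j hj
        have h3 : min (1 / 30) μ₁ ≤ 1 / 30 := min_le_left _ _
        linarith
      have h2 : min (1 / 30) μ₁ ≤ ‖Q t 2 - Q t 1‖ := (min_le_right _ _).trans (hfx.sep t htg)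
      fin_cases k <;> fin_cases l
      · exact absurd rfl hkl
      · exact h1 1 (by decide)
      · exact h1 2 (by decide)
      · show _ ≤ ‖Q t 1 - Q t 0‖
        rw [norm_sub_rev]
        exact h1 1 (by decide)
      · exact absurd rfl hkl
      · show _ ≤ ‖Q t 1 - Q t 2‖
        rw [norm_sub_rev]
        exact h2
      · show _ ≤ ‖Q t 2 - Q t 0‖
        rw [norm_sub_rev]
        exact h1 2 (by decide)
      · exact h2
      · exact absurd rfl hkl
  have hQ2 : ∀ k, Q 0 k 2 = 0 := fun k => by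
    rw [hQ k]
    exact (gunShape he he2).flat k
  have hHe := hH m hm10 e he T η hT hη (hηT.trans hl3) α hα (hαη.trans hl3) f Q V hs hf hQ2 hV
    (fun t ht htg => (hEn t ht htg).1) (fun hgT => by
      have h1 := hEn gunT ⟨hT0, hgT⟩ le_rfl
      refine ⟨(hFl hgT).base, ?_, ?_⟩
      · have h2 : ‖(m 1 + m 2)⁻¹ • (m 1 • Q gunT 1 + m 2 • Q gunT 2)‖ ≤ 1 := by
          rw [norm_smul, norm_inv, Real.norm_eq_abs, abs_of_pos hM2, inv_mul_le_iff₀ hM2, mul_one]
          refine (norm_add_le _ _).trans ?_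
          rw [norm_smul, norm_smul, Real.norm_eq_abs, Real.norm_eq_abs,
            abs_of_nonneg (by linarith [hm1.1] : 0 ≤ m 1),
            abs_of_nonneg (by linarith [hm2.1] : 0 ≤ m 2)]
          have h3 := mul_le_mul_of_nonneg_left (h1.2.1 1) (by linarith [hm1.1] : 0 ≤ m 1)
          have h4 := mul_le_mul_of_nonneg_left (h1.2.1 2) (by linarith [hm2.1] : 0 ≤ m 2)
          linarith
        have h3 := norm_sub_le (Q gunT 0) ((m 1 + m 2)⁻¹ • (m 1 • Q gunT 1 + m 2 • Q gunT 2))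
        have h4 := h1.2.1 0
        unfold rel
        linarith
      · have h2 := norm_sub_le (V gunT 2) (V gunT 1)
        have h3 := h1.2.2.1 1
        have h4 := h1.2.2.1 2
        linarith)
  have hα1 : α ≤ 1 / 100 := hαη.trans hl0
  have hB := baryV hm10 hs hη hf hV
  have hVb : ∀ t ∈ Icc (0 : ℝ) T, ∀ k, ‖V t k‖ ≤ Ch + C₁ + 40 - 1 := by
    intro t ht k
    rcases le_or_gt t gunT with hle | hgt
    · exact ((hEn t ht hle).2.2.1 k).trans (by linarith)
    · have hfx := hFl (hgt.le.trans ht.2)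
      have htg : t ∈ Icc gunT T := ⟨hgt.le, ht.2⟩
      have h1 := bodies_norm hm10 (hB t ht).1 (hfx.base.u_le t htg) (hfx.wv t htg) k
      linarith
  intro t ht
  have ht0 : 0 ≤ t := ht.1
  have hQb : ∀ k, ‖Q t k‖ ≤ (Ch + C₁ + 40) * (1 + t) := by
    intro k
    have h1 := norm_image_sub_le_of_norm_deriv_le_segment' (fun s hs' => hs.dq s hs' k)
      (fun s hs' => hVb s (Ico_subset_Icc_self hs') k) t ht
    have h4 : ‖Q 0 k‖ ≤ 1 := by
      rw [hQ k]
      exact (gunShape he he2).le k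
    have h5 : ‖Q t k‖ ≤ ‖Q t k - Q 0 k‖ + ‖Q 0 k‖ := by
      simpa using norm_add_le (Q t k - Q 0 k) (Q 0 k)
    have h6 : (Ch + C₁ + 40 - 1) * (t - 0) ≤ (Ch + C₁ + 40) * t := by
      rw [sub_zero]
      nlinarith
    nlinarith
  refine ⟨fun k l hkl => hsep t ht k l hkl, fun k => ?_, hQb,
    fun k => (hVb t ht k).trans (by linarith), ?_⟩
  · refine (hHe t ht k).trans ?_
    have h1 : α + η * T ≤ α + η * (1 + T) := by linarith
    have h2 : Ch * (α + η * T) ≤ (Ch + C₁ + 40) * (α + η * (1 + T)) :=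
      mul_le_mul (by linarith) h1 (by linarith) (by linarith)
    exact mul_le_mul_of_nonneg_right h2 (by linarith)
  rcases le_or_gt t gunT with hle | hgt
  · have h1 := hEn t ht hle
    refine ⟨?_, fun h4 => ?_, fun k _ => ?_⟩
    · have h5 := (abs_le.mp ((hin _).trans (h1.2.1 0))).1
      linarith
    · linarith
    · have h5 := (abs_le.mp ((hin _).trans (h1.2.1 k))).2
      linarith
  · have hfx := hFl (hgt.le.trans ht.2)
    have htg : t ∈ Icc gunT T := ⟨hgt.le, ht.2⟩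
    -- the ratios of the masses
    obtain ⟨c, hc⟩ : ∃ c, c = (m 1 + m 2) / (m 0 + m 1 + m 2) := ⟨_, rfl⟩
    obtain ⟨d, hd⟩ : ∃ d, d = m 0 / (m 0 + m 1 + m 2) := ⟨_, rfl⟩
    obtain ⟨r, hr⟩ : ∃ r, r = (m 0 + m 1 + m 2)⁻¹ := ⟨_, rfl⟩
    have hc1 : 6 / 10 ≤ c := by
      rw [hc, div_le_div_iff₀ (by norm_num) hM3]
      linarith [hm0.2, hm1.1, hm2.1]
    have hd1 : 3 / 10 ≤ d := by
      rw [hd, div_le_div_iff₀ (by norm_num) hM3]
      linarith [hm0.1, hm1.2, hm2.2]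
    have hr0 : 0 < r := by rw [hr]; positivity
    have hr1 : r ≤ 1 / 2 := by
      rw [hr, inv_le_comm₀ hM3 (by norm_num)]
      linarith [hm0.1, hm1.1, hm2.1]
    -- the centre of mass
    have hS0 : ‖∑ k, m k • Q 0 k‖ ≤ 4 := by
      have h1 := norm_sum3_le hm10 (g := fun k => Q 0 k) (C := 1) (fun k => by
        show ‖Q 0 k‖ ≤ 1
        rw [hQ k]
        exact (gunShape he he2).le k)
      linarith
    have hSt : ‖∑ k, m k • Q t k‖ ≤ 4 + 2 * t / 25 := by
      have h1 := (hB t ht).2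
      have h2 : ‖∑ k, m k • Q t k‖ ≤ ‖∑ k, m k • Q t k - ∑ k, m k • Q 0 k‖ +
          ‖∑ k, m k • Q 0 k‖ := by
        simpa using norm_add_le (∑ k, m k • Q t k - ∑ k, m k • Q 0 k) (∑ k, m k • Q 0 k)
      nlinarith
    have hSV : ‖∑ k, m k • V t k‖ ≤ 2 / 25 := by
      have h1 := (hB t ht).1
      linarith
    have hSe := abs_le.mp ((hin _).trans hSt)
    have hSVe := abs_le.mp ((hin _).trans hSV)
    have hge := hfx.base.y_ge t htg
    have hve := hfx.ve t htg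
    have hx1 := abs_le.mp ((hin _).trans (hfx.base.x_le t htg))
    have hrel0 : ∀ q : Fin 3 → V3, ⟪q 0, e⟫ = r * ⟪∑ k, m k • q k, e⟫ + c * ⟪rel m q, e⟫ := by
      intro q
      have h1 := congrArg (fun x : V3 => ⟪x, e⟫) (body0 hM2.ne' hM3.ne' q)
      simp only [inner_add_left, real_inner_smul_left] at h1
      rw [h1, ← hr, ← hc]
    refine ⟨?_, fun _ => ?_, fun k hk => ?_⟩
    · rw [hrel0]
      have h1 : -(1 / 2 * (4 + 2 * t / 25)) ≤ r * ⟪∑ k, m k • Q t k, e⟫ := by nlinarith [hSe.1]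
      have h2 : 6 / 10 * (2 / 3 + 11 / 10 * (t - gunT)) ≤ c * ⟪rel m (Q t), e⟫ := by
        apply mul_le_mul hc1 hge _ (by linarith)
        nlinarith
      nlinarith
    · rw [hrel0]
      have h1 : -(1 / 2 * (2 / 25)) ≤ r * ⟪∑ k, m k • V t k, e⟫ := by nlinarith [hSVe.1]
      have h2 : 6 / 10 * (11 / 10) ≤ c * ⟪rel m (V t), e⟫ :=
        mul_le_mul hc1 hve (by norm_num) (by linarith)
      linarith
    · have h1 : r * ⟪∑ k, m k • Q t k, e⟫ ≤ 1 / 2 * (4 + 2 * t / 25) := by nlinarith [hSe.2]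
      have h2 : 3 / 10 * (2 / 3 + 11 / 10 * (t - gunT)) ≤ d * ⟪rel m (Q t), e⟫ := by
        apply mul_le_mul hd1 hge _ (by linarith)
        nlinarith
      have hw : ∀ c : ℝ, 0 ≤ c → c ≤ 1 → |c * ⟪Q t 2 - Q t 1, e⟫| ≤ 1 / 3 := by
        intro c h0 h1
        rw [abs_mul, abs_of_nonneg h0]
        calc c * |⟪Q t 2 - Q t 1, e⟫| ≤ 1 * (1 / 3) :=
              mul_le_mul h1 (abs_le.mpr hx1) (abs_nonneg _) (by norm_num)
          _ = 1 / 3 := one_mul _
      have e4 := abs_le.mp (hw (m 2 / (m 1 + m 2)) (div_nonneg (by linarith [hm2.1]) hM2.le)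
        (by rw [div_le_one hM2]; linarith [hm1.1]))
      have e5 := abs_le.mp (hw (m 1 / (m 1 + m 2)) (div_nonneg (by linarith [hm1.1]) hM2.le)
        (by rw [div_le_one hM2]; linarith [hm2.1]))
      fin_cases k
      · exact absurd rfl hk
      · show ⟪Q t 1, e⟫ ≤ _
        have h3 := congrArg (fun x : V3 => ⟪x, e⟫) (body1 hM2.ne' hM3.ne' (Q t))
        simp only [inner_sub_left, real_inner_smul_left] at h3
        rw [← hr, ← hd] at h3
        rw [inner_sub_left] at e4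
        linarith [e4.1, e4.2]
      · show ⟪Q t 2, e⟫ ≤ _
        have h3 := congrArg (fun x : V3 => ⟪x, e⟫) (body2 hM2.ne' hM3.ne' (Q t))
        simp only [inner_add_left, inner_sub_left, real_inner_smul_left] at h3
        rw [← hr, ← hd] at h3
        rw [inner_sub_left] at e5
        linarith [e5.1, e5.2]

end Pool.Agent.NBody
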