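import Mathlib
import Pool.Agent.NBody.ThGunV
import Pool.Agent.NBody.ThFlightM

/-!
The gun for masses near one and small initial velocities exists.
-/

set_option autoImplicit false
open scoped RealInnerProductSpace
open Set Finset Filter Topology

namespace Pool.Agent.NBody

theorem gun3_exists : ∃ (s : Fin 3 → V3) (e : V3) (μ₀ C₀ η₀ : ℝ), 0 < μ₀ ∧ 0 < C₀ ∧ 0 < η₀ ∧
    GunShape s e ∧ GunProp3 s e μ₀ C₀ η₀ :=
  gun3_of (gunEncVM_of gun_encV) (by norm_num) (by norm_num) (by norm_num) Flt.norm_dirE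
    (by simp [Flt.dirE]) FltM.flightPropM

end Pool.Agent.NBody
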