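import Mathlib
import Pool.Agent.NBody.ThDefs

/-!
From the complete reparametrised flow to solutions in Newtonian time.
-/

set_option autoImplicit false
open scoped RealInnerProductSpace
open Set Finset Filter Topology

namespace Pool.Agent.NBody

/-- A strictly increasing change of time and its inverse. -/
theorem exists_clock {g : ℝ → ℝ} (hg : Continuous g) (hpos : ∀ s, 0 < g s) :
    ∃ τ σ : ℝ → ℝ, τ 0 = 0 ∧ StrictMono τ ∧ Continuous τ ∧
      (∀ s, τ s = ∫ x in (0 : ℝ)..s, g x) ∧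
      (∀ s, HasDerivAt τ (g s) s) ∧ (∀ s, σ (τ s) = s) ∧
      ∀ s, HasDerivAt σ (g s)⁻¹ (τ s) := by
  set τ : ℝ → ℝ := fun s => ∫ x in (0 : ℝ)..s, g x with hτ
  have hd : ∀ s, HasDerivAt τ (g s) s := fun s => (hg.integral_hasStrictDerivAt 0 s).hasDerivAt
  have hc : Continuous τ := continuous_iff_continuousAt.mpr fun s => (hd s).continuousAt
  have hm : StrictMono τ := by
    apply strictMono_of_deriv_pos
    intro s
    rw [(hd s).deriv]
    exact hpos s
  have hinv : ∀ s, Function.invFun τ (τ s) = s := Function.leftInverse_invFun hm.injective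
  have hrange : ∀ s, ∀ ε > 0, ∃ δ > 0, ∀ t, |t - τ s| < δ → ∃ u, |u - s| < ε ∧ τ u = t := by
    intro s ε hε
    have h1 : τ (s - ε) < τ s := hm (by linarith)
    have h2 : τ s < τ (s + ε) := hm (by linarith)
    refine ⟨min (τ s - τ (s - ε)) (τ (s + ε) - τ s), by
      apply lt_min <;> linarith, ?_⟩
    intro t ht
    rw [lt_min_iff, abs_lt, abs_lt] at ht
    have h3 : t ∈ Set.Ioo (τ (s - ε)) (τ (s + ε)) := ⟨by linarith [ht.1.1], by linarith [ht.2.2]⟩
    obtain ⟨u, hu, hut⟩ := intermediate_value_Ioo (by linarith : s - ε ≤ s + ε)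
      hc.continuousOn h3
    exact ⟨u, by rw [abs_lt]; constructor <;> linarith [hu.1, hu.2], hut⟩
  refine ⟨τ, Function.invFun τ, by simp [hτ], hm, hc, fun s => rfl, hd, hinv, ?_⟩
  intro s
  have hcont : ContinuousAt (Function.invFun τ) (τ s) := by
    rw [Metric.continuousAt_iff]
    intro ε hε
    obtain ⟨δ, hδ, h⟩ := hrange s ε hε
    refine ⟨δ, hδ, ?_⟩
    intro t ht
    rw [Real.dist_eq] at ht
    obtain ⟨u, hu, hut⟩ := h t ht
    rw [← hut, hinv, hinv, Real.dist_eq]
    exact hu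
  have hloc : ∀ᶠ t in 𝓝 (τ s), τ (Function.invFun τ t) = t := by
    obtain ⟨δ, hδ, h⟩ := hrange s 1 one_pos
    filter_upwards [Metric.ball_mem_nhds (τ s) hδ] with t ht
    rw [Metric.mem_ball, Real.dist_eq] at ht
    obtain ⟨u, -, hut⟩ := h t ht
    rw [← hut, hinv]
  have hds : HasDerivAt τ (g s) (Function.invFun τ (τ s)) := by
    rw [hinv]
    exact hd s
  exact hds.of_local_left_inverse hcont (hpos s).ne' hloc

/-- From the complete flow to Newtonian time: if every solution in Newtonian time stays in a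
compact set without collisions, the orbit reaches the Newtonian time `T`. -/
theorem transfer {N : ℕ} (hN : 1 ≤ N) {S : Set (Ph N)} {ψ : Ph N → ℝ} {φ : ℝ → Ph N → Ph N}
    (hset : Setting (fun _ : Fin N => 1 / (N : ℝ)) S ψ φ) {y : Ph N} (hy : y ∈ S) {T : ℝ}
    (hT : 0 ≤ T)
    (hK : ∃ K : Set (Ph N), IsCompact K ∧ K ⊆ NC N ∧
        ∀ T' : ℝ, 0 ≤ T' → T' ≤ T → ∀ q v : ℝ → Fin N → V3,
          IsSol (1 / (N : ℝ)) T' (fun _ _ => 0) q v → q 0 = y.1 → v 0 = (N : ℝ) • y.2 →
          ∀ t ∈ Icc (0 : ℝ) T', ((q t, (1 / (N : ℝ)) • v t) : Ph N) ∈ K) :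
    ∃ q v : ℝ → Fin N → V3, IsSol (1 / (N : ℝ)) T (fun _ _ => 0) q v ∧ q 0 = y.1 ∧
      v 0 = (N : ℝ) • y.2 ∧ ∃ s : ℝ, φ s y = ((q T, (1 / (N : ℝ)) • v T) : Ph N) := by
  have hN0 : (N : ℝ) ≠ 0 := by
    have : (0 : ℝ) < N := by exact_mod_cast hN
    exact this.ne'
  obtain ⟨K, hKc, hKN, hK⟩ := hK
  set m : Fin N → ℝ := fun _ => 1 / (N : ℝ) with hm
  have hX0 : φ 0 y = y := (hset.flow y hy).1
  have hXS : ∀ s, φ s y ∈ S := fun s => ((hset.flow y hy).2 s).1
  have hXN : ∀ s, φ s y ∈ NC N := fun s => hset.sub (hXS s)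
  have hXd : ∀ s, HasDerivAt (fun s => φ s y) (ψ (φ s y) • field m (φ s y)) s :=
    fun s => ((hset.flow y hy).2 s).2
  have hXc : Continuous (fun s => φ s y) :=
    continuous_iff_continuousAt.mpr fun s => (hXd s).continuousAt
  have hgc : Continuous (fun s => ψ (φ s y)) :=
    hset.smooth.continuousOn.comp_continuous hXc hXN
  obtain ⟨τ, σ, hτ0, hτm, hτc, hτi, hτd, hστ, hσd⟩ :=
    exists_clock hgc (fun s => hset.pos _ (hXN s))
  set Y : ℝ → Ph N := fun t => φ (σ t) y with hY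
  have hYd : ∀ s, HasDerivAt Y (field m (Y (τ s))) (τ s) := by
    intro s
    have h1 : HasDerivAt (fun s => φ s y) (ψ (φ s y) • field m (φ s y)) (σ (τ s)) := by
      rw [hστ]
      exact hXd s
    have h2 := h1.scomp (τ s) (hσd s)
    have h3 : (ψ (φ s y))⁻¹ • ψ (φ s y) • field m (φ s y) = field m (Y (τ s)) := by
      rw [smul_smul, inv_mul_cancel₀ (hset.pos _ (hXN s)).ne', one_smul, hY]
      simp only [hστ]
    rw [h3] at h2
    exact h2
  have hYN : ∀ t, Y t ∈ NC N := fun t => hXN _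
  have hsol : ∀ s, 0 ≤ s → IsSol (1 / (N : ℝ)) (τ s) (fun _ _ => 0) (fun t => (Y t).1)
      (fun t => (N : ℝ) • (Y t).2) := by
    intro s hs
    have hr : ∀ t ∈ Icc (0 : ℝ) (τ s), ∃ u, τ u = t := by
      intro t ht
      have h1 : t ∈ Icc (τ 0) (τ s) := by rwa [hτ0]
      obtain ⟨u, -, hu⟩ := intermediate_value_Icc hs hτc.continuousOn h1
      exact ⟨u, hu⟩
    refine ⟨?_, ?_, ?_⟩
    · intro t ht i
      obtain ⟨u, rfl⟩ := hr t ht
      have h1 := (hasDerivAt_pi.mp (hYd u).fst) i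
      have h2 : (field m (Y (τ u))).1 i = ((N : ℝ) • (Y (τ u)).2) i := by
        simp [field, hm]
      rw [h2] at h1
      exact h1.hasDerivWithinAt
    · intro t ht i
      obtain ⟨u, rfl⟩ := hr t ht
      have h1 := ((hasDerivAt_pi.mp (hYd u).snd) i).const_smul (N : ℝ)
      have h2 : (N : ℝ) • (field m (Y (τ u))).2 i =
          acc (1 / (N : ℝ)) ((Y (τ u)).1) i + 0 := by
        simp only [field, force, acc, hm, add_zero, Finset.smul_sum, smul_smul]
        apply Finset.sum_congr rfl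
        intro j _
        congr 1
        field_simp
      rw [h2] at h1
      exact h1.hasDerivWithinAt
    · intro t ht i j hij
      exact hYN t i j hij
  have hY0 : Y 0 = y := by
    have : σ 0 = 0 := by
      have := hστ 0
      rwa [hτ0] at this
    simp only [hY, this, hX0]
  have hinK : ∀ s, 0 ≤ s → τ s ≤ T → φ s y ∈ K := by
    intro s hs hsT
    have h0 : 0 ≤ τ s := by
      rw [← hτ0]
      exact hτm.monotone hs
    have h1 := hK (τ s) h0 hsT _ _ (hsol s hs) (by simp only [hY0]) (by simp only [hY0])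
      (τ s) ⟨h0, le_rfl⟩
    have h2 : ((Y (τ s)).1, (1 / (N : ℝ)) • ((N : ℝ) • (Y (τ s)).2)) = φ s y := by
      rw [smul_smul, one_div, inv_mul_cancel₀ hN0, one_smul]
      simp only [hY, hστ]
    rw [← h2]
    exact h1
  -- the clock reaches `T`
  have hreach : ∃ s, 0 ≤ s ∧ τ s = T := by
    by_contra hcon
    push Not at hcon
    have hlt : ∀ s, 0 ≤ s → τ s < T := by
      intro s hs
      by_contra hge
      push Not at hge
      have h1 : T ∈ Icc (τ 0) (τ s) := ⟨by rwa [hτ0], hge⟩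
      obtain ⟨u, hu, huT⟩ := intermediate_value_Icc hs hτc.continuousOn h1
      exact hcon u hu.1 huT
    have hKne : K.Nonempty := ⟨_, hinK 0 le_rfl (hlt 0 le_rfl).le⟩
    obtain ⟨k, hkK, hk⟩ := hKc.exists_isMinOn hKne (hset.smooth.continuousOn.mono hKN)
    have hkpos : 0 < ψ k := hset.pos k (hKN hkK)
    have hlow : ∀ s, 0 ≤ s → ψ k * s ≤ τ s := by
      intro s hs
      rw [hτi]
      have h1 : ∫ x in (0 : ℝ)..s, ψ k = ψ k * s := by simp [mul_comm]
      rw [← h1]
      apply intervalIntegral.integral_mono_on hs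
      · exact intervalIntegrable_const
      · exact hgc.intervalIntegrable _ _
      · intro x hx
        exact hk (hinK x hx.1 (hlt x hx.1).le)
    have h1 := hlow ((T + 1) / ψ k) (by positivity)
    have h2 := hlt ((T + 1) / ψ k) (by positivity)
    rw [mul_div_cancel₀ _ hkpos.ne'] at h1
    linarith
  obtain ⟨s, hs, hsT⟩ := hreach
  refine ⟨fun t => (Y t).1, fun t => (N : ℝ) • (Y t).2, ?_, ?_, ?_, s, ?_⟩
  · rw [← hsT]
    exact hsol s hs
  · simp only [hY0]
  · simp only [hY0]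
  · simp only [← hsT]
    rw [smul_smul, one_div, inv_mul_cancel₀ hN0, one_smul]
    simp only [hY, hστ]

end Pool.Agent.NBody
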