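import Mathlib
import Pool.Agent.NBody.ThTransfer
import Pool.Agent.NBody.ThFront
import Pool.Agent.NBody.Infinity2

/-!
The theorem on many bodies, deduced from the bootstrap and the construction of prepared states.
-/

set_option autoImplicit false
open scoped RealInnerProductSpace
open Set Finset Filter Topology

namespace Pool.Agent.NBody

theorem log_small {a : ℝ} (ha : 0 < a) : ∃ N₀ : ℕ, ∀ N : ℕ, N₀ ≤ N →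
    864 * Real.log (1 + N) < (a * √(N : ℝ)) ^ 2 * 1 := by
  have h1 : ∀ᶠ x : ℝ in atTop, ‖Real.log x‖ ≤ a ^ 2 / 3456 * ‖(id x : ℝ)‖ :=
    Real.isLittleO_log_id_atTop.def (by positivity)
  have h2 : Tendsto (fun N : ℕ => (1 : ℝ) + N) atTop atTop :=
    tendsto_atTop_add_const_left _ _ tendsto_natCast_atTop_atTop
  obtain ⟨N₀, hN₀⟩ := eventually_atTop.mp (h2.eventually h1)
  refine ⟨max N₀ 1, fun N hN => ?_⟩
  have hN1 : (1 : ℝ) ≤ N := by exact_mod_cast le_trans (le_max_right _ _) hN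
  have h3 := hN₀ N (le_trans (le_max_left _ _) hN)
  have h4 : Real.log (1 + N) ≤ a ^ 2 / 3456 * (1 + N) := by
    calc Real.log (1 + N) ≤ ‖Real.log (1 + N)‖ := Real.le_norm_self _
      _ ≤ a ^ 2 / 3456 * ‖(id (1 + (N : ℝ)) : ℝ)‖ := h3
      _ = a ^ 2 / 3456 * (1 + N) := by
        rw [id, Real.norm_of_nonneg (by positivity)]
  have h5 : (a * √(N : ℝ)) ^ 2 * 1 = a ^ 2 * N := by
    rw [mul_one, mul_pow, Real.sq_sqrt (by positivity)]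
  rw [h5]
  have ha2 : 0 < a ^ 2 := by positivity
  nlinarith

/-- The theorem on many bodies, given the bootstrap `hboot` and the prepared states `hprep`. -/
theorem many_bodies_of {s : Fin 3 → V3} {e : V3} (hs : GunShape s e)
    (hboot : ∀ (R c b : ℝ), 0 < R → 0 < c → 0 < b →
      ∃ (κ a : ℝ) (N₀ : ℕ), 0 < κ ∧ 0 < a ∧ ∀ N : ℕ, N₀ ≤ N →
      ∀ (r : ℝ) (g : Fin 3 → Fin N) (z w : V3) (q₀ v₀ : Fin N → V3),
      b / (N : ℝ) ^ 2 ≤ r → r ≤ 1 / (b * (N : ℝ) ^ 2) →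
      Prep N R c (b * (N : ℝ) ^ (-(1 / 3) : ℝ)) r s g z w q₀ v₀ →
      (∃ K : Set (Ph N), IsCompact K ∧ K ⊆ NC N ∧
        ∀ T' : ℝ, 0 ≤ T' → T' ≤ κ / √(N : ℝ) → ∀ q v : ℝ → Fin N → V3,
          IsSol (1 / (N : ℝ)) T' (fun _ _ => 0) q v → q 0 = q₀ → v 0 = v₀ →
          ∀ t ∈ Icc (0 : ℝ) T', ((q t, (1 / (N : ℝ)) • v t) : Ph N) ∈ K) ∧
      (∀ q v : ℝ → Fin N → V3,
          IsSol (1 / (N : ℝ)) (κ / √(N : ℝ)) (fun _ _ => 0) q v → q 0 = q₀ → v 0 = v₀ →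
          (∀ j, j ≠ g 0 → ⟪q (κ / √(N : ℝ)) j, e⟫ + 1 ≤ ⟪q (κ / √(N : ℝ)) (g 0), e⟫) ∧
          a * √(N : ℝ) ≤ ⟪v (κ / √(N : ℝ)) (g 0), e⟫))
    (hprep : ∀ (E R V δ : ℝ), 0 < δ →
      ∃ (R' c b : ℝ) (N₀ : ℕ), 0 < R' ∧ 0 < c ∧ 0 < b ∧ ∀ N : ℕ, N₀ ≤ N → ∀ x : Ph N, x ∈ NC N →
      ∑ i, x.1 i = 0 → ∑ i, x.2 i = 0 →
      kin (fun _ => 1 / (N : ℝ)) x.2 - pot (fun _ => 1 / (N : ℝ)) x.1 = E →
      (∀ i, ‖x.1 i‖ ≤ R) → (∀ i, (N : ℝ) * ‖x.2 i‖ ≤ V) →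
      ∃ (r : ℝ) (g : Fin 3 → Fin N) (z w : V3) (q v : Fin N → V3),
        b / (N : ℝ) ^ 2 ≤ r ∧ r ≤ 1 / (b * (N : ℝ) ^ 2) ∧
        Prep N R' c (b * (N : ℝ) ^ (-(1 / 3) : ℝ)) r s g z w q v ∧
        ((q, (1 / (N : ℝ)) • v) : Ph N) ∈ NC N ∧ ∑ i, q i = 0 ∧ ∑ i, v i = 0 ∧
        kin (fun _ => 1 / (N : ℝ)) ((1 / (N : ℝ)) • v) - pot (fun _ => 1 / (N : ℝ)) q = E ∧
        (∀ i, ‖q i - x.1 i‖ ≤ δ) ∧ (∀ i, ‖v i - (N : ℝ) • x.2 i‖ ≤ δ))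
    (E R V δ : ℝ) (hδ : 0 < δ) :
    ∃ N₀ : ℕ, ∀ N : ℕ, N₀ ≤ N → ∀ (S : Set (Ph N)) (ψ : Ph N → ℝ) (φ : ℝ → Ph N → Ph N),
      Setting (fun _ : Fin N => 1 / (N : ℝ)) S ψ φ →
      (∀ x : Ph N, x ∈ S ↔ (∀ i j, i ≠ j → x.1 i ≠ x.1 j) ∧
        ∑ i, (1 / (N : ℝ)) • x.1 i = 0 ∧ ∑ i, x.2 i = 0 ∧
        kin (fun _ => 1 / (N : ℝ)) x.2 - pot (fun _ => 1 / (N : ℝ)) x.1 = E) →
      ∀ x ∈ S, (∀ i, ‖x.1 i‖ ≤ R) → (∀ i, (N : ℝ) * ‖x.2 i‖ ≤ V) →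
        ∃ y ∈ S, Wandering S φ y ∧ (∀ i, ‖y.1 i - x.1 i‖ ≤ δ) ∧
          (∀ i, (N : ℝ) * ‖y.2 i - x.2 i‖ ≤ δ) := by
  obtain ⟨R', c, b, N₁, hR', hc, hb, H1⟩ := hprep E R V δ hδ
  obtain ⟨κ, a, N₂, hκ, ha, H2⟩ := hboot R' c b hR' hc hb
  obtain ⟨N₃, H3⟩ := log_small ha
  refine ⟨max (max N₁ N₂) (max N₃ 1), ?_⟩
  intro N hN S ψ φ hset hS x hx hxR hxV
  have hN1 : N₁ ≤ N := le_trans (le_trans (le_max_left _ _) (le_max_left _ _)) hN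
  have hN2 : N₂ ≤ N := le_trans (le_trans (le_max_right _ _) (le_max_left _ _)) hN
  have hN3 : N₃ ≤ N := le_trans (le_trans (le_max_left _ _) (le_max_right _ _)) hN
  have hN4 : 1 ≤ N := le_trans (le_trans (le_max_right _ _) (le_max_right _ _)) hN
  have hNr : (0 : ℝ) < N := by exact_mod_cast hN4
  obtain ⟨hx1, hx2, hx3, hx4⟩ := (hS x).mp hx
  have hx2' : ∑ i, x.1 i = 0 := by
    rw [← Finset.smul_sum] at hx2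
    exact (smul_eq_zero.mp hx2).resolve_left (by positivity)
  obtain ⟨r, g, z, w, q, v, hr1, hr2, hp, hnc, hq0, hv0, hE, hq, hv⟩ :=
    H1 N hN1 x hx1 hx2' hx3 hx4 hxR hxV
  obtain ⟨⟨K, hK1, hK2, hK3⟩, H4⟩ := H2 N hN2 r g z w q v hr1 hr2 hp
  have hNv : (N : ℝ) • ((1 / (N : ℝ)) • v) = v := by
    rw [smul_smul, mul_one_div_cancel hNr.ne', one_smul]
  have hyS : ((q, (1 / (N : ℝ)) • v) : Ph N) ∈ S := by
    rw [hS]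
    refine ⟨hnc, ?_, ?_, hE⟩
    · rw [← Finset.smul_sum, hq0, smul_zero]
    · simp only [Pi.smul_apply]
      rw [← Finset.smul_sum, hv0, smul_zero]
  have hT : (0 : ℝ) ≤ κ / √(N : ℝ) := by positivity
  obtain ⟨q', v', hsol, hq'0, hv'0, t, ht⟩ := transfer hN4 hset hyS hT
    ⟨K, hK1, hK2, fun T' hT'0 hT' q' v' hsol h0 h1 =>
      hK3 T' hT'0 hT' q' v' hsol h0 (by rw [h1]; exact hNv)⟩
  obtain ⟨H5, H6⟩ := H4 q' v' hsol hq'0 (by rw [hv'0]; exact hNv)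
  refine ⟨(q, (1 / (N : ℝ)) • v), hyS, ?_, hq, ?_⟩
  · refine front hN4 hset hyS t (g 0) e hs.norm.le 1 (a * √(N : ℝ)) one_pos (by positivity)
      ?_ ?_ (H3 N hN3)
    · rw [ht]
      exact H5
    · rw [ht]
      have h1 : (N : ℝ) • ((1 / (N : ℝ)) • v' (κ / √(N : ℝ))) (g 0) = v' (κ / √(N : ℝ)) (g 0) := by
        rw [Pi.smul_apply, smul_smul, mul_one_div_cancel hNr.ne', one_smul]
      show a * √(N : ℝ) ≤ ⟪(N : ℝ) • ((1 / (N : ℝ)) • v' (κ / √(N : ℝ))) (g 0), e⟫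
      rw [h1]
      exact H6
  · intro i
    have h1 : (N : ℝ) * ‖((1 / (N : ℝ)) • v) i - x.2 i‖ = ‖v i - (N : ℝ) • x.2 i‖ := by
      rw [← Real.norm_of_nonneg hNr.le, ← norm_smul, smul_sub, Real.norm_of_nonneg hNr.le,
        Pi.smul_apply, smul_smul, mul_one_div_cancel hNr.ne', one_smul]
    show (N : ℝ) * ‖((1 / (N : ℝ)) • v) i - x.2 i‖ ≤ δ
    rw [h1]
    exact hv i

end Pool.Agent.NBody
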