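import Mathlib
import Pool.Agent.NBody.ThDefsM
import Pool.Agent.NBody.ThTransfer
import Pool.Agent.NBody.FrontCrit

/-!
From the complete reparametrised flow to solutions in Newtonian time, and the escape criterion,
for arbitrary masses.
-/

set_option autoImplicit false
open scoped RealInnerProductSpace
open Set Finset Filter Topology

namespace Pool.Agent.NBody

/-- T2: from the complete flow to Newtonian time, arbitrary masses: if every solution in Newtonian
time stays in a compact set without collisions, the orbit reaches the Newtonian time `T`. -/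
theorem transferM {N : ℕ} {m : Fin N → ℝ} (hm : ∀ i, 0 < m i) {S : Set (Ph N)} {ψ : Ph N → ℝ}
    {φ : ℝ → Ph N → Ph N} (hset : Setting m S ψ φ) {q₀ v₀ : Fin N → V3}
    (hy : ((q₀, fun i => m i • v₀ i) : Ph N) ∈ S) {T : ℝ} (hT : 0 ≤ T)
    (hK : ∃ K : Set (Ph N), IsCompact K ∧ K ⊆ NC N ∧
        ∀ T' : ℝ, 0 ≤ T' → T' ≤ T → ∀ q v : ℝ → Fin N → V3,
          IsSolM m T' (fun _ _ => 0) q v → q 0 = q₀ → v 0 = v₀ →
          ∀ t ∈ Icc (0 : ℝ) T', ((q t, fun i => m i • v t i) : Ph N) ∈ K) :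
    ∃ q v : ℝ → Fin N → V3, IsSolM m T (fun _ _ => 0) q v ∧ q 0 = q₀ ∧ v 0 = v₀ ∧
      ∃ s : ℝ, φ s ((q₀, fun i => m i • v₀ i) : Ph N) =
        ((q T, fun i => m i • v T i) : Ph N) := by
  obtain ⟨K, hKc, hKN, hK⟩ := hK
  obtain ⟨y, hyd⟩ : ∃ y : Ph N, y = ((q₀, fun i => m i • v₀ i) : Ph N) := ⟨_, rfl⟩
  rw [← hyd] at hy ⊢
  have hy1 : y.1 = q₀ := by rw [hyd]
  have hy2 : ∀ i, (m i)⁻¹ • y.2 i = v₀ i := by
    intro i
    rw [hyd]
    simp only
    rw [smul_smul, inv_mul_cancel₀ (hm i).ne', one_smul]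
  have hX0 : φ 0 y = y := (hset.flow y hy).1
  have hXS : ∀ s, φ s y ∈ S := fun s => ((hset.flow y hy).2 s).1
  have hXN : ∀ s, φ s y ∈ NC N := fun s => hset.sub (hXS s)
  have hXd : ∀ s, HasDerivAt (fun s => φ s y) (ψ (φ s y) • field m (φ s y)) s :=
    fun s => ((hset.flow y hy).2 s).2
  have hXc : Continuous (fun s => φ s y) :=
    continuous_iff_continuousAt.mpr fun s => (hXd s).continuousAt
  have hgc : Continuous (fun s => ψ (φ s y)) :=
    hset.smooth.continuousOn.comp_continuous hXc hXN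
  obtain ⟨τ, σ, hτ0, hτm, hτc, hτi, hτd, hστ, hσd⟩ :=
    exists_clock hgc (fun s => hset.pos _ (hXN s))
  set Y : ℝ → Ph N := fun t => φ (σ t) y with hY
  have hYd : ∀ s, HasDerivAt Y (field m (Y (τ s))) (τ s) := by
    intro s
    have h1 : HasDerivAt (fun s => φ s y) (ψ (φ s y) • field m (φ s y)) (σ (τ s)) := by
      rw [hστ]
      exact hXd s
    have h2 := h1.scomp (τ s) (hσd s)
    have h3 : (ψ (φ s y))⁻¹ • ψ (φ s y) • field m (φ s y) = field m (Y (τ s)) := by
      rw [smul_smul, inv_mul_cancel₀ (hset.pos _ (hXN s)).ne', one_smul, hY]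
      simp only [hστ]
    rw [h3] at h2
    exact h2
  have hYN : ∀ t, Y t ∈ NC N := fun t => hXN _
  have hsol : ∀ s, 0 ≤ s → IsSolM m (τ s) (fun _ _ => 0) (fun t => (Y t).1)
      (fun t i => (m i)⁻¹ • (Y t).2 i) := by
    intro s hs
    have hr : ∀ t ∈ Icc (0 : ℝ) (τ s), ∃ u, τ u = t := by
      intro t ht
      have h1 : t ∈ Icc (τ 0) (τ s) := by rwa [hτ0]
      obtain ⟨u, -, hu⟩ := intermediate_value_Icc hs hτc.continuousOn h1
      exact ⟨u, hu⟩
    refine ⟨?_, ?_, ?_⟩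
    · intro t ht i
      obtain ⟨u, rfl⟩ := hr t ht
      have h1 := (hasDerivAt_pi.mp (hYd u).fst) i
      exact h1.hasDerivWithinAt
    · intro t ht i
      obtain ⟨u, rfl⟩ := hr t ht
      have h1 := ((hasDerivAt_pi.mp (hYd u).snd) i).const_smul ((m i)⁻¹)
      have h2 : (m i)⁻¹ • (field m (Y (τ u))).2 i = accM m ((Y (τ u)).1) i + 0 := by
        simp only [field, force, accM, add_zero, Finset.smul_sum, smul_smul]
        apply Finset.sum_congr rfl
        intro j _
        congr 1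
        have := (hm i).ne'
        field_simp
      rw [h2] at h1
      exact h1.hasDerivWithinAt
    · intro t ht i j hij
      exact hYN t i j hij
  have hY0 : Y 0 = y := by
    have : σ 0 = 0 := by
      have := hστ 0
      rwa [hτ0] at this
    simp only [hY, this, hX0]
  have hback : ∀ z : Ph N, ((z.1, fun i => m i • (m i)⁻¹ • z.2 i) : Ph N) = z := by
    intro z
    refine Prod.ext rfl ?_
    funext i
    simp only
    rw [smul_smul, mul_inv_cancel₀ (hm i).ne', one_smul]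
  have hinK : ∀ s, 0 ≤ s → τ s ≤ T → φ s y ∈ K := by
    intro s hs hsT
    have h0 : 0 ≤ τ s := by
      rw [← hτ0]
      exact hτm.monotone hs
    have h1 := hK (τ s) h0 hsT _ _ (hsol s hs) (by simp only [hY0, hy1])
      (by simp only [hY0, hy2]) (τ s) ⟨h0, le_rfl⟩
    have h2 : (((Y (τ s)).1, fun i => m i • (m i)⁻¹ • (Y (τ s)).2 i) : Ph N) = φ s y := by
      rw [hback]
      simp only [hY, hστ]
    rw [← h2]
    exact h1
  -- the clock reaches `T`
  have hreach : ∃ s, 0 ≤ s ∧ τ s = T := by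
    by_contra hcon
    push Not at hcon
    have hlt : ∀ s, 0 ≤ s → τ s < T := by
      intro s hs
      by_contra hge
      push Not at hge
      have h1 : T ∈ Icc (τ 0) (τ s) := ⟨by rwa [hτ0], hge⟩
      obtain ⟨u, hu, huT⟩ := intermediate_value_Icc hs hτc.continuousOn h1
      exact hcon u hu.1 huT
    have hKne : K.Nonempty := ⟨_, hinK 0 le_rfl (hlt 0 le_rfl).le⟩
    obtain ⟨k, hkK, hk⟩ := hKc.exists_isMinOn hKne (hset.smooth.continuousOn.mono hKN)
    have hkpos : 0 < ψ k := hset.pos k (hKN hkK)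
    have hlow : ∀ s, 0 ≤ s → ψ k * s ≤ τ s := by
      intro s hs
      rw [hτi]
      have h1 : ∫ x in (0 : ℝ)..s, ψ k = ψ k * s := by simp [mul_comm]
      rw [← h1]
      apply intervalIntegral.integral_mono_on hs
      · exact intervalIntegrable_const
      · exact hgc.intervalIntegrable _ _
      · intro x hx
        exact hk (hinK x hx.1 (hlt x hx.1).le)
    have h1 := hlow ((T + 1) / ψ k) (by positivity)
    have h2 := hlt ((T + 1) / ψ k) (by positivity)
    rw [mul_div_cancel₀ _ hkpos.ne'] at h1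
    linarith
  obtain ⟨s, hs, hsT⟩ := hreach
  refine ⟨fun t => (Y t).1, fun t i => (m i)⁻¹ • (Y t).2 i, ?_, ?_, ?_, s, ?_⟩
  · rw [← hsT]
    exact hsol s hs
  · simp only [hY0, hy1]
  · simp only [hY0, hy2]
  · simp only [← hsT]
    rw [hback]
    simp only [hY, hστ]

/-- `transferM` in terms of the state `y`. -/
theorem transferM_state {N : ℕ} {m : Fin N → ℝ} (hm : ∀ i, 0 < m i) {S : Set (Ph N)}
    {ψ : Ph N → ℝ} {φ : ℝ → Ph N → Ph N} (hset : Setting m S ψ φ) {y : Ph N} (hy : y ∈ S)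
    {T : ℝ} (hT : 0 ≤ T)
    (hK : ∃ K : Set (Ph N), IsCompact K ∧ K ⊆ NC N ∧
        ∀ T' : ℝ, 0 ≤ T' → T' ≤ T → ∀ q v : ℝ → Fin N → V3,
          IsSolM m T' (fun _ _ => 0) q v → q 0 = y.1 → v 0 = (fun i => (m i)⁻¹ • y.2 i) →
          ∀ t ∈ Icc (0 : ℝ) T', ((q t, fun i => m i • v t i) : Ph N) ∈ K) :
    ∃ q v : ℝ → Fin N → V3, IsSolM m T (fun _ _ => 0) q v ∧ q 0 = y.1 ∧
      v 0 = (fun i => (m i)⁻¹ • y.2 i) ∧
      ∃ s : ℝ, φ s y = ((q T, fun i => m i • v T i) : Ph N) := by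
  have h1 : ((y.1, fun i => m i • (m i)⁻¹ • y.2 i) : Ph N) = y := by
    refine Prod.ext rfl ?_
    funext i
    simp only
    rw [smul_smul, mul_inv_cancel₀ (hm i).ne', one_smul]
  have h2 := transferM hm hset (q₀ := y.1) (v₀ := fun i => (m i)⁻¹ • y.2 i)
    (by rw [h1]; exact hy) hT hK
  rw [h1] at h2
  exact h2

/-- F2: the escape criterion for arbitrary masses of sum at most one: a body which is ahead of all
the others by `d` and has speed at least `u` in the direction `e` never comes back. -/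
theorem frontM {N : ℕ} {m : Fin N → ℝ} (hm : ∀ i, 0 < m i) (hM : ∑ i, m i ≤ 1) {X : ℝ}
    (hX : 0 ≤ X) (hmX : ∀ i, Real.exp (-X) ≤ m i) {S : Set (Ph N)} {ψ : Ph N → ℝ}
    {φ : ℝ → Ph N → Ph N} (hset : Setting m S ψ φ) {x : Ph N} (hx : x ∈ S) (s : ℝ) {q v : Fin N → V3}
    (hs : φ s x = ((q, fun i => m i • v i) : Ph N)) (i : Fin N) {e : V3} (he : ‖e‖ ≤ 1)
    {d u : ℝ} (hd : 0 < d) (hu : 0 < u) (hfront : ∀ j, j ≠ i → ⟪q j, e⟫ + d ≤ ⟪q i, e⟫)
    (hspeed : u ≤ ⟪v i, e⟫) (hbig : 864 * (X + 1) < u ^ 2 * d) : Wandering S φ x := by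
  refine wandering_of_front hm hM (Real.exp_pos (-X)) hmX hset hx s he i hd hu ?_ ?_ ?_
  · intro j hj
    rw [hs]
    exact hfront j hj
  · rw [hs]
    simp only
    rw [real_inner_smul_left]
    exact mul_le_mul_of_nonneg_left hspeed (hm i).le
  · unfold Kf
    refine lt_of_le_of_lt ?_ hbig
    have h1 : (1:ℝ) / Real.exp (-X) = Real.exp X := by
      rw [Real.exp_neg, one_div, inv_inv]
    have h2 : Real.log (1 + 1 / Real.exp (-X)) ≤ X + 1 := by
      rw [h1]
      have h3 : 1 + Real.exp X ≤ Real.exp (X + 1) := by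
        rw [Real.exp_add]
        have h4 : 2 ≤ Real.exp 1 := by
          have := Real.add_one_le_exp 1
          linarith
        have h5 : 1 ≤ Real.exp X := Real.one_le_exp hX
        nlinarith
      have h6 := Real.log_le_log (by positivity) h3
      rwa [Real.log_exp] at h6
    linarith

end Pool.Agent.NBody
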