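import Mathlib

/-!
The arithmetic of the theorem on many bodies with arbitrary masses: `N = Y ^ 600`,
`X = Y ^ 6 = N ^ (1 / 100)`, and every condition is `constant * Y ^ k ≤ Y ^ l` with `k < l`.
-/

set_option autoImplicit false

namespace Pool.Agent.NBody

theorem pwN {Y C : ℝ} (hY : 1 ≤ Y) (hC : C ≤ Y) {a b : ℕ} (h : a + 1 ≤ b) :
    C * Y ^ a ≤ Y ^ b := by
  have h0 : 0 ≤ Y ^ a := by positivity
  calc C * Y ^ a ≤ Y * Y ^ a := mul_le_mul_of_nonneg_right hC h0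
    _ = Y ^ (a + 1) := by ring
    _ ≤ Y ^ b := pow_le_pow_right₀ hY h

/-- The conditions which do not involve the gun. -/
theorem numM_prep {u₀ η₀ B : ℝ} (hu : 0 < u₀) (hη : 0 < η₀) (hB : 1 ≤ B) (huB : u₀ ≤ B)
    (hηB : 1 / η₀ ≤ B) {Y : ℝ} (hY : 10 ^ 9 * B ≤ Y) :
    (∃ K : ℕ, (Y ^ 6 + Y ^ 6) / (1 / Y ^ 6 / 32) + 2 * Y ^ 600 * (Y ^ 6 / Y ^ 600) / η₀ + 1 ≤ K ∧
      (2 * (K : ℝ) + 1) ^ 7 * 4 * (Y ^ 6 / Y ^ 600) < 1) ∧
    Y ^ 6 / Y ^ 600 ≤ 1 / 32 ∧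
    (6 / (1 / Y ^ 6 / 32) + 3 * (Y ^ 6) ^ 2) * (Y ^ 6 / Y ^ 600) ≤ 1 / (1024 * Y ^ 24) ∧
    4 * (Y ^ 6 / Y ^ 600) ^ 2 * u₀ / (1 / (1024 * Y ^ 24)) ≤ 1 / Y ^ 6 / 16 := by
  have hY9 : (10 : ℝ) ^ 9 ≤ Y := by nlinarith
  have hY1 : 1 ≤ Y := le_trans (by norm_num) hY9
  have hY0 : 0 < Y := by linarith
  have hμ : Y ^ 6 / Y ^ 600 = 1 / Y ^ 594 := by
    rw [div_eq_div_iff (by positivity) (by positivity)]
    ring
  rw [hμ]
  refine ⟨?_, ?_, ?_, ?_⟩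
  · obtain ⟨K, hK⟩ : ∃ K : ℕ, K = ⌈65 * Y ^ 12 + 1⌉₊ := ⟨_, rfl⟩
    have hK1 : 65 * Y ^ 12 + 1 ≤ K := by rw [hK]; exact Nat.le_ceil _
    have hK2 : (K : ℝ) < 65 * Y ^ 12 + 1 + 1 := by rw [hK]; exact Nat.ceil_lt_add_one (by positivity)
    refine ⟨K, ?_, ?_⟩
    · refine le_trans ?_ hK1
      have e1 : (Y ^ 6 + Y ^ 6) / (1 / Y ^ 6 / 32) = 64 * Y ^ 12 := by
        field_simp
        ring
      have e2 : 2 * Y ^ 600 * (1 / Y ^ 594) / η₀ = 2 * (1 / η₀) * Y ^ 6 := by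
        field_simp
      rw [e1, e2]
      have h1 : 2 * (1 / η₀) ≤ Y := by linarith
      have h2 := pwN hY1 h1 (a := 6) (b := 12) (by norm_num)
      linarith
    · have h1 : 2 * (K : ℝ) + 1 ≤ Y ^ 13 := by
        have h2 := pwN hY1 (C := 200) (by linarith) (a := 12) (b := 13) (by norm_num)
        have h3 : (1 : ℝ) ≤ Y ^ 12 := one_le_pow₀ hY1
        linarith
      have h2 : (2 * (K : ℝ) + 1) ^ 7 ≤ (Y ^ 13) ^ 7 := pow_le_pow_left₀ (by positivity) h1 7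
      rw [mul_one_div, div_lt_one (by positivity)]
      calc (2 * (K : ℝ) + 1) ^ 7 * 4 ≤ (Y ^ 13) ^ 7 * 4 := by linarith
        _ = 4 * Y ^ 91 := by ring
        _ ≤ Y ^ 92 := pwN hY1 (by linarith) (by norm_num)
        _ < Y ^ 594 := pow_lt_pow_right₀ (by linarith) (by norm_num)
  · rw [div_le_div_iff₀ (by positivity) (by norm_num)]
    have := pwN hY1 (C := 32) (by linarith) (a := 0) (b := 594) (by norm_num)
    linarith
  · have e1 : 6 / (1 / Y ^ 6 / 32) = 192 * Y ^ 6 := by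
      field_simp
      ring
    rw [e1, mul_one_div, div_le_div_iff₀ (by positivity) (by positivity)]
    have h1 : 192 * Y ^ 6 ≤ Y ^ 12 := pwN hY1 (by linarith) (by norm_num)
    calc (192 * Y ^ 6 + 3 * (Y ^ 6) ^ 2) * (1024 * Y ^ 24) ≤
        (Y ^ 12 + 3 * (Y ^ 6) ^ 2) * (1024 * Y ^ 24) := by gcongr
      _ = 4096 * Y ^ 36 := by ring
      _ ≤ Y ^ 594 := pwN hY1 (by linarith) (by norm_num)
      _ = 1 * Y ^ 594 := by ring
  · rw [div_div_eq_mul_div, div_one, div_div, ← one_div_pow]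
    have e1 : 4 * (1 / Y ^ 594) ^ 2 * u₀ * (1024 * Y ^ 24) = 4096 * u₀ * Y ^ 24 / Y ^ 1188 := by
      field_simp
      ring
    have e2 : 1 / (Y ^ 6 * 16) = 1 / (Y ^ 6 * 16) := rfl
    rw [one_div_pow, e1, div_le_div_iff₀ (by positivity) (by positivity)]
    calc 4096 * u₀ * Y ^ 24 * (Y ^ 6 * 16) = 65536 * u₀ * Y ^ 30 := by ring
      _ ≤ Y ^ 1188 := pwN hY1 (by nlinarith) (by norm_num)
      _ = 1 * Y ^ 1188 := by ring

/-- The separation of the other bodies is at least `Y ^ (-243)`. -/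
theorem numM_sep {Y P₀ σ : ℝ} (hY : 10 ^ 9 ≤ Y) (hP1 : 1 ≤ P₀) (hP2 : P₀ ≤ 2 * Y ^ 12)
    (hσ : σ = 1 / Y ^ 6 / 32 * (1 / (1024 * Y ^ 24) / (16 * P₀)) *
      (1 / (100 * Y ^ 600)) ^ (1 / 3 : ℝ)) :
    1 / Y ^ 243 ≤ σ ∧ σ ≤ 2 := by
  have hY1 : 1 ≤ Y := le_trans (by norm_num) hY
  have hY0 : 0 < Y := by linarith
  have hP0 : 0 < P₀ := by linarith
  have h1 : 1 / (5 * Y ^ 200) ≤ (1 / (100 * Y ^ 600)) ^ (1 / 3 : ℝ) := by
    have e1 : 1 / (5 * Y ^ 200) = ((1 / (5 * Y ^ 200)) ^ 3) ^ (1 / 3 : ℝ) := by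
      have h := Real.pow_rpow_inv_natCast (x := 1 / (5 * Y ^ 200)) (by positivity) (n := 3)
        (by norm_num)
      have h3 : ((3 : ℕ) : ℝ)⁻¹ = 1 / 3 := by norm_num
      rw [h3] at h
      exact h.symm
    rw [e1]
    refine Real.rpow_le_rpow (by positivity) ?_ (by norm_num)
    rw [one_div_pow, mul_pow, ← pow_mul]
    apply one_div_le_one_div_of_le (by positivity)
    have : 0 ≤ Y ^ 600 := by positivity
    norm_num
    linarith
  have h2 : (1 / (100 * Y ^ 600)) ^ (1 / 3 : ℝ) ≤ 1 := by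
    refine Real.rpow_le_one (by positivity) ?_ (by norm_num)
    rw [div_le_one (by positivity)]
    have : (1 : ℝ) ≤ Y ^ 600 := one_le_pow₀ hY1
    linarith
  have h3 : 1 / (2 ^ 20 * Y ^ 42) ≤ 1 / Y ^ 6 / 32 * (1 / (1024 * Y ^ 24) / (16 * P₀)) := by
    rw [div_div, div_div, one_div_mul_one_div]
    apply one_div_le_one_div_of_le (by positivity)
    calc Y ^ 6 * 32 * (1024 * Y ^ 24 * (16 * P₀)) ≤
        Y ^ 6 * 32 * (1024 * Y ^ 24 * (16 * (2 * Y ^ 12))) := by gcongr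
      _ = 2 ^ 20 * Y ^ 42 := by ring
  have h4 : 1 / Y ^ 6 / 32 * (1 / (1024 * Y ^ 24) / (16 * P₀)) ≤ 1 := by
    rw [div_div, div_div, one_div_mul_one_div, div_le_one (by positivity)]
    have a1 : (1 : ℝ) ≤ Y ^ 6 := one_le_pow₀ hY1
    have a2 : (1 : ℝ) ≤ Y ^ 24 := one_le_pow₀ hY1
    have a3 : (1 : ℝ) ≤ 1024 * Y ^ 24 * (16 * P₀) := by nlinarith
    nlinarith
  have h5 : 0 ≤ 1 / Y ^ 6 / 32 * (1 / (1024 * Y ^ 24) / (16 * P₀)) := by positivity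
  refine ⟨?_, ?_⟩
  · rw [hσ]
    calc 1 / Y ^ 243 ≤ 1 / (5 * 2 ^ 20 * Y ^ 242) := by
          apply one_div_le_one_div_of_le (by positivity)
          exact pwN hY1 (by linarith) (by norm_num)
      _ = 1 / (2 ^ 20 * Y ^ 42) * (1 / (5 * Y ^ 200)) := by
          rw [one_div_mul_one_div]
          congr 1
          ring
      _ ≤ _ := mul_le_mul h3 h1 (by positivity) h5
  · rw [hσ]
    have := mul_le_mul h4 h2 (by positivity) zero_le_one
    linarith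

/-- The conditions of the bootstrap which do not involve the gun. -/
theorem numM_boot {Y R σ c μ τ A : ℝ} (hY : 10 ^ 9 ≤ Y) (_hR : 0 < R) (hR2 : R ≤ 3 * Y ^ 6)
    (hσ : 1 / Y ^ 243 ≤ σ) (hc : c = 1 / Y ^ 6 / 32) (hμ : μ = Y ^ 6 / Y ^ 600)
    (hτ : τ = 1 / Y ^ 270) (hA : A = Y ^ 136) :
    3456 * μ / σ ^ 3 + 1 + 48 * μ / c ^ 2 ≤ A ∧ (R + A * τ) * τ < σ / 4 ∧
    (R + A * τ) * τ < c / 4 ∧ (R + A * τ) * τ ≤ 1 ∧ R * τ ≤ c / 8 := by
  have hY1 : 1 ≤ Y := le_trans (by norm_num) hY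
  have hY0 : 0 < Y := by linarith
  have hμ' : μ = 1 / Y ^ 594 := by
    rw [hμ, div_eq_div_iff (by positivity) (by positivity)]
    ring
  have hσ0 : 0 < σ := lt_of_lt_of_le (by positivity) hσ
  have hτ0 : 0 < τ := by rw [hτ]; positivity
  have h1 : (R + A * τ) * τ ≤ 4 / Y ^ 264 := by
    have e1 : A * τ ≤ Y ^ 6 := by
      rw [hA, hτ, mul_one_div, div_le_iff₀ (by positivity)]
      calc Y ^ 136 = 1 * Y ^ 136 := by ring
        _ ≤ Y ^ 276 := pwN hY1 hY1 (by norm_num)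
        _ = Y ^ 6 * Y ^ 270 := by ring
    calc (R + A * τ) * τ ≤ (3 * Y ^ 6 + Y ^ 6) * τ := by gcongr
      _ = 4 / Y ^ 264 := by
        rw [hτ]
        field_simp
        ring
  have h2 : 4 / Y ^ 264 < 1 / Y ^ 243 / 4 := by
    rw [div_div, div_lt_div_iff₀ (by positivity) (by positivity)]
    calc 4 * (Y ^ 243 * 4) = 16 * Y ^ 243 := by ring
      _ ≤ Y ^ 244 := pwN hY1 (by linarith) (by norm_num)
      _ < Y ^ 264 := pow_lt_pow_right₀ (by linarith) (by norm_num)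
      _ = 1 * Y ^ 264 := by ring
  have h3 : 4 / Y ^ 264 < c / 4 := by
    rw [hc, div_div, div_div, div_lt_div_iff₀ (by positivity) (by positivity)]
    calc 4 * (Y ^ 6 * (32 * 4)) = 512 * Y ^ 6 := by ring
      _ ≤ Y ^ 7 := pwN hY1 (by linarith) (by norm_num)
      _ < Y ^ 264 := pow_lt_pow_right₀ (by linarith) (by norm_num)
      _ = 1 * Y ^ 264 := by ring
  have h4 : c ≤ 1 := by
    rw [hc, div_div, div_le_one (by positivity)]
    have a1 : (1 : ℝ) ≤ Y ^ 6 := one_le_pow₀ hY1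
    linarith
  refine ⟨?_, ?_, ?_, ?_, ?_⟩
  · have e1 : 3456 * μ / σ ^ 3 ≤ 3456 * Y ^ 135 := by
      have e2 : (1 / Y ^ 243) ^ 3 ≤ σ ^ 3 := pow_le_pow_left₀ (by positivity) hσ 3
      rw [div_le_iff₀ (by positivity)]
      calc 3456 * μ = 3456 * Y ^ 135 * (1 / Y ^ 243) ^ 3 := by
            rw [hμ']
            field_simp
        _ ≤ 3456 * Y ^ 135 * σ ^ 3 := by gcongr
    have e3 : 48 * μ / c ^ 2 ≤ 1 := by
      rw [hμ', hc, div_le_one (by positivity)]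
      rw [div_div, div_pow, one_pow, mul_one_div, div_le_div_iff₀ (by positivity) (by positivity)]
      calc 48 * (Y ^ 6 * 32) ^ 2 = 49152 * Y ^ 12 := by ring
        _ ≤ Y ^ 594 := pwN hY1 (by linarith) (by norm_num)
        _ = 1 * Y ^ 594 := by ring
    have e4 : 3458 * Y ^ 135 ≤ Y ^ 136 := pwN hY1 (by linarith) (by norm_num)
    have e5 : (1 : ℝ) ≤ Y ^ 135 := one_le_pow₀ hY1
    rw [hA]
    linarith
  · refine lt_of_le_of_lt h1 (lt_of_lt_of_le h2 ?_)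
    linarith
  · exact lt_of_le_of_lt h1 h3
  · linarith
  · rw [hτ, hc, mul_one_div, div_div, div_div, div_le_div_iff₀ (by positivity) (by positivity)]
    calc R * (Y ^ 6 * (32 * 8)) ≤ 3 * Y ^ 6 * (Y ^ 6 * (32 * 8)) := by gcongr
      _ = 768 * Y ^ 12 := by ring
      _ ≤ Y ^ 270 := pwN hY1 (by linarith) (by norm_num)
      _ = 1 * Y ^ 270 := by ring

/-- The conditions of the bootstrap which involve the gun. -/
theorem numM_gun {u₀ C₀ η₀ B : ℝ} (hu : 0 < u₀) (hC : 0 < C₀) (hη₀ : 0 < η₀) (hB : 1 ≤ B)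
    (huB : u₀ ≤ B) (hCB : C₀ ≤ B) (hηB : 1 / η₀ ≤ B) {Y : ℝ} (hY : 10 ^ 9 * B ^ 2 ≤ Y)
    {R c τ M r y η : ℝ} (hR : 0 < R) (hR2 : R ≤ 3 * Y ^ 6) (hc : c = 1 / Y ^ 6 / 32)
    (hτ : τ = 1 / Y ^ 270) (hM : 0 < M) (hMμ : M ≤ Y ^ 6 / Y ^ 600) (hr : 0 < r)
    (hrM : r ≤ 4 * M ^ 2 * u₀ / (1 / (1024 * Y ^ 24))) (hy : y = √(M / r))
    (hη : η = r ^ 2 / M * (16 / c ^ 2)) :
    r ≤ 1 ∧ r * C₀ ≤ 1 ∧ η ≤ η₀ ∧ η * (τ * y / r) ≤ η₀ ∧
    C₀ * (η * (1 + τ * y / r)) * (r + τ * y) ≤ c / 8 ∧ 4 * R + 10 ≤ τ * y ∧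
    0 < y / 2 - R ∧ 864 * (Y ^ 6 + 1) < (y / 2 - R) ^ 2 := by
  have hB2 : B ≤ B ^ 2 := by nlinarith
  have hY9 : (10 : ℝ) ^ 9 ≤ Y := by nlinarith
  have hYB : 10 ^ 9 * B ≤ Y := by nlinarith
  have hY1 : 1 ≤ Y := le_trans (by norm_num) hY9
  have hY0 : 0 < Y := by linarith
  have hμ' : Y ^ 6 / Y ^ 600 = 1 / Y ^ 594 := by
    rw [div_eq_div_iff (by positivity) (by positivity)]
    ring
  rw [hμ'] at hMμ
  have hc0 : 0 < c := by rw [hc]; positivity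
  have hτ0 : 0 < τ := by rw [hτ]; positivity
  -- `r / M ≤ Y ^ (-569)`
  have hrM1 : r ≤ M * (1 / Y ^ 569) := by
    calc r ≤ 4 * M ^ 2 * u₀ / (1 / (1024 * Y ^ 24)) := hrM
      _ = M * (M * (4096 * u₀ * Y ^ 24)) := by
        field_simp
        ring
      _ ≤ M * (1 / Y ^ 594 * Y ^ 25) := by
        have : 4096 * u₀ * Y ^ 24 ≤ Y ^ 25 := pwN hY1 (by nlinarith) (by norm_num)
        gcongr
      _ = M * (1 / Y ^ 569) := by
        field_simp
  have hr2 : r ≤ 1 / Y ^ 1163 := by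
    calc r ≤ M * (1 / Y ^ 569) := hrM1
      _ ≤ 1 / Y ^ 594 * (1 / Y ^ 569) := by gcongr
      _ = 1 / Y ^ 1163 := by
        rw [one_div_mul_one_div, ← pow_add]
  have hrM2 : Y ^ 569 ≤ M / r := by
    rw [le_div_iff₀ hr]
    calc Y ^ 569 * r ≤ Y ^ 569 * (M * (1 / Y ^ 569)) := by gcongr
      _ = M := by field_simp
  have hy0 : 0 < y := by rw [hy]; exact Real.sqrt_pos.mpr (by positivity)
  have hy2 : y ^ 2 = M / r := by rw [hy, Real.sq_sqrt (by positivity)]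
  have hyY : Y ^ 284 ≤ y := by
    rw [hy]
    apply Real.le_sqrt_of_sq_le
    calc (Y ^ 284) ^ 2 = Y ^ 568 := by ring
      _ ≤ Y ^ 569 := pow_le_pow_right₀ hY1 (by norm_num)
      _ ≤ M / r := hrM2
  have hc2 : 16 / c ^ 2 = 16384 * Y ^ 12 := by
    rw [hc]
    field_simp
    norm_num
  have hη1 : η ≤ 1 / Y ^ 1000 := by
    rw [hη, hc2]
    calc r ^ 2 / M * (16384 * Y ^ 12) = r * (r / M) * (16384 * Y ^ 12) := by ring
      _ ≤ 1 / Y ^ 1163 * 1 * (16384 * Y ^ 12) := by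
        have h1 : r / M ≤ 1 := by
          rw [div_le_one hM]
          calc r ≤ M * (1 / Y ^ 569) := hrM1
            _ ≤ M * 1 := by
              have : 1 / Y ^ 569 ≤ 1 := by
                rw [div_le_one (by positivity)]
                exact one_le_pow₀ hY1
              gcongr
            _ = M := mul_one M
        gcongr
      _ = 16384 * Y ^ 12 / Y ^ 1163 := by ring
      _ ≤ 1 / Y ^ 1000 := by
        rw [div_le_div_iff₀ (by positivity) (by positivity)]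
        calc 16384 * Y ^ 12 * Y ^ 1000 = 16384 * Y ^ 1012 := by ring
          _ ≤ Y ^ 1163 := pwN hY1 (by linarith) (by norm_num)
          _ = 1 * Y ^ 1163 := by ring
  have hη0 : 0 < η := by rw [hη]; positivity
  -- `η τ y / r = 16384 Y ^ 12 τ / y`
  have hq : η * (τ * y / r) = 16384 * Y ^ 12 * τ / y := by
    rw [hη, hc2]
    have h1 : M = y ^ 2 * r := by
      rw [hy2]
      field_simp
    rw [h1]
    field_simp
  have hq1 : η * (τ * y / r) ≤ 1 / Y ^ 500 := by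
    rw [hq, hτ]
    calc 16384 * Y ^ 12 * (1 / Y ^ 270) / y ≤ 16384 * Y ^ 12 * (1 / Y ^ 270) / Y ^ 284 := by
          gcongr
      _ = 16384 * Y ^ 12 / Y ^ 554 := by
        field_simp
      _ ≤ 1 / Y ^ 500 := by
        rw [div_le_div_iff₀ (by positivity) (by positivity)]
        calc 16384 * Y ^ 12 * Y ^ 500 = 16384 * Y ^ 512 := by ring
          _ ≤ Y ^ 554 := pwN hY1 (by linarith) (by norm_num)
          _ = 1 * Y ^ 554 := by ring
  have hq2 : η * (τ * y / r) * (τ * y) ≤ 1 / Y ^ 500 := by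
    rw [hq, hτ]
    have : 16384 * Y ^ 12 * (1 / Y ^ 270) / y * (1 / Y ^ 270 * y) = 16384 * Y ^ 12 / Y ^ 540 := by
      field_simp
    rw [this, div_le_div_iff₀ (by positivity) (by positivity)]
    calc 16384 * Y ^ 12 * Y ^ 500 = 16384 * Y ^ 512 := by ring
      _ ≤ Y ^ 540 := pwN hY1 (by linarith) (by norm_num)
      _ = 1 * Y ^ 540 := by ring
  have hsmall : ∀ n : ℕ, 1 ≤ n → 1 / Y ^ n ≤ η₀ := by
    intro n hn
    have h1 : 1 / η₀ ≤ Y ^ n := by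
      calc 1 / η₀ ≤ Y := by linarith
        _ = Y ^ 1 := (pow_one Y).symm
        _ ≤ Y ^ n := pow_le_pow_right₀ hY1 hn
    rw [div_le_iff₀ (by positivity)]
    rw [div_le_iff₀ hη₀] at h1
    linarith
  have hr1 : r ≤ 1 := by
    refine hr2.trans ?_
    rw [div_le_one (by positivity)]
    exact one_le_pow₀ hY1
  have hτy : Y ^ 14 ≤ τ * y := by
    rw [hτ]
    calc Y ^ 14 = 1 / Y ^ 270 * Y ^ 284 := by field_simp
      _ ≤ 1 / Y ^ 270 * y := by gcongr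
  have hu1 : Y ^ 283 ≤ y / 2 - R := by
    have h1 : 8 * Y ^ 283 ≤ Y ^ 284 := pwN hY1 (by linarith) (by norm_num)
    have h2 : 3 * Y ^ 6 ≤ Y ^ 283 := pwN hY1 (by linarith) (by norm_num)
    linarith
  refine ⟨hr1, ?_, hη1.trans (hsmall _ (by norm_num)), hq1.trans (hsmall _ (by norm_num)),
    ?_, ?_, ?_, ?_⟩
  · calc r * C₀ ≤ 1 / Y ^ 1163 * B := by gcongr
      _ = B / Y ^ 1163 := by ring
      _ ≤ 1 := by
        rw [div_le_one (by positivity)]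
        have := pwN hY1 (C := B) (by linarith) (a := 0) (b := 1163) (by norm_num)
        linarith
  · have h1 : C₀ * (η * (1 + τ * y / r)) * (r + τ * y) =
        C₀ * (η * r + η * (τ * y / r) * r + η * (τ * y / r) * r +
          η * (τ * y / r) * (τ * y)) := by
      field_simp
      ring
    have h2 : η * r ≤ 1 / Y ^ 500 := by
      calc η * r ≤ 1 / Y ^ 1000 * 1 := by gcongr
        _ ≤ 1 / Y ^ 500 := by
          rw [mul_one]
          exact one_div_le_one_div_of_le (by positivity) (pow_le_pow_right₀ hY1 (by norm_num))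
    have h3 : η * (τ * y / r) * r ≤ 1 / Y ^ 500 := by
      calc η * (τ * y / r) * r ≤ 1 / Y ^ 500 * 1 := by gcongr
        _ = 1 / Y ^ 500 := mul_one _
    rw [h1]
    calc C₀ * (η * r + η * (τ * y / r) * r + η * (τ * y / r) * r +
          η * (τ * y / r) * (τ * y)) ≤ B * (1 / Y ^ 500 + 1 / Y ^ 500 + 1 / Y ^ 500 +
          1 / Y ^ 500) := by gcongr
      _ = 4 * B / Y ^ 500 := by ring
      _ ≤ c / 8 := by
        rw [hc, div_div, div_div, div_le_div_iff₀ (by positivity) (by positivity)]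
        calc 4 * B * (Y ^ 6 * (32 * 8)) = 1024 * B * Y ^ 6 := by ring
          _ ≤ Y ^ 500 := pwN hY1 (by nlinarith) (by norm_num)
          _ = 1 * Y ^ 500 := by ring
  · refine le_trans ?_ hτy
    have h1 : 22 * Y ^ 6 ≤ Y ^ 14 := pwN hY1 (by linarith) (by norm_num)
    have h2 : (1 : ℝ) ≤ Y ^ 6 := one_le_pow₀ hY1
    linarith
  · exact lt_of_lt_of_le (by positivity) hu1
  · have h1 : (Y ^ 283) ^ 2 ≤ (y / 2 - R) ^ 2 := pow_le_pow_left₀ (by positivity) hu1 2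
    refine lt_of_lt_of_le ?_ h1
    have h2 : 1728 * Y ^ 6 ≤ Y ^ 7 := pwN hY1 (by linarith) (by norm_num)
    have h3 : (1 : ℝ) ≤ Y ^ 6 := one_le_pow₀ hY1
    have h4 : Y ^ 7 < (Y ^ 283) ^ 2 := by
      rw [← pow_mul]
      exact pow_lt_pow_right₀ (by linarith) (by norm_num)
    linarith

end Pool.Agent.NBody
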