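import Mathlib
import Pool.Agent.NBody.Orbit
import Pool.Agent.NBody.Infinity

/-!
The scaling symmetry of the N-body problem: positions times `a ^ 2`, momenta divided by `a`.
-/

set_option autoImplicit false
open scoped RealInnerProductSpace
open Set Finset Filter Topology

namespace Pool.Agent.NBody

/-- positions times `a ^ 2`, momenta divided by `a` -/
noncomputable def dil {N : ℕ} (a : ℝ) (x : Ph N) : Ph N := (a ^ 2 • x.1, a⁻¹ • x.2)

theorem dil_dil_inv {N : ℕ} {a : ℝ} (ha : a ≠ 0) (x : Ph N) : dil a (dil a⁻¹ x) = x := by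
  unfold dil
  refine Prod.ext ?_ ?_
  · show a ^ 2 • a⁻¹ ^ 2 • x.1 = x.1
    rw [smul_smul, inv_pow, mul_inv_cancel₀ (pow_ne_zero 2 ha), one_smul]
  · show a⁻¹ • a⁻¹⁻¹ • x.2 = x.2
    rw [smul_smul, inv_inv, inv_mul_cancel₀ ha, one_smul]

theorem dil_inv_dil {N : ℕ} {a : ℝ} (ha : a ≠ 0) (x : Ph N) : dil a⁻¹ (dil a x) = x := by
  have := dil_dil_inv (inv_ne_zero ha) x
  rwa [inv_inv] at this

theorem contDiff_dil {N : ℕ} (a : ℝ) : ContDiff ℝ 1 (dil a : Ph N → Ph N) := by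
  unfold dil
  have h1 : ContDiff ℝ 1 (fun x : Ph N => a ^ 2 • x.1) :=
    ContDiff.const_smul (R := ℝ) (a ^ 2) contDiff_fst
  have h2 : ContDiff ℝ 1 (fun x : Ph N => a⁻¹ • x.2) :=
    ContDiff.const_smul (R := ℝ) a⁻¹ contDiff_snd
  exact h1.prodMk h2

theorem dil_mem_NC {N : ℕ} {a : ℝ} (ha : a ≠ 0) {x : Ph N} (hx : x ∈ NC N) : dil a x ∈ NC N := by
  intro i j hij h
  have h1 : a ^ 2 • x.1 i = a ^ 2 • x.1 j := h
  exact hx i j hij (smul_right_injective _ (pow_ne_zero 2 ha) h1)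

theorem dil_hasDerivAt {N : ℕ} (a : ℝ) {c : ℝ → Ph N} {w : Ph N} {t : ℝ}
    (h : HasDerivAt c w t) : HasDerivAt (fun s => dil a (c s)) (dil a w) t := by
  unfold dil
  have h1 : HasDerivAt (fun s => (c s).1) w.1 t := h.fst
  have h2 : HasDerivAt (fun s => (c s).2) w.2 t := h.snd
  exact (h1.const_smul (a ^ 2)).prodMk (h2.const_smul a⁻¹)

theorem dil_smul {N : ℕ} (a b : ℝ) (x : Ph N) : dil a (b • x) = b • dil a x := by
  unfold dil
  refine Prod.ext ?_ ?_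
  · exact smul_comm _ _ _
  · exact smul_comm _ _ _

theorem dil_field {N : ℕ} (m : Fin N → ℝ) {a : ℝ} (ha : 0 < a) (x : Ph N) :
    dil a ((fun i => (m i)⁻¹ • x.2 i, fun i => ∑ j, (m i * m j / ‖x.1 j - x.1 i‖ ^ 3) •
      (x.1 j - x.1 i)) : Ph N) = a ^ 3 • ((fun i => (m i)⁻¹ • (dil a x).2 i,
        fun i => ∑ j, (m i * m j / ‖(dil a x).1 j - (dil a x).1 i‖ ^ 3) •
      ((dil a x).1 j - (dil a x).1 i)) : Ph N) := by
  refine Prod.ext ?_ ?_
  · funext i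
    show a ^ 2 • (m i)⁻¹ • x.2 i = a ^ 3 • (m i)⁻¹ • a⁻¹ • x.2 i
    rw [smul_smul, smul_smul, smul_smul]
    congr 1
    field_simp
  · funext i
    show a⁻¹ • ∑ j, (m i * m j / ‖x.1 j - x.1 i‖ ^ 3) • (x.1 j - x.1 i) =
      a ^ 3 • ∑ j, (m i * m j / ‖a ^ 2 • x.1 j - a ^ 2 • x.1 i‖ ^ 3) •
        (a ^ 2 • x.1 j - a ^ 2 • x.1 i)
    rw [Finset.smul_sum, Finset.smul_sum]
    refine Finset.sum_congr rfl fun j _ => ?_
    rw [← smul_sub, norm_smul, Real.norm_of_nonneg (by positivity : (0:ℝ) ≤ a ^ 2), smul_smul,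
      smul_smul, smul_smul]
    congr 1
    by_cases h : ‖x.1 j - x.1 i‖ = 0
    · rw [h]
      simp
    · field_simp

theorem kin_dil {N : ℕ} (m : Fin N → ℝ) {a : ℝ} (x : Ph N) :
    kin m (dil a x).2 = (a ^ 2)⁻¹ * kin m x.2 := by
  unfold kin dil
  rw [Finset.mul_sum]
  refine Finset.sum_congr rfl fun i _ => ?_
  show ‖a⁻¹ • x.2 i‖ ^ 2 / (2 * m i) = (a ^ 2)⁻¹ * (‖x.2 i‖ ^ 2 / (2 * m i))
  rw [norm_smul, mul_pow, norm_inv, Real.norm_eq_abs, inv_pow, sq_abs]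
  ring

theorem pot_dil {N : ℕ} (m : Fin N → ℝ) {a : ℝ} (ha : a ≠ 0) (x : Ph N) :
    pot m (dil a x).1 = (a ^ 2)⁻¹ * pot m x.1 := by
  unfold pot dil
  rw [Finset.mul_sum]
  refine Finset.sum_congr rfl fun i _ => ?_
  rw [Finset.mul_sum]
  refine Finset.sum_congr rfl fun j _ => ?_
  show m i * m j / ‖a ^ 2 • x.1 i - a ^ 2 • x.1 j‖ / 2 =
    (a ^ 2)⁻¹ * (m i * m j / ‖x.1 i - x.1 j‖ / 2)
  rw [← smul_sub, norm_smul, Real.norm_of_nonneg (by positivity : (0:ℝ) ≤ a ^ 2)]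
  field_simp

/-- The scaled setting. -/
theorem Setting.dil {N : ℕ} {m : Fin N → ℝ} {S : Set (Ph N)} {ψ : Ph N → ℝ}
    {φ : ℝ → Ph N → Ph N} (h : Setting m S ψ φ) {a : ℝ} (ha : 0 < a) :
    Setting m {y | NBody.dil a⁻¹ y ∈ S} (fun y => a ^ 3 * ψ (NBody.dil a⁻¹ y))
      (fun t y => NBody.dil a (φ t (NBody.dil a⁻¹ y))) where
  sub := fun y hy => by
    have h1 := dil_mem_NC ha.ne' (h.sub hy)
    rwa [dil_dil_inv ha.ne'] at h1
  mom := fun y hy => by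
    have h1 := h.mom _ hy
    have h2 : ∑ i, a⁻¹⁻¹ • y.2 i = 0 := h1
    rw [← Finset.smul_sum, inv_inv] at h2
    exact (smul_eq_zero.mp h2).resolve_left ha.ne'
  com := fun y hy => by
    have h1 := h.com _ hy
    have h2 : ∑ i, m i • a⁻¹ ^ 2 • y.1 i = 0 := h1
    have h3 : ∑ i, m i • a⁻¹ ^ 2 • y.1 i = a⁻¹ ^ 2 • ∑ i, m i • y.1 i := by
      rw [Finset.smul_sum]
      exact Finset.sum_congr rfl fun i _ => smul_comm _ _ _
    rw [h3] at h2
    exact (smul_eq_zero.mp h2).resolve_left (by positivity)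
  smooth := by
    refine contDiffOn_const.mul (h.smooth.comp (contDiff_dil a⁻¹).contDiffOn ?_)
    intro y hy
    exact dil_mem_NC (inv_ne_zero ha.ne') hy
  pos := fun y hy => mul_pos (by positivity) (h.pos _ (dil_mem_NC (inv_ne_zero ha.ne') hy))
  flow := fun y hy => by
    obtain ⟨h0, h1⟩ := h.flow _ hy
    refine ⟨?_, fun t => ⟨?_, ?_⟩⟩
    · rw [h0, dil_dil_inv ha.ne']
    · show NBody.dil a⁻¹ (NBody.dil a (φ t (NBody.dil a⁻¹ y))) ∈ S
      rw [dil_inv_dil ha.ne']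
      exact (h1 t).1
    · have h2 := dil_hasDerivAt a (h1 t).2
      rw [dil_smul, dil_field m ha, smul_smul] at h2
      rw [dil_inv_dil ha.ne', mul_comm]
      exact h2

/-- Wandering states of the scaled setting are the scaled wandering states. -/
theorem wandering_of_dil {N : ℕ} {S : Set (Ph N)} {φ : ℝ → Ph N → Ph N} {a : ℝ} (ha : 0 < a)
    {y : Ph N} (hw : Wandering {y | dil a⁻¹ y ∈ S} (fun t y => dil a (φ t (dil a⁻¹ y))) (dil a y)) :
    Wandering S φ y := by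
  obtain ⟨V, hV, hyV, T, hT⟩ := hw
  refine ⟨dil a ⁻¹' V, hV.preimage (contDiff_dil a).continuous, hyV, T, ?_⟩
  intro t ht z hz hzV
  have h1 : dil a (φ t (dil a⁻¹ (dil a z))) ∉ V := hT t ht (dil a z) ⟨hz.1, by
    show dil a⁻¹ (dil a z) ∈ S
    rw [dil_inv_dil ha.ne']
    exact hz.2⟩
  rw [dil_inv_dil ha.ne'] at h1
  exact h1 hzV

end Pool.Agent.NBody
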