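import Mathlib
import Pool.Agent.NBody.ThScale
import Pool.Agent.NBody.ThNumM

/-!
The whole energy surface: from energies at most `-1 / X` to all negative energies, and from `X` to
the number of bodies.
-/

set_option autoImplicit false
open scoped RealInnerProductSpace
open Set Finset Filter Topology

namespace Pool.Agent.NBody

/-- The statement for the energies at most `- 1 / X`. -/
def Whole4 (X : ℝ) : Prop :=
  ∀ {N : ℕ}, (N : ℝ) = X ^ 3600 → ∀ {m : Fin N → ℝ}, ∑ i, m i = 1 →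
    (∀ i, Real.exp (-X) ≤ m i) → ∀ {E : ℝ}, E ≤ -(1 / X) →
    ∀ {S : Set (Ph N)} {ψ : Ph N → ℝ} {φ : ℝ → Ph N → Ph N}, Setting m S ψ φ →
    (∀ x : Ph N, x ∈ S ↔ (∀ i j, i ≠ j → x.1 i ≠ x.1 j) ∧ ∑ i, m i • x.1 i = 0 ∧
      ∑ i, x.2 i = 0 ∧ kin m x.2 - pot m x.1 = E) → ∀ {x : Ph N}, x ∈ S →
    ∃ y ∈ S, Wandering S φ y ∧ (∀ i, ‖y.1 i - x.1 i‖ ≤ 1 / X) ∧
      (∀ i, ‖(m i)⁻¹ • y.2 i - (m i)⁻¹ • x.2 i‖ ≤ 1 / X)

theorem mem_dil_iff {N : ℕ} {m : Fin N → ℝ} {E a : ℝ} (ha : 0 < a) {S : Set (Ph N)}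
    (hS : ∀ x : Ph N, x ∈ S ↔ (∀ i j, i ≠ j → x.1 i ≠ x.1 j) ∧ ∑ i, m i • x.1 i = 0 ∧
      ∑ i, x.2 i = 0 ∧ kin m x.2 - pot m x.1 = E) (y : Ph N) :
    y ∈ {y | dil a⁻¹ y ∈ S} ↔ (∀ i j, i ≠ j → y.1 i ≠ y.1 j) ∧ ∑ i, m i • y.1 i = 0 ∧
      ∑ i, y.2 i = 0 ∧ kin m y.2 - pot m y.1 = (a ^ 2)⁻¹ * E := by
  have ha' : a⁻¹ ≠ 0 := inv_ne_zero ha.ne'
  have e1 : ∑ i, m i • (dil a⁻¹ y).1 i = a⁻¹ ^ 2 • ∑ i, m i • y.1 i := by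
    rw [Finset.smul_sum]
    refine Finset.sum_congr rfl fun i _ => ?_
    show m i • a⁻¹ ^ 2 • y.1 i = a⁻¹ ^ 2 • m i • y.1 i
    exact smul_comm _ _ _
  have e2 : ∑ i, (dil a⁻¹ y).2 i = a⁻¹⁻¹ • ∑ i, y.2 i := by
    rw [Finset.smul_sum]
    rfl
  have e3 : kin m (dil a⁻¹ y).2 - pot m (dil a⁻¹ y).1 =
      a ^ 2 * (kin m y.2 - pot m y.1) := by
    rw [kin_dil, pot_dil m ha', inv_pow, inv_inv]
    ring
  have e4 : (∀ i j, i ≠ j → (dil a⁻¹ y).1 i ≠ (dil a⁻¹ y).1 j) ↔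
      (∀ i j, i ≠ j → y.1 i ≠ y.1 j) := by
    constructor
    · intro h i j hij he
      exact h i j hij (by show a⁻¹ ^ 2 • y.1 i = a⁻¹ ^ 2 • y.1 j; rw [he])
    · intro h
      exact dil_mem_NC ha' h
  rw [Set.mem_setOf_eq, hS, e1, e2, e3, e4, smul_eq_zero, smul_eq_zero]
  have h5 : (a⁻¹ ^ 2 : ℝ) ≠ 0 := pow_ne_zero _ ha'
  have h6 : (a⁻¹⁻¹ : ℝ) ≠ 0 := by rw [inv_inv]; exact ha.ne'
  have h7 : a ^ 2 * (kin m y.2 - pot m y.1) = E ↔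
      kin m y.2 - pot m y.1 = (a ^ 2)⁻¹ * E := by
    have : a ^ 2 ≠ 0 := pow_ne_zero _ ha.ne'
    constructor
    · intro h
      rw [← h, ← mul_assoc, inv_mul_cancel₀ this, one_mul]
    · intro h
      rw [h, ← mul_assoc, mul_inv_cancel₀ this, one_mul]
  rw [h7, or_iff_right h5, or_iff_right h6]

/-- All negative energies. -/
theorem whole4_all {X : ℝ} (hX : 1 ≤ X) (h : Whole4 X) {N : ℕ} (hN : (N : ℝ) = X ^ 3600)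
    {m : Fin N → ℝ} (hm1 : ∑ i, m i = 1) (hmX : ∀ i, Real.exp (-X) ≤ m i) {E : ℝ} (hE : E < 0)
    {S : Set (Ph N)} {ψ : Ph N → ℝ} {φ : ℝ → Ph N → Ph N} (hset : Setting m S ψ φ)
    (hS : ∀ x : Ph N, x ∈ S ↔ (∀ i j, i ≠ j → x.1 i ≠ x.1 j) ∧ ∑ i, m i • x.1 i = 0 ∧
      ∑ i, x.2 i = 0 ∧ kin m x.2 - pot m x.1 = E) {x : Ph N} (hx : x ∈ S) :
    ∃ y ∈ S, Wandering S φ y ∧ (∀ i, ‖y.1 i - x.1 i‖ ≤ 1 / X * max 1 (1 / |E|)) ∧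
      (∀ i, ‖(m i)⁻¹ • y.2 i - (m i)⁻¹ • x.2 i‖ ≤ 1 / X) := by
  have hX0 : 0 < X := by linarith
  by_cases hE1 : E ≤ -(1 / X)
  · obtain ⟨y, hy, hw, h1, h2⟩ := h hN hm1 hmX hE1 hset hS hx
    refine ⟨y, hy, hw, fun i => (h1 i).trans ?_, h2⟩
    exact le_mul_of_one_le_right (by positivity) (le_max_left _ _)
  · push Not at hE1
    have hEn : 0 < -E := by linarith
    have hE2 : |E| = -E := abs_of_neg hE
    have hX1 : 1 / X ≤ 1 := by rw [div_le_one hX0]; exact hX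
    have hEle : -E ≤ 1 := by linarith
    obtain ⟨a, had⟩ : ∃ a, a = √(-E) := ⟨_, rfl⟩
    have ha : 0 < a := by rw [had]; exact Real.sqrt_pos.mpr hEn
    have ha2 : a ^ 2 = -E := by rw [had, Real.sq_sqrt hEn.le]
    have ha1 : a ≤ 1 := by
      rw [had]
      exact Real.sqrt_le_one.mpr hEle
    have hset' := hset.dil ha
    have hx' : dil a x ∈ {y | dil a⁻¹ y ∈ S} := by
      show dil a⁻¹ (dil a x) ∈ S
      rw [dil_inv_dil ha.ne']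
      exact hx
    have hEa : (a ^ 2)⁻¹ * E = -1 := by
      rw [ha2, inv_neg, neg_mul, inv_mul_cancel₀ hE.ne]
    obtain ⟨y, hy, hw, h1, h2⟩ := h hN hm1 hmX (E := -1) (by linarith) hset'
      (fun y => by rw [mem_dil_iff ha hS, hEa]) hx'
    have hyd : dil a (dil a⁻¹ y) = y := dil_dil_inv ha.ne' y
    refine ⟨dil a⁻¹ y, hy, wandering_of_dil ha (by rw [hyd]; exact hw), fun i => ?_, fun i => ?_⟩
    · have e1 : y.1 i - (dil a x).1 i = a ^ 2 • ((dil a⁻¹ y).1 i - x.1 i) := by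
        conv_lhs => rw [← hyd]
        show a ^ 2 • (dil a⁻¹ y).1 i - a ^ 2 • x.1 i = _
        rw [smul_sub]
      have e2 := h1 i
      rw [e1, norm_smul, Real.norm_of_nonneg (by positivity), ha2, mul_comm,
        ← le_div_iff₀ hEn] at e2
      refine e2.trans ?_
      rw [hE2, div_eq_mul_one_div]
      exact mul_le_mul_of_nonneg_left (le_max_right _ _) (by positivity)
    · have e1 : (m i)⁻¹ • y.2 i - (m i)⁻¹ • (dil a x).2 i =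
          a⁻¹ • ((m i)⁻¹ • (dil a⁻¹ y).2 i - (m i)⁻¹ • x.2 i) := by
        conv_lhs => rw [← hyd]
        show (m i)⁻¹ • a⁻¹ • (dil a⁻¹ y).2 i - (m i)⁻¹ • a⁻¹ • x.2 i = _
        rw [smul_sub, smul_comm, smul_comm (m i)⁻¹ a⁻¹ (x.2 i)]
      have e2 := h2 i
      rw [e1, norm_smul, Real.norm_of_nonneg (by positivity), inv_mul_le_iff₀ ha] at e2
      refine e2.trans ?_
      calc a * (1 / X) ≤ 1 * (1 / X) := by gcongr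
        _ = 1 / X := one_mul _

/-- From `X` to the number of bodies. -/
theorem whole4_final {X₀ : ℝ} (hX₀ : 1 ≤ X₀) (h : ∀ X : ℝ, X₀ ≤ X → Whole4 X) :
    ∃ N₀ : ℕ, ∀ N : ℕ, N₀ ≤ N → ∀ m : Fin N → ℝ, ∑ i, m i = 1 →
      (∀ i, Real.exp (-(N : ℝ) ^ (1 / 3600 : ℝ)) ≤ m i) → ∀ E : ℝ, E < 0 →
      ∀ (S : Set (Ph N)) (ψ : Ph N → ℝ) (φ : ℝ → Ph N → Ph N), Setting m S ψ φ →
      (∀ x : Ph N, x ∈ S ↔ (∀ i j, i ≠ j → x.1 i ≠ x.1 j) ∧ ∑ i, m i • x.1 i = 0 ∧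
        ∑ i, x.2 i = 0 ∧ kin m x.2 - pot m x.1 = E) →
      ∀ x ∈ S, ∃ y ∈ S, Wandering S φ y ∧
        (∀ i, ‖y.1 i - x.1 i‖ ≤ (N : ℝ) ^ (-(1 / 3600) : ℝ) * max 1 (1 / |E|)) ∧
        (∀ i, ‖(m i)⁻¹ • y.2 i - (m i)⁻¹ • x.2 i‖ ≤ (N : ℝ) ^ (-(1 / 3600) : ℝ)) := by
  refine ⟨⌈X₀ ^ 3600⌉₊, ?_⟩
  intro N hN m hm1 hmX E hE S ψ φ hset hS x hx
  have hNr : X₀ ^ 3600 ≤ (N : ℝ) := Nat.ceil_le.mp hN
  have hN0 : (0 : ℝ) < N := lt_of_lt_of_le (by positivity) hNr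
  obtain ⟨X, hXd⟩ : ∃ X : ℝ, X = (N : ℝ) ^ (1 / 3600 : ℝ) := ⟨_, rfl⟩
  have hX0 : 0 < X := by rw [hXd]; positivity
  have hXN : (N : ℝ) = X ^ 3600 := by
    rw [hXd, ← Real.rpow_natCast, ← Real.rpow_mul hN0.le]
    norm_num
  have hXi : (N : ℝ) ^ (-(1 / 3600) : ℝ) = 1 / X := by
    rw [hXd, Real.rpow_neg hN0.le]
    exact (one_div _).symm
  have hX : X₀ ≤ X := by
    by_contra hlt
    push Not at hlt
    have := pow_lt_pow_left₀ hlt hX0.le (n := 3600) (by norm_num)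
    rw [← hXN] at this
    linarith
  rw [← hXd] at hmX
  rw [hXi]
  exact whole4_all (hX₀.trans hX) (h X hX) hXN hm1 hmX hE hset hS hx

end Pool.Agent.NBody
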