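import Mathlib
import Pool.Agent.NBody.ThDefsM
import Pool.Agent.NBody.ThTransferM

/-!
The theorem on many bodies, arbitrary masses: a prepared state is wandering.
-/

set_option autoImplicit false
open scoped RealInnerProductSpace
open Set Finset Filter Topology

namespace Pool.Agent.NBody

/-- A state from which every solution in Newtonian time stays away from collisions until the
time `τ`, when one body is far ahead of the others and fast, is wandering. -/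
theorem wandering_of_bootM {N : ℕ} {m : Fin N → ℝ} (hm : ∀ i, 0 < m i) (hm1 : ∑ i, m i ≤ 1)
    {X : ℝ} (hX : 0 ≤ X) (hmX : ∀ i, Real.exp (-X) ≤ m i) {S : Set (Ph N)} {ψ : Ph N → ℝ}
    {φ : ℝ → Ph N → Ph N} (hset : Setting m S ψ φ) {q₀ v₀ : Fin N → V3}
    (hy : ((q₀, fun i => m i • v₀ i) : Ph N) ∈ S) {τ u : ℝ} (hτ : 0 ≤ τ) (hu : 0 < u)
    {i₀ : Fin N} {e : V3} (he : ‖e‖ ≤ 1)
    (hK : ∃ K : Set (Ph N), IsCompact K ∧ K ⊆ NC N ∧
        ∀ T' : ℝ, 0 ≤ T' → T' ≤ τ → ∀ q v : ℝ → Fin N → V3,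
          IsSolM m T' (fun _ _ => 0) q v → q 0 = q₀ → v 0 = v₀ →
          ∀ t ∈ Icc (0 : ℝ) T', ((q t, fun i => m i • v t i) : Ph N) ∈ K)
    (hF : ∀ q v : ℝ → Fin N → V3, IsSolM m τ (fun _ _ => 0) q v → q 0 = q₀ → v 0 = v₀ →
      (∀ j, j ≠ i₀ → ⟪q τ j, e⟫ + 1 ≤ ⟪q τ i₀, e⟫) ∧ u ≤ ⟪v τ i₀, e⟫)
    (hbig : 864 * (X + 1) < u ^ 2) :
    Wandering S φ (q₀, fun i => m i • v₀ i) := by
  obtain ⟨q', v', hsol, hq'0, hv'0, t, ht⟩ := transferM hm hset hy hτ hK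
  obtain ⟨H5, H6⟩ := hF q' v' hsol hq'0 hv'0
  exact frontM hm hm1 hX hmX hset hy t ht i₀ he one_pos hu H5 H6 (by rw [mul_one]; exact hbig)

/-- The property of the gun for smaller tolerances. -/
theorem GunPropM.mono {s : Fin 3 → V3} {e : V3} {μ₀ C₀ η₀ η₁ : ℝ} (h : GunPropM s e μ₀ C₀ η₀)
    (h1 : η₁ ≤ η₀) : GunPropM s e μ₀ C₀ η₁ :=
  fun m hm T hT η hη0 hη hηT f Q V hsol hf hQ hV =>
    h m (fun k => (hm k).trans h1) T hT η hη0 (hη.trans h1) (hηT.trans h1) f Q V hsol hf hQ hV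

end Pool.Agent.NBody
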