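import Mathlib
import Pool.Agent.NBody.ThPrepM

/-!
Prepared states for bodies with different masses: assembly.
-/

set_option autoImplicit false
open scoped RealInnerProductSpace
open Set Finset Filter Topology

namespace Pool.Agent.NBody

/-- bounds for the energy of the gun -/
theorem gun_energy_boundsM {N : ℕ} {g : Fin 3 → Fin N} {m : Fin N → ℝ} (hm : ∀ i, 0 < m i)
    {η₀ : ℝ} (hη₁ : η₀ ≤ 1 / 2) (hratio : ∀ k, |m (g k) / m (g 0) - 1| ≤ η₀)
    (s : Fin 3 → V3) :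
    m (g 0) ^ 2 * (∑ k, ∑ l, 1 / ‖s k - s l‖) / 4 ≤
        ∑ k, ∑ l, m (g k) * m (g l) / ‖s k - s l‖ ∧
      ∑ k, ∑ l, m (g k) * m (g l) / ‖s k - s l‖ ≤
        4 * m (g 0) ^ 2 * (∑ k, ∑ l, 1 / ‖s k - s l‖) := by
  have hm0 := hm (g 0)
  have hlow : ∀ k, m (g 0) / 2 ≤ m (g k) := by
    intro k
    have h1 := (abs_le.mp (hratio k)).1
    have h2 : 1 / 2 ≤ m (g k) / m (g 0) := by linarith
    rw [le_div_iff₀ hm0] at h2
    linarith
  have hup : ∀ k, m (g k) ≤ 2 * m (g 0) := by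
    intro k
    have h1 := (abs_le.mp (hratio k)).2
    have h2 : m (g k) / m (g 0) ≤ 2 := by linarith
    rw [div_le_iff₀ hm0] at h2
    exact h2
  constructor
  · rw [mul_div_assoc, Finset.sum_div, Finset.mul_sum]
    apply Finset.sum_le_sum
    intro k _
    rw [Finset.sum_div, Finset.mul_sum]
    apply Finset.sum_le_sum
    intro l _
    have h1 : m (g 0) ^ 2 / 4 ≤ m (g k) * m (g l) := by
      have := mul_le_mul (hlow k) (hlow l) (by positivity) (hm _).le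
      nlinarith
    have h2 : m (g 0) ^ 2 * (1 / ‖s k - s l‖ / 4) = (m (g 0) ^ 2 / 4) / ‖s k - s l‖ := by ring
    rw [h2]
    exact div_le_div_of_nonneg_right h1 (norm_nonneg _)
  · rw [Finset.mul_sum]
    apply Finset.sum_le_sum
    intro k _
    rw [Finset.mul_sum]
    apply Finset.sum_le_sum
    intro l _
    have h1 : m (g k) * m (g l) ≤ 4 * m (g 0) ^ 2 := by
      have := mul_le_mul (hup k) (hup l) (hm _).le (by positivity)
      nlinarith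
    rw [mul_one_div]
    exact div_le_div_of_nonneg_right h1 (norm_nonneg _)

/-- P2: prepared states for bodies with different masses, all conditions explicit. -/
theorem prepM_at {N K : ℕ} {m : Fin N → ℝ} (hm : ∀ i, 0 < m i) (hM : ∑ i, m i = 1) {μ : ℝ}
    (hμ : ∀ i, m i ≤ μ) {s : Fin 3 → V3} {e : V3} (hs : GunShape s e) (E R V δ₁ η₀ : ℝ)
    (hδ₁ : 0 < δ₁) (hδ₁1 : δ₁ ≤ 1) (hη₀ : 0 < η₀) (hη₁ : η₀ ≤ 1 / 2)
    {G₀ P₀ P₁ ε₂ u₀ c : ℝ} (hG₀ : G₀ = δ₁ ^ 2 / (1024 * (N : ℝ) ^ 2 * μ ^ 2))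
    (hP₀ : P₀ = V ^ 2 / 2 + |E| + 1) (hε₂ : ε₂ = G₀ / (16 * P₀))
    (hu₀ : u₀ = ∑ k, ∑ l, 1 / ‖s k - s l‖) (hP₁ : P₁ = (|V| + 1) ^ 2 / 2 + |E|)
    (hc : c = δ₁ / 32) (hK : (|R| + |V|) / c + 2 * N * μ / η₀ + 1 ≤ K)
    (hN1 : (2 * (K : ℝ) + 1) ^ 7 * 4 * μ < 1) (hN2 : μ ≤ 1 / 32)
    (hN3 : (6 / c + 3 * V ^ 2) * μ ≤ G₀) (hN4 : 4 * μ ^ 2 * u₀ / G₀ ≤ δ₁ / 16) :
    ∀ x : Ph N, x ∈ NC N → ∑ i, m i • x.1 i = 0 → ∑ i, x.2 i = 0 →
      kin m x.2 - pot m x.1 = E → (∀ i, ‖x.1 i‖ ≤ R) → (∀ i, ‖x.2 i‖ ≤ m i * V) →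
      ∃ (r : ℝ) (g : Fin 3 → Fin N) (z w : V3) (q v : Fin N → V3),
        m (g 0) ^ 2 * u₀ / (8 * P₁) ≤ r ∧ r ≤ 4 * m (g 0) ^ 2 * u₀ / G₀ ∧
        Prep N (|R| + |V| + 1) c (c * ε₂ * (1 / (100 * (N : ℝ))) ^ (1 / 3 : ℝ)) r s g z w q v ∧
        1 / (2 * (N : ℝ)) ≤ m (g 0) ∧ (∀ k, |m (g k) / m (g 0) - 1| ≤ η₀) ∧
        ((q, fun i => m i • v i) : Ph N) ∈ NC N ∧ ∑ i, m i • q i = 0 ∧ ∑ i, m i • v i = 0 ∧
        kin m (fun i => m i • v i) - pot m q = E ∧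
        (∀ i, ‖q i - x.1 i‖ ≤ δ₁) ∧ (∀ i, ‖v i - (m i)⁻¹ • x.2 i‖ ≤ δ₁) := by
  classical
  intro x hnc hcom hmom hen hR hV
  have hNpos : 0 < N := by
    rcases Nat.eq_zero_or_pos N with h | h
    · subst h
      simp at hM
    · exact h
  have hNr : (0 : ℝ) < N := by exact_mod_cast hNpos
  have hμ0 : 0 < μ := (hm ⟨0, hNpos⟩).trans_le (hμ _)
  have hNμ : 1 ≤ N * μ := by
    rw [← hM]
    have h1 : ∑ i, m i ≤ ∑ i : Fin N, μ := Finset.sum_le_sum (fun i _ => hμ i)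
    rw [Finset.sum_const, Finset.card_univ, Fintype.card_fin, nsmul_eq_mul] at h1
    exact h1
  have hG0 : 0 < G₀ := by rw [hG₀]; positivity
  have hP₀1 : 1 ≤ P₀ := by
    rw [hP₀]
    have := abs_nonneg E
    have := sq_nonneg V
    linarith
  have hG1 : G₀ ≤ 1 / 1024 := by
    rw [hG₀, div_le_iff₀ (by positivity)]
    have h1 : δ₁ ^ 2 ≤ 1 := by nlinarith
    have h2 : 1 ≤ (N * μ) ^ 2 := by nlinarith
    have h3 : 1 / 1024 * (1024 * (N : ℝ) ^ 2 * μ ^ 2) = (N * μ) ^ 2 := by ring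
    linarith
  have hε₂0 : 0 < ε₂ := by rw [hε₂]; positivity
  have hε₂1 : ε₂ < 1 := by
    rw [hε₂, div_lt_one (by positivity)]
    linarith
  have hu0 : 0 < u₀ := by
    rw [hu₀]
    exact gun_energy_pos hs
  have hP₁1 : 1 / 2 ≤ P₁ := by
    rw [hP₁]
    have := abs_nonneg E
    have := abs_nonneg V
    nlinarith
  have hc0 : 0 < c := by rw [hc]; positivity
  have hP₁0 : 0 < P₁ := by linarith
  -- velocities
  obtain ⟨u, hu⟩ : ∃ u : Fin N → V3, u = fun i => (m i)⁻¹ • x.2 i := ⟨_, rfl⟩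
  have hui : ∀ i, u i = (m i)⁻¹ • x.2 i := fun i => by rw [hu]
  have hmu : ∀ i, m i • u i = x.2 i := by
    intro i
    rw [hui, smul_smul, mul_inv_cancel₀ (hm i).ne', one_smul]
  have hxu : x.2 = fun i => m i • u i := by
    funext i
    rw [hmu]
  have huV : ∀ i, ‖u i‖ ≤ V := by
    intro i
    rw [hui, norm_smul, norm_inv, Real.norm_of_nonneg (hm i).le, inv_mul_le_iff₀ (hm i)]
    exact hV i
  have husum : ∑ i, m i • u i = 0 := by
    simp only [hmu]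
    exact hmom
  have hV0 : 0 ≤ V := (norm_nonneg _).trans (huV ⟨0, hNpos⟩)
  -- the gun
  obtain ⟨g, hg, hgq, hgu, hgheavy, hgratio⟩ := exists_gunM hNpos hm hM hμ0 hμ x.1 u hc0 hη₀ hR
    huV hK hN1
  have hcd : 2 * c = δ₁ / 16 := by rw [hc]; ring
  rw [hcd] at hgq hgu
  obtain ⟨w, v, hvg, hvr, hvg', hvsum, hvkin⟩ := exists_kickM hg hm hμ0 hμ u (ε := δ₁ / 4)
    (η := δ₁ / 16) (V := V) (p := δ₁ / (8 * N)) (by positivity) (by positivity) (heavy m)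
    (by
      intro i hi
      rw [heavy, Finset.mem_filter] at hi
      have h1 : δ₁ / (8 * (N : ℝ)) = 1 / (2 * (N : ℝ)) * (δ₁ / 4) := by
        field_simp
        norm_num
      rw [h1]
      exact mul_le_mul_of_nonneg_right hi.2 (by positivity)) huV hgu
  have hvu : ∀ i, ‖v i - u i‖ ≤ δ₁ / 4 := by
    intro i
    by_cases hi : i ∈ rest g
    · exact hvr i hi
    · rw [mem_rest, not_not] at hi
      obtain ⟨k, rfl⟩ := hi
      exact (hvg' k).trans (by linarith)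
  -- opening of the layer
  obtain ⟨z₀, hz₀⟩ : ∃ z₀ : V3, z₀ = x.1 (g 0) := ⟨_, rfl⟩
  obtain ⟨q₁, hq₁⟩ : ∃ q₁ : Fin N → V3, q₁ = fun j => openLayer (z₀ 2) (δ₁ / 16) (x.1 j) :=
    ⟨_, rfl⟩
  have hρ : (0:ℝ) ≤ δ₁ / 16 := by positivity
  have hq₁d : ∀ i j, ‖x.1 i - x.1 j‖ ≤ ‖q₁ i - q₁ j‖ := by
    intro i j
    rw [hq₁]
    exact dist_le_openLayer hρ _ _
  have hq₁x : ∀ i, ‖q₁ i - x.1 i‖ ≤ δ₁ / 16 := by
    intro i
    rw [hq₁]
    exact openLayer_sub_self hρ _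
  have hq₁h : ∀ i, δ₁ / 16 ≤ |q₁ i 2 - z₀ 2| := by
    intro i
    rw [hq₁]
    exact openLayer_height hρ _
  have hxpos : ∀ i j, i ≠ j → 0 < ‖x.1 i - x.1 j‖ := fun i j hij =>
    norm_pos_iff.mpr (sub_ne_zero.mpr (hnc i j hij))
  have hq₁ne : ∀ i j, i ≠ j → q₁ i ≠ q₁ j := by
    intro i j hij h
    have h1 := (hxpos i j hij).trans_le (hq₁d i j)
    rw [h, sub_self, norm_zero] at h1
    exact lt_irrefl _ h1
  -- spreading
  have hrm : ∀ i, 0 ≤ restMass g m i := by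
    intro i
    unfold restMass
    split_ifs
    · exact (hm i).le
    · exact le_rfl
  obtain ⟨q₂, hq₂d, hq₂s, hq₂e⟩ := spread_fin hNpos (restMass g m) hrm q₁ hq₁ne c ε₂ hc0 hε₂0
    hε₂1
  have hq₂e' : ∑ i ∈ rest g, ∑ j ∈ rest g, m i * m j / ‖q₂ i - q₂ j‖ ≤
      ((1 - ε₂) ^ 2)⁻¹ * ∑ i ∈ rest g, ∑ j ∈ rest g, m i * m j / ‖q₁ i - q₁ j‖ := by
    rw [← invdM_restMass hg, ← invdM_restMass hg]
    exact hq₂e
  have hq₂x : ∀ i, ‖q₂ i - x.1 i‖ ≤ 3 * δ₁ / 32 := by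
    intro i
    have h1 := hq₂d i
    have h2 := hq₁x i
    calc ‖q₂ i - x.1 i‖ = ‖(q₂ i - q₁ i) + (q₁ i - x.1 i)‖ := by congr 1; abel
      _ ≤ ‖q₂ i - q₁ i‖ + ‖q₁ i - x.1 i‖ := norm_add_le _ _
      _ ≤ c + δ₁ / 16 := add_le_add h1 h2
      _ = 3 * δ₁ / 32 := by rw [hc]; ring
  have hlay : ∀ j ∈ rest g, c ≤ |q₂ j 2 - z₀ 2| := by
    intro j _
    have h1 := hq₁h j
    have h2 : |q₂ j 2 - q₁ j 2| ≤ c := by
      have h3 := abs_coord_le (q₂ j - q₁ j) 2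
      rw [PiLp.sub_apply] at h3
      exact h3.trans (hq₂d j)
    have h4 : |q₁ j 2 - z₀ 2| ≤ |q₂ j 2 - z₀ 2| + |q₂ j 2 - q₁ j 2| := by
      have h5 : q₁ j 2 - z₀ 2 = (q₂ j 2 - z₀ 2) - (q₂ j 2 - q₁ j 2) := by ring
      rw [h5]
      exact abs_sub _ _
    have h6 : δ₁ / 16 = 2 * c := by rw [hc]; ring
    linarith
  -- energies
  obtain ⟨Ku, hKu⟩ : ∃ Ku : ℝ, Ku = ∑ i, m i * ‖u i‖ ^ 2 := ⟨_, rfl⟩
  obtain ⟨Kv, hKv⟩ : ∃ Kv : ℝ, Kv = ∑ i, m i * ‖v i‖ ^ 2 := ⟨_, rfl⟩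
  rw [← hKu, ← hKv] at hvkin
  have hen' : Ku / 2 - E = invdM m x.1 / 2 := by
    rw [hxu, kin_eqM hm, pot_eq_invdM, ← hKu] at hen
    linarith
  have hinv0 : 0 ≤ invdM m x.1 := invdM_nonneg hm _
  have hKuV : Ku ≤ V ^ 2 := by
    rw [hKu]
    have h1 : ∑ i, m i * ‖u i‖ ^ 2 ≤ ∑ i, m i * V ^ 2 :=
      Finset.sum_le_sum (fun i _ => mul_le_mul_of_nonneg_left
        (pow_le_pow_left₀ (norm_nonneg _) (huV i) 2) (hm i).le)
    rw [← Finset.sum_mul, hM, one_mul] at h1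
    exact h1
  have hKvV : Kv ≤ (|V| + 1) ^ 2 := by
    rw [hKv]
    have h1 : ∑ i, m i * ‖v i‖ ^ 2 ≤ ∑ i, m i * (|V| + 1) ^ 2 := by
      apply Finset.sum_le_sum
      intro i _
      apply mul_le_mul_of_nonneg_left _ (hm i).le
      apply pow_le_pow_left₀ (norm_nonneg _)
      have h2 : ‖v i‖ ≤ ‖u i‖ + ‖v i - u i‖ := by
        calc ‖v i‖ = ‖u i + (v i - u i)‖ := by congr 1; abel
          _ ≤ _ := norm_add_le _ _
      have h3 := huV i
      have h4 := hvu i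
      have h5 := le_abs_self V
      linarith
    rw [← Finset.sum_mul, hM, one_mul] at h1
    exact h1
  obtain ⟨P, hP⟩ : ∃ P : ℝ, P = invdM m x.1 / 2 := ⟨_, rfl⟩
  have hP0 : 0 ≤ P := by rw [hP]; positivity
  have hPP₀ : P ≤ P₀ := by
    rw [hP, ← hen', hP₀]
    have h2 := neg_abs_le E
    linarith
  have hA : invdM m x.1 = 2 * P := by
    rw [hP]; ring
  obtain ⟨A₂, hA₂⟩ : ∃ A₂ : ℝ, A₂ = ∑ i ∈ rest g, ∑ j ∈ rest g, m i * m j / ‖q₂ i - q₂ j‖ :=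
    ⟨_, rfl⟩
  have hA₂le : A₂ ≤ ((1 - ε₂) ^ 2)⁻¹ * invdM m x.1 := by
    rw [hA₂]
    refine hq₂e'.trans ?_
    apply mul_le_mul_of_nonneg_left _ (by positivity)
    refine le_trans ?_ (invdM_rest_le hg hm x.1)
    apply Finset.sum_le_sum
    intro i _
    apply Finset.sum_le_sum
    intro j _
    by_cases hij : i = j
    · subst hij
      simp
    · exact div_le_div_of_nonneg_left (mul_nonneg (hm i).le (hm j).le) (hxpos i j hij)
        (hq₁d i j)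
  have harith := energy_arithM (h := ((heavy m).card : ℝ)) hNr hμ0 hG₀ hNμ hδ₁ hδ₁1 hP₀1 hε₂
    hPP₀ hP0 hA hA₂le (by rw [hen', hP]) rfl (card_heavy hNpos hM hμ0 hμ) hN2 hvkin hN3
  obtain ⟨hum1, hum2⟩ := gun_energy_boundsM hm hη₁ hgratio s
  obtain ⟨um, hum⟩ : ∃ um : ℝ, um = ∑ k, ∑ l, m (g k) * m (g l) / ‖s k - s l‖ := ⟨_, rfl⟩
  rw [← hum, ← hu₀] at hum1 hum2
  have hm00 := hm (g 0)
  have hum0 : 0 < um := lt_of_lt_of_le (by positivity) hum1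
  obtain ⟨r, hr1, hr2, hrY⟩ := exists_sizeM hg hm hM hμ hs.flat z₀ q₂ hc0 hlay
    (Y := 2 * (Kv / 2 - E)) (r₁ := um / (2 * P₁)) (r₂ := um / G₀) (by positivity) (by
      apply div_le_div_of_nonneg_left hum0.le hG0
      linarith) (by
      rw [← hum]
      have h1 : um / (um / (2 * P₁)) = 2 * P₁ := by
        field_simp
      rw [h1]
      have h3 := neg_abs_le E
      rw [hP₁]
      linarith) (by
      rw [← hum, ← hA₂]
      have h1 : um / (um / G₀) = G₀ := by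
        field_simp
      rw [h1]
      exact harith)
  have hr0 : 0 < r := lt_of_lt_of_le (by positivity) hr1
  have hrb1 : m (g 0) ^ 2 * u₀ / (8 * P₁) ≤ r := by
    refine le_trans ?_ hr1
    have h1 : m (g 0) ^ 2 * u₀ / (8 * P₁) = (m (g 0) ^ 2 * u₀ / 4) / (2 * P₁) := by
      field_simp
      norm_num
    rw [h1]
    exact div_le_div_of_nonneg_right hum1 (by positivity)
  have hrb2 : r ≤ 4 * m (g 0) ^ 2 * u₀ / G₀ :=
    hr2.trans (div_le_div_of_nonneg_right hum2 hG0.le)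
  have hrδ : r ≤ δ₁ / 16 := by
    refine hrb2.trans (le_trans ?_ hN4)
    apply div_le_div_of_nonneg_right _ hG0.le
    have h1 : m (g 0) ^ 2 ≤ μ ^ 2 := pow_le_pow_left₀ hm00.le (hμ _) 2
    have h2 := mul_le_mul_of_nonneg_right h1 hu0.le
    linarith
  -- positions
  obtain ⟨Q, hQ⟩ : ∃ Q : Fin N → V3, Q = gunPos g s z₀ q₂ r := ⟨_, rfl⟩
  have hQg : ∀ k, Q (g k) = z₀ + r • s k := fun k => by rw [hQ]; exact gunPos_gun hg s z₀ q₂ r k
  have hQr : ∀ j ∈ rest g, Q j = q₂ j := fun j hj => by rw [hQ]; exact gunPos_rest s z₀ q₂ r hj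
  rw [← hQ] at hrY
  have hQx : ∀ i, ‖Q i - x.1 i‖ ≤ δ₁ / 8 := by
    intro i
    by_cases hi : i ∈ rest g
    · rw [hQr i hi]
      exact (hq₂x i).trans (by linarith)
    · rw [mem_rest, not_not] at hi
      obtain ⟨k, rfl⟩ := hi
      rw [hQg, hz₀]
      calc ‖x.1 (g 0) + r • s k - x.1 (g k)‖ = ‖(x.1 (g 0) - x.1 (g k)) + r • s k‖ := by
            congr 1; abel
        _ ≤ ‖x.1 (g 0) - x.1 (g k)‖ + ‖r • s k‖ := norm_add_le _ _
        _ ≤ δ₁ / 16 + δ₁ / 16 := by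
          apply add_le_add (hgq 0 k)
          rw [norm_smul, Real.norm_of_nonneg hr0.le]
          have := hs.le k
          nlinarith
        _ = δ₁ / 8 := by ring
  obtain ⟨m₀, hm₀⟩ : ∃ m₀ : V3, m₀ = ∑ i, m i • Q i := ⟨_, rfl⟩
  have hm₀n : ‖m₀‖ ≤ δ₁ / 8 := by
    have h1 : m₀ = ∑ i, m i • (Q i - x.1 i) := by
      simp only [smul_sub]
      rw [hm₀, Finset.sum_sub_distrib, hcom, sub_zero]
    rw [h1]
    have h2 : ‖∑ i, m i • (Q i - x.1 i)‖ ≤ ∑ i, m i * (δ₁ / 8) := by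
      refine (norm_sum_le _ _).trans (Finset.sum_le_sum (fun i _ => ?_))
      rw [norm_smul, Real.norm_of_nonneg (hm i).le]
      exact mul_le_mul_of_nonneg_left (hQx i) (hm i).le
    rw [← Finset.sum_mul, hM, one_mul] at h2
    exact h2
  have hqsub : ∀ i j, (Q i - m₀) - (Q j - m₀) = Q i - Q j := fun i j => by abel
  have hqx : ∀ i, ‖Q i - m₀ - x.1 i‖ ≤ δ₁ / 4 := by
    intro i
    calc ‖Q i - m₀ - x.1 i‖ = ‖(Q i - x.1 i) - m₀‖ := by congr 1; abel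
      _ ≤ ‖Q i - x.1 i‖ + ‖m₀‖ := norm_sub_le _ _
      _ ≤ δ₁ / 8 + δ₁ / 8 := add_le_add (hQx i) hm₀n
      _ = δ₁ / 4 := by ring
  refine ⟨r, g, z₀ - m₀, w, fun i => Q i - m₀, v, hrb1, hrb2, ?_, hgheavy 0, hgratio, ?_, ?_, ?_,
    ?_, ?_, ?_⟩
  · -- Prep
    refine ⟨hg, ?_, ?_, ?_, hvg, ?_, ?_⟩
    · intro i
      have h1 := hqx i
      have h2 := hR i
      have h3 := le_abs_self R
      have h4 := abs_nonneg V
      have h5 : ‖Q i - m₀‖ ≤ ‖Q i - m₀ - x.1 i‖ + ‖x.1 i‖ := by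
        calc ‖Q i - m₀‖ = ‖(Q i - m₀ - x.1 i) + x.1 i‖ := by congr 1; abel
          _ ≤ _ := norm_add_le _ _
      linarith
    · intro i
      have h1 := hvu i
      have h2 := huV i
      have h3 := abs_nonneg R
      have h4 := le_abs_self V
      have h5 : ‖v i‖ ≤ ‖v i - u i‖ + ‖u i‖ := by
        calc ‖v i‖ = ‖(v i - u i) + u i‖ := by congr 1; abel
          _ ≤ _ := norm_add_le _ _
      linarith
    · intro k
      rw [hQg]; abel
    · intro i j hi hj hij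
      rw [hqsub, hQr i (mem_rest.mpr hi), hQr j (mem_rest.mpr hj)]
      exact hq₂s i j hij
    · intro j hj
      simp only
      rw [PiLp.sub_apply, PiLp.sub_apply, sub_sub_sub_cancel_right, hQr j (mem_rest.mpr hj)]
      exact hlay j (mem_rest.mpr hj)
  · -- no collisions
    intro i j hij h
    have hQij : Q i = Q j := by
      have h1 : (Q i - m₀) = (Q j - m₀) := h
      exact sub_left_injective h1
    have hmix : ∀ k : Fin 3, ∀ j ∈ rest g, Q (g k) ≠ Q j := by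
      intro k j hj h1
      rw [hQg, hQr j hj] at h1
      have h2 := hlay j hj
      rw [← h1] at h2
      have h3 : (z₀ + r • s k) 2 - z₀ 2 = 0 := by
        simp [hs.flat k]
      rw [h3, abs_zero] at h2
      linarith
    by_cases hi : i ∈ rest g
    · by_cases hj : j ∈ rest g
      · rw [hQr i hi, hQr j hj] at hQij
        have h1 := hq₂s i j hij
        rw [hQij, sub_self, norm_zero] at h1
        have h2 : 0 < c * ε₂ * (1 / (100 * (N : ℝ))) ^ (1 / 3 : ℝ) := by positivity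
        linarith
      · rw [mem_rest, not_not] at hj
        obtain ⟨l, rfl⟩ := hj
        exact hmix l i hi hQij.symm
    · rw [mem_rest, not_not] at hi
      obtain ⟨k, rfl⟩ := hi
      by_cases hj : j ∈ rest g
      · exact hmix k j hj hQij
      · rw [mem_rest, not_not] at hj
        obtain ⟨l, rfl⟩ := hj
        rw [hQg, hQg] at hQij
        have h1 : r • s k = r • s l := add_left_cancel hQij
        have h2 : s k = s l := smul_right_injective V3 hr0.ne' h1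
        have hkl : k ≠ l := fun h => hij (by rw [h])
        exact hs.ne k l hkl h2
  · -- centre of mass
    simp only [smul_sub]
    rw [Finset.sum_sub_distrib, ← Finset.sum_smul, hM, one_smul, hm₀, sub_self]
  · rw [hvsum, husum]
  · -- energy
    rw [kin_eqM hm, pot_eq_invdM, ← hKv]
    have h1 : invdM m (fun i => Q i - m₀) = invdM m Q := by
      unfold invdM
      apply Finset.sum_congr rfl
      intro i _
      apply Finset.sum_congr rfl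
      intro j _
      rw [hqsub]
    rw [h1, hrY]
    ring
  · intro i
    exact (hqx i).trans (by linarith)
  · intro i
    rw [← hui]
    exact (hvu i).trans (by linarith)

end Pool.Agent.NBody
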