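import Mathlib
import Pool.Agent.NBody.ThMainM
import Pool.Agent.NBody.ThNumM
import Pool.Agent.NBody.ThBootM3
import Pool.Agent.NBody.ThPrepM2

/-!
The theorem on many bodies, arbitrary masses, from the gun.
-/

set_option autoImplicit false
open scoped RealInnerProductSpace
open Set Finset Filter Topology

namespace Pool.Agent.NBody

/-- The theorem on many bodies for one number of bodies `N = Y ^ 600`. -/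
theorem manyM_at {s : Fin 3 → V3} {e : V3} {μ₀ C₀ η₀ u₀ B : ℝ} (hs : GunShape s e)
    (hμ₀ : 0 < μ₀) (hC : 0 < C₀) (hη₀ : 0 < η₀) (hη₁ : η₀ ≤ 1 / 2)
    (hg : GunPropM s e μ₀ C₀ η₀) (hu₀ : u₀ = ∑ k, ∑ l, 1 / ‖s k - s l‖) (hu : 0 < u₀)
    (hB : 1 ≤ B) (huB : u₀ ≤ B) (hCB : C₀ ≤ B) (hηB : 1 / η₀ ≤ B) {Y : ℝ}
    (hY : 10 ^ 9 * B ^ 2 ≤ Y) {N : ℕ} (hN : (N : ℝ) = Y ^ 600) {m : Fin N → ℝ}
    (hm1 : ∑ i, m i = 1) (hmX : ∀ i, Real.exp (-Y ^ 6) ≤ m i)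
    (hmμ : ∀ i, m i ≤ Y ^ 6 / Y ^ 600) {E : ℝ} (hE : |E| ≤ Y ^ 6) {S : Set (Ph N)}
    {ψ : Ph N → ℝ} {φ : ℝ → Ph N → Ph N} (hset : Setting m S ψ φ)
    (hS : ∀ x : Ph N, x ∈ S ↔ (∀ i j, i ≠ j → x.1 i ≠ x.1 j) ∧ ∑ i, m i • x.1 i = 0 ∧
      ∑ i, x.2 i = 0 ∧ kin m x.2 - pot m x.1 = E) {x : Ph N} (hx : x ∈ S)
    (hxR : ∀ i, ‖x.1 i‖ ≤ Y ^ 6) (hxV : ∀ i, ‖x.2 i‖ ≤ m i * Y ^ 6) :
    ∃ y ∈ S, Wandering S φ y ∧ (∀ i, ‖y.1 i - x.1 i‖ ≤ 1 / Y ^ 6) ∧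
      (∀ i, ‖(m i)⁻¹ • y.2 i - (m i)⁻¹ • x.2 i‖ ≤ 1 / Y ^ 6) := by
  have hm : ∀ i, 0 < m i := fun i => lt_of_lt_of_le (Real.exp_pos _) (hmX i)
  have hB2 : B ≤ B ^ 2 := by nlinarith
  have hY9 : (10 : ℝ) ^ 9 ≤ Y := by nlinarith
  have hYB : 10 ^ 9 * B ≤ Y := by nlinarith
  have hY1 : 1 ≤ Y := le_trans (by norm_num) hY9
  have hY0 : 0 < Y := by linarith
  have hY61 : (1 : ℝ) ≤ Y ^ 6 := one_le_pow₀ hY1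
  have hδ1 : 1 / Y ^ 6 ≤ 1 := by
    rw [div_le_one (by positivity)]
    exact hY61
  obtain ⟨⟨K, hK1, hK2⟩, hn2, hn3, hn4⟩ := numM_prep hu hη₀ hB huB hηB hYB
  have hG₀ : 1 / (1024 * Y ^ 24) =
      (1 / Y ^ 6) ^ 2 / (1024 * (N : ℝ) ^ 2 * (Y ^ 6 / Y ^ 600) ^ 2) := by
    rw [hN]
    field_simp
  have habs : |Y ^ 6| = Y ^ 6 := abs_of_nonneg (by positivity)
  obtain ⟨hx1, hx2, hx3, hx4⟩ := (hS x).mp hx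
  obtain ⟨r, g, z, w, q, v, hr1, hr2, hp, hM1, hgm, hnc, hq0, hv0, hE', hq, hv⟩ :=
    prepM_at (K := K) hm hm1 hmμ hs E (Y ^ 6) (Y ^ 6) (1 / Y ^ 6) η₀ (by positivity) hδ1 hη₀ hη₁
      (G₀ := 1 / (1024 * Y ^ 24)) (P₀ := (Y ^ 6) ^ 2 / 2 + |E| + 1)
      (P₁ := (|Y ^ 6| + 1) ^ 2 / 2 + |E|)
      (ε₂ := 1 / (1024 * Y ^ 24) / (16 * ((Y ^ 6) ^ 2 / 2 + |E| + 1))) (u₀ := u₀)
      (c := 1 / Y ^ 6 / 32) hG₀ rfl rfl hu₀ rfl rfl (by rw [habs, hN]; exact hK1) hK2 hn2 hn3 hn4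
      x hx1 hx2 hx3 hx4 hxR hxV
  have hE0 : 0 ≤ |E| := abs_nonneg E
  have hP1 : 1 ≤ (Y ^ 6) ^ 2 / 2 + |E| + 1 := by
    have : 0 ≤ (Y ^ 6) ^ 2 := by positivity
    linarith
  have hP2 : (Y ^ 6) ^ 2 / 2 + |E| + 1 ≤ 2 * Y ^ 12 := by
    have h1 : (Y ^ 6) ^ 2 = Y ^ 12 := by ring
    have h2 : 2 * Y ^ 6 ≤ Y ^ 12 := pwN hY1 (by linarith) (by norm_num)
    linarith
  have hP₁ : 0 < (|Y ^ 6| + 1) ^ 2 / 2 + |E| := by positivity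
  obtain ⟨σ, hσd⟩ : ∃ σ, σ = 1 / Y ^ 6 / 32 * (1 / (1024 * Y ^ 24) /
      (16 * ((Y ^ 6) ^ 2 / 2 + |E| + 1))) * (1 / (100 * Y ^ 600)) ^ (1 / 3 : ℝ) := ⟨_, rfl⟩
  rw [hN, ← hσd] at hp
  obtain ⟨hσ1, hσ2⟩ := numM_sep hY9 hP1 hP2 hσd
  have hσ0 : 0 < σ := lt_of_lt_of_le (by positivity) hσ1
  have hR0 : 0 < |Y ^ 6| + |Y ^ 6| + 1 := by positivity
  have hR3 : |Y ^ 6| + |Y ^ 6| + 1 ≤ 3 * Y ^ 6 := by rw [habs]; linarith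
  have hr0 : 0 < r := lt_of_lt_of_le (by have := hm (g 0); positivity) hr1
  obtain ⟨b1, b2, b3, b4, b5⟩ := numM_boot hY9 hR0 hR3 hσ1 (c := 1 / Y ^ 6 / 32) rfl
    (μ := Y ^ 6 / Y ^ 600) rfl (τ := 1 / Y ^ 270) rfl (A := Y ^ 136) rfl
  obtain ⟨c1, c2, c3, c4, c5, c6, c7, c8⟩ := numM_gun hu hC hη₀ hB huB hCB hηB hY hR0 hR3
    (c := 1 / Y ^ 6 / 32) rfl (τ := 1 / Y ^ 270) rfl (hm (g 0)) (hmμ (g 0)) hr0 hr2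
    (y := √(m (g 0) / r)) rfl (η := r ^ 2 / m (g 0) * (16 / (1 / Y ^ 6 / 32) ^ 2)) rfl
  have hτ0 : 0 < 1 / Y ^ 270 := by positivity
  have hτ1 : 1 / Y ^ 270 ≤ 1 := by
    rw [div_le_one (by positivity)]
    exact one_le_pow₀ hY1
  obtain ⟨hK3, hF⟩ := boot_atM hs hμ₀ hC hg hm hmμ hm1.le hgm hR0 (by positivity) hσ0 hσ2 hr0 c1
    c2 hτ0 hτ1 b1 b2 b3 b4 b5 rfl rfl c3 c4 c5 c6 hp
  have hyS : ((q, fun i => m i • v i) : Ph N) ∈ S := (hS _).mpr ⟨hnc, hq0, hv0, hE'⟩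
  refine ⟨(q, fun i => m i • v i), hyS, ?_, hq, fun i => ?_⟩
  · exact wandering_of_bootM hm hm1.le (by positivity) hmX hset hyS hτ0.le c7 hs.norm.le hK3 hF c8
  · show ‖(m i)⁻¹ • (m i • v i) - (m i)⁻¹ • x.2 i‖ ≤ 1 / Y ^ 6
    rw [smul_smul, inv_mul_cancel₀ (hm i).ne', one_smul]
    exact hv i

/-- The theorem on many bodies with arbitrary masses, given the gun. -/
theorem manyM_of {s : Fin 3 → V3} {e : V3} {μ₀ C₀ η₀ : ℝ} (hs : GunShape s e)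
    (hμ₀ : 0 < μ₀) (hC : 0 < C₀) (hη₀ : 0 < η₀) (hg : GunPropM s e μ₀ C₀ η₀) :
    ∃ N₀ : ℕ, ∀ N : ℕ, N₀ ≤ N → ∀ m : Fin N → ℝ, ∑ i, m i = 1 →
      (∀ i, Real.exp (-(N : ℝ) ^ (1 / 100 : ℝ)) ≤ m i) →
      (∀ i, m i ≤ (N : ℝ) ^ (-(99 / 100) : ℝ)) →
      ∀ E : ℝ, |E| ≤ (N : ℝ) ^ (1 / 100 : ℝ) →
      ∀ (S : Set (Ph N)) (ψ : Ph N → ℝ) (φ : ℝ → Ph N → Ph N), Setting m S ψ φ →
      (∀ x : Ph N, x ∈ S ↔ (∀ i j, i ≠ j → x.1 i ≠ x.1 j) ∧ ∑ i, m i • x.1 i = 0 ∧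
        ∑ i, x.2 i = 0 ∧ kin m x.2 - pot m x.1 = E) →
      ∀ x ∈ S, (∀ i, ‖x.1 i‖ ≤ (N : ℝ) ^ (1 / 100 : ℝ)) →
        (∀ i, ‖(m i)⁻¹ • x.2 i‖ ≤ (N : ℝ) ^ (1 / 100 : ℝ)) →
        ∃ y ∈ S, Wandering S φ y ∧ (∀ i, ‖y.1 i - x.1 i‖ ≤ (N : ℝ) ^ (-(1 / 100) : ℝ)) ∧
          (∀ i, ‖(m i)⁻¹ • y.2 i - (m i)⁻¹ • x.2 i‖ ≤ (N : ℝ) ^ (-(1 / 100) : ℝ)) := by
  have hu := gun_energy_pos hs
  obtain ⟨η₁, hη1⟩ : ∃ η₁, η₁ = min η₀ (1 / 2) := ⟨_, rfl⟩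
  have h1 : 0 < η₁ := by rw [hη1]; positivity
  have h2 : η₁ ≤ η₀ := by rw [hη1]; exact min_le_left _ _
  have h3 : η₁ ≤ 1 / 2 := by rw [hη1]; exact min_le_right _ _
  obtain ⟨u₀, hu₀⟩ : ∃ u₀, u₀ = ∑ k, ∑ l, 1 / ‖s k - s l‖ := ⟨_, rfl⟩
  rw [← hu₀] at hu
  obtain ⟨B, hBd⟩ : ∃ B, B = max (max 1 u₀) (max C₀ (1 / η₁)) := ⟨_, rfl⟩
  have hB1 : 1 ≤ B := by rw [hBd]; exact le_trans (le_max_left _ _) (le_max_left _ _)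
  have hB2 : u₀ ≤ B := by rw [hBd]; exact le_trans (le_max_right _ _) (le_max_left _ _)
  have hB3 : C₀ ≤ B := by rw [hBd]; exact le_trans (le_max_left _ _) (le_max_right _ _)
  have hB4 : 1 / η₁ ≤ B := by rw [hBd]; exact le_trans (le_max_right _ _) (le_max_right _ _)
  refine ⟨⌈(10 ^ 9 * B ^ 2) ^ 600⌉₊, ?_⟩
  intro N hN m hm1 hmX hmμ E hE S ψ φ hset hS x hx hxR hxV
  have hNr : (10 ^ 9 * B ^ 2) ^ 600 ≤ (N : ℝ) := Nat.ceil_le.mp hN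
  have hBpos : 0 < 10 ^ 9 * B ^ 2 := by positivity
  have hN0 : (0 : ℝ) < N := lt_of_lt_of_le (by positivity) hNr
  obtain ⟨Y, hYd⟩ : ∃ Y : ℝ, Y = (N : ℝ) ^ (1 / 600 : ℝ) := ⟨_, rfl⟩
  have hY0 : 0 < Y := by rw [hYd]; positivity
  have hYN : (N : ℝ) = Y ^ 600 := by
    rw [hYd, ← Real.rpow_natCast, ← Real.rpow_mul hN0.le]
    norm_num
  have hY6 : (N : ℝ) ^ (1 / 100 : ℝ) = Y ^ 6 := by
    rw [hYd, ← Real.rpow_natCast ((N : ℝ) ^ (1 / 600 : ℝ)) 6, ← Real.rpow_mul hN0.le]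
    norm_num
  have hYm : (N : ℝ) ^ (-(99 / 100) : ℝ) = Y ^ 6 / Y ^ 600 := by
    rw [← hYN, ← hY6, show (-(99 / 100) : ℝ) = 1 / 100 - 1 by norm_num, Real.rpow_sub hN0,
      Real.rpow_one]
  have hYi : (N : ℝ) ^ (-(1 / 100) : ℝ) = 1 / Y ^ 6 := by
    rw [← hY6, Real.rpow_neg hN0.le]
    exact (one_div _).symm
  have hY : 10 ^ 9 * B ^ 2 ≤ Y := by
    by_contra hlt
    push Not at hlt
    have := pow_lt_pow_left₀ hlt hY0.le (n := 600) (by norm_num)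
    rw [← hYN] at this
    linarith
  rw [hY6] at hmX hE hxR hxV
  rw [hYm] at hmμ
  rw [hYi]
  have hm : ∀ i, 0 < m i := fun i => lt_of_lt_of_le (Real.exp_pos _) (hmX i)
  refine manyM_at hs hμ₀ hC h1 h3 (hg.mono h2) hu₀ hu hB1 hB2 hB3 hB4 hY hYN hm1 hmX hmμ hE hset
    hS hx hxR (fun i => ?_)
  have h4 := hxV i
  rw [norm_smul, norm_inv, Real.norm_of_nonneg (hm i).le, inv_mul_le_iff₀ (hm i)] at h4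
  exact h4

end Pool.Agent.NBody
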