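import Mathlib
import Pool.Agent.NBody.ThNumM

/-!
The arithmetic of the theorem on the whole energy surface: `N = X ^ 3600`, and every condition is
`constant * X ^ k ≤ X ^ l` with `k < l`.
-/

set_option autoImplicit false

namespace Pool.Agent.NBody

/-- The comparison of two negative powers. -/
theorem pwI {X C : ℝ} (hX : 1 ≤ X) (hC : C ≤ X) {a b : ℕ} (h : a + 1 ≤ b) :
    C * (1 / X ^ b) ≤ 1 / X ^ a := by
  have hX0 : 0 < X := by linarith
  rw [mul_one_div, div_le_div_iff₀ (by positivity) (by positivity), one_mul]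
  exact pwN hX hC h

theorem pwI1 {X : ℝ} (hX : 1 ≤ X) {a b : ℕ} (h : a ≤ b) : 1 / X ^ b ≤ 1 / X ^ a :=
  one_div_le_one_div_of_le (by positivity) (pow_le_pow_right₀ hX h)

theorem num4_base {X M U W : ℝ} (hX : 10 ^ 9 ≤ X) (hM : 0 < M) (hM2 : M ≤ X ^ 2 / X ^ 3600)
    (hU : 1 / X ≤ U) (hW : 0 < W) (hW2 : W ^ 2 = U / M) :
    M ≤ 1 / X ^ 3598 ∧ X ^ 3597 ≤ W ^ 2 ∧ X ^ 1798 ≤ W := by
  have hX1 : 1 ≤ X := le_trans (by norm_num) hX
  have hX0 : 0 < X := by linarith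
  have hM3 : M ≤ 1 / X ^ 3598 := by
    refine hM2.trans (le_of_eq ?_)
    rw [div_eq_div_iff (by positivity) (by positivity)]
    ring
  have h1 : X ^ 3597 ≤ W ^ 2 := by
    rw [hW2, le_div_iff₀ hM]
    calc X ^ 3597 * M ≤ X ^ 3597 * (1 / X ^ 3598) := by gcongr
      _ = 1 / X := by field_simp
      _ ≤ U := hU
  refine ⟨hM3, h1, ?_⟩
  have h2 : (X ^ 1798) ^ 2 ≤ W ^ 2 := by
    refine le_trans ?_ h1
    rw [← pow_mul]
    exact pow_le_pow_right₀ hX1 (by norm_num)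
  exact (sq_le_sq₀ (by positivity) hW.le).mp h2

/-- The size of the gun and its speed: the conditions of the bootstrap in the case of a gun. -/
theorem num4_gun {u₀ C₀ η₀ B X M U W : ℝ} (hu : 0 < u₀) (hC : 0 < C₀) (hη₀ : 0 < η₀)
    (hB : 1 ≤ B) (huB : u₀ ≤ B) (hCB : C₀ ≤ B) (hηB : 1 / η₀ ≤ B) (hX : 10 ^ 9 * B ^ 2 ≤ X)
    (hM : 0 < M) (hM2 : M ≤ X ^ 2 / X ^ 3600) (hU : 1 / X ≤ U) (hW : 0 < W)
    (hW2 : W ^ 2 = U / M) {c τ ω r y η R : ℝ} (hc : c = 1 / (32 * X)) (hτ : τ = X ^ 27 / W)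
    (hω : ω = W / X ^ 180) (hr : 0 < r) (hrM : r ≤ 16 * M ^ 2 * u₀ / (1 / (8 * X ^ 17) * U))
    (hy : y = √(M / r)) (hη : η = r ^ 2 / M * (16 / c ^ 2)) (hR : R = X ^ 16 + 1) :
    r ≤ 1 ∧ r * C₀ ≤ 1 ∧ ω * τ ≤ c / 4 ∧ ω * τ ≤ 1 / 2 ∧ η ≤ η₀ ∧ η * (τ * y / r) ≤ η₀ ∧
    ω / y ≤ η₀ ∧
    C₀ * (ω / y + η * (1 + τ * y / r)) * (r + τ * y) ≤ c / 8 ∧ 8 * (R + 2) ≤ τ * y ∧
    0 < y / 2 ∧ 864 * (X + 1) < (y / 2) ^ 2 * (2 * R) := by
  have hB2 : B ≤ B ^ 2 := by nlinarith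
  have hX9 : (10 : ℝ) ^ 9 ≤ X := by nlinarith
  have hXB : 10 ^ 9 * B ≤ X := by nlinarith
  have hX1 : 1 ≤ X := le_trans (by norm_num) hX9
  have hX0 : 0 < X := by linarith
  obtain ⟨hM3, hW3, hW4⟩ := num4_base hX9 hM hM2 hU hW hW2
  have hU0 : 0 < U := lt_of_lt_of_le (by positivity) hU
  have hc0 : 0 < c := by rw [hc]; positivity
  have hτ0 : 0 < τ := by rw [hτ]; positivity
  have hω0 : 0 < ω := by rw [hω]; positivity
  have hMU : M = U / W ^ 2 := by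
    rw [hW2]
    field_simp
  -- `r / M ≤ X ^ 18 / W ^ 2`
  have hrM1 : r ≤ M * (X ^ 18 / W ^ 2) := by
    calc r ≤ 16 * M ^ 2 * u₀ / (1 / (8 * X ^ 17) * U) := hrM
      _ = M * (128 * u₀ * X ^ 17 * (M / U)) := by
        field_simp
        ring
      _ = M * (128 * u₀ * X ^ 17 / W ^ 2) := by
        rw [hW2]
        field_simp
      _ ≤ M * (X ^ 18 / W ^ 2) := by
        have : 128 * u₀ * X ^ 17 ≤ X ^ 18 := pwN hX1 (by nlinarith) (by norm_num)
        gcongr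
  have hWi : 1 / W ^ 2 ≤ 1 / X ^ 3597 := one_div_le_one_div_of_le (by positivity) hW3
  have hrM3 : X ^ 18 / W ^ 2 ≤ 1 / X ^ 3579 := by
    calc X ^ 18 / W ^ 2 = X ^ 18 * (1 / W ^ 2) := by ring
      _ ≤ X ^ 18 * (1 / X ^ 3597) := by gcongr
      _ = 1 / X ^ 3579 := by field_simp
  have hr2 : r ≤ 1 / X ^ 7000 := by
    calc r ≤ M * (X ^ 18 / W ^ 2) := hrM1
      _ ≤ 1 / X ^ 3598 * (1 / X ^ 3579) := by gcongr
      _ = 1 / X ^ 7177 := by rw [one_div_mul_one_div, ← pow_add]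
      _ ≤ 1 / X ^ 7000 := pwI1 hX1 (by norm_num)
  have hy0 : 0 < y := by rw [hy]; exact Real.sqrt_pos.mpr (by positivity)
  have hy2 : y ^ 2 = M / r := by rw [hy, Real.sq_sqrt (by positivity)]
  have hyW : W / X ^ 9 ≤ y := by
    rw [hy]
    apply Real.le_sqrt_of_sq_le
    rw [le_div_iff₀ hr]
    calc (W / X ^ 9) ^ 2 * r ≤ (W / X ^ 9) ^ 2 * (M * (X ^ 18 / W ^ 2)) := by gcongr
      _ = M := by
        field_simp
  have hy1 : 1 ≤ y := by
    refine le_trans ?_ hyW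
    rw [le_div_iff₀ (by positivity), one_mul]
    exact (pow_le_pow_right₀ hX1 (by norm_num)).trans hW4
  have hc2 : 16 / c ^ 2 = 16384 * X ^ 2 := by
    rw [hc]
    field_simp
    norm_num
  have hη0 : 0 < η := by rw [hη]; positivity
  have hrM4 : r / M ≤ 1 / X ^ 3579 := by
    rw [div_le_iff₀ hM]
    calc r ≤ M * (X ^ 18 / W ^ 2) := hrM1
      _ ≤ M * (1 / X ^ 3579) := by gcongr
      _ = 1 / X ^ 3579 * M := by ring
  have hη1 : η ≤ 1 / X ^ 1000 := by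
    rw [hη, hc2]
    calc r ^ 2 / M * (16384 * X ^ 2) = r * (r / M) * (16384 * X ^ 2) := by ring
      _ ≤ 1 / X ^ 7000 * (1 / X ^ 3579) * (16384 * X ^ 2) := by gcongr
      _ ≤ 1 * (1 / X ^ 3579) * (16384 * X ^ 2) := by
        have : 1 / X ^ 7000 ≤ 1 := by
          rw [div_le_one (by positivity)]
          exact one_le_pow₀ hX1
        gcongr
      _ = 16384 * (1 / X ^ 3577) := by
        field_simp
      _ ≤ 1 / X ^ 1000 := pwI hX1 (by linarith) (by norm_num)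
  have hq : η * (τ * y / r) = 16384 * X ^ 2 * τ / y := by
    rw [hη, hc2]
    have h1 : M = y ^ 2 * r := by
      rw [hy2]
      field_simp
    rw [h1]
    field_simp
  have hτ1 : τ ≤ 1 / X ^ 1771 := by
    rw [hτ, div_le_div_iff₀ hW (by positivity)]
    calc X ^ 27 * X ^ 1771 = X ^ 1798 := by rw [← pow_add]
      _ ≤ 1 * W := by rw [one_mul]; exact hW4
  have hq1 : η * (τ * y / r) ≤ 1 / X ^ 1000 := by
    rw [hq]
    calc 16384 * X ^ 2 * τ / y ≤ 16384 * X ^ 2 * (1 / X ^ 1771) / 1 := by gcongr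
      _ = 16384 * (1 / X ^ 1769) := by
        field_simp
      _ ≤ 1 / X ^ 1000 := pwI hX1 (by linarith) (by norm_num)
  have hq2 : η * (τ * y / r) * (τ * y) ≤ 1 / X ^ 1000 := by
    rw [hq]
    have : 16384 * X ^ 2 * τ / y * (τ * y) = 16384 * X ^ 2 * τ * τ := by field_simp
    rw [this]
    calc 16384 * X ^ 2 * τ * τ ≤ 16384 * X ^ 2 * (1 / X ^ 1771) * 1 := by
          have : τ ≤ 1 := hτ1.trans (by
            rw [div_le_one (by positivity)]
            exact one_le_pow₀ hX1)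
          gcongr
      _ = 16384 * (1 / X ^ 1769) := by field_simp
      _ ≤ 1 / X ^ 1000 := pwI hX1 (by linarith) (by norm_num)
  have hsmall : ∀ n : ℕ, 1 ≤ n → 1 / X ^ n ≤ η₀ := by
    intro n hn
    have h1 : 1 / η₀ ≤ X ^ n := by
      calc 1 / η₀ ≤ X := by linarith
        _ = X ^ 1 := (pow_one X).symm
        _ ≤ X ^ n := pow_le_pow_right₀ hX1 hn
    rw [div_le_iff₀ (by positivity)]
    rw [div_le_iff₀ hη₀] at h1
    linarith
  have hr1 : r ≤ 1 := by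
    refine hr2.trans ?_
    rw [div_le_one (by positivity)]
    exact one_le_pow₀ hX1
  have hωτ : ω * τ = 1 / X ^ 153 := by
    rw [hω, hτ]
    field_simp
  have hωy : ω / y ≤ 1 / X ^ 171 := by
    rw [div_le_iff₀ hy0, hω]
    calc W / X ^ 180 = 1 / X ^ 171 * (W / X ^ 9) := by field_simp
      _ ≤ 1 / X ^ 171 * y := by gcongr
  have hτy : X ^ 18 ≤ τ * y := by
    rw [hτ]
    calc X ^ 18 = X ^ 27 / W * (W / X ^ 9) := by field_simp
      _ ≤ X ^ 27 / W * y := by gcongr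
  have hX16 : (1 : ℝ) ≤ X ^ 16 := one_le_pow₀ hX1
  refine ⟨hr1, ?_, ?_, ?_, hη1.trans (hsmall _ (by norm_num)),
    hq1.trans (hsmall _ (by norm_num)), hωy.trans (hsmall _ (by norm_num)), ?_, ?_, by positivity,
    ?_⟩
  · calc r * C₀ ≤ 1 / X ^ 7000 * B := by gcongr
      _ = B * (1 / X ^ 7000) := by ring
      _ ≤ 1 / X ^ 0 := pwI hX1 (by linarith) (by norm_num)
      _ = 1 := by norm_num
  · rw [hωτ, hc]
    have h1 : 128 * (1 / X ^ 153) ≤ 1 / X ^ 1 := pwI hX1 (by linarith) (by norm_num)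
    have h2 : 1 / (32 * X) / 4 = 1 / 128 * (1 / X ^ 1) := by
      field_simp
      norm_num
    rw [h2]
    linarith
  · rw [hωτ]
    have h1 : 2 * (1 / X ^ 153) ≤ 1 / X ^ 0 := pwI hX1 (by linarith) (by norm_num)
    rw [pow_zero] at h1
    linarith
  · have h1 : C₀ * (ω / y + η * (1 + τ * y / r)) * (r + τ * y) =
        C₀ * (ω / y * r + ω * τ + η * r + η * (τ * y / r) * r + η * (τ * y / r) * r +
          η * (τ * y / r) * (τ * y)) := by
      field_simp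
      ring
    have h2 : η * r ≤ 1 / X ^ 100 := by
      calc η * r ≤ 1 / X ^ 1000 * 1 := by gcongr
        _ ≤ 1 / X ^ 100 := by
          rw [mul_one]
          exact pwI1 hX1 (by norm_num)
    have h3 : η * (τ * y / r) * r ≤ 1 / X ^ 100 := by
      calc η * (τ * y / r) * r ≤ 1 / X ^ 1000 * 1 := by gcongr
        _ ≤ 1 / X ^ 100 := by
          rw [mul_one]
          exact pwI1 hX1 (by norm_num)
    have h4 : ω / y * r ≤ 1 / X ^ 100 := by
      calc ω / y * r ≤ 1 / X ^ 171 * 1 := by gcongr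
        _ ≤ 1 / X ^ 100 := by
          rw [mul_one]
          exact pwI1 hX1 (by norm_num)
    have h5 : ω * τ ≤ 1 / X ^ 100 := by
      rw [hωτ]
      exact pwI1 hX1 (by norm_num)
    have h6 : η * (τ * y / r) * (τ * y) ≤ 1 / X ^ 100 := hq2.trans (pwI1 hX1 (by norm_num))
    rw [h1]
    calc C₀ * (ω / y * r + ω * τ + η * r + η * (τ * y / r) * r + η * (τ * y / r) * r +
          η * (τ * y / r) * (τ * y)) ≤ B * (1 / X ^ 100 + 1 / X ^ 100 + 1 / X ^ 100 +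
          1 / X ^ 100 + 1 / X ^ 100 + 1 / X ^ 100) := by gcongr
      _ = 1 / 256 * (1536 * B * (1 / X ^ 100)) := by ring
      _ ≤ 1 / 256 * (1 / X ^ 1) := by
        have : 1536 * B * (1 / X ^ 100) ≤ 1 / X ^ 1 := pwI hX1 (by nlinarith) (by norm_num)
        gcongr
      _ = c / 8 := by
        rw [hc]
        field_simp
        norm_num
  · refine le_trans ?_ hτy
    rw [hR]
    have h1 : 32 * X ^ 16 ≤ X ^ 18 := pwN hX1 (by linarith) (by norm_num)
    linarith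
  · have h1 : X ^ 1789 ≤ y := by
      refine le_trans ?_ hyW
      rw [le_div_iff₀ (by positivity)]
      calc X ^ 1789 * X ^ 9 = X ^ 1798 := by rw [← pow_add]
        _ ≤ W := hW4
    have h2 : X ^ 2 ≤ y := (pow_le_pow_right₀ hX1 (by norm_num)).trans h1
    have h3 : (X ^ 2) ^ 2 ≤ y ^ 2 := pow_le_pow_left₀ (by positivity) h2 2
    have h4 : 10000 * X ^ 2 ≤ (X ^ 2) ^ 2 := by
      rw [← pow_mul]
      exact pwN hX1 (by linarith) (by norm_num)
    have h5 : X ≤ X ^ 2 := by nlinarith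
    have h6 : 1 ≤ R := by rw [hR]; linarith
    nlinarith

end Pool.Agent.NBody
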