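import Mathlib
import Pool.Agent.NBody.ThNum4

/-!
The arithmetic of the other bodies in the case of a gun.
-/

set_option autoImplicit false

namespace Pool.Agent.NBody

/-- `(κ / N) ^ (1/3) = X ^ (-1225)` and `√(κ / N) ≥ X ^ (-1838)`. -/
theorem num4_kap {X n : ℝ} (hX : 1 ≤ X) (hn : n = X ^ 3600) :
    (1 / X ^ 75 / n) ^ (1 / 3 : ℝ) = 1 / X ^ 1225 ∧ 1 / X ^ 1838 ≤ √(1 / X ^ 75 / n) := by
  have hX0 : 0 < X := by linarith
  have h1 : 1 / X ^ 75 / n = (1 / X ^ 1225) ^ 3 := by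
    rw [hn, div_div, ← pow_add, one_div_pow, ← pow_mul]
  constructor
  · rw [h1]
    have h := Real.pow_rpow_inv_natCast (x := 1 / X ^ 1225) (by positivity) (n := 3)
      (by norm_num)
    have h3 : ((3 : ℕ) : ℝ)⁻¹ = 1 / 3 := by norm_num
    rw [h3] at h
    exact h
  · apply Real.le_sqrt_of_sq_le
    rw [h1, one_div_pow, one_div_pow, ← pow_mul, ← pow_mul]
    exact pwI1 hX (by norm_num)

theorem num4_othersA {X M U W τ n : ℝ} (hX : 10 ^ 9 ≤ X) (hM : 0 < M)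
    (hM2 : M ≤ X ^ 2 / X ^ 3600) (hU : 1 / X ≤ U) (hW : 0 < W) (hW2 : W ^ 2 = U / M)
    (hτ : τ = X ^ 27 / W) (hn : n = X ^ 3600) :
    n * (2 * U * (8 * τ / (1 / X ^ 75 / n) ^ (1 / 3 : ℝ)) ^ 2) ≤ (X ^ 836) ^ 3 ∧
    8 * (54 + 27 * X ^ 836) / (1 / X ^ 75) + 16 * 1 / (1 / (32 * X)) ^ 2 ≤ X ^ 913 ∧
    X ^ 913 * τ ^ 2 < √(1 / X ^ 75 / n) / 4 ∧ X ^ 913 * τ ^ 2 < 1 / (32 * X) / 8 := by
  have hX1 : 1 ≤ X := le_trans (by norm_num) hX
  have hX0 : 0 < X := by linarith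
  obtain ⟨hM3, hW3, hW4⟩ := num4_base hX hM hM2 hU hW hW2
  have hU0 : 0 < U := lt_of_lt_of_le (by positivity) hU
  obtain ⟨h3, h4⟩ := num4_kap hX1 hn
  have hUτ : U * τ ^ 2 = X ^ 54 * M := by
    rw [hτ, div_pow, hW2]
    field_simp
  have hτ2 : τ ^ 2 ≤ 1 / X ^ 3543 := by
    rw [hτ, div_pow, div_le_div_iff₀ (by positivity) (by positivity)]
    calc (X ^ 27) ^ 2 * X ^ 3543 = X ^ 3597 := by rw [← pow_mul, ← pow_add]
      _ ≤ 1 * W ^ 2 := by rw [one_mul]; exact hW3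
  have h5 : X ^ 913 * τ ^ 2 ≤ 1 / X ^ 2630 := by
    calc X ^ 913 * τ ^ 2 ≤ X ^ 913 * (1 / X ^ 3543) := by gcongr
      _ = 1 / X ^ 2630 := by field_simp
  refine ⟨?_, ?_, ?_, ?_⟩
  · rw [h3, hn]
    calc X ^ 3600 * (2 * U * (8 * τ / (1 / X ^ 1225)) ^ 2) =
        128 * X ^ 6050 * (U * τ ^ 2) := by
          field_simp
          ring
      _ = 128 * X ^ 6104 * M := by
          rw [hUτ]
          ring
      _ ≤ 128 * X ^ 6104 * (1 / X ^ 3598) := by gcongr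
      _ = 128 * X ^ 2506 := by field_simp
      _ ≤ X ^ 2508 := pwN hX1 (by linarith) (by norm_num)
      _ = (X ^ 836) ^ 3 := by rw [← pow_mul]
  · have e1 : 8 * (54 + 27 * X ^ 836) / (1 / X ^ 75) = 432 * X ^ 75 + 216 * X ^ 911 := by
      field_simp
      ring
    have e2 : 16 * 1 / (1 / (32 * X)) ^ 2 = 16384 * X ^ 2 := by
      field_simp
      ring
    rw [e1, e2]
    have e3 : X ^ 75 ≤ X ^ 911 := pow_le_pow_right₀ hX1 (by norm_num)
    have e4 : X ^ 2 ≤ X ^ 911 := pow_le_pow_right₀ hX1 (by norm_num)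
    have e5 : 100000 * X ^ 911 ≤ X ^ 913 := pwN hX1 (by linarith) (by norm_num)
    have e6 : (0 : ℝ) < X ^ 911 := by positivity
    linarith
  · refine lt_of_le_of_lt h5 (lt_of_lt_of_le ?_ (div_le_div_of_nonneg_right h4 (by norm_num)))
    have e1 : 8 * (1 / X ^ 2630) ≤ 1 / X ^ 1838 := pwI hX1 (by linarith) (by norm_num)
    have e2 : (0 : ℝ) < 1 / X ^ 2630 := by positivity
    linarith
  · refine lt_of_le_of_lt h5 ?_
    have e1 : 1000 * (1 / X ^ 2630) ≤ 1 / X ^ 1 := pwI hX1 (by linarith) (by norm_num)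
    have e2 : (0 : ℝ) < 1 / X ^ 2630 := by positivity
    have e3 : 1 / (32 * X) / 8 = 1 / 256 * (1 / X ^ 1) := by
      field_simp
      norm_num
    rw [e3]
    linarith

/-- The condition on the volumes. -/
theorem num4_vol {X a : ℝ} (hX : 10 ^ 9 ≤ X) (ha : a ≤ 100 * X ^ 17) :
    2 * (1 / X ^ 75) * (a + 2) ≤ (1 / (128 * X ^ 17)) ^ 3 * (1 / (32 * X)) ^ 3 / 2000 := by
  have hX1 : 1 ≤ X := le_trans (by norm_num) hX
  have hX0 : 0 < X := by linarith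
  have e3 : (1 : ℝ) ≤ X ^ 17 := one_le_pow₀ hX1
  have e4 : (1 / (128 * X ^ 17)) ^ 3 * (1 / (32 * X)) ^ 3 / 2000 =
      1 / (2 ^ 36 * 2000) * (1 / X ^ 54) := by
    field_simp
    norm_num
  rw [e4]
  calc 2 * (1 / X ^ 75) * (a + 2) ≤ 2 * (1 / X ^ 75) * (102 * X ^ 17) := by
        have : a + 2 ≤ 102 * X ^ 17 := by linarith
        gcongr
    _ = 1 / (2 ^ 36 * 2000) * (204 * (2 ^ 36 * 2000) * (1 / X ^ 58)) := by
        field_simp
        norm_num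
    _ ≤ 1 / (2 ^ 36 * 2000) * (1 / X ^ 54) := by
        have h1 : 204 * (2 ^ 36 * 2000) * (1 / X ^ 58) ≤ 1 / X ^ 54 := by
          rw [mul_one_div, div_le_div_iff₀ (by positivity) (by positivity), one_mul]
          have h2 : 204 * (2 ^ 36 * 2000) ≤ X ^ 2 := by nlinarith
          calc 204 * (2 ^ 36 * 2000) * X ^ 54 ≤ X ^ 2 * X ^ 54 := by gcongr
            _ = X ^ 56 := by rw [← pow_add]
            _ ≤ X ^ 58 := pow_le_pow_right₀ hX1 (by norm_num)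
        gcongr

/-- The conditions of the preparation with a gun. -/
theorem num4_prepA {u₀ B X M U : ℝ} (hu : 0 < u₀) (hB : 1 ≤ B) (huB : u₀ ≤ B)
    (hX : 10 ^ 9 * B ^ 2 ≤ X) (hM : 0 < M) (hM2 : M ≤ X ^ 2 / X ^ 3600) (hU : 1 / X ≤ U) :
    1 / (8 * X ^ 17) * X ^ 16 ≤ 1 / X / 8 ∧ 16 * (1 / (128 * X ^ 17)) ≤ 1 / (8 * X ^ 17) ∧
    48 * M / (1 / (32 * X)) ≤ 1 / (8 * X ^ 17) * U ∧
    16 * M ^ 2 * u₀ / (1 / (8 * X ^ 17) * U) ≤ 1 / X / 16 := by
  have hB2 : B ≤ B ^ 2 := by nlinarith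
  have hX9 : (10 : ℝ) ^ 9 ≤ X := by nlinarith
  have hXB : 10 ^ 9 * B ≤ X := by nlinarith
  have hX1 : 1 ≤ X := le_trans (by norm_num) hX9
  have hX0 : 0 < X := by linarith
  have hU0 : 0 < U := lt_of_lt_of_le (by positivity) hU
  have hM3 : M ≤ 1 / X ^ 3598 := by
    refine hM2.trans (le_of_eq ?_)
    rw [div_eq_div_iff (by positivity) (by positivity)]
    ring
  refine ⟨?_, ?_, ?_, ?_⟩
  · apply le_of_eq
    field_simp
  · apply le_of_eq
    field_simp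
    norm_num
  · calc 48 * M / (1 / (32 * X)) = 1536 * X * M := by
          field_simp
          ring
      _ ≤ 1536 * X * (1 / X ^ 3598) := by gcongr
      _ = 1 / (8 * X ^ 18) * (12288 * (1 / X ^ 3579)) := by
          field_simp
          norm_num
      _ ≤ 1 / (8 * X ^ 18) * (1 / X ^ 0) := by
          have := pwI hX1 (C := 12288) (by linarith) (a := 0) (b := 3579) (by norm_num)
          gcongr
      _ = 1 / (8 * X ^ 17) * (1 / X) := by
          field_simp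
      _ ≤ 1 / (8 * X ^ 17) * U := by gcongr
  · rw [div_le_iff₀ (by positivity)]
    calc 16 * M ^ 2 * u₀ ≤ 16 * (1 / X ^ 3598) ^ 2 * B := by gcongr
      _ = 1 / (128 * X ^ 19) * (2048 * B * (1 / X ^ 7177)) := by
          field_simp
          norm_num
      _ ≤ 1 / (128 * X ^ 19) * (1 / X ^ 0) := by
          have := pwI hX1 (C := 2048 * B) (by linarith) (a := 0) (b := 7177) (by norm_num)
          gcongr
      _ = 1 / X / 16 * (1 / (8 * X ^ 17) * (1 / X)) := by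
          field_simp
          norm_num
      _ ≤ 1 / X / 16 * (1 / (8 * X ^ 17) * U) := by gcongr

end Pool.Agent.NBody
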