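import Mathlib
import Pool.Agent.NBody.ThNum4

/-!
The arithmetic of the theorem on the whole energy surface, `N = X ^ 3600`, in the case of a tight
pair: some body is faster than `W / X ^ 180`.
-/

set_option autoImplicit false

namespace Pool.Agent.NBody

theorem num4B_tau {X M U W V τ : ℝ} (hX : 10 ^ 9 ≤ X) (hM : 0 < M)
    (hM2 : M ≤ X ^ 2 / X ^ 3600) (hU : 1 / X ≤ U) (hW : 0 < W) (hW2 : W ^ 2 = U / M)
    (hV : W / X ^ 180 < V) (hτ : τ = 8 * (X ^ 16 + 3) / V) :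
    0 < V ∧ 0 < τ ∧ V * τ = 8 * (X ^ 16 + 3) ∧ τ ≤ X ^ 197 / W ∧ τ ≤ 1 / X ^ 1601 ∧
      X ^ 1618 ≤ V := by
  have hX1 : 1 ≤ X := le_trans (by norm_num) hX
  have hX0 : 0 < X := by linarith
  obtain ⟨hM3, hW3, hW4⟩ := num4_base hX hM hM2 hU hW hW2
  have hV0 : 0 < V := lt_trans (by positivity) hV
  have hτ0 : 0 < τ := by rw [hτ]; positivity
  have h1 : τ ≤ X ^ 197 / W := by
    rw [hτ, div_le_div_iff₀ hV0 hW]
    have h2 : 32 * X ^ 16 ≤ X ^ 17 := pwN hX1 (by linarith) (by norm_num)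
    have h3 : (1 : ℝ) ≤ X ^ 16 := one_le_pow₀ hX1
    have h4 : 8 * (X ^ 16 + 3) ≤ X ^ 17 := by linarith
    have h5 : W ≤ X ^ 180 * V := by
      rw [div_lt_iff₀ (by positivity)] at hV
      linarith
    calc 8 * (X ^ 16 + 3) * W ≤ X ^ 17 * (X ^ 180 * V) := by gcongr
      _ = X ^ 197 * V := by ring
  refine ⟨hV0, hτ0, ?_, h1, ?_, ?_⟩
  · rw [hτ]
    field_simp
  · refine h1.trans ?_
    rw [div_le_div_iff₀ hW (by positivity)]
    calc X ^ 197 * X ^ 1601 = X ^ 1798 := by rw [← pow_add]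
      _ ≤ 1 * W := by rw [one_mul]; exact hW4
  · refine le_trans ?_ hV.le
    rw [le_div_iff₀ (by positivity)]
    calc X ^ 1618 * X ^ 180 = X ^ 1798 := by rw [← pow_add]
      _ ≤ W := hW4

/-- The conditions of the preparation. -/
theorem num4B_prep {X M mb U W V τ w : ℝ} (hX : 10 ^ 9 ≤ X) (hM : 0 < M) (hmb : 0 < mb)
    (hmb1 : mb ≤ 2 * M)
    (hM2 : M ≤ X ^ 2 / X ^ 3600) (hU : 1 / X ≤ U) (hW : 0 < W) (hW2 : W ^ 2 = U / M)
    (hV : W / X ^ 180 < V) (hτ : τ = 8 * (X ^ 16 + 3) / V) (hw : w = X ^ 2 * W / X ^ 1800) :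
    8 * (M + mb) / (1 / (32 * X)) ≤ 1 / (8 * X ^ 17) * U ∧
    M * (w * (1 / X) + (1 / X) ^ 2) ≤ 2 * U ∧
    8 * M * mb / (1 / (8 * X ^ 17) * U) ≤ 1 / X / 16 ∧
    0 < w ∧ w + 1 / X ≤ V ∧ w < V ∧ w * τ ≤ 1 / X ^ 1225 / 8 ∧
    8 * (1 / X ^ 75) * (2 * (V * τ) + 2) ≤
      (1 / (128 * X ^ 17)) ^ 3 * (1 / (32 * X)) ^ 3 / 2000 := by
  have hX1 : 1 ≤ X := le_trans (by norm_num) hX
  have hX0 : 0 < X := by linarith
  obtain ⟨hM3, hW3, hW4⟩ := num4_base hX hM hM2 hU hW hW2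
  obtain ⟨hV0, hτ0, hVτ, hτ1, hτ2, hV2⟩ := num4B_tau hX hM hM2 hU hW hW2 hV hτ
  have hU0 : 0 < U := lt_of_lt_of_le (by positivity) hU
  have hUX : U⁻¹ ≤ X := by
    rw [inv_le_comm₀ hU0 hX0]
    rwa [one_div] at hU
  have hw' : w = W / X ^ 1798 := by
    rw [hw]
    field_simp
  have hw0 : 0 < w := by rw [hw']; positivity
  have hw1 : 1 ≤ w := by
    rw [hw', le_div_iff₀ (by positivity), one_mul]
    exact hW4
  have hMU : M * W ^ 2 = U := by
    rw [hW2]
    field_simp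
  have hwV : 2 * w ≤ V := by
    refine le_trans ?_ hV.le
    rw [hw', le_div_iff₀ (by positivity)]
    have h1 : 2 * W / X ^ 1618 ≤ W := by
      rw [div_le_iff₀ (by positivity)]
      have h2 : (2:ℝ) ≤ X ^ 1618 := by
        have h3 : X ^ 1 ≤ X ^ 1618 := pow_le_pow_right₀ hX1 (by norm_num)
        rw [pow_one] at h3
        linarith
      nlinarith
    calc 2 * (W / X ^ 1798) * X ^ 180 = 2 * W / X ^ 1618 := by
          field_simp
      _ ≤ W := h1
  have hMs : M ≤ 1 / X ^ 100 := hM3.trans (pwI1 hX1 (by norm_num))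
  have hXi : 1 / X ≤ 1 := by
    rw [div_le_one hX0]
    exact hX1
  refine ⟨?_, ?_, ?_, hw0, by linarith, by linarith, ?_, ?_⟩
  · have h1 : 8 * (M + mb) / (1 / (32 * X)) = 256 * X * (M + mb) := by
      field_simp
      norm_num
    rw [h1]
    calc 256 * X * (M + mb) ≤ 256 * X * (3 * M) := by gcongr; linarith
      _ ≤ 256 * X * (3 * (1 / X ^ 100)) := by gcongr
      _ = 1 / 8 * (6144 * (1 / X ^ 99)) := by
        field_simp
        norm_num
      _ ≤ 1 / 8 * (1 / X ^ 18) := by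
        have := pwI hX1 (by linarith : (6144:ℝ) ≤ X) (by norm_num : 18 + 1 ≤ 99)
        gcongr
      _ = 1 / (8 * X ^ 17) * (1 / X) := by
        field_simp
      _ ≤ 1 / (8 * X ^ 17) * U := by gcongr
  · have h1 : M * w ≤ U := by
      rw [hw']
      have h2 : W / X ^ 1798 ≤ W ^ 2 := by
        have h4 : (1:ℝ) ≤ X ^ 1798 := one_le_pow₀ hX1
        have h5 : (1:ℝ) ≤ W := h4.trans hW4
        calc W / X ^ 1798 ≤ W := div_le_self hW.le h4
          _ ≤ W ^ 2 := by nlinarith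
      calc M * (W / X ^ 1798) ≤ M * W ^ 2 := by gcongr
        _ = U := hMU
    have h2 : M * (1 / X) ≤ U := by
      have : M ≤ 1 := hMs.trans (by
        rw [div_le_one (by positivity)]
        exact one_le_pow₀ hX1)
      calc M * (1 / X) ≤ 1 * (1 / X) := by gcongr
        _ ≤ U := by rw [one_mul]; exact hU
    calc M * (w * (1 / X) + (1 / X) ^ 2) = M * w * (1 / X) + M * (1 / X) * (1 / X) := by ring
      _ ≤ U * 1 + U * 1 := by gcongr
      _ = 2 * U := by ring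
  · have h1 : 8 * M * mb / (1 / (8 * X ^ 17) * U) = 64 * X ^ 17 * M * mb * U⁻¹ := by
      field_simp
      norm_num
    rw [h1]
    calc 64 * X ^ 17 * M * mb * U⁻¹ ≤ 64 * X ^ 17 * (1 / X ^ 100) * 1 * X := by
          have : mb ≤ 1 := by
            have h2 : 2 * (1 / X ^ 100) ≤ 1 / X ^ 0 := pwI hX1 (by linarith) (by norm_num)
            rw [pow_zero] at h2
            linarith
          gcongr
      _ = 1 / 16 * (1024 * (1 / X ^ 82)) := by
        field_simp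
        norm_num
      _ ≤ 1 / 16 * (1 / X ^ 1) := by
        have := pwI hX1 (by linarith : (1024:ℝ) ≤ X) (by norm_num : 1 + 1 ≤ 82)
        gcongr
      _ = 1 / X / 16 := by
        field_simp
  · calc w * τ ≤ W / X ^ 1798 * (X ^ 197 / W) := by rw [hw']; gcongr
      _ = 1 / 8 * (8 * (1 / X ^ 1601)) := by
        field_simp
      _ ≤ 1 / 8 * (1 / X ^ 1225) := by
        have := pwI hX1 (by linarith : (8:ℝ) ≤ X) (by norm_num : 1225 + 1 ≤ 1601)
        gcongr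
      _ = 1 / X ^ 1225 / 8 := by ring
  · rw [hVτ]
    have h3 : (1 : ℝ) ≤ X ^ 16 := one_le_pow₀ hX1
    calc 8 * (1 / X ^ 75) * (2 * (8 * (X ^ 16 + 3)) + 2) ≤
          8 * (1 / X ^ 75) * (66 * X ^ 16) := by
          gcongr
          linarith
      _ = 1 / 137438953472000 * (528 * 137438953472000 * (1 / X ^ 59)) := by
        field_simp
        norm_num
      _ ≤ 1 / 137438953472000 * (1 / X ^ 54) := by
        have h4 : (528 * 137438953472000 : ℝ) ≤ X ^ 4 := by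
          have : ((10:ℝ) ^ 9) ^ 4 ≤ X ^ 4 := pow_le_pow_left₀ (by norm_num) hX 4
          linarith
        have h5 : 528 * 137438953472000 * (1 / X ^ 59) ≤ 1 / X ^ 54 := by
          calc 528 * 137438953472000 * (1 / X ^ 59) ≤ X ^ 4 * (1 / X ^ 59) := by gcongr
            _ = 1 / X ^ 55 := by field_simp
            _ ≤ 1 / X ^ 54 := pwI1 hX1 (by norm_num)
        gcongr
      _ = (1 / (128 * X ^ 17)) ^ 3 * (1 / (32 * X)) ^ 3 / 2000 := by
        field_simp
        norm_num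

/-- The conditions of the bootstrap. -/
theorem num4B_boot {X M mb U W V τ w : ℝ} (hX : 10 ^ 9 ≤ X) (hM : 0 < M) (hmb : 0 < mb)
    (hmb1 : mb ≤ 2 * M)
    (hM2 : M ≤ X ^ 2 / X ^ 3600) (hU : 1 / X ≤ U) (hW : 0 < W) (hW2 : W ^ 2 = U / M)
    (hV : W / X ^ 180 < V) (hτ : τ = 8 * (X ^ 16 + 3) / V) (hw : w = X ^ 2 * W / X ^ 1800) :
    X ^ 3600 * (2 * U * (8 * τ / (1 / X ^ 1225)) ^ 2) ≤ (X ^ 949) ^ 3 ∧
    8 * (54 + 27 * X ^ 949) / (1 / X ^ 75) + 8 * (M + mb) / (1 / X ^ 1838) ^ 2 ≤ X ^ 1026 ∧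
    X ^ 1026 * τ ^ 2 < 1 / X ^ 1838 / 8 ∧
    64 * (X ^ 1026 * τ) ≤ 1 / X / 4 ∧
    (∀ r, 0 < r → r ≤ 8 * M * mb / (1 / (8 * X ^ 17) * U) →
      16 * r ≤ 1 / X ^ 1838 ∧ (2 * w + 1 / X / 4) ^ 2 ≤ (M + mb) / (2 * r)) ∧
    (2 * w + 1 / X / 4) * τ ≤ 1 ∧
    X ^ 1026 * τ ≤ V / 32 ∧
    864 * (X + 1) < (V / 32) ^ 2 * ((X ^ 16 + 1) / 2) := by
  have hX1 : 1 ≤ X := le_trans (by norm_num) hX
  have hX0 : 0 < X := by linarith
  obtain ⟨hM3, hW3, hW4⟩ := num4_base hX hM hM2 hU hW hW2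
  obtain ⟨hV0, hτ0, hVτ, hτ1, hτ2, hV2⟩ := num4B_tau hX hM hM2 hU hW hW2 hV hτ
  have hU0 : 0 < U := lt_of_lt_of_le (by positivity) hU
  have hUX : U⁻¹ ≤ X := by
    rw [inv_le_comm₀ hU0 hX0]
    rwa [one_div] at hU
  have hw' : w = W / X ^ 1798 := by
    rw [hw]
    field_simp
  have hw0 : 0 < w := by rw [hw']; positivity
  have hw1 : 1 ≤ w := by
    rw [hw', le_div_iff₀ (by positivity), one_mul]
    exact hW4
  have hMU : M * W ^ 2 = U := by
    rw [hW2]
    field_simp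
  have hMs : M ≤ 1 / X ^ 100 := hM3.trans (pwI1 hX1 (by norm_num))
  have hXi : 1 / X ≤ 1 := by
    rw [div_le_one hX0]
    exact hX1
  have hAτ : X ^ 1026 * τ ≤ 1 / X ^ 575 := by
    calc X ^ 1026 * τ ≤ X ^ 1026 * (1 / X ^ 1601) := by gcongr
      _ = 1 / X ^ 575 := by field_simp
  have hτsq : τ ^ 2 ≤ X ^ 394 / W ^ 2 := by
    calc τ ^ 2 ≤ (X ^ 197 / W) ^ 2 := by gcongr
      _ = X ^ 394 / W ^ 2 := by
        field_simp
  refine ⟨?_, ?_, ?_, ?_, ?_, ?_, ?_, ?_⟩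
  · calc X ^ 3600 * (2 * U * (8 * τ / (1 / X ^ 1225)) ^ 2) =
        128 * X ^ 6050 * (U * τ ^ 2) := by
          field_simp
          norm_num
      _ ≤ 128 * X ^ 6050 * (U * (X ^ 394 / W ^ 2)) := by gcongr
      _ = 128 * X ^ 6444 * M := by
        rw [← hMU]
        field_simp
      _ ≤ 128 * X ^ 6444 * (1 / X ^ 3598) := by gcongr
      _ = 128 * X ^ 2846 := by field_simp
      _ ≤ X ^ 2847 := pwN hX1 (by linarith) (by norm_num)
      _ = (X ^ 949) ^ 3 := by rw [← pow_mul]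
  · have h1 : (1 : ℝ) ≤ X ^ 949 := one_le_pow₀ hX1
    have h2 : 8 * (54 + 27 * X ^ 949) / (1 / X ^ 75) = 8 * (54 + 27 * X ^ 949) * X ^ 75 := by
      field_simp
    have h3 : 8 * (M + mb) / (1 / X ^ 1838) ^ 2 = 8 * (M + mb) * X ^ 3676 := by
      field_simp
    rw [h2, h3]
    have h4 : 8 * (54 + 27 * X ^ 949) * X ^ 75 ≤ X ^ 1025 := by
      calc 8 * (54 + 27 * X ^ 949) * X ^ 75 ≤ 8 * (81 * X ^ 949) * X ^ 75 := by
            gcongr
            linarith
        _ = 648 * X ^ 1024 := by ring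
        _ ≤ X ^ 1025 := pwN hX1 (by linarith) (by norm_num)
    have h5 : 8 * (M + mb) * X ^ 3676 ≤ X ^ 1025 := by
      calc 8 * (M + mb) * X ^ 3676 ≤ 8 * (3 * (1 / X ^ 3598)) * X ^ 3676 := by
            gcongr
            linarith
        _ = 24 * X ^ 78 := by field_simp; norm_num
        _ ≤ X ^ 1025 := pwN hX1 (by linarith) (by norm_num)
    have h6 : 2 * X ^ 1025 ≤ X ^ 1026 := pwN hX1 (by linarith) (by norm_num)
    linarith
  · calc X ^ 1026 * τ ^ 2 = X ^ 1026 * τ * τ := by ring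
      _ ≤ 1 / X ^ 575 * (1 / X ^ 1601) := by gcongr
      _ = 1 / 16 * (16 * (1 / X ^ 2176)) := by
        rw [one_div_mul_one_div, ← pow_add]
        ring
      _ ≤ 1 / 16 * (1 / X ^ 1838) := by
        have := pwI hX1 (by linarith : (16:ℝ) ≤ X) (by norm_num : 1838 + 1 ≤ 2176)
        gcongr
      _ < 1 / X ^ 1838 / 8 := by
        have : 0 < 1 / X ^ 1838 := by positivity
        linarith
  · calc 64 * (X ^ 1026 * τ) ≤ 64 * (1 / X ^ 575) := by gcongr
      _ = 1 / 4 * (256 * (1 / X ^ 575)) := by ring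
      _ ≤ 1 / 4 * (1 / X ^ 1) := by
        have := pwI hX1 (by linarith : (256:ℝ) ≤ X) (by norm_num : 1 + 1 ≤ 575)
        gcongr
      _ = 1 / X / 4 := by
        rw [pow_one]
        ring
  · intro r hr0 hr
    have h1 : 8 * M * mb / (1 / (8 * X ^ 17) * U) = 64 * X ^ 17 * M * mb * U⁻¹ := by
      field_simp
      norm_num
    rw [h1] at hr
    have hWi : 1 / W ^ 2 ≤ 1 / X ^ 3597 := one_div_le_one_div_of_le (by positivity) hW3
    have hMUi : M * U⁻¹ = 1 / W ^ 2 := by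
      rw [← hMU]
      field_simp
    constructor
    · have h2 : mb ≤ 1 := by
        have h2 : 2 * (1 / X ^ 100) ≤ 1 / X ^ 0 := pwI hX1 (by linarith) (by norm_num)
        rw [pow_zero] at h2
        linarith
      calc 16 * r ≤ 16 * (64 * X ^ 17 * M * mb * U⁻¹) := by gcongr
        _ = 1024 * X ^ 17 * mb * (M * U⁻¹) := by ring
        _ ≤ 1024 * X ^ 17 * 1 * (1 / X ^ 3597) := by
          rw [hMUi]
          gcongr
        _ = 1024 * (1 / X ^ 3580) := by field_simp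
        _ ≤ 1 / X ^ 1838 := pwI hX1 (by linarith) (by norm_num)
    · have h3 : 1 / X / 4 ≤ w := by linarith
      rw [le_div_iff₀ (by positivity)]
      have hr' : r ≤ 64 * X ^ 17 * mb / W ^ 2 := by
        calc r ≤ 64 * X ^ 17 * M * mb * U⁻¹ := hr
          _ = 64 * X ^ 17 * mb * (M * U⁻¹) := by ring
          _ = 64 * X ^ 17 * mb / W ^ 2 := by
            rw [hMUi]
            ring
      calc (2 * w + 1 / X / 4) ^ 2 * (2 * r) ≤
            (3 * w) ^ 2 * (2 * (64 * X ^ 17 * mb / W ^ 2)) := by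
            gcongr
            linarith
        _ = mb * (1152 * (1 / X ^ 3579)) := by
          rw [hw']
          field_simp
          norm_num
        _ ≤ mb * 1 := by
          have : 1152 * (1 / X ^ 3579) ≤ 1 / X ^ 0 := pwI hX1 (by linarith) (by norm_num)
          rw [pow_zero] at this
          norm_num at this
          gcongr
          norm_num
          linarith
        _ ≤ M + mb := by linarith
  · have h3 : 1 / X / 4 ≤ w := by linarith
    calc (2 * w + 1 / X / 4) * τ ≤ (3 * w) * (X ^ 197 / W) := by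
          gcongr
          linarith
      _ = 3 * (1 / X ^ 1601) := by
        rw [hw']
        field_simp
      _ ≤ 1 / X ^ 0 := pwI hX1 (by linarith) (by norm_num)
      _ = 1 := by norm_num
  · calc X ^ 1026 * τ ≤ 1 / X ^ 575 := hAτ
      _ ≤ 1 := by
        rw [div_le_one (by positivity)]
        exact one_le_pow₀ hX1
      _ ≤ V / 32 := by
        have h1 : X ^ 1 ≤ X ^ 1618 := pow_le_pow_right₀ hX1 (by norm_num)
        rw [pow_one] at h1
        rw [le_div_iff₀ (by norm_num)]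
        linarith
  · have h2 : X ^ 2 ≤ V := (pow_le_pow_right₀ hX1 (by norm_num)).trans hV2
    have h3 : (X ^ 2) ^ 2 ≤ V ^ 2 := pow_le_pow_left₀ (by positivity) h2 2
    have h4 : 10 ^ 8 * X ^ 2 ≤ (X ^ 2) ^ 2 := by
      rw [← pow_mul]
      exact pwN hX1 (by linarith) (by norm_num)
    have h5 : X ≤ X ^ 2 := by nlinarith
    have h6 : (1:ℝ) ≤ X ^ 16 := one_le_pow₀ hX1
    have h7 : (V / 32) ^ 2 = V ^ 2 / 1024 := by ring
    rw [h7]
    have h8 : 10 ^ 8 * X ^ 2 / 1024 ≤ V ^ 2 / 1024 := by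
      gcongr
      linarith
    nlinarith

end Pool.Agent.NBody
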