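import Mathlib
import Pool.Agent.NBody.Functional

/-!
A point near a given one at which the Newton potential of finitely many masses is at most a
multiple of the inverse of the distance allowed.
-/

set_option autoImplicit false
open scoped RealInnerProductSpace
open Set Finset Filter Topology MeasureTheory

namespace Pool.Agent.NBody

/-- the volume of the unit ball -/
noncomputable def kap : ℝ := volume.real (Metric.ball (0 : V3) 1)

theorem kap_pos : 0 < kap := by
  unfold kap Measure.real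
  apply ENNReal.toReal_pos
  · exact (Metric.measure_ball_pos volume (0 : V3) one_pos).ne'
  · exact measure_ball_lt_top.ne

theorem volume_real_ball (c : V3) {ρ : ℝ} (hρ : 0 < ρ) :
    volume.real (Metric.ball c ρ) = ρ ^ 3 * kap := by
  unfold kap Measure.real
  rw [Measure.addHaar_ball_of_pos volume c hρ, ENNReal.toReal_mul,
    ENNReal.toReal_ofReal (by positivity), finrank_euclideanSpace_fin]

theorem integrableOn_inv_ball (ρ : ℝ) :
    IntegrableOn (fun z : V3 => 1 / ‖z‖) (Metric.ball 0 ρ) := by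
  rw [integrableOn_fun_norm_addHaar volume (f := fun r : ℝ => 1 / r)]
  rw [finrank_euclideanSpace_fin]
  have h1 : IntegrableOn (fun y : ℝ => y) (Ioo 0 ρ) :=
    (continuous_id.integrableOn_Icc (a := (0:ℝ)) (b := ρ)).mono_set Ioo_subset_Icc_self
  refine h1.congr_fun ?_ measurableSet_Ioo
  intro y hy
  have : y ≠ 0 := hy.1.ne'
  simp only [smul_eq_mul]
  field_simp

theorem integral_inv_ball {ρ : ℝ} (hρ : 0 < ρ) :
    ∫ z : V3 in Metric.ball 0 ρ, 1 / ‖z‖ = 3 * kap * (ρ ^ 2 / 2) := by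
  rw [← integral_indicator measurableSet_ball]
  have h1 : (fun z : V3 => (Metric.ball (0 : V3) ρ).indicator (fun z => 1 / ‖z‖) z) =
      fun z : V3 => (fun r : ℝ => (Iio ρ).indicator (fun r => 1 / r) r) ‖z‖ := by
    funext z
    simp only [indicator, Metric.mem_ball, dist_zero_right, Set.mem_Iio]
  rw [h1, integral_fun_norm_addHaar volume, finrank_euclideanSpace_fin]
  have h2 : ∫ y in Ioi (0 : ℝ), y ^ (3 - 1) • (Iio ρ).indicator (fun r => 1 / r) y =
      ∫ y in Ioo (0 : ℝ) ρ, y := by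
    have e1 : ∀ y ∈ Ioi (0 : ℝ), y ^ (3 - 1) • (Iio ρ).indicator (fun r => 1 / r) y =
        (Iio ρ).indicator (fun y => y) y := by
      intro y hy
      have hy0 : y ≠ 0 := (mem_Ioi.mp hy).ne'
      by_cases hyρ : y ∈ Iio ρ
      · rw [indicator_of_mem hyρ, indicator_of_mem hyρ]
        simp only [smul_eq_mul]
        field_simp
      · rw [indicator_of_notMem hyρ, indicator_of_notMem hyρ, smul_zero]
    rw [setIntegral_congr_fun measurableSet_Ioi e1,
      setIntegral_indicator measurableSet_Iio, Ioi_inter_Iio]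
  rw [h2, ← integral_Ioc_eq_integral_Ioo, ← intervalIntegral.integral_of_le hρ.le, integral_id,
    nsmul_eq_mul, smul_eq_mul]
  unfold kap
  push_cast
  ring

theorem integrableOn_inv_ball_at (y : V3) (ρ : ℝ) :
    IntegrableOn (fun z : V3 => 1 / ‖z - y‖) (Metric.ball y ρ) := by
  have h := integrableOn_inv_ball ρ
  rw [← integrable_indicator_iff measurableSet_ball] at h ⊢
  have h2 := h.comp_sub_right y
  refine h2.congr (ae_of_all _ fun z => ?_)
  simp only [indicator, Metric.mem_ball, dist_eq_norm, sub_zero]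

theorem integral_inv_ball_at (y : V3) {ρ : ℝ} (hρ : 0 < ρ) :
    ∫ z : V3 in Metric.ball y ρ, 1 / ‖z - y‖ = 3 * kap * (ρ ^ 2 / 2) := by
  rw [← integral_inv_ball hρ, ← integral_indicator measurableSet_ball,
    ← integral_indicator measurableSet_ball,
    ← integral_sub_right_eq_self
      (fun z : V3 => (Metric.ball (0 : V3) ρ).indicator (fun z => 1 / ‖z‖) z) y]
  congr 1
  funext z
  simp only [indicator, Metric.mem_ball, dist_eq_norm, sub_zero]

/-- the inverse distance is bounded by its part near the centre and a constant -/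
theorem inv_le_near {ρ : ℝ} (hρ : 0 < ρ) (y z : V3) :
    1 / ‖z - y‖ ≤ (Metric.ball y ρ).indicator (fun z => 1 / ‖z - y‖) z + 1 / ρ := by
  by_cases hz : z ∈ Metric.ball y ρ
  · rw [indicator_of_mem hz]
    have : 0 < 1 / ρ := by positivity
    linarith
  · rw [indicator_of_notMem hz, zero_add]
    rw [Metric.mem_ball, dist_eq_norm, not_lt] at hz
    exact one_div_le_one_div_of_le hρ hz

theorem integrableOn_inv_any (c y : V3) {ρ : ℝ} (hρ : 0 < ρ) :
    IntegrableOn (fun z : V3 => 1 / ‖z - y‖) (Metric.ball c ρ) := by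
  have h1 : IntegrableOn ((Metric.ball y ρ).indicator (fun z => 1 / ‖z - y‖)) (Metric.ball c ρ) :=
    ((integrable_indicator_iff measurableSet_ball).mpr
      (integrableOn_inv_ball_at y ρ)).integrableOn
  have h2 : IntegrableOn (fun _ : V3 => 1 / ρ) (Metric.ball c ρ) :=
    integrableOn_const measure_ball_lt_top.ne
  refine Integrable.mono' (h1.add h2) ?_ (ae_of_all _ fun z => ?_)
  · apply Measurable.aestronglyMeasurable
    fun_prop
  · rw [Real.norm_of_nonneg (by positivity)]
    exact inv_le_near hρ y z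

theorem integral_inv_any (c y : V3) {ρ : ℝ} (hρ : 0 < ρ) :
    ∫ z : V3 in Metric.ball c ρ, 1 / ‖z - y‖ ≤ 5 / 2 * (ρ ^ 2 * kap) := by
  have h1 : IntegrableOn ((Metric.ball y ρ).indicator (fun z => 1 / ‖z - y‖)) (Metric.ball c ρ) :=
    ((integrable_indicator_iff measurableSet_ball).mpr
      (integrableOn_inv_ball_at y ρ)).integrableOn
  have h2 : IntegrableOn (fun _ : V3 => 1 / ρ) (Metric.ball c ρ) :=
    integrableOn_const measure_ball_lt_top.ne
  have h3 : ∫ z : V3 in Metric.ball c ρ, 1 / ‖z - y‖ ≤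
      ∫ z : V3 in Metric.ball c ρ,
        ((Metric.ball y ρ).indicator (fun z => 1 / ‖z - y‖) z + 1 / ρ) :=
    integral_mono (integrableOn_inv_any c y hρ) (h1.add h2) (fun z => inv_le_near hρ y z)
  rw [integral_add h1 h2] at h3
  have h4 : ∫ z : V3 in Metric.ball c ρ, (Metric.ball y ρ).indicator (fun z => 1 / ‖z - y‖) z ≤
      3 * kap * (ρ ^ 2 / 2) := by
    rw [← integral_inv_ball_at y hρ, ← integral_indicator (f := fun z => 1 / ‖z - y‖)
      measurableSet_ball]
    apply setIntegral_le_integral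
    · exact (integrable_indicator_iff measurableSet_ball).mpr (integrableOn_inv_ball_at y ρ)
    · exact ae_of_all _ fun z => indicator_nonneg (fun z _ => by positivity) z
  have h5 : ∫ _ : V3 in Metric.ball c ρ, 1 / ρ = ρ ^ 2 * kap := by
    rw [setIntegral_const, volume_real_ball c hρ, smul_eq_mul]
    field_simp
  rw [h5] at h3
  linarith

/-- A point at distance less than `ρ` from `c`, outside of a bad set of small volume and different
from all the points `q k`, at which the potential is at most `25 / 8` times the total mass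
divided by `ρ`. -/
theorem exists_point {ι : Type*} (s : Finset ι) (m : ι → ℝ) (hm : ∀ k ∈ s, 0 ≤ m k)
    (q : ι → V3) (c : V3) {ρ : ℝ} (hρ : 0 < ρ) (B : Set V3) (hB : MeasurableSet B)
    (hBv : volume B ≤ ENNReal.ofReal (ρ ^ 3 * kap / 5)) :
    ∃ z : V3, ‖z - c‖ < ρ ∧ z ∉ B ∧ (∀ k ∈ s, z ≠ q k) ∧
      ∑ k ∈ s, m k / ‖z - q k‖ ≤ 25 / 8 * (∑ k ∈ s, m k) / ρ := by
  classical
  have hκ := kap_pos
  have hv0 : 0 < ρ ^ 3 * kap := by positivity
  set G : Set V3 := Metric.ball c ρ \ B with hG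
  have hGm : MeasurableSet G := measurableSet_ball.diff hB
  have hGfin : volume G ≠ ⊤ :=
    ((measure_mono sdiff_subset).trans_lt measure_ball_lt_top).ne
  have hGv : 4 / 5 * (ρ ^ 3 * kap) ≤ volume.real G := by
    have h1 : volume.real (Metric.ball c ρ) ≤ volume.real G + volume.real B := by
      have hBfin : volume B ≠ ⊤ := (hBv.trans_lt ENNReal.ofReal_lt_top).ne
      have h2 : Metric.ball c ρ ⊆ G ∪ B := by
        intro x hx
        by_cases hxB : x ∈ B
        · exact Or.inr hxB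
        · exact Or.inl ⟨hx, hxB⟩
      exact (measureReal_mono h2 (by
        exact (measure_union_lt_top hGfin.lt_top hBfin.lt_top).ne)).trans
        (measureReal_union_le _ _)
    rw [volume_real_ball c hρ] at h1
    have h3 : volume.real B ≤ ρ ^ 3 * kap / 5 := by
      unfold Measure.real
      exact ENNReal.toReal_le_of_le_ofReal (by positivity) hBv
    linarith
  have hGpos : 0 < volume.real G := lt_of_lt_of_le (by positivity) hGv
  set μ : Measure V3 := volume.restrict G with hμ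
  have hμ0 : μ ≠ 0 := by
    rw [hμ, Ne, Measure.restrict_eq_zero]
    intro h
    rw [Measure.real, h] at hGpos
    simp at hGpos
  have : IsFiniteMeasure μ := ⟨by
    rw [hμ, Measure.restrict_apply_univ]
    exact hGfin.lt_top⟩
  set Nl : Set V3 := Gᶜ ∪ (q '' (s : Set ι)) with hNl
  have hN : μ Nl = 0 := by
    rw [hNl]
    refine measure_union_null ?_ ?_
    · rw [hμ, Measure.restrict_apply hGm.compl]
      simp
    · have h1 : (q '' (s : Set ι)).Finite := s.finite_toSet.image q
      exact h1.measure_zero _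
  have hball : ∀ k ∈ s, IntegrableOn (fun z : V3 => m k / ‖z - q k‖) (Metric.ball c ρ) := by
    intro k _
    have h1 := (integrableOn_inv_any c (q k) hρ).const_mul (m k)
    simp only [mul_one_div] at h1
    exact h1
  have hint : ∀ k ∈ s, Integrable (fun z : V3 => m k / ‖z - q k‖) μ := fun k hk =>
    (hball k hk).mono_set sdiff_subset
  have hf : Integrable (fun z : V3 => ∑ k ∈ s, m k / ‖z - q k‖) μ := integrable_finsetSum _ hint
  obtain ⟨z, hz, hle⟩ := exists_notMem_null_le_average hμ0 hf hN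
  rw [hNl, mem_union, not_or, notMem_compl_iff, hG, Set.mem_sdiff, Metric.mem_ball,
    dist_eq_norm] at hz
  refine ⟨z, hz.1.1, hz.1.2, fun k hk h => hz.2 ⟨k, hk, h.symm⟩, hle.trans ?_⟩
  rw [average_eq, integral_finsetSum _ hint, smul_eq_mul]
  have hvol : μ.real univ = volume.real G := by
    rw [hμ]
    unfold Measure.real
    rw [Measure.restrict_apply_univ]
  rw [hvol]
  have h1 : ∑ k ∈ s, ∫ z, m k / ‖z - q k‖ ∂μ ≤ ∑ k ∈ s, m k * (5 / 2 * (ρ ^ 2 * kap)) := by
    apply Finset.sum_le_sum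
    intro k hk
    have e1 : ∫ z in Metric.ball c ρ, m k / ‖z - q k‖ =
        m k * ∫ z in Metric.ball c ρ, 1 / ‖z - q k‖ := by
      rw [← integral_const_mul]
      simp only [mul_one_div]
    have e2 : ∫ z, m k / ‖z - q k‖ ∂μ ≤ ∫ z in Metric.ball c ρ, m k / ‖z - q k‖ := by
      apply setIntegral_mono_set (hball k hk)
      · exact ae_of_all _ fun z => div_nonneg (hm k hk) (norm_nonneg _)
      · exact sdiff_subset.eventuallyLE
    refine e2.trans ?_
    rw [e1]
    exact mul_le_mul_of_nonneg_left (integral_inv_any c (q k) hρ) (hm k hk)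
  rw [← Finset.sum_mul] at h1
  have h0 : 0 ≤ ∑ k ∈ s, m k := Finset.sum_nonneg hm
  calc (volume.real G)⁻¹ * ∑ k ∈ s, ∫ z, m k / ‖z - q k‖ ∂μ
      ≤ (volume.real G)⁻¹ * ((∑ k ∈ s, m k) * (5 / 2 * (ρ ^ 2 * kap))) :=
        mul_le_mul_of_nonneg_left h1 (by positivity)
    _ ≤ (4 / 5 * (ρ ^ 3 * kap))⁻¹ * ((∑ k ∈ s, m k) * (5 / 2 * (ρ ^ 2 * kap))) := by
        apply mul_le_mul_of_nonneg_right _ (by positivity)
        exact inv_anti₀ (by positivity) hGv
    _ = 25 / 8 * (∑ k ∈ s, m k) / ρ := by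
        field_simp
        ring

/-- The same with the bad set a union of balls. -/
theorem exists_point_sep {ι : Type*} (s : Finset ι) (m : ι → ℝ) (hm : ∀ k ∈ s, 0 ≤ m k)
    (q : ι → V3) (c : V3) {ρ σ : ℝ} (hρ : 0 < ρ) (hσ : 0 ≤ σ)
    (hσρ : 5 * (s.card : ℝ) * σ ^ 3 ≤ ρ ^ 3) :
    ∃ z : V3, ‖z - c‖ < ρ ∧ (∀ k ∈ s, σ ≤ ‖z - q k‖) ∧ (∀ k ∈ s, z ≠ q k) ∧
      ∑ k ∈ s, m k / ‖z - q k‖ ≤ 25 / 8 * (∑ k ∈ s, m k) / ρ := by
  classical
  have hκ := kap_pos
  rcases hσ.lt_or_eq with hσ | hσ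
  · obtain ⟨z, h1, h2, h3, h4⟩ := exists_point s m hm q c hρ (⋃ k ∈ s, Metric.ball (q k) σ)
      (Finset.measurableSet_biUnion s fun k _ => measurableSet_ball) (by
        refine (measure_biUnion_finset_le s _).trans ?_
        have e1 : ∀ k ∈ s, volume (Metric.ball (q k) σ) = ENNReal.ofReal (σ ^ 3 * kap) := by
          intro k _
          rw [← volume_real_ball (q k) hσ, Measure.real,
            ENNReal.ofReal_toReal measure_ball_lt_top.ne]
        rw [Finset.sum_congr rfl e1, Finset.sum_const, nsmul_eq_mul,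
          ← ENNReal.ofReal_natCast, ← ENNReal.ofReal_mul (Nat.cast_nonneg _)]
        apply ENNReal.ofReal_le_ofReal
        nlinarith)
    refine ⟨z, h1, fun k hk => ?_, h3, h4⟩
    by_contra hlt
    push Not at hlt
    apply h2
    rw [Set.mem_iUnion₂]
    exact ⟨k, hk, by rw [Metric.mem_ball, dist_eq_norm]; exact hlt⟩
  · obtain ⟨z, h1, -, h3, h4⟩ := exists_point s m hm q c hρ ∅ MeasurableSet.empty (by simp)
    exact ⟨z, h1, fun k _ => by rw [← hσ]; exact norm_nonneg _, h3, h4⟩

/-- V3, M2 (b): a good place for a close pair. -/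
theorem M2_point {N : ℕ} {m : Fin N → ℝ} (hm : ∀ i, 0 < m i) (hM : ∑ i, m i ≤ 1)
    (q : Fin N → V3) (a b : Fin N) {δ σ : ℝ} (hδ : 0 < δ) (hclose : ‖q a - q b‖ ≤ δ / 2)
    (hσ : 0 ≤ σ) (hσδ : 320 * (N : ℝ) * σ ^ 3 ≤ δ ^ 3) :
    ∃ z : V3, ‖z - q a‖ ≤ 3 * δ / 4 ∧ ‖z - q b‖ ≤ 3 * δ / 4 ∧
      (∀ k, k ≠ a → k ≠ b → z ≠ q k) ∧ (∀ k, k ≠ a → k ≠ b → σ ≤ ‖z - q k‖) ∧
      ∑ k ∈ Finset.univ \ {a, b}, m k / ‖z - q k‖ ≤ 16 / δ := by
  classical
  have hcard : ((Finset.univ \ {a, b} : Finset (Fin N)).card : ℝ) ≤ N := by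
    have h1 : (Finset.univ \ {a, b} : Finset (Fin N)).card ≤ (Finset.univ : Finset (Fin N)).card :=
      Finset.card_le_card (Finset.subset_univ _)
    rw [Finset.card_univ, Fintype.card_fin] at h1
    exact_mod_cast h1
  obtain ⟨z, h1, h5, h2, h3⟩ := exists_point_sep (Finset.univ \ {a, b}) m
    (fun k _ => (hm k).le) q (q a) (ρ := δ / 4) (σ := σ) (by positivity) hσ (by
      have e1 : (δ / 4) ^ 3 = δ ^ 3 / 64 := by ring
      have e2 : 0 ≤ σ ^ 3 := by positivity
      have e3 := mul_le_mul_of_nonneg_right hcard e2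
      rw [e1]
      nlinarith)
  refine ⟨z, by linarith, ?_, ?_, ?_, h3.trans ?_⟩
  · calc ‖z - q b‖ = ‖(z - q a) + (q a - q b)‖ := by congr 1; abel
      _ ≤ ‖z - q a‖ + ‖q a - q b‖ := norm_add_le _ _
      _ ≤ 3 * δ / 4 := by linarith
  · intro k hka hkb
    apply h2
    simp [hka, hkb]
  · intro k hka hkb
    apply h5
    simp [hka, hkb]
  · have h4 : ∑ k ∈ Finset.univ \ {a, b}, m k ≤ 1 := by
      refine le_trans ?_ hM
      exact Finset.sum_le_sum_of_subset_of_nonneg (Finset.subset_univ _) (fun i _ _ => (hm i).le)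
    rw [div_le_div_iff₀ (by positivity) hδ]
    nlinarith

end Pool.Agent.NBody
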