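import Mathlib
import Pool.Agent.NBody.ThPrepM
import Pool.Agent.NBody.ThPack

/-!
Increasing the potential of a configuration by a prescribed amount with small displacements:
continuity along paths without collisions, and the path which moves one body to another.
-/

set_option autoImplicit false
open scoped RealInnerProductSpace
open Set Finset Filter Topology

namespace Pool.Agent.NBody.Pos

theorem continuousOn_invdM {N : ℕ} (m : Fin N → ℝ) {γ : ℝ → Fin N → V3} {a b : ℝ}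
    (hγ : ∀ i, ContinuousOn (fun t => γ t i) (Icc a b))
    (hnc : ∀ t ∈ Icc a b, ∀ i j, i ≠ j → γ t i ≠ γ t j) :
    ContinuousOn (fun t => invdM m (γ t)) (Icc a b) := by
  unfold invdM
  refine continuousOn_finsetSum _ (fun i _ => continuousOn_finsetSum _ (fun j _ => ?_))
  by_cases hij : i = j
  · subst hij
    simp only [sub_self, norm_zero, div_zero]
    exact continuousOn_const
  · refine ContinuousOn.div continuousOn_const ((hγ i).sub (hγ j)).norm (fun t ht => ?_)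
    rw [norm_ne_zero_iff, sub_ne_zero]
    exact hnc t ht i j hij

/-- intermediate values of the potential along a path without collisions -/
theorem exists_value {N : ℕ} (m : Fin N → ℝ) {γ : ℝ → Fin N → V3} {a b c : ℝ} (hab : a ≤ b)
    (hγ : ∀ i, ContinuousOn (fun t => γ t i) (Icc a b))
    (hnc : ∀ t ∈ Icc a b, ∀ i j, i ≠ j → γ t i ≠ γ t j)
    (ha : invdM m (γ a) ≤ c) (hb : c ≤ invdM m (γ b)) :
    ∃ t ∈ Icc a b, invdM m (γ t) = c := by
  have h1 := intermediate_value_Icc hab (continuousOn_invdM m hγ hnc)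
  obtain ⟨t, ht, h2⟩ := h1 ⟨ha, hb⟩
  exact ⟨t, ht, h2⟩

/-- one pair is a lower bound for the potential -/
theorem pair_le_invdM {N : ℕ} {m : Fin N → ℝ} (hm : ∀ i, 0 < m i) (q : Fin N → V3) {a b : Fin N} :
    m a * m b / ‖q a - q b‖ ≤ invdM m q := by
  unfold invdM
  have h0 : ∀ i j, 0 ≤ m i * m j / ‖q i - q j‖ := fun i j => by
    have h1 := hm i
    have h2 := hm j
    positivity
  refine le_trans ?_ (Finset.single_le_sum (f := fun i => ∑ j, m i * m j / ‖q i - q j‖)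
    (fun i _ => Finset.sum_nonneg (fun j _ => h0 i j)) (Finset.mem_univ a))
  exact Finset.single_le_sum (f := fun j => m a * m j / ‖q a - q j‖)
    (fun j _ => h0 a j) (Finset.mem_univ b)

/-- Case (a): moving the body `a` towards the body `b`, the potential takes all larger values
before the first collision. -/
theorem raise_by_collision {N : ℕ} {m : Fin N → ℝ} (hm : ∀ i, 0 < m i) {q : Fin N → V3}
    (hq : ∀ i j, i ≠ j → q i ≠ q j) {a b : Fin N} (hab : a ≠ b) {κ : ℝ} (hκ : 0 ≤ κ) :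
    ∃ q' : Fin N → V3, (∀ i j, i ≠ j → q' i ≠ q' j) ∧ (∀ i, ‖q' i - q i‖ ≤ ‖q a - q b‖) ∧
      invdM m q' = invdM m q + κ := by
  classical
  obtain ⟨w, hw⟩ : ∃ w, w = q b - q a := ⟨_, rfl⟩
  have hw0 : w ≠ 0 := by
    rw [hw, sub_ne_zero]
    exact hq b a (Ne.symm hab)
  have hwn : 0 < ‖w‖ := norm_pos_iff.mpr hw0
  -- the set of collision times
  obtain ⟨S, hS⟩ : ∃ S : Set ℝ, S = Icc (0 : ℝ) 1 ∩ ⋃ k ∈ {k : Fin N | k ≠ a},
      {t : ℝ | q a + t • w = q k} := ⟨_, rfl⟩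
  have hSc : IsCompact S := by
    rw [hS]
    refine isCompact_Icc.inter_right ?_
    refine Set.Finite.isClosed_biUnion (Set.toFinite _) (fun k _ => ?_)
    exact isClosed_eq (by fun_prop) continuous_const
  have hSn : S.Nonempty := by
    refine ⟨1, ?_⟩
    rw [hS]
    refine ⟨⟨zero_le_one, le_rfl⟩, ?_⟩
    rw [Set.mem_iUnion₂]
    refine ⟨b, Ne.symm hab, ?_⟩
    rw [Set.mem_ofPred_eq, hw, one_smul]
    abel
  obtain ⟨t₁, ht₁, hmin⟩ := hSc.exists_isLeast hSn
  have ht₁' := ht₁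
  rw [hS] at ht₁'
  obtain ⟨ht₁I, ht₁U⟩ := ht₁'
  rw [Set.mem_iUnion₂] at ht₁U
  obtain ⟨k, hk, hkt⟩ := ht₁U
  have hk' : k ≠ a := hk
  rw [Set.mem_ofPred_eq] at hkt
  have ht₁0 : 0 < t₁ := by
    rcases ht₁I.1.lt_or_eq with h | h
    · exact h
    · exfalso
      rw [← h, zero_smul, add_zero] at hkt
      exact hq a k (Ne.symm hk') hkt
  -- the path
  obtain ⟨γ, hγ⟩ : ∃ γ : ℝ → Fin N → V3, γ = fun t => Function.update q a (q a + t • w) :=
    ⟨_, rfl⟩
  have hγa : ∀ t, γ t a = q a + t • w := fun t => by rw [hγ]; simp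
  have hγi : ∀ t i, i ≠ a → γ t i = q i := fun t i hi => by rw [hγ]; simp [hi]
  have hnc : ∀ t, 0 ≤ t → t < t₁ → ∀ i j, i ≠ j → γ t i ≠ γ t j := by
    intro t ht0 ht i j hij
    have hfree : ∀ l, l ≠ a → q a + t • w ≠ q l := by
      intro l hl heq
      have : t ∈ S := by
        rw [hS]
        refine ⟨⟨ht0, ht.le.trans ht₁I.2⟩, ?_⟩
        rw [Set.mem_iUnion₂]
        exact ⟨l, hl, heq⟩
      exact absurd (hmin this) (not_le.mpr ht)
    by_cases hi : i = a
    · subst hi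
      rw [hγa, hγi t j (Ne.symm hij)]
      exact hfree j (Ne.symm hij)
    · by_cases hj : j = a
      · subst hj
        rw [hγa, hγi t i hi]
        exact (hfree i hi).symm
      · rw [hγi t i hi, hγi t j hj]
        exact hq i j hij
  -- a time with a large potential
  obtain ⟨B, hB⟩ : ∃ B, B = invdM m q + κ + 1 := ⟨_, rfl⟩
  have hq0 : 0 ≤ invdM m q := invdM_nonneg hm q
  have hB0 : 0 < B := by
    rw [hB]
    linarith
  have hak : 0 < m a * m k := mul_pos (hm a) (hm k)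
  obtain ⟨ε, hε, hε1, hε2⟩ : ∃ ε : ℝ, 0 < ε ∧ ε < t₁ ∧ ε * ‖w‖ ≤ m a * m k / B := by
    refine ⟨min (t₁ / 2) (m a * m k / B / ‖w‖), lt_min (by linarith) (by positivity), ?_, ?_⟩
    · exact lt_of_le_of_lt (min_le_left _ _) (by linarith)
    · have h1 : min (t₁ / 2) (m a * m k / B / ‖w‖) * ‖w‖ ≤ m a * m k / B / ‖w‖ * ‖w‖ :=
        mul_le_mul_of_nonneg_right (min_le_right _ _) hwn.le
      rwa [div_mul_cancel₀ _ hwn.ne'] at h1
  have hbig : B ≤ invdM m (γ (t₁ - ε)) := by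
    refine le_trans ?_ (pair_le_invdM hm (γ (t₁ - ε)) (a := a) (b := k))
    have h1 : γ (t₁ - ε) a - γ (t₁ - ε) k = -(ε • w) := by
      rw [hγa, hγi _ k hk', ← hkt, sub_smul]
      abel
    rw [h1, norm_neg, norm_smul, Real.norm_of_nonneg hε.le, le_div_iff₀ (by positivity)]
    have h2 : B * (ε * ‖w‖) ≤ B * (m a * m k / B) := mul_le_mul_of_nonneg_left hε2 hB0.le
    rwa [mul_div_cancel₀ _ hB0.ne'] at h2
  have hγ0 : γ 0 = q := by
    rw [hγ]
    simp
  obtain ⟨t, ht, hval⟩ := exists_value m (γ := γ) (a := 0) (b := t₁ - ε)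
    (c := invdM m q + κ) (by linarith) (fun i => by
      by_cases hi : i = a
      · subst hi
        simp only [hγa]
        fun_prop
      · simp only [hγi _ i hi]
        exact continuousOn_const)
    (fun t ht => hnc t ht.1 (by linarith [ht.2])) (by rw [hγ0]; linarith)
    (by linarith)
  refine ⟨γ t, hnc t ht.1 (by linarith [ht.2]), fun i => ?_, hval⟩
  by_cases hi : i = a
  · subst hi
    rw [hγa, add_sub_cancel_left, norm_smul, Real.norm_of_nonneg ht.1, hw, norm_sub_rev (q i)]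
    have h1 : t ≤ 1 := by linarith [ht.2, ht₁I.2]
    calc t * ‖q b - q i‖ ≤ 1 * ‖q b - q i‖ := mul_le_mul_of_nonneg_right h1 (norm_nonneg _)
      _ = _ := one_mul _
  · rw [hγi t i hi, sub_self, norm_zero]
    exact norm_nonneg _

/-! ### radial contraction -/

/-- the profile of the contraction -/
theorem profile_aux {ρ δ a b : ℝ} (hρ : 0 < ρ) (hδ : 0 ≤ δ) (hδρ : δ ≤ ρ) (hab : a ≤ b) :
    (1 - δ / ρ) * (b - a) ≤ (1 - δ / max ρ b) * b - (1 - δ / max ρ a) * a ∧
      (1 - δ / max ρ b) * b - (1 - δ / max ρ a) * a ≤ b - a := by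
  have h0 : 0 ≤ δ / ρ := by positivity
  rcases le_total b ρ with hb | hb
  · have ha : a ≤ ρ := hab.trans hb
    rw [max_eq_left hb, max_eq_left ha]
    constructor
    · nlinarith
    · nlinarith
  · rw [max_eq_right hb]
    have hb0 : 0 < b := hρ.trans_le hb
    have e1 : (1 - δ / b) * b = b - δ := by
      field_simp
    rw [e1]
    rcases le_total a ρ with ha | ha
    · rw [max_eq_left ha]
      have e2 : δ / ρ * ρ = δ := div_mul_cancel₀ _ hρ.ne'
      constructor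
      · nlinarith [mul_le_mul_of_nonneg_left hb h0]
      · nlinarith [mul_le_mul_of_nonneg_left ha h0]
    · rw [max_eq_right ha]
      have ha0 : 0 < a := hρ.trans_le ha
      have e2 : (1 - δ / a) * a = a - δ := by
        field_simp
      rw [e2]
      constructor
      · nlinarith
      · linarith

/-- the contraction about `c` -/
noncomputable def contr (c : V3) (ρ δ : ℝ) (x : V3) : V3 := c + (1 - δ / max ρ ‖x - c‖) • (x - c)

theorem contr_move {c : V3} {ρ δ : ℝ} (hρ : 0 < ρ) (hδ : 0 ≤ δ) (x : V3) :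
    ‖contr c ρ δ x - x‖ ≤ δ := by
  have h1 : contr c ρ δ x - x = -((δ / max ρ ‖x - c‖) • (x - c)) := by
    rw [contr, sub_smul, one_smul]
    abel
  have hM : 0 < max ρ ‖x - c‖ := lt_max_of_lt_left hρ
  rw [h1, norm_neg, norm_smul, Real.norm_of_nonneg (by positivity), div_mul_eq_mul_div,
    div_le_iff₀ hM]
  exact mul_le_mul_of_nonneg_left (le_max_right _ _) hδ

theorem contr_center {c : V3} {ρ δ : ℝ} : contr c ρ δ c = c := by
  simp [contr]

theorem contr_near {c : V3} {ρ δ : ℝ} (hρ : 0 < ρ) (hδρ : δ ≤ ρ) {x : V3} (hx : ‖x - c‖ ≤ ρ) :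
    ‖contr c ρ δ x - c‖ = (1 - δ / ρ) * ‖x - c‖ := by
  have h1 : contr c ρ δ x - c = (1 - δ / ρ) • (x - c) := by
    rw [contr, max_eq_left hx]
    abel
  have h2 : δ / ρ ≤ 1 := (div_le_one hρ).mpr hδρ
  rw [h1, norm_smul, Real.norm_of_nonneg (by linarith)]

theorem contr_dist {c : V3} {ρ δ : ℝ} (hρ : 0 < ρ) (hδ : 0 ≤ δ) (hδρ : δ ≤ ρ) (x y : V3) :
    ‖contr c ρ δ x - contr c ρ δ y‖ ≤ ‖x - y‖ ∧
      (1 - δ / ρ) * ‖x - y‖ ≤ ‖contr c ρ δ x - contr c ρ δ y‖ := by
  obtain ⟨X, hX⟩ : ∃ X, X = x - c := ⟨_, rfl⟩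
  obtain ⟨Y, hY⟩ : ∃ Y, Y = y - c := ⟨_, rfl⟩
  obtain ⟨g, hg⟩ : ∃ g, g = 1 - δ / max ρ ‖X‖ := ⟨_, rfl⟩
  obtain ⟨h, hh⟩ : ∃ h, h = 1 - δ / max ρ ‖Y‖ := ⟨_, rfl⟩
  have e1 : contr c ρ δ x - contr c ρ δ y = g • X - h • Y := by
    rw [contr, contr, ← hX, ← hY, ← hg, ← hh]
    abel
  have e2 : x - y = X - Y := by
    rw [hX, hY]
    abel
  rw [e1, e2]
  have hd : δ / ρ ≤ 1 := (div_le_one hρ).mpr hδρ
  have gb : ∀ a : ℝ, 1 - δ / ρ ≤ 1 - δ / max ρ a ∧ 1 - δ / max ρ a ≤ 1 := by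
    intro a
    have hM : 0 < max ρ a := lt_max_of_lt_left hρ
    constructor
    · have : δ / max ρ a ≤ δ / ρ := div_le_div_of_nonneg_left hδ hρ (le_max_left _ _)
      linarith
    · have : 0 ≤ δ / max ρ a := by positivity
      linarith
  have g1 := gb ‖X‖
  have h1 := gb ‖Y‖
  rw [← hg] at g1
  rw [← hh] at h1
  have hlow : 0 ≤ 1 - δ / ρ := by linarith
  have hg0 : 0 ≤ g := hlow.trans g1.1
  have hh0 : 0 ≤ h := hlow.trans h1.1
  have hprof : (1 - δ / ρ) * |‖X‖ - ‖Y‖| ≤ |g * ‖X‖ - h * ‖Y‖| ∧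
      |g * ‖X‖ - h * ‖Y‖| ≤ |‖X‖ - ‖Y‖| := by
    rcases le_total ‖X‖ ‖Y‖ with hXY | hXY
    · have h2 := profile_aux hρ hδ hδρ hXY
      rw [← hg, ← hh] at h2
      have h3 : 0 ≤ h * ‖Y‖ - g * ‖X‖ := le_trans (mul_nonneg hlow (by linarith)) h2.1
      rw [abs_sub_comm, abs_sub_comm (g * ‖X‖), abs_of_nonneg h3,
        abs_of_nonneg (by linarith : 0 ≤ ‖Y‖ - ‖X‖)]
      exact h2
    · have h2 := profile_aux hρ hδ hδρ hXY
      rw [← hg, ← hh] at h2
      have h3 : 0 ≤ g * ‖X‖ - h * ‖Y‖ := le_trans (mul_nonneg hlow (by linarith)) h2.1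
      rw [abs_of_nonneg h3, abs_of_nonneg (by linarith : 0 ≤ ‖X‖ - ‖Y‖)]
      exact h2
  have hcs : 0 ≤ ‖X‖ * ‖Y‖ - ⟪X, Y⟫ := by
    have := real_inner_le_norm X Y
    linarith
  have n1 : ‖g • X - h • Y‖ ^ 2 = (g * ‖X‖ - h * ‖Y‖) ^ 2 + 2 * (g * h) * (‖X‖ * ‖Y‖ - ⟪X, Y⟫) := by
    rw [norm_sub_sq_real, norm_smul, norm_smul, real_inner_smul_left, real_inner_smul_right,
      Real.norm_of_nonneg hg0, Real.norm_of_nonneg hh0]
    ring
  have n2 : ‖X - Y‖ ^ 2 = (‖X‖ - ‖Y‖) ^ 2 + 2 * (‖X‖ * ‖Y‖ - ⟪X, Y⟫) := by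
    rw [norm_sub_sq_real]
    ring
  have s1 : (g * ‖X‖ - h * ‖Y‖) ^ 2 ≤ (‖X‖ - ‖Y‖) ^ 2 := sq_le_sq.mpr hprof.2
  have s2 : (1 - δ / ρ) ^ 2 * (‖X‖ - ‖Y‖) ^ 2 ≤ (g * ‖X‖ - h * ‖Y‖) ^ 2 := by
    rw [← mul_pow]
    refine sq_le_sq.mpr ?_
    rw [abs_mul, abs_of_nonneg hlow]
    exact hprof.1
  have gh1 : g * h ≤ 1 := by nlinarith [g1.2, h1.2]
  have gh2 : (1 - δ / ρ) ^ 2 ≤ g * h := by
    rw [pow_two]
    exact mul_le_mul g1.1 h1.1 hlow hg0
  constructor
  · refine le_of_sq_le_sq ?_ (norm_nonneg _)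
    rw [n1, n2]
    nlinarith [mul_le_mul_of_nonneg_right gh1 hcs]
  · refine le_of_sq_le_sq ?_ (norm_nonneg _)
    rw [mul_pow, n1, n2]
    nlinarith [mul_le_mul_of_nonneg_right gh2 hcs]

/-- Case (b): contraction about one body. -/
theorem raise_by_contraction {N : ℕ} {m : Fin N → ℝ} (hm : ∀ i, 0 < m i) {q : Fin N → V3}
    (hq : ∀ i j, i ≠ j → q i ≠ q j) (k : Fin N) {ρ δ κ : ℝ} (hρ : 0 < ρ) (hδ : 0 ≤ δ)
    (hδρ : δ ≤ ρ / 2) (hκ : 0 ≤ κ)
    (hbig : κ ≤ 2 * ((δ / ρ) * ∑ j ∈ Finset.univ.filter (fun j => ‖q k - q j‖ ≤ ρ),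
      m k * m j / ‖q k - q j‖)) :
    ∃ q' : Fin N → V3, (∀ i j, i ≠ j → q' i ≠ q' j) ∧ (∀ i, ‖q' i - q i‖ ≤ δ) ∧
      invdM m q' = invdM m q + κ := by
  classical
  have hδρ' : δ ≤ ρ := by linarith
  obtain ⟨γ, hγ⟩ : ∃ γ : ℝ → Fin N → V3, γ = fun t i => contr (q k) ρ (t * δ) (q i) := ⟨_, rfl⟩
  have hbd : ∀ t ∈ Icc (0 : ℝ) 1, 0 ≤ t * δ ∧ t * δ ≤ δ := fun t ht =>
    ⟨mul_nonneg ht.1 hδ, mul_le_of_le_one_left hδ ht.2⟩
  have hnc : ∀ t ∈ Icc (0 : ℝ) 1, ∀ i j, i ≠ j → γ t i ≠ γ t j := by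
    intro t ht i j hij heq
    have h1 := (contr_dist (c := q k) hρ (hbd t ht).1 ((hbd t ht).2.trans hδρ') (q i) (q j)).2
    have h2 : ‖contr (q k) ρ (t * δ) (q i) - contr (q k) ρ (t * δ) (q j)‖ = 0 := by
      have h3 : γ t i - γ t j = 0 := sub_eq_zero.mpr heq
      rw [hγ] at h3
      rw [h3, norm_zero]
    rw [h2] at h1
    have h4 : 0 < ‖q i - q j‖ := norm_pos_iff.mpr (sub_ne_zero.mpr (hq i j hij))
    have h5 : t * δ / ρ ≤ 1 / 2 := by
      rw [div_le_iff₀ hρ]
      linarith [(hbd t ht).2]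
    nlinarith
  have hcont : ∀ i, ContinuousOn (fun t => γ t i) (Icc (0 : ℝ) 1) := by
    intro i
    rw [hγ]
    have hM : max ρ ‖q i - q k‖ ≠ 0 := (lt_max_of_lt_left hρ).ne'
    apply Continuous.continuousOn
    show Continuous (fun t : ℝ => q k + (1 - t * δ / max ρ ‖q i - q k‖) • (q i - q k))
    fun_prop
  have hγ0 : γ 0 = q := by
    rw [hγ]
    funext i
    simp [contr]
  -- the potential at the end
  obtain ⟨D, hD⟩ : ∃ D : Fin N → Fin N → ℝ, D = fun i j =>
      m i * m j / ‖γ 1 i - γ 1 j‖ - m i * m j / ‖q i - q j‖ := ⟨_, rfl⟩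
  have hdist := fun i j => contr_dist (c := q k) hρ hδ hδρ' (q i) (q j)
  have hγ1 : ∀ i, γ 1 i = contr (q k) ρ δ (q i) := fun i => by rw [hγ]; simp
  have hD0 : ∀ i j, 0 ≤ D i j := by
    intro i j
    rw [hD]
    simp only [hγ1]
    by_cases hij : i = j
    · subst hij
      simp
    · have h1 : 0 < ‖q i - q j‖ := norm_pos_iff.mpr (sub_ne_zero.mpr (hq i j hij))
      have h2 := (hdist i j).1
      have h3 : 0 < ‖contr (q k) ρ δ (q i) - contr (q k) ρ δ (q j)‖ := by
        have h4 := hnc 1 ⟨zero_le_one, le_rfl⟩ i j hij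
        rw [hγ1, hγ1] at h4
        exact norm_pos_iff.mpr (sub_ne_zero.mpr h4)
      have h4 : 0 < m i * m j := mul_pos (hm i) (hm j)
      have := div_le_div_of_nonneg_left h4.le h3 h2
      linarith
  have hDsym : ∀ i j, D i j = D j i := by
    intro i j
    rw [hD]
    simp only
    rw [norm_sub_rev (γ 1 i), norm_sub_rev (q i), mul_comm (m i)]
  have hDkk : D k k = 0 := by
    rw [hD]
    simp
  have hDk : ∀ j, ‖q k - q j‖ ≤ ρ → (δ / ρ) * (m k * m j / ‖q k - q j‖) ≤ D k j := by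
    intro j hj
    by_cases hkj : k = j
    · subst hkj
      rw [hDkk]
      simp
    · have h1 : 0 < ‖q k - q j‖ := norm_pos_iff.mpr (sub_ne_zero.mpr (hq k j hkj))
      have h2 : ‖γ 1 k - γ 1 j‖ = (1 - δ / ρ) * ‖q k - q j‖ := by
        rw [hγ1, hγ1, contr_center, norm_sub_rev, contr_near hρ hδρ' (by rw [norm_sub_rev]; exact hj),
          norm_sub_rev]
      rw [hD]
      simp only
      rw [h2]
      have h3 : 0 ≤ δ / ρ := by positivity
      have h4 : δ / ρ ≤ 1 / 2 := by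
        rw [div_le_iff₀ hρ]
        linarith
      have h5 : 0 < m k * m j := mul_pos (hm k) (hm j)
      have h6 : 0 < 1 - δ / ρ := by linarith
      have e1 : m k * m j / ((1 - δ / ρ) * ‖q k - q j‖) =
          (1 / (1 - δ / ρ)) * (m k * m j / ‖q k - q j‖) := by
        field_simp
      rw [e1]
      have h7 : 1 + δ / ρ ≤ 1 / (1 - δ / ρ) := by
        rw [le_div_iff₀ h6]
        nlinarith
      have h8 : 0 ≤ m k * m j / ‖q k - q j‖ := by positivity
      nlinarith [mul_le_mul_of_nonneg_right h7 h8]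
  have hsumD : invdM m (γ 1) = invdM m q + ∑ i, ∑ j, D i j := by
    unfold invdM
    rw [← Finset.sum_add_distrib]
    apply Finset.sum_congr rfl
    intro i _
    rw [← Finset.sum_add_distrib]
    apply Finset.sum_congr rfl
    intro j _
    rw [hD]
    ring
  have hrow : (δ / ρ) * ∑ j ∈ Finset.univ.filter (fun j => ‖q k - q j‖ ≤ ρ),
      m k * m j / ‖q k - q j‖ ≤ ∑ j, D k j := by
    rw [Finset.mul_sum]
    calc ∑ j ∈ Finset.univ.filter (fun j => ‖q k - q j‖ ≤ ρ), (δ / ρ) * (m k * m j / ‖q k - q j‖)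
        ≤ ∑ j ∈ Finset.univ.filter (fun j => ‖q k - q j‖ ≤ ρ), D k j := by
          apply Finset.sum_le_sum
          intro j hj
          exact hDk j (Finset.mem_filter.mp hj).2
      _ ≤ ∑ j, D k j := Finset.sum_le_sum_of_subset_of_nonneg (Finset.filter_subset _ _)
          (fun j _ _ => hD0 k j)
  have htot : 2 * ∑ j, D k j ≤ ∑ i, ∑ j, D i j := by
    have h1 : ∑ i, ∑ j, D i j = ∑ j, D k j + ∑ i ∈ Finset.univ.erase k, ∑ j, D i j := by
      rw [Finset.add_sum_erase Finset.univ (fun i => ∑ j, D i j) (Finset.mem_univ k)]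
    have h2 : ∑ i ∈ Finset.univ.erase k, D i k ≤ ∑ i ∈ Finset.univ.erase k, ∑ j, D i j := by
      apply Finset.sum_le_sum
      intro i _
      exact Finset.single_le_sum (f := fun j => D i j) (fun j _ => hD0 i j) (Finset.mem_univ k)
    have h3 : ∑ i ∈ Finset.univ.erase k, D i k = ∑ j, D k j := by
      have h4 : ∑ i, D i k = D k k + ∑ i ∈ Finset.univ.erase k, D i k := by
        rw [Finset.add_sum_erase Finset.univ (fun i => D i k) (Finset.mem_univ k)]
      have h5 : ∑ i, D i k = ∑ j, D k j := Finset.sum_congr rfl (fun i _ => hDsym i k)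
      rw [hDkk] at h4
      linarith
    linarith
  obtain ⟨t, ht, hval⟩ := exists_value m (γ := γ) (a := 0) (b := 1) (c := invdM m q + κ)
    zero_le_one hcont hnc (by rw [hγ0]; linarith) (by rw [hsumD]; linarith)
  refine ⟨γ t, hnc t ht, fun i => ?_, hval⟩
  have h1 := contr_move (c := q k) hρ (hbd t ht).1 (q i)
  rw [hγ]
  exact h1.trans (hbd t ht).2

/-- When the bodies are separated and the potential is not small, one body has a large potential
energy with respect to the bodies near it. -/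
theorem exists_center {N : ℕ} {m : Fin N → ℝ} (hm : ∀ i, 0 < m i) (hm1 : ∑ i, m i = 1)
    {q : Fin N → V3} {s ρ β P : ℝ} (hs : 0 < s) (hρ : 0 < ρ) (hβ : 0 < β)
    (hsep : ∀ i j, i ≠ j → s ≤ ‖q i - q j‖) (hP : 0 < P) (hPq : P ≤ invdM m q)
    (hsmall : β * (1 + 2 * ρ / s) ^ 3 / s + 1 / ρ ≤ P / 2) :
    ∃ k, β * P / 4 ≤ ∑ j ∈ Finset.univ.filter (fun j => ‖q k - q j‖ ≤ ρ),
      m k * m j / ‖q k - q j‖ := by
  classical
  by_contra hcon
  push Not at hcon
  obtain ⟨near, hnear⟩ : ∃ near : Fin N → Fin N → ℝ, near = fun i j =>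
      if ‖q i - q j‖ ≤ ρ then m i * m j / ‖q i - q j‖ else 0 := ⟨_, rfl⟩
  have hnear0 : ∀ i j, 0 ≤ near i j := by
    intro i j
    rw [hnear]
    simp only
    have h1 := hm i
    have h2 := hm j
    split_ifs
    · positivity
    · exact le_rfl
  have hnsym : ∀ i j, near i j = near j i := by
    intro i j
    rw [hnear]
    simp only
    rw [norm_sub_rev, mul_comm (m i)]
  have hrow : ∀ k, ∑ j, near k j < β * P / 4 := by
    intro k
    have h1 : ∑ j, near k j = ∑ j ∈ Finset.univ.filter (fun j => ‖q k - q j‖ ≤ ρ),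
        m k * m j / ‖q k - q j‖ := by
      rw [Finset.sum_filter, hnear]
    rw [h1]
    exact hcon k
  obtain ⟨H, hH⟩ : ∃ H : Finset (Fin N), H = Finset.univ.filter (fun i => β ≤ m i) := ⟨_, rfl⟩
  have hHcard : (H.card : ℝ) * β ≤ 1 := by
    rw [← hm1, ← nsmul_eq_mul, ← Finset.sum_const]
    calc ∑ _i ∈ H, β ≤ ∑ i ∈ H, m i := by
          apply Finset.sum_le_sum
          intro i hi
          rw [hH] at hi
          exact (Finset.mem_filter.mp hi).2
      _ ≤ ∑ i, m i := Finset.sum_le_sum_of_subset_of_nonneg (Finset.subset_univ _)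
          (fun i _ _ => (hm i).le)
  -- pointwise bound
  obtain ⟨c, hc⟩ : ∃ c : Fin N → Fin N → ℝ, c = fun i j =>
      if j ≠ i ∧ ‖q i - q j‖ ≤ ρ then m i * (β / s) else 0 := ⟨_, rfl⟩
  have hc0 : ∀ i j, 0 ≤ c i j := by
    intro i j
    rw [hc]
    simp only
    have h1 := hm i
    split_ifs
    · positivity
    · exact le_rfl
  have hpt : ∀ i j, m i * m j / ‖q i - q j‖ ≤ (if i ∈ H then near i j else 0) +
      (if j ∈ H then near i j else 0) + c i j + m i * m j / ρ := by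
    intro i j
    have hmi := hm i
    have hmj := hm j
    have hfar : 0 ≤ m i * m j / ρ := by positivity
    have hn := hnear0 i j
    have hcij := hc0 i j
    have hA : 0 ≤ (if i ∈ H then near i j else 0) := by split_ifs <;> [exact hn; exact le_rfl]
    have hB : 0 ≤ (if j ∈ H then near i j else 0) := by split_ifs <;> [exact hn; exact le_rfl]
    by_cases hd : ‖q i - q j‖ ≤ ρ
    · have hni : near i j = m i * m j / ‖q i - q j‖ := by
        rw [hnear]
        simp [hd]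
      by_cases hiH : i ∈ H
      · rw [if_pos hiH]
        linarith
      · by_cases hjH : j ∈ H
        · rw [if_pos hjH, if_neg hiH]
          linarith
        · by_cases hij : j = i
          · subst hij
            rw [sub_self, norm_zero, div_zero]
            linarith
          · have hlt : m j ≤ β := by
              by_contra h
              apply hjH
              rw [hH, Finset.mem_filter]
              exact ⟨Finset.mem_univ _, (not_le.mp h).le⟩
            have hcv : c i j = m i * (β / s) := by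
              rw [hc]
              simp [hij, hd]
            have h1 : m i * m j / ‖q i - q j‖ ≤ m i * (β / s) := by
              rw [mul_div_assoc]
              apply mul_le_mul_of_nonneg_left _ hmi.le
              exact div_le_div₀ hβ.le hlt hs (hsep i j (Ne.symm hij))
            rw [← hcv] at h1
            linarith
    · have h1 : m i * m j / ‖q i - q j‖ ≤ m i * m j / ρ :=
        div_le_div_of_nonneg_left (by positivity) hρ (not_le.mp hd).le
      linarith
  have hsumc : ∑ i, ∑ j, c i j ≤ β * (1 + 2 * ρ / s) ^ 3 / s := by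
    have h1 : ∀ i, ∑ j, c i j ≤ m i * (β * (1 + 2 * ρ / s) ^ 3 / s) := by
      intro i
      obtain ⟨J, hJ⟩ : ∃ J : Finset (Fin N), J = Finset.univ.filter
          (fun j => j ≠ i ∧ ‖q i - q j‖ ≤ ρ) := ⟨_, rfl⟩
      have hcard : (J.card : ℝ) ≤ (1 + 2 * ρ / s) ^ 3 := by
        apply packing J (fun j => q j - q i) hs hρ.le
        · intro j _ k _ hjk
          have := hsep j k hjk
          simpa using this
        · intro j hj
          rw [hJ, Finset.mem_filter] at hj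
          show ‖q j - q i‖ ≤ ρ
          rw [norm_sub_rev]
          exact hj.2.2
      have h2 : ∑ j, c i j = (J.card : ℝ) * (m i * (β / s)) := by
        rw [hc]
        simp only
        rw [← Finset.sum_filter, ← hJ, Finset.sum_const, nsmul_eq_mul]
      rw [h2]
      have h3 : 0 ≤ m i * (β / s) := by
        have := hm i
        positivity
      calc (J.card : ℝ) * (m i * (β / s)) ≤ (1 + 2 * ρ / s) ^ 3 * (m i * (β / s)) :=
            mul_le_mul_of_nonneg_right hcard h3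
        _ = _ := by ring
    calc ∑ i, ∑ j, c i j ≤ ∑ i, m i * (β * (1 + 2 * ρ / s) ^ 3 / s) :=
          Finset.sum_le_sum (fun i _ => h1 i)
      _ = _ := by rw [← Finset.sum_mul, hm1, one_mul]
  have hsumfar : ∑ i, ∑ j, m i * m j / ρ = 1 / ρ := by
    have h1 : ∀ i, ∑ j, m i * m j / ρ = m i * (1 / ρ) := by
      intro i
      rw [← Finset.sum_div, ← Finset.mul_sum, hm1]
      ring
    simp only [h1]
    rw [← Finset.sum_mul, hm1, one_mul]
  have hsumH1 : ∑ i, ∑ j, (if i ∈ H then near i j else 0) = ∑ i ∈ H, ∑ j, near i j := by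
    have h1 : ∀ i, ∑ j, (if i ∈ H then near i j else 0) = if i ∈ H then ∑ j, near i j else 0 := by
      intro i
      split_ifs
      · rfl
      · simp
    simp only [h1]
    rw [Finset.sum_ite_mem, Finset.univ_inter]
  have hsumH2 : ∑ i, ∑ j, (if j ∈ H then near i j else 0) = ∑ i ∈ H, ∑ j, near i j := by
    rw [Finset.sum_comm, ← hsumH1]
    apply Finset.sum_congr rfl
    intro i _
    apply Finset.sum_congr rfl
    intro j _
    split_ifs
    · exact hnsym j i
    · rfl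
  have htotal : invdM m q ≤ 2 * ∑ i ∈ H, ∑ j, near i j + (β * (1 + 2 * ρ / s) ^ 3 / s + 1 / ρ) := by
    have h1 : invdM m q ≤ ∑ i, ∑ j, ((if i ∈ H then near i j else 0) +
      (if j ∈ H then near i j else 0) + c i j + m i * m j / ρ) := by
      unfold invdM
      exact Finset.sum_le_sum (fun i _ => Finset.sum_le_sum (fun j _ => hpt i j))
    simp only [Finset.sum_add_distrib] at h1
    rw [hsumH1, hsumH2, hsumfar] at h1
    linarith
  rcases H.eq_empty_or_nonempty with hE | hE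
  · rw [hE] at htotal
    simp only [Finset.sum_empty, mul_zero, zero_add] at htotal
    linarith
  · have h1 : ∑ i ∈ H, ∑ j, near i j < ∑ _i ∈ H, β * P / 4 :=
      Finset.sum_lt_sum_of_nonempty hE (fun i _ => hrow i)
    rw [Finset.sum_const, nsmul_eq_mul] at h1
    have h2 : (H.card : ℝ) * (β * P / 4) ≤ P / 4 := by
      have h3 : (H.card : ℝ) * (β * P / 4) = ((H.card : ℝ) * β) * (P / 4) := by ring
      rw [h3]
      calc ((H.card : ℝ) * β) * (P / 4) ≤ 1 * (P / 4) :=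
            mul_le_mul_of_nonneg_right hHcard (by linarith)
        _ = P / 4 := one_mul _
    linarith

/-- Lemma P: the potential can be raised by any small amount by moving every body by at most
`δ`. -/
theorem raise {N : ℕ} {m : Fin N → ℝ} (hm : ∀ i, 0 < m i) (hm1 : ∑ i, m i = 1)
    {q : Fin N → V3} (hq : ∀ i j, i ≠ j → q i ≠ q j) {δ ρ β P κ : ℝ} (hδ : 0 < δ) (hρ : 0 < ρ)
    (hδρ : δ ≤ ρ / 2) (hβ : 0 < β) (hP : 0 < P) (hPq : P ≤ invdM m q)
    (hsmall : β * (1 + 2 * ρ / δ) ^ 3 / δ + 1 / ρ ≤ P / 2) (hκ : 0 ≤ κ)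
    (hκ1 : κ ≤ 2 * (δ / ρ * (β * P / 4))) :
    ∃ q' : Fin N → V3, (∀ i j, i ≠ j → q' i ≠ q' j) ∧ (∀ i, ‖q' i - q i‖ ≤ δ) ∧
      invdM m q' = invdM m q + κ := by
  by_cases hclose : ∃ a b, a ≠ b ∧ ‖q a - q b‖ < δ
  · obtain ⟨a, b, hab, hd⟩ := hclose
    obtain ⟨q', h1, h2, h3⟩ := raise_by_collision hm hq hab hκ
    exact ⟨q', h1, fun i => (h2 i).trans hd.le, h3⟩
  · push Not at hclose
    obtain ⟨k, hk⟩ := exists_center hm hm1 hδ hρ hβ hclose hP hPq hsmall
    refine raise_by_contraction hm hq k hρ hδ.le hδρ hκ (hκ1.trans ?_)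
    have : 0 ≤ δ / ρ := by positivity
    gcongr

end Pool.Agent.NBody.Pos
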