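import Mathlib
import Pool.Agent.NBody.ThPos

/-!
Lemma P in explicit form.
-/

set_option autoImplicit false
open Set Finset

namespace Pool.Agent.NBody

/-- The potential can be raised by any amount `κ ≤ 1 / (23328 X ^ 12)` with displacements at
most `1 / (2 X)`. -/
theorem pos_up {N : ℕ} (m : Fin N → ℝ) (hm : ∀ i, 0 < m i) (hm1 : ∑ i, m i = 1) (X : ℝ)
    (hX : 1 ≤ X) (q : Fin N → V3) (hq : ∀ i j, i ≠ j → q i ≠ q j) (hU : 1 / X ≤ invdM m q / 2)
    (κ : ℝ) (hκ : 0 ≤ κ) (hκ1 : κ ≤ 1 / (23328 * X ^ 12)) :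
    ∃ q' : Fin N → V3, (∀ i, ‖q' i - q i‖ ≤ 1 / (2 * X)) ∧ (∀ i j, i ≠ j → q' i ≠ q' j) ∧
      invdM m q' / 2 = invdM m q / 2 + κ := by
  have hX0 : 0 < X := by linarith
  have h1 : 1 / (2916 * X ^ 8) * (1 + 2 * (2 * X) / (1 / (2 * X))) ^ 3 / (1 / (2 * X)) +
      1 / (2 * X) ≤ 2 / X / 2 := by
    have e1 : 2 * (2 * X) / (1 / (2 * X)) = 8 * X ^ 2 := by
      field_simp
      ring
    rw [e1]
    have h2 : 1 + 8 * X ^ 2 ≤ 9 * X ^ 2 := by nlinarith
    have h3 : (1 + 8 * X ^ 2) ^ 3 ≤ (9 * X ^ 2) ^ 3 := by gcongr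
    have h4 : 1 / (2916 * X ^ 8) * (1 + 8 * X ^ 2) ^ 3 / (1 / (2 * X)) ≤
        1 / (2916 * X ^ 8) * (9 * X ^ 2) ^ 3 / (1 / (2 * X)) := by gcongr
    have h5 : 1 / (2916 * X ^ 8) * (9 * X ^ 2) ^ 3 / (1 / (2 * X)) = 1 / (2 * X) := by
      field_simp
      ring
    have h6 : 2 / X / 2 = 1 / (2 * X) + 1 / (2 * X) := by
      field_simp
      ring
    rw [h6]
    linarith
  have h2 : 2 * κ ≤ 2 * (1 / (2 * X) / (2 * X) * (1 / (2916 * X ^ 8) * (2 / X) / 4)) := by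
    have e1 : 2 * (1 / (2 * X) / (2 * X) * (1 / (2916 * X ^ 8) * (2 / X) / 4)) =
        1 / (11664 * X ^ 11) := by
      field_simp
      ring
    rw [e1]
    have h3 : 1 / (23328 * X ^ 12) ≤ 1 / (23328 * X ^ 11) := by
      apply one_div_le_one_div_of_le (by positivity)
      have h4 : X ^ 11 ≤ X ^ 12 := pow_le_pow_right₀ hX (by norm_num)
      linarith
    have h4 : 2 * (1 / (23328 * X ^ 11)) = 1 / (11664 * X ^ 11) := by
      field_simp
      norm_num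
    linarith
  obtain ⟨q', h3, h4, h5⟩ := Pos.raise hm hm1 hq (δ := 1 / (2 * X)) (ρ := 2 * X)
    (β := 1 / (2916 * X ^ 8)) (P := 2 / X) (κ := 2 * κ) (by positivity) (by positivity)
    (by
      rw [div_le_iff₀ (by positivity)]
      nlinarith) (by positivity) (by positivity) (by
      have : 2 / X = 2 * (1 / X) := by ring
      linarith) h1 (by linarith) h2
  exact ⟨q', h4, h3, by linarith⟩

end Pool.Agent.NBody
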