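import Mathlib
import Pool.Agent.NBody.ThPrep2
import Pool.Agent.NBody.ThSpread

/-!
Existence of prepared states.
-/

set_option autoImplicit false
open scoped RealInnerProductSpace
open Set Finset Filter Topology

namespace Pool.Agent.NBody

theorem spreadRest : SpreadRest (fun η ε => η * ε * (1 / 100 : ℝ) ^ (1 / 3 : ℝ)) := by
  classical
  intro N g q _ hN hq η ε hη hε hε1
  have hNr : (0 : ℝ) < N := by exact_mod_cast hN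
  obtain ⟨p, p1, p2, p3⟩ := spread (ι := {i // i ∈ rest g}) (fun i => q i)
    (fun i j hij => hq i.1 i.2 j.1 j.2 (fun h => hij (Subtype.ext h))) η ε hη hε hε1
  obtain ⟨q', hq'⟩ : ∃ q' : Fin N → V3, q' = fun i => if h : i ∈ rest g then p ⟨i, h⟩ else 0 :=
    ⟨_, rfl⟩
  have hq'i : ∀ i (h : i ∈ rest g), q' i = p ⟨i, h⟩ := by
    intro i h
    rw [hq']
    simp only
    rw [dif_pos h]
  refine ⟨q', ?_, ?_, ?_⟩
  · intro i hi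
    rw [hq'i i hi]
    exact p1 ⟨i, hi⟩
  · intro i hi j hj hij
    rw [hq'i i hi, hq'i j hj]
    refine le_trans ?_ (p2 ⟨i, hi⟩ ⟨j, hj⟩ (fun h => hij (congrArg Subtype.val h)))
    rw [Fintype.card_coe]
    have h1 : (rest g).card ≤ N := by
      simpa using Finset.card_le_univ (rest g)
    have h2 : 0 < (rest g).card := Finset.card_pos.mpr ⟨i, hi⟩
    have h1' : ((rest g).card : ℝ) ≤ N := by exact_mod_cast h1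
    have h2' : (0 : ℝ) < ((rest g).card : ℝ) := by exact_mod_cast h2
    have h3 : (N : ℝ) ^ (-(1 / 3) : ℝ) = (1 / (N : ℝ)) ^ (1 / 3 : ℝ) := by
      rw [one_div (N : ℝ), Real.inv_rpow hNr.le, Real.rpow_neg hNr.le]
    have h4 : (1 / 100 : ℝ) ^ (1 / 3 : ℝ) * (N : ℝ) ^ (-(1 / 3) : ℝ) =
        (1 / (100 * (N : ℝ))) ^ (1 / 3 : ℝ) := by
      rw [h3, ← Real.mul_rpow (by norm_num) (by positivity)]
      congr 1
      field_simp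
    have h5 : (1 / (100 * (N : ℝ))) ^ (1 / 3 : ℝ) ≤
        (1 / (100 * ((rest g).card : ℝ))) ^ (1 / 3 : ℝ) := by
      apply Real.rpow_le_rpow (by positivity) _ (by norm_num)
      apply one_div_le_one_div_of_le (by positivity)
      linarith
    rw [mul_assoc, h4]
    exact mul_le_mul_of_nonneg_left h5 (by positivity)
  · have hs : ∀ F : Fin N → Fin N → ℝ, ∑ i ∈ rest g, ∑ j ∈ rest g, F i j =
        ∑ i : {i // i ∈ rest g}, ∑ j : {i // i ∈ rest g}, F i j := by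
      intro F
      rw [← Finset.sum_coe_sort]
      apply Finset.sum_congr rfl
      intro i _
      rw [← Finset.sum_coe_sort]
    rw [hs, hs]
    have h6 : ∀ i j : {i // i ∈ rest g}, 1 / ‖q' i - q' j‖ = 1 / ‖p i - p j‖ := by
      intro i j
      rw [hq'i i.1 i.2, hq'i j.1 j.2]
    simp only [h6]
    exact p3

/-- G (module of the theorem on many bodies) -/
theorem exists_prep {s : Fin 3 → V3} {e : V3} (hs : GunShape s e) (E R V δ : ℝ) (hδ : 0 < δ) :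
    ∃ (R' c b : ℝ) (N₀ : ℕ), 0 < R' ∧ 0 < c ∧ 0 < b ∧ ∀ N : ℕ, N₀ ≤ N → ∀ x : Ph N, x ∈ NC N →
      ∑ i, x.1 i = 0 → ∑ i, x.2 i = 0 →
      kin (fun _ => 1 / (N : ℝ)) x.2 - pot (fun _ => 1 / (N : ℝ)) x.1 = E →
      (∀ i, ‖x.1 i‖ ≤ R) → (∀ i, (N : ℝ) * ‖x.2 i‖ ≤ V) →
      ∃ (r : ℝ) (g : Fin 3 → Fin N) (z w : V3) (q v : Fin N → V3),
        b / (N : ℝ) ^ 2 ≤ r ∧ r ≤ 1 / (b * (N : ℝ) ^ 2) ∧
        Prep N R' c (b * (N : ℝ) ^ (-(1 / 3) : ℝ)) r s g z w q v ∧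
        ((q, (1 / (N : ℝ)) • v) : Ph N) ∈ NC N ∧ ∑ i, q i = 0 ∧ ∑ i, v i = 0 ∧
        kin (fun _ => 1 / (N : ℝ)) ((1 / (N : ℝ)) • v) - pot (fun _ => 1 / (N : ℝ)) q = E ∧
        (∀ i, ‖q i - x.1 i‖ ≤ δ) ∧ (∀ i, ‖v i - (N : ℝ) • x.2 i‖ ≤ δ) :=
  exists_prep_of_spread (fun η ε hη hε => by positivity) spreadRest hs E R V δ hδ

/-- `prep_at` with the constant of `spread` -/
theorem prep_at' {s : Fin 3 → V3} {e : V3} (hs : GunShape s e) (E R V δ₁ : ℝ)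
    (hδ₁ : 0 < δ₁) (hδ₁1 : δ₁ ≤ 1) {N K : ℕ} {G₀ P₀ P₁ ε₂ u₀ c : ℝ}
    (hG₀ : G₀ = δ₁ ^ 2 / 64) (hP₀ : P₀ = V ^ 2 / 2 + |E| + 1) (hε₂ : ε₂ = G₀ / (16 * P₀))
    (hu₀ : u₀ = ∑ k, ∑ l, 1 / ‖s k - s l‖) (hP₁ : P₁ = (|V| + 1) ^ 2 / 2 + |E|)
    (hc : c = δ₁ / 32) (hK' : (|R| + |V|) / c + 1 ≤ K)
    (hN1 : (2 * K + 1) ^ 6 * 2 < N) (hN4 : (6 / c + 1 + 3 * V ^ 2) / G₀ ≤ N)
    (hN5 : u₀ / G₀ / (N : ℝ) ^ 2 ≤ δ₁ / 16) :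
    ∀ x : Ph N, x ∈ NC N →
      ∑ i, x.1 i = 0 → ∑ i, x.2 i = 0 →
      kin (fun _ => 1 / (N : ℝ)) x.2 - pot (fun _ => 1 / (N : ℝ)) x.1 = E →
      (∀ i, ‖x.1 i‖ ≤ R) → (∀ i, (N : ℝ) * ‖x.2 i‖ ≤ V) →
      ∃ (r : ℝ) (g : Fin 3 → Fin N) (z w : V3) (q v : Fin N → V3),
        u₀ / (2 * P₁) / (N : ℝ) ^ 2 ≤ r ∧ r ≤ u₀ / G₀ / (N : ℝ) ^ 2 ∧
        Prep N (|R| + |V| + 1) c
          (c * ε₂ * (1 / 100 : ℝ) ^ (1 / 3 : ℝ) * (N : ℝ) ^ (-(1 / 3) : ℝ)) r s g z w q v ∧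
        ((q, (1 / (N : ℝ)) • v) : Ph N) ∈ NC N ∧ ∑ i, q i = 0 ∧ ∑ i, v i = 0 ∧
        kin (fun _ => 1 / (N : ℝ)) ((1 / (N : ℝ)) • v) - pot (fun _ => 1 / (N : ℝ)) q = E ∧
        (∀ i, ‖q i - x.1 i‖ ≤ δ₁) ∧ (∀ i, ‖v i - (N : ℝ) • x.2 i‖ ≤ δ₁) :=
  prep_at (C₁ := fun η ε => η * ε * (1 / 100 : ℝ) ^ (1 / 3 : ℝ))
    (fun η ε hη hε => by positivity) spreadRest hs E R V δ₁ hδ₁ hδ₁1 hG₀ hP₀ hε₂ hu₀ hP₁ hc
    le_rfl hK' hN1 hN4 hN5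

end Pool.Agent.NBody
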