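import Mathlib
import Pool.Agent.NBody.ThPrepM2
import Pool.Agent.NBody.ThDefs3

/-!
Prepared states without any bound on the velocities (type I-A): slow bodies, pigeonhole in
position and mass, kicks which do not touch the gun, energy bookkeeping, assembly.
-/

set_option autoImplicit false
open scoped RealInnerProductSpace
open Set Finset Filter Topology

namespace Pool.Agent.NBody

/-- Spreading along straight lines: the statement of `spread_lines`. -/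
def SpreadLines : Prop :=
  ∀ {N : ℕ} (m : Fin N → ℝ), (∀ i, 0 ≤ m i) → ∀ (q v : Fin N → V3),
    (∀ i j, i ≠ j → q i ≠ q j) → ∀ (η ε τ : ℝ), 0 < η → 0 < ε → ε ≤ 1 / 2 → 0 ≤ τ →
    ∀ σ : Fin N → Fin N → ℝ, (∀ i j, 0 < σ i j) → (∀ i j, σ i j = σ j i) →
    (∀ i, ∑ j, (‖v i - v j‖ * τ * σ i j ^ 2 + 3 * σ i j ^ 3) ≤ ε ^ 3 * η ^ 3 / 5000) →
    (∃ p : Fin N → V3, (∀ i, ‖p i - q i‖ ≤ η) ∧
      (∀ i j, i ≠ j → ∀ t ∈ Icc (0 : ℝ) τ, σ i j < ‖(p i + t • v i) - (p j + t • v j)‖) ∧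
      ∑ i, ∑ j, m i * m j / ‖p i - p j‖ ≤
        ((1 - ε) ^ 2)⁻¹ * ∑ i, ∑ j, m i * m j / ‖q i - q j‖) ∧
    (∃ p : Fin N → V3, (∀ i, ‖p i - q i‖ ≤ η) ∧
      (∀ i j, i ≠ j → ∀ t ∈ Icc (0 : ℝ) τ, σ i j < ‖(p i + t • v i) - (p j + t • v j)‖) ∧
      ∑ i, ∑ j, m i * m j / ‖p i - p j‖ ≤ 4000 / (η * ε) * (∑ i, m i) ^ 2)

/-- the slow bodies are at least half of all bodies -/
theorem card_slow {N : ℕ} {m : Fin N → ℝ} (hm : ∀ i, 0 < m i) {μ₀ U₀ : ℝ} (hμ₀ : 0 < μ₀)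
    (hmμ₀ : ∀ i, μ₀ ≤ m i) (hU₀ : 0 < U₀) (u : Fin N → V3)
    (hu : ∑ i, m i * ‖u i‖ ^ 2 ≤ 2 * U₀) :
    (N : ℝ) / 2 ≤ ((Finset.univ.filter (fun i : Fin N => ‖u i‖ ^ 2 ≤
      4 * U₀ / (μ₀ * N))).card : ℝ) := by
  classical
  rcases Nat.eq_zero_or_pos N with h0 | hNpos
  · subst h0
    simp
  have hNr : (0 : ℝ) < N := by exact_mod_cast hNpos
  obtain ⟨S, hS⟩ : ∃ S : Finset (Fin N), S = Finset.univ.filter (fun i : Fin N => ‖u i‖ ^ 2 ≤
      4 * U₀ / (μ₀ * N)) := ⟨_, rfl⟩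
  rw [← hS]
  have h1 : ((Sᶜ.card : ℕ) : ℝ) * (4 * U₀ / N) ≤ 2 * U₀ := by
    have h2 : ∑ i ∈ Sᶜ, (4 * U₀ / N) ≤ ∑ i ∈ Sᶜ, m i * ‖u i‖ ^ 2 := by
      apply Finset.sum_le_sum
      intro i hi
      rw [Finset.mem_compl, hS, Finset.mem_filter, not_and] at hi
      have h3 := (not_le.mp (hi (Finset.mem_univ i))).le
      calc 4 * U₀ / N = μ₀ * (4 * U₀ / (μ₀ * N)) := by
            field_simp
        _ ≤ m i * ‖u i‖ ^ 2 := mul_le_mul (hmμ₀ i) h3 (by positivity) (hm i).le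
    rw [Finset.sum_const, nsmul_eq_mul] at h2
    refine h2.trans (le_trans ?_ hu)
    exact Finset.sum_le_sum_of_subset_of_nonneg (Finset.subset_univ _) (fun i _ _ => by
      have := hm i
      positivity)
  have h4 : ((Sᶜ.card : ℕ) : ℝ) ≤ N / 2 := by
    have h5 : ((Sᶜ.card : ℕ) : ℝ) * (4 * U₀ / N) = (((Sᶜ.card : ℕ) : ℝ) * 2 / N) * (2 * U₀) := by
      ring
    rw [h5] at h1
    have h6 : ((Sᶜ.card : ℕ) : ℝ) * 2 / N ≤ 1 := by
      by_contra hlt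
      push Not at hlt
      nlinarith
    rw [div_le_one hNr] at h6
    linarith
  have h7 : (S.card : ℝ) + ((Sᶜ.card : ℕ) : ℝ) = N := by
    have h8 := Finset.card_add_card_compl S
    rw [Fintype.card_fin] at h8
    exact_mod_cast h8
  linarith

/-- Three bodies of a large set which are close in position and mass. -/
theorem exists_gun3 {N : ℕ} {m : Fin N → ℝ} (hm : ∀ i, 0 < m i) {μ₀ μ : ℝ} (hμ₀ : 0 < μ₀)
    (hmμ₀ : ∀ i, μ₀ ≤ m i) (hμ : ∀ i, m i ≤ μ) (q : Fin N → V3) (H : Finset (Fin N))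
    (hH : (N : ℝ) / 2 ≤ (H.card : ℝ))
    {R η η₀ : ℝ} (hη : 0 < η) (hη₀ : 0 < η₀) (hq : ∀ i, ‖q i‖ ≤ R) {K : ℕ}
    (hK : R / η + 2 * μ / (η₀ * μ₀) + 1 ≤ K) (hN1 : (2 * (K : ℝ) + 1) ^ 4 * 4 < N) :
    ∃ g : Fin 3 → Fin N, Function.Injective g ∧ (∀ k, g k ∈ H) ∧
      (∀ k l, ‖q (g k) - q (g l)‖ ≤ 2 * η) ∧ (∀ k, |m (g k) / m (g 0) - 1| ≤ η₀) := by
  have hNpos : 0 < N := by
    rcases Nat.eq_zero_or_pos N with h | h
    · subst h
      have : (0 : ℝ) < (2 * (K : ℝ) + 1) ^ 4 * 4 := by positivity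
      simp at hN1
      linarith
    · exact h
  have hNr : (0 : ℝ) < N := by exact_mod_cast hNpos
  have hR0 : 0 ≤ R := (norm_nonneg _).trans (hq ⟨0, hNpos⟩)
  have hμ0 : 0 < μ := hμ₀.trans_le ((hmμ₀ ⟨0, hNpos⟩).trans (hμ _))
  have hlt : (2 * K + 1) ^ 4 * 2 < H.card := by
    have h1 : (((2 * K + 1) ^ 4 * 2 : ℕ) : ℝ) < (H.card : ℝ) := by
      refine lt_of_lt_of_le ?_ hH
      push_cast
      linarith
    exact_mod_cast h1
  obtain ⟨a, ha, b, hb, c, hc, hab, hac, hbc, h1, h2, h3⟩ :=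
    exists_three_closeM (κ := Fin 3 ⊕ Unit) H
    (fun i => Sum.elim (fun k => q i k) (fun _ => m i * (2 * η / (η₀ * μ₀))))
    (B := R + μ * (2 * η / (η₀ * μ₀))) (η := η) hη (by
      intro i _ k
      have hR := hq i
      have hx : 0 ≤ μ * (2 * η / (η₀ * μ₀)) := by positivity
      rcases k with k | k
      · exact ((abs_coord_le (q i) k).trans hR).trans (by linarith)
      · have h4 : m i * (2 * η / (η₀ * μ₀)) ≤ μ * (2 * η / (η₀ * μ₀)) :=
          mul_le_mul_of_nonneg_right (hμ i) (by positivity)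
        have h5 : 0 ≤ m i * (2 * η / (η₀ * μ₀)) := by
          have := hm i
          positivity
        simp only [Sum.elim_inr]
        rw [abs_of_nonneg h5]
        linarith) (K := K) (by
      refine le_trans (le_of_eq ?_) hK
      field_simp) (by
      simpa using hlt)
  have hqq : ∀ i j : Fin N,
      (∀ k : Fin 3 ⊕ Unit, |Sum.elim (fun k => q i k) (fun _ => m i * (2 * η / (η₀ * μ₀))) k -
        Sum.elim (fun k => q j k) (fun _ => m j * (2 * η / (η₀ * μ₀))) k| ≤ η) →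
      ‖q i - q j‖ ≤ 2 * η ∧ |m j / m i - 1| ≤ η₀ := by
    intro i j h
    refine ⟨?_, ?_⟩
    · apply norm_le_of_coord hη.le
      intro k
      have := h (Sum.inl k)
      simpa using this
    · have h4 := h (Sum.inr ())
      simp only [Sum.elim_inr] at h4
      have ht : 0 < 2 * η / (η₀ * μ₀) := by positivity
      rw [← sub_mul, abs_mul, abs_of_pos ht] at h4
      have h5 : |m i - m j| ≤ η₀ * μ₀ / 2 := by
        have h6 : |m i - m j| * (2 * η / (η₀ * μ₀)) ≤ η₀ * μ₀ / 2 * (2 * η / (η₀ * μ₀)) := by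
          refine h4.trans (le_of_eq ?_)
          field_simp
        exact le_of_mul_le_mul_right h6 (by positivity)
      have hmi0 := hm i
      have h7 : m j / m i - 1 = (m j - m i) / m i := by field_simp
      rw [h7, abs_div, abs_of_pos hmi0, div_le_iff₀ hmi0, abs_sub_comm]
      refine h5.trans ?_
      have h9 := mul_le_mul_of_nonneg_left (hmμ₀ i) hη₀.le
      have h10 : 0 < η₀ * μ₀ := by positivity
      linarith
  have hsymm : ∀ i j : Fin N,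
      (∀ k : Fin 3 ⊕ Unit, |Sum.elim (fun k => q i k) (fun _ => m i * (2 * η / (η₀ * μ₀))) k -
        Sum.elim (fun k => q j k) (fun _ => m j * (2 * η / (η₀ * μ₀))) k| ≤ η) →
      ∀ k : Fin 3 ⊕ Unit, |Sum.elim (fun k => q j k) (fun _ => m j * (2 * η / (η₀ * μ₀))) k -
        Sum.elim (fun k => q i k) (fun _ => m i * (2 * η / (η₀ * μ₀))) k| ≤ η := by
    intro i j h k
    rw [abs_sub_comm]
    exact h k
  have hself : ∀ i : Fin N, ‖q i - q i‖ ≤ 2 * η ∧ |m i / m i - 1| ≤ η₀ := by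
    intro i
    rw [div_self (hm i).ne']
    simp only [sub_self, norm_zero, abs_zero]
    exact ⟨by linarith, hη₀.le⟩
  have hall : ∀ k l : Fin 3, ‖q (![a, b, c] k) - q (![a, b, c] l)‖ ≤ 2 * η ∧
      |m (![a, b, c] l) / m (![a, b, c] k) - 1| ≤ η₀ := by
    intro k l
    fin_cases k <;> fin_cases l
    · exact hself a
    · exact hqq a b h1
    · exact hqq a c h2
    · exact hqq b a (hsymm a b h1)
    · exact hself b
    · exact hqq b c h3
    · exact hqq c a (hsymm a c h2)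
    · exact hqq c b (hsymm b c h3)
    · exact hself c
  refine ⟨![a, b, c], ?_, ?_, fun k l => (hall k l).1, fun k => (hall 0 k).2⟩
  · intro k l hkl
    fin_cases k <;> fin_cases l <;> simp_all
  · intro k
    fin_cases k
    · exact ha
    · exact hb
    · exact hc

/-- Kicks with equal momenta outside the gun: the velocities change little, the momentum does not
change, the gun is not touched, and the kinetic energy grows. -/
theorem exists_kick3 {N : ℕ} {g : Fin 3 → Fin N} (hg : Function.Injective g) {m : Fin N → ℝ}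
    (hm : ∀ i, 0 < m i) {μ : ℝ} (hμ : ∀ i, m i ≤ μ) (u : Fin N → V3)
    {ε p : ℝ} (hp : 0 ≤ p) (hH : ∀ i, p ≤ m i * ε) :
    ∃ v : Fin N → V3, (∀ k, v (g k) = u (g k)) ∧ (∀ j, ‖v j - u j‖ ≤ ε) ∧
      ∑ i, m i • v i = ∑ i, m i • u i ∧
      ∑ i, m i * ‖u i‖ ^ 2 + p ^ 2 / μ * ((N : ℝ) - 4) ≤ ∑ i, m i * ‖v i‖ ^ 2 := by
  classical
  have hμ0 : 0 < μ := (hm (g 0)).trans_le (hμ _)
  have hε : 0 ≤ ε := by
    have h1 := hp.trans (hH (g 0))
    exact nonneg_of_mul_nonneg_right h1 (hm _)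
  obtain ⟨e, he⟩ : ∃ e : V3, e = e3 := ⟨_, rfl⟩
  have hen : ‖e‖ = 1 := by rw [he]; exact norm_e3
  obtain ⟨σ, hσ1, hσ0, hσx, hσ2⟩ := exists_signs (rest g) (fun i => ⟪u i, e⟫)
  obtain ⟨v, hv⟩ : ∃ v : Fin N → V3, v = Function.extend g (fun k => u (g k))
    (fun j => u j + (p * σ j / m j) • e) := ⟨_, rfl⟩
  have hvg : ∀ k, v (g k) = u (g k) := fun k => by rw [hv, hg.extend_apply]
  have hvr : ∀ j ∈ rest g, v j = u j + (p * σ j / m j) • e := by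
    intro j hj
    rw [hv, Function.extend_apply']
    intro ⟨k, hk⟩
    exact mem_rest.mp hj ⟨k, hk⟩
  refine ⟨v, hvg, ?_, ?_, ?_⟩
  · intro j
    by_cases hj : j ∈ rest g
    · have hmj := hm j
      rw [hvr j hj, add_sub_cancel_left, norm_smul, hen, mul_one, Real.norm_eq_abs, abs_div,
        abs_of_pos hmj, abs_mul, abs_of_nonneg hp, div_le_iff₀ hmj]
      have h1 := hσ1 j
      have h2 := hH j
      nlinarith
    · rw [mem_rest, not_not] at hj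
      obtain ⟨k, rfl⟩ := hj
      rw [hvg, sub_self, norm_zero]
      exact hε
  · rw [sum_gun_rest hg (fun i => m i • v i), sum_gun_rest hg (fun i => m i • u i)]
    have h1 : ∑ j ∈ rest g, m j • v j = ∑ j ∈ rest g, m j • u j := by
      have h2 : ∀ j ∈ rest g, m j • v j = m j • u j + (p * σ j) • e := by
        intro j hj
        have hmj := (hm j).ne'
        rw [hvr j hj, smul_add, smul_smul]
        congr 2
        field_simp
      rw [Finset.sum_congr rfl h2, Finset.sum_add_distrib, ← Finset.sum_smul, ← Finset.mul_sum,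
        hσ0, mul_zero, zero_smul, add_zero]
    rw [h1]
    congr 1
    exact Finset.sum_congr rfl (fun k _ => by rw [hvg k])
  · rw [sum_gun_rest hg (fun i => m i * ‖v i‖ ^ 2), sum_gun_rest hg (fun i => m i * ‖u i‖ ^ 2)]
    have h1 : ∀ j ∈ rest g, m j * ‖v j‖ ^ 2 =
        m j * ‖u j‖ ^ 2 + (2 * p * (σ j * ⟪u j, e⟫) + p ^ 2 * (σ j ^ 2 / m j)) := by
      intro j hj
      have hmj := (hm j).ne'
      rw [hvr j hj, @norm_add_sq_real, inner_smul_right, norm_smul, hen, mul_one,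
        Real.norm_eq_abs, sq_abs]
      field_simp
      ring
    rw [Finset.sum_congr rfl h1, Finset.sum_add_distrib, Finset.sum_add_distrib, ← Finset.mul_sum,
      ← Finset.mul_sum]
    have h2 : ∑ k, m (g k) * ‖v (g k)‖ ^ 2 = ∑ k, m (g k) * ‖u (g k)‖ ^ 2 :=
      Finset.sum_congr rfl (fun k _ => by rw [hvg k])
    have h5 : 0 ≤ 2 * p * ∑ j ∈ rest g, σ j * ⟪u j, e⟫ := mul_nonneg (by linarith) hσx
    have hcardJ : (N : ℝ) - 3 ≤ ((rest g).card : ℝ) := by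
      have h6 : N ≤ (rest g).card + 3 := by
        have h7 : (Finset.univ : Finset (Fin N)) ⊆ rest g ∪ Finset.univ.image g := by
          intro i _
          by_cases hir : i ∈ rest g
          · exact Finset.mem_union_left _ hir
          · apply Finset.mem_union_right
            unfold rest at hir
            rw [Finset.mem_compl, not_not] at hir
            exact hir
        have h8 := (Finset.card_le_card h7).trans (Finset.card_union_le _ _)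
        rw [Finset.card_image_of_injective _ hg] at h8
        simpa using h8
      have h9 : (N : ℝ) ≤ ((rest g).card : ℝ) + 3 := by exact_mod_cast h6
      linarith
    have h6 : p ^ 2 / μ * ((N : ℝ) - 4) ≤ p ^ 2 * ∑ j ∈ rest g, σ j ^ 2 / m j := by
      have h7 : ∑ j ∈ rest g, σ j ^ 2 / μ ≤ ∑ j ∈ rest g, σ j ^ 2 / m j := by
        apply Finset.sum_le_sum
        intro j _
        exact div_le_div_of_nonneg_left (by positivity) (hm j) (hμ j)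
      have h8 : p ^ 2 / μ * ((N : ℝ) - 4) ≤ p ^ 2 / μ * ∑ j ∈ rest g, σ j ^ 2 := by
        apply mul_le_mul_of_nonneg_left _ (by positivity)
        linarith
      rw [← Finset.sum_div] at h7
      calc p ^ 2 / μ * ((N : ℝ) - 4) ≤ p ^ 2 / μ * ∑ j ∈ rest g, σ j ^ 2 := h8
        _ = p ^ 2 * ((∑ j ∈ rest g, σ j ^ 2) / μ) := by ring
        _ ≤ _ := mul_le_mul_of_nonneg_left h7 (by positivity)
    rw [h2]
    linarith

/-- the arithmetic of the energy match, low energies -/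
theorem energy_arith3_low {G₀ U U₁ ε₂ A₂ Ku Kv E c γ μ : ℝ} (hKu : Ku / 2 - E = U)
    (hkick : Ku + 4 * G₀ ≤ Kv) (hcross : 6 * μ / c ≤ G₀) (hU0 : 0 ≤ U) (hU : U ≤ U₁)
    (hε₀ : 0 ≤ ε₂) (hε : ε₂ ≤ 1 / 4) (hεU : 8 * (ε₂ * U₁) ≤ G₀)
    (hA₂ : A₂ ≤ ((1 - ε₂) ^ 2)⁻¹ * (2 * U)) (hγ0 : 0 ≤ γ) (hγ : γ * (U₁ + 1) ≤ 2 * G₀) :
    γ * (U + 1) + 6 * μ / c + A₂ ≤ 2 * (Kv / 2 - E) := by
  have h2 : 2 * (Kv / 2 - E) = (Kv - Ku) + 2 * U := by
    rw [← hKu]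
    ring
  rw [h2]
  have hinv : ((1 - ε₂) ^ 2)⁻¹ ≤ 1 + 4 * ε₂ := by
    have h1 : 0 < (1 - ε₂) ^ 2 := by
      have : 0 < 1 - ε₂ := by linarith
      positivity
    rw [inv_le_iff_one_le_mul₀ h1]
    have h2 : 0 ≤ ε₂ ^ 3 := by positivity
    nlinarith
  have h3 : ((1 - ε₂) ^ 2)⁻¹ * (2 * U) ≤ (1 + 4 * ε₂) * (2 * U) :=
    mul_le_mul_of_nonneg_right hinv (by linarith)
  have h4 : ε₂ * U ≤ ε₂ * U₁ := mul_le_mul_of_nonneg_left hU hε₀
  have h5 : γ * (U + 1) ≤ γ * (U₁ + 1) := mul_le_mul_of_nonneg_left (by linarith) hγ0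
  nlinarith

/-- the arithmetic of the energy match, high energies -/
theorem energy_arith3_high {G₀ U U₁ A₂ Ku Kv E c γ μ : ℝ} (hKu : Ku / 2 - E = U)
    (hkick : Ku + 4 * G₀ ≤ Kv) (hG₀ : 0 ≤ G₀) (hcross : 6 * μ / c ≤ G₀)
    (hU₁ : 1 ≤ U₁) (hU : U₁ ≤ U) (hA₂ : A₂ ≤ U₁) (hγ1 : γ ≤ 1 / 2) :
    γ * (U + 1) + 6 * μ / c + A₂ ≤ 2 * (Kv / 2 - E) := by
  have h2 : 2 * (Kv / 2 - E) = (Kv - Ku) + 2 * U := by
    rw [← hKu]
    ring
  rw [h2]
  have h5 : γ * (U + 1) ≤ 1 / 2 * (U + 1) := mul_le_mul_of_nonneg_right hγ1 (by linarith)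
  linarith

/-- the number of fast bodies -/
theorem card_fast {N : ℕ} {m : Fin N → ℝ} (hm : ∀ i, 0 < m i) {μ₀ K₀ s τ : ℝ} (hμ₀ : 0 < μ₀)
    (hmμ₀ : ∀ i, μ₀ ≤ m i) (hs : 0 < s) (hτ : 0 < τ) (v : Fin N → V3)
    (hv : ∑ i, m i * ‖v i‖ ^ 2 ≤ K₀) :
    ((Finset.univ.filter (fun i : Fin N => s / 8 < ‖v i‖ * τ)).card : ℝ) ≤
      64 * K₀ * τ ^ 2 / (μ₀ * s ^ 2) := by
  classical
  obtain ⟨F, hF⟩ : ∃ F : Finset (Fin N), F = Finset.univ.filter
    (fun i : Fin N => s / 8 < ‖v i‖ * τ) := ⟨_, rfl⟩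
  rw [← hF]
  have h1 : (F.card : ℝ) * (μ₀ * (s / (8 * τ)) ^ 2) ≤ K₀ := by
    have h2 : ∑ i ∈ F, (μ₀ * (s / (8 * τ)) ^ 2) ≤ ∑ i ∈ F, m i * ‖v i‖ ^ 2 := by
      apply Finset.sum_le_sum
      intro i hi
      rw [hF, Finset.mem_filter] at hi
      have h3 : s / (8 * τ) ≤ ‖v i‖ := by
        rw [div_le_iff₀ (by positivity)]
        linarith [hi.2]
      exact mul_le_mul (hmμ₀ i) (pow_le_pow_left₀ (by positivity) h3 2) (by positivity) (hm i).le
    rw [Finset.sum_const, nsmul_eq_mul] at h2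
    refine h2.trans (le_trans ?_ hv)
    exact Finset.sum_le_sum_of_subset_of_nonneg (Finset.subset_univ _) (fun i _ _ => by
      have := hm i
      positivity)
  rw [le_div_iff₀ (by positivity)]
  have h4 : (F.card : ℝ) * (μ₀ * s ^ 2) = (F.card : ℝ) * (μ₀ * (s / (8 * τ)) ^ 2) *
      (64 * τ ^ 2) := by
    field_simp
    norm_num
  rw [h4]
  have h5 := mul_le_mul_of_nonneg_right h1 (show (0:ℝ) ≤ 64 * τ ^ 2 by positivity)
  linarith

/-- The volume condition of `spread_lines` for the spacings `s` (slow bodies) and `s'`. -/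
theorem vol_cond3 {N : ℕ} {v : Fin N → V3} {s s' τ V : ℝ} (hs' : 0 < s') (hss : s' ≤ s)
    (hτ : 0 ≤ τ) (hv : ∀ i, ‖v i‖ ≤ V) (F : Finset (Fin N))
    (hF : ∀ i ∉ F, ‖v i‖ * τ ≤ s / 8) (i : Fin N) :
    ∑ j, (‖v i - v j‖ * τ * (if i ∈ F ∨ j ∈ F then s' else s) ^ 2 +
      3 * (if i ∈ F ∨ j ∈ F then s' else s) ^ 3) ≤
      N * (4 * s ^ 3 + 2 * V * τ * s' ^ 2) := by
  classical
  have hs : 0 < s := hs'.trans_le hss
  have hV : 0 ≤ V := (norm_nonneg _).trans (hv i)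
  have h1 : ∀ j, ‖v i - v j‖ * τ * (if i ∈ F ∨ j ∈ F then s' else s) ^ 2 +
      3 * (if i ∈ F ∨ j ∈ F then s' else s) ^ 3 ≤ 4 * s ^ 3 + 2 * V * τ * s' ^ 2 := by
    intro j
    split_ifs with h
    · have h2 : ‖v i - v j‖ * τ ≤ 2 * V * τ := by
        apply mul_le_mul_of_nonneg_right _ hτ
        have := norm_sub_le (v i) (v j)
        linarith [hv i, hv j]
      have h3 := mul_le_mul_of_nonneg_right h2 (show 0 ≤ s' ^ 2 by positivity)
      have h4 : s' ^ 3 ≤ s ^ 3 := pow_le_pow_left₀ hs'.le hss 3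
      have h5 : 0 ≤ s ^ 3 := by positivity
      linarith
    · rw [not_or] at h
      have h2 : ‖v i - v j‖ * τ ≤ s / 4 := by
        have h3 := norm_sub_le (v i) (v j)
        have h4 := mul_le_mul_of_nonneg_right h3 hτ
        have h5 := hF i h.1
        have h6 := hF j h.2
        nlinarith
      have h3 := mul_le_mul_of_nonneg_right h2 (show 0 ≤ s ^ 2 by positivity)
      have h4 : s / 4 * s ^ 2 = s ^ 3 / 4 := by ring
      have h5 : 0 ≤ s ^ 3 := by positivity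
      have h6 : 0 ≤ 2 * V * τ * s' ^ 2 := by positivity
      linarith
  refine (Finset.sum_le_sum (fun j _ => h1 j)).trans (le_of_eq ?_)
  rw [Finset.sum_const, Finset.card_univ, Fintype.card_fin, nsmul_eq_mul]

/-- the kinetic energy after the kicks -/
theorem kin_after_le {N : ℕ} {m : Fin N → ℝ} (hm : ∀ i, 0 < m i) (hM : ∑ i, m i = 1)
    {u v : Fin N → V3} {ε : ℝ} (h : ∀ i, ‖v i - u i‖ ≤ ε) :
    ∑ i, m i * ‖v i‖ ^ 2 ≤ 2 * ∑ i, m i * ‖u i‖ ^ 2 + 2 * ε ^ 2 := by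
  have h1 : ∀ i, m i * ‖v i‖ ^ 2 ≤ 2 * (m i * ‖u i‖ ^ 2) + m i * (2 * ε ^ 2) := by
    intro i
    have h2 : ‖v i‖ ≤ ‖u i‖ + ε := by
      calc ‖v i‖ = ‖u i + (v i - u i)‖ := by congr 1; abel
        _ ≤ ‖u i‖ + ‖v i - u i‖ := norm_add_le _ _
        _ ≤ _ := by linarith [h i]
    have h3 : ‖v i‖ ^ 2 ≤ 2 * ‖u i‖ ^ 2 + 2 * ε ^ 2 := by
      have h4 : ‖v i‖ ^ 2 ≤ (‖u i‖ + ε) ^ 2 := pow_le_pow_left₀ (norm_nonneg _) h2 2
      nlinarith [sq_nonneg (‖u i‖ - ε)]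
    have h5 := mul_le_mul_of_nonneg_left h3 (hm i).le
    linarith
  refine (Finset.sum_le_sum (fun i _ => h1 i)).trans (le_of_eq ?_)
  rw [Finset.sum_add_distrib, ← Finset.mul_sum, ← Finset.sum_mul, hM, one_mul]

/-- M8, type I-A: prepared states with a gun, no bound on the velocities; all conditions
explicit. -/
theorem prep3A_of (hSL : SpreadLines) {N K : ℕ} {m : Fin N → ℝ} (hm : ∀ i, 0 < m i)
    (hM : ∑ i, m i = 1) {μ₀ μ : ℝ}
    (hμ₀ : 0 < μ₀) (hmμ₀ : ∀ i, μ₀ ≤ m i) (hμ : ∀ i, m i ≤ μ) {sh : Fin 3 → V3} {e : V3}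
    (hs : GunShape sh e) {E R V δ₁ η₀ : ℝ} (hE : E ≤ 0) (hδ₁ : 0 < δ₁) (hδ₁1 : δ₁ ≤ 1)
    (hη₀ : 0 < η₀) (hη₁ : η₀ ≤ 1 / 2) {G₀ u₀ c γ U₁ ε₂ τ s s' : ℝ}
    (hN8 : 8 ≤ N) (hG₀ : G₀ = δ₁ ^ 2 * μ₀ ^ 2 * N / (128 * μ))
    (hu₀ : u₀ = ∑ k, ∑ l, 1 / ‖sh k - sh l‖) (hc : c = δ₁ / 32)
    (hK : R / c + 2 * μ / (η₀ * μ₀) + 1 ≤ K) (hN1 : (2 * (K : ℝ) + 1) ^ 4 * 4 < N)
    (hN3 : 6 * μ / c ≤ G₀) (hU₁ : 8000 / c ≤ U₁) (hε₀ : 0 < ε₂) (hε₁ : ε₂ ≤ 1 / 4)
    (hεU : 8 * (ε₂ * U₁) ≤ G₀) (hγ0 : 0 < γ) (hγ1 : γ ≤ 1 / 2)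
    (hγU : γ * (U₁ + 1) ≤ 2 * G₀) (hN4 : 4 * μ ^ 2 * u₀ / γ ≤ δ₁ / 16)
    (hτ : 0 < τ) (hs' : 0 < s') (hss : s' ≤ s)
    (hvol : N * (4 * s ^ 3 + 2 * (V + 1) * τ * s' ^ 2) ≤ ε₂ ^ 3 * c ^ 3 / 5000)
    {x : Ph N} (hnc : x ∈ NC N) (hcom : ∑ i, m i • x.1 i = 0) (hmom : ∑ i, x.2 i = 0)
    (hen : kin m x.2 - pot m x.1 = E) (hR : ∀ i, ‖x.1 i‖ ≤ R) (hV : ∀ i, ‖x.2 i‖ ≤ m i * V) :
    ∃ (r : ℝ) (F : Finset (Fin N)) (g : Fin 3 → Fin N) (z : V3) (q v : Fin N → V3),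
      m (g 0) ^ 2 * u₀ / (16 * (pot m x.1 + 1)) ≤ r ∧
      r ≤ 4 * m (g 0) ^ 2 * u₀ / (γ * (pot m x.1 + 1)) ∧ r ≤ δ₁ / 16 ∧
      (F.card : ℝ) ≤ 256 * (pot m x.1 + 1) * τ ^ 2 / (μ₀ * s ^ 2) ∧
      Prep3A N (R + 1) c (V + 1) (√(4 * (pot m x.1 + 1) / (μ₀ * N))) τ s s' r sh F g z q v ∧
      (∀ k, |m (g k) / m (g 0) - 1| ≤ η₀) ∧
      ((q, fun i => m i • v i) : Ph N) ∈ NC N ∧ ∑ i, m i • q i = 0 ∧ ∑ i, m i • v i = 0 ∧
      kin m (fun i => m i • v i) - pot m q = E ∧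
      (∀ i, ‖q i - x.1 i‖ ≤ δ₁) ∧ (∀ i, ‖v i - (m i)⁻¹ • x.2 i‖ ≤ δ₁) := by
  classical
  have hNpos : 0 < N := by omega
  have hNr : (0 : ℝ) < N := by exact_mod_cast hNpos
  have hN8r : (8 : ℝ) ≤ N := by exact_mod_cast hN8
  have hμ0 : 0 < μ := (hm ⟨0, hNpos⟩).trans_le (hμ _)
  have hG0 : 0 < G₀ := by rw [hG₀]; positivity
  have hu0 : 0 < u₀ := by
    rw [hu₀]
    exact gun_energy_pos hs
  have hc0 : 0 < c := by rw [hc]; positivity
  have hR0 : 0 ≤ R := (norm_nonneg _).trans (hR ⟨0, hNpos⟩)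
  -- velocities
  obtain ⟨u, hu⟩ : ∃ u : Fin N → V3, u = fun i => (m i)⁻¹ • x.2 i := ⟨_, rfl⟩
  have hui : ∀ i, u i = (m i)⁻¹ • x.2 i := fun i => by rw [hu]
  have hmu : ∀ i, m i • u i = x.2 i := by
    intro i
    rw [hui, smul_smul, mul_inv_cancel₀ (hm i).ne', one_smul]
  have hxu : x.2 = fun i => m i • u i := by
    funext i
    rw [hmu]
  have huV : ∀ i, ‖u i‖ ≤ V := by
    intro i
    rw [hui, norm_smul, norm_inv, Real.norm_of_nonneg (hm i).le, inv_mul_le_iff₀ (hm i)]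
    exact hV i
  have husum : ∑ i, m i • u i = 0 := by
    simp only [hmu]
    exact hmom
  have hV0 : 0 ≤ V := (norm_nonneg _).trans (huV ⟨0, hNpos⟩)
  -- energies of x
  obtain ⟨U, hU⟩ : ∃ U : ℝ, U = pot m x.1 := ⟨_, rfl⟩
  obtain ⟨Ku, hKu⟩ : ∃ Ku : ℝ, Ku = ∑ i, m i * ‖u i‖ ^ 2 := ⟨_, rfl⟩
  have hU0 : 0 ≤ U := by
    rw [hU, pot_eq_invdM]
    have := invdM_nonneg hm x.1
    positivity
  have hKu0 : 0 ≤ Ku := by
    rw [hKu]
    exact Finset.sum_nonneg (fun i _ => by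
      have := hm i
      positivity)
  have hen' : Ku / 2 - E = U := by
    rw [hxu, kin_eqM hm, ← hKu, ← hU] at hen
    linarith
  have hA : invdM m x.1 = 2 * U := by
    rw [hU, pot_eq_invdM]
    ring
  -- the gun
  obtain ⟨H, hH⟩ : ∃ H : Finset (Fin N), H = Finset.univ.filter (fun i : Fin N => ‖u i‖ ^ 2 ≤
      4 * (U + 1) / (μ₀ * N)) := ⟨_, rfl⟩
  have hHcard : (N : ℝ) / 2 ≤ (H.card : ℝ) := by
    rw [hH]
    exact card_slow hm hμ₀ hmμ₀ (by linarith) u (by rw [← hKu]; linarith)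
  obtain ⟨g, hg, hgH, hgq, hgratio⟩ := exists_gun3 hm hμ₀ hmμ₀ hμ x.1 H hHcard hc0 hη₀ hR hK hN1
  have hcd : 2 * c = δ₁ / 16 := by rw [hc]; ring
  rw [hcd] at hgq
  obtain ⟨v, hvg, hvu, hvsum, hvkin⟩ := exists_kick3 hg hm hμ u (ε := δ₁ / 4)
    (p := μ₀ * (δ₁ / 4)) (by positivity)
    (fun i => mul_le_mul_of_nonneg_right (hmμ₀ i) (by positivity))
  have hgv : ∀ k, ‖v (g k)‖ ≤ √(4 * (U + 1) / (μ₀ * N)) := by
    intro k
    have h1 := hgH k
    rw [hH, Finset.mem_filter] at h1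
    rw [hvg]
    exact Real.le_sqrt_of_sq_le h1.2
  -- opening of the layer
  obtain ⟨z₀, hz₀⟩ : ∃ z₀ : V3, z₀ = x.1 (g 0) := ⟨_, rfl⟩
  obtain ⟨q₁, hq₁⟩ : ∃ q₁ : Fin N → V3, q₁ = fun j => openLayer (z₀ 2) (δ₁ / 16) (x.1 j) :=
    ⟨_, rfl⟩
  have hρ : (0:ℝ) ≤ δ₁ / 16 := by positivity
  have hq₁d : ∀ i j, ‖x.1 i - x.1 j‖ ≤ ‖q₁ i - q₁ j‖ := by
    intro i j
    rw [hq₁]
    exact dist_le_openLayer hρ _ _
  have hq₁x : ∀ i, ‖q₁ i - x.1 i‖ ≤ δ₁ / 16 := by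
    intro i
    rw [hq₁]
    exact openLayer_sub_self hρ _
  have hq₁h : ∀ i, δ₁ / 16 ≤ |q₁ i 2 - z₀ 2| := by
    intro i
    rw [hq₁]
    exact openLayer_height hρ _
  have hq₁R : ∀ i, ‖q₁ i‖ ≤ R + 1 := by
    intro i
    have h1 := hq₁x i
    have h2 := hR i
    calc ‖q₁ i‖ = ‖(q₁ i - x.1 i) + x.1 i‖ := by congr 1; abel
      _ ≤ ‖q₁ i - x.1 i‖ + ‖x.1 i‖ := norm_add_le _ _
      _ ≤ R + 1 := by linarith
  have hxpos : ∀ i j, i ≠ j → 0 < ‖x.1 i - x.1 j‖ := fun i j hij =>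
    norm_pos_iff.mpr (sub_ne_zero.mpr (hnc i j hij))
  have hq₁ne : ∀ i j, i ≠ j → q₁ i ≠ q₁ j := by
    intro i j hij h
    have h1 := (hxpos i j hij).trans_le (hq₁d i j)
    rw [h, sub_self, norm_zero] at h1
    exact lt_irrefl _ h1
  -- spreading
  have hrm : ∀ i, 0 ≤ restMass g m i := by
    intro i
    unfold restMass
    split_ifs
    · exact (hm i).le
    · exact le_rfl
  have hrm' : ∀ i, restMass g m i ≤ m i := by
    intro i
    unfold restMass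
    split_ifs
    · exact le_rfl
    · exact (hm i).le
  -- energies
  obtain ⟨Kv, hKv⟩ : ∃ Kv : ℝ, Kv = ∑ i, m i * ‖v i‖ ^ 2 := ⟨_, rfl⟩
  rw [← hKu, ← hKv] at hvkin
  have hKv2 := kin_after_le hm hM hvu
  rw [← hKu, ← hKv] at hKv2
  have hδ16 : (δ₁ / 4) ^ 2 ≤ 1 / 16 := by nlinarith
  have hKv4 : Kv ≤ 4 * (U + 1) := by linarith
  have hkick : Ku + 4 * G₀ ≤ Kv := by
    refine le_trans ?_ hvkin
    have h1 : 4 * G₀ = (μ₀ * (δ₁ / 4)) ^ 2 / μ * (N / 2) := by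
      rw [hG₀]
      field_simp
      norm_num
    have h2 : (μ₀ * (δ₁ / 4)) ^ 2 / μ * (N / 2) ≤ (μ₀ * (δ₁ / 4)) ^ 2 / μ * (N - 4) :=
      mul_le_mul_of_nonneg_left (by linarith) (by positivity)
    linarith
  -- the fast bodies
  have hvV : ∀ i, ‖v i‖ ≤ V + 1 := by
    intro i
    have h1 := hvu i
    have h2 := huV i
    have h5 : ‖v i‖ ≤ ‖v i - u i‖ + ‖u i‖ := by
      calc ‖v i‖ = ‖(v i - u i) + u i‖ := by congr 1; abel
        _ ≤ _ := norm_add_le _ _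
    linarith
  obtain ⟨F, hF⟩ : ∃ F : Finset (Fin N), F = Finset.univ.filter
    (fun i : Fin N => s / 8 < ‖v i‖ * τ) := ⟨_, rfl⟩
  have hs0 : 0 < s := hs'.trans_le hss
  have hFcard : (F.card : ℝ) ≤ 256 * (U + 1) * τ ^ 2 / (μ₀ * s ^ 2) := by
    rw [hF]
    refine (card_fast hm hμ₀ hmμ₀ hs0 hτ v (K₀ := 4 * (U + 1)) (by rw [← hKv]; exact hKv4)).trans
      (le_of_eq ?_)
    ring
  have hFslow : ∀ i ∉ F, ‖v i‖ * τ ≤ s / 8 := by
    intro i hi
    rw [hF, Finset.mem_filter, not_and, not_lt] at hi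
    exact hi (Finset.mem_univ _)
  obtain ⟨σ, hσ⟩ : ∃ σ : Fin N → Fin N → ℝ, σ = fun i j => if i ∈ F ∨ j ∈ F then s' else s :=
    ⟨_, rfl⟩
  have hσ0 : ∀ i j, 0 < σ i j := by
    intro i j
    rw [hσ]
    simp only
    split_ifs
    · exact hs'
    · exact hs0
  have hσ' : ∀ i j, s' ≤ σ i j := by
    intro i j
    rw [hσ]
    simp only
    split_ifs
    · exact le_rfl
    · exact hss
  have hσs : ∀ i j, i ∉ F → j ∉ F → s = σ i j := by
    intro i j hi hj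
    rw [hσ]
    simp only
    rw [if_neg]
    rintro (h | h)
    · exact hi h
    · exact hj h
  have hσsymm : ∀ i j, σ i j = σ j i := by
    intro i j
    rw [hσ]
    simp only [or_comm]
  have hσvol : ∀ ε : ℝ, ε₂ ≤ ε → ∀ i, ∑ j, (‖v i - v j‖ * τ * σ i j ^ 2 + 3 * σ i j ^ 3) ≤
      ε ^ 3 * c ^ 3 / 5000 := by
    intro ε hε i
    rw [hσ]
    refine (vol_cond3 hs' hss hτ.le hvV F hFslow i).trans (hvol.trans ?_)
    have h1 : ε₂ ^ 3 ≤ ε ^ 3 := pow_le_pow_left₀ hε₀.le hε 3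
    have h2 : 0 ≤ c ^ 3 := by positivity
    have h3 := mul_le_mul_of_nonneg_right h1 h2
    linarith
  have hc1 : c ≤ 1 / 32 := by rw [hc]; linarith
  have hU₁1 : 1 ≤ U₁ := by
    refine le_trans ?_ hU₁
    rw [le_div_iff₀ hc0]
    linarith
  obtain ⟨q₂, hq₂d, hq₂s, harith⟩ : ∃ q₂ : Fin N → V3, (∀ i, ‖q₂ i - q₁ i‖ ≤ c) ∧
      (∀ i j, i ≠ j → ∀ t ∈ Icc (0 : ℝ) τ, σ i j ≤ ‖(q₂ i + t • v i) - (q₂ j + t • v j)‖) ∧
      γ * (U + 1) + 6 * μ / c + ∑ i ∈ rest g, ∑ j ∈ rest g, m i * m j / ‖q₂ i - q₂ j‖ ≤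
        2 * (Kv / 2 - E) := by
    rcases le_or_gt U U₁ with hUU | hUU
    · obtain ⟨⟨q₂, h1, h2, h3⟩, -⟩ := hSL (restMass g m) hrm q₁ v hq₁ne c ε₂ τ hc0 hε₀
        (by linarith) hτ.le σ hσ0 hσsymm (hσvol ε₂ le_rfl)
      refine ⟨q₂, h1, fun i j hij t ht => (h2 i j hij t ht).le, ?_⟩
      apply energy_arith3_low hen' hkick hN3 hU0 hUU hε₀.le hε₁ hεU ?_ hγ0.le hγU
      have h4 : ∑ i ∈ rest g, ∑ j ∈ rest g, m i * m j / ‖q₂ i - q₂ j‖ ≤
          ((1 - ε₂) ^ 2)⁻¹ * ∑ i ∈ rest g, ∑ j ∈ rest g, m i * m j / ‖q₁ i - q₁ j‖ := by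
        rw [← invdM_restMass hg, ← invdM_restMass hg]
        exact h3
      refine h4.trans ?_
      rw [← hA]
      apply mul_le_mul_of_nonneg_left _ (by positivity)
      refine le_trans ?_ (invdM_rest_le hg hm x.1)
      apply Finset.sum_le_sum
      intro i _
      apply Finset.sum_le_sum
      intro j _
      by_cases hij : i = j
      · subst hij
        simp
      · exact div_le_div_of_nonneg_left (mul_nonneg (hm i).le (hm j).le) (hxpos i j hij)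
          (hq₁d i j)
    · obtain ⟨-, ⟨q₂, h1, h2, h3⟩⟩ := hSL (restMass g m) hrm q₁ v hq₁ne c (1 / 2) τ hc0
        (by norm_num) le_rfl hτ.le σ hσ0 hσsymm (hσvol (1 / 2) (by linarith))
      refine ⟨q₂, h1, fun i j hij t ht => (h2 i j hij t ht).le, ?_⟩
      apply energy_arith3_high hen' hkick hG0.le hN3 hU₁1 hUU.le ?_ hγ1
      have h4 : ∑ i ∈ rest g, ∑ j ∈ rest g, m i * m j / ‖q₂ i - q₂ j‖ ≤
          4000 / (c * (1 / 2)) * (∑ i, restMass g m i) ^ 2 := by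
        rw [← invdM_restMass hg]
        exact h3
      refine h4.trans (le_trans ?_ hU₁)
      have h5 : 4000 / (c * (1 / 2)) = 8000 / c := by
        field_simp
        norm_num
      rw [h5]
      have h6 : ∑ i, restMass g m i ≤ 1 := by
        rw [← hM]
        exact Finset.sum_le_sum (fun i _ => hrm' i)
      have h7 : 0 ≤ ∑ i, restMass g m i := Finset.sum_nonneg (fun i _ => hrm i)
      have h8 : (∑ i, restMass g m i) ^ 2 ≤ 1 := by nlinarith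
      exact mul_le_of_le_one_right (by positivity) h8
  have hq₂x : ∀ i, ‖q₂ i - x.1 i‖ ≤ 3 * δ₁ / 32 := by
    intro i
    have h1 := hq₂d i
    have h2 := hq₁x i
    calc ‖q₂ i - x.1 i‖ = ‖(q₂ i - q₁ i) + (q₁ i - x.1 i)‖ := by congr 1; abel
      _ ≤ ‖q₂ i - q₁ i‖ + ‖q₁ i - x.1 i‖ := norm_add_le _ _
      _ ≤ c + δ₁ / 16 := add_le_add h1 h2
      _ = 3 * δ₁ / 32 := by rw [hc]; ring
  have hlay : ∀ j ∈ rest g, c ≤ |q₂ j 2 - z₀ 2| := by
    intro j _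
    have h1 := hq₁h j
    have h2 : |q₂ j 2 - q₁ j 2| ≤ c := by
      have h3 := abs_coord_le (q₂ j - q₁ j) 2
      rw [PiLp.sub_apply] at h3
      exact h3.trans (hq₂d j)
    have h4 : |q₁ j 2 - z₀ 2| ≤ |q₂ j 2 - z₀ 2| + |q₂ j 2 - q₁ j 2| := by
      have h5 : q₁ j 2 - z₀ 2 = (q₂ j 2 - z₀ 2) - (q₂ j 2 - q₁ j 2) := by ring
      rw [h5]
      exact abs_sub _ _
    have h6 : δ₁ / 16 = 2 * c := by rw [hc]; ring
    linarith
  obtain ⟨hum1, hum2⟩ := gun_energy_boundsM hm hη₁ hgratio sh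
  obtain ⟨um, hum⟩ : ∃ um : ℝ, um = ∑ k, ∑ l, m (g k) * m (g l) / ‖sh k - sh l‖ := ⟨_, rfl⟩
  rw [← hum, ← hu₀] at hum1 hum2
  have hm00 := hm (g 0)
  have hum0 : 0 < um := lt_of_lt_of_le (by positivity) hum1
  have hU1 : 0 < U + 1 := by linarith
  have hYle : 2 * (Kv / 2 - E) ≤ 4 * (U + 1) := by
    linarith
  obtain ⟨r, hr1, hr2, hrY⟩ := exists_sizeM hg hm hM hμ hs.flat z₀ q₂ hc0 hlay
    (Y := 2 * (Kv / 2 - E)) (r₁ := um / (4 * (U + 1))) (r₂ := um / (γ * (U + 1)))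
    (by positivity) (by
      apply div_le_div_of_nonneg_left hum0.le (by positivity)
      exact mul_le_mul_of_nonneg_right (by linarith) hU1.le) (by
      rw [← hum]
      have h1 : um / (um / (4 * (U + 1))) = 4 * (U + 1) := by
        field_simp
      rw [h1]
      exact hYle) (by
      rw [← hum]
      have h1 : um / (um / (γ * (U + 1))) = γ * (U + 1) := by
        field_simp
      rw [h1]
      exact harith)
  have hr0 : 0 < r := lt_of_lt_of_le (by positivity) hr1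
  have hrb1 : m (g 0) ^ 2 * u₀ / (16 * (U + 1)) ≤ r := by
    refine le_trans ?_ hr1
    have h1 : m (g 0) ^ 2 * u₀ / (16 * (U + 1)) = (m (g 0) ^ 2 * u₀ / 4) / (4 * (U + 1)) := by
      field_simp
      norm_num
    rw [h1]
    exact div_le_div_of_nonneg_right hum1 (by positivity)
  have hrb2 : r ≤ 4 * m (g 0) ^ 2 * u₀ / (γ * (U + 1)) :=
    hr2.trans (div_le_div_of_nonneg_right hum2 (by positivity))
  have hrδ : r ≤ δ₁ / 16 := by
    refine hrb2.trans (le_trans ?_ hN4)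
    have h1 : m (g 0) ^ 2 ≤ μ ^ 2 := pow_le_pow_left₀ hm00.le (hμ _) 2
    have h2 := mul_le_mul_of_nonneg_right h1 hu0.le
    have h3 : 4 * m (g 0) ^ 2 * u₀ / (γ * (U + 1)) ≤ 4 * m (g 0) ^ 2 * u₀ / γ :=
      div_le_div_of_nonneg_left (by positivity) hγ0 (le_mul_of_one_le_right hγ0.le (by linarith))
    refine h3.trans (div_le_div_of_nonneg_right ?_ hγ0.le)
    linarith
  -- positions
  obtain ⟨Q, hQ⟩ : ∃ Q : Fin N → V3, Q = gunPos g sh z₀ q₂ r := ⟨_, rfl⟩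
  have hQg : ∀ k, Q (g k) = z₀ + r • sh k := fun k => by rw [hQ]; exact gunPos_gun hg sh z₀ q₂ r k
  have hQr : ∀ j ∈ rest g, Q j = q₂ j := fun j hj => by rw [hQ]; exact gunPos_rest sh z₀ q₂ r hj
  rw [← hQ] at hrY
  have hQx : ∀ i, ‖Q i - x.1 i‖ ≤ δ₁ / 8 := by
    intro i
    by_cases hi : i ∈ rest g
    · rw [hQr i hi]
      exact (hq₂x i).trans (by linarith)
    · rw [mem_rest, not_not] at hi
      obtain ⟨k, rfl⟩ := hi
      rw [hQg, hz₀]
      calc ‖x.1 (g 0) + r • sh k - x.1 (g k)‖ = ‖(x.1 (g 0) - x.1 (g k)) + r • sh k‖ := by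
            congr 1; abel
        _ ≤ ‖x.1 (g 0) - x.1 (g k)‖ + ‖r • sh k‖ := norm_add_le _ _
        _ ≤ δ₁ / 16 + δ₁ / 16 := by
          apply add_le_add (hgq 0 k)
          rw [norm_smul, Real.norm_of_nonneg hr0.le]
          have := hs.le k
          nlinarith
        _ = δ₁ / 8 := by ring
  obtain ⟨m₀, hm₀⟩ : ∃ m₀ : V3, m₀ = ∑ i, m i • Q i := ⟨_, rfl⟩
  have hm₀n : ‖m₀‖ ≤ δ₁ / 8 := by
    have h1 : m₀ = ∑ i, m i • (Q i - x.1 i) := by
      simp only [smul_sub]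
      rw [hm₀, Finset.sum_sub_distrib, hcom, sub_zero]
    rw [h1]
    have h2 : ‖∑ i, m i • (Q i - x.1 i)‖ ≤ ∑ i, m i * (δ₁ / 8) := by
      refine (norm_sum_le _ _).trans (Finset.sum_le_sum (fun i _ => ?_))
      rw [norm_smul, Real.norm_of_nonneg (hm i).le]
      exact mul_le_mul_of_nonneg_left (hQx i) (hm i).le
    rw [← Finset.sum_mul, hM, one_mul] at h2
    exact h2
  have hqsub : ∀ i j, (Q i - m₀) - (Q j - m₀) = Q i - Q j := fun i j => by abel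
  have hqx : ∀ i, ‖Q i - m₀ - x.1 i‖ ≤ δ₁ / 4 := by
    intro i
    calc ‖Q i - m₀ - x.1 i‖ = ‖(Q i - x.1 i) - m₀‖ := by congr 1; abel
      _ ≤ ‖Q i - x.1 i‖ + ‖m₀‖ := norm_sub_le _ _
      _ ≤ δ₁ / 8 + δ₁ / 8 := add_le_add (hQx i) hm₀n
      _ = δ₁ / 4 := by ring
  refine ⟨r, F, g, z₀ - m₀, fun i => Q i - m₀, v, by rw [← hU]; exact hrb1,
    by rw [← hU]; exact hrb2, hrδ, by rw [← hU]; exact hFcard, ?_, hgratio, ?_, ?_, ?_, ?_, ?_, ?_⟩
  · -- Prep3A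
    have hlines : ∀ i j, i ∉ Set.range g → j ∉ Set.range g → i ≠ j → ∀ t ∈ Icc (0 : ℝ) τ,
        σ i j ≤ ‖((Q i - m₀) + t • v i) - ((Q j - m₀) + t • v j)‖ := by
      intro i j hi hj hij t ht
      have h1 := hq₂s i j hij t ht
      rw [← hQr i (mem_rest.mpr hi), ← hQr j (mem_rest.mpr hj)] at h1
      refine h1.trans (le_of_eq ?_)
      congr 1
      abel
    refine ⟨hg, ?_, hvV, ?_, by rw [← hU]; exact hgv, ?_, ?_, ?_⟩
    · intro i
      have h1 := hqx i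
      have h2 := hR i
      have h5 : ‖Q i - m₀‖ ≤ ‖Q i - m₀ - x.1 i‖ + ‖x.1 i‖ := by
        calc ‖Q i - m₀‖ = ‖(Q i - m₀ - x.1 i) + x.1 i‖ := by congr 1; abel
          _ ≤ _ := norm_add_le _ _
      linarith
    · intro k
      rw [hQg]; abel
    · intro i j hi hj hij t ht
      exact (hσ' i j).trans (hlines i j hi hj hij t ht)
    · intro i j hi hj hiF hjF hij t ht
      rw [hσs i j hiF hjF]
      exact hlines i j hi hj hij t ht
    · intro j hj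
      simp only
      rw [PiLp.sub_apply, PiLp.sub_apply, sub_sub_sub_cancel_right, hQr j (mem_rest.mpr hj)]
      exact hlay j (mem_rest.mpr hj)
  · -- no collisions
    intro i j hij h
    have hQij : Q i = Q j := by
      have h1 : (Q i - m₀) = (Q j - m₀) := h
      exact sub_left_injective h1
    have hmix : ∀ k : Fin 3, ∀ j ∈ rest g, Q (g k) ≠ Q j := by
      intro k j hj h1
      rw [hQg, hQr j hj] at h1
      have h2 := hlay j hj
      rw [← h1] at h2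
      have h3 : (z₀ + r • sh k) 2 - z₀ 2 = 0 := by
        simp [hs.flat k]
      rw [h3, abs_zero] at h2
      linarith
    by_cases hi : i ∈ rest g
    · by_cases hj : j ∈ rest g
      · rw [hQr i hi, hQr j hj] at hQij
        have h1 := hq₂s i j hij 0 ⟨le_rfl, hτ.le⟩
        rw [zero_smul, zero_smul, add_zero, add_zero, hQij, sub_self, norm_zero] at h1
        have h2 := hσ0 i j
        linarith
      · rw [mem_rest, not_not] at hj
        obtain ⟨l, rfl⟩ := hj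
        exact hmix l i hi hQij.symm
    · rw [mem_rest, not_not] at hi
      obtain ⟨k, rfl⟩ := hi
      by_cases hj : j ∈ rest g
      · exact hmix k j hj hQij
      · rw [mem_rest, not_not] at hj
        obtain ⟨l, rfl⟩ := hj
        rw [hQg, hQg] at hQij
        have h1 : r • sh k = r • sh l := add_left_cancel hQij
        have h2 : sh k = sh l := smul_right_injective V3 hr0.ne' h1
        have hkl : k ≠ l := fun h => hij (by rw [h])
        exact hs.ne k l hkl h2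
  · -- centre of mass
    simp only [smul_sub]
    rw [Finset.sum_sub_distrib, ← Finset.sum_smul, hM, one_smul, hm₀, sub_self]
  · rw [hvsum, husum]
  · -- energy
    rw [kin_eqM hm, pot_eq_invdM, ← hKv]
    have h1 : invdM m (fun i => Q i - m₀) = invdM m Q := by
      unfold invdM
      apply Finset.sum_congr rfl
      intro i _
      apply Finset.sum_congr rfl
      intro j _
      rw [hqsub]
    rw [h1, hrY]
    ring
  · intro i
    exact (hqx i).trans (by linarith)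
  · intro i
    rw [← hui]
    exact (hvu i).trans (by linarith)

end Pool.Agent.NBody
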