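import Mathlib
import Pool.Agent.NBody.ThDefsM
import Pool.Agent.NBody.ThSpread

/-!
Spreading of points with forbidden sets for the differences (third version of the theorem on
many bodies).
-/

set_option autoImplicit false
open scoped RealInnerProductSpace ENNReal
open Set Finset Filter Topology Real MeasureTheory

namespace Pool.Agent.NBody

/-- The mean of `1 / ‖x - a‖` with respect to the Gaussian is at most `164 √b`. -/
theorem gauss_crude {b : ℝ} (hb : 0 < b) (a : V3) :
    ∫⁻ x : V3, ENNReal.ofReal (Real.exp (-b * ‖x‖ ^ 2) * (1 / ‖x - a‖)) ≤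
      ENNReal.ofReal (gc b * (164 * √b)) := by
  have hg := gc_pos hb
  have hsb : 0 < √b := Real.sqrt_pos.mpr hb
  have hsb2 : √b ^ 2 = b := Real.sq_sqrt hb.le
  rcases le_or_gt (1 / √b) ‖a‖ with h | h
  · have ha : a ≠ 0 := by
      rintro rfl
      rw [norm_zero] at h
      have : 0 < 1 / √b := by positivity
      linarith
    refine (gauss_mean hb a ha).trans ?_
    apply ENNReal.ofReal_le_ofReal
    apply mul_le_mul_of_nonneg_left _ hg.le
    have h1 : 1 / ‖a‖ ≤ 1 / (1 / √b) := one_div_le_one_div_of_le (by positivity) h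
    rw [one_div_one_div] at h1
    linarith
  · obtain ⟨e, he⟩ : ∃ e : V3, e = EuclideanSpace.single 0 (2 / √b) := ⟨_, rfl⟩
    have hen : ‖e‖ = 2 / √b := by
      rw [he, EuclideanSpace.norm_single, Real.norm_of_nonneg (by positivity)]
    have hae : 1 / √b ≤ ‖a - e‖ := by
      have h1 : ‖e‖ ≤ ‖a - e‖ + ‖a‖ := by
        have : e = a - (a - e) := by abel
        conv_lhs => rw [this]
        exact (norm_sub_le _ _).trans (le_of_eq (add_comm _ _))
      rw [hen] at h1
      have : 2 / √b = 1 / √b + 1 / √b := by ring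
      linarith
    have hae0 : a - e ≠ 0 := by
      rw [← norm_pos_iff]
      exact lt_of_lt_of_le (by positivity) hae
    have hpt : ∀ x : V3, ENNReal.ofReal (Real.exp (-b * ‖x‖ ^ 2) * (1 / ‖x - a‖)) ≤
        ENNReal.ofReal (Real.exp 4) *
          ENNReal.ofReal (Real.exp (-(b / 2) * ‖x - e‖ ^ 2) * (1 / ‖(x - e) - (a - e)‖)) := by
      intro x
      rw [← ENNReal.ofReal_mul (Real.exp_pos _).le, sub_sub_sub_cancel_right, ← mul_assoc,
        ← Real.exp_add]
      apply ENNReal.ofReal_le_ofReal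
      apply mul_le_mul_of_nonneg_right _ (by positivity)
      apply Real.exp_le_exp.mpr
      have h1 : ‖x - e‖ ^ 2 ≤ 2 * ‖x‖ ^ 2 + 2 * ‖e‖ ^ 2 := by
        have h2 := norm_sub_le x e
        have h3 : ‖x - e‖ ^ 2 ≤ (‖x‖ + ‖e‖) ^ 2 := pow_le_pow_left₀ (norm_nonneg _) h2 2
        nlinarith [sq_nonneg (‖x‖ - ‖e‖)]
      have h2 : b * ‖e‖ ^ 2 = 4 := by
        rw [hen, div_pow, hsb2]
        field_simp
        norm_num
      nlinarith
    refine (lintegral_mono hpt).trans ?_
    rw [lintegral_const_mul _ (by fun_prop)]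
    have htr : ∫⁻ x : V3, ENNReal.ofReal (Real.exp (-(b / 2) * ‖x - e‖ ^ 2) *
        (1 / ‖(x - e) - (a - e)‖)) = ∫⁻ x : V3, ENNReal.ofReal (Real.exp (-(b / 2) * ‖x‖ ^ 2) *
        (1 / ‖x - (a - e)‖)) :=
      lintegral_sub_right_eq_self (fun x : V3 => ENNReal.ofReal
        (Real.exp (-(b / 2) * ‖x‖ ^ 2) * (1 / ‖x - (a - e)‖))) e
    rw [htr]
    refine (mul_le_mul_right (gauss_mean (half_pos hb) (a - e) hae0) _).trans ?_
    rw [← ENNReal.ofReal_mul (Real.exp_pos _).le]
    apply ENNReal.ofReal_le_ofReal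
    have h2 : gc (b / 2) ≤ 3 * gc b := by
      unfold gc
      have h3 : π / (b / 2) = 2 * (π / b) := by field_simp
      have h4 : 0 < π / b := div_pos Real.pi_pos hb
      rw [h3, Real.sqrt_mul (by norm_num)]
      have h5 : √2 ≤ 3 / 2 := by
        rw [Real.sqrt_le_left (by norm_num)]; norm_num
      have h6 : 0 ≤ π / b * √(π / b) := by positivity
      nlinarith
    have h3 : 1 / ‖a - e‖ ≤ √b := by
      have := one_div_le_one_div_of_le (by positivity) hae
      rwa [one_div_one_div] at this
    have h4 : Real.exp 4 ≤ 164 / 3 := by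
      have h5 := Real.exp_one_lt_d9
      have h6 : Real.exp 4 = Real.exp 1 ^ 4 := by
        rw [← Real.exp_nat_mul]
        norm_num
      rw [h6]
      have h7 : Real.exp 1 ^ 4 ≤ 2.7182818286 ^ 4 :=
        pow_le_pow_left₀ (Real.exp_pos _).le h5.le 4
      refine h7.trans ?_
      norm_num
    have h5 : gc (b / 2) * (1 / ‖a - e‖) ≤ 3 * gc b * √b :=
      mul_le_mul h2 h3 (by positivity) (by positivity)
    calc Real.exp 4 * (gc (b / 2) * (1 / ‖a - e‖)) ≤ 164 / 3 * (3 * gc b * √b) :=
          mul_le_mul h4 h5 (mul_nonneg (gc_pos (half_pos hb)).le (by positivity)) (by norm_num)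
      _ = gc b * (164 * √b) := by ring

/-- One displacement, crude bound of the potential. -/
theorem exists_move_crude {b : ℝ} (hb : 0 < b) {ε : ℝ} (hε : 0 ≤ ε) (hε1 : ε < 1)
    {ι : Type*} (s : Finset ι) (w : ι → ℝ) (hw : ∀ i ∈ s, 0 ≤ w i)
    (a : ι → V3) (q : V3) (B : Set V3) (hB : MeasurableSet B)
    (hBm : gm b {x | q + x ∈ B} ≤ ENNReal.ofReal (ε * gc b)) :
    ∃ z ∉ B, ∑ i ∈ s, w i / ‖z - a i‖ ≤ (1 - ε)⁻¹ * (164 * √b * ∑ i ∈ s, w i) := by
  have hg := gc_pos hb
  have hmeas : Measurable fun x : V3 => ∑ i ∈ s, w i / ‖q + x - a i‖ := by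
    fun_prop
  have hws : 0 ≤ ∑ i ∈ s, w i := Finset.sum_nonneg hw
  have hc : 0 ≤ 164 * √b * ∑ i ∈ s, w i := by positivity
  have hfi : ∫⁻ x, ENNReal.ofReal (∑ i ∈ s, w i / ‖q + x - a i‖) ∂(gm b) ≤
      ENNReal.ofReal (gc b * (164 * √b * ∑ i ∈ s, w i)) := by
    rw [gm, lintegral_withDensity_eq_lintegral_mul _ (by fun_prop) (by fun_prop)]
    have h1 : ∀ x : V3,
        ENNReal.ofReal (Real.exp (-b * ‖x‖ ^ 2)) *
          ENNReal.ofReal (∑ i ∈ s, w i / ‖q + x - a i‖) =
        ∑ i ∈ s, ENNReal.ofReal (w i) *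
          ENNReal.ofReal (Real.exp (-b * ‖x‖ ^ 2) * (1 / ‖x - (a i - q)‖)) := by
      intro x
      rw [ENNReal.ofReal_sum_of_nonneg
        (fun i hi => div_nonneg (hw i hi) (norm_nonneg _)), Finset.mul_sum]
      refine Finset.sum_congr rfl fun i hi => ?_
      rw [← ENNReal.ofReal_mul (Real.exp_pos _).le, ← ENNReal.ofReal_mul (hw i hi)]
      congr 1
      have : q + x - a i = x - (a i - q) := by abel
      rw [this]
      ring
    simp only [Pi.mul_apply]
    simp_rw [h1]
    rw [lintegral_finset_sum _ (fun i _ => by fun_prop)]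
    have h2 : ∀ i ∈ s, ∫⁻ x : V3, ENNReal.ofReal (w i) *
          ENNReal.ofReal (Real.exp (-b * ‖x‖ ^ 2) * (1 / ‖x - (a i - q)‖)) ≤
        ENNReal.ofReal (gc b * (164 * √b * w i)) := by
      intro i hi
      rw [lintegral_const_mul _ (by fun_prop)]
      refine (mul_le_mul_right (gauss_crude hb (a i - q)) _).trans ?_
      rw [← ENNReal.ofReal_mul (hw i hi)]
      apply ENNReal.ofReal_le_ofReal
      apply le_of_eq
      ring
    refine (Finset.sum_le_sum h2).trans ?_
    rw [← ENNReal.ofReal_sum_of_nonneg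
      (fun i hi => mul_nonneg hg.le (mul_nonneg (by positivity) (hw i hi))),
      ← Finset.mul_sum, ← Finset.mul_sum]
  have hB' : MeasurableSet {x : V3 | q + x ∈ B} := measurable_const_add q hB
  obtain ⟨x, hx, hfx⟩ := exists_good hb hε hε1 hc _ hmeas hfi _ hB' hBm
  exact ⟨q + x, hx, hfx⟩

/-- Sequential placing of points with forbidden sets for the points and for the differences. -/
theorem seq_place {n : ℕ} {b ε ε₁ ε₂ d s₀ : ℝ} (hb : 0 < b) (hd : 0 ≤ d) (hs₀ : 0 < s₀)
    (hε₁ : 0 ≤ ε₁) (hε₂ : 0 ≤ ε₂) (q : Fin n → V3) (hq : ∀ i j, i ≠ j → q i ≠ q j)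
    (F : Fin n → Set V3) (hF : ∀ i, MeasurableSet (F i))
    (hFm : ∀ i, gm b {x | q i + x ∈ F i} ≤ ENNReal.ofReal (ε₁ * gc b))
    (T : Fin n → Fin n → Set V3) (hT : ∀ i j, MeasurableSet (T i j))
    (hTs : ∀ i j x, x ∈ T i j → -x ∈ T j i) (hT0 : ∀ i j x, i ≠ j → ‖x‖ ≤ s₀ → x ∈ T i j)
    (hTm : ∀ k, ∀ p : Fin n → V3, gm b ({x | ‖x‖ ≤ d} ∩
      ⋃ j ∈ Finset.univ.erase k, {x | q k + x - p j ∈ T k j}) ≤ ENNReal.ofReal (ε₂ * gc b))
    (hε : 3 * Real.exp (-b * d ^ 2 / 2) + ε₂ + ε₁ ≤ ε)
    (Good : Finset (Fin n) → (Fin n → V3) → Prop) (h0 : Good ∅ q)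
    (hstep : ∀ (S : Finset (Fin n)) (k : Fin n) (p : Fin n → V3), k ∉ S → p k = q k →
      (∀ i j, i ≠ j → p i ≠ p j) → Good S p → ∀ B : Set V3, MeasurableSet B →
      gm b {x | q k + x ∈ B} ≤ ENNReal.ofReal (ε * gc b) →
      ∃ z ∉ B, Good (insert k S) (Function.update p k z)) :
    ∃ p : Fin n → V3, (∀ i, ‖p i - q i‖ ≤ d) ∧ (∀ i j, i ≠ j → p i - p j ∉ T i j) ∧
      (∀ i, p i ∉ F i) ∧ Good Finset.univ p := by
  classical
  have hg := gc_pos hb
  have key : ∀ S : Finset (Fin n), ∃ p : Fin n → V3,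
      (∀ i ∉ S, p i = q i) ∧ (∀ i, ‖p i - q i‖ ≤ d) ∧ (∀ i j, i ≠ j → p i ≠ p j) ∧
      (∀ i ∈ S, ∀ j ∈ S, i ≠ j → p i - p j ∉ T i j) ∧ (∀ i ∈ S, p i ∉ F i) ∧ Good S p := by
    intro S
    induction S using Finset.induction_on with
    | empty => exact ⟨q, fun i _ => rfl, fun i => by simpa using hd, hq, by simp, by simp, h0⟩
    | insert k S hk ih =>
      obtain ⟨p, hp1, hp2, hp3, hp4, hp5, hp6⟩ := ih
      have hpk : p k = q k := hp1 k hk
      set U : Set V3 := ⋃ j ∈ Finset.univ.erase k, {z | z - p j ∈ T k j} with hU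
      set B : Set V3 := ({z | d < ‖z - q k‖} ∪ U) ∪ F k with hBdef
      have hUmeas : MeasurableSet U :=
        Finset.measurableSet_biUnion _ fun j _ => measurable_sub_const (p j) (hT k j)
      have hBmeas : MeasurableSet B := by
        refine MeasurableSet.union (MeasurableSet.union ?_ hUmeas) (hF k)
        exact measurableSet_lt measurable_const (by fun_prop)
      have hBm : gm b {x | q k + x ∈ B} ≤ ENNReal.ofReal (ε * gc b) := by
        have hsub : {x | q k + x ∈ B} ⊆ ({x | d < ‖x‖} ∪ ({x | ‖x‖ ≤ d} ∩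
            ⋃ j ∈ Finset.univ.erase k, {x | q k + x - p j ∈ T k j})) ∪
            {x | q k + x ∈ F k} := by
          intro x hx
          rcases hx with (hx | hx) | hx
          · left; left
            have : d < ‖q k + x - q k‖ := hx
            rwa [add_sub_cancel_left] at this
          · left
            rcases le_or_gt ‖x‖ d with h | h
            · right
              refine ⟨h, ?_⟩
              simp only [hU, mem_iUnion] at hx ⊢
              exact hx
            · left
              exact h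
          · right; exact hx
        refine (measure_mono hsub).trans ?_
        refine (measure_union_le _ _).trans ?_
        refine (add_le_add (measure_union_le _ _) le_rfl).trans ?_
        refine (add_le_add (add_le_add (gm_far hb d hd) (hTm k p)) (hFm k)).trans ?_
        rw [← ENNReal.ofReal_add (by positivity) (by positivity),
          ← ENNReal.ofReal_add (by positivity) (by positivity)]
        apply ENNReal.ofReal_le_ofReal
        have h6 := mul_le_mul_of_nonneg_right hε hg.le
        linarith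
      obtain ⟨z, hzB, hz⟩ := hstep S k p hk hpk hp3 hp6 B hBmeas hBm
      have hz1 : ‖z - q k‖ ≤ d := by
        by_contra h
        push Not at h
        exact hzB (Or.inl (Or.inl h))
      have hz2 : ∀ j, j ≠ k → z - p j ∉ T k j := by
        intro j hj h
        apply hzB
        left; right
        simp only [hU, mem_iUnion]
        exact ⟨j, Finset.mem_erase.mpr ⟨hj, Finset.mem_univ _⟩, h⟩
      have hz3 : z ∉ F k := fun h => hzB (Or.inr h)
      have hz4 : ∀ j, j ≠ k → z ≠ p j := by
        intro j hj h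
        apply hz2 j hj
        apply hT0 k j _ hj.symm
        rw [h, sub_self, norm_zero]
        exact hs₀.le
      have hz5 : ∀ j, j ≠ k → p j - z ∉ T j k := by
        intro j hj h
        apply hz2 j hj
        have := hTs _ _ _ h
        rwa [neg_sub] at this
      have hpu : ∀ j, j ≠ k → Function.update p k z j = p j := fun j hj =>
        Function.update_of_ne hj z p
      have hpk' : Function.update p k z k = z := Function.update_self k z p
      refine ⟨Function.update p k z, ?_, ?_, ?_, ?_, ?_, hz⟩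
      · intro i hi
        rw [Finset.mem_insert, not_or] at hi
        rw [hpu i hi.1]
        exact hp1 i hi.2
      · intro i
        rcases eq_or_ne i k with rfl | hik
        · rw [hpk']; exact hz1
        · rw [hpu i hik]; exact hp2 i
      · intro i j hij
        rcases eq_or_ne i k with rfl | hik
        · rw [hpk', hpu j hij.symm]
          exact hz4 j hij.symm
        · rcases eq_or_ne j k with rfl | hjk
          · rw [hpk', hpu i hik]
            exact (hz4 i hik).symm
          · rw [hpu i hik, hpu j hjk]; exact hp3 i j hij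
      · intro i hi j hj hij
        rcases eq_or_ne i k with rfl | hik
        · rw [hpk', hpu j hij.symm]
          exact hz2 j hij.symm
        · rcases eq_or_ne j k with rfl | hjk
          · rw [hpk', hpu i hik]
            exact hz5 i hik
          · rw [hpu i hik, hpu j hjk]
            exact hp4 i ((Finset.mem_insert.mp hi).resolve_left hik) j
              ((Finset.mem_insert.mp hj).resolve_left hjk) hij
      · intro i hi
        rcases eq_or_ne i k with rfl | hik
        · rw [hpk']; exact hz3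
        · rw [hpu i hik]
          exact hp5 i ((Finset.mem_insert.mp hi).resolve_left hik)
  obtain ⟨p, -, hp2, -, hp4, hp5, hp6⟩ := key Finset.univ
  exact ⟨p, hp2, fun i j hij => hp4 i (Finset.mem_univ _) j (Finset.mem_univ _) hij,
    fun i => hp5 i (Finset.mem_univ _), hp6⟩

/-- Placing with both versions of the energy bound: `E1` factor `(1 - ε)^(-2)`, `E2` absolute. -/
theorem place {n : ℕ} (m : Fin n → ℝ) (hm : ∀ i, 0 ≤ m i) {b ε ε₁ ε₂ d s₀ : ℝ} (hb : 0 < b)
    (hd : 0 ≤ d) (hs₀ : 0 < s₀) (hε1 : ε < 1)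
    (hε₁ : 0 ≤ ε₁) (hε₂ : 0 ≤ ε₂) (q : Fin n → V3) (hq : ∀ i j, i ≠ j → q i ≠ q j)
    (F : Fin n → Set V3) (hF : ∀ i, MeasurableSet (F i))
    (hFm : ∀ i, gm b {x | q i + x ∈ F i} ≤ ENNReal.ofReal (ε₁ * gc b))
    (T : Fin n → Fin n → Set V3) (hT : ∀ i j, MeasurableSet (T i j))
    (hTs : ∀ i j x, x ∈ T i j → -x ∈ T j i) (hT0 : ∀ i j x, i ≠ j → ‖x‖ ≤ s₀ → x ∈ T i j)
    (hTm : ∀ k, ∀ p : Fin n → V3, gm b ({x | ‖x‖ ≤ d} ∩
      ⋃ j ∈ Finset.univ.erase k, {x | q k + x - p j ∈ T k j}) ≤ ENNReal.ofReal (ε₂ * gc b))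
    (hε : 3 * Real.exp (-b * d ^ 2 / 2) + ε₂ + ε₁ ≤ ε) :
    (∃ p : Fin n → V3, (∀ i, ‖p i - q i‖ ≤ d) ∧ (∀ i j, i ≠ j → p i - p j ∉ T i j) ∧
      (∀ i, p i ∉ F i) ∧ ∑ i, ∑ j, m i * m j / ‖p i - p j‖ ≤
        ((1 - ε)⁻¹) ^ 2 * ∑ i, ∑ j, m i * m j / ‖q i - q j‖) ∧
    (∃ p : Fin n → V3, (∀ i, ‖p i - q i‖ ≤ d) ∧ (∀ i j, i ≠ j → p i - p j ∉ T i j) ∧
      (∀ i, p i ∉ F i) ∧ ∑ i, ∑ j, m i * m j / ‖p i - p j‖ ≤
        2 * ((1 - ε)⁻¹ * (164 * √b)) * (∑ i, m i) ^ 2) := by
  classical
  have hg := gc_pos hb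
  have hε0 : 0 ≤ ε := by
    have h1 := Real.exp_pos (-b * d ^ 2 / 2)
    linarith
  have h1ε : 0 < 1 - ε := by linarith
  obtain ⟨κ, hκ⟩ : ∃ κ : ℝ, κ = (1 - ε)⁻¹ := ⟨_, rfl⟩
  have hκ0 : 0 < κ := by rw [hκ]; positivity
  rw [← hκ]
  constructor
  · obtain ⟨p, h1, h2, h3, h4⟩ := seq_place hb hd hs₀ hε₁ hε₂ q hq F hF hFm T hT hTs hT0 hTm hε
      (fun S p => wpot m (fun i => if i ∈ S then 1 else κ) p ≤ wpot m (fun _ => κ) q)
      (by simp)
      (by
        intro S k p hk hpk hp3 hp6 B hBmeas hBm
        obtain ⟨u, hu⟩ : ∃ u : Fin n → ℝ, u = fun i => if i ∈ S then 1 else κ := ⟨_, rfl⟩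
        have hu0 : ∀ i, 0 ≤ u i := by
          intro i; rw [hu]; simp only; split_ifs
          · exact zero_le_one
          · exact hκ0.le
        rw [← hpk] at hBm
        obtain ⟨z, hzB, hz⟩ := exists_move hb hε0 hε1 (Finset.univ.erase k)
          (fun j => m k * (m j * u j)) (fun j _ => mul_nonneg (hm k) (mul_nonneg (hm j) (hu0 j)))
          p (p k) (fun j hj => hp3 j k (Finset.ne_of_mem_erase hj)) B hBmeas hBm
        refine ⟨z, hzB, ?_⟩
        have hpu : ∀ j, j ≠ k → Function.update p k z j = p j := fun j hj =>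
          Function.update_of_ne hj z p
        have hpk' : Function.update p k z k = z := Function.update_self k z p
        refine le_trans ?_ hp6
        rw [← hu, wpot_split m _ (Function.update p k z) k, wpot_split m u p k]
        have hrest : ∑ i ∈ Finset.univ.erase k, ∑ j ∈ Finset.univ.erase k,
            m i * (if i ∈ insert k S then (1:ℝ) else κ) *
              (m j * (if j ∈ insert k S then (1:ℝ) else κ)) /
              ‖Function.update p k z i - Function.update p k z j‖ =
            ∑ i ∈ Finset.univ.erase k, ∑ j ∈ Finset.univ.erase k,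
              m i * u i * (m j * u j) / ‖p i - p j‖ := by
          refine Finset.sum_congr rfl fun i hi => Finset.sum_congr rfl fun j hj => ?_
          have hik := Finset.ne_of_mem_erase hi
          have hjk := Finset.ne_of_mem_erase hj
          rw [hpu i hik, hpu j hjk]
          have h1 : (if i ∈ insert k S then (1:ℝ) else κ) = u i := by
            rw [hu]; simp only [Finset.mem_insert, hik, false_or]
          have h2 : (if j ∈ insert k S then (1:ℝ) else κ) = u j := by
            rw [hu]; simp only [Finset.mem_insert, hjk, false_or]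
          rw [h1, h2]
        have hrow : ∑ j ∈ Finset.univ.erase k,
            m k * (if k ∈ insert k S then (1:ℝ) else κ) *
              (m j * (if j ∈ insert k S then (1:ℝ) else κ)) /
              ‖Function.update p k z k - Function.update p k z j‖ ≤
            ∑ j ∈ Finset.univ.erase k, m k * u k * (m j * u j) / ‖p k - p j‖ := by
          have h1 : ∑ j ∈ Finset.univ.erase k,
              m k * (if k ∈ insert k S then (1:ℝ) else κ) *
                (m j * (if j ∈ insert k S then (1:ℝ) else κ)) /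
                ‖Function.update p k z k - Function.update p k z j‖ =
              ∑ j ∈ Finset.univ.erase k, m k * (m j * u j) / ‖z - p j‖ := by
            refine Finset.sum_congr rfl fun j hj => ?_
            have hjk := Finset.ne_of_mem_erase hj
            rw [hpk', hpu j hjk]
            have h2 : (if j ∈ insert k S then (1:ℝ) else κ) = u j := by
              rw [hu]; simp only [Finset.mem_insert, hjk, false_or]
            rw [h2, if_pos (Finset.mem_insert_self k S), mul_one]
          have h3 : ∑ j ∈ Finset.univ.erase k, m k * u k * (m j * u j) / ‖p k - p j‖ =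
              κ * ∑ j ∈ Finset.univ.erase k, m k * (m j * u j) / ‖p k - p j‖ := by
            rw [Finset.mul_sum]
            refine Finset.sum_congr rfl fun j _ => ?_
            have h4 : u k = κ := by rw [hu]; simp only [hk, if_false]
            rw [h4]
            ring
          rw [h1, h3, hκ]
          exact hz
        linarith)
    refine ⟨p, h1, h2, h3, ?_⟩
    have e1 : wpot m (fun i => if i ∈ (Finset.univ : Finset (Fin n)) then (1:ℝ) else κ) p =
        ∑ i, ∑ j, m i * m j / ‖p i - p j‖ := by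
      unfold wpot
      simp
    have e2 : wpot m (fun _ => κ) q = κ ^ 2 * ∑ i, ∑ j, m i * m j / ‖q i - q j‖ := by
      unfold wpot
      rw [Finset.mul_sum]
      refine Finset.sum_congr rfl fun i _ => ?_
      rw [Finset.mul_sum]
      refine Finset.sum_congr rfl fun j _ => ?_
      ring
    rw [e1, e2] at h4
    exact h4
  · obtain ⟨K, hK⟩ : ∃ K : ℝ, K = κ * (164 * √b) := ⟨_, rfl⟩
    have hK0 : 0 ≤ K := by rw [hK]; positivity
    rw [← hK]
    obtain ⟨p, h1, h2, h3, h4⟩ := seq_place hb hd hs₀ hε₁ hε₂ q hq F hF hFm T hT hTs hT0 hTm hε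
      (fun S p => ∑ i ∈ S, ∑ j ∈ S, m i * m j / ‖p i - p j‖ ≤ 2 * K * (∑ i ∈ S, m i) ^ 2)
      (by simp)
      (by
        intro S k p hk hpk hp3 hp6 B hBmeas hBm
        obtain ⟨z, hzB, hz⟩ := exists_move_crude hb hε0 hε1 S m (fun i _ => hm i)
          p (q k) B hBmeas hBm
        refine ⟨z, hzB, ?_⟩
        have hpu : ∀ j ∈ S, Function.update p k z j = p j := by
          intro j hj
          have hjk : j ≠ k := by
            rintro rfl
            exact hk hj
          exact Function.update_of_ne hjk z p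
        have hpk' : Function.update p k z k = z := Function.update_self k z p
        rw [Finset.sum_insert hk, Finset.sum_insert hk]
        have e1 : ∑ i ∈ S, ∑ j ∈ insert k S,
            m i * m j / ‖Function.update p k z i - Function.update p k z j‖ =
            m k * ∑ i ∈ S, m i / ‖z - p i‖ + ∑ i ∈ S, ∑ j ∈ S, m i * m j / ‖p i - p j‖ := by
          rw [Finset.mul_sum, ← Finset.sum_add_distrib]
          refine Finset.sum_congr rfl fun i hi => ?_
          rw [Finset.sum_insert hk, hpk', hpu i hi, norm_sub_rev (p i) z]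
          congr 1
          · ring
          · refine Finset.sum_congr rfl fun j hj => ?_
            rw [hpu j hj]
        have e2 : m k * m k / ‖Function.update p k z k - Function.update p k z k‖ = 0 := by
          rw [sub_self, norm_zero, div_zero]
        have e3 : ∑ j ∈ S, m k * m j / ‖Function.update p k z k - Function.update p k z j‖ =
            m k * ∑ i ∈ S, m i / ‖z - p i‖ := by
          rw [Finset.mul_sum]
          refine Finset.sum_congr rfl fun j hj => ?_
          rw [hpk', hpu j hj]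
          ring
        rw [e1, e2, e3, Finset.sum_insert hk]
        have e4 : m k * ∑ i ∈ S, m i / ‖z - p i‖ ≤ m k * (K * ∑ i ∈ S, m i) := by
          apply mul_le_mul_of_nonneg_left _ (hm k)
          rw [hK, hκ]
          refine hz.trans (le_of_eq ?_)
          ring
        have e5 : 0 ≤ K * m k ^ 2 := by positivity
        have e6 : 0 ≤ K * (m k * ∑ i ∈ S, m i) :=
          mul_nonneg hK0 (mul_nonneg (hm k) (Finset.sum_nonneg fun i _ => hm i))
        have e7 : 2 * K * (m k + ∑ i ∈ S, m i) ^ 2 = 2 * (K * m k ^ 2) +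
            4 * (K * (m k * ∑ i ∈ S, m i)) + 2 * K * (∑ i ∈ S, m i) ^ 2 := by ring
        have e8 : m k * (K * ∑ i ∈ S, m i) = K * (m k * ∑ i ∈ S, m i) := by ring
        rw [e8] at e4
        rw [e7]
        linarith)
    exact ⟨p, h1, h2, h3, h4⟩

end Pool.Agent.NBody
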