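import Mathlib
import Pool.Agent.NBody.ThSpreadT
import Pool.Agent.NBody.ThMeas3

/-!
Spreading of finitely many bodies along straight lines: the bodies can be moved by at most `η`
such that the straight motions keep prescribed distances on `[0, τ]`; the Newton energy grows at
most by a factor close to one, or is bounded by an absolute constant.
-/

set_option autoImplicit false
open scoped RealInnerProductSpace
open Set Finset Filter Topology Real MeasureTheory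

namespace Pool.Agent.NBody

theorem gc_lower {ε η : ℝ} (hη : 0 < η) (hε : 0 < ε) (hε1 : ε ≤ 1) :
    π / 12 * (8 / 25) * (ε ^ 2 * η ^ 3) ≤ gc (12 / (ε * η ^ 2)) := by
  have e0 : π / (12 / (ε * η ^ 2)) = π * ε * η ^ 2 / 12 := by
    field_simp
  have e1 : 8 / 25 * ε * η ≤ √(π / (12 / (ε * η ^ 2))) := by
    apply Real.le_sqrt_of_sq_le
    rw [e0]
    have hpi := Real.pi_gt_three
    have : ε ^ 2 ≤ ε := by nlinarith
    have h3 : (8 / 25 * ε * η) ^ 2 = 64 / 625 * ε ^ 2 * η ^ 2 := by ring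
    rw [h3]
    have h4 : 64 / 625 * ε ^ 2 ≤ π * ε / 12 := by nlinarith
    have h5 : (0 : ℝ) ≤ η ^ 2 := by positivity
    nlinarith
  have e2 : π * ε * η ^ 2 / 12 * (8 / 25 * ε * η) ≤ gc (12 / (ε * η ^ 2)) := by
    unfold gc
    rw [← e0]
    exact mul_le_mul_of_nonneg_left e1 (by positivity)
  refine le_trans (le_of_eq ?_) e2
  ring

theorem exp_budget {ε η : ℝ} (hη : 0 < η) (hε : 0 < ε) (hε1 : ε ≤ 1 / 2) :
    3 * Real.exp (-(12 / (ε * η ^ 2)) * η ^ 2 / 2) ≤ ε / 12 := by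
  have e1 : -(12 / (ε * η ^ 2)) * η ^ 2 / 2 = -(6 / ε) := by
    field_simp
    ring
  rw [e1, Real.exp_neg]
  have h0 : 0 < 6 / ε := by positivity
  have e2 : (6 / ε) ^ 2 / 2 ≤ Real.exp (6 / ε) := by
    have := Real.quadratic_le_exp_of_nonneg h0.le
    linarith
  have e3 : (Real.exp (6 / ε))⁻¹ ≤ ((6 / ε) ^ 2 / 2)⁻¹ := inv_anti₀ (by positivity) e2
  have e4 : ((6 / ε) ^ 2 / 2)⁻¹ = ε ^ 2 / 18 := by
    field_simp
    norm_num
  rw [e4] at e3
  nlinarith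

/-- Spreading with general forbidden sets for the differences. -/
theorem spread_sets {n : ℕ} (m : Fin n → ℝ) (hm : ∀ i, 0 ≤ m i) (q : Fin n → V3)
    (hq : ∀ i j, i ≠ j → q i ≠ q j) (η ε : ℝ) (hη : 0 < η) (hε : 0 < ε) (hε1 : ε ≤ 1 / 2)
    (F : Fin n → Set V3) (hF : ∀ i, MeasurableSet (F i))
    (hFv : ∀ i, volume (F i) ≤ ENNReal.ofReal (ε ^ 3 * η ^ 3 / 100))
    (T : Fin n → Fin n → Set V3) (hT : ∀ i j, MeasurableSet (T i j))
    (hTs : ∀ i j x, x ∈ T i j → -x ∈ T j i) {s₀ : ℝ} (hs₀ : 0 < s₀)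
    (hT0 : ∀ i j x, i ≠ j → ‖x‖ ≤ s₀ → x ∈ T i j) (w : Fin n → Fin n → ℝ)
    (hw : ∀ i j, 0 ≤ w i j) (hTv : ∀ i j, volume (T i j) ≤ ENNReal.ofReal (w i j))
    (hvol : ∀ i, ∑ j, w i j ≤ ε ^ 3 * η ^ 3 / 20) :
    (∃ p : Fin n → V3, (∀ i, ‖p i - q i‖ ≤ η) ∧ (∀ i j, i ≠ j → p i - p j ∉ T i j) ∧
      (∀ i, p i ∉ F i) ∧ ∑ i, ∑ j, m i * m j / ‖p i - p j‖ ≤
        ((1 - ε) ^ 2)⁻¹ * ∑ i, ∑ j, m i * m j / ‖q i - q j‖) ∧
    (∃ p : Fin n → V3, (∀ i, ‖p i - q i‖ ≤ η) ∧ (∀ i j, i ≠ j → p i - p j ∉ T i j) ∧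
      (∀ i, p i ∉ F i) ∧ ∑ i, ∑ j, m i * m j / ‖p i - p j‖ ≤
        4000 / (η * ε) * (∑ i, m i) ^ 2) := by
  classical
  obtain ⟨b, hbdef⟩ : ∃ b : ℝ, b = 12 / (ε * η ^ 2) := ⟨_, rfl⟩
  have hb : 0 < b := by rw [hbdef]; positivity
  have hg := gc_pos hb
  have hpi := Real.pi_gt_three
  have hgl : 2 / 25 * (ε ^ 2 * η ^ 3) ≤ gc b := by
    have h1 := gc_lower hη hε (by linarith)
    rw [← hbdef] at h1
    refine le_trans ?_ h1
    have h2 : 0 ≤ ε ^ 2 * η ^ 3 := by positivity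
    nlinarith
  have hexp := exp_budget (η := η) hη hε hε1
  rw [← hbdef] at hexp
  have hX : 0 ≤ ε ^ 2 * η ^ 3 := by positivity
  -- a forbidden set of the position
  have hFm : ∀ i, gm b {x | q i + x ∈ F i} ≤ ENNReal.ofReal (ε / 8 * gc b) := by
    intro i
    refine (gm_le_volume hb _).trans ?_
    have h1 : {x | q i + x ∈ F i} = (fun x => q i + x) ⁻¹' F i := rfl
    rw [h1, measure_preimage_add]
    refine (hFv i).trans (ENNReal.ofReal_le_ofReal ?_)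
    have h2 := mul_le_mul_of_nonneg_left hgl (show 0 ≤ ε / 8 by positivity)
    refine le_trans (le_of_eq ?_) h2
    ring
  have hTm : ∀ k, ∀ p : Fin n → V3, gm b ({x | ‖x‖ ≤ η} ∩
      ⋃ j ∈ Finset.univ.erase k, {x | q k + x - p j ∈ T k j}) ≤
        ENNReal.ofReal (5 * ε / 8 * gc b) := by
    intro k p
    refine (measure_mono Set.inter_subset_right).trans ?_
    refine (gm_le_volume hb _).trans ?_
    refine (measure_biUnion_finset_le _ _).trans ?_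
    have h1 : ∀ j ∈ Finset.univ.erase k, volume {x | q k + x - p j ∈ T k j} ≤
        ENNReal.ofReal (w k j) := by
      intro j _
      have h2 : {x | q k + x - p j ∈ T k j} = (fun x => (q k - p j) + x) ⁻¹' T k j := by
        ext x
        simp only [Set.mem_preimage]
        have h3 : q k + x - p j = q k - p j + x := by abel
        constructor
        · intro h
          have h4 : q k + x - p j ∈ T k j := h
          rwa [h3] at h4
        · intro h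
          have h4 : q k + x - p j ∈ T k j := by rwa [h3]
          exact h4
      rw [h2, measure_preimage_add]
      exact hTv k j
    refine (Finset.sum_le_sum h1).trans ?_
    rw [← ENNReal.ofReal_sum_of_nonneg (fun j _ => hw k j)]
    apply ENNReal.ofReal_le_ofReal
    have h3 : ∑ j ∈ Finset.univ.erase k, w k j ≤ ∑ j, w k j :=
      Finset.sum_le_sum_of_subset_of_nonneg (Finset.subset_univ _) (fun j _ _ => hw k j)
    have h4 := mul_le_mul_of_nonneg_left hgl (show 0 ≤ 5 * ε / 8 by positivity)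
    have h5 : 5 * ε / 8 * (2 / 25 * (ε ^ 2 * η ^ 3)) = ε ^ 3 * η ^ 3 / 20 := by ring
    linarith [hvol k]
  obtain ⟨⟨p, p1, p2, p3, p4⟩, ⟨p', p1', p2', p3', p4'⟩⟩ := place m hm hb hη.le hs₀
    (ε := ε) (ε₁ := ε / 8) (ε₂ := 5 * ε / 8) (by linarith) (by positivity) (by positivity) q hq
    F hF hFm T hT hTs hT0 hTm (by linarith)
  refine ⟨⟨p, p1, p2, p3, ?_⟩, ⟨p', p1', p2', p3', p4'.trans ?_⟩⟩
  · rw [← inv_pow]
    exact p4
  · apply mul_le_mul_of_nonneg_right _ (sq_nonneg _)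
    have h1 : (1 - ε)⁻¹ ≤ 2 := by
      rw [inv_le_comm₀ (by linarith) (by norm_num)]
      linarith
    have h2 : √b ≤ 7 / 2 / (η * ε) := by
      rw [Real.sqrt_le_left (by positivity), hbdef, div_pow, div_le_div_iff₀ (by positivity)
        (by positivity)]
      have h3 : ε ^ 2 ≤ ε := by nlinarith
      have h4 : 0 < η ^ 2 := by positivity
      nlinarith
    have h3 : 0 ≤ √b := Real.sqrt_nonneg _
    have h4 : 0 ≤ (1 - ε)⁻¹ := inv_nonneg.mpr (by linarith)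
    calc 2 * ((1 - ε)⁻¹ * (164 * √b)) ≤ 2 * (2 * (164 * (7 / 2 / (η * ε)))) := by
          gcongr
      _ ≤ 4000 / (η * ε) := by
          have h5 : 0 < η * ε := by positivity
          have h6 : 2 * (2 * (164 * (7 / 2 / (η * ε)))) = 2296 / (η * ε) := by
            field_simp
            norm_num
          rw [h6]
          exact div_le_div_of_nonneg_right (by norm_num) h5.le

/-- Spreading along straight lines, for `Fin n`. -/
theorem spread_lines_fin {n : ℕ} (m : Fin n → ℝ) (hm : ∀ i, 0 ≤ m i)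
    (q v : Fin n → V3) (hq : ∀ i j, i ≠ j → q i ≠ q j) (η ε τ : ℝ) (hη : 0 < η) (hε : 0 < ε)
    (hε1 : ε ≤ 1 / 2) (hτ : 0 ≤ τ) (σ : Fin n → Fin n → ℝ) (hσ : ∀ i j, 0 < σ i j)
    (hσs : ∀ i j, σ i j = σ j i)
    (hvol : ∀ i, ∑ j, (‖v i - v j‖ * τ * σ i j ^ 2 + 3 * σ i j ^ 3) ≤ ε ^ 3 * η ^ 3 / 5000)
    (F : Fin n → Set V3) (hF : ∀ i, MeasurableSet (F i))
    (hFv : ∀ i, volume (F i) ≤ ENNReal.ofReal (ε ^ 3 * η ^ 3 / 100)) :
    (∃ p : Fin n → V3, (∀ i, ‖p i - q i‖ ≤ η) ∧ (∀ i j, i ≠ j → ∀ t ∈ Icc (0 : ℝ) τ,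
        σ i j < ‖(p i + t • v i) - (p j + t • v j)‖) ∧ (∀ i, p i ∉ F i) ∧
        ∑ i, ∑ j, m i * m j / ‖p i - p j‖ ≤
          ((1 - ε) ^ 2)⁻¹ * ∑ i, ∑ j, m i * m j / ‖q i - q j‖) ∧
    (∃ p : Fin n → V3, (∀ i, ‖p i - q i‖ ≤ η) ∧ (∀ i j, i ≠ j → ∀ t ∈ Icc (0 : ℝ) τ,
        σ i j < ‖(p i + t • v i) - (p j + t • v j)‖) ∧ (∀ i, p i ∉ F i) ∧
        ∑ i, ∑ j, m i * m j / ‖p i - p j‖ ≤ 4000 / (η * ε) * (∑ i, m i) ^ 2) := by
  classical
  obtain ⟨s₀, hs₀, hs₁⟩ : ∃ s₀ : ℝ, 0 < s₀ ∧ ∀ i j, s₀ ≤ σ i j := by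
    rcases isEmpty_or_nonempty (Fin n) with h | h
    · exact ⟨1, one_pos, fun i => isEmptyElim i⟩
    · obtain ⟨x, hx⟩ := Finite.exists_min (fun x : Fin n × Fin n => σ x.1 x.2)
      exact ⟨σ x.1 x.2, hσ _ _, fun i j => hx (i, j)⟩
  have key : ∀ i j (p : Fin n → V3), p i - p j ∉ tube3 (v i - v j) τ (σ i j) →
      ∀ t ∈ Icc (0 : ℝ) τ, σ i j < ‖(p i + t • v i) - (p j + t • v j)‖ := by
    intro i j p h t ht
    by_contra hc
    apply h
    refine ⟨t, ht, ?_⟩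
    have h1 : p i - p j + t • (v i - v j) = (p i + t • v i) - (p j + t • v j) := by
      rw [smul_sub]; abel
    rw [h1]
    exact not_lt.mp hc
  obtain ⟨⟨p, p1, p2, p3, p4⟩, ⟨p', p1', p2', p3', p4'⟩⟩ := spread_sets m hm q hq η ε hη hε hε1
    F hF hFv (fun i j => tube3 (v i - v j) τ (σ i j)) (fun i j => measurableSet_tube3 _ _ _)
    (by
      rintro i j x ⟨t, ht, hx⟩
      refine ⟨t, ht, ?_⟩
      have h1 : -x + t • (v j - v i) = -(x + t • (v i - v j)) := by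
        rw [smul_sub, smul_sub]; abel
      rw [h1, norm_neg, hσs j i]
      exact hx) (s₀ := s₀) hs₀
    (by
      intro i j x _ hx
      refine ⟨0, ⟨le_rfl, hτ⟩, ?_⟩
      rw [zero_smul, add_zero]
      exact hx.trans (hs₁ i j))
    (fun i j => 34 * (σ i j ^ 2 * (‖v i - v j‖ * τ) + σ i j ^ 3))
    (by
      intro i j
      have := hσ i j
      positivity)
    (fun i j => volume_tube3 _ hτ (hσ i j))
    (by
      intro i
      rw [← Finset.mul_sum]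
      have h1 : ∑ j, (σ i j ^ 2 * (‖v i - v j‖ * τ) + σ i j ^ 3) ≤
          ∑ j, (‖v i - v j‖ * τ * σ i j ^ 2 + 3 * σ i j ^ 3) := by
        apply Finset.sum_le_sum
        intro j _
        have h2 : 0 < σ i j ^ 3 := by
          have := hσ i j
          positivity
        nlinarith
      have h2 := hvol i
      have h3 : 0 < ε ^ 3 * η ^ 3 := by positivity
      linarith)
  exact ⟨⟨p, p1, fun i j hij => key i j p (p2 i j hij), p3, p4⟩,
    ⟨p', p1', fun i j hij => key i j p' (p2' i j hij), p3', p4'⟩⟩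

/-- Spreading along straight lines. -/
theorem spread_lines {ι : Type*} [Fintype ι] [DecidableEq ι] (m : ι → ℝ) (hm : ∀ i, 0 ≤ m i)
    (q v : ι → V3) (hq : ∀ i j, i ≠ j → q i ≠ q j) (η ε τ : ℝ) (hη : 0 < η) (hε : 0 < ε)
    (hε1 : ε ≤ 1 / 2) (hτ : 0 ≤ τ) (σ : ι → ι → ℝ) (hσ : ∀ i j, 0 < σ i j)
    (hσs : ∀ i j, σ i j = σ j i)
    (hvol : ∀ i, ∑ j, (‖v i - v j‖ * τ * σ i j ^ 2 + 3 * σ i j ^ 3) ≤ ε ^ 3 * η ^ 3 / 5000)
    (F : ι → Set V3) (hF : ∀ i, MeasurableSet (F i))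
    (hFv : ∀ i, volume (F i) ≤ ENNReal.ofReal (ε ^ 3 * η ^ 3 / 100)) :
    (∃ p : ι → V3, (∀ i, ‖p i - q i‖ ≤ η) ∧ (∀ i j, i ≠ j → ∀ t ∈ Icc (0 : ℝ) τ,
        σ i j < ‖(p i + t • v i) - (p j + t • v j)‖) ∧ (∀ i, p i ∉ F i) ∧
        ∑ i, ∑ j, m i * m j / ‖p i - p j‖ ≤
          ((1 - ε) ^ 2)⁻¹ * ∑ i, ∑ j, m i * m j / ‖q i - q j‖) ∧
    (∃ p : ι → V3, (∀ i, ‖p i - q i‖ ≤ η) ∧ (∀ i j, i ≠ j → ∀ t ∈ Icc (0 : ℝ) τ,
        σ i j < ‖(p i + t • v i) - (p j + t • v j)‖) ∧ (∀ i, p i ∉ F i) ∧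
        ∑ i, ∑ j, m i * m j / ‖p i - p j‖ ≤ 4000 / (η * ε) * (∑ i, m i) ^ 2) := by
  classical
  let e := Fintype.equivFin ι
  obtain ⟨⟨p, p1, p2, p3, p4⟩, ⟨p', p1', p2', p3', p4'⟩⟩ := spread_lines_fin
    (fun i => m (e.symm i)) (fun i => hm _) (fun i => q (e.symm i)) (fun i => v (e.symm i))
    (fun i j hij => hq _ _ (e.symm.injective.ne hij)) η ε τ hη hε hε1 hτ
    (fun i j => σ (e.symm i) (e.symm j)) (fun i j => hσ _ _) (fun i j => hσs _ _)
    (by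
      intro i
      have h1 := hvol (e.symm i)
      rw [← Equiv.sum_comp e.symm] at h1
      exact h1)
    (fun i => F (e.symm i)) (fun i => hF _) (fun i => hFv _)
  have s1 : ∀ p : Fin (Fintype.card ι) → V3, ∑ i, ∑ j, m i * m j / ‖p (e i) - p (e j)‖ =
      ∑ i, ∑ j, m (e.symm i) * m (e.symm j) / ‖p i - p j‖ := by
    intro p
    rw [← Equiv.sum_comp e]
    refine Finset.sum_congr rfl fun i _ => ?_
    rw [← Equiv.sum_comp e]
    simp
  have s2 : ∑ i, ∑ j, m i * m j / ‖q i - q j‖ =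
      ∑ i, ∑ j, m (e.symm i) * m (e.symm j) / ‖q (e.symm i) - q (e.symm j)‖ := by
    rw [← Equiv.sum_comp e.symm]
    refine Finset.sum_congr rfl fun i _ => ?_
    rw [← Equiv.sum_comp e.symm]
  have s3 : ∑ i, m i = ∑ i, m (e.symm i) := (Equiv.sum_comp e.symm m).symm
  have s4 : ∀ p : Fin (Fintype.card ι) → V3, (∀ i j, i ≠ j → ∀ t ∈ Icc (0 : ℝ) τ,
      σ (e.symm i) (e.symm j) < ‖(p i + t • v (e.symm i)) - (p j + t • v (e.symm j))‖) →
      ∀ i j, i ≠ j → ∀ t ∈ Icc (0 : ℝ) τ,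
        σ i j < ‖(p (e i) + t • v i) - (p (e j) + t • v j)‖ := by
    intro p hp i j hij t ht
    have h1 := hp (e i) (e j) (e.injective.ne hij) t ht
    simpa using h1
  refine ⟨⟨fun i => p (e i), fun i => ?_, s4 p p2, fun i => ?_, ?_⟩,
    ⟨fun i => p' (e i), fun i => ?_, s4 p' p2', fun i => ?_, ?_⟩⟩
  · simpa using p1 (e i)
  · simpa using p3 (e i)
  · rw [s1 p, s2]
    exact p4
  · simpa using p1' (e i)
  · simpa using p3' (e i)
  · rw [s1 p', s3]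
    exact p4'

end Pool.Agent.NBody
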