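import Mathlib
import Pool.Agent.NBody.ThSpreadL
import Pool.Agent.NBody.ThPrep3A

/-!
Spreading along straight lines in the form used for prepared states.
-/

set_option autoImplicit false
open scoped RealInnerProductSpace
open Set Finset Filter Topology

namespace Pool.Agent.NBody

theorem spreadLines : SpreadLines := by
  intro N m hm q v hq η ε τ hη hε hε1 hτ σ hσ hσs hvol
  obtain ⟨⟨p, p1, p2, -, p4⟩, ⟨p', p1', p2', -, p4'⟩⟩ := spread_lines_fin m hm q v hq η ε τ hη hε
    hε1 hτ σ hσ hσs hvol (fun _ => ∅) (fun _ => MeasurableSet.empty) (fun i => by simp)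
  exact ⟨⟨p, p1, p2, p4⟩, ⟨p', p1', p2', p4'⟩⟩

end Pool.Agent.NBody
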