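import Mathlib
import Pool.Agent.NBody.ThSpreadL2

/-!
Prepared states of type I-A: the final form, with the spreading along straight lines inserted.
-/

set_option autoImplicit false
open scoped RealInnerProductSpace
open Set Finset Filter Topology

namespace Pool.Agent.NBody

/-- M8, type I-A, no open hypothesis. -/
theorem prep3A_at {N K : ℕ} {m : Fin N → ℝ} (hm : ∀ i, 0 < m i)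
    (hM : ∑ i, m i = 1) {μ₀ μ : ℝ}
    (hμ₀ : 0 < μ₀) (hmμ₀ : ∀ i, μ₀ ≤ m i) (hμ : ∀ i, m i ≤ μ) {sh : Fin 3 → V3} {e : V3}
    (hs : GunShape sh e) {E R V δ₁ η₀ : ℝ} (hE : E ≤ 0) (hδ₁ : 0 < δ₁) (hδ₁1 : δ₁ ≤ 1)
    (hη₀ : 0 < η₀) (hη₁ : η₀ ≤ 1 / 2) {G₀ u₀ c γ U₁ ε₂ τ s s' : ℝ}
    (hN8 : 8 ≤ N) (hG₀ : G₀ = δ₁ ^ 2 * μ₀ ^ 2 * N / (128 * μ))
    (hu₀ : u₀ = ∑ k, ∑ l, 1 / ‖sh k - sh l‖) (hc : c = δ₁ / 32)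
    (hK : R / c + 2 * μ / (η₀ * μ₀) + 1 ≤ K) (hN1 : (2 * (K : ℝ) + 1) ^ 4 * 4 < N)
    (hN3 : 6 * μ / c ≤ G₀) (hU₁ : 8000 / c ≤ U₁) (hε₀ : 0 < ε₂) (hε₁ : ε₂ ≤ 1 / 4)
    (hεU : 8 * (ε₂ * U₁) ≤ G₀) (hγ0 : 0 < γ) (hγ1 : γ ≤ 1 / 2)
    (hγU : γ * (U₁ + 1) ≤ 2 * G₀) (hN4 : 4 * μ ^ 2 * u₀ / γ ≤ δ₁ / 16)
    (hτ : 0 < τ) (hs' : 0 < s') (hss : s' ≤ s)
    (hvol : N * (4 * s ^ 3 + 2 * (V + 1) * τ * s' ^ 2) ≤ ε₂ ^ 3 * c ^ 3 / 5000)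
    {x : Ph N} (hnc : x ∈ NC N) (hcom : ∑ i, m i • x.1 i = 0) (hmom : ∑ i, x.2 i = 0)
    (hen : kin m x.2 - pot m x.1 = E) (hR : ∀ i, ‖x.1 i‖ ≤ R) (hV : ∀ i, ‖x.2 i‖ ≤ m i * V) :
    ∃ (r : ℝ) (F : Finset (Fin N)) (g : Fin 3 → Fin N) (z : V3) (q v : Fin N → V3),
      m (g 0) ^ 2 * u₀ / (16 * (pot m x.1 + 1)) ≤ r ∧
      r ≤ 4 * m (g 0) ^ 2 * u₀ / (γ * (pot m x.1 + 1)) ∧ r ≤ δ₁ / 16 ∧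
      (F.card : ℝ) ≤ 256 * (pot m x.1 + 1) * τ ^ 2 / (μ₀ * s ^ 2) ∧
      Prep3A N (R + 1) c (V + 1) (√(4 * (pot m x.1 + 1) / (μ₀ * N))) τ s s' r sh F g z q v ∧
      (∀ k, |m (g k) / m (g 0) - 1| ≤ η₀) ∧
      ((q, fun i => m i • v i) : Ph N) ∈ NC N ∧ ∑ i, m i • q i = 0 ∧ ∑ i, m i • v i = 0 ∧
      kin m (fun i => m i • v i) - pot m q = E ∧
      (∀ i, ‖q i - x.1 i‖ ≤ δ₁) ∧ (∀ i, ‖v i - (m i)⁻¹ • x.2 i‖ ≤ δ₁) :=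
  prep3A_of spreadLines hm hM hμ₀ hmμ₀ hμ hs hE hδ₁ hδ₁1 hη₀ hη₁ hN8 hG₀ hu₀ hc hK hN1 hN3 hU₁
    hε₀ hε₁ hεU hγ0 hγ1 hγU hN4 hτ hs' hss hvol hnc hcom hmom hen hR hV

end Pool.Agent.NBody
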