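import Mathlib
import Pool.Agent.NBody.ThPrepM
import Pool.Agent.NBody.ThDefs3B

/-!
Prepared states of type I-B: a tight pair; the energy comes from a dilation of the configuration.
-/

set_option autoImplicit false
open scoped RealInnerProductSpace
open Set Finset Filter Topology

namespace Pool.Agent.NBody

/-- the bodies other than `a`, `b` -/
def rest2 {N : ℕ} (a b : Fin N) : Finset (Fin N) := (Finset.univ.erase a).erase b

theorem mem_rest2 {N : ℕ} {a b i : Fin N} : i ∈ rest2 a b ↔ i ≠ b ∧ i ≠ a := by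
  simp [rest2]

theorem sum_pair_rest {N : ℕ} {a b : Fin N} (hab : a ≠ b) {M : Type*} [AddCommMonoid M]
    (f : Fin N → M) : ∑ i, f i = f a + f b + ∑ i ∈ rest2 a b, f i := by
  have h1 : b ∈ (Finset.univ.erase a : Finset (Fin N)) := by simp [hab.symm]
  rw [← Finset.add_sum_erase _ f (Finset.mem_univ a), ← Finset.add_sum_erase _ f h1, ← add_assoc]
  rfl

/-- splitting of the weighted double sum, two bodies -/
theorem invdM_split2 {N : ℕ} {a b : Fin N} (hab : a ≠ b) (m : Fin N → ℝ) (q : Fin N → V3) :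
    invdM m q = 2 * (m a * m b / ‖q a - q b‖) +
      2 * ∑ j ∈ rest2 a b, (m a * m j / ‖q a - q j‖ + m b * m j / ‖q b - q j‖) +
      ∑ i ∈ rest2 a b, ∑ j ∈ rest2 a b, m i * m j / ‖q i - q j‖ := by
  unfold invdM
  have h1 : ∀ i, ∑ j, m i * m j / ‖q i - q j‖ =
      m i * m a / ‖q i - q a‖ + m i * m b / ‖q i - q b‖ +
        ∑ j ∈ rest2 a b, m i * m j / ‖q i - q j‖ := fun i => sum_pair_rest hab _
  simp only [h1]
  rw [sum_pair_rest hab, Finset.sum_add_distrib, Finset.sum_add_distrib, Finset.sum_add_distrib]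
  have h2 : ∑ i ∈ rest2 a b, m i * m a / ‖q i - q a‖ = ∑ j ∈ rest2 a b, m a * m j / ‖q a - q j‖ :=
    Finset.sum_congr rfl (fun j _ => by rw [norm_sub_rev, mul_comm (m j)])
  have h3 : ∑ i ∈ rest2 a b, m i * m b / ‖q i - q b‖ = ∑ j ∈ rest2 a b, m b * m j / ‖q b - q j‖ :=
    Finset.sum_congr rfl (fun j _ => by rw [norm_sub_rev, mul_comm (m j)])
  rw [h2, h3, sub_self, sub_self, norm_zero, div_zero, div_zero, norm_sub_rev (q b) (q a),
    mul_comm (m b) (m a)]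
  ring

/-- the masses of the bodies outside the pair -/
noncomputable def restMass2 {N : ℕ} (a b : Fin N) (m : Fin N → ℝ) (i : Fin N) : ℝ :=
  if i ∈ rest2 a b then m i else 0

theorem invdM_restMass2 {N : ℕ} {a b : Fin N} (hab : a ≠ b) (m : Fin N → ℝ)
    (q : Fin N → V3) : invdM (restMass2 a b m) q =
      ∑ i ∈ rest2 a b, ∑ j ∈ rest2 a b, m i * m j / ‖q i - q j‖ := by
  have ha : restMass2 a b m a = 0 := by simp [restMass2, mem_rest2]
  have hb : restMass2 a b m b = 0 := by simp [restMass2, mem_rest2]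
  have hr : ∀ i ∈ rest2 a b, restMass2 a b m i = m i := fun i hi => by
    unfold restMass2
    rw [if_pos hi]
  rw [invdM_split2 hab, ha, hb]
  simp only [zero_mul, zero_div, Finset.sum_const_zero, mul_zero, zero_add]
  apply Finset.sum_congr rfl
  intro i hi
  apply Finset.sum_congr rfl
  intro j hj
  rw [hr i hi, hr j hj]

theorem invdM_rest2_le {N : ℕ} {a b : Fin N} (hab : a ≠ b) {m : Fin N → ℝ}
    (hm : ∀ i, 0 < m i) (q : Fin N → V3) :
    ∑ i ∈ rest2 a b, ∑ j ∈ rest2 a b, m i * m j / ‖q i - q j‖ ≤ invdM m q := by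
  rw [invdM_split2 hab]
  have h1 : 0 ≤ m a * m b / ‖q a - q b‖ := by
    have h1 := hm a
    have h2 := hm b
    positivity
  have h2 : 0 ≤ ∑ j ∈ rest2 a b, (m a * m j / ‖q a - q j‖ + m b * m j / ‖q b - q j‖) :=
    Finset.sum_nonneg (fun j _ => by
      have h1 := hm a
      have h2 := hm b
      have h3 := hm j
      positivity)
  linarith

theorem invdM_dilate {N : ℕ} (w : Fin N → ℝ) (q : Fin N → V3) {s : ℝ} (hs : 0 < s) :
    invdM w (fun i => s • q i) = s⁻¹ * invdM w q := by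
  unfold invdM
  rw [Finset.mul_sum]
  apply Finset.sum_congr rfl
  intro i _
  rw [Finset.mul_sum]
  apply Finset.sum_congr rfl
  intro j _
  rw [← smul_sub, norm_smul, Real.norm_of_nonneg hs.le, div_eq_mul_inv, div_eq_mul_inv, mul_inv]
  ring

/-- the positions with a tight pair -/
noncomputable def pairPos {N : ℕ} (a b : Fin N) (α β : ℝ) (e z : V3) (q₂ : Fin N → V3) (r : ℝ)
    (i : Fin N) : V3 :=
  if i = a then z + (β * r) • e else if i = b then z - (α * r) • e else q₂ i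

theorem pairPos_a {N : ℕ} (a b : Fin N) (α β : ℝ) (e z : V3) (q₂ : Fin N → V3) (r : ℝ) :
    pairPos a b α β e z q₂ r a = z + (β * r) • e := by
  unfold pairPos
  rw [if_pos rfl]

theorem pairPos_b {N : ℕ} {a b : Fin N} (hab : a ≠ b) (α β : ℝ) (e z : V3) (q₂ : Fin N → V3)
    (r : ℝ) : pairPos a b α β e z q₂ r b = z - (α * r) • e := by
  unfold pairPos
  rw [if_neg hab.symm, if_pos rfl]

theorem pairPos_rest {N : ℕ} {a b : Fin N} (α β : ℝ) (e z : V3) (q₂ : Fin N → V3) (r : ℝ)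
    {j : Fin N} (hj : j ∈ rest2 a b) : pairPos a b α β e z q₂ r j = q₂ j := by
  rw [mem_rest2] at hj
  unfold pairPos
  rw [if_neg hj.2, if_neg hj.1]

/-- Energy match: the size of the tight pair is determined by the energy. -/
theorem exists_size2 {N : ℕ} {a b : Fin N} (hab : a ≠ b) {m : Fin N → ℝ} (hm : ∀ i, 0 < m i)
    (hM : ∑ i, m i = 1) {α β : ℝ} (hαβ : α + β = 1) {e : V3} (he : ‖e‖ = 1) (he2 : e 2 = 0)
    (z : V3) (q₂ : Fin N → V3) {c : ℝ} (hc : 0 < c) (hlay : ∀ j ∈ rest2 a b, c ≤ |q₂ j 2 - z 2|)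
    {Y r₁ r₂ : ℝ} (hr₁ : 0 < r₁) (hr : r₁ ≤ r₂) (h1 : Y ≤ 2 * (m a * m b) / r₁)
    (h2 : 2 * (m a * m b) / r₂ + 2 * (m a + m b) / c +
      ∑ i ∈ rest2 a b, ∑ j ∈ rest2 a b, m i * m j / ‖q₂ i - q₂ j‖ ≤ Y) :
    ∃ r, r₁ ≤ r ∧ r ≤ r₂ ∧ invdM m (pairPos a b α β e z q₂ r) = Y := by
  have hr₂ : 0 < r₂ := hr₁.trans_le hr
  have hma := hm a
  have hmb := hm b
  obtain ⟨A, hA⟩ : ∃ A : ℝ, A = ∑ i ∈ rest2 a b, ∑ j ∈ rest2 a b, m i * m j / ‖q₂ i - q₂ j‖ :=
    ⟨_, rfl⟩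
  obtain ⟨Cr, hCr⟩ : ∃ Cr : ℝ → ℝ, Cr = fun r => ∑ j ∈ rest2 a b,
      (m a * m j / ‖z + (β * r) • e - q₂ j‖ + m b * m j / ‖z - (α * r) • e - q₂ j‖) := ⟨_, rfl⟩
  have hdist : ∀ (s : ℝ), ∀ j ∈ rest2 a b, c ≤ ‖z + s • e - q₂ j‖ := by
    intro s j hj
    refine (hlay j hj).trans ?_
    have h3 : |(z + s • e - q₂ j) 2| ≤ ‖z + s • e - q₂ j‖ := abs_coord_le _ _
    have h4 : (z + s • e - q₂ j) 2 = z 2 - q₂ j 2 := by
      simp [he2]
    rw [h4, abs_sub_comm] at h3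
    exact h3
  have hdist' : ∀ (s : ℝ), ∀ j ∈ rest2 a b, c ≤ ‖z - s • e - q₂ j‖ := by
    intro s j hj
    have h3 := hdist (-s) j hj
    rwa [neg_smul, ← sub_eq_add_neg] at h3
  have hsplit : ∀ r, 0 < r → invdM m (pairPos a b α β e z q₂ r) =
      2 * (m a * m b) / r + 2 * Cr r + A := by
    intro r hr0
    rw [invdM_split2 hab, pairPos_a, pairPos_b hab]
    have h3 : z + (β * r) • e - (z - (α * r) • e) = r • e := by
      have h4 : z + (β * r) • e - (z - (α * r) • e) = ((α + β) * r) • e := by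
        rw [add_mul, add_smul]
        abel
      rw [h4, hαβ, one_mul]
    rw [h3, norm_smul, he, mul_one, Real.norm_of_nonneg hr0.le, hCr, hA]
    have h5 : ∑ j ∈ rest2 a b, (m a * m j / ‖z + (β * r) • e - pairPos a b α β e z q₂ r j‖ +
        m b * m j / ‖z - (α * r) • e - pairPos a b α β e z q₂ r j‖) = ∑ j ∈ rest2 a b,
      (m a * m j / ‖z + (β * r) • e - q₂ j‖ + m b * m j / ‖z - (α * r) • e - q₂ j‖) :=
      Finset.sum_congr rfl (fun j hj => by rw [pairPos_rest α β e z q₂ r hj])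
    have h6 : ∑ i ∈ rest2 a b, ∑ j ∈ rest2 a b,
        m i * m j / ‖pairPos a b α β e z q₂ r i - pairPos a b α β e z q₂ r j‖ =
        ∑ i ∈ rest2 a b, ∑ j ∈ rest2 a b, m i * m j / ‖q₂ i - q₂ j‖ := by
      apply Finset.sum_congr rfl
      intro i hi
      apply Finset.sum_congr rfl
      intro j hj
      rw [pairPos_rest α β e z q₂ r hi, pairPos_rest α β e z q₂ r hj]
    rw [h5, h6]
    ring
  have hCnn : ∀ r, 0 ≤ Cr r := by
    intro r
    rw [hCr]
    exact Finset.sum_nonneg (fun j _ => by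
      have h3 := hm j
      positivity)
  have hrest1 : ∑ j ∈ rest2 a b, m j ≤ 1 := by
    rw [← hM]
    exact Finset.sum_le_sum_of_subset_of_nonneg (Finset.subset_univ _) (fun i _ _ => (hm i).le)
  have hCle : ∀ r, Cr r ≤ (m a + m b) / c := by
    intro r
    have h3 : Cr r ≤ ∑ j ∈ rest2 a b, (m a + m b) / c * m j := by
      rw [hCr]
      apply Finset.sum_le_sum
      intro j hj
      have hmj := hm j
      have h4 : m a * m j / ‖z + (β * r) • e - q₂ j‖ ≤ m a * m j / c :=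
        div_le_div_of_nonneg_left (by positivity) hc (hdist _ j hj)
      have h5 : m b * m j / ‖z - (α * r) • e - q₂ j‖ ≤ m b * m j / c :=
        div_le_div_of_nonneg_left (by positivity) hc (hdist' _ j hj)
      have h6 : (m a + m b) / c * m j = m a * m j / c + m b * m j / c := by ring
      rw [h6]
      exact add_le_add h4 h5
    rw [← Finset.mul_sum] at h3
    exact h3.trans (mul_le_of_le_one_right (by positivity) hrest1)
  have hcont : ContinuousOn (fun r => 2 * (m a * m b) / r + 2 * Cr r) (Icc r₁ r₂) := by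
    apply ContinuousOn.add
    · apply ContinuousOn.div continuousOn_const continuousOn_id
      intro r hr
      exact (hr₁.trans_le hr.1).ne'
    · apply ContinuousOn.mul continuousOn_const
      apply Continuous.continuousOn
      rw [hCr]
      apply continuous_finsetSum
      intro j hj
      apply Continuous.add
      · apply Continuous.div continuous_const
        · exact ((continuous_const.add ((continuous_const.mul continuous_id).smul
            continuous_const)).sub continuous_const).norm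
        · intro r
          exact (hc.trans_le (hdist _ j hj)).ne'
      · apply Continuous.div continuous_const
        · exact ((continuous_const.sub ((continuous_const.mul continuous_id).smul
            continuous_const)).sub continuous_const).norm
        · intro r
          exact (hc.trans_le (hdist' _ j hj)).ne'
  have hmem : Y - A ∈ Icc (2 * (m a * m b) / r₂ + 2 * Cr r₂)
      (2 * (m a * m b) / r₁ + 2 * Cr r₁) := by
    constructor
    · have h3 := hCle r₂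
      have h4 : 2 * (m a + m b) / c = 2 * ((m a + m b) / c) := by ring
      rw [← hA] at h2
      linarith
    · have h3 := hCnn r₁
      have h4 : 0 ≤ A := by
        rw [hA]
        exact Finset.sum_nonneg (fun i _ => Finset.sum_nonneg (fun j _ => by
          have h1 := hm i
          have h2 := hm j
          positivity))
      linarith
  obtain ⟨r, hr', hY⟩ := intermediate_value_Icc' hr hcont hmem
  refine ⟨r, hr'.1, hr'.2, ?_⟩
  rw [hsplit r (hr₁.trans_le hr'.1)]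
  simp only at hY
  linarith

/-- the kinetic energy of a pair -/
theorem pair_kin {ma mb α β M : ℝ} (hM : M = ma + mb) (hM0 : 0 < M) (hα : α = ma / M)
    (hβ : β = mb / M) (uc w : V3) :
    ma * ‖uc + β • w‖ ^ 2 + mb * ‖uc - α • w‖ ^ 2 = M * ‖uc‖ ^ 2 + ma * mb / M * ‖w‖ ^ 2 := by
  rw [@norm_add_sq_real, @norm_sub_sq_real, inner_smul_right, inner_smul_right, norm_smul,
    norm_smul, mul_pow, mul_pow, Real.norm_eq_abs, Real.norm_eq_abs, sq_abs, sq_abs]
  have h1 : ma * β = mb * α := by rw [hα, hβ]; ring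
  have h2 : ma * β ^ 2 + mb * α ^ 2 = ma * mb / M := by
    rw [hα, hβ]
    field_simp
    rw [hM]
    ring
  have h3 : ma * (‖uc‖ ^ 2 + 2 * (β * ⟪uc, w⟫) + β ^ 2 * ‖w‖ ^ 2) +
      mb * (‖uc‖ ^ 2 - 2 * (α * ⟪uc, w⟫) + α ^ 2 * ‖w‖ ^ 2) =
      (ma + mb) * ‖uc‖ ^ 2 + 2 * (ma * β - mb * α) * ⟪uc, w⟫ +
        (ma * β ^ 2 + mb * α ^ 2) * ‖w‖ ^ 2 := by ring
  rw [h3, h2, h1, ← hM]
  ring

/-- the first horizontal unit vector -/
noncomputable def e1 : V3 := EuclideanSpace.single (0 : Fin 3) (1 : ℝ)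

/-- the second horizontal unit vector -/
noncomputable def e2 : V3 := EuclideanSpace.single (1 : Fin 3) (1 : ℝ)

theorem norm_e1 : ‖e1‖ = 1 := by
  unfold e1
  simp

theorem norm_e2 : ‖e2‖ = 1 := by
  unfold e2
  simp

theorem e1_apply_two : e1 2 = 0 := by
  unfold e1
  simp

theorem inner_e1 (z : V3) : ⟪e1, z⟫ = z 0 := by
  unfold e1
  rw [EuclideanSpace.inner_single_left]
  simp

theorem inner_e2 (z : V3) : ⟪z, e2⟫ = z 1 := by
  unfold e2
  rw [EuclideanSpace.inner_single_right]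
  simp

theorem norm_sq_coord (z : V3) : ‖z‖ ^ 2 = z 0 ^ 2 + z 1 ^ 2 + z 2 ^ 2 := by
  rw [EuclideanSpace.norm_sq_eq, Fin.sum_univ_three]
  simp only [Real.norm_eq_abs, sq_abs]

/-- the loss by the spreading is smaller than the gain by the dilation -/
theorem dilate_arith {θ ε : ℝ} (hθ0 : 0 < θ) (hθ1 : θ ≤ 1) (hε : 16 * ε ≤ θ) :
    ((1 - ε) ^ 2)⁻¹ * (1 + θ)⁻¹ ≤ 1 - θ / 4 := by
  have h1 : 0 < 1 - ε := by linarith
  have h2 : 0 < (1 - ε) ^ 2 * (1 + θ) := by positivity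
  rw [← mul_inv, inv_le_iff_one_le_mul₀ h2]
  have h3 : 1 - θ / 8 ≤ (1 - ε) ^ 2 := by nlinarith [sq_nonneg ε]
  have h4 : (1 - θ / 8) * (1 + θ) ≤ (1 - ε) ^ 2 * (1 + θ) :=
    mul_le_mul_of_nonneg_right h3 (by linarith)
  have h5 : (1 - θ / 4) * ((1 - θ / 8) * (1 + θ)) ≤ (1 - θ / 4) * ((1 - ε) ^ 2 * (1 + θ)) :=
    mul_le_mul_of_nonneg_left h4 (by linarith)
  refine le_trans ?_ h5
  nlinarith [mul_pos hθ0 hθ0, mul_pos (mul_pos hθ0 hθ0) hθ0]

/-- M8, type I-B: prepared states with a tight pair; no condition on the masses and the velocities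
of the other bodies. -/
theorem prep3B_at {N : ℕ} {m : Fin N → ℝ} (hm : ∀ i, 0 < m i) (hM : ∑ i, m i = 1)
    {E R δ θ ε c τ ω : ℝ} {sep : Fin N → Fin N → ℝ} {a b : Fin N} (hab : a ≠ b)
    (hδ : 0 < δ) (hδ1 : δ ≤ 1) (hc : c = δ / 32) (hθ0 : 0 < θ) (hθ1 : θ ≤ 1)
    (hθR : θ * R ≤ δ / 8) (hε : 16 * ε ≤ θ) (hτ : 0 ≤ τ)
    (hsep : ∀ i j, i ≠ j → 0 < sep i j)
    {x : Ph N} (hnc : x ∈ NC N) (hcom : ∑ i, m i • x.1 i = 0) (hmom : ∑ i, x.2 i = 0)
    (hen : kin m x.2 - pot m x.1 = E) (hR : ∀ i, ‖x.1 i‖ ≤ R)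
    (hclose : ‖x.1 a - x.1 b‖ ≤ δ / 16) (hωa : ‖(m a)⁻¹ • x.2 a‖ ≤ ω)
    (hωb : ‖(m b)⁻¹ • x.2 b‖ ≤ ω) (hU : 0 < pot m x.1)
    (hcross : 8 * (m a + m b) / c ≤ θ * pot m x.1)
    (hkin : m a * (ω * δ + δ ^ 2) ≤ 2 * pot m x.1)
    (hsize : 8 * (m a * m b) / (θ * pot m x.1) ≤ δ / 16)
    (hspread : ∀ v' : Fin N → V3, (∀ i, i ≠ a → v' i = (m i)⁻¹ • x.2 i) → ‖v' a‖ ≤ ω →
      ∀ q₁ : Fin N → V3, (∀ i, ‖q₁ i‖ ≤ R + 1) → (∀ i j, i ≠ j → q₁ i ≠ q₁ j) →
      ∀ w : Fin N → ℝ, (∀ i, 0 ≤ w i) → (∀ i, w i ≤ m i) →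
      ∃ q₂ : Fin N → V3, (∀ i, ‖q₂ i - q₁ i‖ ≤ c) ∧
        (∀ i j, i ≠ j → ∀ t ∈ Icc (0 : ℝ) τ,
          sep i j ≤ ‖(q₂ i + t • v' i) - (q₂ j + t • v' j)‖) ∧
        invdM w q₂ ≤ ((1 - ε) ^ 2)⁻¹ * invdM w q₁) :
    ∃ (r : ℝ) (z uc : V3) (q v : Fin N → V3),
      m a * m b / (2 * pot m x.1) ≤ r ∧ r ≤ 8 * (m a * m b) / (θ * pot m x.1) ∧ r ≤ δ / 16 ∧
      (∀ i, ‖q i‖ ≤ R + 1) ∧ (m a + m b) • z = m a • q a + m b • q b ∧
      (m a + m b) • uc = m a • v a + m b • v b ∧ ‖q a - q b‖ = r ∧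
      ‖v a - v b‖ ≤ 2 * ω + δ / 4 ∧ ‖uc‖ ≤ ω ∧
      (r * (δ / 4)) ^ 2 ≤ ‖q a - q b‖ ^ 2 * ‖v a - v b‖ ^ 2 - ⟪q a - q b, v a - v b⟫ ^ 2 ∧
      (∀ i, i ≠ a → i ≠ b → ∀ t ∈ Icc (0 : ℝ) τ, sep i a ≤ ‖(q i + t • v i) - (z + t • uc)‖) ∧
      (∀ i j, i ≠ a → i ≠ b → j ≠ a → j ≠ b → i ≠ j → ∀ t ∈ Icc (0 : ℝ) τ,
        sep i j ≤ ‖(q i + t • v i) - (q j + t • v j)‖) ∧
      (∀ i, i ≠ a → i ≠ b → v i = (m i)⁻¹ • x.2 i) ∧
      ((q, fun i => m i • v i) : Ph N) ∈ NC N ∧ ∑ i, m i • q i = 0 ∧ ∑ i, m i • v i = 0 ∧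
      kin m (fun i => m i • v i) - pot m q = E ∧
      (∀ i, ‖q i - x.1 i‖ ≤ δ) ∧ (∀ i, ‖v i - (m i)⁻¹ • x.2 i‖ ≤ δ) := by
  classical
  have hR0 : 0 ≤ R := (norm_nonneg _).trans (hR a)
  have hma := hm a
  have hmb := hm b
  have hc0 : 0 < c := by rw [hc]; positivity
  have hω0 : 0 ≤ ω := (norm_nonneg _).trans hωa
  obtain ⟨M, hMM⟩ : ∃ M : ℝ, M = m a + m b := ⟨_, rfl⟩
  have hM0 : 0 < M := by rw [hMM]; positivity
  obtain ⟨α, hα⟩ : ∃ α : ℝ, α = m a / M := ⟨_, rfl⟩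
  obtain ⟨β, hβ⟩ : ∃ β : ℝ, β = m b / M := ⟨_, rfl⟩
  have hαβ : α + β = 1 := by rw [hα, hβ, ← add_div, ← hMM, div_self hM0.ne']
  have hα0 : 0 < α := by rw [hα]; positivity
  have hβ0 : 0 < β := by rw [hβ]; positivity
  have hMα : M * α = m a := by rw [hα]; field_simp
  have hMβ : M * β = m b := by rw [hβ]; field_simp
  have hαβm : m a * β = m b * α := by rw [hα, hβ]; ring
  -- velocities
  obtain ⟨u, hu⟩ : ∃ u : Fin N → V3, u = fun i => (m i)⁻¹ • x.2 i := ⟨_, rfl⟩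
  have hui : ∀ i, u i = (m i)⁻¹ • x.2 i := fun i => by rw [hu]
  have hmu : ∀ i, m i • u i = x.2 i := by
    intro i
    rw [hui, smul_smul, mul_inv_cancel₀ (hm i).ne', one_smul]
  have hxu : x.2 = fun i => m i • u i := by
    funext i
    rw [hmu]
  have husum : ∑ i, m i • u i = 0 := by
    simp only [hmu]
    exact hmom
  obtain ⟨uc, huc⟩ : ∃ uc : V3, uc = α • u a + β • u b := ⟨_, rfl⟩
  rw [← hui] at hωa hωb
  have hucω : ‖uc‖ ≤ ω := by
    rw [huc]
    calc ‖α • u a + β • u b‖ ≤ ‖α • u a‖ + ‖β • u b‖ := norm_add_le _ _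
      _ = α * ‖u a‖ + β * ‖u b‖ := by
        rw [norm_smul, norm_smul, Real.norm_of_nonneg hα0.le, Real.norm_of_nonneg hβ0.le]
      _ ≤ α * ω + β * ω := add_le_add (mul_le_mul_of_nonneg_left hωa hα0.le)
        (mul_le_mul_of_nonneg_left hωb hβ0.le)
      _ = ω := by rw [← add_mul, hαβ, one_mul]
  obtain ⟨w₀, hw₀⟩ : ∃ w₀ : V3, w₀ = u a - u b := ⟨_, rfl⟩
  have hw₀ω : ‖w₀‖ ≤ 2 * ω := by
    rw [hw₀]
    exact (norm_sub_le _ _).trans (by linarith)
  have hua : u a = uc + β • w₀ := by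
    rw [huc, hw₀, smul_sub]
    have h1 : α • u a + β • u b + (β • u a - β • u b) = (α + β) • u a := by
      rw [add_smul]; abel
    rw [h1, hαβ, one_smul]
  have hub : u b = uc - α • w₀ := by
    rw [huc, hw₀, smul_sub]
    have h1 : α • u a + β • u b - (α • u a - α • u b) = (α + β) • u b := by
      rw [add_smul]; abel
    rw [h1, hαβ, one_smul]
  obtain ⟨κ, hκ1, hκ2⟩ : ∃ κ : ℝ, |κ| = δ / 4 ∧ 0 ≤ κ * w₀ 1 := by
    rcases le_total 0 (w₀ 1) with h | h
    · exact ⟨δ / 4, abs_of_pos (by positivity), by positivity⟩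
    · exact ⟨-(δ / 4), by rw [abs_neg]; exact abs_of_pos (by positivity), by nlinarith⟩
  obtain ⟨w, hw⟩ : ∃ w : V3, w = w₀ + κ • e2 := ⟨_, rfl⟩
  have hκe : ‖κ • e2‖ = δ / 4 := by
    rw [norm_smul, norm_e2, mul_one, Real.norm_eq_abs, hκ1]
  have hwn : ‖w‖ ≤ 2 * ω + δ / 4 := by
    rw [hw]
    exact (norm_add_le _ _).trans (by rw [hκe]; linarith)
  have hκsq : κ ^ 2 = (δ / 4) ^ 2 := by rw [← sq_abs, hκ1]
  have hwsq : ‖w‖ ^ 2 = ‖w₀‖ ^ 2 + 2 * (κ * w₀ 1) + κ ^ 2 := by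
    rw [hw, @norm_add_sq_real, inner_smul_right, inner_e2, norm_smul, norm_e2, mul_one,
      Real.norm_eq_abs, sq_abs]
  have hw1 : (δ / 4) ^ 2 ≤ w 1 ^ 2 := by
    have h1 : w 1 = w₀ 1 + κ := by
      rw [hw]
      simp [e2]
    rw [h1]
    have h2 : (w₀ 1 + κ) ^ 2 = w₀ 1 ^ 2 + 2 * (κ * w₀ 1) + κ ^ 2 := by ring
    rw [h2, hκsq]
    have := sq_nonneg (w₀ 1)
    linarith
  obtain ⟨v, hv⟩ : ∃ v : Fin N → V3, v = fun i => if i = a then uc + β • w else
      if i = b then uc - α • w else u i := ⟨_, rfl⟩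
  have hva : v a = uc + β • w := by rw [hv]; simp
  have hvb : v b = uc - α • w := by
    rw [hv]
    simp [hab.symm]
  have hvr : ∀ i, i ≠ a → i ≠ b → v i = u i := by
    intro i h1 h2
    rw [hv]
    simp only
    rw [if_neg h1, if_neg h2]
  have hvab : v a - v b = w := by
    rw [hva, hvb]
    have h1 : uc + β • w - (uc - α • w) = (α + β) • w := by
      rw [add_smul]; abel
    rw [h1, hαβ, one_smul]
  have hvmid : m a • v a + m b • v b = M • uc := by
    rw [hva, hvb, smul_add, smul_sub, smul_smul, smul_smul, hαβm, hMM, add_smul]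
    abel
  have humid : m a • u a + m b • u b = M • uc := by
    rw [huc, smul_add, smul_smul, smul_smul, hMα, hMβ]
  have hvu : ∀ i, ‖v i - u i‖ ≤ δ / 4 := by
    intro i
    by_cases h1 : i = a
    · subst h1
      have h2 : v i - u i = β • (κ • e2) := by
        rw [hva, hua, hw, smul_add]; abel
      rw [h2, norm_smul, hκe, Real.norm_of_nonneg hβ0.le]
      have : β ≤ 1 := by linarith
      nlinarith
    · by_cases h2 : i = b
      · subst h2
        have h3 : v i - u i = -(α • (κ • e2)) := by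
          rw [hvb, hub, hw, smul_add]; abel
        rw [h3, norm_neg, norm_smul, hκe, Real.norm_of_nonneg hα0.le]
        have : α ≤ 1 := by linarith
        nlinarith
      · rw [hvr i h1 h2, sub_self, norm_zero]
        positivity
  have hvsum : ∑ i, m i • v i = 0 := by
    rw [sum_pair_rest hab, hvmid, ← humid]
    have h1 : ∑ i ∈ rest2 a b, m i • v i = ∑ i ∈ rest2 a b, m i • u i :=
      Finset.sum_congr rfl (fun i hi => by
        rw [mem_rest2] at hi
        rw [hvr i hi.2 hi.1])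
    rw [h1, ← sum_pair_rest hab (fun i => m i • u i), husum]
  -- energies of x
  obtain ⟨U, hUU⟩ : ∃ U : ℝ, U = pot m x.1 := ⟨_, rfl⟩
  rw [← hUU] at hU hcross hkin hsize ⊢
  obtain ⟨Ku, hKu⟩ : ∃ Ku : ℝ, Ku = ∑ i, m i * ‖u i‖ ^ 2 := ⟨_, rfl⟩
  obtain ⟨Kv, hKv⟩ : ∃ Kv : ℝ, Kv = ∑ i, m i * ‖v i‖ ^ 2 := ⟨_, rfl⟩
  have hen' : Ku / 2 - E = U := by
    rw [hxu, kin_eqM hm, ← hKu, ← hUU] at hen
    linarith
  have hA : invdM m x.1 = 2 * U := by
    rw [hUU, pot_eq_invdM]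
    ring
  have hKvu : Kv = Ku + m a * m b / M * (2 * (κ * w₀ 1) + κ ^ 2) := by
    rw [hKv, hKu, sum_pair_rest hab (fun i => m i * ‖v i‖ ^ 2),
      sum_pair_rest hab (fun i => m i * ‖u i‖ ^ 2)]
    have h1 : ∑ i ∈ rest2 a b, m i * ‖v i‖ ^ 2 = ∑ i ∈ rest2 a b, m i * ‖u i‖ ^ 2 :=
      Finset.sum_congr rfl (fun i hi => by
        rw [mem_rest2] at hi
        rw [hvr i hi.2 hi.1])
    rw [h1, hva, hvb, pair_kin hMM hM0 hα hβ, hua, hub, pair_kin hMM hM0 hα hβ, hwsq]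
    ring
  have hmr0 : 0 ≤ m a * m b / M := by positivity
  have hmr1 : m a * m b / M ≤ m a := by
    rw [div_le_iff₀ hM0, hMM]
    nlinarith
  have hκ3 : κ * w₀ 1 ≤ δ / 4 * (2 * ω) := by
    refine (le_abs_self _).trans ?_
    rw [abs_mul, hκ1]
    exact mul_le_mul_of_nonneg_left ((abs_coord_le w₀ 1).trans hw₀ω) (by positivity)
  have hKlow : Ku ≤ Kv := by
    rw [hKvu]
    have : 0 ≤ m a * m b / M * (2 * (κ * w₀ 1) + κ ^ 2) := by positivity
    linarith
  have hKup : Kv ≤ Ku + 2 * U := by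
    rw [hKvu]
    have h1 : 2 * (κ * w₀ 1) + κ ^ 2 ≤ ω * δ + δ ^ 2 := by
      rw [hκsq]
      nlinarith
    have h2 : m a * m b / M * (2 * (κ * w₀ 1) + κ ^ 2) ≤ m a * (ω * δ + δ ^ 2) :=
      mul_le_mul hmr1 h1 (by positivity) hma.le
    linarith
  -- dilation and opening of the layer
  obtain ⟨q', hq'⟩ : ∃ q' : Fin N → V3, q' = fun i => (1 + θ) • x.1 i := ⟨_, rfl⟩
  have hq'x : ∀ i, ‖q' i - x.1 i‖ ≤ δ / 8 := by
    intro i
    have h1 : q' i - x.1 i = θ • x.1 i := by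
      rw [hq']
      simp only
      rw [add_smul, one_smul]; abel
    rw [h1, norm_smul, Real.norm_of_nonneg hθ0.le]
    exact (mul_le_mul_of_nonneg_left (hR i) hθ0.le).trans hθR
  obtain ⟨z₀, hz₀⟩ : ∃ z₀ : V3, z₀ = q' a := ⟨_, rfl⟩
  have hρ : (0:ℝ) ≤ δ / 8 := by positivity
  obtain ⟨q₁, hq₁⟩ : ∃ q₁ : Fin N → V3, q₁ = fun j => if j = a then z₀ else
      openLayer (z₀ 2) (δ / 8) (q' j) := ⟨_, rfl⟩
  have hq₁a : q₁ a = z₀ := by rw [hq₁]; simp
  have hq₁r : ∀ j, j ≠ a → q₁ j = openLayer (z₀ 2) (δ / 8) (q' j) := by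
    intro j hj
    rw [hq₁]
    simp only
    rw [if_neg hj]
  have hq₁q : ∀ i, ‖q₁ i - q' i‖ ≤ δ / 8 := by
    intro i
    by_cases h1 : i = a
    · subst h1
      rw [hq₁a, hz₀, sub_self, norm_zero]
      exact hρ
    · rw [hq₁r i h1]
      exact openLayer_sub_self hρ _
  have hq₁h : ∀ i, i ≠ a → δ / 8 ≤ |q₁ i 2 - z₀ 2| := by
    intro i hi
    rw [hq₁r i hi]
    exact openLayer_height hρ _
  have hq₁x : ∀ i, ‖q₁ i - x.1 i‖ ≤ δ / 4 := by
    intro i
    calc ‖q₁ i - x.1 i‖ = ‖(q₁ i - q' i) + (q' i - x.1 i)‖ := by congr 1; abel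
      _ ≤ ‖q₁ i - q' i‖ + ‖q' i - x.1 i‖ := norm_add_le _ _
      _ ≤ δ / 8 + δ / 8 := add_le_add (hq₁q i) (hq'x i)
      _ = δ / 4 := by ring
  have hq₁R : ∀ i, ‖q₁ i‖ ≤ R + 1 := by
    intro i
    have h1 := hq₁x i
    have h2 := hR i
    calc ‖q₁ i‖ = ‖(q₁ i - x.1 i) + x.1 i‖ := by congr 1; abel
      _ ≤ ‖q₁ i - x.1 i‖ + ‖x.1 i‖ := norm_add_le _ _
      _ ≤ R + 1 := by linarith
  have hq'd : ∀ i j, ‖q' i - q' j‖ = (1 + θ) * ‖x.1 i - x.1 j‖ := by
    intro i j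
    rw [hq']
    simp only
    rw [← smul_sub, norm_smul, Real.norm_of_nonneg (by linarith)]
  have hxpos : ∀ i j, i ≠ j → 0 < ‖x.1 i - x.1 j‖ := fun i j hij =>
    norm_pos_iff.mpr (sub_ne_zero.mpr (hnc i j hij))
  have hq'pos : ∀ i j, i ≠ j → 0 < ‖q' i - q' j‖ := by
    intro i j hij
    rw [hq'd]
    have := hxpos i j hij
    positivity
  have hq₁ne : ∀ i j, i ≠ j → q₁ i ≠ q₁ j := by
    intro i j hij h
    by_cases hi : i = a
    · subst hi
      have h1 := hq₁h j hij.symm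
      rw [← h, hq₁a, sub_self, abs_zero] at h1
      linarith
    · by_cases hj : j = a
      · subst hj
        have h1 := hq₁h i hij
        rw [h, hq₁a, sub_self, abs_zero] at h1
        linarith
      · rw [hq₁r i hi, hq₁r j hj] at h
        have h1 := (hq'pos i j hij).trans_le (dist_le_openLayer (h := z₀ 2) hρ (q' i) (q' j))
        rw [h, sub_self, norm_zero] at h1
        exact lt_irrefl _ h1
  -- spreading
  have hrm : ∀ i, 0 ≤ restMass2 a b m i := by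
    intro i
    unfold restMass2
    split_ifs
    · exact (hm i).le
    · exact le_rfl
  have hrm' : ∀ i, restMass2 a b m i ≤ m i := by
    intro i
    unfold restMass2
    split_ifs
    · exact le_rfl
    · exact (hm i).le
  obtain ⟨v', hv'⟩ : ∃ v' : Fin N → V3, v' = fun i => if i = a then uc else u i := ⟨_, rfl⟩
  have hv'a : v' a = uc := by rw [hv']; simp
  have hv'r : ∀ i, i ≠ a → v' i = u i := by
    intro i hi
    rw [hv']
    simp only
    rw [if_neg hi]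
  obtain ⟨q₂, hq₂d, hq₂s, hq₂e⟩ := hspread v' (fun i hi => by rw [hv'r i hi, hui])
    (by rw [hv'a]; exact hucω) q₁ hq₁R hq₁ne (restMass2 a b m) hrm hrm'
  rw [invdM_restMass2 hab, invdM_restMass2 hab] at hq₂e
  have hlay : ∀ j ∈ rest2 a b, 2 * c ≤ |q₂ j 2 - q₂ a 2| := by
    intro j hj
    rw [mem_rest2] at hj
    have h1 := hq₁h j hj.2
    have h2 : |q₂ j 2 - q₁ j 2| ≤ c := by
      have h3 := abs_coord_le (q₂ j - q₁ j) 2
      rw [PiLp.sub_apply] at h3
      exact h3.trans (hq₂d j)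
    have h3 : |q₂ a 2 - z₀ 2| ≤ c := by
      have h3 := abs_coord_le (q₂ a - q₁ a) 2
      rw [PiLp.sub_apply, hq₁a] at h3
      have h4 := hq₂d a
      rw [hq₁a] at h4
      exact h3.trans h4
    have h4 : |q₁ j 2 - z₀ 2| ≤ |q₂ j 2 - q₂ a 2| + |q₂ j 2 - q₁ j 2| + |q₂ a 2 - z₀ 2| := by
      have h5 : q₁ j 2 - z₀ 2 = (q₂ j 2 - q₂ a 2) - (q₂ j 2 - q₁ j 2) + (q₂ a 2 - z₀ 2) := by ring
      rw [h5]
      exact (abs_add_le _ _).trans (add_le_add (abs_sub _ _) le_rfl)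
    have h6 : δ / 8 = 4 * c := by rw [hc]; ring
    linarith
  -- the energy of the rest
  obtain ⟨A₂, hA₂⟩ : ∃ A₂ : ℝ, A₂ = ∑ i ∈ rest2 a b, ∑ j ∈ rest2 a b,
      m i * m j / ‖q₂ i - q₂ j‖ := ⟨_, rfl⟩
  have hA₂le : A₂ ≤ (1 - θ / 4) * (2 * U) := by
    have h1 : ∑ i ∈ rest2 a b, ∑ j ∈ rest2 a b, m i * m j / ‖q₁ i - q₁ j‖ ≤
        (1 + θ)⁻¹ * (2 * U) := by
      rw [← hA, ← invdM_dilate m x.1 (by linarith : (0:ℝ) < 1 + θ), ← hq']
      refine le_trans ?_ (invdM_rest2_le hab hm q')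
      apply Finset.sum_le_sum
      intro i hi
      apply Finset.sum_le_sum
      intro j hj
      rw [mem_rest2] at hi hj
      by_cases hij : i = j
      · subst hij
        simp
      · rw [hq₁r i hi.2, hq₁r j hj.2]
        exact div_le_div_of_nonneg_left (mul_nonneg (hm i).le (hm j).le) (hq'pos i j hij)
          (dist_le_openLayer hρ _ _)
    rw [hA₂]
    refine hq₂e.trans ((mul_le_mul_of_nonneg_left h1 (by positivity)).trans ?_)
    rw [← mul_assoc]
    exact mul_le_mul_of_nonneg_right (dilate_arith hθ0 hθ1 hε) (by linarith)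
  -- the size of the pair
  have hcross' : 2 * (m a + m b) / (2 * c) ≤ θ * U / 4 := by
    have h1 : 2 * (m a + m b) / (2 * c) = (8 * (m a + m b) / c) / 8 := by
      field_simp
    have h2 : 0 < θ * U := by positivity
    rw [h1]
    linarith
  obtain ⟨r, hr1, hr2, hrY⟩ := exists_size2 hab hm hM hαβ norm_e1 e1_apply_two (q₂ a) q₂
    (by positivity : 0 < 2 * c) hlay
    (Y := Kv - 2 * E) (r₁ := m a * m b / (2 * U)) (r₂ := 8 * (m a * m b) / (θ * U))
    (by positivity) (by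
      rw [div_le_div_iff₀ (by positivity) (by positivity)]
      have h1 : 0 < m a * m b * U := by positivity
      nlinarith) (by
      have h1 : 2 * (m a * m b) / (m a * m b / (2 * U)) = 4 * U := by
        field_simp
        norm_num
      rw [h1]
      linarith) (by
      rw [← hA₂]
      have h1 : 2 * (m a * m b) / (8 * (m a * m b) / (θ * U)) = θ * U / 4 := by
        field_simp
        norm_num
      rw [h1]
      linarith)
  have hr0 : 0 < r := lt_of_lt_of_le (by positivity) hr1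
  have hrδ : r ≤ δ / 16 := hr2.trans hsize
  -- positions
  obtain ⟨Q, hQ⟩ : ∃ Q : Fin N → V3, Q = pairPos a b α β e1 (q₂ a) q₂ r := ⟨_, rfl⟩
  have hQa : Q a = q₂ a + (β * r) • e1 := by rw [hQ]; exact pairPos_a a b α β e1 _ q₂ r
  have hQb : Q b = q₂ a - (α * r) • e1 := by rw [hQ]; exact pairPos_b hab α β e1 _ q₂ r
  have hQr : ∀ j, j ≠ a → j ≠ b → Q j = q₂ j := fun j h1 h2 => by
    rw [hQ]
    exact pairPos_rest α β e1 _ q₂ r (mem_rest2.mpr ⟨h2, h1⟩)
  rw [← hQ] at hrY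
  have hQab : Q a - Q b = r • e1 := by
    rw [hQa, hQb]
    have h4 : q₂ a + (β * r) • e1 - (q₂ a - (α * r) • e1) = ((α + β) * r) • e1 := by
      rw [add_mul, add_smul]
      abel
    rw [h4, hαβ, one_mul]
  have hQmid : m a • Q a + m b • Q b = M • q₂ a := by
    rw [hQa, hQb, smul_add, smul_sub, smul_smul, smul_smul, ← mul_assoc, ← mul_assoc, hαβm, hMM,
      add_smul]
    abel
  have hq₂x : ∀ i, ‖q₂ i - x.1 i‖ ≤ 9 * δ / 32 := by
    intro i
    calc ‖q₂ i - x.1 i‖ = ‖(q₂ i - q₁ i) + (q₁ i - x.1 i)‖ := by congr 1; abel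
      _ ≤ ‖q₂ i - q₁ i‖ + ‖q₁ i - x.1 i‖ := norm_add_le _ _
      _ ≤ c + δ / 4 := add_le_add (hq₂d i) (hq₁x i)
      _ = 9 * δ / 32 := by rw [hc]; ring
  have hQx : ∀ i, ‖Q i - x.1 i‖ ≤ δ / 2 := by
    intro i
    have hz := hq₂x a
    by_cases h1 : i = a
    · subst h1
      calc ‖Q i - x.1 i‖ = ‖(q₂ i - x.1 i) + (β * r) • e1‖ := by rw [hQa]; congr 1; abel
        _ ≤ ‖q₂ i - x.1 i‖ + ‖(β * r) • e1‖ := norm_add_le _ _
        _ ≤ 9 * δ / 32 + δ / 16 := by
          apply add_le_add hz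
          rw [norm_smul, norm_e1, mul_one, Real.norm_of_nonneg (by positivity)]
          nlinarith
        _ ≤ δ / 2 := by linarith
    · by_cases h2 : i = b
      · subst h2
        calc ‖Q i - x.1 i‖ = ‖(q₂ a - x.1 a) + (x.1 a - x.1 i) - (α * r) • e1‖ := by
              rw [hQb]; congr 1; abel
          _ ≤ ‖(q₂ a - x.1 a) + (x.1 a - x.1 i)‖ + ‖(α * r) • e1‖ := norm_sub_le _ _
          _ ≤ (9 * δ / 32 + δ / 16) + δ / 16 := by
            apply add_le_add ((norm_add_le _ _).trans (add_le_add hz hclose))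
            rw [norm_smul, norm_e1, mul_one, Real.norm_of_nonneg (by positivity)]
            nlinarith
          _ ≤ δ / 2 := by linarith
      · rw [hQr i h1 h2]
        exact (hq₂x i).trans (by linarith)
  obtain ⟨m₀, hm₀⟩ : ∃ m₀ : V3, m₀ = ∑ i, m i • Q i := ⟨_, rfl⟩
  have hm₀n : ‖m₀‖ ≤ δ / 2 := by
    have h1 : m₀ = ∑ i, m i • (Q i - x.1 i) := by
      simp only [smul_sub]
      rw [hm₀, Finset.sum_sub_distrib, hcom, sub_zero]
    rw [h1]
    have h2 : ‖∑ i, m i • (Q i - x.1 i)‖ ≤ ∑ i, m i * (δ / 2) := by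
      refine (norm_sum_le _ _).trans (Finset.sum_le_sum (fun i _ => ?_))
      rw [norm_smul, Real.norm_of_nonneg (hm i).le]
      exact mul_le_mul_of_nonneg_left (hQx i) (hm i).le
    rw [← Finset.sum_mul, hM, one_mul] at h2
    exact h2
  have hqsub : ∀ i j, (Q i - m₀) - (Q j - m₀) = Q i - Q j := fun i j => by abel
  have hqx : ∀ i, ‖Q i - m₀ - x.1 i‖ ≤ δ := by
    intro i
    calc ‖Q i - m₀ - x.1 i‖ = ‖(Q i - x.1 i) - m₀‖ := by congr 1; abel
      _ ≤ ‖Q i - x.1 i‖ + ‖m₀‖ := norm_sub_le _ _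
      _ ≤ δ / 2 + δ / 2 := add_le_add (hQx i) hm₀n
      _ = δ := by ring
  refine ⟨r, q₂ a - m₀, uc, fun i => Q i - m₀, v, hr1, hr2, hrδ, ?_, ?_, ?_, ?_, ?_, hucω, ?_, ?_,
    ?_, ?_, ?_, ?_, hvsum, ?_, hqx, ?_⟩
  · intro i
    have h1 := hqx i
    have h2 := hR i
    have h5 : ‖Q i - m₀‖ ≤ ‖Q i - m₀ - x.1 i‖ + ‖x.1 i‖ := by
      calc ‖Q i - m₀‖ = ‖(Q i - m₀ - x.1 i) + x.1 i‖ := by congr 1; abel
        _ ≤ _ := norm_add_le _ _
    simp only
    linarith
  · simp only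
    rw [smul_sub, smul_sub, smul_sub, ← hMM, ← hQmid, hMM, add_smul]
    abel
  · rw [← hMM, hvmid]
  · simp only
    rw [hqsub, hQab, norm_smul, norm_e1, mul_one, Real.norm_of_nonneg hr0.le]
  · rw [hvab]
    exact hwn
  · simp only
    rw [hqsub, hQab, hvab, norm_smul, norm_e1, mul_one, Real.norm_of_nonneg hr0.le,
      inner_smul_left, inner_e1]
    simp only [conj_trivial]
    rw [norm_sq_coord w]
    have h1 := sq_nonneg (w 2)
    have h2 : r ^ 2 * (w 0 ^ 2 + w 1 ^ 2 + w 2 ^ 2) - (r * w 0) ^ 2 =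
        r ^ 2 * (w 1 ^ 2 + w 2 ^ 2) := by ring
    rw [h2, mul_pow]
    exact mul_le_mul_of_nonneg_left (by linarith) (by positivity)
  · intro i h1 h2 t ht
    have h3 := hq₂s i a h1 t ht
    rw [hv'a, hv'r i h1, ← hvr i h1 h2, ← hQr i h1 h2] at h3
    refine h3.trans (le_of_eq ?_)
    beta_reduce
    congr 1
    abel
  · intro i j h1 h2 h3 h4 hij t ht
    have h5 := hq₂s i j hij t ht
    rw [hv'r i h1, hv'r j h3, ← hvr i h1 h2, ← hvr j h3 h4, ← hQr i h1 h2, ← hQr j h3 h4] at h5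
    refine h5.trans (le_of_eq ?_)
    beta_reduce
    congr 1
    abel
  · intro i h1 h2
    rw [hvr i h1 h2, hui]
  · -- no collisions
    intro i j hij h
    have hQij : Q i = Q j := by
      have h1 : (Q i - m₀) = (Q j - m₀) := h
      exact sub_left_injective h1
    have hmixa : ∀ j, j ≠ a → j ≠ b → Q a ≠ Q j := by
      intro j h1 h2 h3
      rw [hQa, hQr j h1 h2] at h3
      have h4 := hlay j (mem_rest2.mpr ⟨h2, h1⟩)
      rw [← h3] at h4
      have h5 : (q₂ a + (β * r) • e1) 2 - q₂ a 2 = 0 := by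
        simp [e1_apply_two]
      rw [h5, abs_zero] at h4
      linarith
    have hmixb : ∀ j, j ≠ a → j ≠ b → Q b ≠ Q j := by
      intro j h1 h2 h3
      rw [hQb, hQr j h1 h2] at h3
      have h4 := hlay j (mem_rest2.mpr ⟨h2, h1⟩)
      rw [← h3] at h4
      have h5 : (q₂ a - (α * r) • e1) 2 - q₂ a 2 = 0 := by
        simp [e1_apply_two]
      rw [h5, abs_zero] at h4
      linarith
    have hQab' : Q a ≠ Q b := by
      intro h1
      rw [h1, sub_self] at hQab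
      have h2 : ‖r • e1‖ = 0 := by rw [← hQab, norm_zero]
      rw [norm_smul, norm_e1, mul_one, Real.norm_of_nonneg hr0.le] at h2
      linarith
    by_cases hia : i = a
    · subst hia
      by_cases hjb : j = b
      · subst hjb
        exact hQab' hQij
      · exact hmixa j hij.symm hjb hQij
    · by_cases hib : i = b
      · subst hib
        by_cases hja : j = a
        · subst hja
          exact hQab' hQij.symm
        · exact hmixb j hja hij.symm hQij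
      · by_cases hja : j = a
        · subst hja
          exact hmixa i hia hib hQij.symm
        · by_cases hjb : j = b
          · subst hjb
            exact hmixb i hia hib hQij.symm
          · rw [hQr i hia hib, hQr j hja hjb] at hQij
            have h1 := hq₂s i j hij 0 ⟨le_rfl, hτ⟩
            rw [zero_smul, zero_smul, add_zero, add_zero, hQij, sub_self, norm_zero] at h1
            have h2 := hsep i j hij
            linarith
  · -- centre of mass
    simp only [smul_sub]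
    rw [Finset.sum_sub_distrib, ← Finset.sum_smul, hM, one_smul, hm₀, sub_self]
  · -- energy
    rw [kin_eqM hm, pot_eq_invdM, ← hKv]
    have h1 : invdM m (fun i => Q i - m₀) = invdM m Q := by
      unfold invdM
      apply Finset.sum_congr rfl
      intro i _
      apply Finset.sum_congr rfl
      intro j _
      rw [hqsub]
    rw [h1, hrY]
    ring
  · intro i
    rw [← hui]
    exact (hvu i).trans (by linarith)

end Pool.Agent.NBody
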