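import Mathlib
import Pool.Agent.NBody.ThPrep3B
import Pool.Agent.NBody.ThSpreadL2

/-!
Prepared states of type I-B: the choice of the pair and the spreading along straight lines.
-/

set_option autoImplicit false
open scoped RealInnerProductSpace
open Set Finset Filter Topology

namespace Pool.Agent.NBody

/-- M8, type I-B: prepared states with a tight pair, no bound on the velocities; all conditions
explicit. -/
theorem prep3B {N K : ℕ} {m : Fin N → ℝ} (hm : ∀ i, 0 < m i) (hM : ∑ i, m i = 1) {μ₀ μ : ℝ}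
    (hμ₀ : 0 < μ₀) (hmμ₀ : ∀ i, μ₀ ≤ m i) (hμ : ∀ i, m i ≤ μ) {E R V δ θ ε c τ s s' : ℝ}
    (hE : E < 0) (hδ : 0 < δ) (hδ1 : δ ≤ 1) (hc : c = δ / 32) (hθ0 : 0 < θ) (hθ1 : θ ≤ 1)
    (hθR : θ * R ≤ δ / 8) (hε0 : 0 < ε) (hε : 16 * ε ≤ θ)
    (hK : R / c + 4 * μ / μ₀ + 1 ≤ K) (hN1 : (2 * (K : ℝ) + 1) ^ 4 * 4 < N)
    (hNμ : 2 * μ ≤ μ₀ * N) (hμE : 3 * μ ≤ 2 * (-E)) (hcr : 16 * μ / c ≤ θ * (-E))
    (hsz : 8 * μ ^ 2 / (θ * (-E)) ≤ δ / 16) (hτ : 0 < τ) (hs' : 0 < s') (hss : s' ≤ s)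
    (hvol : N * (4 * s ^ 3 + 2 * V * τ * s' ^ 2) ≤ ε ^ 3 * c ^ 3 / 5000)
    {x : Ph N} (hnc : x ∈ NC N) (hcom : ∑ i, m i • x.1 i = 0) (hmom : ∑ i, x.2 i = 0)
    (hen : kin m x.2 - pot m x.1 = E) (hR : ∀ i, ‖x.1 i‖ ≤ R) (hV : ∀ i, ‖x.2 i‖ ≤ m i * V) :
    ∃ (r : ℝ) (F : Finset (Fin N)) (a b : Fin N) (z uc : V3) (q v : Fin N → V3),
      m a * m b / (2 * pot m x.1) ≤ r ∧ r ≤ 8 * (m a * m b) / (θ * pot m x.1) ∧ r ≤ δ / 16 ∧
      (F.card : ℝ) ≤ 128 * pot m x.1 * τ ^ 2 / (μ₀ * s ^ 2) ∧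
      ‖(m a)⁻¹ • x.2 a‖ ≤ √(4 * pot m x.1 / (μ₀ * N)) ∧
      ‖(m b)⁻¹ • x.2 b‖ ≤ √(4 * pot m x.1 / (μ₀ * N)) ∧
      Prep3B m (R + 1) (2 * √(4 * pot m x.1 / (μ₀ * N)) + δ / 4) τ s s' r (δ / 4) F a b z uc
        q v ∧
      (∀ i, i ≠ a → i ≠ b → v i = (m i)⁻¹ • x.2 i) ∧
      ((q, fun i => m i • v i) : Ph N) ∈ NC N ∧ ∑ i, m i • q i = 0 ∧ ∑ i, m i • v i = 0 ∧
      kin m (fun i => m i • v i) - pot m q = E ∧
      (∀ i, ‖q i - x.1 i‖ ≤ δ) ∧ (∀ i, ‖v i - (m i)⁻¹ • x.2 i‖ ≤ δ) := by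
  classical
  have hNpos : 0 < N := by
    rcases Nat.eq_zero_or_pos N with h | h
    · subst h
      simp at hM
    · exact h
  have hNr : (0 : ℝ) < N := by exact_mod_cast hNpos
  have hμ0 : 0 < μ := (hm ⟨0, hNpos⟩).trans_le (hμ _)
  have hc0 : 0 < c := by rw [hc]; positivity
  have hs : 0 < s := hs'.trans_le hss
  -- velocities
  obtain ⟨u, hu⟩ : ∃ u : Fin N → V3, u = fun i => (m i)⁻¹ • x.2 i := ⟨_, rfl⟩
  have hui : ∀ i, u i = (m i)⁻¹ • x.2 i := fun i => by rw [hu]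
  have hmu : ∀ i, m i • u i = x.2 i := by
    intro i
    rw [hui, smul_smul, mul_inv_cancel₀ (hm i).ne', one_smul]
  have hxu : x.2 = fun i => m i • u i := by
    funext i
    rw [hmu]
  have huV : ∀ i, ‖u i‖ ≤ V := by
    intro i
    rw [hui, norm_smul, norm_inv, Real.norm_of_nonneg (hm i).le, inv_mul_le_iff₀ (hm i)]
    exact hV i
  -- energies of x
  obtain ⟨U, hU⟩ : ∃ U : ℝ, U = pot m x.1 := ⟨_, rfl⟩
  obtain ⟨Ku, hKu⟩ : ∃ Ku : ℝ, Ku = ∑ i, m i * ‖u i‖ ^ 2 := ⟨_, rfl⟩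
  have hKu0 : 0 ≤ Ku := by
    rw [hKu]
    exact Finset.sum_nonneg (fun i _ => by
      have := hm i
      positivity)
  have hen' : Ku / 2 - E = U := by
    have h1 := hen
    rw [hxu, kin_eqM hm, ← hKu, ← hU] at h1
    linarith
  have hUE : -E ≤ U := by linarith
  have hU0 : 0 < U := by linarith
  -- the pair
  obtain ⟨H, hH⟩ : ∃ H : Finset (Fin N), H = Finset.univ.filter (fun i : Fin N => ‖u i‖ ^ 2 ≤
      4 * U / (μ₀ * N)) := ⟨_, rfl⟩
  have hHcard : (N : ℝ) / 2 ≤ (H.card : ℝ) := by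
    rw [hH]
    exact card_slow hm hμ₀ hmμ₀ hU0 u (by rw [← hKu]; linarith)
  obtain ⟨g, hg, hgH, hgq, -⟩ := exists_gun3 hm hμ₀ hmμ₀ hμ x.1 H hHcard hc0
    (by norm_num : (0:ℝ) < 1 / 2) hR (by
      have h1 : 2 * μ / (1 / 2 * μ₀) = 4 * μ / μ₀ := by
        field_simp
        norm_num
      rw [h1]
      exact hK) hN1
  obtain ⟨a, ha⟩ : ∃ a, a = g 0 := ⟨_, rfl⟩
  obtain ⟨b, hb⟩ : ∃ b, b = g 1 := ⟨_, rfl⟩
  have hab : a ≠ b := by
    rw [ha, hb]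
    exact fun h => absurd (hg h) (by decide)
  have hclose : ‖x.1 a - x.1 b‖ ≤ δ / 16 := by
    have h1 := hgq 0 1
    rw [← ha, ← hb] at h1
    refine h1.trans (le_of_eq ?_)
    rw [hc]
    ring
  obtain ⟨w, hw⟩ : ∃ w : ℝ, w = √(4 * U / (μ₀ * N)) := ⟨_, rfl⟩
  have hw0 : 0 ≤ w := by rw [hw]; exact Real.sqrt_nonneg _
  have hslow : ∀ k, ‖u (g k)‖ ≤ w := by
    intro k
    have h1 := hgH k
    rw [hH, Finset.mem_filter] at h1
    rw [hw]
    exact Real.le_sqrt_of_sq_le h1.2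
  have hua : ‖u a‖ ≤ w := by rw [ha]; exact hslow 0
  have hub : ‖u b‖ ≤ w := by rw [hb]; exact hslow 1
  -- the fast bodies
  obtain ⟨F, hF⟩ : ∃ F : Finset (Fin N), F = Finset.univ.filter
    (fun i : Fin N => s / 8 < ‖u i‖ * τ) := ⟨_, rfl⟩
  have hFcard : (F.card : ℝ) ≤ 128 * U * τ ^ 2 / (μ₀ * s ^ 2) := by
    have h1 := card_fast hm hμ₀ hmμ₀ hs hτ u (K₀ := 2 * U) (by rw [← hKu]; linarith)
    rw [← hF] at h1
    refine h1.trans (le_of_eq ?_)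
    ring
  obtain ⟨F', hF'⟩ : ∃ F' : Finset (Fin N), F' = insert a F := ⟨_, rfl⟩
  obtain ⟨σ, hσ⟩ : ∃ σ : Fin N → Fin N → ℝ, σ = fun i j => if i ∈ F' ∨ j ∈ F' then s' else s :=
    ⟨_, rfl⟩
  have hσij : ∀ i j, σ i j = if i ∈ F' ∨ j ∈ F' then s' else s := fun i j => by rw [hσ]
  have hσ0 : ∀ i j, 0 < σ i j := by
    intro i j
    rw [hσij]
    split_ifs
    · exact hs'
    · exact hs
  have hσs' : ∀ i j, s' ≤ σ i j := by
    intro i j
    rw [hσij]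
    split_ifs
    · exact le_rfl
    · exact hss
  have hσsymm : ∀ i j, σ i j = σ j i := by
    intro i j
    rw [hσij, hσij]
    simp only [or_comm]
  -- estimates
  have hmab : m a * m b ≤ μ ^ 2 := by
    rw [sq]
    exact mul_le_mul (hμ a) (hμ b) (hm b).le hμ0.le
  have hkin : m a * (min w V * δ + δ ^ 2) ≤ 2 * U := by
    have h1 : min w V ≤ w := min_le_left _ _
    have h2 : w ^ 2 = 4 * U / (μ₀ * N) := by
      rw [hw]
      exact Real.sq_sqrt (by positivity)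
    have h3 : μ * w ^ 2 ≤ 2 * U := by
      rw [h2, ← mul_div_assoc, div_le_iff₀ (by positivity)]
      nlinarith
    have h4 : min w V * δ + δ ^ 2 ≤ w ^ 2 / 2 + 3 / 2 := by
      have h5 : min w V * δ ≤ w * δ := mul_le_mul_of_nonneg_right h1 hδ.le
      have h6 : δ ^ 2 ≤ 1 := by nlinarith
      nlinarith [sq_nonneg (w - δ)]
    have h7 : m a * (min w V * δ + δ ^ 2) ≤ μ * (w ^ 2 / 2 + 3 / 2) := by
      refine (mul_le_mul_of_nonneg_left h4 (hm a).le).trans ?_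
      exact mul_le_mul_of_nonneg_right (hμ a) (by positivity)
    linarith
  have hcross : 8 * (m a + m b) / c ≤ θ * U := by
    have h1 : 8 * (m a + m b) / c ≤ 16 * μ / c := by
      apply div_le_div_of_nonneg_right _ hc0.le
      linarith [hμ a, hμ b]
    exact h1.trans (hcr.trans (mul_le_mul_of_nonneg_left hUE hθ0.le))
  have hE0 : 0 < -E := by linarith
  have hsize : 8 * (m a * m b) / (θ * U) ≤ δ / 16 := by
    refine le_trans ?_ hsz
    have h1 : 8 * (m a * m b) / (θ * U) ≤ 8 * μ ^ 2 / (θ * U) :=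
      div_le_div_of_nonneg_right (by linarith) (by positivity)
    refine h1.trans ?_
    exact div_le_div_of_nonneg_left (by positivity) (by positivity)
      (mul_le_mul_of_nonneg_left hUE hθ0.le)
  rw [← hU]
  rw [hU] at hU0 hkin hcross hsize
  obtain ⟨r, z, uc, q, v, hr1, hr2, hr3, hqR, hmid, hvmid, hsz', hrel, hvz, hang, hfar, hsepp,
    hvr, hnc', hcom', hmom', hen'', hqx, hvx⟩ := prep3B_at hm hM (ω := min w V) (sep := σ) hab hδ
    hδ1 hc hθ0 hθ1 hθR hε hτ.le (fun i j _ => hσ0 i j) hnc hcom hmom hen hR hclose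
    (by rw [← hui]; exact le_min hua (huV a)) (by rw [← hui]; exact le_min hub (huV b)) hU0 hcross
    hkin hsize (by
      intro v' hv' hv'a q₁ _ hq₁ne W hW0 _
      have hv'V : ∀ i, ‖v' i‖ ≤ V := by
        intro i
        by_cases hi : i = a
        · rw [hi]
          exact hv'a.trans (min_le_right _ _)
        · rw [hv' i hi, ← hui]
          exact huV i
      have hv'F : ∀ i ∉ F', ‖v' i‖ * τ ≤ s / 8 := by
        intro i hi
        rw [hF', Finset.mem_insert, not_or, hF, Finset.mem_filter, not_and] at hi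
        rw [hv' i hi.1, ← hui]
        exact not_lt.mp (hi.2 (Finset.mem_univ i))
      obtain ⟨⟨p, hp1, hp2, hp3⟩, -⟩ := spreadLines W hW0 q₁ v' hq₁ne c ε τ hc0 hε0 (by linarith)
        hτ.le σ hσ0 hσsymm (by
          intro i
          have h1 := vol_cond3 hs' hss hτ.le hv'V F' hv'F i
          simp only [hσij]
          exact h1.trans hvol)
      exact ⟨p, hp1, fun i j hij t ht => (hp2 i j hij t ht).le, hp3⟩)
  rw [← hU] at hr1 hr2
  have hminw : min w V ≤ w := min_le_left _ _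
  refine ⟨r, F, a, b, z, uc, q, v, hr1, hr2, hr3, hFcard, ?_, ?_, ?_, hvr, hnc', hcom', hmom',
    hen'', hqx, hvx⟩
  · rw [← hw, ← hui]
    exact hua
  · rw [← hw, ← hui]
    exact hub
  · rw [← hw]
    refine ⟨hab, hqR, hmid, hvmid, hsz', ?_, ?_, hang, ?_, ?_, ?_⟩
    · linarith
    · linarith
    · intro i h1 h2 t ht
      exact (hσs' i a).trans (hfar i h1 h2 t ht)
    · intro i j h1 h2 h3 h4 hij t ht
      exact (hσs' i j).trans (hsepp i j h1 h2 h3 h4 hij t ht)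
    · intro i j h1 h2 h3 h4 hiF hjF hij t ht
      have h5 := hsepp i j h1 h2 h3 h4 hij t ht
      rw [hσij, if_neg (by
        rw [hF', Finset.mem_insert, Finset.mem_insert, not_or, not_or, not_or]
        exact ⟨⟨h1, hiF⟩, ⟨h3, hjF⟩⟩)] at h5
      exact h5

end Pool.Agent.NBody
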