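import Mathlib
import Pool.Agent.NBody.ThPrep3A
import Pool.Agent.NBody.ThDefs4
import Pool.Agent.NBody.ThOrder4

/-!
Prepared states of type I-A for arbitrary masses: the positions are dilated, so that the energy of
the gun is paid by the dilation and the velocities are not changed at all.
-/

set_option autoImplicit false
open scoped RealInnerProductSpace
open Set Finset Filter Topology

namespace Pool.Agent.NBody

/-- Energy match: the size of the gun is determined by the energy; only the masses of the gun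
enter the bound of the cross terms. -/
theorem exists_size4 {N : ℕ} {g : Fin 3 → Fin N} (hg : Function.Injective g) {m : Fin N → ℝ}
    (hm : ∀ i, 0 < m i) (hM : ∑ i, m i = 1) {μ : ℝ} (hμ : ∀ k, m (g k) ≤ μ) {s : Fin 3 → V3}
    (hflat : ∀ k, s k 2 = 0) (z : V3) (q₂ : Fin N → V3) {c : ℝ} (hc : 0 < c)
    (hlay : ∀ j ∈ rest g, c ≤ |q₂ j 2 - z 2|) {Y r₁ r₂ : ℝ} (hr₁ : 0 < r₁) (hr : r₁ ≤ r₂)
    (h1 : Y ≤ (∑ k, ∑ l, m (g k) * m (g l) / ‖s k - s l‖) / r₁)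
    (h2 : (∑ k, ∑ l, m (g k) * m (g l) / ‖s k - s l‖) / r₂ + 6 * μ / c +
      ∑ i ∈ rest g, ∑ j ∈ rest g, m i * m j / ‖q₂ i - q₂ j‖ ≤ Y) :
    ∃ r, r₁ ≤ r ∧ r ≤ r₂ ∧ invdM m (gunPos g s z q₂ r) = Y := by
  have hr₂ : 0 < r₂ := hr₁.trans_le hr
  set u : ℝ := ∑ k, ∑ l, m (g k) * m (g l) / ‖s k - s l‖ with hu
  set A : ℝ := ∑ i ∈ rest g, ∑ j ∈ rest g, m i * m j / ‖q₂ i - q₂ j‖ with hA
  set Cr : ℝ → ℝ := fun r => ∑ k, ∑ j ∈ rest g, m (g k) * m j / ‖z + r • s k - q₂ j‖ with hCr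
  have hdist : ∀ (r : ℝ) (k : Fin 3), ∀ j ∈ rest g, c ≤ ‖z + r • s k - q₂ j‖ := by
    intro r k j hj
    refine (hlay j hj).trans ?_
    have h3 : |(z + r • s k - q₂ j) 2| ≤ ‖z + r • s k - q₂ j‖ := abs_coord_le _ _
    have h4 : (z + r • s k - q₂ j) 2 = z 2 - q₂ j 2 := by
      simp [hflat k]
    rw [h4, abs_sub_comm] at h3
    exact h3
  have hsplit : ∀ r, 0 < r → invdM m (gunPos g s z q₂ r) = u / r + 2 * Cr r + A := by
    intro r hr0
    rw [invdM_split hg]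
    congr 1
    · congr 1
      · rw [hu, Finset.sum_div]
        apply Finset.sum_congr rfl
        intro k _
        rw [Finset.sum_div]
        apply Finset.sum_congr rfl
        intro l _
        rw [gunPos_gun hg, gunPos_gun hg, add_sub_add_left_eq_sub, ← smul_sub, norm_smul,
          Real.norm_of_nonneg hr0.le, div_eq_mul_inv, div_eq_mul_inv, mul_inv, div_eq_mul_inv]
        ring
      · rw [hCr]
        simp only
        congr 1
        apply Finset.sum_congr rfl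
        intro k _
        apply Finset.sum_congr rfl
        intro j hj
        rw [gunPos_gun hg, gunPos_rest s z q₂ r hj]
    · rw [hA]
      apply Finset.sum_congr rfl
      intro i hi
      apply Finset.sum_congr rfl
      intro j hj
      rw [gunPos_rest s z q₂ r hi, gunPos_rest s z q₂ r hj]
  have hCnn : ∀ r, 0 ≤ Cr r := fun r =>
    Finset.sum_nonneg (fun k _ => Finset.sum_nonneg (fun j _ => by
      have h1 := hm (g k)
      have h2 := hm j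
      positivity))
  have hrest1 : ∑ j ∈ rest g, m j ≤ 1 := by
    rw [← hM]
    exact Finset.sum_le_sum_of_subset_of_nonneg (Finset.subset_univ _) (fun i _ _ => (hm i).le)
  have hCle : ∀ r, Cr r ≤ 3 * μ / c := by
    intro r
    have h3 : ∀ k : Fin 3, ∑ j ∈ rest g, m (g k) * m j / ‖z + r • s k - q₂ j‖ ≤ μ / c := by
      intro k
      have h4 : ∑ j ∈ rest g, m (g k) * m j / ‖z + r • s k - q₂ j‖ ≤
          ∑ j ∈ rest g, m (g k) * m j / c := by
        apply Finset.sum_le_sum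
        intro j hj
        exact div_le_div_of_nonneg_left (mul_nonneg (hm _).le (hm _).le) hc (hdist r k j hj)
      refine h4.trans ?_
      rw [← Finset.sum_div, ← Finset.mul_sum]
      apply div_le_div_of_nonneg_right _ hc.le
      calc m (g k) * ∑ j ∈ rest g, m j ≤ m (g k) * 1 :=
            mul_le_mul_of_nonneg_left hrest1 (hm _).le
        _ ≤ μ := by rw [mul_one]; exact hμ _
    have h5 : Cr r ≤ ∑ k : Fin 3, μ / c := Finset.sum_le_sum (fun k _ => h3 k)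
    rw [Finset.sum_const, Finset.card_univ, Fintype.card_fin, nsmul_eq_mul] at h5
    refine h5.trans (le_of_eq ?_)
    push_cast
    ring
  have hcont : ContinuousOn (fun r => u / r + 2 * Cr r) (Icc r₁ r₂) := by
    apply ContinuousOn.add
    · apply ContinuousOn.div continuousOn_const continuousOn_id
      intro r hr
      exact (hr₁.trans_le hr.1).ne'
    · apply ContinuousOn.mul continuousOn_const
      apply Continuous.continuousOn
      rw [hCr]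
      apply continuous_finsetSum
      intro k _
      apply continuous_finsetSum
      intro j hj
      apply Continuous.div continuous_const
      · exact ((continuous_const.add (continuous_id.smul continuous_const)).sub
          continuous_const).norm
      · intro r
        exact (hc.trans_le (hdist r k j hj)).ne'
  have hmem : Y - A ∈ Icc (u / r₂ + 2 * Cr r₂) (u / r₁ + 2 * Cr r₁) := by
    constructor
    · have := hCle r₂
      have h6 : 6 * μ / c = 2 * (3 * μ / c) := by ring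
      linarith
    · have := hCnn r₁
      have hAnn : 0 ≤ A := Finset.sum_nonneg (fun i _ => Finset.sum_nonneg (fun j _ => by
        have h1 := hm i
        have h2 := hm j
        positivity))
      linarith
  obtain ⟨r, hr', hY⟩ := intermediate_value_Icc' hr hcont hmem
  refine ⟨r, hr'.1, hr'.2, ?_⟩
  rw [hsplit r (hr₁.trans_le hr'.1)]
  simp only at hY
  linarith

/-- the double sum of inverse distances of a dilated configuration -/
theorem invdM_smul4 {N : ℕ} (m : Fin N → ℝ) (q : Fin N → V3) {a : ℝ} (ha : 0 < a) :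
    invdM m (fun i => a • q i) = a⁻¹ * invdM m q := by
  unfold invdM
  rw [Finset.mul_sum]
  apply Finset.sum_congr rfl
  intro i _
  rw [Finset.mul_sum]
  apply Finset.sum_congr rfl
  intro j _
  rw [← smul_sub, norm_smul, Real.norm_of_nonneg ha.le, div_eq_mul_inv, div_eq_mul_inv, mul_inv]
  ring

/-- the double sum decreases when all distances increase -/
theorem invdM_anti4 {N : ℕ} {m : Fin N → ℝ} (hm : ∀ i, 0 ≤ m i) {q q' : Fin N → V3}
    (hq : ∀ i j, i ≠ j → 0 < ‖q i - q j‖) (h : ∀ i j, ‖q i - q j‖ ≤ ‖q' i - q' j‖) :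
    invdM m q' ≤ invdM m q := by
  unfold invdM
  apply Finset.sum_le_sum
  intro i _
  apply Finset.sum_le_sum
  intro j _
  by_cases hij : i = j
  · subst hij
    simp
  · exact div_le_div_of_nonneg_left (mul_nonneg (hm i) (hm j)) (hq i j hij) (h i j)

/-- the arithmetic of the dilation -/
theorem dilation_arith4 {θ ε : ℝ} (hθ : 0 < θ) (hθ1 : θ ≤ 1) (hεθ : 16 * ε ≤ θ) :
    ((1 - ε) ^ 2)⁻¹ * (1 + θ)⁻¹ ≤ 1 - θ / 4 := by
  have hε1 : ε ≤ 1 / 16 := by linarith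
  have h0 : 0 < (1 - ε) ^ 2 := by
    have : 0 < 1 - ε := by linarith
    positivity
  have h1 : 0 < (1 - ε) ^ 2 * (1 + θ) := by positivity
  rw [← mul_inv, inv_le_iff_one_le_mul₀ h1]
  have h2 : 1 - 2 * ε ≤ (1 - ε) ^ 2 := by nlinarith [sq_nonneg ε]
  have h3 : 1 - θ / 8 ≤ (1 - ε) ^ 2 := by linarith
  have h4 : 0 ≤ 1 - θ / 4 := by linarith
  have h5 : (1 - θ / 8) * (1 + θ) ≤ (1 - ε) ^ 2 * (1 + θ) :=
    mul_le_mul_of_nonneg_right h3 (by linarith)
  have h6 : 1 ≤ (1 - θ / 4) * ((1 - θ / 8) * (1 + θ)) := by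
    have h7 : (1 - θ / 4) * ((1 - θ / 8) * (1 + θ)) - 1 =
        θ * (5 / 8 - 11 / 32 * θ + θ ^ 2 / 32) := by ring
    have h8 : 0 ≤ 5 / 8 - 11 / 32 * θ + θ ^ 2 / 32 := by nlinarith [sq_nonneg θ]
    have h9 := mul_nonneg hθ.le h8
    linarith
  exact h6.trans (mul_le_mul_of_nonneg_left h5 h4)

/-- N8A: prepared states with a gun for arbitrary masses; the velocities are not changed. -/
theorem prep4A_at {N : ℕ} {m : Fin N → ℝ} (hm : ∀ i, 0 < m i) (hM : ∑ i, m i = 1)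
    {s : Fin 3 → V3} {e : V3} (hs : GunShape s e) {E R δ₁ η₀ θ ε τ u₀ c : ℝ}
    {sep : Fin N → Fin N → ℝ} {g : Fin 3 → Fin N} (hg : Function.Injective g)
    (hδ₁ : 0 < δ₁) (hδ₁1 : δ₁ ≤ 1) (hc : c = δ₁ / 32) (hη₁ : η₀ ≤ 1 / 2)
    (hθ : 0 < θ) (hθ1 : θ ≤ 1) (hθR : θ * R ≤ δ₁ / 8) (hεθ : 16 * ε ≤ θ)
    (hu₀ : u₀ = ∑ k, ∑ l, 1 / ‖s k - s l‖) (hτ : 0 ≤ τ) (hsep : ∀ i j, i ≠ j → 0 < sep i j)
    {x : Ph N} (hnc : x ∈ NC N) (hcom : ∑ i, m i • x.1 i = 0)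
    (hen : kin m x.2 - pot m x.1 = E) (hR : ∀ i, ‖x.1 i‖ ≤ R)
    (hgq : ∀ k l, ‖x.1 (g k) - x.1 (g l)‖ ≤ δ₁ / 16)
    (hgratio : ∀ k, |m (g k) / m (g 0) - 1| ≤ η₀)
    (hU : 0 < pot m x.1)
    (hcross : 48 * m (g 0) / c ≤ θ * pot m x.1)
    (hsize : 16 * m (g 0) ^ 2 * u₀ / (θ * pot m x.1) ≤ δ₁ / 16)
    (hspread : ∀ q₁ : Fin N → V3, (∀ i, ‖q₁ i‖ ≤ R + 1) → (∀ i j, i ≠ j → q₁ i ≠ q₁ j) →
      ∀ w : Fin N → ℝ, (∀ i, 0 ≤ w i) → (∀ i, w i ≤ m i) →
      ∃ q₂ : Fin N → V3, (∀ i, ‖q₂ i - q₁ i‖ ≤ c) ∧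
        (∀ i j, i ≠ j → ∀ t ∈ Icc (0 : ℝ) τ, sep i j ≤
          ‖(q₂ i + t • ((m i)⁻¹ • x.2 i)) - (q₂ j + t • ((m j)⁻¹ • x.2 j))‖) ∧
        invdM w q₂ ≤ ((1 - ε) ^ 2)⁻¹ * invdM w q₁) :
    ∃ (r : ℝ) (z : V3) (q : Fin N → V3),
      m (g 0) ^ 2 * u₀ / (8 * pot m x.1) ≤ r ∧
      r ≤ 16 * m (g 0) ^ 2 * u₀ / (θ * pot m x.1) ∧ r ≤ δ₁ / 16 ∧
      (∀ i, ‖q i‖ ≤ R + 1) ∧ (∀ k, q (g k) = z + r • s k) ∧
      (∀ i ∉ Set.range g, ∀ j ∉ Set.range g, i ≠ j → ∀ t ∈ Icc (0 : ℝ) τ,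
        sep i j ≤ ‖(q i + t • ((m i)⁻¹ • x.2 i)) - (q j + t • ((m j)⁻¹ • x.2 j))‖) ∧
      (∀ j ∉ Set.range g, c ≤ |q j 2 - z 2|) ∧
      ((q, x.2) : Ph N) ∈ NC N ∧ ∑ i, m i • q i = 0 ∧
      kin m x.2 - pot m q = E ∧ (∀ i, ‖q i - x.1 i‖ ≤ δ₁) := by
  classical
  have hNpos : 0 < N := by
    rcases Nat.eq_zero_or_pos N with h | h
    · subst h
      simp at hM
    · exact h
  have hu0 : 0 < u₀ := by
    rw [hu₀]
    exact gun_energy_pos hs
  have hc0 : 0 < c := by rw [hc]; positivity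
  have hR0 : 0 ≤ R := (norm_nonneg _).trans (hR ⟨0, hNpos⟩)
  obtain ⟨U, hUd⟩ : ∃ U : ℝ, U = pot m x.1 := ⟨_, rfl⟩
  rw [← hUd] at hU hcross hsize hen
  have hA : invdM m x.1 = 2 * U := by
    rw [hUd, pot_eq_invdM]
    ring
  have hm00 := hm (g 0)
  -- dilation and opening of the layer
  obtain ⟨qd, hqd⟩ : ∃ qd : Fin N → V3, qd = fun j => (1 + θ) • x.1 j := ⟨_, rfl⟩
  have hqdi : ∀ i, qd i = (1 + θ) • x.1 i := fun i => by rw [hqd]
  have h1θ : 0 < 1 + θ := by linarith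
  have hxpos : ∀ i j, i ≠ j → 0 < ‖x.1 i - x.1 j‖ := fun i j hij =>
    norm_pos_iff.mpr (sub_ne_zero.mpr (hnc i j hij))
  have hqdpos : ∀ i j, i ≠ j → 0 < ‖qd i - qd j‖ := by
    intro i j hij
    rw [hqdi, hqdi, ← smul_sub, norm_smul, Real.norm_of_nonneg h1θ.le]
    exact mul_pos h1θ (hxpos i j hij)
  have hqdx : ∀ i, ‖qd i - x.1 i‖ ≤ δ₁ / 8 := by
    intro i
    have h1 : qd i - x.1 i = θ • x.1 i := by
      rw [hqdi, add_smul, one_smul]
      abel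
    rw [h1, norm_smul, Real.norm_of_nonneg hθ.le]
    exact (mul_le_mul_of_nonneg_left (hR i) hθ.le).trans hθR
  obtain ⟨z₀, hz₀⟩ : ∃ z₀ : V3, z₀ = x.1 (g 0) := ⟨_, rfl⟩
  obtain ⟨q₁, hq₁⟩ : ∃ q₁ : Fin N → V3, q₁ = fun j => openLayer (z₀ 2) (δ₁ / 16) (qd j) :=
    ⟨_, rfl⟩
  have hρ : (0:ℝ) ≤ δ₁ / 16 := by positivity
  have hq₁d : ∀ i j, ‖qd i - qd j‖ ≤ ‖q₁ i - q₁ j‖ := by
    intro i j
    rw [hq₁]
    exact dist_le_openLayer hρ _ _
  have hq₁x : ∀ i, ‖q₁ i - qd i‖ ≤ δ₁ / 16 := by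
    intro i
    rw [hq₁]
    exact openLayer_sub_self hρ _
  have hq₁h : ∀ i, δ₁ / 16 ≤ |q₁ i 2 - z₀ 2| := by
    intro i
    rw [hq₁]
    exact openLayer_height hρ _
  have hq₁x' : ∀ i, ‖q₁ i - x.1 i‖ ≤ 3 * δ₁ / 16 := by
    intro i
    calc ‖q₁ i - x.1 i‖ = ‖(q₁ i - qd i) + (qd i - x.1 i)‖ := by congr 1; abel
      _ ≤ ‖q₁ i - qd i‖ + ‖qd i - x.1 i‖ := norm_add_le _ _
      _ ≤ δ₁ / 16 + δ₁ / 8 := add_le_add (hq₁x i) (hqdx i)
      _ = 3 * δ₁ / 16 := by ring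
  have hq₁R : ∀ i, ‖q₁ i‖ ≤ R + 1 := by
    intro i
    have h1 := hq₁x' i
    have h2 := hR i
    calc ‖q₁ i‖ = ‖(q₁ i - x.1 i) + x.1 i‖ := by congr 1; abel
      _ ≤ ‖q₁ i - x.1 i‖ + ‖x.1 i‖ := norm_add_le _ _
      _ ≤ R + 1 := by linarith
  have hq₁ne : ∀ i j, i ≠ j → q₁ i ≠ q₁ j := by
    intro i j hij h
    have h1 := (hqdpos i j hij).trans_le (hq₁d i j)
    rw [h, sub_self, norm_zero] at h1
    exact lt_irrefl _ h1
  -- spreading
  have hrm : ∀ i, 0 ≤ restMass g m i := by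
    intro i
    unfold restMass
    split_ifs
    · exact (hm i).le
    · exact le_rfl
  have hrm' : ∀ i, restMass g m i ≤ m i := by
    intro i
    unfold restMass
    split_ifs
    · exact le_rfl
    · exact (hm i).le
  obtain ⟨q₂, hq₂d, hq₂s, hq₂e⟩ := hspread q₁ hq₁R hq₁ne (restMass g m) hrm hrm'
  rw [invdM_restMass hg] at hq₂e
  have hq₂x : ∀ i, ‖q₂ i - x.1 i‖ ≤ 7 * δ₁ / 32 := by
    intro i
    calc ‖q₂ i - x.1 i‖ = ‖(q₂ i - q₁ i) + (q₁ i - x.1 i)‖ := by congr 1; abel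
      _ ≤ ‖q₂ i - q₁ i‖ + ‖q₁ i - x.1 i‖ := norm_add_le _ _
      _ ≤ c + 3 * δ₁ / 16 := add_le_add (hq₂d i) (hq₁x' i)
      _ = 7 * δ₁ / 32 := by rw [hc]; ring
  have hlay : ∀ j ∈ rest g, c ≤ |q₂ j 2 - z₀ 2| := by
    intro j _
    have h1 := hq₁h j
    have h2 : |q₂ j 2 - q₁ j 2| ≤ c := by
      have h3 := abs_coord_le (q₂ j - q₁ j) 2
      rw [PiLp.sub_apply] at h3
      exact h3.trans (hq₂d j)
    have h4 : |q₁ j 2 - z₀ 2| ≤ |q₂ j 2 - z₀ 2| + |q₂ j 2 - q₁ j 2| := by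
      have h5 : q₁ j 2 - z₀ 2 = (q₂ j 2 - z₀ 2) - (q₂ j 2 - q₁ j 2) := by ring
      rw [h5]
      exact abs_sub _ _
    have h6 : δ₁ / 16 = 2 * c := by rw [hc]; ring
    linarith
  -- energies
  obtain ⟨A₂, hA₂⟩ : ∃ A₂ : ℝ, A₂ = ∑ i ∈ rest g, ∑ j ∈ rest g, m i * m j / ‖q₂ i - q₂ j‖ :=
    ⟨_, rfl⟩
  have hA₁ : invdM (restMass g m) q₁ ≤ (1 + θ)⁻¹ * (2 * U) := by
    calc invdM (restMass g m) q₁ ≤ invdM (restMass g m) qd := invdM_anti4 hrm hqdpos hq₁d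
      _ = (1 + θ)⁻¹ * invdM (restMass g m) x.1 := by rw [hqd]; exact invdM_smul4 _ _ h1θ
      _ ≤ (1 + θ)⁻¹ * (2 * U) := by
        apply mul_le_mul_of_nonneg_left _ (by positivity)
        rw [invdM_restMass hg, ← hA]
        exact invdM_rest_le hg hm x.1
  have hA₂le : A₂ ≤ (1 - θ / 4) * (2 * U) := by
    rw [hA₂]
    refine hq₂e.trans ((mul_le_mul_of_nonneg_left hA₁ (by positivity)).trans ?_)
    rw [← mul_assoc]
    exact mul_le_mul_of_nonneg_right (dilation_arith4 hθ hθ1 hεθ) (by linarith)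
  obtain ⟨hum1, hum2⟩ := gun_energy_boundsM hm hη₁ hgratio s
  obtain ⟨um, hum⟩ : ∃ um : ℝ, um = ∑ k, ∑ l, m (g k) * m (g l) / ‖s k - s l‖ := ⟨_, rfl⟩
  rw [← hum, ← hu₀] at hum1 hum2
  have hum0 : 0 < um := lt_of_lt_of_le (by positivity) hum1
  have hup : ∀ k, m (g k) ≤ 2 * m (g 0) := by
    intro k
    have h1 := (abs_le.mp (hgratio k)).2
    have h2 : m (g k) / m (g 0) ≤ 2 := by linarith
    rw [div_le_iff₀ hm00] at h2
    exact h2
  obtain ⟨r, hr1, hr2, hrY⟩ := exists_size4 hg hm hM hup hs.flat z₀ q₂ hc0 hlay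
    (Y := 2 * U) (r₁ := um / (2 * U)) (r₂ := 4 * um / (θ * U))
    (by positivity) (by
      rw [div_le_div_iff₀ (by positivity) (by positivity)]
      have h1 : θ * (um * U) ≤ 8 * (um * U) := mul_le_mul_of_nonneg_right (by linarith)
        (by positivity)
      linarith) (by
      rw [← hum]
      have h1 : um / (um / (2 * U)) = 2 * U := by
        field_simp
      rw [h1]) (by
      rw [← hum, ← hA₂]
      have h1 : um / (4 * um / (θ * U)) = θ * U / 4 := by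
        field_simp
      rw [h1]
      have h2 : 6 * (2 * m (g 0)) / c = (48 * m (g 0) / c) / 4 := by ring
      rw [h2]
      linarith)
  have hr0 : 0 < r := lt_of_lt_of_le (by positivity) hr1
  have hrb1 : m (g 0) ^ 2 * u₀ / (8 * U) ≤ r := by
    refine le_trans ?_ hr1
    have h1 : m (g 0) ^ 2 * u₀ / (8 * U) = (m (g 0) ^ 2 * u₀ / 4) / (2 * U) := by
      field_simp
      norm_num
    rw [h1]
    exact div_le_div_of_nonneg_right hum1 (by positivity)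
  have hrb2 : r ≤ 16 * m (g 0) ^ 2 * u₀ / (θ * U) := by
    refine hr2.trans (div_le_div_of_nonneg_right ?_ (by positivity))
    linarith
  have hrδ : r ≤ δ₁ / 16 := hrb2.trans hsize
  -- positions
  obtain ⟨Q, hQ⟩ : ∃ Q : Fin N → V3, Q = gunPos g s z₀ q₂ r := ⟨_, rfl⟩
  have hQg : ∀ k, Q (g k) = z₀ + r • s k := fun k => by rw [hQ]; exact gunPos_gun hg s z₀ q₂ r k
  have hQr : ∀ j ∈ rest g, Q j = q₂ j := fun j hj => by rw [hQ]; exact gunPos_rest s z₀ q₂ r hj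
  rw [← hQ] at hrY
  have hQx : ∀ i, ‖Q i - x.1 i‖ ≤ δ₁ / 4 := by
    intro i
    by_cases hi : i ∈ rest g
    · rw [hQr i hi]
      exact (hq₂x i).trans (by linarith)
    · rw [mem_rest, not_not] at hi
      obtain ⟨k, rfl⟩ := hi
      rw [hQg, hz₀]
      calc ‖x.1 (g 0) + r • s k - x.1 (g k)‖ = ‖(x.1 (g 0) - x.1 (g k)) + r • s k‖ := by
            congr 1; abel
        _ ≤ ‖x.1 (g 0) - x.1 (g k)‖ + ‖r • s k‖ := norm_add_le _ _
        _ ≤ δ₁ / 16 + δ₁ / 16 := by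
          apply add_le_add (hgq 0 k)
          rw [norm_smul, Real.norm_of_nonneg hr0.le]
          have := hs.le k
          nlinarith
        _ ≤ δ₁ / 4 := by linarith
  obtain ⟨m₀, hm₀⟩ : ∃ m₀ : V3, m₀ = ∑ i, m i • Q i := ⟨_, rfl⟩
  have hm₀n : ‖m₀‖ ≤ δ₁ / 4 := by
    have h1 : m₀ = ∑ i, m i • (Q i - x.1 i) := by
      simp only [smul_sub]
      rw [hm₀, Finset.sum_sub_distrib, hcom, sub_zero]
    rw [h1]
    have h2 : ‖∑ i, m i • (Q i - x.1 i)‖ ≤ ∑ i, m i * (δ₁ / 4) := by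
      refine (norm_sum_le _ _).trans (Finset.sum_le_sum (fun i _ => ?_))
      rw [norm_smul, Real.norm_of_nonneg (hm i).le]
      exact mul_le_mul_of_nonneg_left (hQx i) (hm i).le
    rw [← Finset.sum_mul, hM, one_mul] at h2
    exact h2
  have hqsub : ∀ i j, (Q i - m₀) - (Q j - m₀) = Q i - Q j := fun i j => by abel
  have hqx : ∀ i, ‖Q i - m₀ - x.1 i‖ ≤ δ₁ / 2 := by
    intro i
    calc ‖Q i - m₀ - x.1 i‖ = ‖(Q i - x.1 i) - m₀‖ := by congr 1; abel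
      _ ≤ ‖Q i - x.1 i‖ + ‖m₀‖ := norm_sub_le _ _
      _ ≤ δ₁ / 4 + δ₁ / 4 := add_le_add (hQx i) hm₀n
      _ = δ₁ / 2 := by ring
  refine ⟨r, z₀ - m₀, fun i => Q i - m₀, by rw [← hUd]; exact hrb1,
    by rw [← hUd]; exact hrb2, hrδ, ?_, ?_, ?_, ?_, ?_, ?_, ?_, ?_⟩
  · intro i
    have h1 := hqx i
    have h2 := hR i
    have h5 : ‖Q i - m₀‖ ≤ ‖Q i - m₀ - x.1 i‖ + ‖x.1 i‖ := by
      calc ‖Q i - m₀‖ = ‖(Q i - m₀ - x.1 i) + x.1 i‖ := by congr 1; abel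
        _ ≤ _ := norm_add_le _ _
    simp only
    linarith
  · intro k
    simp only
    rw [hQg]; abel
  · intro i hi j hj hij t ht
    have h1 := hq₂s i j hij t ht
    rw [← hQr i (mem_rest.mpr hi), ← hQr j (mem_rest.mpr hj)] at h1
    refine h1.trans (le_of_eq ?_)
    simp only
    generalize t • ((m i)⁻¹ • x.2 i) = a
    generalize t • ((m j)⁻¹ • x.2 j) = b
    congr 1
    abel
  · intro j hj
    simp only
    rw [PiLp.sub_apply, PiLp.sub_apply, sub_sub_sub_cancel_right, hQr j (mem_rest.mpr hj)]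
    exact hlay j (mem_rest.mpr hj)
  · -- no collisions
    intro i j hij h
    have hQij : Q i = Q j := by
      have h1 : (Q i - m₀) = (Q j - m₀) := h
      exact sub_left_injective h1
    have hmix : ∀ k : Fin 3, ∀ j ∈ rest g, Q (g k) ≠ Q j := by
      intro k j hj h1
      rw [hQg, hQr j hj] at h1
      have h2 := hlay j hj
      rw [← h1] at h2
      have h3 : (z₀ + r • s k) 2 - z₀ 2 = 0 := by
        simp [hs.flat k]
      rw [h3, abs_zero] at h2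
      linarith
    by_cases hi : i ∈ rest g
    · by_cases hj : j ∈ rest g
      · rw [hQr i hi, hQr j hj] at hQij
        have h1 := hq₂s i j hij 0 ⟨le_rfl, hτ⟩
        rw [zero_smul, zero_smul, add_zero, add_zero, hQij, sub_self, norm_zero] at h1
        have h2 := hsep i j hij
        linarith
      · rw [mem_rest, not_not] at hj
        obtain ⟨l, rfl⟩ := hj
        exact hmix l i hi hQij.symm
    · rw [mem_rest, not_not] at hi
      obtain ⟨k, rfl⟩ := hi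
      by_cases hj : j ∈ rest g
      · exact hmix k j hj hQij
      · rw [mem_rest, not_not] at hj
        obtain ⟨l, rfl⟩ := hj
        rw [hQg, hQg] at hQij
        have h1 : r • s k = r • s l := add_left_cancel hQij
        have h2 : s k = s l := smul_right_injective V3 hr0.ne' h1
        have hkl : k ≠ l := fun h => hij (by rw [h])
        exact hs.ne k l hkl h2
  · -- centre of mass
    simp only [smul_sub]
    rw [Finset.sum_sub_distrib, ← Finset.sum_smul, hM, one_smul, hm₀, sub_self]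
  · -- energy
    have h1 : invdM m (fun i => Q i - m₀) = invdM m Q := by
      unfold invdM
      apply Finset.sum_congr rfl
      intro i _
      apply Finset.sum_congr rfl
      intro j _
      rw [hqsub]
    rw [pot_eq_invdM, h1, hrY]
    linarith
  · intro i
    exact (hqx i).trans (by linarith)

/-- N8A: prepared states with a gun for arbitrary masses, in the form `Prep4A`, with the spreading
already done; what remains is the condition on the volumes. -/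
theorem prep4A {N : ℕ} {m : Fin N → ℝ} (hm : ∀ i, 0 < m i) (hM : ∑ i, m i = 1)
    {s : Fin 3 → V3} {e : V3} (hs : GunShape s e) {E R δ₁ η₀ θ ε τ ν ω u₀ c : ℝ}
    {sep : Fin N → Fin N → ℝ} {g : Fin 3 → Fin N} (hg : Function.Injective g)
    (hδ₁ : 0 < δ₁) (hδ₁1 : δ₁ ≤ 1) (hc : c = δ₁ / 32) (hη₁ : η₀ ≤ 1 / 2)
    (hθ : 0 < θ) (hθ1 : θ ≤ 1) (hθR : θ * R ≤ δ₁ / 8) (hε : 0 < ε) (hεθ : 16 * ε ≤ θ)
    (hu₀ : u₀ = ∑ k, ∑ l, 1 / ‖s k - s l‖) (hτ : 0 ≤ τ)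
    (hsep : ∀ i j, 0 < sep i j) (hsepc : ∀ i j, sep i j = sep j i)
    {x : Ph N} (hnc : x ∈ NC N) (hcom : ∑ i, m i • x.1 i = 0)
    (hen : kin m x.2 - pot m x.1 = E) (hR : ∀ i, ‖x.1 i‖ ≤ R)
    (hν : ∀ i, ‖(m i)⁻¹ • x.2 i‖ ≤ ν)
    (hgq : ∀ k l, ‖x.1 (g k) - x.1 (g l)‖ ≤ δ₁ / 16)
    (hgratio : ∀ k, |m (g k) / m (g 0) - 1| ≤ η₀)
    (hgv : ∀ k, ‖(m (g k))⁻¹ • x.2 (g k)‖ ≤ ω) (hU : 0 < pot m x.1)
    (hcross : 48 * m (g 0) / c ≤ θ * pot m x.1)
    (hsize : 16 * m (g 0) ^ 2 * u₀ / (θ * pot m x.1) ≤ δ₁ / 16)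
    (hvol : ∀ i, ∑ j ∈ Finset.univ.filter (fun j => j ≠ i ∧ m i ≤ m j),
      (‖(m i)⁻¹ • x.2 i - (m j)⁻¹ • x.2 j‖ * τ * sep i j ^ 2 + sep i j ^ 3) ≤
        ε ^ 3 * c ^ 3 / 2000) :
    ∃ (r : ℝ) (z : V3) (q : Fin N → V3),
      m (g 0) ^ 2 * u₀ / (8 * pot m x.1) ≤ r ∧
      r ≤ 16 * m (g 0) ^ 2 * u₀ / (θ * pot m x.1) ∧ r ≤ δ₁ / 16 ∧
      Prep4A N (R + 1) c ν ω τ r s sep g z q (fun i => (m i)⁻¹ • x.2 i) ∧
      ((q, x.2) : Ph N) ∈ NC N ∧ ∑ i, m i • q i = 0 ∧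
      kin m x.2 - pot m q = E ∧ (∀ i, ‖q i - x.1 i‖ ≤ δ₁) := by
  have hc0 : 0 < c := by rw [hc]; positivity
  obtain ⟨r, z, q, h1, h2, h3, h4, h5, h6, h7, h8, h9, h10, h11⟩ :=
    prep4A_at (sep := sep) hm hM hs hg hδ₁ hδ₁1 hc hη₁ hθ hθ1 hθR hεθ hu₀ hτ
      (fun i j _ => hsep i j) hnc hcom hen hR hgq hgratio hU hcross hsize (by
        intro q₁ _ hq₁ w hw0 _
        obtain ⟨p, hp1, _, hp3, _, hp5⟩ := spread_order w m hw0 q₁
          (fun i => (m i)⁻¹ • x.2 i) hq₁ hc0 hε (by linarith) hτ sep hsep hsepc hvol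
          (fun _ => ∅) (fun _ => MeasurableSet.empty) (fun i => by simp)
        refine ⟨p, hp1, fun i j hij t ht => (hp3 i j hij t ht).le, ?_⟩
        unfold invdM
        rw [← inv_pow]
        exact hp5)
  refine ⟨r, z, q, h1, h2, h3, ⟨hg, h4, hν, h5, hgv, ?_, h7⟩, h8, h9, h10, h11⟩
  intro i j hi hj hij t ht
  exact h6 i hi j hj hij t ht

end Pool.Agent.NBody
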