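import Mathlib

/-!
Polynomials with integer coefficients as lists (constant coefficient first), for checks by the
kernel.
-/

set_option autoImplicit false

namespace Pool.Agent.NBody.RP

/-- sum -/
def padd : List ℤ → List ℤ → List ℤ
  | [], m => m
  | a :: l, [] => a :: l
  | a :: l, b :: m => (a + b) :: padd l m

/-- multiple -/
def psc (c : ℤ) : List ℤ → List ℤ
  | [] => []
  | a :: l => (c * a) :: psc c l

/-- product -/
def pmul : List ℤ → List ℤ → List ℤ
  | [], _ => []
  | a :: l, m => padd (psc a m) (0 :: pmul l m)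

/-- sum of the absolute values of the coefficients -/
def pabs : List ℤ → ℕ
  | [] => 0
  | a :: l => a.natAbs + pabs l

/-- the coefficients multiplied with `k`, `k + 1`, ... -/
def pdk : ℤ → List ℤ → List ℤ
  | _, [] => []
  | k, a :: l => (k * a) :: pdk (k + 1) l

/-- derivative -/
def pd : List ℤ → List ℤ
  | [] => []
  | _ :: l => pdk 1 l

/-- value at `1` -/
def psum : List ℤ → ℤ
  | [] => 0
  | a :: l => a + psum l

/-- value at `-1` -/
def palt : List ℤ → ℤ
  | [] => 0
  | a :: l => a - palt l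

/-- value -/
noncomputable def pe : List ℤ → ℝ → ℝ
  | [], _ => 0
  | a :: l, x => (a : ℝ) + x * pe l x

@[simp] theorem pe_nil (x : ℝ) : pe [] x = 0 := rfl

@[simp] theorem pe_cons (a : ℤ) (l : List ℤ) (x : ℝ) : pe (a :: l) x = (a : ℝ) + x * pe l x := rfl

theorem pe_padd : ∀ (l m : List ℤ) (x : ℝ), pe (padd l m) x = pe l x + pe m x
  | [], m, x => by simp [padd]
  | a :: l, [], x => by simp [padd]
  | a :: l, b :: m, x => by
      simp only [padd, pe_cons, pe_padd l m x]
      push_cast
      ring

theorem pe_psc (c : ℤ) : ∀ (l : List ℤ) (x : ℝ), pe (psc c l) x = (c : ℝ) * pe l x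
  | [], x => by simp [psc]
  | a :: l, x => by
      simp only [psc, pe_cons, pe_psc c l x]
      push_cast
      ring

theorem pe_pmul : ∀ (l m : List ℤ) (x : ℝ), pe (pmul l m) x = pe l x * pe m x
  | [], m, x => by simp [pmul]
  | a :: l, m, x => by
      simp only [pmul, pe_padd, pe_psc, pe_cons, pe_pmul l m x]
      push_cast
      ring

theorem abs_pe_le : ∀ (l : List ℤ) (x : ℝ), |x| ≤ 1 → |pe l x| ≤ (pabs l : ℝ)
  | [], x, _ => by simp [pabs]
  | a :: l, x, hx => by
      have ih := abs_pe_le l x hx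
      simp only [pabs, pe_cons]
      push_cast
      refine (abs_add_le _ _).trans ?_
      rw [abs_mul]
      have h1 : |x| * |pe l x| ≤ 1 * (pabs l : ℝ) :=
        mul_le_mul hx ih (abs_nonneg _) zero_le_one
      have h2 : |(a : ℝ)| = ((a.natAbs : ℕ) : ℝ) := by
        rw [← Int.cast_abs, Int.abs_eq_natAbs]
        simp
      rw [h2]
      linarith

theorem pe_one : ∀ (l : List ℤ), pe l 1 = (psum l : ℝ)
  | [] => by simp [psum]
  | a :: l => by
      simp only [psum, pe_cons, pe_one l]
      push_cast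
      ring

theorem pe_neg_one : ∀ (l : List ℤ), pe l (-1) = (palt l : ℝ)
  | [] => by simp [palt]
  | a :: l => by
      simp only [palt, pe_cons, pe_neg_one l]
      push_cast
      ring

theorem hasDerivAt_cons {l : List ℤ} {x y : ℝ} (a : ℤ) (h : HasDerivAt (pe l) y x) :
    HasDerivAt (pe (a :: l)) (pe l x + x * y) x := by
  have h1 : HasDerivAt (fun z : ℝ => z * pe l z) (1 * pe l x + x * y) x :=
    (hasDerivAt_id' x).mul h
  have h2 : HasDerivAt (fun z : ℝ => (a : ℝ) + z * pe l z) (1 * pe l x + x * y) x :=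
    h1.const_add (a : ℝ)
  rw [one_mul] at h2
  exact h2

theorem hasDerivAt_nil (x : ℝ) : HasDerivAt (pe []) 0 x := by
  have : pe [] = fun _ => (0 : ℝ) := by funext; simp
  rw [this]
  exact hasDerivAt_const x 0

theorem hasDerivAt_pe_aux : ∀ (l : List ℤ) (x : ℝ), ∃ y : ℝ, HasDerivAt (pe l) y x ∧
    ∀ k : ℤ, pe (pdk k l) x = (k : ℝ) * pe l x + x * y
  | [], x => ⟨0, hasDerivAt_nil x, fun k => by simp [pdk]⟩
  | a :: l, x => by
      obtain ⟨y, hy, hk⟩ := hasDerivAt_pe_aux l x
      refine ⟨pe l x + x * y, hasDerivAt_cons a hy, fun k => ?_⟩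
      simp only [pdk, pe_cons, hk (k + 1)]
      push_cast
      ring

theorem hasDerivAt_pe (l : List ℤ) (x : ℝ) : HasDerivAt (pe l) (pe (pd l) x) x := by
  cases l with
  | nil =>
      have := hasDerivAt_nil x
      simpa [pd] using this
  | cons a l =>
      obtain ⟨y, hy, hk⟩ := hasDerivAt_pe_aux l x
      have h1 := hasDerivAt_cons a hy
      have h2 : pe (pd (a :: l)) x = pe l x + x * y := by
        simp only [pd, hk 1]
        push_cast
        ring
      rw [h2]
      exact h1

end Pool.Agent.NBody.RP
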