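import Mathlib

/-!
The numerical conditions for the quantitative theorem on many bodies: everything is a power of
`t = N ^ (1 / 300)`.
-/

set_option autoImplicit false

namespace Pool.Agent.NBody

namespace Rate

/-- comparison of two negative powers -/
theorem cmp {C D t : ℝ} (a k : ℕ) (ht : 0 < t) (h : C ≤ D * t ^ k) :
    C / t ^ (a + k) ≤ D / t ^ a := by
  rw [div_le_div_iff₀ (by positivity) (by positivity), pow_add]
  have : 0 < t ^ a := by positivity
  nlinarith

theorem cmp_lt {C D t : ℝ} (a k : ℕ) (ht : 0 < t) (h : C < D * t ^ k) :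
    C / t ^ (a + k) < D / t ^ a := by
  rw [div_lt_div_iff₀ (by positivity) (by positivity), pow_add]
  have : 0 < t ^ a := by positivity
  nlinarith

/-- a large number dominates -/
theorem le_mul_pow {C D t : ℝ} (k : ℕ) (hD : 0 < D) (ht1 : 1 ≤ t) (ht : C / D ≤ t) (hk : 1 ≤ k) :
    C ≤ D * t ^ k := by
  rw [div_le_iff₀ hD] at ht
  have h1 : t ≤ t ^ k := le_self_pow₀ ht1 (by omega)
  nlinarith

theorem lt_mul_pow {C D t : ℝ} (k : ℕ) (hD : 0 < D) (ht1 : 1 ≤ t) (ht : C / D + 1 ≤ t)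
    (hk : 1 ≤ k) : C < D * t ^ k := by
  have h0 : C / D < t := by linarith
  rw [div_lt_iff₀ hD] at h0
  have h1 : t ≤ t ^ k := le_self_pow₀ ht1 (by omega)
  nlinarith

/-- radius of the region -/
noncomputable def rR (t : ℝ) : ℝ := 2 * t ^ 6 + 1
/-- thickness of the layer -/
noncomputable def rc (t : ℝ) : ℝ := 1 / (32 * t ^ 6)
/-- mutual distance of the other bodies -/
noncomputable def rσ (t : ℝ) : ℝ := 1 / (327680 * t ^ 130)
/-- bound for the accelerations -/
noncomputable def rA (t N : ℝ) : ℝ := 3456 * (1 / N) / rσ t ^ 3 + 1 + 48 * (1 / N) / rc t ^ 2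
/-- bound for the heights of the gun -/
noncomputable def rε (t : ℝ) : ℝ := rc t / (8 * (4 * rR t + 11))

theorem rR_pos {t : ℝ} (ht : 0 < t) : 0 < rR t := by unfold rR; positivity
theorem rc_pos {t : ℝ} (ht : 0 < t) : 0 < rc t := by unfold rc; positivity
theorem rσ_pos {t : ℝ} (ht : 0 < t) : 0 < rσ t := by unfold rσ; positivity
theorem rε_pos {t : ℝ} (ht : 0 < t) : 0 < rε t := by
  have := rR_pos ht
  have := rc_pos ht
  unfold rε
  positivity

theorem rR_le {t : ℝ} (ht : 1 ≤ t) : rR t ≤ 3 * t ^ 6 := by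
  have : 1 ≤ t ^ 6 := one_le_pow₀ ht
  unfold rR
  linarith

theorem kap_le {t : ℝ} (ht : 2 ≤ t) : 4 * rR t + 11 ≤ 9 * t ^ 6 := by
  have : (2:ℝ) ^ 6 ≤ t ^ 6 := pow_le_pow_left₀ (by norm_num) ht 6
  unfold rR
  norm_num at this
  linarith

theorem rε_low {t : ℝ} (ht : 2 ≤ t) : 1 / (2304 * t ^ 12) ≤ rε t := by
  have ht0 : 0 < t := by linarith
  have h1 := kap_le ht
  have h2 := rR_pos ht0
  unfold rε rc
  rw [div_div]
  apply one_div_le_one_div_of_le (by positivity)
  have h3 : 32 * t ^ 6 * (8 * (4 * rR t + 11)) ≤ 32 * t ^ 6 * (8 * (9 * t ^ 6)) := by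
    apply mul_le_mul_of_nonneg_left _ (by positivity)
    linarith
  refine h3.trans (le_of_eq ?_)
  ring

/-- the constant in the bound for the accelerations -/
noncomputable def A₁ : ℝ := 3456 * 327680 ^ 3 + 1 + 49152

theorem rA_le {t N : ℝ} (ht : 1 ≤ t) (hN : N = t ^ 300) : rA t N ≤ A₁ * t ^ 90 := by
  have ht0 : 0 < t := by linarith
  unfold rA rσ rc A₁
  rw [hN]
  have e1 : 3456 * (1 / t ^ 300) / (1 / (327680 * t ^ 130)) ^ 3 = 3456 * 327680 ^ 3 * t ^ 90 := by
    field_simp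
  have e2 : 48 * (1 / t ^ 300) / (1 / (32 * t ^ 6)) ^ 2 = 49152 / t ^ 288 := by
    field_simp
    norm_num
  rw [e1, e2]
  have h1 : 49152 / t ^ 288 ≤ 49152 := by
    apply div_le_self (by norm_num)
    exact one_le_pow₀ ht
  have h2 : 1 ≤ t ^ 90 := one_le_pow₀ ht
  nlinarith

theorem rA_pos {t N : ℝ} (ht : 0 < t) (hN : 0 < N) : 1 ≤ rA t N := by
  have := rσ_pos ht
  have := rc_pos ht
  unfold rA
  have h1 : 0 ≤ 3456 * (1 / N) / rσ t ^ 3 := by positivity
  have h2 : 0 ≤ 48 * (1 / N) / rc t ^ 2 := by positivity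
  linarith

/-- the numerical conditions -/
theorem numbers {u₀ C₀ C₂ ηs : ℝ} (hu : 0 < u₀) (hC₀ : 0 < C₀) (hC₂ : 0 < C₂) (hηs : 0 < ηs) :
    ∃ M : ℝ, 2 ≤ M ∧ ∀ t : ℝ, M ≤ t → ∀ N r : ℝ, N = t ^ 300 → 0 < r →
      r ≤ 64 * u₀ * t ^ 12 / N ^ 2 →
      1 ≤ N ∧ rσ t ≤ 2 ∧ r ≤ 1 ∧ r * C₀ ≤ 1 ∧ r ≤ 1 / (256 * t ^ 6) ∧
      0 < (4 * rR t + 10) * √(N * r) ∧ (4 * rR t + 10) * √(N * r) ≤ 1 ∧
      (rR t + rA t N * ((4 * rR t + 10) * √(N * r))) * ((4 * rR t + 10) * √(N * r)) < rσ t / 4 ∧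
      (rR t + rA t N * ((4 * rR t + 10) * √(N * r))) * ((4 * rR t + 10) * √(N * r)) < rc t / 4 ∧
      (rR t + rA t N * ((4 * rR t + 10) * √(N * r))) * ((4 * rR t + 10) * √(N * r)) ≤ 1 ∧
      rR t * ((4 * rR t + 10) * √(N * r)) ≤ rc t / 8 ∧
      rε t * (r + (4 * rR t + 10)) ≤ rc t / 8 ∧
      N * r ^ 2 * (16 / rc t ^ 2) ≤ min ηs (rε t / (2 * C₂)) ∧
      16 / rc t ^ 2 * (((4 * rR t + 10) * √(N * r)) * √(N * r)) ≤ min ηs (rε t / (2 * C₂)) ∧
      0 < 1 / (2 * √(N * r)) - rR t ∧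
      864 * Real.log (1 + N) < (1 / (2 * √(N * r)) - rR t) ^ 2 * 1 := by
  obtain ⟨U, hU⟩ : ∃ U, U = √u₀ := ⟨_, rfl⟩
  have hU0 : 0 < U := by rw [hU]; exact Real.sqrt_pos.mpr hu
  have hU2 : U ^ 2 = u₀ := by rw [hU]; exact Real.sq_sqrt hu.le
  have hA₁ : 0 < A₁ := by unfold A₁; norm_num
  refine ⟨2 + 256 * u₀ * 64 + 64 * u₀ * C₀ + 72 * U + 72 * A₁ * U + 288 * U * 1310720 +
    288 * U * 128 + 288 * U + 216 * U * 256 + 4096 * u₀ ^ 2 * 16384 * (1 / ηs + 4608 * C₂) +
    16384 * 9 * 64 * u₀ * (1 / ηs + 4608 * C₂) + 96 * U + 864 * 300 * 1024 * u₀, ?_, ?_⟩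
  · have : 0 ≤ 1 / ηs := by positivity
    have h2 : 0 ≤ 1 / ηs + 4608 * C₂ := by positivity
    have h3 : 0 ≤ 256 * u₀ * 64 := by positivity
    have h4 : 0 ≤ 64 * u₀ * C₀ := by positivity
    have h5 : 0 ≤ 72 * A₁ * U := by positivity
    have h6 : 0 ≤ 4096 * u₀ ^ 2 * 16384 * (1 / ηs + 4608 * C₂) := by positivity
    have h7 : 0 ≤ 16384 * 9 * 64 * u₀ * (1 / ηs + 4608 * C₂) := by positivity
    linarith
  intro t hMt N r hN hr0 hr
  -- all the needed lower bounds for t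
  have p1 : 0 ≤ 256 * u₀ * 64 := by positivity
  have p2 : 0 ≤ 64 * u₀ * C₀ := by positivity
  have p3 : 0 ≤ 72 * U := by positivity
  have p4 : 0 ≤ 72 * A₁ * U := by positivity
  have p5 : 0 ≤ 4096 * u₀ ^ 2 * 16384 * (1 / ηs + 4608 * C₂) := by positivity
  have p6 : 0 ≤ 16384 * 9 * 64 * u₀ * (1 / ηs + 4608 * C₂) := by positivity
  have p7 : 0 ≤ 864 * 300 * 1024 * u₀ := by positivity
  have ht2 : 2 ≤ t := by linarith
  have ht1 : 1 ≤ t := by linarith
  have ht0 : 0 < t := by linarith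
  have m1 : 256 * u₀ * 64 ≤ t := by linarith
  have m2 : 64 * u₀ * C₀ ≤ t := by linarith
  have m3 : 72 * U ≤ t := by linarith
  have m4 : 72 * A₁ * U ≤ t := by linarith
  have m5 : 288 * U * 1310720 + 2 ≤ t := by linarith
  have m6 : 288 * U * 128 + 2 ≤ t := by linarith
  have m7 : 288 * U ≤ t := by linarith
  have m8 : 216 * U * 256 ≤ t := by linarith
  have m9 : 4096 * u₀ ^ 2 * 16384 * (1 / ηs + 4608 * C₂) ≤ t := by linarith
  have m10 : 16384 * 9 * 64 * u₀ * (1 / ηs + 4608 * C₂) ≤ t := by linarith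
  have m11 : 96 * U ≤ t := by linarith
  have m12 : 864 * 300 * 1024 * u₀ + 2 ≤ t := by linarith
  have hN0 : 0 < N := by rw [hN]; positivity
  have hN1 : 1 ≤ N := by rw [hN]; exact one_le_pow₀ ht1
  have hR0 := rR_pos ht0
  have hc0 := rc_pos ht0
  have hσ0 := rσ_pos ht0
  have hε0 := rε_pos ht0
  have hR3 := rR_le ht1
  have hκ := kap_le ht2
  have hA1 := rA_pos ht0 hN0
  have hAle := rA_le ht1 hN
  -- size of the gun
  have hr' : r ≤ 64 * u₀ / t ^ 588 := by
    refine hr.trans (le_of_eq ?_)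
    rw [hN]
    field_simp
  have hr1 : r ≤ 1 := by
    refine hr'.trans ?_
    rw [div_le_one (by positivity)]
    have h1 : t ≤ t ^ 588 := le_self_pow₀ ht1 (by norm_num)
    linarith
  have hrC : r * C₀ ≤ 1 := by
    have h1 : r * C₀ ≤ 64 * u₀ / t ^ 588 * C₀ := mul_le_mul_of_nonneg_right hr' hC₀.le
    refine h1.trans ?_
    rw [div_mul_eq_mul_div, div_le_one (by positivity)]
    have h1 : t ≤ t ^ 588 := le_self_pow₀ ht1 (by norm_num)
    linarith
  have hrc : r ≤ 1 / (256 * t ^ 6) := by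
    refine hr'.trans ?_
    have h1 := cmp (C := 64 * u₀) (D := 1 / 256) 6 582 ht0
      (le_mul_pow 582 (by norm_num) ht1 (by
        have : 64 * u₀ / (1 / 256) = 256 * u₀ * 64 := by ring
        rw [this]; exact m1) (by norm_num))
    refine h1.trans (le_of_eq ?_)
    field_simp
  -- the square root
  obtain ⟨Y, hY⟩ : ∃ Y, Y = √(N * r) := ⟨_, rfl⟩
  rw [← hY]
  have hY0 : 0 < Y := by rw [hY]; exact Real.sqrt_pos.mpr (by positivity)
  have hYsq : Y ^ 2 = N * r := by rw [hY]; exact Real.sq_sqrt (by positivity)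
  have hYle : Y ≤ 8 * U / t ^ 144 := by
    apply le_of_sq_le_sq _ (by positivity)
    rw [hYsq, div_pow, mul_pow, hU2]
    have h1 : N * r ≤ N * (64 * u₀ * t ^ 12 / N ^ 2) := mul_le_mul_of_nonneg_left hr hN0.le
    refine h1.trans (le_of_eq ?_)
    rw [hN]
    field_simp
    norm_num
  obtain ⟨τ, hτ⟩ : ∃ τ, τ = (4 * rR t + 10) * Y := ⟨_, rfl⟩
  rw [← hτ]
  have hτ0 : 0 < τ := by rw [hτ]; positivity
  have hτle : τ ≤ 72 * U / t ^ 138 := by
    have h1 : τ ≤ 9 * t ^ 6 * (8 * U / t ^ 144) := by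
      rw [hτ]
      apply mul_le_mul _ hYle hY0.le (by positivity)
      linarith
    refine h1.trans (le_of_eq ?_)
    field_simp
    norm_num
  have hτ1 : τ ≤ 1 := by
    refine hτle.trans ?_
    rw [div_le_one (by positivity)]
    have h1 : t ≤ t ^ 138 := le_self_pow₀ ht1 (by norm_num)
    linarith
  have hAτ : rA t N * τ ≤ 1 := by
    have h1 : rA t N * τ ≤ A₁ * t ^ 90 * (72 * U / t ^ 138) :=
      mul_le_mul hAle hτle hτ0.le (by positivity)
    refine h1.trans ?_
    have h2 : A₁ * t ^ 90 * (72 * U / t ^ 138) = 72 * A₁ * U / t ^ 48 := by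
      field_simp
    rw [h2, div_le_one (by positivity)]
    have h1 : t ≤ t ^ 48 := le_self_pow₀ ht1 (by norm_num)
    linarith
  have hX : (rR t + rA t N * τ) * τ ≤ 288 * U / t ^ 132 := by
    have h1 : rR t + rA t N * τ ≤ 4 * t ^ 6 := by
      have : 1 ≤ t ^ 6 := one_le_pow₀ ht1
      linarith
    have h2 : (rR t + rA t N * τ) * τ ≤ 4 * t ^ 6 * (72 * U / t ^ 138) :=
      mul_le_mul h1 hτle hτ0.le (by positivity)
    refine h2.trans (le_of_eq ?_)
    field_simp
    norm_num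
  have hXσ : (rR t + rA t N * τ) * τ < rσ t / 4 := by
    refine lt_of_le_of_lt hX ?_
    have h1 := cmp_lt (C := 288 * U) (D := 1 / 1310720) 130 2 ht0
      (lt_mul_pow 2 (by norm_num) ht1 (by
        have : 288 * U / (1 / 1310720) = 288 * U * 1310720 := by ring
        rw [this]; linarith) (by norm_num))
    refine lt_of_lt_of_le h1 (le_of_eq ?_)
    unfold rσ
    field_simp
    norm_num
  have hXc : (rR t + rA t N * τ) * τ < rc t / 4 := by
    refine lt_of_le_of_lt hX ?_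
    have h1 := cmp_lt (C := 288 * U) (D := 1 / 128) 6 126 ht0
      (lt_mul_pow 126 (by norm_num) ht1 (by
        have : 288 * U / (1 / 128) = 288 * U * 128 := by ring
        rw [this]; linarith) (by norm_num))
    refine lt_of_lt_of_le h1 (le_of_eq ?_)
    unfold rc
    field_simp
    norm_num
  have hX1 : (rR t + rA t N * τ) * τ ≤ 1 := by
    refine hX.trans ?_
    rw [div_le_one (by positivity)]
    have h1 : t ≤ t ^ 132 := le_self_pow₀ ht1 (by norm_num)
    linarith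
  have hRτ : rR t * τ ≤ rc t / 8 := by
    have h1 : rR t * τ ≤ 3 * t ^ 6 * (72 * U / t ^ 138) :=
      mul_le_mul hR3 hτle hτ0.le (by positivity)
    refine h1.trans ?_
    have h2 : 3 * t ^ 6 * (72 * U / t ^ 138) = 216 * U / t ^ (6 + 126) := by
      field_simp
      ring
    rw [h2]
    have h3 := cmp (C := 216 * U) (D := 1 / 256) 6 126 ht0
      (le_mul_pow 126 (by norm_num) ht1 (by
        have : 216 * U / (1 / 256) = 216 * U * 256 := by ring
        rw [this]; exact m8) (by norm_num))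
    refine h3.trans (le_of_eq ?_)
    unfold rc
    field_simp
    norm_num
  have hεr : rε t * (r + (4 * rR t + 10)) ≤ rc t / 8 := by
    have h1 : rε t * (r + (4 * rR t + 10)) ≤ rε t * (4 * rR t + 11) := by
      apply mul_le_mul_of_nonneg_left _ hε0.le
      linarith
    refine h1.trans (le_of_eq ?_)
    unfold rε
    have : 4 * rR t + 11 ≠ 0 := by positivity
    field_simp
  have hσ2 : rσ t ≤ 2 := by
    unfold rσ
    rw [div_le_iff₀ (by positivity)]
    have : 1 ≤ t ^ 130 := one_le_pow₀ ht1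
    linarith
  have h16 : 16 / rc t ^ 2 = 16384 * t ^ 12 := by
    unfold rc
    field_simp
    norm_num
  -- lower bound for the minimum
  have hmin : ∀ B : ℝ, ∀ k : ℕ, 13 ≤ k → B * (1 / ηs + 4608 * C₂) ≤ t → 0 ≤ B →
      B / t ^ k ≤ min ηs (rε t / (2 * C₂)) := by
    intro B k hk hB hB0
    have hpos : 0 < 1 / ηs + 4608 * C₂ := by positivity
    apply le_min
    · rw [div_le_iff₀ (by positivity)]
      have h1 : t ≤ t ^ k := le_self_pow₀ ht1 (by omega)
      have h2 : B * (1 / ηs) ≤ t ^ k := by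
        have h3 : B * (1 / ηs) ≤ B * (1 / ηs + 4608 * C₂) := by
          apply mul_le_mul_of_nonneg_left _ hB0
          have : 0 ≤ 4608 * C₂ := by positivity
          linarith
        linarith
      rw [mul_one_div, div_le_iff₀ hηs] at h2
      linarith
    · have h1 := rε_low ht2
      have h2 : 1 / (2304 * t ^ 12) / (2 * C₂) ≤ rε t / (2 * C₂) :=
        div_le_div_of_nonneg_right h1 (by positivity)
      refine le_trans ?_ h2
      rw [div_div, div_le_div_iff₀ (by positivity) (by positivity), one_mul]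
      obtain ⟨j, hj⟩ : ∃ j, k = 12 + j := ⟨k - 12, by omega⟩
      rw [hj, pow_add]
      have h3 : t ≤ t ^ j := le_self_pow₀ ht1 (by omega)
      have h4 : B * (4608 * C₂) ≤ t ^ j := by
        have h5 : B * (4608 * C₂) ≤ B * (1 / ηs + 4608 * C₂) := by
          apply mul_le_mul_of_nonneg_left _ hB0
          have : 0 ≤ 1 / ηs := by positivity
          linarith
        linarith
      have h6 : B * (2304 * t ^ 12 * (2 * C₂)) = t ^ 12 * (B * (4608 * C₂)) := by ring
      rw [h6]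
      exact mul_le_mul_of_nonneg_left h4 (by positivity)
  have hη1 : N * r ^ 2 * (16 / rc t ^ 2) ≤ min ηs (rε t / (2 * C₂)) := by
    rw [h16]
    have h1 : N * r ^ 2 * (16384 * t ^ 12) ≤ N * (64 * u₀ / t ^ 588) ^ 2 * (16384 * t ^ 12) := by
      gcongr
    refine h1.trans ?_
    have h2 : N * (64 * u₀ / t ^ 588) ^ 2 * (16384 * t ^ 12) =
        4096 * u₀ ^ 2 * 16384 / t ^ 864 := by
      rw [hN]
      field_simp
      norm_num
    rw [h2]
    exact hmin _ 864 (by norm_num) m9 (by positivity)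
  have hη2 : 16 / rc t ^ 2 * (τ * Y) ≤ min ηs (rε t / (2 * C₂)) := by
    rw [h16]
    have h1 : τ * Y ≤ 9 * t ^ 6 * (64 * u₀ / t ^ 288) := by
      have e1 : τ * Y = (4 * rR t + 10) * Y ^ 2 := by rw [hτ]; ring
      rw [e1]
      apply mul_le_mul _ _ (by positivity) (by positivity)
      · linarith
      · rw [hYsq]
        have h1 : N * r ≤ N * (64 * u₀ / t ^ 588) := mul_le_mul_of_nonneg_left hr' hN0.le
        refine h1.trans (le_of_eq ?_)
        rw [hN]
        field_simp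
    have h2 : 16384 * t ^ 12 * (τ * Y) ≤ 16384 * t ^ 12 * (9 * t ^ 6 * (64 * u₀ / t ^ 288)) :=
      mul_le_mul_of_nonneg_left h1 (by positivity)
    refine h2.trans ?_
    have h3 : 16384 * t ^ 12 * (9 * t ^ 6 * (64 * u₀ / t ^ 288)) =
        16384 * 9 * 64 * u₀ / t ^ 270 := by
      field_simp
    rw [h3]
    exact hmin _ 270 (by norm_num) m10 (by positivity)
  -- the speed
  have hspeed : t ^ 144 / (32 * U) ≤ 1 / (2 * Y) - rR t := by
    have h1 : t ^ 144 / (16 * U) ≤ 1 / (2 * Y) := by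
      rw [div_le_div_iff₀ (by positivity) (by positivity), one_mul]
      rw [le_div_iff₀ (by positivity)] at hYle
      nlinarith
    have h2 : rR t ≤ t ^ 144 / (32 * U) := by
      rw [le_div_iff₀ (by positivity)]
      have h3 : t ≤ t ^ 138 := le_self_pow₀ ht1 (by norm_num)
      have h4 : t ^ 144 = t ^ 6 * t ^ 138 := by ring
      rw [h4]
      have h5 : rR t * (32 * U) ≤ 3 * t ^ 6 * (32 * U) :=
        mul_le_mul_of_nonneg_right hR3 (by positivity)
      have h6 : 3 * t ^ 6 * (32 * U) = t ^ 6 * (96 * U) := by ring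
      rw [h6] at h5
      refine h5.trans ?_
      apply mul_le_mul_of_nonneg_left _ (by positivity)
      linarith
    have h3 : t ^ 144 / (16 * U) = t ^ 144 / (32 * U) + t ^ 144 / (32 * U) := by
      field_simp
      norm_num
    linarith
  have hspos : 0 < t ^ 144 / (32 * U) := by positivity
  have hlog : 864 * Real.log (1 + N) < (1 / (2 * Y) - rR t) ^ 2 * 1 := by
    rw [mul_one]
    have h1 : (t ^ 144 / (32 * U)) ^ 2 ≤ (1 / (2 * Y) - rR t) ^ 2 :=
      pow_le_pow_left₀ hspos.le hspeed 2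
    refine lt_of_lt_of_le ?_ h1
    have h2 : Real.log (1 + N) ≤ 300 * t := by
      have h3 : 1 + N ≤ (1 + t) ^ 300 := by
        rw [hN]
        have h4 : (1:ℝ) ^ 300 + t ^ 300 ≤ (1 + t) ^ 300 :=
          pow_add_pow_le (by norm_num) ht0.le (by norm_num)
        simpa using h4
      have h5 : Real.log (1 + N) ≤ Real.log ((1 + t) ^ 300) :=
        Real.log_le_log (by positivity) h3
      rw [Real.log_pow] at h5
      have h6 : Real.log (1 + t) ≤ t := by
        have := Real.log_le_sub_one_of_pos (by positivity : 0 < 1 + t)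
        linarith
      push_cast at h5
      linarith
    have h3 : (t ^ 144 / (32 * U)) ^ 2 = t ^ 288 / (1024 * u₀) := by
      rw [div_pow, mul_pow, hU2]
      norm_num
      rw [← pow_mul]
    rw [h3, lt_div_iff₀ (by positivity)]
    have h4 : 864 * Real.log (1 + N) * (1024 * u₀) ≤ 864 * (300 * t) * (1024 * u₀) := by
      gcongr
    refine lt_of_le_of_lt h4 ?_
    have h5 : 864 * (300 * t) * (1024 * u₀) = (864 * 300 * 1024 * u₀) * t := by ring
    rw [h5]
    have h6 : t ^ 2 ≤ t ^ 288 := pow_le_pow_right₀ ht1 (by norm_num)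
    nlinarith
  exact ⟨hN1, hσ2, hr1, hrC, hrc, hτ0, hτ1, hXσ, hXc, hX1, hRτ, hεr, hη1, hη2,
    lt_of_lt_of_le hspos hspeed, hlog⟩

end Rate

end Pool.Agent.NBody
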