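import Mathlib
import Pool.Agent.NBody.ThRateNum
import Pool.Agent.NBody.ThMain
import Pool.Agent.NBody.ThBoot4
import Pool.Agent.NBody.ThPrep3
import Pool.Agent.NBody.ThDefsM

/-!
The theorem on many bodies of equal masses with a rate: everything polynomial in `N`.
-/

set_option autoImplicit false
open scoped RealInnerProductSpace
open Set Finset Filter Topology

namespace Pool.Agent.NBody

theorem Prep.weaken {N : ℕ} {R R' c σ σ' r : ℝ} {s : Fin 3 → V3} {g : Fin 3 → Fin N} {z w : V3}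
    {q v : Fin N → V3} (hp : Prep N R c σ r s g z w q v) (hσ : σ' ≤ σ) (hR : R ≤ R') :
    Prep N R' c σ' r s g z w q v where
  inj := hp.inj
  bq := fun i => (hp.bq i).trans hR
  bv := fun i => (hp.bv i).trans hR
  gq := hp.gq
  gv := hp.gv
  sep := fun i j hi hj hij => hσ.trans (hp.sep i j hi hj hij)
  lay := hp.lay

/-- the gun with linear heights, equal masses, in the form used by the bootstrap -/
theorem gunAt_of_M {s : Fin 3 → V3} {e : V3} {μ₀ C₀ η₀ : ℝ} (hC : 0 < C₀) (hη₀ : 0 < η₀)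
    (hg : GunPropM s e μ₀ C₀ η₀) (ε : ℝ) :
    GunAt s e μ₀ C₀ ε (min η₀ (ε / (2 * C₀))) := by
  intro T hT η hη hη1 hηT f Q V hsol hf hQ hV t ht
  have h1 := hg (fun _ => 1) (fun k => by simpa using hη₀.le) T hT η hη
    (hη1.trans (min_le_left _ _)) (hηT.trans (min_le_left _ _)) f Q V
    (isSolM_const.mpr hsol) hf hQ hV t ht
  obtain ⟨k1, k2, k3, k4, k5, k6, k7⟩ := h1
  refine ⟨k1, ?_, k3, k4, k5, k6, k7⟩
  intro k
  refine (k2 k).trans ?_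
  have ht1 : 0 ≤ 1 + t := by linarith [ht.1]
  apply mul_le_mul_of_nonneg_right _ ht1
  have h2 := hη1.trans (min_le_right _ _)
  have h3 := hηT.trans (min_le_right _ _)
  rw [le_div_iff₀ (by positivity)] at h2 h3
  nlinarith

/-- The theorem on many bodies with a rate, given the gun. -/
theorem rate_of {s : Fin 3 → V3} {e : V3} {μ₀ C₀ η₀ : ℝ} (hs : GunShape s e) (hμ : 0 < μ₀)
    (hC : 0 < C₀) (hη₀ : 0 < η₀)
    (hg : ∀ ε : ℝ, 0 < ε → GunAt s e μ₀ C₀ ε (min η₀ (ε / (2 * C₀)))) :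
    ∃ N₀ : ℕ, ∀ N : ℕ, N₀ ≤ N → ∀ E : ℝ, |E| ≤ (N : ℝ) ^ (1 / 50 : ℝ) →
      ∀ (S : Set (Ph N)) (ψ : Ph N → ℝ) (φ : ℝ → Ph N → Ph N),
      Setting (fun _ : Fin N => 1 / (N : ℝ)) S ψ φ →
      (∀ x : Ph N, x ∈ S ↔ (∀ i j, i ≠ j → x.1 i ≠ x.1 j) ∧
        ∑ i, (1 / (N : ℝ)) • x.1 i = 0 ∧ ∑ i, x.2 i = 0 ∧
        kin (fun _ => 1 / (N : ℝ)) x.2 - pot (fun _ => 1 / (N : ℝ)) x.1 = E) →
      ∀ x ∈ S, (∀ i, ‖x.1 i‖ ≤ (N : ℝ) ^ (1 / 50 : ℝ)) →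
        (∀ i, (N : ℝ) * ‖x.2 i‖ ≤ (N : ℝ) ^ (1 / 50 : ℝ)) →
        ∃ y ∈ S, Wandering S φ y ∧ (∀ i, ‖y.1 i - x.1 i‖ ≤ (N : ℝ) ^ (-(1 / 50) : ℝ)) ∧
          (∀ i, (N : ℝ) * ‖y.2 i - x.2 i‖ ≤ (N : ℝ) ^ (-(1 / 50) : ℝ)) := by
  obtain ⟨u₀, hu₀⟩ : ∃ u₀ : ℝ, u₀ = ∑ k, ∑ l, 1 / ‖s k - s l‖ := ⟨_, rfl⟩
  have hu0 : 0 < u₀ := by
    have h1 : (0:ℝ) < 1 / ‖s 0 - s 1‖ := by
      have : 0 < ‖s 0 - s 1‖ := norm_pos_iff.mpr (sub_ne_zero.mpr (hs.ne 0 1 (by decide)))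
      positivity
    have h2 : 1 / ‖s 0 - s 1‖ ≤ ∑ l, 1 / ‖s 0 - s l‖ :=
      Finset.single_le_sum (f := fun l => 1 / ‖s 0 - s l‖) (fun _ _ => by positivity)
        (Finset.mem_univ 1)
    have h3 : ∑ l, 1 / ‖s 0 - s l‖ ≤ ∑ k, ∑ l, 1 / ‖s k - s l‖ :=
      Finset.single_le_sum (f := fun k => ∑ l, 1 / ‖s k - s l‖)
        (fun _ _ => Finset.sum_nonneg (fun _ _ => by positivity)) (Finset.mem_univ 0)
    rw [hu₀]
    linarith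
  obtain ⟨M, hM2, hM⟩ := Rate.numbers hu0 hC hC hη₀
  obtain ⟨M', hM'⟩ : ∃ M' : ℝ, M' = max M 200 := ⟨_, rfl⟩
  have hM'0 : 0 < M' := by
    rw [hM']
    exact lt_of_lt_of_le (by norm_num) (le_max_right _ _)
  refine ⟨⌈M' ^ 300⌉₊, ?_⟩
  intro N hN E hE S ψ φ hset hS x hx hxR hxV
  -- the parameter t
  have hNM : M' ^ 300 ≤ (N : ℝ) := by
    have h1 := Nat.le_ceil (M' ^ 300)
    have h2 : ((⌈M' ^ 300⌉₊ : ℕ) : ℝ) ≤ (N : ℝ) := by exact_mod_cast hN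
    exact h1.trans h2
  have hN0 : (0 : ℝ) < N := lt_of_lt_of_le (by positivity) hNM
  obtain ⟨t, ht⟩ : ∃ t : ℝ, t = (N : ℝ) ^ (1 / 300 : ℝ) := ⟨_, rfl⟩
  have ht300 : (N : ℝ) = t ^ 300 := by
    rw [ht, ← Real.rpow_natCast, ← Real.rpow_mul hN0.le]
    norm_num
  have htM' : M' ≤ t := by
    rw [ht]
    have h1 : (M' ^ 300) ^ (1 / 300 : ℝ) ≤ (N : ℝ) ^ (1 / 300 : ℝ) :=
      Real.rpow_le_rpow (by positivity) hNM (by norm_num)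
    have h2 : (M' ^ 300) ^ (1 / 300 : ℝ) = M' := by
      rw [← Real.rpow_natCast, ← Real.rpow_mul hM'0.le]
      norm_num
    rwa [h2] at h1
  have htM : M ≤ t := le_trans (by rw [hM']; exact le_max_left _ _) htM'
  have ht200 : 200 ≤ t := le_trans (by rw [hM']; exact le_max_right _ _) htM'
  have ht1 : 1 ≤ t := by linarith
  have ht0 : 0 < t := by linarith
  have ht6 : (N : ℝ) ^ (1 / 50 : ℝ) = t ^ 6 := by
    rw [ht, ← Real.rpow_natCast, ← Real.rpow_mul hN0.le]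
    norm_num
  have htm6 : (N : ℝ) ^ (-(1 / 50) : ℝ) = 1 / t ^ 6 := by
    rw [Real.rpow_neg hN0.le, ht6, one_div]
  rw [ht6] at hE hxR hxV
  rw [htm6]
  have hN4 : 1 ≤ N := by exact_mod_cast hN0
  obtain ⟨hx1, hx2, hx3, hx4⟩ := (hS x).mp hx
  have hx2' : ∑ i, x.1 i = 0 := by
    rw [← Finset.smul_sum] at hx2
    exact (smul_eq_zero.mp hx2).resolve_left (by positivity)
  have ht6pos : (0 : ℝ) < t ^ 6 := by positivity
  have ht6one : (1 : ℝ) ≤ t ^ 6 := one_le_pow₀ ht1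
  have habs : |t ^ 6| = t ^ 6 := abs_of_pos ht6pos
  -- parameters of the prepared state
  obtain ⟨G₀, hG₀⟩ : ∃ G₀ : ℝ, G₀ = (1 / t ^ 6) ^ 2 / 64 := ⟨_, rfl⟩
  obtain ⟨P₀, hP₀⟩ : ∃ P₀ : ℝ, P₀ = (t ^ 6) ^ 2 / 2 + |E| + 1 := ⟨_, rfl⟩
  obtain ⟨ε₂, hε₂⟩ : ∃ ε₂ : ℝ, ε₂ = G₀ / (16 * P₀) := ⟨_, rfl⟩
  obtain ⟨P₁, hP₁⟩ : ∃ P₁ : ℝ, P₁ = (|t ^ 6| + 1) ^ 2 / 2 + |E| := ⟨_, rfl⟩
  obtain ⟨K, hK⟩ : ∃ K : ℕ, K = ⌈(|t ^ 6| + |t ^ 6|) / (1 / t ^ 6 / 32)⌉₊ + 1 := ⟨_, rfl⟩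
  have hE0 := abs_nonneg E
  have hG0 : 0 < G₀ := by rw [hG₀]; positivity
  have hG0' : G₀ = 1 / (64 * t ^ 12) := by
    rw [hG₀]
    field_simp
  have hP₀le : P₀ ≤ 2 * t ^ 12 := by
    rw [hP₀]
    have h1 : t ^ 12 = t ^ 6 * t ^ 6 := by ring
    have h2 : (t ^ 6) ^ 2 = t ^ 6 * t ^ 6 := by ring
    rw [h1, h2]
    have h3 : (2 : ℝ) ≤ t ^ 6 := by
      have : t ≤ t ^ 6 := le_self_pow₀ ht1 (by norm_num)
      linarith
    nlinarith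
  have hP₀1 : 1 ≤ P₀ := by
    rw [hP₀]
    have : 0 ≤ (t ^ 6) ^ 2 / 2 := by positivity
    linarith
  have hP₁pos : 0 < P₁ := by
    rw [hP₁, habs]
    positivity
  have hKr : (K : ℝ) ≤ 64 * t ^ 12 + 2 := by
    have h1 : (|t ^ 6| + |t ^ 6|) / (1 / t ^ 6 / 32) = 64 * t ^ 12 := by
      rw [habs]
      field_simp
      norm_num
    rw [hK, h1]
    push_cast
    have := Nat.ceil_lt_add_one (a := 64 * t ^ 12) (by positivity)
    linarith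
  have hK' : (|t ^ 6| + |t ^ 6|) / (1 / t ^ 6 / 32) + 1 ≤ K := by
    rw [hK]
    push_cast
    have := Nat.le_ceil ((|t ^ 6| + |t ^ 6|) / (1 / t ^ 6 / 32))
    linarith
  have hN1 : (2 * K + 1) ^ 6 * 2 < N := by
    have h1 : (((2 * K + 1) ^ 6 * 2 : ℕ) : ℝ) < (N : ℝ) := by
      push_cast
      have h2 : (2 * (K : ℝ) + 1) ≤ 130 * t ^ 12 := by
        have : (200 : ℝ) ≤ t ^ 12 := by
          have : t ≤ t ^ 12 := le_self_pow₀ ht1 (by norm_num)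
          linarith
        linarith
      have h3 : (2 * (K : ℝ) + 1) ^ 6 * 2 ≤ (130 * t ^ 12) ^ 6 * 2 := by
        have : (0 : ℝ) ≤ 2 * (K : ℝ) + 1 := by positivity
        gcongr
      refine lt_of_le_of_lt h3 ?_
      rw [ht300]
      have h4 : (130 * t ^ 12) ^ 6 * 2 = (130 ^ 6 * 2) * t ^ 72 := by ring
      have h5 : t ^ 300 = t ^ 228 * t ^ 72 := by ring
      rw [h4, h5]
      apply mul_lt_mul_of_pos_right _ (by positivity)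
      calc (130 ^ 6 * 2 : ℝ) < 200 ^ 7 := by norm_num
        _ ≤ t ^ 7 := pow_le_pow_left₀ (by norm_num) ht200 7
        _ ≤ t ^ 228 := pow_le_pow_right₀ ht1 (by norm_num)
    exact_mod_cast h1
  have hbig : (6 / (1 / t ^ 6 / 32) + 1 + 3 * (t ^ 6) ^ 2) / G₀ ≤ N := by
    rw [hG0', div_le_iff₀ (by positivity), ht300]
    have h1 : 6 / (1 / t ^ 6 / 32) = 192 * t ^ 6 := by
      field_simp
      norm_num
    rw [h1]
    have h2 : t ^ 300 * (1 / (64 * t ^ 12)) = t ^ 288 / 64 := by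
      field_simp
    rw [h2, le_div_iff₀ (by norm_num)]
    have h3 : t ^ 12 ≤ t ^ 13 := pow_le_pow_right₀ ht1 (by norm_num)
    have h4 : t ^ 6 ≤ t ^ 12 := pow_le_pow_right₀ ht1 (by norm_num)
    have h5 : t ^ 15 ≤ t ^ 288 := pow_le_pow_right₀ ht1 (by norm_num)
    have h6 : (t ^ 6) ^ 2 = t ^ 12 := by ring
    have h7 : (200 : ℝ) ^ 3 ≤ t ^ 3 := pow_le_pow_left₀ (by norm_num) ht200 3
    have h8 : t ^ 15 = t ^ 3 * t ^ 12 := by ring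
    have h9 : (1 : ℝ) ≤ t ^ 12 := one_le_pow₀ ht1
    rw [h6]
    have h10 : (200 : ℝ) ^ 3 * t ^ 12 ≤ t ^ 3 * t ^ 12 :=
      mul_le_mul_of_nonneg_right h7 (by positivity)
    norm_num at h10
    linarith
  have hrmax : ∀ r : ℝ, r ≤ u₀ / G₀ / (N : ℝ) ^ 2 → r ≤ 64 * u₀ * t ^ 12 / (N : ℝ) ^ 2 := by
    intro r hr
    refine hr.trans (le_of_eq ?_)
    rw [hG0']
    field_simp
  obtain ⟨m1, m2, m3, m4, m5, m6, m7, m8, m9, m10, m11, m12, m13, m14, m15, m16⟩ :=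
    hM t htM N (u₀ / G₀ / (N : ℝ) ^ 2) ht300 (by positivity) (hrmax _ le_rfl)
  have hN5 : u₀ / G₀ / (N : ℝ) ^ 2 ≤ 1 / t ^ 6 / 16 := by
    refine m5.trans ?_
    rw [div_div]
    apply one_div_le_one_div_of_le (by positivity)
    linarith
  obtain ⟨r, g, z, w, q, v, hr1, hr2, hp, hnc, hq0, hv0, hEn, hq, hv⟩ :=
    prep_at' hs E (t ^ 6) (t ^ 6) (1 / t ^ 6) (by positivity)
      (by rw [div_le_one ht6pos]; exact ht6one) (N := N) (K := K) hG₀ hP₀ hε₂ hu₀ hP₁ rfl hK'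
      hN1 hbig hN5 x hx1 hx2' hx3 hx4 hxR hxV
  clear m2 m3 m4 m5 m6 m7 m8 m9 m10 m11 m12 m13 m14 m15 m16
  have hr0 : 0 < r := lt_of_lt_of_le (by positivity) hr1
  obtain ⟨-, m2, m3, m4, m5, m6, m7, m8, m9, m10, m11, m12, m13, m14, m15, m16⟩ :=
    hM t htM N r ht300 hr0 (hrmax _ hr2)
  -- weaken the prepared state
  have hcc : 1 / t ^ 6 / 32 = Rate.rc t := by
    unfold Rate.rc
    rw [div_div, mul_comm]
  have hRR : |t ^ 6| + |t ^ 6| + 1 = Rate.rR t := by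
    unfold Rate.rR
    rw [habs]
    ring
  have hσσ : Rate.rσ t ≤
      1 / t ^ 6 / 32 * ε₂ * (1 / 100 : ℝ) ^ (1 / 3 : ℝ) * (N : ℝ) ^ (-(1 / 3) : ℝ) := by
    have h1 : (N : ℝ) ^ (-(1 / 3) : ℝ) = 1 / t ^ 100 := by
      have h0 : (t ^ 300) ^ (1 / 3 : ℝ) = t ^ 100 := by
        have h2 : t ^ 300 = (t ^ 100) ^ 3 := by ring
        rw [h2, ← Real.rpow_natCast (t ^ 100) 3, ← Real.rpow_mul (by positivity)]
        norm_num
      rw [ht300, Real.rpow_neg (by positivity), h0, one_div]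
    have h2 : (1 / 5 : ℝ) ≤ (1 / 100 : ℝ) ^ (1 / 3 : ℝ) := by
      have h3 : ((1 / 125 : ℝ)) ^ (1 / 3 : ℝ) ≤ (1 / 100 : ℝ) ^ (1 / 3 : ℝ) :=
        Real.rpow_le_rpow (by norm_num) (by norm_num) (by norm_num)
      have h4 : ((1 / 125 : ℝ)) ^ (1 / 3 : ℝ) = 1 / 5 := by
        have : (1 / 125 : ℝ) = (1 / 5) ^ (3 : ℕ) := by norm_num
        rw [this, ← Real.rpow_natCast, ← Real.rpow_mul (by norm_num)]
        norm_num
      rwa [h4] at h3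
    have h3 : 1 / (2048 * t ^ 24) ≤ ε₂ := by
      rw [hε₂, hG0', div_div]
      apply one_div_le_one_div_of_le (by positivity)
      have h4 : 64 * t ^ 12 * (16 * P₀) ≤ 64 * t ^ 12 * (16 * (2 * t ^ 12)) := by
        apply mul_le_mul_of_nonneg_left _ (by positivity)
        linarith
      refine h4.trans (le_of_eq ?_)
      ring
    have hε0 : 0 < ε₂ := lt_of_lt_of_le (by positivity) h3
    rw [h1]
    have h5 : 1 / t ^ 6 / 32 * (1 / (2048 * t ^ 24)) * (1 / 5) * (1 / t ^ 100) ≤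
        1 / t ^ 6 / 32 * ε₂ * (1 / 100 : ℝ) ^ (1 / 3 : ℝ) * (1 / t ^ 100) := by
      gcongr
    refine le_trans (le_of_eq ?_) h5
    unfold Rate.rσ
    field_simp
    norm_num
  have hp' : Prep N (Rate.rR t) (Rate.rc t) (Rate.rσ t) r s g z w q v := by
    rw [← hcc]
    exact hp.weaken hσσ hRR.le
  have hY0 : 0 < √((N : ℝ) * r) := Real.sqrt_pos.mpr (by positivity)
  obtain ⟨τ, hτ⟩ : ∃ τ : ℝ, τ = (4 * Rate.rR t + 10) * √((N : ℝ) * r) := ⟨_, rfl⟩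
  rw [← hτ] at m6 m7 m8 m9 m10 m11 m14
  have hτY : τ * (1 / √((N : ℝ) * r)) = 4 * Rate.rR t + 10 := by
    rw [hτ]
    field_simp
  obtain ⟨⟨Kc, hK1, hK2, hK3⟩, H4⟩ := boot_at hs hμ hC (Rate.rε_pos ht0)
    (hg _ (Rate.rε_pos ht0)) (N := N) (R := Rate.rR t) (c := Rate.rc t) (σ := Rate.rσ t) (r := r)
    (τ := τ) (A := Rate.rA t N) m1 (Rate.rR_pos ht0) (Rate.rc_pos ht0) (Rate.rσ_pos ht0) m2 hr0 m3
    m4 m6 m7 le_rfl m8 m9 m10 m11 (by rw [hτY]; exact m12) m13 m14 hτY.ge hp'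
  have hNv : (N : ℝ) • ((1 / (N : ℝ)) • v) = v := by
    rw [smul_smul, mul_one_div_cancel hN0.ne', one_smul]
  have hyS : ((q, (1 / (N : ℝ)) • v) : Ph N) ∈ S := by
    rw [hS]
    refine ⟨hnc, ?_, ?_, hEn⟩
    · rw [← Finset.smul_sum, hq0, smul_zero]
    · simp only [Pi.smul_apply]
      rw [← Finset.smul_sum, hv0, smul_zero]
  obtain ⟨q', v', hsol, hq'0, hv'0, s', hs'⟩ := transfer hN4 hset hyS m6.le
    ⟨Kc, hK1, hK2, fun T' hT'0 hT' q' v' hsol h0 h1 =>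
      hK3 T' hT'0 hT' q' v' hsol h0 (by rw [h1]; exact hNv)⟩
  obtain ⟨H5, H6⟩ := H4 q' v' hsol hq'0 (by rw [hv'0]; exact hNv)
  refine ⟨(q, (1 / (N : ℝ)) • v), hyS, ?_, hq, ?_⟩
  · refine front hN4 hset hyS s' (g 0) e hs.norm.le 1 (1 / (2 * √((N : ℝ) * r)) - Rate.rR t)
      one_pos m15 ?_ ?_ m16
    · rw [hs']
      exact H5
    · rw [hs']
      have h1 : (N : ℝ) • ((1 / (N : ℝ)) • v' τ) (g 0) = v' τ (g 0) := by
        rw [Pi.smul_apply, smul_smul, mul_one_div_cancel hN0.ne', one_smul]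
      show 1 / (2 * √((N : ℝ) * r)) - Rate.rR t ≤ ⟪(N : ℝ) • ((1 / (N : ℝ)) • v' τ) (g 0), e⟫
      rw [h1]
      refine le_trans (le_of_eq ?_) H6
      rw [div_div, mul_comm (√((N : ℝ) * r)) 2]
  · intro i
    have h1 : (N : ℝ) * ‖((1 / (N : ℝ)) • v) i - x.2 i‖ = ‖v i - (N : ℝ) • x.2 i‖ := by
      rw [← Real.norm_of_nonneg hN0.le, ← norm_smul, smul_sub, Real.norm_of_nonneg hN0.le,
        Pi.smul_apply, smul_smul, mul_one_div_cancel hN0.ne', one_smul]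
    show (N : ℝ) * ‖((1 / (N : ℝ)) • v) i - x.2 i‖ ≤ 1 / t ^ 6
    rw [h1]
    exact hv i

end Pool.Agent.NBody
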