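import Mathlib
import Pool.Agent.NBody.ThRPoly

/-!
Polynomials with integer coefficients as lists of integers: values in a ring, norms of products,
and the computation of the norm of a polynomial from its value at a large power of two
(Kronecker substitution).
-/

set_option autoImplicit false

namespace Pool.Agent.NBody.Ref

open RP

/-- the value at `x` of the polynomial with the coefficients `p` -/
def evl {R : Type*} [CommRing R] : List ℤ → R → R
  | [], _ => 0
  | a :: p, x => (a : R) + x * evl p x

@[simp] theorem evl_nil {R : Type*} [CommRing R] (x : R) : evl [] x = 0 := rfl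

@[simp] theorem evl_cons {R : Type*} [CommRing R] (a : ℤ) (p : List ℤ) (x : R) :
    evl (a :: p) x = (a : R) + x * evl p x := rfl

theorem evl_real (p : List ℤ) (x : ℝ) : evl p x = pe p x := by
  induction p with
  | nil => rfl
  | cons a p ih => rw [evl_cons, pe_cons, ih]

/-- the same value, for the computation in the integers -/
def kev (X : ℤ) : List ℤ → ℤ
  | [] => Int.ofNat 0
  | a :: p => Int.add a (Int.mul X (kev X p))

theorem kev_eq (X : ℤ) (p : List ℤ) : kev X p = evl p X := by
  induction p with
  | nil => rfl
  | cons a p ih =>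
    show a + X * kev X p = _
    rw [ih, evl_cons]
    simp

@[simp] theorem pabs_nil : pabs [] = 0 := rfl

@[simp] theorem pabs_cons (a : ℤ) (p : List ℤ) : pabs (a :: p) = a.natAbs + pabs p := rfl

section

variable {R : Type*} [CommRing R]

theorem evl_padd (p q : List ℤ) (x : R) : evl (padd p q) x = evl p x + evl q x := by
  induction p generalizing q with
  | nil => simp [padd]
  | cons a p ih =>
    cases q with
    | nil => simp [padd]
    | cons b q => simp only [padd, evl_cons, ih]; push_cast; ring

theorem evl_psc (c : ℤ) (p : List ℤ) (x : R) : evl (psc c p) x = (c : R) * evl p x := by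
  induction p with
  | nil => simp [psc]
  | cons a p ih => simp only [psc, evl_cons, ih]; push_cast; ring

theorem evl_pmul (p q : List ℤ) (x : R) : evl (pmul p q) x = evl p x * evl q x := by
  induction p with
  | nil => simp [pmul]
  | cons a p ih =>
    simp only [pmul, evl_padd, evl_psc, evl_cons, ih]
    push_cast
    ring

end

theorem pabs_padd (p q : List ℤ) : pabs (padd p q) ≤ pabs p + pabs q := by
  induction p generalizing q with
  | nil => simp [padd]
  | cons a p ih =>
    cases q with
    | nil => simp [padd]
    | cons b q =>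
      simp only [padd, pabs_cons]
      have h1 := ih q
      have h2 := Int.natAbs_add_le a b
      omega

theorem pabs_psc (c : ℤ) (p : List ℤ) : pabs (psc c p) = c.natAbs * pabs p := by
  induction p with
  | nil => simp [psc]
  | cons a p ih => simp only [psc, pabs_cons, ih, Int.natAbs_mul]; ring

theorem pabs_pmul (p q : List ℤ) : pabs (pmul p q) ≤ pabs p * pabs q := by
  induction p with
  | nil => simp [pmul]
  | cons a p ih =>
    simp only [pmul]
    refine (pabs_padd _ _).trans ?_
    rw [pabs_psc, pabs_cons, pabs_cons]
    simp only [Int.natAbs_zero, zero_add]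
    nlinarith [ih]

theorem length_padd (p q : List ℤ) {n : ℕ} (hp : p.length ≤ n) (hq : q.length ≤ n) :
    (padd p q).length ≤ n := by
  induction p generalizing q n with
  | nil => simpa [padd] using hq
  | cons a p ih =>
    cases q with
    | nil => simpa [padd] using hp
    | cons b q =>
      cases n with
      | zero => simp at hp
      | succ n =>
        simp only [padd, List.length_cons, add_le_add_iff_right] at hp hq ⊢
        exact ih q hp hq

theorem length_psc (c : ℤ) (p : List ℤ) : (psc c p).length = p.length := by
  induction p with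
  | nil => rfl
  | cons a p ih => simp [psc, ih]

theorem length_pmul (p q : List ℤ) : (pmul p q).length ≤ p.length + q.length := by
  induction p with
  | nil => simp [pmul]
  | cons a p ih =>
    simp only [pmul]
    apply length_padd
    · rw [length_psc, List.length_cons]; omega
    · simp only [List.length_cons]; omega

theorem length_pmul' {p q : List ℤ} {m n : ℕ} (hp : p.length ≤ m) (hq : q.length ≤ n) :
    (pmul p q).length ≤ m + n :=
  (length_pmul p q).trans (add_le_add hp hq)

theorem length_pdk (k : ℤ) (p : List ℤ) : (pdk k p).length = p.length := by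
  induction p generalizing k with
  | nil => rfl
  | cons a p ih => simp [pdk, ih]

theorem length_pd (p : List ℤ) : (pd p).length ≤ p.length := by
  cases p with
  | nil => simp [pd]
  | cons a p => simp [pd, length_pdk]

theorem pabs_pdk (p : List ℤ) (k n : ℕ) (hn : k + p.length ≤ n) :
    pabs (pdk (k : ℤ) p) ≤ n * pabs p := by
  induction p generalizing k with
  | nil => simp [pdk]
  | cons a p ih =>
    simp only [List.length_cons] at hn
    have h := ih (k + 1) (by omega)
    have e : pdk (k : ℤ) (a :: p) = ((k : ℤ) * a) :: pdk ((k + 1 : ℕ) : ℤ) p := by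
      simp [pdk]
    rw [e, pabs_cons, pabs_cons, Int.natAbs_mul, Int.natAbs_natCast]
    have h1 : k * a.natAbs ≤ n * a.natAbs := Nat.mul_le_mul_right _ (by omega)
    nlinarith

theorem pabs_pd {p : List ℤ} {n : ℕ} (hn : p.length ≤ n) : pabs (pd p) ≤ n * pabs p := by
  cases p with
  | nil => simp [pd]
  | cons a p =>
    simp only [List.length_cons] at hn
    have h := pabs_pdk p 1 n (by omega)
    have e : pd (a :: p) = pdk ((1 : ℕ) : ℤ) p := rfl
    rw [e, pabs_cons]
    nlinarith [Nat.zero_le (n * a.natAbs)]

/-! ### digits -/

/-- the sum of the absolute values of the balanced digits of `N - offset` -/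
def absdig (X H : ℕ) : ℕ → ℕ → ℕ
  | 0, N => Nat.mul N X
  | n + 1, N => Nat.add (Nat.add (Nat.sub (Nat.mod N X) H) (Nat.sub H (Nat.mod N X)))
      (absdig X H n (Nat.div N X))

/-- the offset -/
def goff (X H : ℕ) : ℕ → ℕ
  | 0 => 0
  | n + 1 => Nat.add H (Nat.mul X (goff X H n))

theorem digits_nonneg {X H : ℕ} (n : ℕ) (E : List ℤ) (hE : E.length ≤ n) (hn : pabs E < H) :
    0 ≤ evl E (X : ℤ) + (goff X H n : ℤ) := by
  induction n generalizing E with
  | zero =>
    have : E = [] := List.length_eq_zero_iff.mp (Nat.le_zero.mp hE)
    subst this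
    simp [goff]
  | succ n ih =>
    cases E with
    | nil => simp
    | cons e E =>
      rw [pabs_cons] at hn
      have h := ih E (by simpa using hE) (by omega)
      have hg : (goff X H (n + 1) : ℤ) = H + X * (goff X H n : ℤ) := by
        simp [goff]
      rw [evl_cons, hg]
      have h1 : (0 : ℤ) ≤ (e : ℤ) + H := by omega
      have h2 : (0 : ℤ) ≤ (X : ℤ) * (evl E (X : ℤ) + (goff X H n : ℤ)) :=
        mul_nonneg (by positivity) h
      have : ((e : ℤ) : ℤ) + (X : ℤ) * evl E (X : ℤ) + ((H : ℤ) + (X : ℤ) * (goff X H n : ℤ))
          = (e + H) + (X : ℤ) * (evl E (X : ℤ) + (goff X H n : ℤ)) := by ring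
      simp only [Int.cast_id]
      rw [this]
      exact add_nonneg h1 h2

theorem absdig_spec {X H : ℕ} (hX : X = 2 * H) (n : ℕ) (E : List ℤ)
    (hE : E.length ≤ n) (hn : pabs E < H) (N : ℕ)
    (hN : (N : ℤ) = evl E (X : ℤ) + (goff X H n : ℤ)) :
    absdig X H n N = pabs E := by
  induction n generalizing E N with
  | zero =>
    have : E = [] := List.length_eq_zero_iff.mp (Nat.le_zero.mp hE)
    subst this
    simp only [evl_nil, goff, Nat.cast_zero, add_zero] at hN
    have hN0 : N = 0 := by exact_mod_cast hN
    subst hN0
    simp [absdig]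
  | succ n ih =>
    have hg : (goff X H (n + 1) : ℤ) = H + X * (goff X H n : ℤ) := by simp [goff]
    -- split off the first digit
    obtain ⟨e, E', he, hlen, hnr, hval⟩ : ∃ (e : ℤ) (E' : List ℤ), pabs E = e.natAbs + pabs E' ∧
        E'.length ≤ n ∧ e.natAbs + pabs E' < H ∧ evl E (X : ℤ) = e + X * evl E' (X : ℤ) := by
      cases E with
      | nil => exact ⟨0, [], by simp, by simp, by simpa using hn, by simp⟩
      | cons e E => exact ⟨e, E, rfl, by simpa using hE, by simpa using hn, by simp⟩
    have hH : 0 < H := by omega
    have hX0 : 0 < X := by omega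
    have hM := digits_nonneg (X := X) n E' hlen (by omega : pabs E' < H)
    obtain ⟨M, hMM⟩ := Int.eq_ofNat_of_zero_le hM
    have hNe : (N : ℤ) = (e + H) + (X : ℤ) * (M : ℤ) := by
      have hMM' : evl E' (X : ℤ) + (goff X H n : ℤ) = (M : ℤ) := hMM
      rw [hN, hval, hg, ← hMM']
      ring
    obtain ⟨r, hr⟩ := Int.eq_ofNat_of_zero_le (by omega : (0 : ℤ) ≤ e + H)
    have hrX : r < X := by omega
    have hNr : N = r + X * M := by
      have : (N : ℤ) = ((r + X * M : ℕ) : ℤ) := by
        rw [hNe, hr]; push_cast; rfl
      exact_mod_cast this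
    have hmod : N % X = r := by
      rw [hNr, Nat.add_mul_mod_self_left, Nat.mod_eq_of_lt hrX]
    have hdiv : N / X = M := by
      rw [hNr, Nat.add_mul_div_left _ _ hX0, Nat.div_eq_of_lt hrX, zero_add]
    have hrec := ih E' hlen (by omega) M hMM.symm
    show (N % X - H) + (H - N % X) + absdig X H n (N / X) = pabs E
    rw [hmod, hdiv, hrec, he]
    omega

/-- the norm of a polynomial of length at most `n` from its value `v` at `X` -/
def absv (X H n : ℕ) (v : ℤ) : ℕ := absdig X H n (Int.toNat (Int.add v (Int.ofNat (goff X H n))))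

theorem absv_spec {X H : ℕ} (hX : X = 2 * H) (n : ℕ) (E : List ℤ)
    (hE : E.length ≤ n) (hn : pabs E < H) (v : ℤ) (hv : v = evl E (X : ℤ)) :
    absv X H n v = pabs E := by
  apply absdig_spec hX n E hE hn
  have h := digits_nonneg (X := X) n E hE hn
  show ((Int.toNat (v + (goff X H n : ℤ)) : ℕ) : ℤ) = _
  rw [hv, Int.toNat_of_nonneg h]

end Pool.Agent.NBody.Ref
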