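import Mathlib
import Pool.Agent.NBody.ThDefs
import Pool.Agent.NBody.ThRefPoly

/-!
One piece of the reference orbit of the gun: polynomials of degree at most `20` with integer
coefficients and a check by integer arithmetic.

Scales: time `10 ^ 9`, positions `2 ^ 110`, inverse distances `2 ^ 100`, distances `2 ^ 20`,
defect `2 ^ 80`.
-/

set_option autoImplicit false
open Set
set_option exponentiation.threshold 1000

namespace Pool.Agent.NBody

open Ref RP

/-- one piece of the reference orbit -/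
structure RPiece where
  h : ℕ
  x0 : List ℤ
  y0 : List ℤ
  x1 : List ℤ
  y1 : List ℤ
  u01 : List ℤ
  u02 : List ℤ
  u12 : List ℤ
  m01 : ℕ
  m02 : ℕ
  m12 : ℕ
  d : ℕ

namespace Ref

def XX : ℕ := 2 ^ 512
def HH : ℕ := 2 ^ 511
def XZ : ℤ := 2 ^ 512

/-- a list which may be used as coordinate -/
def okx (p : List ℤ) : Bool := Nat.ble p.length 21 && Nat.ble (pabs p) (2 ^ 111)

/-- the head is larger than the norm of the tail -/
def poshead : List ℤ → Bool
  | [] => false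
  | a :: q => Nat.blt (pabs q) (Int.toNat a)

/-- a list which may be used as inverse distance -/
def oku (p : List ℤ) : Bool :=
  Nat.ble p.length 21 && (Nat.ble (pabs p) (2 ^ 106) && poshead p)

/-- norm of `u ^ 2 ((xb - xa) ^ 2 + (yb - ya) ^ 2) - 2 ^ 420` -/
def kS (u xa ya xb yb : List ℤ) : ℕ :=
  absv XX HH 84 (kev XZ u * kev XZ u * ((kev XZ xb - kev XZ xa) * (kev XZ xb - kev XZ xa) +
    (kev XZ yb - kev XZ ya) * (kev XZ yb - kev XZ ya)) - 2 ^ 420)

/-- norm of the residual of one coordinate -/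
def kR (h : ℕ) (x xa xb ua ub : List ℤ) : ℕ :=
  absv XX HH 84 (2 ^ 300 * 10 ^ 18 * kev XZ (pd (pd x)) -
    Int.ofNat (h * h) * (kev XZ ua * kev XZ ua * kev XZ ua * (kev XZ xa - kev XZ x) +
      kev XZ ub * kev XZ ub * kev XZ ub * (kev XZ xb - kev XZ x)))

/-- check of one pair -/
def pairok (u : List ℤ) (S m : ℕ) : Bool :=
  oku u && (Nat.ble S (2 ^ 418) && (Nat.blt 0 m &&
    Nat.ble (m * pabs u * 2 ^ 420) ((2 ^ 420 - S) * 2 ^ 120)))

/-- the error made by an inverse distance -/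
def kE (S m : ℕ) : ℕ := 4 * S * 2 ^ 120 / (m * m * 2 ^ 420) + 1

/-- check of one body -/
def bodyok (h d : ℕ) (x y xa ya xb yb ua ub : List ℤ) (Sa Sb ma mb : ℕ) : Bool :=
  Nat.ble ((kR h x xa xb ua ub + kR h y ya yb ua ub) * 2 ^ 80 / (h * h * 2 ^ 410) + 1 +
    (kE Sa ma + kE Sb mb)) d

/-- check of the size -/
def sizeok (h : ℕ) (x y : List ℤ) : Bool :=
  okx x && (okx y && (Nat.ble (100 * (pabs x + pabs y)) (99 * 2 ^ 110) &&
    Nat.ble ((pabs (pd x) + pabs (pd y)) * 10 ^ 9) (19 * h * 2 ^ 110)))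

end Ref

namespace RPiece

def x2 (c : RPiece) : List ℤ := psc (-1) (padd c.x0 c.x1)
def y2 (c : RPiece) : List ℤ := psc (-1) (padd c.y0 c.y1)
def S01 (c : RPiece) : ℕ := kS c.u01 c.x0 c.y0 c.x1 c.y1
def S02 (c : RPiece) : ℕ := kS c.u02 c.x0 c.y0 c.x2 c.y2
def S12 (c : RPiece) : ℕ := kS c.u12 c.x1 c.y1 c.x2 c.y2

/-- the check of a piece, by integer arithmetic -/
def check (c : RPiece) : Bool :=
  (Nat.blt 0 c.h && Nat.ble c.h (2 ^ 28)) &&
  ((sizeok c.h c.x0 c.y0 && (sizeok c.h c.x1 c.y1 && sizeok c.h c.x2 c.y2)) &&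
  ((pairok c.u01 c.S01 c.m01 && (pairok c.u02 c.S02 c.m02 && pairok c.u12 c.S12 c.m12)) &&
  (bodyok c.h c.d c.x0 c.y0 c.x1 c.y1 c.x2 c.y2 c.u01 c.u02 c.S01 c.S02 c.m01 c.m02 &&
    (bodyok c.h c.d c.x1 c.y1 c.x0 c.y0 c.x2 c.y2 c.u01 c.u12 c.S01 c.S12 c.m01 c.m12 &&
      bodyok c.h c.d c.x2 c.y2 c.x0 c.y0 c.x1 c.y1 c.u02 c.u12 c.S02 c.S12 c.m02 c.m12))))

/-- the coordinate lists of the three bodies -/
def X (c : RPiece) : Fin 3 → List ℤ := ![c.x0, c.x1, c.x2]
def Y (c : RPiece) : Fin 3 → List ℤ := ![c.y0, c.y1, c.y2]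

/-- half of the length of the time interval -/
noncomputable def H (c : RPiece) : ℝ := (c.h : ℝ) / 10 ^ 9

/-- the scaled time -/
noncomputable def tau (c : RPiece) (s t : ℝ) : ℝ := (t - s) / c.H - 1

/-- positions -/
noncomputable def P (c : RPiece) (s t : ℝ) : Fin 3 → V3 := fun k =>
  !₂[pe (c.X k) (c.tau s t) / 2 ^ 110, pe (c.Y k) (c.tau s t) / 2 ^ 110, 0]

/-- velocities -/
noncomputable def W (c : RPiece) (s t : ℝ) : Fin 3 → V3 := fun k =>
  !₂[pe (pd (c.X k)) (c.tau s t) / (2 ^ 110 * c.H),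
    pe (pd (c.Y k)) (c.tau s t) / (2 ^ 110 * c.H), 0]

/-- accelerations -/
noncomputable def A (c : RPiece) (s t : ℝ) : Fin 3 → V3 := fun k =>
  !₂[pe (pd (pd (c.X k))) (c.tau s t) / (2 ^ 110 * c.H ^ 2),
    pe (pd (pd (c.Y k))) (c.tau s t) / (2 ^ 110 * c.H ^ 2), 0]

/-- lower bounds for the distances -/
noncomputable def m (c : RPiece) : Fin 3 → Fin 3 → ℝ := fun k l =>
  (![![0, (c.m01 : ℝ), (c.m02 : ℝ)], ![(c.m01 : ℝ), 0, (c.m12 : ℝ)],
    ![(c.m02 : ℝ), (c.m12 : ℝ), 0]] k l) / 2 ^ 20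

end RPiece

/-! ### meaning of the integers -/

namespace Ref

theorem XX_cast : ((XX : ℕ) : ℤ) = XZ := by
  norm_num [XX, XZ]

theorem XX_eq : XX = 2 * HH := by
  norm_num [XX, HH]

theorem okx_len {p : List ℤ} (h : okx p = true) : p.length ≤ 21 := by
  unfold okx at h
  rw [Bool.and_eq_true] at h
  exact Nat.le_of_ble_eq_true h.1

theorem okx_nrm {p : List ℤ} (h : okx p = true) : pabs p ≤ 2 ^ 111 := by
  unfold okx at h
  rw [Bool.and_eq_true] at h
  exact Nat.le_of_ble_eq_true h.2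

theorem oku_len {p : List ℤ} (h : oku p = true) : p.length ≤ 21 := by
  unfold oku at h
  rw [Bool.and_eq_true] at h
  exact Nat.le_of_ble_eq_true h.1

theorem oku_nrm {p : List ℤ} (h : oku p = true) : pabs p ≤ 2 ^ 106 := by
  unfold oku at h
  rw [Bool.and_eq_true, Bool.and_eq_true] at h
  exact Nat.le_of_ble_eq_true h.2.1

theorem oku_pos {p : List ℤ} (h : oku p = true) {x : ℝ} (hx : |x| ≤ 1) : 0 < pe p x := by
  unfold oku at h
  rw [Bool.and_eq_true, Bool.and_eq_true] at h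
  have h3 := h.2.2
  cases p with
  | nil => simp [poshead] at h3
  | cons a q =>
    have h4 : pabs q < Int.toNat a := by
      have : Nat.blt (pabs q) (Int.toNat a) = true := h3
      rw [Nat.blt_eq] at this
      exact this
    have h5 : (pabs q : ℤ) < a := by omega
    have h6 : (pabs q : ℝ) < (a : ℝ) := by exact_mod_cast h5
    have h7 : |x * pe q x| ≤ (pabs q : ℝ) := by
      rw [abs_mul]
      calc |x| * |pe q x| ≤ 1 * (pabs q : ℝ) := by
            apply mul_le_mul hx (abs_pe_le q x hx) (abs_nonneg _) zero_le_one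
        _ = _ := one_mul _
    rw [pe_cons]
    have := (abs_le.mp h7).1
    linarith

/-- difference -/
def psub (p q : List ℤ) : List ℤ := padd p (psc (-1) q)

theorem evl_psub {R : Type*} [CommRing R] (p q : List ℤ) (x : R) :
    evl (psub p q) x = evl p x - evl q x := by
  unfold psub
  rw [evl_padd, evl_psc]
  push_cast
  ring

theorem psub_len {p q : List ℤ} (hp : p.length ≤ 21) (hq : q.length ≤ 21) :
    (psub p q).length ≤ 21 := by
  unfold psub
  apply length_padd _ _ hp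
  rw [length_psc]
  exact hq

theorem psub_nrm {p q : List ℤ} (hp : pabs p ≤ 2 ^ 111) (hq : pabs q ≤ 2 ^ 111) :
    pabs (psub p q) ≤ 2 ^ 112 := by
  unfold psub
  have h1 := pabs_padd p (psc (-1) q)
  rw [pabs_psc] at h1
  have e : (-1 : ℤ).natAbs = 1 := rfl
  rw [e, one_mul] at h1
  have e2 : (2 : ℕ) ^ 112 = 2 ^ 111 + 2 ^ 111 := by norm_num
  omega

/-- the polynomial whose norm is `kS` -/
def SE (u xa ya xb yb : List ℤ) : List ℤ :=
  padd (pmul (pmul u u) (padd (pmul (psub xb xa) (psub xb xa)) (pmul (psub yb ya) (psub yb ya))))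
    [-(2 ^ 420)]

theorem kS_eq {u xa ya xb yb : List ℤ} (hu : oku u = true) (h1 : okx xa = true)
    (h2 : okx ya = true) (h3 : okx xb = true) (h4 : okx yb = true) :
    kS u xa ya xb yb = pabs (SE u xa ya xb yb) := by
  unfold kS
  have lx := psub_len (okx_len h3) (okx_len h1)
  have ly := psub_len (okx_len h4) (okx_len h2)
  have nx := psub_nrm (okx_nrm h3) (okx_nrm h1)
  have ny := psub_nrm (okx_nrm h4) (okx_nrm h2)
  have lu := oku_len hu
  have nu := oku_nrm hu
  apply absv_spec XX_eq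
  · unfold SE
    apply length_padd
    · have a1 := length_pmul' lu lu
      have a2 := length_pmul' lx lx
      have a3 := length_pmul' ly ly
      exact length_pmul' a1 (length_padd _ _ a2 a3)
    · simp
  · unfold SE
    refine (pabs_padd _ _).trans_lt ?_
    have b1 : pabs (pmul u u) ≤ 2 ^ 106 * 2 ^ 106 :=
      (pabs_pmul u u).trans (Nat.mul_le_mul nu nu)
    have b2 : pabs (pmul (psub xb xa) (psub xb xa)) ≤ 2 ^ 112 * 2 ^ 112 :=
      (pabs_pmul _ _).trans (Nat.mul_le_mul nx nx)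
    have b3 : pabs (pmul (psub yb ya) (psub yb ya)) ≤ 2 ^ 112 * 2 ^ 112 :=
      (pabs_pmul _ _).trans (Nat.mul_le_mul ny ny)
    have b4 := (pabs_padd (pmul (psub xb xa) (psub xb xa)) (pmul (psub yb ya) (psub yb ya))).trans
      (add_le_add b2 b3)
    have b5 := (pabs_pmul (pmul u u) (padd (pmul (psub xb xa) (psub xb xa))
      (pmul (psub yb ya) (psub yb ya)))).trans (Nat.mul_le_mul b1 b4)
    have b6 : pabs [-(2 ^ 420 : ℤ)] = 2 ^ 420 := by simp [Int.natAbs_pow]
    rw [b6]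
    refine (Nat.add_le_add_right b5 _).trans_lt ?_
    norm_num [HH]
  · unfold SE
    rw [evl_padd, evl_pmul, evl_pmul, evl_padd, evl_pmul, evl_pmul, evl_psub, evl_psub,
      evl_cons, evl_nil]
    simp only [kev_eq, XX_cast]
    push_cast
    ring

/-- the polynomial whose norm is `kR` -/
def RE (h : ℕ) (x xa xb ua ub : List ℤ) : List ℤ :=
  padd (psc (2 ^ 300 * 10 ^ 18) (pd (pd x)))
    (psc (-((h : ℤ) * h)) (padd (pmul (pmul (pmul ua ua) ua) (psub xa x))
      (pmul (pmul (pmul ub ub) ub) (psub xb x))))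

theorem kR_eq {h : ℕ} {x xa xb ua ub : List ℤ} (hh : h ≤ 2 ^ 28) (hua : oku ua = true)
    (hub : oku ub = true) (h0 : okx x = true) (h1 : okx xa = true) (h2 : okx xb = true) :
    kR h x xa xb ua ub = pabs (RE h x xa xb ua ub) := by
  unfold kR
  have la := psub_len (okx_len h1) (okx_len h0)
  have lb := psub_len (okx_len h2) (okx_len h0)
  have na := psub_nrm (okx_nrm h1) (okx_nrm h0)
  have nb := psub_nrm (okx_nrm h2) (okx_nrm h0)
  have ld1 : (pd x).length ≤ 21 := (length_pd x).trans (okx_len h0)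
  have ld2 : (pd (pd x)).length ≤ 21 := (length_pd _).trans ld1
  have nd1 : pabs (pd x) ≤ 21 * 2 ^ 111 :=
    (pabs_pd (okx_len h0)).trans (Nat.mul_le_mul_left _ (okx_nrm h0))
  have nd2 : pabs (pd (pd x)) ≤ 21 * (21 * 2 ^ 111) :=
    (pabs_pd ld1).trans (Nat.mul_le_mul_left _ nd1)
  apply absv_spec XX_eq
  · unfold RE
    apply length_padd
    · rw [length_psc]; omega
    · rw [length_psc]
      apply length_padd
      · exact length_pmul' (length_pmul' (length_pmul' (oku_len hua) (oku_len hua))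
          (oku_len hua)) la
      · exact length_pmul' (length_pmul' (length_pmul' (oku_len hub) (oku_len hub))
          (oku_len hub)) lb
  · unfold RE
    refine (pabs_padd _ _).trans_lt ?_
    rw [pabs_psc, pabs_psc]
    have e1 : ((2 ^ 300 * 10 ^ 18 : ℤ)).natAbs = 2 ^ 300 * 10 ^ 18 := by
      simp [Int.natAbs_mul, Int.natAbs_pow]
    have e2 : (-((h : ℤ) * h)).natAbs = h * h := by
      rw [Int.natAbs_neg, Int.natAbs_mul, Int.natAbs_natCast]
    rw [e1, e2]
    have c3 : ∀ {u z : List ℤ}, pabs u ≤ 2 ^ 106 → pabs z ≤ 2 ^ 112 →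
        pabs (pmul (pmul (pmul u u) u) z) ≤ 2 ^ 106 * 2 ^ 106 * 2 ^ 106 * 2 ^ 112 := by
      intro u z hu hz
      refine (pabs_pmul _ _).trans (Nat.mul_le_mul ?_ hz)
      refine (pabs_pmul _ _).trans (Nat.mul_le_mul ?_ hu)
      exact (pabs_pmul _ _).trans (Nat.mul_le_mul hu hu)
    have b1 := (pabs_padd (pmul (pmul (pmul ua ua) ua) (psub xa x))
      (pmul (pmul (pmul ub ub) ub) (psub xb x))).trans
      (add_le_add (c3 (oku_nrm hua) na) (c3 (oku_nrm hub) nb))
    have b2 : h * h ≤ 2 ^ 28 * 2 ^ 28 := Nat.mul_le_mul hh hh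
    have b3 := Nat.mul_le_mul b2 b1
    have b4 : 2 ^ 300 * 10 ^ 18 * pabs (pd (pd x)) ≤
        2 ^ 300 * 10 ^ 18 * (21 * (21 * 2 ^ 111)) := Nat.mul_le_mul_left _ nd2
    refine (Nat.add_le_add b4 b3).trans_lt ?_
    norm_num [HH]
  · unfold RE
    rw [evl_padd, evl_psc, evl_psc, evl_padd, evl_pmul, evl_pmul, evl_pmul, evl_pmul, evl_pmul,
      evl_pmul, evl_psub, evl_psub]
    simp only [kev_eq, XX_cast]
    have e3 : Int.ofNat (h * h) = (h : ℤ) * h := by
      rw [Int.ofNat_eq_natCast]; push_cast; rfl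
    rw [e3]
    push_cast
    ring

end Ref

end Pool.Agent.NBody
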