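import Mathlib
import Pool.Agent.NBody.ThRefPiece

/-!
Meaning of the check of a piece of the reference orbit.
-/

set_option autoImplicit false
open Set

namespace Pool.Agent.NBody

open Ref RP

namespace Ref

theorem norm_v3_sq (a b : ℝ) : ‖(!₂[a, b, 0] : V3)‖ ^ 2 = a ^ 2 + b ^ 2 := by
  rw [EuclideanSpace.norm_sq_eq, Fin.sum_univ_three]
  simp

theorem norm_v3_le (a b : ℝ) : ‖(!₂[a, b, 0] : V3)‖ ≤ |a| + |b| := by
  have h := norm_v3_sq a b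
  have h1 : ‖(!₂[a, b, 0] : V3)‖ ^ 2 ≤ (|a| + |b|) ^ 2 := by
    rw [h]
    nlinarith [sq_abs a, sq_abs b, mul_nonneg (abs_nonneg a) (abs_nonneg b)]
  exact le_of_sq_le_sq h1 (by positivity)

theorem pair_core {U n ε : ℝ} (hU : 0 < U) (hn : 0 ≤ n) (hε : ε ≤ 1 / 4)
    (h : |U ^ 2 * n ^ 2 - 1| ≤ ε) :
    0 < n ∧ 1 - ε ≤ U * n ∧ |U ^ 3 - 1 / n ^ 3| * n ≤ 4 * ε / n ^ 2 := by
  have hε0 : 0 ≤ ε := (abs_nonneg _).trans h
  obtain ⟨ha, hb⟩ := abs_le.mp h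
  have hz0 : 0 ≤ U * n := mul_nonneg hU.le hn
  have hz2 : (U * n) ^ 2 = U ^ 2 * n ^ 2 := by ring
  have h1 : 1 - ε ≤ U * n := by
    by_contra hc
    push Not at hc
    nlinarith
  have h2 : U * n ≤ 1 + ε := by
    by_contra hc
    push Not at hc
    nlinarith
  have hn0 : 0 < n := by
    rcases hn.lt_or_eq with h3 | h3
    · exact h3
    · rw [← h3, mul_zero] at h1
      linarith
  refine ⟨hn0, h1, ?_⟩
  have e : |U ^ 3 - 1 / n ^ 3| * n = |(U * n) ^ 3 - 1| / n ^ 2 := by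
    have e1 : (U * n) ^ 3 - 1 = (U ^ 3 - 1 / n ^ 3) * n ^ 3 := by
      field_simp
    rw [e1, abs_mul, abs_of_pos (pow_pos hn0 3)]
    field_simp
  rw [e]
  apply div_le_div_of_nonneg_right _ (by positivity)
  have e2 : (U * n) ^ 3 - 1 = (U * n - 1) * ((U * n) ^ 2 + U * n + 1) := by ring
  rw [e2, abs_mul]
  have h3 : |U * n - 1| ≤ ε := abs_le.mpr ⟨by linarith, by linarith⟩
  have h4 : |(U * n) ^ 2 + U * n + 1| ≤ 4 := by
    rw [abs_of_nonneg (by positivity)]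
    nlinarith
  calc |U * n - 1| * |(U * n) ^ 2 + U * n + 1| ≤ ε * 4 :=
        mul_le_mul h3 h4 (abs_nonneg _) hε0
    _ = 4 * ε := by ring

/-- the vector with the given coordinate lists -/
noncomputable def vec (x y : List ℤ) (τ : ℝ) : V3 := !₂[pe x τ / 2 ^ 110, pe y τ / 2 ^ 110, 0]

theorem vec_sub (xa ya xb yb : List ℤ) (τ : ℝ) :
    vec xb yb τ - vec xa ya τ =
      !₂[(pe xb τ - pe xa τ) / 2 ^ 110, (pe yb τ - pe ya τ) / 2 ^ 110, 0] := by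
  unfold vec
  ext i
  fin_cases i <;> simp <;> ring

theorem pairok_oku {u : List ℤ} {S m : ℕ} (h : pairok u S m = true) : oku u = true := by
  unfold pairok at h
  rw [Bool.and_eq_true] at h
  exact h.1

theorem key_alg {U a b K L : ℝ} (hK : K ≠ 0) (hL : L ≠ 0) :
    U * U * (a * a + b * b) - K ^ 2 * L ^ 2 =
      K ^ 2 * L ^ 2 * ((U / K) ^ 2 * ((a / L) ^ 2 + (b / L) ^ 2) - 1) := by
  field_simp

theorem two_420 : (2 : ℝ) ^ 420 = (2 ^ 100) ^ 2 * (2 ^ 110) ^ 2 := by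
  rw [← pow_mul, ← pow_mul, ← pow_add]

theorem hm_real {m nu S A B : ℕ} (hA : 0 < A) (hB : 0 < B) (hSA : S ≤ A)
    (h : m * nu * A ≤ (A - S) * B) : (m : ℝ) * nu / B ≤ 1 - (S : ℝ) / A := by
  have hA' : (0 : ℝ) < A := by exact_mod_cast hA
  have hB' : (0 : ℝ) < B := by exact_mod_cast hB
  have h7 : ((m * nu * A : ℕ) : ℝ) ≤ (((A - S) * B : ℕ) : ℝ) := by exact_mod_cast h
  rw [Nat.cast_mul, Nat.cast_mul, Nat.cast_mul, Nat.cast_sub hSA] at h7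
  rw [div_le_iff₀ hB']
  have e : (1 - (S : ℝ) / A) * B = ((A : ℝ) - S) * B / A := by field_simp
  rw [e, le_div_iff₀ hA']
  exact h7

theorem pair_fact {u xa ya xb yb : List ℤ} {m : ℕ} (h1 : okx xa = true)
    (h2 : okx ya = true) (h3 : okx xb = true) (h4 : okx yb = true)
    (h : pairok u (kS u xa ya xb yb) m = true) {τ : ℝ} (hτ : |τ| ≤ 1) :
    0 < m ∧ (m : ℝ) / 2 ^ 20 ≤ ‖vec xb yb τ - vec xa ya τ‖ ∧
    |(pe u τ / 2 ^ 100) ^ 3 - 1 / ‖vec xb yb τ - vec xa ya τ‖ ^ 3| *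
      ‖vec xb yb τ - vec xa ya τ‖ ≤
      4 * ((kS u xa ya xb yb : ℕ) / 2 ^ 420 : ℝ) / ((m : ℝ) / 2 ^ 20) ^ 2 := by
  have hu := pairok_oku h
  have hS := kS_eq hu h1 h2 h3 h4
  unfold pairok at h
  rw [Bool.and_eq_true, Bool.and_eq_true, Bool.and_eq_true] at h
  obtain ⟨-, hs1, hs2, hs3⟩ := h
  have hs1 := Nat.le_of_ble_eq_true hs1
  have hs3 := Nat.le_of_ble_eq_true hs3
  rw [Nat.blt_eq] at hs2
  set S := kS u xa ya xb yb with hSdef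
  set n := ‖vec xb yb τ - vec xa ya τ‖ with hn
  have hpos := oku_pos hu hτ
  have hU : 0 < pe u τ / 2 ^ 100 := by positivity
  have hn2 : n ^ 2 = ((pe xb τ - pe xa τ) / 2 ^ 110) ^ 2 + ((pe yb τ - pe ya τ) / 2 ^ 110) ^ 2 := by
    rw [hn, vec_sub, norm_v3_sq]
  have key : |(pe u τ / 2 ^ 100) ^ 2 * n ^ 2 - 1| ≤ (S : ℝ) / 2 ^ 420 := by
    have hE := abs_pe_le (SE u xa ya xb yb) τ hτ
    rw [← hS] at hE
    have e : pe (SE u xa ya xb yb) τ = 2 ^ 420 * ((pe u τ / 2 ^ 100) ^ 2 * n ^ 2 - 1) := by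
      rw [← evl_real]
      unfold SE
      rw [evl_padd, evl_pmul, evl_pmul, evl_padd, evl_pmul, evl_pmul, evl_psub, evl_psub,
        evl_cons, evl_nil, hn2]
      simp only [evl_real]
      rw [two_420, ← key_alg (pow_ne_zero _ two_ne_zero) (pow_ne_zero _ two_ne_zero), ← two_420,
        Int.cast_neg, Int.cast_pow, Int.cast_ofNat]
      ring
    rw [e, abs_mul, abs_of_pos (by positivity : (0 : ℝ) < 2 ^ 420)] at hE
    rw [le_div_iff₀ (by positivity)]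
    linarith
  have hε : (S : ℝ) / 2 ^ 420 ≤ 1 / 4 := by
    rw [div_le_iff₀ (by positivity)]
    have h9 : (S : ℝ) ≤ ((2 ^ 418 : ℕ) : ℝ) := Nat.cast_le.mpr hs1
    rw [Nat.cast_pow, Nat.cast_ofNat] at h9
    refine h9.trans (le_of_eq ?_)
    rw [show (420 : ℕ) = 2 + 418 from rfl, pow_add]
    ring
  obtain ⟨hn0, hz, hd⟩ := pair_core hU (norm_nonneg _) hε key
  have hm0 : (0 : ℝ) < (m : ℝ) / 2 ^ 20 := by
    have : (0 : ℝ) < (m : ℝ) := by exact_mod_cast hs2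
    positivity
  have hmn : (m : ℝ) / 2 ^ 20 ≤ n := by
    have hU2 : pe u τ / 2 ^ 100 ≤ (pabs u : ℝ) / 2 ^ 100 := by
      apply div_le_div_of_nonneg_right _ (by positivity)
      exact (le_abs_self _).trans (abs_pe_le u τ hτ)
    have hnu : (0 : ℝ) < (pabs u : ℝ) / 2 ^ 100 := lt_of_lt_of_le hU hU2
    have h5 : 1 - (S : ℝ) / 2 ^ 420 ≤ (pabs u : ℝ) / 2 ^ 100 * n :=
      hz.trans (mul_le_mul_of_nonneg_right hU2 hn0.le)
    have h6 : (m : ℝ) / 2 ^ 20 * ((pabs u : ℝ) / 2 ^ 100) ≤ 1 - (S : ℝ) / 2 ^ 420 := by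
      have hsub : S ≤ 2 ^ 420 := hs1.trans (Nat.pow_le_pow_right (by norm_num) (by norm_num))
      have h7 := hm_real (m := m) (nu := pabs u) (S := S) (A := 2 ^ 420) (B := 2 ^ 120)
        (by positivity) (by positivity) hsub hs3
      rw [Nat.cast_pow, Nat.cast_pow, Nat.cast_ofNat] at h7
      refine le_trans (le_of_eq ?_) h7
      rw [div_mul_div_comm, ← pow_add]
    have h8 : (m : ℝ) / 2 ^ 20 * ((pabs u : ℝ) / 2 ^ 100) ≤ n * ((pabs u : ℝ) / 2 ^ 100) := by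
      linarith [mul_comm n ((pabs u : ℝ) / 2 ^ 100)]
    exact le_of_mul_le_mul_right h8 hnu
  have hS0 : (0 : ℝ) ≤ 4 * ((S : ℝ) / 2 ^ 420) :=
    mul_nonneg (by norm_num) (div_nonneg (Nat.cast_nonneg _) (pow_nonneg (by norm_num) _))
  exact ⟨hs2, hmn, hd.trans (div_le_div_of_nonneg_left hS0 (pow_pos hm0 2)
    (pow_le_pow_left₀ hm0.le hmn 2))⟩

theorem coord_alg {D h ua ub a b K L : ℝ} (hK : K ≠ 0) (hL : L ≠ 0) (hh : h ≠ 0) :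
    K ^ 3 * 10 ^ 18 * D - h * h * (ua * ua * ua * a + ub * ub * ub * b) =
      h * h * (K ^ 3 * L) * (D / (L * (h / 10 ^ 9) ^ 2) -
        ((ua / K) ^ 3 * (a / L) + (ub / K) ^ 3 * (b / L))) := by
  field_simp

theorem two_300 : (2 : ℝ) ^ 300 = (2 ^ 100) ^ 3 := by
  rw [← pow_mul]

theorem two_410 : (2 : ℝ) ^ 410 = (2 ^ 100) ^ 3 * 2 ^ 110 := by
  rw [← pow_mul, ← pow_add]

theorem coord_fact {h : ℕ} {x xa xb ua ub : List ℤ} (h0 : 0 < h) (hh : h ≤ 2 ^ 28)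
    (hua : oku ua = true) (hub : oku ub = true) (h1 : okx x = true) (h2 : okx xa = true)
    (h3 : okx xb = true) {τ : ℝ} (hτ : |τ| ≤ 1) :
    |pe (pd (pd x)) τ / (2 ^ 110 * ((h : ℝ) / 10 ^ 9) ^ 2) -
      ((pe ua τ / 2 ^ 100) ^ 3 * ((pe xa τ - pe x τ) / 2 ^ 110) +
        (pe ub τ / 2 ^ 100) ^ 3 * ((pe xb τ - pe x τ) / 2 ^ 110))| ≤
      (kR h x xa xb ua ub : ℝ) / ((h : ℝ) * h * 2 ^ 410) := by
  have hE := abs_pe_le (RE h x xa xb ua ub) τ hτ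
  rw [← kR_eq hh hua hub h1 h2 h3] at hE
  have hr : (0 : ℝ) < (h : ℝ) := by exact_mod_cast h0
  have e : pe (RE h x xa xb ua ub) τ = (h : ℝ) * h * 2 ^ 410 *
      (pe (pd (pd x)) τ / (2 ^ 110 * ((h : ℝ) / 10 ^ 9) ^ 2) -
      ((pe ua τ / 2 ^ 100) ^ 3 * ((pe xa τ - pe x τ) / 2 ^ 110) +
        (pe ub τ / 2 ^ 100) ^ 3 * ((pe xb τ - pe x τ) / 2 ^ 110))) := by
    rw [two_410, ← coord_alg (pow_ne_zero _ two_ne_zero) (pow_ne_zero _ two_ne_zero) hr.ne',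
      ← two_300, ← evl_real]
    unfold RE
    rw [evl_padd, evl_psc, evl_psc, evl_padd, evl_pmul, evl_pmul, evl_pmul, evl_pmul, evl_pmul,
      evl_pmul, evl_psub, evl_psub]
    simp only [evl_real]
    rw [Int.cast_neg, Int.cast_mul, Int.cast_mul, Int.cast_pow, Int.cast_pow, Int.cast_natCast,
      Int.cast_ofNat, Int.cast_ofNat]
    ring
  have hpos : (0 : ℝ) < (h : ℝ) * h * 2 ^ 410 :=
    mul_pos (mul_pos hr hr) (pow_pos two_pos _)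
  rw [e, abs_mul, abs_of_pos hpos] at hE
  rw [le_div_iff₀ hpos]
  linarith [hE]

theorem nat_div_le {a b : ℕ} (hb : 0 < b) : (a : ℝ) / b ≤ ((a / b + 1 : ℕ) : ℝ) := by
  have hb' : (0 : ℝ) < b := by exact_mod_cast hb
  rw [div_le_iff₀ hb']
  have h := (Nat.lt_mul_div_succ a hb).le
  have h2 : (a : ℝ) ≤ ((b * (a / b + 1) : ℕ) : ℝ) := by exact_mod_cast h
  rw [Nat.cast_mul] at h2
  linarith [mul_comm (b : ℝ) ((a / b + 1 : ℕ) : ℝ)]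

theorem kE_real {S m : ℕ} (hm : 0 < m) :
    4 * ((S : ℝ) / 2 ^ 420) / ((m : ℝ) / 2 ^ 20) ^ 2 ≤ (kE S m : ℝ) / 2 ^ 80 := by
  have hb : 0 < m * m * 2 ^ 420 := by positivity
  have h := nat_div_le (a := 4 * S * 2 ^ 120) hb
  have hm' : (0 : ℝ) < m := by exact_mod_cast hm
  unfold kE
  rw [le_div_iff₀ (pow_pos two_pos _)]
  refine le_trans (le_of_eq ?_) h
  rw [Nat.cast_mul, Nat.cast_mul, Nat.cast_mul, Nat.cast_mul, Nat.cast_pow, Nat.cast_pow,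
    Nat.cast_ofNat, Nat.cast_ofNat]
  have e : ∀ A B C : ℝ, A ≠ 0 → B ≠ 0 → 4 * ((S : ℝ) / A) / ((m : ℝ) / B) ^ 2 * C =
      4 * S * (B ^ 2 * C) / (m * m * A) := by
    intro A B C hA hB
    field_simp
  rw [e _ _ _ (pow_ne_zero _ two_ne_zero) (pow_ne_zero _ two_ne_zero)]
  norm_num

theorem body_fact {h d : ℕ} {x y xa ya xb yb ua ub : List ℤ} {Sa Sb ma mb : ℕ}
    (h0 : 0 < h) (hh : h ≤ 2 ^ 28)
    (hua : oku ua = true) (hub : oku ub = true) (h1 : okx x = true) (h2 : okx xa = true)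
    (h3 : okx xb = true) (h4 : okx y = true) (h5 : okx ya = true) (h6 : okx yb = true)
    (hma : 0 < ma) (hmb : 0 < mb)
    (hb : bodyok h d x y xa ya xb yb ua ub Sa Sb ma mb = true) {τ : ℝ} (hτ : |τ| ≤ 1)
    (fa : |(pe ua τ / 2 ^ 100) ^ 3 - 1 / ‖vec xa ya τ - vec x y τ‖ ^ 3| *
      ‖vec xa ya τ - vec x y τ‖ ≤ 4 * ((Sa : ℝ) / 2 ^ 420) / ((ma : ℝ) / 2 ^ 20) ^ 2)
    (fb : |(pe ub τ / 2 ^ 100) ^ 3 - 1 / ‖vec xb yb τ - vec x y τ‖ ^ 3| *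
      ‖vec xb yb τ - vec x y τ‖ ≤ 4 * ((Sb : ℝ) / 2 ^ 420) / ((mb : ℝ) / 2 ^ 20) ^ 2) :
    ‖(!₂[pe (pd (pd x)) τ / (2 ^ 110 * ((h : ℝ) / 10 ^ 9) ^ 2),
        pe (pd (pd y)) τ / (2 ^ 110 * ((h : ℝ) / 10 ^ 9) ^ 2), 0] : V3) -
      ((1 / ‖vec xa ya τ - vec x y τ‖ ^ 3) • (vec xa ya τ - vec x y τ) +
        (1 / ‖vec xb yb τ - vec x y τ‖ ^ 3) • (vec xb yb τ - vec x y τ))‖ ≤
      (d : ℝ) / 2 ^ 80 := by
  set A : V3 := !₂[pe (pd (pd x)) τ / (2 ^ 110 * ((h : ℝ) / 10 ^ 9) ^ 2),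
        pe (pd (pd y)) τ / (2 ^ 110 * ((h : ℝ) / 10 ^ 9) ^ 2), 0] with hA
  set va := vec xa ya τ - vec x y τ with hva
  set vb := vec xb yb τ - vec x y τ with hvb
  set Ua := pe ua τ / 2 ^ 100 with hUa
  set Ub := pe ub τ / 2 ^ 100 with hUb
  have hx := coord_fact h0 hh hua hub h1 h2 h3 hτ
  have hy := coord_fact h0 hh hua hub h4 h5 h6 hτ
  rw [← hUa, ← hUb] at hx hy
  have hr : (0 : ℝ) < (h : ℝ) := by exact_mod_cast h0
  have e1 : A - (Ua ^ 3 • va + Ub ^ 3 • vb) =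
      !₂[pe (pd (pd x)) τ / (2 ^ 110 * ((h : ℝ) / 10 ^ 9) ^ 2) -
      (Ua ^ 3 * ((pe xa τ - pe x τ) / 2 ^ 110) + Ub ^ 3 * ((pe xb τ - pe x τ) / 2 ^ 110)),
      pe (pd (pd y)) τ / (2 ^ 110 * ((h : ℝ) / 10 ^ 9) ^ 2) -
      (Ua ^ 3 * ((pe ya τ - pe y τ) / 2 ^ 110) + Ub ^ 3 * ((pe yb τ - pe y τ) / 2 ^ 110)), 0] := by
    rw [hva, hvb, vec_sub, vec_sub, hA]
    ext i
    fin_cases i <;> simp
  have n1 : ‖A - (Ua ^ 3 • va + Ub ^ 3 • vb)‖ ≤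
      ((kR h x xa xb ua ub : ℝ) + (kR h y ya yb ua ub : ℝ)) / ((h : ℝ) * h * 2 ^ 410) := by
    rw [e1, add_div]
    exact (norm_v3_le _ _).trans (add_le_add hx hy)
  have n2 : ‖(Ua ^ 3 • va + Ub ^ 3 • vb) - ((1 / ‖va‖ ^ 3) • va + (1 / ‖vb‖ ^ 3) • vb)‖ ≤
      4 * ((Sa : ℝ) / 2 ^ 420) / ((ma : ℝ) / 2 ^ 20) ^ 2 +
        4 * ((Sb : ℝ) / 2 ^ 420) / ((mb : ℝ) / 2 ^ 20) ^ 2 := by
    have e2 : (Ua ^ 3 • va + Ub ^ 3 • vb) - ((1 / ‖va‖ ^ 3) • va + (1 / ‖vb‖ ^ 3) • vb) =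
        (Ua ^ 3 - 1 / ‖va‖ ^ 3) • va + (Ub ^ 3 - 1 / ‖vb‖ ^ 3) • vb := by
      rw [sub_smul, sub_smul]
      abel
    rw [e2]
    refine (norm_add_le _ _).trans (add_le_add ?_ ?_)
    · rw [norm_smul, Real.norm_eq_abs]
      exact fa
    · rw [norm_smul, Real.norm_eq_abs]
      exact fb
  have n3 : ((kR h x xa xb ua ub : ℝ) + (kR h y ya yb ua ub : ℝ)) / ((h : ℝ) * h * 2 ^ 410) ≤
      (((kR h x xa xb ua ub + kR h y ya yb ua ub) * 2 ^ 80 / (h * h * 2 ^ 410) + 1 : ℕ) : ℝ) /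
        2 ^ 80 := by
    have hb0 : 0 < h * h * 2 ^ 410 := by positivity
    have h7 := nat_div_le (a := (kR h x xa xb ua ub + kR h y ya yb ua ub) * 2 ^ 80) hb0
    rw [le_div_iff₀ (pow_pos two_pos _)]
    refine le_trans (le_of_eq ?_) h7
    rw [Nat.cast_mul, Nat.cast_mul, Nat.cast_mul, Nat.cast_add, Nat.cast_pow, Nat.cast_pow,
      Nat.cast_ofNat]
    ring
  have hb' := Nat.le_of_ble_eq_true hb
  have hb2 : (((kR h x xa xb ua ub + kR h y ya yb ua ub) * 2 ^ 80 / (h * h * 2 ^ 410) + 1 : ℕ)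
      : ℝ) + ((kE Sa ma : ℝ) + (kE Sb mb : ℝ)) ≤ (d : ℝ) := by
    rw [← Nat.cast_add, ← Nat.cast_add]
    exact Nat.cast_le.mpr hb'
  have k1 := kE_real (S := Sa) hma
  have k2 := kE_real (S := Sb) hmb
  have e3 : A - ((1 / ‖va‖ ^ 3) • va + (1 / ‖vb‖ ^ 3) • vb) =
      (A - (Ua ^ 3 • va + Ub ^ 3 • vb)) +
        ((Ua ^ 3 • va + Ub ^ 3 • vb) - ((1 / ‖va‖ ^ 3) • va + (1 / ‖vb‖ ^ 3) • vb)) := by abel
  rw [e3]
  refine (norm_add_le _ _).trans ((add_le_add (n1.trans n3) (n2.trans (add_le_add k1 k2))).trans ?_)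
  rw [← add_div, ← add_div]
  exact div_le_div_of_nonneg_right hb2 (pow_nonneg two_pos.le _)

end Ref

end Pool.Agent.NBody
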