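import Mathlib
import Pool.Agent.NBody.ThRefOk

/-!
What the check of a piece of the reference orbit proves.
-/

set_option autoImplicit false
open Set

namespace Pool.Agent.NBody

open Ref RP

namespace Ref

theorem v3_eq (a b : ℝ) : (!₂[a, b, 0] : V3) =
    a • (!₂[1, 0, 0] : V3) + b • (!₂[0, 1, 0] : V3) := by
  ext i
  fin_cases i <;> simp

theorem hasDerivAt_v3 {f g : ℝ → ℝ} {f' g' t : ℝ} (hf : HasDerivAt f f' t)
    (hg : HasDerivAt g g' t) :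
    HasDerivAt (fun r => (!₂[f r, g r, 0] : V3)) (!₂[f', g', 0] : V3) t := by
  have e : (fun r => (!₂[f r, g r, 0] : V3)) =
      fun r => f r • (!₂[1, 0, 0] : V3) + g r • (!₂[0, 1, 0] : V3) := by
    funext r
    exact v3_eq _ _
  rw [e, v3_eq f' g']
  exact (hf.smul_const _).add (hg.smul_const _)

theorem hasDerivAt_coord (p : List ℤ) {H : ℝ} (hH : H ≠ 0) (s t K : ℝ) :
    HasDerivAt (fun r => pe p ((r - s) / H - 1) / K) (pe (pd p) ((t - s) / H - 1) / (K * H)) t := by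
  have h1 : HasDerivAt (fun r : ℝ => (r - s) / H - 1) (1 / H) t :=
    (((hasDerivAt_id' t).sub_const s).div_const H).sub_const 1
  have h2 := ((hasDerivAt_pe p ((t - s) / H - 1)).comp t h1).div_const K
  have e : pe (pd p) ((t - s) / H - 1) / (K * H) = pe (pd p) ((t - s) / H - 1) * (1 / H) / K := by
    by_cases hK : K = 0
    · simp [hK]
    · field_simp
  rw [e]
  exact h2

theorem sizeok_x {h : ℕ} {x y : List ℤ} (hs : sizeok h x y = true) : okx x = true := by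
  unfold sizeok at hs
  rw [Bool.and_eq_true] at hs
  exact hs.1

theorem sizeok_y {h : ℕ} {x y : List ℤ} (hs : sizeok h x y = true) : okx y = true := by
  unfold sizeok at hs
  rw [Bool.and_eq_true, Bool.and_eq_true] at hs
  exact hs.2.1

theorem sizeok_P {h : ℕ} {x y : List ℤ} (hs : sizeok h x y = true) {τ : ℝ} (hτ : |τ| ≤ 1) :
    ‖(!₂[pe x τ / 2 ^ 110, pe y τ / 2 ^ 110, 0] : V3)‖ ≤ 99 / 100 := by
  unfold sizeok at hs
  rw [Bool.and_eq_true, Bool.and_eq_true, Bool.and_eq_true] at hs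
  have h1 := Nat.le_of_ble_eq_true hs.2.2.1
  have h2 : ((100 * (pabs x + pabs y) : ℕ) : ℝ) ≤ ((99 * 2 ^ 110 : ℕ) : ℝ) := Nat.cast_le.mpr h1
  push_cast at h2
  refine (norm_v3_le _ _).trans ?_
  have hK : (0 : ℝ) < 2 ^ 110 := by positivity
  rw [abs_div, abs_div, abs_of_pos hK, ← add_div, div_le_iff₀ hK]
  have a1 := abs_pe_le x τ hτ
  have a2 := abs_pe_le y τ hτ
  linarith

theorem sizeok_W {h : ℕ} {x y : List ℤ} (h0 : 0 < h) (hs : sizeok h x y = true) {τ : ℝ}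
    (hτ : |τ| ≤ 1) :
    ‖(!₂[pe (pd x) τ / (2 ^ 110 * ((h : ℝ) / 10 ^ 9)),
      pe (pd y) τ / (2 ^ 110 * ((h : ℝ) / 10 ^ 9)), 0] : V3)‖ ≤ 19 := by
  unfold sizeok at hs
  rw [Bool.and_eq_true, Bool.and_eq_true, Bool.and_eq_true] at hs
  have h1 := Nat.le_of_ble_eq_true hs.2.2.2
  have h2 : (((pabs (pd x) + pabs (pd y)) * 10 ^ 9 : ℕ) : ℝ) ≤ ((19 * h * 2 ^ 110 : ℕ) : ℝ) :=
    Nat.cast_le.mpr h1
  push_cast at h2
  have hr : (0 : ℝ) < (h : ℝ) := by exact_mod_cast h0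
  refine (norm_v3_le _ _).trans ?_
  have hK : (0 : ℝ) < 2 ^ 110 * ((h : ℝ) / 10 ^ 9) := by positivity
  rw [abs_div, abs_div, abs_of_pos hK, ← add_div, div_le_iff₀ hK]
  have a1 := abs_pe_le (pd x) τ hτ
  have a2 := abs_pe_le (pd y) τ hτ
  have e : (19 : ℝ) * (2 ^ 110 * ((h : ℝ) / 10 ^ 9)) = 19 * h * 2 ^ 110 / 10 ^ 9 := by ring
  rw [e, le_div_iff₀ (by positivity)]
  nlinarith

end Ref

namespace RPiece

theorem H_pos {c : RPiece} (h : 0 < c.h) : 0 < c.H := by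
  have : (0 : ℝ) < (c.h : ℝ) := by exact_mod_cast h
  unfold H
  positivity

theorem tau_abs {c : RPiece} (h : 0 < c.h) {s t : ℝ} (ht : t ∈ Icc s (s + 2 * c.H)) :
    |c.tau s t| ≤ 1 := by
  have hH := H_pos h
  unfold tau
  rw [abs_le]
  constructor
  · have : 0 ≤ (t - s) / c.H := div_nonneg (by linarith [ht.1]) hH.le
    linarith
  · have : (t - s) / c.H ≤ 2 := by
      rw [div_le_iff₀ hH]
      linarith [ht.2]
    linarith

theorem check_h0 {c : RPiece} (hc : c.check = true) : 0 < c.h := by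
  unfold check at hc
  simp only [Bool.and_eq_true] at hc
  have := hc.1.1
  rw [Nat.blt_eq] at this
  exact this

theorem check_hh {c : RPiece} (hc : c.check = true) : c.h ≤ 2 ^ 28 := by
  unfold check at hc
  simp only [Bool.and_eq_true] at hc
  exact Nat.le_of_ble_eq_true hc.1.2

theorem check_size {c : RPiece} (hc : c.check = true) (k : Fin 3) :
    sizeok c.h (c.X k) (c.Y k) = true := by
  unfold check at hc
  simp only [Bool.and_eq_true] at hc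
  obtain ⟨-, ⟨h0, h1, h2⟩, -⟩ := hc
  fin_cases k
  · exact h0
  · exact h1
  · exact h2

theorem check_pair {c : RPiece} (hc : c.check = true) :
    pairok c.u01 c.S01 c.m01 = true ∧ pairok c.u02 c.S02 c.m02 = true ∧
      pairok c.u12 c.S12 c.m12 = true := by
  unfold check at hc
  simp only [Bool.and_eq_true] at hc
  exact hc.2.2.1

theorem check_body {c : RPiece} (hc : c.check = true) :
    bodyok c.h c.d c.x0 c.y0 c.x1 c.y1 c.x2 c.y2 c.u01 c.u02 c.S01 c.S02 c.m01 c.m02 = true ∧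
    bodyok c.h c.d c.x1 c.y1 c.x0 c.y0 c.x2 c.y2 c.u01 c.u12 c.S01 c.S12 c.m01 c.m12 = true ∧
    bodyok c.h c.d c.x2 c.y2 c.x0 c.y0 c.x1 c.y1 c.u02 c.u12 c.S02 c.S12 c.m02 c.m12 = true := by
  unfold check at hc
  simp only [Bool.and_eq_true] at hc
  exact hc.2.2.2

/-- the facts on the three pairs -/
theorem pairs {c : RPiece} (hc : c.check = true) {τ : ℝ} (hτ : |τ| ≤ 1) :
    (0 < c.m01 ∧ (c.m01 : ℝ) / 2 ^ 20 ≤ ‖vec c.x1 c.y1 τ - vec c.x0 c.y0 τ‖ ∧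
      |(pe c.u01 τ / 2 ^ 100) ^ 3 - 1 / ‖vec c.x1 c.y1 τ - vec c.x0 c.y0 τ‖ ^ 3| *
      ‖vec c.x1 c.y1 τ - vec c.x0 c.y0 τ‖ ≤
      4 * ((c.S01 : ℝ) / 2 ^ 420) / ((c.m01 : ℝ) / 2 ^ 20) ^ 2) ∧
    (0 < c.m02 ∧ (c.m02 : ℝ) / 2 ^ 20 ≤ ‖vec c.x2 c.y2 τ - vec c.x0 c.y0 τ‖ ∧
      |(pe c.u02 τ / 2 ^ 100) ^ 3 - 1 / ‖vec c.x2 c.y2 τ - vec c.x0 c.y0 τ‖ ^ 3| *
      ‖vec c.x2 c.y2 τ - vec c.x0 c.y0 τ‖ ≤
      4 * ((c.S02 : ℝ) / 2 ^ 420) / ((c.m02 : ℝ) / 2 ^ 20) ^ 2) ∧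
    (0 < c.m12 ∧ (c.m12 : ℝ) / 2 ^ 20 ≤ ‖vec c.x2 c.y2 τ - vec c.x1 c.y1 τ‖ ∧
      |(pe c.u12 τ / 2 ^ 100) ^ 3 - 1 / ‖vec c.x2 c.y2 τ - vec c.x1 c.y1 τ‖ ^ 3| *
      ‖vec c.x2 c.y2 τ - vec c.x1 c.y1 τ‖ ≤
      4 * ((c.S12 : ℝ) / 2 ^ 420) / ((c.m12 : ℝ) / 2 ^ 20) ^ 2) := by
  have s0 := check_size hc 0
  have s1 := check_size hc 1
  have s2 := check_size hc 2
  have x0 : okx c.x0 = true := sizeok_x s0
  have x1 : okx c.x1 = true := sizeok_x s1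
  have x2 : okx c.x2 = true := sizeok_x s2
  have y0 : okx c.y0 = true := sizeok_y s0
  have y1 : okx c.y1 = true := sizeok_y s1
  have y2 : okx c.y2 = true := sizeok_y s2
  obtain ⟨p1, p2, p3⟩ := check_pair hc
  exact ⟨pair_fact x0 y0 x1 y1 p1 hτ, pair_fact x0 y0 x2 y2 p2 hτ, pair_fact x1 y1 x2 y2 p3 hτ⟩

theorem P_eq (c : RPiece) (s t : ℝ) (k : Fin 3) :
    c.P s t k = vec (c.X k) (c.Y k) (c.tau s t) := rfl

theorem dist_ok {c : RPiece} (hc : c.check = true) {τ : ℝ} (hτ : |τ| ≤ 1) (k l : Fin 3)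
    (hkl : k ≠ l) : 0 < c.m k l ∧ c.m k l ≤ ‖vec (c.X k) (c.Y k) τ - vec (c.X l) (c.Y l) τ‖ := by
  obtain ⟨⟨a1, a2, -⟩, ⟨b1, b2, -⟩, ⟨c1, c2, -⟩⟩ := pairs hc hτ
  have a1' : (0 : ℝ) < (c.m01 : ℝ) / 2 ^ 20 :=
    div_pos (by exact_mod_cast a1) (pow_pos two_pos _)
  have b1' : (0 : ℝ) < (c.m02 : ℝ) / 2 ^ 20 :=
    div_pos (by exact_mod_cast b1) (pow_pos two_pos _)
  have c1' : (0 : ℝ) < (c.m12 : ℝ) / 2 ^ 20 :=
    div_pos (by exact_mod_cast c1) (pow_pos two_pos _)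
  fin_cases k <;> fin_cases l
  · exact absurd rfl hkl
  · exact ⟨a1', by rw [norm_sub_rev]; exact a2⟩
  · exact ⟨b1', by rw [norm_sub_rev]; exact b2⟩
  · exact ⟨a1', a2⟩
  · exact absurd rfl hkl
  · exact ⟨c1', by rw [norm_sub_rev]; exact c2⟩
  · exact ⟨b1', b2⟩
  · exact ⟨c1', c2⟩
  · exact absurd rfl hkl

theorem acc_three (q : Fin 3 → V3) :
    acc 1 q 0 = (1 / ‖q 1 - q 0‖ ^ 3) • (q 1 - q 0) + (1 / ‖q 2 - q 0‖ ^ 3) • (q 2 - q 0) ∧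
    acc 1 q 1 = (1 / ‖q 0 - q 1‖ ^ 3) • (q 0 - q 1) + (1 / ‖q 2 - q 1‖ ^ 3) • (q 2 - q 1) ∧
    acc 1 q 2 = (1 / ‖q 0 - q 2‖ ^ 3) • (q 0 - q 2) + (1 / ‖q 1 - q 2‖ ^ 3) • (q 1 - q 2) := by
  unfold acc
  refine ⟨?_, ?_, ?_⟩ <;> rw [Fin.sum_univ_three] <;> simp

theorem defect_ok {c : RPiece} (hc : c.check = true) {s t : ℝ}
    (hτ : |c.tau s t| ≤ 1) (k : Fin 3) :
    ‖c.A s t k - acc 1 (c.P s t) k‖ ≤ (c.d : ℝ) / 2 ^ 80 := by
  have h0 := check_h0 hc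
  have hh := check_hh hc
  have s0 := check_size hc 0
  have s1 := check_size hc 1
  have s2 := check_size hc 2
  have x0 : okx c.x0 = true := sizeok_x s0
  have x1 : okx c.x1 = true := sizeok_x s1
  have x2 : okx c.x2 = true := sizeok_x s2
  have y0 : okx c.y0 = true := sizeok_y s0
  have y1 : okx c.y1 = true := sizeok_y s1
  have y2 : okx c.y2 = true := sizeok_y s2
  obtain ⟨p1, p2, p3⟩ := check_pair hc
  obtain ⟨⟨a1, a2, a3⟩, ⟨b1, b2, b3⟩, ⟨c1, c2, c3⟩⟩ := pairs hc hτ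
  obtain ⟨q1, q2, q3⟩ := check_body hc
  have u1 := pairok_oku p1
  have u2 := pairok_oku p2
  have u3 := pairok_oku p3
  obtain ⟨e0, e1, e2⟩ := acc_three (c.P s t)
  have hH : c.H = (c.h : ℝ) / 10 ^ 9 := rfl
  fin_cases k
  · have h := body_fact h0 hh u1 u2 x0 x1 x2 y0 y1 y2 a1 b1 q1 hτ a3 b3
    have : ‖c.A s t 0 - acc 1 (c.P s t) 0‖ ≤ (c.d : ℝ) / 2 ^ 80 := by
      rw [e0]
      exact h
    exact this
  · have a3' := a3
    rw [norm_sub_rev] at a3'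
    have h := body_fact h0 hh u1 u3 x1 x0 x2 y1 y0 y2 a1 c1 q2 hτ a3' c3
    have : ‖c.A s t 1 - acc 1 (c.P s t) 1‖ ≤ (c.d : ℝ) / 2 ^ 80 := by
      rw [e1]
      exact h
    exact this
  · have b3' := b3
    rw [norm_sub_rev] at b3'
    have c3' := c3
    rw [norm_sub_rev] at c3'
    have h := body_fact h0 hh u2 u3 x2 x0 x1 y2 y0 y1 b1 c1 q3 hτ b3' c3'
    have : ‖c.A s t 2 - acc 1 (c.P s t) 2‖ ≤ (c.d : ℝ) / 2 ^ 80 := by
      rw [e2]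
      exact h
    exact this

/-- what the check of a piece proves -/
theorem ok (c : RPiece) (hc : c.check = true) (s : ℝ) :
    0 < c.H ∧
    (∀ t ∈ Icc s (s + 2 * c.H), ∀ k,
      HasDerivWithinAt (fun r => c.P s r k) (c.W s t k) (Icc s (s + 2 * c.H)) t) ∧
    (∀ t ∈ Icc s (s + 2 * c.H), ∀ k,
      HasDerivWithinAt (fun r => c.W s r k) (c.A s t k) (Icc s (s + 2 * c.H)) t) ∧
    (∀ t ∈ Icc s (s + 2 * c.H), ∀ k, ‖c.A s t k - acc 1 (c.P s t) k‖ ≤ (c.d : ℝ) / 2 ^ 80) ∧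
    (∀ t ∈ Icc s (s + 2 * c.H), ∀ k l, k ≠ l → c.m k l ≤ ‖c.P s t k - c.P s t l‖) ∧
    (∀ k l, k ≠ l → 0 < c.m k l) ∧
    (∀ t ∈ Icc s (s + 2 * c.H), ∀ k, ‖c.P s t k‖ ≤ 99 / 100) ∧
    (∀ t ∈ Icc s (s + 2 * c.H), ∀ k, ‖c.W s t k‖ ≤ 19) := by
  have h0 := check_h0 hc
  have hH := H_pos h0
  refine ⟨hH, ?_, ?_, ?_, ?_, ?_, ?_, ?_⟩
  · intro t _ k
    exact (hasDerivAt_v3 (hasDerivAt_coord (c.X k) hH.ne' s t (2 ^ 110))
      (hasDerivAt_coord (c.Y k) hH.ne' s t (2 ^ 110))).hasDerivWithinAt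
  · intro t _ k
    have h1 := hasDerivAt_coord (pd (c.X k)) hH.ne' s t (2 ^ 110 * c.H)
    have h2 := hasDerivAt_coord (pd (c.Y k)) hH.ne' s t (2 ^ 110 * c.H)
    have e : (2 : ℝ) ^ 110 * c.H * c.H = 2 ^ 110 * c.H ^ 2 := by ring
    rw [e] at h1 h2
    exact (hasDerivAt_v3 h1 h2).hasDerivWithinAt
  · intro t ht k
    exact defect_ok hc (tau_abs h0 ht) k
  · intro t ht k l hkl
    exact (dist_ok hc (tau_abs h0 ht) k l hkl).2
  · intro k l hkl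
    exact (dist_ok hc (τ := 0) (by norm_num) k l hkl).1
  · intro t ht k
    exact sizeok_P (check_size hc k) (tau_abs h0 ht)
  · intro t ht k
    exact sizeok_W h0 (check_size hc k) (tau_abs h0 ht)

end RPiece

end Pool.Agent.NBody
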