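import Mathlib
import Pool.Agent.NBody.ThRefOk2
import Pool.Agent.NBody.ThStep

/-!
One step of the enclosure along a piece of the reference orbit.
-/

set_option autoImplicit false
open Set Finset

namespace Pool.Agent.NBody.RC

open RP

/-- the data of one step: errors `a`, `b` at the start, the bound `Z` (all divided by `2 ^ 100`)
and the Lipschitz constant `L` -/
structure StepD where
  a : ℕ
  b : ℕ
  Z : ℕ
  L : ℕ

/-- the bound for the second derivative of the error, times `2 ^ 100` -/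
def stepC (c : RPiece) (e : StepD) : ℕ := e.L * e.Z + (c.d + 1) * 2 ^ 20

/-- the three distances minus twice the error, times `2 ^ 100` -/
def okStep (c : RPiece) (e : StepD) : Bool :=
  let M01 := c.m01 * 2 ^ 80 - 2 * e.Z
  let M02 := c.m02 * 2 ^ 80 - 2 * e.Z
  let M12 := c.m12 * 2 ^ 80 - 2 * e.Z
  decide (2 ^ 100 ≤ 30 * M01) && decide (2 ^ 100 ≤ 30 * M02) && decide (2 ^ 100 ≤ 30 * M12) &&
  decide (4 * 2 ^ 300 * (M01 ^ 3 + M02 ^ 3) ≤ e.L * (M01 ^ 3 * M02 ^ 3)) &&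
  decide (4 * 2 ^ 300 * (M01 ^ 3 + M12 ^ 3) ≤ e.L * (M01 ^ 3 * M12 ^ 3)) &&
  decide (4 * 2 ^ 300 * (M02 ^ 3 + M12 ^ 3) ≤ e.L * (M02 ^ 3 * M12 ^ 3)) &&
  decide (e.a * 10 ^ 18 + 2 * c.h * e.b * 10 ^ 9 + 2 * c.h ^ 2 * stepC c e < e.Z * 10 ^ 18) &&
  decide (100 * e.Z ≤ 2 ^ 100) && decide (e.b * 10 ^ 9 + 2 * c.h * stepC c e ≤ 2 ^ 100 * 10 ^ 9)

/-- the transition to the next piece -/
def okJoin (c : RPiece) (e : StepD) (c' : RPiece) (e' : StepD) : Bool :=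
  decide ((e.a * 10 ^ 18 + 2 * c.h * e.b * 10 ^ 9 + 2 * c.h ^ 2 * stepC c e) * 2 ^ 10 +
    10 ^ 18 * ((psum c.x0 - palt c'.x0).natAbs + (psum c.y0 - palt c'.y0).natAbs +
      (psum c.x1 - palt c'.x1).natAbs + (psum c.y1 - palt c'.y1).natAbs) ≤
    e'.a * 10 ^ 18 * 2 ^ 10) &&
  decide (e.b * (2 ^ 10 * 10 ^ 9 * c.h * c'.h) + 2 * c.h * stepC c e * (2 ^ 10 * c.h * c'.h) +
    10 ^ 18 * ((psum (pd c.x0) * c'.h - palt (pd c'.x0) * c.h).natAbs +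
      (psum (pd c.y0) * c'.h - palt (pd c'.y0) * c.h).natAbs +
      (psum (pd c.x1) * c'.h - palt (pd c'.x1) * c.h).natAbs +
      (psum (pd c.y1) * c'.h - palt (pd c'.y1) * c.h).natAbs) ≤
    e'.b * (2 ^ 10 * 10 ^ 9 * c.h * c'.h))


theorem inv_ineq {M N L : ℕ} (hM : 0 < M) (hN : 0 < N)
    (h : 4 * 2 ^ 300 * (M ^ 3 + N ^ 3) ≤ L * (M ^ 3 * N ^ 3)) :
    4 / ((M : ℝ) / 2 ^ 100) ^ 3 + 4 / ((N : ℝ) / 2 ^ 100) ^ 3 ≤ (L : ℝ) := by
  have h1 : (4 * 2 ^ 300 * ((M : ℝ) ^ 3 + (N : ℝ) ^ 3)) ≤ (L : ℝ) * ((M : ℝ) ^ 3 * (N : ℝ) ^ 3) := by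
    exact_mod_cast h
  have hM' : (0 : ℝ) < M := by exact_mod_cast hM
  have hN' : (0 : ℝ) < N := by exact_mod_cast hN
  have h2 : 4 / ((M : ℝ) / 2 ^ 100) ^ 3 + 4 / ((N : ℝ) / 2 ^ 100) ^ 3 =
      (4 * 2 ^ 300 * ((M : ℝ) ^ 3 + (N : ℝ) ^ 3)) / ((M : ℝ) ^ 3 * (N : ℝ) ^ 3) := by
    field_simp
    ring
  rw [h2, div_le_iff₀ (by positivity)]
  exact h1

theorem m_01 (c : RPiece) : c.m 0 1 = (c.m01 : ℝ) / 2 ^ 20 := by simp [RPiece.m]
theorem m_10 (c : RPiece) : c.m 1 0 = (c.m01 : ℝ) / 2 ^ 20 := by simp [RPiece.m]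
theorem m_02 (c : RPiece) : c.m 0 2 = (c.m02 : ℝ) / 2 ^ 20 := by simp [RPiece.m]
theorem m_20 (c : RPiece) : c.m 2 0 = (c.m02 : ℝ) / 2 ^ 20 := by simp [RPiece.m]
theorem m_12 (c : RPiece) : c.m 1 2 = (c.m12 : ℝ) / 2 ^ 20 := by simp [RPiece.m]
theorem m_21 (c : RPiece) : c.m 2 1 = (c.m12 : ℝ) / 2 ^ 20 := by simp [RPiece.m]


theorem step_sem {T : ℝ} {f Q V : ℝ → Fin 3 → V3} (hsol : IsSol 1 T f Q V) {η : ℝ}
    (hη : η ≤ 1 / 2 ^ 80) (hf : ∀ t ∈ Icc (0 : ℝ) T, ∀ k, ‖f t k‖ ≤ η) (c : RPiece) (e : StepD)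
    (hc : c.check = true) (he : okStep c e = true) {s : ℝ} (hs : 0 ≤ s)
    (ha : s ≤ T → ∀ k, ‖Q s k - c.P s s k‖ ≤ (e.a : ℝ) / 2 ^ 100)
    (hb : s ≤ T → ∀ k, ‖V s k - c.W s s k‖ ≤ (e.b : ℝ) / 2 ^ 100) :
    (∀ t ∈ Icc s (s + 2 * c.H), t ≤ T →
      (∀ k l, k ≠ l → 1 / 30 ≤ ‖Q t k - Q t l‖) ∧ (∀ k, ‖Q t k‖ ≤ 1) ∧ (∀ k, ‖V t k‖ ≤ 20)) ∧
    (s + 2 * c.H ≤ T → ∀ k,
      ‖Q (s + 2 * c.H) k - c.P s (s + 2 * c.H) k‖ ≤
        ((e.a * 10 ^ 18 + 2 * c.h * e.b * 10 ^ 9 + 2 * c.h ^ 2 * stepC c e : ℕ) : ℝ) /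
          (2 ^ 100 * 10 ^ 18) ∧
      ‖V (s + 2 * c.H) k - c.W s (s + 2 * c.H) k‖ ≤
        ((e.b * 10 ^ 9 + 2 * c.h * stepC c e : ℕ) : ℝ) / (2 ^ 100 * 10 ^ 9)) := by
  obtain ⟨hH, hP, hW, hd, hm, _, hPb, hWb⟩ := c.ok hc s
  have hHe : c.H = (c.h : ℝ) / 10 ^ 9 := rfl
  simp only [okStep, Bool.and_eq_true, decide_eq_true_eq] at he
  obtain ⟨⟨⟨⟨⟨⟨⟨⟨e1, e2⟩, e3⟩, e4⟩, e5⟩, e6⟩, e7⟩, e8⟩, e9⟩ := he
  set M01 := c.m01 * 2 ^ 80 - 2 * e.Z with hM01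
  set M02 := c.m02 * 2 ^ 80 - 2 * e.Z with hM02
  set M12 := c.m12 * 2 ^ 80 - 2 * e.Z with hM12
  have p01 : 0 < M01 := by
    by_contra h
    have h0 : M01 = 0 := Nat.eq_zero_of_not_pos h
    rw [h0] at e1
    norm_num at e1
  have p02 : 0 < M02 := by
    by_contra h
    have h0 : M02 = 0 := Nat.eq_zero_of_not_pos h
    rw [h0] at e2
    norm_num at e2
  have p12 : 0 < M12 := by
    by_contra h
    have h0 : M12 = 0 := Nat.eq_zero_of_not_pos h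
    rw [h0] at e3
    norm_num at e3
  have cast_sub : ∀ (m M Z : ℕ), M = m * 2 ^ 80 - 2 * Z → 0 < M →
      (m : ℝ) / 2 ^ 20 - 2 * ((Z : ℝ) / 2 ^ 100) = (M : ℝ) / 2 ^ 100 := by
    intro m M Z h h0
    have h1 : M + 2 * Z = m * 2 ^ 80 := by omega
    have h2 : (M : ℝ) + 2 * (Z : ℝ) = (m : ℝ) * 2 ^ 80 := by exact_mod_cast h1
    have h3 : (m : ℝ) / 2 ^ 20 = ((m : ℝ) * 2 ^ 80) / 2 ^ 100 := by
      field_simp
    rw [h3, ← h2]
    ring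
  have c01 := cast_sub c.m01 M01 e.Z hM01 p01
  have c02 := cast_sub c.m02 M02 e.Z hM02 p02
  have c12 := cast_sub c.m12 M12 e.Z hM12 p12
  have big : ∀ (M : ℕ), 2 ^ 100 ≤ 30 * M → (1 : ℝ) / 30 ≤ (M : ℝ) / 2 ^ 100 := by
    intro M h
    have h1 : (2 : ℝ) ^ 100 ≤ 30 * (M : ℝ) := by exact_mod_cast h
    rw [div_le_div_iff₀ (by norm_num) (by positivity)]
    linarith
  have g01 := big M01 e1
  have g02 := big M02 e2
  have g12 := big M12 e3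
  have hmall : ∀ k l : Fin 3, k ≠ l → (1 : ℝ) / 30 ≤ c.m k l - 2 * ((e.Z : ℝ) / 2 ^ 100) := by
    intro k l hkl
    fin_cases k <;> fin_cases l
    · exact absurd rfl hkl
    · simpa only [Fin.mk_one, Fin.zero_eta, m_01, c01] using g01
    · simpa only [Fin.reduceFinMk, Fin.zero_eta, m_02, c02] using g02
    · simpa only [Fin.mk_one, Fin.zero_eta, m_10, c01] using g01
    · exact absurd rfl hkl
    · simpa only [Fin.reduceFinMk, Fin.mk_one, m_12, c12] using g12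
    · simpa only [Fin.reduceFinMk, Fin.zero_eta, m_20, c02] using g02
    · simpa only [Fin.reduceFinMk, Fin.mk_one, m_21, c12] using g12
    · exact absurd rfl hkl
  have hL : ∀ k : Fin 3, ∑ l, (if l = k then 0 else 4 / (c.m k l - 2 * ((e.Z : ℝ) / 2 ^ 100)) ^ 3) ≤
      (e.L : ℝ) := by
    have i1 := inv_ineq p01 p02 e4
    have i2 := inv_ineq p01 p12 e5
    have i3 := inv_ineq p02 p12 e6
    intro k
    rw [Fin.sum_univ_three]
    fin_cases k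
    · simp only [Fin.zero_eta, if_true, m_01, m_02, c01, c02, show ¬ ((1 : Fin 3) = 0) by decide,
        show ¬ ((2 : Fin 3) = 0) by decide, if_false]
      linarith
    · simp only [Fin.mk_one, if_true, m_10, m_12, c01, c12, show ¬ ((0 : Fin 3) = 1) by decide,
        show ¬ ((2 : Fin 3) = 1) by decide, if_false]
      linarith
    · simp only [Fin.reduceFinMk, if_true, m_20, m_21, c02, c12, show ¬ ((0 : Fin 3) = 2) by decide,
        show ¬ ((1 : Fin 3) = 2) by decide, if_false]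
      linarith
  have hC : (e.L : ℝ) * ((e.Z : ℝ) / 2 ^ 100) + (c.d : ℝ) / 2 ^ 80 + η ≤
      (stepC c e : ℝ) / 2 ^ 100 := by
    have h1 : (stepC c e : ℝ) / 2 ^ 100 =
        (e.L : ℝ) * ((e.Z : ℝ) / 2 ^ 100) + (c.d : ℝ) / 2 ^ 80 + 1 / 2 ^ 80 := by
      rw [stepC]
      push_cast
      field_simp
      ring
    rw [h1]
    linarith
  have hlen : s + 2 * c.H - s = 2 * ((c.h : ℝ) / 10 ^ 9) := by
    rw [hHe]
    ring
  have hZ7 : (e.a : ℝ) / 2 ^ 100 + (s + 2 * c.H - s) * ((e.b : ℝ) / 2 ^ 100) +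
      (s + 2 * c.H - s) ^ 2 / 2 * ((stepC c e : ℝ) / 2 ^ 100) =
      ((e.a * 10 ^ 18 + 2 * c.h * e.b * 10 ^ 9 + 2 * c.h ^ 2 * stepC c e : ℕ) : ℝ) /
          (2 ^ 100 * 10 ^ 18) := by
    rw [hlen]
    push_cast
    field_simp
    ring
  have hZ : (e.a : ℝ) / 2 ^ 100 + (s + 2 * c.H - s) * ((e.b : ℝ) / 2 ^ 100) +
      (s + 2 * c.H - s) ^ 2 / 2 * ((stepC c e : ℝ) / 2 ^ 100) < (e.Z : ℝ) / 2 ^ 100 := by
    rw [hZ7]
    have h1 : ((e.a * 10 ^ 18 + 2 * c.h * e.b * 10 ^ 9 + 2 * c.h ^ 2 * stepC c e : ℕ) : ℝ) <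
        ((e.Z * 10 ^ 18 : ℕ) : ℝ) := by exact_mod_cast e7
    rw [div_lt_div_iff₀ (by positivity) (by positivity)]
    push_cast at h1 ⊢
    nlinarith [h1]
  have hZ0 : (0 : ℝ) ≤ (e.Z : ℝ) / 2 ^ 100 := by positivity
  have hstep := gstep hsol hf hs (by linarith : s ≤ s + 2 * c.H) (c.P s) (c.W s) (c.A s) hP hW hd
    c.m hm hZ0 (fun k l hkl => by linarith [hmall k l hkl]) hL ha hb hC hZ
  have hb9 : (e.b : ℝ) / 2 ^ 100 + (s + 2 * c.H - s) * ((stepC c e : ℝ) / 2 ^ 100) =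
      ((e.b * 10 ^ 9 + 2 * c.h * stepC c e : ℕ) : ℝ) / (2 ^ 100 * 10 ^ 9) := by
    rw [hlen]
    push_cast
    field_simp
    norm_num
  have hC0 : (0 : ℝ) ≤ (stepC c e : ℝ) / 2 ^ 100 := by positivity
  have hb0 : (0 : ℝ) ≤ (e.b : ℝ) / 2 ^ 100 := by positivity
  refine ⟨fun t ht htT => ?_, fun hT k => ?_⟩
  · have h1 := hstep t ht htT
    have hts : t - s ≤ s + 2 * c.H - s := by linarith [ht.2]
    have hts0 : 0 ≤ t - s := by linarith [ht.1]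
    have hpos : ∀ k, ‖Q t k - c.P s t k‖ ≤ (e.Z : ℝ) / 2 ^ 100 := fun k => by
      refine (h1 k).1.trans (le_trans ?_ hZ.le)
      gcongr
    have hvel : ∀ k, ‖V t k - c.W s t k‖ ≤ 1 := fun k => by
      refine (h1 k).2.trans (le_trans (b := (e.b : ℝ) / 2 ^ 100 +
        (s + 2 * c.H - s) * ((stepC c e : ℝ) / 2 ^ 100)) ?_ ?_)
      · gcongr
      · rw [hb9, div_le_one (by positivity)]
        exact_mod_cast e9
    have hZ100 : (e.Z : ℝ) / 2 ^ 100 ≤ 1 / 100 := by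
      have h2 : 100 * (e.Z : ℝ) ≤ 2 ^ 100 := by exact_mod_cast e8
      rw [div_le_div_iff₀ (by positivity) (by norm_num)]
      linarith
    refine ⟨fun k l hkl => ?_, fun k => ?_, fun k => ?_⟩
    · have h2 := hm t ht k l hkl
      have h3 := hmall k l hkl
      have h4 : c.P s t k - c.P s t l = (Q t k - Q t l) - (Q t k - c.P s t k) +
        (Q t l - c.P s t l) := by abel
      have h5 : ‖c.P s t k - c.P s t l‖ ≤ ‖Q t k - Q t l‖ + ‖Q t k - c.P s t k‖ +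
          ‖Q t l - c.P s t l‖ := by
        rw [h4]
        exact (norm_add_le _ _).trans (add_le_add_left (norm_sub_le _ _) _)
      linarith [hpos k, hpos l]
    · have h2 : Q t k = (Q t k - c.P s t k) + c.P s t k := by abel
      rw [h2]
      refine (norm_add_le _ _).trans ?_
      linarith [hpos k, hPb t ht k]
    · have h2 : V t k = (V t k - c.W s t k) + c.W s t k := by abel
      rw [h2]
      refine (norm_add_le _ _).trans ?_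
      linarith [hvel k, hWb t ht k]
  · have h1 := hstep (s + 2 * c.H) ⟨by linarith, le_rfl⟩ hT k
    rw [hZ7, hb9] at h1
    exact h1

end Pool.Agent.NBody.RC
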