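import Mathlib
import Pool.Agent.NBody.ThGunDefs
import Pool.Agent.NBody.ThRefStep

/-!
The chain of enclosures along the pieces of the reference orbit.
-/

set_option autoImplicit false
open Set Finset

namespace Pool.Agent.NBody.RC

open RP

theorem pe_pd_padd (l m : List ℤ) (x : ℝ) : pe (pd (padd l m)) x = pe (pd l) x + pe (pd m) x := by
  have h1 := hasDerivAt_pe (padd l m) x
  have h2 : HasDerivAt (fun y => pe l y + pe m y) (pe (pd l) x + pe (pd m) x) x :=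
    (hasDerivAt_pe l x).add (hasDerivAt_pe m x)
  have h3 : pe (padd l m) = fun y => pe l y + pe m y := by
    funext y
    exact pe_padd l m y
  rw [h3] at h1
  exact h1.unique h2

theorem pe_pd_psc (c : ℤ) (l : List ℤ) (x : ℝ) : pe (pd (psc c l)) x = (c : ℝ) * pe (pd l) x := by
  have h1 := hasDerivAt_pe (psc c l) x
  have h2 : HasDerivAt (fun y => (c : ℝ) * pe l y) ((c : ℝ) * pe (pd l) x) x :=
    (hasDerivAt_pe l x).const_mul (c : ℝ)
  have h3 : pe (psc c l) = fun y => (c : ℝ) * pe l y := by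
    funext y
    exact pe_psc c l y
  rw [h3] at h1
  exact h1.unique h2

theorem norm_flat_le (a b : ℝ) : ‖(!₂[a, b, 0] : V3)‖ ≤ |a| + |b| := by
  rw [EuclideanSpace.norm_eq, Fin.sum_univ_three]
  rw [Real.sqrt_le_left (by positivity)]
  simp only [Real.norm_eq_abs, sq_abs, Matrix.cons_val_zero, Matrix.cons_val_one,
    Matrix.cons_val]
  nlinarith [abs_nonneg a, abs_nonneg b, sq_abs a, sq_abs b, mul_nonneg (abs_nonneg a) (abs_nonneg b)]

theorem flat_sub (a b a' b' : ℝ) :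
    (!₂[a, b, 0] : V3) - !₂[a', b', 0] = !₂[a - a', b - b', 0] := by
  ext i
  fin_cases i <;> simp

theorem norm_flat_sub_le (a b a' b' : ℝ) :
    ‖(!₂[a, b, 0] : V3) - !₂[a', b', 0]‖ ≤ |a - a'| + |b - b'| := by
  rw [flat_sub]
  exact norm_flat_le _ _

/-- the values of the coordinates at the right end, times `2 ^ 110` -/
theorem right_P (c : RPiece) (hH : 0 < c.H) (s : ℝ) (k : Fin 3) :
    c.P s (s + 2 * c.H) k = !₂[pe (c.X k) 1 / 2 ^ 110, pe (c.Y k) 1 / 2 ^ 110, 0] := by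
  have h1 : (s + 2 * c.H - s) / c.H - 1 = 1 := by
    field_simp
    ring
  simp only [RPiece.P, RPiece.tau, h1]

theorem left_P (c : RPiece) (s : ℝ) (k : Fin 3) :
    c.P s s k = !₂[pe (c.X k) (-1) / 2 ^ 110, pe (c.Y k) (-1) / 2 ^ 110, 0] := by
  have h1 : (s - s) / c.H - 1 = -1 := by simp
  simp only [RPiece.P, RPiece.tau, h1]

theorem right_W (c : RPiece) (hH : 0 < c.H) (s : ℝ) (k : Fin 3) :
    c.W s (s + 2 * c.H) k = !₂[pe (pd (c.X k)) 1 / (2 ^ 110 * c.H),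
      pe (pd (c.Y k)) 1 / (2 ^ 110 * c.H), 0] := by
  have h1 : (s + 2 * c.H - s) / c.H - 1 = 1 := by
    field_simp
    ring
  simp only [RPiece.W, RPiece.tau, h1]

theorem left_W (c : RPiece) (s : ℝ) (k : Fin 3) :
    c.W s s k = !₂[pe (pd (c.X k)) (-1) / (2 ^ 110 * c.H),
      pe (pd (c.Y k)) (-1) / (2 ^ 110 * c.H), 0] := by
  have h1 : (s - s) / c.H - 1 = -1 := by simp
  simp only [RPiece.W, RPiece.tau, h1]

theorem natAbs_cast (n : ℤ) : ((n.natAbs : ℕ) : ℝ) = |(n : ℝ)| := by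
  rw [← Int.cast_abs, Int.abs_eq_natAbs]
  simp

/-- the sums of the coordinates of a difference bound the differences of the three bodies -/
theorem three_le {x0 x1 x0' x1' y0 y1 y0' y1' : List ℤ} {α β : ℝ} (F : List ℤ → ℝ) (G : List ℤ → ℝ)
    (hF : ∀ l m, F (psc (-1) (padd l m)) = -(F l + F m))
    (hG : ∀ l m, G (psc (-1) (padd l m)) = -(G l + G m)) (k : Fin 3) :
    |F ((![x0, x1, psc (-1) (padd x0 x1)] : Fin 3 → List ℤ) k) * α -
        G ((![x0', x1', psc (-1) (padd x0' x1')] : Fin 3 → List ℤ) k) * β| +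
      |F ((![y0, y1, psc (-1) (padd y0 y1)] : Fin 3 → List ℤ) k) * α -
        G ((![y0', y1', psc (-1) (padd y0' y1')] : Fin 3 → List ℤ) k) * β| ≤
    |F x0 * α - G x0' * β| + |F y0 * α - G y0' * β| + |F x1 * α - G x1' * β| +
      |F y1 * α - G y1' * β| := by
  have h1 := abs_nonneg (F x0 * α - G x0' * β)
  have h2 := abs_nonneg (F y0 * α - G y0' * β)
  have h3 := abs_nonneg (F x1 * α - G x1' * β)
  have h4 := abs_nonneg (F y1 * α - G y1' * β)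
  fin_cases k
  · simp only [Fin.zero_eta, Matrix.cons_val_zero]
    linarith
  · simp only [Fin.mk_one, Matrix.cons_val_one, Matrix.cons_val_zero]
    linarith
  · simp only [Fin.reduceFinMk, Matrix.cons_val, hF, hG]
    have e1 : -(F x0 + F x1) * α - -(G x0' + G x1') * β =
        -((F x0 * α - G x0' * β) + (F x1 * α - G x1' * β)) := by ring
    have e2 : -(F y0 + F y1) * α - -(G y0' + G y1') * β =
        -((F y0 * α - G y0' * β) + (F y1 * α - G y1' * β)) := by ring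
    rw [e1, e2, abs_neg, abs_neg]
    have := abs_add_le (F x0 * α - G x0' * β) (F x1 * α - G x1' * β)
    have := abs_add_le (F y0 * α - G y0' * β) (F y1 * α - G y1' * β)
    linarith

/-- value of the derivative at the two ends -/
theorem F1 (l m : List ℤ) : pe (psc (-1) (padd l m)) 1 = -(pe l 1 + pe m 1) := by
  rw [pe_psc, pe_padd]
  push_cast
  ring

theorem F2 (l m : List ℤ) : pe (psc (-1) (padd l m)) (-1) = -(pe l (-1) + pe m (-1)) := by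
  rw [pe_psc, pe_padd]
  push_cast
  ring

theorem F3 (l m : List ℤ) : pe (pd (psc (-1) (padd l m))) 1 = -(pe (pd l) 1 + pe (pd m) 1) := by
  rw [pe_pd_psc, pe_pd_padd]
  push_cast
  ring

theorem F4 (l m : List ℤ) :
    pe (pd (psc (-1) (padd l m))) (-1) = -(pe (pd l) (-1) + pe (pd m) (-1)) := by
  rw [pe_pd_psc, pe_pd_padd]
  push_cast
  ring

theorem join_P (c c' : RPiece) (hH : 0 < c.H) (s : ℝ) (k : Fin 3) :
    ‖c.P s (s + 2 * c.H) k - c'.P (s + 2 * c.H) (s + 2 * c.H) k‖ ≤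
      (((psum c.x0 - palt c'.x0).natAbs + (psum c.y0 - palt c'.y0).natAbs +
      (psum c.x1 - palt c'.x1).natAbs + (psum c.y1 - palt c'.y1).natAbs : ℕ) : ℝ) / 2 ^ 110 := by
  rw [right_P c hH, left_P]
  refine (norm_flat_sub_le _ _ _ _).trans ?_
  have h1 := three_le (x0 := c.x0) (x1 := c.x1) (x0' := c'.x0) (x1' := c'.x1) (y0 := c.y0)
    (y1 := c.y1) (y0' := c'.y0) (y1' := c'.y1) (α := 1 / 2 ^ 110) (β := 1 / 2 ^ 110)
    (fun l => pe l 1) (fun l => pe l (-1)) F1 F2 k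
  have h2 : ∀ n : ℤ, ∀ m : ℤ, |(n : ℝ) * (1 / 2 ^ 110) - (m : ℝ) * (1 / 2 ^ 110)| =
      (((n - m).natAbs : ℕ) : ℝ) / 2 ^ 110 := by
    intro n m
    rw [natAbs_cast, ← sub_mul, abs_mul, abs_of_pos (by positivity : (0 : ℝ) < 1 / 2 ^ 110)]
    push_cast
    ring
  have h3 : ∀ x : ℝ, x / 2 ^ 110 = x * (1 / 2 ^ 110) := fun x => by ring
  rw [h3 (pe (c.X k) 1), h3 (pe (c'.X k) (-1)), h3 (pe (c.Y k) 1), h3 (pe (c'.Y k) (-1))]
  refine le_trans h1 (le_of_eq ?_)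
  simp only [pe_one, pe_neg_one, h2]
  push_cast
  ring

theorem join_W (c c' : RPiece) (hh : 0 < c.h) (hh' : 0 < c'.h) (hH : 0 < c.H) (s : ℝ)
    (k : Fin 3) :
    ‖c.W s (s + 2 * c.H) k - c'.W (s + 2 * c.H) (s + 2 * c.H) k‖ ≤
      10 ^ 9 * (((psum (pd c.x0) * c'.h - palt (pd c'.x0) * c.h).natAbs +
      (psum (pd c.y0) * c'.h - palt (pd c'.y0) * c.h).natAbs +
      (psum (pd c.x1) * c'.h - palt (pd c'.x1) * c.h).natAbs +
      (psum (pd c.y1) * c'.h - palt (pd c'.y1) * c.h).natAbs : ℕ) : ℝ) /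
        (2 ^ 110 * (c.h : ℝ) * (c'.h : ℝ)) := by
  rw [right_W c hH, left_W]
  refine (norm_flat_sub_le _ _ _ _).trans ?_
  have hc : (0 : ℝ) < c.h := by exact_mod_cast hh
  have hc' : (0 : ℝ) < c'.h := by exact_mod_cast hh'
  have hHe : c.H = (c.h : ℝ) / 10 ^ 9 := rfl
  have hHe' : c'.H = (c'.h : ℝ) / 10 ^ 9 := rfl
  have h1 := three_le (x0 := c.x0) (x1 := c.x1) (x0' := c'.x0) (x1' := c'.x1) (y0 := c.y0)
    (y1 := c.y1) (y0' := c'.y0) (y1' := c'.y1) (α := 1 / (2 ^ 110 * c.H))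
    (β := 1 / (2 ^ 110 * c'.H))
    (fun l => pe (pd l) 1) (fun l => pe (pd l) (-1)) F3 F4 k
  have h2 : ∀ n : ℤ, ∀ m : ℤ, |(n : ℝ) * (1 / (2 ^ 110 * c.H)) - (m : ℝ) * (1 / (2 ^ 110 * c'.H))| =
      10 ^ 9 * (((n * c'.h - m * c.h).natAbs : ℕ) : ℝ) / (2 ^ 110 * (c.h : ℝ) * (c'.h : ℝ)) := by
    intro n m
    rw [natAbs_cast]
    have e1 : (n : ℝ) * (1 / (2 ^ 110 * c.H)) - (m : ℝ) * (1 / (2 ^ 110 * c'.H)) =
        10 ^ 9 / (2 ^ 110 * (c.h : ℝ) * (c'.h : ℝ)) * (((n * c'.h - m * c.h : ℤ)) : ℝ) := by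
      rw [hHe, hHe']
      push_cast
      field_simp
    rw [e1, abs_mul, abs_of_pos (by positivity)]
    ring
  have h3 : ∀ x : ℝ, x / (2 ^ 110 * c.H) = x * (1 / (2 ^ 110 * c.H)) := fun x => by ring
  have h4 : ∀ x : ℝ, x / (2 ^ 110 * c'.H) = x * (1 / (2 ^ 110 * c'.H)) := fun x => by ring
  rw [h3 (pe (pd (c.X k)) 1), h4 (pe (pd (c'.X k)) (-1)), h3 (pe (pd (c.Y k)) 1),
    h4 (pe (pd (c'.Y k)) (-1))]
  refine le_trans h1 (le_of_eq ?_)
  simp only [pe_one, pe_neg_one, h2]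
  push_cast
  ring

/-- transition of the error bounds to the next piece -/
theorem join_sem (c : RPiece) (e : StepD) (c' : RPiece) (e' : StepD)
    (h : okJoin c e c' e' = true) (hh : 0 < c.h) (hh' : 0 < c'.h) (hH : 0 < c.H) {s : ℝ}
    {Q V : Fin 3 → V3}
    (hQ : ∀ k, ‖Q k - c.P s (s + 2 * c.H) k‖ ≤
        ((e.a * 10 ^ 18 + 2 * c.h * e.b * 10 ^ 9 + 2 * c.h ^ 2 * stepC c e : ℕ) : ℝ) /
          (2 ^ 100 * 10 ^ 18))
    (hV : ∀ k, ‖V k - c.W s (s + 2 * c.H) k‖ ≤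
        ((e.b * 10 ^ 9 + 2 * c.h * stepC c e : ℕ) : ℝ) / (2 ^ 100 * 10 ^ 9)) :
    (∀ k, ‖Q k - c'.P (s + 2 * c.H) (s + 2 * c.H) k‖ ≤ (e'.a : ℝ) / 2 ^ 100) ∧
    (∀ k, ‖V k - c'.W (s + 2 * c.H) (s + 2 * c.H) k‖ ≤ (e'.b : ℝ) / 2 ^ 100) := by
  simp only [okJoin, Bool.and_eq_true, decide_eq_true_eq] at h
  obtain ⟨h1, h2⟩ := h
  have hc : (0 : ℝ) < c.h := by exact_mod_cast hh
  have hc' : (0 : ℝ) < c'.h := by exact_mod_cast hh'
  constructor
  · intro k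
    have h3 : Q k - c'.P (s + 2 * c.H) (s + 2 * c.H) k = (Q k - c.P s (s + 2 * c.H) k) +
        (c.P s (s + 2 * c.H) k - c'.P (s + 2 * c.H) (s + 2 * c.H) k) := by abel
    rw [h3]
    refine (norm_add_le _ _).trans ((add_le_add (hQ k) (join_P c c' hH s k)).trans ?_)
    set A := e.a * 10 ^ 18 + 2 * c.h * e.b * 10 ^ 9 + 2 * c.h ^ 2 * stepC c e
    set J := (psum c.x0 - palt c'.x0).natAbs + (psum c.y0 - palt c'.y0).natAbs +
      (psum c.x1 - palt c'.x1).natAbs + (psum c.y1 - palt c'.y1).natAbs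
    have h4 : (A : ℝ) * 2 ^ 10 + 10 ^ 18 * (J : ℝ) ≤ (e'.a : ℝ) * 10 ^ 18 * 2 ^ 10 := by
      exact_mod_cast h1
    have h5 : (A : ℝ) / (2 ^ 100 * 10 ^ 18) + (J : ℝ) / 2 ^ 110 =
        ((A : ℝ) * 2 ^ 10 + 10 ^ 18 * (J : ℝ)) / (2 ^ 110 * 10 ^ 18) := by
      field_simp
    rw [h5, div_le_div_iff₀ (by positivity) (by positivity)]
    calc ((A : ℝ) * 2 ^ 10 + 10 ^ 18 * (J : ℝ)) * 2 ^ 100
        ≤ ((e'.a : ℝ) * 10 ^ 18 * 2 ^ 10) * 2 ^ 100 := by gcongr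
      _ = (e'.a : ℝ) * (2 ^ 110 * 10 ^ 18) := by ring
  · intro k
    have h3 : V k - c'.W (s + 2 * c.H) (s + 2 * c.H) k = (V k - c.W s (s + 2 * c.H) k) +
        (c.W s (s + 2 * c.H) k - c'.W (s + 2 * c.H) (s + 2 * c.H) k) := by abel
    rw [h3]
    refine (norm_add_le _ _).trans ((add_le_add (hV k) (join_W c c' hh hh' hH s k)).trans ?_)
    set J := (psum (pd c.x0) * c'.h - palt (pd c'.x0) * c.h).natAbs +
      (psum (pd c.y0) * c'.h - palt (pd c'.y0) * c.h).natAbs +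
      (psum (pd c.x1) * c'.h - palt (pd c'.x1) * c.h).natAbs +
      (psum (pd c.y1) * c'.h - palt (pd c'.y1) * c.h).natAbs
    have h4 : (e.b : ℝ) * (2 ^ 10 * 10 ^ 9 * c.h * c'.h) +
        2 * c.h * (stepC c e : ℝ) * (2 ^ 10 * c.h * c'.h) + 10 ^ 18 * (J : ℝ) ≤
        (e'.b : ℝ) * (2 ^ 10 * 10 ^ 9 * c.h * c'.h) := by
      exact_mod_cast h2
    have h5 : ((e.b * 10 ^ 9 + 2 * c.h * stepC c e : ℕ) : ℝ) / (2 ^ 100 * 10 ^ 9) +
        10 ^ 9 * (J : ℝ) / (2 ^ 110 * (c.h : ℝ) * (c'.h : ℝ)) =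
        ((e.b : ℝ) * (2 ^ 10 * 10 ^ 9 * c.h * c'.h) +
        2 * c.h * (stepC c e : ℝ) * (2 ^ 10 * c.h * c'.h) + 10 ^ 18 * (J : ℝ)) /
        (2 ^ 110 * 10 ^ 9 * (c.h : ℝ) * (c'.h : ℝ)) := by
      push_cast
      field_simp
      ring
    rw [h5, div_le_div_iff₀ (by positivity) (by positivity)]
    calc _ ≤ ((e'.b : ℝ) * (2 ^ 10 * 10 ^ 9 * c.h * c'.h)) * 2 ^ 100 := by gcongr
      _ = (e'.b : ℝ) * (2 ^ 110 * 10 ^ 9 * (c.h : ℝ) * (c'.h : ℝ)) := by ring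

/-- the box at the end: one body -/
def okBox (c : RPiece) (A B : ℕ) (X Y wX wY px py wx wy : ℤ) : Bool :=
  decide (A * 2 ^ 10 + ((X * 10 ^ 5 - px * 2 ^ 110).natAbs + (Y * 10 ^ 5 - py * 2 ^ 110).natAbs) *
    10 ^ 13 ≤ 2 ^ 110 * (5 * 10 ^ 14)) &&
  decide (B * 2 ^ 10 * c.h + ((wX * 10 ^ 13 - wx * 2 ^ 110 * c.h).natAbs +
    (wY * 10 ^ 13 - wy * 2 ^ 110 * c.h).natAbs) * 10 ^ 5 ≤ 2 ^ 110 * c.h * (2 * 10 ^ 7))

/-- the box at the end -/
def okFin (c : RPiece) (e : StepD) : Bool :=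
  let A := e.a * 10 ^ 18 + 2 * c.h * e.b * 10 ^ 9 + 2 * c.h ^ 2 * stepC c e
  let B := e.b * 10 ^ 9 + 2 * c.h * stepC c e
  okBox c A B (psum c.x0) (psum c.y0) (psum (pd c.x0)) (psum (pd c.y0)) 43788 22779 18816 12703 &&
  okBox c A B (psum c.x1) (psum c.y1) (psum (pd c.x1)) (psum (pd c.y1)) (-26953) (-16085)
    (-13204) 9046 &&
  okBox c A B (-(psum c.x0 + psum c.x1)) (-(psum c.y0 + psum c.y1))
    (-(psum (pd c.x0) + psum (pd c.x1))) (-(psum (pd c.y0) + psum (pd c.y1))) (-16836) (-6695)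
    (-5613) (-21749)

theorem box_sem (c : RPiece) (hh : 0 < c.h) {A B : ℕ} {X Y wX wY px py wx wy : ℤ}
    (h : okBox c A B X Y wX wY px py wx wy = true) {q v : V3}
    (hq : ‖q - !₂[(X : ℝ) / 2 ^ 110, (Y : ℝ) / 2 ^ 110, 0]‖ ≤ (A : ℝ) / (2 ^ 100 * 10 ^ 18))
    (hv : ‖v - !₂[(wX : ℝ) / (2 ^ 110 * c.H), (wY : ℝ) / (2 ^ 110 * c.H), 0]‖ ≤
      (B : ℝ) / (2 ^ 100 * 10 ^ 9)) :
    ‖q - !₂[(px : ℝ) / 100000, (py : ℝ) / 100000, 0]‖ ≤ 1 / 2000 ∧
      ‖v - !₂[(wx : ℝ) / 10000, (wy : ℝ) / 10000, 0]‖ ≤ 1 / 50 := by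
  simp only [okBox, Bool.and_eq_true, decide_eq_true_eq] at h
  obtain ⟨h1, h2⟩ := h
  have hc : (0 : ℝ) < c.h := by exact_mod_cast hh
  have hHe : c.H = (c.h : ℝ) / 10 ^ 9 := rfl
  constructor
  · have e1 : q - !₂[(px : ℝ) / 100000, (py : ℝ) / 100000, 0] =
        (q - !₂[(X : ℝ) / 2 ^ 110, (Y : ℝ) / 2 ^ 110, 0]) +
        (!₂[(X : ℝ) / 2 ^ 110, (Y : ℝ) / 2 ^ 110, 0] -
          !₂[(px : ℝ) / 100000, (py : ℝ) / 100000, 0]) := by abel
    rw [e1]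
    refine (norm_add_le _ _).trans ((add_le_add hq (norm_flat_sub_le _ _ _ _)).trans ?_)
    have e2 : ∀ n m : ℤ, |(n : ℝ) / 2 ^ 110 - (m : ℝ) / 100000| =
        (((n * 10 ^ 5 - m * 2 ^ 110).natAbs : ℕ) : ℝ) / (2 ^ 110 * 10 ^ 5) := by
      intro n m
      rw [natAbs_cast]
      have e3 : (n : ℝ) / 2 ^ 110 - (m : ℝ) / 100000 =
          1 / (2 ^ 110 * 10 ^ 5) * (((n * 10 ^ 5 - m * 2 ^ 110 : ℤ)) : ℝ) := by
        push_cast
        ring
      rw [e3, abs_mul, abs_of_pos (by positivity)]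
      ring
    rw [e2, e2]
    have h3 : (A : ℝ) * 2 ^ 10 + ((((X * 10 ^ 5 - px * 2 ^ 110).natAbs : ℕ) : ℝ) +
        (((Y * 10 ^ 5 - py * 2 ^ 110).natAbs : ℕ) : ℝ)) * 10 ^ 13 ≤ 2 ^ 110 * (5 * 10 ^ 14) := by
      exact_mod_cast h1
    have h4 : (A : ℝ) / (2 ^ 100 * 10 ^ 18) +
        ((((X * 10 ^ 5 - px * 2 ^ 110).natAbs : ℕ) : ℝ) / (2 ^ 110 * 10 ^ 5) +
        (((Y * 10 ^ 5 - py * 2 ^ 110).natAbs : ℕ) : ℝ) / (2 ^ 110 * 10 ^ 5)) =
        ((A : ℝ) * 2 ^ 10 + ((((X * 10 ^ 5 - px * 2 ^ 110).natAbs : ℕ) : ℝ) +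
        (((Y * 10 ^ 5 - py * 2 ^ 110).natAbs : ℕ) : ℝ)) * 10 ^ 13) / (2 ^ 110 * 10 ^ 18) := by
      ring
    rw [h4, div_le_div_iff₀ (by positivity) (by positivity)]
    calc _ ≤ (2 ^ 110 * (5 * 10 ^ 14) : ℝ) * 2000 := by gcongr
      _ = 1 * (2 ^ 110 * 10 ^ 18) := by ring
  · have e1 : v - !₂[(wx : ℝ) / 10000, (wy : ℝ) / 10000, 0] =
        (v - !₂[(wX : ℝ) / (2 ^ 110 * c.H), (wY : ℝ) / (2 ^ 110 * c.H), 0]) +
        (!₂[(wX : ℝ) / (2 ^ 110 * c.H), (wY : ℝ) / (2 ^ 110 * c.H), 0] -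
          !₂[(wx : ℝ) / 10000, (wy : ℝ) / 10000, 0]) := by abel
    rw [e1]
    refine (norm_add_le _ _).trans ((add_le_add hv (norm_flat_sub_le _ _ _ _)).trans ?_)
    have e2 : ∀ n m : ℤ, |(n : ℝ) / (2 ^ 110 * c.H) - (m : ℝ) / 10000| =
        (((n * 10 ^ 13 - m * 2 ^ 110 * c.h).natAbs : ℕ) : ℝ) / (2 ^ 110 * c.h * 10 ^ 4) := by
      intro n m
      rw [natAbs_cast]
      have e3 : (n : ℝ) / (2 ^ 110 * c.H) - (m : ℝ) / 10000 =
          1 / (2 ^ 110 * c.h * 10 ^ 4) * (((n * 10 ^ 13 - m * 2 ^ 110 * c.h : ℤ)) : ℝ) := by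
        rw [hHe]
        push_cast
        field_simp
        ring
      rw [e3, abs_mul, abs_of_pos (by positivity)]
      ring
    rw [e2, e2]
    have h3 : (B : ℝ) * 2 ^ 10 * c.h + ((((wX * 10 ^ 13 - wx * 2 ^ 110 * c.h).natAbs : ℕ) : ℝ) +
        (((wY * 10 ^ 13 - wy * 2 ^ 110 * c.h).natAbs : ℕ) : ℝ)) * 10 ^ 5 ≤
        2 ^ 110 * c.h * (2 * 10 ^ 7) := by
      exact_mod_cast h2
    have h4 : (B : ℝ) / (2 ^ 100 * 10 ^ 9) +
        ((((wX * 10 ^ 13 - wx * 2 ^ 110 * c.h).natAbs : ℕ) : ℝ) / (2 ^ 110 * c.h * 10 ^ 4) +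
        (((wY * 10 ^ 13 - wy * 2 ^ 110 * c.h).natAbs : ℕ) : ℝ) / (2 ^ 110 * c.h * 10 ^ 4)) =
        ((B : ℝ) * 2 ^ 10 * c.h + ((((wX * 10 ^ 13 - wx * 2 ^ 110 * c.h).natAbs : ℕ) : ℝ) +
        (((wY * 10 ^ 13 - wy * 2 ^ 110 * c.h).natAbs : ℕ) : ℝ)) * 10 ^ 5) /
          (2 ^ 110 * 10 ^ 9 * c.h) := by
      field_simp
    rw [h4, div_le_div_iff₀ (by positivity) (by positivity)]
    calc _ ≤ (2 ^ 110 * c.h * (2 * 10 ^ 7) : ℝ) * 50 := by gcongr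
      _ = 1 * (2 ^ 110 * 10 ^ 9 * c.h) := by ring

theorem fin_sem (c : RPiece) (e : StepD) (h : okFin c e = true) (hh : 0 < c.h) (hH : 0 < c.H)
    {s : ℝ} {Q V : Fin 3 → V3}
    (hQ : ∀ k, ‖Q k - c.P s (s + 2 * c.H) k‖ ≤
        ((e.a * 10 ^ 18 + 2 * c.h * e.b * 10 ^ 9 + 2 * c.h ^ 2 * stepC c e : ℕ) : ℝ) /
          (2 ^ 100 * 10 ^ 18))
    (hV : ∀ k, ‖V k - c.W s (s + 2 * c.H) k‖ ≤
        ((e.b * 10 ^ 9 + 2 * c.h * stepC c e : ℕ) : ℝ) / (2 ^ 100 * 10 ^ 9)) (k : Fin 3) :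
    ‖Q k - gunP k‖ ≤ 1 / 2000 ∧ ‖V k - gunW k‖ ≤ 1 / 50 := by
  simp only [okFin, Bool.and_eq_true] at h
  obtain ⟨⟨h0, h1⟩, h2⟩ := h
  have hQk := hQ k
  have hVk := hV k
  rw [right_P c hH] at hQk
  rw [right_W c hH] at hVk
  fin_cases k
  · have := box_sem c hh h0 (q := Q 0) (v := V 0) (by
      simpa [RPiece.X, RPiece.Y, pe_one] using hQk) (by
      simpa [RPiece.X, RPiece.Y, pe_one] using hVk)
    simpa [gunP, gunW] using this
  · have := box_sem c hh h1 (q := Q 1) (v := V 1) (by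
      simpa [RPiece.X, RPiece.Y, pe_one] using hQk) (by
      simpa [RPiece.X, RPiece.Y, pe_one] using hVk)
    simpa [gunP, gunW] using this
  · have f1 : pe (c.X 2) 1 = ((-(psum c.x0 + psum c.x1) : ℤ) : ℝ) := by
      have h5 : pe (c.X 2) 1 = -(pe c.x0 1 + pe c.x1 1) := F1 c.x0 c.x1
      rw [h5, pe_one, pe_one]
      push_cast
      ring
    have f2 : pe (c.Y 2) 1 = ((-(psum c.y0 + psum c.y1) : ℤ) : ℝ) := by
      have h5 : pe (c.Y 2) 1 = -(pe c.y0 1 + pe c.y1 1) := F1 c.y0 c.y1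
      rw [h5, pe_one, pe_one]
      push_cast
      ring
    have f3 : pe (pd (c.X 2)) 1 = ((-(psum (pd c.x0) + psum (pd c.x1)) : ℤ) : ℝ) := by
      have h5 : pe (pd (c.X 2)) 1 = -(pe (pd c.x0) 1 + pe (pd c.x1) 1) := F3 c.x0 c.x1
      rw [h5, pe_one, pe_one]
      push_cast
      ring
    have f4 : pe (pd (c.Y 2)) 1 = ((-(psum (pd c.y0) + psum (pd c.y1)) : ℤ) : ℝ) := by
      have h5 : pe (pd (c.Y 2)) 1 = -(pe (pd c.y0) 1 + pe (pd c.y1) 1) := F3 c.y0 c.y1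
      rw [h5, pe_one, pe_one]
      push_cast
      ring
    have hQ2 := hQ 2
    have hV2 := hV 2
    rw [right_P c hH, f1, f2] at hQ2
    rw [right_W c hH, f3, f4] at hV2
    have := box_sem c hh h2 (q := Q 2) (v := V 2) hQ2 hV2
    simpa [gunP, gunW] using this

/-- the start: one coordinate pair -/
def okPt (c : RPiece) (e : StepD) (X Y wX wY sx sy : ℤ) : Bool :=
  decide ((X * 30000 - sx * 2 ^ 110).natAbs + (Y * 30000 - sy * 2 ^ 110).natAbs ≤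
    e.a * 2 ^ 10 * 30000) &&
  decide ((wX.natAbs + wY.natAbs) * 10 ^ 9 ≤ e.b * 2 ^ 10 * c.h)

/-- the start -/
def okInit (c : RPiece) (e : StepD) : Bool :=
  okPt c e (palt c.x0) (palt c.y0) (palt (pd c.x0)) (palt (pd c.y0)) (-15217) (-5900) &&
  okPt c e (palt c.x1) (palt c.y1) (palt (pd c.x1)) (palt (pd c.y1)) 14783 (-5900) &&
  okPt c e (-(palt c.x0 + palt c.x1)) (-(palt c.y0 + palt c.y1))
    (-(palt (pd c.x0) + palt (pd c.x1))) (-(palt (pd c.y0) + palt (pd c.y1))) 434 11800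

theorem pt_sem (c : RPiece) (e : StepD) (hh : 0 < c.h) {X Y wX wY sx sy : ℤ}
    (h : okPt c e X Y wX wY sx sy = true) :
    ‖(!₂[(sx : ℝ) / 30000, (sy : ℝ) / 30000, 0] : V3) - !₂[(X : ℝ) / 2 ^ 110, (Y : ℝ) / 2 ^ 110, 0]‖ ≤
      (e.a : ℝ) / 2 ^ 100 ∧
    ‖(0 : V3) - !₂[(wX : ℝ) / (2 ^ 110 * c.H), (wY : ℝ) / (2 ^ 110 * c.H), 0]‖ ≤
      (e.b : ℝ) / 2 ^ 100 := by
  simp only [okPt, Bool.and_eq_true, decide_eq_true_eq] at h
  obtain ⟨h1, h2⟩ := h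
  have hc : (0 : ℝ) < c.h := by exact_mod_cast hh
  have hHe : c.H = (c.h : ℝ) / 10 ^ 9 := rfl
  constructor
  · refine (norm_flat_sub_le _ _ _ _).trans ?_
    have e2 : ∀ n m : ℤ, |(m : ℝ) / 30000 - (n : ℝ) / 2 ^ 110| =
        (((n * 30000 - m * 2 ^ 110).natAbs : ℕ) : ℝ) / (2 ^ 110 * 30000) := by
      intro n m
      rw [natAbs_cast, abs_sub_comm]
      have e3 : (n : ℝ) / 2 ^ 110 - (m : ℝ) / 30000 =
          1 / (2 ^ 110 * 30000) * (((n * 30000 - m * 2 ^ 110 : ℤ)) : ℝ) := by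
        push_cast
        ring
      rw [e3, abs_mul, abs_of_pos (by positivity)]
      ring
    rw [e2, e2]
    have h3 : (((X * 30000 - sx * 2 ^ 110).natAbs : ℕ) : ℝ) +
        (((Y * 30000 - sy * 2 ^ 110).natAbs : ℕ) : ℝ) ≤ (e.a : ℝ) * 2 ^ 10 * 30000 := by
      exact_mod_cast h1
    rw [← add_div, div_le_div_iff₀ (by positivity) (by positivity)]
    calc _ ≤ ((e.a : ℝ) * 2 ^ 10 * 30000) * 2 ^ 100 := by gcongr
      _ = (e.a : ℝ) * (2 ^ 110 * 30000) := by ring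
  · have e0 : (0 : V3) = !₂[(0 : ℝ), 0, 0] := by
      ext i
      fin_cases i <;> simp
    rw [e0]
    refine (norm_flat_sub_le _ _ _ _).trans ?_
    have e2 : ∀ n : ℤ, |(0 : ℝ) - (n : ℝ) / (2 ^ 110 * c.H)| =
        ((n.natAbs : ℕ) : ℝ) * 10 ^ 9 / (2 ^ 110 * c.h) := by
      intro n
      rw [natAbs_cast, abs_sub_comm, sub_zero]
      have e3 : (n : ℝ) / (2 ^ 110 * c.H) = 10 ^ 9 / (2 ^ 110 * c.h) * (n : ℝ) := by
        rw [hHe]
        field_simp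
      rw [e3, abs_mul, abs_of_pos (by positivity)]
      ring
    rw [e2, e2]
    have h3 : (((wX.natAbs : ℕ) : ℝ) + ((wY.natAbs : ℕ) : ℝ)) * 10 ^ 9 ≤
        (e.b : ℝ) * 2 ^ 10 * c.h := by
      exact_mod_cast h2
    rw [← add_div, div_le_div_iff₀ (by positivity) (by positivity), ← add_mul]
    calc _ ≤ ((e.b : ℝ) * 2 ^ 10 * c.h) * 2 ^ 100 := by gcongr
      _ = (e.b : ℝ) * (2 ^ 110 * c.h) := by ring

theorem init_sem (c : RPiece) (e : StepD) (hh : 0 < c.h) (h : okInit c e = true) (k : Fin 3) :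
    ‖gunS k - c.P 0 0 k‖ ≤ (e.a : ℝ) / 2 ^ 100 ∧ ‖(0 : V3) - c.W 0 0 k‖ ≤ (e.b : ℝ) / 2 ^ 100 := by
  simp only [okInit, Bool.and_eq_true] at h
  obtain ⟨⟨h0, h1⟩, h2⟩ := h
  rw [left_P, left_W]
  have key : ∀ (sx sy X Y wX wY : ℤ) (k : Fin 3), okPt c e X Y wX wY sx sy = true →
      gunS k = !₂[(sx : ℝ) / 30000, (sy : ℝ) / 30000, 0] → pe (c.X k) (-1) = (X : ℝ) →
      pe (c.Y k) (-1) = (Y : ℝ) → pe (pd (c.X k)) (-1) = (wX : ℝ) →
      pe (pd (c.Y k)) (-1) = (wY : ℝ) →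
      ‖gunS k - !₂[pe (c.X k) (-1) / 2 ^ 110, pe (c.Y k) (-1) / 2 ^ 110, 0]‖ ≤
        (e.a : ℝ) / 2 ^ 100 ∧
      ‖(0 : V3) - !₂[pe (pd (c.X k)) (-1) / (2 ^ 110 * c.H),
        pe (pd (c.Y k)) (-1) / (2 ^ 110 * c.H), 0]‖ ≤ (e.b : ℝ) / 2 ^ 100 := by
    intro sx sy X Y wX wY k hk g1 g2 g3 g4 g5
    rw [g1, g2, g3, g4, g5]
    exact pt_sem c e hh hk
  fin_cases k
  · refine key (-15217) (-5900) _ _ _ _ 0 h0 ?_ (pe_neg_one c.x0) (pe_neg_one c.y0)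
      (pe_neg_one (pd c.x0)) (pe_neg_one (pd c.y0))
    simp only [gunS, Matrix.cons_val_zero]
    push_cast
    norm_num
  · refine key 14783 (-5900) _ _ _ _ 1 h1 ?_ (pe_neg_one c.x1) (pe_neg_one c.y1)
      (pe_neg_one (pd c.x1)) (pe_neg_one (pd c.y1))
    simp only [gunS, Matrix.cons_val_one, Matrix.cons_val_zero]
    push_cast
    norm_num
  · refine key 434 11800 _ _ _ _ 2 h2 ?_ ?_ ?_ ?_ ?_
    · simp only [gunS, Matrix.cons_val]
      push_cast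
      norm_num
    · have h5 : pe (c.X 2) (-1) = -(pe c.x0 (-1) + pe c.x1 (-1)) := F2 c.x0 c.x1
      rw [h5, pe_neg_one, pe_neg_one]
      push_cast
      ring
    · have h5 : pe (c.Y 2) (-1) = -(pe c.y0 (-1) + pe c.y1 (-1)) := F2 c.y0 c.y1
      rw [h5, pe_neg_one, pe_neg_one]
      push_cast
      ring
    · have h5 : pe (pd (c.X 2)) (-1) = -(pe (pd c.x0) (-1) + pe (pd c.x1) (-1)) := F4 c.x0 c.x1
      rw [h5, pe_neg_one, pe_neg_one]
      push_cast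
      ring
    · have h5 : pe (pd (c.Y 2)) (-1) = -(pe (pd c.y0) (-1) + pe (pd c.y1) (-1)) := F4 c.y0 c.y1
      rw [h5, pe_neg_one, pe_neg_one]
      push_cast
      ring

/-- the whole chain -/
def okChain : RPiece → StepD → List (RPiece × StepD) → Bool
  | c, e, [] => okStep c e && okFin c e
  | c, e, p :: l => okStep c e && okJoin c e p.1 p.2 && okChain p.1 p.2 l

/-- total half length -/
def lenN : RPiece → List (RPiece × StepD) → ℕ
  | c, [] => c.h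
  | c, p :: l => c.h + lenN p.1 l

theorem chain_sem {T : ℝ} {f Q V : ℝ → Fin 3 → V3} (hsol : IsSol 1 T f Q V) {η : ℝ}
    (hη : η ≤ 1 / 2 ^ 80) (hf : ∀ t ∈ Icc (0 : ℝ) T, ∀ k, ‖f t k‖ ≤ η) :
    ∀ (l : List (RPiece × StepD)) (c : RPiece) (e : StepD) (s : ℝ), okChain c e l = true →
      c.check = true → (∀ p ∈ l, p.1.check = true) → 0 ≤ s →
      (s ≤ T → ∀ k, ‖Q s k - c.P s s k‖ ≤ (e.a : ℝ) / 2 ^ 100) →
      (s ≤ T → ∀ k, ‖V s k - c.W s s k‖ ≤ (e.b : ℝ) / 2 ^ 100) →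
      s + 2 * ((lenN c l : ℝ) / 10 ^ 9) = gunT →
      ∀ t ∈ Icc s gunT, t ≤ T →
        (∀ k l, k ≠ l → 1 / 30 ≤ ‖Q t k - Q t l‖) ∧ (∀ k, ‖Q t k‖ ≤ 1) ∧ (∀ k, ‖V t k‖ ≤ 20) ∧
        (t = gunT → ∀ k, ‖Q t k - gunP k‖ ≤ 1 / 2000 ∧ ‖V t k - gunW k‖ ≤ 1 / 50) := by
  intro l
  induction l with
  | nil =>
      intro c e s hok hc _ hs ha hb hlen t ht htT
      simp only [okChain, Bool.and_eq_true] at hok
      obtain ⟨h1, h2⟩ := hok
      have hstep := step_sem hsol hη hf c e hc h1 hs ha hb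
      have hH : 0 < c.H := (c.ok hc s).1
      have hh : 0 < c.h := by
        by_contra h
        have h0 : c.h = 0 := Nat.eq_zero_of_not_pos h
        have h3 : c.H = (c.h : ℝ) / 10 ^ 9 := rfl
        rw [h3, h0] at hH
        norm_num at hH
      have hend : s + 2 * c.H = gunT := by
        rw [← hlen]
        rfl
      rw [hend] at hstep
      obtain ⟨g1, g2, g3⟩ := hstep.1 t ht htT
      refine ⟨g1, g2, g3, fun hte k => ?_⟩
      have h3 := hstep.2 (hte ▸ htT)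
      rw [← hend] at h3
      have h4 := fin_sem c e h2 hh hH (s := s) (Q := Q (s + 2 * c.H)) (V := V (s + 2 * c.H))
        (fun k => (h3 k).1) (fun k => (h3 k).2) k
      rw [hend] at h4
      rw [hte]
      exact h4
  | cons p l ih =>
      intro c e s hok hc hl hs ha hb hlen t ht htT
      simp only [okChain, Bool.and_eq_true] at hok
      obtain ⟨⟨h1, h2⟩, h3⟩ := hok
      have hstep := step_sem hsol hη hf c e hc h1 hs ha hb
      have hH : 0 < c.H := (c.ok hc s).1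
      have hH' : 0 < p.1.H := (p.1.ok (hl p (by simp)) s).1
      have hpos : ∀ d : RPiece, 0 < d.H → 0 < d.h := by
        intro d hd
        by_contra h
        have h0 : d.h = 0 := Nat.eq_zero_of_not_pos h
        have h3 : d.H = (d.h : ℝ) / 10 ^ 9 := rfl
        rw [h3, h0] at hd
        norm_num at hd
      have hjoin : s + 2 * c.H ≤ T →
          (∀ k, ‖Q (s + 2 * c.H) k - p.1.P (s + 2 * c.H) (s + 2 * c.H) k‖ ≤
            (p.2.a : ℝ) / 2 ^ 100) ∧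
          (∀ k, ‖V (s + 2 * c.H) k - p.1.W (s + 2 * c.H) (s + 2 * c.H) k‖ ≤
            (p.2.b : ℝ) / 2 ^ 100) := by
        intro hT
        have h4 := hstep.2 hT
        exact join_sem c e p.1 p.2 h2 (hpos c hH) (hpos p.1 hH') hH
          (Q := Q (s + 2 * c.H)) (V := V (s + 2 * c.H))
          (fun k => (h4 k).1) (fun k => (h4 k).2)
      by_cases hts : t ≤ s + 2 * c.H
      · obtain ⟨g1, g2, g3⟩ := hstep.1 t ⟨ht.1, hts⟩ htT
        by_cases hte : t = gunT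
        · -- then the next pieces give the result
          have hle : s + 2 * c.H ≤ gunT := by
            rw [← hlen]
            have h5 : c.H = (c.h : ℝ) / 10 ^ 9 := rfl
            have h6 : (lenN c (p :: l) : ℝ) = (c.h : ℝ) + (lenN p.1 l : ℝ) := by
              simp [lenN]
            rw [h5, h6]
            have h7 : (0 : ℝ) ≤ (lenN p.1 l : ℝ) := Nat.cast_nonneg _
            have h8 : ((c.h : ℝ) + (lenN p.1 l : ℝ)) / 10 ^ 9 =
              (c.h : ℝ) / 10 ^ 9 + (lenN p.1 l : ℝ) / 10 ^ 9 := by ring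
            rw [h8]
            have h9 : 0 ≤ (lenN p.1 l : ℝ) / 10 ^ 9 := by positivity
            linarith
          have hteq : s + 2 * c.H = t := by
            rw [hte] at hts ⊢
            exact le_antisymm hle hts
          have hT : s + 2 * c.H ≤ T := by
            rw [hteq]
            exact htT
          refine ih p.1 p.2 (s + 2 * c.H) h3 (hl p (by simp)) (fun q hq => hl q (by simp [hq]))
            (by linarith) (fun h => (hjoin h).1) (fun h => (hjoin h).2) ?_ t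
            ⟨hteq.le, ht.2⟩ htT
          rw [← hlen]
          have h5 : c.H = (c.h : ℝ) / 10 ^ 9 := rfl
          have h6 : (lenN c (p :: l) : ℝ) = (c.h : ℝ) + (lenN p.1 l : ℝ) := by
            simp [lenN]
          rw [h5, h6]
          ring
        · exact ⟨g1, g2, g3, fun h => absurd h hte⟩
      · have hts' : s + 2 * c.H ≤ t := (not_le.mp hts).le
        have hT : s + 2 * c.H ≤ T := hts'.trans htT
        refine ih p.1 p.2 (s + 2 * c.H) h3 (hl p (by simp)) (fun q hq => hl q (by simp [hq]))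
          (by linarith) (fun h => (hjoin h).1) (fun h => (hjoin h).2) ?_ t ⟨hts', ht.2⟩ htT
        rw [← hlen]
        have h5 : c.H = (c.h : ℝ) / 10 ^ 9 := rfl
        have h6 : (lenN c (p :: l) : ℝ) = (c.h : ℝ) + (lenN p.1 l : ℝ) := by
          simp [lenN]
        rw [h5, h6]
        ring

/-- The enclosure of the gun follows from a checked chain. -/
theorem gunEnc_of (c : RPiece) (e : StepD) (l : List (RPiece × StepD))
    (h0 : okInit c e = true) (h1 : okChain c e l = true) (hc : c.check = true)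
    (hl : ∀ p ∈ l, p.1.check = true) (hlen : lenN c l = 340000000) : GunEnc := by
  refine ⟨1 / 2 ^ 80, by positivity, ?_⟩
  intro T η hT hη0 hη f Q V hsol hf hQ0 hV0 t ht htT
  have hH : 0 < c.H := (c.ok hc 0).1
  have hh : 0 < c.h := by
    by_contra h
    have h0 : c.h = 0 := Nat.eq_zero_of_not_pos h
    have h3 : c.H = (c.h : ℝ) / 10 ^ 9 := rfl
    rw [h3, h0] at hH
    norm_num at hH
  refine chain_sem hsol hη hf l c e 0 h1 hc hl le_rfl (fun _ k => ?_) (fun _ k => ?_) ?_ t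
    ⟨ht.1, htT⟩ ht.2
  · rw [hQ0 k]
    exact (init_sem c e hh h0 k).1
  · rw [hV0 k]
    exact (init_sem c e hh h0 k).2
  · rw [hlen, gunT]
    norm_num

end Pool.Agent.NBody.RC
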