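import Mathlib
import Pool.Agent.NBody.ThGroup
import Pool.Agent.NBody.ThPrepM

/-!
Type II: a state with a very distant body.  The group of the distant bodies gets a small boost, the
energy is absorbed by one tight pair.
-/

set_option autoImplicit false
open scoped RealInnerProductSpace
open Set Finset Filter Topology

namespace Pool.Agent.NBody

/-- Kicks with equal momenta: the velocities change little, the momentum does not change, and the
kinetic energy grows. -/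
theorem t2_kick {N : ℕ} {m : Fin N → ℝ} (hm : ∀ i, 0 < m i) {μ : ℝ} (hμ0 : 0 < μ)
    (hμ : ∀ i, m i ≤ μ) (u : Fin N → V3) {ε p : ℝ} (hε : 0 ≤ ε) (hp : 0 ≤ p) (H : Finset (Fin N))
    (hH : ∀ i ∈ H, p ≤ m i * ε) :
    ∃ v : Fin N → V3, (∀ j, ‖v j - u j‖ ≤ ε) ∧ ∑ i, m i • v i = ∑ i, m i • u i ∧
      ∑ i, m i * ‖u i‖ ^ 2 + p ^ 2 / μ * ((H.card : ℝ) - 1) ≤ ∑ i, m i * ‖v i‖ ^ 2 := by
  classical
  obtain ⟨e, he⟩ : ∃ e : V3, e = e3 := ⟨_, rfl⟩
  have hen : ‖e‖ = 1 := by rw [he]; exact norm_e3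
  obtain ⟨σ₀, hσ₀1, hσ₀0, hσ₀x, hσ₀2⟩ := exists_signs H (fun i => ⟪u i, e⟫)
  obtain ⟨σ, hσ⟩ : ∃ σ : Fin N → ℝ, σ = fun i => if i ∈ H then σ₀ i else 0 := ⟨_, rfl⟩
  have hsumσ : ∀ F : Fin N → ℝ → ℝ, (∀ i, F i 0 = 0) →
      ∑ i, F i (σ i) = ∑ i ∈ H, F i (σ₀ i) := by
    intro F hF
    have h1 : ∑ i ∈ H, F i (σ₀ i) = ∑ i ∈ H, F i (σ i) := by
      apply Finset.sum_congr rfl
      intro i hi
      rw [hσ]
      simp only
      rw [if_pos hi]
    rw [h1]
    symm
    apply Finset.sum_subset (Finset.subset_univ _)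
    intro i _ hni
    rw [hσ]
    simp only
    rw [if_neg hni, hF]
  refine ⟨fun j => u j + (p * σ j / m j) • e, ?_, ?_, ?_⟩
  · intro j
    have hmj := hm j
    rw [add_sub_cancel_left, norm_smul, hen, mul_one, Real.norm_eq_abs, abs_div,
      abs_of_pos hmj, abs_mul, abs_of_nonneg hp, div_le_iff₀ hmj]
    by_cases hjH : j ∈ H
    · have h1 : |σ j| ≤ 1 := by
        rw [hσ]
        simp only
        rw [if_pos hjH]
        exact hσ₀1 j
      have h2 := hH j hjH
      nlinarith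
    · have h1 : σ j = 0 := by
        rw [hσ]
        simp only
        rw [if_neg hjH]
      rw [h1, abs_zero, mul_zero]
      positivity
  · have h2 : ∀ j, m j • (u j + (p * σ j / m j) • e) = m j • u j + (p * σ j) • e := by
      intro j
      have hmj := (hm j).ne'
      rw [smul_add, smul_smul]
      congr 2
      field_simp
    rw [Finset.sum_congr rfl (fun j _ => h2 j), Finset.sum_add_distrib, ← Finset.sum_smul,
      ← Finset.mul_sum, hsumσ (fun _ y => y) (fun _ => rfl), hσ₀0, mul_zero, zero_smul, add_zero]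
  · have h1 : ∀ j, m j * ‖u j + (p * σ j / m j) • e‖ ^ 2 =
        m j * ‖u j‖ ^ 2 + (2 * p * (σ j * ⟪u j, e⟫) + p ^ 2 * (σ j ^ 2 / m j)) := by
      intro j
      have hmj := (hm j).ne'
      rw [@norm_add_sq_real, inner_smul_right, norm_smul, hen, mul_one,
        Real.norm_eq_abs, sq_abs]
      field_simp
      ring
    rw [Finset.sum_congr rfl (fun j _ => h1 j), Finset.sum_add_distrib, Finset.sum_add_distrib,
      ← Finset.mul_sum, ← Finset.mul_sum, hsumσ (fun i y => y * ⟪u i, e⟫) (fun _ => zero_mul _),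
      hsumσ (fun i y => y ^ 2 / m i) (fun _ => by simp)]
    have h5 : 0 ≤ 2 * p * ∑ j ∈ H, σ₀ j * ⟪u j, e⟫ := mul_nonneg (by linarith) hσ₀x
    have h6 : p ^ 2 / μ * ((H.card : ℝ) - 1) ≤ p ^ 2 * ∑ j ∈ H, σ₀ j ^ 2 / m j := by
      have h7 : ∑ j ∈ H, σ₀ j ^ 2 / μ ≤ ∑ j ∈ H, σ₀ j ^ 2 / m j := by
        apply Finset.sum_le_sum
        intro j _
        exact div_le_div_of_nonneg_left (by positivity) (hm j) (hμ j)
      have h8 : p ^ 2 / μ * ((H.card : ℝ) - 1) ≤ p ^ 2 / μ * ∑ j ∈ H, σ₀ j ^ 2 :=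
        mul_le_mul_of_nonneg_left hσ₀2 (by positivity)
      rw [← Finset.sum_div] at h7
      calc p ^ 2 / μ * ((H.card : ℝ) - 1) ≤ p ^ 2 / μ * ∑ j ∈ H, σ₀ j ^ 2 := h8
        _ = p ^ 2 * ((∑ j ∈ H, σ₀ j ^ 2) / μ) := by ring
        _ ≤ _ := mul_le_mul_of_nonneg_left h7 (by positivity)
    linarith

/-- The boost of a group against the other bodies, in the direction in which it moves. -/
theorem t2_boost {N : ℕ} {m : Fin N → ℝ} (hm : ∀ i, 0 < m i) (A : Finset (Fin N))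
    (hA0 : 0 < ∑ i ∈ A, m i) (hA : ∑ i ∈ A, m i ≤ 5 * ∑ i ∈ Aᶜ, m i) (v₁ : Fin N → V3)
    (hmom : ∑ i, m i • v₁ i = 0) {e : V3} (he : ‖e‖ = 1) {u : ℝ} (hu : 0 ≤ u) :
    ∃ v₂ : Fin N → V3, (∀ i, ‖v₂ i - v₁ i‖ ≤ 5 * u) ∧ ∑ i, m i • v₂ i = 0 ∧
      ∑ i, m i * ‖v₁ i‖ ^ 2 ≤ ∑ i, m i * ‖v₂ i‖ ^ 2 ∧
      (∑ i ∈ A, m i) * u ≤ |∑ i ∈ A, m i * ⟪v₂ i, e⟫| := by
  classical
  obtain ⟨M, hM⟩ : ∃ M, M = ∑ i ∈ A, m i := ⟨_, rfl⟩
  obtain ⟨M', hM'⟩ : ∃ M', M' = ∑ i ∈ Aᶜ, m i := ⟨_, rfl⟩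
  rw [← hM] at hA hA0 ⊢
  rw [← hM'] at hA
  have hM'0 : 0 < M' := by linarith
  obtain ⟨P, hP⟩ : ∃ P, P = ∑ i ∈ A, m i * ⟪v₁ i, e⟫ := ⟨_, rfl⟩
  have hP' : ∑ i ∈ Aᶜ, m i * ⟪v₁ i, e⟫ = -P := by
    have h1 : ∑ i, m i * ⟪v₁ i, e⟫ = 0 := by
      have h2 : ∑ i, m i * ⟪v₁ i, e⟫ = ⟪∑ i, m i • v₁ i, e⟫ := by
        rw [sum_inner]
        exact Finset.sum_congr rfl (fun i _ => (real_inner_smul_left _ _ _).symm)
      rw [h2, hmom, inner_zero_left]
    rw [← Finset.sum_add_sum_compl A, ← hP] at h1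
    linarith
  obtain ⟨σ, hσ1, hσP⟩ : ∃ σ : ℝ, |σ| = 1 ∧ σ * P = |P| := by
    rcases le_total 0 P with h | h
    · exact ⟨1, by simp, by rw [one_mul, abs_of_nonneg h]⟩
    · exact ⟨-1, by simp, by rw [abs_of_nonpos h]; ring⟩
  have hσ2 : σ ^ 2 = 1 := by rw [← sq_abs, hσ1]; norm_num
  obtain ⟨c, hc⟩ : ∃ c : Fin N → ℝ, c = fun i => if i ∈ A then σ * u else -(σ * u * (M / M')) :=
    ⟨_, rfl⟩
  have hcA : ∀ i ∈ A, c i = σ * u := fun i hi => by rw [hc]; simp only; rw [if_pos hi]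
  have hcA' : ∀ i ∈ Aᶜ, c i = -(σ * u * (M / M')) := fun i hi => by
    rw [hc]; simp only; rw [if_neg (Finset.mem_compl.mp hi)]
  have hrat : M / M' ≤ 5 := by
    rw [div_le_iff₀ hM'0]
    exact hA
  have hrat0 : 0 ≤ M / M' := by positivity
  refine ⟨fun i => v₁ i + c i • e, ?_, ?_, ?_, ?_⟩
  · intro i
    rw [add_sub_cancel_left, norm_smul, he, mul_one, Real.norm_eq_abs]
    by_cases hi : i ∈ A
    · rw [hcA i hi, abs_mul, hσ1, one_mul, abs_of_nonneg hu]
      linarith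
    · rw [hcA' i (Finset.mem_compl.mpr hi), abs_neg, abs_mul, abs_mul, hσ1, one_mul,
        abs_of_nonneg hu, abs_of_nonneg hrat0, mul_comm]
      exact mul_le_mul_of_nonneg_right hrat hu
  · have h1 : ∀ i, m i • (v₁ i + c i • e) = m i • v₁ i + (m i * c i) • e := fun i => by
      rw [smul_add, smul_smul]
    rw [Finset.sum_congr rfl (fun i _ => h1 i), Finset.sum_add_distrib, hmom, zero_add,
      ← Finset.sum_smul]
    have h2 : ∑ i, m i * c i = 0 := by
      rw [← Finset.sum_add_sum_compl A, Finset.sum_congr rfl (fun i hi => by rw [hcA i hi]),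
        Finset.sum_congr (s₁ := Aᶜ) rfl (fun i hi => by rw [hcA' i hi]), ← Finset.sum_mul,
        ← Finset.sum_mul, ← hM, ← hM']
      field_simp
      ring
    rw [h2, zero_smul]
  · have h1 : ∀ i, m i * ‖v₁ i + c i • e‖ ^ 2 =
        m i * ‖v₁ i‖ ^ 2 + (2 * (m i * ⟪v₁ i, e⟫ * c i) + m i * c i ^ 2) := by
      intro i
      rw [@norm_add_sq_real, inner_smul_right, norm_smul, he, mul_one, Real.norm_eq_abs, sq_abs]
      ring
    rw [Finset.sum_congr rfl (fun i _ => h1 i), Finset.sum_add_distrib, Finset.sum_add_distrib,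
      ← Finset.mul_sum]
    have h2 : ∑ i, m i * ⟪v₁ i, e⟫ * c i = u * |P| * (1 + M / M') := by
      rw [← Finset.sum_add_sum_compl A, Finset.sum_congr rfl (fun i hi => by rw [hcA i hi]),
        Finset.sum_congr (s₁ := Aᶜ) rfl (fun i hi => by rw [hcA' i hi]), ← Finset.sum_mul,
        ← Finset.sum_mul, ← hP, hP', ← hσP]
      ring
    have h3 : 0 ≤ ∑ i, m i * c i ^ 2 := Finset.sum_nonneg (fun i _ => by
      have := hm i
      positivity)
    rw [h2]
    have h4 : 0 ≤ u * |P| * (1 + M / M') := by positivity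
    linarith
  · have h1 : ∀ i ∈ A, m i * ⟪v₁ i + c i • e, e⟫ = m i * ⟪v₁ i, e⟫ + m i * (σ * u) := by
      intro i hi
      rw [hcA i hi, inner_add_left, real_inner_smul_left, real_inner_self_eq_norm_sq, he]
      ring
    rw [Finset.sum_congr rfl h1, Finset.sum_add_distrib, ← Finset.sum_mul, ← hP, ← hM]
    have h2 : |P + M * (σ * u)| = |P| + M * u := by
      have h3 : P + M * (σ * u) = σ * (|P| + M * u) := by
        rw [← hσP]
        have h4 : P = σ ^ 2 * P := by rw [hσ2, one_mul]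
        calc P + M * (σ * u) = σ ^ 2 * P + M * (σ * u) := by rw [← h4]
          _ = _ := by ring
      rw [h3, abs_mul, hσ1, one_mul, abs_of_nonneg (by positivity)]
    rw [h2]
    have := abs_nonneg P
    linarith

/-- a sum over all the bodies, split at a pair -/
theorem t2_sum {N : ℕ} {a b : Fin N} (hab : a ≠ b) {V : Type*} [AddCommMonoid V]
    (f : Fin N → V) : ∑ i, f i = f a + f b + ∑ i ∈ ({a, b} : Finset (Fin N))ᶜ, f i := by
  classical
  rw [← Finset.sum_add_sum_compl ({a, b} : Finset (Fin N)), Finset.sum_pair hab]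

/-- the potential, split at a pair -/
theorem t2_pot {N : ℕ} {a b : Fin N} (hab : a ≠ b) (m : Fin N → ℝ) (q : Fin N → V3) :
    pot m q = m a * m b / ‖q a - q b‖ +
      ∑ k ∈ ({a, b} : Finset (Fin N))ᶜ, (m a * m k / ‖q a - q k‖ + m b * m k / ‖q b - q k‖) +
      (∑ i ∈ ({a, b} : Finset (Fin N))ᶜ, ∑ j ∈ ({a, b} : Finset (Fin N))ᶜ,
        m i * m j / ‖q i - q j‖) / 2 := by
  classical
  rw [pot_eq_invdM]
  unfold invdM
  have h1 : ∀ i, ∑ j, m i * m j / ‖q i - q j‖ = m i * m a / ‖q i - q a‖ +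
      m i * m b / ‖q i - q b‖ + ∑ j ∈ ({a, b} : Finset (Fin N))ᶜ, m i * m j / ‖q i - q j‖ :=
    fun i => t2_sum hab _
  simp only [h1]
  rw [t2_sum hab, Finset.sum_add_distrib, Finset.sum_add_distrib]
  have e1 : ∀ i : Fin N, ‖q i - q i‖ = 0 := fun i => by rw [sub_self, norm_zero]
  rw [e1 a, e1 b, div_zero, div_zero]
  have e2 : m b * m a / ‖q b - q a‖ = m a * m b / ‖q a - q b‖ := by
    rw [norm_sub_rev, mul_comm (m b)]
  have e3 : ∀ c : Fin N, ∑ i ∈ ({a, b} : Finset (Fin N))ᶜ, m i * m c / ‖q i - q c‖ =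
      ∑ i ∈ ({a, b} : Finset (Fin N))ᶜ, m c * m i / ‖q c - q i‖ := by
    intro c
    apply Finset.sum_congr rfl
    intro i _
    rw [norm_sub_rev, mul_comm (m i)]
  rw [e2, e3 a, e3 b, Finset.sum_add_distrib]
  ring

/-- positions in which a tight pair sits at `z` -/
noncomputable def t2pos {N : ℕ} (a b : Fin N) (m : Fin N → ℝ) (z n : V3) (q : Fin N → V3)
    (r : ℝ) : Fin N → V3 := fun k =>
  if k = a then z + (r * (m b / (m a + m b))) • n
  else if k = b then z - (r * (m a / (m a + m b))) • n else q k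

theorem t2pos_a {N : ℕ} (a b : Fin N) (m : Fin N → ℝ) (z n : V3) (q : Fin N → V3) (r : ℝ) :
    t2pos a b m z n q r a = z + (r * (m b / (m a + m b))) • n := by
  unfold t2pos
  rw [if_pos rfl]

theorem t2pos_b {N : ℕ} {a b : Fin N} (hab : a ≠ b) (m : Fin N → ℝ) (z n : V3) (q : Fin N → V3)
    (r : ℝ) : t2pos a b m z n q r b = z - (r * (m a / (m a + m b))) • n := by
  unfold t2pos
  rw [if_neg (Ne.symm hab), if_pos rfl]

theorem t2pos_rest {N : ℕ} {a b : Fin N} (m : Fin N → ℝ) (z n : V3) (q : Fin N → V3)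
    (r : ℝ) {k : Fin N} (hk : k ∈ ({a, b} : Finset (Fin N))ᶜ) : t2pos a b m z n q r k = q k := by
  rw [Finset.mem_compl, Finset.mem_insert, Finset.mem_singleton, not_or] at hk
  unfold t2pos
  rw [if_neg hk.1, if_neg hk.2]

theorem t2pos_sub {N : ℕ} {a b : Fin N} (hab : a ≠ b) {m : Fin N → ℝ} (hm : ∀ i, 0 < m i)
    (z n : V3) (q : Fin N → V3) (r : ℝ) :
    t2pos a b m z n q r a - t2pos a b m z n q r b = r • n := by
  rw [t2pos_a, t2pos_b hab, add_sub_sub_cancel, ← add_smul]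
  congr 1
  have := hm a
  have := hm b
  field_simp
  ring

theorem t2pos_com {N : ℕ} {a b : Fin N} (hab : a ≠ b) (m : Fin N → ℝ)
    (z n : V3) (q : Fin N → V3) (r : ℝ) :
    ∑ k, m k • t2pos a b m z n q r k =
      ∑ k, m k • q k + (m a • (z - q a) + m b • (z - q b)) := by
  rw [t2_sum hab, t2_sum hab (fun k => m k • q k), t2pos_a, t2pos_b hab,
    Finset.sum_congr rfl (fun k hk => by rw [t2pos_rest m z n q r hk])]
  have h1 : m a • (z + (r * (m b / (m a + m b))) • n) +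
      m b • (z - (r * (m a / (m a + m b))) • n) = m a • z + m b • z := by
    rw [smul_add, smul_sub, smul_smul, smul_smul]
    have h2 : m a * (r * (m b / (m a + m b))) = m b * (r * (m a / (m a + m b))) := by ring
    rw [h2]
    abel
  rw [h1, smul_sub, smul_sub]
  abel

/-- The size of the tight pair is determined by the energy. -/
theorem t2_size {N : ℕ} {a b : Fin N} (hab : a ≠ b) {m : Fin N → ℝ} (hm : ∀ i, 0 < m i)
    (q : Fin N → V3) {z n : V3} (hn : ‖n‖ = 1) {s B G W : ℝ} (hs : 0 < s) (hG : 0 < G)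
    (hsep : ∀ k ∈ ({a, b} : Finset (Fin N))ᶜ, s < ‖z - q k‖)
    (hB : ∑ k ∈ ({a, b} : Finset (Fin N))ᶜ, m k / ‖z - q k‖ ≤ B)
    (hBG : 4 * (m a + m b) * B ≤ G) (hrs : 4 * (m a * m b) ≤ G * s)
    (hW : (∑ i ∈ ({a, b} : Finset (Fin N))ᶜ, ∑ j ∈ ({a, b} : Finset (Fin N))ᶜ,
        m i * m j / ‖q i - q j‖) / 2 + G ≤ W) :
    ∃ r, 0 < r ∧ r ≤ 2 * (m a * m b) / G ∧ pot m (t2pos a b m z n q r) = W := by
  classical
  have hma := hm a
  have hmb := hm b
  obtain ⟨A, hA⟩ : ∃ A, A = (∑ i ∈ ({a, b} : Finset (Fin N))ᶜ,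
      ∑ j ∈ ({a, b} : Finset (Fin N))ᶜ, m i * m j / ‖q i - q j‖) / 2 := ⟨_, rfl⟩
  rw [← hA] at hW
  obtain ⟨r₂, hr₂⟩ : ∃ r₂, r₂ = 2 * (m a * m b) / G := ⟨_, rfl⟩
  obtain ⟨r₁, hr₁⟩ : ∃ r₁, r₁ = m a * m b / (W - A) := ⟨_, rfl⟩
  have hWA : 0 < W - A := by linarith
  have hr₁0 : 0 < r₁ := by rw [hr₁]; positivity
  have hr₂0 : 0 < r₂ := by rw [hr₂]; positivity
  have hr12 : r₁ ≤ r₂ := by
    rw [hr₁, hr₂, div_le_div_iff₀ hWA hG]
    nlinarith [mul_pos hma hmb]
  have hr₂s : r₂ ≤ s / 2 := by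
    rw [hr₂, div_le_iff₀ hG]
    linarith
  -- the offsets
  have hoff : ∀ r, 0 ≤ r → r ≤ s / 2 → ∀ c, 0 ≤ c → c ≤ 1 → ∀ y : V3, s < ‖z - y‖ → ∀ w : V3,
      (w = z + (r * c) • n ∨ w = z - (r * c) • n) → ‖z - y‖ / 2 ≤ ‖w - y‖ := by
    intro r hr0 hr c hc0 hc1 y hy w hw
    have h1 : ‖w - z‖ ≤ r := by
      have h2 : r * c ≤ r * 1 := mul_le_mul_of_nonneg_left hc1 hr0
      rcases hw with h | h
      · rw [h, add_sub_cancel_left, norm_smul, hn, mul_one, Real.norm_of_nonneg (by positivity)]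
        linarith
      · rw [h, norm_sub_rev, sub_sub_cancel, norm_smul, hn, mul_one,
          Real.norm_of_nonneg (by positivity)]
        linarith
    have h2 : ‖z - y‖ ≤ ‖w - y‖ + ‖w - z‖ := by
      have : z - y = (w - y) - (w - z) := by abel
      rw [this]
      exact norm_sub_le _ _
    linarith
  have hca : m b / (m a + m b) ≤ 1 := by
    rw [div_le_one (by linarith)]
    linarith
  have hcb : m a / (m a + m b) ≤ 1 := by
    rw [div_le_one (by linarith)]
    linarith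
  have hca0 : 0 ≤ m b / (m a + m b) := by positivity
  have hcb0 : 0 ≤ m a / (m a + m b) := by positivity
  obtain ⟨Cr, hCr⟩ : ∃ Cr : ℝ → ℝ, Cr = fun r => ∑ k ∈ ({a, b} : Finset (Fin N))ᶜ,
      (m a * m k / ‖(z + (r * (m b / (m a + m b))) • n) - q k‖ +
        m b * m k / ‖(z - (r * (m a / (m a + m b))) • n) - q k‖) := ⟨_, rfl⟩
  have hsplit : ∀ r, 0 < r → pot m (t2pos a b m z n q r) = m a * m b / r + Cr r + A := by
    intro r hr
    rw [t2_pot hab, t2pos_sub hab hm, norm_smul, hn, mul_one, Real.norm_of_nonneg hr.le, hA, hCr,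
      t2pos_a, t2pos_b hab]
    congr 1
    · congr 1
      apply Finset.sum_congr rfl
      intro k hk
      rw [t2pos_rest m z n q r hk]
    · congr 1
      apply Finset.sum_congr rfl
      intro i hi
      apply Finset.sum_congr rfl
      intro j hj
      rw [t2pos_rest m z n q r hi, t2pos_rest m z n q r hj]
  have hd1 : ∀ r ∈ Icc r₁ r₂, ∀ k ∈ ({a, b} : Finset (Fin N))ᶜ,
      ‖z - q k‖ / 2 ≤ ‖(z + (r * (m b / (m a + m b))) • n) - q k‖ := fun r hr k hk =>
    hoff r (hr₁0.le.trans hr.1) (hr.2.trans hr₂s) _ hca0 hca _ (hsep k hk) _ (Or.inl rfl)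
  have hd2 : ∀ r ∈ Icc r₁ r₂, ∀ k ∈ ({a, b} : Finset (Fin N))ᶜ,
      ‖z - q k‖ / 2 ≤ ‖(z - (r * (m a / (m a + m b))) • n) - q k‖ := fun r hr k hk =>
    hoff r (hr₁0.le.trans hr.1) (hr.2.trans hr₂s) _ hcb0 hcb _ (hsep k hk) _ (Or.inr rfl)
  have hCle : ∀ r ∈ Icc r₁ r₂, Cr r ≤ G / 2 := by
    intro r hr
    have h1 : Cr r ≤ ∑ k ∈ ({a, b} : Finset (Fin N))ᶜ, 2 * (m a + m b) * (m k / ‖z - q k‖) := by
      rw [hCr]
      apply Finset.sum_le_sum
      intro k hk
      have hz : 0 < ‖z - q k‖ := hs.trans (hsep k hk)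
      have hmk := hm k
      have h2 : m a * m k / ‖(z + (r * (m b / (m a + m b))) • n) - q k‖ ≤
          m a * m k / (‖z - q k‖ / 2) :=
        div_le_div_of_nonneg_left (by positivity) (by positivity) (hd1 r hr k hk)
      have h3 : m b * m k / ‖(z - (r * (m a / (m a + m b))) • n) - q k‖ ≤
          m b * m k / (‖z - q k‖ / 2) :=
        div_le_div_of_nonneg_left (by positivity) (by positivity) (hd2 r hr k hk)
      refine (add_le_add h2 h3).trans (le_of_eq ?_)
      field_simp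
    rw [← Finset.mul_sum] at h1
    have h2 : 2 * (m a + m b) * ∑ k ∈ ({a, b} : Finset (Fin N))ᶜ, m k / ‖z - q k‖ ≤
        2 * (m a + m b) * B := mul_le_mul_of_nonneg_left hB (by positivity)
    linarith
  have hCnn : ∀ r, 0 ≤ Cr r := by
    intro r
    rw [hCr]
    apply Finset.sum_nonneg
    intro k _
    have := hm k
    positivity
  have hcont : ContinuousOn (fun r => m a * m b / r + Cr r) (Icc r₁ r₂) := by
    apply ContinuousOn.add
    · apply ContinuousOn.div continuousOn_const continuousOn_id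
      intro r hr
      exact (hr₁0.trans_le hr.1).ne'
    · rw [hCr]
      apply continuousOn_finsetSum
      intro k hk
      have hz : 0 < ‖z - q k‖ / 2 := by
        have := hs.trans (hsep k hk)
        positivity
      apply ContinuousOn.add
      · apply ContinuousOn.div continuousOn_const
        · apply Continuous.continuousOn
          exact ((continuous_const.add ((continuous_id.mul continuous_const).smul
            continuous_const)).sub continuous_const).norm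
        · intro r hr
          exact (hz.trans_le (hd1 r hr k hk)).ne'
      · apply ContinuousOn.div continuousOn_const
        · apply Continuous.continuousOn
          exact ((continuous_const.sub ((continuous_id.mul continuous_const).smul
            continuous_const)).sub continuous_const).norm
        · intro r hr
          exact (hz.trans_le (hd2 r hr k hk)).ne'
  have hmem : W - A ∈ Icc (m a * m b / r₂ + Cr r₂) (m a * m b / r₁ + Cr r₁) := by
    constructor
    · have h1 := hCle r₂ ⟨hr12, le_rfl⟩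
      have h2 : m a * m b / r₂ = G / 2 := by
        rw [hr₂]
        field_simp
      linarith
    · have h1 := hCnn r₁
      have h2 : m a * m b / r₁ = W - A := by
        rw [hr₁]
        field_simp
      linarith
  obtain ⟨r, hr, hrW⟩ := intermediate_value_Icc' hr12 hcont hmem
  refine ⟨r, hr₁0.trans_le hr.1, by rw [← hr₂]; exact hr.2, ?_⟩
  rw [hsplit r (hr₁0.trans_le hr.1)]
  simp only at hrW
  linarith

/-- the potential is invariant under translations -/
theorem t2_pot_add {N : ℕ} (m : Fin N → ℝ) (q : Fin N → V3) (c : V3) :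
    pot m (fun k => q k + c) = pot m q := by
  unfold pot
  simp only [add_sub_add_right_eq_sub]

/-- a unit vector orthogonal to a given vector -/
theorem t2_orth (e : V3) : ∃ n : V3, ‖n‖ = 1 ∧ ⟪n, e⟫ = 0 := by
  have h1 : LinearMap.ker (innerSL ℝ e : V3 →ₗ[ℝ] ℝ) ≠ ⊥ := by
    apply LinearMap.ker_ne_bot_of_finrank_lt
    rw [finrank_euclideanSpace, Fintype.card_fin, Module.finrank_self]
    norm_num
  obtain ⟨n, hn, hn0⟩ := Submodule.exists_mem_ne_zero_of_ne_bot h1
  have h2 : ⟪e, n⟫ = 0 := by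
    have := LinearMap.mem_ker.mp hn
    simpa using this
  have h3 : 0 < ‖n‖ := norm_pos_iff.mpr hn0
  refine ⟨‖n‖⁻¹ • n, ?_, ?_⟩
  · rw [norm_smul, norm_inv, norm_norm, inv_mul_cancel₀ h3.ne']
  · rw [real_inner_smul_left, real_inner_comm, h2, mul_zero]

/-- Type II: some body is so distant that a small boost of the group of the distant bodies makes
the state wandering; the energy is absorbed by a tight pair. -/
theorem t2_core {N : ℕ} {m : Fin N → ℝ} (hm : ∀ i, 0 < m i) (hM : ∑ i, m i = 1) {X : ℝ}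
    (hX : 0 ≤ X) (hmX : ∀ i, Real.exp (-X) ≤ m i) {S : Set (Ph N)} {ψ : Ph N → ℝ}
    {φ : ℝ → Ph N → Ph N} (hset : Setting m S ψ φ) {E : ℝ}
    (hS : ∀ x : Ph N, x ∈ S ↔ (∀ i j, i ≠ j → x.1 i ≠ x.1 j) ∧ ∑ i, m i • x.1 i = 0 ∧
        ∑ i, x.2 i = 0 ∧ kin m x.2 - pot m x.1 = E)
    {q v : Fin N → V3} (hx : ((q, fun i => m i • v i) : Ph N) ∈ S) {δ : ℝ} (hδ : 0 < δ)
    {v₁ : Fin N → V3} (hv₁ : ∀ i, ‖v₁ i - v i‖ ≤ δ / 2)
    (hmom : ∑ i, m i • v₁ i = ∑ i, m i • v i) {G : ℝ} (hG : 0 < G)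
    (hkin : ∑ i, m i * ‖v i‖ ^ 2 + 2 * G ≤ ∑ i, m i * ‖v₁ i‖ ^ 2)
    {a b : Fin N} (hab : a ≠ b) {z : V3} (hza : ‖z - q a‖ ≤ δ / 2) (hzb : ‖z - q b‖ ≤ δ / 2)
    (hmab : m a + m b ≤ 1 / 4) {s B : ℝ} (hs : 0 < s)
    (hsep : ∀ k ∈ ({a, b} : Finset (Fin N))ᶜ, s < ‖z - q k‖)
    (hB : ∑ k ∈ ({a, b} : Finset (Fin N))ᶜ, m k / ‖z - q k‖ ≤ B)
    (hBG : 4 * (m a + m b) * B ≤ G) (hrs : 4 * (m a * m b) ≤ G * s)
    (hrδ : 8 * (m a * m b) ≤ G * δ)
    (i₁ : Fin N) (hfar : ∀ j, ‖q j‖ ≤ ‖q i₁‖) (hδL : 4 * δ ≤ ‖q i₁‖)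
    (hbig : 864 * (X + 1) < (δ / 10) ^ 2 * (‖q i₁‖ / 4)) :
    ∃ y ∈ S, Wandering S φ y ∧ (∀ i, ‖y.1 i - q i‖ ≤ δ) ∧
      (∀ i, ‖(m i)⁻¹ • y.2 i - v i‖ ≤ δ) := by
  classical
  have hma := hm a
  have hmb := hm b
  obtain ⟨hnc, hcom, hmom0, hE⟩ := (hS _).mp hx
  simp only at hnc hcom hmom0 hE
  obtain ⟨L, hL⟩ : ∃ L, L = ‖q i₁‖ := ⟨_, rfl⟩
  rw [← hL] at hfar hδL hbig
  have hL0 : 0 < L := by linarith
  obtain ⟨e, he⟩ : ∃ e : V3, e = L⁻¹ • q i₁ := ⟨_, rfl⟩
  have hen : ‖e‖ = 1 := by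
    rw [he, norm_smul, norm_inv, Real.norm_of_nonneg hL0.le, ← hL, inv_mul_cancel₀ hL0.ne']
  obtain ⟨n, hn, hne⟩ := t2_orth e
  obtain ⟨c, hc⟩ : ∃ c : V3, c = -(m a • (z - q a) + m b • (z - q b)) := ⟨_, rfl⟩
  have hcn : ‖c‖ ≤ δ / 8 := by
    rw [hc, norm_neg]
    refine (norm_add_le _ _).trans ?_
    rw [norm_smul, norm_smul, Real.norm_of_nonneg hma.le, Real.norm_of_nonneg hmb.le]
    have h1 : m a * ‖z - q a‖ ≤ m a * (δ / 2) := mul_le_mul_of_nonneg_left hza hma.le
    have h2 : m b * ‖z - q b‖ ≤ m b * (δ / 2) := mul_le_mul_of_nonneg_left hzb hmb.le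
    have h3 : (m a + m b) * (δ / 2) ≤ 1 / 4 * (δ / 2) :=
      mul_le_mul_of_nonneg_right hmab (by positivity)
    linarith
  -- positions depending on the size of the pair
  obtain ⟨Q, hQ⟩ : ∃ Q : ℝ → Fin N → V3, Q = fun r k => t2pos a b m z n q r k + c := ⟨_, rfl⟩
  have hQcom : ∀ r, ∑ k, m k • Q r k = 0 := by
    intro r
    have h1 : ∀ k, m k • Q r k = m k • t2pos a b m z n q r k + m k • c := fun k => by
      rw [hQ, smul_add]
    rw [Finset.sum_congr rfl (fun k _ => h1 k), Finset.sum_add_distrib, t2pos_com hab m,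
      ← Finset.sum_smul, hM, one_smul, hcom, hc, zero_add, add_neg_cancel]
  have hrc : ∀ x y : ℝ, 0 < x → 0 < y → y / (x + y) ≤ 1 ∧ 0 ≤ y / (x + y) := fun x y hx hy => by
    constructor
    · rw [div_le_one (by linarith)]
      linarith
    · positivity
  have hQclose : ∀ r, 0 ≤ r → r ≤ δ / 4 → ∀ k, ‖Q r k - q k‖ ≤ δ := by
    intro r hr0 hr k
    by_cases hka : k = a
    · rw [hka, hQ]
      simp only
      rw [t2pos_a]
      have h1 : z + (r * (m b / (m a + m b))) • n + c - q a =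
          (z - q a) + (r * (m b / (m a + m b))) • n + c := by abel
      rw [h1]
      refine (norm_add_le _ _).trans ?_
      have h2 := norm_add_le (z - q a) ((r * (m b / (m a + m b))) • n)
      have h3 : ‖(r * (m b / (m a + m b))) • n‖ ≤ r := by
        have h4 := hrc (m a) (m b) hma hmb
        rw [norm_smul, hn, mul_one, Real.norm_of_nonneg (mul_nonneg hr0 h4.2)]
        have h5 := mul_le_mul_of_nonneg_left h4.1 hr0
        linarith
      linarith
    · by_cases hkb : k = b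
      · rw [hkb, hQ]
        simp only
        rw [t2pos_b hab]
        have h1 : z - (r * (m a / (m a + m b))) • n + c - q b =
            (z - q b) - (r * (m a / (m a + m b))) • n + c := by abel
        rw [h1]
        refine (norm_add_le _ _).trans ?_
        have h2 := norm_sub_le (z - q b) ((r * (m a / (m a + m b))) • n)
        have h3 : ‖(r * (m a / (m a + m b))) • n‖ ≤ r := by
          have h4 := hrc (m b) (m a) hmb hma
          rw [add_comm (m b)] at h4
          rw [norm_smul, hn, mul_one, Real.norm_of_nonneg (mul_nonneg hr0 h4.2)]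
          have h5 := mul_le_mul_of_nonneg_left h4.1 hr0
          linarith
        linarith
      · have hk : k ∈ ({a, b} : Finset (Fin N))ᶜ := by
          rw [Finset.mem_compl, Finset.mem_insert, Finset.mem_singleton, not_or]
          exact ⟨hka, hkb⟩
        rw [hQ]
        simp only
        rw [t2pos_rest m z n q r hk, add_sub_cancel_left]
        linarith
  have hQh : ∀ r k, ⟪Q r k, e⟫ = ⟪Q 0 k, e⟫ := by
    intro r k
    rw [hQ]
    simp only
    by_cases hka : k = a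
    · rw [hka, t2pos_a, t2pos_a]
      simp only [inner_add_left, real_inner_smul_left, hne, mul_zero]
    · by_cases hkb : k = b
      · rw [hkb, t2pos_b hab, t2pos_b hab]
        simp only [inner_add_left, inner_sub_left, real_inner_smul_left, hne, mul_zero]
      · have hk : k ∈ ({a, b} : Finset (Fin N))ᶜ := by
          rw [Finset.mem_compl, Finset.mem_insert, Finset.mem_singleton, not_or]
          exact ⟨hka, hkb⟩
        rw [t2pos_rest m z n q r hk, t2pos_rest m z n q 0 hk]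
  -- the group
  obtain ⟨D, hD⟩ : ∃ D, D = L / 4 := ⟨_, rfl⟩
  have hD0 : 0 < D := by rw [hD]; positivity
  rw [← hD] at hbig
  have hhi : ∀ k, |⟪Q 0 k, e⟫ - ⟪q k, e⟫| ≤ δ := by
    intro k
    rw [← inner_sub_left]
    refine (abs_real_inner_le_norm _ _).trans ?_
    rw [hen, mul_one]
    exact hQclose 0 le_rfl (by positivity) k
  have hqi₁ : ⟪q i₁, e⟫ = L := by
    rw [he, real_inner_smul_right, real_inner_self_eq_norm_sq, ← hL]
    field_simp
  have hex : ∃ i, D + D < ⟪Q 0 i, e⟫ := by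
    refine ⟨i₁, ?_⟩
    have h1 := (abs_le.mp (hhi i₁)).1
    rw [hqi₁] at h1
    rw [hD]
    linarith
  obtain ⟨A, hA1, hA2, hA3⟩ := groupM_set hm hM.le hX hmX hen.le (Q 0) hD0 hex
  have hA0 : 0 < ∑ i ∈ A, m i := Finset.sum_pos (fun i _ => hm i) hA1
  have hratio : ∑ i ∈ A, m i ≤ 5 * ∑ i ∈ Aᶜ, m i := by
    have h1 : ∑ i, m i * ⟪Q 0 i, e⟫ = 0 := by
      have h2 : ∑ i, m i * ⟪Q 0 i, e⟫ = ⟪∑ i, m i • Q 0 i, e⟫ := by
        rw [sum_inner]
        exact Finset.sum_congr rfl (fun i _ => (real_inner_smul_left _ _ _).symm)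
      rw [h2, hQcom, inner_zero_left]
    rw [← Finset.sum_add_sum_compl A] at h1
    have h2 : (∑ i ∈ A, m i) * D ≤ ∑ i ∈ A, m i * ⟪Q 0 i, e⟫ := by
      rw [Finset.sum_mul]
      exact Finset.sum_le_sum (fun i hi => mul_le_mul_of_nonneg_left (hA2 i hi).le (hm i).le)
    have h3 : -((∑ i ∈ Aᶜ, m i) * (5 * D)) ≤ ∑ i ∈ Aᶜ, m i * ⟪Q 0 i, e⟫ := by
      rw [Finset.sum_mul, ← Finset.sum_neg_distrib]
      apply Finset.sum_le_sum
      intro i _
      have h4 := (abs_le.mp (hhi i)).1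
      have h5 : -L ≤ ⟪q i, e⟫ := by
        have h6 := (abs_le.mp (abs_real_inner_le_norm (q i) e)).1
        rw [hen, mul_one] at h6
        have h7 := hfar i
        linarith
      have h6 : -(5 * D) ≤ ⟪Q 0 i, e⟫ := by rw [hD]; linarith
      have h7 := mul_le_mul_of_nonneg_left h6 (hm i).le
      linarith
    have h4 : (∑ i ∈ A, m i) * D ≤ (5 * ∑ i ∈ Aᶜ, m i) * D := by linarith
    exact le_of_mul_le_mul_right h4 hD0
  -- the velocities
  obtain ⟨u, hu⟩ : ∃ u, u = δ / 10 := ⟨_, rfl⟩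
  have hu0 : 0 < u := by rw [hu]; positivity
  rw [← hu] at hbig
  obtain ⟨v₂, hv₂, hmom₂, hkin₂, hP₂⟩ := t2_boost hm A hA0 hratio v₁ (by rw [hmom]; exact hmom0)
    hen hu0.le
  -- the size of the pair
  rw [kin_eqM hm] at hE
  obtain ⟨W, hW⟩ : ∃ W, W = (∑ i, m i * ‖v₂ i‖ ^ 2) / 2 - E := ⟨_, rfl⟩
  have hWge : pot m q + G ≤ W := by rw [hW]; linarith
  have hrest : (∑ i ∈ ({a, b} : Finset (Fin N))ᶜ, ∑ j ∈ ({a, b} : Finset (Fin N))ᶜ,
        m i * m j / ‖q i - q j‖) / 2 ≤ pot m q := by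
    rw [t2_pot hab]
    have h1 : 0 ≤ m a * m b / ‖q a - q b‖ := by positivity
    have h2 : 0 ≤ ∑ k ∈ ({a, b} : Finset (Fin N))ᶜ,
        (m a * m k / ‖q a - q k‖ + m b * m k / ‖q b - q k‖) := Finset.sum_nonneg (fun k _ => by
      have := hm k
      positivity)
    linarith
  have hrest2 : (∑ i ∈ ({a, b} : Finset (Fin N))ᶜ, ∑ j ∈ ({a, b} : Finset (Fin N))ᶜ,
        m i * m j / ‖q i - q j‖) / 2 + G ≤ W := by linarith
  obtain ⟨r, hr0, hr2, hrW⟩ := t2_size hab hm q hn hs hG hsep hB hBG hrs hrest2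
  have hrs2 : r ≤ s / 2 := by
    refine hr2.trans ?_
    rw [div_le_iff₀ hG]
    linarith
  have hrδ2 : r ≤ δ / 4 := by
    refine hr2.trans ?_
    rw [div_le_iff₀ hG]
    linarith
  have hv₂v : ∀ i, ‖v₂ i - v i‖ ≤ δ := by
    intro i
    have h1 : v₂ i - v i = (v₂ i - v₁ i) + (v₁ i - v i) := by abel
    rw [h1]
    refine (norm_add_le _ _).trans ?_
    have h2 := hv₂ i
    have h3 := hv₁ i
    rw [hu] at h2
    linarith
  have hmv : ∀ i, (m i)⁻¹ • m i • v₂ i = v₂ i := fun i => by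
    rw [smul_smul, inv_mul_cancel₀ (hm i).ne', one_smul]
  -- distances from the pair to the other bodies
  have hda : ∀ k ∈ ({a, b} : Finset (Fin N))ᶜ, Q r a ≠ Q r k := by
    intro k hk heq
    rw [hQ] at heq
    simp only at heq
    have h1 := add_right_cancel heq
    rw [t2pos_a, t2pos_rest m z n q r hk] at h1
    have h2 := hsep k hk
    have h3 : z - q k = -((r * (m b / (m a + m b))) • n) := by
      rw [← h1]
      abel
    have h4 := hrc (m a) (m b) hma hmb
    rw [h3, norm_neg, norm_smul, hn, mul_one, Real.norm_of_nonneg (mul_nonneg hr0.le h4.2)] at h2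
    have h5 := mul_le_mul_of_nonneg_left h4.1 hr0.le
    linarith
  have hdb : ∀ k ∈ ({a, b} : Finset (Fin N))ᶜ, Q r b ≠ Q r k := by
    intro k hk heq
    rw [hQ] at heq
    simp only at heq
    have h1 := add_right_cancel heq
    rw [t2pos_b hab, t2pos_rest m z n q r hk] at h1
    have h2 := hsep k hk
    have h3 : z - q k = (r * (m a / (m a + m b))) • n := by
      rw [← h1]
      abel
    have h4 := hrc (m b) (m a) hmb hma
    rw [add_comm (m b)] at h4
    rw [h3, norm_smul, hn, mul_one, Real.norm_of_nonneg (mul_nonneg hr0.le h4.2)] at h2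
    have h5 := mul_le_mul_of_nonneg_left h4.1 hr0.le
    linarith
  have hdab : Q r a ≠ Q r b := by
    intro heq
    rw [hQ] at heq
    simp only at heq
    have h1 := add_right_cancel heq
    have h2 := t2pos_sub hab hm z n q r
    rw [h1, sub_self] at h2
    have h3 : ‖r • n‖ = r := by rw [norm_smul, hn, mul_one, Real.norm_of_nonneg hr0.le]
    rw [← h2, norm_zero] at h3
    linarith
  have hmemc : ∀ k, k ≠ a → k ≠ b → k ∈ ({a, b} : Finset (Fin N))ᶜ := fun k hka hkb => by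
    rw [Finset.mem_compl, Finset.mem_insert, Finset.mem_singleton, not_or]
    exact ⟨hka, hkb⟩
  have hyS : ((Q r, fun i => m i • v₂ i) : Ph N) ∈ S := by
    rw [hS]
    refine ⟨?_, hQcom r, hmom₂, ?_⟩
    · intro i j hij
      simp only
      by_cases hia : i = a
      · by_cases hjb : j = b
        · rw [hia, hjb]
          exact hdab
        · rw [hia]
          exact hda j (hmemc j (fun h => hij (hia.trans h.symm)) hjb)
      · by_cases hib : i = b
        · by_cases hja : j = a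
          · rw [hib, hja]
            exact hdab.symm
          · rw [hib]
            exact hdb j (hmemc j hja (fun h => hij (hib.trans h.symm)))
        · by_cases hja : j = a
          · rw [hja]
            exact (hda i (hmemc i hia hib)).symm
          · by_cases hjb : j = b
            · rw [hjb]
              exact (hdb i (hmemc i hia hib)).symm
            · rw [hQ]
              simp only
              rw [t2pos_rest m z n q r (hmemc i hia hib),
                t2pos_rest m z n q r (hmemc j hja hjb)]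
              intro h
              exact hnc i j hij (add_right_cancel h)
    · simp only
      rw [kin_eqM hm, hQ]
      have h1 := t2_pot_add m (t2pos a b m z n q r) c
      rw [h1, hrW, hW]
      ring
  refine ⟨_, hyS, ?_, hQclose r hr0.le hrδ2, fun i => by simp only; rw [hmv i]; exact hv₂v i⟩
  exact hA3 S ψ φ hset _ hyS 0 (Q r) v₂ (hset.isFlowOn.zero _ hyS) (fun i => hQh r i) u hu0 hP₂
    hbig

end Pool.Agent.NBody
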