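import Mathlib
import Pool.Agent.NBody.Infinity
import Pool.Agent.NBody.ThPack

/-!
A configuration whose potential is not small has two bodies which are close to each other.
-/

set_option autoImplicit false
open scoped RealInnerProductSpace
open Set Finset Filter Topology

namespace Pool.Agent.NBody

/-- The potential of separated points is small. -/
theorem exists_close_pair {N : ℕ} {m : Fin N → ℝ} (hm : ∀ i, 0 < m i) (hm1 : ∑ i, m i = 1)
    {μ : ℝ} (hμ : ∀ i, m i ≤ μ) (q : Fin N → V3) {s ρ : ℝ} (hs : 0 < s) (hρ : 0 < ρ)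
    (hbig : (μ * (1 + 2 * ρ / s) ^ 3 / s + 1 / ρ) / 2 < pot m q) :
    ∃ a b, a ≠ b ∧ ‖q a - q b‖ < s := by
  classical
  by_contra hcon
  push Not at hcon
  have hN : 0 < N := by
    rcases Nat.eq_zero_or_pos N with h | h
    · subst h
      simp at hm1
    · exact h
  have hμ0 : 0 < μ := lt_of_lt_of_le (hm ⟨0, hN⟩) (hμ _)
  -- the potential at one body
  have key : ∀ i, ∑ j, m j / ‖q i - q j‖ ≤ μ * (1 + 2 * ρ / s) ^ 3 / s + 1 / ρ := by
    intro i
    obtain ⟨J, hJ⟩ : ∃ J : Finset (Fin N), J = Finset.univ.filter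
        (fun j => j ≠ i ∧ ‖q i - q j‖ ≤ ρ) := ⟨_, rfl⟩
    have hterm : ∀ j, m j / ‖q i - q j‖ ≤ (if j ∈ J then μ / s else 0) + m j / ρ := by
      intro j
      have hmj := hm j
      by_cases hji : j = i
      · subst hji
        rw [sub_self, norm_zero, div_zero]
        have h1 : 0 ≤ (if j ∈ J then μ / s else 0) := by
          split_ifs
          · positivity
          · exact le_rfl
        have h2 : 0 ≤ m j / ρ := by positivity
        linarith
      · have hd := hcon i j (Ne.symm hji)
        have hd0 : 0 < ‖q i - q j‖ := lt_of_lt_of_le hs hd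
        by_cases hjJ : j ∈ J
        · rw [if_pos hjJ]
          have h1 : m j / ‖q i - q j‖ ≤ μ / s := div_le_div₀ hμ0.le (hμ j) hs hd
          have h2 : 0 ≤ m j / ρ := by positivity
          linarith
        · rw [if_neg hjJ, zero_add]
          have h1 : ρ < ‖q i - q j‖ := by
            by_contra h
            apply hjJ
            rw [hJ, Finset.mem_filter]
            exact ⟨Finset.mem_univ _, hji, not_lt.mp h⟩
          exact div_le_div_of_nonneg_left hmj.le hρ h1.le
    have hcard : (J.card : ℝ) ≤ (1 + 2 * ρ / s) ^ 3 := by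
      apply packing J (fun j => q j - q i) hs hρ.le
      · intro j _ k _ hjk
        have := hcon j k hjk
        simpa using this
      · intro j hj
        rw [hJ, Finset.mem_filter] at hj
        show ‖q j - q i‖ ≤ ρ
        rw [norm_sub_rev]
        exact hj.2.2
    calc ∑ j, m j / ‖q i - q j‖ ≤ ∑ j, ((if j ∈ J then μ / s else 0) + m j / ρ) :=
          Finset.sum_le_sum (fun j _ => hterm j)
      _ = (J.card : ℝ) * (μ / s) + 1 / ρ := by
          rw [Finset.sum_add_distrib, ← Finset.sum_div, hm1, Finset.sum_ite_mem,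
            Finset.univ_inter, Finset.sum_const, nsmul_eq_mul]
      _ ≤ (1 + 2 * ρ / s) ^ 3 * (μ / s) + 1 / ρ := by gcongr
      _ = _ := by ring
  have h1 : pot m q ≤ (μ * (1 + 2 * ρ / s) ^ 3 / s + 1 / ρ) / 2 := by
    unfold pot
    have h2 : ∀ i, ∑ j, m i * m j / ‖q i - q j‖ / 2 =
        m i * ((∑ j, m j / ‖q i - q j‖) / 2) := by
      intro i
      rw [Finset.sum_div, Finset.mul_sum]
      apply Finset.sum_congr rfl
      intro j _
      ring
    calc ∑ i, ∑ j, m i * m j / ‖q i - q j‖ / 2 =
          ∑ i, m i * ((∑ j, m j / ‖q i - q j‖) / 2) := Finset.sum_congr rfl (fun i _ => h2 i)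
      _ ≤ ∑ i, m i * ((μ * (1 + 2 * ρ / s) ^ 3 / s + 1 / ρ) / 2) := by
          apply Finset.sum_le_sum
          intro i _
          apply mul_le_mul_of_nonneg_left _ (hm i).le
          have := key i
          linarith
      _ = _ := by rw [← Finset.sum_mul, hm1, one_mul]
  linarith

end Pool.Agent.NBody
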