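import Mathlib
import Pool.Agent.NBody.ThT2Core
import Pool.Agent.NBody.ThT2Pack
import Pool.Agent.NBody.ThPoint

/-!
Type II: every state with a very distant body has a wandering state nearby.
-/

set_option autoImplicit false
open scoped RealInnerProductSpace
open Set Finset Filter Topology

namespace Pool.Agent.NBody

/-- The numbers of type II. -/
theorem num_t2 {X P : ℝ} (hX : 10 ^ 9 ≤ X) (hP : X ^ 13 ≤ P) :
    (X / P * (1 + 2 * X ^ 2 / (1 / (4 * X))) ^ 3 / (1 / (4 * X)) + 1 / X ^ 2) / 2 < 1 / X ∧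
    320 * P * (1 / P) ^ 3 ≤ (1 / (2 * X)) ^ 3 ∧
    4 * (X / P + X / P) * (32 * X) ≤ 1 / X ^ 5 ∧
    4 * ((X / P) * (X / P)) ≤ 1 / X ^ 5 * (1 / (2 * P)) ∧
    8 * ((X / P) * (X / P)) ≤ 1 / X ^ 5 * (1 / X) ∧
    X / P + X / P ≤ 1 / 4 ∧
    2 * (1 / X ^ 5) ≤ (1 / X / (4 * P)) ^ 2 / (X / P) * (1 / (2 * (X / P)) - 1) := by
  have hX1 : 1 ≤ X := le_trans (by norm_num) hX
  have hX0 : 0 < X := by linarith
  have hP0 : 0 < P := lt_of_lt_of_le (by positivity) hP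
  have pw : ∀ {a b : ℕ} (C : ℝ), C ≤ X → a + 1 ≤ b → C * X ^ a ≤ X ^ b := by
    intro a b C hC h
    have h0 : 0 ≤ X ^ a := by positivity
    calc C * X ^ a ≤ X * X ^ a := mul_le_mul_of_nonneg_right hC h0
      _ = X ^ (a + 1) := by ring
      _ ≤ X ^ b := pow_le_pow_right₀ hX1 h
  refine ⟨?_, ?_, ?_, ?_, ?_, ?_, ?_⟩
  · have e1 : 2 * X ^ 2 / (1 / (4 * X)) = 8 * X ^ 3 := by
      field_simp
      ring
    rw [e1]
    have h1 : (1 + 8 * X ^ 3) ^ 3 ≤ 729 * X ^ 9 := by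
      have h2 : 1 + 8 * X ^ 3 ≤ 9 * X ^ 3 := by
        have : (1 : ℝ) ≤ X ^ 3 := one_le_pow₀ hX1
        linarith
      calc (1 + 8 * X ^ 3) ^ 3 ≤ (9 * X ^ 3) ^ 3 := pow_le_pow_left₀ (by positivity) h2 3
        _ = 729 * X ^ 9 := by ring
    have h3 : X / P * (1 + 8 * X ^ 3) ^ 3 / (1 / (4 * X)) ≤ 2916 / X ^ 2 := by
      calc X / P * (1 + 8 * X ^ 3) ^ 3 / (1 / (4 * X)) =
            4 * X ^ 2 * (1 + 8 * X ^ 3) ^ 3 / P := by
              field_simp
        _ ≤ 4 * X ^ 2 * (729 * X ^ 9) / X ^ 13 := by gcongr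
        _ = 2916 / X ^ 2 := by
              field_simp
              ring
    have h4 : (2916 / X ^ 2 + 1 / X ^ 2) / 2 < 1 / X := by
      rw [← add_div, div_div, div_lt_div_iff₀ (by positivity) hX0]
      nlinarith
    linarith
  · rw [one_div_pow, one_div_pow, mul_one_div, div_le_div_iff₀ (by positivity) (by positivity)]
    have h1 : X ^ 13 * P ^ 1 ≤ P ^ 2 := by
      have : X ^ 13 * P ≤ P * P := mul_le_mul_of_nonneg_right hP hP0.le
      nlinarith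
    have h2 : 2560 * X ^ 3 ≤ X ^ 13 := pw 2560 (by linarith) (by norm_num)
    have hP1 : 1 ≤ P := le_trans (one_le_pow₀ hX1) hP
    calc 320 * P * (2 * X) ^ 3 = 2560 * X ^ 3 * P := by ring
      _ ≤ X ^ 13 * P := by gcongr
      _ ≤ P * P := by gcongr
      _ ≤ P * P * P := by
          have : P * P * 1 ≤ P * P * P := mul_le_mul_of_nonneg_left hP1 (by positivity)
          linarith
      _ = 1 * P ^ 3 := by ring
  · have e1 : 4 * (X / P + X / P) * (32 * X) = 256 * X ^ 2 / P := by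
      field_simp
      ring
    rw [e1, div_le_div_iff₀ hP0 (by positivity)]
    have h2 : 256 * X ^ 7 ≤ X ^ 13 := pw 256 (by linarith) (by norm_num)
    calc 256 * X ^ 2 * X ^ 5 = 256 * X ^ 7 := by ring
      _ ≤ 1 * P := by linarith
  · have e1 : 4 * ((X / P) * (X / P)) = 4 * X ^ 2 / P ^ 2 := by
      field_simp
    rw [e1, one_div_mul_one_div, div_le_div_iff₀ (by positivity) (by positivity)]
    have h2 : 8 * X ^ 7 ≤ X ^ 13 := pw 8 (by linarith) (by norm_num)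
    calc 4 * X ^ 2 * (X ^ 5 * (2 * P)) = 8 * X ^ 7 * P := by ring
      _ ≤ X ^ 13 * P := by gcongr
      _ ≤ P * P := by gcongr
      _ = 1 * P ^ 2 := by ring
  · have e1 : 8 * ((X / P) * (X / P)) = 8 * X ^ 2 / P ^ 2 := by
      field_simp
    rw [e1, one_div_mul_one_div, div_le_div_iff₀ (by positivity) (by positivity)]
    have h2 : 8 * X ^ 8 ≤ X ^ 13 := pw 8 (by linarith) (by norm_num)
    have hP1 : 1 ≤ P := le_trans (one_le_pow₀ hX1) hP
    calc 8 * X ^ 2 * (X ^ 5 * X) = 8 * X ^ 8 := by ring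
      _ ≤ P := by linarith
      _ ≤ P * P := by nlinarith
      _ = 1 * P ^ 2 := by ring
  · have e1 : X / P + X / P = 2 * X / P := by ring
    rw [e1, div_le_iff₀ hP0]
    have h2 : 8 * X ^ 1 ≤ X ^ 13 := pw 8 (by linarith) (by norm_num)
    rw [pow_one] at h2
    linarith
  · have e1 : (1 / X / (4 * P)) ^ 2 / (X / P) * (1 / (2 * (X / P)) - 1) =
        (P / (2 * X) - 1) / (16 * X ^ 3 * P) := by
      field_simp
      ring
    have h2 : P / (4 * X) ≤ P / (2 * X) - 1 := by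
      have e2 : P / (2 * X) = P / (4 * X) + P / (4 * X) := by
        field_simp
        norm_num
      have h3 : 1 ≤ P / (4 * X) := by
        rw [le_div_iff₀ (by positivity)]
        have : 4 * X ^ 1 ≤ X ^ 13 := pw 4 (by linarith) (by norm_num)
        rw [pow_one] at this
        linarith
      linarith
    rw [e1]
    calc 2 * (1 / X ^ 5) ≤ 1 / (64 * X ^ 4) := by
          rw [mul_one_div, div_le_div_iff₀ (by positivity) (by positivity)]
          have : 128 * X ^ 4 ≤ X ^ 5 := pw 128 (by linarith) (by norm_num)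
          linarith
      _ = P / (4 * X) / (16 * X ^ 3 * P) := by
          field_simp
          norm_num
      _ ≤ _ := by gcongr

/-- Type II for one number of bodies `N = P ≥ X ^ 13` and masses at least `exp (-Λ)`. -/
theorem type2_gen {X P : ℝ} (hX : 10 ^ 9 ≤ X) (hP : X ^ 13 ≤ P) {N : ℕ} (hN : (N : ℝ) = P)
    {m : Fin N → ℝ} (hM : ∑ i, m i = 1) {Λ : ℝ} (hΛ : 0 ≤ Λ) (hmΛ : ∀ i, Real.exp (-Λ) ≤ m i)
    (hmμ : ∀ i, m i ≤ X / P) {E : ℝ} (hE : E ≤ -(1 / X)) {S : Set (Ph N)} {ψ : Ph N → ℝ}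
    {φ : ℝ → Ph N → Ph N} (hset : Setting m S ψ φ)
    (hS : ∀ x : Ph N, x ∈ S ↔ (∀ i j, i ≠ j → x.1 i ≠ x.1 j) ∧ ∑ i, m i • x.1 i = 0 ∧
      ∑ i, x.2 i = 0 ∧ kin m x.2 - pot m x.1 = E) {x : Ph N} (hx : x ∈ S) {R : ℝ}
    (hR : 345600 * X ^ 2 * (Λ + 1) ≤ R) (hfar : ∃ i, R < ‖x.1 i‖) :
    ∃ y ∈ S, Wandering S φ y ∧ (∀ i, ‖y.1 i - x.1 i‖ ≤ 1 / X) ∧
      (∀ i, ‖(m i)⁻¹ • y.2 i - (m i)⁻¹ • x.2 i‖ ≤ 1 / X) := by
  classical
  have hm : ∀ i, 0 < m i := fun i => lt_of_lt_of_le (Real.exp_pos _) (hmΛ i)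
  have hX1 : 1 ≤ X := le_trans (by norm_num) hX
  have hX0 : 0 < X := by linarith
  have hP0 : 0 < P := lt_of_lt_of_le (by positivity) hP
  have hNpos : 0 < N := by
    have : (0 : ℝ) < N := by rw [hN]; exact hP0
    exact_mod_cast this
  have hμ0 : 0 < X / P := by positivity
  obtain ⟨n1, n2, n3, n4, n5, n6, n7⟩ := num_t2 hX hP
  obtain ⟨q, p⟩ := x
  obtain ⟨v, hv⟩ : ∃ v : Fin N → V3, v = fun i => (m i)⁻¹ • p i := ⟨_, rfl⟩
  have hpv : p = fun i => m i • v i := by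
    funext i
    rw [hv]
    simp only
    rw [smul_smul, mul_inv_cancel₀ (hm i).ne', one_smul]
  obtain ⟨hx1, hx2, hx3, hx4⟩ := (hS _).mp hx
  simp only at hx1 hx2 hx3 hx4 hfar ⊢
  have hkin : 0 ≤ kin m p := by
    unfold kin
    apply Finset.sum_nonneg
    intro i _
    have := hm i
    positivity
  have hpot : (X / P * (1 + 2 * X ^ 2 / (1 / (4 * X))) ^ 3 / (1 / (4 * X)) + 1 / X ^ 2) / 2 <
      pot m q := by linarith
  obtain ⟨a, b, hab, hclose⟩ := exists_close_pair hm hM hmμ q (s := 1 / (4 * X)) (ρ := X ^ 2)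
    (by positivity) (by positivity) hpot
  have hcl : ‖q a - q b‖ ≤ 1 / (2 * X) / 2 := by
    refine hclose.le.trans (le_of_eq ?_)
    rw [div_div]
    congr 1
    ring
  obtain ⟨z, hz1, hz2, -, hz4, hz5⟩ := M2_point hm hM.le q a b (δ := 1 / (2 * X)) (σ := 1 / P)
    (by positivity) hcl (by positivity) (by rw [hN]; exact n2)
  have hδ : 3 * (1 / (2 * X)) / 4 ≤ 1 / X / 2 := by
    rw [div_div, mul_one_div, div_div, div_le_div_iff₀ (by positivity) (by positivity)]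
    nlinarith
  -- the velocities
  have hH : ∀ i ∈ heavy m, 1 / X / (4 * P) ≤ m i * (1 / X / 2) := by
    intro i hi
    rw [heavy, Finset.mem_filter] at hi
    have h1 := hi.2
    rw [hN] at h1
    calc 1 / X / (4 * P) = 1 / (2 * P) * (1 / X / 2) := by
          field_simp
          norm_num
      _ ≤ m i * (1 / X / 2) := by gcongr
  obtain ⟨v₁, hv1, hv2, hv3⟩ := t2_kick hm hμ0 hmμ v (ε := 1 / X / 2) (p := 1 / X / (4 * P))
    (by positivity) (by positivity) (heavy m) hH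
  have hcard := card_heavy hNpos hM hμ0 hmμ
  have hkin2 : ∑ i, m i * ‖v i‖ ^ 2 + 2 * (1 / X ^ 5) ≤ ∑ i, m i * ‖v₁ i‖ ^ 2 := by
    refine le_trans ?_ hv3
    have h1 : (1 / X / (4 * P)) ^ 2 / (X / P) * (1 / (2 * (X / P)) - 1) ≤
        (1 / X / (4 * P)) ^ 2 / (X / P) * (((heavy m).card : ℝ) - 1) := by
      apply mul_le_mul_of_nonneg_left _ (by positivity)
      linarith
    linarith
  -- the masses of the pair
  have hma := hm a
  have hmb := hm b
  have hsum : m a + m b ≤ X / P + X / P := add_le_add (hmμ a) (hmμ b)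
  have hprod : m a * m b ≤ X / P * (X / P) := mul_le_mul (hmμ a) (hmμ b) hmb.le hμ0.le
  -- the most distant body
  have : Nonempty (Fin N) := ⟨a⟩
  obtain ⟨i₁, hi₁⟩ := Finite.exists_max (fun i => ‖q i‖)
  obtain ⟨i₂, hi₂⟩ := hfar
  have hfar1 : R < ‖q i₁‖ := lt_of_lt_of_le hi₂ (hi₁ i₂)
  have hX2 : 1 ≤ X ^ 2 := one_le_pow₀ hX1
  have hR1 : 345600 ≤ R := by
    have h1 : 345600 * 1 * 1 ≤ 345600 * X ^ 2 * (Λ + 1) := by
      apply mul_le_mul _ _ zero_le_one (by positivity)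
      · linarith
      · linarith
    linarith
  have hX3 : 1 / X ≤ 1 := by
    rw [div_le_one hX0]
    exact hX1
  have hbig : 864 * (Λ + 1) < (1 / X / 10) ^ 2 * (‖q i₁‖ / 4) := by
    have h1 : (1 / X / 10) ^ 2 * (‖q i₁‖ / 4) = ‖q i₁‖ / (400 * X ^ 2) := by
      field_simp
      ring
    rw [h1, lt_div_iff₀ (by positivity)]
    calc 864 * (Λ + 1) * (400 * X ^ 2) = 345600 * X ^ 2 * (Λ + 1) := by ring
      _ ≤ R := hR
      _ < ‖q i₁‖ := hfar1
  have hx' : ((q, fun i => m i • v i) : Ph N) ∈ S := by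
    rw [← hpv]
    exact hx
  obtain ⟨y, hyS, hyW, hy1, hy2⟩ := t2_core hm hM hΛ hmΛ hset hS hx' (δ := 1 / X) (by positivity)
    hv1 hv2 (G := 1 / X ^ 5) (by positivity) hkin2 hab (z := z) (hz1.trans hδ) (hz2.trans hδ)
    (hsum.trans n6) (s := 1 / (2 * P)) (B := 32 * X) (by positivity)
    (fun k hk => by
      rw [Finset.mem_compl, Finset.mem_insert, Finset.mem_singleton, not_or] at hk
      refine lt_of_lt_of_le ?_ (hz4 k hk.1 hk.2)
      apply one_div_lt_one_div_of_lt hP0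
      linarith)
    (by
      rw [Finset.compl_eq_univ_sdiff]
      refine hz5.trans (le_of_eq ?_)
      field_simp
      norm_num)
    (le_trans (by gcongr) n3) (le_trans (by gcongr) n4) (le_trans (by gcongr) n5) i₁ hi₁
    (by linarith) hbig
  refine ⟨y, hyS, hyW, hy1, fun i => ?_⟩
  have h1 := hy2 i
  rw [hv] at h1
  exact h1

/-- Type II with the conventions of the third version: `N = X ^ 3600`, masses between
`N ^ (-1 - 1 / 3600)` and `N ^ (-1 + 1 / 3600)`. -/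
theorem type2_at : ∃ X₀ : ℝ, ∀ X, X₀ ≤ X → ∀ {N : ℕ}, (N : ℝ) = X ^ 3600 →
    ∀ {m : Fin N → ℝ}, (∑ i, m i = 1) → (∀ i, 1 / (X * X ^ 3600) ≤ m i) →
      (∀ i, m i ≤ X / X ^ 3600) → ∀ {E : ℝ}, E ≤ -(1 / X) →
      ∀ {S : Set (Ph N)} {ψ : Ph N → ℝ} {φ : ℝ → Ph N → Ph N}, Setting m S ψ φ →
      (∀ x : Ph N, x ∈ S ↔ (∀ i j, i ≠ j → x.1 i ≠ x.1 j) ∧ ∑ i, m i • x.1 i = 0 ∧
        ∑ i, x.2 i = 0 ∧ kin m x.2 - pot m x.1 = E) →
      ∀ x ∈ S, (∃ i, X ^ 5 < ‖x.1 i‖) →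
        ∃ y ∈ S, Wandering S φ y ∧ (∀ i, ‖y.1 i - x.1 i‖ ≤ 1 / X) ∧
          (∀ i, ‖(m i)⁻¹ • y.2 i - (m i)⁻¹ • x.2 i‖ ≤ 1 / X) := by
  refine ⟨10 ^ 10, ?_⟩
  intro X hX N hN m hM hmX hmμ E hE S ψ φ hset hS x hx hfar
  have hX9 : (10 : ℝ) ^ 9 ≤ X := le_trans (by norm_num) hX
  have hX1 : 1 ≤ X := le_trans (by norm_num) hX
  have hX0 : 0 < X := by linarith
  have hlog : 0 ≤ Real.log X := Real.log_nonneg hX1
  have hlog2 : Real.log X ≤ X := (Real.log_le_sub_one_of_pos hX0).trans (by linarith)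
  refine type2_gen hX9 (P := X ^ 3600) (pow_le_pow_right₀ hX1 (by norm_num)) hN hM
    (Λ := 3601 * Real.log X) (by positivity) (fun i => ?_) hmμ hE hset hS hx (R := X ^ 5) ?_ hfar
  · refine le_trans (le_of_eq ?_) (hmX i)
    have h1 : Real.exp (3601 * Real.log X) = X * X ^ 3600 := by
      rw [show (3601 : ℝ) * Real.log X = ((3601 : ℕ) : ℝ) * Real.log X by norm_num,
        Real.exp_nat_mul, Real.exp_log hX0, ← pow_succ']
    rw [Real.exp_neg, h1, one_div]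
  · have h1 : 3601 * Real.log X + 1 ≤ 3602 * X := by linarith
    have h2 : (345600 : ℝ) * 3602 ≤ X := le_trans (by norm_num) hX
    calc 345600 * X ^ 2 * (3601 * Real.log X + 1) ≤ 345600 * X ^ 2 * (3602 * X) := by gcongr
      _ = 345600 * 3602 * X ^ 3 := by ring
      _ ≤ X * X ^ 3 := by gcongr
      _ = X ^ 4 := by ring
      _ ≤ X ^ 5 := pow_le_pow_right₀ hX1 (by norm_num)

end Pool.Agent.NBody
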