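import Mathlib
import Pool.Agent.NBody.ThMain3
import Pool.Agent.NBody.ThNum4A
import Pool.Agent.NBody.ThPrep4A
import Pool.Agent.NBody.ThBoot4A
import Pool.Agent.NBody.Th4Static
import Pool.Agent.NBody.Th4Vol


/-!
The whole energy surface: bounded positions and no very fast body. The wandering state carries a
gun.
-/

set_option autoImplicit false
open scoped RealInnerProductSpace
open Set Finset Filter Topology

namespace Pool.Agent.NBody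

theorem kin_eq_sum {N : ℕ} {m : Fin N → ℝ} (hm : ∀ i, 0 < m i) (p : Fin N → V3) :
    ∑ i, m i * ‖(m i)⁻¹ • p i‖ ^ 2 = 2 * kin m p := by
  unfold kin
  rw [Finset.mul_sum]
  refine Finset.sum_congr rfl fun i _ => ?_
  have := hm i
  rw [norm_smul, norm_inv, Real.norm_of_nonneg this.le]
  field_simp

theorem kin_nonneg {N : ℕ} {m : Fin N → ℝ} (hm : ∀ i, 0 < m i) (p : Fin N → V3) :
    0 ≤ kin m p := by
  unfold kin
  exact Finset.sum_nonneg fun i _ => div_nonneg (by positivity) (by have := hm i; positivity)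

theorem type1A_at4 {s : Fin 3 → V3} {e : V3} {μ₀ C₀ η₀ u₀ B X : ℝ} (hs : GunShape s e)
    (hμ₀ : 0 < μ₀) (hC : 0 < C₀) (hη₀ : 0 < η₀) (hη₁ : η₀ ≤ 1 / 2)
    (hg3 : GunProp3 s e μ₀ C₀ η₀) (hu₀ : u₀ = ∑ k, ∑ l, 1 / ‖s k - s l‖) (hu : 0 < u₀)
    (hB : 1 ≤ B) (huB : u₀ ≤ B) (hCB : C₀ ≤ B) (hηB : 1 / η₀ ≤ B)
    (hX : 10 ^ 9 * B ^ 2 ≤ X) {N : ℕ} (hN : (N : ℝ) = X ^ 3600) {m : Fin N → ℝ}
    (hm1 : ∑ i, m i = 1) (hmX : ∀ i, Real.exp (-X) ≤ m i) {E : ℝ} (hE : E ≤ -(1 / X))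
    {S : Set (Ph N)} {ψ : Ph N → ℝ} {φ : ℝ → Ph N → Ph N} (hset : Setting m S ψ φ)
    (hS : ∀ x : Ph N, x ∈ S ↔ (∀ i j, i ≠ j → x.1 i ≠ x.1 j) ∧ ∑ i, m i • x.1 i = 0 ∧
      ∑ i, x.2 i = 0 ∧ kin m x.2 - pot m x.1 = E) {x : Ph N} (hx : x ∈ S)
    (hxR : ∀ i, ‖x.1 i‖ ≤ X ^ 16) {g : Fin 3 → Fin N} (hg : Function.Injective g)
    (hgq : ∀ k l, ‖x.1 (g k) - x.1 (g l)‖ ≤ 1 / (16 * X))
    (hgm : ∀ k, |m (g k) / m (g 0) - 1| ≤ η₀) (hgM : m (g 0) ≤ X ^ 2 / X ^ 3600) {W : ℝ}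
    (hW : 0 < W) (hW2 : W ^ 2 = pot m x.1 / m (g 0))
    (hslow : ∀ i, ‖(m i)⁻¹ • x.2 i‖ ≤ W / X ^ 180) :
    ∃ y ∈ S, Wandering S φ y ∧ (∀ i, ‖y.1 i - x.1 i‖ ≤ 1 / X) ∧
      (∀ i, ‖(m i)⁻¹ • y.2 i - (m i)⁻¹ • x.2 i‖ ≤ 1 / X) := by
  have hm : ∀ i, 0 < m i := fun i => lt_of_lt_of_le (Real.exp_pos _) (hmX i)
  have hB2 : B ≤ B ^ 2 := by nlinarith
  have hX9 : (10 : ℝ) ^ 9 ≤ X := by nlinarith
  have hX1 : 1 ≤ X := le_trans (by norm_num) hX9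
  have hX0 : 0 < X := by linarith
  obtain ⟨hx1, hx2, hx3, hx4⟩ := (hS x).mp hx
  have hU : 1 / X ≤ pot m x.1 := by
    have := kin_nonneg hm x.2
    linarith
  have hU0 : 0 < pot m x.1 := lt_of_lt_of_le (by positivity) hU
  have hE2 : ∑ i, m i * ‖(m i)⁻¹ • x.2 i‖ ^ 2 ≤ 2 * pot m x.1 := by
    rw [kin_eq_sum hm]
    have : 0 < 1 / X := by positivity
    linarith
  have hc : 1 / (32 * X) = 1 / X / 32 := by
    rw [div_div]
    ring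
  obtain ⟨p1, p2, p3, p4⟩ := num4_prepA hu hB huB hX (hm (g 0)) hgM hU
  obtain ⟨o1, o2, o3, o4⟩ := num4_othersA hX9 (hm (g 0)) hgM hU hW hW2 rfl hN
  have hτ0 : 0 < X ^ 27 / W := by positivity
  have hκ0 : 0 < 1 / X ^ 75 := by positivity
  have hκ1 : 1 / X ^ 75 ≤ 1 := by
    rw [div_le_one (by positivity)]
    exact one_le_pow₀ hX1
  obtain ⟨F, hFd⟩ : ∃ F : Finset (Fin N), F = Finset.univ.filter (fun i =>
    (1 / X ^ 75 / (N : ℝ)) ^ (1 / 3 : ℝ) / 8 < ‖(m i)⁻¹ • x.2 i‖ * (X ^ 27 / W)) := ⟨_, rfl⟩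
  have hMF : ∑ i ∈ F, m i ≤
      2 * pot m x.1 * (8 * (X ^ 27 / W) / (1 / X ^ 75 / (N : ℝ)) ^ (1 / 3 : ℝ)) ^ 2 := by
    rw [hFd]
    exact mass_fast4 (u := fun i => (m i)⁻¹ • x.2 i) hm hE2 hκ0
  have hvol : ∀ i, ∑ j ∈ Finset.univ.filter (fun j => j ≠ i ∧ m i ≤ m j),
      (‖(m i)⁻¹ • x.2 i - (m j)⁻¹ • x.2 j‖ * (X ^ 27 / W) * sep4 (1 / X ^ 75) m F i j ^ 2 +
        sep4 (1 / X ^ 75) m F i j ^ 3) ≤
        (1 / (128 * X ^ 17)) ^ 3 * (1 / (32 * X)) ^ 3 / 2000 := by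
    intro i
    refine (vol4 (fun i => (hm i).le) hm1.le hκ0 hκ1 hτ0.le (fun i => (m i)⁻¹ • x.2 i) hslow F
      (fun i hi => ?_) i).trans (num4_vol hX9 ?_)
    · rw [hFd] at hi
      simp only [Finset.mem_filter, Finset.mem_univ, true_and, not_lt] at hi
      exact hi
    · have e1 : W / X ^ 180 * (X ^ 27 / W) = 1 / X ^ 153 := by field_simp
      rw [mul_assoc, e1]
      have e2 : 1 / X ^ 153 ≤ 1 := by
        rw [div_le_one (by positivity)]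
        exact one_le_pow₀ hX1
      have e3 : (1 : ℝ) ≤ X ^ 17 := one_le_pow₀ hX1
      linarith
  obtain ⟨r, z, q, h1, h2, -, h4, h5, h6, h7, h8⟩ :=
    prep4A hm hm1 hs (E := E) (R := X ^ 16) (δ₁ := 1 / X) (η₀ := η₀) (θ := 1 / (8 * X ^ 17))
      (ε := 1 / (128 * X ^ 17)) (τ := X ^ 27 / W) (ν := W / X ^ 180) (ω := W / X ^ 180)
      (u₀ := u₀) (c := 1 / (32 * X)) (sep := sep4 (1 / X ^ 75) m F) (g := g) hg
      (by positivity) (by rw [div_le_one hX0]; exact hX1) hc hη₁ (by positivity)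
      (by
        rw [div_le_one (by positivity)]
        have : (1 : ℝ) ≤ X ^ 17 := one_le_pow₀ hX1
        linarith) p1 (by positivity) p2 hu₀ hτ0.le (sep4_pos hκ0 m F) (sep4_comm _ m F)
      hx1 hx2 hx4 hxR hslow (fun k l => (hgq k l).trans (le_of_eq (by rw [div_div, mul_comm])))
      hgm (fun k => hslow _) hU0 p3 p4 hvol
  have hr0 : 0 < r := lt_of_lt_of_le (by have := hm (g 0); positivity) h1
  obtain ⟨a1, a2, a3, -, a5, a6, a7, a8, a9, a10, a11⟩ := num4_gun hu hC hη₀ hB huB hCB hηB hX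
    (hm (g 0)) hgM hU hW hW2 (c := 1 / (32 * X)) rfl (τ := X ^ 27 / W) rfl
    (ω := W / X ^ 180) rfl hr0 h2 (y := √(m (g 0) / r)) rfl
    (η := r ^ 2 / m (g 0) * (16 / (1 / (32 * X)) ^ 2)) rfl (R := X ^ 16 + 1) rfl
  have hm1' : ∀ i, m i ≤ 1 := fun i =>
    (Finset.single_le_sum (fun j _ => (hm j).le) (Finset.mem_univ i)).trans hm1.le
  have hN1 : (1 : ℝ) ≤ N := by
    rw [hN]
    exact one_le_pow₀ hX1
  have hσ0 : 0 < √(1 / X ^ 75 / (N : ℝ)) := Real.sqrt_pos.mpr (by positivity)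
  obtain ⟨hK3, hF3⟩ := boot_at4A hs hμ₀ hC hg3 (R := X ^ 16 + 1) (c := 1 / (32 * X))
    (ν := W / X ^ 180) (ω := W / X ^ 180) (r := r) (τ := X ^ 27 / W) (A := X ^ 913)
    (A0 := 8 * (54 + 27 * X ^ 836) / (1 / X ^ 75)) (MG := 1)
    (σ := √(1 / X ^ 75 / (N : ℝ))) hm hm1.le hgm (by positivity) (by positivity)
    (by
      rw [div_le_iff₀ (by positivity)]
      linarith) hr0 a1 a2 hτ0 (by positivity) (by positivity) hσ0
    (fun i _ j _ _ => sep4_ge hκ0 hκ1 hm1' F i j)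
    ((Finset.sum_le_sum_of_subset_of_nonneg (Finset.subset_univ _)
      (fun i _ _ => (hm i).le)).trans hm1.le)
    (by
      intro z' hz' i hi
      have hmem : ∀ i, i ∉ Finset.univ.image g ↔ i ∉ Set.range g := by
        intro i
        simp
      exact force4A (G := Finset.univ.image g) hm hm1.le hκ0 hκ1 hMF (by positivity) o1 z'
        (fun i hi j hj hij => hz' i ((hmem i).mp hi) j ((hmem j).mp hj) hij) i
        ((hmem i).mpr hi))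
    (by positivity) o2 o3 o4 a3 rfl rfl a5 a6 a7 a8 a9 h4
  have hp2 : (fun i => m i • (m i)⁻¹ • x.2 i) = x.2 := by
    funext i
    rw [smul_smul, mul_inv_cancel₀ (hm i).ne', one_smul]
  have hyS : ((q, fun i => m i • (m i)⁻¹ • x.2 i) : Ph N) ∈ S := by
    rw [hp2]
    exact (hS _).mpr ⟨h5, h6, hx3, h7⟩
  refine ⟨(q, fun i => m i • (m i)⁻¹ • x.2 i), hyS, ?_, h8, fun i => ?_⟩
  · refine wandering_of_boot3 hm hm1.le hX0.le hmX hset hyS (τ := X ^ 27 / W)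
      (u := √(m (g 0) / r) / 2) (h := X ^ 16 + 1 + 2) (D := 2 * (X ^ 16 + 1)) hτ0.le a10
      (by positivity) hs.norm.le hK3 ?_ a11
    intro q' v' hsol hq' hv'
    obtain ⟨b1, b2, b3⟩ := hF3 q' v' hsol hq' hv'
    refine ⟨⟨g 0, by linarith⟩, fun i hi => ?_⟩
    by_cases h : i = g 0
    · rw [h]
      exact b3
    · exact absurd (b1 i h) (not_le.mpr hi)
  · show ‖(m i)⁻¹ • (m i • (m i)⁻¹ • x.2 i) - (m i)⁻¹ • x.2 i‖ ≤ 1 / X
    rw [smul_smul, inv_mul_cancel₀ (hm i).ne', one_smul, sub_self, norm_zero]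
    positivity

end Pool.Agent.NBody
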