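import Mathlib
import Pool.Agent.NBody.ThMain3
import Pool.Agent.NBody.ThNum4A
import Pool.Agent.NBody.ThNum4B
import Pool.Agent.NBody.ThPrep3B
import Pool.Agent.NBody.ThBoot4B
import Pool.Agent.NBody.Th4Static
import Pool.Agent.NBody.Th4Vol
import Pool.Agent.NBody.ThType4A

/-!
The whole energy surface: bounded positions and some very fast body. The wandering state carries a
tight pair.
-/

set_option autoImplicit false
open scoped RealInnerProductSpace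
open Set Finset Filter Topology

namespace Pool.Agent.NBody

theorem type1B_at4 {X : ℝ} (hX : 10 ^ 9 ≤ X) {N : ℕ} (hN : (N : ℝ) = X ^ 3600)
    {m : Fin N → ℝ} (hm1 : ∑ i, m i = 1) (hmX : ∀ i, Real.exp (-X) ≤ m i) {E : ℝ}
    (hE : E ≤ -(1 / X)) {S : Set (Ph N)} {ψ : Ph N → ℝ} {φ : ℝ → Ph N → Ph N}
    (hset : Setting m S ψ φ)
    (hS : ∀ x : Ph N, x ∈ S ↔ (∀ i j, i ≠ j → x.1 i ≠ x.1 j) ∧ ∑ i, m i • x.1 i = 0 ∧
      ∑ i, x.2 i = 0 ∧ kin m x.2 - pot m x.1 = E) {x : Ph N} (hx : x ∈ S)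
    (hxR : ∀ i, ‖x.1 i‖ ≤ X ^ 16) {g : Fin 3 → Fin N} (hg : Function.Injective g)
    (hgq : ∀ k l, ‖x.1 (g k) - x.1 (g l)‖ ≤ 1 / (16 * X))
    (hgm : ∀ k, |m (g k) / m (g 0) - 1| ≤ 1 / 2) (hgM : m (g 0) ≤ X ^ 2 / X ^ 3600) {W : ℝ}
    (hW : 0 < W) (hW2 : W ^ 2 = pot m x.1 / m (g 0))
    (hgu : ∀ k, ‖(m (g k))⁻¹ • x.2 (g k)‖ ≤ X ^ 2 * W / X ^ 1800)
    (hfast : ∃ i, W / X ^ 180 < ‖(m i)⁻¹ • x.2 i‖) :
    ∃ y ∈ S, Wandering S φ y ∧ (∀ i, ‖y.1 i - x.1 i‖ ≤ 1 / X) ∧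
      (∀ i, ‖(m i)⁻¹ • y.2 i - (m i)⁻¹ • x.2 i‖ ≤ 1 / X) := by
  have hm : ∀ i, 0 < m i := fun i => lt_of_lt_of_le (Real.exp_pos _) (hmX i)
  have hX1 : 1 ≤ X := le_trans (by norm_num) hX
  have hX0 : 0 < X := by linarith
  obtain ⟨hx1, hx2, hx3, hx4⟩ := (hS x).mp hx
  have hU : 1 / X ≤ pot m x.1 := by
    have := kin_nonneg hm x.2
    linarith
  have hU0 : 0 < pot m x.1 := lt_of_lt_of_le (by positivity) hU
  have hE2 : ∑ i, m i * ‖(m i)⁻¹ • x.2 i‖ ^ 2 ≤ 2 * pot m x.1 := by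
    rw [kin_eq_sum hm]
    have : 0 < 1 / X := by positivity
    linarith
  have hm1' : ∀ i, m i ≤ 1 := fun i =>
    (Finset.single_le_sum (fun j _ => (hm j).le) (Finset.mem_univ i)).trans hm1.le
  have hN1 : (1 : ℝ) ≤ N := by
    rw [hN]
    exact one_le_pow₀ hX1
  -- the fastest body
  obtain ⟨i₀, -, hi₀⟩ := Finset.exists_max_image Finset.univ (fun i => ‖(m i)⁻¹ • x.2 i‖)
    ⟨g 0, Finset.mem_univ _⟩
  obtain ⟨V, hVd⟩ : ∃ V : ℝ, V = ‖(m i₀)⁻¹ • x.2 i₀‖ := ⟨_, rfl⟩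
  have hVle : ∀ i, ‖(m i)⁻¹ • x.2 i‖ ≤ V := fun i => by
    rw [hVd]
    exact hi₀ i (Finset.mem_univ i)
  have hV : W / X ^ 180 < V := by
    obtain ⟨i, hi⟩ := hfast
    exact hi.trans_le (hVle i)
  obtain ⟨τ, hτ⟩ : ∃ τ : ℝ, τ = 8 * (X ^ 16 + 3) / V := ⟨_, rfl⟩
  obtain ⟨w, hw⟩ : ∃ w : ℝ, w = X ^ 2 * W / X ^ 1800 := ⟨_, rfl⟩
  -- the pair
  have hab : g 0 ≠ g 1 := fun h => absurd (hg h) (by decide)
  have hmb := hm (g 1)
  have hma := hm (g 0)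
  have hmb1 : m (g 1) ≤ 2 * m (g 0) := by
    have h1 := (abs_le.mp (hgm 1)).2
    have h2 : m (g 1) / m (g 0) ≤ 2 := by linarith
    rwa [div_le_iff₀ hma] at h2
  obtain ⟨hV0, hτ0, hVτ, -, -, -⟩ := num4B_tau hX hma hgM hU hW hW2 hV hτ
  obtain ⟨p1, p2, p3, p4, p5, p6, p7, p8⟩ :=
    num4B_prep hX hma hmb hmb1 hgM hU hW hW2 hV hτ hw
  obtain ⟨o1, o2, o3, o4, o5, o6, o7, o8⟩ :=
    num4B_boot hX hma hmb hmb1 hgM hU hW hW2 hV hτ hw
  obtain ⟨k1, k2⟩ := num4_kap hX1 hN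
  have hκ0 : 0 < 1 / X ^ 75 := by positivity
  have hκ1 : 1 / X ^ 75 ≤ 1 := by
    rw [div_le_one (by positivity)]
    exact one_le_pow₀ hX1
  obtain ⟨F, hFd⟩ : ∃ F : Finset (Fin N), F = Finset.univ.filter (fun i =>
    (1 / X ^ 75 / (N : ℝ)) ^ (1 / 3 : ℝ) / 8 < ‖(m i)⁻¹ • x.2 i‖ * τ) := ⟨_, rfl⟩
  have hMF : ∑ i ∈ F, m i ≤
      2 * pot m x.1 * (8 * τ / (1 / X ^ 75 / (N : ℝ)) ^ (1 / 3 : ℝ)) ^ 2 := by
    rw [hFd]
    exact mass_fast4 (u := fun i => (m i)⁻¹ • x.2 i) hm hE2 hκ0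
  have hMB : (N : ℝ) * (2 * pot m x.1 * (8 * τ / (1 / X ^ 75 / (N : ℝ)) ^ (1 / 3 : ℝ)) ^ 2) ≤
      (X ^ 949) ^ 3 := by
    rw [k1, hN]
    exact o1
  have hc : 1 / (32 * X) = 1 / X / 32 := by
    rw [div_div]
    ring
  have hθ0 : 0 < 1 / (8 * X ^ 17) := by positivity
  have h17 : (1 : ℝ) ≤ X ^ 17 := one_le_pow₀ hX1
  obtain ⟨r, z, uc, q, v, h1, h2, -, h4, h5, h6, h7, h8, h9, h10, h11, h12, h13, h14, h15, h16,
    h17', h18, h19⟩ :=
    prep3B_at hm hm1 (E := E) (R := X ^ 16) (δ := 1 / X) (θ := 1 / (8 * X ^ 17))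
      (ε := 1 / (128 * X ^ 17)) (c := 1 / (32 * X)) (τ := τ) (ω := w)
      (sep := sep4 (1 / X ^ 75) m F) (a := g 0) (b := g 1) hab (by positivity)
      (by rw [div_le_one hX0]; exact hX1) hc hθ0
      (by
        rw [div_le_one (by positivity)]
        linarith)
      (by
        apply le_of_eq
        field_simp)
      (by
        apply le_of_eq
        field_simp
        norm_num)
      hτ0.le (fun i j _ => sep4_pos hκ0 m F i j) hx1 hx2 hx3 hx4 hxR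
      ((hgq 0 1).trans (le_of_eq (by rw [div_div, mul_comm])))
      (by rw [hw]; exact hgu 0) (by rw [hw]; exact hgu 1) hU0 p1 p2
      (by
        rw [← mul_assoc]
        exact p3)
      (hspread4B (fun i => (hm i).le) hm1.le hκ0 hκ1 hτ0.le (by positivity) (by positivity)
        (by
          rw [div_le_div_iff₀ (by positivity) (by norm_num)]
          linarith)
        (by
          refine le_trans ?_ p8
          have e1 : 0 < 1 / X ^ 75 * (2 * (V * τ) + 2) := by positivity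
          have e2 : 2 * (1 / X ^ 75) * (2 * V * τ + 2) = 2 * (1 / X ^ 75 * (2 * (V * τ) + 2)) := by
            ring
          have e3 : 8 * (1 / X ^ 75) * (2 * (V * τ) + 2) =
              8 * (1 / X ^ 75 * (2 * (V * τ) + 2)) := by
            ring
          rw [e2, e3]
          linarith)
        F (fun i => (m i)⁻¹ • x.2 i) hVle
        (fun i hi => by
          rw [hFd] at hi
          simp only [Finset.mem_filter, Finset.mem_univ, true_and, not_lt] at hi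
          exact hi)
        (g 0) p6.le (by
          rw [k1]
          exact p7))
  have hr0 : 0 < r := lt_of_lt_of_le (by positivity) h1
  rw [← mul_assoc] at h2
  obtain ⟨o51, o52⟩ := o5 r hr0 h2
  have hi₀a : i₀ ≠ g 0 := by
    intro h
    have e1 := hgu 0
    rw [← h, ← hVd, ← hw] at e1
    linarith
  have hi₀b : i₀ ≠ g 1 := by
    intro h
    have e1 := hgu 1
    rw [← h, ← hVd, ← hw] at e1
    linarith
  obtain ⟨e, he⟩ : ∃ e : V3, e = V⁻¹ • ((m i₀)⁻¹ • x.2 i₀) := ⟨_, rfl⟩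
  have he1 : ‖e‖ = 1 := by
    rw [he, norm_smul, norm_inv, Real.norm_of_nonneg hV0.le, ← hVd, inv_mul_cancel₀ hV0.ne']
  have hvi₀ : V / 2 ≤ ⟪v i₀, e⟫ := by
    rw [h13 i₀ hi₀a hi₀b, he, real_inner_smul_right, real_inner_self_eq_norm_sq, ← hVd]
    have e1 : V⁻¹ * V ^ 2 = V := by field_simp
    rw [e1]
    linarith
  have hvV : ∀ i, ‖v i‖ ≤ V := by
    intro i
    by_cases ha : i = g 0
    · have e1 := h19 i
      have e2 := hgu 0
      rw [← hw, ← ha] at e2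
      have e3 : v i = (v i - (m i)⁻¹ • x.2 i) + (m i)⁻¹ • x.2 i := by abel
      rw [e3]
      have e4 := norm_add_le (v i - (m i)⁻¹ • x.2 i) ((m i)⁻¹ • x.2 i)
      linarith
    by_cases hb : i = g 1
    · have e1 := h19 i
      have e2 := hgu 1
      rw [← hw, ← hb] at e2
      have e3 : v i = (v i - (m i)⁻¹ • x.2 i) + (m i)⁻¹ • x.2 i := by abel
      rw [e3]
      have e4 := norm_add_le (v i - (m i)⁻¹ • x.2 i) ((m i)⁻¹ • x.2 i)
      linarith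
    rw [h13 i ha hb]
    exact hVle i
  have h16' : (1 : ℝ) ≤ X ^ 16 := one_le_pow₀ hX1
  have hσ1 : 1 / X ^ 1838 ≤ 1 := by
    rw [div_le_one (by positivity)]
    exact one_le_pow₀ hX1
  obtain ⟨hK3, hF3⟩ := boot4B (R := X ^ 16 + 1) (ω := 2 * w + 1 / X / 4) (τ := τ)
    (σ := 1 / X ^ 1838) (r := r) (lam := 1 / X / 4)
    (A0 := 8 * (54 + 27 * X ^ 949) / (1 / X ^ 75)) (A := X ^ 1026) (V := V)
    (sep := sep4 (1 / X ^ 75) m F) (a := g 0) (b := g 1) (i₀ := i₀) (z := z) (u := uc) (e := e)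
    (q₀ := q) (v₀ := v) hm hm1.le (by linarith) (by positivity) hσ1
    (fun i j _ => k2.trans (sep4_ge hκ0 hκ1 hm1' F i j)) hr0 o51 (by positivity)
    (by positivity) (force4B hm hm1.le hκ0 hκ1 hMF (by positivity) hMB) o2 o3 o4 o52 o6 hV0
    (by rw [mul_comm, hVτ]; ring) o7 he1 hvV hvi₀ hi₀a hi₀b
    ⟨hab, h4, h5, h6, h7, h8, h9.trans (by
      have : 0 < 1 / X := by positivity
      linarith), h10, h11, h12⟩
  have hyS : ((q, fun i => m i • v i) : Ph N) ∈ S := (hS _).mpr ⟨h14, h15, h16, h17'⟩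
  refine ⟨(q, fun i => m i • v i), hyS, ?_, h18, fun i => ?_⟩
  · exact wandering_of_boot3 hm hm1.le hX0.le hmX hset hyS (τ := τ) (u := V / 32)
      (h := 2 * (X ^ 16 + 1 + 2)) (D := (X ^ 16 + 1) / 2) hτ0.le (by positivity)
      (by positivity) he1.le hK3 hF3 o8
  · show ‖(m i)⁻¹ • (m i • v i) - (m i)⁻¹ • x.2 i‖ ≤ 1 / X
    rw [smul_smul, inv_mul_cancel₀ (hm i).ne', one_smul]
    exact h19 i

end Pool.Agent.NBody
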