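import Mathlib
import Pool.Agent.NBody.ThMain4
import Pool.Agent.NBody.ThType4A
import Pool.Agent.NBody.Th4Type2
import Pool.Agent.NBody.ThGunVFinal
import Pool.Agent.NBody.ThPrep2
import Pool.Agent.NBody.Th4Gun
import Pool.Agent.NBody.ThType4B

/-!
Every state of every negative energy surface: the three cases put together.
-/

set_option autoImplicit false
open scoped RealInnerProductSpace
open Set Finset Filter Topology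

namespace Pool.Agent.NBody

/-- Three slow bodies of one mass class in one cell, with the parameters of the cases I-A, I-B. -/
theorem gun4_at {X η₀ B : ℝ} (hX9 : 10 ^ 9 ≤ X) (hXB : 10 ^ 9 * B ≤ X) {N : ℕ}
    (hN : (N : ℝ) = X ^ 3600) {m : Fin N → ℝ} (hm1 : ∑ i, m i = 1)
    (hmX : ∀ i, Real.exp (-X) ≤ m i) {x : Ph N} (hU : 0 < pot m x.1)
    (hE2 : ∑ i, m i * ‖(m i)⁻¹ • x.2 i‖ ^ 2 ≤ 2 * pot m x.1)
    (hxR : ∀ i, ‖x.1 i‖ ≤ X ^ 16) (hη₀ : 0 < η₀) (hη₁ : η₀ ≤ 1 / 2) (hηB : 1 / η₀ ≤ B) :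
    ∃ g : Fin 3 → Fin N, Function.Injective g ∧
      (∀ k l, ‖x.1 (g k) - x.1 (g l)‖ ≤ 1 / (16 * X)) ∧
      (∀ k, |m (g k) / m (g 0) - 1| ≤ η₀) ∧ m (g 0) ≤ X ^ 2 / X ^ 3600 ∧
      (∀ k, ‖(m (g k))⁻¹ • x.2 (g k)‖ ^ 2 ≤ X ^ 4 * (pot m x.1 / m (g 0)) / N) := by
  have hX1 : 1 ≤ X := le_trans (by norm_num) hX9
  have hX0 : 0 < X := by linarith
  have hB1 : 1 ≤ B := by
    refine le_trans ?_ hηB
    rw [le_div_iff₀ hη₀]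
    linarith
  have hm : ∀ i, 0 < m i := fun i => lt_of_lt_of_le (Real.exp_pos _) (hmX i)
  have hX16 : 1 ≤ X ^ 16 := one_le_pow₀ hX1
  have hX17 : 1 ≤ X ^ 17 := one_le_pow₀ hX1
  obtain ⟨Q, hQ⟩ : ∃ Q, Q = 2 * X / η₀ + 1 := ⟨_, rfl⟩
  have hQ1 : Q ≤ 3 * (X * B) := by
    have h1 : 2 * X / η₀ ≤ 2 * (X * B) := by
      rw [div_eq_mul_one_div, mul_assoc]
      gcongr
    have h2 : 1 ≤ X * B := by nlinarith
    linarith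
  have hXB' : 0 < X * B := by positivity
  have hQ0 : 0 < Q := by rw [hQ]; positivity
  have hXX : 10 ^ 9 * (X * B) ≤ X ^ 2 := by nlinarith
  obtain ⟨K, hKd⟩ : ∃ K : ℕ, K = ⌈2 * X ^ 16 / (1 / (16 * X)) + 1⌉₊ := ⟨_, rfl⟩
  have hK : 2 * X ^ 16 / (1 / (16 * X)) + 1 ≤ K := by rw [hKd]; exact Nat.le_ceil _
  have hK2 : (K : ℝ) ≤ 32 * X ^ 17 + 2 := by
    have h1 : (K : ℝ) < 2 * X ^ 16 / (1 / (16 * X)) + 1 + 1 := by
      rw [hKd]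
      exact Nat.ceil_lt_add_one (by positivity)
    have h2 : 2 * X ^ 16 / (1 / (16 * X)) = 32 * X ^ 17 := by
      field_simp
      ring
    linarith
  have hK3 : 2 * (K : ℝ) + 1 ≤ X ^ 18 := by
    have h1 : X ^ 18 = X * X ^ 17 := by ring
    have h2 : 10 ^ 9 * X ^ 17 ≤ X * X ^ 17 := mul_le_mul_of_nonneg_right hX9 (by positivity)
    rw [h1]
    linarith
  have hNum : (2 * (K : ℝ) + 1) ^ 3 * 4 * Q < N := by
    have h1 : (2 * (K : ℝ) + 1) ^ 3 ≤ (X ^ 18) ^ 3 := by gcongr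
    have h2 : 4 * Q < X ^ 2 := by nlinarith
    have h3 : (X ^ 18) ^ 3 * X ^ 2 ≤ X ^ 3600 := by
      rw [← pow_mul, ← pow_add]
      exact pow_le_pow_right₀ hX1 (by norm_num)
    have h4 : 0 < (X ^ 18) ^ 3 := by positivity
    calc (2 * (K : ℝ) + 1) ^ 3 * 4 * Q = (2 * (K : ℝ) + 1) ^ 3 * (4 * Q) := by ring
      _ ≤ (X ^ 18) ^ 3 * (4 * Q) := mul_le_mul_of_nonneg_right h1 (by positivity)
      _ < (X ^ 18) ^ 3 * X ^ 2 := mul_lt_mul_of_pos_left h2 h4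
      _ ≤ N := by rw [hN]; exact h3
  rw [hQ] at hNum
  have hQX : 2 * (2 * X / η₀ + 1) ≤ X ^ 2 := by
    rw [← hQ]
    nlinarith
  obtain ⟨g, h1, h2, h3, h4, h5⟩ := exists_gun4 hm hm1 hX1 hmX hU
    (fun i => (m i)⁻¹ • x.2 i) hE2 x.1 hxR (by positivity : 0 < 1 / (16 * X)) hη₀ hη₁ hQX hK hNum
  exact ⟨g, h1, h2, h3, by rw [← hN]; exact h4, h5⟩

/-- `GunProp3` for a smaller `η₀`. -/
theorem GunProp3.anti {s : Fin 3 → V3} {e : V3} {μ₀ C₀ η₀ η₁ : ℝ} (h : GunProp3 s e μ₀ C₀ η₀)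
    (h1 : η₁ ≤ η₀) : GunProp3 s e μ₀ C₀ η₁ := by
  intro m hm T hT η h0 hη hηT α hα hα1 f Q V hs hf hQ hV
  exact h m (fun k => (hm k).trans h1) T hT η h0 (hη.trans h1) (hηT.trans h1) α hα
    (hα1.trans h1) f Q V hs hf hQ hV

/-- All states of the energies at most `- 1 / X`. -/
theorem whole4_of_large : ∃ X₀ : ℝ, 1 ≤ X₀ ∧ ∀ X : ℝ, X₀ ≤ X → Whole4 X := by
  obtain ⟨s, e, μ₀, C₀, η₀, hμ₀, hC, hη₀, hs, hg3⟩ := gun3_exists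
  have hu := gun_energy_pos hs
  obtain ⟨η₁, hη1⟩ : ∃ η₁, η₁ = min η₀ (1 / 2) := ⟨_, rfl⟩
  have h1 : 0 < η₁ := by rw [hη1]; positivity
  have h2 : η₁ ≤ η₀ := by rw [hη1]; exact min_le_left _ _
  have h3 : η₁ ≤ 1 / 2 := by rw [hη1]; exact min_le_right _ _
  obtain ⟨u₀, hu₀⟩ : ∃ u₀, u₀ = ∑ k, ∑ l, 1 / ‖s k - s l‖ := ⟨_, rfl⟩
  rw [← hu₀] at hu
  obtain ⟨B, hBd⟩ : ∃ B, B = max (max 1 u₀) (max C₀ (1 / η₁)) := ⟨_, rfl⟩
  have hB1 : 1 ≤ B := by rw [hBd]; exact le_trans (le_max_left _ _) (le_max_left _ _)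
  have hB2 : u₀ ≤ B := by rw [hBd]; exact le_trans (le_max_right _ _) (le_max_left _ _)
  have hB3 : C₀ ≤ B := by rw [hBd]; exact le_trans (le_max_left _ _) (le_max_right _ _)
  have hB4 : 1 / η₁ ≤ B := by rw [hBd]; exact le_trans (le_max_right _ _) (le_max_right _ _)
  have hB5 : 1 ≤ B ^ 2 := one_le_pow₀ hB1
  refine ⟨10 ^ 9 * B ^ 2, by linarith, ?_⟩
  intro X hX N hN m hm1 hmX E hE S ψ φ hset hS x hx
  have hX9 : (10 : ℝ) ^ 9 ≤ X := by linarith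
  have hXB : 10 ^ 9 * B ≤ X := by nlinarith
  have hX1 : 1 ≤ X := le_trans (by norm_num) hX9
  have hX0 : 0 < X := by linarith
  have hm : ∀ i, 0 < m i := fun i => lt_of_lt_of_le (Real.exp_pos _) (hmX i)
  obtain ⟨hx1, hx2, hx3, hx4⟩ := (hS x).mp hx
  have hU : 1 / X ≤ pot m x.1 := by
    have := kin_nonneg hm x.2
    linarith
  have hU0 : 0 < pot m x.1 := lt_of_lt_of_le (by positivity) hU
  have hE2 : ∑ i, m i * ‖(m i)⁻¹ • x.2 i‖ ^ 2 ≤ 2 * pot m x.1 := by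
    rw [kin_eq_sum hm]
    have : 0 < 1 / X := by positivity
    linarith
  by_cases hfar : ∃ i, X ^ 16 < ‖x.1 i‖
  · obtain ⟨i₁, hi₁⟩ := hfar
    exact type2_4 hm hm1 hX9 hmX hE (pow_le_pow_right₀ hX1 (by norm_num)) hset hS hx hi₁
  push Not at hfar
  obtain ⟨g, hg, hgq, hgm, hgM, hgu⟩ := gun4_at hX9 hXB hN hm1 hmX hU0 hE2 hfar h1 h3 hB4
  obtain ⟨W, hWd⟩ : ∃ W, W = √(pot m x.1 / m (g 0)) := ⟨_, rfl⟩
  have hq : 0 < pot m x.1 / m (g 0) := div_pos hU0 (hm _)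
  have hW : 0 < W := by rw [hWd]; exact Real.sqrt_pos.mpr hq
  have hW2 : W ^ 2 = pot m x.1 / m (g 0) := by rw [hWd]; exact Real.sq_sqrt hq.le
  by_cases hslow : ∀ i, ‖(m i)⁻¹ • x.2 i‖ ≤ W / X ^ 180
  · exact type1A_at4 hs hμ₀ hC h1 h3 (hg3.anti h2) hu₀ hu hB1 hB2 hB3 hB4 hX hN hm1 hmX hE
      hset hS hx hfar hg hgq hgm hgM hW hW2 hslow
  push Not at hslow
  refine type1B_at4 hX9 hN hm1 hmX hE hset hS hx hfar hg hgq (fun k => (hgm k).trans h3) hgM hW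
    hW2 (fun k => ?_) hslow
  have e1 : ‖(m (g k))⁻¹ • x.2 (g k)‖ ^ 2 ≤ (X ^ 2 * W / X ^ 1800) ^ 2 := by
    refine (hgu k).trans (le_of_eq ?_)
    rw [div_pow, mul_pow, hW2, ← pow_mul, ← pow_mul, ← hN, mul_div_assoc]
  exact (pow_le_pow_iff_left₀ (norm_nonneg _) (by positivity) (by norm_num)).mp e1

/-- The whole energy surface, all negative energies, all masses at least `exp (-N ^ (1/3600))`. -/
theorem whole4_surface :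
    ∃ N₀ : ℕ, ∀ N : ℕ, N₀ ≤ N → ∀ m : Fin N → ℝ, ∑ i, m i = 1 →
      (∀ i, Real.exp (-(N : ℝ) ^ (1 / 3600 : ℝ)) ≤ m i) → ∀ E : ℝ, E < 0 →
      ∀ (S : Set (Ph N)) (ψ : Ph N → ℝ) (φ : ℝ → Ph N → Ph N), Setting m S ψ φ →
      (∀ x : Ph N, x ∈ S ↔ (∀ i j, i ≠ j → x.1 i ≠ x.1 j) ∧ ∑ i, m i • x.1 i = 0 ∧
        ∑ i, x.2 i = 0 ∧ kin m x.2 - pot m x.1 = E) →
      ∀ x ∈ S, ∃ y ∈ S, Wandering S φ y ∧
        (∀ i, ‖y.1 i - x.1 i‖ ≤ (N : ℝ) ^ (-(1 / 3600) : ℝ) * max 1 (1 / |E|)) ∧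
        (∀ i, ‖(m i)⁻¹ • y.2 i - (m i)⁻¹ • x.2 i‖ ≤ (N : ℝ) ^ (-(1 / 3600) : ℝ)) := by
  obtain ⟨X₀, hX₀, H⟩ := whole4_of_large
  exact whole4_final hX₀ H

end Pool.Agent.NBody
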