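import Mathlib
import Pool.Agent.NBody.Orbit

/-!
Volume of the momentum-bounded region.
-/

set_option autoImplicit false
open scoped RealInnerProductSpace ENNReal
open Set Finset Filter Topology MeasureTheory

namespace Pool.Agent.NBody

/-- linear changes of variables scale measures by a finite factor -/
theorem exists_scale {E F : Type*} [NormedAddCommGroup E] [NormedSpace ℝ E]
    [MeasurableSpace E] [BorelSpace E] [FiniteDimensional ℝ E] [NormedAddCommGroup F]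
    [NormedSpace ℝ F] [MeasurableSpace F] [BorelSpace F] [FiniteDimensional ℝ F]
    (μ : Measure E) [μ.IsAddHaarMeasure] (ν : Measure F) [ν.IsAddHaarMeasure]
    (e : E ≃L[ℝ] F) : ∃ c : ℝ, 0 ≤ c ∧ ∀ S : Set F, μ (e ⁻¹' S) ≤ ENNReal.ofReal c * ν S := by
  have h1 : (μ.map e).IsAddHaarMeasure := inferInstance
  obtain ⟨c, hc⟩ : ∃ c : NNReal, μ.map e = c • ν :=
    ⟨_, Measure.isAddLeftInvariant_eq_smul (μ.map e) ν⟩
  refine ⟨c, c.2, fun S => ?_⟩
  have h2 : (μ.map e) S = μ (e ⁻¹' S) := by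
    have := (e.toHomeomorph.toMeasurableEquiv).map_apply (μ := μ) S
    exact this
  rw [← h2, hc, ENNReal.ofReal_coe_nnreal]
  rw [Measure.smul_apply]
  exact le_of_eq rfl

/-- the two-body region -/
def Dset (C R : ℝ) : Set (V3 × V3) := {z | z.1 ≠ 0 ∧ ‖z.1‖ ≤ R ∧ ‖z.2‖ ^ 2 * ‖z.1‖ ≤ C}

theorem volume_Dset : ∃ κ : ℝ, 0 ≤ κ ∧ ∀ C R : ℝ, 0 < C → 0 < R →
    volume (Dset C R) ≤ ENNReal.ofReal (κ * Real.sqrt (C * R) ^ 3) := by
  set ω : ℝ≥0∞ := volume (Metric.ball (0 : V3) 1) with hω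
  have hωtop : ω ≠ ⊤ := Metric.isBounded_ball.measure_lt_top.ne
  have hfin : Module.finrank ℝ V3 = 3 := by simp [V3]
  refine ⟨ω.toReal ^ 2 * 8 * (8 / 7), by positivity, ?_⟩
  intro C R hC hR
  have hcover : Dset C R ⊆ ⋃ k : ℕ, Metric.closedBall (0 : V3) (R * (1 / 4) ^ k) ×ˢ
      Metric.closedBall (0 : V3) (Real.sqrt (C / R) * 2 ^ (k + 1)) := by
    intro z hz
    obtain ⟨hz0, hzR, hzC⟩ := hz
    have hpos : 0 < ‖z.1‖ := norm_pos_iff.mpr hz0
    have hle : ‖z.1‖ / R ≤ 1 := by rw [div_le_one hR]; exact hzR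
    obtain ⟨k, hk1, hk2⟩ := exists_nat_pow_near_of_lt_one (div_pos hpos hR) hle
      (by norm_num : (0:ℝ) < 1 / 4) (by norm_num : (1:ℝ) / 4 < 1)
    rw [lt_div_iff₀ hR] at hk1
    rw [div_le_iff₀ hR] at hk2
    rw [Set.mem_iUnion]
    refine ⟨k, ?_, ?_⟩
    · rw [mem_closedBall_zero_iff]
      linarith
    · rw [mem_closedBall_zero_iff]
      have h1 : ‖z.2‖ ^ 2 ≤ (Real.sqrt (C / R) * 2 ^ (k + 1)) ^ 2 := by
        rw [mul_pow, Real.sq_sqrt (by positivity)]
        have h2 : ‖z.2‖ ^ 2 * ((1 / 4) ^ (k + 1) * R) ≤ C := by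
          refine le_trans ?_ hzC
          exact mul_le_mul_of_nonneg_left hk1.le (by positivity)
        have h3 : ((2:ℝ) ^ (k + 1)) ^ 2 * (1 / 4) ^ (k + 1) = 1 := by
          rw [← pow_mul, mul_comm (k + 1) 2, pow_mul, ← mul_pow]
          norm_num
        have h4 : 0 < ((2:ℝ) ^ (k + 1)) ^ 2 := by positivity
        have h5 : ‖z.2‖ ^ 2 * R ≤ C * ((2:ℝ) ^ (k + 1)) ^ 2 := by
          have := mul_le_mul_of_nonneg_right h2 h4.le
          calc ‖z.2‖ ^ 2 * R = ‖z.2‖ ^ 2 * R * (((2:ℝ) ^ (k + 1)) ^ 2 * (1 / 4) ^ (k + 1)) := by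
                rw [h3, mul_one]
            _ = ‖z.2‖ ^ 2 * ((1 / 4) ^ (k + 1) * R) * ((2:ℝ) ^ (k + 1)) ^ 2 := by ring
            _ ≤ _ := this
        rw [div_mul_eq_mul_div, le_div_iff₀ hR]
        exact h5
      exact (pow_le_pow_iff_left₀ (norm_nonneg _) (by positivity) two_ne_zero).mp h1
  have hkey : Real.sqrt (C * R) = R * Real.sqrt (C / R) := by
    rw [show C * R = R ^ 2 * (C / R) by field_simp, Real.sqrt_mul (by positivity),
      Real.sqrt_sq hR.le]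
  have hterm : ∀ k : ℕ, volume (Metric.closedBall (0 : V3) (R * (1 / 4) ^ k) ×ˢ
      Metric.closedBall (0 : V3) (Real.sqrt (C / R) * 2 ^ (k + 1))) =
      ENNReal.ofReal (ω.toReal ^ 2 * 8 * Real.sqrt (C * R) ^ 3 * (1 / 8) ^ k) := by
    intro k
    rw [Measure.volume_eq_prod, Measure.prod_prod,
      Measure.addHaar_closedBall _ _ (by positivity), Measure.addHaar_closedBall _ _ (by positivity),
      hfin, ← hω]
    have h1 : ω = ENNReal.ofReal ω.toReal := (ENNReal.ofReal_toReal hωtop).symm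
    rw [h1, ← ENNReal.ofReal_mul (by positivity), ← ENNReal.ofReal_mul (by positivity),
      ← ENNReal.ofReal_mul (by positivity), ← h1, hkey]
    congr 1
    have h2 : (1:ℝ) / 8 = (1 / 4) ^ 3 * 2 ^ 3 := by norm_num
    rw [h2, mul_pow, mul_pow, mul_pow, mul_pow, ← pow_mul, ← pow_mul, ← pow_mul, ← pow_mul,
      mul_comm 3 k, add_mul, one_mul, pow_add]
    ring
  calc volume (Dset C R) ≤ volume (⋃ k : ℕ, Metric.closedBall (0 : V3) (R * (1 / 4) ^ k) ×ˢ
      Metric.closedBall (0 : V3) (Real.sqrt (C / R) * 2 ^ (k + 1))) := measure_mono hcover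
    _ ≤ ∑' k : ℕ, volume (Metric.closedBall (0 : V3) (R * (1 / 4) ^ k) ×ˢ
      Metric.closedBall (0 : V3) (Real.sqrt (C / R) * 2 ^ (k + 1))) := measure_iUnion_le _
    _ = ∑' k : ℕ, ENNReal.ofReal (ω.toReal ^ 2 * 8 * Real.sqrt (C * R) ^ 3 * (1 / 8) ^ k) := by
        congr 1; funext k; exact hterm k
    _ = ENNReal.ofReal (∑' k : ℕ, ω.toReal ^ 2 * 8 * Real.sqrt (C * R) ^ 3 * (1 / 8) ^ k) := by
        rw [ENNReal.ofReal_tsum_of_nonneg]
        · intro k; positivity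
        · exact (summable_geometric_of_lt_one (by norm_num) (by norm_num)).mul_left _
    _ ≤ _ := by
        apply ENNReal.ofReal_le_ofReal
        rw [tsum_mul_left, tsum_geometric_of_lt_one (by norm_num) (by norm_num)]
        apply le_of_eq
        norm_num
        ring

end Pool.Agent.NBody
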