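import Mathlib
import Pool.Agent.NBody.Volume

/-!
Volume of the momentum-bounded region: induction on the number of bodies.
-/

set_option autoImplicit false
set_option synthInstance.maxSize 4000
open scoped RealInnerProductSpace ENNReal
open Set Finset Filter Topology MeasureTheory

namespace Pool.Agent.NBody

/-- positions relative to the last body, momenta of the other bodies -/
abbrev Rel (n : ℕ) := (Fin n → V3) × (Fin n → V3)

/-- position of a body relative to the last one -/
def pos {n : ℕ} (x : Fin n → V3) (j : Option (Fin n)) : V3 := j.elim 0 x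

/-- the momentum-bounded region -/
structure Bset (n : ℕ) (C R : ℝ) (z : Rel n) : Prop where
  ne : ∀ (i : Fin n) (j : Option (Fin n)), j ≠ some i → z.1 i ≠ pos z.1 j
  le : ∀ (i : Fin n) (j : Option (Fin n)), ‖z.1 i - pos z.1 j‖ ≤ R
  mom : ∀ (A : Finset (Fin n)) (d : ℝ), 0 < d →
    (∀ i ∈ A, ∀ j : Option (Fin n), (∀ k, j = some k → k ∉ A) → d ≤ ‖z.1 i - pos z.1 j‖) →
    ‖∑ i ∈ A, z.2 i‖ ^ 2 * d ≤ C

/-- the label of a body after removing body `i` -/
def lift {n : ℕ} (i : Fin (n + 1)) (j : Option (Fin n)) : Option (Fin (n + 1)) := j.map i.succAbove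

/-- merging body `i` into body `j` -/
noncomputable def merge {n : ℕ} (i : Fin (n + 1)) (j : Option (Fin n)) :
    Rel (n + 1) →ₗ[ℝ] Rel n × (V3 × V3) where
  toFun z := ((fun k => z.1 (i.succAbove k),
      fun k => z.2 (i.succAbove k) + if j = some k then z.2 i else 0),
    (z.1 i - pos z.1 (lift i j), z.2 i))
  map_add' z w := by
    refine Prod.ext (Prod.ext ?_ ?_) (Prod.ext ?_ ?_)
    · rfl
    · funext k
      simp only [Prod.snd_add, Prod.fst_add, Pi.add_apply]
      split_ifs
      · abel
      · abel
    · simp only [Prod.snd_add, Prod.fst_add, Pi.add_apply]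
      cases j with
      | none => simp [lift, pos]
      | some k => simp only [lift, pos, Option.map_some, Option.elim_some, Pi.add_apply]; abel
    · rfl
  map_smul' c z := by
    refine Prod.ext (Prod.ext ?_ ?_) (Prod.ext ?_ ?_)
    · rfl
    · funext k
      simp only [Prod.smul_snd, Prod.smul_fst, Pi.smul_apply, RingHom.id_apply]
      split_ifs
      · rw [smul_add]
      · rw [add_zero, add_zero]
    · simp only [Prod.smul_snd, Prod.smul_fst, Pi.smul_apply, RingHom.id_apply, smul_sub]
      cases j with
      | none => simp [lift, pos]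
      | some k => simp only [lift, pos, Option.map_some, Option.elim_some, Pi.smul_apply]
    · rfl

theorem merge_injective {n : ℕ} (i : Fin (n + 1)) (j : Option (Fin n)) :
    Function.Injective (merge i j) := by
  rw [← LinearMap.ker_eq_bot, LinearMap.ker_eq_bot']
  intro z hz
  have h1 : (fun k => z.1 (i.succAbove k)) = (0 : Fin n → V3) := congrArg (fun w => w.1.1) hz
  have h2 : (fun k => z.2 (i.succAbove k) + if j = some k then z.2 i else 0) =
      (0 : Fin n → V3) := congrArg (fun w => w.1.2) hz
  have h3 : z.1 i - pos z.1 (lift i j) = 0 := congrArg (fun w => w.2.1) hz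
  have h4 : z.2 i = 0 := congrArg (fun w => w.2.2) hz
  have h5 : pos z.1 (lift i j) = 0 := by
    cases j with
    | none => rfl
    | some k => exact congrFun h1 k
  refine Prod.ext ?_ ?_
  · funext k
    refine Fin.succAboveCases i ?_ ?_ k
    · rw [h5, sub_zero] at h3; exact h3
    · intro l; exact congrFun h1 l
  · funext k
    refine Fin.succAboveCases i ?_ ?_ k
    · exact h4
    · intro l
      have := congrFun h2 l
      simp only [h4, ite_self, add_zero] at this
      exact this

/-- the linear change of variables -/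
noncomputable def mergeEquiv {n : ℕ} (i : Fin (n + 1)) (j : Option (Fin n)) :
    Rel (n + 1) ≃L[ℝ] Rel n × (V3 × V3) :=
  (LinearMap.linearEquivOfInjective (merge i j) (merge_injective i j) (by
    simp [Rel, V3, Module.finrank_pi_fintype]; ring)).toContinuousLinearEquiv

theorem mergeEquiv_apply {n : ℕ} (i : Fin (n + 1)) (j : Option (Fin n)) (z : Rel (n + 1)) :
    mergeEquiv i j z = merge i j z := rfl

theorem pos_lift {n : ℕ} (i : Fin (n + 1)) (x : Fin (n + 1) → V3) (j : Option (Fin n)) :
    pos (fun k => x (i.succAbove k)) j = pos x (lift i j) := by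
  cases j <;> rfl

theorem lift_ne_some {n : ℕ} (i : Fin (n + 1)) (j : Option (Fin n)) : lift i j ≠ some i := by
  cases j with
  | none => simp [lift]
  | some k =>
    simp only [lift, Option.map_some, ne_eq, Option.some.injEq]
    exact Fin.succAbove_ne i k

theorem exists_lift {n : ℕ} (i : Fin (n + 1)) (j : Option (Fin (n + 1))) (hj : j ≠ some i) :
    ∃ j' : Option (Fin n), j = lift i j' := by
  cases j with
  | none => exact ⟨none, rfl⟩
  | some k =>
    have : k ≠ i := fun h => hj (by rw [h])
    obtain ⟨l, hl⟩ := Fin.exists_succAbove_eq this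
    exact ⟨some l, by rw [← hl]; rfl⟩

/-- Key step: the closest pair is merged. -/
theorem Bset.merge {n : ℕ} {C R : ℝ} {z : Rel (n + 1)} (hz : Bset (n + 1) C R z) :
    ∃ (i : Fin (n + 1)) (j : Option (Fin n)),
      (∀ (k : Fin (n + 1)) (l : Option (Fin (n + 1))), l ≠ some k →
        ‖z.1 i - pos z.1 (lift i j)‖ ≤ ‖z.1 k - pos z.1 l‖) ∧
      Bset n (2 * C) R (merge i j z).1 ∧ (merge i j z).2 ∈ Dset C ‖z.1 i - pos z.1 (lift i j)‖ := by
  classical
  -- the closest pair
  set P : Finset (Fin (n + 1) × Option (Fin (n + 1))) :=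
    Finset.univ.filter (fun u => u.2 ≠ some u.1) with hP
  have hPne : P.Nonempty := ⟨(0, none), by rw [hP]; simp⟩
  obtain ⟨⟨i, l⟩, hil, hmin⟩ := P.exists_min_image (fun u => ‖z.1 u.1 - pos z.1 u.2‖) hPne
  have hil' : l ≠ some i := by rw [hP, Finset.mem_filter] at hil; exact hil.2
  obtain ⟨j, rfl⟩ := exists_lift i l hil'
  have hmin' : ∀ (k : Fin (n + 1)) (l : Option (Fin (n + 1))), l ≠ some k →
      ‖z.1 i - pos z.1 (lift i j)‖ ≤ ‖z.1 k - pos z.1 l‖ := by
    intro k l hkl
    exact hmin (k, l) (by rw [hP, Finset.mem_filter]; exact ⟨Finset.mem_univ _, hkl⟩)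
  have hne := hz.ne i (lift i j) (lift_ne_some i j)
  have hpos : 0 < ‖z.1 i - pos z.1 (lift i j)‖ := norm_pos_iff.mpr (sub_ne_zero.mpr hne)
  refine ⟨i, j, hmin', ⟨?_, ?_, ?_⟩, ?_, ?_, ?_⟩
  · -- ne
    intro a b hab
    change z.1 (i.succAbove a) ≠ pos (fun k => z.1 (i.succAbove k)) b
    rw [pos_lift]
    apply hz.ne
    intro h
    apply hab
    cases b with
    | none => simp [lift] at h
    | some c =>
      simp only [lift, Option.map_some, Option.some.injEq] at h
      rw [Fin.succAbove_right_injective h]
  · -- le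
    intro a b
    change ‖z.1 (i.succAbove a) - pos (fun k => z.1 (i.succAbove k)) b‖ ≤ R
    rw [pos_lift]
    exact hz.le _ _
  · -- momenta
    intro A d hd hA
    change ‖∑ k ∈ A, (z.2 (i.succAbove k) + if j = some k then z.2 i else 0)‖ ^ 2 * d ≤ 2 * C
    have hA' : ∀ a ∈ A, ∀ b : Option (Fin n), (∀ k, b = some k → k ∉ A) →
        d ≤ ‖z.1 (i.succAbove a) - pos z.1 (lift i b)‖ := by
      intro a ha b hb
      have := hA a ha b hb
      change d ≤ ‖z.1 (i.succAbove a) - pos (fun k => z.1 (i.succAbove k)) b‖ at this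
      rwa [pos_lift] at this
    -- the enlarged set
    set A' : Finset (Fin (n + 1)) := A.map i.succAboveEmb ∪
      (if ∃ k ∈ A, j = some k then {i} else ∅) with hA'def
    have hmem : ∀ k : Fin n, i.succAbove k ∈ A' ↔ k ∈ A := by
      intro k
      rw [hA'def, Finset.mem_union]
      constructor
      · rintro (h | h)
        · rw [Finset.mem_map] at h
          obtain ⟨a, ha, hak⟩ := h
          rw [← Fin.succAbove_right_injective hak]
          exact ha
        · split_ifs at h
          · rw [Finset.mem_singleton] at h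
            exact absurd h (Fin.succAbove_ne i k)
          · simp at h
      · intro h
        left
        rw [Finset.mem_map]
        exact ⟨k, h, rfl⟩
    have hmemi : i ∈ A' ↔ ∃ k ∈ A, j = some k := by
      rw [hA'def, Finset.mem_union]
      constructor
      · rintro (h | h)
        · rw [Finset.mem_map] at h
          obtain ⟨a, ha, hak⟩ := h
          exact absurd hak (Fin.succAbove_ne i a)
        · split_ifs at h with h'
          · exact h'
          · simp at h
      · intro h
        right
        rw [if_pos h]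
        exact Finset.mem_singleton_self i
    have hsum : ∑ k ∈ A, (z.2 (i.succAbove k) + if j = some k then z.2 i else 0) =
        ∑ k ∈ A', z.2 k := by
      rw [Finset.sum_add_distrib, hA'def]
      rw [Finset.sum_union]
      · rw [Finset.sum_map]
        congr 1
        by_cases h : ∃ k ∈ A, j = some k
        · obtain ⟨k, hk, hjk⟩ := h
          rw [if_pos ⟨k, hk, hjk⟩, Finset.sum_singleton, hjk]
          simp only [Option.some.injEq]
          rw [Finset.sum_ite_eq, if_pos hk]
        · rw [if_neg h, Finset.sum_empty]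
          apply Finset.sum_eq_zero
          intro k hk
          rw [if_neg]
          intro h'
          exact h ⟨k, hk, h'⟩
      · rw [Finset.disjoint_left]
        intro a ha ha'
        rw [Finset.mem_map] at ha
        obtain ⟨b, _, hb⟩ := ha
        split_ifs at ha'
        · rw [Finset.mem_singleton] at ha'
          rw [ha'] at hb
          exact Fin.succAbove_ne i b hb
        · simp at ha'
    rw [hsum]
    have hkey : ‖∑ k ∈ A', z.2 k‖ ^ 2 * (d / 2) ≤ C := by
      apply hz.mom A' (d / 2) (by positivity)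
      -- distances
      have hcase : ∀ a ∈ A', ∀ b : Option (Fin (n + 1)), (∀ k, b = some k → k ∉ A') →
          d / 2 ≤ ‖z.1 a - pos z.1 b‖ := by
        intro a ha b hb
        -- a pair (k, l) of merged bodies, with `k` in `A` and `l` not in `A`
        by_cases hai : a = i
        · subst hai
          obtain ⟨k, hk, hjk⟩ := hmemi.mp ha
          have hbi : b ≠ some a := fun h => hb a h ha
          obtain ⟨b', rfl⟩ := exists_lift a b hbi
          have hb' : ∀ k, b' = some k → k ∉ A := by
            intro k' hk' hkA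
            apply hb (a.succAbove k')
            · rw [hk']; rfl
            · exact (hmem k').mpr hkA
          have h1 := hA' k hk b' hb'
          have h2 : lift a j = some (a.succAbove k) := by rw [hjk]; rfl
          have h3 := hmin' a (lift a b') (lift_ne_some a b')
          have h4 : pos z.1 (lift a j) = z.1 (a.succAbove k) := by rw [h2]; rfl
          rw [h4] at h3
          have h5 : ‖z.1 (a.succAbove k) - pos z.1 (lift a b')‖ ≤
              ‖z.1 a - z.1 (a.succAbove k)‖ + ‖z.1 a - pos z.1 (lift a b')‖ := by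
            calc ‖z.1 (a.succAbove k) - pos z.1 (lift a b')‖ =
                ‖(z.1 a - pos z.1 (lift a b')) - (z.1 a - z.1 (a.succAbove k))‖ := by
                  congr 1; abel
              _ ≤ _ := by
                  refine (norm_sub_le _ _).trans ?_
                  rw [add_comm]
          linarith
        · obtain ⟨a', rfl⟩ := Fin.exists_succAbove_eq hai
          have ha' : a' ∈ A := (hmem a').mp ha
          by_cases hbi : b = some i
          · -- the outside body is `i`, so `j` is outside `A`
            have hiA : i ∉ A' := hb i hbi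
            have hjA : ∀ k, j = some k → k ∉ A := by
              intro k hk hkA
              exact hiA (hmemi.mpr ⟨k, hkA, hk⟩)
            have h1 := hA' a' ha' j hjA
            rw [hbi]
            have h3 := hmin' (i.succAbove a') (some i) (by
              intro h
              exact Fin.succAbove_ne i a' (Option.some.inj h).symm)
            change _ ≤ ‖z.1 (i.succAbove a') - z.1 i‖ at h3
            change _ ≤ ‖z.1 (i.succAbove a') - z.1 i‖
            have h5 : ‖z.1 (i.succAbove a') - pos z.1 (lift i j)‖ ≤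
                ‖z.1 (i.succAbove a') - z.1 i‖ + ‖z.1 i - pos z.1 (lift i j)‖ := by
              calc ‖z.1 (i.succAbove a') - pos z.1 (lift i j)‖ =
                  ‖(z.1 (i.succAbove a') - z.1 i) + (z.1 i - pos z.1 (lift i j))‖ := by
                    congr 1; abel
                _ ≤ _ := norm_add_le _ _
            linarith
          · obtain ⟨b', rfl⟩ := exists_lift i b hbi
            have hb' : ∀ k, b' = some k → k ∉ A := by
              intro k' hk' hkA
              apply hb (i.succAbove k')
              · rw [hk']; rfl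
              · exact (hmem k').mpr hkA
            have h1 := hA' a' ha' b' hb'
            linarith
      exact hcase
    linarith
  · exact sub_ne_zero.mpr hne
  · exact le_refl _
  · -- the single body
    change ‖z.2 i‖ ^ 2 * ‖z.1 i - pos z.1 (lift i j)‖ ≤ C
    have := hz.mom {i} _ hpos (by
      intro a ha b hb
      rw [Finset.mem_singleton] at ha
      subst ha
      apply hmin'
      intro h
      exact hb a h (Finset.mem_singleton_self a))
    rwa [Finset.sum_singleton] at this

theorem scale_merge {n : ℕ} (i : Fin (n + 1)) (j : Option (Fin n)) : ∃ c : ℝ, 0 ≤ c ∧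
    ∀ (S : Set (Rel n)) (T : Set (V3 × V3)), volume ((mergeEquiv i j) ⁻¹' (S ×ˢ T)) ≤
      ENNReal.ofReal c * (volume S * volume T) := by
  have h0 : ∀ k : ℕ, (volume : Measure (Fin k → V3)).IsAddHaarMeasure := fun k => inferInstance
  have h5 : ∀ k : ℕ, (volume : Measure (Rel k)).IsAddHaarMeasure := fun k =>
    have := h0 k
    Measure.prod.instIsAddHaarMeasure _ _
  have h1 : (volume : Measure (Rel n)).IsAddHaarMeasure := h5 n
  have h2 : (volume : Measure (V3 × V3)).IsAddHaarMeasure := Measure.prod.instIsAddHaarMeasure _ _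
  have h3 : ((volume : Measure (Rel n)).prod (volume : Measure (V3 × V3))).IsAddHaarMeasure :=
    Measure.prod.instIsAddHaarMeasure _ _
  have h4 : (volume : Measure (Rel (n + 1))).IsAddHaarMeasure := h5 (n + 1)
  obtain ⟨c, hc, h⟩ := exists_scale (volume : Measure (Rel (n + 1)))
    ((volume : Measure (Rel n)).prod (volume : Measure (V3 × V3))) (mergeEquiv i j)
  refine ⟨c, hc, fun S T => (h _).trans ?_⟩
  rw [Measure.prod_prod]

/-- The volume of the momentum-bounded region. -/
theorem volume_Bset (n : ℕ) : ∃ K : ℝ, 0 ≤ K ∧ ∀ C R : ℝ, 0 < C → 0 < R →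
    volume {z | Bset n C R z} ≤ ENNReal.ofReal (K * (Real.sqrt (C * R) ^ 3) ^ n) := by
  classical
  induction n with
  | zero =>
    refine ⟨1, zero_le_one, fun C R _ _ => ?_⟩
    have h1 : volume (Set.univ : Set (Rel 0)) ≤ 1 := by
      have h2 : (Set.univ : Set (Rel 0)) = Set.univ ×ˢ Set.univ := by simp
      have h3 : volume (Set.univ : Set (Fin 0 → V3)) = 1 := by
        rw [volume_pi, Measure.pi_of_empty (x := fun i => i.elim0)]
        simp
      rw [h2, Measure.volume_eq_prod, Measure.prod_prod, h3, mul_one]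
    refine (measure_mono (Set.subset_univ _)).trans ?_
    simpa using h1
  | succ n ih =>
    obtain ⟨K, hK, ih⟩ := ih
    obtain ⟨κ, hκ, hD⟩ := volume_Dset
    have hsc : ∀ u : Fin (n + 1) × Option (Fin n), ∃ c : ℝ, 0 ≤ c ∧
        ∀ (S : Set (Rel n)) (T : Set (V3 × V3)), volume ((mergeEquiv u.1 u.2) ⁻¹' (S ×ˢ T)) ≤
          ENNReal.ofReal c * (volume S * volume T) := fun u => scale_merge u.1 u.2
    choose c hc hcS using hsc
    refine ⟨∑ u, c u * (K * (Real.sqrt 2 ^ 3) ^ n * κ),
      Finset.sum_nonneg (fun u _ => by have := hc u; positivity), ?_⟩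
    intro C R hC hR
    have hcover : {z | Bset (n + 1) C R z} ⊆ ⋃ u : Fin (n + 1) × Option (Fin n),
        (mergeEquiv u.1 u.2) ⁻¹' ({z | Bset n (2 * C) R z} ×ˢ Dset C R) := by
      intro z hz
      obtain ⟨i, j, _, h1, h2, h3, h4⟩ := Bset.merge hz
      rw [Set.mem_iUnion]
      refine ⟨(i, j), ?_⟩
      rw [Set.mem_preimage, Set.mem_prod, mergeEquiv_apply]
      exact ⟨h1, h2, h3.trans (hz.le _ _), h4⟩
    refine (measure_mono hcover).trans ((measure_iUnion_fintype_le _ _).trans ?_)
    rw [Finset.sum_mul, ENNReal.ofReal_sum_of_nonneg (fun u _ => by have := hc u; positivity)]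
    apply Finset.sum_le_sum
    intro u _
    refine (hcS u _ _).trans ?_
    have hs2 : Real.sqrt (2 * C * R) = Real.sqrt 2 * Real.sqrt (C * R) := by
      rw [mul_assoc, Real.sqrt_mul (by norm_num)]
    calc ENNReal.ofReal (c u) * (volume {z | Bset n (2 * C) R z} * volume (Dset C R))
        ≤ ENNReal.ofReal (c u) * (ENNReal.ofReal (K * (Real.sqrt (2 * C * R) ^ 3) ^ n) *
          ENNReal.ofReal (κ * Real.sqrt (C * R) ^ 3)) := by
          gcongr
          · exact ih (2 * C) R (by positivity) hR
          · exact hD C R hC hR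
      _ = ENNReal.ofReal (c u * (K * (Real.sqrt 2 ^ 3) ^ n * κ) *
          (Real.sqrt (C * R) ^ 3) ^ (n + 1)) := by
          rw [← ENNReal.ofReal_mul (by positivity), ← ENNReal.ofReal_mul (hc u), hs2]
          congr 1
          rw [mul_pow, mul_pow]
          ring

/-- The volume of the momentum-bounded region with a close pair. -/
theorem volume_Bset_close (n : ℕ) : ∃ K : ℝ, 0 ≤ K ∧ ∀ C R r : ℝ, 0 < C → 0 < R → 0 < r →
    volume {z | Bset (n + 1) C R z ∧ ∃ (i : Fin (n + 1)) (j : Option (Fin (n + 1))), j ≠ some i ∧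
      ‖z.1 i - pos z.1 j‖ ≤ r} ≤
      ENNReal.ofReal (K * Real.sqrt (C * r) ^ 3 * (Real.sqrt (C * R) ^ 3) ^ n) := by
  classical
  obtain ⟨K, hK, ih⟩ := volume_Bset n
  obtain ⟨κ, hκ, hD⟩ := volume_Dset
  have hsc : ∀ u : Fin (n + 1) × Option (Fin n), ∃ c : ℝ, 0 ≤ c ∧
      ∀ (S : Set (Rel n)) (T : Set (V3 × V3)), volume ((mergeEquiv u.1 u.2) ⁻¹' (S ×ˢ T)) ≤
        ENNReal.ofReal c * (volume S * volume T) := fun u => scale_merge u.1 u.2
  choose c hc hcS using hsc
  refine ⟨∑ u, c u * (K * (Real.sqrt 2 ^ 3) ^ n * κ),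
    Finset.sum_nonneg (fun u _ => by have := hc u; positivity), ?_⟩
  intro C R r hC hR hr
  have hcover : {z | Bset (n + 1) C R z ∧ ∃ (i : Fin (n + 1)) (j : Option (Fin (n + 1))),
      j ≠ some i ∧ ‖z.1 i - pos z.1 j‖ ≤ r} ⊆ ⋃ u : Fin (n + 1) × Option (Fin n),
      (mergeEquiv u.1 u.2) ⁻¹' ({z | Bset n (2 * C) R z} ×ˢ Dset C r) := by
    rintro z ⟨hz, a, b, hab, hle⟩
    obtain ⟨i, j, h0, h1, h2, h3, h4⟩ := Bset.merge hz
    rw [Set.mem_iUnion]
    refine ⟨(i, j), ?_⟩
    rw [Set.mem_preimage, Set.mem_prod, mergeEquiv_apply]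
    exact ⟨h1, h2, h3.trans ((h0 a b hab).trans hle), h4⟩
  refine (measure_mono hcover).trans ((measure_iUnion_fintype_le _ _).trans ?_)
  rw [Finset.sum_mul, Finset.sum_mul,
    ENNReal.ofReal_sum_of_nonneg (fun u _ => by have := hc u; positivity)]
  apply Finset.sum_le_sum
  intro u _
  refine (hcS u _ _).trans ?_
  have hs2 : Real.sqrt (2 * C * R) = Real.sqrt 2 * Real.sqrt (C * R) := by
    rw [mul_assoc, Real.sqrt_mul (by norm_num)]
  calc ENNReal.ofReal (c u) * (volume {z | Bset n (2 * C) R z} * volume (Dset C r))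
      ≤ ENNReal.ofReal (c u) * (ENNReal.ofReal (K * (Real.sqrt (2 * C * R) ^ 3) ^ n) *
        ENNReal.ofReal (κ * Real.sqrt (C * r) ^ 3)) := by
        gcongr
        · exact ih (2 * C) R (by positivity) hR
        · exact hD C r hC hr
    _ = ENNReal.ofReal (c u * (K * (Real.sqrt 2 ^ 3) ^ n * κ) * Real.sqrt (C * r) ^ 3 *
        (Real.sqrt (C * R) ^ 3) ^ n) := by
        rw [← ENNReal.ofReal_mul (by positivity), ← ENNReal.ofReal_mul (hc u), hs2]
        congr 1
        rw [mul_pow, mul_pow]
        ring

end Pool.Agent.NBody
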