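import Mathlib
import Pool.Agent.NBody.Volume2
import Pool.Agent.NBody.Infinity

/-!
Volume of the nonwandering set: upper bound.
-/

set_option autoImplicit false
set_option synthInstance.maxSize 4000
open scoped RealInnerProductSpace ENNReal
open Set Finset Filter Topology MeasureTheory

namespace Pool.Agent.NBody

/-- The state with centre of mass and total momentum zero in which the first bodies have given
positions and momenta. -/
noncomputable def state {n : ℕ} (m : Fin (n + 1) → ℝ) (z : Rel n) : Ph (n + 1) :=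
  (Fin.snoc (α := fun _ => V3) z.1 (-((m (Fin.last n))⁻¹ • ∑ i, m (Fin.castSucc i) • z.1 i)),
    Fin.snoc (α := fun _ => V3) z.2 (-∑ i, z.2 i))

theorem state_fst_castSucc {n : ℕ} (m : Fin (n + 1) → ℝ) (z : Rel n) (i : Fin n) :
    (state m z).1 (Fin.castSucc i) = z.1 i := by
  unfold state; simp only [Fin.snoc_castSucc]

theorem state_fst_last {n : ℕ} (m : Fin (n + 1) → ℝ) (z : Rel n) :
    (state m z).1 (Fin.last n) = -((m (Fin.last n))⁻¹ • ∑ i, m (Fin.castSucc i) • z.1 i) := by
  unfold state; simp only [Fin.snoc_last]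

theorem state_snd_castSucc {n : ℕ} (m : Fin (n + 1) → ℝ) (z : Rel n) (i : Fin n) :
    (state m z).2 (Fin.castSucc i) = z.2 i := by
  unfold state; simp only [Fin.snoc_castSucc]

theorem state_snd_last {n : ℕ} (m : Fin (n + 1) → ℝ) (z : Rel n) :
    (state m z).2 (Fin.last n) = -∑ i, z.2 i := by
  unfold state; simp only [Fin.snoc_last]

/-- from positions to relative positions -/
noncomputable def relMap {n : ℕ} (m : Fin (n + 1) → ℝ) : Rel n →ₗ[ℝ] Rel n where
  toFun z := (fun i => z.1 i + (m (Fin.last n))⁻¹ • ∑ i, m (Fin.castSucc i) • z.1 i, z.2)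
  map_add' z w := by
    refine Prod.ext ?_ rfl
    funext i
    simp only [Prod.fst_add, Pi.add_apply, smul_add, Finset.sum_add_distrib]
    abel
  map_smul' c z := by
    refine Prod.ext ?_ rfl
    funext i
    simp only [Prod.smul_fst, Pi.smul_apply, RingHom.id_apply, smul_add, Finset.smul_sum]
    congr 1
    apply Finset.sum_congr rfl
    intro j _
    rw [smul_comm c, smul_comm c]

theorem relMap_injective {n : ℕ} {m : Fin (n + 1) → ℝ} (hm : ∀ i, 0 < m i) :
    Function.Injective (relMap m) := by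
  rw [← LinearMap.ker_eq_bot, LinearMap.ker_eq_bot']
  intro z hz
  have h1 : (fun i => z.1 i + (m (Fin.last n))⁻¹ • ∑ i, m (Fin.castSucc i) • z.1 i) =
      (0 : Fin n → V3) := congrArg (fun w => w.1) hz
  have h2 : z.2 = 0 := congrArg (fun w => w.2) hz
  set v : V3 := ∑ i, m (Fin.castSucc i) • z.1 i with hv
  have h3 : ∀ i, z.1 i = -((m (Fin.last n))⁻¹ • v) := fun i => eq_neg_of_add_eq_zero_left
    (congrFun h1 i)
  have h4 : v = -(((∑ i, m (Fin.castSucc i)) * (m (Fin.last n))⁻¹) • v) := by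
    calc v = ∑ i, m (Fin.castSucc i) • z.1 i := hv
      _ = ∑ i, m (Fin.castSucc i) • (-((m (Fin.last n))⁻¹ • v)) := by
          apply Finset.sum_congr rfl
          intro i _
          rw [h3 i]
      _ = _ := by
          rw [← Finset.sum_smul, smul_neg, smul_smul]
  have h5 : (1 + (∑ i, m (Fin.castSucc i)) * (m (Fin.last n))⁻¹) • v = 0 := by
    rw [add_smul, one_smul]
    nth_rewrite 1 [h4]
    exact neg_add_cancel _
  have h6 : 0 < 1 + (∑ i, m (Fin.castSucc i)) * (m (Fin.last n))⁻¹ := by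
    have h7 : 0 ≤ ∑ i, m (Fin.castSucc i) := Finset.sum_nonneg (fun i _ => (hm _).le)
    have h8 : 0 < (m (Fin.last n))⁻¹ := inv_pos.mpr (hm _)
    have := mul_nonneg h7 h8.le
    linarith
  have h7 : v = 0 := (smul_eq_zero.mp h5).resolve_left h6.ne'
  refine Prod.ext ?_ h2
  funext i
  rw [h3 i, h7, smul_zero, neg_zero]
  rfl

noncomputable def relEquiv {n : ℕ} (m : Fin (n + 1) → ℝ) (hm : ∀ i, 0 < m i) :
    Rel n ≃L[ℝ] Rel n :=
  (LinearMap.linearEquivOfInjective (relMap m) (relMap_injective hm) rfl).toContinuousLinearEquiv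

theorem relEquiv_fst {n : ℕ} {m : Fin (n + 1) → ℝ} (hm : ∀ i, 0 < m i) (z : Rel n) (i : Fin n) :
    (relEquiv m hm z).1 i = (state m z).1 (Fin.castSucc i) - (state m z).1 (Fin.last n) := by
  rw [state_fst_castSucc, state_fst_last, sub_neg_eq_add]
  rfl

theorem relEquiv_snd {n : ℕ} {m : Fin (n + 1) → ℝ} (hm : ∀ i, 0 < m i) (z : Rel n) (i : Fin n) :
    (relEquiv m hm z).2 i = (state m z).2 (Fin.castSucc i) := by
  rw [state_snd_castSucc]
  rfl

/-- the label of a body -/
def lab {n : ℕ} (j : Option (Fin n)) : Fin (n + 1) := j.elim (Fin.last n) Fin.castSucc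

theorem relEquiv_pos {n : ℕ} {m : Fin (n + 1) → ℝ} (hm : ∀ i, 0 < m i) (z : Rel n)
    (j : Option (Fin n)) :
    pos (relEquiv m hm z).1 j = (state m z).1 (lab j) - (state m z).1 (Fin.last n) := by
  cases j with
  | none => simp only [pos, lab, Option.elim_none, sub_self]
  | some k => exact relEquiv_fst hm z k

theorem relEquiv_sub {n : ℕ} {m : Fin (n + 1) → ℝ} (hm : ∀ i, 0 < m i) (z : Rel n) (i : Fin n)
    (j : Option (Fin n)) :
    (relEquiv m hm z).1 i - pos (relEquiv m hm z).1 j =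
      (state m z).1 (Fin.castSucc i) - (state m z).1 (lab j) := by
  rw [relEquiv_pos, relEquiv_fst]
  abel

theorem lab_injective {n : ℕ} : Function.Injective (lab : Option (Fin n) → Fin (n + 1)) := by
  intro a b h
  cases a with
  | none =>
    cases b with
    | none => rfl
    | some l => exact absurd h (Fin.castSucc_lt_last l).ne'
  | some k =>
    cases b with
    | none => exact absurd h (Fin.castSucc_lt_last k).ne
    | some l => rw [Fin.castSucc_injective n h]

theorem exists_lab {n : ℕ} (k : Fin (n + 1)) : ∃ j : Option (Fin n), k = lab j := by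
  refine Fin.lastCases ?_ ?_ k
  · exact ⟨none, rfl⟩
  · intro i; exact ⟨some i, rfl⟩

/-- distances are bounded by the size -/
theorem dist_le_size {N : ℕ} {m : Fin N → ℝ} {μ : ℝ} (hμ : 0 < μ) (hμm : ∀ i, μ ≤ m i)
    (q : Fin N → V3) {R : ℝ} (hR : Real.sqrt (∑ i, m i * ‖q i‖ ^ 2) ≤ R) (i j : Fin N) :
    ‖q i - q j‖ ≤ 2 / Real.sqrt μ * R := by
  have hm : ∀ i, 0 < m i := fun i => hμ.trans_le (hμm i)
  have h0 : 0 ≤ R := (Real.sqrt_nonneg _).trans hR
  have hsμ : 0 < Real.sqrt μ := Real.sqrt_pos.mpr hμ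
  have h1 : ∀ i, ‖q i‖ ≤ R / Real.sqrt μ := by
    intro i
    rw [le_div_iff₀ hsμ]
    refine le_trans ?_ hR
    apply Real.le_sqrt_of_sq_le
    rw [mul_pow, Real.sq_sqrt hμ.le]
    calc ‖q i‖ ^ 2 * μ ≤ m i * ‖q i‖ ^ 2 := by
          rw [mul_comm]
          exact mul_le_mul_of_nonneg_right (hμm i) (sq_nonneg _)
      _ ≤ _ := Finset.single_le_sum (f := fun i => m i * ‖q i‖ ^ 2)
          (fun i _ => mul_nonneg (hm i).le (sq_nonneg _)) (Finset.mem_univ i)
  calc ‖q i - q j‖ ≤ ‖q i‖ + ‖q j‖ := norm_sub_le _ _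
    _ ≤ R / Real.sqrt μ + R / Real.sqrt μ := add_le_add (h1 i) (h1 j)
    _ = 2 / Real.sqrt μ * R := by ring

/-- a close pair from negative energy -/
theorem exists_close {N : ℕ} {m : Fin N → ℝ} (hm : ∀ i, 0 < m i) {q p : Fin N → V3} {ε : ℝ}
    (hε : 0 < ε) (hE : kin m p - pot m q ≤ -ε) :
    ∃ i j : Fin N, i ≠ j ∧ ‖q i - q j‖ ≤ (∑ i, m i) ^ 2 / ε := by
  by_contra hcon
  push Not at hcon
  set M : ℝ := ∑ i, m i with hM
  have hM0 : 0 ≤ M := Finset.sum_nonneg (fun i _ => (hm i).le)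
  have hkin : 0 ≤ kin m p := by
    unfold kin
    apply Finset.sum_nonneg
    intro i _
    have := hm i
    positivity
  rcases hM0.eq_or_lt with h0 | hMpos
  · have hN : IsEmpty (Fin N) := by
      by_contra hne
      rw [not_isEmpty_iff] at hne
      obtain ⟨i⟩ := hne
      have : 0 < M := Finset.sum_pos (fun i _ => hm i) ⟨i, Finset.mem_univ _⟩
      linarith
    have : pot m q = 0 := by
      unfold pot
      rw [Finset.univ_eq_empty, Finset.sum_empty]
    linarith
  set r : ℝ := M ^ 2 / ε with hr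
  have hrpos : 0 < r := by positivity
  have hpot : pot m q ≤ M ^ 2 / (2 * r) := by
    unfold pot
    have h1 : ∀ i j : Fin N, m i * m j / ‖q i - q j‖ / 2 ≤ m i * m j / (2 * r) := by
      intro i j
      by_cases hij : i = j
      · subst hij
        have := hm i
        simp only [sub_self, norm_zero, div_zero, zero_div]
        positivity
      · have h2 := hcon i j hij
        have h3 : 0 < m i * m j := mul_pos (hm i) (hm j)
        have h4 : m i * m j / ‖q i - q j‖ ≤ m i * m j / r :=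
          div_le_div_of_nonneg_left h3.le hrpos h2.le
        calc m i * m j / ‖q i - q j‖ / 2 ≤ m i * m j / r / 2 := by linarith
          _ = m i * m j / (2 * r) := by rw [div_div, mul_comm r 2]
    calc ∑ i, ∑ j, m i * m j / ‖q i - q j‖ / 2 ≤ ∑ i, ∑ j, m i * m j / (2 * r) :=
          Finset.sum_le_sum (fun i _ => Finset.sum_le_sum (fun j _ => h1 i j))
      _ = M ^ 2 / (2 * r) := by
          rw [sq, hM, Finset.sum_mul_sum, Finset.sum_div]
          apply Finset.sum_congr rfl
          intro i _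
          rw [Finset.sum_div]
  have h5 : M ^ 2 / (2 * r) = ε / 2 := by
    rw [hr]
    field_simp
  linarith

/-- the momentum-bounded states -/
structure MomBdd {N : ℕ} (C : ℝ) (x : Ph N) : Prop where
  nc : ∀ i j, i ≠ j → x.1 i ≠ x.1 j
  mom : ∀ (A : Finset (Fin N)) (d : ℝ), 0 < d → (∀ i ∈ A, ∀ j ∉ A, d ≤ ‖x.1 i - x.1 j‖) →
    ‖∑ i ∈ A, x.2 i‖ ^ 2 * d ≤ C

theorem MomBdd.bset {n : ℕ} {m : Fin (n + 1) → ℝ} (hm : ∀ i, 0 < m i) {C R : ℝ} {z : Rel n}
    (h : MomBdd C (state m z)) (hR : ∀ i j, ‖(state m z).1 i - (state m z).1 j‖ ≤ R) :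
    Bset n C R (relEquiv m hm z) := by
  refine ⟨?_, ?_, ?_⟩
  · intro i j hij h'
    have h1 := relEquiv_sub hm z i j
    rw [h', sub_self] at h1
    apply h.nc (Fin.castSucc i) (lab j)
    · intro h2
      apply hij
      have : lab (some i) = lab j := h2
      exact (lab_injective this).symm
    · exact (sub_eq_zero.mp h1.symm)
  · intro i j
    rw [relEquiv_sub]
    exact hR _ _
  · intro A d hd hA
    have h1 : ∑ i ∈ A, (relEquiv m hm z).2 i =
        ∑ k ∈ A.map Fin.castSuccEmb, (state m z).2 k := by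
      rw [Finset.sum_map]
      apply Finset.sum_congr rfl
      intro i _
      exact relEquiv_snd hm z i
    rw [h1]
    apply h.mom _ d hd
    intro k hk l hl
    rw [Finset.mem_map] at hk
    obtain ⟨i, hi, rfl⟩ := hk
    obtain ⟨j, rfl⟩ := exists_lab l
    have h2 := hA i hi j (by
      intro k' hk' hkA
      apply hl
      rw [hk', Finset.mem_map]
      exact ⟨k', hkA, rfl⟩)
    rw [relEquiv_sub] at h2
    exact h2

/-- Upper bound for the volume of the momentum-bounded states. -/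
theorem volume_momBdd (n : ℕ) (m : Fin (n + 2) → ℝ) (hm : ∀ i, 0 < m i) (C : ℝ) (hC : 0 < C) :
    ∃ K : ℝ, 0 < K ∧ ∀ R ε : ℝ, 0 < R → 0 < ε →
      volume {z : Rel (n + 1) | MomBdd C (state m z) ∧
        kin m (state m z).2 - pot m (state m z).1 ≤ -ε ∧
        Real.sqrt (∑ i, m i * ‖(state m z).1 i‖ ^ 2) ≤ R} ≤
      ENNReal.ofReal (K * Real.sqrt (min R ε⁻¹) ^ 3 * (Real.sqrt R ^ 3) ^ n) := by
  obtain ⟨i₀, hi₀⟩ := Finite.exists_min m
  set μ : ℝ := m i₀ with hμdef
  have hμ : 0 < μ := hm i₀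
  set M : ℝ := ∑ i, m i with hM
  have hMpos : 0 < M := Finset.sum_pos (fun i _ => hm i) ⟨i₀, Finset.mem_univ _⟩
  obtain ⟨K, hK, H⟩ := volume_Bset_close n
  have h0 : ∀ k : ℕ, (volume : Measure (Fin k → V3)).IsAddHaarMeasure := fun k => inferInstance
  have h5 : ∀ k : ℕ, (volume : Measure (Rel k)).IsAddHaarMeasure := fun k =>
    have := h0 k
    Measure.prod.instIsAddHaarMeasure _ _
  have h6 := h5 (n + 1)
  obtain ⟨c, hc, hcS⟩ := exists_scale (volume : Measure (Rel (n + 1))) volume (relEquiv m hm)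
  set a : ℝ := 2 / Real.sqrt μ with ha
  have hsμ : 0 < Real.sqrt μ := Real.sqrt_pos.mpr hμ
  have hapos : 0 < a := by positivity
  set b : ℝ := a + M ^ 2 with hb
  have hbpos : 0 < b := by positivity
  refine ⟨c * (K * Real.sqrt (C * b) ^ 3 * (Real.sqrt (C * a) ^ 3) ^ n) + 1, by positivity, ?_⟩
  intro R ε hR hε
  have hmin : 0 < min R ε⁻¹ := lt_min hR (inv_pos.mpr hε)
  have hsub : {z : Rel (n + 1) | MomBdd C (state m z) ∧
        kin m (state m z).2 - pot m (state m z).1 ≤ -ε ∧
        Real.sqrt (∑ i, m i * ‖(state m z).1 i‖ ^ 2) ≤ R} ⊆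
      (relEquiv m hm) ⁻¹' {z | Bset (n + 1) C (a * R) z ∧ ∃ (i : Fin (n + 1))
        (j : Option (Fin (n + 1))), j ≠ some i ∧ ‖z.1 i - pos z.1 j‖ ≤ b * min R ε⁻¹} := by
    rintro z ⟨hz1, hz2, hz3⟩
    have hd := dist_le_size hμ hi₀ (state m z).1 hz3
    refine ⟨hz1.bset hm hd, ?_⟩
    obtain ⟨k, l, hkl, hle⟩ := exists_close hm hε hz2
    have hle' : ∀ k l : Fin (n + 2), ‖(state m z).1 k - (state m z).1 l‖ ≤ M ^ 2 / ε →
        ‖(state m z).1 k - (state m z).1 l‖ ≤ b * min R ε⁻¹ := by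
      intro k l h
      have h1 := hd k l
      rcases min_choice R ε⁻¹ with h2 | h2
      · rw [h2]
        refine h1.trans (mul_le_mul_of_nonneg_right ?_ hR.le)
        rw [hb]; nlinarith
      · rw [h2]
        refine h.trans ?_
        rw [div_eq_mul_inv]
        apply mul_le_mul_of_nonneg_right _ (inv_pos.mpr hε).le
        rw [hb]; linarith
    obtain ⟨i, rfl⟩ := exists_lab k
    obtain ⟨j, rfl⟩ := exists_lab l
    cases i with
    | some i =>
      refine ⟨i, j, ?_, ?_⟩
      · intro h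
        exact hkl (by rw [h])
      · rw [relEquiv_sub]
        exact hle' _ _ hle
    | none =>
      cases j with
      | none => exact absurd rfl hkl
      | some j =>
        refine ⟨j, none, by simp, ?_⟩
        rw [relEquiv_sub, norm_sub_rev]
        exact hle' _ _ hle
  refine (measure_mono hsub).trans ((hcS _).trans ?_)
  calc ENNReal.ofReal c * volume {z | Bset (n + 1) C (a * R) z ∧ ∃ (i : Fin (n + 1))
        (j : Option (Fin (n + 1))), j ≠ some i ∧ ‖z.1 i - pos z.1 j‖ ≤ b * min R ε⁻¹}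
      ≤ ENNReal.ofReal c * ENNReal.ofReal (K * Real.sqrt (C * (b * min R ε⁻¹)) ^ 3 *
        (Real.sqrt (C * (a * R)) ^ 3) ^ n) := by
        gcongr
        exact H C (a * R) (b * min R ε⁻¹) hC (by positivity) (by positivity)
    _ = ENNReal.ofReal (c * (K * Real.sqrt (C * b) ^ 3 * (Real.sqrt (C * a) ^ 3) ^ n) *
        Real.sqrt (min R ε⁻¹) ^ 3 * (Real.sqrt R ^ 3) ^ n) := by
        rw [← ENNReal.ofReal_mul hc]
        congr 1
        rw [← mul_assoc C b, ← mul_assoc C a, Real.sqrt_mul (by positivity) (min R ε⁻¹),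
          Real.sqrt_mul (by positivity) R, mul_pow, mul_pow, mul_pow]
        ring
    _ ≤ _ := by
        apply ENNReal.ofReal_le_ofReal
        have h1 : 0 ≤ Real.sqrt (min R ε⁻¹) ^ 3 * (Real.sqrt R ^ 3) ^ n := by positivity
        nlinarith

end Pool.Agent.NBody
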