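import Mathlib
import Pool.Agent.NBody.Volume3

/-!
Volume of energy bands: lower bound.
-/

set_option autoImplicit false
set_option synthInstance.maxSize 4000
open scoped RealInnerProductSpace ENNReal
open Set Finset Filter Topology MeasureTheory

namespace Pool.Agent.NBody

theorem pot_window {N : ℕ} {m : Fin N → ℝ} (hm : ∀ i, 0 < m i) (q : Fin N → V3) {a b : Fin N}
    (hab : a ≠ b) {L : ℝ} (hL : 0 < L)
    (h : ∀ i j, i ≠ j → ¬ (i = a ∧ j = b) → ¬ (i = b ∧ j = a) → L ≤ ‖q i - q j‖) :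
    m a * m b / ‖q a - q b‖ ≤ pot m q ∧
      pot m q ≤ m a * m b / ‖q a - q b‖ + (∑ i, m i) ^ 2 / (2 * L) := by
  have hmm : ∀ k l, 0 < m k * m l := fun k l => mul_pos (hm k) (hm l)
  set f : Fin N → Fin N → ℝ := fun i j => m i * m j / ‖q i - q j‖ / 2 with hf
  have hf0 : ∀ i j, 0 ≤ f i j := fun i j => by
    have := hmm i j
    rw [hf]; positivity
  have hsym : f b a = f a b := by
    rw [hf]
    simp only
    rw [norm_sub_rev, mul_comm (m b)]
  have hab2 : f a b + f a b = m a * m b / ‖q a - q b‖ := by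
    rw [hf]; ring
  constructor
  · have h1 : f a b ≤ ∑ l, f a l := Finset.single_le_sum (fun l _ => hf0 a l) (Finset.mem_univ b)
    have h2 : f b a ≤ ∑ l, f b l := Finset.single_le_sum (fun l _ => hf0 b l) (Finset.mem_univ a)
    have h3 : ∑ l, f a l + ∑ l, f b l ≤ ∑ k, ∑ l, f k l := by
      have := Finset.sum_le_sum_of_subset_of_nonneg (f := fun k => ∑ l, f k l)
        (Finset.subset_univ ({a, b} : Finset (Fin N)))
        (fun k _ _ => Finset.sum_nonneg (fun l _ => hf0 k l))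
      rwa [Finset.sum_pair hab] at this
    have h4 : pot m q = ∑ k, ∑ l, f k l := rfl
    rw [h4, ← hab2]
    linarith
  · have hle : ∀ i j, f i j ≤ m i * m j / (2 * L) + ((if i = a then (if j = b then f a b else 0)
        else 0) + (if i = b then (if j = a then f b a else 0) else 0)) := by
      intro i j
      have h0 : 0 ≤ m i * m j / (2 * L) := by
        have := hmm i j
        positivity
      by_cases h1 : i = a ∧ j = b
      · obtain ⟨rfl, rfl⟩ := h1
        rw [if_pos rfl, if_pos rfl, if_neg hab, add_zero]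
        linarith
      by_cases h2 : i = b ∧ j = a
      · obtain ⟨rfl, rfl⟩ := h2
        rw [if_neg (Ne.symm hab), if_pos rfl, if_pos rfl, zero_add]
        linarith
      have h3 : 0 ≤ (if i = a then (if j = b then f a b else 0) else 0) := by
        split_ifs
        · exact hf0 a b
        · exact le_refl _
        · exact le_refl _
      have h4 : 0 ≤ (if i = b then (if j = a then f b a else 0) else 0) := by
        split_ifs
        · exact hf0 b a
        · exact le_refl _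
        · exact le_refl _
      by_cases hij : i = j
      · subst hij
        have : f i i = 0 := by
          rw [hf]; simp
        linarith
      · have h5 := h i j hij h1 h2
        have h6 : f i j ≤ m i * m j / (2 * L) := by
          rw [hf]
          simp only
          have h7 : m i * m j / ‖q i - q j‖ ≤ m i * m j / L :=
            div_le_div_of_nonneg_left (hmm i j).le hL h5
          calc m i * m j / ‖q i - q j‖ / 2 ≤ m i * m j / L / 2 := by linarith
            _ = m i * m j / (2 * L) := by rw [div_div, mul_comm L 2]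
        linarith
    calc pot m q = ∑ i, ∑ j, f i j := rfl
      _ ≤ ∑ i, ∑ j, (m i * m j / (2 * L) + ((if i = a then (if j = b then f a b else 0)
        else 0) + (if i = b then (if j = a then f b a else 0) else 0))) :=
          Finset.sum_le_sum (fun i _ => Finset.sum_le_sum (fun j _ => hle i j))
      _ = (∑ i, m i) ^ 2 / (2 * L) + (f a b + f b a) := by
          simp only [Finset.sum_add_distrib]
          congr 1
          · rw [sq, Finset.sum_mul_sum, Finset.sum_div]
            apply Finset.sum_congr rfl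
            intro i _
            rw [Finset.sum_div]
          · congr 1
            · have : ∀ i, ∑ j, (if i = a then (if j = b then f a b else 0) else 0) =
                  if i = a then f a b else 0 := by
                intro i
                by_cases hi : i = a
                · simp [hi]
                · simp [hi]
              simp only [this]
              simp
            · have : ∀ i, ∑ j, (if i = b then (if j = a then f b a else 0) else 0) =
                  if i = b then f b a else 0 := by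
                intro i
                by_cases hi : i = b
                · simp [hi]
                · simp [hi]
              simp only [this]
              simp
      _ = _ := by rw [hsym, hab2]; ring

theorem kin_le {N : ℕ} {m : Fin N → ℝ} {μ : ℝ} (hμ : 0 < μ) (hμm : ∀ i, μ ≤ m i)
    (p : Fin N → V3) {η : ℝ} (h : ∀ i, ‖p i‖ ≤ η) : kin m p ≤ N * (η ^ 2 / (2 * μ)) := by
  unfold kin
  calc ∑ i, ‖p i‖ ^ 2 / (2 * m i) ≤ ∑ _i : Fin N, η ^ 2 / (2 * μ) := by
        apply Finset.sum_le_sum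
        intro i _
        have h1 : ‖p i‖ ^ 2 ≤ η ^ 2 := pow_le_pow_left₀ (norm_nonneg _) (h i) 2
        exact div_le_div₀ (sq_nonneg _) h1 (by positivity) (by linarith [hμm i])
    _ = N * (η ^ 2 / (2 * μ)) := by simp

/-- the size in terms of relative positions -/
theorem size_le {n : ℕ} {m : Fin (n + 1) → ℝ} (hm : ∀ i, 0 < m i) (z : Rel n) {B : ℝ}
    (hB : 0 ≤ B) (h : ∀ i, ‖(relEquiv m hm z).1 i‖ ≤ B) :
    ∑ i, m i * ‖(state m z).1 i‖ ^ 2 ≤ (∑ i, m i) * B ^ 2 := by
  set q := (state m z).1 with hq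
  set c : V3 := q (Fin.last n) with hc
  have hcom : ∑ i, m i • q i = 0 := by
    rw [Fin.sum_univ_castSucc, hq, state_fst_last, smul_neg, smul_smul,
      mul_inv_cancel₀ (hm _).ne', one_smul]
    simp only [state_fst_castSucc]
    exact add_neg_cancel _
  have h1 : ∀ i, ‖q i - c‖ ≤ B := by
    intro i
    refine Fin.lastCases ?_ ?_ i
    · rw [hc, sub_self, norm_zero]; exact hB
    · intro j
      have := h j
      rwa [relEquiv_fst] at this
  have h2 : ∑ i, m i * ‖q i - c‖ ^ 2 = ∑ i, m i * ‖q i‖ ^ 2 + (∑ i, m i) * ‖c‖ ^ 2 := by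
    have h3 : ∀ i, m i * ‖q i - c‖ ^ 2 = m i * ‖q i‖ ^ 2 - 2 * ⟪m i • q i, c⟫ +
        m i * ‖c‖ ^ 2 := by
      intro i
      rw [@norm_sub_sq_real, inner_smul_left]
      simp only [conj_trivial]
      ring
    rw [Finset.sum_congr rfl (fun i _ => h3 i), Finset.sum_add_distrib, Finset.sum_sub_distrib,
      ← Finset.mul_sum, ← sum_inner, hcom, inner_zero_left, ← Finset.sum_mul]
    ring
  have h3 : 0 ≤ (∑ i, m i) * ‖c‖ ^ 2 :=
    mul_nonneg (Finset.sum_nonneg (fun i _ => (hm i).le)) (sq_nonneg _)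
  calc ∑ i, m i * ‖q i‖ ^ 2 ≤ ∑ i, m i * ‖q i - c‖ ^ 2 := by linarith
    _ ≤ ∑ i, m i * B ^ 2 := by
        apply Finset.sum_le_sum
        intro i _
        exact mul_le_mul_of_nonneg_left (pow_le_pow_left₀ (norm_nonneg _) (h1 i) 2) (hm i).le
    _ = _ := by rw [← Finset.sum_mul]

/-- The band contains a product of balls. -/
theorem band_of_balls {n : ℕ} {m : Fin (n + 2) → ℝ} (hm : ∀ i, 0 < m i) {μ : ℝ} (hμ : 0 < μ)
    (hμm : ∀ i, μ ≤ m i) {ε l D : ℝ} (hε : 0 < ε) (hl : 0 < l)
    (hD : D = m (Fin.castSucc 0) * m (Fin.last (n + 1)) / ε) (hDl : D ≤ l)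
    (hML : (∑ i, m i) ^ 2 / (2 * l) ≤ ε / 4) {η : ℝ} (hη0 : 0 ≤ η)
    (hη : ((n + 2 : ℕ) : ℝ) * ((((n + 2 : ℕ) : ℝ) * η) ^ 2 / (2 * μ)) ≤ ε / 4)
    (z : Rel (n + 1)) {e : V3} (he : ‖e‖ = 1)
    (h0 : ‖(relEquiv m hm z).1 0 - (2 / 3 * D) • e‖ ≤ D / 15)
    (h1 : ∀ k : Fin n, ‖(relEquiv m hm z).1 k.succ - (6 * l * ((k : ℕ) + 1)) • e‖ ≤ l)
    (h2 : ∀ k, ‖(relEquiv m hm z).2 k‖ ≤ η) :
    (∀ i j, i ≠ j → (state m z).1 i ≠ (state m z).1 j) ∧
    -(2 * ε) ≤ kin m (state m z).2 - pot m (state m z).1 ∧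
    kin m (state m z).2 - pot m (state m z).1 ≤ -ε ∧
    ∑ i, m i * ‖(state m z).1 i‖ ^ 2 ≤ (∑ i, m i) * ((6 * n + 7) * l) ^ 2 := by
  set x := (relEquiv m hm z).1 with hx
  set q := (state m z).1 with hq
  set A : ℝ := m (Fin.castSucc 0) * m (Fin.last (n + 1)) with hA
  have hApos : 0 < A := mul_pos (hm _) (hm _)
  have hDpos : 0 < D := by rw [hD]; positivity
  -- norms
  have hx0 : 3 / 5 * D ≤ ‖x 0‖ ∧ ‖x 0‖ ≤ 11 / 15 * D := by
    have h3 : ‖(2 / 3 * D) • e‖ = 2 / 3 * D := by
      rw [norm_smul, he, mul_one, Real.norm_of_nonneg (by positivity)]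
    have h4 : ‖(2 / 3 * D) • e‖ ≤ ‖x 0‖ + ‖x 0 - (2 / 3 * D) • e‖ := by
      calc ‖(2 / 3 * D) • e‖ = ‖x 0 - (x 0 - (2 / 3 * D) • e)‖ := by congr 1; abel
        _ ≤ _ := norm_sub_le _ _
    have h5 : ‖x 0‖ ≤ ‖(2 / 3 * D) • e‖ + ‖x 0 - (2 / 3 * D) • e‖ := by
      calc ‖x 0‖ = ‖(2 / 3 * D) • e + (x 0 - (2 / 3 * D) • e)‖ := by congr 1; abel
        _ ≤ _ := norm_add_le _ _
    rw [h3] at h4 h5
    constructor <;> linarith
  have hxk : ∀ k : Fin n, 5 * l ≤ ‖x k.succ‖ ∧ ‖x k.succ‖ ≤ (6 * n + 7) * l := by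
    intro k
    have h3 : ‖(6 * l * ((k : ℕ) + 1)) • e‖ = 6 * l * ((k : ℕ) + 1) := by
      rw [norm_smul, he, mul_one, Real.norm_of_nonneg (by positivity)]
    have h4 : ‖(6 * l * ((k : ℕ) + 1)) • e‖ ≤
        ‖x k.succ‖ + ‖x k.succ - (6 * l * ((k : ℕ) + 1)) • e‖ := by
      calc ‖(6 * l * ((k : ℕ) + 1)) • e‖ =
          ‖x k.succ - (x k.succ - (6 * l * ((k : ℕ) + 1)) • e)‖ := by congr 1; abel
        _ ≤ _ := norm_sub_le _ _
    have h5 : ‖x k.succ‖ ≤
        ‖(6 * l * ((k : ℕ) + 1)) • e‖ + ‖x k.succ - (6 * l * ((k : ℕ) + 1)) • e‖ := by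
      calc ‖x k.succ‖ =
          ‖(6 * l * ((k : ℕ) + 1)) • e + (x k.succ - (6 * l * ((k : ℕ) + 1)) • e)‖ := by
            congr 1; abel
        _ ≤ _ := norm_add_le _ _
    rw [h3] at h4 h5
    have h6 := h1 k
    have h7 : (0:ℝ) ≤ (k : ℕ) := Nat.cast_nonneg _
    have h8 : ((k : ℕ) : ℝ) + 1 ≤ n := by
      have := k.2
      exact_mod_cast this
    constructor
    · nlinarith [mul_nonneg hl.le h7]
    · nlinarith [mul_le_mul_of_nonneg_left h8 hl.le]
  have hx0l : ‖x 0‖ ≤ l := by linarith [hx0.2]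
  have hxkl : ∀ k l' : Fin n, k ≠ l' → l ≤ ‖x k.succ - x l'.succ‖ := by
    intro k l' hkl
    have h3 : ‖(6 * l * ((k : ℕ) + 1)) • e - (6 * l * ((l' : ℕ) + 1)) • e‖ =
        6 * l * |((k : ℕ) : ℝ) - (l' : ℕ)| := by
      rw [← sub_smul, norm_smul, he, mul_one, Real.norm_eq_abs,
        show 6 * l * (((k : ℕ) : ℝ) + 1) - 6 * l * (((l' : ℕ) : ℝ) + 1) =
          (6 * l) * (((k : ℕ) : ℝ) - (l' : ℕ)) by ring, abs_mul, abs_of_pos (by positivity)]
    have h4 : (1:ℝ) ≤ |((k : ℕ) : ℝ) - (l' : ℕ)| := by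
      have h5 : ((k : ℕ) : ℤ) - (l' : ℕ) ≠ 0 := by
        intro h
        apply hkl
        apply Fin.ext
        omega
      have h6 : (1 : ℤ) ≤ |((k : ℕ) : ℤ) - (l' : ℕ)| := Int.one_le_abs h5
      have h7 : ((1 : ℤ) : ℝ) ≤ ((|((k : ℕ) : ℤ) - (l' : ℕ)| : ℤ) : ℝ) := by exact_mod_cast h6
      push_cast at h7
      exact h7
    have h5 : ‖(6 * l * ((k : ℕ) + 1)) • e - (6 * l * ((l' : ℕ) + 1)) • e‖ ≤
        ‖x k.succ - x l'.succ‖ + (l + l) := by
      calc ‖(6 * l * ((k : ℕ) + 1)) • e - (6 * l * ((l' : ℕ) + 1)) • e‖ =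
          ‖(x k.succ - x l'.succ) - ((x k.succ - (6 * l * ((k : ℕ) + 1)) • e) -
            (x l'.succ - (6 * l * ((l' : ℕ) + 1)) • e))‖ := by congr 1; abel
        _ ≤ ‖x k.succ - x l'.succ‖ + ‖(x k.succ - (6 * l * ((k : ℕ) + 1)) • e) -
            (x l'.succ - (6 * l * ((l' : ℕ) + 1)) • e)‖ := norm_sub_le _ _
        _ ≤ _ := by
            gcongr
            exact (norm_sub_le _ _).trans (add_le_add (h1 k) (h1 l'))
    rw [h3] at h5
    nlinarith [mul_le_mul_of_nonneg_left h4 hl.le]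
  have hx0k : ∀ k : Fin n, l ≤ ‖x k.succ - x 0‖ := by
    intro k
    have h3 : ‖x k.succ‖ ≤ ‖x k.succ - x 0‖ + ‖x 0‖ := by
      calc ‖x k.succ‖ = ‖(x k.succ - x 0) + x 0‖ := by congr 1; abel
        _ ≤ _ := norm_add_le _ _
    linarith [(hxk k).1]
  -- transfer to `q`
  have hxq : ∀ i : Fin (n + 1), x i = q (Fin.castSucc i) - q (Fin.last (n + 1)) :=
    fun i => relEquiv_fst hm z i
  have hfar : ∀ i j, i ≠ j → ¬ (i = Fin.castSucc 0 ∧ j = Fin.last (n + 1)) →
      ¬ (i = Fin.last (n + 1) ∧ j = Fin.castSucc 0) → l ≤ ‖q i - q j‖ := by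
    have hsub : ∀ a b : Fin (n + 1), q (Fin.castSucc a) - q (Fin.castSucc b) = x a - x b := by
      intro a b
      rw [hxq, hxq]; abel
    have haux : ∀ (a b : Fin (n + 1)), a ≠ b → l ≤ ‖x a - x b‖ := by
      intro a b
      refine Fin.cases ?_ ?_ a
      · refine Fin.cases ?_ ?_ b
        · intro h; exact absurd rfl h
        · intro k _
          rw [norm_sub_rev]; exact hx0k k
      · intro k
        refine Fin.cases ?_ ?_ b
        · intro _; exact hx0k k
        · intro l' h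
          exact hxkl k l' (fun h' => h (by rw [h']))
    have haux2 : ∀ a : Fin (n + 1), a ≠ 0 → l ≤ ‖x a‖ := by
      intro a
      refine Fin.cases ?_ ?_ a
      · intro h; exact absurd rfl h
      · intro k _
        linarith [(hxk k).1]
    intro i j
    refine Fin.lastCases ?_ ?_ i
    · refine Fin.lastCases ?_ ?_ j
      · intro h; exact absurd rfl h
      · intro b _ _ hb
        rw [norm_sub_rev, ← hxq]
        exact haux2 b (fun h => hb ⟨rfl, by rw [h]⟩)
    · intro a
      refine Fin.lastCases ?_ ?_ j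
      · intro _ ha _
        rw [← hxq]
        exact haux2 a (fun h => ha ⟨by rw [h], rfl⟩)
      · intro b hab _ _
        rw [hsub]
        exact haux a b (fun h => hab (by rw [h]))
  have hd0 : ‖q (Fin.castSucc 0) - q (Fin.last (n + 1))‖ = ‖x 0‖ := by rw [hxq]
  have hne0 : Fin.castSucc (0 : Fin (n + 1)) ≠ Fin.last (n + 1) := (Fin.castSucc_lt_last 0).ne
  obtain ⟨hp1, hp2⟩ := pot_window hm q hne0 hl hfar
  rw [hd0] at hp1 hp2
  have hx0pos : 0 < ‖x 0‖ := lt_of_lt_of_le (by positivity) hx0.1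
  have hA1 : 5 / 4 * ε ≤ A / ‖x 0‖ := by
    rw [le_div_iff₀ hx0pos]
    have : ε * D = A := by rw [hD]; field_simp
    nlinarith [mul_le_mul_of_nonneg_left hx0.2 hε.le]
  have hA2 : A / ‖x 0‖ ≤ 7 / 4 * ε := by
    rw [div_le_iff₀ hx0pos]
    have : ε * D = A := by rw [hD]; field_simp
    nlinarith [mul_le_mul_of_nonneg_left hx0.1 hε.le]
  have hk0 : 0 ≤ kin m (state m z).2 := by
    unfold kin
    apply Finset.sum_nonneg
    intro i _
    have := hm i
    positivity
  have hk1 : kin m (state m z).2 ≤ ε / 4 := by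
    refine le_trans (kin_le hμ hμm _ (η := ((n + 2 : ℕ) : ℝ) * η) ?_) hη
    intro i
    refine Fin.lastCases ?_ ?_ i
    · rw [state_snd_last, norm_neg]
      calc ‖∑ i, z.2 i‖ ≤ ∑ i, ‖z.2 i‖ := norm_sum_le _ _
        _ ≤ ∑ _i : Fin (n + 1), η := Finset.sum_le_sum (fun i _ => h2 i)
        _ = ((n + 1 : ℕ) : ℝ) * η := by simp
        _ ≤ _ := by
            apply mul_le_mul_of_nonneg_right _ hη0
            exact_mod_cast Nat.le_succ _
    · intro j
      rw [state_snd_castSucc]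
      calc ‖z.2 j‖ ≤ η := h2 j
        _ = 1 * η := (one_mul _).symm
        _ ≤ _ := by
            apply mul_le_mul_of_nonneg_right _ hη0
            exact_mod_cast Nat.le_add_left 1 (n + 1)
  refine ⟨?_, by linarith, by linarith, ?_⟩
  · intro i j hij
    by_cases h3 : i = Fin.castSucc 0 ∧ j = Fin.last (n + 1)
    · rw [h3.1, h3.2]
      intro h
      rw [h, sub_self, norm_zero] at hd0
      linarith
    by_cases h4 : i = Fin.last (n + 1) ∧ j = Fin.castSucc 0
    · rw [h4.1, h4.2]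
      intro h
      rw [h, sub_self, norm_zero] at hd0
      linarith
    intro h
    have := hfar i j hij h3 h4
    rw [h, sub_self, norm_zero] at this
    linarith
  · apply size_le hm z (by positivity)
    intro i
    refine Fin.cases ?_ ?_ i
    · calc ‖x 0‖ ≤ l := hx0l
        _ ≤ (6 * n + 7) * l := by
          have : (0:ℝ) ≤ n := Nat.cast_nonneg _
          nlinarith [mul_nonneg this hl.le]
    · intro k
      exact (hxk k).2

end Pool.Agent.NBody
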