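import Mathlib
import Pool.Agent.NBody.Volume4

/-!
Volume of energy bands: lower bound, and the proportion of momentum-bounded states.
-/

set_option autoImplicit false
set_option synthInstance.maxSize 4000
open scoped RealInnerProductSpace ENNReal
open Set Finset Filter Topology MeasureTheory

namespace Pool.Agent.NBody

/-- states in an energy band, of bounded size -/
def band {n : ℕ} (m : Fin (n + 1) → ℝ) (ε R : ℝ) : Set (Rel n) :=
  {z | (∀ i j, i ≠ j → (state m z).1 i ≠ (state m z).1 j) ∧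
    -(2 * ε) ≤ kin m (state m z).2 - pot m (state m z).1 ∧
    kin m (state m z).2 - pot m (state m z).1 ≤ -ε ∧
    Real.sqrt (∑ i, m i * ‖(state m z).1 i‖ ^ 2) ≤ R}

theorem volume_band (n : ℕ) (m : Fin (n + 2) → ℝ) (hm : ∀ i, 0 < m i) :
    ∃ c K₀ : ℝ, 0 < c ∧ 0 < K₀ ∧ ∀ ε R : ℝ, 0 < ε → 0 < R → K₀ ≤ ε * R →
      ENNReal.ofReal (c * ((ε⁻¹) ^ 3 * (R ^ 3) ^ n * (Real.sqrt ε ^ 3) ^ (n + 1))) ≤
        volume (band m ε R) := by
  obtain ⟨i₀, hi₀⟩ := Finite.exists_min m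
  set μ : ℝ := m i₀ with hμdef
  have hμ : 0 < μ := hm i₀
  set M : ℝ := ∑ i, m i with hM
  have hMpos : 0 < M := Finset.sum_pos (fun i _ => hm i) ⟨i₀, Finset.mem_univ _⟩
  have h0 : ∀ k : ℕ, (volume : Measure (Fin k → V3)).IsAddHaarMeasure := fun k => inferInstance
  have h5 : ∀ k : ℕ, (volume : Measure (Rel k)).IsAddHaarMeasure := fun k =>
    have := h0 k
    Measure.prod.instIsAddHaarMeasure _ _
  have h6 := h5 (n + 1)
  obtain ⟨c₁, hc₁, hcS⟩ := exists_scale (volume : Measure (Rel (n + 1))) volume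
    (relEquiv m hm).symm
  set A : ℝ := m (Fin.castSucc 0) * m (Fin.last (n + 1)) with hA
  have hApos : 0 < A := mul_pos (hm _) (hm _)
  set r : ℝ := 1 / ((6 * n + 7) * (1 + M)) with hr
  have hrpos : 0 < r := by positivity
  set η₁ : ℝ := Real.sqrt (μ / (2 * ((n + 2 : ℕ) : ℝ) ^ 3)) with hη₁
  have hη₁pos : 0 < η₁ := Real.sqrt_pos.mpr (by positivity)
  set ω : ℝ≥0∞ := volume (Metric.ball (0 : V3) 1) with hω
  have hωtop : ω ≠ ⊤ := Metric.isBounded_ball.measure_lt_top.ne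
  have hωpos : 0 < ω := Metric.measure_ball_pos volume _ one_pos
  set w : ℝ := ω.toReal with hw
  have hwpos : 0 < w := ENNReal.toReal_pos hωpos.ne' hωtop
  have hfin : Module.finrank ℝ V3 = 3 := by simp [V3]
  have hball : ∀ (a : V3) (s : ℝ), 0 ≤ s →
      volume (Metric.closedBall a s) = ENNReal.ofReal (w * s ^ 3) := by
    intro a s hs
    rw [Measure.addHaar_closedBall _ _ hs, hfin, ← hω, mul_comm, ENNReal.ofReal_mul hwpos.le, hw,
      ENNReal.ofReal_toReal hωtop]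
  set c₂ : ℝ := w * (A / 15) ^ 3 * (w * r ^ 3) ^ n * (w * η₁ ^ 3) ^ (n + 1) with hc₂
  have hc₂pos : 0 < c₂ := by positivity
  refine ⟨c₂ / (c₁ + 1), (A + 2 * M ^ 2) / r, by positivity, by positivity, ?_⟩
  intro ε R hε hR hK
  set l : ℝ := r * R with hl
  have hlpos : 0 < l := by positivity
  set D : ℝ := A / ε with hD
  have hDpos : 0 < D := by positivity
  rw [div_le_iff₀ hrpos] at hK
  have hDl : D ≤ l := by
    rw [hD, hl, div_le_iff₀ hε]
    nlinarith [sq_nonneg M]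
  have hML : M ^ 2 / (2 * l) ≤ ε / 4 := by
    rw [div_le_iff₀ (by positivity), hl]
    nlinarith [sq_nonneg M]
  set η : ℝ := Real.sqrt ε * η₁ with hη
  have hη0 : 0 ≤ η := by positivity
  have hηle : ((n + 2 : ℕ) : ℝ) * ((((n + 2 : ℕ) : ℝ) * η) ^ 2 / (2 * μ)) ≤ ε / 4 := by
    rw [hη, hη₁, mul_pow, mul_pow, Real.sq_sqrt hε.le, Real.sq_sqrt (by positivity)]
    apply le_of_eq
    field_simp
    ring
  obtain ⟨e, he⟩ : ∃ e : V3, ‖e‖ = 1 := ⟨EuclideanSpace.single 0 1, by simp⟩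
  set s1 : Fin (n + 1) → Set V3 := Fin.cases (Metric.closedBall ((2 / 3 * D) • e) (D / 15))
    (fun k => Metric.closedBall ((6 * l * (((k : Fin n) : ℕ) + 1)) • e) l) with hs1
  set s2 : Fin (n + 1) → Set V3 := fun _ => Metric.closedBall 0 η with hs2
  set G : Set (Rel (n + 1)) := (Set.univ.pi s1) ×ˢ (Set.univ.pi s2) with hG
  have hsub : (relEquiv m hm) ⁻¹' G ⊆ band m ε R := by
    rintro z ⟨hz1, hz2⟩
    have hb := band_of_balls hm hμ hi₀ hε hlpos hD hDl hML hη0 hηle z he ?_ ?_ ?_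
    · obtain ⟨b1, b2, b3, b4⟩ := hb
      refine ⟨b1, b2, b3, ?_⟩
      rw [Real.sqrt_le_left hR.le]
      refine b4.trans ?_
      rw [← hM, hl]
      have h7 : (6 * (n:ℝ) + 7) * (r * R) = R / (1 + M) := by
        rw [hr]; field_simp
      rw [h7, div_pow, mul_div_assoc', div_le_iff₀ (by positivity)]
      have h8 : M ≤ (1 + M) ^ 2 := by nlinarith
      calc M * R ^ 2 ≤ (1 + M) ^ 2 * R ^ 2 := mul_le_mul_of_nonneg_right h8 (sq_nonneg _)
        _ = _ := mul_comm _ _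
    · have := hz1 0 (Set.mem_univ _)
      rw [hs1] at this
      simpa only [Fin.cases_zero, mem_closedBall_iff_norm] using this
    · intro k
      have := hz1 k.succ (Set.mem_univ _)
      rw [hs1] at this
      simpa only [Fin.cases_succ, mem_closedBall_iff_norm] using this
    · intro k
      have := hz2 k (Set.mem_univ _)
      rw [hs2] at this
      simpa only [mem_closedBall_zero_iff] using this
  have hGvol : volume G = ENNReal.ofReal (c₂ * ((ε⁻¹) ^ 3 * (R ^ 3) ^ n *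
      (Real.sqrt ε ^ 3) ^ (n + 1))) := by
    rw [hG, Measure.volume_eq_prod, Measure.prod_prod, volume_pi_pi, volume_pi_pi,
      Fin.prod_univ_succ]
    have h7 : volume (s1 0) = ENNReal.ofReal (w * (D / 15) ^ 3) := hball _ _ (by positivity)
    have h8 : ∀ k : Fin n, volume (s1 k.succ) = ENNReal.ofReal (w * l ^ 3) :=
      fun k => hball _ _ hlpos.le
    have h9 : ∀ k : Fin (n + 1), volume (s2 k) = ENNReal.ofReal (w * η ^ 3) :=
      fun k => hball _ _ hη0
    rw [h7, Finset.prod_congr rfl (fun k _ => h8 k), Finset.prod_congr rfl (fun k _ => h9 k),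
      Finset.prod_const, Finset.prod_const, Finset.card_univ, Finset.card_univ, Fintype.card_fin,
      Fintype.card_fin, ← ENNReal.ofReal_pow (by positivity), ← ENNReal.ofReal_pow (by positivity),
      ← ENNReal.ofReal_mul (by positivity), ← ENNReal.ofReal_mul (by positivity)]
    congr 1
    rw [hc₂, hD, hl, hη]
    have h10 : (w * (Real.sqrt ε * η₁) ^ 3) ^ (n + 1) =
        (w * η₁ ^ 3) ^ (n + 1) * (Real.sqrt ε ^ 3) ^ (n + 1) := by
      rw [← mul_pow]; congr 1; ring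
    have h11 : (w * (r * R) ^ 3) ^ n = (w * r ^ 3) ^ n * (R ^ 3) ^ n := by
      rw [← mul_pow]; congr 1; ring
    rw [h10, h11]
    field_simp
  have hback : (relEquiv m hm).symm ⁻¹' ((relEquiv m hm) ⁻¹' G) = G := by
    ext z
    simp
  have hle := hcS ((relEquiv m hm) ⁻¹' G)
  rw [hback, hGvol] at hle
  have hle2 : ENNReal.ofReal (c₂ * ((ε⁻¹) ^ 3 * (R ^ 3) ^ n * (Real.sqrt ε ^ 3) ^ (n + 1))) ≤
      ENNReal.ofReal (c₁ + 1) * volume (band m ε R) := by
    refine hle.trans ?_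
    gcongr
    linarith
  have hc1 : 0 < c₁ + 1 := by linarith
  have h12 : c₂ * ((ε⁻¹) ^ 3 * (R ^ 3) ^ n * (Real.sqrt ε ^ 3) ^ (n + 1)) =
      (c₁ + 1) * (c₂ / (c₁ + 1) * ((ε⁻¹) ^ 3 * (R ^ 3) ^ n * (Real.sqrt ε ^ 3) ^ (n + 1))) := by
    field_simp
  rw [h12, ENNReal.ofReal_mul hc1.le] at hle2
  have hne0 : ENNReal.ofReal (c₁ + 1) ≠ 0 := by
    rw [ne_eq, ENNReal.ofReal_eq_zero, not_le]; exact hc1
  exact (ENNReal.mul_le_mul_iff_right hne0 ENNReal.ofReal_ne_top).mp hle2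

/-- The proportion of momentum-bounded states in an energy band. -/
theorem proportion (n : ℕ) (m : Fin (n + 2) → ℝ) (hm : ∀ i, 0 < m i) (C : ℝ) (hC : 0 < C) :
    ∃ K : ℝ, 0 < K ∧
      (∀ R ε : ℝ, 0 < R → 0 < ε →
        volume {z : Rel (n + 1) | MomBdd C (state m z) ∧
          kin m (state m z).2 - pot m (state m z).1 ≤ -ε ∧
          Real.sqrt (∑ i, m i * ‖(state m z).1 i‖ ^ 2) ≤ R} ≤
          ENNReal.ofReal (K * Real.sqrt (min R ε⁻¹) ^ 3 * Real.sqrt R ^ (3 * n))) ∧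
      (∀ R ε : ℝ, 0 < R → 0 < ε → K ≤ ε * R →
        ENNReal.ofReal (Real.sqrt (ε * R) ^ (3 * n)) *
          volume {z : Rel (n + 1) | MomBdd C (state m z) ∧ z ∈ band m ε R} ≤
          ENNReal.ofReal K * volume (band m ε R)) := by
  obtain ⟨K, hK, H⟩ := volume_momBdd n m hm C hC
  obtain ⟨c, K₀, hc, hK₀, Hb⟩ := volume_band n m hm
  refine ⟨K + K₀ + K / c, by positivity, ?_, ?_⟩
  · intro R ε hR hε
    refine (H R ε hR hε).trans (ENNReal.ofReal_le_ofReal ?_)
    rw [← pow_mul]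
    have h1 : 0 ≤ Real.sqrt (min R ε⁻¹) ^ 3 * Real.sqrt R ^ (3 * n) := by positivity
    have h2 : 0 ≤ K₀ + K / c := by positivity
    nlinarith
  · intro R ε hR hε hKR
    have h0 : 0 ≤ K / c := by positivity
    have hb := Hb ε R hε hR (by linarith)
    have hu : volume {z : Rel (n + 1) | MomBdd C (state m z) ∧ z ∈ band m ε R} ≤
        ENNReal.ofReal (K * Real.sqrt (min R ε⁻¹) ^ 3 * (Real.sqrt R ^ 3) ^ n) := by
      refine le_trans (measure_mono ?_) (H R ε hR hε)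
      rintro z ⟨hz1, _, _, hz3, hz4⟩
      exact ⟨hz1, hz3, hz4⟩
    set s : ℝ := Real.sqrt ε with hs
    have hspos : 0 < s := Real.sqrt_pos.mpr hε
    have hs2 : ε = s ^ 2 := (Real.sq_sqrt hε.le).symm
    set t : ℝ := Real.sqrt R with ht
    have htpos : 0 < t := Real.sqrt_pos.mpr hR
    have ht2 : R = t ^ 2 := (Real.sq_sqrt hR.le).symm
    have hst : Real.sqrt (ε * R) = s * t := Real.sqrt_mul hε.le R
    have hmin : Real.sqrt (min R ε⁻¹) ≤ s⁻¹ := by
      rw [hs, ← Real.sqrt_inv]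
      exact Real.sqrt_le_sqrt (min_le_right _ _)
    calc ENNReal.ofReal (Real.sqrt (ε * R) ^ (3 * n)) *
          volume {z : Rel (n + 1) | MomBdd C (state m z) ∧ z ∈ band m ε R}
        ≤ ENNReal.ofReal (Real.sqrt (ε * R) ^ (3 * n)) *
          ENNReal.ofReal (K * Real.sqrt (min R ε⁻¹) ^ 3 * (t ^ 3) ^ n) := by gcongr
      _ = ENNReal.ofReal (Real.sqrt (ε * R) ^ (3 * n) *
          (K * Real.sqrt (min R ε⁻¹) ^ 3 * (t ^ 3) ^ n)) := by
          rw [← ENNReal.ofReal_mul (by positivity)]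
      _ ≤ ENNReal.ofReal ((K / c) * (c * ((ε⁻¹) ^ 3 * (R ^ 3) ^ n * (s ^ 3) ^ (n + 1)))) := by
          apply ENNReal.ofReal_le_ofReal
          rw [hst]
          calc (s * t) ^ (3 * n) * (K * Real.sqrt (min R ε⁻¹) ^ 3 * (t ^ 3) ^ n)
              ≤ (s * t) ^ (3 * n) * (K * (s⁻¹) ^ 3 * (t ^ 3) ^ n) := by gcongr
            _ = (K / c) * (c * ((ε⁻¹) ^ 3 * (R ^ 3) ^ n * (s ^ 3) ^ (n + 1))) := by
              rw [hs2, ht2]
              field_simp
              ring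
      _ = ENNReal.ofReal (K / c) *
          ENNReal.ofReal (c * ((ε⁻¹) ^ 3 * (R ^ 3) ^ n * (s ^ 3) ^ (n + 1))) :=
          ENNReal.ofReal_mul h0
      _ ≤ ENNReal.ofReal (K + K₀ + K / c) * volume (band m ε R) := by
          gcongr
          linarith

end Pool.Agent.NBody
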