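import Mathlib
import Pool.Agent.NBody.Volume5

/-!
Volume of momentum-bounded states with a close pair in an energy band: upper bound, by packing
scaled copies in the momenta.
-/

set_option autoImplicit false
set_option synthInstance.maxSize 4000
open scoped RealInnerProductSpace ENNReal
open Set Finset Filter Topology MeasureTheory

namespace Pool.Agent.NBody

/-- scaling of the momenta -/
noncomputable def momScale (k : ℕ) (l : ℝ) : Rel k →ₗ[ℝ] Rel k :=
  LinearMap.prodMap LinearMap.id (l • LinearMap.id)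

theorem momScale_apply {k : ℕ} (l : ℝ) (z : Rel k) : momScale k l z = (z.1, l • z.2) := rfl

theorem volume_momScale (k : ℕ) {l : ℝ} (hl : 0 < l) (S : Set (Rel k)) :
    volume (momScale k l '' S) = ENNReal.ofReal (l ^ (3 * k)) * volume S := by
  have h0 : (volume : Measure (Fin k → V3)).IsAddHaarMeasure := inferInstance
  have h5 : (volume : Measure (Rel k)).IsAddHaarMeasure :=
    Measure.prod.instIsAddHaarMeasure _ _
  have hfin : Module.finrank ℝ (Fin k → V3) = 3 * k := by
    simp [V3, Module.finrank_pi_fintype]; ring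
  rw [Measure.addHaar_image_linearMap]
  have hdet : LinearMap.det (momScale k l) = l ^ (3 * k) := by
    rw [momScale, LinearMap.det_prodMap, LinearMap.det_id, LinearMap.det_smul, LinearMap.det_id,
      one_mul, mul_one, hfin]
  rw [hdet, abs_of_pos (by positivity)]

/-- Packing: in a set which is star-shaped in the momenta, the part in an energy band of width
`e` has proportion at most `const * e / L`, if the potential energy is at least `L`. -/
theorem packing (k : ℕ) (E : Set (Rel k))
    (hE : ∀ z ∈ E, ∀ l : ℝ, 0 < l → l ≤ 1 → ((z.1, l • z.2) : Rel k) ∈ E)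
    (T U : Rel k → ℝ) (hT : Measurable T) (hU : Measurable U)
    (hTs : ∀ z : Rel k, ∀ l : ℝ, T (z.1, l • z.2) = l ^ 2 * T z)
    (hUs : ∀ z : Rel k, ∀ l : ℝ, U (z.1, l • z.2) = U z)
    {L e : ℝ} (hL : 0 < L) (he : 0 < e) (hUL : ∀ z ∈ E, L ≤ U z) :
    volume {z | z ∈ E ∧ T z - U z ∈ Set.Icc (-(2 * e)) (-e)} ≤
      ENNReal.ofReal (2 ^ (3 * k) * 8 * (e / L)) * volume E := by
  set S : Set (Rel k) := {z | z ∈ E ∧ T z - U z ∈ Set.Icc (-(2 * e)) (-e)} with hS
  have hSE : S ⊆ E := fun z hz => hz.1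
  rcases le_or_gt L (8 * e) with hcase | hcase
  · have h1 : (1:ℝ) ≤ 2 ^ (3 * k) * 8 * (e / L) := by
      have h2 : (1:ℝ) ≤ 2 ^ (3 * k) := one_le_pow₀ (by norm_num)
      have h3 : (1:ℝ) ≤ 8 * (e / L) := by
        rw [mul_div_assoc', le_div_iff₀ hL]; linarith
      calc (1:ℝ) = 1 * 1 := by norm_num
        _ ≤ 2 ^ (3 * k) * (8 * (e / L)) := mul_le_mul h2 h3 (by norm_num) (by positivity)
        _ = _ := by ring
    calc volume S ≤ volume E := measure_mono hSE
      _ = 1 * volume E := (one_mul _).symm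
      _ ≤ _ := by
        gcongr
        rw [ENNReal.one_le_ofReal]
        exact h1
  · set η : ℝ := 2 * e / L with hη
    have hηpos : 0 < η := by positivity
    have hηL : η * L = 2 * e := by rw [hη]; field_simp
    set J : ℕ := ⌊3 / (4 * η)⌋₊ + 1 with hJ
    have hJge : 3 / (4 * η) ≤ (J : ℝ) := by
      rw [hJ]; push_cast
      exact (Nat.lt_floor_add_one _).le
    have hjη : ∀ j ∈ Finset.range J, (j : ℝ) * η ≤ 3 / 4 := by
      intro j hj
      rw [Finset.mem_range, hJ, Nat.lt_succ_iff] at hj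
      have h1 : (j : ℝ) ≤ 3 / (4 * η) :=
        le_trans (Nat.cast_le.mpr hj) (Nat.floor_le (by positivity))
      rw [le_div_iff₀ (by positivity)] at h1
      nlinarith
    set lam : ℕ → ℝ := fun j => Real.sqrt (1 - j * η) with hlam
    have hlam2 : ∀ j ∈ Finset.range J, lam j ^ 2 = 1 - j * η := by
      intro j hj
      have := hjη j hj
      rw [hlam]
      exact Real.sq_sqrt (by linarith)
    have hlamge : ∀ j ∈ Finset.range J, 1 / 2 ≤ lam j := by
      intro j hj
      have := hjη j hj
      rw [hlam]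
      apply Real.le_sqrt_of_sq_le
      norm_num
      linarith
    have hlamle : ∀ j : ℕ, lam j ≤ 1 := by
      intro j
      rw [hlam]
      have h1 : (0:ℝ) ≤ j * η := by positivity
      calc Real.sqrt (1 - j * η) ≤ Real.sqrt 1 := Real.sqrt_le_sqrt (by linarith)
        _ = 1 := Real.sqrt_one
    set M : ℕ → Set (Rel k) := fun j => {z | L ≤ U z ∧ (1 - j * η) * (U z - 2 * e) ≤ T z ∧
      T z ≤ (1 - j * η) * (U z - e)} with hM
    have hMm : ∀ j, MeasurableSet (M j) := by
      intro j
      have h1 : MeasurableSet {z : Rel k | L ≤ U z} := measurableSet_le measurable_const hU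
      have h2 : MeasurableSet {z : Rel k | (1 - j * η) * (U z - 2 * e) ≤ T z} :=
        measurableSet_le ((hU.sub_const _).const_mul _) hT
      have h3 : MeasurableSet {z : Rel k | T z ≤ (1 - j * η) * (U z - e)} :=
        measurableSet_le hT ((hU.sub_const _).const_mul _)
      exact h1.inter (h2.inter h3)
    have hMd : ∀ i ∈ Finset.range J, ∀ j ∈ Finset.range J, i < j → Disjoint (M i) (M j) := by
      intro i hi j hj hij
      rw [Set.disjoint_left]
      rintro z ⟨h1, h2, _⟩ ⟨_, _, h3⟩
      have h4 : (i : ℝ) + 1 ≤ j := by exact_mod_cast hij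
      have h5 : 0 < U z - e := by linarith
      have h6 : η * (U z - e) ≤ ((j : ℝ) - i) * η * (U z - e) := by
        have : 0 ≤ η * (U z - e) := by positivity
        nlinarith
      have h7 : e < η * (U z - e) := by
        have : η * L ≤ η * U z := mul_le_mul_of_nonneg_left h1 hηpos.le
        have h8 : η * e < e := by
          have : η < 1 := by rw [hη, div_lt_one hL]; linarith
          nlinarith
        nlinarith
      have h8 : (0:ℝ) ≤ i * η := by positivity
      nlinarith
    have hsub : ∀ j ∈ Finset.range J, momScale k (lam j) '' S ⊆ M j ∩ E := by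
      rintro j hj _ ⟨z, hz, rfl⟩
      rw [momScale_apply]
      have hpos : 0 < lam j := lt_of_lt_of_le (by norm_num) (hlamge j hj)
      refine ⟨?_, hE z hz.1 _ hpos (hlamle j)⟩
      change L ≤ U _ ∧ (1 - j * η) * (U _ - 2 * e) ≤ T _ ∧ T _ ≤ (1 - j * η) * (U _ - e)
      rw [hUs, hTs, hlam2 j hj]
      have h1 := hz.2.1
      have h2 := hz.2.2
      have h3 : 0 ≤ 1 - j * η := by
        have := hjη j hj
        linarith
      exact ⟨hUL z hz.1, mul_le_mul_of_nonneg_left (by linarith) h3,
        mul_le_mul_of_nonneg_left (by linarith) h3⟩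
    have hsum : ∑ j ∈ Finset.range J, volume (momScale k (lam j) '' S) ≤ volume E := by
      calc ∑ j ∈ Finset.range J, volume (momScale k (lam j) '' S)
          ≤ ∑ j ∈ Finset.range J, (volume.restrict E) (M j) := by
            apply Finset.sum_le_sum
            intro j hj
            rw [Measure.restrict_apply (hMm j)]
            exact measure_mono (hsub j hj)
        _ = (volume.restrict E) (⋃ j ∈ Finset.range J, M j) := by
            rw [measure_biUnion_finset]
            · intro i hi j hj hij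
              rcases lt_or_gt_of_ne hij with h | h
              · exact hMd i hi j hj h
              · exact (hMd j hj i hi h).symm
            · intro j _
              exact hMm j
        _ ≤ (volume.restrict E) Set.univ := measure_mono (Set.subset_univ _)
        _ = volume E := Measure.restrict_apply_univ _
    have hlow : ENNReal.ofReal ((J : ℝ) * (1 / 2) ^ (3 * k)) * volume S ≤ volume E := by
      refine le_trans ?_ hsum
      calc ENNReal.ofReal ((J : ℝ) * (1 / 2) ^ (3 * k)) * volume S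
          = ∑ _j ∈ Finset.range J, ENNReal.ofReal ((1 / 2) ^ (3 * k)) * volume S := by
            rw [Finset.sum_const, Finset.card_range, ENNReal.ofReal_mul (by positivity),
              ENNReal.ofReal_natCast, nsmul_eq_mul, mul_assoc]
        _ ≤ ∑ j ∈ Finset.range J, volume (momScale k (lam j) '' S) := by
            apply Finset.sum_le_sum
            intro j hj
            have hpos : 0 < lam j := lt_of_lt_of_le (by norm_num) (hlamge j hj)
            rw [volume_momScale k hpos]
            gcongr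
            exact hlamge j hj
    have hJpos : (0:ℝ) < J := by rw [hJ]; positivity
    have hone : (2 ^ (3 * k) / J : ℝ) * ((J : ℝ) * (1 / 2) ^ (3 * k)) = 1 := by
      have h1 : (2:ℝ) ^ (3 * k) * (1 / 2) ^ (3 * k) = 1 := by rw [← mul_pow]; norm_num
      calc (2 ^ (3 * k) / J : ℝ) * ((J : ℝ) * (1 / 2) ^ (3 * k)) =
          (2 ^ (3 * k) * (1 / 2) ^ (3 * k)) * ((J : ℝ) / J) := by ring
        _ = 1 := by rw [h1, div_self hJpos.ne', one_mul]
    calc volume S = ENNReal.ofReal ((2 ^ (3 * k) / J : ℝ) * ((J : ℝ) * (1 / 2) ^ (3 * k))) *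
          volume S := by rw [hone, ENNReal.ofReal_one, one_mul]
      _ = ENNReal.ofReal (2 ^ (3 * k) / J : ℝ) *
          (ENNReal.ofReal ((J : ℝ) * (1 / 2) ^ (3 * k)) * volume S) := by
          rw [ENNReal.ofReal_mul (by positivity), mul_assoc]
      _ ≤ ENNReal.ofReal (2 ^ (3 * k) / J : ℝ) * volume E := by gcongr
      _ ≤ _ := by
          gcongr
          rw [div_le_iff₀ hJpos]
          have h1 : 1 ≤ 8 * (e / L) * J := by
            have h2 : (3:ℝ) / (4 * η) = 3 / 8 * (L / e) := by
              rw [hη]; field_simp; norm_num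
            rw [h2] at hJge
            calc (1:ℝ) ≤ 8 * (e / L) * (3 / 8 * (L / e)) := by
                  field_simp; norm_num
              _ ≤ _ := mul_le_mul_of_nonneg_left hJge (by positivity)
          calc (2:ℝ) ^ (3 * k) = 2 ^ (3 * k) * 1 := (mul_one _).symm
            _ ≤ 2 ^ (3 * k) * (8 * (e / L) * J) := mul_le_mul_of_nonneg_left h1 (by positivity)
            _ = _ := by ring

/-- momenta scale linearly -/
theorem state_scale {n : ℕ} (m : Fin (n + 1) → ℝ) (z : Rel n) (l : ℝ) :
    state m (z.1, l • z.2) = ((state m z).1, l • (state m z).2) := by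
  refine Prod.ext rfl ?_
  funext i
  refine Fin.lastCases ?_ ?_ i
  · rw [state_snd_last]
    change -∑ i, l • z.2 i = l • (state m z).2 (Fin.last n)
    rw [state_snd_last, smul_neg, Finset.smul_sum]
  · intro j
    rw [state_snd_castSucc]
    change l • z.2 j = l • (state m z).2 (Fin.castSucc j)
    rw [state_snd_castSucc]

theorem kin_smul {N : ℕ} (m : Fin N → ℝ) (p : Fin N → V3) (l : ℝ) :
    kin m (l • p) = l ^ 2 * kin m p := by
  unfold kin
  rw [Finset.mul_sum]
  apply Finset.sum_congr rfl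
  intro i _
  rw [Pi.smul_apply, norm_smul, mul_pow, Real.norm_eq_abs, sq_abs]
  ring

theorem measurable_state_fst {n : ℕ} (m : Fin (n + 1) → ℝ) (i : Fin (n + 1)) :
    Measurable fun z : Rel n => (state m z).1 i := by
  refine Fin.lastCases ?_ ?_ i
  · simp only [state_fst_last]
    fun_prop
  · intro j
    simp only [state_fst_castSucc]
    fun_prop

theorem measurable_state_snd {n : ℕ} (m : Fin (n + 1) → ℝ) (i : Fin (n + 1)) :
    Measurable fun z : Rel n => (state m z).2 i := by
  refine Fin.lastCases ?_ ?_ i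
  · simp only [state_snd_last]
    fun_prop
  · intro j
    simp only [state_snd_castSucc]
    fun_prop

theorem measurable_kin {n : ℕ} (m : Fin (n + 1) → ℝ) :
    Measurable fun z : Rel n => kin m (state m z).2 := by
  unfold kin
  have := measurable_state_snd m
  fun_prop

theorem measurable_pot {n : ℕ} (m : Fin (n + 1) → ℝ) :
    Measurable fun z : Rel n => pot m (state m z).1 := by
  unfold pot
  have := measurable_state_fst m
  fun_prop

/-- the potential energy is at least the one of a pair -/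
theorem pot_ge_pair {N : ℕ} {m : Fin N → ℝ} (hm : ∀ i, 0 < m i) (q : Fin N → V3) {a b : Fin N}
    (hab : a ≠ b) : m a * m b / ‖q a - q b‖ ≤ pot m q := by
  have hmm : ∀ k l, 0 < m k * m l := fun k l => mul_pos (hm k) (hm l)
  set f : Fin N → Fin N → ℝ := fun i j => m i * m j / ‖q i - q j‖ / 2 with hf
  have hf0 : ∀ i j, 0 ≤ f i j := fun i j => by
    have := hmm i j
    rw [hf]; positivity
  have hsym : f b a = f a b := by
    rw [hf]
    simp only
    rw [norm_sub_rev, mul_comm (m b)]
  have hab2 : f a b + f a b = m a * m b / ‖q a - q b‖ := by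
    rw [hf]; ring
  have h1 : f a b ≤ ∑ l, f a l := Finset.single_le_sum (fun l _ => hf0 a l) (Finset.mem_univ b)
  have h2 : f b a ≤ ∑ l, f b l := Finset.single_le_sum (fun l _ => hf0 b l) (Finset.mem_univ a)
  have h3 : ∑ l, f a l + ∑ l, f b l ≤ ∑ k, ∑ l, f k l := by
    have := Finset.sum_le_sum_of_subset_of_nonneg (f := fun k => ∑ l, f k l)
      (Finset.subset_univ ({a, b} : Finset (Fin N)))
      (fun k _ _ => Finset.sum_nonneg (fun l _ => hf0 k l))
    rwa [Finset.sum_pair hab] at this
  have h4 : pot m q = ∑ k, ∑ l, f k l := rfl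
  rw [h4, ← hab2]
  linarith

/-- Upper bound for the volume of the momentum-bounded states with a close pair. -/
theorem volume_momBdd_close (n : ℕ) (m : Fin (n + 2) → ℝ) (hm : ∀ i, 0 < m i) (C : ℝ)
    (hC : 0 < C) :
    ∃ K : ℝ, 0 < K ∧ ∀ R r : ℝ, 0 < R → 0 < r →
      volume {z : Rel (n + 1) | MomBdd C (state m z) ∧
        Real.sqrt (∑ i, m i * ‖(state m z).1 i‖ ^ 2) ≤ R ∧
        ∃ i j, i ≠ j ∧ ‖(state m z).1 i - (state m z).1 j‖ ≤ r} ≤
      ENNReal.ofReal (K * Real.sqrt r ^ 3 * (Real.sqrt R ^ 3) ^ n) := by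
  obtain ⟨i₀, hi₀⟩ := Finite.exists_min m
  set μ : ℝ := m i₀ with hμdef
  have hμ : 0 < μ := hm i₀
  obtain ⟨K, hK, H⟩ := volume_Bset_close n
  have h0 : ∀ k : ℕ, (volume : Measure (Fin k → V3)).IsAddHaarMeasure := fun k => inferInstance
  have h5 : ∀ k : ℕ, (volume : Measure (Rel k)).IsAddHaarMeasure := fun k =>
    have := h0 k
    Measure.prod.instIsAddHaarMeasure _ _
  have h6 := h5 (n + 1)
  obtain ⟨c, hc, hcS⟩ := exists_scale (volume : Measure (Rel (n + 1))) volume (relEquiv m hm)
  set a : ℝ := 2 / Real.sqrt μ with ha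
  have hsμ : 0 < Real.sqrt μ := Real.sqrt_pos.mpr hμ
  have hapos : 0 < a := by positivity
  refine ⟨c * (K * Real.sqrt C ^ 3 * (Real.sqrt (C * a) ^ 3) ^ n) + 1, by positivity, ?_⟩
  intro R r hR hr
  have hsub : {z : Rel (n + 1) | MomBdd C (state m z) ∧
        Real.sqrt (∑ i, m i * ‖(state m z).1 i‖ ^ 2) ≤ R ∧
        ∃ i j, i ≠ j ∧ ‖(state m z).1 i - (state m z).1 j‖ ≤ r} ⊆
      (relEquiv m hm) ⁻¹' {z | Bset (n + 1) C (a * R) z ∧ ∃ (i : Fin (n + 1))
        (j : Option (Fin (n + 1))), j ≠ some i ∧ ‖z.1 i - pos z.1 j‖ ≤ r} := by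
    rintro z ⟨hz1, hz3, k, l, hkl, hle⟩
    have hd := dist_le_size hμ hi₀ (state m z).1 hz3
    refine ⟨hz1.bset hm hd, ?_⟩
    obtain ⟨i, rfl⟩ := exists_lab k
    obtain ⟨j, rfl⟩ := exists_lab l
    cases i with
    | some i =>
      refine ⟨i, j, ?_, ?_⟩
      · intro h
        exact hkl (by rw [h])
      · rw [relEquiv_sub]
        exact hle
    | none =>
      cases j with
      | none => exact absurd rfl hkl
      | some j =>
        refine ⟨j, none, by simp, ?_⟩
        rw [relEquiv_sub, norm_sub_rev]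
        exact hle
  refine (measure_mono hsub).trans ((hcS _).trans ?_)
  calc ENNReal.ofReal c * volume {z | Bset (n + 1) C (a * R) z ∧ ∃ (i : Fin (n + 1))
        (j : Option (Fin (n + 1))), j ≠ some i ∧ ‖z.1 i - pos z.1 j‖ ≤ r}
      ≤ ENNReal.ofReal c * ENNReal.ofReal (K * Real.sqrt (C * r) ^ 3 *
        (Real.sqrt (C * (a * R)) ^ 3) ^ n) := by
        gcongr
        exact H C (a * R) r hC (by positivity) hr
    _ = ENNReal.ofReal (c * (K * Real.sqrt C ^ 3 * (Real.sqrt (C * a) ^ 3) ^ n) *
        Real.sqrt r ^ 3 * (Real.sqrt R ^ 3) ^ n) := by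
        rw [← ENNReal.ofReal_mul hc]
        congr 1
        rw [← mul_assoc C a, Real.sqrt_mul hC.le r,
          Real.sqrt_mul (by positivity) R, mul_pow, mul_pow, mul_pow]
        ring
    _ ≤ _ := by
        apply ENNReal.ofReal_le_ofReal
        have h1 : 0 ≤ Real.sqrt r ^ 3 * (Real.sqrt R ^ 3) ^ n := by positivity
        nlinarith

/-- Upper bound for the volume of the momentum-bounded states with a close pair and energy in a
band. -/
theorem volume_band_close (n : ℕ) (m : Fin (n + 2) → ℝ) (hm : ∀ i, 0 < m i) (C : ℝ)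
    (hC : 0 < C) :
    ∃ K : ℝ, 0 < K ∧ ∀ e R r : ℝ, 0 < e → 0 < R → 0 < r →
      volume {z : Rel (n + 1) | MomBdd C (state m z) ∧
        kin m (state m z).2 - pot m (state m z).1 ∈ Set.Icc (-(2 * e)) (-e) ∧
        Real.sqrt (∑ i, m i * ‖(state m z).1 i‖ ^ 2) ≤ R ∧
        ∃ i j, i ≠ j ∧ ‖(state m z).1 i - (state m z).1 j‖ ≤ r} ≤
      ENNReal.ofReal (K * e * Real.sqrt r ^ 5 * Real.sqrt R ^ (3 * n)) := by
  obtain ⟨i₀, hi₀⟩ := Finite.exists_min m
  set μ : ℝ := m i₀ with hμdef
  have hμ : 0 < μ := hm i₀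
  obtain ⟨K, hK, H⟩ := volume_momBdd_close n m hm C hC
  refine ⟨2 ^ (3 * (n + 1)) * 8 / μ ^ 2 * K, by positivity, ?_⟩
  intro e R r he hR hr
  set E : Set (Rel (n + 1)) := {z : Rel (n + 1) | MomBdd C (state m z) ∧
        Real.sqrt (∑ i, m i * ‖(state m z).1 i‖ ^ 2) ≤ R ∧
        ∃ i j, i ≠ j ∧ ‖(state m z).1 i - (state m z).1 j‖ ≤ r} with hE
  have hstar : ∀ z ∈ E, ∀ l : ℝ, 0 < l → l ≤ 1 → ((z.1, l • z.2) : Rel (n + 1)) ∈ E := by
    rintro z ⟨h1, h2, h3⟩ l hl0 hl1
    refine ⟨⟨?_, ?_⟩, ?_, ?_⟩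
    · exact h1.nc
    · intro A d hd hA
      rw [state_scale]
      change ‖∑ i ∈ A, l • (state m z).2 i‖ ^ 2 * d ≤ C
      rw [← Finset.smul_sum, norm_smul, mul_pow, Real.norm_eq_abs, sq_abs]
      have h4 := h1.mom A d hd hA
      have h5 : 0 ≤ ‖∑ i ∈ A, (state m z).2 i‖ ^ 2 * d := by positivity
      have h6 : l ^ 2 ≤ 1 := by nlinarith
      nlinarith
    · exact h2
    · exact h3
  have hpk := packing (n + 1) E hstar (fun z => kin m (state m z).2) (fun z => pot m (state m z).1)
    (measurable_kin m) (measurable_pot m)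
    (fun z l => by
      rw [state_scale, kin_smul])
    (fun z l => rfl) (L := μ ^ 2 / r) (e := e) (by positivity) he
    (by
      rintro z ⟨h1, _, i, j, hij, hle⟩
      have hpos : 0 < ‖(state m z).1 i - (state m z).1 j‖ :=
        norm_pos_iff.mpr (sub_ne_zero.mpr (h1.nc i j hij))
      refine le_trans ?_ (pot_ge_pair hm (state m z).1 hij)
      have h2 : μ ^ 2 ≤ m i * m j := by
        rw [sq]; exact mul_le_mul (hi₀ i) (hi₀ j) hμ.le (hm i).le
      exact div_le_div₀ (mul_pos (hm i) (hm j)).le h2 hpos hle)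
  have hsub : {z : Rel (n + 1) | MomBdd C (state m z) ∧
        kin m (state m z).2 - pot m (state m z).1 ∈ Set.Icc (-(2 * e)) (-e) ∧
        Real.sqrt (∑ i, m i * ‖(state m z).1 i‖ ^ 2) ≤ R ∧
        ∃ i j, i ≠ j ∧ ‖(state m z).1 i - (state m z).1 j‖ ≤ r} ⊆
      {z | z ∈ E ∧ kin m (state m z).2 - pot m (state m z).1 ∈ Set.Icc (-(2 * e)) (-e)} := by
    rintro z ⟨h1, h2, h3, h4⟩
    exact ⟨⟨h1, h3, h4⟩, h2⟩
  refine (measure_mono hsub).trans (hpk.trans ?_)
  calc ENNReal.ofReal (2 ^ (3 * (n + 1)) * 8 * (e / (μ ^ 2 / r))) * volume E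
      ≤ ENNReal.ofReal (2 ^ (3 * (n + 1)) * 8 * (e / (μ ^ 2 / r))) *
        ENNReal.ofReal (K * Real.sqrt r ^ 3 * (Real.sqrt R ^ 3) ^ n) := by
        gcongr
        exact H R r hR hr
    _ = _ := by
        rw [← ENNReal.ofReal_mul (by positivity)]
        congr 1
        have hr2 : Real.sqrt r ^ 2 = r := Real.sq_sqrt hr.le
        have h1 : e / (μ ^ 2 / r) = e / μ ^ 2 * Real.sqrt r ^ 2 := by
          rw [hr2]; field_simp
        rw [h1, ← pow_mul]
        ring

end Pool.Agent.NBody
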