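import Mathlib
import Pool.Agent.NBody.Vol6

/-!
For fixed positions: the fraction of the velocities of given kinetic energy which are
momentum-bounded.
-/

set_option autoImplicit false
set_option synthInstance.maxSize 4000
open scoped RealInnerProductSpace ENNReal Pointwise
open Set Finset Filter Topology MeasureTheory

namespace Pool.Agent.NBody

/-- all momenta from those of the first bodies, with total momentum zero -/
noncomputable def momOf {n : ℕ} (p : Fin n → V3) : Fin (n + 1) → V3 :=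
  Fin.snoc (α := fun _ => V3) p (-∑ i, p i)

theorem momOf_castSucc {n : ℕ} (p : Fin n → V3) (i : Fin n) :
    momOf p (Fin.castSucc i) = p i := by
  unfold momOf; simp only [Fin.snoc_castSucc]

theorem momOf_last {n : ℕ} (p : Fin n → V3) : momOf p (Fin.last n) = -∑ i, p i := by
  unfold momOf; simp only [Fin.snoc_last]

/-- as a linear map -/
noncomputable def momLin (n : ℕ) : (Fin n → V3) →ₗ[ℝ] (Fin (n + 1) → V3) where
  toFun p := momOf p
  map_add' p p' := by
    funext i
    refine Fin.lastCases ?_ ?_ i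
    · rw [momOf_last, Pi.add_apply, momOf_last, momOf_last]
      simp only [Pi.add_apply, Finset.sum_add_distrib]
      abel
    · intro j
      rw [momOf_castSucc, Pi.add_apply, Pi.add_apply, momOf_castSucc, momOf_castSucc]
  map_smul' c p := by
    funext i
    refine Fin.lastCases ?_ ?_ i
    · rw [momOf_last, Pi.smul_apply, momOf_last]
      simp only [Pi.smul_apply, RingHom.id_apply, smul_neg, Finset.smul_sum]
    · intro j
      rw [momOf_castSucc, Pi.smul_apply, RingHom.id_apply, Pi.smul_apply, momOf_castSucc]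

theorem momLin_apply {n : ℕ} (p : Fin n → V3) : momLin n p = momOf p := rfl

/-- the total momenta of a family of sets of bodies -/
noncomputable def famMom {n : ℕ} (F : Finset (Finset (Fin (n + 1)))) :
    (Fin n → V3) →ₗ[ℝ] (F → V3) :=
  LinearMap.pi fun A => ∑ i ∈ A.1, (LinearMap.proj i).comp (momLin n)

theorem famMom_apply {n : ℕ} (F : Finset (Finset (Fin (n + 1)))) (p : Fin n → V3) (A : F) :
    famMom F p A = ∑ i ∈ A.1, momOf p i := by
  unfold famMom
  simp only [LinearMap.pi_apply, LinearMap.sum_apply, LinearMap.comp_apply, LinearMap.proj_apply,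
    momLin_apply]

/-- no nontrivial combination of the indicator functions of the sets is constant -/
def Indep {n : ℕ} (F : Finset (Finset (Fin (n + 1)))) : Prop :=
  ∀ c : Finset (Fin (n + 1)) → ℝ, (∀ i j, ∑ A ∈ F, (if i ∈ A then c A else 0) =
    ∑ A ∈ F, (if j ∈ A then c A else 0)) → ∀ A ∈ F, c A = 0

theorem momOf_single_sum {n : ℕ} (A : Finset (Fin (n + 1))) (i : Fin n) (v : V3) :
    ∑ k ∈ A, momOf (Pi.single i v) k =
      (if Fin.castSucc i ∈ A then v else 0) - (if Fin.last n ∈ A then v else 0) := by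
  classical
  have h1 : ∀ k : Fin (n + 1), momOf (Pi.single i v) k =
      (if k = Fin.castSucc i then v else 0) - (if k = Fin.last n then v else 0) := by
    intro k
    refine Fin.lastCases ?_ ?_ k
    · rw [momOf_last, if_neg (Fin.castSucc_lt_last i).ne', if_pos rfl, Finset.sum_pi_single',
        if_pos (Finset.mem_univ _), zero_sub]
    · intro j
      rw [momOf_castSucc, if_neg (Fin.castSucc_lt_last j).ne, sub_zero]
      by_cases hji : j = i
      · subst hji
        rw [Pi.single_eq_same, if_pos rfl]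
      · rw [Pi.single_eq_of_ne hji, if_neg (fun h => hji (Fin.castSucc_injective n h))]
  rw [Finset.sum_congr rfl (fun k _ => h1 k), Finset.sum_sub_distrib, Finset.sum_ite_eq',
    Finset.sum_ite_eq']

theorem famMom_surjective {n : ℕ} {F : Finset (Finset (Fin (n + 1)))} (hF : Indep F) :
    Function.Surjective (famMom F) := by
  classical
  rw [← LinearMap.range_eq_top]
  by_contra hne
  obtain ⟨f, hf0, hf⟩ := Submodule.exists_le_ker_of_lt_top _ (lt_top_iff_ne_top.mpr hne)
  apply hf0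
  apply LinearMap.pi_ext
  intro A v
  rw [LinearMap.zero_apply]
  set c : Finset (Fin (n + 1)) → ℝ := fun B => if h : B ∈ F then f (Pi.single ⟨B, h⟩ v) else 0
    with hc
  have hcA : ∀ B : F, f (Pi.single B v) = c B.1 := by
    intro B
    rw [hc]
    simp only [B.2, dif_pos]
  have hrel : ∀ i : Fin n, ∑ B ∈ F, (if Fin.castSucc i ∈ B then c B else 0) =
      ∑ B ∈ F, (if Fin.last n ∈ B then c B else 0) := by
    intro i
    have h1 : f (famMom F (Pi.single i v)) = 0 := by
      have : famMom F (Pi.single i v) ∈ LinearMap.range (famMom F) := ⟨_, rfl⟩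
      exact hf this
    rw [← Finset.univ_sum_single (famMom F (Pi.single i v)), map_sum] at h1
    have h2 : ∀ B : F, f (Pi.single B (famMom F (Pi.single i v) B)) =
        (if Fin.castSucc i ∈ B.1 then c B.1 else 0) - (if Fin.last n ∈ B.1 then c B.1 else 0) := by
      intro B
      rw [famMom_apply, momOf_single_sum, ← hcA B]
      split_ifs
      · rw [sub_self, sub_self, Pi.single_zero, map_zero]
      · rw [sub_zero, sub_zero]
      · rw [zero_sub, zero_sub, Pi.single_neg, map_neg]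
      · rw [sub_self, sub_self, Pi.single_zero, map_zero]
    rw [Finset.sum_congr rfl (fun B _ => h2 B), Finset.sum_sub_distrib, sub_eq_zero,
      Finset.sum_coe_sort F (fun B => if Fin.castSucc i ∈ B then c B else 0),
      Finset.sum_coe_sort F (fun B => if Fin.last n ∈ B then c B else 0)] at h1
    exact h1
  have hall : ∀ i : Fin (n + 1), ∑ B ∈ F, (if i ∈ B then c B else 0) =
      ∑ B ∈ F, (if Fin.last n ∈ B then c B else 0) := by
    intro i
    refine Fin.lastCases rfl hrel i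
  rw [hcA A]
  exact hF c (fun i j => by rw [hall i, hall j]) A.1 A.2

/-- volume of a slab -/
theorem volume_slab {n : ℕ} {ι : Type*} [Fintype ι] (L : (Fin n → V3) →ₗ[ℝ] (ι → V3))
    (hL : Function.Surjective L) : ∃ (c : ℝ) (k : ℕ), 0 ≤ c ∧ k + 3 * Fintype.card ι = 3 * n ∧
      ∀ (K : ℝ) (r : ι → ℝ), 0 ≤ K → (∀ i, 0 ≤ r i) →
      volume {x : Fin n → V3 | ‖x‖ ≤ K ∧ ∀ i, ‖L x i‖ ≤ r i} ≤
        ENNReal.ofReal (c * K ^ k * ∏ i, r i ^ 3) := by
  classical
  set W := LinearMap.ker L with hW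
  obtain ⟨π, hπ⟩ := W.subtype.exists_leftInverse_of_injective (by simp)
  have hπW : ∀ x : W, π x = x := fun x => by
    have := LinearMap.congr_fun hπ x
    exact this
  have hfin1 : Module.finrank ℝ (Fin n → V3) = 3 * n := by
    simp [V3, Module.finrank_pi_fintype]; ring
  have hfin2 : Module.finrank ℝ (ι → V3) = 3 * Fintype.card ι := by
    simp [V3, Module.finrank_pi_fintype]; ring
  have hrk : Module.finrank ℝ W + Module.finrank ℝ (ι → V3) = Module.finrank ℝ (Fin n → V3) := by
    have h1 := LinearMap.finrank_range_add_finrank_ker L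
    rw [LinearMap.range_eq_top.mpr hL, finrank_top] at h1
    rw [← h1, add_comm]
  have hinj : Function.Injective (L.prod π) := by
    rw [← LinearMap.ker_eq_bot, LinearMap.ker_eq_bot']
    intro x hx
    have h1 : L x = 0 := congrArg Prod.fst hx
    have h2 : π x = 0 := congrArg Prod.snd hx
    have h3 : x ∈ W := LinearMap.mem_ker.mpr h1
    have h4 := hπW ⟨x, h3⟩
    rw [h2] at h4
    exact (congrArg Subtype.val h4).symm
  set e : (Fin n → V3) ≃L[ℝ] (ι → V3) × W :=
    (LinearMap.linearEquivOfInjective (L.prod π) hinj (by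
      rw [Module.finrank_prod, ← hrk, add_comm])).toContinuousLinearEquiv with he
  have heapp : ∀ x, e x = (L x, π x) := fun x => rfl
  have h0 : (volume : Measure (Fin n → V3)).IsAddHaarMeasure := inferInstance
  have h01 : (volume : Measure (ι → V3)).IsAddHaarMeasure := inferInstance
  have h1 : ((volume : Measure (ι → V3)).prod (Measure.addHaar : Measure W)).IsAddHaarMeasure :=
    Measure.prod.instIsAddHaarMeasure _ _
  obtain ⟨c, hc, hS⟩ := exists_scale (volume : Measure (Fin n → V3))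
    ((volume : Measure (ι → V3)).prod (Measure.addHaar : Measure W)) e
  set πc : (Fin n → V3) →L[ℝ] W := LinearMap.toContinuousLinearMap π with hπc
  set ω : ℝ≥0∞ := volume (Metric.ball (0 : V3) 1) with hω
  have hωtop : ω ≠ ⊤ := Metric.isBounded_ball.measure_lt_top.ne
  set w : ℝ := ω.toReal with hw
  have hw0 : 0 ≤ w := ENNReal.toReal_nonneg
  have hfin : Module.finrank ℝ V3 = 3 := by simp [V3]
  have hball : ∀ (s : ℝ), 0 ≤ s →
      volume (Metric.closedBall (0 : V3) s) = ENNReal.ofReal (w * s ^ 3) := by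
    intro s hs
    rw [Measure.addHaar_closedBall _ _ hs, hfin, ← hω, mul_comm, ENNReal.ofReal_mul hw0, hw,
      ENNReal.ofReal_toReal hωtop]
  set ν : ℝ≥0∞ := (Measure.addHaar : Measure W) (Metric.ball (0 : W) 1) with hν
  have hνtop : ν ≠ ⊤ := Metric.isBounded_ball.measure_lt_top.ne
  refine ⟨c * w ^ Fintype.card ι * (‖πc‖ ^ Module.finrank ℝ W * ν.toReal), Module.finrank ℝ W,
    by positivity, by rw [← hfin2, hrk, hfin1], ?_⟩
  intro K r hK hr
  have hsub : {x : Fin n → V3 | ‖x‖ ≤ K ∧ ∀ i, ‖L x i‖ ≤ r i} ⊆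
      e ⁻¹' ((Set.univ.pi fun i => Metric.closedBall (0 : V3) (r i)) ×ˢ
        Metric.closedBall (0 : W) (‖πc‖ * K)) := by
    rintro x ⟨hx1, hx2⟩
    rw [Set.mem_preimage, heapp]
    refine ⟨?_, ?_⟩
    · intro i _
      rw [mem_closedBall_zero_iff]
      exact hx2 i
    · rw [mem_closedBall_zero_iff]
      calc ‖π x‖ = ‖πc x‖ := rfl
        _ ≤ ‖πc‖ * ‖x‖ := πc.le_opNorm x
        _ ≤ ‖πc‖ * K := mul_le_mul_of_nonneg_left hx1 (norm_nonneg πc)
  refine (measure_mono hsub).trans ((hS _).trans ?_)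
  rw [Measure.prod_prod, volume_pi_pi, Finset.prod_congr rfl (fun i _ => hball (r i) (hr i)),
    Measure.addHaar_closedBall _ _ (by positivity), ← hν,
    ← ENNReal.ofReal_prod_of_nonneg (fun i _ => by have := hr i; positivity),
    ← ENNReal.ofReal_toReal hνtop, ← ENNReal.ofReal_mul (by positivity),
    ← ENNReal.ofReal_mul (Finset.prod_nonneg (fun i _ => by have := hr i; positivity)),
    ← ENNReal.ofReal_mul hc]
  apply ENNReal.ofReal_le_ofReal
  apply le_of_eq
  rw [Finset.prod_mul_distrib, Finset.prod_const, Finset.card_univ, ENNReal.toReal_ofReal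
    ENNReal.toReal_nonneg, mul_pow]
  ring

/-- the kinetic energy bounds the momenta -/
theorem norm_le_of_kin {n : ℕ} {m : Fin (n + 1) → ℝ} (hm : ∀ i, 0 < m i) {p : Fin n → V3} {T : ℝ}
    (hT : 0 ≤ T) (h : kin m (momOf p) ≤ T) : ‖p‖ ≤ Real.sqrt (2 * (∑ i, m i) * T) := by
  have hM : 0 ≤ ∑ i, m i := Finset.sum_nonneg (fun i _ => (hm i).le)
  rw [pi_norm_le_iff_of_nonneg (Real.sqrt_nonneg _)]
  intro i
  apply Real.le_sqrt_of_sq_le
  have h1 : ‖momOf p (Fin.castSucc i)‖ ^ 2 / (2 * m (Fin.castSucc i)) ≤ T := by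
    refine le_trans ?_ h
    unfold kin
    exact Finset.single_le_sum (f := fun i => ‖momOf p i‖ ^ 2 / (2 * m i))
      (fun i _ => by have := hm i; positivity) (Finset.mem_univ _)
  rw [momOf_castSucc, div_le_iff₀ (by have := hm (Fin.castSucc i); positivity)] at h1
  have h2 : m (Fin.castSucc i) ≤ ∑ i, m i :=
    Finset.single_le_sum (fun i _ => (hm i).le) (Finset.mem_univ _)
  have h3 : T * (2 * m (Fin.castSucc i)) ≤ T * (2 * ∑ i, m i) := by
    apply mul_le_mul_of_nonneg_left _ hT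
    linarith
  linarith

theorem kin_momOf_smul {n : ℕ} (m : Fin (n + 1) → ℝ) (p : Fin n → V3) (l : ℝ) :
    kin m (momOf (l • p)) = l ^ 2 * kin m (momOf p) := by
  have h : momOf (l • p) = l • momOf p := (momLin n).map_smul l p
  rw [h, kin_smul]

theorem continuous_kin_momOf {n : ℕ} (m : Fin (n + 1) → ℝ) :
    Continuous fun p : Fin n → V3 => kin m (momOf p) := by
  have h : ∀ i : Fin (n + 1), Continuous fun p : Fin n → V3 => momOf p i := by
    intro i
    refine Fin.lastCases ?_ ?_ i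
    · simp only [momOf_last]
      fun_prop
    · intro j
      simp only [momOf_castSucc]
      fun_prop
  unfold kin
  fun_prop

/-- the volume of the momenta of bounded kinetic energy -/
theorem volume_kin_le {n : ℕ} (m : Fin (n + 1) → ℝ) :
    ∃ c : ℝ, 0 < c ∧ ∀ T : ℝ, 0 < T →
      ENNReal.ofReal (c * Real.sqrt T ^ (3 * n)) ≤
        volume {p : Fin n → V3 | kin m (momOf p) ≤ T} := by
  have h0 : (volume : Measure (Fin n → V3)).IsAddHaarMeasure := inferInstance
  have hc := continuous_kin_momOf m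
  have hopen : IsOpen {p : Fin n → V3 | kin m (momOf p) < 1} := isOpen_lt hc continuous_const
  have hzero : kin m (momOf (0 : Fin n → V3)) = 0 := by
    have := kin_momOf_smul m (0 : Fin n → V3) 0
    rw [zero_smul] at this
    rw [this]; ring
  have hne : {p : Fin n → V3 | kin m (momOf p) < 1}.Nonempty :=
    ⟨0, by
      change kin m (momOf (0 : Fin n → V3)) < 1
      rw [hzero]; exact one_pos⟩
  have hpos : 0 < volume {p : Fin n → V3 | kin m (momOf p) < 1} := hopen.measure_pos volume hne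
  obtain ⟨c, hc0, hc1⟩ := ENNReal.lt_iff_exists_nnreal_btwn.mp hpos
  have hc0' : (0 : NNReal) < c := by exact_mod_cast hc0
  refine ⟨c, hc0', ?_⟩
  intro T hT
  have hfin : Module.finrank ℝ (Fin n → V3) = 3 * n := by
    simp [V3, Module.finrank_pi_fintype]; ring
  have hsub : Real.sqrt T • {p : Fin n → V3 | kin m (momOf p) < 1} ⊆
      {p : Fin n → V3 | kin m (momOf p) ≤ T} := by
    rintro _ ⟨p, hp, rfl⟩
    change kin m (momOf (Real.sqrt T • p)) ≤ T
    rw [kin_momOf_smul, Real.sq_sqrt hT.le]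
    have hp' : kin m (momOf p) < 1 := hp
    nlinarith
  refine le_trans ?_ (measure_mono hsub)
  rw [Measure.addHaar_smul, hfin, abs_of_nonneg (by positivity), mul_comm (c : ℝ),
    ENNReal.ofReal_mul (by positivity), ENNReal.ofReal_coe_nnreal]
  gcongr

/-- The fraction of the velocities of given kinetic energy which are momentum-bounded, for an
independent family of sets. -/
theorem frac_family (n : ℕ) (m : Fin (n + 1) → ℝ) (hm : ∀ i, 0 < m i) (C : ℝ) (hC : 0 < C) :
    ∃ K : ℝ, 0 < K ∧ ∀ (q : Fin (n + 1) → V3) (T : ℝ), 0 < T →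
      ∀ F : Finset (Finset (Fin (n + 1))), Indep F → ∀ d : Finset (Fin (n + 1)) → ℝ,
      (∀ A ∈ F, 0 < d A ∧ ∀ i ∈ A, ∀ j ∉ A, d A ≤ ‖q i - q j‖) →
      ENNReal.ofReal (∏ A ∈ F, Real.sqrt (d A * T) ^ 3) *
        volume {p : Fin n → V3 | kin m (momOf p) ≤ T ∧ MomBdd C (q, momOf p)} ≤
      ENNReal.ofReal K * volume {p : Fin n → V3 | kin m (momOf p) ≤ T} := by
  classical
  obtain ⟨c₀, hc₀, H₀⟩ := volume_kin_le m
  have hM : 0 ≤ ∑ i, m i := Finset.sum_nonneg (fun i _ => (hm i).le)
  set M : ℝ := ∑ i, m i with hMdef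
  have hF : ∀ F : Finset (Finset (Fin (n + 1))), ∃ K : ℝ, 0 ≤ K ∧ (Indep F →
      ∀ (q : Fin (n + 1) → V3) (T : ℝ), 0 < T → ∀ d : Finset (Fin (n + 1)) → ℝ,
      (∀ A ∈ F, 0 < d A ∧ ∀ i ∈ A, ∀ j ∉ A, d A ≤ ‖q i - q j‖) →
      ENNReal.ofReal (∏ A ∈ F, Real.sqrt (d A * T) ^ 3) *
        volume {p : Fin n → V3 | kin m (momOf p) ≤ T ∧ MomBdd C (q, momOf p)} ≤
      ENNReal.ofReal K * volume {p : Fin n → V3 | kin m (momOf p) ≤ T}) := by
    intro F
    by_cases hI : Indep F
    swap
    · exact ⟨0, le_rfl, fun h => absurd h hI⟩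
    obtain ⟨c, k, hc, hk, H⟩ := volume_slab (famMom F) (famMom_surjective hI)
    rw [Fintype.card_coe] at hk
    refine ⟨c * Real.sqrt (2 * M) ^ k * Real.sqrt C ^ (3 * F.card) / c₀, by positivity, ?_⟩
    intro _ q T hT d hd
    have hprod : ∀ f : Finset (Fin (n + 1)) → ℝ, ∏ A : F, f A.1 = ∏ A ∈ F, f A :=
      fun f => Finset.prod_coe_sort F f
    have hsub : {p : Fin n → V3 | kin m (momOf p) ≤ T ∧ MomBdd C (q, momOf p)} ⊆
        {p : Fin n → V3 | ‖p‖ ≤ Real.sqrt (2 * M * T) ∧
          ∀ A : F, ‖famMom F p A‖ ≤ Real.sqrt (C / d A.1)} := by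
      rintro p ⟨h1, h2⟩
      refine ⟨norm_le_of_kin hm hT.le h1, ?_⟩
      intro A
      obtain ⟨h3, h4⟩ := hd A.1 A.2
      rw [famMom_apply]
      apply Real.le_sqrt_of_sq_le
      rw [le_div_iff₀ h3]
      exact h2.mom A.1 (d A.1) h3 h4
    have hle := (measure_mono hsub).trans (H (Real.sqrt (2 * M * T))
      (fun A => Real.sqrt (C / d A.1)) (Real.sqrt_nonneg _) (fun _ => Real.sqrt_nonneg _))
    have hprod1 : (∏ A ∈ F, Real.sqrt (d A * T) ^ 3) * ∏ A ∈ F, Real.sqrt (C / d A) ^ 3 =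
        (Real.sqrt C * Real.sqrt T) ^ (3 * F.card) := by
      rw [← Finset.prod_mul_distrib, pow_mul, ← Finset.prod_const]
      apply Finset.prod_congr rfl
      intro A hA
      have h3 := (hd A hA).1
      rw [← mul_pow, ← Real.sqrt_mul (by positivity), ← Real.sqrt_mul hC.le]
      congr 2
      field_simp
    calc ENNReal.ofReal (∏ A ∈ F, Real.sqrt (d A * T) ^ 3) *
        volume {p : Fin n → V3 | kin m (momOf p) ≤ T ∧ MomBdd C (q, momOf p)}
        ≤ ENNReal.ofReal (∏ A ∈ F, Real.sqrt (d A * T) ^ 3) *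
          ENNReal.ofReal (c * Real.sqrt (2 * M * T) ^ k *
            ∏ A : F, Real.sqrt (C / d A.1) ^ 3) := by gcongr
      _ = ENNReal.ofReal (c * Real.sqrt (2 * M) ^ k * Real.sqrt C ^ (3 * F.card) / c₀) *
          ENNReal.ofReal (c₀ * Real.sqrt T ^ (3 * n)) := by
          rw [← ENNReal.ofReal_mul (Finset.prod_nonneg (fun i _ => by positivity)),
            ← ENNReal.ofReal_mul (by positivity)]
          congr 1
          rw [hprod (fun A => Real.sqrt (C / d A) ^ 3)]
          calc (∏ A ∈ F, Real.sqrt (d A * T) ^ 3) * (c * Real.sqrt (2 * M * T) ^ k *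
                ∏ A ∈ F, Real.sqrt (C / d A) ^ 3) =
              c * Real.sqrt (2 * M * T) ^ k * ((∏ A ∈ F, Real.sqrt (d A * T) ^ 3) *
                ∏ A ∈ F, Real.sqrt (C / d A) ^ 3) := by ring
            _ = c * (Real.sqrt (2 * M) ^ k * Real.sqrt T ^ k) *
                (Real.sqrt C ^ (3 * F.card) * Real.sqrt T ^ (3 * F.card)) := by
                rw [hprod1, Real.sqrt_mul (by positivity), mul_pow, mul_pow]
            _ = c * Real.sqrt (2 * M) ^ k * Real.sqrt C ^ (3 * F.card) *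
                (Real.sqrt T ^ (k + 3 * F.card)) := by rw [pow_add]; ring
            _ = _ := by
                rw [hk]
                field_simp
      _ ≤ _ := by
          gcongr
          exact H₀ T hT
  choose K hK0 hK using hF
  refine ⟨∑ F, K F + 1, by
    have := Finset.sum_nonneg (fun F (_ : F ∈ (Finset.univ : Finset
      (Finset (Finset (Fin (n + 1)))))) => hK0 F)
    linarith, ?_⟩
  intro q T hT F hI d hd
  refine (hK F hI q T hT d hd).trans ?_
  gcongr
  have := Finset.single_le_sum (f := K) (fun F _ => hK0 F) (Finset.mem_univ F)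
  linarith

/-- A set of bodies far from the other ones. -/
theorem exists_cut {N : ℕ} (q : Fin N → V3) (i₀ j₀ : Fin N) {D : ℝ} (hD : 0 < D)
    (hDq : ‖q j₀ - q i₀‖ = D) : ∃ A : Finset (Fin N), i₀ ∈ A ∧ j₀ ∉ A ∧
      ∀ i ∈ A, ∀ j ∉ A, D / (N + 1) ≤ ‖q i - q j‖ := by
  classical
  set g : ℝ := D / (N + 1) with hg
  have hgpos : 0 < g := by positivity
  have hgD : g * (N + 1) = D := by rw [hg]; field_simp
  set A : ℕ → Finset (Fin N) := fun k => Finset.univ.filter (fun i => ‖q i - q i₀‖ ≤ k * g)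
    with hA
  have hmem : ∀ k i, i ∈ A k ↔ ‖q i - q i₀‖ ≤ k * g := by
    intro k i
    rw [hA]
    simp
  have hex : ∃ k < N, A (k + 1) ⊆ A k := by
    by_contra hcon
    push Not at hcon
    have hcard : ∀ k, k ≤ N → k + 1 ≤ (A k).card := by
      intro k
      induction k with
      | zero =>
        intro _
        rw [zero_add, Nat.one_le_iff_ne_zero, Finset.card_ne_zero]
        exact ⟨i₀, by rw [hmem]; simp⟩
      | succ k ih =>
        intro hk
        have h1 := ih (by omega)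
        have h2 : A k ⊂ A (k + 1) := by
          refine ⟨?_, hcon k (by omega)⟩
          intro i hi
          rw [hmem] at hi ⊢
          push_cast
          nlinarith
        have h3 := Finset.card_lt_card h2
        omega
    have h1 := hcard N le_rfl
    have h2 := Finset.card_le_univ (A N)
    rw [Fintype.card_fin] at h2
    omega
  obtain ⟨k, hk, hsub⟩ := hex
  have hkN : (k : ℝ) + 1 ≤ N := by exact_mod_cast hk
  refine ⟨A k, by rw [hmem]; simp; positivity, ?_, ?_⟩
  · rw [hmem, not_le, hDq]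
    nlinarith
  · intro i hi j hj
    have h1 : j ∉ A (k + 1) := fun h => hj (hsub h)
    rw [hmem] at hi h1
    push_cast at h1
    rw [not_le] at h1
    have h2 : ‖q j - q i₀‖ ≤ ‖q i - q j‖ + ‖q i - q i₀‖ := by
      calc ‖q j - q i₀‖ = ‖(q i - q i₀) - (q i - q j)‖ := by congr 1; abel
        _ ≤ ‖q i - q i₀‖ + ‖q i - q j‖ := norm_sub_le _ _
        _ = _ := add_comm _ _
    linarith

/-- the size in terms of the distances to one body -/
theorem size_le_of_com {N : ℕ} {m : Fin N → ℝ} (hm : ∀ i, 0 < m i) (q : Fin N → V3)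
    (hcom : ∑ i, m i • q i = 0) (c : V3) {B : ℝ} (h1 : ∀ i, ‖q i - c‖ ≤ B) :
    ∑ i, m i * ‖q i‖ ^ 2 ≤ (∑ i, m i) * B ^ 2 := by
  have h2 : ∑ i, m i * ‖q i - c‖ ^ 2 = ∑ i, m i * ‖q i‖ ^ 2 + (∑ i, m i) * ‖c‖ ^ 2 := by
    have h3 : ∀ i, m i * ‖q i - c‖ ^ 2 = m i * ‖q i‖ ^ 2 - 2 * ⟪m i • q i, c⟫ +
        m i * ‖c‖ ^ 2 := by
      intro i
      rw [@norm_sub_sq_real, inner_smul_left]
      simp only [conj_trivial]
      ring
    rw [Finset.sum_congr rfl (fun i _ => h3 i), Finset.sum_add_distrib, Finset.sum_sub_distrib,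
      ← Finset.mul_sum, ← sum_inner, hcom, inner_zero_left, ← Finset.sum_mul]
    ring
  have h3 : 0 ≤ (∑ i, m i) * ‖c‖ ^ 2 :=
    mul_nonneg (Finset.sum_nonneg (fun i _ => (hm i).le)) (sq_nonneg _)
  calc ∑ i, m i * ‖q i‖ ^ 2 ≤ ∑ i, m i * ‖q i - c‖ ^ 2 := by linarith
    _ ≤ ∑ i, m i * B ^ 2 := by
        apply Finset.sum_le_sum
        intro i _
        exact mul_le_mul_of_nonneg_left (pow_le_pow_left₀ (norm_nonneg _) (h1 i) 2) (hm i).le
    _ = _ := by rw [← Finset.sum_mul]

/-- The fraction of the velocities of given kinetic energy which are momentum-bounded. -/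
theorem frac_size (n : ℕ) (m : Fin (n + 1) → ℝ) (hm : ∀ i, 0 < m i) (C : ℝ) (hC : 0 < C) :
    ∃ K : ℝ, 0 < K ∧ ∀ (q : Fin (n + 1) → V3) (T : ℝ), 0 < T → ∑ i, m i • q i = 0 →
      ENNReal.ofReal (Real.sqrt (Real.sqrt (∑ i, m i * ‖q i‖ ^ 2) * T) ^ 3) *
        volume {p : Fin n → V3 | kin m (momOf p) ≤ T ∧ MomBdd C (q, momOf p)} ≤
      ENNReal.ofReal K * volume {p : Fin n → V3 | kin m (momOf p) ≤ T} := by
  classical
  obtain ⟨K, hK, H⟩ := frac_family n m hm C hC
  set M : ℝ := ∑ i, m i with hM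
  have hMpos : 0 < M := Finset.sum_pos (fun i _ => hm i) ⟨0, Finset.mem_univ _⟩
  set a : ℝ := Real.sqrt M * ((n + 1 : ℕ) + 1) with ha
  have hapos : 0 < a := by positivity
  refine ⟨Real.sqrt a ^ 3 * K, by positivity, ?_⟩
  intro q T hT hcom
  obtain ⟨j₀, hj₀⟩ := Finite.exists_max (fun j => ‖q j - q 0‖)
  set D : ℝ := ‖q j₀ - q 0‖ with hD
  have hρ : Real.sqrt (∑ i, m i * ‖q i‖ ^ 2) ≤ Real.sqrt M * D := by
    rw [Real.sqrt_le_left (by positivity), mul_pow, Real.sq_sqrt hMpos.le]
    exact size_le_of_com hm q hcom (q 0) hj₀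
  rcases (norm_nonneg (q j₀ - q 0)).eq_or_lt with h0 | hDpos
  · rw [← hD] at h0
    rw [← h0, mul_zero] at hρ
    have h1 : Real.sqrt (∑ i, m i * ‖q i‖ ^ 2) = 0 := le_antisymm hρ (Real.sqrt_nonneg _)
    rw [h1, zero_mul, Real.sqrt_zero]
    simp
  · rw [← hD] at hDpos
    obtain ⟨A, hA1, hA2, hA3⟩ := exists_cut q 0 j₀ hDpos hD.symm
    set g : ℝ := D / (((n + 1 : ℕ) : ℝ) + 1) with hg
    have hgpos : 0 < g := by positivity
    have hI : Indep ({A} : Finset (Finset (Fin (n + 1)))) := by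
      intro c hc B hB
      rw [Finset.mem_singleton] at hB
      subst hB
      have := hc 0 j₀
      simp only [Finset.sum_singleton, if_pos hA1, if_neg hA2] at this
      exact this
    have hH := H q T hT {A} hI (fun _ => g) (by
      intro B hB
      rw [Finset.mem_singleton] at hB
      subst hB
      exact ⟨hgpos, hA3⟩)
    rw [Finset.prod_singleton] at hH
    have hle : Real.sqrt (Real.sqrt (∑ i, m i * ‖q i‖ ^ 2) * T) ^ 3 ≤
        Real.sqrt a ^ 3 * Real.sqrt (g * T) ^ 3 := by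
      rw [← mul_pow, ← Real.sqrt_mul hapos.le]
      apply pow_le_pow_left₀ (Real.sqrt_nonneg _)
      apply Real.sqrt_le_sqrt
      have h1 : a * (g * T) = Real.sqrt M * D * T := by
        rw [ha, hg]
        field_simp
      rw [h1]
      exact mul_le_mul_of_nonneg_right hρ hT.le
    calc ENNReal.ofReal (Real.sqrt (Real.sqrt (∑ i, m i * ‖q i‖ ^ 2) * T) ^ 3) *
        volume {p : Fin n → V3 | kin m (momOf p) ≤ T ∧ MomBdd C (q, momOf p)}
        ≤ ENNReal.ofReal (Real.sqrt a ^ 3 * Real.sqrt (g * T) ^ 3) *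
          volume {p : Fin n → V3 | kin m (momOf p) ≤ T ∧ MomBdd C (q, momOf p)} := by gcongr
      _ = ENNReal.ofReal (Real.sqrt a ^ 3) * (ENNReal.ofReal (Real.sqrt (g * T) ^ 3) *
          volume {p : Fin n → V3 | kin m (momOf p) ≤ T ∧ MomBdd C (q, momOf p)}) := by
          rw [ENNReal.ofReal_mul (by positivity), mul_assoc]
      _ ≤ ENNReal.ofReal (Real.sqrt a ^ 3) * (ENNReal.ofReal K *
          volume {p : Fin n → V3 | kin m (momOf p) ≤ T}) := mul_le_mul' le_rfl hH
      _ = _ := by rw [ENNReal.ofReal_mul (by positivity), mul_assoc]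

/-- rescaling to kinetic energy `T` -/
theorem MomBdd.of_scaled {N : ℕ} {C : ℝ} {q p : Fin N → V3} {l : ℝ} (hl : 1 ≤ l)
    (h : MomBdd C (q, l • p)) : MomBdd C (q, p) := by
  refine ⟨h.nc, ?_⟩
  intro A d hd hA
  have h1 := h.mom A d hd hA
  change ‖∑ i ∈ A, l • p i‖ ^ 2 * d ≤ C at h1
  change ‖∑ i ∈ A, p i‖ ^ 2 * d ≤ C
  rw [← Finset.smul_sum, norm_smul, mul_pow, Real.norm_eq_abs, sq_abs] at h1
  have h2 : 0 ≤ ‖∑ i ∈ A, p i‖ ^ 2 * d := by positivity
  have h3 : 1 ≤ l ^ 2 := by nlinarith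
  nlinarith

end Pool.Agent.NBody
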