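import Mathlib
import Pool.Agent.NBody.Orbit

/-!
The virial theorem along nonwandering orbits of the N-body problem.
-/

set_option autoImplicit false
open scoped RealInnerProductSpace
open Set Finset Filter Topology

namespace Pool.Agent.NBody

/-- Euler's identity for the potential. -/
theorem sum_inner_force {N : ℕ} (m : Fin N → ℝ) (q : Fin N → V3) :
    ∑ i, ⟪q i, force m q i⟫ = -(∑ i, ∑ j, m i * m j / ‖q i - q j‖ / 2) := by
  have h1 : ∑ i, ⟪q i, force m q i⟫ =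
      ∑ i, ∑ j, m i * m j / ‖q i - q j‖ ^ 3 * ⟪q i, q j - q i⟫ := by
    apply Finset.sum_congr rfl
    intro i _
    rw [force, inner_sum]
    apply Finset.sum_congr rfl
    intro j _
    rw [inner_smul_right, norm_sub_rev]
  have h2 : ∑ i, ∑ j, m i * m j / ‖q i - q j‖ ^ 3 * ⟪q i, q j - q i⟫ =
      ∑ i, ∑ j, m i * m j / ‖q i - q j‖ ^ 3 * ⟪q j, q i - q j⟫ := by
    rw [Finset.sum_comm]
    apply Finset.sum_congr rfl
    intro i _
    apply Finset.sum_congr rfl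
    intro j _
    rw [norm_sub_rev, mul_comm (m j)]
  have h3 : ∑ i, ∑ j, m i * m j / ‖q i - q j‖ ^ 3 * ⟪q i, q j - q i⟫ +
      ∑ i, ∑ j, m i * m j / ‖q i - q j‖ ^ 3 * ⟪q j, q i - q j⟫ =
      -(2 * ∑ i, ∑ j, m i * m j / ‖q i - q j‖ / 2) := by
    rw [← Finset.sum_add_distrib, Finset.mul_sum, ← Finset.sum_neg_distrib]
    apply Finset.sum_congr rfl
    intro i _
    rw [← Finset.sum_add_distrib, Finset.mul_sum, ← Finset.sum_neg_distrib]
    apply Finset.sum_congr rfl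
    intro j _
    rw [← mul_add]
    have h4 : ⟪q i, q j - q i⟫ + ⟪q j, q i - q j⟫ = -‖q i - q j‖ ^ 2 := by
      rw [← real_inner_self_eq_norm_sq]
      simp only [inner_sub_left, inner_sub_right]
      ring
    rw [h4]
    rcases eq_or_ne (‖q i - q j‖) 0 with h0 | h0
    · rw [h0]
      simp
    · field_simp
  rw [h1]
  linarith

/-- The virial theorem along nonwandering orbits. -/
theorem virial_of_nonwandering (N : ℕ) (m : Fin N → ℝ) (hm : ∀ i, 0 < m i) :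
    ∃ C : ℝ, 0 < C ∧ ∀ (E : ℝ) (S : Set (Ph N)) (ψ : Ph N → ℝ) (φ : ℝ → Ph N → Ph N),
      Setting m S ψ φ →
      (∀ x ∈ S, ∑ i, ‖x.2 i‖ ^ 2 / (2 * m i) -
        ∑ i, ∑ j, m i * m j / ‖x.1 i - x.1 j‖ / 2 = E) →
      ∀ x ∈ S, ¬ Wandering S φ x → ∀ t : ℝ,
        |∫ r in (0:ℝ)..t, (∑ i, ‖(φ r x).2 i‖ ^ 2 / (2 * m i) + E) * ψ (φ r x)| ≤
          C * ((∑ i, m i * ‖x.1 i‖ ^ 2) ^ (1 / 4 : ℝ) +
            |∫ r in (0:ℝ)..t, ψ (φ r x)| ^ (1 / 3 : ℝ)) := by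
  obtain ⟨C₁, hC₁, H₁⟩ := tensor_of_nonwandering N m hm
  obtain ⟨C₂, hC₂, H₂⟩ := growth_of_nonwandering N m hm
  refine ⟨3 * Real.sqrt C₁ * (2 + C₂ ^ (1 / 3 : ℝ)), by positivity, ?_⟩
  intro E S ψ φ hset hE x hx hnw t
  have htraj : IsTraj m (fun s => ψ (φ s x)) (fun s => φ s x) :=
    isTraj_of_flow hset.sub hset.smooth.continuousOn hset.pos hset.flow hx
  set I : ℝ → ℝ := fun s => ∑ i, m i * ‖(φ s x).1 i‖ ^ 2 with hI
  have hI0 : ∀ s, 0 ≤ I s := fun s => Finset.sum_nonneg (fun i _ => by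
    have := hm i
    positivity)
  have hI00 : I 0 = ∑ i, m i * ‖x.1 i‖ ^ 2 := by
    rw [hI]
    simp only [(hset.flow x hx).1]
  have hIt : I t = ∑ i, m i * ‖(φ t x).1 i‖ ^ 2 := rfl
  set G : ℝ → ℝ := fun s => ∑ i, ⟪(φ s x).1 i, (φ s x).2 i⟫ with hG
  -- the derivative of the virial
  have hGder : ∀ s, HasDerivAt G
      ((∑ i, ‖(φ s x).2 i‖ ^ 2 / (2 * m i) + E) * ψ (φ s x)) s := by
    intro s
    have h1 : ∀ i ∈ (Finset.univ : Finset (Fin N)),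
        HasDerivAt (fun s => ⟪(φ s x).1 i, (φ s x).2 i⟫)
          (⟪(φ s x).1 i, ψ (φ s x) • force m (φ s x).1 i⟫ +
            ⟪ψ (φ s x) • (m i)⁻¹ • (φ s x).2 i, (φ s x).2 i⟫) s := by
      intro i _
      exact (htraj.der_q i s).inner ℝ (htraj.der_p i s)
    have h2 := HasDerivAt.fun_sum h1
    have h3 : ∑ i, (⟪(φ s x).1 i, ψ (φ s x) • force m (φ s x).1 i⟫ +
            ⟪ψ (φ s x) • (m i)⁻¹ • (φ s x).2 i, (φ s x).2 i⟫) =
        (∑ i, ‖(φ s x).2 i‖ ^ 2 / (2 * m i) + E) * ψ (φ s x) := by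
      have hEs := hE (φ s x) (hset.isFlowOn.mem x hx s)
      have h4 : ∑ i, ⟪(φ s x).1 i, ψ (φ s x) • force m (φ s x).1 i⟫ =
          ψ (φ s x) * -(∑ i, ∑ j, m i * m j / ‖(φ s x).1 i - (φ s x).1 j‖ / 2) := by
        rw [← sum_inner_force, Finset.mul_sum]
        apply Finset.sum_congr rfl
        intro i _
        rw [inner_smul_right]
      have h5 : ∑ i, ⟪ψ (φ s x) • (m i)⁻¹ • (φ s x).2 i, (φ s x).2 i⟫ =
          ψ (φ s x) * (2 * ∑ i, ‖(φ s x).2 i‖ ^ 2 / (2 * m i)) := by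
        rw [Finset.mul_sum, Finset.mul_sum]
        apply Finset.sum_congr rfl
        intro i _
        rw [real_inner_smul_left, real_inner_smul_left, real_inner_self_eq_norm_sq]
        have := (hm i).ne'
        field_simp
      rw [Finset.sum_add_distrib, h4, h5]
      linear_combination ψ (φ s x) * hEs
    rw [h3] at h2
    exact h2
  have hcont : Continuous (fun s => (∑ i, ‖(φ s x).2 i‖ ^ 2 / (2 * m i) + E) * ψ (φ s x)) := by
    have hc : ∀ i, Continuous (fun s => (φ s x).2 i) := fun i =>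
      continuous_iff_continuousAt.mpr (fun s => (htraj.der_p i s).continuousAt)
    refine Continuous.mul ?_ htraj.cont
    refine Continuous.add ?_ continuous_const
    exact continuous_finsetSum _ (fun i _ => ((hc i).norm.pow 2).div_const _)
  have hFTC : ∫ r in (0:ℝ)..t, (∑ i, ‖(φ r x).2 i‖ ^ 2 / (2 * m i) + E) * ψ (φ r x) =
      G t - G 0 :=
    intervalIntegral.integral_eq_sub_of_hasDerivAt (fun s _ => hGder s)
      (hcont.intervalIntegrable _ _)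
  -- the virial is small
  have hGb : ∀ s, |G s| ≤ 3 * (Real.sqrt C₁ * I s ^ (1 / 4 : ℝ)) := by
    intro s
    have h1 : ∀ a : Fin 3, |∑ i, (φ s x).1 i a * (φ s x).2 i a| ≤
        Real.sqrt C₁ * I s ^ (1 / 4 : ℝ) := by
      intro a
      have h2 := H₁ S ψ φ hset x hx hnw s a a
      have h3 := Real.abs_le_sqrt h2
      refine h3.trans (le_of_eq ?_)
      rw [Real.sqrt_mul hC₁.le]
      congr 1
      show Real.sqrt (Real.sqrt (I s)) = _
      rw [Real.sqrt_eq_rpow, Real.sqrt_eq_rpow, ← Real.rpow_mul (hI0 s)]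
      norm_num
    have h4 : G s = ∑ a : Fin 3, ∑ i, (φ s x).1 i a * (φ s x).2 i a := by
      rw [Finset.sum_comm, hG]
      apply Finset.sum_congr rfl
      intro i _
      rw [PiLp.inner_apply]
      apply Finset.sum_congr rfl
      intro a _
      simp [mul_comm]
    rw [h4]
    refine (Finset.abs_sum_le_sum_abs _ _).trans ?_
    refine (Finset.sum_le_sum (fun a _ => h1 a)).trans ?_
    simp
  -- the size at time t
  set τ : ℝ := |∫ r in (0:ℝ)..t, ψ (φ r x)| with hτ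
  have hτ0 : 0 ≤ τ := abs_nonneg _
  have hgrow := H₂ S ψ φ hset x hx hnw t
  rw [← hIt, ← hI00] at hgrow
  have h34 : I t ^ (3 / 4 : ℝ) ≤ I 0 ^ (3 / 4 : ℝ) + C₂ * τ := by
    have := (abs_le.mp hgrow).2
    linarith
  have h14 : I t ^ (1 / 4 : ℝ) ≤ I 0 ^ (1 / 4 : ℝ) + C₂ ^ (1 / 3 : ℝ) * τ ^ (1 / 3 : ℝ) := by
    have e1 : I t ^ (1 / 4 : ℝ) = (I t ^ (3 / 4 : ℝ)) ^ (1 / 3 : ℝ) := by
      rw [← Real.rpow_mul (hI0 t)]
      norm_num
    have e2 : I 0 ^ (1 / 4 : ℝ) = (I 0 ^ (3 / 4 : ℝ)) ^ (1 / 3 : ℝ) := by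
      rw [← Real.rpow_mul (hI0 0)]
      norm_num
    rw [e1, e2, ← Real.mul_rpow hC₂.le hτ0]
    refine (Real.rpow_le_rpow (Real.rpow_nonneg (hI0 t) _) h34 (by norm_num)).trans ?_
    exact Real.rpow_add_le_add_rpow (Real.rpow_nonneg (hI0 0) _) (by positivity) (by norm_num)
      (by norm_num)
  rw [hFTC, ← hI00]
  have h5 : |G t - G 0| ≤ |G t| + |G 0| := by
    have := abs_sub (G t) (G 0)
    exact this
  have hs : 0 ≤ Real.sqrt C₁ := Real.sqrt_nonneg _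
  have hI14 : 0 ≤ I 0 ^ (1 / 4 : ℝ) := Real.rpow_nonneg (hI0 0) _
  have hτ3 : 0 ≤ τ ^ (1 / 3 : ℝ) := Real.rpow_nonneg hτ0 _
  have hC3 : 0 ≤ C₂ ^ (1 / 3 : ℝ) := Real.rpow_nonneg hC₂.le _
  calc |G t - G 0| ≤ |G t| + |G 0| := h5
    _ ≤ 3 * (Real.sqrt C₁ * I t ^ (1 / 4 : ℝ)) + 3 * (Real.sqrt C₁ * I 0 ^ (1 / 4 : ℝ)) :=
        add_le_add (hGb t) (hGb 0)
    _ ≤ 3 * (Real.sqrt C₁ * (I 0 ^ (1 / 4 : ℝ) + C₂ ^ (1 / 3 : ℝ) * τ ^ (1 / 3 : ℝ))) +
        3 * (Real.sqrt C₁ * I 0 ^ (1 / 4 : ℝ)) := by gcongr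
    _ = 3 * Real.sqrt C₁ * (2 * I 0 ^ (1 / 4 : ℝ) + C₂ ^ (1 / 3 : ℝ) * τ ^ (1 / 3 : ℝ)) := by
        ring
    _ ≤ 3 * Real.sqrt C₁ * ((2 + C₂ ^ (1 / 3 : ℝ)) *
          (I 0 ^ (1 / 4 : ℝ) + τ ^ (1 / 3 : ℝ))) := by
        apply mul_le_mul_of_nonneg_left _ (by positivity)
        nlinarith [mul_nonneg hC3 hI14]
    _ = 3 * Real.sqrt C₁ * (2 + C₂ ^ (1 / 3 : ℝ)) *
          (I 0 ^ (1 / 4 : ℝ) + τ ^ (1 / 3 : ℝ)) := by ring

end Pool.Agent.NBody
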