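import Mathlib
import Pool.Agent.NBody.Vol6

/-!
Volume of energy bands near collisions: lower bound. For fixed positions the momenta fill a shell
of the kinetic energy.
-/

set_option autoImplicit false
set_option synthInstance.maxSize 4000
open scoped RealInnerProductSpace ENNReal Pointwise
open Set Finset Filter Topology MeasureTheory

namespace Pool.Agent.NBody

/-- kinetic energy as a function of the momenta of the first bodies -/
noncomputable def kinR {n : ℕ} (m : Fin (n + 1) → ℝ) (p : Fin n → V3) : ℝ :=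
  kin m (Fin.snoc (α := fun _ => V3) p (-∑ i, p i))

/-- force function as a function of the positions relative to the last body -/
noncomputable def potR {n : ℕ} (m : Fin (n + 1) → ℝ) (x : Fin n → V3) : ℝ :=
  pot m (Fin.snoc (α := fun _ => V3) x 0)

theorem kinR_eq {n : ℕ} (m : Fin (n + 1) → ℝ) (z : Rel n) : kin m (state m z).2 = kinR m z.2 :=
  rfl

theorem kinR_formula {n : ℕ} (m : Fin (n + 1) → ℝ) (p : Fin n → V3) :
    kinR m p = ∑ i, ‖p i‖ ^ 2 / (2 * m (Fin.castSucc i)) +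
      ‖∑ i, p i‖ ^ 2 / (2 * m (Fin.last n)) := by
  unfold kinR kin
  rw [Fin.sum_univ_castSucc]
  simp only [Fin.snoc_castSucc, Fin.snoc_last, norm_neg]

theorem snoc_rel {n : ℕ} {m : Fin (n + 1) → ℝ} (hm : ∀ i, 0 < m i) (z : Rel n)
    (i : Fin (n + 1)) : (Fin.snoc (α := fun _ => V3) (relEquiv m hm z).1 0 : Fin (n + 1) → V3) i =
      (state m z).1 i - (state m z).1 (Fin.last n) := by
  refine Fin.lastCases ?_ ?_ i
  · rw [Fin.snoc_last, sub_self]
  · intro j
    rw [Fin.snoc_castSucc, relEquiv_fst]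

theorem potR_eq {n : ℕ} {m : Fin (n + 1) → ℝ} (hm : ∀ i, 0 < m i) (z : Rel n) :
    pot m (state m z).1 = potR m (relEquiv m hm z).1 := by
  unfold potR pot
  apply Finset.sum_congr rfl
  intro i _
  apply Finset.sum_congr rfl
  intro j _
  rw [snoc_rel hm, snoc_rel hm, sub_sub_sub_cancel_right]

theorem continuous_kinR {n : ℕ} (m : Fin (n + 1) → ℝ) : Continuous (kinR m) := by
  have h : kinR m = fun p => ∑ i, ‖p i‖ ^ 2 / (2 * m (Fin.castSucc i)) +
      ‖∑ i, p i‖ ^ 2 / (2 * m (Fin.last n)) := funext (kinR_formula m)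
  rw [h]
  apply Continuous.add
  · apply continuous_finsetSum
    intro i _
    exact (((continuous_apply i).norm).pow 2).div_const _
  · apply Continuous.div_const
    apply Continuous.pow
    apply Continuous.norm
    apply continuous_finsetSum
    intro i _
    exact continuous_apply i

theorem kinR_smul {n : ℕ} (m : Fin (n + 1) → ℝ) (c : ℝ) (p : Fin n → V3) :
    kinR m (c • p) = c ^ 2 * kinR m p := by
  rw [kinR_formula, kinR_formula]
  simp only [Pi.smul_apply, ← Finset.smul_sum, norm_smul, mul_pow, Real.norm_eq_abs, sq_abs]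
  rw [mul_add, Finset.mul_sum]
  congr 1
  · apply Finset.sum_congr rfl
    intro i _
    ring
  · ring

theorem kinR_nonneg {n : ℕ} {m : Fin (n + 1) → ℝ} (hm : ∀ i, 0 < m i) (p : Fin n → V3) :
    0 ≤ kinR m p := by
  rw [kinR_formula]
  have h1 := hm (Fin.last n)
  apply add_nonneg
  · apply Finset.sum_nonneg
    intro i _
    have := hm (Fin.castSucc i)
    positivity
  · positivity

theorem measurable_potR {n : ℕ} (m : Fin (n + 1) → ℝ) : Measurable (potR m) := by
  unfold potR pot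
  have hc : ∀ i : Fin (n + 1), Measurable
      (fun x : Fin n → V3 => (Fin.snoc (α := fun _ => V3) x 0 : Fin (n + 1) → V3) i) := by
    intro i
    refine Fin.lastCases ?_ ?_ i
    · simp only [Fin.snoc_last]
      exact measurable_const
    · intro j
      simp only [Fin.snoc_castSucc]
      exact measurable_pi_apply j
  apply Finset.measurable_sum
  intro i _
  apply Finset.measurable_sum
  intro j _
  exact (measurable_const.div ((hc i).sub (hc j)).norm).div_const 2

theorem volume_shell (n : ℕ) (m : Fin (n + 2) → ℝ) (hm : ∀ i, 0 < m i) :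
    ∃ v : ℝ, 0 < v ∧ ∀ a b : ℝ, 0 < a → a ≤ b →
      ENNReal.ofReal (v * ((b - a) * √a ^ (3 * n + 1))) ≤
        volume {p : Fin (n + 1) → V3 | a ≤ kinR m p ∧ kinR m p ≤ b} := by
  have hH : (volume : Measure (Fin (n + 1) → V3)).IsAddHaarMeasure := inferInstance
  have hrank : Module.finrank ℝ (Fin (n + 1) → V3) = 3 * n + 3 := by
    rw [Module.finrank_pi_fintype]
    simp [V3]
    ring
  set B : Set (Fin (n + 1) → V3) := {p | kinR m p ≤ 1} with hB
  set M : ℝ := ∑ i, m i with hM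
  have hM0 : 0 ≤ M := Finset.sum_nonneg (fun i _ => (hm i).le)
  have hBbdd : Bornology.IsBounded B := by
    apply (Metric.isBounded_closedBall (x := (0 : Fin (n + 1) → V3)) (r := √(2 * M))).subset
    intro p hp
    rw [mem_closedBall_zero_iff, pi_norm_le_iff_of_nonneg (Real.sqrt_nonneg _)]
    intro i
    apply Real.le_sqrt_of_sq_le
    rw [hB, mem_setOf_eq, kinR_formula] at hp
    have h1 : ‖p i‖ ^ 2 / (2 * m (Fin.castSucc i)) ≤
        ∑ i, ‖p i‖ ^ 2 / (2 * m (Fin.castSucc i)) :=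
      Finset.single_le_sum (f := fun i => ‖p i‖ ^ 2 / (2 * m (Fin.castSucc i)))
        (fun j _ => by
          have := hm (Fin.castSucc j)
          positivity) (Finset.mem_univ i)
    have h2 : 0 ≤ ‖∑ i, p i‖ ^ 2 / (2 * m (Fin.last (n + 1))) := by
      have := hm (Fin.last (n + 1))
      positivity
    have h3 : ‖p i‖ ^ 2 / (2 * m (Fin.castSucc i)) ≤ 1 := by linarith
    have h4 := hm (Fin.castSucc i)
    rw [div_le_one (by positivity)] at h3
    have h5 : m (Fin.castSucc i) ≤ M :=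
      Finset.single_le_sum (fun j _ => (hm j).le) (Finset.mem_univ _)
    linarith
  have hBfin : volume B ≠ ⊤ := hBbdd.measure_lt_top.ne
  have hBpos : 0 < volume B := by
    have ho : IsOpen {p : Fin (n + 1) → V3 | kinR m p < 1} :=
      isOpen_lt (continuous_kinR m) continuous_const
    have hne : {p : Fin (n + 1) → V3 | kinR m p < 1}.Nonempty := by
      refine ⟨0, ?_⟩
      rw [mem_setOf_eq, kinR_formula]
      simp
    exact (ho.measure_pos volume hne).trans_le (measure_mono (fun p hp =>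
      (show kinR m p ≤ 1 from le_of_lt (show kinR m p < 1 from hp))))
  have hscale : ∀ t : ℝ, 0 < t → volume {p : Fin (n + 1) → V3 | kinR m p ≤ t} =
      ENNReal.ofReal (√t ^ (3 * n + 3)) * volume B := by
    intro t ht
    have hst : 0 < √t := Real.sqrt_pos.mpr ht
    have h1 : {p : Fin (n + 1) → V3 | kinR m p ≤ t} = √t • B := by
      ext p
      rw [Set.mem_smul_set_iff_inv_smul_mem₀ hst.ne', hB, mem_setOf_eq, mem_setOf_eq, kinR_smul,
        inv_pow, Real.sq_sqrt ht.le, inv_mul_le_iff₀ ht, mul_one]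
    rw [h1, Measure.addHaar_smul, hrank, abs_of_pos (by positivity)]
  refine ⟨(volume B).toReal, ENNReal.toReal_pos hBpos.ne' hBfin, ?_⟩
  intro a b ha hab
  have hb : 0 < b := ha.trans_le hab
  have h1 : volume {p : Fin (n + 1) → V3 | kinR m p ≤ b} ≤
      volume {p : Fin (n + 1) → V3 | kinR m p ≤ a} +
        volume {p : Fin (n + 1) → V3 | a ≤ kinR m p ∧ kinR m p ≤ b} := by
    refine (measure_mono ?_).trans (measure_union_le _ _)
    intro p hp
    rcases le_total (kinR m p) a with h | h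
    · exact Or.inl h
    · exact Or.inr ⟨h, hp⟩
  rw [hscale b hb, hscale a ha] at h1
  have h2 : (b - a) * √a ^ (3 * n + 1) ≤ √b ^ (3 * n + 3) - √a ^ (3 * n + 3) := by
    have hsa : 0 ≤ √a := Real.sqrt_nonneg _
    have hsab : √a ≤ √b := Real.sqrt_le_sqrt hab
    have e1 : √b ^ (3 * n + 3) = b * √b ^ (3 * n + 1) := by
      rw [show 3 * n + 3 = 2 + (3 * n + 1) by ring, pow_add, Real.sq_sqrt hb.le]
    have e2 : √a ^ (3 * n + 3) = a * √a ^ (3 * n + 1) := by
      rw [show 3 * n + 3 = 2 + (3 * n + 1) by ring, pow_add, Real.sq_sqrt ha.le]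
    have e3 : √a ^ (3 * n + 1) ≤ √b ^ (3 * n + 1) := pow_le_pow_left₀ hsa hsab _
    rw [e1, e2]
    nlinarith [mul_le_mul_of_nonneg_left e3 hb.le]
  have h3 : ENNReal.ofReal ((volume B).toReal * ((b - a) * √a ^ (3 * n + 1))) ≤
      ENNReal.ofReal (√b ^ (3 * n + 3) - √a ^ (3 * n + 3)) * volume B := by
    rw [ENNReal.ofReal_mul ENNReal.toReal_nonneg, ENNReal.ofReal_toReal hBfin, mul_comm]
    gcongr
  refine h3.trans ?_
  rw [ENNReal.ofReal_sub _ (by positivity), ENNReal.sub_mul (fun _ _ => hBfin)]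
  exact tsub_le_iff_left.mpr h1

/-- The positions in a product of balls: one close pair, the other bodies far apart. -/
theorem box_facts {n : ℕ} {m : Fin (n + 2) → ℝ} (hm : ∀ i, 0 < m i) {l D : ℝ} (hl : 0 < l)
    (hD : 0 < D) (hDl : D ≤ l)
    (hML : (∑ i, m i) ^ 2 / (2 * l) ≤ m (Fin.castSucc 0) * m (Fin.last (n + 1)) / D / 4)
    (z : Rel (n + 1)) {e : V3} (he : ‖e‖ = 1)
    (h0 : ‖(relEquiv m hm z).1 0 - (2 / 3 * D) • e‖ ≤ D / 15)
    (h1 : ∀ k : Fin n, ‖(relEquiv m hm z).1 k.succ - (6 * l * ((k : ℕ) + 1)) • e‖ ≤ l) :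
    (∀ i j, i ≠ j → (state m z).1 i ≠ (state m z).1 j) ∧
    m (Fin.castSucc 0) * m (Fin.last (n + 1)) / D ≤ pot m (state m z).1 ∧
    pot m (state m z).1 ≤ 2 * (m (Fin.castSucc 0) * m (Fin.last (n + 1)) / D) ∧
    ∑ i, m i * ‖(state m z).1 i‖ ^ 2 ≤ (∑ i, m i) * ((6 * n + 7) * l) ^ 2 ∧
    ‖(state m z).1 (Fin.castSucc 0) - (state m z).1 (Fin.last (n + 1))‖ ≤ D := by
  obtain ⟨i₀, hi₀⟩ := Finite.exists_min m
  have hApos : 0 < m (Fin.castSucc 0) * m (Fin.last (n + 1)) := mul_pos (hm _) (hm _)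
  -- the same positions with momenta zero
  have hz' : (relEquiv m hm (z.1, 0)).1 = (relEquiv m hm z).1 := rfl
  have hzs : (state m (z.1, (0 : Fin (n + 1) → V3))).1 = (state m z).1 := rfl
  have hsnd : ∀ k, (relEquiv m hm (z.1, (0 : Fin (n + 1) → V3))).2 k = 0 := fun k => rfl
  obtain ⟨b1, b2, b3, b4⟩ := band_of_balls hm (hm i₀) hi₀
    (ε := m (Fin.castSucc 0) * m (Fin.last (n + 1)) / D) (l := l) (D := D) (by positivity) hl
    (by rw [div_div_cancel₀ hApos.ne']) hDl hML (η := 0) le_rfl (by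
      simp only [mul_zero, ne_eq, OfNat.ofNat_ne_zero, not_false_eq_true, zero_pow, zero_div]
      positivity) (z.1, 0) he (by rw [hz']; exact h0) (fun k => by rw [hz']; exact h1 k)
    (fun k => by rw [hsnd, norm_zero])
  rw [hzs] at b1 b2 b3 b4
  have hk : kin m (state m (z.1, (0 : Fin (n + 1) → V3))).2 = 0 := by
    rw [kinR_eq, kinR_formula]
    simp
  rw [hk] at b2 b3
  refine ⟨b1, by linarith, by linarith, b4, ?_⟩
  rw [← relEquiv_fst hm z 0]
  have h3 : ‖(2 / 3 * D) • e‖ = 2 / 3 * D := by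
    rw [norm_smul, he, mul_one, Real.norm_of_nonneg (by positivity)]
  have h5 : ‖(relEquiv m hm z).1 0‖ ≤ ‖(2 / 3 * D) • e‖ +
      ‖(relEquiv m hm z).1 0 - (2 / 3 * D) • e‖ := by
    calc ‖(relEquiv m hm z).1 0‖ =
        ‖(2 / 3 * D) • e + ((relEquiv m hm z).1 0 - (2 / 3 * D) • e)‖ := by congr 1; abel
      _ ≤ _ := norm_add_le _ _
  rw [h3] at h5
  linarith

theorem alg_close (n : ℕ) {a : ℝ} (ha : 0 < a) (b w c ρ v ε s : ℝ) :
    w * (c * a ^ 2 / 15) ^ 3 * (w * (ρ * b ^ 2) ^ 3) ^ n * (v * (ε * (s / a) ^ (3 * n + 1))) =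
      w * (c / 15) ^ 3 * (w * ρ ^ 3) ^ n * (v * s ^ (3 * n + 1)) *
        (ε * a ^ 5 * (b / a) ^ (3 * n) * b ^ (3 * n)) := by
  have e1 : (w * (ρ * b ^ 2) ^ 3) ^ n = (w * ρ ^ 3) ^ n * (b ^ (3 * n) * b ^ (3 * n)) := by
    rw [← pow_add, show 3 * n + 3 * n = 6 * n by ring, pow_mul, ← mul_pow]
    congr 1
    ring
  rw [e1, div_pow s a, div_pow b a, pow_succ a (3 * n)]
  have ha' : a ^ (3 * n) ≠ 0 := (pow_pos ha _).ne'
  field_simp

/-- Lower bound for the volume of a band near the collisions. -/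
theorem volume_band_close_lower (n : ℕ) (m : Fin (n + 2) → ℝ) (hm : ∀ i, 0 < m i) :
    ∃ K : ℝ, 0 < K ∧ ∀ ε R r s : ℝ, 0 < ε → 0 < r → r ≤ 1 / ε → r ≤ R → K * s ≤ r →
      ENNReal.ofReal (ε * √r ^ 5 * √(R / r) ^ (3 * n) * √R ^ (3 * n)) ≤ ENNReal.ofReal K *
        volume {z : Rel (n + 1) | z ∈ band m ε R ∧
          (∀ i j, i ≠ j → s ≤ ‖(state m z).1 i - (state m z).1 j‖) ∧ ∃ i j, i ≠ j ∧
          ‖(state m z).1 i - (state m z).1 j‖ ≤ r} := by
  set M : ℝ := ∑ i, m i with hM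
  have hMpos : 0 < M := Finset.sum_pos (fun i _ => hm i) ⟨0, Finset.mem_univ _⟩
  have h0 : ∀ k : ℕ, (volume : Measure (Fin k → V3)).IsAddHaarMeasure := fun k => inferInstance
  have h5 : ∀ k : ℕ, (volume : Measure (Rel k)).IsAddHaarMeasure := fun k =>
    have := h0 k
    Measure.prod.instIsAddHaarMeasure _ _
  have h6 := h5 (n + 1)
  have h6' := h0 (n + 1)
  obtain ⟨c₁, hc₁, hcS⟩ := exists_scale (volume : Measure (Rel (n + 1))) volume
    (relEquiv m hm).symm
  obtain ⟨v, hv, hshell⟩ := volume_shell n m hm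
  set A : ℝ := m (Fin.castSucc 0) * m (Fin.last (n + 1)) with hA
  have hApos : 0 < A := mul_pos (hm _) (hm _)
  -- scales
  set ρ : ℝ := 1 / ((6 * n + 7) * (1 + M)) with hρ
  have hρpos : 0 < ρ := by positivity
  obtain ⟨c₀, hc₀, hc₀1, hc₀ρ, hc₀A, hc₀M⟩ : ∃ c₀ : ℝ, 0 < c₀ ∧ c₀ ≤ 1 ∧ c₀ ≤ ρ ∧ c₀ ≤ A / 4 ∧
      c₀ ≤ A * ρ / (2 * M ^ 2) := by
    refine ⟨min (min 1 ρ) (min (A / 4) (A * ρ / (2 * M ^ 2))), by positivity, ?_, ?_, ?_, ?_⟩
    · exact (min_le_left _ _).trans (min_le_left _ _)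
    · exact (min_le_left _ _).trans (min_le_right _ _)
    · exact (min_le_right _ _).trans (min_le_left _ _)
    · exact (min_le_right _ _).trans (min_le_right _ _)
  set ω : ℝ≥0∞ := volume (Metric.ball (0 : V3) 1) with hω
  have hωtop : ω ≠ ⊤ := Metric.isBounded_ball.measure_lt_top.ne
  have hωpos : 0 < ω := Metric.measure_ball_pos volume _ one_pos
  set w : ℝ := ω.toReal with hw
  have hwpos : 0 < w := ENNReal.toReal_pos hωpos.ne' hωtop
  have hfin : Module.finrank ℝ V3 = 3 := by simp [V3]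
  have hball : ∀ (a : V3) (s : ℝ), 0 ≤ s →
      volume (Metric.closedBall a s) = ENNReal.ofReal (w * s ^ 3) := by
    intro a s hs
    rw [Measure.addHaar_closedBall _ _ hs, hfin, ← hω, mul_comm, ENNReal.ofReal_mul hwpos.le, hw,
      ENNReal.ofReal_toReal hωtop]
  set c₂ : ℝ := w * (c₀ / 15) ^ 3 * (w * ρ ^ 3) ^ n * (v * √(A / (2 * c₀)) ^ (3 * n + 1))
    with hc₂
  have hc₂pos : 0 < c₂ := by positivity
  obtain ⟨i₀, hi₀⟩ := Finite.exists_min m
  set μ : ℝ := m i₀ with hμ
  have hμpos : 0 < μ := hm i₀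
  refine ⟨(c₁ + 1) / c₂ + 2 * A / (c₀ * μ ^ 2), by positivity, ?_⟩
  intro ε R r s hε hr hrε hrR hs
  have hs' : 2 * A / (c₀ * μ ^ 2) * s ≤ r := by
    rcases le_or_gt s 0 with h | h
    · have : 0 < 2 * A / (c₀ * μ ^ 2) := by positivity
      nlinarith
    · have : 0 < (c₁ + 1) / c₂ := by positivity
      nlinarith [mul_pos this h]
  have hR : 0 < R := hr.trans_le hrR
  set l : ℝ := ρ * R with hl
  have hlpos : 0 < l := by positivity
  set D : ℝ := c₀ * r with hD
  have hDpos : 0 < D := by positivity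
  have hDr : D ≤ r := by
    rw [hD]
    exact mul_le_of_le_one_left hr.le hc₀1
  have hDl : D ≤ l := by
    rw [hD, hl]
    exact mul_le_mul hc₀ρ hrR hr.le hρpos.le
  have hML : M ^ 2 / (2 * l) ≤ A / D / 4 := by
    rw [div_div, div_le_div_iff₀ (by positivity) (by positivity), hD, hl]
    have h1 : c₀ * (2 * M ^ 2) ≤ A * ρ := by
      rwa [le_div_iff₀ (by positivity)] at hc₀M
    have h2 : c₀ * (2 * M ^ 2) * r ≤ A * ρ * R := mul_le_mul h1 hrR hr.le (by positivity)
    nlinarith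
  have hεD : 4 * ε ≤ A / D := by
    rw [le_div_iff₀ hDpos, hD]
    rw [le_div_iff₀ hε] at hrε
    have h1 : c₀ * (r * ε) ≤ A / 4 * 1 := mul_le_mul hc₀A hrε (by positivity) (by positivity)
    linarith
  obtain ⟨e, he⟩ : ∃ e : V3, ‖e‖ = 1 := ⟨EuclideanSpace.single 0 1, by simp⟩
  set s1 : Fin (n + 1) → Set V3 := Fin.cases (Metric.closedBall ((2 / 3 * D) • e) (D / 15))
    (fun k => Metric.closedBall ((6 * l * (((k : Fin n) : ℕ) + 1)) • e) l) with hs1
  set P1 : Set (Fin (n + 1) → V3) := Set.univ.pi s1 with hP1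
  have hP1m : MeasurableSet P1 := by
    apply MeasurableSet.univ_pi
    intro k
    refine Fin.cases ?_ ?_ k
    · exact Metric.isClosed_closedBall.measurableSet
    · intro j
      exact Metric.isClosed_closedBall.measurableSet
  set G : Set (Rel (n + 1)) := {u | u.1 ∈ P1 ∧ potR m u.1 - 2 * ε ≤ kinR m u.2 ∧
    kinR m u.2 ≤ potR m u.1 - ε} with hG
  have hGm : MeasurableSet G := by
    have hk : Measurable (fun u : Rel (n + 1) => kinR m u.2) :=
      (continuous_kinR m).measurable.comp measurable_snd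
    have hp : Measurable (fun u : Rel (n + 1) => potR m u.1) :=
      (measurable_potR m).comp measurable_fst
    exact (measurable_fst hP1m).inter
      ((measurableSet_le (hp.sub_const _) hk).inter (measurableSet_le hk (hp.sub_const _)))
  -- the set lies in the band
  have hfacts : ∀ z : Rel (n + 1), (relEquiv m hm z).1 ∈ P1 → _ := fun z hz =>
    box_facts hm hlpos hDpos hDl hML z he
      (by
        have := hz 0 (Set.mem_univ _)
        rw [hs1] at this
        simpa only [Fin.cases_zero, mem_closedBall_iff_norm] using this)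
      (by
        intro k
        have := hz k.succ (Set.mem_univ _)
        rw [hs1] at this
        simpa only [Fin.cases_succ, mem_closedBall_iff_norm] using this)
  have hsub : (relEquiv m hm) ⁻¹' G ⊆ {z : Rel (n + 1) | z ∈ band m ε R ∧
          (∀ i j, i ≠ j → s ≤ ‖(state m z).1 i - (state m z).1 j‖) ∧ ∃ i j, i ≠ j ∧
          ‖(state m z).1 i - (state m z).1 j‖ ≤ r} := by
    intro z hz
    obtain ⟨hz1, hz2, hz3⟩ := hz
    obtain ⟨b1, b2, b2', b3, b4⟩ := hfacts z hz1
    have e1 : kinR m (relEquiv m hm z).2 = kin m (state m z).2 := rfl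
    rw [e1, ← potR_eq hm] at hz2 hz3
    refine ⟨⟨b1, by linarith, by linarith, ?_⟩, ?_, Fin.castSucc 0, Fin.last (n + 1),
      (Fin.castSucc_lt_last 0).ne, b4.trans hDr⟩
    swap
    · intro i j hij
      have hpos : 0 < ‖(state m z).1 i - (state m z).1 j‖ :=
        norm_pos_iff.mpr (sub_ne_zero.mpr (b1 i j hij))
      have g1 := (pot_ge_pair hm (state m z).1 hij).trans b2'
      have g2 : μ ^ 2 ≤ m i * m j := by
        rw [sq]; exact mul_le_mul (hi₀ i) (hi₀ j) hμpos.le (hm i).le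
      have g3 : μ ^ 2 / ‖(state m z).1 i - (state m z).1 j‖ ≤ 2 * (A / D) :=
        (div_le_div_of_nonneg_right g2 hpos.le).trans g1
      rw [div_le_iff₀ hpos] at g3
      have g4 : μ ^ 2 * D ≤ 2 * A * ‖(state m z).1 i - (state m z).1 j‖ := by
        have : 2 * (A / D) * ‖(state m z).1 i - (state m z).1 j‖ * D =
            2 * A * ‖(state m z).1 i - (state m z).1 j‖ := by field_simp
        rw [← this]
        exact mul_le_mul_of_nonneg_right g3 hDpos.le
      have g5 : 2 * A * s ≤ μ ^ 2 * D := by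
        rw [div_mul_eq_mul_div, div_le_iff₀ (by positivity)] at hs'
        rw [hD]; linarith
      have g6 : 2 * A * s ≤ 2 * A * ‖(state m z).1 i - (state m z).1 j‖ := g5.trans g4
      exact le_of_mul_le_mul_left g6 (by positivity)
    rw [Real.sqrt_le_left hR.le]
    refine b3.trans ?_
    rw [← hM, hl]
    have h7 : (6 * (n:ℝ) + 7) * (ρ * R) = R / (1 + M) := by
      rw [hρ]; field_simp
    rw [h7, div_pow, mul_div_assoc', div_le_iff₀ (by positivity)]
    have h8 : M ≤ (1 + M) ^ 2 := by nlinarith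
    calc M * R ^ 2 ≤ (1 + M) ^ 2 * R ^ 2 := mul_le_mul_of_nonneg_right h8 (sq_nonneg _)
      _ = _ := mul_comm _ _
  -- the potential on the box
  have hpot : ∀ x ∈ P1, A / D ≤ potR m x := by
    intro x hx
    have hz : (relEquiv m hm ((relEquiv m hm).symm (x, 0))).1 = x := by
      rw [ContinuousLinearEquiv.apply_symm_apply]
    have h1 := (hfacts ((relEquiv m hm).symm (x, 0)) (by rw [hz]; exact hx)).2.1
    rw [potR_eq hm, hz] at h1
    exact h1
  have hslice : ∀ x ∈ P1, ENNReal.ofReal (v * (ε * √(A / (2 * D)) ^ (3 * n + 1))) ≤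
      volume (Prod.mk x ⁻¹' G) := by
    intro x hx
    have h1 := hpot x hx
    have h2 : A / (2 * D) = A / D / 2 := by
      rw [mul_comm 2 D, div_div]
    have ha : A / (2 * D) ≤ potR m x - 2 * ε := by rw [h2]; linarith
    have ha0 : 0 < potR m x - 2 * ε := lt_of_lt_of_le (by positivity) ha
    have h3 := hshell (potR m x - 2 * ε) (potR m x - ε) ha0 (by linarith)
    have h4 : Prod.mk x ⁻¹' G = {p : Fin (n + 1) → V3 | potR m x - 2 * ε ≤ kinR m p ∧
        kinR m p ≤ potR m x - ε} := by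
      ext p
      exact ⟨fun h => ⟨h.2.1, h.2.2⟩, fun h => ⟨hx, h.1, h.2⟩⟩
    rw [h4]
    refine le_trans ?_ h3
    apply ENNReal.ofReal_le_ofReal
    apply mul_le_mul_of_nonneg_left _ hv.le
    have h5 : potR m x - ε - (potR m x - 2 * ε) = ε := by ring
    rw [h5]
    apply mul_le_mul_of_nonneg_left _ hε.le
    exact pow_le_pow_left₀ (Real.sqrt_nonneg _) (Real.sqrt_le_sqrt ha) _
  have hP1vol : volume P1 = ENNReal.ofReal (w * (D / 15) ^ 3 * (w * l ^ 3) ^ n) := by
    rw [hP1, volume_pi_pi, Fin.prod_univ_succ]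
    have h7 : volume (s1 0) = ENNReal.ofReal (w * (D / 15) ^ 3) := hball _ _ (by positivity)
    have h8 : ∀ k : Fin n, volume (s1 k.succ) = ENNReal.ofReal (w * l ^ 3) :=
      fun k => hball _ _ hlpos.le
    rw [h7, Finset.prod_congr rfl (fun k _ => h8 k), Finset.prod_const, Finset.card_univ,
      Fintype.card_fin, ← ENNReal.ofReal_pow (by positivity), ← ENNReal.ofReal_mul (by positivity)]
  have hGvol : ENNReal.ofReal (w * (D / 15) ^ 3 * (w * l ^ 3) ^ n *
      (v * (ε * √(A / (2 * D)) ^ (3 * n + 1)))) ≤ volume G := by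
    have hprod : volume G = ∫⁻ x, volume (Prod.mk x ⁻¹' G) := by
      rw [Measure.volume_eq_prod]
      exact Measure.prod_apply hGm
    rw [hprod, ENNReal.ofReal_mul (by positivity), ← hP1vol]
    calc volume P1 * ENNReal.ofReal (v * (ε * √(A / (2 * D)) ^ (3 * n + 1)))
        = ∫⁻ _ in P1, ENNReal.ofReal (v * (ε * √(A / (2 * D)) ^ (3 * n + 1))) := by
          rw [setLIntegral_const, mul_comm]
      _ ≤ ∫⁻ x in P1, volume (Prod.mk x ⁻¹' G) := setLIntegral_mono' hP1m (fun x hx => hslice x hx)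
      _ ≤ ∫⁻ x, volume (Prod.mk x ⁻¹' G) := setLIntegral_le_lintegral _ _
  have hback : (relEquiv m hm).symm ⁻¹' ((relEquiv m hm) ⁻¹' G) = G := by
    ext z
    simp
  have hle := hcS ((relEquiv m hm) ⁻¹' G)
  rw [hback] at hle
  have hle2 := (hGvol.trans hle).trans (mul_le_mul_right (measure_mono hsub) _)
  have hkey : w * (D / 15) ^ 3 * (w * l ^ 3) ^ n * (v * (ε * √(A / (2 * D)) ^ (3 * n + 1))) =
      c₂ * (ε * √r ^ 5 * √(R / r) ^ (3 * n) * √R ^ (3 * n)) := by
    have q1 : √(A / (2 * D)) = √(A / (2 * c₀)) / √r := by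
      rw [← Real.sqrt_div' _ hr.le]
      congr 1
      rw [hD]
      field_simp
    have q2 : √(R / r) = √R / √r := Real.sqrt_div' _ hr.le
    have q3 : r = √r ^ 2 := (Real.sq_sqrt hr.le).symm
    have q4 : R = √R ^ 2 := (Real.sq_sqrt hR.le).symm
    have hsr : 0 < √r := Real.sqrt_pos.mpr hr
    rw [q1, q2, hc₂, hD, hl]
    generalize √(A / (2 * c₀)) = s at *
    have q5 : w * (c₀ * r / 15) ^ 3 * (w * (ρ * R) ^ 3) ^ n * (v * (ε * (s / √r) ^ (3 * n + 1))) =
        w * (c₀ * √r ^ 2 / 15) ^ 3 * (w * (ρ * √R ^ 2) ^ 3) ^ n *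
          (v * (ε * (s / √r) ^ (3 * n + 1))) := by
      rw [← q3, ← q4]
    rw [q5]
    exact alg_close n hsr _ _ _ _ _ _ _
  rw [hkey] at hle2
  set X : ℝ := ε * √r ^ 5 * √(R / r) ^ (3 * n) * √R ^ (3 * n) with hX
  have hfin1 : ENNReal.ofReal X = ENNReal.ofReal (1 / c₂) * ENNReal.ofReal (c₂ * X) := by
    rw [← ENNReal.ofReal_mul (by positivity)]
    congr 1
    field_simp
  rw [hfin1]
  refine (mul_le_mul_right hle2 _).trans ?_
  rw [← mul_assoc, ← ENNReal.ofReal_mul (by positivity)]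
  gcongr
  rw [one_div, inv_mul_eq_div]
  have t1 : c₁ / c₂ ≤ (c₁ + 1) / c₂ := by gcongr; linarith
  have t2 : 0 < 2 * A / (c₀ * μ ^ 2) := by positivity
  linarith

end Pool.Agent.NBody
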