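import Mathlib
import Pool.Agent.NBody.Vol7

/-!
Proportion of the momentum-bounded states near infinity and near the collisions.
-/

set_option autoImplicit false
set_option synthInstance.maxSize 4000
open scoped RealInnerProductSpace ENNReal Pointwise
open Set Finset Filter Topology MeasureTheory

namespace Pool.Agent.NBody

/-- States in an energy band, of bounded size, with smallest distance in a given range. -/
def annulus {n : ℕ} (m : Fin (n + 2) → ℝ) (e R r s : ℝ) : Set (Rel (n + 1)) :=
  {z | z ∈ band m e R ∧ (∀ i j, i ≠ j → s ≤ ‖(state m z).1 i - (state m z).1 j‖) ∧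
    ∃ i j, i ≠ j ∧ ‖(state m z).1 i - (state m z).1 j‖ ≤ r}

theorem annulus_finite {n : ℕ} {m : Fin (n + 2) → ℝ} (hm : ∀ i, 0 < m i) {e R r s : ℝ}
    (he : 0 < e) (hs : 0 < s) : volume (annulus m e R r s) < ⊤ := by
  obtain ⟨i₀, hi₀⟩ := Finite.exists_min m
  set μ : ℝ := m i₀ with hμ
  have hμpos : 0 < μ := hm i₀
  have hsμ : 0 < √μ := Real.sqrt_pos.mpr hμpos
  obtain ⟨j₀, hj₀⟩ := Finite.exists_max m
  set B : ℝ := ∑ i, ∑ j, m i * m j / s / 2 with hB
  have hB0 : 0 ≤ B := Finset.sum_nonneg fun i _ => Finset.sum_nonneg fun j _ => by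
    have := mul_pos (hm i) (hm j)
    positivity
  apply Bornology.IsBounded.measure_lt_top
  rw [isBounded_iff_forall_norm_le]
  refine ⟨max (R / √μ) (√(2 * m j₀ * B)), ?_⟩
  rintro z ⟨⟨hz1, hz2, hz3, hz4⟩, hz5, _⟩
  have hR : 0 ≤ R := (Real.sqrt_nonneg _).trans hz4
  have hpos : ∀ i, ‖(state m z).1 i‖ ≤ R / √μ := by
    intro i
    rw [le_div_iff₀ hsμ]
    refine le_trans ?_ hz4
    apply Real.le_sqrt_of_sq_le
    rw [mul_pow, Real.sq_sqrt hμpos.le]
    calc ‖(state m z).1 i‖ ^ 2 * μ ≤ m i * ‖(state m z).1 i‖ ^ 2 := by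
          rw [mul_comm]; exact mul_le_mul_of_nonneg_right (hi₀ i) (sq_nonneg _)
      _ ≤ _ := Finset.single_le_sum
          (f := fun i => m i * ‖(state m z).1 i‖ ^ 2)
          (fun j _ => mul_nonneg (hm j).le (sq_nonneg _)) (Finset.mem_univ i)
  have hpot : pot m (state m z).1 ≤ B := by
    rw [hB]
    refine Finset.sum_le_sum fun i _ => Finset.sum_le_sum fun j _ => ?_
    rcases eq_or_ne i j with h | h
    · subst h
      rw [sub_self, norm_zero, div_zero, zero_div]
      have := mul_pos (hm i) (hm i)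
      positivity
    · have h1 := hz5 i j h
      have h2 := mul_pos (hm i) (hm j)
      gcongr
  have hkin : kin m (state m z).2 ≤ B := by linarith
  have hmom : ∀ i, ‖(state m z).2 i‖ ≤ √(2 * m j₀ * B) := by
    intro i
    apply Real.le_sqrt_of_sq_le
    have h1 : ‖(state m z).2 i‖ ^ 2 / (2 * m i) ≤ kin m (state m z).2 :=
      Finset.single_le_sum (f := fun i => ‖(state m z).2 i‖ ^ 2 / (2 * m i))
        (fun j _ => by have := hm j; positivity) (Finset.mem_univ i)
    have h2 := h1.trans hkin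
    have h3 := hm i
    rw [div_le_iff₀ (by positivity)] at h2
    calc ‖(state m z).2 i‖ ^ 2 ≤ B * (2 * m i) := h2
      _ ≤ 2 * m j₀ * B := by nlinarith [mul_le_mul_of_nonneg_left (hj₀ i) hB0]
  have e1 : ∀ i : Fin (n + 1), z.1 i = (state m z).1 (Fin.castSucc i) := fun i => by
    simp only [state, Fin.snoc_castSucc]
  have e2 : ∀ i : Fin (n + 1), z.2 i = (state m z).2 (Fin.castSucc i) := fun i => by
    simp only [state, Fin.snoc_castSucc]
  rw [Prod.norm_def]
  refine max_le_max ?_ ?_
  · rw [pi_norm_le_iff_of_nonneg (by positivity)]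
    intro i
    rw [e1]
    exact hpos _
  · rw [pi_norm_le_iff_of_nonneg (by positivity)]
    intro i
    rw [e2]
    exact hmom _

theorem ends_proportion (n : ℕ) (m : Fin (n + 2) → ℝ) (hm : ∀ i, 0 < m i) (C : ℝ) (hC : 0 < C) :
    ∃ K : ℝ, 0 < K ∧ ∀ e R r : ℝ, 0 < e → 0 < R → 0 < r →
      (∀ s : ℝ, 0 ≤ s → K * s ≤ min r (min R e⁻¹) →
        0 < volume (annulus m e R r s) ∧
        ENNReal.ofReal (√(R / min r (min R e⁻¹)) ^ (3 * n)) *
          volume {z : Rel (n + 1) | MomBdd C (state m z) ∧ z ∈ annulus m e R r s} ≤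
          ENNReal.ofReal K * volume (annulus m e R r s)) ∧
      volume {z : Rel (n + 1) | MomBdd C (state m z) ∧
          kin m (state m z).2 - pot m (state m z).1 ≤ -e ∧
          √(∑ i, m i * ‖(state m z).1 i‖ ^ 2) ≤ R ∧
          ∃ i j, i ≠ j ∧ ‖(state m z).1 i - (state m z).1 j‖ ≤ r} ≤
        ENNReal.ofReal (K * √(min r (min R e⁻¹)) ^ 3 * √R ^ (3 * n)) := by
  obtain ⟨K₁, hK₁, H1, -⟩ := proportion n m hm C hC
  obtain ⟨K₂, hK₂, H2⟩ := volume_momBdd_close n m hm C hC
  obtain ⟨K₃, hK₃, H3⟩ := volume_band_close n m hm C hC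
  obtain ⟨K₄, hK₄, H4⟩ := volume_band_close_lower n m hm
  -- all energies
  have HB : ∀ e R r : ℝ, 0 < e → 0 < R → 0 < r →
      volume {z : Rel (n + 1) | MomBdd C (state m z) ∧
          kin m (state m z).2 - pot m (state m z).1 ≤ -e ∧
          √(∑ i, m i * ‖(state m z).1 i‖ ^ 2) ≤ R ∧
          ∃ i j, i ≠ j ∧ ‖(state m z).1 i - (state m z).1 j‖ ≤ r} ≤
        ENNReal.ofReal ((K₁ + K₂) * √(min r (min R e⁻¹)) ^ 3 * √R ^ (3 * n)) := by
    intro e R r he hR hr
    rcases min_choice r (min R e⁻¹) with h | h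
    · rw [h]
      refine (measure_mono ?_).trans ((H2 R r hR hr).trans ?_)
      · rintro z ⟨h1, -, h3, h4⟩
        exact ⟨h1, h3, h4⟩
      · apply ENNReal.ofReal_le_ofReal
        rw [← pow_mul]
        gcongr
        linarith
    · rw [h]
      refine (measure_mono ?_).trans ((H1 R e hR he).trans ?_)
      · rintro z ⟨h1, h2, h3, -⟩
        exact ⟨h1, h2, h3⟩
      · apply ENNReal.ofReal_le_ofReal
        gcongr
        linarith
  set K : ℝ := (K₁ + K₂ + K₃ + 1) * (K₄ + 1) + K₁ + K₂ with hK
  have hKpos : 0 < K := by positivity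
  refine ⟨K, hKpos, ?_⟩
  intro e R r he hR hr
  set t : ℝ := min r (min R e⁻¹) with ht
  have htpos : 0 < t := lt_min hr (lt_min hR (inv_pos.mpr he))
  have htr : t ≤ r := min_le_left _ _
  have htR : t ≤ R := (min_le_right _ _).trans (min_le_left _ _)
  have hte : t ≤ e⁻¹ := (min_le_right _ _).trans (min_le_right _ _)
  have hst : 0 < √t := Real.sqrt_pos.mpr htpos
  have hsR : 0 < √R := Real.sqrt_pos.mpr hR
  have hsRt : 0 < √(R / t) := Real.sqrt_pos.mpr (div_pos hR htpos)
  refine ⟨?_, ?_⟩
  · intro s hs0 hs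
    have hKK : K₄ ≤ K := by
      rw [hK]
      nlinarith [mul_pos hK₁ hK₄, mul_pos hK₂ hK₄, mul_pos hK₃ hK₄]
    have hs4 : K₄ * s ≤ t := (mul_le_mul_of_nonneg_right hKK hs0).trans hs
    have hlow := H4 e R t s he htpos (by rw [one_div]; exact hte) htR hs4
    have hmono : volume {z : Rel (n + 1) | z ∈ band m e R ∧
          (∀ i j, i ≠ j → s ≤ ‖(state m z).1 i - (state m z).1 j‖) ∧ ∃ i j, i ≠ j ∧
          ‖(state m z).1 i - (state m z).1 j‖ ≤ t} ≤ volume (annulus m e R r s) := by
      apply measure_mono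
      rintro z ⟨h1, h2, i, j, h3, h4⟩
      exact ⟨h1, h2, i, j, h3, h4.trans htr⟩
    have hlow2 : ENNReal.ofReal (e * √t ^ 5 * √(R / t) ^ (3 * n) * √R ^ (3 * n)) ≤
        ENNReal.ofReal K₄ * volume (annulus m e R r s) :=
      hlow.trans (mul_le_mul_right hmono _)
    refine ⟨?_, ?_⟩
    · rw [pos_iff_ne_zero]
      intro h0
      rw [h0, mul_zero, nonpos_iff_eq_zero, ENNReal.ofReal_eq_zero] at hlow2
      have : 0 < e * √t ^ 5 * √(R / t) ^ (3 * n) * √R ^ (3 * n) := by positivity
      linarith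
    · -- the case of one scale
      rcases eq_or_lt_of_le htR with hEq | hlt
      · have h1 : √(R / t) ^ (3 * n) = 1 := by
          rw [hEq, div_self hR.ne', Real.sqrt_one, one_pow]
        rw [h1, ENNReal.ofReal_one]
        have h2 : volume {z : Rel (n + 1) | MomBdd C (state m z) ∧ z ∈ annulus m e R r s} ≤
            volume (annulus m e R r s) := measure_mono fun z hz => hz.2
        have h3 : (1 : ℝ≥0∞) ≤ ENNReal.ofReal K := by
          rw [← ENNReal.ofReal_one]
          apply ENNReal.ofReal_le_ofReal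
          rw [hK]
          nlinarith [mul_pos hK₁ hK₄, mul_pos hK₂ hK₄, mul_pos hK₃ hK₄]
        exact mul_le_mul' h3 h2
      · have hup : volume {z : Rel (n + 1) | MomBdd C (state m z) ∧ z ∈ annulus m e R r s} ≤
            ENNReal.ofReal ((K₁ + K₂ + K₃) * (e * √t ^ 5 * √R ^ (3 * n))) := by
          rcases min_choice r (min R e⁻¹) with h | h
          · have htr' : t = r := h
            refine (measure_mono ?_).trans ((H3 e R r he hR hr).trans ?_)
            · rintro z ⟨h1, ⟨⟨-, h2, h3, h4⟩, -, h6⟩⟩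
              exact ⟨h1, ⟨h2, h3⟩, h4, h6⟩
            · apply ENNReal.ofReal_le_ofReal
              rw [htr']
              have : 0 ≤ e * √r ^ 5 * √R ^ (3 * n) := by positivity
              nlinarith
          · have hte' : t = e⁻¹ := by
              rcases min_choice R e⁻¹ with h' | h'
              · exfalso
                have : t = R := h.trans h'
                linarith
              · exact h.trans h'
            refine (measure_mono ?_).trans ((HB e R r he hR hr).trans ?_)
            · rintro z ⟨h1, ⟨⟨-, h2, h3, h4⟩, -, h6⟩⟩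
              exact ⟨h1, h3, h4, h6⟩
            · apply ENNReal.ofReal_le_ofReal
              rw [← ht]
              have h5 : √t ^ 5 = √t ^ 3 * t := by
                rw [show √t ^ 5 = √t ^ 3 * √t ^ 2 by ring, Real.sq_sqrt htpos.le]
              have h6 : e * √t ^ 5 = √t ^ 3 := by
                rw [h5, hte']
                field_simp
              rw [h6]
              have : 0 ≤ √t ^ 3 * √R ^ (3 * n) := by positivity
              nlinarith
        calc ENNReal.ofReal (√(R / t) ^ (3 * n)) *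
              volume {z : Rel (n + 1) | MomBdd C (state m z) ∧ z ∈ annulus m e R r s}
            ≤ ENNReal.ofReal (√(R / t) ^ (3 * n)) *
              ENNReal.ofReal ((K₁ + K₂ + K₃) * (e * √t ^ 5 * √R ^ (3 * n))) := by gcongr
          _ = ENNReal.ofReal (K₁ + K₂ + K₃) *
              ENNReal.ofReal (e * √t ^ 5 * √(R / t) ^ (3 * n) * √R ^ (3 * n)) := by
              rw [← ENNReal.ofReal_mul (by positivity), ← ENNReal.ofReal_mul (by positivity)]
              congr 1
              ring
          _ ≤ ENNReal.ofReal (K₁ + K₂ + K₃) *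
              (ENNReal.ofReal K₄ * volume (annulus m e R r s)) := by gcongr
          _ = ENNReal.ofReal ((K₁ + K₂ + K₃) * K₄) * volume (annulus m e R r s) := by
              rw [← mul_assoc, ← ENNReal.ofReal_mul (by positivity)]
          _ ≤ _ := by
              gcongr
              rw [hK]
              nlinarith [mul_pos hK₁ hK₄, mul_pos hK₂ hK₄, mul_pos hK₃ hK₄]
  · refine (HB e R r he hR hr).trans ?_
    apply ENNReal.ofReal_le_ofReal
    have h1 : K₁ + K₂ ≤ K := by
      rw [hK]
      have : 0 < (K₁ + K₂ + K₃ + 1) * (K₄ + 1) := by positivity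
      linarith
    rw [← ht]
    gcongr

end Pool.Agent.NBody
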