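import Mathlib
import Pool.Agent.NBody.Vol7

/-!
The momentum-bounded states of bounded size have finite volume, all states of negative energy and
bounded size have infinite volume (at least three bodies; at least four bodies in an energy band).
-/

set_option autoImplicit false
set_option synthInstance.maxSize 4000
open scoped RealInnerProductSpace ENNReal
open Set Finset Filter Topology MeasureTheory

namespace Pool.Agent.NBody

/-- The momentum-bounded states of size at most `R` have finite volume. -/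
theorem volume_momBdd_le (n : ℕ) (m : Fin (n + 2) → ℝ) (hm : ∀ i, 0 < m i) (C : ℝ) (hC : 0 < C) :
    ∃ K : ℝ, 0 < K ∧ ∀ R : ℝ, 0 < R →
      volume {z : Rel (n + 1) | MomBdd C (state m z) ∧
        Real.sqrt (∑ i, m i * ‖(state m z).1 i‖ ^ 2) ≤ R} ≤
      ENNReal.ofReal (K * Real.sqrt R ^ (3 * (n + 1))) := by
  obtain ⟨i₀, hi₀⟩ := Finite.exists_min m
  set μ : ℝ := m i₀ with hμdef
  have hμ : 0 < μ := hm i₀
  obtain ⟨K, hK, H⟩ := volume_momBdd_close n m hm C hC
  set a : ℝ := 2 / Real.sqrt μ with ha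
  have hsμ : 0 < Real.sqrt μ := Real.sqrt_pos.mpr hμ
  have hapos : 0 < a := by positivity
  refine ⟨K * Real.sqrt a ^ 3, by positivity, ?_⟩
  intro R hR
  have hsub : {z : Rel (n + 1) | MomBdd C (state m z) ∧
        Real.sqrt (∑ i, m i * ‖(state m z).1 i‖ ^ 2) ≤ R} ⊆
      {z : Rel (n + 1) | MomBdd C (state m z) ∧
        Real.sqrt (∑ i, m i * ‖(state m z).1 i‖ ^ 2) ≤ R ∧
        ∃ i j, i ≠ j ∧ ‖(state m z).1 i - (state m z).1 j‖ ≤ a * R} := by
    rintro z ⟨hz1, hz3⟩
    have hd := dist_le_size hμ hi₀ (state m z).1 hz3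
    exact ⟨hz1, hz3, 0, 1, by simp, hd 0 1⟩
  refine (measure_mono hsub).trans ((H R (a * R) hR (by positivity)).trans ?_)
  apply ENNReal.ofReal_le_ofReal
  apply le_of_eq
  rw [Real.sqrt_mul hapos.le]
  ring

theorem measurableSet_band {n : ℕ} (m : Fin (n + 1) → ℝ) (ε R : ℝ) :
    MeasurableSet (band m ε R) := by
  have h1 := measurable_state_fst m
  have h2 := measurable_kin m
  have h3 := measurable_pot m
  have h4 : Measurable fun z : Rel n => Real.sqrt (∑ i, m i * ‖(state m z).1 i‖ ^ 2) := by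
    fun_prop
  have h5 : band m ε R = (⋂ i, ⋂ j, {z : Rel n | i ≠ j → (state m z).1 i ≠ (state m z).1 j}) ∩
      ({z | -(2 * ε) ≤ kin m (state m z).2 - pot m (state m z).1} ∩
        ({z | kin m (state m z).2 - pot m (state m z).1 ≤ -ε} ∩
          {z | Real.sqrt (∑ i, m i * ‖(state m z).1 i‖ ^ 2) ≤ R})) := by
    ext z
    simp [band]
  rw [h5]
  refine MeasurableSet.inter ?_ ((measurableSet_le measurable_const (h2.sub h3)).inter
    ((measurableSet_le (h2.sub h3) measurable_const).inter (measurableSet_le h4 measurable_const)))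
  refine MeasurableSet.iInter fun i => MeasurableSet.iInter fun j => ?_
  by_cases hij : i = j
  · simp [hij]
  · have h6 : {z : Rel n | i ≠ j → (state m z).1 i ≠ (state m z).1 j} =
        {z : Rel n | (state m z).1 i = (state m z).1 j}ᶜ := by
      ext z
      simp [hij]
    rw [h6]
    exact (measurableSet_eq_fun (h1 i) (h1 j)).compl

/-- All states of negative energy and bounded size have infinite volume, for three or more
bodies. -/
theorem volume_negative_top (n : ℕ) (hn : 1 ≤ n) (m : Fin (n + 2) → ℝ) (hm : ∀ i, 0 < m i)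
    (R : ℝ) (hR : 0 < R) :
    volume {z : Rel (n + 1) | (∀ i j, i ≠ j → (state m z).1 i ≠ (state m z).1 j) ∧
      kin m (state m z).2 - pot m (state m z).1 < 0 ∧
      Real.sqrt (∑ i, m i * ‖(state m z).1 i‖ ^ 2) ≤ R} = ⊤ := by
  obtain ⟨K, hK, H⟩ := volume_band_close_lower n m hm
  set e : ℕ → ℝ := fun j => 4 ^ j / R with he
  have hepos : ∀ j, 0 < e j := fun j => by positivity
  have hlow : ∀ j, ENNReal.ofReal (√R ^ (3 * (n + 1)) / K) ≤ volume (band m (e j) R) := by
    intro j
    have h4 : (1 : ℝ) ≤ 4 ^ j := one_le_pow₀ (by norm_num)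
    have hr : 0 < 1 / e j := by have := hepos j; positivity
    have hrR : 1 / e j ≤ R := by
      rw [he]
      simp only
      rw [one_div_div, div_le_iff₀ (by positivity)]
      nlinarith
    have h1 := H (e j) R (1 / e j) 0 (hepos j) hr le_rfl hrR (by rw [mul_zero]; exact hr.le)
    have h2 : volume {z : Rel (n + 1) | z ∈ band m (e j) R ∧
          (∀ i j, i ≠ j → 0 ≤ ‖(state m z).1 i - (state m z).1 j‖) ∧ ∃ i k, i ≠ k ∧
          ‖(state m z).1 i - (state m z).1 k‖ ≤ 1 / e j} ≤ volume (band m (e j) R) :=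
      measure_mono fun z hz => hz.1
    have h3 : √R ^ (3 * (n + 1)) ≤
        e j * √(1 / e j) ^ 5 * √(R / (1 / e j)) ^ (3 * n) * √R ^ (3 * n) := by
      set r : ℝ := 1 / e j with hrdef
      have her : e j = 1 / r := by rw [hrdef, one_div_one_div]
      set x : ℝ := R / r with hx
      have hx1 : 1 ≤ x := by rw [hx, le_div_iff₀ hr]; linarith
      have hRx : R = r * x := by rw [hx]; field_simp
      have hsr : 0 < √r := Real.sqrt_pos.mpr hr
      have hsx : 1 ≤ √x := by rw [Real.one_le_sqrt]; exact hx1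
      have hsR : √R = √r * √x := by rw [hRx, Real.sqrt_mul hr.le]
      have hr2 : r = √r ^ 2 := (Real.sq_sqrt hr.le).symm
      have h5 : e j * √r ^ 5 = √r ^ 3 := by
        rw [her]
        nth_rewrite 1 [hr2]
        field_simp
      rw [h5]
      have h6 : √R ^ (3 * (n + 1)) = √r ^ 3 * √x ^ 3 * √R ^ (3 * n) := by
        rw [show 3 * (n + 1) = 3 + 3 * n by ring, pow_add]
        nth_rewrite 1 [hsR]
        ring
      rw [h6]
      have h7 : √x ^ 3 ≤ √x ^ (3 * n) := pow_le_pow_right₀ hsx (by omega)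
      gcongr
    have h8 : ENNReal.ofReal (√R ^ (3 * (n + 1))) ≤ ENNReal.ofReal K * volume (band m (e j) R) :=
      (ENNReal.ofReal_le_ofReal h3).trans (h1.trans (by gcongr))
    rw [ENNReal.ofReal_div_of_pos hK]
    exact ENNReal.div_le_of_le_mul' h8
  have hdisj : Pairwise (Function.onFun Disjoint fun j => band m (e j) R) := by
    have key : ∀ j k : ℕ, j < k → Disjoint (band m (e j) R) (band m (e k) R) := by
      intro j k hjk
      rw [Set.disjoint_left]
      rintro z ⟨-, h1, -, -⟩ ⟨-, -, h2, -⟩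
      have h3 : (4 : ℝ) ^ (j + 1) ≤ 4 ^ k := pow_le_pow_right₀ (by norm_num) hjk
      have h4 : 4 * e j ≤ e k := by
        rw [he]
        simp only
        rw [← mul_div_assoc]
        gcongr
        rw [← pow_succ']
        exact h3
      have := hepos j
      linarith
    intro j k hjk
    rcases lt_or_gt_of_ne hjk with h | h
    · exact key j k h
    · exact (key k j h).symm
  have hsub : (⋃ j, band m (e j) R) ⊆
      {z : Rel (n + 1) | (∀ i j, i ≠ j → (state m z).1 i ≠ (state m z).1 j) ∧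
      kin m (state m z).2 - pot m (state m z).1 < 0 ∧
      Real.sqrt (∑ i, m i * ‖(state m z).1 i‖ ^ 2) ≤ R} := by
    rintro z hz
    obtain ⟨j, h1, -, h2, h3⟩ := mem_iUnion.1 hz
    exact ⟨h1, by have := hepos j; linarith, h3⟩
  rw [eq_top_iff]
  refine le_trans ?_ (measure_mono hsub)
  rw [measure_iUnion hdisj fun j => measurableSet_band m (e j) R]
  have hc : ENNReal.ofReal (√R ^ (3 * (n + 1)) / K) ≠ 0 := by
    have hsR : 0 < √R := Real.sqrt_pos.mpr hR
    rw [Ne, ENNReal.ofReal_eq_zero, not_le]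
    positivity
  rw [← ENNReal.tsum_const_eq_top_of_ne_zero (α := ℕ) hc]
  exact ENNReal.tsum_le_tsum hlow

/-- All states in an energy band and of bounded size have infinite volume, for four or more
bodies. -/
theorem volume_band_top (n : ℕ) (hn : 2 ≤ n) (m : Fin (n + 2) → ℝ) (hm : ∀ i, 0 < m i)
    (ε R : ℝ) (hε : 0 < ε) (hR : 0 < R) : volume (band m ε R) = ⊤ := by
  obtain ⟨K, hK, H⟩ := volume_band_close_lower n m hm
  rw [eq_top_iff]
  refine ENNReal.le_of_forall_nnreal_lt fun a _ => ?_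
  set r₀ : ℝ := min (1 / ε) R with hr₀
  have hr₀pos : 0 < r₀ := lt_min (by positivity) hR
  have hsR : 0 < √R := Real.sqrt_pos.mpr hR
  set A : ℝ := (a + 1) * K / (ε * (√R ^ (3 * n) * √R ^ (3 * n))) with hA
  have hApos : 0 < A := by positivity
  set r : ℝ := min r₀ (min 1 ((1 / A) ^ 2)) with hr
  have hrpos : 0 < r := lt_min hr₀pos (lt_min one_pos (by positivity))
  have hr1 : r ≤ 1 := (min_le_right _ _).trans (min_le_left _ _)
  have hrA : r ≤ (1 / A) ^ 2 := (min_le_right _ _).trans (min_le_right _ _)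
  have hr2 : r ≤ 1 / ε := (min_le_left _ _).trans (min_le_left _ _)
  have hr3 : r ≤ R := (min_le_left _ _).trans (min_le_right _ _)
  have h1 := H ε R r 0 hε hrpos hr2 hr3 (by rw [mul_zero]; exact hrpos.le)
  have hsr : 0 < √r := Real.sqrt_pos.mpr hrpos
  have hsr1 : √r ≤ 1 := Real.sqrt_le_one.mpr hr1
  have hsA : A ≤ 1 / √r := by
    rw [le_div_iff₀ hsr, mul_comm, ← le_div_iff₀ hApos]
    calc √r ≤ √((1 / A) ^ 2) := Real.sqrt_le_sqrt hrA
      _ = 1 / A := Real.sqrt_sq (by positivity)
  have h2 : (a + 1) * K ≤ ε * √r ^ 5 * √(R / r) ^ (3 * n) * √R ^ (3 * n) := by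
    rw [Real.sqrt_div' _ hrpos.le, div_pow]
    have h3 : 1 / √r ≤ √r ^ 5 / √r ^ (3 * n) := by
      rw [div_le_div_iff₀ hsr (by positivity), one_mul, ← pow_succ]
      exact pow_le_pow_of_le_one hsr.le hsr1 (by omega)
    calc (a + 1) * K = A * (ε * (√R ^ (3 * n) * √R ^ (3 * n))) := by
          rw [hA]; field_simp
      _ ≤ √r ^ 5 / √r ^ (3 * n) * (ε * (√R ^ (3 * n) * √R ^ (3 * n))) := by
          gcongr
          exact hsA.trans h3
      _ = _ := by ring
  have h4 : ENNReal.ofReal ((a + 1) * K) ≤ ENNReal.ofReal K * volume (band m ε R) :=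
    (ENNReal.ofReal_le_ofReal h2).trans (h1.trans (by gcongr; exact fun z hz => hz.1))
  have h5 : ENNReal.ofReal ((a + 1) * K) = ENNReal.ofReal K * ENNReal.ofReal (a + 1) := by
    rw [mul_comm, ENNReal.ofReal_mul hK.le]
  rw [h5] at h4
  have hK0 : ENNReal.ofReal K ≠ 0 := by
    rw [Ne, ENNReal.ofReal_eq_zero, not_le]; exact hK
  have h6 := (ENNReal.mul_le_mul_iff_right hK0 ENNReal.ofReal_ne_top).1 h4
  refine le_trans ?_ h6
  rw [← ENNReal.ofReal_coe_nnreal]
  exact ENNReal.ofReal_le_ofReal (by linarith)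

end Pool.Agent.NBody
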