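import Mathlib
import Pool.Agent.NBody.Vol6

/-!
Volume of all states of an energy band whose closest pair has a distance of given order: lower
bound, by covering with scaled copies in the momenta.
-/

set_option autoImplicit false
set_option synthInstance.maxSize 4000
open scoped RealInnerProductSpace ENNReal Pointwise
open Set Finset Filter Topology MeasureTheory

namespace Pool.Agent.NBody

/-- Covering: the scaled copies of the band part cover a set of kinetic energies of the order of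
the potential energy. -/
theorem covering (k : ℕ) (P Q : Set (Rel k))
    (hPQ : ∀ z ∈ P, ∀ l : ℝ, 0 < l → ((z.1, l • z.2) : Rel k) ∈ Q)
    (T U : Rel k → ℝ)
    (hTs : ∀ z : Rel k, ∀ l : ℝ, T (z.1, l • z.2) = l ^ 2 * T z)
    (hUs : ∀ z : Rel k, ∀ l : ℝ, U (z.1, l • z.2) = U z)
    {a e : ℝ} (ha : 0 < a) (he : 0 < e) (hea : 8 * e ≤ a)
    (hTU : ∀ z ∈ P, a / 2 ≤ T z ∧ T z ≤ a ∧ 8 / 7 * a ≤ U z ∧ U z ≤ 2 * a) :
    volume P ≤ ENNReal.ofReal (16 * (a / e)) *
      volume {z | z ∈ Q ∧ T z - U z ∈ Set.Icc (-(2 * e)) (-e)} := by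
  set S : Set (Rel k) := {z | z ∈ Q ∧ T z - U z ∈ Set.Icc (-(2 * e)) (-e)} with hS
  set η : ℝ := e / (8 * a) with hη
  have hηpos : 0 < η := by positivity
  have hη1 : η ≤ 1 / 64 := by
    rw [hη, div_le_iff₀ (by positivity)]; linarith
  set J : ℕ := ⌊1 / η⌋₊ with hJ
  set lam : ℕ → ℝ := fun j => Real.sqrt (1 - j * η) with hlam
  have hlamle : ∀ j : ℕ, lam j ≤ 1 := by
    intro j
    have h1 : (0:ℝ) ≤ j * η := by positivity
    calc Real.sqrt (1 - j * η) ≤ Real.sqrt 1 := Real.sqrt_le_sqrt (by linarith)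
      _ = 1 := Real.sqrt_one
  have hcover : P ⊆ ⋃ j ∈ Finset.range (J + 1), (if 0 < lam j then momScale k (lam j) '' S
      else ∅) := by
    intro z hz
    obtain ⟨hT1, hT2, hU1, hU2⟩ := hTU z hz
    have hUe : 0 < U z - 2 * e := by linarith
    have hUe' : 0 < U z - e := by linarith
    have hTpos : 0 < T z := by linarith
    set s : ℝ := T z / (U z - e) with hs
    have hspos : 0 < s := by positivity
    have hs1 : s ≤ 1 := by
      rw [hs, div_le_one hUe']
      linarith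
    have hgap : s + η ≤ T z / (U z - 2 * e) := by
      have h1 : T z / (U z - 2 * e) - s = T z * e / ((U z - e) * (U z - 2 * e)) := by
        rw [hs]; field_simp; ring
      have h2 : η ≤ T z * e / ((U z - e) * (U z - 2 * e)) := by
        rw [le_div_iff₀ (by positivity), hη]
        have h3 : (U z - e) * (U z - 2 * e) ≤ 2 * a * (2 * a) :=
          mul_le_mul (by linarith) (by linarith) hUe.le (by positivity)
        calc e / (8 * a) * ((U z - e) * (U z - 2 * e)) ≤ e / (8 * a) * (2 * a * (2 * a)) :=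
              mul_le_mul_of_nonneg_left h3 (by positivity)
          _ = a / 2 * e := by field_simp; ring
          _ ≤ T z * e := mul_le_mul_of_nonneg_right hT1 he.le
      linarith
    set j : ℕ := ⌊(1 - s) / η⌋₊ with hj
    have hj1 : (j : ℝ) ≤ (1 - s) / η := Nat.floor_le (div_nonneg (by linarith) hηpos.le)
    have hj2 : (1 - s) / η < j + 1 := Nat.lt_floor_add_one _
    rw [le_div_iff₀ hηpos] at hj1
    rw [div_lt_iff₀ hηpos] at hj2
    have hjJ : j ∈ Finset.range (J + 1) := by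
      rw [Finset.mem_range, Nat.lt_succ_iff, hj, hJ]
      apply Nat.floor_le_floor
      exact div_le_div_of_nonneg_right (by linarith) hηpos.le
    have hl2 : lam j ^ 2 = 1 - j * η := by
      rw [hlam]
      exact Real.sq_sqrt (by linarith)
    have hlpos : 0 < lam j := by
      rw [hlam]
      exact Real.sqrt_pos.mpr (by linarith)
    rw [Set.mem_iUnion₂]
    refine ⟨j, hjJ, ?_⟩
    rw [if_pos hlpos]
    refine ⟨(z.1, (lam j)⁻¹ • z.2), ⟨hPQ z hz _ (inv_pos.mpr hlpos), ?_⟩, ?_⟩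
    · rw [hTs, hUs, inv_pow, hl2]
      have h4 : 0 < 1 - j * η := by linarith
      have h5 : (1 - j * η)⁻¹ * T z ≤ U z - e := by
        rw [inv_mul_le_iff₀ h4]
        have h6 : s * (U z - e) = T z := by rw [hs]; field_simp
        nlinarith
      have h7 : U z - 2 * e ≤ (1 - j * η)⁻¹ * T z := by
        rw [le_inv_mul_iff₀ h4]
        have h8 : T z / (U z - 2 * e) * (U z - 2 * e) = T z := by field_simp
        nlinarith
      exact ⟨by linarith, by linarith⟩
    · rw [momScale_apply]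
      refine Prod.ext rfl ?_
      change lam j • (lam j)⁻¹ • z.2 = z.2
      rw [smul_smul, mul_inv_cancel₀ hlpos.ne', one_smul]
  calc volume P ≤ volume (⋃ j ∈ Finset.range (J + 1), (if 0 < lam j then
        momScale k (lam j) '' S else ∅)) := measure_mono hcover
    _ ≤ ∑ j ∈ Finset.range (J + 1), volume (if 0 < lam j then momScale k (lam j) '' S
        else ∅) := measure_biUnion_finset_le _ _
    _ ≤ ∑ _j ∈ Finset.range (J + 1), volume S := by
        apply Finset.sum_le_sum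
        intro j _
        split_ifs with h
        · rw [volume_momScale k h]
          calc ENNReal.ofReal (lam j ^ (3 * k)) * volume S ≤ ENNReal.ofReal 1 * volume S := by
                gcongr
                exact pow_le_one₀ h.le (hlamle j)
            _ = volume S := by rw [ENNReal.ofReal_one, one_mul]
        · rw [measure_empty]; exact zero_le
    _ = ENNReal.ofReal ((J + 1 : ℕ) : ℝ) * volume S := by
        rw [Finset.sum_const, Finset.card_range, ENNReal.ofReal_natCast, nsmul_eq_mul]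
    _ ≤ _ := by
        gcongr
        push_cast
        have h1 : (J : ℝ) ≤ 1 / η := Nat.floor_le (by positivity)
        have h2 : 1 / η = 8 * (a / e) := by rw [hη]; field_simp
        have h3 : 8 ≤ a / e := by rw [le_div_iff₀ he]; exact hea
        linarith

/-- kinetic energy as a function of the momenta of the first bodies -/
noncomputable def kinR {n : ℕ} (m : Fin (n + 1) → ℝ) (p : Fin n → V3) : ℝ :=
  kin m (state m ((0 : Fin n → V3), p)).2

theorem kinR_eq {n : ℕ} (m : Fin (n + 1) → ℝ) (z : Rel n) :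
    kin m (state m z).2 = kinR m z.2 := rfl

theorem kinR_smul {n : ℕ} (m : Fin (n + 1) → ℝ) (p : Fin n → V3) (l : ℝ) :
    kinR m (l • p) = l ^ 2 * kinR m p := by
  have h := state_scale m ((0 : Fin n → V3), p) l
  have h2 : kinR m (l • p) = kin m (state m ((0 : Fin n → V3), l • p)).2 := rfl
  rw [h2]
  change kin m (state m ((((0 : Fin n → V3), p) : Rel n).1, l • (((0 : Fin n → V3), p) : Rel n).2)).2
    = _
  rw [h, kin_smul]
  rfl

theorem continuous_kinR {n : ℕ} (m : Fin (n + 1) → ℝ) : Continuous (kinR m) := by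
  have h : ∀ i : Fin (n + 1), Continuous fun p : Fin n → V3 =>
      (state m ((0 : Fin n → V3), p)).2 i := by
    intro i
    refine Fin.lastCases ?_ ?_ i
    · simp only [state_snd_last]
      fun_prop
    · intro j
      simp only [state_snd_castSucc]
      fun_prop
  unfold kinR kin
  fun_prop

theorem exists_kinR_pos {n : ℕ} {m : Fin (n + 2) → ℝ} (hm : ∀ i, 0 < m i) :
    ∃ p : Fin (n + 1) → V3, 0 < kinR m p := by
  obtain ⟨e, he⟩ : ∃ e : V3, ‖e‖ = 1 := ⟨EuclideanSpace.single 0 1, by simp⟩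
  refine ⟨fun _ => e, ?_⟩
  unfold kinR kin
  have h1 : 0 < ‖(state m ((0 : Fin (n + 1) → V3), fun _ : Fin (n + 1) => e)).2
      (Fin.castSucc 0)‖ ^ 2 / (2 * m (Fin.castSucc 0)) := by
    rw [state_snd_castSucc]
    have := hm (Fin.castSucc 0)
    change 0 < ‖e‖ ^ 2 / _
    rw [he]
    positivity
  refine lt_of_lt_of_le h1 (Finset.single_le_sum (f := fun i => ‖(state m ((0 : Fin (n + 1) → V3),
    fun _ : Fin (n + 1) => e)).2 i‖ ^ 2 / (2 * m i)) (fun i _ => ?_)
    (Finset.mem_univ (Fin.castSucc 0)))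
  have := hm i
  positivity

/-- momenta with kinetic energy of a given order -/
def Pm {n : ℕ} (m : Fin (n + 2) → ℝ) (a : ℝ) : Set (Fin (n + 1) → V3) :=
  {p | a / 2 < kinR m p ∧ kinR m p < a}

theorem volume_Pm {n : ℕ} {m : Fin (n + 2) → ℝ} (hm : ∀ i, 0 < m i) {a : ℝ} (ha : 0 < a) :
    ∃ c : ℝ, 0 < c ∧ ∀ r : ℝ, 0 < r →
      ENNReal.ofReal (c * ((Real.sqrt r)⁻¹ ^ 3) ^ (n + 1)) ≤ volume (Pm m (a / r)) := by
  have h0 : (volume : Measure (Fin (n + 1) → V3)).IsAddHaarMeasure := inferInstance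
  have hopen : IsOpen (Pm m a) := by
    have hc := continuous_kinR m
    exact (isOpen_lt continuous_const hc).inter (isOpen_lt hc continuous_const)
  have hne : (Pm m a).Nonempty := by
    obtain ⟨p, hp⟩ := exists_kinR_pos hm
    refine ⟨Real.sqrt (3 / 4 * a / kinR m p) • p, ?_⟩
    have h1 : kinR m (Real.sqrt (3 / 4 * a / kinR m p) • p) = 3 / 4 * a := by
      rw [kinR_smul, Real.sq_sqrt (by positivity)]
      field_simp
    constructor
    · rw [h1]; linarith
    · rw [h1]; linarith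
  have hpos : 0 < volume (Pm m a) := hopen.measure_pos volume hne
  obtain ⟨c, hc0, hc1⟩ := ENNReal.lt_iff_exists_nnreal_btwn.mp hpos
  have hc0' : (0 : NNReal) < c := by exact_mod_cast hc0
  refine ⟨c, hc0', ?_⟩
  intro r hr
  have hsr : 0 < Real.sqrt r := Real.sqrt_pos.mpr hr
  have hfin : Module.finrank ℝ (Fin (n + 1) → V3) = 3 * (n + 1) := by
    simp [V3, Module.finrank_pi_fintype]; ring
  have hsub : (Real.sqrt r)⁻¹ • Pm m a ⊆ Pm m (a / r) := by
    rintro _ ⟨p, hp, rfl⟩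
    have h1 : kinR m ((Real.sqrt r)⁻¹ • p) = kinR m p / r := by
      rw [kinR_smul, inv_pow, Real.sq_sqrt hr.le]
      ring
    constructor
    · change a / r / 2 < kinR m ((Real.sqrt r)⁻¹ • p)
      rw [h1, div_right_comm]
      exact div_lt_div_of_pos_right hp.1 hr
    · change kinR m ((Real.sqrt r)⁻¹ • p) < a / r
      rw [h1]
      exact div_lt_div_of_pos_right hp.2 hr
  refine le_trans ?_ (measure_mono hsub)
  rw [Measure.addHaar_smul, hfin, abs_of_pos (by positivity), mul_comm (c : ℝ),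
    ENNReal.ofReal_mul (by positivity), ENNReal.ofReal_coe_nnreal, ← pow_mul]
  gcongr

/-- Positions in a product of balls: one close pair, the other bodies far away. -/
theorem positions_of_balls {n : ℕ} {m : Fin (n + 2) → ℝ} (hm : ∀ i, 0 < m i) {l r : ℝ}
    (hl : 0 < l) (hr : 0 < r) (hrl : r ≤ l) (z : Rel (n + 1)) {e : V3} (he : ‖e‖ = 1)
    (h0 : ‖(relEquiv m hm z).1 0 - (3 / 4 * r) • e‖ ≤ r / 8)
    (h1 : ∀ k : Fin n, ‖(relEquiv m hm z).1 k.succ - (6 * l * ((k : ℕ) + 1)) • e‖ ≤ l) :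
    (∀ i j, i ≠ j → r / 2 ≤ ‖(state m z).1 i - (state m z).1 j‖) ∧
    (∃ i j, i ≠ j ∧ ‖(state m z).1 i - (state m z).1 j‖ ≤ r) ∧
    8 / 7 * (m (Fin.castSucc 0) * m (Fin.last (n + 1)) / r) ≤ pot m (state m z).1 ∧
    pot m (state m z).1 ≤ 8 / 5 * (m (Fin.castSucc 0) * m (Fin.last (n + 1)) / r) +
      (∑ i, m i) ^ 2 / (2 * l) ∧
    ∑ i, m i * ‖(state m z).1 i‖ ^ 2 ≤ (∑ i, m i) * ((6 * n + 7) * l) ^ 2 := by
  set x := (relEquiv m hm z).1 with hx
  set q := (state m z).1 with hq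
  set A : ℝ := m (Fin.castSucc 0) * m (Fin.last (n + 1)) with hA
  have hApos : 0 < A := mul_pos (hm _) (hm _)
  -- norms
  have hx0 : 5 / 8 * r ≤ ‖x 0‖ ∧ ‖x 0‖ ≤ 7 / 8 * r := by
    have h3 : ‖(3 / 4 * r) • e‖ = 3 / 4 * r := by
      rw [norm_smul, he, mul_one, Real.norm_of_nonneg (by positivity)]
    have h4 : ‖(3 / 4 * r) • e‖ ≤ ‖x 0‖ + ‖x 0 - (3 / 4 * r) • e‖ := by
      calc ‖(3 / 4 * r) • e‖ = ‖x 0 - (x 0 - (3 / 4 * r) • e)‖ := by congr 1; abel
        _ ≤ _ := norm_sub_le _ _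
    have h5 : ‖x 0‖ ≤ ‖(3 / 4 * r) • e‖ + ‖x 0 - (3 / 4 * r) • e‖ := by
      calc ‖x 0‖ = ‖(3 / 4 * r) • e + (x 0 - (3 / 4 * r) • e)‖ := by congr 1; abel
        _ ≤ _ := norm_add_le _ _
    rw [h3] at h4 h5
    constructor <;> linarith
  have hxk : ∀ k : Fin n, 5 * l ≤ ‖x k.succ‖ ∧ ‖x k.succ‖ ≤ (6 * n + 7) * l := by
    intro k
    have h3 : ‖(6 * l * ((k : ℕ) + 1)) • e‖ = 6 * l * ((k : ℕ) + 1) := by
      rw [norm_smul, he, mul_one, Real.norm_of_nonneg (by positivity)]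
    have h4 : ‖(6 * l * ((k : ℕ) + 1)) • e‖ ≤
        ‖x k.succ‖ + ‖x k.succ - (6 * l * ((k : ℕ) + 1)) • e‖ := by
      calc ‖(6 * l * ((k : ℕ) + 1)) • e‖ =
          ‖x k.succ - (x k.succ - (6 * l * ((k : ℕ) + 1)) • e)‖ := by congr 1; abel
        _ ≤ _ := norm_sub_le _ _
    have h5 : ‖x k.succ‖ ≤
        ‖(6 * l * ((k : ℕ) + 1)) • e‖ + ‖x k.succ - (6 * l * ((k : ℕ) + 1)) • e‖ := by
      calc ‖x k.succ‖ =
          ‖(6 * l * ((k : ℕ) + 1)) • e + (x k.succ - (6 * l * ((k : ℕ) + 1)) • e)‖ := by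
            congr 1; abel
        _ ≤ _ := norm_add_le _ _
    rw [h3] at h4 h5
    have h6 := h1 k
    have h7 : (0:ℝ) ≤ (k : ℕ) := Nat.cast_nonneg _
    have h8 : ((k : ℕ) : ℝ) + 1 ≤ n := by
      have := k.2
      exact_mod_cast this
    constructor
    · nlinarith [mul_nonneg hl.le h7]
    · nlinarith [mul_le_mul_of_nonneg_left h8 hl.le]
  have hx0l : ‖x 0‖ ≤ l := by linarith [hx0.2]
  have hxkl : ∀ k l' : Fin n, k ≠ l' → l ≤ ‖x k.succ - x l'.succ‖ := by
    intro k l' hkl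
    have h3 : ‖(6 * l * ((k : ℕ) + 1)) • e - (6 * l * ((l' : ℕ) + 1)) • e‖ =
        6 * l * |((k : ℕ) : ℝ) - (l' : ℕ)| := by
      rw [← sub_smul, norm_smul, he, mul_one, Real.norm_eq_abs,
        show 6 * l * (((k : ℕ) : ℝ) + 1) - 6 * l * (((l' : ℕ) : ℝ) + 1) =
          (6 * l) * (((k : ℕ) : ℝ) - (l' : ℕ)) by ring, abs_mul, abs_of_pos (by positivity)]
    have h4 : (1:ℝ) ≤ |((k : ℕ) : ℝ) - (l' : ℕ)| := by
      have h5 : ((k : ℕ) : ℤ) - (l' : ℕ) ≠ 0 := by
        intro h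
        apply hkl
        apply Fin.ext
        omega
      have h6 : (1 : ℤ) ≤ |((k : ℕ) : ℤ) - (l' : ℕ)| := Int.one_le_abs h5
      have h7 : ((1 : ℤ) : ℝ) ≤ ((|((k : ℕ) : ℤ) - (l' : ℕ)| : ℤ) : ℝ) := by exact_mod_cast h6
      push_cast at h7
      exact h7
    have h5 : ‖(6 * l * ((k : ℕ) + 1)) • e - (6 * l * ((l' : ℕ) + 1)) • e‖ ≤
        ‖x k.succ - x l'.succ‖ + (l + l) := by
      calc ‖(6 * l * ((k : ℕ) + 1)) • e - (6 * l * ((l' : ℕ) + 1)) • e‖ =
          ‖(x k.succ - x l'.succ) - ((x k.succ - (6 * l * ((k : ℕ) + 1)) • e) -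
            (x l'.succ - (6 * l * ((l' : ℕ) + 1)) • e))‖ := by congr 1; abel
        _ ≤ ‖x k.succ - x l'.succ‖ + ‖(x k.succ - (6 * l * ((k : ℕ) + 1)) • e) -
            (x l'.succ - (6 * l * ((l' : ℕ) + 1)) • e)‖ := norm_sub_le _ _
        _ ≤ _ := by
            gcongr
            exact (norm_sub_le _ _).trans (add_le_add (h1 k) (h1 l'))
    rw [h3] at h5
    nlinarith [mul_le_mul_of_nonneg_left h4 hl.le]
  have hx0k : ∀ k : Fin n, l ≤ ‖x k.succ - x 0‖ := by
    intro k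
    have h3 : ‖x k.succ‖ ≤ ‖x k.succ - x 0‖ + ‖x 0‖ := by
      calc ‖x k.succ‖ = ‖(x k.succ - x 0) + x 0‖ := by congr 1; abel
        _ ≤ _ := norm_add_le _ _
    linarith [(hxk k).1]
  -- transfer to `q`
  have hxq : ∀ i : Fin (n + 1), x i = q (Fin.castSucc i) - q (Fin.last (n + 1)) :=
    fun i => relEquiv_fst hm z i
  have hfar : ∀ i j, i ≠ j → ¬ (i = Fin.castSucc 0 ∧ j = Fin.last (n + 1)) →
      ¬ (i = Fin.last (n + 1) ∧ j = Fin.castSucc 0) → l ≤ ‖q i - q j‖ := by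
    have hsub : ∀ a b : Fin (n + 1), q (Fin.castSucc a) - q (Fin.castSucc b) = x a - x b := by
      intro a b
      rw [hxq, hxq]; abel
    have haux : ∀ (a b : Fin (n + 1)), a ≠ b → l ≤ ‖x a - x b‖ := by
      intro a b
      refine Fin.cases ?_ ?_ a
      · refine Fin.cases ?_ ?_ b
        · intro h; exact absurd rfl h
        · intro k _
          rw [norm_sub_rev]; exact hx0k k
      · intro k
        refine Fin.cases ?_ ?_ b
        · intro _; exact hx0k k
        · intro l' h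
          exact hxkl k l' (fun h' => h (by rw [h']))
    have haux2 : ∀ a : Fin (n + 1), a ≠ 0 → l ≤ ‖x a‖ := by
      intro a
      refine Fin.cases ?_ ?_ a
      · intro h; exact absurd rfl h
      · intro k _
        linarith [(hxk k).1]
    intro i j
    refine Fin.lastCases ?_ ?_ i
    · refine Fin.lastCases ?_ ?_ j
      · intro h; exact absurd rfl h
      · intro b _ _ hb
        rw [norm_sub_rev, ← hxq]
        exact haux2 b (fun h => hb ⟨rfl, by rw [h]⟩)
    · intro a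
      refine Fin.lastCases ?_ ?_ j
      · intro _ ha _
        rw [← hxq]
        exact haux2 a (fun h => ha ⟨by rw [h], rfl⟩)
      · intro b hab _ _
        rw [hsub]
        exact haux a b (fun h => hab (by rw [h]))
  have hd0 : ‖q (Fin.castSucc 0) - q (Fin.last (n + 1))‖ = ‖x 0‖ := by rw [hxq]
  have hne0 : Fin.castSucc (0 : Fin (n + 1)) ≠ Fin.last (n + 1) := (Fin.castSucc_lt_last 0).ne
  obtain ⟨hp1, hp2⟩ := pot_window hm q hne0 hl hfar
  rw [hd0] at hp1 hp2
  have hx0pos : 0 < ‖x 0‖ := lt_of_lt_of_le (by positivity) hx0.1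
  have hAr : A / r * r = A := by field_simp
  have hArpos : 0 < A / r := by positivity
  have hA1 : 8 / 7 * (A / r) ≤ A / ‖x 0‖ := by
    rw [le_div_iff₀ hx0pos]
    nlinarith [mul_le_mul_of_nonneg_left hx0.2 hArpos.le]
  have hA2 : A / ‖x 0‖ ≤ 8 / 5 * (A / r) := by
    rw [div_le_iff₀ hx0pos]
    nlinarith [mul_le_mul_of_nonneg_left hx0.1 hArpos.le]
  refine ⟨?_, ⟨_, _, hne0, ?_⟩, hA1.trans hp1, by linarith, ?_⟩
  · intro i j hij
    by_cases h3 : i = Fin.castSucc 0 ∧ j = Fin.last (n + 1)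
    · rw [h3.1, h3.2, hd0]
      linarith [hx0.1]
    by_cases h4 : i = Fin.last (n + 1) ∧ j = Fin.castSucc 0
    · rw [h4.1, h4.2, norm_sub_rev, hd0]
      linarith [hx0.1]
    linarith [hfar i j hij h3 h4]
  · rw [hd0]
    linarith [hx0.2]
  · apply size_le hm z (by positivity)
    intro i
    refine Fin.cases ?_ ?_ i
    · calc ‖x 0‖ ≤ l := hx0l
        _ ≤ (6 * n + 7) * l := by
          have : (0:ℝ) ≤ n := Nat.cast_nonneg _
          nlinarith [mul_nonneg this hl.le]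
    · intro k
      exact (hxk k).2

/-- states in an energy band, of bounded size, whose closest pair has distance between `r / 2`
and `r` -/
def shellSet {n : ℕ} (m : Fin (n + 1) → ℝ) (e R r : ℝ) : Set (Rel n) :=
  {z | kin m (state m z).2 - pot m (state m z).1 ∈ Set.Icc (-(2 * e)) (-e) ∧
    Real.sqrt (∑ i, m i * ‖(state m z).1 i‖ ^ 2) ≤ R ∧
    (∀ i j, i ≠ j → r / 2 ≤ ‖(state m z).1 i - (state m z).1 j‖) ∧
    ∃ i j, i ≠ j ∧ ‖(state m z).1 i - (state m z).1 j‖ ≤ r}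

/-- Lower bound for the volume of all states in such a set. -/
theorem volume_shell (n : ℕ) (m : Fin (n + 2) → ℝ) (hm : ∀ i, 0 < m i) :
    ∃ c K₀ : ℝ, 0 < c ∧ 0 < K₀ ∧ ∀ e R r : ℝ, 0 < e → 0 < R → 0 < r → K₀ * r ≤ R →
      K₀ * (e * r) ≤ 1 →
      ENNReal.ofReal (c * (e * r ^ 4 * (R ^ 3) ^ n * ((Real.sqrt r)⁻¹ ^ 3) ^ (n + 1))) ≤
        volume (shellSet m e R r) := by
  set M : ℝ := ∑ i, m i with hM
  have hMpos : 0 < M := Finset.sum_pos (fun i _ => hm i) ⟨0, Finset.mem_univ _⟩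
  have h0 : ∀ k : ℕ, (volume : Measure (Fin k → V3)).IsAddHaarMeasure := fun k => inferInstance
  have h5 : ∀ k : ℕ, (volume : Measure (Rel k)).IsAddHaarMeasure := fun k =>
    have := h0 k
    Measure.prod.instIsAddHaarMeasure _ _
  have h6 := h5 (n + 1)
  obtain ⟨c₁, hc₁, hcS⟩ := exists_scale (volume : Measure (Rel (n + 1))) volume
    (relEquiv m hm).symm
  set A : ℝ := m (Fin.castSucc 0) * m (Fin.last (n + 1)) with hA
  have hApos : 0 < A := mul_pos (hm _) (hm _)
  obtain ⟨c₃, hc₃, hPm⟩ := volume_Pm hm hApos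
  set ρ : ℝ := 1 / ((6 * n + 7) * (1 + M)) with hρ
  have hρpos : 0 < ρ := by positivity
  set ω : ℝ≥0∞ := volume (Metric.ball (0 : V3) 1) with hω
  have hωtop : ω ≠ ⊤ := Metric.isBounded_ball.measure_lt_top.ne
  have hωpos : 0 < ω := Metric.measure_ball_pos volume _ one_pos
  set w : ℝ := ω.toReal with hw
  have hwpos : 0 < w := ENNReal.toReal_pos hωpos.ne' hωtop
  have hfin : Module.finrank ℝ V3 = 3 := by simp [V3]
  have hball : ∀ (a : V3) (s : ℝ), 0 ≤ s →
      volume (Metric.closedBall a s) = ENNReal.ofReal (w * s ^ 3) := by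
    intro a s hs
    rw [Measure.addHaar_closedBall _ _ hs, hfin, ← hω, mul_comm, ENNReal.ofReal_mul hwpos.le, hw,
      ENNReal.ofReal_toReal hωtop]
  refine ⟨w * (1 / 8) ^ 3 * (w * ρ ^ 3) ^ n * c₃ / ((c₁ + 1) * (16 * A)),
    1 / ρ + 5 / 4 * M ^ 2 / (A * ρ) + 8 / A, by positivity, by positivity, ?_⟩
  intro e R r he hR hr hK1 hK2
  set l : ℝ := ρ * R with hl
  have hlpos : 0 < l := by positivity
  have hrl : r ≤ l := by
    have h7 : 1 / ρ * r ≤ R := by
      refine le_trans ?_ hK1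
      apply mul_le_mul_of_nonneg_right _ hr.le
      have h8 : 0 ≤ 5 / 4 * M ^ 2 / (A * ρ) := by positivity
      have h9 : 0 ≤ 8 / A := by positivity
      linarith
    rw [div_mul_eq_mul_div, div_le_iff₀ hρpos] at h7
    rw [hl]; linarith
  have hML : M ^ 2 / (2 * l) ≤ 2 / 5 * (A / r) := by
    have h7 : 5 / 4 * M ^ 2 / (A * ρ) * r ≤ R := by
      refine le_trans ?_ hK1
      apply mul_le_mul_of_nonneg_right _ hr.le
      have h8 : 0 ≤ 1 / ρ := by positivity
      have h9 : 0 ≤ 8 / A := by positivity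
      linarith
    rw [div_mul_eq_mul_div, div_le_iff₀ (by positivity)] at h7
    rw [mul_div_assoc', div_le_div_iff₀ (by positivity) hr, hl]
    linarith
  have hea : 8 * e ≤ A / r := by
    have h7 : 8 / A * (e * r) ≤ 1 := by
      refine le_trans ?_ hK2
      apply mul_le_mul_of_nonneg_right _ (by positivity)
      have h8 : 0 ≤ 1 / ρ := by positivity
      have h9 : 0 ≤ 5 / 4 * M ^ 2 / (A * ρ) := by positivity
      linarith
    rw [div_mul_eq_mul_div, div_le_iff₀ hApos] at h7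
    rw [le_div_iff₀ hr]
    linarith
  obtain ⟨u, hu⟩ : ∃ u : V3, ‖u‖ = 1 := ⟨EuclideanSpace.single 0 1, by simp⟩
  set s1 : Fin (n + 1) → Set V3 := Fin.cases (Metric.closedBall ((3 / 4 * r) • u) (r / 8))
    (fun k => Metric.closedBall ((6 * l * (((k : Fin n) : ℕ) + 1)) • u) l) with hs1
  set G : Set (Rel (n + 1)) := (Set.univ.pi s1) ×ˢ (Pm m (A / r)) with hG
  set P : Set (Rel (n + 1)) := (relEquiv m hm) ⁻¹' G with hP
  set Q : Set (Rel (n + 1)) := {z | Real.sqrt (∑ i, m i * ‖(state m z).1 i‖ ^ 2) ≤ R ∧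
    (∀ i j, i ≠ j → r / 2 ≤ ‖(state m z).1 i - (state m z).1 j‖) ∧
    ∃ i j, i ≠ j ∧ ‖(state m z).1 i - (state m z).1 j‖ ≤ r} with hQ
  have hpos : ∀ z ∈ P, (∀ i j, i ≠ j → r / 2 ≤ ‖(state m z).1 i - (state m z).1 j‖) ∧
    (∃ i j, i ≠ j ∧ ‖(state m z).1 i - (state m z).1 j‖ ≤ r) ∧
    8 / 7 * (m (Fin.castSucc 0) * m (Fin.last (n + 1)) / r) ≤ pot m (state m z).1 ∧
    pot m (state m z).1 ≤ 8 / 5 * (m (Fin.castSucc 0) * m (Fin.last (n + 1)) / r) +
      (∑ i, m i) ^ 2 / (2 * l) ∧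
    ∑ i, m i * ‖(state m z).1 i‖ ^ 2 ≤ (∑ i, m i) * ((6 * n + 7) * l) ^ 2 := by
    rintro z ⟨hz1, hz2⟩
    apply positions_of_balls hm hlpos hr hrl z hu
    · have := hz1 0 (Set.mem_univ _)
      rw [hs1] at this
      simpa only [Fin.cases_zero, mem_closedBall_iff_norm] using this
    · intro k
      have := hz1 k.succ (Set.mem_univ _)
      rw [hs1] at this
      simpa only [Fin.cases_succ, mem_closedBall_iff_norm] using this
  have hPQ : ∀ z ∈ P, ∀ t : ℝ, 0 < t → ((z.1, t • z.2) : Rel (n + 1)) ∈ Q := by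
    intro z hz t _
    obtain ⟨b1, b2, _, _, b5⟩ := hpos z hz
    refine ⟨?_, b1, b2⟩
    change Real.sqrt (∑ i, m i * ‖(state m z).1 i‖ ^ 2) ≤ R
    rw [Real.sqrt_le_left hR.le]
    refine b5.trans ?_
    rw [← hM, hl]
    have h7 : (6 * (n:ℝ) + 7) * (ρ * R) = R / (1 + M) := by
      rw [hρ]; field_simp
    rw [h7, div_pow, mul_div_assoc', div_le_iff₀ (by positivity)]
    have h8 : M ≤ (1 + M) ^ 2 := by nlinarith
    calc M * R ^ 2 ≤ (1 + M) ^ 2 * R ^ 2 := mul_le_mul_of_nonneg_right h8 (sq_nonneg _)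
      _ = _ := mul_comm _ _
  have hcov := covering (n + 1) P Q hPQ (fun z => kin m (state m z).2)
    (fun z => pot m (state m z).1)
    (fun z t => by rw [state_scale, kin_smul])
    (fun z t => rfl) (a := A / r) (e := e) (by positivity) he hea
    (by
      intro z hz
      obtain ⟨_, _, b3, b4, _⟩ := hpos z hz
      have hz2 : z.2 ∈ Pm m (A / r) := hz.2
      refine ⟨hz2.1.le, hz2.2.le, b3, ?_⟩
      rw [← hM, ← hA] at b4
      linarith)
  have hQS : {z | z ∈ Q ∧ kin m (state m z).2 - pot m (state m z).1 ∈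
      Set.Icc (-(2 * e)) (-e)} ⊆ shellSet m e R r := by
    rintro z ⟨⟨b1, b2, b3⟩, b4⟩
    exact ⟨b4, b1, b2, b3⟩
  have hGvol : ENNReal.ofReal (w * (r / 8) ^ 3 * (w * l ^ 3) ^ n *
      (c₃ * ((Real.sqrt r)⁻¹ ^ 3) ^ (n + 1))) ≤ volume G := by
    rw [hG, Measure.volume_eq_prod, Measure.prod_prod, volume_pi_pi, Fin.prod_univ_succ]
    have h7 : volume (s1 0) = ENNReal.ofReal (w * (r / 8) ^ 3) := hball _ _ (by positivity)
    have h8 : ∀ k : Fin n, volume (s1 k.succ) = ENNReal.ofReal (w * l ^ 3) :=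
      fun k => hball _ _ hlpos.le
    rw [h7, Finset.prod_congr rfl (fun k _ => h8 k),
      Finset.prod_const, Finset.card_univ, Fintype.card_fin,
      ← ENNReal.ofReal_pow (by positivity), ENNReal.ofReal_mul (by positivity),
      ENNReal.ofReal_mul (by positivity)]
    gcongr
    exact hPm r hr
  have hback : (relEquiv m hm).symm ⁻¹' P = G := by
    ext z
    simp [hP]
  have hle := hcS P
  rw [hback] at hle
  have hsr : 0 < Real.sqrt r := Real.sqrt_pos.mpr hr
  have hle2 : ENNReal.ofReal (w * (r / 8) ^ 3 * (w * l ^ 3) ^ n *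
      (c₃ * ((Real.sqrt r)⁻¹ ^ 3) ^ (n + 1))) ≤
      ENNReal.ofReal ((c₁ + 1) * (16 * (A / r / e))) * volume (shellSet m e R r) := by
    calc _ ≤ volume G := hGvol
      _ ≤ ENNReal.ofReal c₁ * volume P := hle
      _ ≤ ENNReal.ofReal (c₁ + 1) * (ENNReal.ofReal (16 * (A / r / e)) *
          volume (shellSet m e R r)) := by
          gcongr
          · linarith
          · exact hcov.trans (mul_le_mul' le_rfl (measure_mono hQS))
      _ = _ := by rw [← mul_assoc, ← ENNReal.ofReal_mul (by positivity)]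
  have hB : 0 < (c₁ + 1) * (16 * (A / r / e)) := by positivity
  have h12 : w * (r / 8) ^ 3 * (w * l ^ 3) ^ n * (c₃ * ((Real.sqrt r)⁻¹ ^ 3) ^ (n + 1)) =
      ((c₁ + 1) * (16 * (A / r / e))) *
      (w * (1 / 8) ^ 3 * (w * ρ ^ 3) ^ n * c₃ / ((c₁ + 1) * (16 * A)) *
        (e * r ^ 4 * (R ^ 3) ^ n * ((Real.sqrt r)⁻¹ ^ 3) ^ (n + 1))) := by
    have h13 : (w * l ^ 3) ^ n = (w * ρ ^ 3) ^ n * (R ^ 3) ^ n := by
      rw [hl, ← mul_pow]; congr 1; ring
    rw [h13]
    have h14 : c₁ + 1 ≠ 0 := by positivity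
    field_simp
  rw [h12, ENNReal.ofReal_mul hB.le] at hle2
  have hne0 : ENNReal.ofReal ((c₁ + 1) * (16 * (A / r / e))) ≠ 0 := by
    rw [ne_eq, ENNReal.ofReal_eq_zero, not_le]; exact hB
  exact (ENNReal.mul_le_mul_iff_right hne0 ENNReal.ofReal_ne_top).mp hle2

end Pool.Agent.NBody
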